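import Pool.Agent.H.MP_ceb9a9.Scv1

set_option autoImplicit false
open Set Metric Filter
open scoped Topology

noncomputable section
namespace OkaP

variable {E F : Type} [NormedAddCommGroup E] [NormedSpace ℂ E]
  [NormedAddCommGroup F] [NormedSpace ℂ F]

variable [FiniteDimensional ℂ E]

/-- integrals depending on a holomorphic parameter. -/
theorem differentiableOn_integral [CompleteSpace F] {f : E → ℝ → F} {U : Set E} (hU : IsOpen U) {a b : ℝ}
    (hc : ContinuousOn (fun q : E × ℝ => f q.1 q.2) (U ×ˢ uIcc a b))
    (hf : ∀ t ∈ uIcc a b, DifferentiableOn ℂ (fun x => f x t) U) :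
    DifferentiableOn ℂ (fun x => ∫ t in a..b, f x t) U := by
  have : ProperSpace E := FiniteDimensional.proper ℂ E
  intro x hx
  obtain ⟨r, hr, hrU⟩ := Metric.nhds_basis_closedBall.mem_iff.mp (hU.mem_nhds hx)
  have hball : ball x r ⊆ U := ball_subset_closedBall.trans hrU
  have hK : IsCompact (closedBall x r ×ˢ uIcc a b) := (isCompact_closedBall x r).prod isCompact_uIcc
  have hcK : ContinuousOn (fun q : E × ℝ => f q.1 q.2) (closedBall x r ×ˢ uIcc a b) :=
    hc.mono (prod_mono hrU subset_rfl)
  obtain ⟨M, hM⟩ := hK.exists_bound_of_continuousOn hcK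
  have hM' : ∀ y ∈ closedBall x r, ∀ t ∈ uIcc a b, ‖f y t‖ ≤ M := fun y hy t ht => hM (y, t) ⟨hy, ht⟩
  -- slices are continuous
  have hslice : ∀ y ∈ U, ContinuousOn (fun t => f y t) (uIcc a b) := by
    intro y hy
    have h1 : ContinuousOn (fun t : ℝ => ((y, t) : E × ℝ)) (uIcc a b) := by fun_prop
    exact hc.comp h1 (fun t ht => ⟨hy, ht⟩)
  have hIoc : Set.uIoc a b ⊆ uIcc a b := uIoc_subset_uIcc
  -- uniform continuity
  have huc : UniformContinuousOn (fun q : E × ℝ => f q.1 q.2) (closedBall x r ×ˢ uIcc a b) :=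
    hK.uniformContinuousOn_of_continuous hcK
  -- the derivative is continuous in t
  have hF' : ContinuousOn (fun t => fderiv ℂ (fun y => f y t) x) (uIcc a b) := by
    rw [Metric.continuousOn_iff]
    intro t0 ht0 ε hε
    rw [Metric.uniformContinuousOn_iff] at huc
    obtain ⟨δ, hδ, hδ'⟩ := huc (r * (ε / 2)) (by positivity)
    refine ⟨δ, hδ, fun t ht htd => ?_⟩
    have hd : DifferentiableAt ℂ (fun y => f y t) x :=
      (hf t ht).differentiableAt (hU.mem_nhds hx)
    have hd0 : DifferentiableAt ℂ (fun y => f y t0) x :=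
      (hf t0 ht0).differentiableAt (hU.mem_nhds hx)
    have h1 : fderiv ℂ (fun y => f y t - f y t0) x
        = fderiv ℂ (fun y => f y t) x - fderiv ℂ (fun y => f y t0) x := by
      exact fderiv_sub hd hd0
    rw [dist_eq_norm, ← h1]
    have h2 : ‖fderiv ℂ (fun y => f y t - f y t0) x‖ ≤ (r * (ε / 2)) / r := by
      apply norm_fderiv_le hr
      · exact ((hf t ht).mono hball).sub ((hf t0 ht0).mono hball)
      · intro y hy
        have hy' := ball_subset_closedBall hy
        have h3 := hδ' (y, t) ⟨hy', ht⟩ (y, t0) ⟨hy', ht0⟩ (by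
          rw [Prod.dist_eq]
          simp only [dist_self]
          exact max_lt hδ htd)
        rw [dist_eq_norm] at h3
        exact h3.le
    have h4 : (r * (ε / 2)) / r = ε / 2 := by field_simp
    rw [h4] at h2
    linarith
  have key := intervalIntegral.hasFDerivAt_integral_of_dominated_of_fderiv_le (𝕜 := ℂ)
    (μ := MeasureTheory.volume) (a := a) (b := b) (s := ball x (r / 2))
    (F := f) (F' := fun y t => fderiv ℂ (fun y => f y t) y) (x₀ := x)
    (bound := fun _ => M / (r / 2)) (ball_mem_nhds x (by positivity)) ?_ ?_ ?_ ?_ ?_ ?_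
  · exact key.differentiableAt.differentiableWithinAt
  · filter_upwards [hU.mem_nhds hx] with y hy
    exact ((hslice y hy).mono hIoc).aestronglyMeasurable measurableSet_uIoc
  · exact (hslice x hx).intervalIntegrable
  · exact (hF'.mono hIoc).aestronglyMeasurable measurableSet_uIoc
  · refine Eventually.of_forall fun t ht y hy => ?_
    have hyb : ball y (r / 2) ⊆ ball x r := by
      intro z hz
      rw [mem_ball] at hy hz ⊢
      calc dist z x ≤ dist z y + dist y x := dist_triangle _ _ _
        _ < r / 2 + r / 2 := by linarith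
        _ = r := by ring
    apply norm_fderiv_le (by positivity)
    · exact (hf t (hIoc ht)).mono (hyb.trans hball)
    · intro z hz
      exact hM' z (ball_subset_closedBall (hyb hz)) t (hIoc ht)
  · exact intervalIntegrable_const
  · refine Eventually.of_forall fun t ht y hy => ?_
    have hyU : y ∈ U := hball (ball_subset_ball (by linarith) hy)
    exact ((hf t (hIoc ht)).differentiableAt (hU.mem_nhds hyU)).hasFDerivAt

end OkaP
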