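import Mathlib

set_option autoImplicit false
open Set Metric Filter
open scoped Topology

noncomputable section
namespace OkaP

variable {E F : Type} [NormedAddCommGroup E] [NormedSpace ℂ E]
  [NormedAddCommGroup F] [NormedSpace ℂ F]

/-- Cauchy estimate for the derivative. -/
theorem norm_fderiv_le {f : E → F} {x : E} {r M : ℝ} (hr : 0 < r)
    (hf : DifferentiableOn ℂ f (ball x r)) (hM : ∀ y ∈ ball x r, ‖f y‖ ≤ M) :
    ‖fderiv ℂ f x‖ ≤ M / r := by
  have hM0 : 0 ≤ M := (norm_nonneg _).trans (hM x (mem_ball_self hr))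
  refine ContinuousLinearMap.opNorm_le_bound _ (by positivity) fun v => ?_
  by_cases hv : v = 0
  · simp [hv]
  have hv0 : 0 < ‖v‖ := norm_pos_iff.mpr hv
  have hfx : DifferentiableAt ℂ f x := hf.differentiableAt (isOpen_ball.mem_nhds (mem_ball_self hr))
  have hline : ∀ s : ℂ, ‖s‖ * ‖v‖ < r → x + s • v ∈ ball x r := by
    intro s hs
    rw [mem_ball, dist_eq_norm]
    simpa [norm_smul] using hs
  have hder : deriv (fun s : ℂ => f (x + s • v)) 0 = fderiv ℂ f x v := by
    have h1 : HasDerivAt (fun s : ℂ => x + s • v) v 0 := by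
      simpa using ((hasDerivAt_id (0 : ℂ)).smul_const v).const_add x
    have h2 : HasFDerivAt f (fderiv ℂ f x) (x + (0 : ℂ) • v) := by
      simpa using hfx.hasFDerivAt
    exact (h2.comp_hasDerivAt (0 : ℂ) h1).deriv
  have key : ∀ ρ ∈ Ioo 0 r, ‖fderiv ℂ f x v‖ * ρ ≤ M * ‖v‖ := by
    intro ρ hρ
    have hR : 0 < ρ / ‖v‖ := div_pos hρ.1 hv0
    have hcl : ∀ s ∈ closedBall (0 : ℂ) (ρ / ‖v‖), x + s • v ∈ ball x r := by
      intro s hs
      apply hline
      rw [mem_closedBall, dist_zero_right, le_div_iff₀ hv0] at hs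
      linarith [hρ.2]
    have hd : DifferentiableOn ℂ (fun s : ℂ => f (x + s • v)) (closedBall 0 (ρ / ‖v‖)) := by
      have h8 : DifferentiableOn ℂ (fun s : ℂ => x + s • v) (closedBall 0 (ρ / ‖v‖)) :=
        (differentiable_id.smul_const v).const_add x |>.differentiableOn
      exact hf.comp h8 hcl
    have h3 : DiffContOnCl ℂ (fun s : ℂ => f (x + s • v)) (ball 0 (ρ / ‖v‖)) := by
      apply DifferentiableOn.diffContOnCl
      rw [closure_ball _ hR.ne']
      exact hd
    have h4 := Complex.norm_deriv_le_of_forall_mem_sphere_norm_le hR h3 (C := M)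
      (fun s hs => hM _ (hcl s (sphere_subset_closedBall hs)))
    rw [hder] at h4
    have h5 : M / (ρ / ‖v‖) = M * ‖v‖ / ρ := by field_simp
    rw [h5, le_div_iff₀ hρ.1] at h4
    exact h4
  have h6 : Tendsto (fun ρ : ℝ => ‖fderiv ℂ f x v‖ * ρ) (𝓝[<] r) (𝓝 (‖fderiv ℂ f x v‖ * r)) :=
    ((continuous_const.mul continuous_id).tendsto r).mono_left nhdsWithin_le_nhds
  have h7 : ‖fderiv ℂ f x v‖ * r ≤ M * ‖v‖ :=
    le_of_tendsto h6 (eventually_of_mem (Ioo_mem_nhdsLT hr) key)
  rw [div_mul_eq_mul_div, le_div_iff₀ hr]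
  exact h7

/-- Lipschitz estimate (mean value + Cauchy) inside a ball. -/
theorem norm_sub_le_of_bound {f : E → F} {x y z : E} {r M : ℝ} (hr : 0 < r)
    (hf : DifferentiableOn ℂ f (ball x r)) (hM : ∀ y ∈ ball x r, ‖f y‖ ≤ M)
    (hy : y ∈ ball x (r / 2)) (hz : z ∈ ball x (r / 2)) :
    ‖f y - f z‖ ≤ 2 * M / r * ‖y - z‖ := by
  have hsub : ∀ w ∈ ball x (r / 2), ball w (r / 2) ⊆ ball x r := by
    intro w hw
    apply ball_subset_ball'
    rw [mem_ball] at hw
    linarith
  have h1 : ∀ w ∈ ball x (r / 2), DifferentiableAt ℂ f w := fun w hw =>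
    hf.differentiableAt (isOpen_ball.mem_nhds (hsub w hw (mem_ball_self (half_pos hr))))
  have h2 : ∀ w ∈ ball x (r / 2), ‖fderiv ℂ f w‖ ≤ 2 * M / r := by
    intro w hw
    have h3 := norm_fderiv_le (half_pos hr) (hf.mono (hsub w hw)) (fun u hu => hM u (hsub w hw hu))
    refine h3.trans (le_of_eq ?_)
    field_simp
  letI : NormedSpace ℝ E := NormedSpace.restrictScalars ℝ ℂ E
  exact Convex.norm_image_sub_le_of_norm_fderiv_le h1 h2 (convex_ball x (r / 2)) hz hy

/-- the derivative of a bounded holomorphic map is Lipschitz. -/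
theorem scv1_fderiv_lip {f : E → F} {x y z : E} {r M : ℝ} (hr : 0 < r)
    (hf : DifferentiableOn ℂ f (ball x r)) (hM : ∀ y ∈ ball x r, ‖f y‖ ≤ M)
    (hy : y ∈ ball x (r / 4)) (hz : z ∈ ball x (r / 4)) :
    ‖fderiv ℂ f y - fderiv ℂ f z‖ ≤ 8 * M / r ^ 2 * ‖y - z‖ := by
  have hM0 : 0 ≤ M := (norm_nonneg _).trans (hM x (mem_ball_self hr))
  have hr4 : 0 < r / 4 := by positivity
  rw [mem_ball, dist_eq_norm] at hy hz
  have hin : ∀ u ∈ ball z (r / 4), u ∈ ball x (r / 2) ∧ u + (y - z) ∈ ball x (r / 2) := by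
    intro u hu
    rw [mem_ball, dist_eq_norm] at hu
    constructor
    · rw [mem_ball, dist_eq_norm]
      calc ‖u - x‖ = ‖(u - z) + (z - x)‖ := by congr 1; abel
        _ ≤ ‖u - z‖ + ‖z - x‖ := norm_add_le _ _
        _ < r / 2 := by linarith
    · rw [mem_ball, dist_eq_norm]
      calc ‖u + (y - z) - x‖ = ‖(u - z) + (y - x)‖ := by congr 1; abel
        _ ≤ ‖u - z‖ + ‖y - x‖ := norm_add_le _ _
        _ < r / 2 := by linarith
  have hhalf : ball x (r / 2) ⊆ ball x r := ball_subset_ball (by linarith)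
  have hd1 : DifferentiableOn ℂ (fun u => f (u + (y - z))) (ball z (r / 4)) :=
    hf.comp (differentiableOn_id.add_const _) (fun u hu => hhalf (hin u hu).2)
  have hd2 : DifferentiableOn ℂ f (ball z (r / 4)) := hf.mono (fun u hu => hhalf (hin u hu).1)
  have h1 := norm_fderiv_le (f := fun u => f (u + (y - z)) - f u) (x := z) (M := 2 * M / r * ‖y - z‖)
    hr4 (hd1.sub hd2) (by
      intro u hu
      have h2 := norm_sub_le_of_bound hr hf hM (hin u hu).2 (hin u hu).1
      refine h2.trans (le_of_eq ?_)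
      congr 2
      abel)
  have hzz : z ∈ ball z (r / 4) := mem_ball_self hr4
  have hmem : ball z (r / 4) ∈ 𝓝 z := isOpen_ball.mem_nhds hzz
  have h3 : fderiv ℂ (fun u => f (u + (y - z)) - f u) z = fderiv ℂ f y - fderiv ℂ f z := by
    have h4 : HasFDerivAt (fun u => f (u + (y - z))) (fderiv ℂ f y) z := by
      have h5 : DifferentiableAt ℂ f y := hf.differentiableAt
        (isOpen_ball.mem_nhds (by rw [mem_ball, dist_eq_norm]; linarith))
      have h6 : HasFDerivAt f (fderiv ℂ f y) (z + (y - z)) := by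
        rw [add_sub_cancel]; exact h5.hasFDerivAt
      have h7 := h6.comp z ((hasFDerivAt_id z).add_const (y - z))
      rw [ContinuousLinearMap.comp_id] at h7
      exact h7
    exact (h4.sub (hd2.differentiableAt hmem).hasFDerivAt).fderiv
  rw [h3] at h1
  refine h1.trans (le_of_eq ?_)
  field_simp
  ring

/-- Weierstrass: a uniform limit of holomorphic maps on a ball is differentiable at the centre. -/
theorem scv1_weierstrass [CompleteSpace F] {fn : ℕ → E → F} {g : E → F} {x : E} {r : ℝ}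
    (hr : 0 < r) (hfn : ∀ n, DifferentiableOn ℂ (fn n) (ball x r))
    (hlim : TendstoUniformlyOn fn g atTop (ball x r)) : DifferentiableAt ℂ g x := by
  have hsub : ∀ w ∈ ball x (r / 2), ball w (r / 2) ⊆ ball x r := by
    intro w hw
    apply ball_subset_ball'
    rw [mem_ball] at hw
    linarith
  have hdiff : ∀ n, ∀ w ∈ ball x (r / 2), DifferentiableAt ℂ (fn n) w := fun n w hw =>
    (hfn n).differentiableAt (isOpen_ball.mem_nhds (hsub w hw (mem_ball_self (half_pos hr))))
  have hC : UniformCauchySeqOn (fun n y => fderiv ℂ (fn n) y) atTop (ball x (r / 2)) := by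
    rw [Metric.uniformCauchySeqOn_iff]
    intro ε hε
    obtain ⟨N, hN⟩ := Metric.uniformCauchySeqOn_iff.mp hlim.uniformCauchySeqOn (ε * r / 4)
      (by positivity)
    refine ⟨N, fun m hm n hn y hy => ?_⟩
    have h1 := norm_fderiv_le (f := fun u => fn m u - fn n u) (x := y) (M := ε * r / 4)
      (half_pos hr) (((hfn m).mono (hsub y hy)).sub ((hfn n).mono (hsub y hy))) (by
        intro u hu
        have h2 := hN m hm n hn u (hsub y hy hu)
        rw [dist_eq_norm] at h2
        exact h2.le)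
    have h3 : fderiv ℂ (fun u => fn m u - fn n u) y = fderiv ℂ (fn m) y - fderiv ℂ (fn n) y :=
      ((hdiff m y hy).hasFDerivAt.sub (hdiff n y hy).hasFDerivAt).fderiv
    rw [h3] at h1
    rw [dist_eq_norm]
    refine h1.trans_lt ?_
    have h4 : ε * r / 4 / (r / 2) = ε / 2 := by field_simp; ring
    rw [h4]
    linarith
  have hpt : ∀ y, y ∈ ball x (r / 2) → ∃ L, Tendsto (fun n => fderiv ℂ (fn n) y) atTop (𝓝 L) := by
    intro y hy
    exact cauchySeq_tendsto_of_complete (hC.cauchySeq hy)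
  choose! g' hg' using hpt
  have hU : TendstoUniformlyOn (fun n y => fderiv ℂ (fn n) y) g' atTop (ball x (r / 2)) :=
    hC.tendstoUniformlyOn_of_tendsto hg'
  have hfin : HasFDerivAt g (g' x) x := hasFDerivAt_of_tendstoUniformlyOn (𝕜 := ℂ) (f := fn) (g := g)
    isOpen_ball hU
    (fun n y hy => (hdiff n y hy).hasFDerivAt)
    (fun y hy => hlim.tendsto_at (hsub y hy (mem_ball_self (half_pos hr))))
    (mem_ball_self (half_pos hr))
  exact hfin.differentiableAt

/-- directional derivatives of holomorphic maps are holomorphic. -/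
theorem scv1_dir [CompleteSpace F] {f : E → F} {U : Set E} (hU : IsOpen U)
    (hf : DifferentiableOn ℂ f U) (v : E) {x : E} (hx : x ∈ U) :
    DifferentiableAt ℂ (fun y => fderiv ℂ f y v) x := by
  -- a ball on which f is bounded
  obtain ⟨R, hR, hRU, hRM⟩ : ∃ R > 0, ball x R ⊆ U ∧ ∀ y ∈ ball x R, ‖f y‖ ≤ ‖f x‖ + 1 := by
    have hc : ContinuousAt f x := (hf.differentiableAt (hU.mem_nhds hx)).continuousAt
    have h1 : ∀ᶠ y in 𝓝 x, ‖f y‖ < ‖f x‖ + 1 :=
      hc.norm.eventually_lt_const (by simp)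
    obtain ⟨R, hR, hRb⟩ := Metric.mem_nhds_iff.mp (inter_mem (hU.mem_nhds hx) h1)
    exact ⟨R, hR, fun y hy => (hRb hy).1, fun y hy => (le_of_lt (hRb hy).2)⟩
  set M := ‖f x‖ + 1 with hMdef
  have hfR : DifferentiableOn ℂ f (ball x R) := hf.mono hRU
  have hM0 : 0 < M := by positivity
  obtain ⟨τ, hτ, hτv⟩ : ∃ τ > 0, τ * ‖v‖ < R / 8 := by
    refine ⟨R / 8 / (‖v‖ + 1), by positivity, ?_⟩
    rw [div_mul_eq_mul_div, div_lt_iff₀ (by positivity)]
    have : 0 < R / 8 := by positivity
    nlinarith [norm_nonneg v]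
  set t : ℕ → ℂ := fun n => ((τ / (n + 1) : ℝ) : ℂ) with ht
  have htn : ∀ n, ‖t n‖ = τ / (n + 1) := by
    intro n
    rw [ht]
    simp only [Complex.norm_real, Real.norm_eq_abs]
    rw [abs_of_pos (by positivity)]
  have ht0 : ∀ n, t n ≠ 0 := by
    intro n
    rw [← norm_pos_iff, htn]
    positivity
  have htle : ∀ n, ‖t n • v‖ < R / 8 := by
    intro n
    rw [norm_smul, htn]
    refine lt_of_le_of_lt ?_ hτv
    gcongr
    rw [div_le_iff₀ (by positivity)]
    have : (0 : ℝ) ≤ n := Nat.cast_nonneg n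
    nlinarith
  have hin : ∀ n, ∀ y ∈ ball x (R / 8), y + t n • v ∈ ball x (R / 4) := by
    intro n y hy
    rw [mem_ball, dist_eq_norm] at hy ⊢
    calc ‖y + t n • v - x‖ = ‖(y - x) + t n • v‖ := by congr 1; abel
      _ ≤ ‖y - x‖ + ‖t n • v‖ := norm_add_le _ _
      _ < R / 4 := by linarith [htle n]
  have h48 : ball x (R / 8) ⊆ ball x (R / 4) := ball_subset_ball (by linarith)
  have h4R : ball x (R / 4) ⊆ ball x R := ball_subset_ball (by linarith)
  refine scv1_weierstrass (fn := fun n y => (t n)⁻¹ • (f (y + t n • v) - f y)) (r := R / 8)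
    (by positivity) ?_ ?_
  · intro n
    refine DifferentiableOn.const_smul (DifferentiableOn.sub ?_ ?_) _
    · exact hfR.comp (differentiableOn_id.add_const _) (fun y hy => h4R (hin n y hy))
    · exact hfR.mono (h48.trans h4R)
  · rw [Metric.tendstoUniformlyOn_iff]
    intro ε hε
    have hbound : ∀ n, ∀ y ∈ ball x (R / 8),
        dist (fderiv ℂ f y v) ((t n)⁻¹ • (f (y + t n • v) - f y)) ≤
          8 * M / R ^ 2 * ‖v‖ ^ 2 * (τ / (n + 1)) := by
      intro n y hy
      letI : NormedSpace ℝ E := NormedSpace.restrictScalars ℝ ℂ E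
      have hs : closedBall y ‖t n • v‖ ⊆ ball x (R / 4) := by
        intro u hu
        rw [mem_closedBall, dist_eq_norm] at hu
        rw [mem_ball, dist_eq_norm] at hy ⊢
        calc ‖u - x‖ = ‖(u - y) + (y - x)‖ := by congr 1; abel
          _ ≤ ‖u - y‖ + ‖y - x‖ := norm_add_le _ _
          _ < R / 4 := by linarith [htle n]
      have h1 := Convex.norm_image_sub_le_of_norm_fderiv_le' (𝕜 := ℂ) (f := f)
        (s := closedBall y ‖t n • v‖) (x := y) (y := y + t n • v) (φ := fderiv ℂ f y)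
        (C := 8 * M / R ^ 2 * ‖t n • v‖)
        (fun u hu => hfR.differentiableAt (isOpen_ball.mem_nhds (h4R (hs hu))))
        (fun u hu => by
          have h2 := scv1_fderiv_lip hR hfR hRM (hs hu) (h48 hy)
          refine h2.trans ?_
          have h3 : ‖u - y‖ ≤ ‖t n • v‖ := by
            rw [mem_closedBall, dist_eq_norm] at hu; exact hu
          gcongr)
        (convex_closedBall _ _) (mem_closedBall_self (norm_nonneg _))
        (by rw [mem_closedBall, dist_eq_norm]; simp)
      rw [add_sub_cancel_left] at h1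
      rw [dist_eq_norm]
      have h4 : fderiv ℂ f y v - (t n)⁻¹ • (f (y + t n • v) - f y)
          = -((t n)⁻¹ • (f (y + t n • v) - f y - fderiv ℂ f y (t n • v))) := by
        have h9 : (t n)⁻¹ • fderiv ℂ f y (t n • v) = fderiv ℂ f y v := by
          rw [map_smul, smul_smul, inv_mul_cancel₀ (ht0 n), one_smul]
        rw [smul_sub (t n)⁻¹ (f (y + t n • v) - f y), h9, neg_sub]
      rw [h4, norm_neg, norm_smul, norm_inv, inv_mul_le_iff₀ (norm_pos_iff.mpr (ht0 n))]
      refine h1.trans (le_of_eq ?_)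
      rw [norm_smul, htn]
      ring
    have hlim0 : Tendsto (fun n : ℕ => 8 * M / R ^ 2 * ‖v‖ ^ 2 * (τ / ((n : ℝ) + 1))) atTop (𝓝 0) := by
      have h5 : Tendsto (fun n : ℕ => 8 * M / R ^ 2 * ‖v‖ ^ 2 * τ * (1 / ((n : ℝ) + 1))) atTop
          (𝓝 (8 * M / R ^ 2 * ‖v‖ ^ 2 * τ * 0)) :=
        tendsto_one_div_add_atTop_nhds_zero_nat.const_mul _
      rw [mul_zero] at h5
      refine h5.congr fun n => ?_
      ring
    filter_upwards [hlim0.eventually_lt_const hε] with n hn y hy
    exact (hbound n y hy).trans_lt hn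

variable [FiniteDimensional ℂ E]

/-- a complex differentiable function on an open set has a complex differentiable derivative. -/
theorem differentiableOn_fderiv [CompleteSpace F] {f : E → F} {U : Set E} (hU : IsOpen U)
    (hf : DifferentiableOn ℂ f U) : DifferentiableOn ℂ (fderiv ℂ f) U := by
  intro x hx
  apply DifferentiableAt.differentiableWithinAt
  let d := Module.finrank ℂ E
  have hd : d = Module.finrank ℂ (Fin d → ℂ) := (Module.finrank_fin_fun ℂ).symm
  let e₁ := ContinuousLinearEquiv.ofFinrankEq hd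
  let e₂ := (e₁.arrowCongr (1 : F ≃L[ℂ] F)).trans (ContinuousLinearEquiv.piRing (Fin d))
  rw [← Function.id_comp (fderiv ℂ f), ← e₂.symm_comp_self]
  refine e₂.symm.differentiable.differentiableAt.comp x ?_
  rw [differentiableAt_pi]
  intro i
  exact scv1_dir hU hf (e₁.symm (Pi.single i 1)) hx

theorem contDiffOn_of_diff [CompleteSpace F] {f : E → F} {U : Set E} (hU : IsOpen U)
    (hf : DifferentiableOn ℂ f U) (n : ℕ) : ContDiffOn ℂ n f U := by
  induction n generalizing F with
  | zero =>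
    have h : ContDiffOn ℂ 0 f U := contDiffOn_zero.mpr hf.continuousOn
    exact_mod_cast h
  | succ n ih =>
    have h1 : ((n + 1 : ℕ) : WithTop ℕ∞) = (n : WithTop ℕ∞) + 1 := by push_cast; rfl
    rw [h1, contDiffOn_succ_iff_fderiv_of_isOpen hU]
    refine ⟨hf, ?_, ih (differentiableOn_fderiv hU hf)⟩
    intro h
    exact absurd h (by simp)

end OkaP
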