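import Pool.Agent.H.MP_ceb9a9.Scv1

set_option autoImplicit false
open Set Metric Filter
open scoped Topology

noncomputable section
namespace OkaP

variable {E F : Type} [NormedAddCommGroup E] [NormedSpace ℂ E]
  [NormedAddCommGroup F] [NormedSpace ℂ F]

variable [FiniteDimensional ℂ E]

omit [FiniteDimensional ℂ E] in
theorem scv2_fderiv_sub {u v : E → F} {x y : E} {r ε : ℝ} (hr : 0 < r)
    (hu : DifferentiableOn ℂ u (ball x r)) (hv : DifferentiableOn ℂ v (ball x r))
    (he : ∀ y ∈ ball x r, ‖u y - v y‖ ≤ ε) (hy : y ∈ ball x (r / 2)) :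
    ‖fderiv ℂ u y - fderiv ℂ v y‖ ≤ ε / (r / 2) := by
  have hsub : ball y (r / 2) ⊆ ball x r := by
    intro z hz
    rw [mem_ball] at hz hy ⊢
    have := dist_triangle z y x
    linarith
  have hyx : y ∈ ball x r := hsub (mem_ball_self (by linarith))
  have h1 : DifferentiableAt ℂ u y := (hu y hyx).differentiableAt (isOpen_ball.mem_nhds hyx)
  have h2 : DifferentiableAt ℂ v y := (hv y hyx).differentiableAt (isOpen_ball.mem_nhds hyx)
  have h3 : fderiv ℂ (fun z => u z - v z) y = fderiv ℂ u y - fderiv ℂ v y := by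
    have := (h1.hasFDerivAt.sub h2.hasFDerivAt).fderiv
    exact this
  rw [← h3]
  refine norm_fderiv_le (half_pos hr) ((hu.sub hv).mono hsub) ?_
  intro z hz
  exact he z (hsub hz)

/-- Weierstrass: locally uniform limits of holomorphic functions are holomorphic. -/
theorem weierstrass [CompleteSpace F] {f : ℕ → E → F} {g : E → F} {U : Set E} (hU : IsOpen U)
    (hf : ∀ n, DifferentiableOn ℂ (f n) U)
    (hg : ∀ x ∈ U, ∃ r > 0, ball x r ⊆ U ∧ ∀ ε > 0, ∃ N, ∀ n ≥ N, ∀ y ∈ ball x r, ‖f n y - g y‖ ≤ ε) :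
    DifferentiableOn ℂ g U := by
  intro x hx
  obtain ⟨r, hr, hrU, hε⟩ := hg x hx
  have hr2 : 0 < r / 2 := half_pos hr
  -- uniform Cauchy property of the derivatives
  have hC : UniformCauchySeqOn (fun n y => fderiv ℂ (f n) y) atTop (ball x (r / 2)) := by
    rw [Metric.uniformCauchySeqOn_iff]
    intro ε he
    obtain ⟨N, hN⟩ := hε (ε * (r / 2) / 4) (by positivity)
    refine ⟨N, fun n hn k hk y hy => ?_⟩
    rw [dist_eq_norm]
    have := scv2_fderiv_sub (u := f n) (v := f k) (ε := ε * (r / 2) / 2) hr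
      ((hf n).mono hrU) ((hf k).mono hrU) (fun z hz => ?_) hy
    · refine lt_of_le_of_lt this ?_
      rw [div_lt_iff₀ hr2]
      nlinarith [mul_pos he hr2]
    · have h1 := hN n hn z hz
      have h2 := hN k hk z hz
      have h3 : f n z - f k z = (f n z - g z) - (f k z - g z) := by abel
      rw [h3]
      refine (norm_sub_le _ _).trans ?_
      linarith
  have hlim : ∀ y ∈ ball x (r / 2), ∃ L : E →L[ℂ] F,
      Tendsto (fun n => fderiv ℂ (f n) y) atTop (𝓝 L) := by
    intro y hy
    exact cauchySeq_tendsto_of_complete (hC.cauchySeq hy)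
  choose! g' hg' using hlim
  have hU' : TendstoUniformlyOn (fun n y => fderiv ℂ (f n) y) g' atTop (ball x (r / 2)) :=
    hC.tendstoUniformlyOn_of_tendsto hg'
  have hd : HasFDerivAt g (g' x) x := by
    refine hasFDerivAt_of_tendstoUniformlyOn (f := f) isOpen_ball hU' ?_ ?_ (mem_ball_self hr2)
    · intro n y hy
      have hyU : y ∈ U := hrU (ball_subset_ball (by linarith) hy)
      exact ((hf n y hyU).differentiableAt (hU.mem_nhds hyU)).hasFDerivAt
    · intro y hy
      have hyr : y ∈ ball x r := ball_subset_ball (by linarith) hy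
      rw [Metric.tendsto_atTop]
      intro ε he
      obtain ⟨N, hN⟩ := hε (ε / 2) (by positivity)
      refine ⟨N, fun n hn => ?_⟩
      rw [dist_eq_norm]
      have := hN n hn y hyr
      linarith
  exact hd.differentiableAt.differentiableWithinAt

end OkaP
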