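import Pool.Agent.H.MP_ceb9a9.Ns
import Pool.Agent.H.MP_ceb9a9.Scv2

set_option autoImplicit false
open Set Metric Filter
open scoped Topology

noncomputable section
namespace OkaP

variable {E V : Type} [NormedAddCommGroup E] [NormedSpace ℂ E] [FiniteDimensional ℂ E]
  [NormedAddCommGroup V] [NormedSpace ℂ V] [FiniteDimensional ℂ V]

/-- as `SplitScale`, with approximate splittings (error `τ` arbitrarily small); the incoming weight
is bounded below. -/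
structure ApproxScale (DA DB : ℝ → Set (E × V)) (p q : E → ℝ) (κ₀ C : ℝ) (M : ℕ) : Prop where
  openA : ∀ s, 0 ≤ s → s ≤ 1 → IsOpen (DA s)
  openB : ∀ s, 0 ≤ s → s ≤ 1 → IsOpen (DB s)
  pq : ∀ z, 0 ≤ p z ∧ p z ≤ q z ∧ q z ≤ 1
  plow : ∃ p₀ > 0, ∀ z ζ, (z, ζ) ∈ DA 0 ∩ DB 0 → p₀ ≤ p z
  shrinkA : ∀ s s' z ζ ζ', 0 ≤ s → s ≤ s' → s' ≤ 1 → (z, ζ) ∈ DA s' →
    ‖ζ' - ζ‖ ≤ κ₀ * (s' - s) → (z, ζ') ∈ DA s
  shrinkB : ∀ s s' z ζ ζ', 0 ≤ s → s ≤ s' → s' ≤ 1 → (z, ζ) ∈ DB s' →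
    ‖ζ' - ζ‖ ≤ κ₀ * (s' - s) → (z, ζ') ∈ DB s
  starA : ∀ s z ζ, 0 ≤ s → s ≤ 1 → (z, ζ) ∈ DA s → (z, 0) ∈ DA s
  starB : ∀ s z ζ, 0 ≤ s → s ≤ 1 → (z, ζ) ∈ DB s → (z, 0) ∈ DB s
  split : ∀ s s', 0 ≤ s → s < s' → s' ≤ 1 → ∀ (c : E × V → V) (κ τ : ℝ), 0 < κ → 0 < τ →
    DifferentiableOn ℂ c (DA s ∩ DB s) →
    (∀ z ζ, (z, ζ) ∈ DA s ∩ DB s → ‖c (z, ζ)‖ ≤ κ * p z) →
    ∃ a b : E × V → V, DifferentiableOn ℂ a (DA s') ∧ DifferentiableOn ℂ b (DB s') ∧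
      (∀ z ζ, (z, ζ) ∈ DA s' → ‖a (z, ζ)‖ ≤ C / (s' - s) ^ M * κ * q z) ∧
      (∀ z ζ, (z, ζ) ∈ DB s' → ‖b (z, ζ)‖ ≤ C / (s' - s) ^ M * κ * q z) ∧
      ∀ x ∈ DA s' ∩ DB s', ‖b x - a x - c x‖ ≤ τ

omit [NormedAddCommGroup E] [NormedSpace ℂ E] [FiniteDimensional ℂ E] [NormedSpace ℂ V]
  [FiniteDimensional ℂ V] in
theorem ApproxScale_mono {DA : ℝ → Set (E × V)} {κ₀ : ℝ}
    (hs : ∀ s s' z ζ ζ', 0 ≤ s → s ≤ s' → s' ≤ 1 → (z, ζ) ∈ DA s' →
      ‖ζ' - ζ‖ ≤ κ₀ * (s' - s) → (z, ζ') ∈ DA s) (hκ₀ : 0 ≤ κ₀)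
    {s s' : ℝ} (h0 : 0 ≤ s) (h1 : s ≤ s') (h2 : s' ≤ 1) : DA s' ⊆ DA s := by
  rintro ⟨z, ζ⟩ hz
  refine hs s s' z ζ ζ h0 h1 h2 hz ?_
  rw [sub_self, norm_zero]
  exact mul_nonneg hκ₀ (by linarith)

theorem ApproxScale_sum {U : Set (E × V)} (hU : IsOpen U) {a : ℕ → E × V → V}
    (ha : ∀ j, DifferentiableOn ℂ (a j) U) {D : ℝ} (hD : 0 ≤ D) {w : E × V → ℝ}
    (hw : ∀ x, w x ≤ 1)
    (hb : ∀ j, ∀ x ∈ U, ‖a j x‖ ≤ D * w x * (1 / 2) ^ j) :
    DifferentiableOn ℂ (fun x => ∑' j, a j x) U ∧ (∀ x ∈ U, ‖∑' j, a j x‖ ≤ 2 * D * w x) ∧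
      ∀ x ∈ U, Summable (fun j => a j x) := by
  have : CompleteSpace V := FiniteDimensional.complete ℂ V
  have hgeo : Summable (fun j : ℕ => ((1 : ℝ) / 2) ^ j) := summable_geometric_two
  have hsn : ∀ x ∈ U, Summable (fun j => ‖a j x‖) := fun x hx =>
    Summable.of_nonneg_of_le (fun j => norm_nonneg _) (fun j => hb j x hx)
      (hgeo.mul_left (D * w x))
  have hsum : ∀ x ∈ U, Summable (fun j => a j x) := fun x hx => (hsn x hx).of_norm
  refine ⟨?_, ?_, hsum⟩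
  · refine weierstrass (f := fun n x => ∑ j ∈ Finset.range n, a j x) hU ?_ ?_
    · intro n
      exact DifferentiableOn.fun_sum fun j _ => ha j
    · intro x hx
      obtain ⟨r, hr, hrU⟩ := Metric.isOpen_iff.1 hU x hx
      refine ⟨r, hr, hrU, fun ε hε => ?_⟩
      have hlim : Tendsto (fun n : ℕ => D * 2 * ((1 : ℝ) / 2) ^ n) atTop (𝓝 0) := by
        have := (tendsto_pow_atTop_nhds_zero_of_lt_one (r := (1 : ℝ) / 2) (by norm_num)
          (by norm_num)).const_mul (D * 2)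
        simpa using this
      obtain ⟨N, hN⟩ := (Metric.tendsto_atTop.1 hlim) ε hε
      refine ⟨N, fun n hn y hy => ?_⟩
      have hyU := hrU hy
      have h1 : ∑ j ∈ Finset.range n, a j y - ∑' j, a j y = - ∑' j, a (j + n) y := by
        rw [← (hsum y hyU).sum_add_tsum_nat_add n]
        abel
      have h2 : ‖∑' j, a (j + n) y‖ ≤ ∑' j : ℕ, D * ((1 : ℝ) / 2) ^ n * (1 / 2) ^ j := by
        refine tsum_of_norm_bounded (hgeo.mul_left _).hasSum ?_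
        intro j
        refine (hb _ y hyU).trans ?_
        rw [pow_add]
        have hp : (0 : ℝ) ≤ (1 / 2) ^ j * (1 / 2) ^ n := by positivity
        have := mul_le_mul_of_nonneg_right (mul_le_mul_of_nonneg_left (hw y) hD) hp
        calc D * w y * ((1 / 2) ^ j * (1 / 2) ^ n) ≤ D * 1 * ((1 / 2) ^ j * (1 / 2) ^ n) := this
          _ = _ := by ring
      rw [tsum_mul_left, tsum_geometric_two] at h2
      have h3 := hN n hn
      rw [Real.dist_eq, sub_zero] at h3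
      show ‖∑ j ∈ Finset.range n, a j y - ∑' j, a j y‖ ≤ ε
      rw [h1, norm_neg]
      refine h2.trans ?_
      have h4 := (le_abs_self (D * 2 * ((1 : ℝ) / 2) ^ n)).trans h3.le
      linarith
  · intro x hx
    have h2 : ‖∑' j, a j x‖ ≤ ∑' j : ℕ, D * w x * ((1 : ℝ) / 2) ^ j :=
      tsum_of_norm_bounded (hgeo.mul_left _).hasSum fun j => hb j x hx
    rw [tsum_mul_left, tsum_geometric_two] at h2
    linarith

/-- approximate splittings can be summed to exact ones. -/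
theorem ApproxScale.splitScale {DA DB : ℝ → Set (E × V)} {p q : E → ℝ} {κ₀ C : ℝ} {M : ℕ}
    (h : ApproxScale DA DB p q κ₀ C M) (hκ₀ : 0 ≤ κ₀) (hC : 0 < C) :
    SplitScale DA DB p q κ₀ (2 ^ (M + 2) * C) M := by
  refine ⟨h.openA, h.openB, h.pq, h.shrinkA, h.shrinkB, h.starA, h.starB, ?_⟩
  intro s s' hs hss hs' c κ hκ hc hcb
  have monoA : ∀ {t t' : ℝ}, 0 ≤ t → t ≤ t' → t' ≤ 1 → DA t' ⊆ DA t :=
    fun h0 h1 h2 => ApproxScale_mono h.shrinkA hκ₀ h0 h1 h2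
  have monoB : ∀ {t t' : ℝ}, 0 ≤ t → t ≤ t' → t' ≤ 1 → DB t' ⊆ DB t :=
    fun h0 h1 h2 => ApproxScale_mono h.shrinkB hκ₀ h0 h1 h2
  have hd : 0 < s' - s := by linarith
  rcases hκ.eq_or_lt with hk | hk
  · subst hk
    refine ⟨fun _ => 0, fun _ => 0, differentiableOn_const _, differentiableOn_const _, ?_, ?_, ?_⟩
    · intro z ζ _
      simp
    · intro z ζ _
      simp
    · rintro ⟨z, ζ⟩ hx
      have hx' : (z, ζ) ∈ DA s ∩ DB s := ⟨monoA hs hss.le hs' hx.1, monoB hs hss.le hs' hx.2⟩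
      have := hcb z ζ hx'
      rw [zero_mul] at this
      have h0 : c (z, ζ) = 0 := norm_le_zero_iff.1 this
      rw [h0, sub_self]
  obtain ⟨p₀, hp₀, hpl⟩ := h.plow
  set σ : ℕ → ℝ := fun j => s' - (s' - s) * (1 / 2) ^ j with hσ
  set κj : ℕ → ℝ := fun j => κ * ((1 / 2) ^ (M + 1)) ^ j with hκj
  have hσ0 : σ 0 = s := by simp [hσ]
  have hσd : ∀ j, σ (j + 1) - σ j = (s' - s) * (1 / 2) ^ (j + 1) := by
    intro j
    simp only [hσ, pow_succ]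
    ring
  have hpow : ∀ j : ℕ, (0 : ℝ) < (1 / 2) ^ j := fun j => by positivity
  have hpow1 : ∀ j : ℕ, ((1 : ℝ) / 2) ^ j ≤ 1 := fun j => pow_le_one₀ (by norm_num) (by norm_num)
  have hσs : ∀ j, s ≤ σ j := by
    intro j
    have := mul_le_mul_of_nonneg_left (hpow1 j) hd.le
    simp only [hσ]
    linarith
  have hσnn : ∀ j, 0 ≤ σ j := fun j => hs.trans (hσs j)
  have hσle : ∀ j, σ j ≤ s' := by
    intro j
    have := mul_pos hd (hpow j)
    simp only [hσ]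
    linarith
  have hσle1 : ∀ j, σ j ≤ 1 := fun j => (hσle j).trans hs'
  have hσlt : ∀ j, σ j < σ (j + 1) := by
    intro j
    have := mul_pos hd (hpow (j + 1))
    rw [← hσd] at this
    linarith
  have hκpos : ∀ j, 0 < κj j := fun j => by simp only [hκj]; positivity
  let P : ℕ → (E × V → V) → Prop := fun j c =>
    DifferentiableOn ℂ c (DA (σ j) ∩ DB (σ j)) ∧
      ∀ z ζ, (z, ζ) ∈ DA (σ j) ∩ DB (σ j) → ‖c (z, ζ)‖ ≤ κj j * p z
  have step : ∀ (j : ℕ) (c : E × V → V), P j c → ∃ ab : (E × V → V) × (E × V → V),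
      DifferentiableOn ℂ ab.1 (DA (σ (j + 1))) ∧ DifferentiableOn ℂ ab.2 (DB (σ (j + 1))) ∧
      (∀ z ζ, (z, ζ) ∈ DA (σ (j + 1)) →
        ‖ab.1 (z, ζ)‖ ≤ C / (σ (j + 1) - σ j) ^ M * κj j * q z) ∧
      (∀ z ζ, (z, ζ) ∈ DB (σ (j + 1)) →
        ‖ab.2 (z, ζ)‖ ≤ C / (σ (j + 1) - σ j) ^ M * κj j * q z) ∧
      ∀ x ∈ DA (σ (j + 1)) ∩ DB (σ (j + 1)), ‖ab.2 x - ab.1 x - c x‖ ≤ κj (j + 1) * p₀ := by
    intro j c hc
    obtain ⟨a, b, h1, h2, h3, h4, h5⟩ := h.split (σ j) (σ (j + 1)) (hσnn j) (hσlt j)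
      (hσle1 (j + 1)) c (κj j) (κj (j + 1) * p₀) (hκpos j) (mul_pos (hκpos _) hp₀) hc.1 hc.2
    exact ⟨(a, b), h1, h2, h3, h4, h5⟩
  choose! F hF using step
  let cs : ℕ → (E × V → V) := fun n => Nat.rec c
    (fun j cj => fun x => cj x - ((F j cj).2 x - (F j cj).1 x)) n
  have cs0 : cs 0 = c := rfl
  have csS : ∀ j x, cs (j + 1) x = cs j x - ((F j (cs j)).2 x - (F j (cs j)).1 x) := fun j x => rfl
  have hP : ∀ j, P j (cs j) := by
    intro j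
    induction j with
    | zero =>
      refine ⟨?_, ?_⟩
      · rw [hσ0, cs0]; exact hc
      · rw [hσ0, cs0]
        have : κj 0 = κ := by simp [hκj]
        rw [this]
        exact hcb
    | succ j ih =>
      obtain ⟨h1, h2, h3, h4, h5⟩ := hF j (cs j) ih
      refine ⟨?_, ?_⟩
      · have e : cs (j + 1) = fun x => cs j x - ((F j (cs j)).2 x - (F j (cs j)).1 x) := rfl
        rw [e]
        refine (ih.1.mono ?_).sub ((h2.mono inter_subset_right).sub (h1.mono inter_subset_left))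
        exact inter_subset_inter (monoA (hσnn j) (hσlt j).le (hσle1 _))
          (monoB (hσnn j) (hσlt j).le (hσle1 _))
      · intro z ζ hz
        have h6 := h5 (z, ζ) hz
        rw [csS]
        have h7 : cs j (z, ζ) - ((F j (cs j)).2 (z, ζ) - (F j (cs j)).1 (z, ζ))
            = -((F j (cs j)).2 (z, ζ) - (F j (cs j)).1 (z, ζ) - cs j (z, ζ)) := by abel
        rw [h7, norm_neg]
        refine h6.trans (mul_le_mul_of_nonneg_left ?_ (hκpos _).le)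
        refine hpl z ζ ⟨monoA le_rfl (hσnn _) (hσle1 _) hz.1, monoB le_rfl (hσnn _) (hσle1 _) hz.2⟩
  have hF' : ∀ j, _ := fun j => hF j (cs j) (hP j)
  set D : ℝ := C * 2 ^ M / (s' - s) ^ M * κ with hDdef
  have hD : 0 ≤ D := by positivity
  have hconst : ∀ j : ℕ, C / (σ (j + 1) - σ j) ^ M * κj j = D * (1 / 2) ^ j := by
    intro j
    rw [hσd, hDdef]
    simp only [hκj]
    have h1 : ((s' - s) ^ M) ≠ 0 := (pow_pos hd M).ne'
    have e1 : (((s' - s) * (1 / 2) ^ (j + 1)) ^ M : ℝ)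
        = (s' - s) ^ M * ((((1 : ℝ) / 2) ^ j) ^ M * (1 / 2) ^ M) := by
      rw [mul_pow, pow_succ, mul_pow]
    have e2 : (((1 : ℝ) / 2) ^ (M + 1)) ^ j = (((1 : ℝ) / 2) ^ j) ^ M * (1 / 2) ^ j := by
      rw [← pow_mul, ← pow_mul, ← pow_add]
      congr 1
      ring
    rw [e1, e2]
    have hX : ((((1 : ℝ) / 2) ^ j) ^ M) ≠ 0 := by positivity
    have h2 : (2 : ℝ) ^ M * (1 / 2) ^ M = 1 := by
      rw [← mul_pow]; norm_num
    have h3 : ((1 : ℝ) / 2) ^ M ≠ 0 := by positivity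
    generalize ((1 : ℝ) / 2) ^ M = y at h2 h3 ⊢
    generalize (((1 : ℝ) / 2) ^ j) ^ M = X at hX ⊢
    generalize (s' - s) ^ M = dM at h1 ⊢
    have h4 : y = ((2 : ℝ) ^ M)⁻¹ := by
      refine eq_inv_of_mul_eq_one_left ?_
      linarith
    rw [h4]
    field_simp
  have hbA : ∀ j, ∀ x ∈ DA s', ‖(F j (cs j)).1 x‖ ≤ D * q x.1 * (1 / 2) ^ j := by
    rintro j ⟨z, ζ⟩ hx
    have := (hF' j).2.2.1 z ζ (monoA (hσnn _) (hσle _) hs' hx)
    rw [hconst] at this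
    calc _ ≤ _ := this
      _ = _ := by ring
  have hbB : ∀ j, ∀ x ∈ DB s', ‖(F j (cs j)).2 x‖ ≤ D * q x.1 * (1 / 2) ^ j := by
    rintro j ⟨z, ζ⟩ hx
    have := (hF' j).2.2.2.1 z ζ (monoB (hσnn _) (hσle _) hs' hx)
    rw [hconst] at this
    calc _ ≤ _ := this
      _ = _ := by ring
  have hq0 : ∀ x : E × V, 0 ≤ q x.1 := fun x => (h.pq x.1).1.trans (h.pq x.1).2.1
  have hq1 : ∀ x : E × V, q x.1 ≤ 1 := fun x => (h.pq x.1).2.2
  obtain ⟨a1, a2, a3⟩ := ApproxScale_sum (h.openA s' (hs.trans hss.le) hs')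
    (a := fun j x => (F j (cs j)).1 x)
    (fun j => (hF' j).1.mono (monoA (hσnn _) (hσle _) hs')) hD hq1 hbA
  obtain ⟨b1, b2, b3⟩ := ApproxScale_sum (h.openB s' (hs.trans hss.le) hs')
    (a := fun j x => (F j (cs j)).2 x)
    (fun j => (hF' j).2.1.mono (monoB (hσnn _) (hσle _) hs')) hD hq1 hbB
  have hfin : ∀ z : E, 2 * D * q z ≤ 2 ^ (M + 2) * C / (s' - s) ^ M * κ * q z := by
    intro z
    have e : 2 ^ (M + 2) * C / (s' - s) ^ M * κ * q z = 2 * (2 * D * q z) := by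
      rw [hDdef, pow_add]
      ring
    rw [e]
    have : 0 ≤ 2 * D * q z := by
      have := hq0 (z, (0 : V))
      positivity
    linarith
  refine ⟨_, _, a1, b1, fun z ζ hz => (a2 _ hz).trans (hfin z),
    fun z ζ hz => (b2 _ hz).trans (hfin z), ?_⟩
  rintro ⟨z, ζ⟩ hx
  have hsb := (b3 _ hx.2).hasSum
  have hsa := (a3 _ hx.1).hasSum
  have hsub := (hsb.sub hsa).tendsto_sum_nat
  have htel : ∀ n, ∑ j ∈ Finset.range n, ((F j (cs j)).2 (z, ζ) - (F j (cs j)).1 (z, ζ))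
      = c (z, ζ) - cs n (z, ζ) := by
    intro n
    induction n with
    | zero => simp [cs0]
    | succ n ih =>
      rw [Finset.sum_range_succ, ih, csS]
      abel
  have hlim0 : Tendsto (fun n => cs n (z, ζ)) atTop (𝓝 0) := by
    rw [tendsto_zero_iff_norm_tendsto_zero]
    refine squeeze_zero (fun n => norm_nonneg _) (g := fun n => κ * ((1 / 2) ^ (M + 1)) ^ n) ?_ ?_
    · intro n
      have h1 := (hP n).2 z ζ ⟨monoA (hσnn _) (hσle _) hs' hx.1, monoB (hσnn _) (hσle _) hs' hx.2⟩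
      refine h1.trans ?_
      have hp1 : p z ≤ 1 := (h.pq z).2.1.trans (h.pq z).2.2
      exact mul_le_of_le_one_right (hκpos n).le hp1
    · have := (tendsto_pow_atTop_nhds_zero_of_lt_one (r := ((1 : ℝ) / 2) ^ (M + 1)) (by positivity)
        (pow_lt_one₀ (by norm_num) (by norm_num) (by omega))).const_mul κ
      simpa using this
  have hlim1 : Tendsto (fun n => ∑ j ∈ Finset.range n,
      ((F j (cs j)).2 (z, ζ) - (F j (cs j)).1 (z, ζ))) atTop (𝓝 (c (z, ζ))) := by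
    simp only [htel]
    simpa using (tendsto_const_nhds (x := c (z, ζ))).sub hlim0
  exact tendsto_nhds_unique hsub hlim1

end OkaP
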