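import Mathlib

set_option autoImplicit false
open Set Metric Filter
open scoped Topology Manifold

noncomputable section
namespace OkaP

/-- holomorphic map from (an open subset of) a finite dimensional complex space into X. -/
def HolOn (m : ℕ) {E X : Type} [NormedAddCommGroup E] [NormedSpace ℂ E] [TopologicalSpace X]
    [ChartedSpace (Fin m → ℂ) X] (f : E → X) (U : Set E) : Prop :=
  MDifferentiableOn 𝓘(ℂ, E) 𝓘(ℂ, Fin m → ℂ) f U

/-- convex approximation property for maps avoiding p (the manifold X minus p),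
all finite dimensional sources, closeness measured by the metric of X. -/
def CAPY (m : ℕ) {X : Type} [MetricSpace X] [ChartedSpace (Fin m → ℂ) X] (p : X) : Prop :=
  ∀ (E : Type) [NormedAddCommGroup E] [NormedSpace ℂ E] [FiniteDimensional ℂ E] (K U : Set E),
    IsCompact K → Convex ℝ K → IsOpen U → K ⊆ U → ∀ f : E → X, HolOn m f U → (∀ x ∈ U, f x ≠ p) →
      ∀ ε > 0, ∃ g : E → X, HolOn m g univ ∧ (∀ x, g x ≠ p) ∧ ∀ x ∈ K, dist (f x) (g x) < ε

/-- convex approximation property of X. -/
def CAPX (m : ℕ) (X : Type) [MetricSpace X] [ChartedSpace (Fin m → ℂ) X] : Prop :=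
  ∀ (n : ℕ) (K U : Set (Fin n → ℂ)), IsCompact K → Convex ℝ K → IsOpen U → K ⊆ U →
    ∀ f : (Fin n → ℂ) → X, HolOn m f U → ∀ ε > 0, ∃ g : (Fin n → ℂ) → X, HolOn m g univ ∧
      ∀ x ∈ K, dist (f x) (g x) < ε

/-- holomorphic chart of X (any local biholomorphism onto an open subset of the model space). -/
def HChart (m : ℕ) {X : Type} [TopologicalSpace X] [ChartedSpace (Fin m → ℂ) X]
    (e : OpenPartialHomeomorph X (Fin m → ℂ)) : Prop :=
  e.MDifferentiable 𝓘(ℂ, Fin m → ℂ) 𝓘(ℂ, Fin m → ℂ)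

variable {m : ℕ} {X : Type} [MetricSpace X] [ChartedSpace (Fin m → ℂ) X]
variable {E F : Type} [NormedAddCommGroup E] [NormedSpace ℂ E]
  [NormedAddCommGroup F] [NormedSpace ℂ F]

theorem HolOn.continuousOn {f : E → X} {U : Set E} (h : HolOn m f U) : ContinuousOn f U :=
  MDifferentiableOn.continuousOn h

theorem HolOn.mono {f : E → X} {U V : Set E} (h : HolOn m f U) (hV : V ⊆ U) : HolOn m f V :=
  MDifferentiableOn.mono h hV

theorem HolOn.congr {f g : E → X} {U : Set E} (h : HolOn m f U) (he : ∀ x ∈ U, g x = f x) :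
    HolOn m g U :=
  MDifferentiableOn.congr h he

theorem holOn_const (x : X) (U : Set E) : HolOn m (fun _ : E => x) U :=
  mdifferentiableOn_const

theorem holOn_of_local {f : E → X} {U : Set E}
    (h : ∀ x ∈ U, ∃ V, IsOpen V ∧ x ∈ V ∧ HolOn m f V) : HolOn m f U := by
  intro x hx
  obtain ⟨V, hV, hxV, hf⟩ := h x hx
  exact ((hf x hxV).mdifferentiableAt (hV.mem_nhds hxV)).mdifferentiableWithinAt

theorem HolOn.comp {f : F → X} {g : E → F} {U : Set E} {V : Set F} (hf : HolOn m f V)
    (hg : DifferentiableOn ℂ g U) (hUV : MapsTo g U V) : HolOn m (fun x => f (g x)) U :=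
  MDifferentiableOn.comp hf hg.mdifferentiableOn hUV

theorem HolOn.glue {f g : E → X} {U V : Set E} (hU : IsOpen U) (hV : IsOpen V)
    (hf : HolOn m f U) (hg : HolOn m g V) (he : ∀ x ∈ U ∩ V, f x = g x) :
    ∃ h : E → X, HolOn m h (U ∪ V) ∧ (∀ x ∈ U, h x = f x) ∧ (∀ x ∈ V, h x = g x) := by
  classical
  refine ⟨fun x => if x ∈ U then f x else g x, ?_, fun x hx => if_pos hx, fun x hx => ?_⟩
  · apply holOn_of_local
    rintro x (hx | hx)
    · exact ⟨U, hU, hx, hf.congr fun y hy => if_pos hy⟩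
    · refine ⟨V, hV, hx, hg.congr fun y hy => ?_⟩
      by_cases h : y ∈ U
      · simp only [h, if_true]; exact he y ⟨h, hy⟩
      · simp only [h, if_false]
  · by_cases h : x ∈ U
    · simp only [h, if_true]; exact he x ⟨h, hx⟩
    · simp only [h, if_false]

theorem HChart.of_chartAt [IsManifold 𝓘(ℂ, Fin m → ℂ) ⊤ X] (x : X) :
    HChart m (chartAt (Fin m → ℂ) x) := by
  have : IsManifold 𝓘(ℂ, Fin m → ℂ) 1 X := IsManifold.of_le (n := ⊤) le_top
  exact mdifferentiable_chart x

theorem HChart.exists_at [IsManifold 𝓘(ℂ, Fin m → ℂ) ⊤ X] (x : X) :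
    ∃ e : OpenPartialHomeomorph X (Fin m → ℂ), HChart m e ∧ x ∈ e.source :=
  ⟨chartAt (Fin m → ℂ) x, HChart.of_chartAt x, mem_chart_source _ x⟩

theorem HolOn.hchart {f : E → X} {U : Set E} (hf : HolOn m f U)
    {e : OpenPartialHomeomorph X (Fin m → ℂ)} (he : HChart m e) :
    DifferentiableOn ℂ (fun x => e (f x)) (U ∩ f ⁻¹' e.source) := by
  rw [← mdifferentiableOn_iff_differentiableOn]
  exact MDifferentiableOn.comp he.1 (hf.mono inter_subset_left) inter_subset_right

theorem holOn_symm {e : OpenPartialHomeomorph X (Fin m → ℂ)} (he : HChart m e)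
    {φ : E → Fin m → ℂ} {U : Set E} (hφ : DifferentiableOn ℂ φ U) (hm : MapsTo φ U e.target) :
    HolOn m (fun x => e.symm (φ x)) U :=
  MDifferentiableOn.comp he.2 hφ.mdifferentiableOn hm

theorem isOpen_preimage_of_holOn {f : E → X} {U : Set E} (hU : IsOpen U) (hf : HolOn m f U)
    {V : Set X} (hV : IsOpen V) : IsOpen (U ∩ f ⁻¹' V) :=
  hf.continuousOn.isOpen_inter_preimage hU hV

theorem holOn_of_hchart {f : E → X} {U : Set E}
    {e : OpenPartialHomeomorph X (Fin m → ℂ)} (he : HChart m e) (hm : MapsTo f U e.source)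
    (hd : DifferentiableOn ℂ (fun x => e (f x)) U) : HolOn m f U := by
  have h := holOn_symm he hd (fun x hx => e.map_source (hm hx))
  exact h.congr fun x hx => (e.left_inv (hm hx)).symm

/-- a compact set in a metric space with locally compact topology has a compact closed thickening. -/
theorem exists_compact_thickening [LocallyCompactSpace X] {C : Set X} (hC : IsCompact C) :
    ∃ δ > 0, IsCompact (cthickening δ C) :=
  hC.exists_isCompact_cthickening

theorem locallyCompact [IsManifold 𝓘(ℂ, Fin m → ℂ) ⊤ X] : LocallyCompactSpace X :=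
  Manifold.locallyCompact_of_finiteDimensional 𝓘(ℂ, Fin m → ℂ)

end OkaP
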