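import Pool.Agent.H.MP_ceb9a9.Gauss

/-!
# MP_ceb9a9: approximation on a real box, with a holomorphic parameter

Proof.  Let `cl : (Fin k → ℝ) → (Fin k → ℝ)`, `cl x i = max (a i) (min (x i) (b i))`, be the continuous retraction onto
`Icc a b`, and `χ x = max 0 (1 - dist x (cl x))` (continuous, `1` on `Icc a b`, `0` off
`K0 = cthickening 1 (Icc a b)`, compact).  Apply `gauss_approx` to `h (x, q) = (χ x : ℂ) • C (cl x, q)`, `d = 1`
(the third conclusion is not used).  On `Icc a b`, `h = C`.
-/

set_option autoImplicit false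
open Set Metric Filter
open scoped Topology

noncomputable section
namespace OkaP

variable {k : ℕ} {P A' : Type} [NormedAddCommGroup P] [NormedSpace ℂ P] [FiniteDimensional ℂ P]
  [NormedAddCommGroup A'] [NormedSpace ℂ A'] [FiniteDimensional ℂ A']

/-- approximation on a real box by functions entire in `z`, holomorphic in the parameter `q`. -/
theorem box_approx {a b : Fin k → ℝ} (hab : a ≤ b) {s s' : ℝ} (hs : s' < s)
    {C : (Fin k → ℝ) × P → A'} (hc : ContinuousOn C (Icc a b ×ˢ ball (0 : P) s))
    (hd : ∀ x ∈ Icc a b, DifferentiableOn ℂ (fun q => C (x, q)) (ball (0 : P) s))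
    {κ : ℝ} (hκ : 0 < κ) :
    ∃ F : (Fin k → ℂ) × P → A', DifferentiableOn ℂ F (univ ×ˢ ball (0 : P) s) ∧
      ∀ x ∈ Icc a b, ∀ q ∈ closedBall (0 : P) s', ‖F (cplx x, q) - C (x, q)‖ < κ := by
  set cl : (Fin k → ℝ) → (Fin k → ℝ) := fun x i => max (a i) (min (x i) (b i)) with hcl
  have hclc : Continuous cl := by
    refine continuous_pi fun i => ?_
    exact continuous_const.max ((continuous_apply i).min continuous_const)
  have hclm : ∀ x, cl x ∈ Icc a b := by
    intro x
    refine ⟨fun i => le_max_left _ _, fun i => ?_⟩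
    exact max_le (hab i) (min_le_right _ _)
  have hcle : ∀ x ∈ Icc a b, cl x = x := by
    intro x hx
    funext i
    show max (a i) (min (x i) (b i)) = x i
    rw [min_eq_left (hx.2 i), max_eq_right (hx.1 i)]
  set χ : (Fin k → ℝ) → ℝ := fun x => max 0 (1 - dist x (cl x)) with hχ
  have hχc : Continuous χ :=
    continuous_const.max (continuous_const.sub (continuous_id.dist hclc))
  have hχ1 : ∀ x ∈ Icc a b, χ x = 1 := by
    intro x hx
    show max 0 (1 - dist x (cl x)) = 1
    rw [hcle x hx, dist_self, sub_zero]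
    exact max_eq_right zero_le_one
  have hχ0 : ∀ x, x ∉ cthickening 1 (Icc a b) → χ x = 0 := by
    intro x hx
    have h1 : ¬ dist x (cl x) ≤ 1 := fun h2 =>
      hx (mem_cthickening_of_dist_le x (cl x) 1 (Icc a b) (hclm x) h2)
    show max 0 (1 - dist x (cl x)) = 0
    exact max_eq_left (by linarith)
  obtain ⟨F, hF, hF2, -⟩ := gauss_approx (k := k) (P := P) (A' := A') hs
    (h := fun z => (χ z.1 : ℂ) • C (cl z.1, z.2)) (K0 := cthickening 1 (Icc a b)) (d := 1) (κ := κ)
    (by
      refine ContinuousOn.smul ?_ ?_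
      · exact (Complex.continuous_ofReal.comp (hχc.comp continuous_fst)).continuousOn
      · refine hc.comp ((hclc.comp continuous_fst).prodMk continuous_snd).continuousOn ?_
        rintro ⟨x, q⟩ ⟨-, hq⟩
        exact ⟨hclm x, hq⟩)
    (fun x => (hd (cl x) (hclm x)).const_smul (χ x : ℂ))
    isCompact_Icc.cthickening
    (by
      intro x hx q _
      show (χ x : ℂ) • C (cl x, q) = 0
      rw [hχ0 x hx]
      simp)
    one_pos hκ
  refine ⟨F, hF, fun x hx q hq => ?_⟩
  have h1 := hF2 x q hq
  have h2 : (χ x : ℂ) • C (cl x, q) = C (x, q) := by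
    rw [hχ1 x hx, hcle x hx, Complex.ofReal_one, one_smul]
  rw [← h2]
  exact h1

end OkaP
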