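import Mathlib

/-!
# MP_ceb9a9: bisection of real boxes
-/

set_option autoImplicit false

namespace OkaP

open Set Metric Topology

/-- a bad box: a box inside `Icc a b` on which `P` fails -/
def BoxBisectBad {N : ℕ} (P : (Fin N → ℝ) → (Fin N → ℝ) → Prop) (a b : Fin N → ℝ)
    (q : (Fin N → ℝ) × (Fin N → ℝ)) : Prop :=
  q.1 ≤ q.2 ∧ Icc q.1 q.2 ⊆ Icc a b ∧ ¬ P q.1 q.2

theorem boxBisect_step {N : ℕ} {P : (Fin N → ℝ) → (Fin N → ℝ) → Prop} {a b : Fin N → ℝ}
    (hmerge : ∀ a' b' : Fin N → ℝ, a' ≤ b' → Icc a' b' ⊆ Icc a b → ∀ i : Fin N,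
      ∀ c ∈ Icc (a' i) (b' i), P a' (Function.update b' i c) → P (Function.update a' i c) b' →
        P a' b')
    {a' b' : Fin N → ℝ} (hbad : BoxBisectBad P a b (a', b')) (s : Finset (Fin N)) :
    ∃ q : (Fin N → ℝ) × (Fin N → ℝ), BoxBisectBad P a b q ∧ a' ≤ q.1 ∧ q.2 ≤ b' ∧
      (∀ i ∈ s, q.2 i - q.1 i = (b' i - a' i) / 2) ∧ ∀ i ∉ s, q.1 i = a' i ∧ q.2 i = b' i := by
  induction s using Finset.induction_on with
  | empty =>
    exact ⟨(a', b'), hbad, le_rfl, le_rfl, fun i hi => absurd hi (Finset.notMem_empty i),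
      fun i _ => ⟨rfl, rfl⟩⟩
  | insert i s hi ih =>
    obtain ⟨⟨a2, b2⟩, ⟨hle, hsub, hP⟩, h1, h2, h3, h4⟩ := ih
    dsimp only at hle hsub hP h1 h2 h3 h4
    obtain ⟨h5, h6⟩ := h4 i hi
    have hlei := hle i
    set c : ℝ := (a2 i + b2 i) / 2 with hc
    have hc1 : a2 i ≤ c := by rw [hc]; linarith
    have hc2 : c ≤ b2 i := by rw [hc]; linarith
    by_cases hcase : P a2 (Function.update b2 i c)
    · have hnot : ¬ P (Function.update a2 i c) b2 := fun h =>
        hP (hmerge a2 b2 hle hsub i c ⟨hc1, hc2⟩ hcase h)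
      have hup : a2 ≤ Function.update a2 i c := by
        intro j
        by_cases hj : j = i
        · subst hj; simpa using hc1
        · simp [hj]
      refine ⟨(Function.update a2 i c, b2), ⟨?_, ?_, hnot⟩, h1.trans hup, h2, ?_, ?_⟩
      · intro j
        by_cases hj : j = i
        · subst hj; simpa using hc2
        · simpa [hj] using hle j
      · exact (Icc_subset_Icc_left hup).trans hsub
      · intro j hj
        rcases Finset.mem_insert.1 hj with rfl | hj
        · simp only [Function.update_self]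
          rw [hc, ← h5, ← h6]; ring
        · have hji : j ≠ i := fun h => hi (h ▸ hj)
          simp only [Function.update_of_ne hji]
          exact h3 j hj
      · intro j hj
        rw [Finset.mem_insert, not_or] at hj
        simp only [Function.update_of_ne hj.1]
        exact h4 j hj.2
    · have hup : Function.update b2 i c ≤ b2 := by
        intro j
        by_cases hj : j = i
        · subst hj; simpa using hc2
        · simp [hj]
      refine ⟨(a2, Function.update b2 i c), ⟨?_, ?_, hcase⟩, h1, hup.trans h2, ?_, ?_⟩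
      · intro j
        by_cases hj : j = i
        · subst hj; simpa using hc1
        · simpa [hj] using hle j
      · exact (Icc_subset_Icc_right hup).trans hsub
      · intro j hj
        rcases Finset.mem_insert.1 hj with rfl | hj
        · simp only [Function.update_self]
          rw [hc, ← h5, ← h6]; ring
        · have hji : j ≠ i := fun h => hi (h ▸ hj)
          simp only [Function.update_of_ne hji]
          exact h3 j hj
      · intro j hj
        rw [Finset.mem_insert, not_or] at hj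
        simp only [Function.update_of_ne hj.1]
        exact h4 j hj.2

/-- a property of boxes which is local and stable under gluing of two boxes along a face
holds for all boxes. -/
theorem box_bisect {N : ℕ} (P : (Fin N → ℝ) → (Fin N → ℝ) → Prop) (a b : Fin N → ℝ) (hab : a ≤ b)
    (hloc : ∀ z ∈ Icc a b, ∃ ε > 0, ∀ a' b' : Fin N → ℝ, a' ≤ b' → Icc a' b' ⊆ Icc a b →
      Icc a' b' ⊆ ball z ε → P a' b')
    (hmerge : ∀ a' b' : Fin N → ℝ, a' ≤ b' → Icc a' b' ⊆ Icc a b → ∀ i : Fin N,
      ∀ c ∈ Icc (a' i) (b' i), P a' (Function.update b' i c) → P (Function.update a' i c) b' →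
        P a' b') :
    P a b := by
  by_contra hP
  have hstep : ∀ q : {q // BoxBisectBad P a b q}, ∃ q' : {q // BoxBisectBad P a b q},
      q.1.1 ≤ q'.1.1 ∧ q'.1.2 ≤ q.1.2 ∧ ∀ i, q'.1.2 i - q'.1.1 i = (q.1.2 i - q.1.1 i) / 2 := by
    rintro ⟨⟨a', b'⟩, hq⟩
    obtain ⟨q, hbad, h1, h2, h3, -⟩ := boxBisect_step hmerge hq Finset.univ
    exact ⟨⟨q, hbad⟩, h1, h2, fun i => h3 i (Finset.mem_univ i)⟩
  choose f hf1 hf2 hf3 using hstep
  let q0 : {q // BoxBisectBad P a b q} := ⟨(a, b), hab, Subset.rfl, hP⟩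
  let q : ℕ → {q // BoxBisectBad P a b q} := fun k => f^[k] q0
  have hq : ∀ k, q (k + 1) = f (q k) := fun k => Function.iterate_succ_apply' f k q0
  have hlen : ∀ k i, (q k).1.2 i - (q k).1.1 i = (b i - a i) / 2 ^ k := by
    intro k
    induction k with
    | zero => intro i; simp [q, q0]
    | succ k ih =>
      intro i
      rw [hq, hf3, ih, pow_succ]
      field_simp
  obtain ⟨z, hz⟩ : (⋂ k, Icc (q k).1.1 (q k).1.2).Nonempty := by
    refine IsCompact.nonempty_iInter_of_sequence_nonempty_isCompact_isClosed _ ?_ ?_ ?_ ?_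
    · intro k
      rw [hq]
      exact Icc_subset_Icc (hf1 _) (hf2 _)
    · intro k
      exact nonempty_Icc.2 (q k).2.1
    · exact isCompact_Icc
    · intro k
      exact isClosed_Icc
  rw [mem_iInter] at hz
  obtain ⟨ε, hε, hball⟩ := hloc z ((q 0).2.2.1 (hz 0))
  obtain ⟨k, hk⟩ := pow_unbounded_of_one_lt (‖b - a‖ / ε) (one_lt_two)
  refine (q k).2.2.2 (hball _ _ (q k).2.1 (q k).2.2.1 ?_)
  intro y hy
  rw [mem_ball, dist_pi_lt_iff hε]
  intro i
  have h1 := hlen k i
  have h2 : (b i - a i) ≤ ‖b - a‖ := (le_abs_self _).trans (norm_le_pi_norm (b - a) i)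
  have h3 : ‖b - a‖ / 2 ^ k < ε := by
    rw [div_lt_iff₀ hε] at hk
    rw [div_lt_iff₀ (by positivity)]
    linarith
  have h4 : (b i - a i) / 2 ^ k ≤ ‖b - a‖ / 2 ^ k := by gcongr
  have h5 := hy.1 i
  have h6 := hy.2 i
  have h7 := (hz k).1 i
  have h8 := (hz k).2 i
  rw [Real.dist_eq, abs_lt]
  constructor <;> linarith

end OkaP
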