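import Pool.Agent.H.MP_ceb9a9.CauchyRect
import Pool.Agent.H.MP_ceb9a9.Scv2
import Pool.Agent.H.MP_ceb9a9.Scv4

set_option autoImplicit false
set_option linter.unusedSectionVars false
open Set Metric Filter
open scoped Topology

noncomputable section
namespace OkaP

/-- half strip to the left of `c1`. -/
def SL (c1 b : ℝ) : Set ℂ := {z | z.re < c1 ∧ |z.im| < b}
/-- half strip to the right of `c0`. -/
def SR (c0 b : ℝ) : Set ℂ := {z | c0 < z.re ∧ |z.im| < b}

theorem isOpen_SL (c1 b : ℝ) : IsOpen (SL c1 b) :=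
  (isOpen_lt Complex.continuous_re continuous_const).inter
    (isOpen_lt (continuous_abs.comp Complex.continuous_im) continuous_const)

theorem isOpen_SR (c0 b : ℝ) : IsOpen (SR c0 b) :=
  (isOpen_lt continuous_const Complex.continuous_re).inter
    (isOpen_lt (continuous_abs.comp Complex.continuous_im) continuous_const)

/-- one-dimensional integrable kernel. -/
def bsPsi (t : ℝ) : ℝ := |t| ^ (-(1/2) : ℝ)

theorem bsPsi_nonneg (t : ℝ) : 0 ≤ bsPsi t := Real.rpow_nonneg (abs_nonneg _) _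

theorem bsPsi_neg (t : ℝ) : bsPsi (-t) = bsPsi t := by simp [bsPsi]

theorem bsPsi_measurable : Measurable bsPsi := by
  unfold bsPsi
  fun_prop

theorem bs_ii_right (m : ℝ) (hm : 0 < m) : IntervalIntegrable bsPsi MeasureTheory.volume 0 m := by
  have h := intervalIntegral.intervalIntegrable_rpow' (a := 0) (b := m) (r := -(1/2)) (by norm_num)
  refine h.congr ?_
  intro t ht
  rw [uIoc_of_le hm.le] at ht
  simp [bsPsi, abs_of_pos ht.1]

theorem bs_int_right (m : ℝ) (hm : 0 < m) : ∫ t in (0:ℝ)..m, bsPsi t = 2 * √m := by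
  have h : ∫ t in (0:ℝ)..m, bsPsi t = ∫ t in (0:ℝ)..m, t ^ (-(1/2) : ℝ) := by
    apply intervalIntegral.integral_congr_ae
    refine Eventually.of_forall fun t ht => ?_
    rw [uIoc_of_le hm.le] at ht
    simp [bsPsi, abs_of_pos ht.1]
  rw [h, integral_rpow (Or.inl (by norm_num))]
  rw [Real.sqrt_eq_rpow, Real.zero_rpow (by norm_num)]
  norm_num
  ring

theorem bs_ii_left (m : ℝ) (hm : 0 < m) : IntervalIntegrable bsPsi MeasureTheory.volume (-m) 0 := by
  have h := (bs_ii_right m hm).symm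
  rw [IntervalIntegrable.iff_comp_neg] at h
  simpa [bsPsi_neg] using h

theorem bs_int_left (m : ℝ) (hm : 0 < m) : ∫ t in (-m)..0, bsPsi t = 2 * √m := by
  have h := intervalIntegral.integral_comp_neg (a := -m) (b := 0) (f := bsPsi)
  simp only [bsPsi_neg, neg_neg, neg_zero] at h
  rw [h, bs_int_right m hm]

theorem bs_int_ball (x m : ℝ) (hm : 0 < m) :
    MeasureTheory.IntegrableOn (fun t => bsPsi (t - x)) (Ioc (x - m) (x + m)) ∧
      ∫ t in Ioc (x - m) (x + m), bsPsi (t - x) = 4 * √m := by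
  have hii : IntervalIntegrable bsPsi MeasureTheory.volume (-m) m :=
    (bs_ii_left m hm).trans (bs_ii_right m hm)
  have h1 : IntervalIntegrable (fun t => bsPsi (t - x)) MeasureTheory.volume (x - m) (x + m) := by
    have := hii.comp_sub_right x
    have e1 : -m + x = x - m := by ring
    have e2 : m + x = x + m := by ring
    rwa [e1, e2] at this
  constructor
  · rwa [intervalIntegrable_iff_integrableOn_Ioc_of_le (by linarith)] at h1
  · rw [← intervalIntegral.integral_of_le (by linarith),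
      intervalIntegral.integral_comp_sub_right bsPsi x]
    have e1 : x - m - x = -m := by ring
    have e2 : x + m - x = m := by ring
    rw [e1, e2, ← intervalIntegral.integral_add_adjacent_intervals (bs_ii_left m hm)
      (bs_ii_right m hm), bs_int_left m hm, bs_int_right m hm]
    ring

theorem bs_psi_set (S : Set ℝ) (hS : MeasurableSet S) (x m : ℝ) (hm : 0 < m)
    (hSm : MeasureTheory.volume S ≤ ENNReal.ofReal m) :
    MeasureTheory.IntegrableOn (fun t => bsPsi (t - x)) S ∧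
      ∫ t in S, bsPsi (t - x) ≤ 5 * √m := by
  have hfin : MeasureTheory.volume S ≠ ⊤ := ne_top_of_le_ne_top ENNReal.ofReal_ne_top hSm
  obtain ⟨h1, h2⟩ := bs_int_ball x m hm
  set g : ℝ → ℝ := fun t => (Ioc (x - m) (x + m)).indicator (fun t => bsPsi (t - x)) t +
    m ^ (-(1/2) : ℝ) with hg
  have hgi1 : MeasureTheory.Integrable ((Ioc (x - m) (x + m)).indicator
      (fun t => bsPsi (t - x))) := h1.integrable_indicator measurableSet_Ioc
  have hgi : MeasureTheory.IntegrableOn g S :=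
    hgi1.integrableOn.add (MeasureTheory.integrableOn_const hfin)
  have hb : ∀ t ∈ S, bsPsi (t - x) ≤ g t := by
    intro t ht
    by_cases htm : t ∈ Ioc (x - m) (x + m)
    · simp only [hg, indicator_of_mem htm]
      have : (0:ℝ) ≤ m ^ (-(1/2) : ℝ) := Real.rpow_nonneg hm.le _
      linarith
    · simp only [hg, indicator_of_notMem htm, zero_add]
      have h3 : m ≤ |t - x| := by
        by_contra hlt
        push Not at hlt
        rw [abs_lt] at hlt
        exact htm ⟨by linarith [hlt.1], by linarith [hlt.2]⟩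
      unfold bsPsi
      exact Real.rpow_le_rpow_of_nonpos hm h3 (by norm_num)
  have hint : MeasureTheory.IntegrableOn (fun t => bsPsi (t - x)) S := by
    refine MeasureTheory.Integrable.mono' hgi
      ((bsPsi_measurable.comp (measurable_id.sub_const x)).aestronglyMeasurable) ?_
    rw [MeasureTheory.ae_restrict_iff' hS]
    refine Eventually.of_forall fun t ht => ?_
    rw [Real.norm_of_nonneg (bsPsi_nonneg _)]
    exact hb t ht
  refine ⟨hint, ?_⟩
  have h4 : ∫ t in S, bsPsi (t - x) ≤ ∫ t in S, g t :=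
    MeasureTheory.setIntegral_mono_on hint hgi hS hb
  have h5 : ∫ t in S, g t ≤ 4 * √m + m * m ^ (-(1/2) : ℝ) := by
    simp only [hg]
    rw [MeasureTheory.integral_add hgi1.integrableOn (MeasureTheory.integrableOn_const hfin)]
    have h6 : ∫ t in S, (Ioc (x - m) (x + m)).indicator (fun t => bsPsi (t - x)) t ≤ 4 * √m := by
      rw [← h2, ← MeasureTheory.integral_indicator measurableSet_Ioc]
      refine MeasureTheory.setIntegral_le_integral hgi1 ?_
      refine Eventually.of_forall fun t => ?_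
      exact indicator_nonneg (fun t _ => bsPsi_nonneg _) t
    have h7 : ∫ t in S, m ^ (-(1/2) : ℝ) ≤ m * m ^ (-(1/2) : ℝ) := by
      rw [MeasureTheory.setIntegral_const, smul_eq_mul]
      refine mul_le_mul_of_nonneg_right ?_ (Real.rpow_nonneg hm.le _)
      exact ENNReal.toReal_le_of_le_ofReal hm.le hSm
    linarith
  have h8 : m * m ^ (-(1/2) : ℝ) = √m := by
    rw [Real.sqrt_eq_rpow]
    nth_rewrite 1 [← Real.rpow_one m]
    rw [← Real.rpow_add hm]
    norm_num
  linarith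

/-- the point of the plane with real coordinates `v`. -/
def bsPt (v : ℝ × ℝ) : ℂ := (v.1 : ℂ) + v.2 * Complex.I

theorem bsPt_re (v : ℝ × ℝ) : (bsPt v).re = v.1 := by simp [bsPt]

theorem bsPt_im (v : ℝ × ℝ) : (bsPt v).im = v.2 := by simp [bsPt]

theorem bsPt_continuous : Continuous bsPt := by
  unfold bsPt
  fun_prop

/-- Cauchy kernel. -/
def bsKer (z : ℂ) (v : ℝ × ℝ) : ℂ := (bsPt v - z)⁻¹

theorem bsKer_measurable (z : ℂ) : Measurable (bsKer z) := by
  unfold bsKer
  exact (bsPt_continuous.measurable.sub_const z).inv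

theorem bsKer_norm_le (z : ℂ) (v : ℝ × ℝ) (h1 : v.1 ≠ z.re) (h2 : v.2 ≠ z.im) :
    ‖bsKer z v‖ ≤ bsPsi (v.1 - z.re) * bsPsi (v.2 - z.im) := by
  have ha : 0 < |v.1 - z.re| := abs_pos.mpr (sub_ne_zero.mpr h1)
  have hb : 0 < |v.2 - z.im| := abs_pos.mpr (sub_ne_zero.mpr h2)
  have hn : ‖bsPt v - z‖ = √((v.1 - z.re) ^ 2 + (v.2 - z.im) ^ 2) := by
    rw [Complex.norm_eq_sqrt_sq_add_sq]
    simp [bsPt_re, bsPt_im]
  have h3 : √(|v.1 - z.re| * |v.2 - z.im|) ≤ ‖bsPt v - z‖ := by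
    rw [hn]
    apply Real.sqrt_le_sqrt
    rw [← sq_abs (v.1 - z.re), ← sq_abs (v.2 - z.im)]
    nlinarith [sq_nonneg (|v.1 - z.re| - |v.2 - z.im|)]
  have h4 : 0 < √(|v.1 - z.re| * |v.2 - z.im|) := Real.sqrt_pos.mpr (mul_pos ha hb)
  unfold bsKer
  rw [norm_inv]
  refine (inv_anti₀ h4 h3).trans (le_of_eq ?_)
  unfold bsPsi
  rw [Real.sqrt_eq_rpow, Real.mul_rpow ha.le hb.le, mul_inv, ← Real.rpow_neg ha.le,
    ← Real.rpow_neg hb.le]

variable {F : Type} [NormedAddCommGroup F] [NormedSpace ℂ F] [CompleteSpace F]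

omit [CompleteSpace F] in
theorem bs_int_le (z : ℂ) (g : ℝ × ℝ → F) (S1 S2 : Set ℝ) (h1 : MeasurableSet S1)
    (h2 : MeasurableSet S2) (m1 m2 κ : ℝ) (hm1 : 0 < m1) (hm2 : 0 < m2)
    (hS1 : MeasureTheory.volume S1 ≤ ENNReal.ofReal m1)
    (hS2 : MeasureTheory.volume S2 ≤ ENNReal.ofReal m2)
    (hg : MeasureTheory.AEStronglyMeasurable g (MeasureTheory.volume.restrict (S1 ×ˢ S2)))
    (hb : ∀ v ∈ S1 ×ˢ S2, ‖g v‖ ≤ κ) (hκ : 0 ≤ κ) :
    MeasureTheory.IntegrableOn (fun v => bsKer z v • g v) (S1 ×ˢ S2) ∧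
      ‖∫ v in S1 ×ˢ S2, bsKer z v • g v‖ ≤ κ * ((5 * √m1) * (5 * √m2)) := by
  obtain ⟨i1, j1⟩ := bs_psi_set S1 h1 z.re m1 hm1 hS1
  obtain ⟨i2, j2⟩ := bs_psi_set S2 h2 z.im m2 hm2 hS2
  have hprod : MeasureTheory.IntegrableOn
      (fun v : ℝ × ℝ => bsPsi (v.1 - z.re) * bsPsi (v.2 - z.im)) (S1 ×ˢ S2) := by
    have := MeasureTheory.Integrable.mul_prod i1 i2
    rwa [MeasureTheory.Measure.prod_restrict] at this
  have hae : ∀ᵐ v : ℝ × ℝ ∂(MeasureTheory.volume.restrict (S1 ×ˢ S2)),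
      ‖bsKer z v • g v‖ ≤ κ * (bsPsi (v.1 - z.re) * bsPsi (v.2 - z.im)) := by
    rw [MeasureTheory.ae_restrict_iff' (h1.prod h2)]
    have hn1 : ∀ᵐ v : ℝ × ℝ, v.1 ≠ z.re := by
      have : MeasureTheory.volume ({z.re} ×ˢ (univ : Set ℝ)) = 0 := by
        rw [MeasureTheory.Measure.volume_eq_prod, MeasureTheory.Measure.prod_prod]
        simp
      refine MeasureTheory.measure_mono_null ?_ this
      intro v hv
      simp only [mem_compl_iff, mem_ofPred_eq, not_not] at hv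
      exact ⟨hv, mem_univ _⟩
    have hn2 : ∀ᵐ v : ℝ × ℝ, v.2 ≠ z.im := by
      have : MeasureTheory.volume ((univ : Set ℝ) ×ˢ {z.im}) = 0 := by
        rw [MeasureTheory.Measure.volume_eq_prod, MeasureTheory.Measure.prod_prod]
        simp
      refine MeasureTheory.measure_mono_null ?_ this
      intro v hv
      simp only [mem_compl_iff, mem_ofPred_eq, not_not] at hv
      exact ⟨mem_univ _, hv⟩
    filter_upwards [hn1, hn2] with v hv1 hv2 hv
    rw [norm_smul, mul_comm κ]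
    exact mul_le_mul (bsKer_norm_le z v hv1 hv2) (hb v hv) (norm_nonneg _)
      (mul_nonneg (bsPsi_nonneg _) (bsPsi_nonneg _))
  have hki : MeasureTheory.IntegrableOn
      (fun v : ℝ × ℝ => κ * (bsPsi (v.1 - z.re) * bsPsi (v.2 - z.im))) (S1 ×ˢ S2) :=
    hprod.const_mul κ
  constructor
  · refine MeasureTheory.Integrable.mono' hki ?_ hae
    exact (bsKer_measurable z).aestronglyMeasurable.smul hg
  · refine (MeasureTheory.norm_integral_le_of_norm_le hki hae).trans ?_
    rw [MeasureTheory.integral_const_mul]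
    refine mul_le_mul_of_nonneg_left ?_ hκ
    rw [MeasureTheory.Measure.volume_eq_prod, MeasureTheory.setIntegral_prod_mul
      (fun s => bsPsi (s - z.re)) (fun s => bsPsi (s - z.im))]
    refine mul_le_mul j1 j2 ?_ (by positivity)
    exact MeasureTheory.integral_nonneg fun t => bsPsi_nonneg _

variable {E' : Type} [NormedAddCommGroup E'] [NormedSpace ℂ E']

omit [CompleteSpace F] [NormedSpace ℂ F] [NormedSpace ℂ E'] in
theorem bs_meas {c : ℂ × E' → F} {W : Set E'} {c0 c1 p q b b' : ℝ} (hc0 : c0 ≤ p) (hc1 : q ≤ c1)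
    (hbb : b' ≤ b) (hc : ContinuousOn c ((SL c1 b ∩ SR c0 b) ×ˢ W)) {w : E'} (hw : w ∈ W)
    {S1 S2 : Set ℝ} (h1 : MeasurableSet S1) (h2 : MeasurableSet S2) (hS1 : S1 ⊆ Ioo p q)
    (hS2 : S2 ⊆ Ioo (-b') b') :
    MeasureTheory.AEStronglyMeasurable (fun v : ℝ × ℝ => c (bsPt v, w))
      (MeasureTheory.volume.restrict (S1 ×ˢ S2)) := by
  refine ContinuousOn.aestronglyMeasurable ?_ (h1.prod h2)
  refine hc.comp (bsPt_continuous.prodMk continuous_const).continuousOn ?_
  intro v hv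
  have hv1 := hS1 hv.1
  have hv2 := hS2 hv.2
  refine ⟨⟨⟨?_, ?_⟩, ⟨?_, ?_⟩⟩, hw⟩
  · simp only [bsPt_re]; linarith [hv1.2]
  · simp only [bsPt_im]; rw [abs_lt]; constructor <;> linarith [hv2.1, hv2.2]
  · simp only [bsPt_re]; linarith [hv1.1]
  · simp only [bsPt_im]; rw [abs_lt]; constructor <;> linarith [hv2.1, hv2.2]

/-- area integral. -/
def bsJ (p q b : ℝ) (c : ℂ × E' → F) (x : ℂ × E') : F :=
  ∫ v in Ioo p q ×ˢ Ioo (-b) b, bsKer x.1 v • c (bsPt v, x.2)

/-- cut-off. -/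
def bsChi (p q x : ℝ) : ℝ := max 0 (min 1 ((q - x) / (q - p)))

theorem bsChi_nonneg (p q x : ℝ) : 0 ≤ bsChi p q x := le_max_left _ _

theorem bsChi_le_one (p q x : ℝ) : bsChi p q x ≤ 1 := max_le zero_le_one (min_le_left _ _)

theorem bsChi_zero (p q x : ℝ) (h : p < q) (hx : q ≤ x) : bsChi p q x = 0 := by
  unfold bsChi
  apply max_eq_left
  refine (min_le_right _ _).trans ?_
  exact div_nonpos_of_nonpos_of_nonneg (by linarith) (by linarith)

theorem bsChi_neg (p q x : ℝ) (h : p < q) : bsChi (-q) (-p) x = 1 - bsChi p q (-x) := by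
  unfold bsChi
  have h1 : (-p - x) / (-p - -q) = 1 - (q - -x) / (q - p) := by
    have : q - p ≠ 0 := by linarith
    have e : -p - -q = q - p := by ring
    rw [e]
    field_simp
    ring
  rw [h1]
  generalize (q - -x) / (q - p) = t
  rcases le_total t 0 with h0 | h0
  · rw [min_eq_left (by linarith), max_eq_right (by linarith), min_eq_right (by linarith),
      max_eq_left (by linarith)]
    ring
  · rcases le_total t 1 with h2 | h2
    · rw [min_eq_right (by linarith), max_eq_right (by linarith), min_eq_right (by linarith),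
        max_eq_right (by linarith)]
    · rw [min_eq_right (by linarith), max_eq_left (by linarith), min_eq_left (by linarith),
        max_eq_right (by linarith)]
      ring

/-- the right hand solution. -/
def bsB (p q b : ℝ) (c : ℂ × E' → F) (x : ℂ × E') : F :=
  (bsChi p q x.1.re : ℂ) • c x - ((2 * Real.pi * (q - p) : ℝ) : ℂ)⁻¹ • bsJ p q b c x

omit [CompleteSpace F] in
theorem bsJ_norm_le {c : ℂ × E' → F} {W : Set E'} {c0 c1 p q b κ : ℝ} (hc0 : c0 ≤ p)
    (hpq : p < q) (hc1 : q ≤ c1) (hb : 0 < b) (hκ : 0 ≤ κ)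
    (hc : ContinuousOn c ((SL c1 b ∩ SR c0 b) ×ˢ W))
    (hcb : ∀ x ∈ (SL c1 b ∩ SR c0 b) ×ˢ W, ‖c x‖ ≤ κ) (x : ℂ × E') (hw : x.2 ∈ W) :
    ‖bsJ p q b c x‖ ≤ κ * ((5 * √(q - p)) * (5 * √(2 * b))) := by
  refine (bs_int_le x.1 (fun v => c (bsPt v, x.2)) (Ioo p q) (Ioo (-b) b) measurableSet_Ioo
    measurableSet_Ioo (q - p) (2 * b) κ (by linarith) (by linarith) ?_ ?_ ?_ ?_ hκ).2
  · rw [Real.volume_Ioo]
  · rw [Real.volume_Ioo]
    apply ENNReal.ofReal_le_ofReal
    linarith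
  · exact bs_meas hc0 hc1 le_rfl hc hw measurableSet_Ioo measurableSet_Ioo subset_rfl subset_rfl
  · intro v hv
    apply hcb
    refine ⟨⟨⟨?_, ?_⟩, ⟨?_, ?_⟩⟩, hw⟩
    · simp only [bsPt_re]; linarith [hv.1.2]
    · simp only [bsPt_im]; rw [abs_lt]; exact hv.2
    · simp only [bsPt_re]; linarith [hv.1.1]
    · simp only [bsPt_im]; rw [abs_lt]; exact hv.2

omit [CompleteSpace F] in
theorem bsJ_sub_le {c : ℂ × E' → F} {W : Set E'} {c0 c1 p q b b' κ : ℝ} (hc0 : c0 ≤ p)
    (hpq : p < q) (hc1 : q ≤ c1) (hb : 0 < b') (hbb : b' < b) (hκ : 0 ≤ κ)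
    (hc : ContinuousOn c ((SL c1 b ∩ SR c0 b) ×ˢ W))
    (hcb : ∀ x ∈ (SL c1 b ∩ SR c0 b) ×ˢ W, ‖c x‖ ≤ κ) (x : ℂ × E') (hw : x.2 ∈ W) :
    ‖bsJ p q b' c x - bsJ p q b c x‖ ≤ κ * ((5 * √(q - p)) * (5 * √(2 * (b - b')))) := by
  have hsub : Ioo (-b') b' ⊆ Ioo (-b) b := Ioo_subset_Ioo (by linarith) (by linarith)
  have hmem : ∀ v ∈ Ioo p q ×ˢ Ioo (-b) b, ‖c (bsPt v, x.2)‖ ≤ κ := by
    intro v hv
    apply hcb
    refine ⟨⟨⟨?_, ?_⟩, ⟨?_, ?_⟩⟩, hw⟩
    · simp only [bsPt_re]; linarith [hv.1.2]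
    · simp only [bsPt_im]; rw [abs_lt]; exact hv.2
    · simp only [bsPt_re]; linarith [hv.1.1]
    · simp only [bsPt_im]; rw [abs_lt]; exact hv.2
  have hint := (bs_int_le x.1 (fun v => c (bsPt v, x.2)) (Ioo p q) (Ioo (-b) b) measurableSet_Ioo
    measurableSet_Ioo (q - p) (2 * b) κ (by linarith) (by linarith)
    (by rw [Real.volume_Ioo]) (by rw [Real.volume_Ioo]; apply ENNReal.ofReal_le_ofReal; linarith)
    (bs_meas hc0 hc1 le_rfl hc hw measurableSet_Ioo measurableSet_Ioo subset_rfl subset_rfl)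
    hmem hκ).1
  have hdiff := (bs_int_le x.1 (fun v => c (bsPt v, x.2)) (Ioo p q)
    (Ioo (-b) b \ Ioo (-b') b') measurableSet_Ioo
    (measurableSet_Ioo.diff measurableSet_Ioo) (q - p) (2 * (b - b')) κ (by linarith) (by linarith)
    (by rw [Real.volume_Ioo]) (by
      rw [MeasureTheory.measure_sdiff hsub measurableSet_Ioo.nullMeasurableSet
        (by rw [Real.volume_Ioo]; exact ENNReal.ofReal_ne_top), Real.volume_Ioo, Real.volume_Ioo,
        ← ENNReal.ofReal_sub _ (by linarith)]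
      apply ENNReal.ofReal_le_ofReal
      linarith)
    (bs_meas hc0 hc1 le_rfl hc hw measurableSet_Ioo (measurableSet_Ioo.diff measurableSet_Ioo)
      subset_rfl sdiff_subset)
    (fun v hv => hmem v ⟨hv.1, hv.2.1⟩) hκ).2
  have hset : (Ioo p q ×ˢ Ioo (-b) b) \ (Ioo p q ×ˢ Ioo (-b') b')
      = Ioo p q ×ˢ (Ioo (-b) b \ Ioo (-b') b') := by
    ext v
    simp only [Set.mem_sdiff, mem_prod]
    tauto
  have h2 := MeasureTheory.setIntegral_sdiff (μ := MeasureTheory.volume)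
    (f := fun v => bsKer x.1 v • c (bsPt v, x.2)) (s := Ioo p q ×ˢ Ioo (-b) b)
    (t := Ioo p q ×ˢ Ioo (-b') b') (measurableSet_Ioo.prod measurableSet_Ioo) hint
    (prod_mono subset_rfl hsub)
  rw [hset] at h2
  rw [norm_sub_rev]
  unfold bsJ
  rw [← h2]
  exact hdiff

/-- vertical integrals. -/
def bsG (b : ℝ) (f : ℂ → F) (z : ℂ) (s : ℝ) : F :=
  ∫ y in (-b)..b, ((s + y * Complex.I : ℂ) - z)⁻¹ • f (s + y * Complex.I)

/-- horizontal integrand. -/
def bsH (b : ℝ) (f : ℂ → F) (z : ℂ) (x : ℝ) : F :=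
  ((x + ((-b : ℝ) : ℂ) * Complex.I : ℂ) - z)⁻¹ • f (x + ((-b : ℝ) : ℂ) * Complex.I) -
    ((x + (b : ℂ) * Complex.I : ℂ) - z)⁻¹ • f (x + (b : ℂ) * Complex.I)

omit [CompleteSpace F] in
theorem bsH_cont {f : ℂ → F} {z : ℂ} {c0 c1 b b' : ℝ} (hb : 0 < b') (hbb : b' < b)
    (hf : ContinuousOn f (SL c1 b ∩ SR c0 b)) (hz : |z.im| < b') :
    ContinuousOn (bsH b' f z) (Ioo c0 c1) := by
  rw [abs_lt] at hz
  unfold bsH
  refine ContinuousOn.sub ?_ ?_
  · refine ContinuousOn.smul ?_ ?_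
    · refine ContinuousOn.inv₀ (by fun_prop) ?_
      intro x _ h0
      have := congrArg Complex.im h0
      simp at this
      linarith
    · refine hf.comp (by fun_prop) ?_
      intro x hx
      refine ⟨⟨?_, ?_⟩, ⟨?_, ?_⟩⟩
      · simpa using hx.2
      · simp [abs_of_pos hb, hbb]
      · simpa using hx.1
      · simp [abs_of_pos hb, hbb]
  · refine ContinuousOn.smul ?_ ?_
    · refine ContinuousOn.inv₀ (by fun_prop) ?_
      intro x _ h0
      have := congrArg Complex.im h0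
      simp at this
      linarith
    · refine hf.comp (by fun_prop) ?_
      intro x hx
      refine ⟨⟨?_, ?_⟩, ⟨?_, ?_⟩⟩
      · simpa using hx.2
      · simp [abs_of_pos hb, hbb]
      · simpa using hx.1
      · simp [abs_of_pos hb, hbb]

theorem bsG_formula {f : ℂ → F} {z : ℂ} {c0 c1 l s b b' : ℝ} (hl : c0 < l) (hls : l < s)
    (hs : s < c1) (hb : 0 < b') (hbb : b' < b) (hf : DifferentiableOn ℂ f (SL c1 b ∩ SR c0 b))
    (hzl : l < z.re) (hzi : |z.im| < b') (hsz : s ≠ z.re) :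
    bsG b' f z s = bsG b' f z l + Complex.I • (∫ x in l..s, bsH b' f z x) +
      (if z.re < s then (2 * Real.pi : ℂ) • f z else 0) := by
  have hU : IsOpen (SL c1 b ∩ SR c0 b) := (isOpen_SL _ _).inter (isOpen_SR _ _)
  have hR : Icc l s ×ℂ Icc (-b') b' ⊆ SL c1 b ∩ SR c0 b := by
    intro ζ hζ
    have h1 : ζ.re ∈ Icc l s := hζ.1
    have h2 : ζ.im ∈ Icc (-b') b' := hζ.2
    refine ⟨⟨?_, ?_⟩, ⟨?_, ?_⟩⟩
    · linarith [h1.2]
    · rw [abs_lt]; constructor <;> linarith [h2.1, h2.2]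
    · linarith [h1.1]
    · rw [abs_lt]; constructor <;> linarith [h2.1, h2.2]
  have hzi' := abs_lt.mp hzi
  have hH : ∫ x in l..s, bsH b' f z x =
      (∫ x in l..s, ((x + ((-b' : ℝ) : ℂ) * Complex.I : ℂ) - z)⁻¹ • f (x + ((-b' : ℝ) : ℂ) * Complex.I)) -
      (∫ x in l..s, ((x + (b' : ℂ) * Complex.I : ℂ) - z)⁻¹ • f (x + (b' : ℂ) * Complex.I)) := by
    unfold bsH
    rw [intervalIntegral.integral_sub]
    · apply ContinuousOn.intervalIntegrable_of_Icc hls.le
      refine ContinuousOn.smul ?_ ?_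
      · refine ContinuousOn.inv₀ (by fun_prop) ?_
        intro x _ h0
        have := congrArg Complex.im h0
        simp at this
        linarith
      · refine hf.continuousOn.comp (by fun_prop) ?_
        intro x hx
        apply hR
        refine ⟨?_, ?_⟩
        · simpa using hx
        · simp; linarith
    · apply ContinuousOn.intervalIntegrable_of_Icc hls.le
      refine ContinuousOn.smul ?_ ?_
      · refine ContinuousOn.inv₀ (by fun_prop) ?_
        intro x _ h0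
        have := congrArg Complex.im h0
        simp at this
        linarith
      · refine hf.continuousOn.comp (by fun_prop) ?_
        intro x hx
        apply hR
        refine ⟨?_, ?_⟩
        · simpa using hx
        · simp; linarith
  have hrect : rectInt f z l s (-b') b' = (∫ x in l..s, bsH b' f z x) +
      Complex.I • bsG b' f z s - Complex.I • bsG b' f z l := by
    rw [hH]
    rfl
  have key : (∫ x in l..s, bsH b' f z x) + Complex.I • bsG b' f z s - Complex.I • bsG b' f z l =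
      (if z.re < s then (2 * Real.pi * Complex.I : ℂ) • f z else 0) := by
    rw [← hrect]
    split_ifs with h
    · exact rectInt_inside hU hR hf hzl h hzi'.1 hzi'.2
    · refine rectInt_outside hU hls.le (by linarith) hR hf ?_
      intro hz
      have : z.re ∈ Icc l s := hz.1
      have h3 := this.2
      push Not at h
      exact hsz (le_antisymm h h3)
  have h5 : Complex.I • bsG b' f z s = Complex.I • bsG b' f z l - (∫ x in l..s, bsH b' f z x) +
      (if z.re < s then (2 * Real.pi * Complex.I : ℂ) • f z else 0) := by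
    rw [← key]
    abel
  have h6 : bsG b' f z s = (-Complex.I) • (Complex.I • bsG b' f z s) := by
    rw [smul_smul]
    simp
  rw [h6, h5, smul_add, smul_sub, smul_smul]
  have h7 : -Complex.I * Complex.I = 1 := by simp
  rw [h7, one_smul, neg_smul, sub_neg_eq_add]
  congr 1
  split_ifs
  · rw [smul_smul]
    congr 1
    rw [show -Complex.I * (2 * Real.pi * Complex.I) = (-Complex.I * Complex.I) * (2 * Real.pi) by ring,
      h7, one_mul]
  · simp

theorem bs_chi_int (p q a : ℝ) (h : p < q) (u : F) :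
    ∫ s in p..q, (if a < s then u else 0) = ((q - p) * bsChi p q a : ℝ) • u := by
  rw [intervalIntegral.integral_of_le h.le]
  have h1 : (fun s : ℝ => if a < s then u else 0) = (Ioi a).indicator (fun _ => u) := by
    ext s
    simp [indicator, mem_Ioi]
  rw [h1, MeasureTheory.integral_indicator measurableSet_Ioi, MeasureTheory.Measure.restrict_restrict
    measurableSet_Ioi, MeasureTheory.setIntegral_const]
  congr 1
  have h2 : Ioi a ∩ Ioc p q = Ioc (max p a) q := by
    ext s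
    simp only [mem_inter_iff, mem_Ioi, mem_Ioc, sup_lt_iff]
    tauto
  rw [h2, MeasureTheory.measureReal_def, Real.volume_Ioc, ENNReal.toReal_ofReal']
  unfold bsChi
  have h3 : 0 < q - p := by linarith
  rw [mul_max_of_nonneg _ _ h3.le, mul_min_of_nonneg _ _ h3.le, mul_zero, mul_one,
    mul_div_cancel₀ _ h3.ne', max_comm]
  congr 1
  rcases le_total p a with h4 | h4
  · rw [max_eq_right h4, min_eq_right (by linarith)]
  · rw [max_eq_left h4, min_eq_left (by linarith)]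

theorem bs_parts {h : ℝ → F} {c0 c1 l p q : ℝ} (hl : c0 < l) (hlp : l < p) (hpq : p < q)
    (hq : q < c1) (hh : ContinuousOn h (Ioo c0 c1)) :
    ∫ s in p..q, ∫ t in l..s, h t =
      (q : ℂ) • (∫ t in l..q, h t) - (p : ℂ) • (∫ t in l..p, h t) - ∫ t in p..q, (t : ℂ) • h t := by
  have hsub : ∀ s ∈ Icc l q, s ∈ Ioo c0 c1 := fun s hs => ⟨by linarith [hs.1], by linarith [hs.2]⟩
  have hder : ∀ s ∈ Icc p q, HasDerivAt (fun s => ∫ t in l..s, h t) (h s) s := by
    intro s hs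
    have hs' : s ∈ Ioo c0 c1 := hsub s ⟨by linarith [hs.1], hs.2⟩
    refine intervalIntegral.integral_hasDerivAt_right ?_ ?_ ?_
    · apply ContinuousOn.intervalIntegrable_of_Icc (by linarith [hs.1])
      exact hh.mono fun t ht => hsub t ⟨ht.1, by linarith [ht.2, hs.2]⟩
    · exact hh.stronglyMeasurableAtFilter isOpen_Ioo s hs'
    · exact hh.continuousAt (isOpen_Ioo.mem_nhds hs')
  have hu : uIcc p q = Icc p q := uIcc_of_le hpq.le
  have key := intervalIntegral.integral_smul_deriv_eq_deriv_smul (a := p) (b := q) (𝕜 := ℂ)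
    (u := fun s : ℝ => (s : ℂ)) (u' := fun _ => (1 : ℂ)) (v := fun s => ∫ t in l..s, h t) (v' := h)
    (fun s _ => (hasDerivAt_id (s : ℝ)).ofReal_comp) (fun s hs => hder s (by rwa [hu] at hs))
    intervalIntegrable_const (by
      apply ContinuousOn.intervalIntegrable_of_Icc hpq.le
      exact hh.mono fun t ht => hsub t ⟨by linarith [ht.1], ht.2⟩)
  rw [key]
  simp only [one_smul]
  abel

theorem bsJ_formula {c : ℂ × E' → F} {W : Set E'} {c0 c1 l p q b b' κ : ℝ} (hl : c0 < l)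
    (hlp : l < p) (hpq : p < q) (hq : q < c1) (hb : 0 < b') (hbb : b' < b) (hκ : 0 ≤ κ)
    (hc : ContinuousOn c ((SL c1 b ∩ SR c0 b) ×ˢ W))
    (hcb : ∀ x ∈ (SL c1 b ∩ SR c0 b) ×ˢ W, ‖c x‖ ≤ κ)
    (x : ℂ × E') (hw : x.2 ∈ W)
    (hf : DifferentiableOn ℂ (fun ζ => c (ζ, x.2)) (SL c1 b ∩ SR c0 b))
    (hzl : l < x.1.re) (hzi : |x.1.im| < b') :
    bsJ p q b' c x = ((q - p : ℝ) : ℂ) • bsG b' (fun ζ => c (ζ, x.2)) x.1 l +
      Complex.I • (∫ s in p..q, ∫ t in l..s, bsH b' (fun ζ => c (ζ, x.2)) x.1 t) +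
      ((2 * Real.pi * ((q - p) * bsChi p q x.1.re) : ℝ) : ℂ) • c x := by
  have hint := (bs_int_le x.1 (fun v => c (bsPt v, x.2)) (Ioo p q) (Ioo (-b') b') measurableSet_Ioo
    measurableSet_Ioo (q - p) (2 * b') κ (by linarith) (by linarith)
    (by rw [Real.volume_Ioo]) (by rw [Real.volume_Ioo]; apply ENNReal.ofReal_le_ofReal; linarith)
    (bs_meas (by linarith) hq.le hbb.le hc hw measurableSet_Ioo measurableSet_Ioo subset_rfl
      subset_rfl)
    (by
      intro v hv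
      apply hcb
      refine ⟨⟨⟨?_, ?_⟩, ⟨?_, ?_⟩⟩, hw⟩
      · simp only [bsPt_re]; linarith [hv.1.2]
      · simp only [bsPt_im]; rw [abs_lt]; constructor <;> linarith [hv.2.1, hv.2.2]
      · simp only [bsPt_re]; linarith [hv.1.1]
      · simp only [bsPt_im]; rw [abs_lt]; constructor <;> linarith [hv.2.1, hv.2.2]) hκ).1
  set f : ℂ → F := fun ζ => c (ζ, x.2) with hfdef
  have h1 : bsJ p q b' c x = ∫ s in p..q, bsG b' f x.1 s := by
    unfold bsJ
    rw [MeasureTheory.Measure.volume_eq_prod, MeasureTheory.setIntegral_prod _ hint,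
      intervalIntegral.integral_of_le hpq.le, MeasureTheory.integral_Ioc_eq_integral_Ioo]
    congr 1
    ext s
    unfold bsG
    rw [intervalIntegral.integral_of_le (by linarith), MeasureTheory.integral_Ioc_eq_integral_Ioo]
    rfl
  have hcont : ContinuousOn (bsH b' f x.1) (Ioo c0 c1) := bsH_cont hb hbb hf.continuousOn hzi
  have h2 : ∫ s in p..q, bsG b' f x.1 s = ∫ s in p..q, (bsG b' f x.1 l +
      Complex.I • (∫ t in l..s, bsH b' f x.1 t) +
      (if x.1.re < s then (2 * Real.pi : ℂ) • f x.1 else 0)) := by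
    apply intervalIntegral.integral_congr_ae
    have hne : ∀ᵐ s : ℝ, s ≠ x.1.re := by
      simp [MeasureTheory.ae_iff, MeasureTheory.measure_singleton]
    filter_upwards [hne] with s hs hs2
    rw [uIoc_of_le hpq.le] at hs2
    exact bsG_formula hl (by linarith [hs2.1]) (by linarith [hs2.2]) hb hbb hf hzl hzi hs
  have hi1 : IntervalIntegrable (fun s => bsG b' f x.1 l +
      Complex.I • (∫ t in l..s, bsH b' f x.1 t)) MeasureTheory.volume p q := by
    apply IntervalIntegrable.add intervalIntegrable_const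
    apply ContinuousOn.intervalIntegrable_of_Icc hpq.le
    apply ContinuousOn.const_smul
    have hii : MeasureTheory.IntegrableOn (bsH b' f x.1) (uIcc l q) := by
      rw [uIcc_of_le (by linarith)]
      apply ContinuousOn.integrableOn_Icc
      exact hcont.mono fun t ht => ⟨by linarith [ht.1], by linarith [ht.2]⟩
    have := intervalIntegral.continuousOn_primitive_interval hii
    refine this.mono ?_
    rw [uIcc_of_le (by linarith)]
    exact Icc_subset_Icc (by linarith) le_rfl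
  have hi2 : IntervalIntegrable (fun s => if x.1.re < s then (2 * Real.pi : ℂ) • f x.1 else 0)
      MeasureTheory.volume p q := by
    have h3 : (fun s : ℝ => if x.1.re < s then (2 * Real.pi : ℂ) • f x.1 else 0) =
        (Ioi x.1.re).indicator (fun _ => (2 * Real.pi : ℂ) • f x.1) := by
      ext s
      simp [indicator, mem_Ioi]
    rw [h3, intervalIntegrable_iff]
    apply MeasureTheory.Integrable.indicator _ measurableSet_Ioi
    rw [← MeasureTheory.IntegrableOn, ← intervalIntegrable_iff]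
    exact intervalIntegrable_const
  rw [h1, h2, intervalIntegral.integral_add hi1 hi2, bs_chi_int _ _ _ hpq,
    intervalIntegral.integral_add intervalIntegrable_const ?_]
  · rw [intervalIntegral.integral_smul, intervalIntegral.integral_const]
    congr 1
    have e : f x.1 = c x := rfl
    rw [e, ← Complex.coe_smul, smul_smul]
    congr 1
    push_cast
    ring
  · have := hi1.sub (intervalIntegrable_const (c := bsG b' f x.1 l))
    refine this.congr ?_
    intro s _
    simp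

omit [CompleteSpace F] [NormedSpace ℂ E'] in
theorem bs_term_cont {c : ℂ × E' → F} {W : Set E'} {U D : Set ℂ} {γ : ℝ → ℂ} {a b : ℝ}
    (hγ : Continuous γ) (hγU : ∀ t ∈ uIcc a b, γ t ∈ U) (hγD : ∀ t ∈ uIcc a b, γ t ∉ D)
    (hc : ContinuousOn c (U ×ˢ W)) {ω : ℝ → ℂ} (hω : Continuous ω) :
    ContinuousOn (fun r : (ℂ × E') × ℝ => ω r.2 • ((γ r.2 - r.1.1)⁻¹ • c (γ r.2, r.1.2)))
      ((D ×ˢ W) ×ˢ uIcc a b) := by
  refine ContinuousOn.smul (by fun_prop) (ContinuousOn.smul ?_ ?_)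
  · refine ContinuousOn.inv₀ (by fun_prop) ?_
    intro r hr h0
    apply hγD r.2 hr.2
    rw [sub_eq_zero.mp h0]
    exact hr.1.1
  · refine hc.comp (by fun_prop) ?_
    intro r hr
    exact ⟨hγU r.2 hr.2, hr.1.2⟩

omit [CompleteSpace F] in
theorem bs_term_diff {c : ℂ × E' → F} {W : Set E'} {U D : Set ℂ} {γ : ℝ → ℂ} {a b : ℝ}
    (hγU : ∀ t ∈ uIcc a b, γ t ∈ U) (hγD : ∀ t ∈ uIcc a b, γ t ∉ D)
    (hc : DifferentiableOn ℂ c (U ×ˢ W)) {ω : ℝ → ℂ} (t : ℝ) (ht : t ∈ uIcc a b) :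
    DifferentiableOn ℂ (fun x : ℂ × E' => ω t • ((γ t - x.1)⁻¹ • c (γ t, x.2))) (D ×ˢ W) := by
  refine DifferentiableOn.const_smul (DifferentiableOn.smul ?_ ?_) _
  · refine DifferentiableOn.inv (by fun_prop) ?_
    intro r hr h0
    apply hγD t ht
    rw [sub_eq_zero.mp h0]
    exact hr.1
  · refine hc.comp (by fun_prop) ?_
    intro r hr
    exact ⟨hγU t ht, hr.2⟩

variable [FiniteDimensional ℂ E']

theorem bs_diff_G {c : ℂ × E' → F} {W : Set E'} {c0 c1 l b b' : ℝ} (hl : c0 < l) (hl1 : l < c1)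
    (hb : 0 < b') (hbb : b' < b) (hW : IsOpen W)
    (hc : DifferentiableOn ℂ c ((SL c1 b ∩ SR c0 b) ×ˢ W)) :
    DifferentiableOn ℂ (fun x : ℂ × E' => bsG b' (fun ζ => c (ζ, x.2)) x.1 l)
      (SR l b' ×ˢ W) := by
  have hγ : Continuous (fun y : ℝ => (l + y * Complex.I : ℂ)) := by fun_prop
  have h1 : ∀ t ∈ uIcc (-b') b', (l + t * Complex.I : ℂ) ∈ SL c1 b ∩ SR c0 b := by
    intro t ht
    rw [uIcc_of_le (by linarith)] at ht
    refine ⟨⟨?_, ?_⟩, ⟨?_, ?_⟩⟩
    · simpa using hl1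
    · simp only [Complex.add_im, Complex.ofReal_im, Complex.mul_im, Complex.ofReal_re,
        Complex.I_im, mul_one, Complex.I_re, mul_zero, add_zero, zero_add]
      rw [abs_lt]; constructor <;> linarith [ht.1, ht.2]
    · simpa using hl
    · simp only [Complex.add_im, Complex.ofReal_im, Complex.mul_im, Complex.ofReal_re,
        Complex.I_im, mul_one, Complex.I_re, mul_zero, add_zero, zero_add]
      rw [abs_lt]; constructor <;> linarith [ht.1, ht.2]
  have h2 : ∀ t ∈ uIcc (-b') b', (l + t * Complex.I : ℂ) ∉ SR l b' := by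
    intro t _ h
    have := h.1
    simp at this
  have key := differentiableOn_integral (f := fun (x : ℂ × E') (t : ℝ) =>
      (1 : ℂ) • (((l + t * Complex.I : ℂ) - x.1)⁻¹ • c ((l + t * Complex.I : ℂ), x.2)))
    (U := SR l b' ×ˢ W) ((isOpen_SR l b').prod hW) (a := -b') (b := b')
    (bs_term_cont hγ h1 h2 hc.continuousOn (ω := fun _ => 1) continuous_const)
    (fun t ht => bs_term_diff h1 h2 hc (ω := fun _ => 1) t ht)
  simp only [one_smul] at key
  exact key

theorem bs_diff_H {c : ℂ × E' → F} {W : Set E'} {c0 c1 l l' p b b' : ℝ} (hl : c0 < l)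
    (hl1 : l ≤ p) (hp : p < c1) (hb : 0 < b') (hbb : b' < b) (hW : IsOpen W)
    (hc : DifferentiableOn ℂ c ((SL c1 b ∩ SR c0 b) ×ˢ W)) (ω : ℝ → ℂ) (hω : Continuous ω) :
    DifferentiableOn ℂ (fun x : ℂ × E' => ∫ t in l..p, ω t • bsH b' (fun ζ => c (ζ, x.2)) x.1 t)
      (SR l' b' ×ˢ W) := by
  have hγ1 : Continuous (fun t : ℝ => (t + ((-b' : ℝ) : ℂ) * Complex.I : ℂ)) := by fun_prop
  have hγ2 : Continuous (fun t : ℝ => (t + (b' : ℂ) * Complex.I : ℂ)) := by fun_prop
  have h1 : ∀ t ∈ uIcc l p, (t + ((-b' : ℝ) : ℂ) * Complex.I : ℂ) ∈ SL c1 b ∩ SR c0 b := by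
    intro t ht
    rw [uIcc_of_le hl1] at ht
    refine ⟨⟨?_, ?_⟩, ⟨?_, ?_⟩⟩
    · simpa using lt_of_le_of_lt ht.2 hp
    · simp [abs_of_pos hb, hbb]
    · simpa using lt_of_lt_of_le hl ht.1
    · simp [abs_of_pos hb, hbb]
  have h1' : ∀ t ∈ uIcc l p, (t + (b' : ℂ) * Complex.I : ℂ) ∈ SL c1 b ∩ SR c0 b := by
    intro t ht
    rw [uIcc_of_le hl1] at ht
    refine ⟨⟨?_, ?_⟩, ⟨?_, ?_⟩⟩
    · simpa using lt_of_le_of_lt ht.2 hp
    · simp [abs_of_pos hb, hbb]
    · simpa using lt_of_lt_of_le hl ht.1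
    · simp [abs_of_pos hb, hbb]
  have h2 : ∀ t ∈ uIcc l p, (t + ((-b' : ℝ) : ℂ) * Complex.I : ℂ) ∉ SR l' b' := by
    intro t _ h
    have := h.2
    simp [abs_of_pos hb] at this
  have h2' : ∀ t ∈ uIcc l p, (t + (b' : ℂ) * Complex.I : ℂ) ∉ SR l' b' := by
    intro t _ h
    have := h.2
    simp [abs_of_pos hb] at this
  refine differentiableOn_integral (f := fun (x : ℂ × E') (t : ℝ) =>
      ω t • bsH b' (fun ζ => c (ζ, x.2)) x.1 t)
    (U := SR l' b' ×ˢ W) ((isOpen_SR l' b').prod hW) (a := l) (b := p) ?_ ?_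
  · have := (bs_term_cont hγ1 h1 h2 hc.continuousOn hω).sub
      (bs_term_cont hγ2 h1' h2' hc.continuousOn hω)
    refine this.congr ?_
    intro r _
    simp only [bsH, smul_sub]
    rfl
  · intro t ht
    have := (bs_term_diff h1 h2 hc (ω := ω) t ht).sub (bs_term_diff h1' h2' hc (ω := ω) t ht)
    refine this.congr ?_
    intro r _
    simp only [bsH, smul_sub]
    rfl

theorem bsB_diff_aux {c : ℂ × E' → F} {W : Set E'} {c0 c1 p q b b' κ : ℝ} (hp : c0 < p)
    (hpq : p < q) (hq : q < c1) (hb : 0 < b') (hbb : b' < b) (hκ : 0 ≤ κ) (hW : IsOpen W)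
    (hc : DifferentiableOn ℂ c ((SL c1 b ∩ SR c0 b) ×ˢ W))
    (hcb : ∀ x ∈ (SL c1 b ∩ SR c0 b) ×ˢ W, ‖c x‖ ≤ κ) :
    DifferentiableOn ℂ (bsB p q b' c) (SR c0 b' ×ˢ W) := by
  have hloc : ∀ l, c0 < l → l < p → DifferentiableOn ℂ (bsB p q b' c) (SR l b' ×ˢ W) := by
    intro l hl hlp
    have hG := bs_diff_G hl (by linarith) hb hbb hW hc
    have hH1 := bs_diff_H (l' := l) (p := q) hl (by linarith) hq hb hbb hW hc (fun _ => 1)
      continuous_const
    have hH2 := bs_diff_H (l' := l) (p := p) hl (by linarith) (by linarith) hb hbb hW hc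
      (fun _ => 1) continuous_const
    have hH3 := bs_diff_H (l := p) (l' := l) (p := q) (by linarith) hpq.le hq hb hbb hW hc
      (fun t => (t : ℂ)) (by fun_prop)
    have hall := ((hG.const_smul ((q - p : ℝ) : ℂ)).add
      ((((hH1.const_smul (q : ℂ)).sub (hH2.const_smul (p : ℂ))).sub hH3).const_smul
        Complex.I)).const_smul (-((2 * Real.pi * (q - p) : ℝ) : ℂ)⁻¹)
    refine hall.congr ?_
    intro x hx
    have hw : x.2 ∈ W := hx.2
    have hf : DifferentiableOn ℂ (fun ζ => c (ζ, x.2)) (SL c1 b ∩ SR c0 b) := by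
      refine hc.comp (by fun_prop) ?_
      intro ζ hζ
      exact ⟨hζ, hw⟩
    have hform := bsJ_formula hl hlp hpq hq hb hbb hκ hc.continuousOn hcb x hw hf hx.1.1 hx.1.2
    have hparts := bs_parts hl hlp hpq hq (bsH_cont hb hbb hf.continuousOn hx.1.2)
    simp only [one_smul, Pi.smul_apply, Pi.add_apply, Pi.sub_apply]
    unfold bsB
    rw [hform, hparts, smul_add _ _ (((2 * Real.pi * ((q - p) * bsChi p q x.1.re) : ℝ) : ℂ) • c x),
      smul_smul _ ((2 * Real.pi * ((q - p) * bsChi p q x.1.re) : ℝ) : ℂ), neg_smul]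
    have e : ((2 * Real.pi * (q - p) : ℝ) : ℂ)⁻¹ *
        ((2 * Real.pi * ((q - p) * bsChi p q x.1.re) : ℝ) : ℂ) = (bsChi p q x.1.re : ℂ) := by
      rw [← Complex.ofReal_inv, ← Complex.ofReal_mul]
      congr 1
      have : 2 * Real.pi * (q - p) ≠ 0 := by
        have := Real.pi_pos
        have : 0 < q - p := by linarith
        positivity
      rw [show 2 * Real.pi * ((q - p) * bsChi p q x.1.re) = (2 * Real.pi * (q - p)) * bsChi p q x.1.re
        by ring, inv_mul_cancel_left₀ this]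
    rw [e]
    abel
  intro x hx
  have hx1 : c0 < x.1.re := hx.1.1
  obtain ⟨l, hl1, hl2⟩ := exists_between (lt_min hp hx1)
  have h := hloc l hl1 (lt_of_lt_of_le hl2 (min_le_left _ _))
  have hxl : x ∈ SR l b' ×ˢ W := ⟨⟨lt_of_lt_of_le hl2 (min_le_right _ _), hx.1.2⟩, hx.2⟩
  exact ((h x hxl).differentiableAt (((isOpen_SR l b').prod hW).mem_nhds hxl)).differentiableWithinAt

theorem bsB_diff {c : ℂ × E' → F} {W : Set E'} {c0 c1 p q b κ : ℝ} (hp : c0 < p)
    (hpq : p < q) (hq : q < c1) (hκ : 0 ≤ κ) (hW : IsOpen W)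
    (hc : DifferentiableOn ℂ c ((SL c1 b ∩ SR c0 b) ×ˢ W))
    (hcb : ∀ x ∈ (SL c1 b ∩ SR c0 b) ×ˢ W, ‖c x‖ ≤ κ) :
    DifferentiableOn ℂ (bsB p q b c) (SR c0 b ×ˢ W) := by
  have hloc : ∀ b₂, 0 < b₂ → b₂ < b → DifferentiableOn ℂ (bsB p q b c) (SR c0 b₂ ×ˢ W) := by
    intro b₂ hb₂ hb₂b
    set bn : ℕ → ℝ := fun n => b - (b - b₂) / (n + 2) with hbn
    have hbn1 : ∀ n, b₂ < bn n := by
      intro n
      simp only [hbn]
      have h1 : (b - b₂) / (n + 2) < (b - b₂) := by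
        apply div_lt_self (by linarith)
        have : (0:ℝ) ≤ n := Nat.cast_nonneg n
        linarith
      linarith
    have hbn2 : ∀ n, bn n < b := by
      intro n
      simp only [hbn]
      have : 0 < (b - b₂) / ((n : ℝ) + 2) := by
        apply div_pos (by linarith)
        positivity
      linarith
    refine weierstrass (f := fun n => bsB p q (bn n) c) ((isOpen_SR c0 b₂).prod hW) ?_ ?_
    · intro n
      refine (bsB_diff_aux hp hpq hq (hb₂.trans (hbn1 n)) (hbn2 n) hκ hW hc hcb).mono ?_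
      intro x hx
      exact ⟨⟨hx.1.1, hx.1.2.trans (hbn1 n)⟩, hx.2⟩
    · intro x hx
      obtain ⟨r, hr, hrU⟩ := Metric.isOpen_iff.mp ((isOpen_SR c0 b₂).prod hW) x hx
      refine ⟨r, hr, hrU, ?_⟩
      intro ε hε
      have hlim : Tendsto (fun n : ℕ => ‖((2 * Real.pi * (q - p) : ℝ) : ℂ)⁻¹‖ *
          (κ * ((5 * √(q - p)) * (5 * √(2 * (b - bn n)))))) atTop (𝓝 0) := by
        have h1 : Tendsto (fun n : ℕ => b - bn n) atTop (𝓝 0) := by
          simp only [hbn, sub_sub_cancel]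
          have h2 : Tendsto (fun n : ℕ => ((n : ℝ) + 2)) atTop atTop :=
            tendsto_atTop_add_const_right _ _ tendsto_natCast_atTop_atTop
          exact h2.const_div_atTop _
        have h3 : Tendsto (fun n : ℕ => ‖((2 * Real.pi * (q - p) : ℝ) : ℂ)⁻¹‖ *
          (κ * ((5 * √(q - p)) * (5 * √(2 * (b - bn n)))))) atTop
            (𝓝 (‖((2 * Real.pi * (q - p) : ℝ) : ℂ)⁻¹‖ *
          (κ * ((5 * √(q - p)) * (5 * √(2 * 0)))))) := by
          refine Tendsto.const_mul _ (Tendsto.const_mul _ (Tendsto.const_mul _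
            (Tendsto.const_mul _ ?_)))
          exact (Real.continuous_sqrt.tendsto _).comp (h1.const_mul 2)
        simpa using h3
      obtain ⟨N, hN⟩ := (hlim.eventually (gt_mem_nhds hε)).exists_forall_of_atTop
      refine ⟨N, fun n hn y hy => ?_⟩
      have hyU := hrU hy
      have h4 := bsJ_sub_le hp.le hpq hq.le (hb₂.trans (hbn1 n)) (hbn2 n) hκ hc.continuousOn hcb y
        hyU.2
      have h5 : bsB p q (bn n) c y - bsB p q b c y =
          -(((2 * Real.pi * (q - p) : ℝ) : ℂ)⁻¹ • (bsJ p q (bn n) c y - bsJ p q b c y)) := by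
        unfold bsB
        rw [smul_sub]
        abel
      rw [h5, norm_neg, norm_smul]
      refine le_trans ?_ (hN n hn).le
      exact mul_le_mul_of_nonneg_left h4 (norm_nonneg _)
  intro x hx
  have hx2 : |x.1.im| < b := hx.1.2
  obtain ⟨b₂, h1, h2⟩ := exists_between hx2
  have h := hloc b₂ (lt_of_le_of_lt (abs_nonneg _) h1) h2
  have hxl : x ∈ SR c0 b₂ ×ˢ W := ⟨⟨hx.1.1, h1⟩, hx.2⟩
  exact ((h x hxl).differentiableAt (((isOpen_SR c0 b₂).prod hW).mem_nhds hxl)).differentiableWithinAt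

omit [CompleteSpace F] [FiniteDimensional ℂ E'] in
theorem bsJ_neg (p q b : ℝ) (c : ℂ × E' → F) (z : ℂ) (w : E') :
    bsJ (-q) (-p) b (fun x => c (-x.1, x.2)) (-z, w) = - bsJ p q b c (z, w) := by
  unfold bsJ
  have hpre : (fun v : ℝ × ℝ => -v) ⁻¹' (Ioo p q ×ˢ Ioo (-b) b) = Ioo (-q) (-p) ×ˢ Ioo (-b) b := by
    ext v
    simp only [mem_preimage, mem_prod, Prod.fst_neg, Prod.snd_neg, mem_Ioo]
    constructor
    · rintro ⟨⟨h1, h2⟩, h3, h4⟩
      exact ⟨⟨by linarith, by linarith⟩, by linarith, by linarith⟩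
    · rintro ⟨⟨h1, h2⟩, h3, h4⟩
      exact ⟨⟨by linarith, by linarith⟩, by linarith, by linarith⟩
  have hmp : MeasureTheory.MeasurePreserving (fun v : ℝ × ℝ => -v) MeasureTheory.volume
      MeasureTheory.volume := MeasureTheory.Measure.measurePreserving_neg _
  have h := hmp.setIntegral_preimage_emb (MeasurableEquiv.neg (ℝ × ℝ)).measurableEmbedding
    (fun v => bsKer z v • c (bsPt v, w)) (Ioo p q ×ˢ Ioo (-b) b)
  rw [← h, hpre, ← MeasureTheory.integral_neg]
  congr 1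
  ext v
  have e1 : bsPt (-v) = -bsPt v := by
    unfold bsPt
    simp only [Prod.fst_neg, Prod.snd_neg]
    push_cast
    ring
  have e2 : bsKer z (-v) = -bsKer (-z) v := by
    unfold bsKer
    rw [e1, ← inv_neg]
    congr 1
    ring
  rw [e2, e1, neg_smul, neg_neg]

/-- bounded additive splitting over a slab `c0 < Re z < c1`, no loss, with a constant that depends
only on the width of the slab and an upper bound `b₀` of the height. -/
theorem box_split (c0 c1 b₀ : ℝ) (h : c0 < c1) (hb₀ : 0 < b₀) :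
    ∃ C : ℝ, 1 ≤ C ∧ ∀ (E' : Type) [NormedAddCommGroup E'] [NormedSpace ℂ E']
      [FiniteDimensional ℂ E'] (F : Type) [NormedAddCommGroup F] [NormedSpace ℂ F]
      [CompleteSpace F] (W : Set E') (b : ℝ) (c : ℂ × E' → F) (κ : ℝ), IsOpen W → 0 < b → b ≤ b₀ →
      0 ≤ κ → DifferentiableOn ℂ c ((SL c1 b ∩ SR c0 b) ×ˢ W) →
      (∀ x ∈ (SL c1 b ∩ SR c0 b) ×ˢ W, ‖c x‖ ≤ κ) →
      ∃ a₁ b₁ : ℂ × E' → F, DifferentiableOn ℂ a₁ (SL c1 b ×ˢ W) ∧
        DifferentiableOn ℂ b₁ (SR c0 b ×ˢ W) ∧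
        (∀ x ∈ SL c1 b ×ˢ W, ‖a₁ x‖ ≤ C * κ) ∧ (∀ x ∈ SR c0 b ×ˢ W, ‖b₁ x‖ ≤ C * κ) ∧
        ∀ x ∈ (SL c1 b ∩ SR c0 b) ×ˢ W, b₁ x - a₁ x = c x := by
  obtain ⟨p, hp0, hp1⟩ := exists_between h
  obtain ⟨q, hpq, hq1⟩ := exists_between hp1
  have hpi := Real.pi_pos
  have hqp : 0 < q - p := by linarith
  set A : ℝ := (2 * Real.pi * (q - p))⁻¹ * ((5 * √(q - p)) * (5 * √(2 * b₀))) with hA
  have hA0 : 0 ≤ A := by positivity
  refine ⟨1 + A, by linarith, ?_⟩
  intro E' _ _ _ F _ _ _ W b c κ hW hb hbb₀ hκ hc hcb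
  -- general bound for the right solution
  have hJ : ∀ x : ℂ × E', x.2 ∈ W →
      ‖((2 * Real.pi * (q - p) : ℝ) : ℂ)⁻¹ • bsJ p q b c x‖ ≤ A * κ := by
    intro x hx
    have h1 := bsJ_norm_le hp0.le hpq hq1.le hb hκ hc.continuousOn hcb x hx
    rw [norm_smul, norm_inv, Complex.norm_real, Real.norm_of_nonneg (by positivity), hA]
    have h2 : √(2 * b) ≤ √(2 * b₀) := Real.sqrt_le_sqrt (by linarith)
    calc (2 * Real.pi * (q - p))⁻¹ * ‖bsJ p q b c x‖
        ≤ (2 * Real.pi * (q - p))⁻¹ * (κ * ((5 * √(q - p)) * (5 * √(2 * b)))) :=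
          mul_le_mul_of_nonneg_left h1 (by positivity)
      _ ≤ (2 * Real.pi * (q - p))⁻¹ * (κ * ((5 * √(q - p)) * (5 * √(2 * b₀)))) := by
          gcongr
      _ = (2 * Real.pi * (q - p))⁻¹ * ((5 * √(q - p)) * (5 * √(2 * b₀))) * κ := by ring
  set c' : ℂ × E' → F := fun x => c (-x.1, x.2) with hc'
  have hset : ∀ x : ℂ × E', x ∈ (SL (-c0) b ∩ SR (-c1) b) ×ˢ W →
      ((-x.1, x.2) : ℂ × E') ∈ (SL c1 b ∩ SR c0 b) ×ˢ W := by
    rintro x ⟨⟨⟨h1, h2⟩, ⟨h3, _⟩⟩, h5⟩
    refine ⟨⟨⟨?_, ?_⟩, ⟨?_, ?_⟩⟩, h5⟩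
    · simp only [Complex.neg_re]; linarith
    · simpa using h2
    · simp only [Complex.neg_re]; linarith
    · simpa using h2
  have hcd' : DifferentiableOn ℂ c' ((SL (-c0) b ∩ SR (-c1) b) ×ˢ W) := by
    refine hc.comp (by fun_prop) ?_
    exact hset
  have hcb' : ∀ x ∈ (SL (-c0) b ∩ SR (-c1) b) ×ˢ W, ‖c' x‖ ≤ κ := fun x hx => hcb _ (hset x hx)
  have hB := bsB_diff hp0 hpq hq1 hκ hW hc hcb
  have hB' := bsB_diff (c0 := -c1) (c1 := -c0) (p := -q) (q := -p) (by linarith) (by linarith)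
    (by linarith) hκ hW hcd' hcb'
  have hform : ∀ x : ℂ × E', -bsB (-q) (-p) b c' (-x.1, x.2) =
      -(((1 - bsChi p q x.1.re : ℝ) : ℂ) • c x) -
        ((2 * Real.pi * (q - p) : ℝ) : ℂ)⁻¹ • bsJ p q b c x := by
    rintro ⟨z, w⟩
    unfold bsB
    rw [hc', bsJ_neg, bsChi_neg _ _ _ hpq]
    simp only [Complex.neg_re, neg_neg]
    rw [show (-p - -q) = q - p by ring, smul_neg]
    abel
  refine ⟨fun x => -bsB (-q) (-p) b c' (-x.1, x.2), bsB p q b c, ?_, hB, ?_, ?_, ?_⟩
  · refine DifferentiableOn.neg ?_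
    refine hB'.comp (by fun_prop) ?_
    rintro x ⟨⟨h1, h2⟩, h3⟩
    refine ⟨⟨?_, ?_⟩, h3⟩
    · simp only [Complex.neg_re]; linarith
    · simpa using h2
  · intro x hx
    simp only
    rw [hform]
    refine (norm_sub_le _ _).trans ?_
    have h1 := hJ x hx.2
    have h2 : ‖-(((1 - bsChi p q x.1.re : ℝ) : ℂ) • c x)‖ ≤ κ := by
      rw [norm_neg, norm_smul, Complex.norm_real, Real.norm_of_nonneg
        (by linarith [bsChi_le_one p q x.1.re])]
      by_cases hx0 : c0 < x.1.re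
      · have h3 := hcb x ⟨⟨hx.1, ⟨hx0, hx.1.2⟩⟩, hx.2⟩
        have h4 := bsChi_nonneg p q x.1.re
        calc (1 - bsChi p q x.1.re) * ‖c x‖ ≤ 1 * κ :=
              mul_le_mul (by linarith) h3 (norm_nonneg _) zero_le_one
          _ = κ := one_mul _
      · push Not at hx0
        have h5 : bsChi p q x.1.re = 1 := by
          have := bsChi_zero (-q) (-p) (-x.1.re) (by linarith) (by linarith)
          rw [bsChi_neg _ _ _ hpq, neg_neg] at this
          linarith
        rw [h5]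
        simpa using hκ
    linarith
  · intro x hx
    unfold bsB
    refine (norm_sub_le _ _).trans ?_
    have h1 := hJ x hx.2
    have h2 : ‖(bsChi p q x.1.re : ℂ) • c x‖ ≤ κ := by
      rw [norm_smul, Complex.norm_real, Real.norm_of_nonneg (bsChi_nonneg _ _ _)]
      by_cases hx0 : x.1.re < c1
      · have h3 := hcb x ⟨⟨⟨hx0, hx.1.2⟩, hx.1⟩, hx.2⟩
        calc bsChi p q x.1.re * ‖c x‖ ≤ 1 * κ :=
              mul_le_mul (bsChi_le_one _ _ _) h3 (norm_nonneg _) zero_le_one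
          _ = κ := one_mul _
      · push Not at hx0
        rw [bsChi_zero _ _ _ hpq (by linarith)]
        simpa using hκ
    linarith
  · intro x _
    simp only
    rw [hform]
    unfold bsB
    have : ((1 - bsChi p q x.1.re : ℝ) : ℂ) • c x = c x - (bsChi p q x.1.re : ℂ) • c x := by
      push_cast
      rw [sub_smul, one_smul]
    rw [this]
    abel

end OkaP
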