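import Pool.Agent.H.MP_ceb9a9.Scv6

/-!
# MP_ceb9a9: near identity maps on balls, arbitrary ratio of radii

Proof.  Apply `near_id` (module Scv6) on the balls `ball x (r - s) ⊆ ball 0 r` for `x ∈ ball 0 s`
(allowed since `δ ≤ (r - s) / 8`).

* injectivity: let `x, y ∈ ball 0 s`, `f x = f y`.  If `‖x - y‖ < (r - s) / 2`, both points lie in
  `ball x ((r - s) / 2)` and `near_id` gives `x = y`.  Otherwise
  `‖f x - f y‖ ≥ ‖x - y‖ - 2 δ ≥ (r - s) / 2 - (r - s) / 4 > 0`, a contradiction.
* derivative: `near_id` at `a = x` gives an equivalence `A` with `(A : E →L[ℂ] E) = fderiv ℂ f x`, so `fderiv ℂ f x` is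
  bijective.
* covering: for `y ∈ ball 0 s` use the last part of `near_id` at `a = y`: `y ∈ ball y ((r - s) / 2 - δ)`.
-/

set_option autoImplicit false
open Set Metric Filter
open scoped Topology

noncomputable section
namespace OkaP

variable {E : Type} [NormedAddCommGroup E] [NormedSpace ℂ E] [FiniteDimensional ℂ E]

/-- near identity maps: injective with bijective derivative on any smaller ball. -/
theorem near_id_ball {f : E → E} {s r δ : ℝ} (hsr : s < r) (hδ : 0 ≤ δ)
    (hδr : δ ≤ (r - s) / 8) (hf : DifferentiableOn ℂ f (ball (0 : E) r))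
    (hc : ∀ x ∈ ball (0 : E) r, ‖f x - x‖ ≤ δ) :
    InjOn f (ball (0 : E) s) ∧ (∀ x ∈ ball (0 : E) s, Function.Bijective (fderiv ℂ f x)) ∧
      ∀ y ∈ ball (0 : E) s, ∃ x ∈ ball (0 : E) r, f x = y ∧ ‖x - y‖ ≤ δ := by
  have hrs : 0 < r - s := by linarith
  have hsub : ∀ x ∈ ball (0 : E) s, ball x (r - s) ⊆ ball (0 : E) r := by
    intro x hx
    refine ball_subset_ball' ?_
    have := mem_ball.1 hx
    linarith
  have hni := fun x (hx : x ∈ ball (0 : E) s) => near_id (f := f) (a := x) hrs hδ hδr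
    (hf.mono (hsub x hx)) (fun z hz => hc z (hsub x hx hz))
  have hsr' : ball (0 : E) s ⊆ ball (0 : E) r := ball_subset_ball hsr.le
  refine ⟨?_, ?_, ?_⟩
  · intro x hx y hy hxy
    by_cases h : ‖y - x‖ < (r - s) / 2
    · have h1 : x ∈ ball x ((r - s) / 2) := mem_ball_self (by linarith)
      have h2 : y ∈ ball x ((r - s) / 2) := by
        rw [mem_ball, dist_eq_norm]
        exact h
      exact (hni x hx).1 h1 h2 hxy
    · exfalso
      push Not at h
      have h1 := hc x (hsr' hx)
      have h2 := hc y (hsr' hy)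
      have h3 : y - x = (f x - x) - (f y - y) := by rw [hxy]; abel
      have h4 : ‖y - x‖ ≤ ‖f x - x‖ + ‖f y - y‖ := by
        conv_lhs => rw [h3]
        exact norm_sub_le _ _
      linarith
  · intro x hx
    obtain ⟨A, hA⟩ := (hni x hx).2.1 x (mem_ball_self (by linarith))
    rw [← hA]
    exact A.bijective
  · intro y hy
    obtain ⟨x, hx, h1, h2⟩ := (hni y hy).2.2.2 y (mem_ball_self (by linarith))
    exact ⟨x, hsub y hy (ball_subset_ball (by linarith) hx), h1, h2⟩

end OkaP
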