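import Pool.Agent.H.MP_ceb9a9.EtD
import Pool.Agent.H.MP_ceb9a9.NearIdBall

/-!
# MP_ceb9a9: openness of the etale property, openness of the coordinate set

Proofs.

`EtCont.isOpen_coord`: let `w0 ∈ W` with `Φ (a w0, u0) = g w0`, `u0 ∈ ball 0 r`.  `EtCont.local_coord` at `(a w0, u0)`
(with any `η`) gives `V ∈ 𝓝[S] (a w0)`, `ε > 0` such that for `x ∈ V ∩ S` and `dist (Φ (a w0, u0)) y < ε` there is
`v ∈ ball 0 r` with `Φ (x, v) = y`.  By continuity of `a` and `g` at `w0` (`W` open, `S` arbitrary, `MapsTo a W S`), for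
`w` near `w0` we have `a w ∈ V` and `dist (g w0) (g w) < ε`; so `w` is in the set.

`etHol_open_of_fib`: enough: every `x0 ∈ K` has an open neighbourhood `V0 ⊆ V` with `EtHol Φ V0 s'` (take the union
`V'` of these over `x0 ∈ K`; `EtHol` on a union of open sets follows from the fibrewise definition:
`cont`/`hol` are local, `fib, inj, der` are fibrewise).
Fix `x0` and let `Φ0 (x, u) = Φ (x0, u)`, which satisfies `EtHol Φ0 univ s` (composition of `Φ` with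
the holomorphic map `(x, u) ↦ (x0, u)`, `HolOn.comp`).  Let `s < s` be replaced by `r' = (s + s') / 2` and
`η = (r' - s') / 16`; `EtHol.near_family` for `Φ0` with `K = closedBall x0 ρ ⊆ V` (compact) gives `ε > 0`.
`Φ` is continuous on `V ×ˢ ball 0 s`, so, by compactness of `closedBall 0 r'`, there is `ρ' ≤ ρ` with
`dist (Φ (x0, u)) (Φ (x, u)) < ε` for all `x ∈ ball x0 ρ'`, `u ∈ ball 0 r'`.  Hence there is `γ` holomorphic on
`ball x0 ρ' ×ˢ ball 0 r'` with `‖γ (x, u) - u‖ < η`, `Φ (x, u) = Φ (x0, γ (x, u))`, `γ (x, u) ∈ ball 0 s`.  By `near_id_ball`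
(if `s' ≤ 0` everything is trivial) `γ (x, ·)` is injective with bijective derivative on `ball 0 s'`, i.e.
`EtHol γ (ball x0 ρ') s'` (constructor as in EtB: `etB_mk`, `EtHol.of_etCont_fib`, `bijective_mfderiv_iff`), and
`EtHol.comp`, `EtHol.congr` give `EtHol Φ (ball x0 ρ') s'`.
-/

set_option autoImplicit false
open Set Metric Filter
open scoped Topology Manifold

noncomputable section
namespace OkaP

variable {m : ℕ} {X : Type} [MetricSpace X] [ChartedSpace (Fin m → ℂ) X]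
  [IsManifold 𝓘(ℂ, Fin m → ℂ) ⊤ X]

/-- the set of points where a map has coordinates in an etale family is open. -/
theorem EtCont.isOpen_coord {T T' : Type} [TopologicalSpace T] [TopologicalSpace T']
    {Φ : T × (Fin m → ℂ) → X} {S : Set T} {r : ℝ} (h : EtCont Φ S r) {W : Set T'} (hW : IsOpen W)
    {a : T' → T} {g : T' → X} (ha : ContinuousOn a W) (hg : ContinuousOn g W) (hm : MapsTo a W S) :
    IsOpen {w | w ∈ W ∧ ∃ u ∈ ball (0 : Fin m → ℂ) r, Φ (a w, u) = g w} := by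
  rw [isOpen_iff_mem_nhds]
  rintro w0 ⟨hw0, u0, hu0, he0⟩
  obtain ⟨V, hV, ε, hε, hsol⟩ := h.local_coord (hm hw0) hu0 (η := 1) one_pos
  have h1 : ∀ᶠ w in 𝓝[W] w0, a w ∈ V := (ha w0 hw0).tendsto_nhdsWithin hm hV
  have h2 : ∀ᶠ w in 𝓝[W] w0, dist (g w) (g w0) < ε := Metric.tendsto_nhds.1 (hg w0 hw0) ε hε
  rw [hW.nhdsWithin_eq hw0] at h1 h2
  filter_upwards [h1, h2, hW.mem_nhds hw0] with w hw1 hw2 hw3
  obtain ⟨v, hv, -, hv2⟩ := hsol (a w) hw1 (hm hw3) (g w) (by rw [he0, dist_comm]; exact hw2)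
  exact ⟨hw3, v, hv, hv2⟩

/-- a family constant in the base direction -/
theorem etHol_const {E : Type} [NormedAddCommGroup E] [NormedSpace ℂ E] {φ : (Fin m → ℂ) → X}
    {s : ℝ} (U : Set E) (hφ : HolOn m φ (ball (0 : Fin m → ℂ) s))
    (inj : InjOn φ (ball (0 : Fin m → ℂ) s))
    (der : ∀ u ∈ ball (0 : Fin m → ℂ) s,
      Function.Bijective (mfderiv 𝓘(ℂ, Fin m → ℂ) 𝓘(ℂ, Fin m → ℂ) φ u)) :
    EtHol (fun q : E × (Fin m → ℂ) => φ q.2) U s where
  cont := hφ.continuousOn.comp continuousOn_snd fun q hq => hq.2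
  fib _ _ := hφ
  inj _ _ := inj
  der _ _ := der
  hol := HolOn.comp (V := ball (0 : Fin m → ℂ) s) (g := fun q : E × (Fin m → ℂ) => q.2) hφ
    differentiableOn_snd fun q hq => hq.2

/-- families of maps of the model space near the identity are etale on smaller balls. -/
theorem etHol_of_near_id_ball {E : Type} [NormedAddCommGroup E] [NormedSpace ℂ E]
    {γ : E × (Fin m → ℂ) → (Fin m → ℂ)} {U : Set E} {s r δ : ℝ}
    (hsr : s < r) (hδ : 0 ≤ δ) (hδr : δ ≤ (r - s) / 8) (hU : IsOpen U)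
    (hd : DifferentiableOn ℂ γ (U ×ˢ ball (0 : Fin m → ℂ) r))
    (hn : ∀ x ∈ U, ∀ u ∈ ball (0 : Fin m → ℂ) r, ‖γ (x, u) - u‖ ≤ δ) : EtHol γ U s := by
  have _ := hU
  have hsub : ball (0 : Fin m → ℂ) s ⊆ ball (0 : Fin m → ℂ) r := ball_subset_ball hsr.le
  have hfib : ∀ x ∈ U, DifferentiableOn ℂ (fun u => γ (x, u)) (ball (0 : Fin m → ℂ) r) := by
    intro x hx
    exact hd.comp ((differentiable_const x).prodMk differentiable_id).differentiableOn
      fun u hu => ⟨hx, hu⟩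
  have h1 : EtCont γ U s := etB_mk (hd.continuousOn.mono (prod_mono_right hsub))
    (fun x hx => (hfib x hx).mono hsub)
    (fun x hx => (near_id_ball hsr hδ hδr (hfib x hx) (hn x hx)).1)
    (fun x hx => (near_id_ball hsr hδ hδr (hfib x hx) (hn x hx)).2.1)
  exact
    { toEtCont := h1
      hol := mdifferentiableOn_iff_differentiableOn.2 (hd.mono (prod_mono_right hsub)) }

private theorem etOpen_local {E : Type} [NormedAddCommGroup E] [NormedSpace ℂ E]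
    [FiniteDimensional ℂ E] {Φ : E × (Fin m → ℂ) → X} {V : Set E} (hV : IsOpen V)
    {s s' : ℝ} (hs : s' < s) (hΦ : HolOn m Φ (V ×ˢ ball (0 : Fin m → ℂ) s)) {x0 : E}
    (hx0 : x0 ∈ V) (inj : InjOn (fun u => Φ (x0, u)) (ball (0 : Fin m → ℂ) s))
    (der : ∀ u ∈ ball (0 : Fin m → ℂ) s,
      Function.Bijective (mfderiv 𝓘(ℂ, Fin m → ℂ) 𝓘(ℂ, Fin m → ℂ) (fun u => Φ (x0, u)) u)) :
    ∃ V0 : Set E, IsOpen V0 ∧ x0 ∈ V0 ∧ V0 ⊆ V ∧ EtHol Φ V0 s' := by
  have : ProperSpace E := FiniteDimensional.proper ℂ E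
  have hφ : HolOn m (fun u => Φ (x0, u)) (ball (0 : Fin m → ℂ) s) :=
    HolOn.comp (V := V ×ˢ ball (0 : Fin m → ℂ) s) (g := fun u : Fin m → ℂ => (x0, u)) hΦ
      ((differentiableOn_const x0).prodMk differentiableOn_id) fun u hu => ⟨hx0, hu⟩
  have hΦ0 : EtHol (fun q : E × (Fin m → ℂ) => Φ (x0, q.2)) univ s := etHol_const univ hφ inj der
  obtain ⟨ρ, hρ, hρV⟩ := Metric.nhds_basis_closedBall.mem_iff.1 (hV.mem_nhds hx0)
  set r' := (s + s') / 2 with hr'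
  have hr's : r' < s := by rw [hr']; linarith
  have hs'r : s' < r' := by rw [hr']; linarith
  set η := (r' - s') / 16 with hη
  have hη0 : 0 < η := by rw [hη]; linarith
  obtain ⟨ε, hε, hnear⟩ := hΦ0.near_family isOpen_univ (isCompact_closedBall x0 ρ)
    (subset_univ _) hr's hη0
  have hcb : closedBall (0 : Fin m → ℂ) r' ⊆ ball (0 : Fin m → ℂ) s := closedBall_subset_ball hr's
  have hc1 : ContinuousOn (fun q : E × (Fin m → ℂ) => Φ (x0, q.2)) (V ×ˢ ball (0 : Fin m → ℂ) s) :=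
    hφ.continuousOn.comp continuousOn_snd fun q hq => hq.2
  have hc2 : ContinuousOn (fun q : E × (Fin m → ℂ) => dist (Φ (x0, q.2)) (Φ q))
      (V ×ˢ ball (0 : Fin m → ℂ) s) :=
    continuous_dist.comp_continuousOn (hc1.prodMk hΦ.continuousOn)
  have hO : IsOpen ((V ×ˢ ball (0 : Fin m → ℂ) s) ∩
      (fun q : E × (Fin m → ℂ) => dist (Φ (x0, q.2)) (Φ q)) ⁻¹' (Iio ε)) :=
    hc2.isOpen_inter_preimage (hV.prod isOpen_ball) isOpen_Iio
  obtain ⟨A, B, hA, -, hxA, hB, hAB⟩ := generalized_tube_lemma (isCompact_singleton (x := x0))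
    (isCompact_closedBall (0 : Fin m → ℂ) r') hO (by
      rintro ⟨x, u⟩ ⟨hx, hu⟩
      rw [mem_singleton_iff] at hx
      subst hx
      refine ⟨⟨hx0, hcb hu⟩, ?_⟩
      show dist (Φ (x, u)) (Φ (x, u)) < ε
      rw [dist_self]
      exact hε)
  set V0 := A ∩ ball x0 ρ with hV0
  have hV0o : IsOpen V0 := hA.inter isOpen_ball
  have hV0c : V0 ⊆ closedBall x0 ρ := fun x hx => ball_subset_closedBall hx.2
  have hV0V : V0 ⊆ V := hV0c.trans hρV
  have hsub : ball (0 : Fin m → ℂ) r' ⊆ ball (0 : Fin m → ℂ) s := ball_subset_ball hr's.le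
  obtain ⟨γ, hγd, hγ⟩ := hnear V0 Φ hV0o hV0c (hΦ.mono (prod_mono hV0V hsub)) (by
    intro x hx u hu
    exact (hAB ⟨hx.1, hB (ball_subset_closedBall hu)⟩).2)
  have hγE : EtHol γ V0 s' := etHol_of_near_id_ball hs'r hη0.le (by rw [hη]; linarith) hV0o hγd
    fun x hx u hu => (hγ x hx u hu).2.1.le
  have hsub' : ball (0 : Fin m → ℂ) s' ⊆ ball (0 : Fin m → ℂ) r' := ball_subset_ball hs'r.le
  refine ⟨V0, hV0o, ⟨hxA rfl, mem_ball_self hρ⟩, hV0V, ?_⟩
  have hcomp := (hΦ0.mono (subset_univ V0) le_rfl).comp hγE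
    fun x hx u hu => (hγ x hx u (hsub' hu)).1
  refine hcomp.congr fun x hx u hu => ?_
  exact (hγ x hx u (hsub' hu)).2.2.symm

/-- openness of the etale property with an arbitrarily small loss of radius. -/
theorem etHol_open_of_fib {E : Type} [NormedAddCommGroup E] [NormedSpace ℂ E]
    [FiniteDimensional ℂ E] {Φ : E × (Fin m → ℂ) → X} {V K : Set E} (hV : IsOpen V) (hKV : K ⊆ V)
    {s s' : ℝ} (hs : s' < s) (hΦ : HolOn m Φ (V ×ˢ ball (0 : Fin m → ℂ) s))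
    (inj : ∀ x ∈ K, InjOn (fun u => Φ (x, u)) (ball (0 : Fin m → ℂ) s))
    (der : ∀ x ∈ K, ∀ u ∈ ball (0 : Fin m → ℂ) s,
      Function.Bijective (mfderiv 𝓘(ℂ, Fin m → ℂ) 𝓘(ℂ, Fin m → ℂ) (fun u => Φ (x, u)) u)) :
    ∃ V' : Set E, IsOpen V' ∧ K ⊆ V' ∧ V' ⊆ V ∧ EtHol Φ V' s' := by
  have hloc : ∀ x : K, ∃ V0 : Set E, IsOpen V0 ∧ (x : E) ∈ V0 ∧ V0 ⊆ V ∧ EtHol Φ V0 s' := fun x =>
    etOpen_local hV hs hΦ (hKV x.2) (inj x x.2) (der x x.2)
  choose W hWo hxW hWV hWE using hloc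
  have hUo : IsOpen (⋃ x, W x) := isOpen_iUnion hWo
  have hUV : (⋃ x, W x) ⊆ V := iUnion_subset hWV
  refine ⟨⋃ x, W x, hUo, fun x hx => mem_iUnion.2 ⟨⟨x, hx⟩, hxW ⟨x, hx⟩⟩, hUV, ?_⟩
  refine EtHol.of_etCont_fib hUo (hΦ.mono (prod_mono hUV (ball_subset_ball hs.le))) ?_ ?_
  · intro x hx
    obtain ⟨y, hy⟩ := mem_iUnion.1 hx
    exact (hWE y).inj x hy
  · intro x hx
    obtain ⟨y, hy⟩ := mem_iUnion.1 hx
    exact (hWE y).der x hy

end OkaP
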