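import Pool.Agent.H.MP_ceb9a9.NsStep
import Pool.Agent.H.MP_ceb9a9.Scv2

set_option autoImplicit false
open Set Metric Filter
open scoped Topology

noncomputable section
namespace OkaP

variable {E V : Type} [NormedAddCommGroup E] [NormedSpace ℂ E] [FiniteDimensional ℂ E]
  [NormedAddCommGroup V] [NormedSpace ℂ V] [FiniteDimensional ℂ V]

/-- compositions of near identities: `NsMainA a (j+1) (z, ζ) = NsMainA a j (z, ζ + a (j+1) (z, ζ))`. -/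
def NsMainA {E V : Type} [Add V] (a : ℕ → E × V → V) : ℕ → E × V → V
  | 0 => fun x => x.2 + a 0 x
  | (j + 1) => fun x => NsMainA a j (x.1, x.2 + a (j + 1) x)

/-- hypotheses for the composition lemmas. -/
structure NsMainH (D : ℝ → Set (E × V)) (q : E → ℝ) (κ₀ E₀ : ℝ) (a : ℕ → E × V → V) : Prop where
  hκ₀ : 0 < κ₀
  hopen : ∀ s, 0 ≤ s → s ≤ 1 → IsOpen (D s)
  hq : ∀ z, 0 ≤ q z ∧ q z ≤ 1
  hsh : ∀ s s' z ζ ζ', 0 ≤ s → s ≤ s' → s' ≤ 1 → (z, ζ) ∈ D s' →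
    ‖ζ' - ζ‖ ≤ κ₀ * (s' - s) → (z, ζ') ∈ D s
  hE0 : 0 ≤ E₀
  hE₀ : E₀ ≤ κ₀ / 64
  had : ∀ j : ℕ, DifferentiableOn ℂ (a j) (D (1 - 3 / 4 * (1 / 2) ^ j))
  hab : ∀ (j : ℕ) z ζ, (z, ζ) ∈ D (1 - 3 / 4 * (1 / 2) ^ j) → ‖a j (z, ζ)‖ ≤ E₀ * (1 / 4) ^ j * q z

theorem NsMain_half_pos (j : ℕ) : (0 : ℝ) < (1 / 2) ^ j := by positivity

theorem NsMain_half_le (j : ℕ) : ((1 : ℝ) / 2) ^ j ≤ 1 :=
  pow_le_one₀ (by norm_num) (by norm_num)

theorem NsMain_quarter_le (j : ℕ) : ((1 : ℝ) / 4) ^ j ≤ (1 / 2) ^ j :=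
  pow_le_pow_left₀ (by norm_num) (by norm_num) j

theorem NsMain_quarter_eq (j : ℕ) : ((1 : ℝ) / 4) ^ j = (1 / 2) ^ j * (1 / 2) ^ j := by
  rw [← mul_pow]; norm_num

section
variable {D : ℝ → Set (E × V)} {q : E → ℝ} {κ₀ E₀ : ℝ} {a : ℕ → E × V → V}

theorem NsMainH.sub (h : NsMainH D q κ₀ E₀ a) {s s' : ℝ} (hs : 0 ≤ s) (hss : s ≤ s')
    (hs' : s' ≤ 1) {x : E × V} (hx : x ∈ D s') : x ∈ D s := by
  obtain ⟨z, ζ⟩ := x
  refine h.hsh s s' z ζ ζ hs hss hs' hx ?_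
  rw [sub_self, norm_zero]
  exact mul_nonneg h.hκ₀.le (sub_nonneg.2 hss)

theorem NsMainH.sub1 (h : NsMainH D q κ₀ E₀ a) (j : ℕ) {x : E × V} (hx : x ∈ D 1) :
    x ∈ D (1 - 3 / 4 * (1 / 2) ^ j) := by
  have h1 := NsMain_half_pos j
  have h2 := NsMain_half_le j
  exact h.sub (by linarith) (by linarith) le_rfl hx

theorem NsMainH.bd (h : NsMainH D q κ₀ E₀ a) (j : ℕ) {z : E} {ζ : V}
    (hx : (z, ζ) ∈ D (1 - 3 / 4 * (1 / 2) ^ j)) : ‖a j (z, ζ)‖ ≤ E₀ * (1 / 4) ^ j := by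
  refine (h.hab j z ζ hx).trans ?_
  have : 0 ≤ E₀ * (1 / 4) ^ j := mul_nonneg h.hE0 (by positivity)
  calc E₀ * (1 / 4) ^ j * q z ≤ E₀ * (1 / 4) ^ j * 1 := mul_le_mul_of_nonneg_left (h.hq z).2 this
    _ = _ := mul_one _

theorem NsMainH.maps (h : NsMainH D q κ₀ E₀ a) (j : ℕ) {z : E} {ζ : V}
    (hx : (z, ζ) ∈ D (1 - 3 / 4 * (1 / 2) ^ (j + 1))) :
    (z, ζ + a (j + 1) (z, ζ)) ∈ D (1 - 3 / 4 * (1 / 2) ^ j) := by
  have h1 := NsMain_half_pos j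
  have h2 := NsMain_half_le j
  have h3 := NsMain_quarter_le j
  have hE0 := h.hE0
  have hE₀ := h.hE₀
  have hκ := h.hκ₀
  have hb := h.bd (j + 1) hx
  have h4 : (0 : ℝ) < (1 / 4) ^ j := by positivity
  refine h.hsh _ _ z ζ _ ?_ ?_ ?_ hx ?_
  · linarith
  · rw [pow_succ]; linarith
  · rw [pow_succ]; linarith
  · rw [add_sub_cancel_left]
    refine hb.trans ?_
    rw [pow_succ, pow_succ]
    have h5 : E₀ * (1 / 4) ^ j ≤ κ₀ / 64 * (1 / 2) ^ j :=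
      mul_le_mul hE₀ h3 h4.le (by positivity)
    have h6 : 0 < κ₀ * (1 / 2) ^ j := mul_pos hκ h1
    nlinarith

theorem NsMainH.diff (h : NsMainH D q κ₀ E₀ a) (j : ℕ) :
    DifferentiableOn ℂ (NsMainA a j) (D (1 - 3 / 4 * (1 / 2) ^ j)) := by
  induction j with
  | zero => exact differentiableOn_snd.add (h.had 0)
  | succ j ih =>
    have h1 : DifferentiableOn ℂ (fun x : E × V => (x.1, x.2 + a (j + 1) x))
        (D (1 - 3 / 4 * (1 / 2) ^ (j + 1))) :=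
      differentiableOn_fst.prodMk (differentiableOn_snd.add (h.had (j + 1)))
    exact ih.comp h1 fun x hx => h.maps j hx

theorem NsMainH.close (h : NsMainH D q κ₀ E₀ a) (j : ℕ) {z : E} {ζ : V}
    (hx : (z, ζ) ∈ D (1 - 3 / 4 * (1 / 2) ^ j)) :
    ‖NsMainA a j (z, ζ) - ζ‖ ≤ E₀ * (4 / 3 - 1 / 3 * (1 / 4) ^ j) * q z := by
  induction j generalizing ζ with
  | zero =>
    have := h.hab 0 z ζ hx
    simp only [NsMainA, add_sub_cancel_left]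
    refine this.trans (le_of_eq ?_)
    norm_num
  | succ j ih =>
    have h1 := ih (h.maps j hx)
    have h2 := h.hab (j + 1) z ζ hx
    have h3 : NsMainA a (j + 1) (z, ζ) - ζ =
        (NsMainA a j (z, ζ + a (j + 1) (z, ζ)) - (ζ + a (j + 1) (z, ζ))) + a (j + 1) (z, ζ) := by
      simp only [NsMainA]; abel
    rw [h3]
    refine (norm_add_le _ _).trans ((add_le_add h1 h2).trans (le_of_eq ?_))
    rw [pow_succ]; ring

theorem NsMainH.close' (h : NsMainH D q κ₀ E₀ a) (j : ℕ) {z : E} {ζ : V}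
    (hx : (z, ζ) ∈ D (1 - 3 / 4 * (1 / 2) ^ j)) :
    ‖NsMainA a j (z, ζ) - ζ‖ ≤ 2 * E₀ * q z := by
  refine (h.close j hx).trans ?_
  have h4 : (0 : ℝ) < (1 / 4) ^ j := by positivity
  have h5 := h.hE0
  have h6 := (h.hq z).1
  have h7 : E₀ * (4 / 3 - 1 / 3 * (1 / 4) ^ j) ≤ 2 * E₀ := by nlinarith
  exact mul_le_mul_of_nonneg_right h7 h6

/-- Lipschitz estimate near a point of `D 1`. -/
theorem NsMainH.lip (h : NsMainH D q κ₀ E₀ a) (j : ℕ) {z : E} {ζ ζ' : V}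
    (hx : (z, ζ) ∈ D 1) (hζ : ‖ζ' - ζ‖ < 3 / 8 * κ₀ * (1 / 2) ^ j) :
    ‖NsMainA a j (z, ζ') - NsMainA a j (z, ζ)‖ ≤ 2 * 2 ^ j * ‖ζ' - ζ‖ := by
  have h1 := NsMain_half_pos j
  have h2 := NsMain_half_le j
  have hκ := h.hκ₀
  have hE0 := h.hE0
  have hE₀ := h.hE₀
  set r : ℝ := 3 / 4 * κ₀ * (1 / 2) ^ j with hr
  have hr0 : 0 < r := by positivity
  have hmem : ∀ y ∈ ball ζ r, (z, y) ∈ D (1 - 3 / 4 * (1 / 2) ^ j) := by
    intro y hy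
    rw [mem_ball_iff_norm] at hy
    refine h.hsh _ 1 z ζ y (by linarith) (by linarith) le_rfl hx (hy.le.trans (le_of_eq ?_))
    rw [hr]; ring
  have hf : DifferentiableOn ℂ (fun y : V => NsMainA a j (z, y) - y) (ball ζ r) := by
    refine DifferentiableOn.sub ?_ differentiableOn_id
    exact (h.diff j).comp ((differentiableOn_const z).prodMk differentiableOn_id) hmem
  have hM : ∀ y ∈ ball ζ r, ‖(fun y : V => NsMainA a j (z, y) - y) y‖ ≤ 2 * E₀ := by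
    intro y hy
    refine (h.close' j (hmem y hy)).trans ?_
    calc 2 * E₀ * q z ≤ 2 * E₀ * 1 := mul_le_mul_of_nonneg_left (h.hq z).2 (by positivity)
      _ = _ := mul_one _
  have hy : ζ' ∈ ball ζ (r / 2) := by
    rw [mem_ball_iff_norm]; refine hζ.trans_le (le_of_eq ?_); rw [hr]; ring
  have hz : ζ ∈ ball ζ (r / 2) := mem_ball_self (by positivity)
  have h3 := norm_sub_le_of_bound hr0 hf hM hy hz
  have h4 : 2 * (2 * E₀) / r ≤ 2 ^ j := by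
    rw [div_le_iff₀ hr0, hr]
    have h5 : (2 : ℝ) ^ j * (1 / 2) ^ j = 1 := by rw [← mul_pow]; norm_num
    calc 2 * (2 * E₀) ≤ 3 / 4 * κ₀ * 1 := by linarith
      _ = 3 / 4 * κ₀ * ((2 : ℝ) ^ j * (1 / 2) ^ j) := by rw [h5]
      _ = _ := by ring
  have h6 : NsMainA a j (z, ζ') - NsMainA a j (z, ζ) =
      ((NsMainA a j (z, ζ') - ζ') - (NsMainA a j (z, ζ) - ζ)) + (ζ' - ζ) := by abel
  rw [h6]
  refine (norm_add_le _ _).trans ?_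
  have h7 : (1 : ℝ) ≤ 2 ^ j := one_le_pow₀ (by norm_num)
  have h8 : 2 * (2 * E₀) / r * ‖ζ' - ζ‖ ≤ 2 ^ j * ‖ζ' - ζ‖ :=
    mul_le_mul_of_nonneg_right h4 (norm_nonneg _)
  have h9 : 1 * ‖ζ' - ζ‖ ≤ 2 ^ j * ‖ζ' - ζ‖ := mul_le_mul_of_nonneg_right h7 (norm_nonneg _)
  have h10 : ‖(NsMainA a j (z, ζ') - ζ') - (NsMainA a j (z, ζ) - ζ)‖ ≤ 2 ^ j * ‖ζ' - ζ‖ :=
    h3.trans h8
  linarith

theorem NsMainH.cauchy (h : NsMainH D q κ₀ E₀ a) (j : ℕ) {x : E × V} (hx : x ∈ D 1) :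
    ‖NsMainA a (j + 1) x - NsMainA a j x‖ ≤ E₀ * (1 / 2) ^ j := by
  obtain ⟨z, ζ⟩ := x
  have h1 := NsMain_half_pos j
  have h2 := NsMain_half_le j
  have h3 := NsMain_quarter_le j
  have h3' := NsMain_quarter_eq j
  have hκ := h.hκ₀
  have hE0 := h.hE0
  have hE₀ := h.hE₀
  have hb := h.bd (j + 1) (h.sub1 (j + 1) hx)
  rw [pow_succ] at hb
  have hb2 : E₀ * ((1 / 4) ^ j * (1 / 4)) ≤ κ₀ / 64 * ((1 / 2) ^ j * (1 / 4)) :=
    mul_le_mul hE₀ (mul_le_mul_of_nonneg_right h3 (by norm_num)) (by positivity) (by positivity)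
  have h4 : 0 < κ₀ * (1 / 2) ^ j := by positivity
  have h5 : ‖(ζ + a (j + 1) (z, ζ)) - ζ‖ < 3 / 8 * κ₀ * (1 / 2) ^ j := by
    rw [add_sub_cancel_left]
    refine hb.trans_lt (hb2.trans_lt ?_)
    nlinarith
  have h6 := h.lip j hx h5
  rw [add_sub_cancel_left] at h6
  refine h6.trans ?_
  have h7 : (2 : ℝ) ^ j * (1 / 2) ^ j = 1 := by rw [← mul_pow]; norm_num
  have h8 : (2 : ℝ) * 2 ^ j * ‖a (j + 1) (z, ζ)‖ ≤ 2 * 2 ^ j * (E₀ * ((1 / 4) ^ j * (1 / 4))) :=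
    mul_le_mul_of_nonneg_left hb (by positivity)
  refine h8.trans ?_
  rw [h3']
  calc (2 : ℝ) * 2 ^ j * (E₀ * ((1 / 2) ^ j * (1 / 2) ^ j * (1 / 4)))
      = (2 ^ j * (1 / 2) ^ j) * (1 / 2) * (E₀ * (1 / 2) ^ j) := by ring
    _ = 1 / 2 * (E₀ * (1 / 2) ^ j) := by rw [h7]; ring
    _ ≤ E₀ * (1 / 2) ^ j := by
      have : 0 ≤ E₀ * (1 / 2) ^ j := by positivity
      linarith

/-- the limit of the compositions. -/
theorem NsMainH.limit (h : NsMainH D q κ₀ E₀ a) :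
    ∃ α : E × V → V, DifferentiableOn ℂ α (D 1) ∧
      (∀ x ∈ D 1, Tendsto (fun j => NsMainA a j x) atTop (𝓝 (α x))) ∧
      (∀ z ζ, (z, ζ) ∈ D 1 → ‖α (z, ζ) - ζ‖ ≤ 2 * E₀ * q z ∧ (z, α (z, ζ)) ∈ D 0) ∧
      ((∀ (j : ℕ) z, (z, 0) ∈ D (1 - 3 / 4 * (1 / 2) ^ j) → a j (z, 0) = 0) →
        ∀ z, (z, 0) ∈ D 1 → α (z, 0) = 0) := by
  have hκ := h.hκ₀
  have hE0 := h.hE0
  have hE₀ := h.hE₀
  have hlim : ∀ x ∈ D 1, ∃ l : V, Tendsto (fun j => NsMainA a j x) atTop (𝓝 l) ∧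
      ∀ n, dist (NsMainA a n x) l ≤ 2 * E₀ * (1 / 2) ^ n := by
    intro x hx
    have hd : ∀ n, dist (NsMainA a n x) (NsMainA a (n + 1) x) ≤ 2 * E₀ / 2 / 2 ^ n := by
      intro n
      rw [dist_comm, dist_eq_norm]
      refine (h.cauchy n hx).trans (le_of_eq ?_)
      rw [one_div, inv_pow]
      field_simp
    obtain ⟨l, hl⟩ := cauchySeq_tendsto_of_complete (cauchySeq_of_le_geometric_two hd)
    refine ⟨l, hl, fun n => ?_⟩
    refine (dist_le_of_le_geometric_two_of_tendsto hd hl n).trans (le_of_eq ?_)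
    rw [one_div, inv_pow]; rfl
  choose! α hα hαd using hlim
  have hcl : ∀ z ζ, (z, ζ) ∈ D 1 → ‖α (z, ζ) - ζ‖ ≤ 2 * E₀ * q z := by
    intro z ζ hx
    have h1 : Tendsto (fun j => ‖NsMainA a j (z, ζ) - ζ‖) atTop (𝓝 ‖α (z, ζ) - ζ‖) :=
      ((hα _ hx).sub_const ζ).norm
    exact le_of_tendsto' h1 fun j => h.close' j (h.sub1 j hx)
  refine ⟨α, ?_, hα, fun z ζ hx => ⟨hcl z ζ hx, ?_⟩, ?_⟩
  · refine weierstrass (h.hopen 1 zero_le_one le_rfl)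
      (fun n => (h.diff n).mono fun x hx => h.sub1 n hx) ?_
    intro x hx
    obtain ⟨r, hr, hrD⟩ := Metric.isOpen_iff.1 (h.hopen 1 zero_le_one le_rfl) x hx
    refine ⟨r, hr, hrD, fun ε hε => ?_⟩
    have h1 : Tendsto (fun n : ℕ => 2 * E₀ * (1 / 2 : ℝ) ^ n) atTop (𝓝 (2 * E₀ * 0)) :=
      (tendsto_pow_atTop_nhds_zero_of_lt_one (by norm_num) (by norm_num)).const_mul _
    rw [mul_zero] at h1
    obtain ⟨N, hN⟩ := (h1.eventually (gt_mem_nhds hε)).exists_forall_of_atTop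
    refine ⟨N, fun n hn y hy => ?_⟩
    rw [← dist_eq_norm]
    exact (hαd y (hrD hy) n).trans (hN n hn).le
  · refine h.hsh 0 1 z ζ _ le_rfl zero_le_one le_rfl hx ((hcl z ζ hx).trans ?_)
    have h1 : 2 * E₀ * q z ≤ 2 * E₀ * 1 := mul_le_mul_of_nonneg_left (h.hq z).2 (by positivity)
    linarith
  · intro h0 z hz
    have h1 : ∀ j, (z, (0 : V)) ∈ D (1 - 3 / 4 * (1 / 2) ^ j) → NsMainA a j (z, 0) = 0 := by
      intro j
      induction j with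
      | zero => intro hj; simp only [NsMainA, zero_add]; exact h0 0 z hj
      | succ j ih =>
        intro hj
        simp only [NsMainA]
        rw [h0 (j + 1) z hj, add_zero]
        refine ih ?_
        have := h.maps j hj
        rwa [h0 (j + 1) z hj, add_zero] at this
    have h2 : Tendsto (fun j => NsMainA a j (z, (0 : V))) atTop (𝓝 0) := by
      refine tendsto_const_nhds.congr fun j => ?_
      exact (h1 j (h.sub1 j hz)).symm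
    exact tendsto_nhds_unique (hα _ hz) h2

end


theorem NsMain_const {C ε : ℝ} {M : ℕ} (j : ℕ) :
    2 * C / ((1 / 2) ^ (j + 1) / 2) ^ M * (ε * ((1 / 2) ^ (M + 2)) ^ j) =
      2 ^ (2 * M + 1) * C * ε * (1 / 4 : ℝ) ^ j := by
  have h1 : ((1 / 2 : ℝ) ^ (j + 1) / 2) ^ M = (1 / 2) ^ ((j + 2) * M) := by
    rw [pow_mul]; congr 1; rw [pow_succ (1 / 2 : ℝ) (j + 1)]; ring
  have h2 : ((1 / 2 : ℝ) ^ (M + 2)) ^ j = (1 / 2) ^ ((M + 2) * j) := (pow_mul _ _ _).symm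
  have h3 : (1 / 4 : ℝ) ^ j = (1 / 2) ^ (2 * j) := by rw [pow_mul]; norm_num
  have h4 : (2 : ℝ) ^ (2 * M + 1) = 2 * 2 ^ (2 * M) := by rw [pow_succ]; ring
  rw [h1, h2, h3, h4]
  have h5 : (2 : ℝ) ^ (2 * M) * (1 / 2) ^ (2 * M) = 1 := by rw [← mul_pow]; norm_num
  have h6 : (1 / 2 : ℝ) ^ ((M + 2) * j) * (1 / 2) ^ (2 * M) =
      (1 / 2) ^ ((j + 2) * M) * (1 / 2) ^ (2 * j) := by
    rw [← pow_add, ← pow_add]; congr 1; ring
  have h7 : (1 / 2 : ℝ) ^ ((j + 2) * M) ≠ 0 := by positivity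
  have h8 : (1 / 2 : ℝ) ^ ((M + 2) * j) =
      (1 / 2) ^ ((j + 2) * M) * (1 / 2) ^ (2 * j) * 2 ^ (2 * M) := by
    calc (1 / 2 : ℝ) ^ ((M + 2) * j)
        = (1 / 2 : ℝ) ^ ((M + 2) * j) * ((2 : ℝ) ^ (2 * M) * (1 / 2) ^ (2 * M)) := by
          rw [h5, mul_one]
      _ = ((1 / 2 : ℝ) ^ ((M + 2) * j) * (1 / 2) ^ (2 * M)) * 2 ^ (2 * M) := by ring
      _ = _ := by rw [h6]
  rw [h8]
  field_simp

theorem NsMain_e_le {ε : ℝ} (hε : 0 ≤ ε) (M j : ℕ) :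
    ε * ((1 / 2) ^ (M + 2)) ^ j ≤ ε * (1 / 4 : ℝ) ^ j := by
  refine mul_le_mul_of_nonneg_left ?_ hε
  refine pow_le_pow_left₀ (by positivity) ?_ j
  rw [pow_add]
  have : ((1 : ℝ) / 2) ^ M ≤ 1 := NsMain_half_le M
  calc ((1 : ℝ) / 2) ^ M * (1 / 2) ^ 2 ≤ 1 * (1 / 2) ^ 2 :=
        mul_le_mul_of_nonneg_right this (by positivity)
    _ = 1 / 4 := by norm_num

/-- Nonlinear splitting (Newton iteration). -/
theorem SplitScale.nonlinear {DA DB : ℝ → Set (E × V)} {p q : E → ℝ} {κ₀ C : ℝ} {M : ℕ}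
    (h : SplitScale DA DB p q κ₀ C M) (hκ₀ : 0 < κ₀) (hκ₁ : κ₀ ≤ 1) (hC : 1 ≤ C)
    {γ : E × V → V} {ε : ℝ} (hε : 0 ≤ ε) (hεκ : ε * (2 ^ (3 * M + 8) * C) ≤ κ₀)
    (hγ : DifferentiableOn ℂ γ (DA 0 ∩ DB 0))
    (hγε : ∀ z ζ, (z, ζ) ∈ DA 0 ∩ DB 0 → ‖γ (z, ζ) - ζ‖ ≤ ε * p z) :
    ∃ α β : E × V → V, DifferentiableOn ℂ α (DA 1) ∧ DifferentiableOn ℂ β (DB 1) ∧
      (∀ z ζ, (z, ζ) ∈ DA 1 → ‖α (z, ζ) - ζ‖ ≤ 2 ^ (2 * M + 2) * C * ε * q z ∧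
        (z, α (z, ζ)) ∈ DA 0) ∧
      (∀ z ζ, (z, ζ) ∈ DB 1 → ‖β (z, ζ) - ζ‖ ≤ 2 ^ (2 * M + 2) * C * ε * q z ∧
        (z, β (z, ζ)) ∈ DB 0) ∧
      (∀ z ζ, (z, ζ) ∈ DA 1 ∩ DB 1 → γ (z, α (z, ζ)) = β (z, ζ)) ∧
      ((∀ z, (z, 0) ∈ DA 0 ∩ DB 0 → γ (z, 0) = 0) →
        (∀ z, (z, 0) ∈ DA 1 → α (z, 0) = 0) ∧ (∀ z, (z, 0) ∈ DB 1 → β (z, 0) = 0)) := by
  -- numerical facts
  have hC0 : 0 ≤ C := zero_le_one.trans hC
  have hM1 : (1 : ℝ) ≤ 2 ^ M := one_le_pow₀ (by norm_num)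
  have hM0 : (0 : ℝ) < 2 ^ M := by positivity
  have hεC : 0 ≤ ε * C := mul_nonneg hε hC0
  have hεC1 : ε ≤ ε * C := by nlinarith
  have h3M : (2 : ℝ) ^ (3 * M + 8) = 2 ^ M * 2 ^ M * 2 ^ M * 256 := by
    rw [pow_add, show 3 * M = M + M + M by ring, pow_add, pow_add]; norm_num
  have h2M : (2 : ℝ) ^ (2 * M + 1) = 2 ^ M * 2 ^ M * 2 := by
    rw [pow_add, show 2 * M = M + M by ring, pow_add]; norm_num
  have h2M2 : (2 : ℝ) ^ (2 * M + 2) = 2 * 2 ^ (2 * M + 1) := by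
    rw [show 2 * M + 2 = (2 * M + 1) + 1 by ring, pow_succ]; ring
  rw [h3M] at hεκ
  have hMM : (1 : ℝ) ≤ 2 ^ M * 2 ^ M := by nlinarith
  have hMMM : (1 : ℝ) ≤ 2 ^ M * 2 ^ M * 2 ^ M := by nlinarith
  have hε256 : ε * 256 ≤ κ₀ := by
    have h1 : ε * C * 1 ≤ ε * C * (2 ^ M * 2 ^ M * 2 ^ M) := mul_le_mul_of_nonneg_left hMMM hεC
    nlinarith
  obtain ⟨E₀, hE₀⟩ : ∃ E₀ : ℝ, E₀ = 2 ^ (2 * M + 1) * C * ε := ⟨_, rfl⟩
  have hE0 : 0 ≤ E₀ := by rw [hE₀]; positivity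
  have hE64' : E₀ * (128 * 2 ^ M) ≤ κ₀ := by
    rw [hE₀, h2M]; refine le_trans (le_of_eq ?_) hεκ; ring
  have hE64 : E₀ ≤ κ₀ / 64 := by
    have h1 : E₀ * (128 * 1) ≤ E₀ * (128 * 2 ^ M) :=
      mul_le_mul_of_nonneg_left (mul_le_mul_of_nonneg_left hM1 (by norm_num)) hE0
    linarith
  have hconst : ∀ j : ℕ, 2 * C / ((1 / 2) ^ (j + 1) / 2) ^ M * (ε * ((1 / 2) ^ (M + 2)) ^ j) =
      E₀ * (1 / 4 : ℝ) ^ j := by
    intro j; rw [NsMain_const, hE₀]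
  have hse : ∀ j : ℕ, (1 - (1 / 2 : ℝ) ^ (j + 1)) - (1 - (1 / 2) ^ j) = (1 / 2) ^ (j + 1) := by
    intro j; rw [pow_succ]; ring
  have hmid : ∀ j : ℕ, ((1 - (1 / 2 : ℝ) ^ j) + (1 - (1 / 2) ^ (j + 1))) / 2 =
      1 - 3 / 4 * (1 / 2) ^ j := by
    intro j; rw [pow_succ]; ring
  obtain ⟨Z, hZ⟩ : ∃ Z : Prop, Z = ∀ z, (z, (0 : V)) ∈ DA 0 ∩ DB 0 → γ (z, 0) = 0 := ⟨_, rfl⟩
  -- the stages
  let P : ℕ → (E × V → V) → Prop := fun j g =>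
    DifferentiableOn ℂ g (DA (1 - (1 / 2) ^ j) ∩ DB (1 - (1 / 2) ^ j)) ∧
    (∀ z ζ, (z, ζ) ∈ DA (1 - (1 / 2) ^ j) ∩ DB (1 - (1 / 2) ^ j) →
      ‖g (z, ζ) - ζ‖ ≤ ε * ((1 / 2) ^ (M + 2)) ^ j * p z) ∧
    (Z → ∀ z, (z, (0 : V)) ∈ DA (1 - (1 / 2) ^ j) ∩ DB (1 - (1 / 2) ^ j) → g (z, 0) = 0)
  have hstep : ∀ (j : ℕ) (g : {g : E × V → V // P j g}),
      ∃ (a b : E × V → V) (g' : {g : E × V → V // P (j + 1) g}),
        DifferentiableOn ℂ a (DA (1 - 3 / 4 * (1 / 2) ^ j)) ∧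
        DifferentiableOn ℂ b (DB (1 - 3 / 4 * (1 / 2) ^ j)) ∧
        (∀ z ζ, (z, ζ) ∈ DA (1 - 3 / 4 * (1 / 2) ^ j) → ‖a (z, ζ)‖ ≤ E₀ * (1 / 4) ^ j * q z) ∧
        (∀ z ζ, (z, ζ) ∈ DB (1 - 3 / 4 * (1 / 2) ^ j) → ‖b (z, ζ)‖ ≤ E₀ * (1 / 4) ^ j * q z) ∧
        (∀ z ζ, (z, ζ) ∈ DA (1 - (1 / 2) ^ (j + 1)) ∩ DB (1 - (1 / 2) ^ (j + 1)) →
          g.1 (z, ζ + a (z, ζ)) = g'.1 (z, ζ) + b (z, g'.1 (z, ζ))) ∧
        (Z → (∀ z, (z, (0 : V)) ∈ DA (1 - 3 / 4 * (1 / 2) ^ j) → a (z, 0) = 0) ∧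
          (∀ z, (z, (0 : V)) ∈ DB (1 - 3 / 4 * (1 / 2) ^ j) → b (z, 0) = 0)) := by
    rintro j ⟨g, hg1, hg2, hg3⟩
    have h1 := NsMain_half_pos j
    have h2 := NsMain_half_le j
    have h3 := NsMain_quarter_le j
    have h3' := NsMain_quarter_eq j
    have hss : 1 - (1 / 2 : ℝ) ^ j < 1 - (1 / 2) ^ (j + 1) := by rw [pow_succ]; linarith
    have he0 : 0 ≤ ε * ((1 / 2 : ℝ) ^ (M + 2)) ^ j := by positivity
    have heE : ε * ((1 / 2 : ℝ) ^ (M + 2)) ^ j ≤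
        κ₀ * ((1 - (1 / 2) ^ (j + 1)) - (1 - (1 / 2) ^ j)) / 32 := by
      refine (NsMain_e_le hε M j).trans ?_
      rw [hse j, pow_succ]
      have h4 : ε * (1 / 4 : ℝ) ^ j ≤ κ₀ / 256 * (1 / 2) ^ j :=
        mul_le_mul (by linarith) h3 (by positivity) (by positivity)
      have h5 : 0 < κ₀ * (1 / 2) ^ j := by positivity
      nlinarith
    have hEE : 2 * C / (((1 - (1 / 2) ^ (j + 1)) - (1 - (1 / 2 : ℝ) ^ j)) / 2) ^ M *
        (ε * ((1 / 2) ^ (M + 2)) ^ j) ≤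
        κ₀ * ((1 - (1 / 2) ^ (j + 1)) - (1 - (1 / 2) ^ j)) / 32 := by
      rw [hse j, hconst j, pow_succ]
      have h4 : E₀ * (1 / 4 : ℝ) ^ j ≤ κ₀ / 64 * (1 / 2) ^ j :=
        mul_le_mul hE64 h3 (by positivity) (by positivity)
      have h5 : 0 < κ₀ * (1 / 2) ^ j := by positivity
      nlinarith
    obtain ⟨a, b, g', ha, hb, hab, hbb, hg', hgb, hrel, hzero⟩ :=
      h.step hκ₀ hC0 (s := 1 - (1 / 2) ^ j) (s' := 1 - (1 / 2) ^ (j + 1)) (by linarith) hss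
        (by have := NsMain_half_pos (j + 1); linarith) he0 hg1 hg2 heE hEE
    rw [hmid j] at ha hb
    simp only [hmid j, hse j, hconst j] at hab hbb hgb hrel hzero
    refine ⟨a, b, ⟨g', hg', ?_, ?_⟩, ha, hb, hab, hbb, fun z ζ hz => (hrel z ζ hz).2, ?_⟩
    · intro z ζ hz
      refine (hgb z ζ hz).trans (mul_le_mul_of_nonneg_right ?_ (h.pq z).1)
      have h5 : 4 * (ε * ((1 / 2 : ℝ) ^ (M + 2)) ^ j) / (κ₀ * (1 / 2) ^ (j + 1)) *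
          (E₀ * (1 / 4) ^ j) = ε * ((1 / 2) ^ (M + 2)) ^ j *
            (8 * E₀ * (1 / 2) ^ j / κ₀) := by
        rw [h3', pow_succ (1 / 2 : ℝ) j]
        field_simp
        ring
      rw [h5, pow_succ ((1 / 2 : ℝ) ^ (M + 2)) j, ← mul_assoc]
      refine mul_le_mul_of_nonneg_left ?_ he0
      rw [div_le_iff₀ hκ₀, pow_add]
      have h6 : (1 / 2 : ℝ) ^ M * 2 ^ M = 1 := by rw [← mul_pow]; norm_num
      have h7 : 0 < (1 / 2 : ℝ) ^ M := NsMain_half_pos M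
      calc 8 * E₀ * (1 / 2) ^ j ≤ 8 * E₀ * 1 := mul_le_mul_of_nonneg_left h2 (by positivity)
        _ = 8 * E₀ * ((1 / 2 : ℝ) ^ M * 2 ^ M) := by rw [h6]
        _ = (1 / 2 : ℝ) ^ M * (1 / 16) * (E₀ * (128 * 2 ^ M)) := by ring
        _ ≤ (1 / 2 : ℝ) ^ M * (1 / 16) * κ₀ :=
          mul_le_mul_of_nonneg_left hE64' (by positivity)
        _ ≤ (1 / 2 : ℝ) ^ M * (1 / 2) ^ 2 * κ₀ := by
          have : 0 ≤ (1 / 2 : ℝ) ^ M * κ₀ := by positivity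
          nlinarith
    · intro hz
      exact (hzero (hg3 hz)).2.2
    · intro hz
      exact ⟨(hzero (hg3 hz)).1, (hzero (hg3 hz)).2.1⟩
  choose fa fb fg hfa hfb hfab hfbb hrel hfz using hstep
  have hP0 : P 0 γ := by
    refine ⟨?_, ?_, ?_⟩
    · simpa using hγ
    · intro z ζ hz
      have := hγε z ζ (by simpa using hz)
      simpa using this
    · intro hz z hz0
      rw [hZ] at hz
      exact hz z (by simpa using hz0)
  let G : ∀ j : ℕ, {g : E × V → V // P j g} := fun j => Nat.rec ⟨γ, hP0⟩ (fun j g => fg j g) j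
  have hG0 : (G 0).1 = γ := rfl
  have hGs : ∀ j, G (j + 1) = fg j (G j) := fun j => rfl
  let a : ℕ → E × V → V := fun j => fa j (G j)
  let b : ℕ → E × V → V := fun j => fb j (G j)
  have hA : NsMainH DA q κ₀ E₀ a :=
    ⟨hκ₀, h.openA, fun z => ⟨(h.pq z).1.trans (h.pq z).2.1, (h.pq z).2.2⟩, h.shrinkA, hE0, hE64,
      fun j => hfa j (G j), fun j => hfab j (G j)⟩
  have hB : NsMainH DB q κ₀ E₀ b :=
    ⟨hκ₀, h.openB, fun z => ⟨(h.pq z).1.trans (h.pq z).2.1, (h.pq z).2.2⟩, h.shrinkB, hE0, hE64,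
      fun j => hfb j (G j), fun j => hfbb j (G j)⟩
  obtain ⟨α, hα, hαl, hαc, hαz⟩ := hA.limit
  obtain ⟨β, hβ, hβl, hβc, hβz⟩ := hB.limit
  have hr : ∀ (j : ℕ) z ζ, (z, ζ) ∈ DA (1 - (1 / 2) ^ (j + 1)) ∩ DB (1 - (1 / 2) ^ (j + 1)) →
      γ (z, NsMainA a j (z, ζ)) = NsMainA b j (z, (G (j + 1)).1 (z, ζ)) := by
    intro j
    induction j with
    | zero =>
      intro z ζ hz
      exact hrel 0 (G 0) z ζ hz
    | succ j ih =>
      intro z ζ hz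
      have h1 := NsMain_half_pos j
      have h2 := NsMain_half_le j
      have h3 := NsMain_quarter_le (j + 1)
      have h4 : (0 : ℝ) < (1 / 2) ^ (j + 1) := NsMain_half_pos (j + 1)
      have h5 : (1 / 2 : ℝ) ^ (j + 1) ≤ 1 := NsMain_half_le (j + 1)
      have h6 : (0 : ℝ) < (1 / 2) ^ (j + 1 + 1) := NsMain_half_pos (j + 1 + 1)
      have h7 : (1 / 2 : ℝ) ^ (j + 1 + 1) = (1 / 2) ^ (j + 1) * (1 / 2) := pow_succ _ _
      have hzm : (z, ζ) ∈ DA (1 - 3 / 4 * (1 / 2) ^ (j + 1)) :=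
        hA.sub (by linarith) (by linarith) (by linarith) hz.1
      have hb := hA.bd (j + 1) hzm
      have hb' : ‖(ζ + a (j + 1) (z, ζ)) - ζ‖ ≤
          κ₀ * ((1 - (1 / 2) ^ (j + 1 + 1)) - (1 - (1 / 2) ^ (j + 1))) := by
        rw [add_sub_cancel_left]
        refine hb.trans ?_
        have h8 : E₀ * (1 / 4 : ℝ) ^ (j + 1) ≤ κ₀ / 64 * (1 / 2) ^ (j + 1) :=
          mul_le_mul hE64 h3 (by positivity) (by positivity)
        have h9 : 0 < κ₀ * (1 / 2) ^ (j + 1) := by positivity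
        rw [h7]
        nlinarith
      have hm : (z, ζ + a (j + 1) (z, ζ)) ∈
          DA (1 - (1 / 2) ^ (j + 1)) ∩ DB (1 - (1 / 2) ^ (j + 1)) :=
        ⟨h.shrinkA _ _ z ζ _ (by linarith) (by linarith) (by linarith) hz.1 hb',
          h.shrinkB _ _ z ζ _ (by linarith) (by linarith) (by linarith) hz.2 hb'⟩
      have h10 := ih z _ hm
      have h11 := hrel (j + 1) (G (j + 1)) z ζ hz
      simp only [NsMainA]
      rw [h10]
      change NsMainA b j (z, (G (j + 1)).1 (z, ζ + fa (j + 1) (G (j + 1)) (z, ζ))) = _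
      rw [h11]
  refine ⟨α, β, hα, hβ, ?_, ?_, ?_, ?_⟩
  · intro z ζ hz
    obtain ⟨h1, h2⟩ := hαc z ζ hz
    refine ⟨h1.trans (le_of_eq ?_), h2⟩
    rw [hE₀, h2M2]; ring
  · intro z ζ hz
    obtain ⟨h1, h2⟩ := hβc z ζ hz
    refine ⟨h1.trans (le_of_eq ?_), h2⟩
    rw [hE₀, h2M2]; ring
  · rintro z ζ ⟨hzA, hzB⟩
    have hα0 : (z, α (z, ζ)) ∈ DA 0 ∩ DB 0 := by
      refine ⟨(hαc z ζ hzA).2, ?_⟩
      refine h.shrinkB 0 1 z ζ _ le_rfl zero_le_one le_rfl hzB ((hαc z ζ hzA).1.trans ?_)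
      have h1 : 2 * E₀ * q z ≤ 2 * E₀ * 1 :=
        mul_le_mul_of_nonneg_left (h.pq z).2.2 (by positivity)
      linarith
    have hopen : IsOpen (DA 0 ∩ DB 0) :=
      (h.openA 0 le_rfl zero_le_one).inter (h.openB 0 le_rfl zero_le_one)
    have hcont : ContinuousAt γ (z, α (z, ζ)) :=
      (hγ.differentiableAt (hopen.mem_nhds hα0)).continuousAt
    have hl1 : Tendsto (fun j => γ (z, NsMainA a j (z, ζ))) atTop (𝓝 (γ (z, α (z, ζ)))) := by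
      refine hcont.tendsto.comp ?_
      exact (tendsto_const_nhds (x := z)).prodMk_nhds (hαl _ hzA)
    have hGc : ∀ j : ℕ, ‖(G (j + 1)).1 (z, ζ) - ζ‖ ≤ ε * (1 / 4) ^ (j + 1) := by
      intro j
      have h1 := NsMain_half_pos (j + 1)
      have h2 := NsMain_half_le (j + 1)
      have h3 := (G (j + 1)).2.2.1 z ζ ⟨hA.sub (by linarith) (by linarith) le_rfl hzA,
        hB.sub (by linarith) (by linarith) le_rfl hzB⟩
      refine h3.trans (le_trans ?_ (NsMain_e_le hε M (j + 1)))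
      have h4 : 0 ≤ ε * ((1 / 2 : ℝ) ^ (M + 2)) ^ (j + 1) := by positivity
      calc ε * ((1 / 2 : ℝ) ^ (M + 2)) ^ (j + 1) * p z
          ≤ ε * ((1 / 2 : ℝ) ^ (M + 2)) ^ (j + 1) * 1 :=
            mul_le_mul_of_nonneg_left ((h.pq z).2.1.trans (h.pq z).2.2) h4
        _ = _ := mul_one _
    have hdiff : ∀ j : ℕ, ‖NsMainA b j (z, (G (j + 1)).1 (z, ζ)) - NsMainA b j (z, ζ)‖ ≤
        ε * (1 / 2) ^ j := by
      intro j
      have h1 := NsMain_half_pos j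
      have h2 := NsMain_half_le j
      have h3 := NsMain_quarter_le j
      have h3' := NsMain_quarter_eq j
      have h4 := hGc j
      rw [pow_succ] at h4
      have h5 : ‖(G (j + 1)).1 (z, ζ) - ζ‖ < 3 / 8 * κ₀ * (1 / 2) ^ j := by
        refine h4.trans_lt ?_
        have h6 : ε * ((1 / 4 : ℝ) ^ j * (1 / 4)) ≤ κ₀ / 256 * ((1 / 2) ^ j * (1 / 4)) :=
          mul_le_mul (by linarith) (mul_le_mul_of_nonneg_right h3 (by norm_num))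
            (by positivity) (by positivity)
        have h7 : 0 < κ₀ * (1 / 2) ^ j := by positivity
        nlinarith
      refine (hB.lip j hzB h5).trans ?_
      have h7 : (2 : ℝ) ^ j * (1 / 2) ^ j = 1 := by rw [← mul_pow]; norm_num
      have h8 : (2 : ℝ) * 2 ^ j * ‖(G (j + 1)).1 (z, ζ) - ζ‖ ≤
          2 * 2 ^ j * (ε * ((1 / 4) ^ j * (1 / 4))) :=
        mul_le_mul_of_nonneg_left h4 (by positivity)
      refine h8.trans ?_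
      rw [h3']
      calc (2 : ℝ) * 2 ^ j * (ε * ((1 / 2) ^ j * (1 / 2) ^ j * (1 / 4)))
          = (2 ^ j * (1 / 2) ^ j) * (1 / 2) * (ε * (1 / 2) ^ j) := by ring
        _ = 1 / 2 * (ε * (1 / 2) ^ j) := by rw [h7]; ring
        _ ≤ ε * (1 / 2) ^ j := by
          have : 0 ≤ ε * (1 / 2) ^ j := by positivity
          linarith
    have hd0 : Tendsto (fun j => NsMainA b j (z, (G (j + 1)).1 (z, ζ)) - NsMainA b j (z, ζ))
        atTop (𝓝 0) := by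
      refine squeeze_zero_norm hdiff ?_
      have h1 : Tendsto (fun n : ℕ => ε * (1 / 2 : ℝ) ^ n) atTop (𝓝 (ε * 0)) :=
        (tendsto_pow_atTop_nhds_zero_of_lt_one (by norm_num) (by norm_num)).const_mul _
      rwa [mul_zero] at h1
    have hl2 : Tendsto (fun j => γ (z, NsMainA a j (z, ζ))) atTop (𝓝 (β (z, ζ))) := by
      have h1 := hd0.add (hβl _ hzB)
      rw [zero_add] at h1
      refine h1.congr fun j => ?_
      have h2 := NsMain_half_pos (j + 1)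
      have h3 := NsMain_half_le (j + 1)
      rw [hr j z ζ ⟨hA.sub (by linarith) (by linarith) le_rfl hzA,
        hB.sub (by linarith) (by linarith) le_rfl hzB⟩]
      abel
    exact tendsto_nhds_unique hl1 hl2
  · intro hz
    have hzz : Z := by rw [hZ]; exact hz
    exact ⟨hαz fun j => (hfz j (G j) hzz).1, hβz fun j => (hfz j (G j) hzz).2⟩

end OkaP
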