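import Pool.Agent.H.MP_ceb9a9.Runge

/-!
# MP_ceb9a9, chapter 1: weighted additive splitting
-/

set_option autoImplicit false

open Set Metric Topology MeasureTheory
open scoped ContDiff

noncomputable section
namespace OkaP

/-- the psh exhaustion used for the products -/
private theorem splitW_P {E : Type} [NormedAddCommGroup E] [NormedSpace ℂ E] (m : ℕ) {ρ : E → ℝ}
    (hρ : Psh ρ) {a a1 : ℝ} (ha : 0 ≤ a) (haa : a < a1) :
    ∃ P : E × (Fin m → ℂ) → ℝ, Psh P ∧ (∀ z, ρ z.1 ≤ a → ‖z.2‖ ≤ a → P z = 0) ∧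
      (∀ z, P z ≤ 0 → ρ z.1 ≤ a ∧ ‖z.2‖ ≤ a) ∧
      (∀ z, P z ≤ 1 → ρ z.1 < a1 ∧ ‖z.2‖ < a1) := by
  have h1 : 0 < hc (a1 - a) := hc_pos (by linarith)
  have h2 : 0 < hc (a1 ^ 2 - a ^ 2) := hc_pos (by nlinarith)
  obtain ⟨M, hM, hM1, hM2⟩ : ∃ M : ℝ, 0 < M ∧ M < hc (a1 - a) ∧ M < hc (a1 ^ 2 - a ^ 2) := by
    obtain ⟨M, h3, h4⟩ := exists_between (lt_min h1 h2)
    exact ⟨M, h3, (lt_min_iff.1 h4).1, (lt_min_iff.1 h4).2⟩
  have hsum : ∀ z : E × (Fin m → ℂ), 0 ≤ ∑ i, hc (‖z.2 i‖ ^ 2 + (-(a ^ 2))) :=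
    fun z => Finset.sum_nonneg fun i _ => hc_nonneg _
  have hle : ∀ z : E × (Fin m → ℂ), ∀ i, hc (‖z.2 i‖ ^ 2 + (-(a ^ 2))) ≤
      ∑ i, hc (‖z.2 i‖ ^ 2 + (-(a ^ 2))) :=
    fun z i => Finset.single_le_sum (fun i _ => hc_nonneg (‖z.2 i‖ ^ 2 + (-(a ^ 2))))
      (Finset.mem_univ i)
  refine ⟨fun z => M⁻¹ * (hc (ρ z.1 + (-a)) + ∑ i, hc (‖z.2 i‖ ^ 2 + (-(a ^ 2)))), ?_, ?_, ?_, ?_⟩
  · have h3 : Psh (fun z : E × (Fin m → ℂ) => ρ z.1) :=
      hρ.comp_linear (ContinuousLinearMap.fst ℂ E (Fin m → ℂ))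
    have h4 : ∀ i, Psh (fun z : E × (Fin m → ℂ) => ‖z.2 i‖ ^ 2) := fun i =>
      psh_normSq.comp_linear
        ((ContinuousLinearMap.proj (R := ℂ) (φ := fun _ : Fin m => ℂ) i).comp
          (ContinuousLinearMap.snd ℂ E (Fin m → ℂ)))
    exact Psh.const_mul (Psh.add (h3.add_const (-a)).hc_comp
      (Psh.sum _ fun i _ => ((h4 i).add_const (-(a ^ 2))).hc_comp)) (by positivity)
  · intro z hz1 hz2
    have h3 : hc (ρ z.1 + (-a)) = 0 := hc_zero (by linarith)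
    have h4 : ∀ i, hc (‖z.2 i‖ ^ 2 + (-(a ^ 2))) = 0 := by
      intro i
      apply hc_zero
      have h5 := (pi_norm_le_iff_of_nonneg ha).1 hz2 i
      have h6 : ‖z.2 i‖ ^ 2 ≤ a ^ 2 := by gcongr
      linarith
    simp [h3, h4]
  · intro z hz
    have h3 : hc (ρ z.1 + (-a)) + ∑ i, hc (‖z.2 i‖ ^ 2 + (-(a ^ 2))) ≤ 0 := by
      have h5 : 0 < M⁻¹ := by positivity
      by_contra h6
      push Not at h6
      have := mul_pos h5 h6
      linarith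
    constructor
    · by_contra h4
      push Not at h4
      have h5 := hc_pos (x := ρ z.1 + (-a)) (by linarith)
      have h6 := hsum z
      linarith
    · rw [pi_norm_le_iff_of_nonneg ha]
      intro i
      by_contra h4
      push Not at h4
      have h5 := hc_pos (x := ‖z.2 i‖ ^ 2 + (-(a ^ 2))) (by nlinarith)
      have h6 := hle z i
      have h7 := hc_nonneg (ρ z.1 + (-a))
      linarith
  · intro z hz
    have h3 : hc (ρ z.1 + (-a)) + ∑ i, hc (‖z.2 i‖ ^ 2 + (-(a ^ 2))) ≤ M := by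
      rw [inv_mul_le_iff₀ hM] at hz
      linarith
    constructor
    · by_contra h4
      push Not at h4
      have h5 := hc_mono (show a1 - a ≤ ρ z.1 + (-a) by linarith)
      have h6 := hsum z
      linarith
    · rw [pi_norm_lt_iff (by linarith)]
      intro i
      by_contra h4
      push Not at h4
      have h8 : a1 ^ 2 ≤ ‖z.2 i‖ ^ 2 := by
        have : 0 ≤ a1 := by linarith
        gcongr
      have h5 := hc_mono (show a1 ^ 2 - a ^ 2 ≤ ‖z.2 i‖ ^ 2 + (-(a ^ 2)) by linarith)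
      have h6 := hle z i
      have h7 := hc_nonneg (ρ z.1 + (-a))
      linarith

private theorem splitW_compact {E : Type} [NormedAddCommGroup E] [NormedSpace ℂ E]
    [FiniteDimensional ℂ E] {m : ℕ} {R : ℝ} {S : Set (E × (Fin m → ℂ))} (hS : IsClosed S)
    (hS1 : ∀ z ∈ S, z.1 ∈ closedBall (0 : E) R) (hS2 : ∀ z ∈ S, ‖z.2‖ ≤ 1) : IsCompact S := by
  have hp : ProperSpace E := FiniteDimensional.proper ℂ E
  have h1 : IsCompact (closedBall (0 : E) R ×ˢ closedBall (0 : Fin m → ℂ) 1) :=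
    (isCompact_closedBall _ _).prod (isCompact_closedBall _ _)
  refine h1.of_isClosed_subset hS fun z hz => ?_
  exact ⟨hS1 z hz, by simpa using hS2 z hz⟩

private structure SplitWHyp (E : Type) [NormedAddCommGroup E] [NormedSpace ℂ E]
    (R R' Λ : ℝ) (ρ ρC W χ : E → ℝ) : Prop where
  hR : R < R'
  hΛ : 1 ≤ Λ
  hρ : Psh ρ
  hsub : {x | ρ x ≤ 1} ⊆ closedBall (0 : E) R
  hρC : PshOn ρC (ball (0 : E) R')
  hW : PshOn W (ball (0 : E) R')
  hW0 : ∀ x ∈ ball (0 : E) R', W x ≤ 0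
  hχ : ContDiff ℝ ∞ χ
  hχ01 : ∀ x, χ x ∈ Icc (0 : ℝ) 1
  dρ : ∀ x ∈ ball (0 : E) R', ‖fderiv ℝ ρ x‖ ≤ Λ * Real.exp (-(W x) / 2)
  dρC : ∀ x ∈ ball (0 : E) R', ‖fderiv ℝ ρC x‖ ≤ Λ * Real.exp (-(W x) / 2)
  dw : ∀ x ∈ ball (0 : E) R', ‖fderiv ℝ (fun y => Real.exp (W y / 2)) x‖ ≤ Λ
  dχ : ∀ x ∈ ball (0 : E) R', ‖fderiv ℝ χ x‖ ≤ Λ
  ov : ∀ x, ρ x ≤ 1 → x ∉ interior {x | χ x = 0} → x ∉ interior {x | χ x = 1} → ρC x ≤ 0

private theorem SplitWHyp.mem {E : Type} [NormedAddCommGroup E] [NormedSpace ℂ E]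
    {R R' Λ : ℝ} {ρ ρC W χ : E → ℝ} (H : SplitWHyp E R R' Λ ρ ρC W χ) {x : E} (hx : ρ x ≤ 1) :
    x ∈ ball (0 : E) R' :=
  closedBall_subset_ball H.hR (H.hsub hx)

private theorem splitW_pshOn {E : Type} [NormedAddCommGroup E] [NormedSpace ℂ E]
    {m : ℕ} {f : E → ℝ} {U : Set E} (hU : IsOpen U) (hf : PshOn f U)
    {V : Set (E × (Fin m → ℂ))} (hV : ∀ z ∈ V, z.1 ∈ U) :
    PshOn (fun z : E × (Fin m → ℂ) => f z.1) V := by
  constructor
  · exact hf.smooth.comp contDiff_fst.contDiffOn hV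
  · intro z hz v
    have h1 := levi_comp_linear (ContinuousLinearMap.fst ℂ E (Fin m → ℂ)) (f := f) (x := z)
      (hf.smooth.contDiffAt (hU.mem_nhds (hV z hz))) v
    have h2 : levi (fun z : E × (Fin m → ℂ) => f z.1) z v = levi f z.1 v.1 := h1
    rw [h2]
    exact hf.nonneg _ (hV z hz) _

private theorem splitW_runge {E : Type} [NormedAddCommGroup E] [NormedSpace ℂ E]
    [FiniteDimensional ℂ E] {m : ℕ}
    {R R' Λ : ℝ} {ρ ρC W χ : E → ℝ} (H : SplitWHyp E R R' Λ ρ ρC W χ)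
    {l a : ℝ} (ha : 0 ≤ a) (hal : a < l) (hl : l ≤ 1) {c : E × (Fin m → ℂ) → ℂ}
    (hc : DifferentiableOn ℂ c {z | ρ z.1 < l ∧ ρC z.1 < l ∧ ‖z.2‖ < l}) {ε : ℝ} (hε : 0 < ε) :
    ∃ g : E × (Fin m → ℂ) → ℂ, Differentiable ℂ g ∧
      ∀ z : E × (Fin m → ℂ), ρ z.1 ≤ a → ρC z.1 ≤ a → ‖z.2‖ ≤ a → ‖c z - g z‖ < ε := by
  obtain ⟨P, hP, hP0, -, hP1⟩ := splitW_P m H.hρ ha hal
  have hcl : IsClosed {z | P z ≤ 1} := isClosed_le hP.smooth.continuous continuous_const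
  have hmem : ∀ z, P z ≤ 1 → z.1 ∈ closedBall (0 : E) R := fun z hz =>
    H.hsub (show ρ z.1 ≤ 1 by linarith [(hP1 z hz).1])
  have hcpt : IsCompact {z | P z ≤ 1} :=
    splitW_compact hcl (fun z hz => hmem z hz) fun z hz => by linarith [(hP1 z hz).2]
  have h2 : PshOn (fun z : E × (Fin m → ℂ) => ρC z.1 + (1 - l)) {z | P z < 1} := by
    have h3 : PshOn (fun z : E × (Fin m → ℂ) => ρC z.1) {z | P z < 1} :=
      splitW_pshOn isOpen_ball H.hρC fun z hz =>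
        closedBall_subset_ball H.hR (hmem z (le_of_lt hz))
    refine ⟨h3.smooth.add contDiffOn_const, fun z hz v => ?_⟩
    rw [levi_add_const]
    exact h3.nonneg z hz v
  obtain ⟨g, hg, hg1⟩ := runge_rel hP hcpt h2 (f := c) (hc.mono fun z hz => by
      obtain ⟨hz1, hz2⟩ := hz
      have h4 := hP1 z (le_of_lt hz1)
      refine ⟨h4.1, ?_, h4.2⟩
      linarith) (s := a - l + 1) (by linarith) hε
  refine ⟨g, hg, fun z hz1 hz2 hz3 => hg1 z ?_ (by linarith)⟩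
  rw [hP0 z hz1 hz3]
  linarith

private theorem splitW_pb_chi {E : Type} [NormedAddCommGroup E] [NormedSpace ℂ E] {m : ℕ}
    {χ : E → ℝ} (hχ : ContDiff ℝ ∞ χ) {z : E × (Fin m → ℂ)} {Λ : ℝ} (hΛ : 0 ≤ Λ)
    (h : ‖fderiv ℝ χ z.1‖ ≤ Λ) (b : E × (Fin m → ℂ)) :
    ‖pb b (fun y : E × (Fin m → ℂ) => ((χ y.1 : ℝ) : ℂ)) z‖ ≤ Λ * ‖b‖ := by
  refine norm_pb_le.trans ?_
  have h1 : HasFDerivAt χ (fderiv ℝ χ z.1) z.1 :=
    (hχ.differentiable (by simp)).differentiableAt.hasFDerivAt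
  have h2 : HasFDerivAt (fun y : E × (Fin m → ℂ) => ((χ y.1 : ℝ) : ℂ))
      (Complex.ofRealCLM.comp ((fderiv ℝ χ z.1).comp
        (ContinuousLinearMap.fst ℝ E (Fin m → ℂ)))) z :=
    Complex.ofRealCLM.hasFDerivAt.comp z
      (HasFDerivAt.comp z (f := fun y : E × (Fin m → ℂ) => y.1) h1 hasFDerivAt_fst)
  rw [h2.fderiv]
  gcongr
  refine (ContinuousLinearMap.opNorm_comp_le _ _).trans ?_
  rw [Complex.ofRealCLM_norm, one_mul]
  refine (ContinuousLinearMap.opNorm_comp_le _ _).trans ?_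
  calc ‖fderiv ℝ χ z.1‖ * ‖ContinuousLinearMap.fst ℝ E (Fin m → ℂ)‖ ≤ Λ * 1 := by
        gcongr
        exact ContinuousLinearMap.norm_fst_le ℝ E (Fin m → ℂ)
    _ = Λ := mul_one _

private theorem splitW_pb_congr {E : Type} [NormedAddCommGroup E] [NormedSpace ℂ E] {u v : E → ℂ}
    {z : E} (h : u =ᶠ[𝓝 z] v) (b : E) : pb b u z = pb b v z := by
  unfold pb
  rw [h.fderiv_eq]

private theorem splitW_hB {E : Type} [NormedAddCommGroup E] [NormedSpace ℂ E]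
    [FiniteDimensional ℂ E] {m N : ℕ}
    {R R' Λ : ℝ} {ρ ρC W χ : E → ℝ} (H : SplitWHyp E R R' Λ ρ ρC W χ)
    {θ : E × (Fin m → ℂ) → ℝ} {g : E × (Fin m → ℂ) → ℂ} (hg : Differentiable ℂ g) {κ : ℝ}
    (hκ : 0 < κ) {z : E × (Fin m → ℂ)} (hθ : z ∈ interior {y | θ y = 1}) (hz : ρ z.1 ≤ 1)
    (hz' : ρC z.1 ≤ 0 → ‖g z‖ ≤ 2 * κ * Real.exp (W z.1 / 2) ^ N) (b : E × (Fin m → ℂ)) :
    ‖pb b (fun y => ((θ y : ℝ) : ℂ) * (((χ y.1 : ℝ) : ℂ) * g y)) z‖ ^ 2 *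
      Real.exp (-(N * W z.1)) ≤ 4 * Λ ^ 2 * κ ^ 2 * ‖b‖ ^ 2 := by
  have hΛ : 0 ≤ Λ := by linarith [H.hΛ]
  have hgR : DifferentiableAt ℝ g z := (hg z).restrictScalars ℝ
  have hχd : DifferentiableAt ℝ (fun y : E × (Fin m → ℂ) => ((χ y.1 : ℝ) : ℂ)) z := by
    have h1 : ContDiff ℝ ∞ (fun y : E × (Fin m → ℂ) => ((χ y.1 : ℝ) : ℂ)) :=
      Complex.ofRealCLM.contDiff.comp (H.hχ.comp contDiff_fst)
    exact (h1.differentiable (by simp)) z
  have h0 : pb b (fun y => ((θ y : ℝ) : ℂ) * (((χ y.1 : ℝ) : ℂ) * g y)) z =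
      pb b (fun y : E × (Fin m → ℂ) => ((χ y.1 : ℝ) : ℂ)) z * g z := by
    have h1 : (fun y => ((θ y : ℝ) : ℂ) * (((χ y.1 : ℝ) : ℂ) * g y)) =ᶠ[𝓝 z]
        (fun y => (((χ y.1 : ℝ) : ℂ) * g y)) := by
      filter_upwards [mem_interior_iff_mem_nhds.1 hθ] with y hy
      rw [show θ y = 1 from hy]
      simp
    rw [splitW_pb_congr h1, pb_mul hχd hgR, pb_eq_zero (hg z), mul_zero, add_zero]
  rw [h0]
  have hcase : ∀ c : ℝ, z.1 ∈ interior {x | χ x = c} →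
      pb b (fun y : E × (Fin m → ℂ) => ((χ y.1 : ℝ) : ℂ)) z = 0 := by
    intro c hc
    have h1 : (fun y : E × (Fin m → ℂ) => ((χ y.1 : ℝ) : ℂ)) =ᶠ[𝓝 z] (fun _ => (c : ℂ)) := by
      have h2 : {x | χ x = c} ∈ 𝓝 z.1 := mem_interior_iff_mem_nhds.1 hc
      have h3 : ∀ᶠ y : E × (Fin m → ℂ) in 𝓝 z, y.1 ∈ {x | χ x = c} :=
        continuous_fst.continuousAt.eventually h2
      filter_upwards [h3] with y hy
      rw [show χ y.1 = c from hy]
    rw [splitW_pb_congr h1, pb_const]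
  have hpos : 0 ≤ 4 * Λ ^ 2 * κ ^ 2 * ‖b‖ ^ 2 := by positivity
  by_cases h1 : z.1 ∈ interior {x | χ x = 0}
  · rw [hcase 0 h1]
    simpa using hpos
  by_cases h2 : z.1 ∈ interior {x | χ x = 1}
  · rw [hcase 1 h2]
    simpa using hpos
  have h3 := hz' (H.ov _ hz h1 h2)
  have h4 := splitW_pb_chi (m := m) (z := z) H.hχ hΛ (H.dχ _ (H.mem hz)) b
  have h5 : Real.exp (W z.1 / 2) ^ N * Real.exp (W z.1 / 2) ^ N * Real.exp (-(N * W z.1)) = 1 := by
    rw [← Real.exp_nat_mul, ← Real.exp_add, ← Real.exp_add]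
    rw [Real.exp_eq_one_iff]
    ring
  rw [norm_mul]
  calc (‖pb b (fun y : E × (Fin m → ℂ) => ((χ y.1 : ℝ) : ℂ)) z‖ * ‖g z‖) ^ 2 *
        Real.exp (-(N * W z.1))
      ≤ ((Λ * ‖b‖) * (2 * κ * Real.exp (W z.1 / 2) ^ N)) ^ 2 * Real.exp (-(N * W z.1)) := by
        gcongr
    _ = 4 * Λ ^ 2 * κ ^ 2 * ‖b‖ ^ 2 *
        (Real.exp (W z.1 / 2) ^ N * Real.exp (W z.1 / 2) ^ N * Real.exp (-(N * W z.1))) := by
        ring
    _ = 4 * Λ ^ 2 * κ ^ 2 * ‖b‖ ^ 2 := by rw [h5, mul_one]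

private theorem splitW_core (E : Type) [NormedAddCommGroup E] [NormedSpace ℂ E]
    [FiniteDimensional ℂ E] (m N : ℕ) (R : ℝ) :
    ∃ C1 : ℝ, 0 < C1 ∧ ∀ (R' Λ : ℝ) (ρ ρC W χ : E → ℝ), SplitWHyp E R R' Λ ρ ρC W χ →
      ∀ a1 a2 a3 : ℝ, 0 ≤ a1 → a1 < a2 → a2 ≤ a3 → a3 ≤ 1 →
      ∀ (g : E × (Fin m → ℂ) → ℂ) (κ : ℝ), 0 < κ → Differentiable ℂ g →
      (∀ z : E × (Fin m → ℂ), ρ z.1 ≤ a3 → ρC z.1 ≤ a3 → ‖z.2‖ ≤ a3 →
        ‖g z‖ ≤ 2 * κ * Real.exp (W z.1 / 2) ^ N) →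
      ∃ h : E × (Fin m → ℂ) → ℂ, Differentiable ℂ h ∧
        ∀ (z : E × (Fin m → ℂ)) (r w0 : ℝ), 0 < r → 0 < w0 →
        (∀ y ∈ ball z r, ρ y.1 ≤ a1 ∧ ‖y.2‖ ≤ a1 ∧ Real.exp (W y.1 / 2) ≤ w0) →
        ∀ f : E × (Fin m → ℂ) → ℂ, Differentiable ℂ f →
        (∀ y ∈ ball z r, ‖f y - (((χ y.1 : ℝ) : ℂ) * g y - h y)‖ ≤ 2 * κ * w0 ^ N) →
        ‖f z‖ ≤ C1 * r⁻¹ ^ (Module.finrank ℂ E + m) * w0 ^ N * κ * Λ := by
  let _ : MeasurableSpace (E × (Fin m → ℂ)) := borel _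
  have : BorelSpace (E × (Fin m → ℂ)) := ⟨rfl⟩
  have hp : ProperSpace E := FiniteDimensional.proper ℂ E
  have hp2 : ProperSpace (E × (Fin m → ℂ)) := inferInstance
  have : FiniteDimensional ℝ (E × (Fin m → ℂ)) := FiniteDimensional.complexToReal _
  set μ : Measure (E × (Fin m → ℂ)) := Measure.addHaar with hμ
  set b := Module.finBasis ℂ (E × (Fin m → ℂ)) with hb
  have hK0 : IsCompact (closedBall (0 : E) R ×ˢ closedBall (0 : Fin m → ℂ) 1) :=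
    (isCompact_closedBall _ _).prod (isCompact_closedBall _ _)
  set K0 := closedBall (0 : E) R ×ˢ closedBall (0 : Fin m → ℂ) 1 with hK0def
  set M0 : ℝ := μ.real K0 with hM0
  have hM0n : 0 ≤ M0 := measureReal_nonneg
  have hK0fin : μ K0 ≠ ⊤ := hK0.measure_lt_top.ne
  set Sb : ℝ := ∑ j, ‖b j‖ ^ 2 with hSb
  have hSbn : 0 ≤ Sb := Finset.sum_nonneg fun j _ => by positivity
  obtain ⟨Cq, hCq, hqf⟩ := qf_le b
  set Q : ℝ := Cq * (max |R| 1) ^ 2 with hQ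
  have hQK : ∀ z ∈ K0, qf b z ≤ Q := by
    intro z hz
    refine (hqf z).trans ?_
    have h1 : ‖z‖ ≤ max |R| 1 := by
      obtain ⟨hz1, hz2⟩ := hz
      rw [mem_closedBall_zero_iff] at hz1 hz2
      rw [Prod.norm_def]
      exact max_le_max (hz1.trans (le_abs_self _)) hz2
    rw [hQ]
    gcongr
  set C' : ℝ := (4 * Sb * M0 + 1) * Real.exp Q with hC'
  have hC'p : 0 < C' := by positivity
  have hfr : Module.finrank ℂ (E × (Fin m → ℂ)) = Module.finrank ℂ E + m := by simp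
  have hball0 : 0 < μ.real (ball (0 : E × (Fin m → ℂ)) 1) :=
    ENNReal.toReal_pos (measure_ball_pos μ 0 one_pos).ne' measure_ball_lt_top.ne
  refine ⟨(μ.real (ball (0 : E × (Fin m → ℂ)) 1))⁻¹ ^ ((1 : ℝ) / 2) * Real.sqrt (8 * M0 + 2 * C'),
    by positivity, ?_⟩
  intro R' Λ ρ ρC W χ H a1 a2 a3 ha1 ha12 ha23 ha3 g κ hκ hg hgb
  have hΛ1 := H.hΛ
  obtain ⟨P, hP, hP0, hP00, hP1⟩ := splitW_P m H.hρ ha1 ha12
  have hcl : IsClosed {z | P z ≤ 1} := isClosed_le hP.smooth.continuous continuous_const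
  have hcl0 : IsClosed {z | P z ≤ 0} := isClosed_le hP.smooth.continuous continuous_const
  have hsubK : {z | P z ≤ 1} ⊆ K0 := by
    intro z hz
    obtain ⟨h1, h2⟩ := hP1 z hz
    refine ⟨H.hsub (show ρ z.1 ≤ 1 by linarith), ?_⟩
    rw [mem_closedBall_zero_iff]
    linarith
  have hcpt : IsCompact {z | P z ≤ 1} := hK0.of_isClosed_subset hcl hsubK
  have hsub01 : {z | P z ≤ 0} ⊆ {z | P z ≤ 1} := by
    intro z hz
    have h1 : P z ≤ 0 := hz
    show P z ≤ 1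
    linarith
  obtain ⟨θ, hθ, hθc, hθ01, -, hθ1⟩ := exists_cut hcpt isOpen_univ (subset_univ _)
  have hgs : ContDiff ℝ ∞ g := by
    rw [← contDiffOn_univ]
    exact contDiffOn_of_hol isOpen_univ hg.differentiableOn
  have hv : Tst (fun y => ((θ y : ℝ) : ℂ) * (((χ y.1 : ℝ) : ℂ) * g y)) := by
    have h1 : ContDiff ℝ ∞ (fun y : E × (Fin m → ℂ) => ((χ y.1 : ℝ) : ℂ)) :=
      Complex.ofRealCLM.contDiff.comp (H.hχ.comp contDiff_fst)
    have h2 : ContDiff ℝ ∞ (fun y : E × (Fin m → ℂ) => ((θ y : ℝ) : ℂ)) :=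
      Complex.ofRealCLM.contDiff.comp hθ
    refine ⟨h2.mul (h1.mul hgs), ?_⟩
    have h3 : HasCompactSupport (fun y : E × (Fin m → ℂ) => ((θ y : ℝ) : ℂ)) :=
      hθc.comp_left (g := fun t : ℝ => (t : ℂ)) Complex.ofReal_zero
    exact h3.mul_right
  have hWon : PshOn (fun z : E × (Fin m → ℂ) => W z.1) {z | P z < 1} :=
    splitW_pshOn isOpen_ball H.hW fun z hz => by
      have h1 : P z < 1 := hz
      exact closedBall_subset_ball H.hR (hsubK (show P z ≤ 1 from h1.le)).1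
  have hfs : ContDiffOn ℝ ∞ (fun z : E × (Fin m → ℂ) => N * W z.1) {z | P z < 1} :=
    contDiffOn_const.mul hWon.smooth
  obtain ⟨h, hh, hint, hineq⟩ := hor_loc (μ := μ) b hP (σ := 0) (σ' := 1) one_pos hcpt hfs
    (C1 := 0) le_rfl (by
      intro z hz w
      rw [levi_const_mul]
      have h1 := hWon.nonneg z hz (∑ j, w j • b j)
      have h2 : 0 ≤ (N : ℝ) * levi (fun z : E × (Fin m → ℂ) => W z.1) z (∑ j, w j • b j) := by
        positivity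
      simpa using h2) hv
    (B := 4 * Sb * Λ ^ 2 * κ ^ 2) (by
      intro z hz
      have hz1 : z ∈ {z | P z ≤ 1} := le_of_lt hz
      have hz2 := hP1 z hz1
      rw [Finset.sum_mul]
      calc _ ≤ ∑ j, 4 * Λ ^ 2 * κ ^ 2 * ‖b j‖ ^ 2 := by
            refine Finset.sum_le_sum fun j _ => ?_
            refine splitW_hB H hg hκ (hθ1 hz1) (by linarith) (fun h3 => ?_) (b j)
            exact hgb z (by linarith) (by linarith) (by linarith)
        _ = 4 * Sb * Λ ^ 2 * κ ^ 2 := by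
            rw [← Finset.mul_sum]
            ring) (by positivity) (ε := κ ^ 2) (by positivity)
  refine ⟨h, hh, ?_⟩
  intro z r w0 hr hw0 hball f hf hfy
  have hsub : ball z r ⊆ {z | P z ≤ 0} := fun y hy =>
    (hP0 y (hball y hy).1 (hball y hy).2.1).le
  have hsubK' : ball z r ⊆ K0 := (hsub.trans hsub01).trans hsubK
  have hmb : μ.real (ball z r) ≤ M0 := measureReal_mono hsubK' hK0fin
  have hκ1 : 0 < κ := hκ
  have hint2 : IntegrableOn (fun y => ‖f y‖ ^ 2) (ball z r) μ := by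
    have h1 : Continuous fun y => ‖f y‖ ^ 2 := by
      have := hf.continuous
      fun_prop
    exact (h1.continuousOn.integrableOn_compact (isCompact_closedBall z r)).mono_set
      ball_subset_closedBall
  -- the total integral
  have htot : ∫ y in {z | P z ≤ 0}, ‖((θ y : ℝ) : ℂ) * (((χ y.1 : ℝ) : ℂ) * g y) - h y‖ ^ 2 *
      Real.exp (-(N * W y.1) - (1 + 0) * qf b y) ∂μ ≤ (4 * Sb * M0 + 1) * Λ ^ 2 * κ ^ 2 := by
    refine hineq.trans ?_
    have h1 : μ.real {z | P z ≤ 1} ≤ M0 := measureReal_mono hsubK hK0fin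
    have h2 : 4 * Sb * Λ ^ 2 * κ ^ 2 * μ.real {z | P z ≤ 1} ≤ 4 * Sb * Λ ^ 2 * κ ^ 2 * M0 := by
      gcongr
    have h3 : κ ^ 2 ≤ Λ ^ 2 * κ ^ 2 := by
      have : 1 ≤ Λ ^ 2 := one_le_pow₀ hΛ1
      nlinarith [sq_nonneg κ]
    calc _ ≤ 4 * Sb * Λ ^ 2 * κ ^ 2 * M0 + Λ ^ 2 * κ ^ 2 := add_le_add h2 h3
      _ = _ := by ring
  have hpt : ∀ y ∈ ball z r, ‖f y‖ ^ 2 ≤ 2 * (2 * κ * w0 ^ N) ^ 2 +
      2 * (w0 ^ N) ^ 2 * Real.exp Q *
        (‖((θ y : ℝ) : ℂ) * (((χ y.1 : ℝ) : ℂ) * g y) - h y‖ ^ 2 *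
          Real.exp (-(N * W y.1) - (1 + 0) * qf b y)) := by
    intro y hy
    have hy0 := hsub hy
    have hθy : y ∈ {x | θ x = 1} := interior_subset (hθ1 (hsub01 hy0))
    rw [Set.mem_ofPred_eq] at hθy
    rw [hθy, Complex.ofReal_one, one_mul]
    have h1 := hfy y hy
    set u : ℂ := ((χ y.1 : ℝ) : ℂ) * g y - h y with hu
    have h2 : ‖f y‖ ≤ 2 * κ * w0 ^ N + ‖u‖ := by
      calc ‖f y‖ = ‖(f y - u) + u‖ := by rw [sub_add_cancel]
        _ ≤ ‖f y - u‖ + ‖u‖ := norm_add_le _ _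
        _ ≤ _ := by gcongr
    have h3 : ‖f y‖ ^ 2 ≤ 2 * (2 * κ * w0 ^ N) ^ 2 + 2 * ‖u‖ ^ 2 := by
      calc ‖f y‖ ^ 2 ≤ (2 * κ * w0 ^ N + ‖u‖) ^ 2 := by gcongr
        _ ≤ _ := by nlinarith [sq_nonneg (2 * κ * w0 ^ N - ‖u‖)]
    have h4 : 1 ≤ (w0 ^ N) ^ 2 * Real.exp Q * Real.exp (-(N * W y.1) - (1 + 0) * qf b y) := by
      have h5 := hQK y (hsubK' hy)
      have h6 : Real.exp (W y.1 / 2) ^ N ≤ w0 ^ N := by
        have := (hball y hy).2.2
        gcongr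
      calc (1 : ℝ) = (Real.exp (W y.1 / 2) ^ N) ^ 2 * Real.exp (qf b y) *
            Real.exp (-(N * W y.1) - (1 + 0) * qf b y) := by
            rw [← Real.exp_nat_mul, ← Real.exp_nat_mul, ← Real.exp_add, ← Real.exp_add, eq_comm,
              Real.exp_eq_one_iff]
            push_cast
            ring
        _ ≤ _ := by gcongr
    have h7 : ‖u‖ ^ 2 ≤ ‖u‖ ^ 2 *
        ((w0 ^ N) ^ 2 * Real.exp Q * Real.exp (-(N * W y.1) - (1 + 0) * qf b y)) :=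
      le_mul_of_one_le_right (sq_nonneg _) h4
    calc ‖f y‖ ^ 2 ≤ 2 * (2 * κ * w0 ^ N) ^ 2 + 2 * ‖u‖ ^ 2 := h3
      _ ≤ 2 * (2 * κ * w0 ^ N) ^ 2 + 2 * (‖u‖ ^ 2 *
        ((w0 ^ N) ^ 2 * Real.exp Q * Real.exp (-(N * W y.1) - (1 + 0) * qf b y))) := by gcongr
      _ = _ := by ring
  have hintI : IntegrableOn (fun y => ‖((θ y : ℝ) : ℂ) * (((χ y.1 : ℝ) : ℂ) * g y) - h y‖ ^ 2 *
          Real.exp (-(N * W y.1) - (1 + 0) * qf b y)) (ball z r) μ := hint.mono_set hsub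
  have hc0 : Integrable (fun _ : E × (Fin m → ℂ) => 2 * (2 * κ * w0 ^ N) ^ 2)
      (μ.restrict (ball z r)) := integrableOn_const measure_ball_lt_top.ne
  have hc1 : Integrable (fun y => 2 * (w0 ^ N) ^ 2 * Real.exp Q *
      (‖((θ y : ℝ) : ℂ) * (((χ y.1 : ℝ) : ℂ) * g y) - h y‖ ^ 2 *
          Real.exp (-(N * W y.1) - (1 + 0) * qf b y))) (μ.restrict (ball z r)) :=
    hintI.const_mul _
  have hbig : ∫ y in ball z r, ‖f y‖ ^ 2 ∂μ ≤
      (Real.sqrt (8 * M0 + 2 * C') * w0 ^ N * κ * Λ) ^ 2 := by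
    calc ∫ y in ball z r, ‖f y‖ ^ 2 ∂μ
        ≤ ∫ y in ball z r, (2 * (2 * κ * w0 ^ N) ^ 2 +
          2 * (w0 ^ N) ^ 2 * Real.exp Q *
          (‖((θ y : ℝ) : ℂ) * (((χ y.1 : ℝ) : ℂ) * g y) - h y‖ ^ 2 *
          Real.exp (-(N * W y.1) - (1 + 0) * qf b y))) ∂μ := by
          exact setIntegral_mono_on hint2 (hc0.add hc1) measurableSet_ball hpt
      _ = 2 * (2 * κ * w0 ^ N) ^ 2 * μ.real (ball z r) + 2 * (w0 ^ N) ^ 2 * Real.exp Q *
          ∫ y in ball z r, (‖((θ y : ℝ) : ℂ) * (((χ y.1 : ℝ) : ℂ) * g y) - h y‖ ^ 2 *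
          Real.exp (-(N * W y.1) - (1 + 0) * qf b y)) ∂μ := by
          rw [integral_add hc0 hc1, integral_const_mul (2 * (w0 ^ N) ^ 2 * Real.exp Q),
            setIntegral_const, smul_eq_mul, mul_comm (μ.real (ball z r))]
      _ ≤ 2 * (2 * κ * w0 ^ N) ^ 2 * M0 + 2 * (w0 ^ N) ^ 2 * Real.exp Q *
          ((4 * Sb * M0 + 1) * Λ ^ 2 * κ ^ 2) := by
          gcongr
          refine le_trans ?_ htot
          refine setIntegral_mono_set hint ?_ ?_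
          · exact Filter.Eventually.of_forall fun y => by positivity
          · exact Filter.Eventually.of_forall hsub
      _ ≤ (8 * M0 + 2 * C') * (w0 ^ N) ^ 2 * κ ^ 2 * Λ ^ 2 := by
          have h8 : 2 * (2 * κ * w0 ^ N) ^ 2 * M0 ≤ 8 * M0 * (w0 ^ N) ^ 2 * κ ^ 2 * Λ ^ 2 := by
            have : 1 ≤ Λ ^ 2 := one_le_pow₀ hΛ1
            calc 2 * (2 * κ * w0 ^ N) ^ 2 * M0 = 8 * M0 * (w0 ^ N) ^ 2 * κ ^ 2 * 1 := by ring
              _ ≤ _ := by gcongr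
          calc _ ≤ 8 * M0 * (w0 ^ N) ^ 2 * κ ^ 2 * Λ ^ 2 + 2 * (w0 ^ N) ^ 2 * Real.exp Q *
                ((4 * Sb * M0 + 1) * Λ ^ 2 * κ ^ 2) := by gcongr
            _ = _ := by
                rw [hC']
                ring
      _ = _ := by
          rw [mul_pow, mul_pow, mul_pow, Real.sq_sqrt (by positivity)]
  have hfin := norm_le_of_hol (μ := μ) hr hf.differentiableOn hint2 hbig (by positivity)
  rw [hfr] at hfin
  calc ‖f z‖ ≤ _ := hfin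
    _ = _ := by ring

private theorem splitW_ball {E : Type} [NormedAddCommGroup E] [NormedSpace ℂ E]
    {R R' Λ : ℝ} {ρ ρC W χ : E → ℝ} (H : SplitWHyp E R R' Λ ρ ρC W χ) {x : E} (hx : ρ x ≤ 1)
    {η γ : ℝ} (hη : 0 < η) (hηR : η ≤ R' - R) (hγ : γ ≤ 1 / 2)
    (hηγ : Λ * η ≤ γ * Real.exp (W x / 2)) {y : E} (hy : y ∈ ball x η) :
    y ∈ ball (0 : E) R' ∧ Real.exp (W y / 2) ≤ 3 / 2 * Real.exp (W x / 2) ∧
      |ρ y - ρ x| ≤ 2 * γ ∧ |ρC y - ρC x| ≤ 2 * γ := by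
  have hΛ : 0 < Λ := by linarith [H.hΛ]
  have hxR : ‖x‖ ≤ R := by
    have h1 := H.hsub hx
    rwa [mem_closedBall_zero_iff] at h1
  have hsub : ball x η ⊆ ball (0 : E) R' := by
    intro u hu
    rw [mem_ball_zero_iff]
    have h1 : ‖u - x‖ < η := by rwa [mem_ball, dist_eq_norm] at hu
    calc ‖u‖ = ‖(u - x) + x‖ := by rw [sub_add_cancel]
      _ ≤ ‖u - x‖ + ‖x‖ := norm_add_le _ _
      _ < R' := by linarith
  have hconv : Convex ℝ (ball x η) := convex_ball x η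
  have hxb : x ∈ ball x η := mem_ball_self hη
  have hdist : ∀ u ∈ ball x η, ‖u - x‖ ≤ η := fun u hu => by
    rw [mem_ball, dist_eq_norm] at hu
    exact hu.le
  have hWd : ∀ u ∈ ball x η, DifferentiableAt ℝ W u := fun u hu =>
    (H.hW.smooth.contDiffAt (isOpen_ball.mem_nhds (hsub hu))).differentiableAt (by simp)
  have hCd : ∀ u ∈ ball x η, DifferentiableAt ℝ ρC u := fun u hu =>
    (H.hρC.smooth.contDiffAt (isOpen_ball.mem_nhds (hsub hu))).differentiableAt (by simp)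
  have hρd : ∀ u ∈ ball x η, DifferentiableAt ℝ ρ u := fun u _ =>
    (H.hρ.smooth.differentiable (by simp)) u
  have hwd : ∀ u ∈ ball x η, DifferentiableAt ℝ (fun y => Real.exp (W y / 2)) u := fun u hu =>
    ((hWd u hu).mul_const (2 : ℝ)⁻¹).exp
  have hwx : 0 < Real.exp (W x / 2) := Real.exp_pos _
  have hw : ∀ u ∈ ball x η, |Real.exp (W u / 2) - Real.exp (W x / 2)| ≤
      1 / 2 * Real.exp (W x / 2) := by
    intro u hu
    have h1 := hconv.norm_image_sub_le_of_norm_fderiv_le hwd (fun v hv => H.dw v (hsub hv)) hxb hu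
    rw [Real.norm_eq_abs] at h1
    refine h1.trans ?_
    calc Λ * ‖u - x‖ ≤ Λ * η := by
          gcongr
          exact hdist u hu
      _ ≤ γ * Real.exp (W x / 2) := hηγ
      _ ≤ _ := by gcongr
  have hinv : ∀ u ∈ ball x η, Real.exp (-(W u) / 2) ≤ 2 * (Real.exp (W x / 2))⁻¹ := by
    intro u hu
    have h1 := (abs_le.1 (hw u hu)).1
    have h2 : 1 / 2 * Real.exp (W x / 2) ≤ Real.exp (W u / 2) := by linarith
    have h3 : Real.exp (-(W u) / 2) = (Real.exp (W u / 2))⁻¹ := by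
      rw [← Real.exp_neg]
      congr 1
      ring
    rw [h3, show 2 * (Real.exp (W x / 2))⁻¹ = (1 / 2 * Real.exp (W x / 2))⁻¹ by
      rw [mul_inv]
      norm_num]
    exact inv_anti₀ (by positivity) h2
  have hfin : ∀ f : E → ℝ, (∀ u ∈ ball x η, DifferentiableAt ℝ f u) →
      (∀ u ∈ ball (0 : E) R', ‖fderiv ℝ f u‖ ≤ Λ * Real.exp (-(W u) / 2)) →
      |f y - f x| ≤ 2 * γ := by
    intro f hf hb
    have h1 := hconv.norm_image_sub_le_of_norm_fderiv_le hf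
      (C := Λ * (2 * (Real.exp (W x / 2))⁻¹)) (fun v hv => (hb v (hsub hv)).trans (by
        gcongr
        exact hinv v hv)) hxb hy
    rw [Real.norm_eq_abs] at h1
    refine h1.trans ?_
    calc Λ * (2 * (Real.exp (W x / 2))⁻¹) * ‖y - x‖
        ≤ Λ * (2 * (Real.exp (W x / 2))⁻¹) * η := by
          gcongr
          exact hdist y hy
      _ = 2 * (Λ * η) * (Real.exp (W x / 2))⁻¹ := by ring
      _ ≤ 2 * (γ * Real.exp (W x / 2)) * (Real.exp (W x / 2))⁻¹ := by gcongr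
      _ = 2 * γ := by
          field_simp
  refine ⟨hsub hy, ?_, hfin ρ hρd H.dρ, hfin ρC hCd H.dρC⟩
  have h1 := (abs_le.1 (hw y hy)).2
  linarith

private theorem splitW_tri {E : Type} [NormedAddCommGroup E] [NormedSpace ℂ E]
    {R R' Λ : ℝ} {ρ ρC W χ : E → ℝ} (H : SplitWHyp E R R' Λ ρ ρC W χ) {x : E} {η : ℝ}
    (hρ : ∀ y ∈ ball x η, ρ y ≤ 1) :
    ball x η ⊆ interior {x | χ x = 0} ∨ ball x η ⊆ interior {x | χ x = 1} ∨
      ∃ y ∈ ball x η, ρC y ≤ 0 := by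
  by_contra hcon
  push Not at hcon
  obtain ⟨h0, h1, h2⟩ := hcon
  have hdis : Disjoint (interior {x | χ x = 0}) (interior {x | χ x = 1}) := by
    rw [Set.disjoint_left]
    intro u hu hu'
    have h3 : u ∈ {x | χ x = 0} := interior_subset hu
    have h4 : u ∈ {x | χ x = 1} := interior_subset hu'
    rw [Set.mem_ofPred_eq] at h3 h4
    rw [h3] at h4
    norm_num at h4
  have hcov : ball x η ⊆ interior {x | χ x = 0} ∪ interior {x | χ x = 1} := by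
    intro u hu
    by_contra hu'
    rw [Set.mem_union, not_or] at hu'
    have h3 := H.ov u (hρ u hu) hu'.1 hu'.2
    linarith [h2 u hu]
  have h3 := IsPreconnected.subset_or_subset isOpen_interior isOpen_interior hdis hcov
    (convex_ball x η).isPreconnected
  tauto

/-- the domains of the splitting: `side = 0` or `1` is the value of the cutoff `χ` on the side -/
def spDom {E : Type} [NormedAddCommGroup E] (m : ℕ) (ρ ρC χ : E → ℝ) (side s : ℝ) :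
    Set (E × (Fin m → ℂ)) :=
  {z | ρ z.1 < 1 - s / 2 ∧ (z.1 ∈ interior {x | χ x = side} ∨ ρC z.1 < 1 - s / 2) ∧
    z.2 ∈ ball (0 : Fin m → ℂ) (1 - s / 2)}

/-- weighted additive splitting (approximate, entire), scalar valued -/
theorem split_scalar (E : Type) [NormedAddCommGroup E] [NormedSpace ℂ E] [FiniteDimensional ℂ E]
    (m N : ℕ) (hN : Module.finrank ℂ E + m ≤ N) (R R' : ℝ) (hR : R < R') :
    ∃ C : ℝ, 0 < C ∧
      ∀ (Λ : ℝ) (ρ ρC W χ : E → ℝ), 1 ≤ Λ → Psh ρ → {x | ρ x ≤ 1} ⊆ closedBall (0 : E) R →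
      PshOn ρC (ball (0 : E) R') → PshOn W (ball (0 : E) R') →
      (∀ x ∈ ball (0 : E) R', W x ≤ 0) →
      ContDiff ℝ ∞ χ → (∀ x, χ x ∈ Icc (0 : ℝ) 1) →
      (∀ x ∈ ball (0 : E) R', ‖fderiv ℝ ρ x‖ ≤ Λ * Real.exp (-(W x) / 2)) →
      (∀ x ∈ ball (0 : E) R', ‖fderiv ℝ ρC x‖ ≤ Λ * Real.exp (-(W x) / 2)) →
      (∀ x ∈ ball (0 : E) R', ‖fderiv ℝ (fun y => Real.exp (W y / 2)) x‖ ≤ Λ) →
      (∀ x ∈ ball (0 : E) R', ‖fderiv ℝ χ x‖ ≤ Λ) →
      (∀ x, ρ x ≤ 1 → x ∉ interior {x | χ x = 0} → x ∉ interior {x | χ x = 1} → ρC x ≤ 0) →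
      ∀ (s s' : ℝ), 0 ≤ s → s < s' → s' ≤ 1 →
      ∀ (c : E × (Fin m → ℂ) → ℂ) (κ τ : ℝ), 0 < κ → 0 < τ →
      DifferentiableOn ℂ c (spDom m ρ ρC χ 0 s ∩ spDom m ρ ρC χ 1 s) →
      (∀ z ∈ spDom m ρ ρC χ 0 s ∩ spDom m ρ ρC χ 1 s, ‖c z‖ ≤ κ * Real.exp (W z.1 / 2) ^ N) →
      ∃ a b : E × (Fin m → ℂ) → ℂ, Differentiable ℂ a ∧ Differentiable ℂ b ∧
        (∀ z ∈ spDom m ρ ρC χ 0 s', ‖a z‖ ≤
          C * Λ ^ (Module.finrank ℂ E + m + 1) / (s' - s) ^ (Module.finrank ℂ E + m) * κ *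
            Real.exp (W z.1 / 2) ^ (N - (Module.finrank ℂ E + m))) ∧
        (∀ z ∈ spDom m ρ ρC χ 1 s', ‖b z‖ ≤
          C * Λ ^ (Module.finrank ℂ E + m + 1) / (s' - s) ^ (Module.finrank ℂ E + m) * κ *
            Real.exp (W z.1 / 2) ^ (N - (Module.finrank ℂ E + m))) ∧
        ∀ z ∈ spDom m ρ ρC χ 0 s' ∩ spDom m ρ ρC χ 1 s', ‖b z - a z - c z‖ ≤ τ := by
  have hp : ProperSpace E := FiniteDimensional.proper ℂ E
  obtain ⟨C1, hC1, hcore⟩ := splitW_core E m N R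
  set D : ℕ := Module.finrank ℂ E + m with hD
  obtain ⟨cR, hcR, hcR1, hcR2⟩ : ∃ cR : ℝ, 0 < cR ∧ cR ≤ 1 / 16 ∧ cR ≤ R' - R :=
    ⟨min (1 / 16) (R' - R), lt_min (by norm_num) (by linarith), min_le_left _ _, min_le_right _ _⟩
  refine ⟨2 + C1 * (2 / cR) ^ D * (3 / 2) ^ N, by positivity, ?_⟩
  intro Λ ρ ρC W χ hΛ hρ hsub hρC hW hW0 hχ hχ01 dρ dρC dw dχ ov s s' hs hss hs' c κ τ hκ hτ
    hcd hcb
  have H : SplitWHyp E R R' Λ ρ ρC W χ :=
    ⟨hR, hΛ, hρ, hsub, hρC, hW, hW0, hχ, hχ01, dρ, dρC, dw, dχ, ov⟩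
  have hΛ0 : 0 < Λ := by linarith
  -- minimum of the weight
  obtain ⟨wm, hwm, hwm1⟩ : ∃ wm : ℝ, 0 < wm ∧ ∀ x ∈ closedBall (0 : E) R,
      wm ≤ Real.exp (W x / 2) := by
    have hcont : ContinuousOn (fun x => Real.exp (W x / 2)) (closedBall (0 : E) R) := by
      have h1 : ContinuousOn W (closedBall (0 : E) R) :=
        hW.smooth.continuousOn.mono (closedBall_subset_ball hR)
      fun_prop
    exact (isCompact_closedBall (0 : E) R).exists_forall_le' hcont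
      (fun x _ => Real.exp_pos (W x / 2))
  have hin : ∀ {x : E}, ρ x ≤ 1 → x ∈ closedBall (0 : E) R := fun hx => hsub hx
  have hset : ∀ z : E × (Fin m → ℂ), ρ z.1 < 1 - s / 2 → ρC z.1 < 1 - s / 2 → ‖z.2‖ < 1 - s / 2 →
      z ∈ spDom m ρ ρC χ 0 s ∩ spDom m ρ ρC χ 1 s := fun z h1 h2 h3 =>
    ⟨⟨h1, Or.inr h2, by rwa [mem_ball_zero_iff]⟩, ⟨h1, Or.inr h2, by rwa [mem_ball_zero_iff]⟩⟩
  obtain ⟨g, hg, hgc⟩ := splitW_runge H (l := 1 - s / 2) (a := 1 - s' / 2 + 3 * ((s' - s) / 8))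
    (by linarith) (by linarith) (by linarith) (c := c)
    (hcd.mono fun z hz => hset z hz.1 hz.2.1 hz.2.2) (ε := min τ (κ * wm ^ N))
    (lt_min hτ (by positivity))
  have hgb : ∀ z : E × (Fin m → ℂ), ρ z.1 ≤ 1 - s' / 2 + 3 * ((s' - s) / 8) →
      ρC z.1 ≤ 1 - s' / 2 + 3 * ((s' - s) / 8) → ‖z.2‖ ≤ 1 - s' / 2 + 3 * ((s' - s) / 8) →
      ‖g z‖ ≤ 2 * κ * Real.exp (W z.1 / 2) ^ N := by
    intro z h1 h2 h3
    have h4 := hgc z h1 h2 h3
    have h5 := hcb z (hset z (by linarith) (by linarith) (by linarith))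
    have h6 : wm ≤ Real.exp (W z.1 / 2) := hwm1 _ (hin (by linarith))
    have h7 : κ * wm ^ N ≤ κ * Real.exp (W z.1 / 2) ^ N := by gcongr
    have h8 : ‖g z‖ ≤ ‖c z‖ + ‖c z - g z‖ := by
      calc ‖g z‖ = ‖c z - (c z - g z)‖ := by rw [sub_sub_cancel]
        _ ≤ _ := norm_sub_le _ _
    have h9 := min_le_right τ (κ * wm ^ N)
    linarith
  obtain ⟨h, hh, hkey⟩ := hcore R' Λ ρ ρC W χ H (1 - s' / 2 + (s' - s) / 8)
    (1 - s' / 2 + 2 * ((s' - s) / 8)) (1 - s' / 2 + 3 * ((s' - s) / 8)) (by linarith) (by linarith)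
    (by linarith) (by linarith) g κ hκ hg hgb
  -- the local estimate
  have hs0 : 0 < s' - s := by linarith
  have hs1 : s' - s ≤ 1 := by linarith
  set Bd : ℝ → ℝ := fun w => Λ ^ (D + 1) / (s' - s) ^ D * κ * w ^ (N - D) with hBd
  have hsmall : ∀ w : ℝ, 0 < w → w ≤ 1 → 2 * κ * w ^ N ≤ 2 * Bd w := by
    intro w hw hw1
    have h1 : w ^ N ≤ w ^ (N - D) := pow_le_pow_of_le_one hw.le hw1 (Nat.sub_le _ _)
    have h2 : 1 ≤ Λ ^ (D + 1) / (s' - s) ^ D := by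
      rw [le_div_iff₀ (by positivity), one_mul]
      exact (pow_le_one₀ hs0.le hs1).trans (one_le_pow₀ hΛ)
    calc 2 * κ * w ^ N ≤ 2 * (1 * κ * w ^ (N - D)) := by
          rw [one_mul, mul_assoc]
          gcongr
      _ ≤ 2 * Bd w := by
          simp only [hBd]
          gcongr
  have hest : ∀ z : E × (Fin m → ℂ), ρ z.1 < 1 - s' / 2 → ‖z.2‖ < 1 - s' / 2 →
      ∃ η > 0, (∀ y ∈ ball z.1 η, ρ y ≤ 1 - s' / 2 + (s' - s) / 8) ∧
        (∀ y ∈ ball z η, y.1 ∈ ball z.1 η ∧ ‖y.2‖ ≤ 1 - s' / 2 + (s' - s) / 8) ∧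
        (∀ y ∈ ball z.1 η, Real.exp (W y / 2) ≤ 3 / 2 * Real.exp (W z.1 / 2)) ∧
        (∀ y0 ∈ ball z.1 η, ρC y0 ≤ 0 → ∀ y ∈ ball z.1 η, ρC y ≤ 1 / 2) ∧
        ∀ f : E × (Fin m → ℂ) → ℂ, Differentiable ℂ f →
        (∀ y ∈ ball z η, ‖f y - (((χ y.1 : ℝ) : ℂ) * g y - h y)‖ ≤
          2 * κ * (3 / 2 * Real.exp (W z.1 / 2)) ^ N) →
        ‖f z‖ ≤ C1 * (2 / cR) ^ D * (3 / 2) ^ N * Bd (Real.exp (W z.1 / 2)) := by
    intro z hz1 hz2
    have hzR : z.1 ∈ ball (0 : E) R' := H.mem (by linarith)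
    set w : ℝ := Real.exp (W z.1 / 2) with hw
    have hw0 : 0 < w := Real.exp_pos _
    have hw1 : w ≤ 1 := by
      rw [hw, Real.exp_le_one_iff]
      linarith [hW0 z.1 hzR]
    set η : ℝ := cR * ((s' - s) / 2) * w / Λ with hη
    have hη0 : 0 < η := by positivity
    have hηle : η ≤ cR * ((s' - s) / 2) := by
      rw [hη, div_le_iff₀ hΛ0]
      calc cR * ((s' - s) / 2) * w ≤ cR * ((s' - s) / 2) * 1 := by gcongr
        _ ≤ cR * ((s' - s) / 2) * Λ := by gcongr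
    have hcs : cR * ((s' - s) / 2) ≤ (s' - s) / 32 := by
      calc cR * ((s' - s) / 2) ≤ 1 / 16 * ((s' - s) / 2) := by gcongr
        _ = _ := by ring
    have hηR : η ≤ R' - R := by
      have : cR * ((s' - s) / 2) ≤ cR * 1 := by
        gcongr
        linarith
      linarith
    have hηγ : Λ * η ≤ cR * ((s' - s) / 2) * w := by
      rw [hη, mul_div_cancel₀ _ hΛ0.ne']
    have hloc : ∀ y ∈ ball z.1 η, _ := fun y hy =>
      splitW_ball H (x := z.1) (by linarith) hη0 hηR (γ := cR * ((s' - s) / 2)) (by linarith)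
        hηγ hy
    have hA : ∀ y ∈ ball z.1 η, ρ y ≤ 1 - s' / 2 + (s' - s) / 8 := by
      intro y hy
      have h1 := (abs_le.1 (hloc y hy).2.2.1).2
      linarith
    have hB : ∀ y ∈ ball z η, y.1 ∈ ball z.1 η ∧ ‖y.2‖ ≤ 1 - s' / 2 + (s' - s) / 8 := by
      intro y hy
      rw [mem_ball, Prod.dist_eq, max_lt_iff] at hy
      refine ⟨hy.1, ?_⟩
      have h1 : ‖y.2 - z.2‖ < η := by
        rw [← dist_eq_norm]
        exact hy.2
      calc ‖y.2‖ = ‖(y.2 - z.2) + z.2‖ := by rw [sub_add_cancel]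
        _ ≤ ‖y.2 - z.2‖ + ‖z.2‖ := norm_add_le _ _
        _ ≤ _ := by linarith
    refine ⟨η, hη0, hA, hB, fun y hy => (hloc y hy).2.1, ?_, ?_⟩
    · intro y0 hy0 h0 y hy
      have h1 := abs_le.1 (hloc y hy).2.2.2
      have h2 := abs_le.1 (hloc y0 hy0).2.2.2
      linarith [h1.2, h2.1]
    · intro f hf hfy
      have h1 := hkey z η (3 / 2 * w) hη0 (by positivity) (fun y hy =>
        ⟨hA _ (hB y hy).1, (hB y hy).2, (hloc _ (hB y hy).1).2.1⟩) f hf hfy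
      refine h1.trans (le_of_eq ?_)
      have h2 : w ^ N = w ^ D * w ^ (N - D) := by
        rw [← pow_add]
        congr 1
        omega
      have h3 : η⁻¹ = (2 / cR) * Λ / ((s' - s) * w) := by
        rw [hη]
        field_simp
      rw [h3, hBd]
      simp only
      rw [div_pow, mul_pow, mul_pow, mul_pow, h2]
      field_simp
      ring
  have hE : ∀ {z : E × (Fin m → ℂ)}, ‖z.2‖ < 1 - s' / 2 ↔ z.2 ∈ ball (0 : Fin m → ℂ) (1 - s' / 2) :=
    fun {z} => by rw [mem_ball_zero_iff]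
  have hWz : ∀ z : E × (Fin m → ℂ), ρ z.1 < 1 - s' / 2 → Real.exp (W z.1 / 2) ≤ 1 := by
    intro z hz
    have hzR : z.1 ∈ ball (0 : E) R' := H.mem (by linarith)
    rw [Real.exp_le_one_iff]
    linarith [hW0 z.1 hzR]
  have hdisj : ∀ x : E, x ∈ interior {x | χ x = 0} → x ∈ interior {x | χ x = 1} → False := by
    intro x hu hu'
    have h3 : x ∈ {x | χ x = 0} := interior_subset hu
    have h4 : x ∈ {x | χ x = 1} := interior_subset hu'
    rw [Set.mem_ofPred_eq] at h3 h4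
    rw [h3] at h4
    norm_num at h4
  have hχn : ∀ x : E, ‖((χ x : ℝ) : ℂ)‖ ≤ 1 := by
    intro x
    rw [Complex.norm_real, Real.norm_eq_abs, abs_le]
    have := hχ01 x
    exact ⟨by linarith [this.1], this.2⟩
  have hχn' : ∀ x : E, ‖1 - ((χ x : ℝ) : ℂ)‖ ≤ 1 := by
    intro x
    rw [← Complex.ofReal_one, ← Complex.ofReal_sub, Complex.norm_real, Real.norm_eq_abs, abs_le]
    have := hχ01 x
    exact ⟨by linarith [this.2], by linarith [this.1]⟩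
  have hfinal : ∀ z : E × (Fin m → ℂ), ∀ u : ℂ,
      ‖u‖ ≤ 2 * κ * Real.exp (W z.1 / 2) ^ N +
        C1 * (2 / cR) ^ D * (3 / 2) ^ N * Bd (Real.exp (W z.1 / 2)) → ρ z.1 < 1 - s' / 2 →
      ‖u‖ ≤ (2 + C1 * (2 / cR) ^ D * (3 / 2) ^ N) * Λ ^ (D + 1) / (s' - s) ^ D * κ *
            Real.exp (W z.1 / 2) ^ (N - D) := by
    intro z u hu hz
    have h1 := hsmall _ (Real.exp_pos _) (hWz z hz)
    refine hu.trans ((add_le_add_left h1 _).trans (le_of_eq ?_))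
    rw [hBd]
    ring
  refine ⟨fun z => -h z, fun z => g z - h z, hh.neg, hg.sub hh, ?_, ?_, ?_⟩
  · rintro z ⟨hz1, hz2, hz3⟩
    rw [mem_ball_zero_iff] at hz3
    obtain ⟨η, hη0, hA, hB, hCw, hCC, hcon⟩ := hest z hz1 hz3
    refine hfinal z _ ?_ hz1
    have hzz : z.1 ∈ ball z.1 η := mem_ball_self hη0
    rcases splitW_tri H (x := z.1) (η := η) (fun y hy => by linarith [hA y hy]) with h0 | h0 | h0
    · have h1 := hcon (fun y => -h y) hh.neg (fun y hy => by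
        have h2 : y.1 ∈ {x | χ x = 0} := interior_subset (h0 (hB y hy).1)
        rw [Set.mem_ofPred_eq] at h2
        rw [h2]
        simp only [Complex.ofReal_zero, zero_mul, zero_sub, sub_self, norm_zero]
        positivity)
      have h3 : 0 ≤ 2 * κ * Real.exp (W z.1 / 2) ^ N := by positivity
      linarith
    · have hC : ρC z.1 < 1 - s' / 2 := by
        rcases hz2 with h1 | h1
        · exact (hdisj z.1 h1 (h0 hzz)).elim
        · exact h1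
      have hg1 := hgb z (by linarith) (by linarith) (by linarith)
      have h1 := hcon (fun y => g y - h y) (hg.sub hh) (fun y hy => by
        have h2 : y.1 ∈ {x | χ x = 1} := interior_subset (h0 (hB y hy).1)
        rw [Set.mem_ofPred_eq] at h2
        rw [h2]
        simp only [Complex.ofReal_one, one_mul, sub_self, norm_zero]
        positivity)
      calc ‖-h z‖ = ‖-(g z) + (g z - h z)‖ := by
            congr 1
            ring
        _ ≤ ‖-(g z)‖ + ‖g z - h z‖ := norm_add_le _ _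
        _ ≤ _ := by
            rw [norm_neg]
            exact add_le_add hg1 h1
    · obtain ⟨y0, hy0, hy0C⟩ := h0
      have h1 := hcon (fun y => -h y) hh.neg (fun y hy => by
        have h2 := hB y hy
        have h4 := hgb y (by linarith [hA _ h2.1]) (by linarith [hCC y0 hy0 hy0C _ h2.1])
          (by linarith)
        have h5 := hCw _ h2.1
        calc ‖-h y - (((χ y.1 : ℝ) : ℂ) * g y - h y)‖ = ‖((χ y.1 : ℝ) : ℂ)‖ * ‖g y‖ := by
              rw [← norm_mul, ← norm_neg]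
              congr 1
              ring
          _ ≤ 1 * (2 * κ * Real.exp (W y.1 / 2) ^ N) :=
              mul_le_mul (hχn _) h4 (norm_nonneg _) zero_le_one
          _ ≤ _ := by
              rw [one_mul]
              gcongr)
      have h3 : 0 ≤ 2 * κ * Real.exp (W z.1 / 2) ^ N := by positivity
      linarith
  · rintro z ⟨hz1, hz2, hz3⟩
    rw [mem_ball_zero_iff] at hz3
    obtain ⟨η, hη0, hA, hB, hCw, hCC, hcon⟩ := hest z hz1 hz3
    refine hfinal z _ ?_ hz1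
    have hzz : z.1 ∈ ball z.1 η := mem_ball_self hη0
    rcases splitW_tri H (x := z.1) (η := η) (fun y hy => by linarith [hA y hy]) with h0 | h0 | h0
    · have hC : ρC z.1 < 1 - s' / 2 := by
        rcases hz2 with h1 | h1
        · exact (hdisj z.1 (h0 hzz) h1).elim
        · exact h1
      have hg1 := hgb z (by linarith) (by linarith) (by linarith)
      have h1 := hcon (fun y => -h y) hh.neg (fun y hy => by
        have h2 : y.1 ∈ {x | χ x = 0} := interior_subset (h0 (hB y hy).1)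
        rw [Set.mem_ofPred_eq] at h2
        rw [h2]
        simp only [Complex.ofReal_zero, zero_mul, zero_sub, sub_self, norm_zero]
        positivity)
      calc ‖g z - h z‖ = ‖g z + (-h z)‖ := by
            congr 1
        _ ≤ ‖g z‖ + ‖-h z‖ := norm_add_le _ _
        _ ≤ _ := add_le_add hg1 h1
    · have h1 := hcon (fun y => g y - h y) (hg.sub hh) (fun y hy => by
        have h2 : y.1 ∈ {x | χ x = 1} := interior_subset (h0 (hB y hy).1)
        rw [Set.mem_ofPred_eq] at h2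
        rw [h2]
        simp only [Complex.ofReal_one, one_mul, sub_self, norm_zero]
        positivity)
      have h3 : 0 ≤ 2 * κ * Real.exp (W z.1 / 2) ^ N := by positivity
      linarith
    · obtain ⟨y0, hy0, hy0C⟩ := h0
      have h1 := hcon (fun y => g y - h y) (hg.sub hh) (fun y hy => by
        have h2 := hB y hy
        have h4 := hgb y (by linarith [hA _ h2.1]) (by linarith [hCC y0 hy0 hy0C _ h2.1])
          (by linarith)
        have h5 := hCw _ h2.1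
        calc ‖g y - h y - (((χ y.1 : ℝ) : ℂ) * g y - h y)‖ = ‖1 - ((χ y.1 : ℝ) : ℂ)‖ * ‖g y‖ := by
              rw [← norm_mul]
              congr 1
              ring
          _ ≤ 1 * (2 * κ * Real.exp (W y.1 / 2) ^ N) :=
              mul_le_mul (hχn' _) h4 (norm_nonneg _) zero_le_one
          _ ≤ _ := by
              rw [one_mul]
              gcongr)
      have h3 : 0 ≤ 2 * κ * Real.exp (W z.1 / 2) ^ N := by positivity
      linarith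
  · rintro z ⟨⟨hz1, hz2, hz3⟩, ⟨-, hz5, -⟩⟩
    rw [mem_ball_zero_iff] at hz3
    have hC : ρC z.1 < 1 - s' / 2 := by
      rcases hz2 with h1 | h1
      · rcases hz5 with h2 | h2
        · exact (hdisj z.1 h1 h2).elim
        · exact h2
      · exact h1
    have h1 := hgc z (by linarith) (by linarith) (by linarith)
    have h2 := min_le_left τ (κ * wm ^ N)
    calc ‖g z - h z - -h z - c z‖ = ‖c z - g z‖ := by
          rw [← norm_neg]
          congr 1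
          ring
      _ ≤ τ := by linarith

/-- weighted additive splitting (approximate, entire) -/
theorem split_vec (E : Type) [NormedAddCommGroup E] [NormedSpace ℂ E] [FiniteDimensional ℂ E]
    (m N : ℕ) (hN : Module.finrank ℂ E + m ≤ N) (R R' : ℝ) (hR : R < R') :
    ∃ C : ℝ, 0 < C ∧
      ∀ (Λ : ℝ) (ρ ρC W χ : E → ℝ), 1 ≤ Λ → Psh ρ → {x | ρ x ≤ 1} ⊆ closedBall (0 : E) R →
      PshOn ρC (ball (0 : E) R') → PshOn W (ball (0 : E) R') →
      (∀ x ∈ ball (0 : E) R', W x ≤ 0) →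
      ContDiff ℝ ∞ χ → (∀ x, χ x ∈ Icc (0 : ℝ) 1) →
      (∀ x ∈ ball (0 : E) R', ‖fderiv ℝ ρ x‖ ≤ Λ * Real.exp (-(W x) / 2)) →
      (∀ x ∈ ball (0 : E) R', ‖fderiv ℝ ρC x‖ ≤ Λ * Real.exp (-(W x) / 2)) →
      (∀ x ∈ ball (0 : E) R', ‖fderiv ℝ (fun y => Real.exp (W y / 2)) x‖ ≤ Λ) →
      (∀ x ∈ ball (0 : E) R', ‖fderiv ℝ χ x‖ ≤ Λ) →
      (∀ x, ρ x ≤ 1 → x ∉ interior {x | χ x = 0} → x ∉ interior {x | χ x = 1} → ρC x ≤ 0) →
      ∀ (s s' : ℝ), 0 ≤ s → s < s' → s' ≤ 1 →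
      ∀ (c : E × (Fin m → ℂ) → (Fin m → ℂ)) (κ τ : ℝ), 0 < κ → 0 < τ →
      DifferentiableOn ℂ c (spDom m ρ ρC χ 0 s ∩ spDom m ρ ρC χ 1 s) →
      (∀ z ∈ spDom m ρ ρC χ 0 s ∩ spDom m ρ ρC χ 1 s, ‖c z‖ ≤ κ * Real.exp (W z.1 / 2) ^ N) →
      ∃ a b : E × (Fin m → ℂ) → (Fin m → ℂ), Differentiable ℂ a ∧ Differentiable ℂ b ∧
        (∀ z ∈ spDom m ρ ρC χ 0 s', ‖a z‖ ≤
          C * Λ ^ (Module.finrank ℂ E + m + 1) / (s' - s) ^ (Module.finrank ℂ E + m) * κ *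
            Real.exp (W z.1 / 2) ^ (N - (Module.finrank ℂ E + m))) ∧
        (∀ z ∈ spDom m ρ ρC χ 1 s', ‖b z‖ ≤
          C * Λ ^ (Module.finrank ℂ E + m + 1) / (s' - s) ^ (Module.finrank ℂ E + m) * κ *
            Real.exp (W z.1 / 2) ^ (N - (Module.finrank ℂ E + m))) ∧
        ∀ z ∈ spDom m ρ ρC χ 0 s' ∩ spDom m ρ ρC χ 1 s', ‖b z - a z - c z‖ ≤ τ := by
  obtain ⟨C, hC, hsc⟩ := split_scalar E m N hN R R' hR
  refine ⟨C, hC, ?_⟩
  intro Λ ρ ρC W χ hΛ hρ hsub hρC hW hW0 hχ hχ01 dρ dρC dw dχ ov s s' hs hss hs' c κ τ hκ hτ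
    hcd hcb
  have hΛ0 : 0 < Λ := by linarith
  have hs0 : 0 < s' - s := by linarith
  have h1 : ∀ i : Fin m, _ := fun i =>
    hsc Λ ρ ρC W χ hΛ hρ hsub hρC hW hW0 hχ hχ01 dρ dρC dw dχ ov s s' hs hss hs'
      (fun z => c z i) κ τ hκ hτ (differentiableOn_pi.1 hcd i)
      (fun z hz => (norm_le_pi_norm (c z) i).trans (hcb z hz))
  choose a b ha hb ha1 hb1 hab using h1
  refine ⟨fun z i => a i z, fun z i => b i z, differentiable_pi.2 ha, differentiable_pi.2 hb,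
    ?_, ?_, ?_⟩
  · intro z hz
    rw [pi_norm_le_iff_of_nonneg (by positivity)]
    exact fun i => ha1 i z hz
  · intro z hz
    rw [pi_norm_le_iff_of_nonneg (by positivity)]
    exact fun i => hb1 i z hz
  · intro z hz
    rw [pi_norm_le_iff_of_nonneg hτ.le]
    exact fun i => hab i z hz

end OkaP
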