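import Pool.Agent.H.MP_ceb9a9.Geom
import Pool.Agent.H.MP_ceb9a9.SplitW
import Pool.Agent.H.MP_ceb9a9.ApproxScale
import Pool.Agent.H.MP_ceb9a9.NsMain

/-!
# MP_ceb9a9: weighted nonlinear splitting
-/

set_option autoImplicit false

namespace OkaP

open Set Metric Topology

theorem NgW_open {E : Type} [NormedAddCommGroup E] [NormedSpace ℂ E] (m : ℕ)
    {R R' : ℝ} (hR : R < R') {ρ ρC χ : E → ℝ} (hρ : Psh ρ)
    (hsub : {x | ρ x ≤ 1} ⊆ closedBall (0 : E) R) (hρC : PshOn ρC (ball (0 : E) R'))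
    (side : ℝ) {s : ℝ} (hs : 0 ≤ s) : IsOpen (spDom m ρ ρC χ side s) := by
  have h1 : IsOpen {x : E | ρ x < 1 - s / 2} := isOpen_lt hρ.smooth.continuous continuous_const
  have h2 : IsOpen (ball (0 : E) R' ∩ ρC ⁻¹' Iio (1 - s / 2)) :=
    hρC.smooth.continuousOn.isOpen_inter_preimage isOpen_ball isOpen_Iio
  have h3 : spDom m ρ ρC χ side s = ({x : E | ρ x < 1 - s / 2} ∩
      (interior {x | χ x = side} ∪ (ball (0 : E) R' ∩ ρC ⁻¹' Iio (1 - s / 2)))) ×ˢ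
        ball (0 : Fin m → ℂ) (1 - s / 2) := by
    ext z
    constructor
    · rintro ⟨h4, h5, h6⟩
      have h7 : z.1 ∈ ball (0 : E) R' := by
        have h8 : z.1 ∈ closedBall (0 : E) R := hsub (by show ρ z.1 ≤ 1; linarith)
        exact closedBall_subset_ball hR h8
      refine ⟨⟨h4, ?_⟩, h6⟩
      rcases h5 with h5 | h5
      · exact Or.inl h5
      · exact Or.inr ⟨h7, h5⟩
    · rintro ⟨⟨h4, h5⟩, h6⟩
      refine ⟨h4, ?_, h6⟩
      rcases h5 with h5 | h5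
      · exact Or.inl h5
      · exact Or.inr h5.2
  rw [h3]
  exact (h1.inter (isOpen_interior.union h2)).prod isOpen_ball

/-- weighted Cartan splitting, with vanishing on the zero section. -/
theorem ngW_core (E : Type) [NormedAddCommGroup E] [NormedSpace ℂ E] [FiniteDimensional ℂ E]
    (m : ℕ) :
    ∃ N : ℕ, ∀ R R' : ℝ, R < R' → ∃ q : ℕ, ∃ c : ℝ, 0 < c ∧
      ∀ (Λ : ℝ) (ρ ρC W χ : E → ℝ), 1 ≤ Λ → Psh ρ → {x | ρ x ≤ 1} ⊆ closedBall (0 : E) R →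
      PshOn ρC (ball (0 : E) R') → PshOn W (ball (0 : E) R') →
      (∀ x ∈ ball (0 : E) R', W x ≤ 0) →
      ContDiff ℝ ((⊤ : ℕ∞) : WithTop ℕ∞) χ → (∀ x, χ x ∈ Icc (0 : ℝ) 1) →
      (∀ x ∈ ball (0 : E) R', ‖fderiv ℝ ρ x‖ ≤ Λ * Real.exp (-(W x) / 2)) →
      (∀ x ∈ ball (0 : E) R', ‖fderiv ℝ ρC x‖ ≤ Λ * Real.exp (-(W x) / 2)) →
      (∀ x ∈ ball (0 : E) R', ‖fderiv ℝ (fun y => Real.exp (W y / 2)) x‖ ≤ Λ) →
      (∀ x ∈ ball (0 : E) R', ‖fderiv ℝ χ x‖ ≤ Λ) →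
      (∀ x, ρ x ≤ 1 → x ∉ interior {x | χ x = 0} → x ∉ interior {x | χ x = 1} → ρC x ≤ 0) →
      ∀ (γ : E × (Fin m → ℂ) → (Fin m → ℂ)) (δ : ℝ), 0 ≤ δ → δ * Λ ^ q ≤ c →
      DifferentiableOn ℂ γ ({x | ρ x < 1 ∧ ρC x < 1} ×ˢ ball (0 : Fin m → ℂ) 1) →
      (∀ x, ρ x < 1 → ρC x < 1 → ∀ t ∈ ball (0 : Fin m → ℂ) 1,
        ‖γ (x, t) - t‖ ≤ δ * Real.exp (W x / 2) ^ N) →
      ∃ α β : E × (Fin m → ℂ) → (Fin m → ℂ),
        DifferentiableOn ℂ α ({x | ρ x < 1 / 2 ∧ (x ∈ interior {x | χ x = 0} ∨ ρC x < 1 / 2)} ×ˢ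
          ball (0 : Fin m → ℂ) (1 / 2)) ∧
        DifferentiableOn ℂ β ({x | ρ x < 1 / 2 ∧ (x ∈ interior {x | χ x = 1} ∨ ρC x < 1 / 2)} ×ˢ
          ball (0 : Fin m → ℂ) (1 / 2)) ∧
        (∀ x, ρ x < 1 / 2 → (x ∈ interior {x | χ x = 0} ∨ ρC x < 1 / 2) →
          ∀ t ∈ ball (0 : Fin m → ℂ) (1 / 2),
            ‖α (x, t) - t‖ ≤ δ * Λ ^ q / c * Real.exp (W x)) ∧
        (∀ x, ρ x < 1 / 2 → (x ∈ interior {x | χ x = 1} ∨ ρC x < 1 / 2) →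
          ∀ t ∈ ball (0 : Fin m → ℂ) (1 / 2),
            ‖β (x, t) - t‖ ≤ δ * Λ ^ q / c * Real.exp (W x)) ∧
        (∀ x, ρ x < 1 / 2 → ρC x < 1 / 2 → ∀ t ∈ ball (0 : Fin m → ℂ) (1 / 2),
          γ (x, α (x, t)) = β (x, t)) ∧
        ((∀ x, ρ x < 1 → ρC x < 1 → γ (x, 0) = 0) →
          (∀ x, ρ x < 1 / 2 → (x ∈ interior {x | χ x = 0} ∨ ρC x < 1 / 2) → α (x, 0) = 0) ∧
          (∀ x, ρ x < 1 / 2 → (x ∈ interior {x | χ x = 1} ∨ ρC x < 1 / 2) → β (x, 0) = 0)) := by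
  set D : ℕ := Module.finrank ℂ E + m with hD
  refine ⟨D + 2, fun R R' hR => ?_⟩
  obtain ⟨C, hC, hsplit⟩ := split_vec E m (D + 2) (by omega) R R' hR
  set C1 : ℝ := max C 1 with hC1
  have hC11 : 1 ≤ C1 := le_max_right _ _
  have hCC1 : C ≤ C1 := le_max_left _ _
  set K : ℝ := 2 ^ (3 * D + 9) * (2 ^ (D + 2) * C1) with hK
  have hKpos : 0 < K := by positivity
  refine ⟨D + 1, 1 / K, by positivity, ?_⟩
  intro Λ ρ ρC W χ hΛ hρ hsub hρC hW hW0 hχ hχ01 dρ dρC dW dχ hov γ δ hδ hδΛ hγ hγδ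
  have hΛ0 : 0 < Λ := by linarith
  have hΛ1 : 1 ≤ Λ ^ (D + 1) := one_le_pow₀ hΛ
  set w : E → ℝ := fun x => min 1 (Real.exp (W x / 2)) with hw
  have hw0 : ∀ x, 0 < w x := fun x => lt_min one_pos (Real.exp_pos _)
  have hw1 : ∀ x, w x ≤ 1 := fun x => min_le_left _ _
  have hwW : ∀ x ∈ ball (0 : E) R', w x = Real.exp (W x / 2) := by
    intro x hx
    refine min_eq_right ?_
    rw [Real.exp_le_one_iff]
    have := hW0 x hx
    linarith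
  have hballR : ∀ (side s : ℝ) (z : E × (Fin m → ℂ)), 0 ≤ s → z ∈ spDom m ρ ρC χ side s →
      z.1 ∈ closedBall (0 : E) R := by
    intro side s z hs hz
    exact hsub (by show ρ z.1 ≤ 1; linarith [hz.1])
  have hball : ∀ (side s : ℝ) (z : E × (Fin m → ℂ)), 0 ≤ s → z ∈ spDom m ρ ρC χ side s →
      z.1 ∈ ball (0 : E) R' := fun side s z hs hz => closedBall_subset_ball hR (hballR side s z hs hz)
  have hdisj : ∀ x, x ∈ interior {x | χ x = 0} → x ∈ interior {x | χ x = 1} → False := by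
    intro x h0 h1
    have h2 : x ∈ {x | χ x = 0} := interior_subset h0
    have h3 : x ∈ {x | χ x = 1} := interior_subset h1
    rw [mem_ofPred_eq] at h2 h3
    rw [h2] at h3
    norm_num at h3
  have hint : ∀ (s : ℝ) (z : E × (Fin m → ℂ)), z ∈ spDom m ρ ρC χ 0 s ∩ spDom m ρ ρC χ 1 s →
      ρC z.1 < 1 - s / 2 := by
    rintro s z ⟨⟨_, h1, _⟩, ⟨_, h2, _⟩⟩
    rcases h1 with h1 | h1
    · rcases h2 with h2 | h2
      · exact (hdisj _ h1 h2).elim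
      · exact h2
    · exact h1
  have hshrink : ∀ (side s s' : ℝ) (z : E) (ζ ζ' : Fin m → ℂ), 0 ≤ s → s ≤ s' → s' ≤ 1 →
      (z, ζ) ∈ spDom m ρ ρC χ side s' → ‖ζ' - ζ‖ ≤ 1 / 2 * (s' - s) →
        (z, ζ') ∈ spDom m ρ ρC χ side s := by
    rintro side s s' z ζ ζ' _ hss _ ⟨h1, h2, h3⟩ hn
    simp only at h1 h2 h3
    refine ⟨?_, ?_, ?_⟩
    · show ρ z < 1 - s / 2
      linarith
    · show z ∈ interior {x | χ x = side} ∨ ρC z < 1 - s / 2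
      rcases h2 with h2 | h2
      · exact Or.inl h2
      · exact Or.inr (by linarith)
    · show ζ' ∈ ball (0 : Fin m → ℂ) (1 - s / 2)
      rw [mem_ball_zero_iff] at h3 ⊢
      have h4 : ζ' = (ζ' - ζ) + ζ := by abel
      have h5 : ‖ζ'‖ ≤ ‖ζ' - ζ‖ + ‖ζ‖ := by
        conv_lhs => rw [h4]
        exact norm_add_le _ _
      linarith
  have hstar : ∀ (side s : ℝ) (z : E) (ζ : Fin m → ℂ), 0 ≤ s → s ≤ 1 →
      (z, ζ) ∈ spDom m ρ ρC χ side s → (z, 0) ∈ spDom m ρ ρC χ side s := by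
    rintro side s z ζ _ hs ⟨h1, h2, _⟩
    refine ⟨h1, h2, ?_⟩
    show (0 : Fin m → ℂ) ∈ ball (0 : Fin m → ℂ) (1 - s / 2)
    exact mem_ball_self (by linarith)
  have hscale : ApproxScale (fun s => spDom m ρ ρC χ 0 s) (fun s => spDom m ρ ρC χ 1 s)
      (fun x => w x ^ (D + 2)) (fun x => w x ^ 2) (1 / 2) (C1 * Λ ^ (D + 1)) D := by
    refine ⟨fun s hs _ => NgW_open m hR hρ hsub hρC 0 hs,
      fun s hs _ => NgW_open m hR hρ hsub hρC 1 hs, ?_, ?_, fun s s' z ζ ζ' => hshrink 0 s s' z ζ ζ',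
      fun s s' z ζ ζ' => hshrink 1 s s' z ζ ζ', fun s z ζ => hstar 0 s z ζ,
      fun s z ζ => hstar 1 s z ζ, ?_⟩
    · intro z
      refine ⟨by have := hw0 z; positivity, ?_, pow_le_one₀ (hw0 z).le (hw1 z)⟩
      exact pow_le_pow_of_le_one (hw0 z).le (hw1 z) (by omega)
    · have hprop : ProperSpace E := FiniteDimensional.proper ℂ E
      rcases (closedBall (0 : E) R).eq_empty_or_nonempty with he | hne
      · refine ⟨1, one_pos, fun z ζ hz => ?_⟩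
        have h1 := hballR 0 0 (z, ζ) le_rfl hz.1
        rw [he] at h1
        exact h1.elim
      · have hcont : ContinuousOn (fun x => w x ^ (D + 2)) (closedBall (0 : E) R) := by
          have h1 : ContinuousOn W (closedBall (0 : E) R) :=
            hW.smooth.continuousOn.mono (closedBall_subset_ball hR)
          have h2 : ContinuousOn w (closedBall (0 : E) R) :=
            ContinuousOn.inf continuousOn_const ((h1.div_const 2).rexp)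
          exact h2.pow _
        obtain ⟨x0, _, hx0⟩ := (isCompact_closedBall (0 : E) R).exists_isMinOn hne hcont
        refine ⟨w x0 ^ (D + 2), pow_pos (hw0 _) _, fun z ζ hz => ?_⟩
        exact hx0 (hballR 0 0 (z, ζ) le_rfl hz.1)
    · intro s s' hs hss hs' c κ τ hκ hτ hc hcb
      obtain ⟨a, b, ha, hb, hab, hbb, hba⟩ := hsplit Λ ρ ρC W χ hΛ hρ hsub hρC hW hW0 hχ hχ01
        dρ dρC dW dχ hov s s' hs hss hs' c κ τ hκ hτ hc (by
          rintro ⟨z, ζ⟩ hz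
          have h1 := hcb z ζ hz
          have h2 := hwW z (hball 0 s (z, ζ) hs hz.1)
          rw [h2] at h1
          exact h1)
      have hfin : ∀ z : E, z ∈ ball (0 : E) R' →
          C * Λ ^ (Module.finrank ℂ E + m + 1) / (s' - s) ^ (Module.finrank ℂ E + m) * κ *
            Real.exp (W z / 2) ^ (D + 2 - (Module.finrank ℂ E + m)) ≤
          C1 * Λ ^ (D + 1) / (s' - s) ^ D * κ * w z ^ 2 := by
        intro z hz
        rw [hwW z hz, ← hD, show D + 2 - D = 2 by omega]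
        have h1 : 0 < s' - s := by linarith
        gcongr
      refine ⟨a, b, ha.differentiableOn, hb.differentiableOn, ?_, ?_, ?_⟩
      · intro z ζ hz
        exact (hab (z, ζ) hz).trans (hfin z (hball 0 s' (z, ζ) (by linarith) hz))
      · intro z ζ hz
        exact (hbb (z, ζ) hz).trans (hfin z (hball 1 s' (z, ζ) (by linarith) hz))
      · exact fun x hx => hba x hx
  have hC2 : 0 < C1 * Λ ^ (D + 1) := by positivity
  have hs2 := hscale.splitScale (by norm_num) hC2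
  have hbig : 1 ≤ 2 ^ (D + 2) * (C1 * Λ ^ (D + 1)) := by
    have h1 : (1 : ℝ) ≤ 2 ^ (D + 2) := one_le_pow₀ (by norm_num)
    have h2 : 1 ≤ C1 * Λ ^ (D + 1) := by nlinarith
    nlinarith
  have hΛp : 0 < Λ ^ (D + 1) := by positivity
  have hsmall : δ * (2 ^ (3 * D + 8) * (2 ^ (D + 2) * (C1 * Λ ^ (D + 1)))) ≤ 1 / 2 := by
    rw [le_div_iff₀ hKpos] at hδΛ
    have h1 : δ * Λ ^ (D + 1) * K
        = 2 * (δ * (2 ^ (3 * D + 8) * (2 ^ (D + 2) * (C1 * Λ ^ (D + 1))))) := by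
      rw [hK, show 3 * D + 9 = (3 * D + 8) + 1 by ring, pow_succ (2 : ℝ) (3 * D + 8)]
      ring
    rw [h1] at hδΛ
    linarith
  have hdom0 : ∀ z ∈ spDom m ρ ρC χ 0 0 ∩ spDom m ρ ρC χ 1 0, ρ z.1 < 1 ∧ ρC z.1 < 1 ∧
      z.2 ∈ ball (0 : Fin m → ℂ) 1 := by
    intro z hz
    have h1 := hint 0 z hz
    have h2 := hz.1.1
    have h3 := hz.1.2.2
    rw [zero_div, sub_zero] at h1 h2 h3
    exact ⟨h2, h1, h3⟩
  obtain ⟨α, β, hα, hβ, hαb, hβb, hαβ, hzero⟩ := hs2.nonlinear (by norm_num) (by norm_num) hbig hδ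
    hsmall (γ := γ) (hγ.mono fun z hz => ⟨⟨(hdom0 z hz).1, (hdom0 z hz).2.1⟩, (hdom0 z hz).2.2⟩)
    (by
      intro z ζ hz
      have h1 := hdom0 (z, ζ) hz
      have h2 := hγδ z h1.1 h1.2.1 ζ h1.2.2
      rw [← hwW z (hball 0 0 (z, ζ) le_rfl hz.1)] at h2
      exact h2)
  have hdom1 : ∀ (side : ℝ) (x : E) (t : Fin m → ℂ), ρ x < 1 / 2 →
      (x ∈ interior {x | χ x = side} ∨ ρC x < 1 / 2) → t ∈ ball (0 : Fin m → ℂ) (1 / 2) →
      (x, t) ∈ spDom m ρ ρC χ side 1 := by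
    intro side x t h1 h2 h3
    have e : (1 : ℝ) - 1 / 2 = 1 / 2 := by norm_num
    refine ⟨?_, ?_, ?_⟩
    · rw [e]; exact h1
    · rw [e]; exact h2
    · rw [e]; exact h3
  have hout : ∀ x ∈ ball (0 : E) R', 2 ^ (2 * D + 2) * (2 ^ (D + 2) * (C1 * Λ ^ (D + 1))) * δ *
      w x ^ 2 ≤ δ * Λ ^ (D + 1) / (1 / K) * Real.exp (W x) := by
    intro x hx
    have h1 : Real.exp (W x) = w x ^ 2 := by
      rw [hwW x hx, ← Real.exp_nat_mul]
      congr 1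
      push_cast
      ring
    rw [h1]
    refine mul_le_mul_of_nonneg_right ?_ (by positivity)
    have h2 : δ * Λ ^ (D + 1) / (1 / K) = δ * Λ ^ (D + 1) * K := by
      rw [div_div_eq_mul_div, div_one]
    rw [h2, hK]
    have h3 : (2 : ℝ) ^ (2 * D + 2) ≤ 2 ^ (3 * D + 9) :=
      pow_le_pow_right₀ (by norm_num) (by omega)
    have h4 : 0 ≤ δ * Λ ^ (D + 1) * (2 ^ (D + 2) * C1) := by positivity
    calc 2 ^ (2 * D + 2) * (2 ^ (D + 2) * (C1 * Λ ^ (D + 1))) * δ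
        = 2 ^ (2 * D + 2) * (δ * Λ ^ (D + 1) * (2 ^ (D + 2) * C1)) := by ring
      _ ≤ 2 ^ (3 * D + 9) * (δ * Λ ^ (D + 1) * (2 ^ (D + 2) * C1)) :=
          mul_le_mul_of_nonneg_right h3 h4
      _ = _ := by ring
  have hz1 : (0 : Fin m → ℂ) ∈ ball (0 : Fin m → ℂ) (1 / 2) := mem_ball_self (by norm_num)
  refine ⟨α, β, ?_, ?_, ?_, ?_, ?_, ?_⟩
  · refine hα.mono ?_
    rintro ⟨x, t⟩ ⟨⟨h1, h2⟩, h3⟩
    exact hdom1 0 x t h1 h2 h3
  · refine hβ.mono ?_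
    rintro ⟨x, t⟩ ⟨⟨h1, h2⟩, h3⟩
    exact hdom1 1 x t h1 h2 h3
  · intro x h1 h2 t h3
    have h4 := hdom1 0 x t h1 h2 h3
    exact (hαb x t h4).1.trans (hout x (hball 0 1 (x, t) zero_le_one h4))
  · intro x h1 h2 t h3
    have h4 := hdom1 1 x t h1 h2 h3
    exact (hβb x t h4).1.trans (hout x (hball 1 1 (x, t) zero_le_one h4))
  · intro x h1 h2 t h3
    exact hαβ x t ⟨hdom1 0 x t h1 (Or.inr h2) h3, hdom1 1 x t h1 (Or.inr h2) h3⟩
  · intro h0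
    have h1 := hzero (fun z hz => h0 z (hdom0 (z, 0) hz).1 (hdom0 (z, 0) hz).2.1)
    exact ⟨fun x h2 h3 => h1.1 x (hdom1 0 x 0 h2 h3 hz1),
      fun x h2 h3 => h1.2 x (hdom1 1 x 0 h2 h3 hz1)⟩

/-- weighted Cartan splitting. The exponent `N` depends only on `E` and `m`. -/
theorem ngW (E : Type) [NormedAddCommGroup E] [NormedSpace ℂ E] [FiniteDimensional ℂ E] (m : ℕ) :
    ∃ N : ℕ, ∀ R R' : ℝ, R < R' → ∃ q : ℕ, ∃ c : ℝ, 0 < c ∧
      ∀ (Λ : ℝ) (ρ ρC W χ : E → ℝ), 1 ≤ Λ → Psh ρ → {x | ρ x ≤ 1} ⊆ closedBall (0 : E) R →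
      PshOn ρC (ball (0 : E) R') → PshOn W (ball (0 : E) R') →
      (∀ x ∈ ball (0 : E) R', W x ≤ 0) →
      ContDiff ℝ ((⊤ : ℕ∞) : WithTop ℕ∞) χ → (∀ x, χ x ∈ Icc (0 : ℝ) 1) →
      (∀ x ∈ ball (0 : E) R', ‖fderiv ℝ ρ x‖ ≤ Λ * Real.exp (-(W x) / 2)) →
      (∀ x ∈ ball (0 : E) R', ‖fderiv ℝ ρC x‖ ≤ Λ * Real.exp (-(W x) / 2)) →
      (∀ x ∈ ball (0 : E) R', ‖fderiv ℝ (fun y => Real.exp (W y / 2)) x‖ ≤ Λ) →
      (∀ x ∈ ball (0 : E) R', ‖fderiv ℝ χ x‖ ≤ Λ) →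
      (∀ x, ρ x ≤ 1 → x ∉ interior {x | χ x = 0} → x ∉ interior {x | χ x = 1} → ρC x ≤ 0) →
      ∀ (γ : E × (Fin m → ℂ) → (Fin m → ℂ)) (δ : ℝ), 0 ≤ δ → δ * Λ ^ q ≤ c →
      DifferentiableOn ℂ γ ({x | ρ x < 1 ∧ ρC x < 1} ×ˢ ball (0 : Fin m → ℂ) 1) →
      (∀ x, ρ x < 1 → ρC x < 1 → ∀ t ∈ ball (0 : Fin m → ℂ) 1,
        ‖γ (x, t) - t‖ ≤ δ * Real.exp (W x / 2) ^ N) →
      ∃ α β : E × (Fin m → ℂ) → (Fin m → ℂ),
        DifferentiableOn ℂ α ({x | ρ x < 1 / 2 ∧ (x ∈ interior {x | χ x = 0} ∨ ρC x < 1 / 2)} ×ˢ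
          ball (0 : Fin m → ℂ) (1 / 2)) ∧
        DifferentiableOn ℂ β ({x | ρ x < 1 / 2 ∧ (x ∈ interior {x | χ x = 1} ∨ ρC x < 1 / 2)} ×ˢ
          ball (0 : Fin m → ℂ) (1 / 2)) ∧
        (∀ x, ρ x < 1 / 2 → (x ∈ interior {x | χ x = 0} ∨ ρC x < 1 / 2) →
          ∀ t ∈ ball (0 : Fin m → ℂ) (1 / 2),
            ‖α (x, t) - t‖ ≤ δ * Λ ^ q / c * Real.exp (W x)) ∧
        (∀ x, ρ x < 1 / 2 → (x ∈ interior {x | χ x = 1} ∨ ρC x < 1 / 2) →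
          ∀ t ∈ ball (0 : Fin m → ℂ) (1 / 2),
            ‖β (x, t) - t‖ ≤ δ * Λ ^ q / c * Real.exp (W x)) ∧
        (∀ x, ρ x < 1 / 2 → ρC x < 1 / 2 → ∀ t ∈ ball (0 : Fin m → ℂ) (1 / 2),
          γ (x, α (x, t)) = β (x, t)) := by
  obtain ⟨N, hN⟩ := ngW_core E m
  refine ⟨N, fun R R' hR => ?_⟩
  obtain ⟨q, c, hc, h⟩ := hN R R' hR
  refine ⟨q, c, hc, ?_⟩
  intro Λ ρ ρC W χ h1 h2 h3 h4 h5 h6 h7 h8 h9 h10 h11 h12 h13 γ δ h14 h15 h16 h17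
  obtain ⟨α, β, g1, g2, g3, g4, g5, _⟩ := h Λ ρ ρC W χ h1 h2 h3 h4 h5 h6 h7 h8 h9 h10 h11 h12 h13
    γ δ h14 h15 h16 h17
  exact ⟨α, β, g1, g2, g3, g4, g5⟩

theorem NgW_bound {E : Type} [NormedAddCommGroup E] [NormedSpace ℂ E] [FiniteDimensional ℂ E]
    {f : E → ℝ} (hf : ContDiff ℝ ((⊤ : ℕ∞) : WithTop ℕ∞) f) (r : ℝ) :
    ∃ Λ : ℝ, ∀ x ∈ ball (0 : E) r, ‖fderiv ℝ f x‖ ≤ Λ := by
  have hprop : ProperSpace E := FiniteDimensional.proper ℂ E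
  have h1 : Continuous (fderiv ℝ f) := hf.continuous_fderiv (by simp)
  obtain ⟨Λ, hΛ⟩ := (isCompact_closedBall (0 : E) r).exists_bound_of_continuousOn
    (f := fun x => fderiv ℝ f x) h1.continuousOn
  exact ⟨Λ, fun x hx => hΛ x (ball_subset_closedBall hx)⟩

/-- Cartan splitting for a pair of compact sets whose union and intersection are PshConvex, with
neighbourhoods independent of the map and vanishing on the zero section. -/
theorem ngPair_core {E : Type} [NormedAddCommGroup E] [NormedSpace ℂ E] [FiniteDimensional ℂ E]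
    {m : ℕ} {D B U : Set E} (hD : IsCompact D) (hB : IsCompact B) (hU : IsOpen U) (hDB : D ∩ B ⊆ U)
    (hpu : PshConvex (D ∪ B)) (hpi : PshConvex (D ∩ B)) {η : ℝ} (hη : 0 < η) :
    ∃ (δ0 : ℝ) (UD UB : Set E), 0 < δ0 ∧ IsOpen UD ∧ IsOpen UB ∧ D ⊆ UD ∧ B ⊆ UB ∧ UD ∩ UB ⊆ U ∧
      ∀ γ : E × (Fin m → ℂ) → (Fin m → ℂ),
      DifferentiableOn ℂ γ (U ×ˢ ball (0 : Fin m → ℂ) 1) →
      (∀ x ∈ U, ∀ t ∈ ball (0 : Fin m → ℂ) 1, ‖γ (x, t) - t‖ < δ0) →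
      ∃ (α β : E × (Fin m → ℂ) → (Fin m → ℂ)),
        DifferentiableOn ℂ α (UD ×ˢ ball (0 : Fin m → ℂ) (1 / 2)) ∧
        DifferentiableOn ℂ β (UB ×ˢ ball (0 : Fin m → ℂ) (1 / 2)) ∧
        (∀ x ∈ UD, ∀ t ∈ ball (0 : Fin m → ℂ) (1 / 2), ‖α (x, t) - t‖ < η) ∧
        (∀ x ∈ UB, ∀ t ∈ ball (0 : Fin m → ℂ) (1 / 2), ‖β (x, t) - t‖ < η) ∧
        (∀ x ∈ UD ∩ UB, ∀ t ∈ ball (0 : Fin m → ℂ) (1 / 2), γ (x, α (x, t)) = β (x, t)) ∧
        ((∀ x ∈ U, γ (x, 0) = 0) → (∀ x ∈ UD, α (x, 0) = 0) ∧ (∀ x ∈ UB, β (x, 0) = 0)) := by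
  classical
  have hprop : ProperSpace E := FiniteDimensional.proper ℂ E
  obtain ⟨ρC, hρC, hρCc, hρC0, hρCU⟩ := hpi.2 U hU hDB
  have hU'o : IsOpen {x | ρC x < 0} := isOpen_lt hρC.smooth.continuous continuous_const
  have hDc : IsCompact (D \ {x | ρC x < 0}) := hD.diff hU'o
  have hBc : IsCompact (B \ {x | ρC x < 0}) := hB.diff hU'o
  have hdis : Disjoint (D \ {x | ρC x < 0}) (B \ {x | ρC x < 0}) := by
    rw [Set.disjoint_left]
    rintro x ⟨h1, h2⟩ ⟨h3, _⟩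
    exact h2 (hρC0 ⟨h1, h3⟩)
  obtain ⟨δ, hδ, hδd⟩ := hdis.exists_cthickenings hDc hBc.isClosed
  have : FiniteDimensional ℝ E := FiniteDimensional.complexToReal E
  obtain ⟨χ, hχs, hχr, hχ0, hχ1⟩ : ∃ χ : E → ℝ, ContDiff ℝ ((⊤ : ℕ∞) : WithTop ℕ∞) χ ∧
      (∀ x, χ x ∈ Icc (0 : ℝ) 1) ∧ (∀ x ∈ cthickening δ (D \ {x | ρC x < 0}), χ x = 0) ∧
      (∀ x ∈ cthickening δ (B \ {x | ρC x < 0}), χ x = 1) := by
    obtain ⟨f, hf1, hf2, hf3⟩ := exists_contMDiffMap_zero_one_of_isClosed (n := ⊤)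
      (modelWithCornersSelf ℝ E) (M := E)
      (isClosed_cthickening (δ := δ) (E := D \ {x | ρC x < 0}))
      (isClosed_cthickening (δ := δ) (E := B \ {x | ρC x < 0})) hδd
    refine ⟨f, f.contMDiff.contDiff, hf3, fun x hx => hf1 hx, fun x hx => hf2 hx⟩
  have hN0 : D \ {x | ρC x < 0} ⊆ interior {x | χ x = 0} := by
    refine (self_subset_thickening hδ _).trans ?_
    refine interior_maximal ?_ isOpen_thickening
    exact fun x hx => hχ0 x (thickening_subset_cthickening _ _ hx)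
  have hN1 : B \ {x | ρC x < 0} ⊆ interior {x | χ x = 1} := by
    refine (self_subset_thickening hδ _).trans ?_
    refine interior_maximal ?_ isOpen_thickening
    exact fun x hx => hχ1 x (thickening_subset_cthickening _ _ hx)
  obtain ⟨ρ, hρ, hρc, hρ0, hρU⟩ := hpu.2
    (interior {x | χ x = 0} ∪ interior {x | χ x = 1} ∪ {x | ρC x < 0})
    ((isOpen_interior.union isOpen_interior).union hU'o) (by
      rintro x (hx | hx)
      · by_cases h : ρC x < 0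
        · exact Or.inr h
        · exact Or.inl (Or.inl (hN0 ⟨hx, h⟩))
      · by_cases h : ρC x < 0
        · exact Or.inr h
        · exact Or.inl (Or.inr (hN1 ⟨hx, h⟩)))
  obtain ⟨R, hR⟩ := hρc.isBounded.subset_closedBall (0 : E)
  obtain ⟨N, hN⟩ := ngW_core E m
  obtain ⟨q, c, hc, hng⟩ := hN R (R + 1) (by linarith)
  obtain ⟨Λ1, hΛ1⟩ := NgW_bound hρ.smooth (R + 1)
  obtain ⟨Λ2, hΛ2⟩ := NgW_bound hρC.smooth (R + 1)
  obtain ⟨Λ3, hΛ3⟩ := NgW_bound hχs (R + 1)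
  set Λ : ℝ := max 1 (max Λ1 (max Λ2 Λ3)) with hΛ
  have hΛ0 : 1 ≤ Λ := le_max_left _ _
  have hΛ1' : Λ1 ≤ Λ := (le_max_left _ _).trans (le_max_right _ _)
  have hΛ2' : Λ2 ≤ Λ := ((le_max_left _ _).trans (le_max_right _ _)).trans (le_max_right _ _)
  have hΛ3' : Λ3 ≤ Λ := ((le_max_right _ _).trans (le_max_right _ _)).trans (le_max_right _ _)
  have hΛq : 0 < Λ ^ q := by positivity
  have hdisj : ∀ x, x ∈ interior {x | χ x = 0} → x ∈ interior {x | χ x = 1} → False := by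
    intro x h0 h1
    have h2 : x ∈ {x | χ x = 0} := interior_subset h0
    have h3 : x ∈ {x | χ x = 1} := interior_subset h1
    rw [mem_ofPred_eq] at h2 h3
    rw [h2] at h3
    norm_num at h3
  have hopen : ∀ side : ℝ,
      IsOpen {x | ρ x < 1 / 2 ∧ (x ∈ interior {x | χ x = side} ∨ ρC x < 1 / 2)} := by
    intro side
    exact (isOpen_lt hρ.smooth.continuous continuous_const).inter
      (isOpen_interior.union (isOpen_lt hρC.smooth.continuous continuous_const))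
  refine ⟨min (c / Λ ^ q) (η * c / (2 * Λ ^ q)),
    {x | ρ x < 1 / 2 ∧ (x ∈ interior {x | χ x = 0} ∨ ρC x < 1 / 2)},
    {x | ρ x < 1 / 2 ∧ (x ∈ interior {x | χ x = 1} ∨ ρC x < 1 / 2)},
    lt_min (by positivity) (by positivity), hopen 0, hopen 1, ?_, ?_, ?_, ?_⟩
  · intro x hx
    have h1 : ρ x < 0 := hρ0 (Or.inl hx)
    refine ⟨by linarith, ?_⟩
    by_cases h : ρC x < 0
    · exact Or.inr (by linarith)
    · exact Or.inl (hN0 ⟨hx, h⟩)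
  · intro x hx
    have h1 : ρ x < 0 := hρ0 (Or.inr hx)
    refine ⟨by linarith, ?_⟩
    by_cases h : ρC x < 0
    · exact Or.inr (by linarith)
    · exact Or.inl (hN1 ⟨hx, h⟩)
  · rintro x ⟨⟨_, h1⟩, ⟨_, h2⟩⟩
    refine hρCU ?_
    show ρC x ≤ 1
    rcases h1 with h1 | h1
    · rcases h2 with h2 | h2
      · exact (hdisj x h1 h2).elim
      · linarith
    · linarith
  · intro γ hγ hγδ
    set δ0 : ℝ := min (c / Λ ^ q) (η * c / (2 * Λ ^ q)) with hδ0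
    have hδ0pos : 0 < δ0 := lt_min (by positivity) (by positivity)
    have hδ01 : δ0 * Λ ^ q ≤ c := by
      have h1 : δ0 ≤ c / Λ ^ q := min_le_left _ _
      rwa [le_div_iff₀ hΛq] at h1
    have hδ02 : δ0 * Λ ^ q / c * Real.exp 0 < η := by
      rw [Real.exp_zero, mul_one, div_lt_iff₀ hc]
      have h1 : δ0 ≤ η * c / (2 * Λ ^ q) := min_le_right _ _
      rw [le_div_iff₀ (by positivity)] at h1
      have h2 : 0 < η * c := by positivity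
      linarith
    have hsub : ∀ x, ρ x < 1 → ρC x < 1 → x ∈ U := fun x _ h2 => hρCU (by show ρC x ≤ 1; linarith)
    have hlevi0 : ∀ x v : E, levi (fun _ : E => (0 : ℝ)) x v = 0 := by
      intro x v
      simp [levi, D2]
    have e0 : Real.exp (-(0 : ℝ) / 2) = 1 := by norm_num
    obtain ⟨α, β, g1, g2, g3, g4, g5, g6⟩ := hng Λ ρ ρC (fun _ => 0) χ hΛ0 hρ hR
      ⟨hρC.smooth.contDiffOn, fun x _ v => hρC.nonneg x v⟩
      ⟨contDiffOn_const, fun x _ v => (hlevi0 x v).ge⟩ (fun x _ => le_rfl) hχs hχr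
      (fun x hx => by rw [e0, mul_one]; exact (hΛ1 x hx).trans hΛ1')
      (fun x hx => by rw [e0, mul_one]; exact (hΛ2 x hx).trans hΛ2')
      (fun x _ => by
        have : fderiv ℝ (fun _ : E => Real.exp ((0 : ℝ) / 2)) x = 0 := fderiv_const_apply _
        rw [this, norm_zero]
        linarith)
      (fun x hx => (hΛ3 x hx).trans hΛ3')
      (fun x hx h0 h1 => by
        rcases hρU hx with (h2 | h2) | h2
        · exact (h0 h2).elim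
        · exact (h1 h2).elim
        · exact le_of_lt h2)
      γ δ0 hδ0pos.le hδ01 (hγ.mono fun z hz => ⟨hsub _ hz.1.1 hz.1.2, hz.2⟩)
      (fun x h1 h2 t ht => by
        have h3 := hγδ x (hsub x h1 h2) t ht
        have e1 : Real.exp ((0 : ℝ) / 2) ^ N = 1 := by norm_num
        rw [e1, mul_one]
        exact h3.le)
    refine ⟨α, β, g1, g2, ?_, ?_, ?_, ?_⟩
    · rintro x ⟨h1, h2⟩ t ht
      exact lt_of_le_of_lt (g3 x h1 h2 t ht) hδ02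
    · rintro x ⟨h1, h2⟩ t ht
      exact lt_of_le_of_lt (g4 x h1 h2 t ht) hδ02
    · rintro x ⟨⟨h1, h2⟩, ⟨_, h3⟩⟩ t ht
      refine g5 x h1 ?_ t ht
      rcases h2 with h2 | h2
      · rcases h3 with h3 | h3
        · exact (hdisj x h2 h3).elim
        · exact h3
      · exact h2
    · intro h0
      have h1 := g6 (fun x h2 h3 => h0 x (hsub x h2 h3))
      exact ⟨fun x hx => h1.1 x hx.1 hx.2, fun x hx => h1.2 x hx.1 hx.2⟩

/-- Cartan splitting for a pair of compact sets whose union and intersection are PshConvex -/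
theorem ngPair {E : Type} [NormedAddCommGroup E] [NormedSpace ℂ E] [FiniteDimensional ℂ E] {m : ℕ}
    {D B U : Set E} (hD : IsCompact D) (hB : IsCompact B) (hU : IsOpen U) (hDB : D ∩ B ⊆ U)
    (hpu : PshConvex (D ∪ B)) (hpi : PshConvex (D ∩ B)) {η : ℝ} (hη : 0 < η) :
    ∃ δ0 > 0, ∀ γ : E × (Fin m → ℂ) → (Fin m → ℂ),
      DifferentiableOn ℂ γ (U ×ˢ ball (0 : Fin m → ℂ) 1) →
      (∀ x ∈ U, ∀ t ∈ ball (0 : Fin m → ℂ) 1, ‖γ (x, t) - t‖ < δ0) →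
      ∃ (UD UB : Set E) (α β : E × (Fin m → ℂ) → (Fin m → ℂ)), IsOpen UD ∧ IsOpen UB ∧ D ⊆ UD ∧
        B ⊆ UB ∧ UD ∩ UB ⊆ U ∧
        DifferentiableOn ℂ α (UD ×ˢ ball (0 : Fin m → ℂ) (1 / 2)) ∧
        DifferentiableOn ℂ β (UB ×ˢ ball (0 : Fin m → ℂ) (1 / 2)) ∧
        (∀ x ∈ UD, ∀ t ∈ ball (0 : Fin m → ℂ) (1 / 2), ‖α (x, t) - t‖ < η) ∧
        (∀ x ∈ UB, ∀ t ∈ ball (0 : Fin m → ℂ) (1 / 2), ‖β (x, t) - t‖ < η) ∧
        (∀ x ∈ UD ∩ UB, ∀ t ∈ ball (0 : Fin m → ℂ) (1 / 2), γ (x, α (x, t)) = β (x, t)) := by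
  obtain ⟨δ0, UD, UB, h1, h2, h3, h4, h5, h6, h7⟩ := ngPair_core (m := m) hD hB hU hDB hpu hpi hη
  refine ⟨δ0, h1, fun γ hγ hγδ => ?_⟩
  obtain ⟨α, β, g1, g2, g3, g4, g5, _⟩ := h7 γ hγ hγδ
  exact ⟨UD, UB, α, β, h2, h3, h4, h5, h6, g1, g2, g3, g4, g5⟩

end OkaP
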