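import Pool.Agent.H.MP_ceb9a9.Geom
import Pool.Agent.H.MP_ceb9a9.NgW

/-!
# MP_ceb9a9: Cartan splitting for a pair of compact sets (statement)

Same as `ngPair` of NgW.lean, with the additional clause that the zero section is preserved.
-/

set_option autoImplicit false

namespace OkaP

open Set Metric Topology

/-- Cartan splitting for a pair of compact sets whose union and intersection are PshConvex -/
theorem ng_pair {E : Type} [NormedAddCommGroup E] [NormedSpace ℂ E] [FiniteDimensional ℂ E] {m : ℕ}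
    {D B U : Set E} (hD : IsCompact D) (hB : IsCompact B) (hU : IsOpen U) (hDB : D ∩ B ⊆ U)
    (hpu : PshConvex (D ∪ B)) (hpi : PshConvex (D ∩ B)) {η : ℝ} (hη : 0 < η) :
    ∃ δ0 > 0, ∀ γ : E × (Fin m → ℂ) → (Fin m → ℂ),
      DifferentiableOn ℂ γ (U ×ˢ ball (0 : Fin m → ℂ) 1) →
      (∀ x ∈ U, ∀ t ∈ ball (0 : Fin m → ℂ) 1, ‖γ (x, t) - t‖ < δ0) →
      ∃ (UD UB : Set E) (α β : E × (Fin m → ℂ) → (Fin m → ℂ)), IsOpen UD ∧ IsOpen UB ∧ D ⊆ UD ∧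
        B ⊆ UB ∧ UD ∩ UB ⊆ U ∧
        DifferentiableOn ℂ α (UD ×ˢ ball (0 : Fin m → ℂ) (1 / 2)) ∧
        DifferentiableOn ℂ β (UB ×ˢ ball (0 : Fin m → ℂ) (1 / 2)) ∧
        (∀ x ∈ UD, ∀ t ∈ ball (0 : Fin m → ℂ) (1 / 2), ‖α (x, t) - t‖ < η) ∧
        (∀ x ∈ UB, ∀ t ∈ ball (0 : Fin m → ℂ) (1 / 2), ‖β (x, t) - t‖ < η) ∧
        (∀ x ∈ UD ∩ UB, ∀ t ∈ ball (0 : Fin m → ℂ) (1 / 2), γ (x, α (x, t)) = β (x, t)) ∧
        ((∀ x ∈ U, γ (x, 0) = 0) → (∀ x ∈ UD, α (x, 0) = 0) ∧ (∀ x ∈ UB, β (x, 0) = 0)) := by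
  obtain ⟨δ0, UD, UB, h1, h2, h3, h4, h5, h6, h7⟩ := ngPair_core (m := m) hD hB hU hDB hpu hpi hη
  refine ⟨δ0, h1, fun γ hγ hγδ => ?_⟩
  obtain ⟨α, β, g1, g2, g3, g4, g5, g6⟩ := h7 γ hγ hγδ
  exact ⟨UD, UB, α, β, h2, h3, h4, h5, h6, g1, g2, g3, g4, g5, g6⟩

end OkaP
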