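import Pool.Agent.H.MP_ceb9a9.BumpCap
import Pool.Agent.H.MP_ceb9a9.NgPair
import Pool.Agent.H.MP_ceb9a9.EtOpen

/-!
# MP_ceb9a9: bump lemma, step 2: gluing, the new core map

Proof.  `bump_cap` for `C = D ∩ B` gives `r1`, `UC`.  By compactness of `D` and continuity of `G` on `U0 ×ˢ ball 0 r`
there is `η1 ∈ (0, 1 / 16)` with `dist (G (x, v)) (G (x, 0)) < η` for `x ∈ D`, `‖v‖ ≤ r1 η1` .
`ng_pair` for the pair (first set `B`, second set `D`; note `B ∩ D = D ∩ B`, `B ∪ D = D ∪ B`), `U = UC`,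
`η = η1`, gives `δ0`.  `bump_cap` with `δ = δ0 * r1` gives `H`, `γ`.  Put `γ' (x, t) = (1 / r1) • γ (x, r1 • t)`, holomorphic on
`UC ×ˢ ball 0 1` with `‖γ' (x, t) - t‖ < δ0`.  `ng_pair` gives open `UB' ⊇ B`, `UD' ⊇ D`, `α` on `UB' ×ˢ ball 0 (1/2)`, `β` on
`UD' ×ˢ ball 0 (1/2)` with `‖α - t‖, ‖β - t‖ < η1`, `UB' ∩ UD' ⊆ UC` and `γ' (x, α (x, t)) = β (x, t)` on `UB' ∩ UD'`.
Put `U1 = UD' ∩ U0`, `U2 = UB' ∩ W`, `GD (x, t) = G (x, r1 • β (x, (1 / r1) • t))`, `r2 = r1 / 4`.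
`β' (x, t) = r1 • β (x, (1/r1) • t)` satisfies `‖β' (x, t) - t‖ < r1 η1 ≤ (r1 / 4) / 8 * 2`..: use
`etHol_of_near_id_ball` with radii `s = r1 / 4 < r1 / 2`, `δ = r1 * η1`, and `η1 ≤ 1 / 32`; so `EtHol β' U1 (r1 / 4)`, its values
lie in `ball 0 r` (`r1 / 4 + r1 / 32 < r1 < r`), and `EtHol.comp` gives `EtHol GD U1 r2`.
Let `g` be glued (`HolOn.glue`) from `GD (x, 0) = G (x, r1 • β (x, 0))` on `U1` and `H (x, r1 • α (x, 0))` on `U2`: for
`x ∈ U1 ∩ U2 ⊆ UC`, `β (x, 0) = γ' (x, α (x, 0))`, i.e. `r1 • β (x, 0) = γ (x, r1 • α (x, 0))`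
(`r1 • α (x, 0) ∈ ball 0 r1`), so `G (x, r1 • β (x, 0)) = H (x, r1 • α (x, 0))`.  `g` avoids `p` on `U2` because `H` does, and
`dist (g x) (G (x, 0)) < η` on `D` by the choice of `η1`.
-/

set_option autoImplicit false
open Set Metric Filter
open scoped Topology Manifold

noncomputable section
namespace OkaP

variable {m : ℕ} {X : Type} [MetricSpace X] [ChartedSpace (Fin m → ℂ) X]
  [IsManifold 𝓘(ℂ, Fin m → ℂ) ⊤ X]
variable {E : Type} [NormedAddCommGroup E] [NormedSpace ℂ E] [FiniteDimensional ℂ E]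

/-- the new core map after a bump -/
theorem bump_core {p : X} (hp : CAPY m p) {D B W U0 : Set E} (hD : IsCompact D) (hB : IsCompact B)
    (hW : IsOpen W) (hBW : B ⊆ W) (hU0 : IsOpen U0) (hDU : D ⊆ U0) {θ : E → E}
    (hθ : DifferentiableOn ℂ θ W) (hinj : InjOn θ W)
    (hder : ∀ x ∈ W, Function.Bijective (fderiv ℂ θ x)) (hconv : Convex ℝ (θ '' (D ∩ B)))
    (hpu : PshConvex (D ∪ B)) (hpi : PshConvex (D ∩ B)) {G : E × (Fin m → ℂ) → X} {r : ℝ}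
    (hr : 0 < r) (hG : EtHol G U0 r) (hGp : ∀ x ∈ D ∩ B, G (x, 0) ≠ p) {η : ℝ} (hη : 0 < η) :
    ∃ (U1 U2 : Set E) (GD : E × (Fin m → ℂ) → X) (r2 : ℝ) (g : E → X), IsOpen U1 ∧ IsOpen U2 ∧
      D ⊆ U1 ∧ B ⊆ U2 ∧ U2 ⊆ W ∧ 0 < r2 ∧ EtHol GD U1 r2 ∧ (∀ x ∈ U1, GD (x, 0) = g x) ∧
      HolOn m g (U1 ∪ U2) ∧ (∀ x ∈ U2, g x ≠ p) ∧ ∀ x ∈ D, dist (g x) (G (x, 0)) < η := by
  obtain ⟨r1, hr1, hr1r, UC, hUC, hCUC, hUCs, hcap⟩ := bump_cap hp (hD.inter hB) hW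
    (inter_subset_right.trans hBW) hU0 (inter_subset_left.trans hDU) hθ hinj hder hconv hr hG hGp
  -- choice of `η1`
  obtain ⟨ε, hε, hnear⟩ := map_near (f := G) (hU0.prod isOpen_ball) hG.cont
    (hD.prod (isCompact_singleton (x := (0 : Fin m → ℂ))))
    (prod_mono hDU (singleton_subset_iff.2 (mem_ball_self hr))) hη
  set η1 : ℝ := min (1 / 32) (ε / (2 * r1)) with hη1
  have hη1pos : 0 < η1 := lt_min (by norm_num) (by positivity)
  have hη1a : η1 ≤ 1 / 32 := min_le_left _ _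
  have hη1b : r1 * η1 < ε := by
    have h1 : η1 ≤ ε / (2 * r1) := min_le_right _ _
    have h2 : r1 * η1 ≤ r1 * (ε / (2 * r1)) := mul_le_mul_of_nonneg_left h1 hr1.le
    have h3 : r1 * (ε / (2 * r1)) = ε / 2 := by field_simp
    linarith
  have hsmall : ∀ x ∈ D, ∀ v : Fin m → ℂ, ‖v‖ ≤ r1 * η1 → dist (G (x, v)) (G (x, 0)) < η := by
    intro x hx v hv
    have h1 : dist ((x, (0 : Fin m → ℂ))) (x, v) < ε := by
      rw [Prod.dist_eq, dist_self, dist_zero_left]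
      exact max_lt hε (lt_of_le_of_lt hv hη1b)
    have h2 := (hnear (x, 0) ⟨hx, rfl⟩ (x, v) h1).2
    rwa [dist_comm]
  -- the splitting
  obtain ⟨δ0, hδ0, hng⟩ := ng_pair (m := m) hB hD hUC (by rw [inter_comm]; exact hCUC)
    (by rw [union_comm]; exact hpu) (by rw [inter_comm]; exact hpi) hη1pos
  obtain ⟨H, γ, hH, hHp, hγd, hγ⟩ := hcap (δ0 * r1) (by positivity)
  have hscale : ∀ t ∈ ball (0 : Fin m → ℂ) 1, r1 • t ∈ ball (0 : Fin m → ℂ) r1 := by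
    intro t ht
    rw [mem_ball_zero_iff] at ht ⊢
    rw [norm_smul, Real.norm_eq_abs, abs_of_pos hr1]
    nlinarith
  obtain ⟨UB', UD', α, β, hUB', hUD', hBU, hDUD, hUU, hα, hβ, hαn, hβn, hαβ, -⟩ :=
    hng (fun q => r1⁻¹ • γ (q.1, r1 • q.2)) (by
      refine DifferentiableOn.const_smul (hγd.comp (g := γ)
        (f := fun q : E × (Fin m → ℂ) => (q.1, r1 • q.2))
        (differentiable_fst.prodMk (differentiable_snd.const_smul r1)).differentiableOn ?_) r1⁻¹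
      rintro ⟨x, t⟩ ⟨hx, ht⟩
      exact ⟨hx, hscale t ht⟩) (by
      intro x hx t ht
      have h1 := (hγ x hx (r1 • t) (hscale t ht)).1
      have h2 : r1⁻¹ • γ (x, r1 • t) - t = r1⁻¹ • (γ (x, r1 • t) - r1 • t) := by
        rw [smul_sub, smul_smul, inv_mul_cancel₀ hr1.ne', one_smul]
      show ‖r1⁻¹ • γ (x, r1 • t) - t‖ < δ0
      rw [h2, norm_smul, norm_inv, Real.norm_eq_abs, abs_of_pos hr1, inv_mul_lt_iff₀ hr1]
      linarith)
  set U1 : Set E := UD' ∩ U0 with hU1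
  set U2 : Set E := UB' ∩ W with hU2
  have hU1o : IsOpen U1 := hUD'.inter hU0
  have hU2o : IsOpen U2 := hUB'.inter hW
  have hscale' : ∀ u ∈ ball (0 : Fin m → ℂ) (r1 / 2), r1⁻¹ • u ∈ ball (0 : Fin m → ℂ) (1 / 2) := by
    intro u hu
    rw [mem_ball_zero_iff] at hu ⊢
    rw [norm_smul, norm_inv, Real.norm_eq_abs, abs_of_pos hr1, inv_mul_lt_iff₀ hr1]
    linarith
  let β' : E × (Fin m → ℂ) → (Fin m → ℂ) := fun q => r1 • β (q.1, r1⁻¹ • q.2)
  have hβ'n : ∀ x ∈ U1, ∀ u ∈ ball (0 : Fin m → ℂ) (r1 / 2), ‖β' (x, u) - u‖ ≤ r1 * η1 := by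
    intro x hx u hu
    have h1 := hβn x hx.1 (r1⁻¹ • u) (hscale' u hu)
    have h2 : β' (x, u) - u = r1 • (β (x, r1⁻¹ • u) - r1⁻¹ • u) := by
      show r1 • β (x, r1⁻¹ • u) - u = _
      rw [smul_sub, smul_smul, mul_inv_cancel₀ hr1.ne', one_smul]
    rw [h2, norm_smul, Real.norm_eq_abs, abs_of_pos hr1]
    exact mul_le_mul_of_nonneg_left h1.le hr1.le
  have hβ'E : EtHol β' U1 (r1 / 4) := by
    refine etHol_of_near_id_ball (s := r1 / 4) (r := r1 / 2) (δ := r1 * η1) (by linarith)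
      (by positivity) (by nlinarith) hU1o ?_ hβ'n
    refine DifferentiableOn.const_smul (hβ.comp (g := β)
      (f := fun q : E × (Fin m → ℂ) => (q.1, r1⁻¹ • q.2))
      (differentiable_fst.prodMk (differentiable_snd.const_smul r1⁻¹)).differentiableOn ?_) r1
    rintro ⟨x, t⟩ ⟨hx, ht⟩
    exact ⟨hx.1, hscale' t ht⟩
  have h0half : (0 : Fin m → ℂ) ∈ ball (0 : Fin m → ℂ) (1 / 2) := mem_ball_self (by norm_num)
  have h0r : (0 : Fin m → ℂ) ∈ ball (0 : Fin m → ℂ) (r1 / 2) := mem_ball_self (by positivity)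
  have hGD : EtHol (fun q : E × (Fin m → ℂ) => G (q.1, β' q)) U1 (r1 / 4) := by
    refine (hG.mono (inter_subset_right : U1 ⊆ U0) le_rfl).comp hβ'E ?_
    intro x hx u hu
    rw [mem_ball_zero_iff] at hu ⊢
    have h1 := hβ'n x hx u (by rw [mem_ball_zero_iff]; linarith)
    have h2 : ‖β' (x, u)‖ ≤ ‖β' (x, u) - u‖ + ‖u‖ := by
      have := norm_add_le (β' (x, u) - u) u
      rwa [sub_add_cancel] at this
    have h3 : r1 * η1 ≤ r1 * (1 / 32) := mul_le_mul_of_nonneg_left hη1a hr1.le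
    linarith
  have hf1 : HolOn m (fun x => G (x, β' (x, 0))) U1 := EtHol.base (by positivity) hGD
  have hf2 : HolOn m (fun x => H (x, r1 • α (x, 0))) U2 := by
    refine HolOn.comp (f := H) (g := fun x : E => (x, r1 • α (x, 0))) (V := W ×ˢ univ) hH ?_ ?_
    · have hα0 : DifferentiableOn ℂ (fun x : E => α (x, 0)) U2 :=
        hα.comp (g := α) (f := fun x : E => (x, (0 : Fin m → ℂ)))
          (differentiable_id.prodMk (differentiable_const 0)).differentiableOn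
          (fun x hx => ⟨hx.1, h0half⟩)
      exact differentiableOn_id.prodMk (hα0.const_smul r1)
    · exact fun x hx => ⟨hx.2, mem_univ _⟩
  have hαball : ∀ x ∈ U2, r1 • α (x, 0) ∈ ball (0 : Fin m → ℂ) r1 := by
    intro x hx
    apply hscale
    have h1 := hαn x hx.1 0 h0half
    rw [sub_zero] at h1
    rw [mem_ball_zero_iff]
    linarith
  obtain ⟨g, hg, hg1, hg2⟩ := hf1.glue hU1o hU2o hf2 (by
    rintro x ⟨hx1, hx2⟩
    have hxC : x ∈ UC := hUU ⟨hx2.1, hx1.1⟩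
    have h1 := hαβ x ⟨hx2.1, hx1.1⟩ 0 h0half
    have h2 := (hγ x hxC _ (hαball x hx2)).2.2
    have h3 : β' (x, 0) = γ (x, r1 • α (x, 0)) := by
      show r1 • β (x, r1⁻¹ • 0) = _
      rw [smul_zero, ← h1, smul_smul, mul_inv_cancel₀ hr1.ne', one_smul]
    show G (x, β' (x, 0)) = H (x, r1 • α (x, 0))
    rw [h3, h2])
  refine ⟨U1, U2, fun q => G (q.1, β' q), r1 / 4, g, hU1o, hU2o, fun x hx => ⟨hDUD hx, hDU hx⟩,
    fun x hx => ⟨hBU hx, hBW hx⟩, inter_subset_right, by positivity, hGD,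
    fun x hx => (hg1 x hx).symm, hg, ?_, ?_⟩
  · intro x hx
    rw [hg2 x hx]
    exact hHp x hx.2 _
  · intro x hx
    have hx1 : x ∈ U1 := ⟨hDUD hx, hDU hx⟩
    rw [hg1 x hx1]
    apply hsmall x hx
    have := hβ'n x hx1 0 h0r
    rwa [sub_zero] at this

end OkaP
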