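import Pool.Agent.H.MP_ceb9a9.Scv5

set_option autoImplicit false
open Set Metric Filter
open scoped Topology

noncomputable section
namespace OkaP

variable {E F : Type} [NormedAddCommGroup E] [NormedSpace ℂ E]
  [NormedAddCommGroup F] [NormedSpace ℂ F]

/-- an injective endomorphism of a finite dimensional space is invertible. -/
theorem scv6_equiv_of_inj {V : Type} [NormedAddCommGroup V] [NormedSpace ℂ V]
    [FiniteDimensional ℂ V] (A : V →L[ℂ] V) (h : ∀ v, A v = 0 → v = 0) :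
    ∃ B : V ≃L[ℂ] V, (B : V →L[ℂ] V) = A := by
  have hinj : Function.Injective (A : V →ₗ[ℂ] V) :=
    (injective_iff_map_eq_zero (A : V →ₗ[ℂ] V)).2 h
  refine ⟨(LinearEquiv.ofInjectiveEndo (A : V →ₗ[ℂ] V) hinj).toContinuousLinearEquiv, ?_⟩
  ext v
  rfl

variable [FiniteDimensional ℂ E]

/-- maps near the identity on a ball: injective on the half ball, with invertible derivative,
covering a slightly smaller ball. -/
theorem near_id {f : E → E} {a : E} {r δ : ℝ} (hr : 0 < r) (hδ : 0 ≤ δ) (hδr : δ ≤ r / 8)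
    (hf : DifferentiableOn ℂ f (ball a r)) (hc : ∀ x ∈ ball a r, ‖f x - x‖ ≤ δ) :
    InjOn f (ball a (r / 2)) ∧
    (∀ x ∈ ball a (r / 2), ∃ A : E ≃L[ℂ] E, (A : E →L[ℂ] E) = fderiv ℂ f x) ∧
    (∀ x ∈ ball a (r / 2), ∀ y ∈ ball a (r / 2), ‖x - y‖ ≤ 2 * ‖f x - f y‖) ∧
    (∀ y ∈ ball a (r / 2 - δ), ∃ x ∈ ball a (r / 2), f x = y ∧ ‖x - y‖ ≤ δ) := by
  have : CompleteSpace E := FiniteDimensional.complete ℂ E
  set h : E → E := fun x => f x - x with hh
  have hhd : DifferentiableOn ℂ h (ball a r) := hf.sub differentiableOn_id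
  have hsub : ∀ x ∈ ball a (r / 2), ball x (r / 2) ⊆ ball a r := by
    intro x hx
    refine ball_subset_ball' ?_
    have := mem_ball.1 hx
    linarith
  have hhalf : ball a (r / 2) ⊆ ball a r := ball_subset_ball (by linarith)
  have hfd : ∀ x ∈ ball a (r / 2), ‖fderiv ℂ h x‖ ≤ 1 / 4 := by
    intro x hx
    have h1 := norm_fderiv_le (f := h) (x := x) (r := r / 2) (M := δ) (by linarith)
      (hhd.mono (hsub x hx)) (fun y hy => hc y (hsub x hx hy))
    refine h1.trans ?_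
    rw [div_le_iff₀ (by linarith)]
    linarith
  have hda : ∀ x ∈ ball a (r / 2), DifferentiableAt ℂ h x := fun x hx =>
    hhd.differentiableAt (isOpen_ball.mem_nhds (hhalf hx))
  have hfa : ∀ x ∈ ball a (r / 2), DifferentiableAt ℂ f x := fun x hx =>
    hf.differentiableAt (isOpen_ball.mem_nhds (hhalf hx))
  have hlip : ∀ x ∈ ball a (r / 2), ∀ y ∈ ball a (r / 2), ‖h y - h x‖ ≤ 1 / 4 * ‖y - x‖ := by
    intro x hx y hy
    exact Convex.norm_image_sub_le_of_norm_fderiv_le (𝕜 := ℂ) hda hfd (convex_ball a (r / 2)) hx hy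
  have hest : ∀ x ∈ ball a (r / 2), ∀ y ∈ ball a (r / 2), ‖x - y‖ ≤ 2 * ‖f x - f y‖ := by
    intro x hx y hy
    have h1 := hlip y hy x hx
    have h2 : x - y = (f x - f y) - (h x - h y) := by simp only [hh]; abel
    have h3 : ‖x - y‖ ≤ ‖f x - f y‖ + ‖h x - h y‖ := by
      conv_lhs => rw [h2]
      exact norm_sub_le _ _
    have := norm_nonneg (f x - f y)
    linarith
  refine ⟨?_, ?_, hest, ?_⟩
  · intro x hx y hy hxy
    have h1 := hest x hx y hy
    rw [hxy, sub_self, norm_zero, mul_zero] at h1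
    exact sub_eq_zero.1 (norm_le_zero_iff.1 h1)
  · intro x hx
    refine scv6_equiv_of_inj _ fun v hv => ?_
    have h1 : fderiv ℂ h x = fderiv ℂ f x - ContinuousLinearMap.id ℂ E := by
      have h2 : HasFDerivAt h (fderiv ℂ f x - ContinuousLinearMap.id ℂ E) x :=
        (hfa x hx).hasFDerivAt.sub (hasFDerivAt_id x)
      exact h2.fderiv
    have h2 : ‖(fderiv ℂ h x) v‖ ≤ 1 / 4 * ‖v‖ :=
      (ContinuousLinearMap.le_opNorm _ v).trans
        (mul_le_mul_of_nonneg_right (hfd x hx) (norm_nonneg v))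
    rw [h1] at h2
    have h3 : (fderiv ℂ f x - ContinuousLinearMap.id ℂ E) v = -v := by
      show (fderiv ℂ f x) v - v = -v
      rw [hv, zero_sub]
    rw [h3, norm_neg] at h2
    have := norm_nonneg v
    exact norm_le_zero_iff.1 (by linarith)
  · intro y hy
    have hyb : closedBall y δ ⊆ ball a (r / 2) := by
      intro x hx
      rw [mem_closedBall] at hx
      rw [mem_ball] at hy ⊢
      have := dist_triangle x y a
      linarith
    let T : E → E := fun x => y - h x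
    have hmaps : MapsTo T (closedBall y δ) (closedBall y δ) := by
      intro x hx
      rw [mem_closedBall, dist_eq_norm]
      have h1 : T x - y = -(h x) := by simp [T]
      rw [h1, norm_neg]
      exact hc x (hhalf (hyb hx))
    have hcontr : ContractingWith (1 / 4) (hmaps.restrict T _ _) := by
      refine ⟨?_, LipschitzWith.of_dist_le_mul fun p q => ?_⟩
      · rw [← NNReal.coe_lt_coe]
        norm_num
      · rw [Subtype.dist_eq, Subtype.dist_eq, dist_eq_norm, dist_eq_norm]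
        have h1 := hlip q (hyb q.2) p (hyb p.2)
        have h2 : T (p : E) - T (q : E) = -(h p - h q) := by simp only [T]; abel
        have h3 : ((hmaps.restrict T _ _ p : closedBall y δ) : E)
            - ((hmaps.restrict T _ _ q : closedBall y δ) : E) = T p - T q := rfl
        rw [h3, h2, norm_neg]
        have h4 : (((1 / 4 : NNReal)) : ℝ) = 1 / 4 := by norm_num
        rw [h4]
        exact h1
    obtain ⟨x, hx, hfix, _⟩ := ContractingWith.exists_fixedPoint' (isClosed_closedBall.isComplete)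
      hmaps hcontr (x := y) (mem_closedBall_self hδ) (edist_ne_top _ _)
    refine ⟨x, hyb hx, ?_, ?_⟩
    · have h1 : y - (f x - x) = x := hfix
      have h2 : f x = y := by
        have h3 : y - f x = 0 := by
          have : y - (f x - x) - x = 0 := by rw [h1, sub_self]
          rw [← this]; abel
        exact (sub_eq_zero.1 h3).symm
      exact h2
    · rw [mem_closedBall, dist_eq_norm] at hx
      exact hx

/-- parametrised local inverse: solving f z x = y with f z near the identity. -/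
theorem near_id_param {Z : Type} [NormedAddCommGroup Z] [NormedSpace ℂ Z] [FiniteDimensional ℂ Z]
    {f : Z × E → E} {W : Set Z} {r δ : ℝ} (hW : IsOpen W) (hr : 0 < r) (hδ : 0 ≤ δ) (hδr : δ ≤ r / 8)
    (hf : DifferentiableOn ℂ f (W ×ˢ ball 0 r)) (hc : ∀ z ∈ W, ∀ x ∈ ball (0 : E) r, ‖f (z, x) - x‖ ≤ δ) :
    ∃ g : Z × E → E, DifferentiableOn ℂ g (W ×ˢ ball 0 (r / 2 - δ)) ∧
      ∀ z ∈ W, ∀ y ∈ ball (0 : E) (r / 2 - δ), g (z, y) ∈ ball (0 : E) (r / 2) ∧ f (z, g (z, y)) = y ∧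
        ‖g (z, y) - y‖ ≤ δ := by
  have hpair : ∀ (z : Z) (x : E), HasFDerivAt (fun x : E => (z, x))
      (ContinuousLinearMap.inr ℂ Z E) x := fun z x => hasFDerivAt_prodMk_right z x
  have hopen : IsOpen (W ×ˢ ball (0 : E) r) := hW.prod isOpen_ball
  have hfz : ∀ z ∈ W, DifferentiableOn ℂ (fun x => f (z, x)) (ball 0 r) := by
    intro z hz x hx
    have h1 : DifferentiableAt ℂ f (z, x) := hf.differentiableAt (hopen.mem_nhds ⟨hz, hx⟩)
    exact (h1.hasFDerivAt.comp x (hpair z x)).differentiableAt.differentiableWithinAt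
  have hni := fun z (hz : z ∈ W) => near_id (f := fun x => f (z, x)) (a := 0) hr hδ hδr (hfz z hz)
    (hc z hz)
  let Φ : Z × E → Z × E := fun q => (q.1, f q)
  have hhalf : ball (0 : E) (r / 2) ⊆ ball 0 r := ball_subset_ball (by linarith)
  have hUopen : IsOpen (W ×ˢ ball (0 : E) (r / 2)) := hW.prod isOpen_ball
  have hsub : W ×ˢ ball (0 : E) (r / 2) ⊆ W ×ˢ ball (0 : E) r := prod_mono_right hhalf
  have hΦd : DifferentiableOn ℂ Φ (W ×ˢ ball (0 : E) (r / 2)) :=
    differentiableOn_fst.prodMk (hf.mono hsub)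
  have hΦinj : InjOn Φ (W ×ˢ ball (0 : E) (r / 2)) := by
    rintro ⟨z, x⟩ ⟨hz, hx⟩ ⟨z', x'⟩ ⟨hz', hx'⟩ heq
    have h1 : z = z' := congrArg Prod.fst heq
    subst h1
    have h2 : f (z, x) = f (z, x') := congrArg Prod.snd heq
    have h3 : x = x' := (hni z hz).1 hx hx' h2
    rw [h3]
  have hΦder : ∀ q ∈ W ×ˢ ball (0 : E) (r / 2), ∃ A : (Z × E) ≃L[ℂ] (Z × E),
      (A : (Z × E) →L[ℂ] (Z × E)) = fderiv ℂ Φ q := by
    rintro ⟨z, x⟩ ⟨hz, hx⟩
    have h1 : DifferentiableAt ℂ f (z, x) := hf.differentiableAt (hopen.mem_nhds ⟨hz, hhalf hx⟩)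
    have h2 : HasFDerivAt Φ ((ContinuousLinearMap.fst ℂ Z E).prod (fderiv ℂ f (z, x))) (z, x) :=
      (hasFDerivAt_fst (𝕜 := ℂ) (p := (z, x))).prodMk h1.hasFDerivAt
    rw [h2.fderiv]
    refine scv6_equiv_of_inj _ ?_
    rintro ⟨v, w⟩ hvw
    have h3 : v = 0 := congrArg Prod.fst hvw
    have h4 : (fderiv ℂ f (z, x)) (v, w) = 0 := congrArg Prod.snd hvw
    subst h3
    obtain ⟨A, hA⟩ := (hni z hz).2.1 x hx
    have h5 : fderiv ℂ (fun x => f (z, x)) x
        = (fderiv ℂ f (z, x)).comp (ContinuousLinearMap.inr ℂ Z E) :=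
      (h1.hasFDerivAt.comp x (hpair z x)).fderiv
    have h6 : A w = 0 := by
      have h7 : (A : E →L[ℂ] E) w = 0 := by
        rw [hA, h5]
        exact h4
      exact h7
    have h8 : w = 0 := by
      have := A.injective (h6.trans (map_zero A).symm)
      exact this
    rw [h8]
    rfl
  obtain ⟨_, g', hg'd, hg'⟩ := inverse_hol hUopen hΦd hΦinj hΦder
  have hkey : ∀ z ∈ W, ∀ y ∈ ball (0 : E) (r / 2 - δ), ∃ x ∈ ball (0 : E) (r / 2),
      f (z, x) = y ∧ ‖x - y‖ ≤ δ ∧ g' (z, y) = (z, x) := by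
    intro z hz y hy
    obtain ⟨x, hx, hxy, hn⟩ := (hni z hz).2.2.2 y hy
    refine ⟨x, hx, hxy, hn, ?_⟩
    have h1 := hg' (z, x) ⟨hz, hx⟩
    have h2 : Φ (z, x) = (z, y) := by
      show (z, f (z, x)) = (z, y)
      rw [hxy]
    rw [h2] at h1
    exact h1
  refine ⟨fun q => (g' q).2, ?_, ?_⟩
  · have h1 : W ×ˢ ball (0 : E) (r / 2 - δ) ⊆ Φ '' (W ×ˢ ball (0 : E) (r / 2)) := by
      rintro ⟨z, y⟩ ⟨hz, hy⟩
      obtain ⟨x, hx, hxy, _, _⟩ := hkey z hz y hy
      refine ⟨(z, x), ⟨hz, hx⟩, ?_⟩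
      show (z, f (z, x)) = (z, y)
      rw [hxy]
    exact (hg'd.mono h1).snd
  · intro z hz y hy
    obtain ⟨x, hx, hxy, hn, hgz⟩ := hkey z hz y hy
    simp only [hgz]
    exact ⟨hx, hxy, hn⟩

end OkaP
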