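import Pool.Agent.H.MP_ceb9a9.GlApprox
import Pool.Agent.H.MP_ceb9a9.Scv6

set_option autoImplicit false
open Set Metric Filter
open scoped Topology

noncomputable section
namespace OkaP

variable {E V : Type} [NormedAddCommGroup E] [NormedSpace ℂ E] [FiniteDimensional ℂ E]
  [NormedAddCommGroup V] [NormedSpace ℂ V] [FiniteDimensional ℂ V]

omit [FiniteDimensional ℂ E] [FiniteDimensional ℂ V] in
private theorem entireModel_fderiv_inr {N : E × V → V} {z : E} {u : V}
    (h : DifferentiableAt ℂ N (z, u)) :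
    HasFDerivAt (fun v => N (z, v))
      ((fderiv ℂ N (z, u)).comp (ContinuousLinearMap.inr ℂ E V)) u :=
  h.hasFDerivAt.comp u (hasFDerivAt_prodMk_right z u)

private theorem entireModel_M_diff {N : E × V → V} {W : Set E} (hW : IsOpen W) {B : Set V}
    (hB : IsOpen B) (h0 : (0 : V) ∈ B) (hN : DifferentiableOn ℂ N (W ×ˢ B)) :
    DifferentiableOn ℂ
      (fun z => (fderiv ℂ N (z, 0)).comp (ContinuousLinearMap.inr ℂ E V)) W := by
  have : CompleteSpace V := FiniteDimensional.complete ℂ V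
  have h1 : DifferentiableOn ℂ (fderiv ℂ N) (W ×ˢ B) := differentiableOn_fderiv (hW.prod hB) hN
  have h2 : DifferentiableOn ℂ (fun z : E => ((z, 0) : E × V)) W := by fun_prop
  have h3 : DifferentiableOn ℂ (fun z : E => fderiv ℂ N (z, 0)) W :=
    h1.comp h2 (fun z hz => ⟨hz, h0⟩)
  exact h3.clm_comp (differentiableOn_const _)

omit [FiniteDimensional ℂ E] [FiniteDimensional ℂ V] in
/-- second order estimate -/
private theorem entireModel_second {f : V → V} {r M₀ ρ : ℝ} (hr : 0 < r)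
    (hf : DifferentiableOn ℂ f (ball 0 r)) (hM : ∀ y ∈ ball (0 : V) r, ‖f y‖ ≤ M₀) (hf0 : f 0 = 0)
    (hρr : ρ ≤ r / 4) {u : V} (hu : u ∈ ball (0 : V) ρ) :
    ‖f u - fderiv ℂ f 0 u‖ ≤ 8 * M₀ / r ^ 2 * ρ * ρ := by
  have hM0 : 0 ≤ M₀ := (norm_nonneg _).trans (hM 0 (mem_ball_self hr))
  have hρ : 0 < ρ := by
    rw [mem_ball_zero_iff] at hu
    exact lt_of_le_of_lt (norm_nonneg _) hu
  have hsub : ball (0 : V) ρ ⊆ ball 0 r := ball_subset_ball (by linarith)
  have hsub4 : ball (0 : V) ρ ⊆ ball 0 (r / 4) := ball_subset_ball hρr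
  have hd : ∀ y ∈ ball (0 : V) ρ, DifferentiableAt ℂ (fun y => f y - fderiv ℂ f 0 y) y := by
    intro y hy
    exact (hf.differentiableAt (isOpen_ball.mem_nhds (hsub hy))).sub
      (fderiv ℂ f 0).differentiableAt
  have hbound : ∀ y ∈ ball (0 : V) ρ,
      ‖fderiv ℂ (fun y => f y - fderiv ℂ f 0 y) y‖ ≤ 8 * M₀ / r ^ 2 * ρ := by
    intro y hy
    have h1 : fderiv ℂ (fun y => f y - fderiv ℂ f 0 y) y = fderiv ℂ f y - fderiv ℂ f 0 := by
      rw [fderiv_fun_sub (hf.differentiableAt (isOpen_ball.mem_nhds (hsub hy)))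
        (fderiv ℂ f 0).differentiableAt, ContinuousLinearMap.fderiv]
    rw [h1]
    refine (scv1_fderiv_lip hr hf hM (hsub4 hy) (mem_ball_self (by linarith))).trans ?_
    rw [mem_ball_zero_iff] at hy
    rw [sub_zero]
    gcongr
  have h := (convex_ball (0 : V) ρ).norm_image_sub_le_of_norm_fderiv_le (𝕜 := ℂ) hd hbound
    (mem_ball_self hρ) hu
  rw [hf0] at h
  simp only [map_zero, sub_zero] at h
  refine h.trans ?_
  rw [mem_ball_zero_iff] at hu
  gcongr

/-- A family of local biholomorphisms fixing `0` over a compact convex set is, up to an arbitrarily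
small change of the fibre coordinate on a ball of fixed radius, an entire family of maps fixing
`0` with invertible derivative at `0`. -/
theorem entire_model {C₁ W₁ : Set E} (hC : IsCompact C₁) (hc : Convex ℝ C₁) (hW : IsOpen W₁)
    (hCW : C₁ ⊆ W₁) {r₁ : ℝ} (hr : 0 < r₁) {N : E × V → V}
    (hN : DifferentiableOn ℂ N (W₁ ×ˢ ball (0 : V) r₁)) (hN0 : ∀ z ∈ W₁, N (z, 0) = 0)
    (hN1 : ∀ z ∈ W₁, IsUnit (fderiv ℂ (fun v => N (z, v)) 0)) :
    ∃ r₂ > 0, r₂ ≤ r₁ ∧ ∀ ε > 0, ∃ Nh γ : E × V → V, Differentiable ℂ Nh ∧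
      (∀ z, Nh (z, 0) = 0) ∧ (∀ z, IsUnit (fderiv ℂ (fun v => Nh (z, v)) 0)) ∧
      DifferentiableOn ℂ γ (interior C₁ ×ˢ ball (0 : V) r₂) ∧
      (∀ z ∈ interior C₁, γ (z, 0) = 0) ∧
      ∀ z ∈ interior C₁, ∀ u ∈ ball (0 : V) r₂,
        ‖γ (z, u) - u‖ ≤ ε ∧ Nh (z, γ (z, u)) = N (z, u) := by
  have hcV : CompleteSpace V := FiniteDimensional.complete ℂ V
  have hcVV : CompleteSpace (V →L[ℂ] V) := FiniteDimensional.complete ℂ _
  have hpE : ProperSpace E := FiniteDimensional.proper ℂ E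
  have hpV : ProperSpace V := FiniteDimensional.proper ℂ V
  have hopen : IsOpen (W₁ ×ˢ ball (0 : V) r₁) := hW.prod isOpen_ball
  have h0r₁ : (0 : V) ∈ ball (0 : V) r₁ := mem_ball_self hr
  set M : E → (V →L[ℂ] V) := fun z =>
    (fderiv ℂ N (z, 0)).comp (ContinuousLinearMap.inr ℂ E V) with hMdef
  have hM : DifferentiableOn ℂ M W₁ := entireModel_M_diff hW isOpen_ball h0r₁ hN
  have hNz : ∀ z ∈ W₁, HasFDerivAt (fun v => N (z, v)) (M z) 0 := fun z hz =>
    entireModel_fderiv_inr (hN.differentiableAt (hopen.mem_nhds ⟨hz, h0r₁⟩))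
  have hMu : ∀ z ∈ W₁, IsUnit (M z) := by
    intro z hz
    have := hN1 z hz
    rwa [(hNz z hz).fderiv] at this
  -- the inverse of the derivative
  set Mi : E → (V →L[ℂ] V) := fun z => Ring.inverse (M z) with hMidef
  have hMi : DifferentiableOn ℂ Mi W₁ := by
    intro z hz
    obtain ⟨a, ha⟩ := hMu z hz
    have h1 : DifferentiableAt ℂ (Ring.inverse : (V →L[ℂ] V) → (V →L[ℂ] V)) (M z) := by
      rw [← ha]
      exact differentiableAt_inverse a.isUnit
    exact h1.comp_differentiableWithinAt z (hM z hz)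
  have hMiM : ∀ z ∈ W₁, ∀ v, Mi z (M z v) = v := by
    intro z hz v
    have h1 : Mi z * M z = 1 := Ring.inverse_mul_cancel _ (hMu z hz)
    have h2 := congrArg (fun A : V →L[ℂ] V => A v) h1
    simpa using h2
  have hMMi : ∀ z ∈ W₁, ∀ v, M z (Mi z v) = v := by
    intro z hz v
    have h1 : M z * Mi z = 1 := Ring.mul_inverse_cancel _ (hMu z hz)
    have h2 := congrArg (fun A : V →L[ℂ] V => A v) h1
    simpa using h2
  obtain ⟨b, hb⟩ := hC.exists_bound_of_continuousOn (hMi.continuousOn.mono hCW)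
  set b₀ : ℝ := |b| + 1 with hb₀def
  have hb₀ : 0 < b₀ := by positivity
  have hMib : ∀ z ∈ C₁, ‖Mi z‖ ≤ b₀ := fun z hz =>
    (hb z hz).trans ((le_abs_self b).trans (by linarith))
  -- bound of N
  have hr2 : 0 < r₁ / 2 := by positivity
  have hK2 : IsCompact (C₁ ×ˢ closedBall (0 : V) (r₁ / 2)) := hC.prod (isCompact_closedBall _ _)
  have hK2sub : C₁ ×ˢ closedBall (0 : V) (r₁ / 2) ⊆ W₁ ×ˢ ball (0 : V) r₁ :=
    prod_mono hCW (closedBall_subset_ball (by linarith))
  obtain ⟨m, hm⟩ := hK2.exists_bound_of_continuousOn (hN.continuousOn.mono hK2sub)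
  set M₀ : ℝ := |m| + 1 with hM₀def
  have hM₀ : 0 < M₀ := by positivity
  have hNb : ∀ z ∈ C₁, ∀ u ∈ ball (0 : V) (r₁ / 2), ‖N (z, u)‖ ≤ M₀ := fun z hz u hu =>
    (hm (z, u) ⟨hz, ball_subset_closedBall hu⟩).trans ((le_abs_self m).trans (by linarith))
  set L : ℝ := 8 * M₀ / (r₁ / 2) ^ 2 with hLdef
  have hL : 0 < L := by positivity
  set r₃ : ℝ := min (r₁ / 8) (1 / (32 * (b₀ * L))) with hr₃def
  have hr₃ : 0 < r₃ := lt_min (by positivity) (by positivity)
  have hr₃1 : r₃ ≤ r₁ / 8 := min_le_left _ _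
  have hr₃2 : b₀ * (L * r₃ * r₃) ≤ r₃ / 32 := by
    have h1 : r₃ ≤ 1 / (32 * (b₀ * L)) := min_le_right _ _
    rw [le_div_iff₀ (by positivity)] at h1
    have h2 : b₀ * (L * r₃ * r₃) = (r₃ * (32 * (b₀ * L))) * (r₃ / 32) := by ring
    rw [h2]
    calc (r₃ * (32 * (b₀ * L))) * (r₃ / 32) ≤ 1 * (r₃ / 32) := by gcongr
      _ = r₃ / 32 := one_mul _
  -- Q = N - M u
  set Q : E × V → V := fun q => N q - M q.1 q.2 with hQdef
  have hMfst : DifferentiableOn ℂ (fun q : E × V => M q.1) (W₁ ×ˢ ball (0 : V) r₁) :=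
    hM.comp differentiableOn_fst (fun q hq => hq.1)
  have hQ : DifferentiableOn ℂ Q (W₁ ×ˢ ball (0 : V) r₁) :=
    hN.sub (hMfst.clm_apply differentiableOn_snd)
  have hNzd : ∀ z ∈ W₁, DifferentiableOn ℂ (fun v => N (z, v)) (ball 0 (r₁ / 2)) := by
    intro z hz v hv
    have hv' : v ∈ ball (0 : V) r₁ := ball_subset_ball (by linarith) hv
    exact (entireModel_fderiv_inr (hN.differentiableAt
      (hopen.mem_nhds ⟨hz, hv'⟩))).differentiableAt.differentiableWithinAt
  have hQsmall : ∀ z ∈ C₁, ∀ u ∈ ball (0 : V) r₃, ‖N (z, u) - M z u‖ ≤ L * r₃ * r₃ := by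
    intro z hz u hu
    have h1 := entireModel_second (ρ := r₃) hr2 (hNzd z (hCW hz)) (hNb z hz) (hN0 z (hCW hz))
      (by linarith) hu
    rw [(hNz z (hCW hz)).fderiv] at h1
    exact h1
  have hF : ∀ z ∈ C₁, ∀ u ∈ ball (0 : V) r₃, ‖Mi z (N (z, u)) - u‖ ≤ r₃ / 32 := by
    intro z hz u hu
    have h1 : Mi z (N (z, u)) - u = Mi z (N (z, u) - M z u) := by
      rw [map_sub, hMiM z (hCW hz)]
    rw [h1]
    calc ‖Mi z (N (z, u) - M z u)‖ ≤ ‖Mi z‖ * ‖N (z, u) - M z u‖ := (Mi z).le_opNorm _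
      _ ≤ b₀ * (L * r₃ * r₃) := by
        gcongr
        · exact hMib z hz
        · exact hQsmall z hz u hu
      _ ≤ r₃ / 32 := hr₃2
  refine ⟨r₃ / 4, by positivity, by linarith, ?_⟩
  intro ε hε
  set ε₃ : ℝ := min (r₃ / 32) (ε / 2) / (b₀ * (r₃ + 3)) with hε₃def
  have hε₃ : 0 < ε₃ := by positivity
  have hε₃1 : b₀ * ((r₃ + 3) * ε₃) ≤ min (r₃ / 32) (ε / 2) := by
    rw [hε₃def]
    apply le_of_eq
    field_simp
  obtain ⟨Mh, hMh, hMhu, hMMh⟩ := gl_approx hC hc hW hCW hM hMu hε₃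
  have hKconv : Convex ℝ (C₁ ×ˢ closedBall (0 : V) (r₁ / 2)) := hc.prod (convex_closedBall _ _)
  obtain ⟨Qh, hQh, hQQh⟩ := runge_convex hK2 hKconv hopen hK2sub hQ hε₃
  -- derivative of Qh in the fibre direction at 0
  set D : E → (V →L[ℂ] V) := fun z =>
    (fderiv ℂ Qh (z, 0)).comp (ContinuousLinearMap.inr ℂ E V) with hDdef
  have hD : Differentiable ℂ D := by
    have h1 := entireModel_M_diff (N := Qh) (W := univ) isOpen_univ (B := univ) isOpen_univ
      (mem_univ _) hQh.differentiableOn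
    exact differentiableOn_univ.1 h1
  have hQhz : ∀ z u, HasFDerivAt (fun v => Qh (z, v))
      ((fderiv ℂ Qh (z, u)).comp (ContinuousLinearMap.inr ℂ E V)) u := fun z u =>
    entireModel_fderiv_inr (hQh (z, u))
  set Nh : E × V → V := fun q => Mh q.1 q.2 + (Qh q - Qh (q.1, 0) - D q.1 q.2) with hNhdef
  have hNh : Differentiable ℂ Nh := by
    have h1 : Differentiable ℂ (fun q : E × V => Mh q.1 q.2) :=
      (hMh.comp differentiable_fst).clm_apply differentiable_snd
    have h2 : Differentiable ℂ (fun q : E × V => D q.1 q.2) :=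
      (hD.comp differentiable_fst).clm_apply differentiable_snd
    have h3 : Differentiable ℂ (fun q : E × V => Qh (q.1, 0)) :=
      hQh.comp (differentiable_fst.prodMk (differentiable_const _))
    exact h1.add ((hQh.sub h3).sub h2)
  have hNh0 : ∀ z, Nh (z, 0) = 0 := by
    intro z
    simp [hNhdef]
  have hNh1 : ∀ z, HasFDerivAt (fun v => Nh (z, v)) (Mh z) 0 := by
    intro z
    have h1 : HasFDerivAt (fun v => Mh z v) (Mh z) 0 := (Mh z).hasFDerivAt
    have h2 : HasFDerivAt (fun v => D z v) (D z) 0 := (D z).hasFDerivAt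
    have h3 : HasFDerivAt (fun v => Qh (z, v)) (D z) 0 := hQhz z 0
    have h4 := h1.add ((h3.sub_const (Qh (z, 0))).sub h2)
    have h5 : Mh z + (D z - D z) = Mh z := by rw [sub_self, add_zero]
    rw [h5] at h4
    exact h4
  -- closeness of Nh and N
  have hclose : ∀ z ∈ C₁, ∀ u ∈ ball (0 : V) r₃, ‖Nh (z, u) - N (z, u)‖ ≤ (r₃ + 3) * ε₃ := by
    intro z hz u hu
    have hu2 : u ∈ closedBall (0 : V) (r₁ / 2) :=
      ball_subset_closedBall (ball_subset_ball (by linarith) hu)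
    have h02 : (0 : V) ∈ closedBall (0 : V) (r₁ / 2) := mem_closedBall_self hr2.le
    have hQz0 : Q (z, 0) = 0 := by simp [hQdef, hN0 z (hCW hz)]
    have hD' : ‖D z‖ ≤ ε₃ / (r₁ / 2) := by
      have h1 : HasFDerivAt (fun v => Qh (z, v) - Q (z, v)) (D z) 0 := by
        have h2 : HasFDerivAt (fun v => Q (z, v)) (M z - M z) 0 :=
          (hNz z (hCW hz)).sub (M z).hasFDerivAt
        have h3 := (hQhz z 0).sub h2
        rw [sub_self, sub_zero] at h3
        exact h3
      rw [← h1.fderiv]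
      apply norm_fderiv_le hr2
      · intro v hv
        have hv' : v ∈ ball (0 : V) r₁ := ball_subset_ball (by linarith) hv
        exact ((hQhz z v).differentiableAt.sub (entireModel_fderiv_inr (hQ.differentiableAt
          (hopen.mem_nhds ⟨hCW hz, hv'⟩))).differentiableAt).differentiableWithinAt
      · intro v hv
        rw [norm_sub_rev]
        exact (hQQh (z, v) ⟨hz, ball_subset_closedBall hv⟩).le
    have hun : ‖u‖ ≤ r₃ := (mem_ball_zero_iff.1 hu).le
    have e1 : Nh (z, u) - N (z, u) = (Mh z - M z) u + ((Qh (z, u) - Q (z, u))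
        - (Qh (z, 0) - Q (z, 0)) - D z u) := by
      rw [hQz0]
      simp only [hNhdef, hQdef, ContinuousLinearMap.sub_apply]
      abel
    have e2 : ‖(Mh z - M z) u‖ ≤ ε₃ * r₃ := by
      refine ((Mh z - M z).le_opNorm u).trans ?_
      gcongr
      rw [norm_sub_rev]
      exact (hMMh z hz).le
    have e3 : ‖Qh (z, u) - Q (z, u)‖ ≤ ε₃ := by
      rw [norm_sub_rev]
      exact (hQQh (z, u) ⟨hz, hu2⟩).le
    have e4 : ‖Qh (z, 0) - Q (z, 0)‖ ≤ ε₃ := by
      rw [norm_sub_rev]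
      exact (hQQh (z, 0) ⟨hz, h02⟩).le
    have e5 : ‖D z u‖ ≤ ε₃ := by
      calc ‖D z u‖ ≤ ‖D z‖ * ‖u‖ := (D z).le_opNorm u
        _ ≤ ε₃ / (r₁ / 2) * (r₁ / 2) := by
          gcongr
          linarith
        _ = ε₃ := by field_simp
    rw [e1]
    calc _ ≤ ‖(Mh z - M z) u‖ + (‖Qh (z, u) - Q (z, u)‖ + ‖Qh (z, 0) - Q (z, 0)‖ + ‖D z u‖) := by
          refine (norm_add_le _ _).trans ?_
          gcongr
          refine (norm_sub_le _ _).trans ?_
          gcongr
          exact norm_sub_le _ _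
      _ ≤ ε₃ * r₃ + (ε₃ + ε₃ + ε₃) := by gcongr
      _ = (r₃ + 3) * ε₃ := by ring
  have hclose2 : ∀ z ∈ C₁, ∀ u ∈ ball (0 : V) r₃,
      ‖Mi z (Nh (z, u) - N (z, u))‖ ≤ min (r₃ / 32) (ε / 2) := by
    intro z hz u hu
    calc ‖Mi z (Nh (z, u) - N (z, u))‖ ≤ ‖Mi z‖ * ‖Nh (z, u) - N (z, u)‖ := (Mi z).le_opNorm _
      _ ≤ b₀ * ((r₃ + 3) * ε₃) := by
        gcongr
        · exact hMib z hz
        · exact hclose z hz u hu
      _ ≤ _ := hε₃1
  -- the maps f
  set f : E × V → V := fun q => Mi q.1 (Nh q) with hfdef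
  have hfd : DifferentiableOn ℂ f (interior C₁ ×ˢ ball (0 : V) r₃) := by
    have h1 : DifferentiableOn ℂ (fun q : E × V => Mi q.1) (interior C₁ ×ˢ ball (0 : V) r₃) :=
      hMi.comp differentiableOn_fst (fun q hq => hCW (interior_subset hq.1))
    exact h1.clm_apply hNh.differentiableOn
  have hfc : ∀ z ∈ interior C₁, ∀ u ∈ ball (0 : V) r₃, ‖f (z, u) - u‖ ≤ r₃ / 16 := by
    intro z hz u hu
    have hz' : z ∈ C₁ := interior_subset hz
    have h1 : f (z, u) - u = (Mi z (N (z, u)) - u) + Mi z (Nh (z, u) - N (z, u)) := by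
      simp only [hfdef, map_sub]
      abel
    rw [h1]
    calc _ ≤ ‖Mi z (N (z, u)) - u‖ + ‖Mi z (Nh (z, u) - N (z, u))‖ := norm_add_le _ _
      _ ≤ r₃ / 32 + r₃ / 32 := by
        gcongr
        · exact hF z hz' u hu
        · exact (hclose2 z hz' u hu).trans (min_le_left _ _)
      _ = r₃ / 16 := by ring
  obtain ⟨g, hg, hg'⟩ := near_id_param (f := f) (W := interior C₁) (r := r₃) (δ := r₃ / 16)
    isOpen_interior hr₃ (by positivity) (by linarith) hfd hfc
  have hthird : ∀ z ∈ interior C₁, ∀ x ∈ ball (0 : V) (r₃ / 2), ∀ y ∈ ball (0 : V) (r₃ / 2),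
      ‖x - y‖ ≤ 2 * ‖f (z, x) - f (z, y)‖ := by
    intro z hz
    have hd : DifferentiableOn ℂ (fun u => f (z, u)) (ball 0 r₃) := by
      intro u hu
      exact (entireModel_fderiv_inr (hfd.differentiableAt
        ((isOpen_interior.prod isOpen_ball).mem_nhds ⟨hz, hu⟩))).differentiableAt.differentiableWithinAt
    exact (near_id (f := fun u => f (z, u)) (a := 0) hr₃ (δ := r₃ / 16) (by positivity)
      (by linarith) hd (hfc z hz)).2.2.1
  have hFin : ∀ z ∈ interior C₁, ∀ u ∈ ball (0 : V) (r₃ / 4),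
      Mi z (N (z, u)) ∈ ball (0 : V) (r₃ / 2 - r₃ / 16) := by
    intro z hz u hu
    have hu3 : u ∈ ball (0 : V) r₃ := ball_subset_ball (by linarith) hu
    have h1 := hF z (interior_subset hz) u hu3
    rw [mem_ball_zero_iff] at hu ⊢
    have h2 : ‖Mi z (N (z, u))‖ ≤ ‖Mi z (N (z, u)) - u‖ + ‖u‖ := by
      have := norm_add_le (Mi z (N (z, u)) - u) u
      rwa [sub_add_cancel] at this
    linarith
  refine ⟨Nh, fun q => g (q.1, Mi q.1 (N q)), hNh, hNh0, ?_, ?_, ?_, ?_⟩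
  · intro z
    rw [(hNh1 z).fderiv]
    exact hMhu z
  · have hsub : interior C₁ ×ˢ ball (0 : V) (r₃ / 4) ⊆ W₁ ×ˢ ball (0 : V) r₁ :=
      prod_mono (interior_subset.trans hCW) (ball_subset_ball (by linarith))
    have h1 : DifferentiableOn ℂ (fun q : E × V => Mi q.1) (interior C₁ ×ˢ ball (0 : V) (r₃ / 4)) :=
      hMi.comp differentiableOn_fst (fun q hq => hCW (interior_subset hq.1))
    have h2 : DifferentiableOn ℂ (fun q : E × V => Mi q.1 (N q))
        (interior C₁ ×ˢ ball (0 : V) (r₃ / 4)) := h1.clm_apply (hN.mono hsub)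
    exact hg.comp (differentiableOn_fst.prodMk h2) (fun q hq => ⟨hq.1, hFin q.1 hq.1 q.2 hq.2⟩)
  · intro z hz
    have h0 : (0 : V) ∈ ball (0 : V) (r₃ / 4) := mem_ball_self (by positivity)
    obtain ⟨h1, h2, -⟩ := hg' z hz _ (hFin z hz 0 h0)
    have h3 := hthird z hz _ h1 0 (mem_ball_self (by positivity))
    rw [h2] at h3
    have h4 : Mi z (N (z, 0)) - f (z, 0) = 0 := by
      simp only [hfdef, hNh0, hN0 z (hCW (interior_subset hz)), sub_self]
    rw [h4, norm_zero, mul_zero, sub_zero] at h3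
    exact norm_le_zero_iff.1 h3
  · intro z hz u hu
    have hz' : z ∈ C₁ := interior_subset hz
    have hu3 : u ∈ ball (0 : V) r₃ := ball_subset_ball (by linarith) hu
    have hu2 : u ∈ ball (0 : V) (r₃ / 2) := ball_subset_ball (by linarith) hu
    obtain ⟨h1, h2, -⟩ := hg' z hz _ (hFin z hz u hu)
    constructor
    · have h3 := hthird z hz _ h1 u hu2
      refine h3.trans ?_
      rw [h2]
      have h4 : Mi z (N (z, u)) - f (z, u) = - (Mi z (Nh (z, u) - N (z, u))) := by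
        simp only [hfdef, map_sub]
        abel
      rw [h4, norm_neg]
      have h5 := (hclose2 z hz' u hu3).trans (min_le_right _ _)
      linarith
    · have h3 : M z (Mi z (Nh (z, g (z, Mi z (N (z, u)))))) = M z (Mi z (N (z, u))) :=
        congrArg (M z) h2
      rw [hMMi z (hCW hz'), hMMi z (hCW hz')] at h3
      exact h3

end OkaP
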