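import Pool.Agent.H.MP_ceb9a9.NgW

set_option autoImplicit false
open Set Metric Filter
open scoped Topology

noncomputable section
namespace OkaP

variable {m : ℕ} {E : Type} [NormedAddCommGroup E] [NormedSpace ℂ E] [FiniteDimensional ℂ E]

/-- Cartan splitting of a near identity map over the two overlapping halves of a compact convex
set (from chapter 1: linear splitting, and `SplitScale.nonlinear`). -/
theorem cartan_convex {K : Set E} (hK : IsCompact K) (hc : Convex ℝ K) (l : E →L[ℂ] ℂ) {a b : ℝ}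
    (hab : a < b) {W : Set E} (hW : IsOpen W)
    (hWK : K ∩ {z | a ≤ (l z).re ∧ (l z).re ≤ b} ⊆ W) {r : ℝ} (hr : 0 < r) {η : ℝ} (hη : 0 < η) :
    ∃ (WA WB : Set E) (ε : ℝ), IsOpen WA ∧ IsOpen WB ∧ K ∩ {z | (l z).re ≤ b} ⊆ WA ∧
      K ∩ {z | a ≤ (l z).re} ⊆ WB ∧ WA ∩ WB ⊆ W ∧ 0 < ε ∧
      ∀ γ : E × (Fin m → ℂ) → (Fin m → ℂ), DifferentiableOn ℂ γ (W ×ˢ ball (0 : Fin m → ℂ) r) →
        (∀ z ∈ W, ∀ t ∈ ball (0 : Fin m → ℂ) r, ‖γ (z, t) - t‖ ≤ ε) →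
        ∃ α β : E × (Fin m → ℂ) → (Fin m → ℂ), DifferentiableOn ℂ α (WA ×ˢ ball (0 : Fin m → ℂ) (r / 2)) ∧
          DifferentiableOn ℂ β (WB ×ˢ ball (0 : Fin m → ℂ) (r / 2)) ∧
          (∀ z ∈ WA, ∀ t ∈ ball (0 : Fin m → ℂ) (r / 2), ‖α (z, t) - t‖ ≤ η) ∧
          (∀ z ∈ WB, ∀ t ∈ ball (0 : Fin m → ℂ) (r / 2), ‖β (z, t) - t‖ ≤ η) ∧
          (∀ z ∈ WA ∩ WB, ∀ t ∈ ball (0 : Fin m → ℂ) (r / 2), γ (z, α (z, t)) = β (z, t)) ∧
          ((∀ z ∈ W, γ (z, 0) = 0) →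
            (∀ z ∈ WA, α (z, 0) = 0) ∧ (∀ z ∈ WB, β (z, 0) = 0)) := by
  have hcl : Continuous (fun z : E => (l z).re) := Complex.continuous_re.comp l.continuous
  have hA : IsCompact (K ∩ {z | (l z).re ≤ b}) := hK.inter_right (isClosed_le hcl continuous_const)
  have hB : IsCompact (K ∩ {z | a ≤ (l z).re}) := hK.inter_right (isClosed_le continuous_const hcl)
  have hlin : IsLinearMap ℝ (fun z : E => (l z).re) :=
    ⟨fun x y => by simp, fun c x => by simp⟩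
  have hI : (K ∩ {z | (l z).re ≤ b}) ∩ (K ∩ {z | a ≤ (l z).re})
      = K ∩ {z | a ≤ (l z).re ∧ (l z).re ≤ b} := by
    ext z
    constructor
    · rintro ⟨⟨h1, h2⟩, ⟨_, h3⟩⟩
      exact ⟨h1, h3, h2⟩
    · rintro ⟨h1, h3, h2⟩
      exact ⟨⟨h1, h2⟩, ⟨h1, h3⟩⟩
  have hU : (K ∩ {z | (l z).re ≤ b}) ∪ (K ∩ {z | a ≤ (l z).re}) = K := by
    ext z
    constructor
    · rintro (h | h)
      · exact h.1
      · exact h.1
    · intro h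
      rcases le_total (l z).re b with h1 | h1
      · exact Or.inl ⟨h, h1⟩
      · exact Or.inr ⟨h, by show a ≤ (l z).re; linarith⟩
  have hpu : PshConvex ((K ∩ {z | (l z).re ≤ b}) ∪ (K ∩ {z | a ≤ (l z).re})) := by
    rw [hU]
    exact pshConvex_of_convex hK hc
  have hpi : PshConvex ((K ∩ {z | (l z).re ≤ b}) ∩ (K ∩ {z | a ≤ (l z).re})) := by
    refine pshConvex_of_convex (hA.inter hB) ?_
    exact (hc.inter (convex_halfSpace_le hlin b)).inter (hc.inter (convex_halfSpace_ge hlin a))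
  obtain ⟨δ0, UD, UB, h1, h2, h3, h4, h5, h6, h7⟩ := ngPair_core (m := m) hA hB hW
    (by rw [hI]; exact hWK) hpu hpi (η := η / r) (by positivity)
  refine ⟨UD, UB, r * (δ0 / 2), h2, h3, h4, h5, h6, by positivity, ?_⟩
  intro γ hγ hγε
  have hrC : (r : ℂ) ≠ 0 := by exact_mod_cast hr.ne'
  have hnr : ‖(r : ℂ)‖ = r := by rw [Complex.norm_real, Real.norm_eq_abs, abs_of_pos hr]
  have hnri : ‖(r : ℂ)⁻¹‖ = r⁻¹ := by rw [norm_inv, hnr]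
  have hsm : ∀ t ∈ ball (0 : Fin m → ℂ) 1, (r : ℂ) • t ∈ ball (0 : Fin m → ℂ) r := by
    intro t ht
    rw [mem_ball_zero_iff] at ht ⊢
    rw [norm_smul, hnr]
    calc r * ‖t‖ < r * 1 := mul_lt_mul_of_pos_left ht hr
      _ = r := mul_one r
  have hsm2 : ∀ t ∈ ball (0 : Fin m → ℂ) (r / 2), (r : ℂ)⁻¹ • t ∈ ball (0 : Fin m → ℂ) (1 / 2) := by
    intro t ht
    rw [mem_ball_zero_iff] at ht ⊢
    rw [norm_smul, hnri]
    calc r⁻¹ * ‖t‖ < r⁻¹ * (r / 2) := mul_lt_mul_of_pos_left ht (inv_pos.2 hr)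
      _ = 1 / 2 := by field_simp
  have hd1 : Differentiable ℂ (fun x : E × (Fin m → ℂ) => (x.1, (r : ℂ) • x.2)) :=
    differentiable_fst.prodMk (differentiable_snd.fun_const_smul _)
  have hd2 : Differentiable ℂ (fun x : E × (Fin m → ℂ) => (x.1, (r : ℂ)⁻¹ • x.2)) :=
    differentiable_fst.prodMk (differentiable_snd.fun_const_smul _)
  have hmaps1 : MapsTo (fun x : E × (Fin m → ℂ) => (x.1, (r : ℂ) • x.2))
      (W ×ˢ ball (0 : Fin m → ℂ) 1) (W ×ˢ ball (0 : Fin m → ℂ) r) :=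
    fun x hx => ⟨hx.1, hsm _ hx.2⟩
  have hmaps2 : ∀ V : Set E, MapsTo (fun x : E × (Fin m → ℂ) => (x.1, (r : ℂ)⁻¹ • x.2))
      (V ×ˢ ball (0 : Fin m → ℂ) (r / 2)) (V ×ˢ ball (0 : Fin m → ℂ) (1 / 2)) :=
    fun V x hx => ⟨hx.1, hsm2 _ hx.2⟩
  obtain ⟨α, β, g1, g2, g3, g4, g5, g6⟩ := h7 (fun x => (r : ℂ)⁻¹ • γ (x.1, (r : ℂ) • x.2))
    (DifferentiableOn.fun_const_smul (hγ.comp hd1.differentiableOn hmaps1) _)
    (by
      intro z hz t ht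
      have h8 := hγε z hz _ (hsm t ht)
      have e : (r : ℂ)⁻¹ • γ (z, (r : ℂ) • t) - t
          = (r : ℂ)⁻¹ • (γ (z, (r : ℂ) • t) - (r : ℂ) • t) := by
        rw [smul_sub, inv_smul_smul₀ hrC]
      show ‖(r : ℂ)⁻¹ • γ (z, (r : ℂ) • t) - t‖ < δ0
      rw [e, norm_smul, hnri]
      calc r⁻¹ * ‖γ (z, (r : ℂ) • t) - (r : ℂ) • t‖ ≤ r⁻¹ * (r * (δ0 / 2)) :=
            mul_le_mul_of_nonneg_left h8 (inv_pos.2 hr).le
        _ = δ0 / 2 := by field_simp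
        _ < δ0 := by linarith)
  have hb : ∀ {f : E × (Fin m → ℂ) → (Fin m → ℂ)} {z : E} {t : Fin m → ℂ},
      ‖f (z, (r : ℂ)⁻¹ • t) - (r : ℂ)⁻¹ • t‖ < η / r → ‖(r : ℂ) • f (z, (r : ℂ)⁻¹ • t) - t‖ ≤ η := by
    intro f z t h
    have e : (r : ℂ) • f (z, (r : ℂ)⁻¹ • t) - t
        = (r : ℂ) • (f (z, (r : ℂ)⁻¹ • t) - (r : ℂ)⁻¹ • t) := by
      rw [smul_sub, smul_inv_smul₀ hrC]
    rw [e, norm_smul, hnr]
    calc r * ‖f (z, (r : ℂ)⁻¹ • t) - (r : ℂ)⁻¹ • t‖ ≤ r * (η / r) :=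
          mul_le_mul_of_nonneg_left h.le hr.le
      _ = η := by field_simp
  refine ⟨fun x => (r : ℂ) • α (x.1, (r : ℂ)⁻¹ • x.2), fun x => (r : ℂ) • β (x.1, (r : ℂ)⁻¹ • x.2),
    DifferentiableOn.fun_const_smul (g1.comp hd2.differentiableOn (hmaps2 _)) _,
    DifferentiableOn.fun_const_smul (g2.comp hd2.differentiableOn (hmaps2 _)) _, ?_, ?_, ?_, ?_⟩
  · intro z hz t ht
    exact hb (f := α) (g3 z hz _ (hsm2 t ht))
  · intro z hz t ht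
    exact hb (f := β) (g4 z hz _ (hsm2 t ht))
  · intro z hz t ht
    have h8 := g5 z hz _ (hsm2 t ht)
    have h9 : (r : ℂ)⁻¹ • γ (z, (r : ℂ) • α (z, (r : ℂ)⁻¹ • t)) = β (z, (r : ℂ)⁻¹ • t) := h8
    show γ (z, (r : ℂ) • α (z, (r : ℂ)⁻¹ • t)) = (r : ℂ) • β (z, (r : ℂ)⁻¹ • t)
    rw [← h9, smul_inv_smul₀ hrC]
  · intro h0
    have h8 := g6 (fun z hz => by
      show (r : ℂ)⁻¹ • γ (z, (r : ℂ) • (0 : Fin m → ℂ)) = 0
      rw [smul_zero, h0 z hz, smul_zero])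
    refine ⟨fun z hz => ?_, fun z hz => ?_⟩
    · show (r : ℂ) • α (z, (r : ℂ)⁻¹ • (0 : Fin m → ℂ)) = 0
      rw [smul_zero, h8.1 z hz, smul_zero]
    · show (r : ℂ) • β (z, (r : ℂ)⁻¹ • (0 : Fin m → ℂ)) = 0
      rw [smul_zero, h8.2 z hz, smul_zero]

end OkaP
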