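import Mathlib

set_option autoImplicit false
open Set Metric Filter
open scoped Topology

noncomputable section
namespace OkaP

variable {E : Type} [NormedAddCommGroup E] [NormedSpace ℂ E] [FiniteDimensional ℂ E]

theorem ConvInd.convex_half_le {K' : Set E} (hc : Convex ℝ K') (l : E →L[ℂ] ℂ) (b : ℝ) :
    Convex ℝ (K' ∩ {z | (l z).re ≤ b}) := by
  refine hc.inter ?_
  exact convex_halfSpace_le (f := fun z : E => (l z).re)
    ⟨fun x y => by simp, fun c x => by simp⟩ b

theorem ConvInd.convex_half_ge {K' : Set E} (hc : Convex ℝ K') (l : E →L[ℂ] ℂ) (a : ℝ) :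
    Convex ℝ (K' ∩ {z | a ≤ (l z).re}) := by
  refine hc.inter ?_
  exact convex_halfSpace_ge (f := fun z : E => (l z).re)
    ⟨fun x y => by simp, fun c x => by simp⟩ a

theorem ConvInd.closed_half_le (l : E →L[ℂ] ℂ) (b : ℝ) : IsClosed {z : E | (l z).re ≤ b} :=
  isClosed_le (Complex.continuous_re.comp l.continuous) continuous_const

theorem ConvInd.closed_half_ge (l : E →L[ℂ] ℂ) (a : ℝ) : IsClosed {z : E | a ≤ (l z).re} :=
  isClosed_le continuous_const (Complex.continuous_re.comp l.continuous)

/-- finitely many real parts of complex linear functionals control the norm. -/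
theorem ConvInd.exists_functionals : ∃ (ι : Type) (_ : Fintype ι) (l : ι → E →L[ℂ] ℂ) (C : ℝ),
    0 < C ∧ ∀ (x : E) (δ : ℝ), (∀ j, |(l j x).re| ≤ δ) → 0 ≤ δ → ‖x‖ ≤ C * δ := by
  classical
  let bs := Module.finBasis ℂ E
  let e : E ≃L[ℂ] (Fin (Module.finrank ℂ E) → ℂ) := bs.equivFunL
  refine ⟨Fin (Module.finrank ℂ E) × Bool, inferInstance, fun p => if p.2 then
    (-Complex.I) • ((ContinuousLinearMap.proj p.1).comp (e : E →L[ℂ] (Fin (Module.finrank ℂ E) → ℂ)))
    else (ContinuousLinearMap.proj p.1).comp (e : E →L[ℂ] (Fin (Module.finrank ℂ E) → ℂ)),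
    (‖(e.symm : (Fin (Module.finrank ℂ E) → ℂ) →L[ℂ] E)‖ + 1) * 2, by positivity, ?_⟩
  intro x δ h hδ
  have h1 : ∀ i, ‖e x i‖ ≤ 2 * δ := by
    intro i
    have h2 := h (i, false)
    have h3 := h (i, true)
    have h2' : |(e x i).re| ≤ δ := by simpa using h2
    have h3' : |(e x i).im| ≤ δ := by
      have : ((if (i, true).2 then
        (-Complex.I) • ((ContinuousLinearMap.proj (i, true).1).comp
          (e : E →L[ℂ] (Fin (Module.finrank ℂ E) → ℂ)))
        else (ContinuousLinearMap.proj (i, true).1).comp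
          (e : E →L[ℂ] (Fin (Module.finrank ℂ E) → ℂ)) : E →L[ℂ] ℂ) x).re = (e x i).im := by
        simp
      rw [this] at h3
      exact h3
    calc ‖e x i‖ ≤ |(e x i).re| + |(e x i).im| := Complex.norm_le_abs_re_add_abs_im _
      _ ≤ 2 * δ := by linarith
  have h4 : ‖e x‖ ≤ 2 * δ := (pi_norm_le_iff_of_nonneg (by positivity)).2 h1
  calc ‖x‖ = ‖(e.symm : (Fin (Module.finrank ℂ E) → ℂ) →L[ℂ] E) (e x)‖ := by simp
    _ ≤ ‖(e.symm : (Fin (Module.finrank ℂ E) → ℂ) →L[ℂ] E)‖ * ‖e x‖ :=
        ContinuousLinearMap.le_opNorm _ _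
    _ ≤ (‖(e.symm : (Fin (Module.finrank ℂ E) → ℂ) →L[ℂ] E)‖ + 1) * (2 * δ) := by
        gcongr
        linarith
    _ = _ := by ring

/-- Induction over convex compact sets: a property which holds for all small convex compact
subsets and passes from two overlapping halves (cut by real parts of complex linear functionals)
to the whole holds for `K`. -/
theorem convex_induction {K : Set E} (hK : IsCompact K) (hc : Convex ℝ K) (P : Set E → Prop)
    (loc : ∀ z ∈ K, ∃ r > 0, ∀ K' ⊆ K ∩ closedBall z r, IsCompact K' → Convex ℝ K' → P K')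
    (hempty : P ∅)
    (split : ∀ K' ⊆ K, IsCompact K' → Convex ℝ K' → ∀ (l : E →L[ℂ] ℂ) (a b : ℝ), a < b →
      P (K' ∩ {z | (l z).re ≤ b}) → P (K' ∩ {z | a ≤ (l z).re}) → P K') : P K := by
  classical
  obtain ⟨ι, hι, l, C, hC, hl⟩ := ConvInd.exists_functionals (E := E)
  -- Lebesgue number
  choose r hr hP using loc
  obtain ⟨δ, hδ, hleb⟩ := lebesgue_number_lemma_of_metric (s := K) (ι := K)
    (c := fun z => ball z.1 (r z.1 z.2)) hK (fun z => isOpen_ball)
    (fun z hz => mem_iUnion.2 ⟨⟨z, hz⟩, mem_ball_self (hr z hz)⟩)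
  let δ' : ℝ := δ / (2 * C)
  have hδ' : 0 < δ' := by positivity
  let η : ℝ := δ' / (3 * ((Fintype.card ι : ℝ) + 1))
  have hη : 0 < η := by positivity
  -- small sets
  have base : ∀ K' ⊆ K, IsCompact K' → Convex ℝ K' → ∀ a b : ι → ℝ,
      (∀ z ∈ K', ∀ j, a j ≤ (l j z).re ∧ (l j z).re ≤ b j) → ∑ j, (b j - a j) ≤ δ' → P K' := by
    intro K' hK'K hK'c hK'v a b hab hsum
    rcases K'.eq_empty_or_nonempty with hemp | ⟨z₀, hz₀⟩
    · rw [hemp]; exact hempty
    · have hpos : ∀ j, 0 ≤ b j - a j := fun j => by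
        have := hab z₀ hz₀ j; linarith [this.1, this.2]
      obtain ⟨⟨z, hz⟩, hzb⟩ := hleb z₀ (hK'K hz₀)
      refine hP z hz K' ?_ hK'c hK'v
      intro y hy
      refine ⟨hK'K hy, ?_⟩
      have hy0 : ‖y - z₀‖ ≤ C * δ' := by
        refine hl (y - z₀) δ' (fun j => ?_) hδ'.le
        have h1 := hab y hy j
        have h2 := hab z₀ hz₀ j
        have h3 : b j - a j ≤ δ' :=
          le_trans (Finset.single_le_sum (fun i _ => hpos i) (Finset.mem_univ j)) hsum
        rw [map_sub, Complex.sub_re, abs_le]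
        constructor <;> linarith [h1.1, h1.2, h2.1, h2.2]
      have hy1 : y ∈ ball z₀ δ := by
        rw [mem_ball, dist_eq_norm]
        refine lt_of_le_of_lt hy0 ?_
        have : C * δ' = δ / 2 := by
          simp only [δ']; field_simp
        rw [this]; linarith
      exact ball_subset_closedBall (hzb hy1)
  -- induction
  have key : ∀ n : ℕ, ∀ K' ⊆ K, IsCompact K' → Convex ℝ K' → ∀ a b : ι → ℝ,
      (∀ z ∈ K', ∀ j, a j ≤ (l j z).re ∧ (l j z).re ≤ b j) →
      ∑ j, (b j - a j) ≤ δ' + n * η → P K' := by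
    intro n
    induction n with
    | zero =>
      intro K' h1 h2 h3 a b h4 h5
      exact base K' h1 h2 h3 a b h4 (by simpa using h5)
    | succ n ih =>
      intro K' hK'K hK'c hK'v a b hab hsum
      by_cases hs : ∑ j, (b j - a j) ≤ δ'
      · exact base K' hK'K hK'c hK'v a b hab hs
      · push Not at hs
        -- index of maximal width
        obtain ⟨j, hj⟩ : ∃ j, δ' / ((Fintype.card ι : ℝ) + 1) ≤ b j - a j := by
          by_contra hcon
          push Not at hcon
          have h1 : ∑ j, (b j - a j) ≤ ∑ j : ι, δ' / ((Fintype.card ι : ℝ) + 1) :=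
            Finset.sum_le_sum fun j _ => (hcon j).le
          rw [Finset.sum_const, Finset.card_univ, nsmul_eq_mul] at h1
          have h2 : (Fintype.card ι : ℝ) * (δ' / ((Fintype.card ι : ℝ) + 1)) ≤ δ' := by
            rw [mul_div_assoc', div_le_iff₀ (by positivity)]
            nlinarith
          linarith
        have hw : 0 < b j - a j := lt_of_lt_of_le (by positivity) hj
        have hη3 : η ≤ (b j - a j) / 3 := by
          have : η = δ' / ((Fintype.card ι : ℝ) + 1) / 3 := by
            simp only [η]; field_simp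
          rw [this]; linarith
        have hupd : ∀ (f : ι → ℝ) (x : ℝ) , ∑ i, Function.update f j x i
            = ∑ i, f i - f j + x := by
          intro f x
          rw [Finset.sum_update_of_mem (Finset.mem_univ j)]
          have := Finset.add_sum_erase Finset.univ f (Finset.mem_univ j)
          rw [← Finset.erase_eq] 
          linarith
        refine split K' hK'K hK'c hK'v (l j) (a j + (b j - a j) / 3) (b j - (b j - a j) / 3)
          (by linarith) ?_ ?_
        · refine ih _ (inter_subset_left.trans hK'K) (hK'c.inter_right (ConvInd.closed_half_le _ _))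
            (ConvInd.convex_half_le hK'v _ _) a (Function.update b j (b j - (b j - a j) / 3)) ?_ ?_
          · rintro z ⟨hz, hz2⟩ i
            refine ⟨(hab z hz i).1, ?_⟩
            by_cases hij : i = j
            · subst hij; rw [Function.update_self]; exact hz2
            · rw [Function.update_of_ne hij]; exact (hab z hz i).2
          · rw [Finset.sum_sub_distrib, hupd]
            rw [Finset.sum_sub_distrib] at hsum
            push_cast at hsum
            linarith
        · refine ih _ (inter_subset_left.trans hK'K) (hK'c.inter_right (ConvInd.closed_half_ge _ _))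
            (ConvInd.convex_half_ge hK'v _ _) (Function.update a j (a j + (b j - a j) / 3)) b ?_ ?_
          · rintro z ⟨hz, hz2⟩ i
            refine ⟨?_, (hab z hz i).2⟩
            by_cases hij : i = j
            · subst hij; rw [Function.update_self]; exact hz2
            · rw [Function.update_of_ne hij]; exact (hab z hz i).1
          · rw [Finset.sum_sub_distrib, hupd]
            rw [Finset.sum_sub_distrib] at hsum
            push_cast at hsum
            linarith
  -- bounds on `K`
  have hbd : ∀ j, ∃ M : ℝ, ∀ z ∈ K, ‖(l j z).re‖ ≤ M := fun j =>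
    hK.exists_bound_of_continuousOn (Complex.continuous_re.comp (l j).continuous).continuousOn
  choose M hM using hbd
  obtain ⟨n, hn⟩ := exists_nat_ge ((∑ j, (M j - - M j)) / η)
  refine key n K Subset.rfl hK hc (fun j => - M j) M (fun z hz j => ?_) ?_
  · have := hM j z hz
    rw [Real.norm_eq_abs, abs_le] at this
    exact this
  · rw [div_le_iff₀ hη] at hn
    linarith

/-- a convex compact set inside an open set is, within a given compact set, cut out by finitely
many half spaces contained in the open set. -/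
theorem polytope_approx {K U L : Set E} (hK : IsCompact K) (hc : Convex ℝ K) (hU : IsOpen U)
    (hKU : K ⊆ U) (hL : IsCompact L) :
    ∃ (N : ℕ) (l : Fin N → E →L[ℂ] ℂ) (b : Fin N → ℝ), (∀ i, ∀ z ∈ K, (l i z).re < b i) ∧
      L ∩ {z | ∀ i, (l i z).re ≤ b i} ⊆ U := by
  classical
  have hLU : IsCompact (L \ U) := hL.diff hU
  have hsep : ∀ y : E, ∃ (l : E →L[ℂ] ℂ) (b : ℝ), y ∈ L \ U →
      (∀ z ∈ K, (l z).re < b) ∧ b < (l y).re := by
    intro y
    by_cases hy : y ∈ L \ U
    · obtain ⟨l, b, h1, h2⟩ := RCLike.geometric_hahn_banach_closed_point (𝕜 := ℂ) hc hK.isClosed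
        (fun h => hy.2 (hKU h))
      exact ⟨l, b, fun _ => ⟨h1, h2⟩⟩
    · exact ⟨0, 0, fun h => absurd h hy⟩
  choose l b hlb using hsep
  obtain ⟨t, ht1, ht2⟩ := hLU.elim_nhds_subcover (fun y => {z | b y < (l y z).re}) (fun y hy =>
    (isOpen_lt continuous_const (Complex.continuous_re.comp (l y).continuous)).mem_nhds
      (hlb y hy).2)
  refine ⟨t.card, fun i => l (t.equivFin.symm i), fun i => b (t.equivFin.symm i), ?_, ?_⟩
  · intro i z hz
    exact (hlb _ (ht1 _ (t.equivFin.symm i).2)).1 z hz
  · rintro z ⟨hzL, hz⟩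
    by_contra hzU
    have := ht2 ⟨hzL, hzU⟩
    simp only [mem_iUnion] at this
    obtain ⟨y, hy, hyz⟩ := this
    have h1 := hz (t.equivFin ⟨y, hy⟩)
    simp only [Equiv.symm_apply_apply] at h1
    exact absurd h1 (not_le.2 hyz)

/-- chain version: a property of convex compact sets that is inherited when one half space
constraint is removed passes from a neighbourhood of `K` to `L`. -/
theorem convex_chain {K L : Set E} (hK : IsCompact K) (hcK : Convex ℝ K) (hL : IsCompact L)
    (hcL : Convex ℝ L) (hKL : K ⊆ L) {U : Set E} (hU : IsOpen U) (hKU : K ⊆ U) (P : Set E → Prop)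
    (start : ∀ K' : Set E, IsCompact K' → Convex ℝ K' → K ⊆ K' → K' ⊆ U → K' ⊆ L → P K')
    (step : ∀ (K' : Set E) (l : E →L[ℂ] ℂ) (b : ℝ), IsCompact K' → Convex ℝ K' → K ⊆ K' → K' ⊆ L →
      (∀ z ∈ K, (l z).re < b) → P (K' ∩ {z | (l z).re ≤ b}) → P K') : P L := by
  classical
  obtain ⟨N, l, b, h1, h2⟩ := polytope_approx hK hcK hU hKU hL
  let Lj : ℕ → Set E := fun j => L ∩ {z | ∀ i : Fin N, i.val < j → (l i z).re ≤ b i}
  have hset : ∀ j, {z : E | ∀ i : Fin N, i.val < j → (l i z).re ≤ b i}
      = ⋂ i : Fin N, ⋂ _ : i.val < j, {z | (l i z).re ≤ b i} := by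
    intro j; ext z; simp
  have hLc : ∀ j, IsCompact (Lj j) := by
    intro j
    refine hL.inter_right ?_
    rw [hset]
    exact isClosed_iInter fun i => isClosed_iInter fun _ => ConvInd.closed_half_le _ _
  have hLv : ∀ j, Convex ℝ (Lj j) := by
    intro j
    refine hcL.inter ?_
    rw [hset]
    refine convex_iInter fun i => convex_iInter fun _ => ?_
    have := ConvInd.convex_half_le (convex_univ (𝕜 := ℝ) (E := E)) (l i) (b i)
    rwa [univ_inter] at this
  have hKL' : ∀ j, K ⊆ Lj j := fun j z hz => ⟨hKL hz, fun i _ => (h1 i z hz).le⟩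
  have hLL : ∀ j, Lj j ⊆ L := fun j => inter_subset_left
  have hdown : ∀ d j, j + d = N → P (Lj j) := by
    intro d
    induction d with
    | zero =>
      intro j hj
      refine start _ (hLc j) (hLv j) (hKL' j) ?_ (hLL j)
      rintro z ⟨hz1, hz2⟩
      exact h2 ⟨hz1, fun i => hz2 i (by have := i.2; omega)⟩
    | succ d ih =>
      intro j hj
      have hjN : j < N := by omega
      refine step (Lj j) (l ⟨j, hjN⟩) (b ⟨j, hjN⟩) (hLc j) (hLv j) (hKL' j) (hLL j) (h1 _) ?_
      have : Lj j ∩ {z | (l ⟨j, hjN⟩ z).re ≤ b ⟨j, hjN⟩} = Lj (j + 1) := by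
        ext z
        constructor
        · rintro ⟨⟨hz1, hz2⟩, hz3⟩
          refine ⟨hz1, fun i hi => ?_⟩
          rcases Nat.lt_succ_iff_lt_or_eq.1 hi with h | h
          · exact hz2 i h
          · have : i = ⟨j, hjN⟩ := Fin.ext h
            rw [this]; exact hz3
        · rintro ⟨hz1, hz2⟩
          exact ⟨⟨hz1, fun i hi => hz2 i (by omega)⟩, hz2 ⟨j, hjN⟩ (Nat.lt_succ_self j)⟩
      rw [this]
      exact ih (j + 1) (by omega)
  have h0 := hdown N 0 (by omega)
  have : Lj 0 = L := by
    ext z
    simp [Lj]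
  rwa [this] at h0

end OkaP
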