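import Pool.Agent.H.MP_ceb9a9.RungeConvex

set_option autoImplicit false
open Set Metric Filter
open scoped Topology

noncomputable section
namespace OkaP

variable {E V : Type} [NormedAddCommGroup E] [NormedSpace ℂ E] [FiniteDimensional ℂ E]
  [NormedAddCommGroup V] [NormedSpace ℂ V] [FiniteDimensional ℂ V]

theorem glApprox_exp_diff : Differentiable ℂ (NormedSpace.exp : (V →L[ℂ] V) → (V →L[ℂ] V)) := by
  have : CompleteSpace (V →L[ℂ] V) := FiniteDimensional.complete ℂ _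
  intro x
  exact (NormedSpace.exp_analytic (𝕂 := ℂ) x).differentiableAt

theorem glApprox_isUnit_exp (x : V →L[ℂ] V) : IsUnit (NormedSpace.exp x) := by
  have : CompleteSpace (V →L[ℂ] V) := FiniteDimensional.complete ℂ _
  letI : NormedAlgebra ℚ (V →L[ℂ] V) := NormedAlgebra.restrictScalars ℚ ℂ _
  exact NormedSpace.isUnit_exp x

/-- holomorphic logarithm of a holomorphic map close to the identity. -/
theorem log_near_one : ∃ δ > 0, ∀ (U : Set E) (M : E → (V →L[ℂ] V)), IsOpen U →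
    DifferentiableOn ℂ M U → (∀ z ∈ U, ‖M z - 1‖ < δ) →
    ∃ A : E → (V →L[ℂ] V), DifferentiableOn ℂ A U ∧ ∀ z ∈ U, NormedSpace.exp (A z) = M z := by
  have : CompleteSpace (V →L[ℂ] V) := FiniteDimensional.complete ℂ _
  have h0 : HasStrictFDerivAt (NormedSpace.exp : (V →L[ℂ] V) → (V →L[ℂ] V))
      (1 : (V →L[ℂ] V) →L[ℂ] (V →L[ℂ] V)) 0 := hasStrictFDerivAt_exp_zero
  have hcd : ContDiffAt ℂ 1 (NormedSpace.exp : (V →L[ℂ] V) → (V →L[ℂ] V)) 0 :=
    (NormedSpace.exp_analytic (𝕂 := ℂ) (0 : V →L[ℂ] V)).contDiffAt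
  have h1 : HasFDerivAt (NormedSpace.exp : (V →L[ℂ] V) → (V →L[ℂ] V))
      ((ContinuousLinearEquiv.refl ℂ (V →L[ℂ] V) : (V →L[ℂ] V) ≃L[ℂ] (V →L[ℂ] V)) :
        (V →L[ℂ] V) →L[ℂ] (V →L[ℂ] V)) 0 := by
    exact h0.hasFDerivAt
  have hn : (1 : WithTop ℕ∞) ≠ 0 := by simp
  have hL := hcd.to_localInverse h1 hn
  rw [NormedSpace.exp_zero] at hL
  have hev : ∀ᶠ y in 𝓝 (1 : V →L[ℂ] V), DifferentiableAt ℂ (hcd.localInverse h1 hn) y := by
    have h2 := hL.eventually (by simp)
    filter_upwards [h2] with y hy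
    exact hy.differentiableAt (by simp)
  have hri : ∀ᶠ y in 𝓝 (1 : V →L[ℂ] V), NormedSpace.exp (hcd.localInverse h1 hn y) = y := by
    have h3 := (hcd.hasStrictFDerivAt' h1 hn).eventually_right_inverse
    rw [NormedSpace.exp_zero] at h3
    exact h3
  obtain ⟨δ, hδ, hball⟩ := Metric.eventually_nhds_iff.mp (hev.and hri)
  refine ⟨δ, hδ, fun U M hU hM hMb => ⟨fun z => hcd.localInverse h1 hn (M z), ?_, ?_⟩⟩
  · intro z hz
    have h4 := (hball (y := M z) (by rw [dist_eq_norm]; exact hMb z hz)).1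
    exact h4.comp_differentiableWithinAt z (hM z hz)
  · intro z hz
    exact (hball (y := M z) (by rw [dist_eq_norm]; exact hMb z hz)).2

/-- approximation of an exponential. -/
theorem glApprox_exp {K W : Set E} (hK : IsCompact K) (hc : Convex ℝ K) (hW : IsOpen W)
    (hKW : K ⊆ W) {A : E → (V →L[ℂ] V)} (hA : DifferentiableOn ℂ A W)
    {ε : ℝ} (hε : 0 < ε) :
    ∃ B : E → (V →L[ℂ] V), Differentiable ℂ B ∧
      ∀ z ∈ K, ‖NormedSpace.exp (A z) - NormedSpace.exp (B z)‖ < ε := by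
  have hAK : IsCompact (A '' K) := hK.image_of_continuousOn (hA.continuousOn.mono hKW)
  have h1 := hAK.uniformContinuousAt_of_continuousAt
    (NormedSpace.exp : (V →L[ℂ] V) → (V →L[ℂ] V))
    (fun a _ => (glApprox_exp_diff a).continuousAt) (Metric.dist_mem_uniformity hε)
  obtain ⟨η, hη, h2⟩ := Metric.mem_uniformity_dist.mp h1
  obtain ⟨B, hB, hAB⟩ := runge_convex hK hc hW hKW hA hη
  refine ⟨B, hB, fun z hz => ?_⟩
  have h3 := h2 (a := A z) (b := B z) (by rw [dist_eq_norm]; exact hAB z hz)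
  have h4 := h3 (mem_image_of_mem A hz)
  simpa [dist_eq_norm] using h4

/-- one multiplication step. -/
theorem glApprox_step {K W : Set E} (hK : IsCompact K) (hc : Convex ℝ K) (hW : IsOpen W)
    (hKW : K ⊆ W) {P A : E → (V →L[ℂ] V)} (hA : DifferentiableOn ℂ A W)
    (hP : ∀ ε > 0, ∃ N : E → (V →L[ℂ] V), Differentiable ℂ N ∧ (∀ z, IsUnit (N z)) ∧
      ∀ z ∈ K, ‖P z - N z‖ < ε) {ε : ℝ} (hε : 0 < ε) :
    ∃ N : E → (V →L[ℂ] V), Differentiable ℂ N ∧ (∀ z, IsUnit (N z)) ∧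
      ∀ z ∈ K, ‖P z * NormedSpace.exp (A z) - N z‖ < ε := by
  have hcont : ContinuousOn (fun z => NormedSpace.exp (A z)) K :=
    (glApprox_exp_diff.continuous).comp_continuousOn (hA.continuousOn.mono hKW)
  obtain ⟨C, hC⟩ := hK.exists_bound_of_continuousOn hcont
  have hC1 : 0 < |C| + 1 := by positivity
  obtain ⟨N, hN, hNu, hPN⟩ := hP (ε / (2 * (|C| + 1))) (by positivity)
  obtain ⟨D, hD⟩ := hK.exists_bound_of_continuousOn hN.continuous.continuousOn
  have hD1 : 0 < |D| + 1 := by positivity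
  obtain ⟨B, hB, hAB⟩ := glApprox_exp hK hc hW hKW hA
    (show 0 < ε / (2 * (|D| + 1)) by positivity)
  refine ⟨fun z => N z * NormedSpace.exp (B z), ?_, ?_, ?_⟩
  · intro z
    exact (hN z).mul ((glApprox_exp_diff (B z)).comp z (hB z))
  · intro z
    exact (hNu z).mul (glApprox_isUnit_exp _)
  · intro z hz
    have e1 : P z * NormedSpace.exp (A z) - N z * NormedSpace.exp (B z) =
        (P z - N z) * NormedSpace.exp (A z) +
          N z * (NormedSpace.exp (A z) - NormedSpace.exp (B z)) := by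
      noncomm_ring
    have b1 : ‖NormedSpace.exp (A z)‖ ≤ |C| + 1 := by
      have := hC z hz
      have h' := le_abs_self C
      linarith
    have b2 : ‖N z‖ ≤ |D| + 1 := by
      have := hD z hz
      have h' := le_abs_self D
      linarith
    have c1 : ‖(P z - N z) * NormedSpace.exp (A z)‖ ≤ ‖P z - N z‖ * (|C| + 1) :=
      (norm_mul_le _ _).trans (mul_le_mul_of_nonneg_left b1 (norm_nonneg _))
    have c2 : ‖N z * (NormedSpace.exp (A z) - NormedSpace.exp (B z))‖ ≤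
        (|D| + 1) * ‖NormedSpace.exp (A z) - NormedSpace.exp (B z)‖ :=
      (norm_mul_le _ _).trans (mul_le_mul_of_nonneg_right b2 (norm_nonneg _))
    have d1 : ‖P z - N z‖ * (|C| + 1) < ε / 2 := by
      have := mul_lt_mul_of_pos_right (hPN z hz) hC1
      calc _ < ε / (2 * (|C| + 1)) * (|C| + 1) := this
        _ = ε / 2 := by field_simp
    have d2 : (|D| + 1) * ‖NormedSpace.exp (A z) - NormedSpace.exp (B z)‖ < ε / 2 := by
      have := mul_lt_mul_of_pos_left (hAB z hz) hD1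
      calc _ < (|D| + 1) * (ε / (2 * (|D| + 1))) := this
        _ = ε / 2 := by field_simp
    rw [e1]
    calc _ ≤ _ := norm_add_le _ _
      _ < ε := by linarith

/-- `GL(V)`-valued holomorphic maps near a convex compact set are approximable by entire
`GL(V)`-valued maps. -/
theorem gl_approx {K U : Set E} (hK : IsCompact K) (hc : Convex ℝ K) (hU : IsOpen U) (hKU : K ⊆ U)
    {M : E → (V →L[ℂ] V)} (hM : DifferentiableOn ℂ M U) (hinv : ∀ z ∈ U, IsUnit (M z))
    {ε : ℝ} (hε : 0 < ε) :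
    ∃ N : E → (V →L[ℂ] V), Differentiable ℂ N ∧ (∀ z, IsUnit (N z)) ∧
      ∀ z ∈ K, ‖M z - N z‖ < ε := by
  have hcV : CompleteSpace (V →L[ℂ] V) := FiniteDimensional.complete ℂ _
  have hpE : ProperSpace E := FiniteDimensional.proper ℂ E
  rcases K.eq_empty_or_nonempty with rfl | ⟨c, hcK⟩
  · exact ⟨fun _ => 1, differentiable_const _, fun _ => isUnit_one, fun z hz => absurd hz (by simp)⟩
  obtain ⟨r, hr, hrU⟩ := hK.exists_cthickening_subset_open hU hKU
  set K1 := cthickening r K with hK1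
  set W := thickening r K with hWdef
  have hK1c : IsCompact K1 := hK.cthickening
  have hK1v : Convex ℝ K1 := hc.cthickening r
  have hWo : IsOpen W := isOpen_thickening
  have hKW : K ⊆ W := self_subset_thickening hr K
  have hWK1 : W ⊆ K1 := thickening_subset_cthickening r K
  have hcK1 : c ∈ K1 := hWK1 (hKW hcK)
  obtain ⟨δ, hδ, hlog⟩ := log_near_one (E := E) (V := V)
  have hmem : ∀ t : ℝ, t ∈ Icc (0:ℝ) 1 → ∀ z ∈ K1, c + (t : ℂ) • (z - c) ∈ K1 := by
    intro t ht z hz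
    have := hK1v hcK1 hz (sub_nonneg.mpr ht.2) ht.1 (by ring)
    convert this using 1
    rw [show ((t : ℂ) • (z - c)) = t • (z - c) from (Complex.coe_smul t (z - c))]
    module
  set h : (ℝ × ℝ) × E → (V →L[ℂ] V) := fun p =>
    Ring.inverse (M (c + (p.1.1 : ℂ) • (p.2 - c))) * M (c + (p.1.2 : ℂ) • (p.2 - c)) with hh
  have hcpt : IsCompact ((Icc (0:ℝ) 1 ×ˢ Icc (0:ℝ) 1) ×ˢ K1) :=
    (isCompact_Icc.prod isCompact_Icc).prod hK1c
  have hcont : ContinuousOn h ((Icc (0:ℝ) 1 ×ˢ Icc (0:ℝ) 1) ×ˢ K1) := by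
    have hMc : ContinuousOn M K1 := hM.continuousOn.mono hrU
    have hIc : ContinuousOn (fun z => Ring.inverse (M z)) K1 :=
      (hM.inverse hinv).continuousOn.mono hrU
    apply ContinuousOn.mul
    · refine hIc.comp (f := fun p : (ℝ × ℝ) × E => c + (p.1.1 : ℂ) • (p.2 - c)) ?_ ?_
      · exact Continuous.continuousOn (by fun_prop)
      · rintro ⟨⟨a, b⟩, z⟩ ⟨⟨ha, hb⟩, hz⟩
        exact hmem a ha z hz
    · refine hMc.comp (f := fun p : (ℝ × ℝ) × E => c + (p.1.2 : ℂ) • (p.2 - c)) ?_ ?_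
      · exact Continuous.continuousOn (by fun_prop)
      · rintro ⟨⟨a, b⟩, z⟩ ⟨⟨ha, hb⟩, hz⟩
        exact hmem b hb z hz
  obtain ⟨η, hη, hunif⟩ := Metric.uniformContinuousOn_iff.mp
    (hcpt.uniformContinuousOn_of_continuous hcont) δ hδ
  obtain ⟨k, hk⟩ := exists_nat_gt (1 / η)
  have hkpos : (0:ℝ) < k := lt_trans (by positivity) hk
  have hk1 : 1 / (k:ℝ) < η := by
    rw [div_lt_iff₀ hkpos]
    rw [div_lt_iff₀ hη] at hk
    linarith
  -- the induction
  have key : ∀ j : ℕ, j ≤ k → ∀ ε > 0, ∃ N : E → (V →L[ℂ] V), Differentiable ℂ N ∧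
      (∀ z, IsUnit (N z)) ∧ ∀ z ∈ K, ‖M (c + (((j:ℝ) / k : ℝ) : ℂ) • (z - c)) - N z‖ < ε := by
    intro j
    induction j with
    | zero =>
      intro _ ε hε
      refine ⟨fun _ => M c, differentiable_const _, fun _ => hinv c (hKU hcK), fun z _ => ?_⟩
      simpa using hε
    | succ j ih =>
      intro hj ε hε
      have hj' : (j:ℝ) + 1 ≤ k := by exact_mod_cast hj
      have ht0 : ((j:ℝ) / k) ∈ Icc (0:ℝ) 1 :=
        ⟨by positivity, by rw [div_le_one hkpos]; linarith⟩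
      have ht1 : (((j+1 : ℕ):ℝ) / k) ∈ Icc (0:ℝ) 1 :=
        ⟨by positivity, by rw [div_le_one hkpos]; push_cast; linarith⟩
      have haff : ∀ t : ℝ, Differentiable ℂ (fun z : E => c + (t : ℂ) • (z - c)) := by
        intro t
        fun_prop
      have hMj : ∀ t : ℝ, t ∈ Icc (0:ℝ) 1 →
          DifferentiableOn ℂ (fun z : E => M (c + (t : ℂ) • (z - c))) W := by
        intro t ht
        exact hM.comp (haff t).differentiableOn (fun z hz => hrU (hmem t ht z (hWK1 hz)))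
      have hIj : ∀ t : ℝ, t ∈ Icc (0:ℝ) 1 →
          DifferentiableOn ℂ (fun z : E => Ring.inverse (M (c + (t : ℂ) • (z - c)))) W := by
        intro t ht
        exact (hMj t ht).inverse (fun z hz => hinv _ (hrU (hmem t ht z (hWK1 hz))))
      have hq : DifferentiableOn ℂ (fun z : E => h (((j:ℝ)/k, ((j+1:ℕ):ℝ)/k), z)) W :=
        (hIj _ ht0).mul (hMj _ ht1)
      obtain ⟨A, hA, hAe⟩ := hlog W _ hWo hq (by
        intro z hz
        have hone : h (((j:ℝ)/k, (j:ℝ)/k), z) = 1 := by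
          simp only [hh]
          exact Ring.inverse_mul_cancel _ (hinv _ (hrU (hmem _ ht0 z (hWK1 hz))))
        rw [← hone, ← dist_eq_norm]
        apply hunif
        · exact ⟨⟨ht0, ht1⟩, hWK1 hz⟩
        · exact ⟨⟨ht0, ht0⟩, hWK1 hz⟩
        · have e1 : dist ((((j:ℝ)/k, ((j+1:ℕ):ℝ)/k), z) : (ℝ × ℝ) × E)
              (((j:ℝ)/k, (j:ℝ)/k), z) = 1 / (k:ℝ) := by
            rw [Prod.dist_eq, Prod.dist_eq]
            simp only [dist_self, Real.dist_eq]
            rw [show ((j+1:ℕ):ℝ)/k - (j:ℝ)/k = 1 / k by push_cast; ring]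
            have : (0:ℝ) < 1 / k := by positivity
            rw [abs_of_pos this]
            rw [max_eq_right this.le, max_eq_left this.le]
          rw [e1]
          exact hk1)
      obtain ⟨N, hN, hNu, hNb⟩ := glApprox_step hK hc hWo hKW hA (ih (by omega)) hε
      refine ⟨N, hN, hNu, fun z hz => ?_⟩
      have h5 := hNb z hz
      rw [hAe z (hKW hz)] at h5
      simp only [hh] at h5
      rw [← mul_assoc, Ring.mul_inverse_cancel _
        (hinv _ (hrU (hmem _ ht0 z (hWK1 (hKW hz))))), one_mul] at h5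
      exact h5
  obtain ⟨N, hN, hNu, hNb⟩ := key k le_rfl ε hε
  refine ⟨N, hN, hNu, fun z hz => ?_⟩
  have h6 := hNb z hz
  rw [div_self hkpos.ne'] at h6
  simpa using h6

end OkaP
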