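import Pool.Agent.H.MP_ceb9a9.FamLocal
import Pool.Agent.H.MP_ceb9a9.ConvInd
import Pool.Agent.H.MP_ceb9a9.GlApprox
import Pool.Agent.H.MP_ceb9a9.CartanConvex

set_option autoImplicit false
open Set Metric Filter
open scoped Topology Manifold

noncomputable section
namespace OkaP

section aux

variable {E V : Type} [NormedAddCommGroup E] [NormedSpace ℂ E]
  [NormedAddCommGroup V] [NormedSpace ℂ V]

/-- second order estimate at the origin. -/
theorem EsHol_second {F : V → V} {ρ B : ℝ} (hρ : 0 < ρ)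
    (hF : DifferentiableOn ℂ F (ball 0 ρ)) (hB : ∀ u ∈ ball (0 : V) ρ, ‖F u‖ ≤ B) (h0 : F 0 = 0)
    {u : V} (hu : u ∈ ball (0 : V) (ρ / 4)) :
    ‖F u - fderiv ℂ F 0 u‖ ≤ 8 * B / ρ ^ 2 * ‖u‖ ^ 2 := by
  have hB0 : 0 ≤ B := (norm_nonneg _).trans (hB 0 (mem_ball_self hρ))
  have hs : closedBall (0 : V) ‖u‖ ⊆ ball 0 (ρ / 4) := by
    intro v hv
    rw [mem_closedBall, dist_zero_right] at hv
    rw [mem_ball_zero_iff] at hu ⊢
    linarith
  have hsub : ball (0 : V) (ρ / 4) ⊆ ball 0 ρ := ball_subset_ball (by linarith)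
  let _ : NormedSpace ℝ V := NormedSpace.restrictScalars ℝ ℂ V
  have h1 := Convex.norm_image_sub_le_of_norm_fderiv_le' (𝕜 := ℂ) (f := F)
    (s := closedBall (0 : V) ‖u‖) (x := 0) (y := u) (φ := fderiv ℂ F 0) (C := 8 * B / ρ ^ 2 * ‖u‖)
    (fun v hv => hF.differentiableAt (isOpen_ball.mem_nhds (hsub (hs hv))))
    (fun v hv => by
      have h2 := scv1_fderiv_lip hρ hF hB (hs hv) (mem_ball_self (by positivity))
      refine h2.trans ?_
      rw [mem_closedBall, dist_eq_norm] at hv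
      gcongr)
    (convex_closedBall _ _) (mem_closedBall_self (norm_nonneg _))
    (by rw [mem_closedBall, dist_zero_right])
  rw [h0, sub_zero, sub_zero] at h1
  refine h1.trans (le_of_eq ?_)
  ring

omit [NormedSpace ℂ E] in
/-- lower bound for a continuous family of invertible operators over a compact set. -/
theorem EsHol_lower [CompleteSpace V] {C : Set E} (hC : IsCompact C) {M : E → (V →L[ℂ] V)}
    (hM : ContinuousOn M C) (hu : ∀ z ∈ C, IsUnit (M z)) :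
    ∃ b0 > 0, ∀ z ∈ C, ∀ v : V, ‖v‖ ≤ b0 * ‖M z v‖ := by
  have hcont : ContinuousOn (fun z => Ring.inverse (M z)) C := by
    intro z hz
    obtain ⟨x, hx⟩ := hu z hz
    have h1 : ContinuousAt Ring.inverse (M z) := by
      rw [← hx]
      exact NormedRing.inverse_continuousAt x
    exact ContinuousAt.comp_continuousWithinAt h1 (hM z hz)
  obtain ⟨b, hb⟩ := hC.exists_bound_of_continuousOn hcont
  refine ⟨max b 1, lt_of_lt_of_le one_pos (le_max_right _ _), fun z hz v => ?_⟩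
  have h1 : (Ring.inverse (M z)) (M z v) = v := by
    have h2 := Ring.inverse_mul_cancel (M z) (hu z hz)
    have h3 := congrArg (fun A : V →L[ℂ] V => A v) h2
    exact h3
  calc ‖v‖ = ‖(Ring.inverse (M z)) (M z v)‖ := by rw [h1]
    _ ≤ ‖Ring.inverse (M z)‖ * ‖M z v‖ := ContinuousLinearMap.le_opNorm _ _
    _ ≤ max b 1 * ‖M z v‖ := by
        gcongr
        exact (hb z hz).trans (le_max_left _ _)

/-- lower bounds pass to nearby operators. -/
theorem EsHol_lower_near {A B : V →L[ℂ] V} {b0 ε : ℝ} (hb0 : 0 < b0) (hε : b0 * ε ≤ 1 / 2)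
    (hA : ∀ v : V, ‖v‖ ≤ b0 * ‖A v‖) (hAB : ‖A - B‖ ≤ ε) (v : V) : ‖v‖ ≤ 2 * b0 * ‖B v‖ := by
  have h1 : ‖A v‖ ≤ ‖B v‖ + ε * ‖v‖ := by
    have h2 : A v = B v + (A - B) v := by simp
    rw [h2]
    refine (norm_add_le _ _).trans ?_
    gcongr
    exact (ContinuousLinearMap.le_opNorm _ _).trans (by gcongr)
  have h2 := hA v
  have h3 : b0 * ‖A v‖ ≤ b0 * (‖B v‖ + ε * ‖v‖) := by gcongr
  have h4 : b0 * ε * ‖v‖ ≤ 1 / 2 * ‖v‖ := by gcongr
  nlinarith

end aux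

variable {m : ℕ} {X : Type} [MetricSpace X] [ChartedSpace (Fin m → ℂ) X]
  [IsManifold 𝓘(ℂ, Fin m → ℂ) ⊤ X]
variable {E : Type} [NormedAddCommGroup E] [NormedSpace ℂ E] [FiniteDimensional ℂ E]

omit [IsManifold 𝓘(ℂ, Fin m → ℂ) ⊤ X] [FiniteDimensional ℂ E] in
/-- one piece of the glued family. -/
theorem EsHol_piece {S : E × (Fin m → ℂ) → X} {D : Set (E × (Fin m → ℂ))} (hS : Fam m S D)
    {W : Set E} (hW : IsOpen W) {L : E → ((Fin m → ℂ) →L[ℂ] (Fin m → ℂ))}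
    (hL : DifferentiableOn ℂ L W) (hLb : ∀ z ∈ W, Function.Bijective (L z))
    {α : E × (Fin m → ℂ) → (Fin m → ℂ)}
    (hα : DifferentiableOn ℂ α (W ×ˢ ball (0 : Fin m → ℂ) (1 / 2)))
    (hn : ∀ z ∈ W, ∀ u ∈ ball (0 : Fin m → ℂ) (1 / 2), ‖α (z, u) - u‖ ≤ 1 / 16)
    (hD : ∀ z ∈ W, ∀ u ∈ ball (0 : Fin m → ℂ) (1 / 4), (z, L z (α (z, u))) ∈ D) :
    Fam m (fun x => S (x.1, L x.1 (α x))) (W ×ˢ ball (0 : Fin m → ℂ) (1 / 4)) := by
  obtain ⟨hinj, hder⟩ := fiber_near_id (r := 1 / 2) (δ := 1 / 16) (by norm_num) (by norm_num)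
    (by norm_num) hα hW hn
  have h12 : (1 / 2 / 2 : ℝ) = 1 / 4 := by norm_num
  rw [h12] at hinj hder
  have hsub : ball (0 : Fin m → ℂ) (1 / 4) ⊆ ball (0 : Fin m → ℂ) (1 / 2) :=
    ball_subset_ball (by norm_num)
  have hopen : IsOpen (W ×ˢ ball (0 : Fin m → ℂ) (1 / 2)) := hW.prod isOpen_ball
  refine Fam.comp (φ := fun x => L x.1 (α x)) hS (hW.prod isOpen_ball) ?_ ?_ ?_ ?_
  · have h1 : DifferentiableOn ℂ (fun x : E × (Fin m → ℂ) => L x.1)
        (W ×ˢ ball (0 : Fin m → ℂ) (1 / 4)) :=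
      hL.comp differentiableOn_fst (fun x hx => hx.1)
    exact h1.clm_apply (hα.mono (prod_mono_right hsub))
  · intro z u hu
    exact hD z hu.1 u hu.2
  · intro z u v hu hv huv
    exact hinj z hu.1 hu.2 hv.2 ((hLb z hu.1).1 huv)
  · intro z u hu
    have h1 : DifferentiableAt ℂ α (z, u) :=
      hα.differentiableAt (hopen.mem_nhds ⟨hu.1, hsub hu.2⟩)
    have h2 : HasFDerivAt (fun v : Fin m → ℂ => (z, v))
        (ContinuousLinearMap.inr ℂ E (Fin m → ℂ)) u := hasFDerivAt_prodMk_right z u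
    have h3 : DifferentiableAt ℂ (fun v => α (z, v)) u :=
      (h1.hasFDerivAt.comp u h2).differentiableAt
    have h4 : HasFDerivAt (fun v => L z (α (z, v))) ((L z).comp (fderiv ℂ (fun v => α (z, v)) u)) u :=
      (L z).hasFDerivAt.comp u h3.hasFDerivAt
    have h5 : fderiv ℂ (fun v => L z (α (z, v))) u = (L z).comp (fderiv ℂ (fun v => α (z, v)) u) :=
      h4.fderiv
    show Function.Bijective (fderiv ℂ (fun v => L z (α (z, v))) u)
    rw [h5]
    exact (hLb z hu.1).comp (hder z hu.1 u hu.2)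

/-- existence of a chart family near `K` over the core `h`. -/
def HasFam (m : ℕ) {X : Type} [MetricSpace X] [ChartedSpace (Fin m → ℂ) X] {E : Type}
    [NormedAddCommGroup E] [NormedSpace ℂ E] (h : E → X) (K : Set E) : Prop :=
  ∃ (W : Set E) (r : ℝ) (S : E × (Fin m → ℂ) → X), IsOpen W ∧ K ⊆ W ∧ 0 < r ∧
    Fam m S (W ×ˢ ball (0 : Fin m → ℂ) r) ∧ ∀ z ∈ W, S (z, 0) = h z

/-- gluing of two chart families with the same core over the two halves of a convex set. -/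
theorem hasFam_glue {K : Set E} (hK : IsCompact K) (hc : Convex ℝ K) (l : E →L[ℂ] ℂ) {a b : ℝ}
    (hab : a < b) {h : E → X} (hA : HasFam m h (K ∩ {z | (l z).re ≤ b}))
    (hB : HasFam m h (K ∩ {z | a ≤ (l z).re})) : HasFam m h K := by
  have hprop : ProperSpace E := FiniteDimensional.proper ℂ E
  obtain ⟨WA, rA, SA, hWA, hKA, hrA, hSA, hSA0⟩ := hA
  obtain ⟨WB, rB, SB, hWB, hKB, hrB, hSB, hSB0⟩ := hB
  -- the overlap
  have hlc : Continuous fun z : E => (l z).re := Complex.continuous_re.comp l.continuous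
  set C : Set E := K ∩ {z | a ≤ (l z).re ∧ (l z).re ≤ b} with hCdef
  have hCc : IsCompact C := by
    refine hK.inter_right ?_
    exact (isClosed_le continuous_const hlc).inter (isClosed_le hlc continuous_const)
  have hCconv : Convex ℝ C := by
    refine hc.inter ?_
    have hlin : IsLinearMap ℝ (fun z : E => (l z).re) :=
      ⟨fun x y => by simp, fun c x => by simp⟩
    exact (convex_halfSpace_ge hlin a).inter (convex_halfSpace_le hlin b)
  have hCA : C ⊆ WA := fun z hz => hKA ⟨hz.1, hz.2.2⟩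
  have hCB : C ⊆ WB := fun z hz => hKB ⟨hz.1, hz.2.1⟩
  obtain ⟨W1, r1, N, hW1, hCW1, hW1W, hr1, hNd, hN, hN0, hNu⟩ :=
    fam_compare hSA hSB (C := C) (W₀ := WA ∩ WB) hCc (hWA.inter hWB) (subset_inter hCA hCB)
      (fun z hz => ⟨⟨hz.1, mem_ball_self hrA⟩, ⟨hz.2, mem_ball_self hrB⟩, by
        rw [hSA0 z hz.1, hSB0 z hz.2]⟩)
  obtain ⟨δ, hδ, hδW⟩ := hCc.exists_cthickening_subset_open hW1 hCW1
  set C1 : Set E := cthickening δ C with hC1def
  have hC1c : IsCompact C1 := hCc.cthickening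
  have hC1conv : Convex ℝ C1 := hCconv.cthickening δ
  set W : Set E := thickening δ C with hWdef
  have hWopen : IsOpen W := isOpen_thickening
  have hCW : C ⊆ W := self_subset_thickening hδ C
  have hWC1 : W ⊆ C1 := thickening_subset_cthickening δ C
  obtain ⟨WA', WB', ε, hWA', hWB', hKA', hKB', hABW, hε, hcart⟩ :=
    cartan_convex (m := m) hK hc l hab hWopen hCW (r := 1) one_pos (η := 1 / 16)
      (by norm_num)
  -- the linear part
  set M : E → ((Fin m → ℂ) →L[ℂ] (Fin m → ℂ)) := fun z => fderiv ℂ (fun v => N (z, v)) 0 with hMdef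
  have hopen1 : IsOpen (W1 ×ˢ ball (0 : Fin m → ℂ) r1) := hW1.prod isOpen_ball
  have hpair : ∀ (z : E) (u : Fin m → ℂ), HasFDerivAt (fun v : Fin m → ℂ => (z, v))
      (ContinuousLinearMap.inr ℂ E (Fin m → ℂ)) u := fun z u => hasFDerivAt_prodMk_right z u
  have hMeq : ∀ z ∈ W1, M z = (fderiv ℂ N (z, 0)).comp (ContinuousLinearMap.inr ℂ E (Fin m → ℂ)) := by
    intro z hz
    have h1 : DifferentiableAt ℂ N (z, 0) :=
      hNd.differentiableAt (hopen1.mem_nhds ⟨hz, mem_ball_self hr1⟩)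
    exact (h1.hasFDerivAt.comp (0 : Fin m → ℂ) (hpair z 0)).fderiv
  have hMd : DifferentiableOn ℂ M W1 := by
    have h1 : DifferentiableOn ℂ (fun z : E => fderiv ℂ N (z, (0 : Fin m → ℂ))) W1 := by
      have h2 := differentiableOn_fderiv hopen1 hNd
      have h3 : DifferentiableOn ℂ (fun z : E => (z, (0 : Fin m → ℂ))) W1 :=
        differentiableOn_id.prodMk (differentiableOn_const _)
      exact h2.comp h3 (fun z hz => ⟨hz, mem_ball_self hr1⟩)
    have h4 : DifferentiableOn ℂ (fun z : E => (fderiv ℂ N (z, (0 : Fin m → ℂ))).comp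
        (ContinuousLinearMap.inr ℂ E (Fin m → ℂ))) W1 :=
      h1.clm_comp (differentiableOn_const _)
    exact h4.congr hMeq
  obtain ⟨b0, hb0, hlow⟩ := EsHol_lower hC1c (hMd.continuousOn.mono hδW)
    (fun z hz => hNu z (hδW hz))
  -- the approximation of the linear part
  obtain ⟨ε1, hε1, hε1a, hε1b⟩ : ∃ ε1 : ℝ, 0 < ε1 ∧ b0 * ε1 ≤ 1 / 2 ∧ 2 * b0 * ε1 ≤ ε / 2 := by
    refine ⟨min (1 / (2 * b0)) (ε / (4 * b0)), by positivity, ?_, ?_⟩
    · calc b0 * min (1 / (2 * b0)) (ε / (4 * b0)) ≤ b0 * (1 / (2 * b0)) := by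
            gcongr; exact min_le_left _ _
        _ = 1 / 2 := by field_simp
    · calc 2 * b0 * min (1 / (2 * b0)) (ε / (4 * b0)) ≤ 2 * b0 * (ε / (4 * b0)) := by
            gcongr; exact min_le_right _ _
        _ = ε / 2 := by field_simp; ring
  obtain ⟨Mh, hMhd, hMhu, hMhn⟩ := gl_approx hC1c hC1conv hW1 hδW hMd (fun z hz => hNu z hz) hε1
  have hlowh : ∀ z ∈ C1, ∀ v : Fin m → ℂ, ‖v‖ ≤ 2 * b0 * ‖Mh z v‖ := fun z hz v =>
    EsHol_lower_near hb0 hε1a (hlow z hz) (hMhn z hz).le v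
  set P : E → ((Fin m → ℂ) →L[ℂ] (Fin m → ℂ)) := fun z => Ring.inverse (Mh z) with hPdef
  have hPM : ∀ z v, P z (Mh z v) = v := fun z v =>
    congrArg (fun A : (Fin m → ℂ) →L[ℂ] (Fin m → ℂ) => A v) (Ring.inverse_mul_cancel (Mh z) (hMhu z))
  have hMP : ∀ z v, Mh z (P z v) = v := fun z v =>
    congrArg (fun A : (Fin m → ℂ) →L[ℂ] (Fin m → ℂ) => A v) (Ring.mul_inverse_cancel (Mh z) (hMhu z))
  have hPd : Differentiable ℂ P := fun z =>
    (differentiableAt_inverse (hMhu z)).comp z (hMhd z)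
  have hPn : ∀ z ∈ C1, ∀ v : Fin m → ℂ, ‖P z v‖ ≤ 2 * b0 * ‖v‖ := by
    intro z hz v
    have := hlowh z hz (P z v)
    rwa [hMP] at this
  -- the bound for N
  have hsub2 : closedBall (0 : Fin m → ℂ) (r1 / 2) ⊆ ball 0 r1 := closedBall_subset_ball (by linarith)
  obtain ⟨B, hB⟩ := (hC1c.prod (isCompact_closedBall (0 : Fin m → ℂ) (r1 / 2))).exists_bound_of_continuousOn
    (f := N) (hNd.continuousOn.mono (prod_mono hδW hsub2))
  have hBabs : ∀ z ∈ C1, ∀ u ∈ ball (0 : Fin m → ℂ) (r1 / 2), ‖N (z, u)‖ ≤ |B| := fun z hz u hu =>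
    (hB (z, u) ⟨hz, ball_subset_closedBall hu⟩).trans (le_abs_self B)
  set C2 : ℝ := 8 * |B| / (r1 / 2) ^ 2 with hC2def
  have hC2 : 0 ≤ C2 := by positivity
  have hsecond : ∀ z ∈ C1, ∀ u ∈ ball (0 : Fin m → ℂ) (r1 / 8), ‖N (z, u) - M z u‖ ≤ C2 * ‖u‖ ^ 2 := by
    intro z hz u hu
    have hzW := hδW hz
    have hd : DifferentiableOn ℂ (fun v => N (z, v)) (ball (0 : Fin m → ℂ) (r1 / 2)) := by
      intro v hv
      have h1 : DifferentiableAt ℂ N (z, v) :=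
        hNd.differentiableAt (hopen1.mem_nhds ⟨hzW, hsub2 (ball_subset_closedBall hv)⟩)
      exact (h1.hasFDerivAt.comp v (hpair z v)).differentiableAt.differentiableWithinAt
    have h2 := EsHol_second (F := fun v => N (z, v)) (ρ := r1 / 2) (B := |B|) (by positivity) hd
      (hBabs z hz) (hN0 z hzW) (u := u) (by
        have : r1 / 2 / 4 = r1 / 8 := by ring
        rw [this]; exact hu)
    exact h2
  -- the bound for Mh over K
  obtain ⟨Mb', hMb'⟩ := hK.exists_bound_of_continuousOn hMhd.continuous.continuousOn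
  set Mb : ℝ := |Mb'| + 1 with hMbdef
  have hMb : 0 < Mb := by positivity
  have hKMb : ∀ z ∈ K, ‖Mh z‖ < Mb := fun z hz => by
    have := (hMb' z hz).trans (le_abs_self Mb')
    linarith
  -- choice of t
  obtain ⟨t, ht, ht1, ht2, ht3, ht4⟩ : ∃ t : ℝ, 0 < t ∧ t ≤ rA ∧ t ≤ r1 / 8 ∧
      2 * b0 * C2 * t ≤ ε / 2 ∧ t * Mb ≤ rB := by
    refine ⟨min (min rA (r1 / 8)) (min (ε / 2 / (2 * b0 * C2 + 1)) (rB / Mb)), by positivity,
      (min_le_left _ _).trans (min_le_left _ _), (min_le_left _ _).trans (min_le_right _ _), ?_, ?_⟩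
    · have h1 : min (min rA (r1 / 8)) (min (ε / 2 / (2 * b0 * C2 + 1)) (rB / Mb)) ≤
          ε / 2 / (2 * b0 * C2 + 1) := (min_le_right _ _).trans (min_le_left _ _)
      have h2 : 0 < 2 * b0 * C2 + 1 := by positivity
      rw [le_div_iff₀ h2] at h1
      have h3 : 0 < min (min rA (r1 / 8)) (min (ε / 2 / (2 * b0 * C2 + 1)) (rB / Mb)) := by
        positivity
      nlinarith
    · have h1 : min (min rA (r1 / 8)) (min (ε / 2 / (2 * b0 * C2 + 1)) (rB / Mb)) ≤ rB / Mb :=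
        (min_le_right _ _).trans (min_le_right _ _)
      rwa [le_div_iff₀ hMb] at h1
  have htc : (t : ℂ) ≠ 0 := by exact_mod_cast ht.ne'
  have htn : ‖(t : ℂ)‖ = t := by rw [Complex.norm_real, Real.norm_eq_abs, abs_of_pos ht]
  have htball : ∀ w : Fin m → ℂ, ‖w‖ < 1 → ‖(t : ℂ) • w‖ < t := by
    intro w hw
    rw [norm_smul, htn]
    nlinarith
  -- the transition map
  set γ : E × (Fin m → ℂ) → (Fin m → ℂ) := fun x => (t : ℂ)⁻¹ • P x.1 (N (x.1, (t : ℂ) • x.2))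
    with hγdef
  have hγd : DifferentiableOn ℂ γ (W ×ˢ ball (0 : Fin m → ℂ) 1) := by
    have h1 : DifferentiableOn ℂ (fun x : E × (Fin m → ℂ) => N (x.1, (t : ℂ) • x.2))
        (W ×ˢ ball (0 : Fin m → ℂ) 1) := by
      refine hNd.comp (differentiableOn_fst.prodMk (differentiableOn_snd.const_smul (t : ℂ))) ?_
      intro x hx
      refine ⟨hδW (hWC1 hx.1), ?_⟩
      have := htball x.2 (mem_ball_zero_iff.1 hx.2)
      rw [mem_ball_zero_iff]
      show ‖(t : ℂ) • x.2‖ < r1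
      linarith
    have h2 : DifferentiableOn ℂ (fun x : E × (Fin m → ℂ) => P x.1) (W ×ˢ ball (0 : Fin m → ℂ) 1) :=
      (hPd.comp differentiable_fst).differentiableOn
    exact (h2.clm_apply h1).const_smul ((t : ℂ)⁻¹)
  have hγn : ∀ z ∈ W, ∀ w ∈ ball (0 : Fin m → ℂ) 1, ‖γ (z, w) - w‖ ≤ ε := by
    intro z hz w hw
    have hz1 := hWC1 hz
    rw [mem_ball_zero_iff] at hw
    have hlt := htball w hw
    have h1 : γ (z, w) - w = (t : ℂ)⁻¹ • P z (N (z, (t : ℂ) • w) - Mh z ((t : ℂ) • w)) := by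
      rw [map_sub, hPM, smul_sub, smul_smul, inv_mul_cancel₀ htc, one_smul]
    have h2 : ‖N (z, (t : ℂ) • w) - Mh z ((t : ℂ) • w)‖ ≤ C2 * t ^ 2 + ε1 * t := by
      have h3 : N (z, (t : ℂ) • w) - Mh z ((t : ℂ) • w) =
          (N (z, (t : ℂ) • w) - M z ((t : ℂ) • w)) + (M z - Mh z) ((t : ℂ) • w) := by
        rw [sub_apply]; abel
      rw [h3]
      refine (norm_add_le _ _).trans (add_le_add ?_ ?_)
      · refine (hsecond z hz1 _ (by rw [mem_ball_zero_iff]; linarith)).trans ?_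
        gcongr
      · refine (ContinuousLinearMap.le_opNorm _ _).trans ?_
        gcongr
        exact (hMhn z hz1).le
    rw [h1, norm_smul, norm_inv, htn]
    calc t⁻¹ * ‖P z (N (z, (t : ℂ) • w) - Mh z ((t : ℂ) • w))‖
        ≤ t⁻¹ * (2 * b0 * (C2 * t ^ 2 + ε1 * t)) := by
          gcongr
          exact (hPn z hz1 _).trans (by gcongr)
      _ = 2 * b0 * C2 * t + 2 * b0 * ε1 := by field_simp
      _ ≤ ε := by linarith
  have hγ0 : ∀ z ∈ W, γ (z, 0) = 0 := by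
    intro z hz
    have : N (z, (t : ℂ) • (0 : Fin m → ℂ)) = 0 := by rw [smul_zero]; exact hN0 z (hδW (hWC1 hz))
    show (t : ℂ)⁻¹ • P z (N (z, (t : ℂ) • (0 : Fin m → ℂ))) = 0
    rw [this, map_zero, smul_zero]
  obtain ⟨α, β, hαd, hβd, hαn, hβn, hαβ, hzero⟩ := hcart γ hγd hγn
  obtain ⟨hα0, hβ0⟩ := hzero hγ0
  -- norms of the splitting maps
  have hnorm : ∀ (v u : Fin m → ℂ), u ∈ ball (0 : Fin m → ℂ) (1 / 4) → ‖v - u‖ ≤ 1 / 16 → ‖v‖ < 1 := by
    intro v u hu hv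
    rw [mem_ball_zero_iff] at hu
    have h1 : v = (v - u) + u := by abel
    have h2 : ‖v‖ ≤ ‖v - u‖ + ‖u‖ := by
      conv_lhs => rw [h1]
      exact norm_add_le _ _
    linarith
  have hsub4 : ball (0 : Fin m → ℂ) (1 / 4) ⊆ ball (0 : Fin m → ℂ) (1 / 2) :=
    ball_subset_ball (by norm_num)
  set VA : Set E := WA' ∩ WA with hVA
  set VB : Set E := (WB' ∩ WB) ∩ {z | ‖Mh z‖ < Mb} with hVB
  have hVAo : IsOpen VA := hWA'.inter hWA
  have hVBo : IsOpen VB := (hWB'.inter hWB).inter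
    (isOpen_lt hMhd.continuous.norm continuous_const)
  have hFA : Fam m (fun x => SA (x.1, ((t : ℂ) • (1 : (Fin m → ℂ) →L[ℂ] (Fin m → ℂ))) (α x)))
      (VA ×ˢ ball (0 : Fin m → ℂ) (1 / 4)) := by
    refine EsHol_piece (L := fun _ => (t : ℂ) • (1 : (Fin m → ℂ) →L[ℂ] (Fin m → ℂ))) hSA hVAo
      (differentiableOn_const _) ?_ (hαd.mono (prod_mono_left inter_subset_left))
      (fun z hz u hu => hαn z hz.1 u hu) ?_
    · intro z _
      constructor
      · intro u v huv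
        exact smul_right_injective _ htc huv
      · intro u
        refine ⟨(t : ℂ)⁻¹ • u, ?_⟩
        show (t : ℂ) • ((t : ℂ)⁻¹ • u) = u
        rw [smul_smul, mul_inv_cancel₀ htc, one_smul]
    · intro z hz u hu
      refine ⟨hz.2, ?_⟩
      rw [mem_ball_zero_iff]
      show ‖(t : ℂ) • α (z, u)‖ < rA
      have := htball (α (z, u)) (hnorm _ u hu (hαn z hz.1 u (hsub4 hu)))
      linarith
  have hFB : Fam m (fun x => SB (x.1, ((t : ℂ) • Mh x.1) (β x)))
      (VB ×ˢ ball (0 : Fin m → ℂ) (1 / 4)) := by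
    refine EsHol_piece (L := fun z => (t : ℂ) • Mh z) hSB hVBo
      (fun z _ => ((hMhd z).const_smul (t : ℂ)).differentiableWithinAt) ?_
      (hβd.mono (prod_mono_left (inter_subset_left.trans inter_subset_left)))
      (fun z hz u hu => hβn z hz.1.1 u hu) ?_
    · intro z _
      constructor
      · intro u v huv
        have h1 : Mh z u = Mh z v := smul_right_injective _ htc huv
        rw [← hPM z u, h1, hPM]
      · intro u
        refine ⟨(t : ℂ)⁻¹ • P z u, ?_⟩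
        show (t : ℂ) • Mh z ((t : ℂ)⁻¹ • P z u) = u
        rw [map_smul, hMP, smul_smul, mul_inv_cancel₀ htc, one_smul]
    · intro z hz u hu
      refine ⟨hz.1.2, ?_⟩
      rw [mem_ball_zero_iff]
      show ‖(t : ℂ) • Mh z (β (z, u))‖ < rB
      have h1 : ‖β (z, u)‖ < 1 := hnorm _ u hu (hβn z hz.1.1 u (hsub4 hu))
      have h2 : ‖Mh z (β (z, u))‖ < Mb := by
        refine (ContinuousLinearMap.le_opNorm _ _).trans_lt ?_
        have h3 : ‖Mh z‖ < Mb := hz.2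
        have h4 := norm_nonneg (β (z, u))
        have h5 := norm_nonneg (Mh z)
        nlinarith
      rw [norm_smul, htn]
      calc t * ‖Mh z (β (z, u))‖ < t * Mb := by gcongr
        _ ≤ rB := ht4
  obtain ⟨S, hSh, hSa, hSb⟩ := HolOn.glue hFA.isOpen hFB.isOpen hFA.hol hFB.hol (by
    rintro ⟨z, u⟩ ⟨⟨hzA, hu⟩, ⟨hzB, -⟩⟩
    have hzW : z ∈ W := hABW ⟨hzA.1, hzB.1.1⟩
    have hzW1 : z ∈ W1 := hδW (hWC1 hzW)
    have hα1 : ‖α (z, u)‖ < 1 := hnorm _ u hu (hαn z hzA.1 u (hsub4 hu))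
    have h1 := htball (α (z, u)) hα1
    have h2 := (hN z hzW1 ((t : ℂ) • α (z, u)) (by rw [mem_ball_zero_iff]; linarith)).2.2
    show SA (z, (t : ℂ) • α (z, u)) = SB (z, (t : ℂ) • Mh z (β (z, u)))
    rw [← h2]
    have h3 : (t : ℂ)⁻¹ • P z (N (z, (t : ℂ) • α (z, u))) = β (z, u) :=
      hαβ z ⟨hzA.1, hzB.1.1⟩ u (hsub4 hu)
    rw [← h3, map_smul, hMP, smul_smul, mul_inv_cancel₀ htc, one_smul])
  have hunion : VA ×ˢ ball (0 : Fin m → ℂ) (1 / 4) ∪ VB ×ˢ ball (0 : Fin m → ℂ) (1 / 4) =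
      (VA ∪ VB) ×ˢ ball (0 : Fin m → ℂ) (1 / 4) := (union_prod).symm
  rw [hunion] at hSh
  refine ⟨VA ∪ VB, 1 / 4, S, hVAo.union hVBo, ?_, by norm_num, ⟨(hVAo.union hVBo).prod isOpen_ball,
    hSh, ?_, ?_⟩, ?_⟩
  · intro z hz
    rcases le_total (l z).re b with hle | hle
    · exact Or.inl ⟨hKA' ⟨hz, hle⟩, hKA ⟨hz, hle⟩⟩
    · have hle' : a ≤ (l z).re := by linarith
      exact Or.inr ⟨⟨hKB' ⟨hz, hle'⟩, hKB ⟨hz, hle'⟩⟩, hKMb z hz⟩
  · rintro z u v ⟨hz | hz, hu⟩ ⟨-, hv⟩ huv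
    · rw [hSa (z, u) ⟨hz, hu⟩, hSa (z, v) ⟨hz, hv⟩] at huv
      exact hFA.inj z u v ⟨hz, hu⟩ ⟨hz, hv⟩ huv
    · rw [hSb (z, u) ⟨hz, hu⟩, hSb (z, v) ⟨hz, hv⟩] at huv
      exact hFB.inj z u v ⟨hz, hu⟩ ⟨hz, hv⟩ huv
  · rintro z u ⟨hz | hz, hu⟩
    · have h1 := hFA.der z u ⟨hz, hu⟩
      have h2 : (fun v => S (z, v)) =ᶠ[𝓝 u]
          (fun v => SA (z, ((t : ℂ) • (1 : (Fin m → ℂ) →L[ℂ] (Fin m → ℂ))) (α (z, v)))) := by
        filter_upwards [isOpen_ball.mem_nhds hu] with v hv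
        exact hSa (z, v) ⟨hz, hv⟩
      rw [h2.mfderiv_eq]
      exact h1
    · have h1 := hFB.der z u ⟨hz, hu⟩
      have h2 : (fun v => S (z, v)) =ᶠ[𝓝 u]
          (fun v => SB (z, ((t : ℂ) • Mh z) (β (z, v)))) := by
        filter_upwards [isOpen_ball.mem_nhds hu] with v hv
        exact hSb (z, v) ⟨hz, hv⟩
      rw [h2.mfderiv_eq]
      exact h1
  · have h0 : (0 : Fin m → ℂ) ∈ ball (0 : Fin m → ℂ) (1 / 4) := mem_ball_self (by norm_num)
    rintro z (hz | hz)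
    · rw [hSa (z, 0) ⟨hz, h0⟩]
      show SA (z, (t : ℂ) • α (z, 0)) = h z
      rw [hα0 z hz.1, smul_zero, hSA0 z hz.2]
    · rw [hSb (z, 0) ⟨hz, h0⟩]
      show SB (z, (t : ℂ) • Mh z (β (z, 0))) = h z
      rw [hβ0 z hz.1.1, map_zero, smul_zero, hSB0 z hz.1.2]

/-- ES_hol: every holomorphic map near a compact convex set is the core of a chart family. -/
theorem es_hol {K U : Set E} (hK : IsCompact K) (hc : Convex ℝ K) (hU : IsOpen U) (hKU : K ⊆ U)
    {h : E → X} (hh : HolOn m h U) : HasFam m h K := by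
  refine convex_induction hK hc (HasFam m h) ?_ ?_ ?_
  · intro z hz
    obtain ⟨W, r, S, hW, hzW, -, hr, hS, h0⟩ := fam_local hU hh (hKU hz)
    obtain ⟨δ, hδ, hb⟩ := Metric.isOpen_iff.1 hW z hzW
    refine ⟨δ / 2, by positivity, fun K' hK' _ _ => ⟨W, r, S, hW, fun x hx => hb ?_, hr, hS, h0⟩⟩
    have := (hK' hx).2
    rw [mem_closedBall] at this
    rw [mem_ball]
    linarith
  · exact ⟨∅, 1, fun x => h x.1, isOpen_empty, Subset.rfl, one_pos,
      ⟨by simp, by intro x hx; simp at hx, by intro z u v hu; simp at hu,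
        by intro z u hu; simp at hu⟩, by intro z hz; simp at hz⟩
  · intro K' hK' hcK' hconv l a b hab hA hB
    exact hasFam_glue hcK' hconv l hab hA hB

end OkaP
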