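import Pool.Agent.H.MP_ceb9a9.EtB
import Pool.Agent.H.MP_ceb9a9.Scv1

/-!
# MP_ceb9a9: families with invertible derivative at the zero section are etale near it

Proof.  If `K` is empty take `V' = ∅`.  Choose a compact `K'` with `K ⊆ interior K'`, `K' ⊆ V` (`exists_compact_between`), and
`V' = interior K'`.  `A x := fderiv ℂ (fun v => φ (x, v)) 0` is holomorphic on `V` (it is the restriction of
`fderiv ℂ φ (x, 0)` to the second factor; `differentiableOn_fderiv`, Scv1), so `x ↦ (A x)⁻¹` (`Ring.inverse`, or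
the inverse in the algebra of continuous linear maps) is holomorphic on `V` and bounded on `K'` by some `M ≥ 1`.
`φ` is bounded on the compact set `K' ×ˢ closedBall 0 (r / 2)`; the Cauchy estimates (`scv1_fderiv_lip` applied to
`v ↦ φ (x, v)` on `ball 0 (r / 2)`) give `L` with `‖fderiv (φ (x, ·)) v - A x‖ ≤ L ‖v‖` for `x ∈ K'`, `‖v‖ < r / 8`, hence
`‖φ (x, v) - A x v‖ ≤ L ‖v‖ ^ 2` (mean value inequality on the segment; `φ (x, 0) = 0`).  Put
`ψ (x, v) = (A x)⁻¹ (φ (x, v))`, `‖ψ (x, v) - v‖ ≤ M L ‖v‖ ^ 2 ≤ s / 8` for `‖v‖ < s`, if `s ≤ 1 / (8 M L + 8)`, `s < r / 8`.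
`etHol_of_near_id` (EtB) gives `EtHol ψ V' (s / 2)`.  `φ (x, v) = A x (ψ (x, v))` is etale on `ball 0 (s / 2)` by
`EtHol.comp` with `etHol_linear` (radius `s`: `ψ` maps `ball 0 (s / 2)` to `ball 0 s`).  Decrease `s` further so that
`‖φ (x, v)‖ ≤ (‖A x‖ + L s) s < ρ` on `V' ×ˢ ball 0 s`.
-/

set_option autoImplicit false
open Set Metric Filter
open scoped Topology Manifold

noncomputable section
namespace OkaP

variable {m : ℕ} {E : Type} [NormedAddCommGroup E] [NormedSpace ℂ E] [FiniteDimensional ℂ E]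

/-- the derivative of the family at the zero section -/
def etZA (φ : E × (Fin m → ℂ) → (Fin m → ℂ)) (x : E) : (Fin m → ℂ) →L[ℂ] (Fin m → ℂ) :=
  fderiv ℂ (fun v => φ (x, v)) 0

theorem etZ_diff {φ : E × (Fin m → ℂ) → (Fin m → ℂ)} {V : Set E} {r : ℝ} (hr : 0 < r)
    (hV : IsOpen V) (hφ : DifferentiableOn ℂ φ (V ×ˢ ball (0 : Fin m → ℂ) r)) :
    DifferentiableOn ℂ (etZA φ) V := by
  have hO : IsOpen (V ×ˢ ball (0 : Fin m → ℂ) r) := hV.prod isOpen_ball
  have h1 : DifferentiableOn ℂ (fderiv ℂ φ) (V ×ˢ ball (0 : Fin m → ℂ) r) :=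
    differentiableOn_fderiv hO hφ
  have h2 : DifferentiableOn ℂ (fun x : E => fderiv ℂ φ (x, 0)) V :=
    h1.comp (differentiableOn_id.prodMk (differentiableOn_const 0)) fun x hx =>
      ⟨hx, mem_ball_self hr⟩
  have h3 : DifferentiableOn ℂ (fun x : E => (fderiv ℂ φ (x, 0)).comp
      (ContinuousLinearMap.inr ℂ E (Fin m → ℂ))) V :=
    h2.clm_comp (differentiableOn_const _)
  refine h3.congr fun x hx => ?_
  have h4 : DifferentiableAt ℂ φ (x, 0) :=
    hφ.differentiableAt (hO.mem_nhds ⟨hx, mem_ball_self hr⟩)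
  have h5 : HasFDerivAt (fun v : Fin m → ℂ => (x, v)) (ContinuousLinearMap.inr ℂ E (Fin m → ℂ))
      0 := hasFDerivAt_prodMk_right x 0
  exact (h4.hasFDerivAt.comp (0 : Fin m → ℂ) h5).fderiv

/-- second order estimate at the zero section -/
theorem etZ_quad {f : (Fin m → ℂ) → (Fin m → ℂ)} {r M : ℝ} (hr : 0 < r)
    (hf : DifferentiableOn ℂ f (ball 0 r)) (hM : ∀ y ∈ ball (0 : Fin m → ℂ) r, ‖f y‖ ≤ M)
    (h0 : f 0 = 0) {v : Fin m → ℂ} (hv : ‖v‖ < r / 4) :
    ‖f v - fderiv ℂ f 0 v‖ ≤ 8 * M / r ^ 2 * ‖v‖ * ‖v‖ := by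
  letI : NormedSpace ℝ (Fin m → ℂ) := NormedSpace.restrictScalars ℝ ℂ (Fin m → ℂ)
  have hM0 : 0 ≤ M := (norm_nonneg _).trans (hM 0 (mem_ball_self hr))
  have hs : closedBall (0 : Fin m → ℂ) ‖v‖ ⊆ ball 0 (r / 4) := closedBall_subset_ball hv
  have h4r : ball (0 : Fin m → ℂ) (r / 4) ⊆ ball 0 r := ball_subset_ball (by linarith)
  have h1 := Convex.norm_image_sub_le_of_norm_fderiv_le' (𝕜 := ℂ) (f := f)
    (s := closedBall (0 : Fin m → ℂ) ‖v‖) (x := 0) (y := v) (φ := fderiv ℂ f 0)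
    (C := 8 * M / r ^ 2 * ‖v‖)
    (fun u hu => hf.differentiableAt (isOpen_ball.mem_nhds (h4r (hs hu))))
    (fun u hu => by
      have h2 := scv1_fderiv_lip hr hf hM (hs hu) (mem_ball_self (by positivity))
      refine h2.trans ?_
      have h3 : ‖u - 0‖ ≤ ‖v‖ := by
        rw [mem_closedBall, dist_eq_norm] at hu; exact hu
      gcongr)
    (convex_closedBall _ _) (mem_closedBall_self (norm_nonneg _))
    (by rw [mem_closedBall, dist_eq_norm]; simp)
  rw [h0, sub_zero, sub_zero] at h1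
  exact h1

/-- a holomorphic family of maps fixing `0` with invertible derivative there is etale near the zero
section -/
theorem etHol_of_zero {φ : E × (Fin m → ℂ) → (Fin m → ℂ)} {V K : Set E} {r ρ : ℝ} (hr : 0 < r)
    (hρ : 0 < ρ) (hV : IsOpen V) (hK : IsCompact K) (hKV : K ⊆ V)
    (hφ : DifferentiableOn ℂ φ (V ×ˢ ball (0 : Fin m → ℂ) r)) (h0 : ∀ x ∈ V, φ (x, 0) = 0)
    (h1 : ∀ x ∈ V, IsUnit (fderiv ℂ (fun v => φ (x, v)) 0)) :
    ∃ (V' : Set E) (r' : ℝ), IsOpen V' ∧ K ⊆ V' ∧ V' ⊆ V ∧ 0 < r' ∧ r' ≤ r ∧ EtHol φ V' r' ∧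
      ∀ x ∈ V', ∀ u ∈ ball (0 : Fin m → ℂ) r', φ (x, u) ∈ ball (0 : Fin m → ℂ) ρ := by
  haveI : ProperSpace E := FiniteDimensional.proper ℂ E
  obtain ⟨K', hK', hKK', hK'V⟩ := exists_compact_between hK hV hKV
  have hA : DifferentiableOn ℂ (etZA φ) V := etZ_diff hr hV hφ
  have hAu : ∀ x ∈ V, IsUnit (etZA φ x) := h1
  set B : E → ((Fin m → ℂ) →L[ℂ] (Fin m → ℂ)) := fun x => Ring.inverse (etZA φ x) with hB
  have hBd : DifferentiableOn ℂ B V := by
    intro x hx
    have := (differentiableAt_inverse (𝕜 := ℂ) (hAu x hx)).comp x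
      (hA.differentiableAt (hV.mem_nhds hx))
    exact this.differentiableWithinAt
  obtain ⟨M0, hM0⟩ := hK'.exists_bound_of_continuousOn (hBd.continuousOn.mono hK'V)
  obtain ⟨MA0, hMA0⟩ := hK'.exists_bound_of_continuousOn (hA.continuousOn.mono hK'V)
  have hcomp : IsCompact (K' ×ˢ closedBall (0 : Fin m → ℂ) (r / 2)) :=
    hK'.prod (isCompact_closedBall _ _)
  have hsubc : K' ×ˢ closedBall (0 : Fin m → ℂ) (r / 2) ⊆ V ×ˢ ball (0 : Fin m → ℂ) r :=
    prod_mono hK'V (closedBall_subset_ball (by linarith))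
  obtain ⟨M1, hM1⟩ := hcomp.exists_bound_of_continuousOn (hφ.continuousOn.mono hsubc)
  set M := max M0 1 with hMdef
  set MA := max MA0 0 with hMAdef
  set M2 := max M1 0 with hM2def
  have hM : ∀ x ∈ K', ‖B x‖ ≤ M := fun x hx => (hM0 x hx).trans (le_max_left _ _)
  have hMA : ∀ x ∈ K', ‖etZA φ x‖ ≤ MA := fun x hx => (hMA0 x hx).trans (le_max_left _ _)
  have hM2 : ∀ q ∈ K' ×ˢ closedBall (0 : Fin m → ℂ) (r / 2), ‖φ q‖ ≤ M2 :=
    fun q hq => (hM1 q hq).trans (le_max_left _ _)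
  have hMpos : 1 ≤ M := le_max_right _ _
  have hMA0' : 0 ≤ MA := le_max_right _ _
  have hM20 : 0 ≤ M2 := le_max_right _ _
  set L := 8 * M2 / (r / 2) ^ 2 with hL
  have hL0 : 0 ≤ L := by positivity
  have hfib : ∀ x ∈ V, DifferentiableOn ℂ (fun u => φ (x, u)) (ball (0 : Fin m → ℂ) r) := by
    intro x hx
    exact hφ.comp ((differentiable_const x).prodMk differentiable_id).differentiableOn
      fun u hu => ⟨hx, hu⟩
  have hquad : ∀ x ∈ K', ∀ v : Fin m → ℂ, ‖v‖ < r / 8 →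
      ‖φ (x, v) - etZA φ x v‖ ≤ L * ‖v‖ * ‖v‖ := by
    intro x hx v hv
    have hr2 : 0 < r / 2 := by positivity
    exact etZ_quad (f := fun u => φ (x, u)) hr2
      ((hfib x (hK'V hx)).mono (ball_subset_ball (by linarith)))
      (fun y hy => hM2 (x, y) ⟨hx, ball_subset_closedBall hy⟩) (h0 x (hK'V hx)) (by linarith)
  set s := min (min (r / 8) 1) (min (1 / (8 * M * L + 8)) (ρ / (MA + L + 1))) with hsdef
  have hs0 : 0 < s := by
    refine lt_min (lt_min (by positivity) one_pos) (lt_min (by positivity) (by positivity))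
  have hs1 : s ≤ r / 8 := (min_le_left _ _).trans (min_le_left _ _)
  have hs2 : s ≤ 1 := (min_le_left _ _).trans (min_le_right _ _)
  have hs3 : s ≤ 1 / (8 * M * L + 8) := (min_le_right _ _).trans (min_le_left _ _)
  have hs4 : s ≤ ρ / (MA + L + 1) := (min_le_right _ _).trans (min_le_right _ _)
  have hs3' : M * L * s ≤ 1 / 8 := by
    rw [le_div_iff₀ (by positivity)] at hs3
    nlinarith
  have hs4' : (MA + L + 1) * s ≤ ρ := by
    rw [le_div_iff₀ (by positivity)] at hs4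
    linarith
  have hsub : interior K' ⊆ K' := interior_subset
  have hVi : interior K' ⊆ V := hsub.trans hK'V
  have hball : ball (0 : Fin m → ℂ) s ⊆ ball 0 r := ball_subset_ball (by linarith)
  set ψ : E × (Fin m → ℂ) → (Fin m → ℂ) := fun q => B q.1 (φ q) with hψ
  have hψd : DifferentiableOn ℂ ψ (interior K' ×ˢ ball (0 : Fin m → ℂ) s) := by
    exact ((hBd.mono hVi).comp differentiableOn_fst fun q hq => hq.1).clm_apply
      (hφ.mono (prod_mono hVi hball))
  have hBA : ∀ x ∈ V, ∀ v, B x (etZA φ x v) = v := by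
    intro x hx v
    have : B x * etZA φ x = 1 := Ring.inverse_mul_cancel _ (hAu x hx)
    exact congrArg (fun F : (Fin m → ℂ) →L[ℂ] (Fin m → ℂ) => F v) this
  have hAB : ∀ x ∈ V, ∀ v, etZA φ x (B x v) = v := by
    intro x hx v
    have : etZA φ x * B x = 1 := Ring.mul_inverse_cancel _ (hAu x hx)
    exact congrArg (fun F : (Fin m → ℂ) →L[ℂ] (Fin m → ℂ) => F v) this
  have hψn : ∀ x ∈ interior K', ∀ u ∈ ball (0 : Fin m → ℂ) s, ‖ψ (x, u) - u‖ ≤ s / 8 := by
    intro x hx u hu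
    rw [mem_ball_zero_iff] at hu
    have e1 : ψ (x, u) - u = B x (φ (x, u) - etZA φ x u) := by
      rw [map_sub, hBA x (hVi hx)]
    rw [e1]
    calc ‖B x (φ (x, u) - etZA φ x u)‖ ≤ ‖B x‖ * ‖φ (x, u) - etZA φ x u‖ :=
          ContinuousLinearMap.le_opNorm _ _
      _ ≤ M * (L * ‖u‖ * ‖u‖) := by
          gcongr
          · exact hM x (hsub hx)
          · exact hquad x (hsub hx) u (by linarith)
      _ ≤ M * (L * s * s) := by gcongr
      _ = (M * L * s) * s := by ring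
      _ ≤ 1 / 8 * s := by gcongr
      _ = s / 8 := by ring
  have hE1 : EtHol ψ (interior K') (s / 2) :=
    etHol_of_near_id hs0 isOpen_interior hψd hψn
  have hbij : ∀ x ∈ interior K', Function.Bijective (etZA φ x) := by
    intro x hx
    exact Function.bijective_iff_has_inverse.2 ⟨B x, hBA x (hVi hx), hAB x (hVi hx)⟩
  have hE2 : EtHol (fun q : E × (Fin m → ℂ) => etZA φ q.1 q.2) (interior K') s :=
    etHol_linear s isOpen_interior (hA.mono hVi) hbij
  have hE3 := hE2.comp hE1 (by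
    intro x hx u hu
    have hu' : u ∈ ball (0 : Fin m → ℂ) s := ball_subset_ball (by linarith) hu
    have h5 := hψn x hx u hu'
    rw [mem_ball_zero_iff] at hu ⊢
    calc ‖ψ (x, u)‖ = ‖(ψ (x, u) - u) + u‖ := by rw [sub_add_cancel]
      _ ≤ ‖ψ (x, u) - u‖ + ‖u‖ := norm_add_le _ _
      _ < s := by linarith)
  have hE4 : EtHol φ (interior K') (s / 2) :=
    hE3.congr fun x hx u _ => (hAB x (hVi hx) (φ (x, u))).symm
  refine ⟨interior K', s / 2, isOpen_interior, hKK', hVi, by positivity, by linarith, hE4, ?_⟩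
  intro x hx u hu
  rw [mem_ball_zero_iff] at hu ⊢
  have h6 := hquad x (hsub hx) u (by linarith)
  have h7 : ‖u‖ ≤ 1 := by linarith
  calc ‖φ (x, u)‖ = ‖(φ (x, u) - etZA φ x u) + etZA φ x u‖ := by rw [sub_add_cancel]
    _ ≤ ‖φ (x, u) - etZA φ x u‖ + ‖etZA φ x u‖ := norm_add_le _ _
    _ ≤ L * ‖u‖ * ‖u‖ + MA * ‖u‖ := by
        refine add_le_add h6 ?_
        refine (ContinuousLinearMap.le_opNorm _ _).trans ?_
        gcongr
        exact hMA x (hsub hx)
    _ ≤ L * ‖u‖ * 1 + MA * ‖u‖ := by gcongr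
    _ = (MA + L) * ‖u‖ := by ring
    _ ≤ (MA + L) * s := by
        gcongr
        linarith
    _ < (MA + L + 1) * s := by nlinarith
    _ ≤ ρ := hs4'

end OkaP
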