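import Pool.Agent.H.MP_ceb9a9.BumpNbhd
import Pool.Agent.H.MP_ceb9a9.NgPair
import Pool.Agent.H.MP_ceb9a9.EtZero
import Pool.Agent.H.MP_ceb9a9.EtOpen
import Pool.Agent.H.MP_ceb9a9.EsHol
import Pool.Agent.H.MP_ceb9a9.EntireModel

/-!
# MP_ceb9a9: bump lemma, step 3: an etale family over the new core map

Proof.
1. Family over the bump.  `bump_nbhd` for `C := B`, `U := U2` gives `θi` and that `θ '' (W ∩ U2)` is a neighbourhood of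
`θ '' B`; `g ∘ θi` is holomorphic on `θ '' U2` (open).  `es_hol` for the compact convex set `θ '' B` gives an open
`WS ⊇ θ '' B`, `rS > 0`, `S` with `Fam m S (WS ×ˢ ball 0 rS)`, `S (y, 0) = g (θi y)` on `WS`.  Put
`U3 = U2 ∩ θ ⁻¹' WS` (open, `⊇ B`) and `SB (x, u) = S (θ x, u)`: `EtHol SB U3 rS` (`Fam.etHol`, `EtHol.pullback`) and
`SB (x, 0) = g x`.
2. `bump_nbhd` for `C := D ∩ B`, `U := U1 ∩ U3` gives `K2`; `UC = W ∩ θ ⁻¹' interior K2` open, `KC = W ∩ θ ⁻¹' K2` compact,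
`D ∩ B ⊆ UC ⊆ KC ⊆ U1 ∩ U3`.  `EtHol.transition` with `Φ1 = GD`, `Φ2 = SB`, `U = U1 ∩ U3`, `K = KC` gives `0 < r0 ≤ r2`, an
open `V ⊇ KC`, `V ⊆ U1 ∩ U3`, `δ` with `EtHol δ V r0`, `δ (x, 0) = 0`, `δ (x, u) ∈ ball 0 rS`, `SB (x, δ (x, u)) = GD (x, u)`.
3. `N (y, u) = δ (θi y, u)` is holomorphic on `W₁ ×ˢ ball 0 r0` with `W₁ = θ '' (V ∩ W)` open, `W₁ ⊇ K2`, `N (y, 0) = 0`,
and `IsUnit (fderiv ℂ (fun v => N (y, v)) 0)` (from `EtHol δ`, bijective derivative;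
`bijective_mfderiv_iff_model`).  `entire_model` with `C₁ = K2` gives `0 < rm ≤ r0` and for each `ε` maps `Nh`, `γ`.
4. `ng_pair` for `D`, `B`, `U = UC`, `η = 1 / 32` gives `δ0`.  Take `ε = δ0 * rm / 2`, `Nh`, `γ` from 3, and
`γ' (x, t) = (1 / rm) • γ (θ x, rm • t)` on `UC ×ˢ ball 0 1`: `‖γ' - t‖ < δ0`, `γ' (x, 0) = 0`.  `ng_pair` gives `UD`, `UB`, `α`, `β`
with `γ' (x, α (x, t)) = β (x, t)` on `UD ∩ UB ⊆ UC`, and `α (x, 0) = 0`, `β (x, 0) = 0`.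
5. `FD (x, t) = GD (x, rm • α (x, (1/rm) • t))` on `(UD ∩ U1) ×ˢ ball 0 (rm / 4)`: `EtHol` by `etHol_of_near_id_ball`
(`‖rm • α (x, (1/rm) • t) - t‖ < rm / 32 = (rm/2 - rm/4) / 8`) and `EtHol.comp` (values in
`ball 0 (rm / 4 + rm / 32) ⊆ ball 0 r2`).
`φB (x, t) = Nh (θ x, rm • β (x, (1/rm) • t))` is holomorphic on `(UB ∩ U3) ×ˢ ball 0 (rm / 2)`, `φB (x, 0) = 0`, its
derivative at `t = 0` is `fderiv (Nh (θ x, ·)) 0 ∘ fderiv (β (x, ·)) 0`, a unit, because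
`‖fderiv (β (x, ·)) 0 - 1‖ ≤ (1/32) / (1/2) < 1` (Cauchy estimate `norm_fderiv_le`).  `etHol_of_zero` for `K = B`,
`ρ = rS` gives `VB ⊇ B` and `rB` with `EtHol φB VB rB`, values in `ball 0 rS`; so `FB (x, t) = SB (x, φB (x, t))` is `EtHol` on
`VB`, radius `rB` (`VB ⊆ UB ∩ U3`).
For `x ∈ UD ∩ U1 ∩ VB` and `‖t‖ < min rB (rm / 4)`: `rm • β (x, t/rm) = rm • γ' (x, α (x, t/rm)) = γ (θ x, rm • α (x, t/rm))`,
`Nh (θ x, γ (θ x, w)) = N (θ x, w) = δ (x, w)` with `w = rm • α (x, t/rm) ∈ ball 0 rm`, so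
`FB (x, t) = SB (x, δ (x, w)) = GD (x, w) = FD (x, t)`.
6. `G' (x, t) = FD (x, t)` if `x ∈ UD ∩ U1`, else `FB (x, t)`; `U' = (UD ∩ U1) ∪ VB`; `r' = min rB (rm / 4)`;
`EtHol.congr`, `EtHol.union_open`.  `G' (x, 0) = GD (x, 0) = g x` or `SB (x, 0) = g x`.
-/

set_option autoImplicit false
open Set Metric Filter
open scoped Topology Manifold

noncomputable section
namespace OkaP

variable {m : ℕ} {X : Type} [MetricSpace X] [ChartedSpace (Fin m → ℂ) X]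
  [IsManifold 𝓘(ℂ, Fin m → ℂ) ⊤ X]
variable {E : Type} [NormedAddCommGroup E] [NormedSpace ℂ E] [FiniteDimensional ℂ E]

/-- step 1: the family over the bump -/
theorem brs_famB {B W U2 : Set E} (hB : IsCompact B) (hW : IsOpen W)
    (hU2 : IsOpen U2) (hBU : B ⊆ U2) (hU2W : U2 ⊆ W) {θ : E → E}
    (hθ : DifferentiableOn ℂ θ W) (hinj : InjOn θ W)
    (hder : ∀ x ∈ W, Function.Bijective (fderiv ℂ θ x)) (hconvB : Convex ℝ (θ '' B))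
    {g : E → X} (hg : HolOn m g U2) :
    ∃ (U3 : Set E) (SB : E × (Fin m → ℂ) → X) (rS : ℝ), IsOpen U3 ∧ B ⊆ U3 ∧ U3 ⊆ U2 ∧ 0 < rS ∧
      EtHol SB U3 rS ∧ ∀ x ∈ U3, SB (x, 0) = g x := by
  obtain ⟨K2, θi, -, -, -, -, hoW, hθi, hli, -, -, -⟩ :=
    bump_nbhd hB hW (hBU.trans hU2W) hU2 hBU hθ hinj hder hconvB
  have hV : IsOpen (θ '' W ∩ θi ⁻¹' U2) := hθi.continuousOn.isOpen_inter_preimage hoW hU2
  have hh : HolOn m (fun y => g (θi y)) (θ '' W ∩ θi ⁻¹' U2) :=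
    HolOn.comp hg (hθi.mono inter_subset_left) fun y hy => hy.2
  have hBV : θ '' B ⊆ θ '' W ∩ θi ⁻¹' U2 := by
    rintro _ ⟨x, hx, rfl⟩
    refine ⟨mem_image_of_mem _ (hU2W (hBU hx)), ?_⟩
    show θi (θ x) ∈ U2
    rw [hli x (hU2W (hBU hx))]
    exact hBU hx
  have hcB : IsCompact (θ '' B) :=
    hB.image_of_continuousOn (hθ.continuousOn.mono (hBU.trans hU2W))
  obtain ⟨WS, rS, S, hWS, hBWS, hrS, hS, hS0⟩ := es_hol hcB hconvB hV hBV hh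
  refine ⟨U2 ∩ θ ⁻¹' WS, fun q => S (θ q.1, q.2), rS, ?_, ?_, inter_subset_left, hrS, ?_, ?_⟩
  · exact (hθ.continuousOn.mono hU2W).isOpen_inter_preimage hU2 hWS
  · intro x hx
    exact ⟨hBU hx, hBWS (mem_image_of_mem _ hx)⟩
  · exact (Fam.etHol hS).pullback (a := θ) (V := U2 ∩ θ ⁻¹' WS)
      (hθ.mono (inter_subset_left.trans hU2W)) fun x hx => hx.2
  · intro x hx
    show S (θ x, 0) = g x
    rw [hS0 _ hx.2]
    show g (θi (θ x)) = g x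
    rw [hli x (hU2W hx.1)]

omit [FiniteDimensional ℂ E] in
/-- derivative of an etale family of self-maps is a unit -/
theorem brs_unit {δ : E × (Fin m → ℂ) → (Fin m → ℂ)} {V : Set E} {r : ℝ} (hr : 0 < r)
    (h : EtHol δ V r) {x : E} (hx : x ∈ V) : IsUnit (fderiv ℂ (fun v => δ (x, v)) 0) := by
  have h1 := h.der x hx 0 (mem_ball_self hr)
  have h2 := bijective_mfderiv_iff_model.1 h1
  exact ContinuousLinearMap.isUnit_iff_bijective.2 h2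

/-- steps 2 and 3 -/
theorem brs_trans {D B W U1 U3 : Set E} (hD : IsCompact D) (hB : IsCompact B) (hW : IsOpen W)
    (hU1 : IsOpen U1) (hU3 : IsOpen U3) (hDU : D ⊆ U1) (hBU : B ⊆ U3) (hU3W : U3 ⊆ W) {θ : E → E}
    (hθ : DifferentiableOn ℂ θ W) (hinj : InjOn θ W)
    (hder : ∀ x ∈ W, Function.Bijective (fderiv ℂ θ x))
    (hconv : Convex ℝ (θ '' (D ∩ B)))
    {GD SB : E × (Fin m → ℂ) → X} {r2 rS : ℝ}
    (hr2 : 0 < r2) (hrS : 0 < rS) (hGD : EtHol GD U1 r2) (hSB : EtHol SB U3 rS)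
    (hcore : ∀ x ∈ U1 ∩ U3, GD (x, 0) = SB (x, 0)) :
    ∃ (UC : Set E) (rm : ℝ), IsOpen UC ∧ D ∩ B ⊆ UC ∧ UC ⊆ U1 ∩ U3 ∧ 0 < rm ∧ rm ≤ r2 ∧
      ∀ ε > 0, ∃ Nh γ : E × (Fin m → ℂ) → (Fin m → ℂ),
        DifferentiableOn ℂ Nh (W ×ˢ univ) ∧ (∀ x ∈ W, Nh (x, 0) = 0) ∧
        (∀ x ∈ W, IsUnit (fderiv ℂ (fun v => Nh (x, v)) 0)) ∧
        DifferentiableOn ℂ γ (UC ×ˢ ball (0 : Fin m → ℂ) rm) ∧ (∀ x ∈ UC, γ (x, 0) = 0) ∧
        ∀ x ∈ UC, ∀ u ∈ ball (0 : Fin m → ℂ) rm, ‖γ (x, u) - u‖ ≤ ε ∧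
          SB (x, Nh (x, γ (x, u))) = GD (x, u) := by
  have hCW : D ∩ B ⊆ W := fun x hx => hU3W (hBU hx.2)
  have hCU : D ∩ B ⊆ U1 ∩ U3 := fun x hx => ⟨hDU hx.1, hBU hx.2⟩
  have hCc : IsCompact (D ∩ B) := hD.inter_right hB.isClosed
  obtain ⟨K2, θi, hK2, hK2c, hCK2, hK2U, hoW, hθi, hli, hUCo, hKCc, hKCU⟩ :=
    bump_nbhd hCc hW hCW (hU1.inter hU3) hCU hθ hinj hder hconv
  have hUO : IsOpen (U1 ∩ U3) := hU1.inter hU3
  obtain ⟨r0, hr0, hr02, V, hVo, hKV, hVU, δ, hδ, hδ0, hδS⟩ :=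
    EtHol.transition hUO (hGD.mono inter_subset_left le_rfl) (hSB.mono inter_subset_right le_rfl)
      hr2 hrS hKCc hKCU hcore
  have hVW : V ⊆ W := fun x hx => hU3W (hVU hx).2
  -- the transition map in the coordinates θ
  have hW1o : IsOpen (θ '' W ∩ θi ⁻¹' V) := hθi.continuousOn.isOpen_inter_preimage hoW hVo
  have hK2W1 : K2 ⊆ θ '' W ∩ θi ⁻¹' V := by
    intro y hy
    obtain ⟨x, hx, rfl⟩ := hK2U hy
    refine ⟨mem_image_of_mem _ hx.1, ?_⟩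
    show θi (θ x) ∈ V
    rw [hli x hx.1]
    exact hKV ⟨hx.1, hy⟩
  have hδd : DifferentiableOn ℂ δ (V ×ˢ ball (0 : Fin m → ℂ) r0) :=
    mdifferentiableOn_iff_differentiableOn.1 hδ.hol
  have hNd : DifferentiableOn ℂ (fun q : E × (Fin m → ℂ) => δ (θi q.1, q.2))
      ((θ '' W ∩ θi ⁻¹' V) ×ˢ ball (0 : Fin m → ℂ) r0) := by
    have h1 : DifferentiableOn ℂ (fun q : E × (Fin m → ℂ) => (θi q.1, q.2))
        ((θ '' W ∩ θi ⁻¹' V) ×ˢ ball (0 : Fin m → ℂ) r0) :=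
      (hθi.comp differentiableOn_fst fun q hq => hq.1.1).prodMk differentiableOn_snd
    exact hδd.comp h1 fun q hq => ⟨hq.1.2, hq.2⟩
  obtain ⟨rm, hrm, hrm0, hmod⟩ := entire_model (N := fun q : E × (Fin m → ℂ) => δ (θi q.1, q.2))
    hK2 hK2c hW1o hK2W1 hr0 hNd (fun z hz => hδ0 _ hz.2) (fun z hz => brs_unit hr0 hδ hz.2)
  refine ⟨W ∩ θ ⁻¹' interior K2, rm, hUCo, ?_, ?_, hrm, hrm0.trans hr02, ?_⟩
  · intro x hx
    exact ⟨hCW hx, hCK2 (mem_image_of_mem _ hx)⟩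
  · intro x hx
    have hx2 : θ x ∈ K2 := interior_subset (show θ x ∈ interior K2 from hx.2)
    exact hKCU ⟨hx.1, hx2⟩
  intro ε hε
  obtain ⟨Nh, γ, hNh, hNh0, hNh1, hγ, hγ0, hγN⟩ := hmod ε hε
  have hfst : DifferentiableOn ℂ (fun q : E × (Fin m → ℂ) => (θ q.1, q.2))
      (W ×ˢ (univ : Set (Fin m → ℂ))) :=
    (hθ.comp differentiableOn_fst fun q hq => hq.1).prodMk differentiableOn_snd
  refine ⟨fun q => Nh (θ q.1, q.2), fun q => γ (θ q.1, q.2), ?_, fun x _ => hNh0 _,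
    fun x _ => hNh1 (θ x), ?_, fun x hx => hγ0 _ hx.2, ?_⟩
  · exact hNh.comp_differentiableOn hfst
  · exact hγ.comp (hfst.mono fun q hq => ⟨hq.1.1, mem_univ _⟩) fun q hq => ⟨hq.1.2, hq.2⟩
  · intro x hx u hu
    obtain ⟨h1, h2⟩ := hγN (θ x) hx.2 u hu
    refine ⟨h1, ?_⟩
    show SB (x, Nh (θ x, γ (θ x, u))) = GD (x, u)
    rw [h2]
    show SB (x, δ (θi (θ x), u)) = GD (x, u)
    rw [hli x hx.1]
    have hx2 : θ x ∈ K2 := interior_subset (show θ x ∈ interior K2 from hx.2)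
    exact (hδS x (hKV ⟨hx.1, hx2⟩) u (ball_subset_ball hrm0 hu)).2

omit [FiniteDimensional ℂ E] in
/-- rescaling of a family of self-maps -/
theorem brs_scale {α : E × (Fin m → ℂ) → (Fin m → ℂ)} {U : Set E} {a c : ℝ} (hc : 0 < c)
    (hα : DifferentiableOn ℂ α (U ×ˢ ball (0 : Fin m → ℂ) a)) :
    DifferentiableOn ℂ (fun q : E × (Fin m → ℂ) => (c : ℂ) • α (q.1, ((c⁻¹ : ℝ) : ℂ) • q.2))
      (U ×ˢ ball (0 : Fin m → ℂ) (c * a)) := by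
  have h0 : DifferentiableOn ℂ (fun q : E × (Fin m → ℂ) => ((c⁻¹ : ℝ) : ℂ) • q.2)
      (U ×ˢ ball (0 : Fin m → ℂ) (c * a)) :=
    DifferentiableOn.fun_const_smul differentiableOn_snd _
  have h1 : DifferentiableOn ℂ (fun q : E × (Fin m → ℂ) => (q.1, ((c⁻¹ : ℝ) : ℂ) • q.2))
      (U ×ˢ ball (0 : Fin m → ℂ) (c * a)) :=
    differentiableOn_fst.prodMk h0
  have h2 := hα.comp h1 (fun q hq => ⟨hq.1, by
    have h3 := hq.2
    rw [mem_ball_zero_iff] at h3 ⊢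
    rw [norm_smul, Complex.norm_real, Real.norm_of_nonneg (inv_nonneg.2 hc.le)]
    rw [inv_mul_lt_iff₀ hc]
    exact h3⟩)
  exact DifferentiableOn.fun_const_smul h2 (c : ℂ)

omit [FiniteDimensional ℂ E] in
theorem brs_scale_mem {c a : ℝ} (hc : 0 < c) {t : Fin m → ℂ}
    (ht : t ∈ ball (0 : Fin m → ℂ) (c * a)) :
    ((c⁻¹ : ℝ) : ℂ) • t ∈ ball (0 : Fin m → ℂ) a := by
  rw [mem_ball_zero_iff] at ht ⊢
  rw [norm_smul, Complex.norm_real, Real.norm_of_nonneg (inv_nonneg.2 hc.le)]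
  rw [inv_mul_lt_iff₀ hc]
  exact ht

theorem brs_scale_near {c η : ℝ} (hc : 0 < c) {w t : Fin m → ℂ}
    (h : ‖w - ((c⁻¹ : ℝ) : ℂ) • t‖ < η) : ‖(c : ℂ) • w - t‖ < c * η := by
  have h1 : (c : ℂ) • w - t = (c : ℂ) • (w - ((c⁻¹ : ℝ) : ℂ) • t) := by
    rw [smul_sub, smul_smul, ← Complex.ofReal_mul, mul_inv_cancel₀ hc.ne', Complex.ofReal_one,
      one_smul]
  rw [h1, norm_smul, Complex.norm_real, Real.norm_of_nonneg hc.le]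
  exact mul_lt_mul_of_pos_left h hc

omit [MetricSpace X] [ChartedSpace (Fin m → ℂ) X] [IsManifold 𝓘(ℂ, Fin m → ℂ) ⊤ X] in
/-- step 4 -/
theorem brs_split {D B W UC : Set E} (hD : IsCompact D) (hB : IsCompact B)
    (hUC : IsOpen UC) (hDB : D ∩ B ⊆ UC)
    (hpu : PshConvex (D ∪ B)) (hpi : PshConvex (D ∩ B)) {GD SB : E × (Fin m → ℂ) → X} {rm : ℝ}
    (hrm : 0 < rm)
    (hmod : ∀ ε > 0, ∃ Nh γ : E × (Fin m → ℂ) → (Fin m → ℂ),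
        DifferentiableOn ℂ Nh (W ×ˢ univ) ∧ (∀ x ∈ W, Nh (x, 0) = 0) ∧
        (∀ x ∈ W, IsUnit (fderiv ℂ (fun v => Nh (x, v)) 0)) ∧
        DifferentiableOn ℂ γ (UC ×ˢ ball (0 : Fin m → ℂ) rm) ∧ (∀ x ∈ UC, γ (x, 0) = 0) ∧
        ∀ x ∈ UC, ∀ u ∈ ball (0 : Fin m → ℂ) rm, ‖γ (x, u) - u‖ ≤ ε ∧
          SB (x, Nh (x, γ (x, u))) = GD (x, u)) :
    ∃ (UD UB : Set E) (Nh α β : E × (Fin m → ℂ) → (Fin m → ℂ)), IsOpen UD ∧ IsOpen UB ∧ D ⊆ UD ∧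
      B ⊆ UB ∧
      DifferentiableOn ℂ Nh (W ×ˢ univ) ∧ (∀ x ∈ W, Nh (x, 0) = 0) ∧
      (∀ x ∈ W, IsUnit (fderiv ℂ (fun v => Nh (x, v)) 0)) ∧
      DifferentiableOn ℂ α (UD ×ˢ ball (0 : Fin m → ℂ) (rm / 2)) ∧
      DifferentiableOn ℂ β (UB ×ˢ ball (0 : Fin m → ℂ) (rm / 2)) ∧
      (∀ x ∈ UD, ∀ t ∈ ball (0 : Fin m → ℂ) (rm / 2), ‖α (x, t) - t‖ < rm / 32) ∧
      (∀ x ∈ UB, ∀ t ∈ ball (0 : Fin m → ℂ) (rm / 2), ‖β (x, t) - t‖ < rm / 32) ∧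
      (∀ x ∈ UD, α (x, 0) = 0) ∧ (∀ x ∈ UB, β (x, 0) = 0) ∧
      ∀ x ∈ UD ∩ UB, ∀ t ∈ ball (0 : Fin m → ℂ) (rm / 2),
        SB (x, Nh (x, β (x, t))) = GD (x, α (x, t)) := by
  obtain ⟨δ0, hδ0, hng⟩ := ng_pair (m := m) hD hB hUC hDB hpu hpi
    (show (0 : ℝ) < 1 / 32 by norm_num)
  obtain ⟨Nh, γ, hNh, hNh0, hNh1, hγ, hγ0, hγN⟩ := hmod (δ0 * rm / 2) (by positivity)
  have hrm' : 0 < rm⁻¹ := inv_pos.2 hrm
  -- the rescaled γ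
  have hγ' : DifferentiableOn ℂ (fun q : E × (Fin m → ℂ) =>
      ((rm⁻¹ : ℝ) : ℂ) • γ (q.1, (((rm⁻¹)⁻¹ : ℝ) : ℂ) • q.2)) (UC ×ˢ ball (0 : Fin m → ℂ) 1) := by
    have h := brs_scale hrm' hγ
    rwa [inv_mul_cancel₀ hrm.ne'] at h
  have hmem : ∀ t ∈ ball (0 : Fin m → ℂ) 1, (((rm⁻¹)⁻¹ : ℝ) : ℂ) • t ∈
      ball (0 : Fin m → ℂ) rm := by
    intro t ht
    refine brs_scale_mem hrm' ?_
    rwa [inv_mul_cancel₀ hrm.ne']
  have hγn : ∀ x ∈ UC, ∀ t ∈ ball (0 : Fin m → ℂ) 1,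
      ‖((rm⁻¹ : ℝ) : ℂ) • γ (x, (((rm⁻¹)⁻¹ : ℝ) : ℂ) • t) - t‖ < δ0 := by
    intro x hx t ht
    have h1 := (hγN x hx _ (hmem t ht)).1
    have h2 : ‖γ (x, (((rm⁻¹)⁻¹ : ℝ) : ℂ) • t) - (((rm⁻¹)⁻¹ : ℝ) : ℂ) • t‖ < δ0 * rm :=
      lt_of_le_of_lt h1 (by nlinarith [mul_pos hδ0 hrm])
    have h3 := brs_scale_near hrm' h2
    have h4 : rm⁻¹ * (δ0 * rm) = δ0 := by field_simp
    rwa [h4] at h3
  obtain ⟨UD, UB, α, β, hUD, hUB, hDUD, hBUB, hDBU, hα, hβ, hαn, hβn, hγαβ, h0⟩ :=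
    hng _ hγ' hγn
  obtain ⟨hα0, hβ0⟩ := h0 (fun x hx => by
    show ((rm⁻¹ : ℝ) : ℂ) • γ (x, (((rm⁻¹)⁻¹ : ℝ) : ℂ) • (0 : Fin m → ℂ)) = 0
    rw [smul_zero, hγ0 x hx, smul_zero])
  have e2 : rm * (1 / 2) = rm / 2 := by ring
  have hmem2 : ∀ t ∈ ball (0 : Fin m → ℂ) (rm / 2), ((rm⁻¹ : ℝ) : ℂ) • t ∈
      ball (0 : Fin m → ℂ) (1 / 2) := by
    intro t ht
    refine brs_scale_mem hrm ?_
    rwa [e2]
  have hαn' : ∀ x ∈ UD, ∀ t ∈ ball (0 : Fin m → ℂ) (rm / 2),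
      ‖(rm : ℂ) • α (x, ((rm⁻¹ : ℝ) : ℂ) • t) - t‖ < rm / 32 := by
    intro x hx t ht
    have h := brs_scale_near hrm (hαn x hx _ (hmem2 t ht))
    rwa [show rm * (1 / 32) = rm / 32 by ring] at h
  refine ⟨UD, UB, Nh, fun q => (rm : ℂ) • α (q.1, ((rm⁻¹ : ℝ) : ℂ) • q.2),
    fun q => (rm : ℂ) • β (q.1, ((rm⁻¹ : ℝ) : ℂ) • q.2), hUD, hUB, hDUD, hBUB, hNh, hNh0, hNh1,
    ?_, ?_, hαn', ?_, ?_, ?_, ?_⟩
  · rw [← e2]
    exact brs_scale hrm hα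
  · rw [← e2]
    exact brs_scale hrm hβ
  · intro x hx t ht
    have h := brs_scale_near hrm (hβn x hx _ (hmem2 t ht))
    rwa [show rm * (1 / 32) = rm / 32 by ring] at h
  · intro x hx
    show (rm : ℂ) • α (x, ((rm⁻¹ : ℝ) : ℂ) • (0 : Fin m → ℂ)) = 0
    rw [smul_zero, hα0 x hx, smul_zero]
  · intro x hx
    show (rm : ℂ) • β (x, ((rm⁻¹ : ℝ) : ℂ) • (0 : Fin m → ℂ)) = 0
    rw [smul_zero, hβ0 x hx, smul_zero]
  · intro x hx t ht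
    have hxU : x ∈ UC := hDBU hx
    have h1 := hγαβ x hx _ (hmem2 t ht)
    -- w = rm • α (x, t / rm)
    have hw : (rm : ℂ) • α (x, ((rm⁻¹ : ℝ) : ℂ) • t) ∈ ball (0 : Fin m → ℂ) rm := by
      rw [mem_ball_zero_iff]
      have h2 := hαn' x hx.1 t ht
      rw [mem_ball_zero_iff] at ht
      calc ‖(rm : ℂ) • α (x, ((rm⁻¹ : ℝ) : ℂ) • t)‖
          = ‖((rm : ℂ) • α (x, ((rm⁻¹ : ℝ) : ℂ) • t) - t) + t‖ := by rw [sub_add_cancel]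
        _ ≤ ‖(rm : ℂ) • α (x, ((rm⁻¹ : ℝ) : ℂ) • t) - t‖ + ‖t‖ := norm_add_le _ _
        _ < rm := by linarith
    have h3 := (hγN x hxU _ hw).2
    have h4 : (rm : ℂ) • β (x, ((rm⁻¹ : ℝ) : ℂ) • t) =
        γ (x, (rm : ℂ) • α (x, ((rm⁻¹ : ℝ) : ℂ) • t)) := by
      rw [← h1]
      show (rm : ℂ) • ((rm⁻¹ : ℝ) : ℂ) • γ (x, (((rm⁻¹)⁻¹ : ℝ) : ℂ) •
        α (x, ((rm⁻¹ : ℝ) : ℂ) • t)) = _
      rw [smul_smul, ← Complex.ofReal_mul, mul_inv_cancel₀ hrm.ne', Complex.ofReal_one, one_smul,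
        inv_inv]
    show SB (x, Nh (x, (rm : ℂ) • β (x, ((rm⁻¹ : ℝ) : ℂ) • t))) =
      GD (x, (rm : ℂ) • α (x, ((rm⁻¹ : ℝ) : ℂ) • t))
    rw [h4]
    exact h3

/-- extension of an etale family with given core over a bump -/
theorem bump_restore {D B W U1 U2 : Set E} (hD : IsCompact D) (hB : IsCompact B) (hW : IsOpen W)
    (hU1 : IsOpen U1) (hU2 : IsOpen U2) (hDU : D ⊆ U1) (hBU : B ⊆ U2) (hU2W : U2 ⊆ W) {θ : E → E}
    (hθ : DifferentiableOn ℂ θ W) (hinj : InjOn θ W)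
    (hder : ∀ x ∈ W, Function.Bijective (fderiv ℂ θ x)) (hconvB : Convex ℝ (θ '' B))
    (hconv : Convex ℝ (θ '' (D ∩ B)))
    (hpu : PshConvex (D ∪ B)) (hpi : PshConvex (D ∩ B)) {GD : E × (Fin m → ℂ) → X} {r2 : ℝ}
    (hr2 : 0 < r2) (hGD : EtHol GD U1 r2) {g : E → X} (hg : HolOn m g (U1 ∪ U2))
    (hcore : ∀ x ∈ U1, GD (x, 0) = g x) :
    ∃ (U' : Set E) (G' : E × (Fin m → ℂ) → X) (r' : ℝ), IsOpen U' ∧ D ∪ B ⊆ U' ∧ 0 < r' ∧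
      EtHol G' U' r' ∧ ∀ x ∈ U', G' (x, 0) = g x := by
  obtain ⟨U3, SB, rS, hU3, hBU3, hU32, hrS, hSB, hSB0⟩ :=
    brs_famB hB hW hU2 hBU hU2W hθ hinj hder hconvB (hg.mono subset_union_right)
  have hU3W : U3 ⊆ W := hU32.trans hU2W
  obtain ⟨UC, rm, hUC, hDBC, hUCU, hrm, hrm2, hmod⟩ :=
    brs_trans hD hB hW hU1 hU3 hDU hBU3 hU3W hθ hinj hder hconv hr2 hrS hGD hSB
      (fun x hx => by rw [hcore x hx.1, hSB0 x hx.2])
  obtain ⟨UD, UB, Nh, α, β, hUD, hUB, hDUD, hBUB, hNh, hNh0, hNh1, hα, hβ, hαn, hβn, hα0, hβ0,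
    hglue⟩ := brs_split hD hB hUC hDBC hpu hpi hrm hmod
  -- the family over D
  have hαE : EtHol α (UD ∩ U1) (rm / 4) := by
    refine etHol_of_near_id_ball (r := rm / 2) (δ := rm / 32) (by linarith) (by positivity)
      (by linarith) (hUD.inter hU1) (hα.mono (prod_mono inter_subset_left subset_rfl)) ?_
    intro x hx u hu
    exact (hαn x hx.1 u hu).le
  have hFD : EtHol (fun q : E × (Fin m → ℂ) => GD (q.1, α q)) (UD ∩ U1) (rm / 4) := by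
    refine (hGD.mono inter_subset_right le_rfl).comp hαE ?_
    intro x hx u hu
    have h1 := hαn x hx.1 u (ball_subset_ball (by linarith) hu)
    rw [mem_ball_zero_iff] at hu ⊢
    calc ‖α (x, u)‖ = ‖(α (x, u) - u) + u‖ := by rw [sub_add_cancel]
      _ ≤ ‖α (x, u) - u‖ + ‖u‖ := norm_add_le _ _
      _ < r2 := by linarith
  -- the family over B
  have hβE : EtHol β (UB ∩ U3) (rm / 4) := by
    refine etHol_of_near_id_ball (r := rm / 2) (δ := rm / 32) (by linarith) (by positivity)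
      (by linarith) (hUB.inter hU3) (hβ.mono (prod_mono inter_subset_left subset_rfl)) ?_
    intro x hx u hu
    exact (hβn x hx.1 u hu).le
  have hβd : DifferentiableOn ℂ β ((UB ∩ U3) ×ˢ ball (0 : Fin m → ℂ) (rm / 2)) :=
    hβ.mono (prod_mono inter_subset_left subset_rfl)
  have hφd : DifferentiableOn ℂ (fun q : E × (Fin m → ℂ) => Nh (q.1, β q))
      ((UB ∩ U3) ×ˢ ball (0 : Fin m → ℂ) (rm / 2)) :=
    hNh.comp (differentiableOn_fst.prodMk hβd) fun q hq => ⟨hU3W hq.1.2, mem_univ _⟩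
  have hφ0 : ∀ x ∈ UB ∩ U3, Nh (x, β (x, 0)) = 0 := by
    intro x hx
    rw [hβ0 x hx.1, hNh0 x (hU3W hx.2)]
  have hφ1 : ∀ x ∈ UB ∩ U3, IsUnit (fderiv ℂ (fun v => Nh (x, β (x, v))) 0) := by
    intro x hx
    have hb : DifferentiableAt ℂ (fun v => β (x, v)) 0 := by
      have h1 : DifferentiableOn ℂ (fun v : Fin m → ℂ => β (x, v))
          (ball (0 : Fin m → ℂ) (rm / 2)) :=
        hβ.comp ((differentiableOn_const x).prodMk differentiableOn_id) fun v hv => ⟨hx.1, hv⟩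
      exact h1.differentiableAt (isOpen_ball.mem_nhds (mem_ball_self (by positivity)))
    have hn : DifferentiableAt ℂ (fun v => Nh (x, v)) (β (x, 0)) := by
      have h1 : DifferentiableOn ℂ (fun v : Fin m → ℂ => Nh (x, v)) univ :=
        hNh.comp ((differentiableOn_const x).prodMk differentiableOn_id)
          fun v hv => ⟨hU3W hx.2, mem_univ _⟩
      exact h1.differentiableAt Filter.univ_mem
    have hc : fderiv ℂ (fun v => Nh (x, β (x, v))) 0 =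
        (fderiv ℂ (fun v => Nh (x, v)) (β (x, 0))).comp (fderiv ℂ (fun v => β (x, v)) 0) :=
      fderiv_comp (g := fun v => Nh (x, v)) (f := fun v => β (x, v)) 0 hn hb
    rw [hc, hβ0 x hx.1]
    exact (hNh1 x (hU3W hx.2)).mul (brs_unit (by positivity) hβE hx)
  obtain ⟨VB, rB, hVB, hBVB, hVBU, hrB, -, hφE, hφm⟩ :=
    etHol_of_zero (φ := fun q : E × (Fin m → ℂ) => Nh (q.1, β q)) (K := B)
      (show 0 < rm / 2 by positivity) hrS (hUB.inter hU3) hB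
      (fun x hx => ⟨hBUB hx, hBU3 hx⟩) hφd hφ0 hφ1
  have hFB : EtHol (fun q : E × (Fin m → ℂ) => SB (q.1, Nh (q.1, β q))) VB rB :=
    (hSB.mono (fun x hx => (hVBU hx).2) le_rfl).comp hφE hφm
  -- gluing
  classical
  set G' : E × (Fin m → ℂ) → X := fun q =>
    if q.1 ∈ UD ∩ U1 then GD (q.1, α q) else SB (q.1, Nh (q.1, β q)) with hG'
  have hGa : ∀ x ∈ UD ∩ U1, ∀ u, G' (x, u) = GD (x, α (x, u)) := by
    intro x hx u
    rw [hG']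
    exact if_pos hx
  have hGb : ∀ x ∈ VB, ∀ u ∈ ball (0 : Fin m → ℂ) (rm / 2),
      G' (x, u) = SB (x, Nh (x, β (x, u))) := by
    intro x hx u hu
    by_cases h : x ∈ UD ∩ U1
    · rw [hGa x h u]
      exact (hglue x ⟨h.1, (hVBU hx).1⟩ u hu).symm
    · rw [hG']
      exact if_neg h
  refine ⟨(UD ∩ U1) ∪ VB, G', min rB (rm / 4), (hUD.inter hU1).union hVB, ?_,
    lt_min hrB (by positivity), ?_, ?_⟩
  · rintro x (hx | hx)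
    · exact Or.inl ⟨hDUD hx, hDU hx⟩
    · exact Or.inr (hBVB hx)
  · refine EtHol.union_open ?_ ?_ (hUD.inter hU1) hVB
    · exact (hFD.mono subset_rfl (min_le_right _ _)).congr fun x hx u _ => hGa x hx u
    · refine (hFB.mono subset_rfl (min_le_left _ _)).congr fun x hx u hu => hGb x hx u ?_
      refine ball_subset_ball ?_ hu
      exact (min_le_right _ _).trans (by linarith)
  · rintro x (hx | hx)
    · rw [hGa x hx, hα0 x hx.1, hcore x hx.2]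
    · rw [hGb x hx 0 (mem_ball_self (by positivity)), hφ0 x (hVBU hx), hSB0 x (hVBU hx).2]

end OkaP
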