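import Pool.Agent.H.MP_ceb9a9.Base

set_option autoImplicit false
open Set Metric Filter
open scoped Topology Manifold

noncomputable section
namespace OkaP

variable {m : ℕ} {X : Type} [MetricSpace X] [ChartedSpace (Fin m → ℂ) X]
variable {E F : Type} [NormedAddCommGroup E] [NormedSpace ℂ E]
  [NormedAddCommGroup F] [NormedSpace ℂ F]

/-- uniform closeness of a continuous map near a compact set. -/
theorem Near_map {Y Z : Type} [MetricSpace Y] [MetricSpace Z] {f : Y → Z} {U C : Set Y} (hU : IsOpen U)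
    (hf : ContinuousOn f U) (hC : IsCompact C) (hCU : C ⊆ U) {η : ℝ} (hη : 0 < η) :
    ∃ ε > 0, ∀ x ∈ C, ∀ y, dist x y < ε → y ∈ U ∧ dist (f x) (f y) < η := by
  by_contra hcon
  push Not at hcon
  have h1 : ∀ n : ℕ, ∃ x ∈ C, ∃ y, dist x y < 1 / ((n : ℝ) + 1) ∧
      (y ∈ U → η ≤ dist (f x) (f y)) := fun n => hcon _ (by positivity)
  choose x hxC y hxy hbad using h1
  obtain ⟨a, haC, φ, hφ, hlim⟩ := hC.tendsto_subseq hxC
  have hd : Tendsto (fun n => dist (x (φ n)) (y (φ n))) atTop (𝓝 0) := by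
    refine squeeze_zero (fun n => dist_nonneg) (fun n => (hxy (φ n)).le) ?_
    exact tendsto_one_div_add_atTop_nhds_zero_nat.comp hφ.tendsto_atTop
  have hy : Tendsto (fun n => y (φ n)) atTop (𝓝 a) := by
    rw [tendsto_iff_dist_tendsto_zero]
    have h2 : Tendsto (fun n => dist (x (φ n)) (y (φ n)) + dist (x (φ n)) a) atTop (𝓝 (0 + 0)) :=
      hd.add (tendsto_iff_dist_tendsto_zero.1 hlim)
    rw [add_zero] at h2
    refine squeeze_zero (fun n => dist_nonneg) (fun n => ?_) h2
    rw [dist_comm (x (φ n)) (y (φ n))]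
    exact dist_triangle _ _ _
  have haU : a ∈ U := hCU haC
  have hfa : ContinuousAt f a := hf.continuousAt (hU.mem_nhds haU)
  have h3 : Tendsto (fun n => dist (f (x (φ n))) (f (y (φ n)))) atTop (𝓝 (dist (f a) (f a))) :=
    Tendsto.dist (hfa.tendsto.comp hlim) (hfa.tendsto.comp hy)
  rw [dist_self] at h3
  have h4 : ∀ᶠ n in atTop, y (φ n) ∈ U := hy (hU.mem_nhds haU)
  have h5 : ∀ᶠ n in atTop, dist (f (x (φ n))) (f (y (φ n))) < η := h3.eventually (gt_mem_nhds hη)
  obtain ⟨n, hn1, hn2⟩ := (h4.and h5).exists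
  exact absurd (hbad (φ n) hn1) (not_le.2 hn2)

/-- closeness in X implies closeness in a chart, uniformly near a compact set. -/
theorem chart_near (e : OpenPartialHomeomorph X (Fin m → ℂ)) {C : Set X} (hC : IsCompact C)
    (hCe : C ⊆ e.source) {η : ℝ} (hη : 0 < η) :
    ∃ ε > 0, ∀ x ∈ C, ∀ y, dist x y < ε → y ∈ e.source ∧ ‖e x - e y‖ < η := by
  obtain ⟨ε, hε, h⟩ := Near_map e.open_source e.continuousOn hC hCe hη
  exact ⟨ε, hε, fun x hx y hxy => ⟨(h x hx y hxy).1, by
    rw [← dist_eq_norm]; exact (h x hx y hxy).2⟩⟩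

/-- closeness in the target of a chart implies closeness in X. -/
theorem symm_near (e : OpenPartialHomeomorph X (Fin m → ℂ)) {D : Set (Fin m → ℂ)} (hD : IsCompact D)
    (hDe : D ⊆ e.target) {η : ℝ} (hη : 0 < η) :
    ∃ ε > 0, ∀ u ∈ D, ∀ v, ‖u - v‖ < ε → v ∈ e.target ∧ dist (e.symm u) (e.symm v) < η := by
  obtain ⟨ε, hε, h⟩ := Near_map e.open_target e.continuousOn_symm hD hDe hη
  exact ⟨ε, hε, fun u hu v huv => h u hu v (by rw [dist_eq_norm]; exact huv)⟩

/-- uniform closeness of a continuous map near a compact set. -/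
theorem map_near {Y Z : Type} [MetricSpace Y] [MetricSpace Z] {f : Y → Z} {U C : Set Y} (hU : IsOpen U)
    (hf : ContinuousOn f U) (hC : IsCompact C) (hCU : C ⊆ U) {η : ℝ} (hη : 0 < η) :
    ∃ ε > 0, ∀ x ∈ C, ∀ y, dist x y < ε → y ∈ U ∧ dist (f x) (f y) < η :=
  Near_map hU hf hC hCU hη

/-- distance from p is bounded below on compact sets where the map avoids p. -/
theorem dist_lower {Y : Type} [TopologicalSpace Y] {f : Y → X} {C : Set Y} (hC : IsCompact C)
    (hf : ContinuousOn f C) {p : X} (hp : ∀ x ∈ C, f x ≠ p) : ∃ η > 0, ∀ x ∈ C, η ≤ dist (f x) p := by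
  rcases C.eq_empty_or_nonempty with rfl | hne
  · exact ⟨1, one_pos, fun x hx => absurd hx (notMem_empty x)⟩
  · have hc : ContinuousOn (fun x => dist (f x) p) C :=
      (continuous_id.dist continuous_const).comp_continuousOn hf
    obtain ⟨x, hx, hmin⟩ := hC.exists_isMinOn hne hc
    exact ⟨dist (f x) p, dist_pos.2 (hp x hx), fun y hy => hmin hy⟩

end OkaP
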