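import Pool.Agent.H.MP_ceb9a9.HolState
import Pool.Agent.H.MP_ceb9a9.BumpCore
import Pool.Agent.H.MP_ceb9a9.BumpRestore
import Pool.Agent.H.MP_ceb9a9.Near

/-!
# MP_ceb9a9: the bump lemma for holomorphic states

Proof.  Let `HolState p Z D G r` with `EtHol G U0 r`, `U0 ⊇ D` open.  `D \ Z` is compact (`Z` open), `G (·, 0)` is continuous
on it and avoids `p`: `dist_lower` (Near) gives `c > 0` with `c ≤ dist (G (x, 0)) p` there.  `D ∩ B ⊆ W`, `W` is disjoint
from `Z`, so `G (x, 0) ≠ p` on `D ∩ B`.  `bump_core` with `min η c` gives `U1, U2, GD, r2, g`; `bump_restore` gives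
`U' ⊇ D ∪ B`, `G'`, `r'` with `G' (x, 0) = g x`.  For `x ∈ D \ Z`, `g x ≠ p` because `dist (g x) (G (x, 0)) < c ≤ dist (G (x, 0)) p`;
for `x ∈ B`, `g x ≠ p`.
-/

set_option autoImplicit false
open Set Metric Filter
open scoped Topology Manifold

noncomputable section
namespace OkaP

variable {m : ℕ} {X : Type} [MetricSpace X] [ChartedSpace (Fin m → ℂ) X]
  [IsManifold 𝓘(ℂ, Fin m → ℂ) ⊤ X]
variable {E : Type} [NormedAddCommGroup E] [NormedSpace ℂ E] [FiniteDimensional ℂ E]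

/-- the bump lemma -/
theorem bump_move {p : X} (hp : CAPY m p) {Z D B W : Set E} (hZ : IsOpen Z) (hD : IsCompact D)
    (hB : IsCompact B) (hW : IsOpen W) (hBW : B ⊆ W) (hWZ : Disjoint W Z) {θ : E → E}
    (hθ : DifferentiableOn ℂ θ W) (hinj : InjOn θ W)
    (hder : ∀ x ∈ W, Function.Bijective (fderiv ℂ θ x)) (hconvB : Convex ℝ (θ '' B))
    (hconv : Convex ℝ (θ '' (D ∩ B))) (hpu : PshConvex (D ∪ B)) (hpi : PshConvex (D ∩ B)) :
    HolMove m p Z D (D ∪ B) := by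
  refine ⟨subset_union_left, fun G r hG η hη => ?_⟩
  obtain ⟨U0, hU0, hDU0, hGU⟩ := hG.nhd
  have hDZ : IsCompact (D \ Z) := hD.diff hZ
  have hbase : ContinuousOn (fun x => G (x, 0)) U0 := (hGU.base hG.rpos).continuousOn
  obtain ⟨c, hc, hcd⟩ := dist_lower (f := fun x => G (x, 0)) (p := p) hDZ
    (hbase.mono (sdiff_subset.trans hDU0)) (fun x hx => hG.avoid x hx.1 hx.2)
  obtain ⟨U1, U2, GD, r2, g, hU1, hU2, hDU1, hBU2, hU2W, hr2, hGD, hcore, hg, hgp, hgd⟩ :=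
    bump_core hp hD hB hW hBW hU0 hDU0 hθ hinj hder hconv hpu hpi hG.rpos hGU
      (fun x hx => hG.avoid x hx.1 (fun hz => disjoint_left.1 hWZ (hBW hx.2) hz))
      (lt_min hη hc)
  obtain ⟨U', G', r', hU', hDB, hr', hG', hG'g⟩ :=
    bump_restore hD hB hW hU1 hU2 hDU1 hBU2 hU2W hθ hinj hder hconvB hconv hpu hpi hr2 hGD hg hcore
  refine ⟨G', r', ⟨hr', ⟨U', hU', hDB, hG'⟩, ?_⟩, ?_⟩
  · intro x hx hxZ
    rw [hG'g x (hDB hx)]
    rcases hx with hx | hx
    · intro hgx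
      have h1 := (hgd x hx).trans_le (min_le_right _ _)
      have h2 := hcd x ⟨hx, hxZ⟩
      rw [hgx, dist_comm] at h1
      exact absurd h1 (not_lt.2 h2)
    · exact hgp x (hBU2 hx)
  · intro x hx
    rw [hG'g x (hDB (Or.inl hx))]
    exact (hgd x hx).trans_le (min_le_left _ _)

end OkaP
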