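import Pool.Agent.H.MP_ceb9a9.Scv6

/-!
# MP_ceb9a9: compact convex neighbourhoods in a holomorphic coordinate

Proof.  `inverse_hol` (Scv5; the equivalences needed there come from the bijective derivatives,
`ContinuousLinearEquiv.ofBijective` or `LinearEquiv.ofBijective` + finite dimension) gives: `θ '' W` is open and there is
a holomorphic `θi` on `θ '' W` with `θi (θ x) = x`.  The same applied to `W ∩ U`: `O := θ '' (W ∩ U)` is open.  `θ '' C` is
compact and contained in `O`; take `δ > 0` with `cthickening δ (θ '' C) ⊆ O` (`IsCompact.exists_cthickening_subset_open`)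
and `K2 = cthickening δ (θ '' C)`: compact (`IsCompact.cthickening`, finite dimension), convex (`Convex.cthickening`), and
`θ '' C ⊆ thickening δ (θ '' C) ⊆ interior K2`.  `W ∩ θ ⁻¹' interior K2` is open since `θ` is continuous on the open set
`W`.  `W ∩ θ ⁻¹' K2 = θi '' K2` (as `K2 ⊆ θ '' (W ∩ U)`, `θ` injective on `W`) is compact, and it is contained in `U`.
-/

set_option autoImplicit false
open Set Metric Filter
open scoped Topology

noncomputable section
namespace OkaP

variable {E : Type} [NormedAddCommGroup E] [NormedSpace ℂ E] [FiniteDimensional ℂ E]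

/-- compact convex neighbourhoods of `θ '' C` for a holomorphic coordinate `θ` -/
theorem bump_nbhd {C W U : Set E} (hC : IsCompact C) (hW : IsOpen W) (hCW : C ⊆ W)
    (hU : IsOpen U) (hCU : C ⊆ U) {θ : E → E} (hθ : DifferentiableOn ℂ θ W) (hinj : InjOn θ W)
    (hder : ∀ x ∈ W, Function.Bijective (fderiv ℂ θ x)) (hconv : Convex ℝ (θ '' C)) :
    ∃ (K2 : Set E) (θi : E → E), IsCompact K2 ∧ Convex ℝ K2 ∧ θ '' C ⊆ interior K2 ∧
      K2 ⊆ θ '' (W ∩ U) ∧ IsOpen (θ '' W) ∧ DifferentiableOn ℂ θi (θ '' W) ∧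
      (∀ x ∈ W, θi (θ x) = x) ∧ IsOpen (W ∩ θ ⁻¹' (interior K2)) ∧ IsCompact (W ∩ θ ⁻¹' K2) ∧
      W ∩ θ ⁻¹' K2 ⊆ U := by
  have _ : CompleteSpace E := FiniteDimensional.complete ℂ E
  have _ : ProperSpace E := FiniteDimensional.proper ℂ E
  have hA : ∀ x ∈ W, ∃ A : E ≃L[ℂ] E, (A : E →L[ℂ] E) = fderiv ℂ θ x := by
    intro x hx
    refine ⟨ContinuousLinearEquiv.ofBijective (fderiv ℂ θ x)
      (LinearMap.ker_eq_bot.2 (hder x hx).1) (LinearMap.range_eq_top.2 (hder x hx).2), ?_⟩
    ext v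
    rfl
  obtain ⟨hopW, θi, hθi, hinv⟩ := inverse_hol hW hθ hinj hA
  obtain ⟨hopO, -⟩ := inverse_hol (hW.inter hU) (hθ.mono inter_subset_left)
    (hinj.mono inter_subset_left) (fun x hx => hA x hx.1)
  have hθc : ContinuousOn θ W := hθ.continuousOn
  have hcomp : IsCompact (θ '' C) := hC.image_of_continuousOn (hθc.mono hCW)
  have hsub : θ '' C ⊆ θ '' (W ∩ U) := image_mono (subset_inter hCW hCU)
  obtain ⟨δ, hδ, hδ2⟩ := hcomp.exists_cthickening_subset_open hopO hsub
  have hK2 : IsCompact (cthickening δ (θ '' C)) := hcomp.cthickening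
  have hint : W ∩ θ ⁻¹' (cthickening δ (θ '' C)) = θi '' (cthickening δ (θ '' C)) := by
    ext x
    constructor
    · rintro ⟨hx, hx2⟩
      exact ⟨θ x, hx2, hinv x hx⟩
    · rintro ⟨y, hy, rfl⟩
      obtain ⟨x, hx, rfl⟩ := hδ2 hy
      rw [hinv x hx.1]
      exact ⟨hx.1, hy⟩
  refine ⟨cthickening δ (θ '' C), θi, hK2, hconv.cthickening δ, ?_, hδ2, hopW, hθi, hinv,
    ?_, ?_, ?_⟩
  · exact (self_subset_thickening hδ _).trans
      (interior_maximal (thickening_subset_cthickening δ _) isOpen_thickening)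
  · exact hθc.isOpen_inter_preimage hW isOpen_interior
  · rw [hint]
    exact hK2.image_of_continuousOn (hθi.continuousOn.mono
      (hδ2.trans (image_mono inter_subset_left)))
  · rintro x ⟨hx, hx2⟩
    obtain ⟨y, hy, hxy⟩ := hδ2 hx2
    have : y = x := hinj hy.1 hx hxy
    rw [← this]
    exact hy.2

end OkaP
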