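import Pool.Agent.H.MP_ceb9a9.EtD
import Pool.Agent.H.MP_ceb9a9.BumpNbhd

/-!
# MP_ceb9a9: bump lemma, step 1: the convex approximation property on the bump

Proof.  `G` is continuous on `U0 ×ˢ ball 0 r` and `G (x, 0) ≠ p` on the compact set `C`: the open set
`{x ∈ U0, t ∈ ball 0 r, G (x, t) ≠ p}` contains `C ×ˢ {0}`, so by the tube lemma there are an open `U0' ⊇ C`,
`U0' ⊆ U0`, and `r' ∈ (0, r)` with `G (x, t) ≠ p` for `x ∈ U0'`, `t ∈ ball 0 r'`.  Put `r1 = r' / 2`.  `bump_nbhd` for `C`,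
`W`, `U = U0'` gives `K2`, `θi`.  `UC := W ∩ θ ⁻¹' (interior K2)` is open, contains `C`, is contained in
`KC := W ∩ θ ⁻¹' K2 ⊆ U0'` (compact).

Let `δ > 0`.  `EtHol.near_family` for `G` on `U0`, compact `KC`, radii `r1 < r`, `η = δ`, gives `ε > 0`.
The map `f (y, t) = G (θi y, t)` is holomorphic on the open set `θ '' (W ∩ U0') ×ˢ ball 0 r'` (image open by
`inverse_hol`/`bump_nbhd`; `HolOn.comp`) and avoids `p`; this open set contains the compact convex set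
`K2 ×ˢ closedBall 0 r1`.  `CAPY` for the space `E × (Fin m → ℂ)` gives `g`, holomorphic on `univ`, avoiding `p`, with
`dist (f (y, t)) (g (y, t)) < ε` on `K2 ×ˢ closedBall 0 r1`.  Put `H (x, t) = g (θ x, t)`.  It is holomorphic on
`W ×ˢ univ`, avoids `p`, and for `x ∈ UC`, `t ∈ ball 0 r1`:
`dist (G (x, t)) (H (x, t)) = dist (f (θ x, t)) (g (θ x, t)) < ε`.  `near_family` with `V = UC ⊆ KC` gives `γ`.
-/

set_option autoImplicit false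
open Set Metric Filter
open scoped Topology Manifold

noncomputable section
namespace OkaP

variable {m : ℕ} {X : Type} [MetricSpace X] [ChartedSpace (Fin m → ℂ) X]
  [IsManifold 𝓘(ℂ, Fin m → ℂ) ⊤ X]
variable {E : Type} [NormedAddCommGroup E] [NormedSpace ℂ E] [FiniteDimensional ℂ E]


/-- CAP on a set which is convex in a holomorphic coordinate -/
theorem bump_cap {p : X} (hp : CAPY m p) {C W U0 : Set E} (hC : IsCompact C) (hW : IsOpen W)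
    (hCW : C ⊆ W) (hU0 : IsOpen U0) (hCU : C ⊆ U0) {θ : E → E} (hθ : DifferentiableOn ℂ θ W)
    (hinj : InjOn θ W) (hder : ∀ x ∈ W, Function.Bijective (fderiv ℂ θ x))
    (hconv : Convex ℝ (θ '' C)) {G : E × (Fin m → ℂ) → X} {r : ℝ} (hr : 0 < r)
    (hG : EtHol G U0 r) (hGp : ∀ x ∈ C, G (x, 0) ≠ p) :
    ∃ r1 > 0, r1 < r ∧ ∃ UC : Set E, IsOpen UC ∧ C ⊆ UC ∧ UC ⊆ U0 ∩ W ∧
      ∀ δ > 0, ∃ (H : E × (Fin m → ℂ) → X) (γ : E × (Fin m → ℂ) → (Fin m → ℂ)),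
        HolOn m H (W ×ˢ univ) ∧ (∀ x ∈ W, ∀ t, H (x, t) ≠ p) ∧
        DifferentiableOn ℂ γ (UC ×ˢ ball (0 : Fin m → ℂ) r1) ∧
        ∀ x ∈ UC, ∀ t ∈ ball (0 : Fin m → ℂ) r1, ‖γ (x, t) - t‖ < δ ∧
          γ (x, t) ∈ ball (0 : Fin m → ℂ) r ∧ G (x, γ (x, t)) = H (x, t) := by
  have _ : ProperSpace E := FiniteDimensional.proper ℂ E
  -- tube lemma
  have hOopen : IsOpen ((U0 ×ˢ ball (0 : Fin m → ℂ) r) ∩ G ⁻¹' {p}ᶜ) :=
    isOpen_preimage_of_holOn (hU0.prod isOpen_ball) hG.hol isOpen_compl_singleton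
  have hCO : C ×ˢ ({0} : Set (Fin m → ℂ)) ⊆ (U0 ×ˢ ball (0 : Fin m → ℂ) r) ∩ G ⁻¹' {p}ᶜ := by
    rintro ⟨x, t⟩ ⟨hx, ht⟩
    have ht' : t = 0 := ht
    subst ht'
    exact ⟨⟨hCU hx, mem_ball_self hr⟩, hGp x hx⟩
  obtain ⟨A, B, hA, hB, hCA, h0B, hAB⟩ :=
    generalized_tube_lemma hC (isCompact_singleton (x := (0 : Fin m → ℂ))) hOopen hCO
  obtain ⟨ρ, hρ, hρB⟩ := Metric.isOpen_iff.1 hB 0 (h0B rfl)
  set r2 : ℝ := min ρ r with hr2
  have hr2pos : 0 < r2 := lt_min hρ hr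
  have hr2r : r2 ≤ r := min_le_right _ _
  have hr2B : ball (0 : Fin m → ℂ) r2 ⊆ B := (ball_subset_ball (min_le_left _ _)).trans hρB
  have hr1r2 : r2 / 2 < r2 := by linarith
  obtain ⟨K2, θi, hK2, hK2c, hCK2, hK2s, hoW, hθi, hinv, hUCo, hKC, hKCs⟩ :=
    bump_nbhd hC hW hCW (hA.inter hU0) (subset_inter hCA hCU) hθ hinj hder hconv
  have hUCK : W ∩ θ ⁻¹' (interior K2) ⊆ W ∩ θ ⁻¹' K2 := fun x hx => ⟨hx.1, (interior_subset (s := K2)) hx.2⟩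
  refine ⟨r2 / 2, by positivity, by linarith, W ∩ θ ⁻¹' (interior K2), hUCo, ?_, ?_, ?_⟩
  · exact fun x hx => ⟨hCW hx, hCK2 (mem_image_of_mem _ hx)⟩
  · exact fun x hx => ⟨(hKCs (hUCK hx)).2, hx.1⟩
  intro δ hδ
  obtain ⟨ε, hε, hfam⟩ := hG.near_family hU0 hKC (hKCs.trans inter_subset_right)
    (r' := r2 / 2) (by linarith) hδ
  -- the map in the coordinate
  have hO2 : IsOpen (θ '' W ∩ θi ⁻¹' (A ∩ U0)) :=
    hθi.continuousOn.isOpen_inter_preimage hoW (hA.inter hU0)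
  have hK2O : K2 ⊆ θ '' W ∩ θi ⁻¹' (A ∩ U0) := by
    intro y hy
    obtain ⟨x, hx, rfl⟩ := hK2s hy
    refine ⟨mem_image_of_mem _ hx.1, ?_⟩
    rw [mem_preimage, hinv x hx.1]
    exact hx.2
  have hmaps : ∀ w ∈ (θ '' W ∩ θi ⁻¹' (A ∩ U0)) ×ˢ ball (0 : Fin m → ℂ) r2,
      (θi w.1, w.2) ∈ (U0 ×ˢ ball (0 : Fin m → ℂ) r) ∩ G ⁻¹' {p}ᶜ := by
    rintro ⟨y, t⟩ ⟨hy, ht⟩
    exact hAB ⟨hy.2.1, hr2B ht⟩
  have hdiff : DifferentiableOn ℂ (fun w : E × (Fin m → ℂ) => (θi w.1, w.2))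
      ((θ '' W ∩ θi ⁻¹' (A ∩ U0)) ×ˢ ball (0 : Fin m → ℂ) r2) := by
    refine DifferentiableOn.prodMk ?_ differentiableOn_snd
    exact hθi.comp differentiableOn_fst (fun w hw => hw.1.1)
  have hf : HolOn m (fun w : E × (Fin m → ℂ) => G (θi w.1, w.2))
      ((θ '' W ∩ θi ⁻¹' (A ∩ U0)) ×ˢ ball (0 : Fin m → ℂ) r2) :=
    hG.hol.comp hdiff (fun w hw => (hmaps w hw).1)
  obtain ⟨g, hg, hgp, hgd⟩ := hp (E × (Fin m → ℂ)) (K2 ×ˢ closedBall (0 : Fin m → ℂ) (r2 / 2))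
    ((θ '' W ∩ θi ⁻¹' (A ∩ U0)) ×ˢ ball (0 : Fin m → ℂ) r2)
    (hK2.prod (isCompact_closedBall _ _)) (hK2c.prod (convex_closedBall _ _))
    (hO2.prod isOpen_ball) (prod_mono hK2O (closedBall_subset_ball hr1r2))
    (fun w => G (θi w.1, w.2)) hf (fun w hw => (hmaps w hw).2) ε hε
  have hH : HolOn m (fun w : E × (Fin m → ℂ) => g (θ w.1, w.2)) (W ×ˢ univ) := by
    refine hg.comp (g := fun w : E × (Fin m → ℂ) => (θ w.1, w.2)) ?_ (fun _ _ => mem_univ _)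
    refine DifferentiableOn.prodMk ?_ differentiableOn_snd
    exact hθ.comp differentiableOn_fst (fun w hw => hw.1)
  obtain ⟨γ, hγ, hγs⟩ := hfam (W ∩ θ ⁻¹' (interior K2)) (fun w => g (θ w.1, w.2)) hUCo hUCK
    (hH.mono (prod_mono inter_subset_left (subset_univ _))) (by
      intro x hx u hu
      have h1 := hgd (θ x, u) ⟨interior_subset hx.2, ball_subset_closedBall hu⟩
      simp only at h1
      rw [hinv x hx.1] at h1
      exact h1)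
  exact ⟨fun w => g (θ w.1, w.2), γ, hH, fun x _ t => hgp _, hγ, fun x hx t ht =>
    ⟨(hγs x hx t ht).2.1, (hγs x hx t ht).1, (hγs x hx t ht).2.2⟩⟩

end OkaP
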