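import Mathlib

set_option autoImplicit false
open Set Metric Filter
open scoped Topology

noncomputable section
namespace OkaP

variable {F : Type} [NormedAddCommGroup F] [NormedSpace ℂ F] [CompleteSpace F]

/-- boundary integral of `f ζ / (ζ - z)` over the rectangle `[a,b] x [c,d]`. -/
def rectInt (f : ℂ → F) (z : ℂ) (a b c d : ℝ) : F :=
  (∫ x in a..b, ((x + c * Complex.I : ℂ) - z)⁻¹ • f (x + c * Complex.I)) -
    (∫ x in a..b, ((x + d * Complex.I : ℂ) - z)⁻¹ • f (x + d * Complex.I)) +
    Complex.I • (∫ y in c..d, ((b + y * Complex.I : ℂ) - z)⁻¹ • f (b + y * Complex.I)) -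
    Complex.I • (∫ y in c..d, ((a + y * Complex.I : ℂ) - z)⁻¹ • f (a + y * Complex.I))

theorem cauchyRect_boundary {g : ℂ → F} {a b c d : ℝ} (hab : a ≤ b) (hcd : c ≤ d)
    (hg : DifferentiableOn ℂ g (Icc a b ×ℂ Icc c d)) :
    (∫ x in a..b, g (x + c * Complex.I)) - (∫ x in a..b, g (x + d * Complex.I)) +
      Complex.I • (∫ y in c..d, g (b + y * Complex.I)) -
      Complex.I • (∫ y in c..d, g (a + y * Complex.I)) = 0 := by
  have h := Complex.integral_boundary_rect_eq_zero_of_differentiableOn g ⟨a, c⟩ ⟨b, d⟩ (by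
    simpa [uIcc_of_le hab, uIcc_of_le hcd] using hg)
  simpa using h

theorem cauchyRect_split {f : ℂ → F} {z : ℂ} {U : Set ℂ} (hU : IsOpen U) (hz : z ∈ U)
    (hf : DifferentiableOn ℂ f U) {γ : ℝ → ℂ} (hγ : Continuous γ) (hγz : ∀ t, γ t ≠ z) {p q : ℝ}
    (hγU : ∀ t ∈ uIcc p q, γ t ∈ U) :
    (∫ t in p..q, (γ t - z)⁻¹ • f (γ t)) =
      (∫ t in p..q, (γ t - z)⁻¹) • f z + ∫ t in p..q, dslope f z (γ t) := by
  have hd : ContinuousOn (dslope f z) U :=
    (continuousOn_dslope (hU.mem_nhds hz)).2
      ⟨hf.continuousOn, hf.differentiableAt (hU.mem_nhds hz)⟩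
  have h1 : IntervalIntegrable (fun t => (γ t - z)⁻¹ • f z) MeasureTheory.volume p q := by
    apply Continuous.intervalIntegrable
    exact ((hγ.sub continuous_const).inv₀ fun t => sub_ne_zero.2 (hγz t)).smul continuous_const
  have h2 : IntervalIntegrable (fun t => dslope f z (γ t)) MeasureTheory.volume p q := by
    apply ContinuousOn.intervalIntegrable
    exact hd.comp hγ.continuousOn hγU
  rw [← intervalIntegral.integral_smul_const, ← intervalIntegral.integral_add h1 h2]
  apply intervalIntegral.integral_congr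
  intro t _
  have hne := hγz t
  show (γ t - z)⁻¹ • f (γ t) = (γ t - z)⁻¹ • f z + dslope f z (γ t)
  rw [dslope_of_ne _ hne, slope_def_module, smul_sub]
  abel

theorem cauchyRect_log {γ : ℝ → ℂ} {k : ℂ} (hγ : ∀ t, HasDerivAt γ k t)
    (hs : ∀ t, γ t ∈ Complex.slitPlane) (p q : ℝ) :
    k * (∫ t in p..q, (γ t)⁻¹) = Complex.log (γ q) - Complex.log (γ p) := by
  rw [← intervalIntegral.integral_const_mul]
  have hc : Continuous γ := continuous_iff_continuousAt.2 fun t => (hγ t).continuousAt
  have h : ∀ t, HasDerivAt (fun t => Complex.log (γ t)) (k * (γ t)⁻¹) t := fun t => by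
    simpa [div_eq_mul_inv] using (hγ t).clog_real (hs t)
  refine intervalIntegral.integral_eq_sub_of_hasDerivAt (fun t _ => h t) ?_
  apply Continuous.intervalIntegrable
  exact continuous_const.mul (hc.inv₀ fun t => Complex.slitPlane_ne_zero (hs t))

theorem cauchyRect_hd1 (w : ℂ) (t : ℝ) : HasDerivAt (fun x : ℝ => (x : ℂ) + w) 1 t :=
  (Complex.ofRealCLM.hasDerivAt (x := t)).add_const w

theorem cauchyRect_hd2 (w : ℂ) (t : ℝ) :
    HasDerivAt (fun y : ℝ => (y : ℂ) * Complex.I + w) Complex.I t := by
  have := ((Complex.ofRealCLM.hasDerivAt (x := t)).mul_const Complex.I).add_const w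
  simpa using this

theorem cauchyRect_const {z : ℂ} {a b c d : ℝ}
    (h1 : a < z.re) (h2 : z.re < b) (h3 : c < z.im) (h4 : z.im < d) :
    (∫ x in a..b, ((x + c * Complex.I : ℂ) - z)⁻¹) - (∫ x in a..b, ((x + d * Complex.I : ℂ) - z)⁻¹) +
      Complex.I * (∫ y in c..d, ((b + y * Complex.I : ℂ) - z)⁻¹) -
      Complex.I * (∫ y in c..d, ((a + y * Complex.I : ℂ) - z)⁻¹) = 2 * Real.pi * Complex.I := by
  have e1 : (∫ x in a..b, ((x + c * Complex.I : ℂ) - z)⁻¹) =
      Complex.log (b + c * Complex.I - z) - Complex.log (a + c * Complex.I - z) := by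
    have := cauchyRect_log (γ := fun x : ℝ => (x : ℂ) + (c * Complex.I - z)) (k := 1)
      (cauchyRect_hd1 _) (fun t => by
        rw [Complex.mem_slitPlane_iff]
        right
        simp
        linarith) a b
    simpa [add_sub_assoc] using this
  have e2 : (∫ x in a..b, ((x + d * Complex.I : ℂ) - z)⁻¹) =
      Complex.log (b + d * Complex.I - z) - Complex.log (a + d * Complex.I - z) := by
    have := cauchyRect_log (γ := fun x : ℝ => (x : ℂ) + (d * Complex.I - z)) (k := 1)
      (cauchyRect_hd1 _) (fun t => by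
        rw [Complex.mem_slitPlane_iff]
        right
        simp
        intro h
        linarith) a b
    simpa [add_sub_assoc] using this
  have e3 : Complex.I * (∫ y in c..d, ((b + y * Complex.I : ℂ) - z)⁻¹) =
      Complex.log (b + d * Complex.I - z) - Complex.log (b + c * Complex.I - z) := by
    have := cauchyRect_log (γ := fun y : ℝ => (y : ℂ) * Complex.I + (b - z)) (k := Complex.I)
      (cauchyRect_hd2 _) (fun t => by
        rw [Complex.mem_slitPlane_iff]
        left
        simp
        linarith) c d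
    have e : ∀ y : ℝ, (y : ℂ) * Complex.I + (b - z) = b + y * Complex.I - z := fun y => by ring
    simpa only [e] using this
  have e4 : Complex.I * (∫ y in c..d, ((a + y * Complex.I : ℂ) - z)⁻¹) =
      Complex.log (-(a + d * Complex.I - z)) - Complex.log (-(a + c * Complex.I - z)) := by
    have := cauchyRect_log (γ := fun y : ℝ => (y : ℂ) * (-Complex.I) + (z - a)) (k := -Complex.I)
      (fun t => by
        have := ((Complex.ofRealCLM.hasDerivAt (x := t)).mul_const (-Complex.I)).add_const (z - a)
        simpa using this) (fun t => by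
        rw [Complex.mem_slitPlane_iff]
        left
        simp
        linarith) c d
    have e : ∀ y : ℝ, (y : ℂ) * (-Complex.I) + (z - a) = -(a + y * Complex.I - z) := fun y => by
      ring
    simp only [e, inv_neg] at this
    rw [← this, intervalIntegral.integral_neg]
    ring
  have e5 : Complex.log (-(a + d * Complex.I - z)) = Complex.log (a + d * Complex.I - z) -
      Real.pi * Complex.I := by
    have him : 0 < (a + d * Complex.I - z).im := by simp; linarith
    apply Complex.ext
    · simp [Complex.log_re, -neg_sub, -neg_add_rev]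
    · simp only [Complex.log_im, Complex.sub_im, Complex.mul_im, Complex.ofReal_re, Complex.I_im,
        Complex.ofReal_im, Complex.I_re]
      rw [Complex.arg_neg_eq_arg_sub_pi_of_im_pos him]
      ring
  have e6 : Complex.log (-(a + c * Complex.I - z)) = Complex.log (a + c * Complex.I - z) +
      Real.pi * Complex.I := by
    have him : (a + c * Complex.I - z).im < 0 := by simp; linarith
    apply Complex.ext
    · simp [Complex.log_re, -neg_sub, -neg_add_rev]
    · simp only [Complex.log_im, Complex.add_im, Complex.mul_im, Complex.ofReal_re, Complex.I_im,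
        Complex.ofReal_im, Complex.I_re]
      rw [Complex.arg_neg_eq_arg_add_pi_of_im_neg him]
      ring
  rw [e1, e2, e3, e4, e5, e6]
  ring

/-- Cauchy integral formula for a rectangle, point inside. -/
theorem rectInt_inside {f : ℂ → F} {z : ℂ} {a b c d : ℝ} {U : Set ℂ} (hU : IsOpen U)
    (hR : Icc a b ×ℂ Icc c d ⊆ U) (hf : DifferentiableOn ℂ f U)
    (h1 : a < z.re) (h2 : z.re < b) (h3 : c < z.im) (h4 : z.im < d) :
    rectInt f z a b c d = (2 * Real.pi * Complex.I : ℂ) • f z := by
  have hab : a ≤ b := (h1.trans h2).le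
  have hcd : c ≤ d := (h3.trans h4).le
  have hz : z ∈ U := hR ⟨⟨h1.le, h2.le⟩, ⟨h3.le, h4.le⟩⟩
  have hd : DifferentiableOn ℂ (dslope f z) U :=
    (Complex.differentiableOn_dslope (hU.mem_nhds hz)).2 hf
  have s1 := cauchyRect_split hU hz hf (γ := fun x : ℝ => (x : ℂ) + c * Complex.I) (p := a) (q := b)
    (by fun_prop) (fun t h => by
      have := congrArg Complex.im h
      simp at this
      linarith) (fun t ht => hR (by
      rw [uIcc_of_le hab] at ht
      refine ⟨?_, ?_⟩
      · simpa using ht
      · simpa using hcd))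
  have s2 := cauchyRect_split hU hz hf (γ := fun x : ℝ => (x : ℂ) + d * Complex.I) (p := a) (q := b)
    (by fun_prop) (fun t h => by
      have := congrArg Complex.im h
      simp at this
      linarith) (fun t ht => hR (by
      rw [uIcc_of_le hab] at ht
      refine ⟨?_, ?_⟩
      · simpa using ht
      · simpa using hcd))
  have s3 := cauchyRect_split hU hz hf (γ := fun y : ℝ => (b : ℂ) + y * Complex.I) (p := c) (q := d)
    (by fun_prop) (fun t h => by
      have := congrArg Complex.re h
      simp at this
      linarith) (fun t ht => hR (by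
      rw [uIcc_of_le hcd] at ht
      refine ⟨?_, ?_⟩
      · simpa using hab
      · simpa using ht))
  have s4 := cauchyRect_split hU hz hf (γ := fun y : ℝ => (a : ℂ) + y * Complex.I) (p := c) (q := d)
    (by fun_prop) (fun t h => by
      have := congrArg Complex.re h
      simp at this
      linarith) (fun t ht => hR (by
      rw [uIcc_of_le hcd] at ht
      refine ⟨?_, ?_⟩
      · simpa using hab
      · simpa using ht))
  have hb := cauchyRect_boundary hab hcd (hd.mono hR)
  have hc := cauchyRect_const h1 h2 h3 h4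
  unfold rectInt
  rw [s1, s2, s3, s4, ← hc]
  simp only [smul_add, smul_smul, add_smul, sub_smul]
  rw [← sub_eq_zero]
  rw [← hb]
  abel

/-- Cauchy theorem for a rectangle, point outside. -/
theorem rectInt_outside {f : ℂ → F} {z : ℂ} {a b c d : ℝ} {U : Set ℂ} (hU : IsOpen U)
    (hab : a ≤ b) (hcd : c ≤ d)
    (hR : Icc a b ×ℂ Icc c d ⊆ U) (hf : DifferentiableOn ℂ f U)
    (hz : z ∉ Icc a b ×ℂ Icc c d) :
    rectInt f z a b c d = 0 := by
  have hg : DifferentiableOn ℂ (fun ζ => (ζ - z)⁻¹ • f ζ) (Icc a b ×ℂ Icc c d) := by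
    refine DifferentiableOn.smul (DifferentiableOn.inv (differentiableOn_id.sub_const z) ?_)
      (hf.mono hR)
    intro ζ hζ h
    exact hz (by rwa [← sub_eq_zero.1 h])
  exact cauchyRect_boundary hab hcd hg

end OkaP
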