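import Pool.Agent.H.MP_ceb9a9.Base

/-!
# MP_ceb9a9: the inclusion of real space in complex space
-/

set_option autoImplicit false
open Set Metric Filter
open scoped Topology

noncomputable section
namespace OkaP

/-- the inclusion of `ℝ^k` in `ℂ^k` -/
def cplx {k : ℕ} (x : Fin k → ℝ) : Fin k → ℂ := fun i => (x i : ℂ)

theorem cplx_apply {k : ℕ} (x : Fin k → ℝ) (i : Fin k) : cplx x i = (x i : ℂ) := rfl

theorem continuous_cplx {k : ℕ} : Continuous (cplx : (Fin k → ℝ) → (Fin k → ℂ)) :=
  continuous_pi fun i => Complex.continuous_ofReal.comp (continuous_apply i)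

theorem dist_cplx {k : ℕ} (x y : Fin k → ℝ) : dist (cplx x) (cplx y) = dist x y := by
  rw [dist_pi_def, dist_pi_def]
  congr 1
  apply Finset.sup_congr rfl
  intro i _
  rw [← NNReal.coe_inj, coe_nndist, coe_nndist]
  simp only [cplx]
  rw [Complex.dist_eq, Real.dist_eq, ← Complex.ofReal_sub, Complex.norm_real, Real.norm_eq_abs]

theorem cplx_injective {k : ℕ} : Function.Injective (cplx : (Fin k → ℝ) → (Fin k → ℂ)) := by
  intro x y h
  funext i
  have := congrFun h i
  simpa [cplx] using this

end OkaP
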