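import Pool.Agent.H.MP_ceb9a9.ParamInt
import Pool.Agent.H.MP_ceb9a9.Cplx

/-!
# MP_ceb9a9: Gaussian smoothing of a cut-off function on `ℝ^k` by entire functions

Statement: `θ : ℝ^k → [0,1]` continuous; for every `d > 0`, `κ > 0` there is an entire `F` which takes values of
norm at most `1` on real points, is `κ`-small at every complex `z` such that
`d + 2 |Im z|² ≤ |Re z - x|²` for all `x` in the support set `S1 = {θ ≠ 0}`, and `κ`-close to `1` at every `z` such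
that the same holds for all `x` in `{θ ≠ 1}`.

Proof.  For `ν > 0` put `J = ∫ x : Fin k → ℝ, exp (-(∑ i, x i ^ 2)) = π ^ (k / 2) > 0` and
`F z = (J * ν ^ k)⁻¹ ∫ x : Fin k → ℝ, θ x * exp (-(∑ i, (z i - x i) ^ 2) / ν ^ 2)`.

Integrability: `|exp (-(∑ i, (z i - x i) ^ 2) / ν ^ 2)| = exp ((|Im z|² - |Re z - x|²) / ν ^ 2)` where
`|Im z|² = ∑ (z i).im ^ 2`, `|Re z - x|² = ∑ ((z i).re - x i) ^ 2` (write `z i - x i = ((z i).re - x i) + i (z i).im`;
real part of the square), a translate of a Gaussian (`GaussianFourier.integrable_cexp_neg_mul_sum_add`).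

Entire: let `F_N z` be the same integral over the compact set `closedBall 0 N` (`N : ℕ`).  Each `F_N` is entire by
`differentiableOn_setIntegral`.  On a ball `ball z0 1`, `|F z - F_N z| ≤ (J ν^k)⁻¹ ∫_{‖x‖ > N} exp ((|Im z|² -
|Re z - x|²) / ν ^ 2) dx`, which tends to `0` uniformly for `z ∈ ball z0 1` (the integrand is dominated by
`C exp (-|x|² / (2 ν²))` with `C` depending on `z0`, because `|Re z - x|² ≥ |x|² / 2 - |Re z|²`).
Apply `weierstrass` (module Scv2).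

Value for `θ = 1`: `∫ exp (-(∑ i, (z i - x i) ^ 2) / ν ^ 2) dx = J ν ^ k` for every COMPLEX `z`
(`GaussianFourier.integral_cexp_neg_mul_sum_add` with `b = 1 / ν ^ 2`, `c = 1`, and the linear form
`∑ 2 z i x i / ν ^ 2`; the factor `exp (∑ (2 z i / ν ^ 2) ^ 2 * ν ^ 2 / 4) = exp (∑ z i ^ 2 / ν ^ 2)` cancels
`exp (-∑ z i ^ 2 / ν ^ 2)`; and `(π / b) ^ (k / 2) = π ^ (k / 2) * ν ^ k`).

Real points: `|F (cplx x)| ≤ (J ν^k)⁻¹ ∫ |θ| exp (-|x - y|² / ν²) dy ≤ 1`.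

Smallness: suppose `d + 2 |Im z|² ≤ |Re z - x|²` for all `x` with `θ x ≠ 0`.  For such `x`,
`|Im z|² - |Re z - x|² ≤ -d / 2 - |Re z - x|² / 2`, so
`|F z| ≤ (J ν^k)⁻¹ exp (-d / (2 ν²)) ∫ exp (-|Re z - x|² / (2 ν²)) dx = 2 ^ (k / 2) exp (-d / (2 ν ^ 2))`
(scaling), and this tends to `0` as `ν → 0`.  The third conclusion: the same estimate for `1 - θ` and
`F z - 1 = -(J ν^k)⁻¹ ∫ (1 - θ x) exp (...) dx`.
-/

set_option autoImplicit false
open Set Metric Filter MeasureTheory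
open scoped Topology

noncomputable section
namespace OkaP

theorem gaussCut_sum_eq {k : ℕ} (b : ℝ) (x : Fin k → ℝ) :
    Real.exp (-b * ∑ i, x i ^ 2) = ∏ i, Real.exp (-b * x i ^ 2) := by
  rw [Finset.mul_sum, Real.exp_sum]

theorem gaussCut_integrable {k : ℕ} {b : ℝ} (hb : 0 < b) (y : Fin k → ℝ) :
    Integrable (fun x : Fin k → ℝ => Real.exp (-b * ∑ i, (y i - x i) ^ 2)) := by
  have h : Integrable (fun x : Fin k → ℝ => Real.exp (-b * ∑ i, x i ^ 2)) := by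
    simp_rw [gaussCut_sum_eq]
    exact Integrable.fintype_prod (f := fun _ t => Real.exp (-b * t ^ 2))
      (fun _ => integrable_exp_neg_mul_sq hb)
  exact h.comp_sub_left y

theorem gaussCut_integral {k : ℕ} (b : ℝ) (y : Fin k → ℝ) :
    ∫ x : Fin k → ℝ, Real.exp (-b * ∑ i, (y i - x i) ^ 2) = √(Real.pi / b) ^ k := by
  have h : ∫ x : Fin k → ℝ, Real.exp (-b * ∑ i, x i ^ 2) = √(Real.pi / b) ^ k := by
    simp_rw [gaussCut_sum_eq]
    rw [integral_fintype_prod_volume_eq_pow (fun t : ℝ => Real.exp (-b * t ^ 2)),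
      integral_gaussian, Fintype.card_fin]
  rw [← h]
  exact integral_sub_left_eq_self (fun x : Fin k → ℝ => Real.exp (-b * ∑ i, x i ^ 2)) volume y

theorem gaussCut_ratio {k : ℕ} {b : ℝ} (hb : 0 < b) :
    √(Real.pi / (b / 2)) ^ k = √2 ^ k * √(Real.pi / b) ^ k := by
  rw [← mul_pow, ← Real.sqrt_mul (by norm_num)]
  congr 2
  field_simp

theorem gaussCut_norm {k : ℕ} (b : ℝ) (z : Fin k → ℂ) (x : Fin k → ℝ) :
    ‖Complex.exp (-(b : ℂ) * ∑ i, (z i - (x i : ℂ)) ^ 2)‖ =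
      Real.exp (-b * (∑ i, ((z i).re - x i) ^ 2 - ∑ i, (z i).im ^ 2)) := by
  rw [Complex.norm_exp]
  congr 1
  rw [← Complex.ofReal_neg, Complex.re_ofReal_mul, Complex.re_sum, ← Finset.sum_sub_distrib]
  congr 1
  apply Finset.sum_congr rfl
  intro i _
  rw [pow_two, Complex.mul_re]
  simp only [Complex.sub_re, Complex.ofReal_re, Complex.sub_im, Complex.ofReal_im, sub_zero]
  ring

theorem gaussCut_cont {k : ℕ} (b : ℝ) (z : Fin k → ℂ) :
    Continuous (fun x : Fin k → ℝ => Complex.exp (-(b : ℂ) * ∑ i, (z i - (x i : ℂ)) ^ 2)) := by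
  fun_prop

theorem gaussCut_cexp_integrable {k : ℕ} {b : ℝ} (hb : 0 < b) (z : Fin k → ℂ) :
    Integrable (fun x : Fin k → ℝ => Complex.exp (-(b : ℂ) * ∑ i, (z i - (x i : ℂ)) ^ 2)) := by
  refine ((gaussCut_integrable hb (fun i => (z i).re)).mul_const
    (Real.exp (b * ∑ i, (z i).im ^ 2))).mono' (gaussCut_cont b z).aestronglyMeasurable ?_
  filter_upwards with x
  rw [gaussCut_norm, ← Real.exp_add]
  apply le_of_eq
  congr 1
  ring

theorem gaussCut_mul_integrable {k : ℕ} {b : ℝ} (hb : 0 < b) (z : Fin k → ℂ)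
    {g : (Fin k → ℝ) → ℝ} (hg : Continuous g) (hg1 : ∀ x, |g x| ≤ 1) :
    Integrable (fun x : Fin k → ℝ =>
      (g x : ℂ) * Complex.exp (-(b : ℂ) * ∑ i, (z i - (x i : ℂ)) ^ 2)) := by
  refine (gaussCut_cexp_integrable hb z).norm.mono'
    ((Complex.continuous_ofReal.comp hg).mul (gaussCut_cont b z)).aestronglyMeasurable ?_
  filter_upwards with x
  rw [norm_mul, Complex.norm_real, Real.norm_eq_abs]
  calc |g x| * ‖Complex.exp (-(b : ℂ) * ∑ i, (z i - (x i : ℂ)) ^ 2)‖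
      ≤ 1 * ‖Complex.exp (-(b : ℂ) * ∑ i, (z i - (x i : ℂ)) ^ 2)‖ :=
        mul_le_mul_of_nonneg_right (hg1 x) (norm_nonneg _)
    _ = _ := one_mul _

theorem gaussCut_one {b : ℝ} (hb : 0 < b) (w : ℂ) :
    ∫ t : ℝ, Complex.exp (-(b : ℂ) * (w - (t : ℂ)) ^ 2) = ((√(Real.pi / b) : ℝ) : ℂ) := by
  have hb' : (-(b : ℂ)).re < 0 := by
    rw [Complex.neg_re, Complex.ofReal_re]; linarith
  have h := integral_cexp_quadratic hb' (2 * b * w) (-(b * w ^ 2))
  have e : (fun t : ℝ => Complex.exp (-(b : ℂ) * (w - (t : ℂ)) ^ 2)) =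
      fun t : ℝ => Complex.exp (-(b : ℂ) * (t : ℂ) ^ 2 + 2 * b * w * t + -(b * w ^ 2)) := by
    funext t
    congr 1
    ring
  rw [e, h]
  have hb0 : (b : ℂ) ≠ 0 := by exact_mod_cast hb.ne'
  have e2 : -((b : ℂ) * w ^ 2) - (2 * b * w) ^ 2 / (4 * -(b : ℂ)) = 0 := by
    field_simp
    ring
  rw [e2, Complex.exp_zero, mul_one, neg_neg]
  have e3 : ((Real.pi : ℂ) / (b : ℂ)) = ((Real.pi / b : ℝ) : ℂ) := by push_cast; rfl
  rw [e3, Real.sqrt_eq_rpow, Complex.ofReal_cpow (by positivity)]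
  congr 1
  push_cast
  rfl

theorem gaussCut_cexp_integral {k : ℕ} {b : ℝ} (hb : 0 < b) (z : Fin k → ℂ) :
    ∫ x : Fin k → ℝ, Complex.exp (-(b : ℂ) * ∑ i, (z i - (x i : ℂ)) ^ 2) =
      ((√(Real.pi / b) ^ k : ℝ) : ℂ) := by
  have e : ∀ x : Fin k → ℝ, Complex.exp (-(b : ℂ) * ∑ i, (z i - (x i : ℂ)) ^ 2) =
      ∏ i, Complex.exp (-(b : ℂ) * (z i - (x i : ℂ)) ^ 2) := by
    intro x
    rw [Finset.mul_sum, Complex.exp_sum]
  simp_rw [e]
  rw [integral_fintype_prod_volume_eq_prod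
    (fun (i : Fin k) (t : ℝ) => Complex.exp (-(b : ℂ) * (z i - (t : ℂ)) ^ 2))]
  simp_rw [gaussCut_one hb]
  rw [Finset.prod_const, Finset.card_univ, Fintype.card_fin]
  push_cast
  rfl

/-- the derivative of the Gaussian kernel in `z` -/
def gaussCutL {k : ℕ} (b : ℝ) (z : Fin k → ℂ) (x : Fin k → ℝ) : (Fin k → ℂ) →L[ℂ] ℂ :=
  Complex.exp (-(b : ℂ) * ∑ i, (z i - (x i : ℂ)) ^ 2) •
    ∑ i, (-(b : ℂ) * (2 * (z i - (x i : ℂ)))) •
      (ContinuousLinearMap.proj (R := ℂ) (φ := fun _ : Fin k => ℂ) i)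

theorem gaussCut_hasFDerivAt {k : ℕ} (b : ℝ) (z : Fin k → ℂ) (x : Fin k → ℝ) :
    HasFDerivAt (fun z : Fin k → ℂ => Complex.exp (-(b : ℂ) * ∑ i, (z i - (x i : ℂ)) ^ 2))
      (gaussCutL b z x) z := by
  have h1 : ∀ i : Fin k, HasFDerivAt (fun z : Fin k → ℂ => z i)
      (ContinuousLinearMap.proj (R := ℂ) (φ := fun _ : Fin k => ℂ) i) z := fun i =>
    (ContinuousLinearMap.proj (R := ℂ) (φ := fun _ : Fin k => ℂ) i).hasFDerivAt
  have h2 : HasFDerivAt (fun z : Fin k → ℂ => -(b : ℂ) * ∑ i, (z i - (x i : ℂ)) ^ 2)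
      (-(b : ℂ) • ∑ i, (2 * (z i - (x i : ℂ))) •
        (ContinuousLinearMap.proj (R := ℂ) (φ := fun _ : Fin k => ℂ) i)) z := by
    refine (HasFDerivAt.fun_sum (fun i _ => ?_)).const_mul _
    have := ((h1 i).sub_const (x i : ℂ)).pow 2
    convert! this using 1
    simp
  have h3 := h2.cexp
  unfold gaussCutL
  convert! h3 using 2
  rw [Finset.smul_sum]
  simp_rw [smul_smul]

theorem gaussCutL_cont {k : ℕ} (b : ℝ) (z : Fin k → ℂ) :
    Continuous (fun x : Fin k → ℝ => gaussCutL b z x) := by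
  unfold gaussCutL
  apply Continuous.smul (gaussCut_cont b z)
  apply continuous_finsetSum
  intro i _
  have h : Continuous (fun x : Fin k → ℝ => -(b : ℂ) * (2 * (z i - (x i : ℂ)))) := by
    fun_prop
  exact h.smul continuous_const

theorem gaussCut_entire {k : ℕ} {b : ℝ} (hb : 0 < b)
    {g : (Fin k → ℝ) → ℝ} (hg : Continuous g) (hg1 : ∀ x, |g x| ≤ 1) :
    Differentiable ℂ (fun z : Fin k → ℂ => ∫ x : Fin k → ℝ,
      (g x : ℂ) * Complex.exp (-(b : ℂ) * ∑ i, (z i - (x i : ℂ)) ^ 2)) := by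
  intro z0
  set R : ℝ := ‖z0‖ + 2 with hR
  have hbound : ∀ z ∈ ball z0 2, ∀ x : Fin k → ℝ,
      ‖(g x : ℂ) * Complex.exp (-(b : ℂ) * ∑ i, (z i - (x i : ℂ)) ^ 2)‖ ≤
        Real.exp (-(b / 2) * ∑ i, ((0 : Fin k → ℝ) i - x i) ^ 2) *
          Real.exp (b * (k * R ^ 2)) := by
    intro z hz x
    rw [norm_mul, Complex.norm_real, Real.norm_eq_abs, gaussCut_norm, ← Real.exp_add]
    have h1 : ∀ i, (z i).im ^ 2 + (z i).re ^ 2 ≤ R ^ 2 := by
      intro i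
      have h2 : ‖z i‖ ≤ R := by
        have h3 : ‖z i‖ ≤ ‖z‖ := norm_le_pi_norm z i
        have h4 : ‖z‖ ≤ ‖z0‖ + ‖z - z0‖ := by
          have := norm_add_le z0 (z - z0)
          rwa [add_sub_cancel] at this
        rw [mem_ball, dist_eq_norm] at hz
        linarith
      have h5 : ‖z i‖ ^ 2 = (z i).re ^ 2 + (z i).im ^ 2 := by
        rw [Complex.sq_norm, Complex.normSq_apply]
        ring
      have h6 : ‖z i‖ ^ 2 ≤ R ^ 2 := pow_le_pow_left₀ (norm_nonneg _) h2 2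
      linarith
    have h7 : ∑ i, (z i).im ^ 2 + (1 / 2) * ∑ i, ((0 : Fin k → ℝ) i - x i) ^ 2
        - ∑ i, ((z i).re - x i) ^ 2 ≤ k * R ^ 2 := by
      rw [Finset.mul_sum, ← Finset.sum_add_distrib, ← Finset.sum_sub_distrib]
      calc ∑ i, ((z i).im ^ 2 + 1 / 2 * ((0 : Fin k → ℝ) i - x i) ^ 2 - ((z i).re - x i) ^ 2)
          ≤ ∑ _i : Fin k, R ^ 2 := by
            apply Finset.sum_le_sum
            intro i _
            have h8 := h1 i
            simp only [Pi.zero_apply]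
            nlinarith [sq_nonneg (x i - 2 * (z i).re)]
        _ = k * R ^ 2 := by simp
    have h9 : Real.exp (-b * (∑ i, ((z i).re - x i) ^ 2 - ∑ i, (z i).im ^ 2)) ≤
        Real.exp (-(b / 2) * ∑ i, ((0 : Fin k → ℝ) i - x i) ^ 2 + b * (k * R ^ 2)) := by
      apply Real.exp_le_exp.2
      have := mul_le_mul_of_nonneg_left h7 hb.le
      linarith
    calc |g x| * Real.exp (-b * (∑ i, ((z i).re - x i) ^ 2 - ∑ i, (z i).im ^ 2))
        ≤ 1 * Real.exp (-b * (∑ i, ((z i).re - x i) ^ 2 - ∑ i, (z i).im ^ 2)) :=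
          mul_le_mul_of_nonneg_right (hg1 x) (Real.exp_pos _).le
      _ ≤ _ := by rw [one_mul]; exact h9
  have hder : ∀ (x : Fin k → ℝ) (z : Fin k → ℂ), HasFDerivAt (fun z : Fin k → ℂ =>
      (g x : ℂ) * Complex.exp (-(b : ℂ) * ∑ i, (z i - (x i : ℂ)) ^ 2))
      ((g x : ℂ) • gaussCutL b z x) z := fun x z =>
    (gaussCut_hasFDerivAt b z x).const_mul _
  refine (hasFDerivAt_integral_of_dominated_of_fderiv_le (𝕜 := ℂ) (μ := volume)
    (F := fun (z : Fin k → ℂ) (x : Fin k → ℝ) =>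
      (g x : ℂ) * Complex.exp (-(b : ℂ) * ∑ i, (z i - (x i : ℂ)) ^ 2))
    (F' := fun (z : Fin k → ℂ) (x : Fin k → ℝ) => (g x : ℂ) • gaussCutL b z x)
    (bound := fun x : Fin k → ℝ => Real.exp (-(b / 2) * ∑ i, ((0 : Fin k → ℝ) i - x i) ^ 2) *
          Real.exp (b * (k * R ^ 2)))
    (ball_mem_nhds z0 one_pos) ?_ (gaussCut_mul_integrable hb z0 hg hg1) ?_ ?_
    ((gaussCut_integrable (half_pos hb) (0 : Fin k → ℝ)).mul_const _) ?_).differentiableAt
  · filter_upwards with z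
    exact (gaussCut_mul_integrable hb z hg hg1).aestronglyMeasurable
  · exact ((Complex.continuous_ofReal.comp hg).smul (gaussCutL_cont b z0)).aestronglyMeasurable
  · filter_upwards with x
    intro z hz
    rw [← (hder x z).fderiv]
    have h10 := norm_fderiv_le (f := fun z : Fin k → ℂ =>
      (g x : ℂ) * Complex.exp (-(b : ℂ) * ∑ i, (z i - (x i : ℂ)) ^ 2)) (x := z) (r := 1)
      (M := Real.exp (-(b / 2) * ∑ i, ((0 : Fin k → ℝ) i - x i) ^ 2) *
          Real.exp (b * (k * R ^ 2))) one_pos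
      (fun y _ => (hder x y).differentiableAt.differentiableWithinAt)
      (fun y hy => hbound y (by
        rw [mem_ball] at hy hz ⊢
        have := dist_triangle y z z0
        linarith) x)
    rwa [div_one] at h10
  · filter_upwards with x
    intro z _
    exact hder x z

theorem gaussCut_small {k : ℕ} {b : ℝ} (hb : 0 < b)
    {g : (Fin k → ℝ) → ℝ} (hg1 : ∀ x, |g x| ≤ 1) {d : ℝ}
    (z : Fin k → ℂ) (hz : ∀ x, g x ≠ 0 →
        d + 2 * ∑ i, (z i).im ^ 2 ≤ ∑ i, ((z i).re - x i) ^ 2) :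
    ‖((√(Real.pi / b) ^ k : ℝ) : ℂ)⁻¹ * ∫ x : Fin k → ℝ,
      (g x : ℂ) * Complex.exp (-(b : ℂ) * ∑ i, (z i - (x i : ℂ)) ^ 2)‖ ≤
      √2 ^ k * Real.exp (-(b * d / 2)) := by
  have hcpos : 0 < √(Real.pi / b) ^ k := by
    have : 0 < Real.pi / b := div_pos Real.pi_pos hb
    positivity
  rw [norm_mul, norm_inv, Complex.norm_real, Real.norm_eq_abs, abs_of_pos hcpos]
  have h1 : ‖∫ x : Fin k → ℝ,
      (g x : ℂ) * Complex.exp (-(b : ℂ) * ∑ i, (z i - (x i : ℂ)) ^ 2)‖ ≤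
      ∫ x : Fin k → ℝ, Real.exp (-(b / 2) * ∑ i, ((fun i => (z i).re) i - x i) ^ 2) *
        Real.exp (-(b * d / 2)) := by
    apply norm_integral_le_of_norm_le
      ((gaussCut_integrable (half_pos hb) (fun i => (z i).re)).mul_const _)
    filter_upwards with x
    rw [norm_mul, Complex.norm_real, Real.norm_eq_abs, gaussCut_norm]
    by_cases hx : g x = 0
    · rw [hx, abs_zero, zero_mul]
      positivity
    · have h2 := hz x hx
      rw [← Real.exp_add]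
      calc |g x| * Real.exp (-b * (∑ i, ((z i).re - x i) ^ 2 - ∑ i, (z i).im ^ 2))
          ≤ 1 * Real.exp (-b * (∑ i, ((z i).re - x i) ^ 2 - ∑ i, (z i).im ^ 2)) :=
            mul_le_mul_of_nonneg_right (hg1 x) (Real.exp_pos _).le
        _ ≤ _ := by
            rw [one_mul]
            apply Real.exp_le_exp.2
            have := mul_le_mul_of_nonneg_left h2 (half_pos hb).le
            linarith
  rw [integral_mul_const, gaussCut_integral, gaussCut_ratio hb] at h1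
  calc (√(Real.pi / b) ^ k)⁻¹ * ‖∫ x : Fin k → ℝ,
      (g x : ℂ) * Complex.exp (-(b : ℂ) * ∑ i, (z i - (x i : ℂ)) ^ 2)‖
      ≤ (√(Real.pi / b) ^ k)⁻¹ * (√2 ^ k * √(Real.pi / b) ^ k * Real.exp (-(b * d / 2))) :=
        mul_le_mul_of_nonneg_left h1 (inv_nonneg.2 hcpos.le)
    _ = √2 ^ k * Real.exp (-(b * d / 2)) := by
        field_simp

/-- entire approximate cut-off functions. -/
theorem gauss_cut {k : ℕ} {θ : (Fin k → ℝ) → ℝ} (hc : Continuous θ)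
    (hθ : ∀ x, θ x ∈ Icc (0 : ℝ) 1) {d κ : ℝ} (hd : 0 < d) (hκ : 0 < κ) :
    ∃ F : (Fin k → ℂ) → ℂ, Differentiable ℂ F ∧ (∀ x, ‖F (cplx x)‖ ≤ 1) ∧
      (∀ z : Fin k → ℂ, (∀ x, θ x ≠ 0 →
        d + 2 * ∑ i, (z i).im ^ 2 ≤ ∑ i, ((z i).re - x i) ^ 2) → ‖F z‖ < κ) ∧
      ∀ z : Fin k → ℂ, (∀ x, θ x ≠ 1 →
        d + 2 * ∑ i, (z i).im ^ 2 ≤ ∑ i, ((z i).re - x i) ^ 2) → ‖F z - 1‖ < κ := by
  have hlim : Tendsto (fun b : ℝ => √2 ^ k * Real.exp (-(b * d / 2))) atTop (𝓝 0) := by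
    have h1 : Tendsto (fun b : ℝ => b * (d / 2)) atTop atTop :=
      tendsto_id.atTop_mul_const (half_pos hd)
    have h2 := (Real.tendsto_exp_neg_atTop_nhds_zero.comp h1).const_mul (√2 ^ k)
    rw [mul_zero] at h2
    refine h2.congr ?_
    intro b
    simp only [Function.comp_apply]
    congr 3
    ring
  obtain ⟨b, hbκ, hb⟩ := ((hlim.eventually (gt_mem_nhds hκ)).and (eventually_gt_atTop 0)).exists
  have hθ1 : ∀ x, |θ x| ≤ 1 := fun x => abs_le.2 ⟨by linarith [(hθ x).1], (hθ x).2⟩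
  have hθ2 : ∀ x, |θ x - 1| ≤ 1 := fun x =>
    abs_le.2 ⟨by linarith [(hθ x).1], by linarith [(hθ x).2]⟩
  have hcpos : 0 < √(Real.pi / b) ^ k := by
    have : 0 < Real.pi / b := div_pos Real.pi_pos hb
    positivity
  have hc0 : ((√(Real.pi / b) ^ k : ℝ) : ℂ) ≠ 0 := by exact_mod_cast hcpos.ne'
  refine ⟨fun z => ((√(Real.pi / b) ^ k : ℝ) : ℂ)⁻¹ * ∫ x : Fin k → ℝ,
      (θ x : ℂ) * Complex.exp (-(b : ℂ) * ∑ i, (z i - (x i : ℂ)) ^ 2),
      (gaussCut_entire hb hc hθ1).const_mul _, ?_, ?_, ?_⟩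
  · intro y
    rw [norm_mul, norm_inv, Complex.norm_real, Real.norm_eq_abs, abs_of_pos hcpos]
    have h1 : ‖∫ x : Fin k → ℝ,
        (θ x : ℂ) * Complex.exp (-(b : ℂ) * ∑ i, (cplx y i - (x i : ℂ)) ^ 2)‖ ≤
        ∫ x : Fin k → ℝ, Real.exp (-b * ∑ i, (y i - x i) ^ 2) := by
      apply norm_integral_le_of_norm_le (gaussCut_integrable hb y)
      filter_upwards with x
      rw [norm_mul, Complex.norm_real, Real.norm_eq_abs, gaussCut_norm]
      have h2 : ∑ i, ((cplx y i).re - x i) ^ 2 - ∑ i, (cplx y i).im ^ 2 =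
          ∑ i, (y i - x i) ^ 2 := by
        simp [cplx_apply]
      rw [h2]
      calc |θ x| * Real.exp (-b * ∑ i, (y i - x i) ^ 2)
          ≤ 1 * Real.exp (-b * ∑ i, (y i - x i) ^ 2) :=
            mul_le_mul_of_nonneg_right (hθ1 x) (Real.exp_pos _).le
        _ = _ := one_mul _
    rw [gaussCut_integral] at h1
    calc (√(Real.pi / b) ^ k)⁻¹ * ‖∫ x : Fin k → ℝ,
        (θ x : ℂ) * Complex.exp (-(b : ℂ) * ∑ i, (cplx y i - (x i : ℂ)) ^ 2)‖
        ≤ (√(Real.pi / b) ^ k)⁻¹ * √(Real.pi / b) ^ k :=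
          mul_le_mul_of_nonneg_left h1 (inv_nonneg.2 hcpos.le)
      _ = 1 := inv_mul_cancel₀ hcpos.ne'
  · intro z hz
    exact lt_of_le_of_lt (gaussCut_small hb hθ1 z hz) hbκ
  · intro z hz
    have h3 := gaussCut_small hb hθ2 z (fun x hx => hz x (fun h => hx (by rw [h, sub_self])))
    have h4 : ((√(Real.pi / b) ^ k : ℝ) : ℂ)⁻¹ * ∫ x : Fin k → ℝ,
        ((θ x - 1 : ℝ) : ℂ) * Complex.exp (-(b : ℂ) * ∑ i, (z i - (x i : ℂ)) ^ 2) =
        ((√(Real.pi / b) ^ k : ℝ) : ℂ)⁻¹ * (∫ x : Fin k → ℝ,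
          (θ x : ℂ) * Complex.exp (-(b : ℂ) * ∑ i, (z i - (x i : ℂ)) ^ 2)) - 1 := by
      have h5 : ∀ x : Fin k → ℝ,
          ((θ x - 1 : ℝ) : ℂ) * Complex.exp (-(b : ℂ) * ∑ i, (z i - (x i : ℂ)) ^ 2) =
          (θ x : ℂ) * Complex.exp (-(b : ℂ) * ∑ i, (z i - (x i : ℂ)) ^ 2) -
            Complex.exp (-(b : ℂ) * ∑ i, (z i - (x i : ℂ)) ^ 2) := by
        intro x
        push_cast
        ring
      simp_rw [h5]
      rw [integral_sub (gaussCut_mul_integrable hb z hc hθ1) (gaussCut_cexp_integrable hb z),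
        gaussCut_cexp_integral hb, mul_sub, inv_mul_cancel₀ hc0]
    rw [h4] at h3
    exact lt_of_le_of_lt h3 hbκ

end OkaP
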