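import Pool.Agent.H.MP_ceb9a9.NeckCoord
import Pool.Agent.H.MP_ceb9a9.GaussCut

/-!
# MP_ceb9a9: entire approximate cut-off functions on `ℂ^n × ℂ^n` near `{ζ = conj z}`

Proof.  Put `c2 = (2 c1 + c4) / 3`, `c3 = (c1 + 2 c4) / 3`.  By uniform continuity of `Psi` on `closedBall 0 (R1 + 1)` there is
`ρ ∈ (0, 1/2)` such that `|Psi z - Psi w| < (c4 - c1) / 3` whenever `‖z‖ ≤ R1` and `‖z - w‖ < 2 ρ`.
Let `θ x = max 0 (min 1 ((Psi (ofRe x) - c2) / (c3 - c2)))`, continuous with values in `[0,1]`.  Apply `gauss_cut` with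
`d = ρ ^ 2 / 2` and `κ`: `F`; put `c Z = F (lamE Z)`.  `c (z, conjE z) = F (cplx (toRe z))` has norm `≤ 1`.
Let `‖z‖ ≤ R1`, `‖ζ - conjE z‖ ≤ ρ`, `z' = (z + conj ζ) / 2`, so `‖z' - z‖ ≤ ρ / 2` (`lamE_mid`).
 * `Psi z ≤ c1`: if `θ x ≠ 0` then `w = ofRe x` has `Psi w > c2`, so `‖z - w‖ ≥ 2 ρ`, `‖z' - w‖ ≥ 3 ρ / 2`, and with
   `x = toRe w`: `d + 2 ∑ (im)² = ρ²/2 + ‖ζ - conjE z‖² / 2 ≤ ρ² ≤ ‖z' - w‖² = ∑ ((re) - x i)²`
   (`lamE_im`, `lamE_re`).  So `‖c (z, ζ)‖ < κ`.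
 * `c4 ≤ Psi z`: if `θ x ≠ 1` then `Psi w < c3`, same estimate, so `‖c (z, ζ) - 1‖ < κ`.
-/

set_option autoImplicit false
open Set Metric Filter
open scoped Topology

noncomputable section
namespace OkaP

/-- entire approximate cut-off functions near `{ζ = conj z}` -/
theorem cut_fun {n : ℕ} {Psi : EuclideanSpace ℂ (Fin n) → ℝ} (hPsi : Continuous Psi)
    {R1 c1 c4 : ℝ} (hc : c1 < c4) :
    ∃ ρ > 0, ∀ κ > 0, ∃ c : EuclideanSpace ℂ (Fin n) × EuclideanSpace ℂ (Fin n) → ℂ,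
      Differentiable ℂ c ∧ (∀ z : EuclideanSpace ℂ (Fin n), ‖c (z, conjE z)‖ ≤ 1) ∧
      ∀ z ζ : EuclideanSpace ℂ (Fin n), ‖z‖ ≤ R1 → ‖ζ - conjE z‖ ≤ ρ →
        (Psi z ≤ c1 → ‖c (z, ζ)‖ < κ) ∧ (c4 ≤ Psi z → ‖c (z, ζ) - 1‖ < κ) := by
  -- uniform continuity
  have huc := (isCompact_closedBall (0 : EuclideanSpace ℂ (Fin n))
    (R1 + 1)).uniformContinuousOn_of_continuous hPsi.continuousOn
  rw [Metric.uniformContinuousOn_iff] at huc
  obtain ⟨δ, hδ, hδ2⟩ := huc ((c4 - c1) / 3) (by linarith)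
  set ρ : ℝ := min δ 1 / 2 with hρ
  have hmin : 0 < min δ 1 := lt_min hδ one_pos
  have hρpos : 0 < ρ := by positivity
  have h2ρδ : 2 * ρ ≤ δ := by
    have := min_le_left δ 1
    linarith
  have h2ρ1 : 2 * ρ ≤ 1 := by
    have := min_le_right δ 1
    linarith
  have hfar : ∀ z w : EuclideanSpace ℂ (Fin n), ‖z‖ ≤ R1 → (c4 - c1) / 3 ≤ |Psi z - Psi w| →
      2 * ρ ≤ ‖z - w‖ := by
    intro z w hz hzw
    by_contra hlt
    rw [not_le] at hlt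
    have hw : ‖w‖ ≤ R1 + 1 := by
      have h1 : ‖w‖ ≤ ‖z‖ + ‖w - z‖ := by
        have := norm_add_le z (w - z)
        rwa [add_sub_cancel] at this
      rw [norm_sub_rev w z] at h1
      linarith
    have h2 := hδ2 z (by rw [mem_closedBall_zero_iff]; linarith) w
      (by rw [mem_closedBall_zero_iff]; exact hw) (by rw [dist_eq_norm]; linarith)
    rw [Real.dist_eq] at h2
    linarith
  -- the main estimate
  have hest : ∀ z ζ w : EuclideanSpace ℂ (Fin n), ‖ζ - conjE z‖ ≤ ρ → 2 * ρ ≤ ‖z - w‖ →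
      ρ ^ 2 / 2 + 2 * ∑ i, (lamE (z, ζ) i).im ^ 2 ≤
        ∑ i, ((lamE (z, ζ) i).re - toRe w i) ^ 2 := by
    intro z ζ w hζ hzw
    rw [lamE_im, lamE_re]
    have h1 := lamE_mid z ζ
    have h2 : ‖z - w‖ ≤ ‖(1 / 2 : ℂ) • (z + conjE ζ) - w‖ +
        ‖(1 / 2 : ℂ) • (z + conjE ζ) - z‖ := by
      have := norm_sub_le ((1 / 2 : ℂ) • (z + conjE ζ) - w) ((1 / 2 : ℂ) • (z + conjE ζ) - z)
      rwa [sub_sub_sub_cancel_left] at this
    rw [h1] at h2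
    have h3 : ρ ≤ ‖(1 / 2 : ℂ) • (z + conjE ζ) - w‖ := by linarith
    have h4 : ‖ζ - conjE z‖ ^ 2 ≤ ρ ^ 2 := pow_le_pow_left₀ (norm_nonneg _) hζ 2
    have h5 : ρ ^ 2 ≤ ‖(1 / 2 : ℂ) • (z + conjE ζ) - w‖ ^ 2 := pow_le_pow_left₀ hρpos.le h3 2
    linarith
  refine ⟨ρ, hρpos, fun κ hκ => ?_⟩
  set θ : (Fin (n + n) → ℝ) → ℝ := fun x =>
    max 0 (min 1 ((Psi (ofRe x) - (2 * c1 + c4) / 3) / ((c4 - c1) / 3))) with hθ
  have hθc : Continuous θ := by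
    refine continuous_const.max (continuous_const.min ?_)
    exact ((hPsi.comp continuous_ofRe).sub continuous_const).div_const _
  have hθI : ∀ x, θ x ∈ Icc (0 : ℝ) 1 := fun x =>
    ⟨le_max_left _ _, max_le zero_le_one (min_le_left _ _)⟩
  have hd3 : 0 < (c4 - c1) / 3 := by linarith
  have hθ0 : ∀ x, θ x ≠ 0 → (2 * c1 + c4) / 3 < Psi (ofRe x) := by
    intro x hx
    by_contra hle
    rw [not_lt] at hle
    apply hx
    refine max_eq_left ((min_le_right _ _).trans ?_)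
    exact div_nonpos_of_nonpos_of_nonneg (by linarith) hd3.le
  have hθ1 : ∀ x, θ x ≠ 1 → Psi (ofRe x) < (c1 + 2 * c4) / 3 := by
    intro x hx
    by_contra hle
    rw [not_lt] at hle
    apply hx
    have h1 : 1 ≤ (Psi (ofRe x) - (2 * c1 + c4) / 3) / ((c4 - c1) / 3) := by
      rw [le_div_iff₀ hd3]
      linarith
    simp only [hθ]
    rw [min_eq_left h1, max_eq_right zero_le_one]
  obtain ⟨F, hF, hF1, hF2, hF3⟩ := gauss_cut hθc hθI (d := ρ ^ 2 / 2) (κ := κ) (by positivity) hκ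
  refine ⟨fun Z => F (lamE Z), hF.comp lamE.differentiable, fun z => ?_, fun z ζ hz hζ => ⟨?_, ?_⟩⟩
  · simp only [lamE_conj]
    exact hF1 _
  · intro hzc
    refine hF2 _ fun x hx => ?_
    have h1 := hθ0 x hx
    have h2 : (c4 - c1) / 3 ≤ |Psi z - Psi (ofRe x)| := by
      rw [abs_sub_comm]
      refine le_trans ?_ (le_abs_self _)
      linarith
    have h3 := hest z ζ (ofRe x) hζ (hfar z (ofRe x) hz h2)
    rwa [toRe_ofRe] at h3
  · intro hzc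
    refine hF3 _ fun x hx => ?_
    have h1 := hθ1 x hx
    have h2 : (c4 - c1) / 3 ≤ |Psi z - Psi (ofRe x)| := by
      refine le_trans ?_ (le_abs_self _)
      linarith
    have h3 := hest z ζ (ofRe x) hζ (hfar z (ofRe x) hz h2)
    rwa [toRe_ofRe] at h3

end OkaP
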