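import Pool.Agent.H.MP_ceb9a9.Ibp
import Pool.Agent.H.MP_ceb9a9.Scv1

/-!
# MP_ceb9a9, chapter 1: cutoff functions with small gradient; smooth cutoffs of compact sets
-/

set_option autoImplicit false

open Set Metric Topology MeasureTheory
open scoped ContDiff

noncomputable section
namespace OkaP

variable {E : Type} [NormedAddCommGroup E] [NormedSpace ℂ E] [FiniteDimensional ℂ E]

/-- cutoff functions with small gradient -/
theorem exists_cutR {η : ℝ} (hη : 0 < η) (R : ℝ) :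
    ∃ χ : E → ℝ, ContDiff ℝ ∞ χ ∧ HasCompactSupport χ ∧ (∀ x, χ x ∈ Icc (0 : ℝ) 1) ∧
      (∀ x ∈ closedBall (0 : E) R, χ x = 1) ∧
      (∀ x, ‖fderiv ℝ (fun y => ((χ y : ℝ) : ℂ)) x‖ ≤ η) := by
  have : FiniteDimensional ℝ E := FiniteDimensional.complexToReal E
  let f : ContDiffBump (0 : E) := ⟨1, 2, one_pos, one_lt_two⟩
  have hf : ContDiff ℝ ∞ (f : E → ℝ) := f.contDiff
  have hfc : HasCompactSupport (f : E → ℝ) := f.hasCompactSupport
  obtain ⟨G, hG⟩ : ∃ G : ℝ, ∀ x, ‖fderiv ℝ (f : E → ℝ) x‖ ≤ G :=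
    (hfc.fderiv (𝕜 := ℝ)).exists_bound_of_continuous
      (hf.continuous_fderiv (by simp))
  have hG0 : 0 ≤ G := (norm_nonneg _).trans (hG 0)
  set T : ℝ := max (max R 1) (G / η) with hT
  have hT1 : 1 ≤ T := (le_max_right R 1).trans (le_max_left _ _)
  have hT0 : 0 < T := one_pos.trans_le hT1
  have hTR : R ≤ T := (le_max_left R 1).trans (le_max_left _ _)
  have hTG : G ≤ η * T := by
    have : G / η ≤ T := le_max_right _ _
    rw [div_le_iff₀ hη] at this
    linarith
  let L : E →L[ℝ] E := T⁻¹ • ContinuousLinearMap.id ℝ E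
  have hLx : ∀ x, L x = T⁻¹ • x := fun x => by simp [L]
  have hLn : ‖L‖ ≤ T⁻¹ := by
    refine ContinuousLinearMap.opNorm_le_bound _ (by positivity) fun x => ?_
    rw [hLx, norm_smul, Real.norm_of_nonneg (by positivity)]
  refine ⟨fun x => f (T⁻¹ • x), ?_, ?_, ?_, ?_, ?_⟩
  · exact hf.comp (contDiff_const_smul T⁻¹)
  · have h := hfc.comp_homeomorph (Homeomorph.smulOfNeZero T⁻¹ (inv_ne_zero hT0.ne'))
    exact h
  · intro x
    exact ⟨f.nonneg, f.le_one⟩
  · intro x hx
    apply f.one_of_mem_closedBall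
    rw [mem_closedBall, dist_zero_right, norm_smul, Real.norm_of_nonneg (by positivity)]
    rw [mem_closedBall, dist_zero_right] at hx
    show T⁻¹ * ‖x‖ ≤ 1
    rw [inv_mul_le_iff₀ hT0]
    linarith
  · intro x
    have h1 : HasFDerivAt (f : E → ℝ) (fderiv ℝ (f : E → ℝ) (L x)) (L x) :=
      (hf.differentiable (by simp)).differentiableAt.hasFDerivAt
    have h2 : HasFDerivAt (fun y => f (L y)) ((fderiv ℝ (f : E → ℝ) (L x)).comp L) x :=
      h1.comp x L.hasFDerivAt
    have h3 : HasFDerivAt (fun y => ((f (L y) : ℝ) : ℂ))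
        (Complex.ofRealCLM.comp ((fderiv ℝ (f : E → ℝ) (L x)).comp L)) x :=
      Complex.ofRealCLM.hasFDerivAt.comp x h2
    have h4 : (fun y => ((f (T⁻¹ • y) : ℝ) : ℂ)) = fun y => ((f (L y) : ℝ) : ℂ) := by
      funext y; rw [hLx]
    rw [h4, h3.fderiv]
    calc ‖Complex.ofRealCLM.comp ((fderiv ℝ (f : E → ℝ) (L x)).comp L)‖
        ≤ ‖Complex.ofRealCLM‖ * ‖(fderiv ℝ (f : E → ℝ) (L x)).comp L‖ :=
          ContinuousLinearMap.opNorm_comp_le _ _
      _ ≤ 1 * (G * T⁻¹) := by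
          gcongr
          · exact Complex.ofRealCLM_norm.le
          · exact (ContinuousLinearMap.opNorm_comp_le _ _).trans
              (mul_le_mul (hG _) hLn (norm_nonneg _) hG0)
      _ ≤ η := by
          rw [one_mul, ← div_eq_mul_inv, div_le_iff₀ hT0]
          exact hTG

/-- smooth cutoff: equal to one near the compact set `K`, supported in the open set `U` -/
theorem exists_cut {K U : Set E} (hK : IsCompact K) (hU : IsOpen U) (hKU : K ⊆ U) :
    ∃ χ : E → ℝ, ContDiff ℝ ∞ χ ∧ HasCompactSupport χ ∧ (∀ x, χ x ∈ Icc (0 : ℝ) 1) ∧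
      tsupport χ ⊆ U ∧ K ⊆ interior {x | χ x = 1} := by
  have : FiniteDimensional ℝ E := FiniteDimensional.complexToReal E
  have : ProperSpace E := FiniteDimensional.proper ℝ E
  obtain ⟨L, hL, hKL, hLU⟩ := exists_compact_between hK hU hKU
  obtain ⟨f, hf1, hf0, hf⟩ :=
    exists_contMDiffMap_one_nhds_of_subset_interior (n := (⊤ : ℕ∞)) (modelWithCornersSelf ℝ E)
      hK.isClosed hKL
  have hts : tsupport (fun x => f x) ⊆ L := by
    refine closure_minimal (fun x hx => ?_) hL.isClosed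
    by_contra hxL
    exact hx (hf0 x hxL)
  refine ⟨fun x => f x, f.contMDiff.contDiff, HasCompactSupport.intro hL hf0, hf,
    hts.trans hLU, ?_⟩
  intro x hx
  rw [mem_interior_iff_mem_nhds]
  exact Filter.Eventually.filter_mono (nhds_le_nhdsSet hx) hf1

/-- a function holomorphic (smooth) on an open set times a cutoff supported there is smooth on
the whole space -/
theorem contDiff_cut_mul {U : Set E} (hU : IsOpen U) {χ : E → ℝ} (hχ : ContDiff ℝ ∞ χ)
    (hs : tsupport χ ⊆ U) {f : E → ℂ} (hf : ContDiffOn ℝ ∞ f U) :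
    ContDiff ℝ ∞ (fun x => ((χ x : ℝ) : ℂ) * f x) := by
  rw [contDiff_iff_contDiffAt]
  intro x
  by_cases hx : x ∈ U
  · have h1 : ContDiffAt ℝ ∞ (fun x => ((χ x : ℝ) : ℂ)) x :=
      (Complex.ofRealCLM.contDiff.comp hχ).contDiffAt
    exact h1.mul (hf.contDiffAt (hU.mem_nhds hx))
  · have h0 : χ =ᶠ[𝓝 x] 0 := notMem_tsupport_iff_eventuallyEq.mp fun h => hx (hs h)
    have h1 : (fun x => ((χ x : ℝ) : ℂ) * f x) =ᶠ[𝓝 x] fun _ => 0 := by
      filter_upwards [h0] with y hy
      simp [hy]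
    exact (contDiffAt_const (c := (0 : ℂ))).congr_of_eventuallyEq h1

/-- holomorphic functions on open sets are real smooth -/
theorem contDiffOn_of_hol {U : Set E} (hU : IsOpen U) {f : E → ℂ} (hf : DifferentiableOn ℂ f U) :
    ContDiffOn ℝ ∞ f U := by
  rw [contDiffOn_infty]
  intro n
  exact (contDiffOn_of_diff hU hf n).restrict_scalars ℝ

end OkaP
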