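import Pool.Agent.H.MP_ceb9a9.CylDefs

/-!
# MP_ceb9a9: the cylinder functions are smooth and strictly psh
-/

set_option autoImplicit false

open Set Metric Topology Filter
open scoped ContDiff ComplexConjugate

noncomputable section
namespace OkaP

theorem conjE_smul_I {n : ℕ} (z : EuclideanSpace ℂ (Fin n)) :
    conjE (Complex.I • z) = -(Complex.I • conjE z) := by
  ext i
  rw [conjE_apply]
  simp [conjE_apply]

theorem norm_conjE {n : ℕ} (z : EuclideanSpace ℂ (Fin n)) : ‖conjE z‖ = ‖z‖ := by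
  rw [EuclideanSpace.norm_eq, EuclideanSpace.norm_eq]
  congr 1
  refine Finset.sum_congr rfl fun i _ => ?_
  rw [conjE_apply, RCLike.norm_conj]

/-- the real linear map `ζ - conj z` -/
private def cylL (n : ℕ) : E3 n →L[ℝ] EuclideanSpace ℂ (Fin n) :=
  (ContinuousLinearMap.fst ℝ (EuclideanSpace ℂ (Fin n)) ℂ).comp
    (ContinuousLinearMap.snd ℝ (EuclideanSpace ℂ (Fin n)) (EuclideanSpace ℂ (Fin n) × ℂ)) -
  conjE.comp
    (ContinuousLinearMap.fst ℝ (EuclideanSpace ℂ (Fin n)) (EuclideanSpace ℂ (Fin n) × ℂ))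

private theorem cylL_apply {n : ℕ} (x : E3 n) : cylL n x = x.2.1 - conjE x.1 := rfl

/-- `‖ζ - conj z‖²` is smooth on `E3` -/
theorem contDiff_dist2 {n : ℕ} :
    ContDiff ℝ ∞ (fun x : E3 n => ‖x.2.1 - conjE x.1‖ ^ 2) :=
  (cylL n).contDiff.norm_sq ℂ

/-- Levi form of `‖ζ - conj z‖²` -/
theorem levi_dist2 {n : ℕ} (x v : E3 n) :
    levi (fun y : E3 n => ‖y.2.1 - conjE y.1‖ ^ 2) x v = ‖v.1‖ ^ 2 + ‖v.2.1‖ ^ 2 := by
  have key : ∀ w : E3 n, D2 (fun y : E3 n => ‖y.2.1 - conjE y.1‖ ^ 2) x w w =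
      2 * ‖w.2.1 - conjE w.1‖ ^ 2 := by
    intro w
    unfold D2
    have h1 : (fun y : E3 n => fderiv ℝ (fun y : E3 n => ‖y.2.1 - conjE y.1‖ ^ 2) y w) =
        fun y => (2 • (innerSL ℝ (cylL n w)).comp (cylL n)) y := by
      funext y
      have h2 : HasFDerivAt (fun y : E3 n => ‖y.2.1 - conjE y.1‖ ^ 2)
          (2 • (innerSL ℝ (cylL n y)).comp (cylL n)) y := (cylL n).hasFDerivAt.norm_sq
      rw [h2.fderiv]
      simp [real_inner_comm]
    rw [h1, ContinuousLinearMap.fderiv]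
    simp only [smul_apply, ContinuousLinearMap.comp_apply, innerSL_apply_apply, nsmul_eq_mul,
      real_inner_self_eq_norm_sq, cylL_apply]
    norm_num
  have h3 : (Complex.I • v).2.1 - conjE (Complex.I • v).1 = Complex.I • (v.2.1 + conjE v.1) := by
    have h4 : (Complex.I • v).2.1 = Complex.I • v.2.1 := rfl
    have h5 : (Complex.I • v).1 = Complex.I • v.1 := rfl
    rw [h4, h5, conjE_smul_I, smul_add, sub_neg_eq_add]
  unfold levi
  rw [key, key, h3, norm_smul, Complex.norm_I, one_mul]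
  have h6 := parallelogram_law_with_norm ℂ v.2.1 (conjE v.1)
  rw [norm_conjE] at h6
  nlinarith [h6]

private theorem cyl_normSq_smooth : ContDiff ℝ ∞ (fun z : ℂ => ‖z‖ ^ 2) :=
  contDiff_id.norm_sq ℝ

private theorem cyl_fderiv_tau {n : ℕ} (x w : E3 n) :
    fderiv ℝ (fun y : E3 n => ‖y.2.2‖ ^ 2) x w = 2 * (x.2.2.re * w.2.2.re + x.2.2.im * w.2.2.im) := by
  have h1 : HasFDerivAt (fun y : E3 n => y.2.2)
      ((ContinuousLinearMap.snd ℝ (EuclideanSpace ℂ (Fin n)) ℂ).comp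
    (ContinuousLinearMap.snd ℝ (EuclideanSpace ℂ (Fin n)) (EuclideanSpace ℂ (Fin n) × ℂ))) x :=
    ((ContinuousLinearMap.snd ℝ (EuclideanSpace ℂ (Fin n)) ℂ).comp
    (ContinuousLinearMap.snd ℝ (EuclideanSpace ℂ (Fin n))
      (EuclideanSpace ℂ (Fin n) × ℂ))).hasFDerivAt
  rw [h1.norm_sq.fderiv]
  simp only [smul_apply, ContinuousLinearMap.comp_apply, innerSL_apply_apply, nsmul_eq_mul,
    ContinuousLinearMap.coe_snd']
  rw [Complex.inner]
  simp
  ring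

private theorem levi_tau_formula {n : ℕ} {χ : EuclideanSpace ℂ (Fin n) → ℝ} (hχ : Psh χ)
    (x v : E3 n) :
    levi (fun y : E3 n => ‖y.2.2‖ ^ 2 * Real.exp (χ y.1)) x v =
      Real.exp (χ x.1) * (‖x.2.2‖ ^ 2 * levi χ x.1 v.1 +
        ((v.2.2.re + (x.2.2.re * fderiv ℝ χ x.1 v.1 +
            x.2.2.im * fderiv ℝ χ x.1 (Complex.I • v.1)) / 2) ^ 2 +
        (v.2.2.im + (x.2.2.im * fderiv ℝ χ x.1 v.1 -
            x.2.2.re * fderiv ℝ χ x.1 (Complex.I • v.1)) / 2) ^ 2)) := by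
  have hf : ContDiff ℝ ∞ (fun y : E3 n => ‖y.2.2‖ ^ 2) :=
    cyl_normSq_smooth.comp (contDiff_snd.comp contDiff_snd)
  have hu : ContDiff ℝ ∞ (fun y : E3 n => χ y.1) := hχ.smooth.comp contDiff_fst
  have hg : ContDiff ℝ ∞ (fun y : E3 n => Real.exp (χ y.1)) := Real.contDiff_exp.comp hu
  have h1 : levi (fun y : E3 n => ‖y.2.2‖ ^ 2) x v = ‖v.2.2‖ ^ 2 := by
    have h := levi_comp_linear
      ((ContinuousLinearMap.snd ℂ (EuclideanSpace ℂ (Fin n)) ℂ).comp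
      (ContinuousLinearMap.snd ℂ (EuclideanSpace ℂ (Fin n)) (EuclideanSpace ℂ (Fin n) × ℂ)))
      (f := fun z : ℂ => ‖z‖ ^ 2) (x := x) cyl_normSq_smooth.contDiffAt v
    rw [levi_normSq] at h
    exact h
  have h2 : levi (fun y : E3 n => χ y.1) x v = levi χ x.1 v.1 :=
    levi_comp_linear (ContinuousLinearMap.fst ℂ (EuclideanSpace ℂ (Fin n))
      (EuclideanSpace ℂ (Fin n) × ℂ)) (f := χ) (x := x) hχ.smooth.contDiffAt v
  have h3 : ∀ w : E3 n, fderiv ℝ (fun y : E3 n => χ y.1) x w = fderiv ℝ χ x.1 w.1 := by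
    intro w
    have hd : DifferentiableAt ℝ χ x.1 := (hχ.smooth.differentiable (by simp)) x.1
    have h := hd.hasFDerivAt.comp x
      (ContinuousLinearMap.fst ℝ (EuclideanSpace ℂ (Fin n))
        (EuclideanSpace ℂ (Fin n) × ℂ)).hasFDerivAt
    have h' : HasFDerivAt (fun y : E3 n => χ y.1)
      ((fderiv ℝ χ x.1).comp (ContinuousLinearMap.fst ℝ (EuclideanSpace ℂ (Fin n))
        (EuclideanSpace ℂ (Fin n) × ℂ))) x := h
    rw [h'.fderiv]
    rfl
  have h4 : ∀ w : E3 n, fderiv ℝ (fun y : E3 n => Real.exp (χ y.1)) x w =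
      Real.exp (χ x.1) * fderiv ℝ χ x.1 w.1 := by
    intro w
    have hd : DifferentiableAt ℝ (fun y : E3 n => χ y.1) x := (hu.differentiable (by simp)) x
    rw [hd.hasFDerivAt.exp.fderiv, smul_apply, smul_eq_mul, h3]
  have h5 : levi (fun y : E3 n => Real.exp (χ y.1)) x v = Real.exp (χ x.1) * levi χ x.1 v.1 +
      Real.exp (χ x.1) * ((fderiv ℝ χ x.1 v.1) ^ 2 +
        (fderiv ℝ χ x.1 (Complex.I • v.1)) ^ 2) / 4 := by
    have h := levi_comp Real.contDiff_exp hu.contDiffAt (x := x) v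
    rw [h2, h3, h3] at h
    simp only [Real.deriv_exp] at h
    exact h
  have h6 : (Complex.I • v).2.2 = Complex.I * v.2.2 := rfl
  have h7 : ‖v.2.2‖ ^ 2 = v.2.2.re ^ 2 + v.2.2.im ^ 2 := by
    rw [← Complex.normSq_eq_norm_sq, Complex.normSq_apply]
    ring
  have h8 : ‖x.2.2‖ ^ 2 = x.2.2.re ^ 2 + x.2.2.im ^ 2 := by
    rw [← Complex.normSq_eq_norm_sq, Complex.normSq_apply]
    ring
  rw [levi_mul hf.contDiffAt hg.contDiffAt, h5, h1, h4, h4, cyl_fderiv_tau, cyl_fderiv_tau, h6,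
    h7, h8]
  have h9 : (Complex.I • v).1 = Complex.I • v.1 := rfl
  rw [h9]
  simp only [Complex.mul_re, Complex.mul_im, Complex.I_re, Complex.I_im]
  ring

/-- Levi form of `|τ|²` times the exponential of a psh function of `z` -/
theorem levi_tau_exp {n : ℕ} {χ : EuclideanSpace ℂ (Fin n) → ℝ} (hχ : Psh χ) (x v : E3 n) :
    0 ≤ levi (fun y : E3 n => ‖y.2.2‖ ^ 2 * Real.exp (χ y.1)) x v := by
  rw [levi_tau_formula hχ]
  have := hχ.nonneg x.1 v.1
  positivity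

/-- for `v = (0, 0, w)` the previous Levi form is positive -/
theorem levi_tau_exp_pos {n : ℕ} {χ : EuclideanSpace ℂ (Fin n) → ℝ} (hχ : Psh χ) (x : E3 n)
    {w : ℂ} (hw : w ≠ 0) :
    0 < levi (fun y : E3 n => ‖y.2.2‖ ^ 2 * Real.exp (χ y.1)) x (0, 0, w) := by
  rw [levi_tau_formula hχ]
  have h1 := hχ.nonneg x.1 0
  have h2 : 0 < w.re ^ 2 + w.im ^ 2 := by
    have h3 : 0 < Complex.normSq w := Complex.normSq_pos.2 hw
    rw [Complex.normSq_apply] at h3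
    nlinarith
  simp only [smul_zero, map_zero, mul_zero, add_zero, sub_zero, zero_div]
  have h4 : 0 ≤ ‖x.2.2‖ ^ 2 * levi χ x.1 0 := by positivity
  have h5 := Real.exp_pos (χ x.1)
  exact mul_pos h5 (by linarith)

theorem cyl_smooth {n : ℕ} {Ψ : EuclideanSpace ℂ (Fin n) → ℝ} (hΨ : ContDiff ℝ ∞ Ψ)
    (R b Λ A ε : ℝ) : ContDiff ℝ ∞ (cyl Ψ R b Λ A ε) := by
  have h1 : ContDiff ℝ ∞ (fun p : ℝ × E3 n => ‖p.2.2.1 - conjE p.2.1‖ ^ 2) :=
    contDiff_dist2.comp contDiff_snd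
  have h2 : ContDiff ℝ ∞ (fun p : ℝ × E3 n => p.2.2.2) :=
    contDiff_snd.comp (contDiff_snd.comp contDiff_snd)
  have h3 : ContDiff ℝ ∞ (fun p : ℝ × E3 n => ‖p.2.2.2‖ ^ 2) := cyl_normSq_smooth.comp h2
  have h4 : ContDiff ℝ ∞ (fun p : ℝ × E3 n => p.2.1) := contDiff_fst.comp contDiff_snd
  have h5 : ContDiff ℝ ∞ (fun p : ℝ × E3 n => hc (Ψ p.2.1)) := hc_smooth.comp (hΨ.comp h4)
  have h6 : ContDiff ℝ ∞ (fun p : ℝ × E3 n => Real.exp ((1 - p.1) * (Λ * hc (Ψ p.2.1)))) :=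
    Real.contDiff_exp.comp ((contDiff_const.sub contDiff_fst).mul (contDiff_const.mul h5))
  have h7 : ContDiff ℝ ∞ (fun p : ℝ × E3 n => p.2.2.2.re) :=
    Complex.reCLM.contDiff.comp h2
  have h8 : ContDiff ℝ ∞ (fun p : ℝ × E3 n => hc (‖p.2.1‖ ^ 2 - R ^ 2)) :=
    hc_smooth.comp ((h4.norm_sq ℂ).sub contDiff_const)
  exact (((h1.add (h3.mul h6)).sub (contDiff_const.mul h7)).add (contDiff_const.mul h8)).sub
    contDiff_const

private theorem levi_re {n : ℕ} (c : ℝ) (x v : E3 n) :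
    levi (fun y : E3 n => c * y.2.2.re) x v = 0 := by
  have h1 : ∀ w u : E3 n, D2 (fun y : E3 n => c * y.2.2.re) x w u = 0 := by
    intro w u
    unfold D2
    have h2 : (fun y : E3 n => fderiv ℝ (fun y : E3 n => c * y.2.2.re) y w) =
        fun _ => c * w.2.2.re := by
      funext y
      have h3 : HasFDerivAt (fun y : E3 n => c * y.2.2.re)
          (c • (Complex.reCLM.comp ((ContinuousLinearMap.snd ℝ (EuclideanSpace ℂ (Fin n)) ℂ).comp
          (ContinuousLinearMap.snd ℝ (EuclideanSpace ℂ (Fin n))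
            (EuclideanSpace ℂ (Fin n) × ℂ))))) y :=
        (c • (Complex.reCLM.comp ((ContinuousLinearMap.snd ℝ (EuclideanSpace ℂ (Fin n)) ℂ).comp
          (ContinuousLinearMap.snd ℝ (EuclideanSpace ℂ (Fin n))
            (EuclideanSpace ℂ (Fin n) × ℂ))))).hasFDerivAt
      rw [h3.fderiv]
      rfl
    rw [h2]
    simp
  unfold levi
  rw [h1, h1]
  norm_num

private theorem psh_normE {n : ℕ} : Psh (fun z : EuclideanSpace ℂ (Fin n) => ‖z‖ ^ 2) := by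
  have h1 : (fun z : EuclideanSpace ℂ (Fin n) => ‖z‖ ^ 2) = fun z => ∑ i, ‖z i‖ ^ 2 := by
    funext z
    rw [EuclideanSpace.norm_sq_eq]
  rw [h1]
  refine Psh.sum Finset.univ fun i _ => ?_
  exact psh_normSq.comp_linear (EuclideanSpace.proj i : EuclideanSpace ℂ (Fin n) →L[ℂ] ℂ)

/-- strict plurisubharmonicity -/
theorem cyl_levi_pos {n : ℕ} {Ψ : EuclideanSpace ℂ (Fin n) → ℝ} (hΨ : Psh Ψ)
    {R b Λ A ε : ℝ} (hΛ : 0 ≤ Λ) (hA : 0 ≤ A) {s : ℝ} (hs : s ≤ 1) (x : E3 n) {v : E3 n}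
    (hv : v ≠ 0) : 0 < levi (fun y => cyl Ψ R b Λ A ε (s, y)) x v := by
  have hχ : Psh (fun z : EuclideanSpace ℂ (Fin n) => (1 - s) * (Λ * hc (Ψ z))) :=
    (hΨ.hc_comp.const_mul hΛ).const_mul (by linarith)
  have hN : Psh (fun z : EuclideanSpace ℂ (Fin n) => A * hc (‖z‖ ^ 2 - R ^ 2)) := by
    have h := (psh_normE (n := n)).add_const (-R ^ 2)
    have h' := h.hc_comp.const_mul hA
    simpa [sub_eq_add_neg] using h'
  have hN3 : Psh (fun y : E3 n => A * hc (‖y.1‖ ^ 2 - R ^ 2)) :=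
    hN.comp_linear (ContinuousLinearMap.fst ℂ (EuclideanSpace ℂ (Fin n))
      (EuclideanSpace ℂ (Fin n) × ℂ))
  have s1 : ContDiff ℝ ∞ (fun x : E3 n => ‖x.2.1 - conjE x.1‖ ^ 2) := contDiff_dist2
  have s2 : ContDiff ℝ ∞ (fun y : E3 n => ‖y.2.2‖ ^ 2 *
      Real.exp ((1 - s) * (Λ * hc (Ψ y.1)))) :=
    (cyl_normSq_smooth.comp (contDiff_snd.comp contDiff_snd)).mul
      (Real.contDiff_exp.comp (hχ.smooth.comp contDiff_fst))
  have s3 : ContDiff ℝ ∞ (fun y : E3 n => (-(2 * b)) * y.2.2.re) :=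
    contDiff_const.mul (Complex.reCLM.contDiff.comp (contDiff_snd.comp contDiff_snd))
  have e : (fun y => cyl Ψ R b Λ A ε (s, y)) = fun y : E3 n =>
      (((‖y.2.1 - conjE y.1‖ ^ 2 + ‖y.2.2‖ ^ 2 * Real.exp ((1 - s) * (Λ * hc (Ψ y.1)))) +
        (-(2 * b)) * y.2.2.re) + A * hc (‖y.1‖ ^ 2 - R ^ 2)) + (-ε ^ 2) := by
    funext y
    unfold cyl
    simp only
    ring
  rw [e, levi_add_const, levi_add ((s1.add s2).add s3).contDiffAt hN3.smooth.contDiffAt,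
    levi_add (s1.add s2).contDiffAt s3.contDiffAt, levi_add s1.contDiffAt s2.contDiffAt,
    levi_re, levi_dist2]
  have n1 := levi_tau_exp hχ x v
  have n2 := hN3.nonneg x v
  by_cases h12 : v.1 = 0 ∧ v.2.1 = 0
  · have hw : v.2.2 ≠ 0 := by
      intro h0
      apply hv
      have : v = (v.1, v.2.1, v.2.2) := rfl
      rw [this, h12.1, h12.2, h0]
      rfl
    have h3 := levi_tau_exp_pos hχ x hw
    have h4 : v = (0, 0, v.2.2) := by
      have : v = (v.1, v.2.1, v.2.2) := rfl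
      rw [h12.1, h12.2] at this
      exact this
    rw [← h4] at h3
    have h5 : 0 ≤ ‖v.1‖ ^ 2 + ‖v.2.1‖ ^ 2 := by positivity
    linarith
  · have h5 : 0 < ‖v.1‖ ^ 2 + ‖v.2.1‖ ^ 2 := by
      by_cases h1 : v.1 = 0
      · have h2 : v.2.1 ≠ 0 := fun h => h12 ⟨h1, h⟩
        have := norm_pos_iff.2 h2
        positivity
      · have := norm_pos_iff.2 h1
        positivity
    linarith

theorem cyl_psh {n : ℕ} {Ψ : EuclideanSpace ℂ (Fin n) → ℝ} (hΨ : Psh Ψ)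
    {R b Λ A ε : ℝ} (hΛ : 0 ≤ Λ) (hA : 0 ≤ A) {s : ℝ} (hs : s ≤ 1) :
    Psh (fun y => cyl Ψ R b Λ A ε (s, y)) := by
  refine ⟨?_, fun x v => ?_⟩
  · exact (cyl_smooth hΨ.smooth R b Λ A ε).comp (contDiff_const.prodMk contDiff_id)
  · by_cases hv : v = 0
    · subst hv
      unfold levi D2
      simp
    · exact (cyl_levi_pos hΨ hΛ hA hs x hv).le

end OkaP
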