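import Pool.Agent.H.MP_ceb9a9.CylDefs

/-!
# MP_ceb9a9: elementary estimates for the cylinder functions
-/

set_option autoImplicit false

open Set Metric Topology Filter
open scoped ContDiff ComplexConjugate

noncomputable section
namespace OkaP

theorem cyl_anti {n : ℕ} (Ψ : EuclideanSpace ℂ (Fin n) → ℝ) {R b Λ A ε : ℝ} (hΛ : 0 ≤ Λ)
    {s t : ℝ} (hst : s ≤ t) (x : E3 n) :
    cyl Ψ R b Λ A ε (t, x) ≤ cyl Ψ R b Λ A ε (s, x) := by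
  have h1 : (1 - t) * (Λ * hc (Ψ x.1)) ≤ (1 - s) * (Λ * hc (Ψ x.1)) :=
    mul_le_mul_of_nonneg_right (by linarith) (mul_nonneg hΛ (hc_nonneg _))
  have h2 := Real.exp_le_exp.2 h1
  have h3 := mul_le_mul_of_nonneg_left h2 (sq_nonneg ‖x.2.2‖)
  unfold cyl
  simp only
  linarith

theorem cyl_fix {n : ℕ} (Ψ : EuclideanSpace ℂ (Fin n) → ℝ) {R b Λ A ε : ℝ}
    (s t : ℝ) {x : E3 n} (hx : Ψ x.1 ≤ 0) :
    cyl Ψ R b Λ A ε (t, x) = cyl Ψ R b Λ A ε (s, x) := by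
  unfold cyl
  simp only [hc_zero hx, mul_zero]

/-- monotonicity in the parameters -/
theorem cyl_mono_param {n : ℕ} (Ψ : EuclideanSpace ℂ (Fin n) → ℝ) {R b Λ Λ' A A' ε ε' : ℝ}
    (hΛ : Λ ≤ Λ') (hA : A ≤ A') (hε : 0 ≤ ε') (hεε : ε' ≤ ε) (x : E3 n) :
    cyl Ψ R b Λ A ε (0, x) ≤ cyl Ψ R b Λ' A' ε' (0, x) := by
  have h1 : (1 - 0) * (Λ * hc (Ψ x.1)) ≤ (1 - 0) * (Λ' * hc (Ψ x.1)) :=
    mul_le_mul_of_nonneg_left (mul_le_mul_of_nonneg_right hΛ (hc_nonneg _)) (by norm_num)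
  have h2 := Real.exp_le_exp.2 h1
  have h3 := mul_le_mul_of_nonneg_left h2 (sq_nonneg ‖x.2.2‖)
  have h4 := mul_le_mul_of_nonneg_right hA (hc_nonneg (‖x.1‖ ^ 2 - R ^ 2))
  have h5 : ε' ^ 2 ≤ ε ^ 2 := pow_le_pow_left₀ hε hεε 2
  unfold cyl
  simp only
  linarith

private theorem cyl_continuous {n : ℕ} {Ψ : EuclideanSpace ℂ (Fin n) → ℝ} (hΨ : Continuous Ψ)
    (R b Λ A ε : ℝ) : Continuous (cyl Ψ R b Λ A ε) := by
  have h := hc_smooth.continuous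
  unfold cyl
  have h1 : Continuous fun p : ℝ × E3 n => hc (Ψ p.2.1) := h.comp (hΨ.comp (by fun_prop))
  have h2 : Continuous fun p : ℝ × E3 n => hc (‖p.2.1‖ ^ 2 - R ^ 2) := h.comp (by fun_prop)
  have h3 : Continuous fun p : ℝ × E3 n => ‖p.2.2.1 - conjE p.2.1‖ ^ 2 := by fun_prop
  have h4 : Continuous fun p : ℝ × E3 n => ‖p.2.2.2‖ ^ 2 := by fun_prop
  have h5 : Continuous fun p : ℝ × E3 n => p.2.2.2.re := by fun_prop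
  have h6 : Continuous fun p : ℝ × E3 n => Real.exp ((1 - p.1) * (Λ * hc (Ψ p.2.1))) :=
    Real.continuous_exp.comp ((continuous_const.sub continuous_fst).mul
      (continuous_const.mul h1))
  exact (((h3.add (h4.mul h6)).sub (continuous_const.mul h5)).add (continuous_const.mul h2)).sub
    continuous_const

private theorem conjE_norm_le {n : ℕ} (z : EuclideanSpace ℂ (Fin n)) : ‖conjE z‖ = ‖z‖ := by
  rw [EuclideanSpace.norm_eq, EuclideanSpace.norm_eq]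
  congr 1
  refine Finset.sum_congr rfl fun i _ => ?_
  rw [conjE_apply, RCLike.norm_conj]

/-- compactness of the sublevel sets, uniformly in `s` -/
theorem cyl_compact {n : ℕ} {Ψ : EuclideanSpace ℂ (Fin n) → ℝ} (hΨ : Continuous Ψ)
    {R b Λ A ε : ℝ} (hΛ : 0 ≤ Λ) (hA : 0 < A) (c : ℝ) :
    IsCompact {p : ℝ × E3 n | p.1 ∈ Icc (0 : ℝ) 1 ∧ cyl Ψ R b Λ A ε p ≤ c} := by
  have hcl : IsClosed {p : ℝ × E3 n | p.1 ∈ Icc (0 : ℝ) 1 ∧ cyl Ψ R b Λ A ε p ≤ c} := by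
    have h1 : IsClosed {p : ℝ × E3 n | p.1 ∈ Icc (0 : ℝ) 1} := isClosed_Icc.preimage continuous_fst
    have h2 : IsClosed {p : ℝ × E3 n | cyl Ψ R b Λ A ε p ≤ c} :=
      isClosed_le (cyl_continuous hΨ R b Λ A ε) continuous_const
    exact h1.inter h2
  -- bounds
  obtain ⟨M, hM⟩ := (hc_tendsto.eventually_gt_atTop ((c + ε ^ 2 + b ^ 2) / A)).exists_forall_of_atTop
  have hb : ∀ p : ℝ × E3 n, p.1 ∈ Icc (0 : ℝ) 1 → cyl Ψ R b Λ A ε p ≤ c →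
      ‖p.2.1‖ ^ 2 ≤ |M| + R ^ 2 ∧ ‖p.2.2.1 - conjE p.2.1‖ ^ 2 ≤ |c| + ε ^ 2 + b ^ 2 ∧
      (‖p.2.2.2‖ - |b|) ^ 2 ≤ |c| + ε ^ 2 + b ^ 2 := by
    intro p hp1 hp2
    have h1 : 1 ≤ Real.exp ((1 - p.1) * (Λ * hc (Ψ p.2.1))) :=
      Real.one_le_exp (mul_nonneg (by linarith [hp1.2]) (mul_nonneg hΛ (hc_nonneg _)))
    have h2 : ‖p.2.2.2‖ ^ 2 ≤ ‖p.2.2.2‖ ^ 2 * Real.exp ((1 - p.1) * (Λ * hc (Ψ p.2.1))) :=
      le_mul_of_one_le_right (sq_nonneg _) h1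
    have h3 : b * p.2.2.2.re ≤ |b| * ‖p.2.2.2‖ := by
      calc b * p.2.2.2.re ≤ |b * p.2.2.2.re| := le_abs_self _
        _ = |b| * |p.2.2.2.re| := abs_mul _ _
        _ ≤ |b| * ‖p.2.2.2‖ := mul_le_mul_of_nonneg_left (Complex.abs_re_le_norm _) (abs_nonneg _)
    have h4 : 0 ≤ A * hc (‖p.2.1‖ ^ 2 - R ^ 2) := mul_nonneg hA.le (hc_nonneg _)
    have h5 := sq_abs b
    have h6 := le_abs_self c
    have h7 : ‖p.2.2.1 - conjE p.2.1‖ ^ 2 + (‖p.2.2.2‖ - |b|) ^ 2 +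
        A * hc (‖p.2.1‖ ^ 2 - R ^ 2) ≤ c + ε ^ 2 + b ^ 2 := by
      have h8 : ‖p.2.2.1 - conjE p.2.1‖ ^ 2 + ‖p.2.2.2‖ ^ 2 *
          Real.exp ((1 - p.1) * (Λ * hc (Ψ p.2.1))) - 2 * b * p.2.2.2.re +
          A * hc (‖p.2.1‖ ^ 2 - R ^ 2) - ε ^ 2 ≤ c := hp2
      nlinarith
    refine ⟨?_, ?_, ?_⟩
    · by_contra hcon
      push Not at hcon
      have h9 : M ≤ ‖p.2.1‖ ^ 2 - R ^ 2 := by
        have := le_abs_self M
        linarith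
      have h10 := hM _ h9
      rw [div_lt_iff₀ hA] at h10
      nlinarith [sq_nonneg ‖p.2.2.1 - conjE p.2.1‖, sq_nonneg (‖p.2.2.2‖ - |b|)]
    · nlinarith [sq_nonneg (‖p.2.2.2‖ - |b|)]
    · nlinarith [sq_nonneg ‖p.2.2.1 - conjE p.2.1‖]
  refine Metric.isCompact_of_isClosed_isBounded hcl ?_
  set B1 : ℝ := Real.sqrt (|M| + R ^ 2) with hB1
  set B2 : ℝ := Real.sqrt (|c| + ε ^ 2 + b ^ 2) with hB2
  have hsub : {p : ℝ × E3 n | p.1 ∈ Icc (0 : ℝ) 1 ∧ cyl Ψ R b Λ A ε p ≤ c} ⊆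
      closedBall 0 (1 + B1 + B2 + |b|) := by
    rintro p ⟨hp1, hp2⟩
    obtain ⟨e1, e2, e3⟩ := hb p hp1 hp2
    have f1 : ‖p.2.1‖ ≤ B1 := Real.le_sqrt_of_sq_le e1
    have f2 : ‖p.2.2.1 - conjE p.2.1‖ ≤ B2 := Real.le_sqrt_of_sq_le e2
    have f3 : ‖p.2.2.2‖ - |b| ≤ B2 := Real.le_sqrt_of_sq_le e3
    have f4 : ‖p.2.2.1‖ ≤ B2 + B1 := by
      have h1 : p.2.2.1 = (p.2.2.1 - conjE p.2.1) + conjE p.2.1 := by abel
      rw [h1]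
      refine (norm_add_le _ _).trans ?_
      rw [conjE_norm_le]
      linarith
    have f5 : ‖p.1‖ ≤ 1 := by
      rw [Real.norm_eq_abs, abs_of_nonneg hp1.1]
      exact hp1.2
    have g1 : 0 ≤ B1 := Real.sqrt_nonneg _
    have g2 : 0 ≤ B2 := Real.sqrt_nonneg _
    have g3 := abs_nonneg b
    rw [mem_closedBall_zero_iff, Prod.norm_def, Prod.norm_def, Prod.norm_def]
    refine max_le (by linarith) (max_le (by linarith) (max_le (by linarith) (by linarith)))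
  exact isBounded_closedBall.subset hsub

theorem cyl_compact_slice {n : ℕ} {Ψ : EuclideanSpace ℂ (Fin n) → ℝ} (hΨ : Continuous Ψ)
    {R b Λ A ε : ℝ} (hΛ : 0 ≤ Λ) (hA : 0 < A) (c : ℝ) {s : ℝ} (hs : s ∈ Icc (0 : ℝ) 1) :
    IsCompact {x : E3 n | cyl Ψ R b Λ A ε (s, x) ≤ c} := by
  have h1 := cyl_compact hΨ (R := R) (b := b) (ε := ε) hΛ hA c
  have h2 : IsCompact ({p : ℝ × E3 n | p.1 ∈ Icc (0 : ℝ) 1 ∧ cyl Ψ R b Λ A ε p ≤ c} ∩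
      {p : ℝ × E3 n | p.1 = s}) :=
    h1.inter_right (isClosed_eq continuous_fst continuous_const)
  have h3 : {x : E3 n | cyl Ψ R b Λ A ε (s, x) ≤ c} =
      Prod.snd '' ({p : ℝ × E3 n | p.1 ∈ Icc (0 : ℝ) 1 ∧ cyl Ψ R b Λ A ε p ≤ c} ∩
      {p : ℝ × E3 n | p.1 = s}) := by
    ext x
    constructor
    · intro hx
      exact ⟨(s, x), ⟨⟨hs, hx⟩, rfl⟩, rfl⟩
    · rintro ⟨⟨t, y⟩, ⟨⟨_, hy⟩, ht⟩, rfl⟩
      have : t = s := ht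
      subst this
      exact hy
  rw [h3]
  exact h2.image continuous_snd

private theorem cylB_exp_mul (u : ℝ) : Real.exp u * Real.exp (-u) = 1 := by
  rw [← Real.exp_add, add_neg_cancel, Real.exp_zero]

/-- thickness in `ζ` -/
theorem cyl_le_zeta {n : ℕ} {Ψ : EuclideanSpace ℂ (Fin n) → ℝ} {R b Λ A ε : ℝ}
    (hA : 0 ≤ A) {s : ℝ} {x : E3 n} (hx : cyl Ψ R b Λ A ε (s, x) ≤ 0) :
    ‖x.2.1 - conjE x.1‖ ^ 2 ≤ ε ^ 2 + b ^ 2 * Real.exp (-((1 - s) * (Λ * hc (Ψ x.1)))) := by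
  have h1 : ‖x.2.1 - conjE x.1‖ ^ 2 + ‖x.2.2‖ ^ 2 * Real.exp ((1 - s) * (Λ * hc (Ψ x.1))) -
      2 * b * x.2.2.re + A * hc (‖x.1‖ ^ 2 - R ^ 2) - ε ^ 2 ≤ 0 := hx
  have h2 : 0 ≤ A * hc (‖x.1‖ ^ 2 - R ^ 2) := mul_nonneg hA (hc_nonneg _)
  set u := (1 - s) * (Λ * hc (Ψ x.1))
  have hE := Real.exp_pos u
  have hE' := Real.exp_pos (-u)
  have hEE := cylB_exp_mul u
  have h3 : x.2.2.re ^ 2 ≤ ‖x.2.2‖ ^ 2 := by
    rw [← Complex.normSq_eq_norm_sq, Complex.normSq_apply]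
    nlinarith [sq_nonneg x.2.2.im]
  have h4 : 0 ≤ (x.2.2.re * Real.exp u - b) ^ 2 * Real.exp (-u) := by positivity
  have h5 : (x.2.2.re * Real.exp u - b) ^ 2 * Real.exp (-u) =
      x.2.2.re ^ 2 * Real.exp u * (Real.exp u * Real.exp (-u)) -
        2 * b * x.2.2.re * (Real.exp u * Real.exp (-u)) + b ^ 2 * Real.exp (-u) := by ring
  rw [h5, hEE] at h4
  have h6 : x.2.2.re ^ 2 * Real.exp u ≤ ‖x.2.2‖ ^ 2 * Real.exp u :=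
    mul_le_mul_of_nonneg_right h3 hE.le
  linarith

/-- thickness in `τ` -/
theorem cyl_le_tau {n : ℕ} {Ψ : EuclideanSpace ℂ (Fin n) → ℝ} {R b Λ A ε : ℝ} (hb : 0 ≤ b)
    (hε : 0 ≤ ε) (hA : 0 ≤ A) {s : ℝ} {x : E3 n} (hx : cyl Ψ R b Λ A ε (s, x) ≤ 0) :
    ‖x.2.2‖ ≤ 2 * b * Real.exp (-((1 - s) * (Λ * hc (Ψ x.1)))) +
      ε * Real.exp (-((1 - s) * (Λ * hc (Ψ x.1))) / 2) := by
  have h1 : ‖x.2.1 - conjE x.1‖ ^ 2 + ‖x.2.2‖ ^ 2 * Real.exp ((1 - s) * (Λ * hc (Ψ x.1))) -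
      2 * b * x.2.2.re + A * hc (‖x.1‖ ^ 2 - R ^ 2) - ε ^ 2 ≤ 0 := hx
  have h2 : 0 ≤ A * hc (‖x.1‖ ^ 2 - R ^ 2) := mul_nonneg hA (hc_nonneg _)
  set u := (1 - s) * (Λ * hc (Ψ x.1))
  have hq : Real.exp (-u) = Real.exp (-u / 2) * Real.exp (-u / 2) := by
    rw [← Real.exp_add]
    congr 1
    ring
  set q := Real.exp (-u / 2) with hqdef
  have hq0 : 0 < q := Real.exp_pos _
  have hEE := cylB_exp_mul u
  rw [hq] at hEE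
  rw [hq]
  have h3 : x.2.2.re ≤ ‖x.2.2‖ := Complex.re_le_norm _
  set t := ‖x.2.2‖ with ht
  have ht0 : 0 ≤ t := norm_nonneg _
  have h4 : t ^ 2 * Real.exp u ≤ ε ^ 2 + 2 * b * t := by
    have h5 : b * x.2.2.re ≤ b * t := mul_le_mul_of_nonneg_left h3 hb
    nlinarith [sq_nonneg ‖x.2.1 - conjE x.1‖]
  have h6 : t ^ 2 ≤ (ε ^ 2 + 2 * b * t) * (q * q) := by
    have h7 := mul_le_mul_of_nonneg_right h4 (by positivity : 0 ≤ q * q)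
    have h8 : t ^ 2 * Real.exp u * (q * q) = t ^ 2 := by
      rw [mul_assoc, hEE, mul_one]
    linarith
  by_contra hcon
  push Not at hcon
  have h9 : 0 ≤ 2 * b * (q * q) := by positivity
  have h10 : 0 ≤ ε * q := by positivity
  -- t > 2 b q^2 + ε q, so t (t - 2 b q^2) > ε q * ε q
  have h11 : ε * q < t - 2 * b * (q * q) := by linarith
  have h12 : ε * q < t := by linarith
  nlinarith [mul_pos (sub_pos.2 h12) (lt_of_le_of_lt h10 h11), mul_nonneg h10 (sub_nonneg.2 h11.le)]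

/-- position in `z` -/
theorem cyl_le_z {n : ℕ} {Ψ : EuclideanSpace ℂ (Fin n) → ℝ} {R b Λ A ε : ℝ} {s : ℝ}
    (hs : s ≤ 1) (hΛ : 0 ≤ Λ) {x : E3 n} (hx : cyl Ψ R b Λ A ε (s, x) ≤ 0) :
    A * hc (‖x.1‖ ^ 2 - R ^ 2) ≤ ε ^ 2 + b ^ 2 := by
  have h1 : ‖x.2.1 - conjE x.1‖ ^ 2 + ‖x.2.2‖ ^ 2 * Real.exp ((1 - s) * (Λ * hc (Ψ x.1))) -
      2 * b * x.2.2.re + A * hc (‖x.1‖ ^ 2 - R ^ 2) - ε ^ 2 ≤ 0 := hx
  have h2 : 1 ≤ Real.exp ((1 - s) * (Λ * hc (Ψ x.1))) :=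
    Real.one_le_exp (mul_nonneg (by linarith) (mul_nonneg hΛ (hc_nonneg _)))
  have h3 : ‖x.2.2‖ ^ 2 ≤ ‖x.2.2‖ ^ 2 * Real.exp ((1 - s) * (Λ * hc (Ψ x.1))) :=
    le_mul_of_one_le_right (sq_nonneg _) h2
  have h4 : x.2.2.re ^ 2 ≤ ‖x.2.2‖ ^ 2 := by
    rw [← Complex.normSq_eq_norm_sq, Complex.normSq_apply]
    nlinarith [sq_nonneg x.2.2.im]
  nlinarith [sq_nonneg (x.2.2.re - b), sq_nonneg ‖x.2.1 - conjE x.1‖]

private theorem cylB_end_aux {n : ℕ} {R b : ℝ} (hR : 0 ≤ R) (hb : R ≤ b)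
    {z : EuclideanSpace ℂ (Fin n)} (hz : ‖z‖ ≤ R) (A ε : ℝ) :
    ‖(0 : EuclideanSpace ℂ (Fin n)) - conjE z‖ ^ 2 + ‖(b : ℂ)‖ ^ 2 * 1 -
      2 * b * (b : ℂ).re + A * hc (‖z‖ ^ 2 - R ^ 2) - ε ^ 2 ≤ 0 := by
  have h1 : hc (‖z‖ ^ 2 - R ^ 2) = 0 := by
    apply hc_zero
    have := pow_le_pow_left₀ (norm_nonneg z) hz 2
    linarith
  have h2 : ‖(b : ℂ)‖ ^ 2 = b ^ 2 := by
    rw [Complex.norm_real, Real.norm_eq_abs, sq_abs]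
  rw [h1, h2, zero_sub, norm_neg, conjE_norm_le, Complex.ofReal_re]
  have h3 := pow_le_pow_left₀ (norm_nonneg z) hz 2
  have h4 := pow_le_pow_left₀ hR hb 2
  nlinarith [sq_nonneg ε]

/-- the end domain contains the points `(z, 0, b)` -/
theorem cyl_end {n : ℕ} {Ψ : EuclideanSpace ℂ (Fin n) → ℝ} {R b Λ A ε : ℝ}
    (hR : 0 ≤ R) (hb : R ≤ b) {z : EuclideanSpace ℂ (Fin n)} (hz : ‖z‖ ≤ R) :
    cyl Ψ R b Λ A ε (1, (z, 0, (b : ℂ))) ≤ 0 := by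
  have h := cylB_end_aux hR hb hz A ε
  unfold cyl
  simp only [sub_self, zero_mul, Real.exp_zero]
  exact h

/-- so does the starting domain over `{Ψ ≤ 0}` -/
theorem cyl_start {n : ℕ} {Ψ : EuclideanSpace ℂ (Fin n) → ℝ} {R b Λ A ε : ℝ}
    (hR : 0 ≤ R) (hb : R ≤ b) {z : EuclideanSpace ℂ (Fin n)} (hz : ‖z‖ ≤ R) (hΨ : Ψ z ≤ 0) :
    cyl Ψ R b Λ A ε (0, (z, 0, (b : ℂ))) ≤ 0 := by
  have h := cylB_end_aux hR hb hz A ε
  unfold cyl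
  simp only [hc_zero hΨ, mul_zero, Real.exp_zero]
  exact h

/-- choice of the parameters `Λ`, `ε`: thinness over `{Ψ ≥ a}` -/
theorem cyl_thin {b a r : ℝ} (hb : 0 ≤ b) (ha : 0 < a) (hr : 0 < r) :
    ∃ Λ0 > 0, ∃ ε0 > 0, ∀ Λ ≥ Λ0, ∀ ε ∈ Ioc (0 : ℝ) ε0, ∀ (n : ℕ)
      (Ψ : EuclideanSpace ℂ (Fin n) → ℝ) (R A : ℝ), 0 ≤ A → ∀ x : E3 n, a ≤ Ψ x.1 →
        cyl Ψ R b Λ A ε (0, x) ≤ 0 → ‖x.2.1 - conjE x.1‖ < r ∧ ‖x.2.2‖ < r := by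
  have hha := hc_pos ha
  -- δ controls the exponential
  set δ : ℝ := min (r ^ 2 / (4 * (b ^ 2 + 1))) (r / (4 * (b + 1))) with hδ
  have hδ0 : 0 < δ := by
    rw [hδ]
    refine lt_min ?_ ?_ <;> positivity
  refine ⟨max 1 (-Real.log δ / hc a), lt_max_of_lt_left one_pos, min (r / 2) 1,
    lt_min (by linarith) one_pos, fun Λ hΛ ε hε n Ψ R A hA x hx hcyl => ?_⟩
  have hΛ1 : 1 ≤ Λ := (le_max_left _ _).trans hΛ
  have hΛ2 : -Real.log δ / hc a ≤ Λ := (le_max_right _ _).trans hΛ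
  have hhx : hc a ≤ hc (Ψ x.1) := hc_mono hx
  have h1 : -Real.log δ ≤ Λ * hc (Ψ x.1) := by
    rw [div_le_iff₀ hha] at hΛ2
    exact hΛ2.trans (mul_le_mul_of_nonneg_left hhx (by linarith))
  have h2 : Real.exp (-((1 - 0) * (Λ * hc (Ψ x.1)))) ≤ δ := by
    calc Real.exp (-((1 - 0) * (Λ * hc (Ψ x.1)))) ≤ Real.exp (Real.log δ) :=
          Real.exp_le_exp.2 (by linarith)
      _ = δ := Real.exp_log hδ0
  have hε1 : ε ≤ r / 2 := hε.2.trans (min_le_left _ _)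
  have hε0 : 0 < ε := hε.1
  have h3 := cyl_le_zeta hA hcyl
  have h4 := cyl_le_tau hb hε0.le hA hcyl
  have hd1 : δ ≤ r ^ 2 / (4 * (b ^ 2 + 1)) := min_le_left _ _
  have hd2 : δ ≤ r / (4 * (b + 1)) := min_le_right _ _
  constructor
  · have h5 : b ^ 2 * Real.exp (-((1 - 0) * (Λ * hc (Ψ x.1)))) ≤ r ^ 2 / 4 := by
      calc b ^ 2 * Real.exp (-((1 - 0) * (Λ * hc (Ψ x.1))))
          ≤ (b ^ 2 + 1) * (r ^ 2 / (4 * (b ^ 2 + 1))) := by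
            refine mul_le_mul (by linarith) (h2.trans hd1) (Real.exp_pos _).le (by positivity)
        _ = r ^ 2 / 4 := by
            field_simp
    have h6 : ε ^ 2 ≤ (r / 2) ^ 2 := pow_le_pow_left₀ hε0.le hε1 2
    have h6b : (r / 2) ^ 2 = r ^ 2 / 4 := by ring
    have h6c : 0 < r ^ 2 := by positivity
    have h6d : ε ^ 2 ≤ r ^ 2 / 4 := by linarith
    have h7 : ‖x.2.1 - conjE x.1‖ ^ 2 < r ^ 2 :=
      lt_of_le_of_lt (h3.trans (add_le_add h6d h5)) (by linarith)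
    exact lt_of_pow_lt_pow_left₀ 2 hr.le h7
  · have h5 : 2 * b * Real.exp (-((1 - 0) * (Λ * hc (Ψ x.1)))) < r / 2 := by
      calc 2 * b * Real.exp (-((1 - 0) * (Λ * hc (Ψ x.1))))
          ≤ 2 * b * (r / (4 * (b + 1))) :=
            mul_le_mul_of_nonneg_left (h2.trans hd2) (by positivity)
        _ < 2 * (b + 1) * (r / (4 * (b + 1))) := by
            refine mul_lt_mul_of_pos_right (by linarith) (by positivity)
        _ = r / 2 := by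
            field_simp
            norm_num
    have h6 : Real.exp (-((1 - 0) * (Λ * hc (Ψ x.1))) / 2) ≤ 1 := by
      rw [Real.exp_le_one_iff]
      have : 0 ≤ Λ * hc (Ψ x.1) := mul_nonneg (by linarith) (hc_nonneg _)
      linarith
    have h7 : ε * Real.exp (-((1 - 0) * (Λ * hc (Ψ x.1))) / 2) ≤ r / 2 := by
      calc ε * Real.exp (-((1 - 0) * (Λ * hc (Ψ x.1))) / 2) ≤ ε * 1 :=
            mul_le_mul_of_nonneg_left h6 hε0.le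
        _ ≤ r / 2 := by linarith
    linarith

/-- choice of the parameter `A`: the domain lies over the ball of radius `R'` -/
theorem cyl_ball {b R R' : ℝ} (hR : 0 ≤ R) (hRR : R < R') :
    ∃ A0 > 0, ∀ A ≥ A0, ∀ ε ∈ Ioc (0 : ℝ) 1, ∀ (n : ℕ) (Ψ : EuclideanSpace ℂ (Fin n) → ℝ)
      (Λ s : ℝ), 0 ≤ Λ → s ≤ 1 → ∀ x : E3 n, cyl Ψ R b Λ A ε (s, x) ≤ 0 → ‖x.1‖ < R' := by
  have h1 : 0 < R' ^ 2 - R ^ 2 := by
    have := pow_lt_pow_left₀ hRR hR two_ne_zero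
    linarith
  have h2 := hc_pos h1
  refine ⟨(2 + b ^ 2) / hc (R' ^ 2 - R ^ 2), by positivity,
    fun A hA ε hε n Ψ Λ s hΛ hs x hx => ?_⟩
  by_contra hcon
  push Not at hcon
  have hR' : 0 ≤ R' := hR.trans hRR.le
  have h3 : hc (R' ^ 2 - R ^ 2) ≤ hc (‖x.1‖ ^ 2 - R ^ 2) := by
    apply hc_mono
    have := pow_le_pow_left₀ hR' hcon 2
    linarith
  have h4 := cyl_le_z hs hΛ hx
  have hA0 : 0 < A := lt_of_lt_of_le (by positivity) hA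
  have h5 : 2 + b ^ 2 ≤ A * hc (‖x.1‖ ^ 2 - R ^ 2) := by
    have h6 : 2 + b ^ 2 ≤ A * hc (R' ^ 2 - R ^ 2) := by
      rwa [ge_iff_le, div_le_iff₀ h2] at hA
    exact h6.trans (mul_le_mul_of_nonneg_left h3 hA0.le)
  have h6 : ε ^ 2 ≤ 1 := by
    have := pow_le_pow_left₀ hε.1.le hε.2 2
    simpa using this
  linarith

end OkaP
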