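import Pool.Agent.H.MP_ceb9a9.CylA
import Pool.Agent.H.MP_ceb9a9.CylB

/-!
# MP_ceb9a9: the cylinder functions have no critical points on the zero level
-/

set_option autoImplicit false

open Set Metric Topology Filter
open scoped ContDiff ComplexConjugate

noncomputable section
namespace OkaP

/-- growth of the logarithmic derivative of `hc` at `0` -/
theorem hc_deriv_ge {t : ℝ} (ht : 0 < t) : hc t / t ^ 2 ≤ deriv hc t := by
  have h1 : hc =ᶠ[𝓝 t] fun x => x * Real.exp (-x⁻¹) := by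
    filter_upwards [Ioi_mem_nhds ht] with x hx
    have hx' : ¬ x ≤ 0 := not_le.2 hx
    simp [hc, expNegInvGlue, hx']
  have h2 : HasDerivAt (fun x : ℝ => x * Real.exp (-x⁻¹))
      (1 * Real.exp (-t⁻¹) + t * (Real.exp (-t⁻¹) * -(-(t ^ 2)⁻¹))) t := by
    have h3 : HasDerivAt (fun x : ℝ => -x⁻¹) (-(-(t ^ 2)⁻¹)) t := (hasDerivAt_inv ht.ne').neg
    exact (hasDerivAt_id t).mul h3.exp
  have h4 : deriv hc t = 1 * Real.exp (-t⁻¹) + t * (Real.exp (-t⁻¹) * -(-(t ^ 2)⁻¹)) := by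
    rw [h1.deriv_eq, h2.deriv]
  have h5 : hc t = t * Real.exp (-t⁻¹) := h1.self_of_nhds
  rw [h4, h5]
  have h6 : 0 < Real.exp (-t⁻¹) := Real.exp_pos _
  have h7 : t * Real.exp (-t⁻¹) / t ^ 2 = t * (Real.exp (-t⁻¹) * -(-(t ^ 2)⁻¹)) := by
    field_simp
  rw [h7]
  linarith

private theorem cylC_line {n : ℕ} {Ψ : EuclideanSpace ℂ (Fin n) → ℝ} (hΨ : ContDiff ℝ ∞ Ψ)
    {R b Λ A ε s : ℝ} {x : E3 n} (hd : fderiv ℝ (fun y => cyl Ψ R b Λ A ε (s, y)) x = 0)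
    (v : E3 n) : HasDerivAt (fun t : ℝ => cyl Ψ R b Λ A ε (s, x + t • v)) 0 0 := by
  have h1 : DifferentiableAt ℝ (fun y => cyl Ψ R b Λ A ε (s, y)) x := by
    have h2 : ContDiff ℝ ∞ (fun y : E3 n => cyl Ψ R b Λ A ε (s, y)) :=
      (cyl_smooth hΨ R b Λ A ε).comp (contDiff_const.prodMk contDiff_id)
    exact (h2.differentiable (by simp)).differentiableAt
  have h3 : HasFDerivAt (fun y => cyl Ψ R b Λ A ε (s, y)) (0 : E3 n →L[ℝ] ℝ)
      (x + (0 : ℝ) • v) := by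
    rw [zero_smul, add_zero, ← hd]
    exact h1.hasFDerivAt
  have h4 : HasDerivAt (fun t : ℝ => x + t • v) v 0 := by
    simpa using ((hasDerivAt_id (0 : ℝ)).smul_const v).const_add x
  exact h3.comp_hasDerivAt (0 : ℝ) h4

/-- consequences of a vanishing derivative -/
theorem cyl_crit_eq {n : ℕ} {Ψ : EuclideanSpace ℂ (Fin n) → ℝ} (hΨ : ContDiff ℝ ∞ Ψ)
    {R b Λ A ε s : ℝ} {x : E3 n} (hd : fderiv ℝ (fun y => cyl Ψ R b Λ A ε (s, y)) x = 0) :
    x.2.1 = conjE x.1 ∧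
    x.2.2 = ((b * Real.exp (-((1 - s) * (Λ * hc (Ψ x.1)))) : ℝ) : ℂ) ∧
    b ^ 2 * Real.exp (-((1 - s) * (Λ * hc (Ψ x.1)))) * ((1 - s) * (Λ * (deriv hc (Ψ x.1) *
      fderiv ℝ Ψ x.1 x.1))) + A * (deriv hc (‖x.1‖ ^ 2 - R ^ 2) * (2 * ‖x.1‖ ^ 2)) = 0 := by
  obtain ⟨z, ζ, τ⟩ := x
  set e : ℝ := Real.exp ((1 - s) * (Λ * hc (Ψ z))) with he
  have he0 : 0 < e := Real.exp_pos _
  have hei : Real.exp (-((1 - s) * (Λ * hc (Ψ z)))) = e⁻¹ := by rw [Real.exp_neg]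
  -- the direction of `ζ`
  have h1 : ζ - conjE z = 0 := by
    have h2 := cylC_line hΨ hd (0, ζ - conjE z, 0)
    have h3 : (fun t : ℝ => cyl Ψ R b Λ A ε (s, (z, ζ, τ) + t • (0, ζ - conjE z, 0))) =
        fun t : ℝ => (1 + t) ^ 2 * ‖ζ - conjE z‖ ^ 2 + (‖τ‖ ^ 2 * e - 2 * b * τ.re +
          A * hc (‖z‖ ^ 2 - R ^ 2) - ε ^ 2) := by
      funext t
      have e1 : ζ + t • (ζ - conjE z) - conjE z = (1 + t) • (ζ - conjE z) := by
        rw [add_smul, one_smul]; abel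
      simp only [cyl, Prod.smul_mk, Prod.mk_add_mk, smul_zero, add_zero, e1, norm_smul, mul_pow,
        Real.norm_eq_abs, sq_abs, ← he]
      ring
    rw [h3] at h2
    have h4 : HasDerivAt (fun t : ℝ => (1 + t) ^ 2 * ‖ζ - conjE z‖ ^ 2 +
        (‖τ‖ ^ 2 * e - 2 * b * τ.re + A * hc (‖z‖ ^ 2 - R ^ 2) - ε ^ 2))
        (2 * ‖ζ - conjE z‖ ^ 2) 0 := by
      have h5 : HasDerivAt (fun t : ℝ => (1 + t) ^ 2) 2 0 := by
        have := ((hasDerivAt_id (0 : ℝ)).const_add 1).fun_pow 2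
        simpa using this
      exact (h5.mul_const _).add_const _
    have h6 := h4.unique h2
    have h7 : ‖ζ - conjE z‖ ^ 2 = 0 := by linarith
    exact norm_eq_zero.1 (pow_eq_zero_iff (two_ne_zero)|>.1 h7)
  -- the directions of `τ`
  have hτ : ∀ w : ℂ, 2 * (τ.re * w.re + τ.im * w.im) * e - 2 * b * w.re = 0 := by
    intro w
    have h2 := cylC_line hΨ hd (0, 0, w)
    have h3 : (fun t : ℝ => cyl Ψ R b Λ A ε (s, (z, ζ, τ) + t • ((0, 0, w) : E3 n))) =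
        fun t : ℝ => ((τ.re + t * w.re) ^ 2 + (τ.im + t * w.im) ^ 2) * e -
          2 * b * (τ.re + t * w.re) + (‖ζ - conjE z‖ ^ 2 + A * hc (‖z‖ ^ 2 - R ^ 2) - ε ^ 2) := by
      funext t
      have e1 : ‖τ + t • w‖ ^ 2 = (τ.re + t * w.re) ^ 2 + (τ.im + t * w.im) ^ 2 := by
        rw [← Complex.normSq_eq_norm_sq, Complex.normSq_apply]
        simp
        ring
      have e2 : (τ + t • w).re = τ.re + t * w.re := by simp
      simp only [cyl, Prod.smul_mk, Prod.mk_add_mk, smul_zero, add_zero, e1, e2, ← he]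
      ring
    rw [h3] at h2
    have h4 : HasDerivAt (fun t : ℝ => ((τ.re + t * w.re) ^ 2 + (τ.im + t * w.im) ^ 2) * e -
          2 * b * (τ.re + t * w.re) + (‖ζ - conjE z‖ ^ 2 + A * hc (‖z‖ ^ 2 - R ^ 2) - ε ^ 2))
        ((2 * τ.re * w.re + 2 * τ.im * w.im) * e - 2 * b * w.re) 0 := by
      have h5 : ∀ p q : ℝ, HasDerivAt (fun t : ℝ => p + t * q) q 0 := by
        intro p q
        simpa using ((hasDerivAt_id (0 : ℝ)).mul_const q).const_add p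
      have h6 : ∀ p q : ℝ, HasDerivAt (fun t : ℝ => (p + t * q) ^ 2) (2 * p * q) 0 := by
        intro p q
        have := (h5 p q).fun_pow 2
        simpa using this
      exact ((((h6 _ _).add (h6 _ _)).mul_const e).sub ((h5 _ _).const_mul (2 * b))).add_const _
    have h7 := h4.unique h2
    linarith
  have hre : τ.re = b * e⁻¹ := by
    have h2 := hτ 1
    simp only [Complex.one_re, Complex.one_im] at h2
    field_simp
    linarith
  have him : τ.im = 0 := by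
    have h2 := hτ Complex.I
    simp only [Complex.I_re, Complex.I_im] at h2
    have h3 : τ.im * e = 0 := by linarith
    exact (mul_eq_zero.1 h3).resolve_right he0.ne'
  have hτe : τ = ((b * e⁻¹ : ℝ) : ℂ) := by
    apply Complex.ext
    · rw [Complex.ofReal_re, hre]
    · rw [Complex.ofReal_im, him]
  refine ⟨sub_eq_zero.1 h1, ?_, ?_⟩
  · change τ = ((b * Real.exp (-((1 - s) * (Λ * hc (Ψ z)))) : ℝ) : ℂ)
    rw [hei, hτe]
  · change b ^ 2 * Real.exp (-((1 - s) * (Λ * hc (Ψ z)))) * ((1 - s) * (Λ * (deriv hc (Ψ z) *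
      fderiv ℝ Ψ z z))) + A * (deriv hc (‖z‖ ^ 2 - R ^ 2) * (2 * ‖z‖ ^ 2)) = 0
    have h2 := cylC_line hΨ hd (z, 0, 0)
    have h3 : (fun t : ℝ => cyl Ψ R b Λ A ε (s, (z, ζ, τ) + t • ((z, 0, 0) : E3 n))) =
        fun t : ℝ => t ^ 2 * ‖conjE z‖ ^ 2 +
          ‖τ‖ ^ 2 * Real.exp ((1 - s) * (Λ * hc (Ψ (z + t • z)))) +
          A * hc ((1 + t) ^ 2 * ‖z‖ ^ 2 - R ^ 2) - (2 * b * τ.re + ε ^ 2) := by
      funext t
      have e1 : ζ - conjE (z + t • z) = -(t • conjE z) := by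
        rw [map_add, map_smul, sub_eq_zero.1 h1]
        abel
      have e2 : z + t • z = (1 + t) • z := by rw [add_smul, one_smul]
      have e3 : ‖z + t • z‖ ^ 2 = (1 + t) ^ 2 * ‖z‖ ^ 2 := by
        rw [e2, norm_smul, mul_pow, Real.norm_eq_abs, sq_abs]
      simp only [cyl, Prod.smul_mk, Prod.mk_add_mk, smul_zero, add_zero, e1, e3, norm_neg,
        norm_smul, mul_pow, Real.norm_eq_abs, sq_abs]
      ring
    rw [h3] at h2
    have hz : HasDerivAt (fun t : ℝ => z + t • z) z 0 := by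
      simpa using ((hasDerivAt_id (0 : ℝ)).smul_const z).const_add z
    have hΨd : HasFDerivAt Ψ (fderiv ℝ Ψ z) (z + (0 : ℝ) • z) := by
      rw [zero_smul, add_zero]
      exact (hΨ.differentiable (by simp)).differentiableAt.hasFDerivAt
    have hΨt : HasDerivAt (fun t : ℝ => Ψ (z + t • z)) (fderiv ℝ Ψ z z) 0 :=
      hΨd.comp_hasDerivAt (0 : ℝ) hz
    have hcd : ∀ u : ℝ, HasDerivAt hc (deriv hc u) u := fun u =>
      (hc_smooth.differentiable (by simp)).differentiableAt.hasDerivAt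
    have hcΨ : HasDerivAt (fun t : ℝ => hc (Ψ (z + t • z)))
        (deriv hc (Ψ z) * fderiv ℝ Ψ z z) 0 := by
      have h4 : HasDerivAt hc (deriv hc (Ψ z)) (Ψ (z + (0 : ℝ) • z)) := by
        rw [zero_smul, add_zero]
        exact hcd _
      exact h4.comp (0 : ℝ) hΨt
    have hE : HasDerivAt (fun t : ℝ => Real.exp ((1 - s) * (Λ * hc (Ψ (z + t • z)))))
        (e * ((1 - s) * (Λ * (deriv hc (Ψ z) * fderiv ℝ Ψ z z)))) 0 := by
      have h4 := ((hcΨ.const_mul Λ).const_mul (1 - s)).exp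
      simpa [he] using h4
    have hsq : HasDerivAt (fun t : ℝ => (1 + t) ^ 2 * ‖z‖ ^ 2 - R ^ 2) (2 * ‖z‖ ^ 2) 0 := by
      have h5 : HasDerivAt (fun t : ℝ => (1 + t) ^ 2) 2 0 := by
        have := ((hasDerivAt_id (0 : ℝ)).const_add 1).fun_pow 2
        simpa using this
      exact (h5.mul_const _).sub_const _
    have hcz : HasDerivAt (fun t : ℝ => hc ((1 + t) ^ 2 * ‖z‖ ^ 2 - R ^ 2))
        (deriv hc (‖z‖ ^ 2 - R ^ 2) * (2 * ‖z‖ ^ 2)) 0 := by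
      have h4 : HasDerivAt hc (deriv hc (‖z‖ ^ 2 - R ^ 2))
          ((1 + (0 : ℝ)) ^ 2 * ‖z‖ ^ 2 - R ^ 2) := by
        have : (1 + (0 : ℝ)) ^ 2 * ‖z‖ ^ 2 - R ^ 2 = ‖z‖ ^ 2 - R ^ 2 := by ring
        rw [this]
        exact hcd _
      exact h4.comp (0 : ℝ) hsq
    have ht2 : HasDerivAt (fun t : ℝ => t ^ 2 * ‖conjE z‖ ^ 2) 0 0 := by
      have h5 : HasDerivAt (fun t : ℝ => t ^ 2) 0 0 := by
        have := (hasDerivAt_id (0 : ℝ)).fun_pow 2
        simpa using this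
      simpa using h5.mul_const (‖conjE z‖ ^ 2)
    have h4 : HasDerivAt (fun t : ℝ => t ^ 2 * ‖conjE z‖ ^ 2 +
          ‖τ‖ ^ 2 * Real.exp ((1 - s) * (Λ * hc (Ψ (z + t • z)))) +
          A * hc ((1 + t) ^ 2 * ‖z‖ ^ 2 - R ^ 2) - (2 * b * τ.re + ε ^ 2))
        (0 + ‖τ‖ ^ 2 * (e * ((1 - s) * (Λ * (deriv hc (Ψ z) * fderiv ℝ Ψ z z)))) +
          A * (deriv hc (‖z‖ ^ 2 - R ^ 2) * (2 * ‖z‖ ^ 2))) 0 :=
      ((ht2.add (hE.const_mul _)).add (hcz.const_mul A)).sub_const _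
    have h6 := h4.unique h2
    have h7 : ‖τ‖ ^ 2 = b ^ 2 * (e⁻¹) ^ 2 := by
      rw [hτe, Complex.norm_real, Real.norm_eq_abs, sq_abs]
      ring
    rw [h7] at h6
    rw [hei]
    have h8 : e⁻¹ * e = 1 := inv_mul_cancel₀ he0.ne'
    have h9 : b ^ 2 * (e⁻¹) ^ 2 * (e * ((1 - s) * (Λ * (deriv hc (Ψ z) * fderiv ℝ Ψ z z)))) =
        b ^ 2 * e⁻¹ * ((1 - s) * (Λ * (deriv hc (Ψ z) * fderiv ℝ Ψ z z))) := by
      linear_combination (b ^ 2 * e⁻¹ * ((1 - s) * (Λ * (deriv hc (Ψ z) *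
        fderiv ℝ Ψ z z)))) * h8
    rw [h9] at h6
    linarith

/-- no critical points on the zero level for large `A` -/
theorem cyl_crit {n : ℕ} {Ψ : EuclideanSpace ℂ (Fin n) → ℝ} (hΨ : ContDiff ℝ ∞ Ψ)
    {R b Λ ε : ℝ} (hR : 0 < R) (hΛ : 0 ≤ Λ) (hε : 0 < ε) :
    ∃ A0 > 0, ∀ A ≥ A0, ∀ s ∈ Icc (0 : ℝ) 1, ∀ x : E3 n, cyl Ψ R b Λ A ε (s, x) = 0 →
      fderiv ℝ (fun y => cyl Ψ R b Λ A ε (s, y)) x ≠ 0 := by
  -- bound on a ball
  have hcont : Continuous (fun z : EuclideanSpace ℂ (Fin n) =>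
      deriv hc (Ψ z) * fderiv ℝ Ψ z z) := by
    have h1 : Continuous (deriv hc) := hc_smooth.continuous_deriv (by simp)
    have h2 : Continuous (fderiv ℝ Ψ) := hΨ.continuous_fderiv (by simp)
    exact (h1.comp hΨ.continuous).mul (h2.clm_apply continuous_id)
  obtain ⟨M, hM⟩ := (isCompact_closedBall (0 : EuclideanSpace ℂ (Fin n))
    (R + 1)).exists_bound_of_continuousOn hcont.continuousOn
  set P : ℝ := b ^ 2 * Λ * |M| with hP
  have hP0 : 0 ≤ P := by positivity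
  set t0 : ℝ := min 1 (2 * R ^ 2 * ε ^ 2 / (P + 1)) with ht0
  have ht0p : 0 < t0 := lt_min one_pos (by positivity)
  have ht01 : t0 ≤ 1 := min_le_left _ _
  have ht02 : t0 ^ 2 * (P + 1) ≤ 2 * R ^ 2 * ε ^ 2 := by
    have h1 : t0 * (P + 1) ≤ 2 * R ^ 2 * ε ^ 2 := by
      have := min_le_right 1 (2 * R ^ 2 * ε ^ 2 / (P + 1))
      rw [← ht0, le_div_iff₀ (by positivity)] at this
      exact this
    have h2 : t0 ^ 2 * (P + 1) ≤ t0 * (P + 1) := by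
      gcongr
      nlinarith
    linarith
  have hct0 : 0 < hc t0 := hc_pos ht0p
  refine ⟨(ε ^ 2 + b ^ 2) / hc t0 + 1, by positivity, ?_⟩
  rintro A hA s ⟨hs0, hs1⟩ ⟨z, ζ, τ⟩ hx hd
  obtain ⟨h1, h2, h3⟩ := cyl_crit_eq hΨ hd
  simp only at h1 h2 h3
  have hA1 : (ε ^ 2 + b ^ 2) + hc t0 ≤ A * hc t0 := by
    have h4 : ((ε ^ 2 + b ^ 2) / hc t0 + 1) * hc t0 = (ε ^ 2 + b ^ 2) + hc t0 := by
      field_simp
    rw [← h4]
    gcongr
  have hA0 : 0 < A := by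
    have : (0 : ℝ) ≤ (ε ^ 2 + b ^ 2) / hc t0 := by positivity
    linarith
  set L : ℝ := (1 - s) * (Λ * hc (Ψ z)) with hL
  have hL0 : 0 ≤ L := mul_nonneg (by linarith) (mul_nonneg hΛ (hc_nonneg _))
  set e : ℝ := Real.exp (-L) with he
  have he0 : 0 < e := Real.exp_pos _
  have he1 : e ≤ 1 := by
    rw [he, Real.exp_le_one_iff]
    linarith
  set t : ℝ := ‖z‖ ^ 2 - R ^ 2 with ht
  have hval : A * hc t = ε ^ 2 + b ^ 2 * e := by
    have h4 : cyl Ψ R b Λ A ε (s, (z, ζ, τ)) = ‖ζ - conjE z‖ ^ 2 + ‖τ‖ ^ 2 * Real.exp L -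
        2 * b * τ.re + A * hc t - ε ^ 2 := rfl
    have h5 : ‖τ‖ ^ 2 = (b * e) ^ 2 := by
      rw [h2, Complex.norm_real, Real.norm_eq_abs, sq_abs]
    have h6 : τ.re = b * e := by rw [h2, Complex.ofReal_re]
    have h7 : e * Real.exp L = 1 := by
      rw [he, ← Real.exp_add, neg_add_cancel, Real.exp_zero]
    rw [h4, h1, sub_self, norm_zero, h5, h6] at hx
    have h8 : (b * e) ^ 2 * Real.exp L = b ^ 2 * e := by
      linear_combination (b ^ 2 * e) * h7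
    rw [h8] at hx
    nlinarith
  have hct : 0 < hc t := by
    by_contra hcon
    have h4 : hc t = 0 := le_antisymm (not_lt.1 hcon) (hc_nonneg t)
    rw [h4, mul_zero] at hval
    have : 0 < ε ^ 2 + b ^ 2 * e := by positivity
    linarith
  have htp : 0 < t := by
    by_contra hcon
    rw [hc_zero (not_lt.1 hcon)] at hct
    exact lt_irrefl _ hct
  have htt : t < t0 := by
    by_contra hcon
    have h4 := hc_mono (not_lt.1 hcon)
    have h5 : A * hc t0 ≤ A * hc t := mul_le_mul_of_nonneg_left h4 hA0.le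
    have h6 : b ^ 2 * e ≤ b ^ 2 * 1 := by gcongr
    linarith
  have hznorm : ‖z‖ ≤ R + 1 := by
    have h4 : ‖z‖ ^ 2 ≤ (R + 1) ^ 2 := by nlinarith
    exact (pow_le_pow_iff_left₀ (norm_nonneg _) (by positivity) two_ne_zero).1 h4
  have hMz := hM z (by rwa [mem_closedBall, dist_zero_right])
  have hMz' : -|M| ≤ deriv hc (Ψ z) * fderiv ℝ Ψ z z := by
    rw [Real.norm_eq_abs] at hMz
    have := (abs_le.1 (hMz.trans (le_abs_self M))).1
    exact this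
  -- the two terms
  have hT1 : -P ≤ b ^ 2 * e * ((1 - s) * (Λ * (deriv hc (Ψ z) * fderiv ℝ Ψ z z))) := by
    have h4 : 0 ≤ b ^ 2 * e * ((1 - s) * Λ) := by
      have : 0 ≤ 1 - s := by linarith
      positivity
    have h5 : b ^ 2 * e * ((1 - s) * Λ) ≤ b ^ 2 * Λ := by
      have h6 : e * (1 - s) ≤ 1 := by nlinarith
      calc b ^ 2 * e * ((1 - s) * Λ) = b ^ 2 * Λ * (e * (1 - s)) := by ring
        _ ≤ b ^ 2 * Λ * 1 := by gcongr
        _ = b ^ 2 * Λ := mul_one _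
    have h7 : b ^ 2 * e * ((1 - s) * Λ) * (-|M|) ≤
        b ^ 2 * e * ((1 - s) * Λ) * (deriv hc (Ψ z) * fderiv ℝ Ψ z z) :=
      mul_le_mul_of_nonneg_left hMz' h4
    have h8 : b ^ 2 * e * ((1 - s) * Λ) * |M| ≤ b ^ 2 * Λ * |M| :=
      mul_le_mul_of_nonneg_right h5 (abs_nonneg _)
    calc -P = -(b ^ 2 * Λ * |M|) := by rw [hP]
      _ ≤ b ^ 2 * e * ((1 - s) * Λ) * (-|M|) := by linarith
      _ ≤ _ := h7
      _ = _ := by ring
  have hT2 : 2 * R ^ 2 * ε ^ 2 / t ^ 2 ≤ A * (deriv hc t * (2 * ‖z‖ ^ 2)) := by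
    have h4 := hc_deriv_ge htp
    have h40 := hc_deriv_nonneg t
    have h5 : R ^ 2 ≤ ‖z‖ ^ 2 := by linarith
    have h6 : ε ^ 2 ≤ A * hc t := by
      rw [hval]
      have : 0 ≤ b ^ 2 * e := by positivity
      linarith
    calc 2 * R ^ 2 * ε ^ 2 / t ^ 2 ≤ 2 * R ^ 2 * (A * hc t) / t ^ 2 := by gcongr
      _ = A * (hc t / t ^ 2 * (2 * R ^ 2)) := by ring
      _ ≤ A * (deriv hc t * (2 * ‖z‖ ^ 2)) := by gcongr
  have hT3 : P + 1 < 2 * R ^ 2 * ε ^ 2 / t ^ 2 := by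
    rw [lt_div_iff₀ (by positivity)]
    have h4 : t ^ 2 < t0 ^ 2 := pow_lt_pow_left₀ htt htp.le two_ne_zero
    nlinarith
  linarith

end OkaP
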