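import Pool.Agent.H.MP_ceb9a9.Psh0

/-!
# MP_ceb9a9: the cylinder domains (definitions)
-/

set_option autoImplicit false

open Set Metric Topology Filter
open scoped ContDiff ComplexConjugate

noncomputable section
namespace OkaP

/-- coordinatewise complex conjugation -/
def conjE {n : ℕ} : EuclideanSpace ℂ (Fin n) →L[ℝ] EuclideanSpace ℂ (Fin n) :=
  LinearMap.toContinuousLinearMap
    { toFun := fun z => WithLp.toLp 2 (fun i => conj (z i))
      map_add' := by
        intro x y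
        ext i
        simp
      map_smul' := by
        intro c x
        ext i
        simp }

theorem conjE_apply {n : ℕ} (z : EuclideanSpace ℂ (Fin n)) (i : Fin n) :
    conjE z i = conj (z i) := rfl

/-- the space of the variables `(z, ζ, τ)` -/
abbrev E3 (n : ℕ) : Type :=
  EuclideanSpace ℂ (Fin n) × EuclideanSpace ℂ (Fin n) × ℂ

/-- the family of defining functions
`‖ζ - conj z‖² + |τ|² exp((1-s) Λ hc(Ψ z)) - 2 b Re τ + A hc(‖z‖² - R²) - ε²` -/
def cyl {n : ℕ} (Ψ : EuclideanSpace ℂ (Fin n) → ℝ) (R b Λ A ε : ℝ) : ℝ × E3 n → ℝ := fun p =>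
  ‖p.2.2.1 - conjE p.2.1‖ ^ 2 + ‖p.2.2.2‖ ^ 2 * Real.exp ((1 - p.1) * (Λ * hc (Ψ p.2.1))) -
    2 * b * p.2.2.2.re + A * hc (‖p.2.1‖ ^ 2 - R ^ 2) - ε ^ 2

end OkaP
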