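import Pool.Agent.H.MP_ceb9a9.NcDefs

/-!
# MP_ceb9a9: one convex bump
-/

set_option autoImplicit false

open Set Metric Topology Filter
open scoped ContDiff

noncomputable section
namespace OkaP

variable {E : Type} [NormedAddCommGroup E] [NormedSpace ℂ E] [FiniteDimensional ℂ E]

omit [FiniteDimensional ℂ E] in
private theorem ncBump_smul {φ : E → ℝ} (hφ : ContDiff ℝ ∞ φ) (x v : E) (t : ℝ) :
    levi φ x (t • v) = t ^ 2 * levi φ x v := by
  unfold levi
  have h1 : ∀ u : E, D2 φ x (t • u) (t • u) = t ^ 2 * D2 φ x u u := by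
    intro u
    rw [D2_eq_fderiv_fderiv hφ.contDiffAt, D2_eq_fderiv_fderiv hφ.contDiffAt]
    simp only [map_smul, smul_apply, smul_eq_mul]
    ring
  have h2 : Complex.I • (t • v) = t • (Complex.I • v) := smul_comm _ _ _
  rw [h2, h1, h1]
  ring

omit [FiniteDimensional ℂ E] in
private theorem ncBump_zero {φ : E → ℝ} (x : E) : levi φ x 0 = 0 := by
  unfold levi D2
  simp

private theorem ncBump_psh {R : ℝ × E → ℝ} {Z O : Set E} (h : NcFamily R Z O) {s0 : ℝ}
    (hs0 : s0 ∈ Icc (0 : ℝ) 1) {b : E → ℝ} (hb : ContDiff ℝ ∞ b)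
    (hb' : HasCompactSupport (fun x => 1 - b x)) :
    ∀ᶠ p : ℝ × ℝ in 𝓝 (s0, s0), p.1 ∈ Icc (0 : ℝ) 1 →
      Psh (fun x => R (p.2, x) + b x * (R (p.1, x) - R (p.2, x))) := by
  have hprop : ProperSpace E := FiniteDimensional.proper ℂ E
  set F : (ℝ × ℝ) × E → ℝ := fun q => R (q.1.2, q.2) + b q.2 * (R (q.1.1, q.2) - R (q.1.2, q.2))
    with hFdef
  have hF : ContDiff ℝ ∞ F := by
    have h1 : ContDiff ℝ ∞ (fun q : (ℝ × ℝ) × E => R (q.1.1, q.2)) :=
      h.smooth.comp ((contDiff_fst.comp contDiff_fst).prodMk contDiff_snd)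
    have h2 : ContDiff ℝ ∞ (fun q : (ℝ × ℝ) × E => R (q.1.2, q.2)) :=
      h.smooth.comp ((contDiff_snd.comp contDiff_fst).prodMk contDiff_snd)
    exact h2.add ((hb.comp contDiff_snd).mul (h1.sub h2))
  have hD : Continuous (fun q : ((ℝ × ℝ) × E) × E => D2 (fun y => F (q.1.1, y)) q.1.2 q.2 q.2) := by
    have h1 := continuousOn_D2 (P := ℝ × ℝ) isOpen_univ hF.contDiffOn
    rw [univ_prod_univ, continuousOn_univ] at h1
    exact h1
  have hL : Continuous (fun q : ((ℝ × ℝ) × E) × E => levi (fun y => F (q.1.1, y)) q.1.2 q.2) := by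
    unfold levi
    have h1 : Continuous (fun q : ((ℝ × ℝ) × E) × E => (q.1, Complex.I • q.2)) := by fun_prop
    have h2 := hD.comp h1
    exact (hD.add h2).div_const 4
  have hcomp : IsCompact (tsupport (fun x => 1 - b x) ×ˢ sphere (0 : E) 1) :=
    hb'.isCompact.prod (isCompact_sphere 0 1)
  have hev : ∀ᶠ p : ℝ × ℝ in 𝓝 (s0, s0), ∀ y ∈ tsupport (fun x => 1 - b x) ×ˢ sphere (0 : E) 1,
      0 < levi (fun z => F (p, z)) y.1 y.2 := by
    refine hcomp.eventually_forall_of_forall_eventually (x₀ := (s0, s0))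
      (P := fun p y => 0 < levi (fun z => F (p, z)) y.1 y.2) ?_
    intro y hy
    have hv : y.2 ≠ 0 := by
      intro h0
      have := hy.2
      rw [h0] at this
      simp at this
    have h1 : 0 < levi (fun z => F ((s0, s0), z)) y.1 y.2 := by
      have h2 : (fun z => F ((s0, s0), z)) = fun z => R (s0, z) := by
        funext z
        simp [hFdef]
      rw [h2]
      exact h.pos s0 hs0 y.1 y.2 hv
    have h3 : Continuous (fun z : (ℝ × ℝ) × (E × E) =>
        levi (fun w => F (z.1, w)) z.2.1 z.2.2) := by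
      have h4 : Continuous (fun z : (ℝ × ℝ) × (E × E) => (((z.1, z.2.1), z.2.2) :
        ((ℝ × ℝ) × E) × E)) := by fun_prop
      exact hL.comp h4
    exact h3.continuousAt.eventually (lt_mem_nhds h1)
  filter_upwards [hev] with p hp hp1
  have hFp : ContDiff ℝ ∞ (fun x => F (p, x)) := hF.comp (contDiff_const.prodMk contDiff_id)
  refine ⟨hFp, ?_⟩
  intro x v
  show 0 ≤ levi (fun x => F (p, x)) x v
  by_cases hv : v = 0
  · rw [hv, ncBump_zero]
  by_cases hx : x ∈ tsupport (fun x => 1 - b x)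
  · have hvn : ‖v‖ ≠ 0 := norm_ne_zero_iff.2 hv
    have h1 := hp (x, (‖v‖⁻¹ : ℝ) • v) ⟨hx, by
      rw [mem_sphere_zero_iff_norm, norm_smul, norm_inv, norm_norm, inv_mul_cancel₀ hvn]⟩
    have h2 : v = ‖v‖ • ((‖v‖⁻¹ : ℝ) • v) := by
      rw [smul_smul, mul_inv_cancel₀ hvn, one_smul]
    rw [h2, ncBump_smul hFp]
    exact mul_nonneg (sq_nonneg _) h1.le
  · have h1 : (fun x => F (p, x)) =ᶠ[𝓝 x] fun z => R (p.1, z) := by
      have h2 := notMem_tsupport_iff_eventuallyEq.1 hx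
      filter_upwards [h2] with y hy
      have h3 : b y = 1 := by
        have : 1 - b y = 0 := hy
        linarith
      simp only [hFdef, h3]
      ring
    rw [levi_congr h1]
    exact (h.pos p.1 hp1 x v hv).le

omit [FiniteDimensional ℂ E] in
private theorem ncBump_compact {R : ℝ × E → ℝ} {Z O : Set E} (h : NcFamily R Z O) {t : ℝ}
    (ht : t ∈ Icc (0 : ℝ) 1) {φ : E → ℝ} (hφ : Continuous φ) (hle : ∀ x, R (t, x) ≤ φ x)
    {δ : ℝ} (hδ : δ ≤ 1) : IsCompact {x | φ x ≤ δ} := by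
  have h1 : IsCompact (Prod.snd '' {p : ℝ × E | p.1 ∈ Icc (0 : ℝ) 1 ∧ R p ≤ 1}) :=
    h.compact.image continuous_snd
  refine h1.of_isClosed_subset (isClosed_le hφ continuous_const) fun x hx => ?_
  have hx' : φ x ≤ δ := hx
  exact ⟨(t, x), ⟨ht, by linarith [hle x]⟩, rfl⟩

/-- one bump -/
theorem NcFamily.bump {R : ℝ × E → ℝ} {Z O : Set E} (h : NcFamily R Z O) {k : ℕ}
    (L : E ≃L[ℂ] EuclideanSpace ℂ (Fin k)) {s0 : ℝ} (hs0 : s0 ∈ Icc (0 : ℝ) 1) {x0 : E}
    (hx0 : R (s0, x0) = 0) (c : NarChart L (fun y => R (s0, y)) x0 (closure Z)ᶜ)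
    {a : E → ℝ} (ha : ContDiff ℝ ∞ a) (ha' : HasCompactSupport (fun x => 1 - a x))
    (ha1 : ∀ x, a x ∈ Icc (0 : ℝ) 1) {f : E → ℝ} (hf : ContDiff ℝ ∞ f)
    (hf1 : ∀ x, f x ∈ Icc (0 : ℝ) 1) (hfK : ∀ x, x ∉ c.K → f x = 0) :
    ∀ᶠ p : ℝ × ℝ in 𝓝 (s0, s0), p.1 ∈ Icc (0 : ℝ) 1 → p.2 ∈ Icc (0 : ℝ) 1 → p.1 ≤ p.2 →
      Nonempty (BumpData Z {x | R (p.2, x) + a x * (R (p.1, x) - R (p.2, x)) ≤ 0}
        {x | R (p.2, x) + a x * (1 - f x) * (R (p.1, x) - R (p.2, x)) ≤ 0}) := by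
  have hb : ContDiff ℝ ∞ (fun x => a x * (1 - f x)) := ha.mul (contDiff_const.sub hf)
  have hb' : HasCompactSupport (fun x => 1 - a x * (1 - f x)) := by
    have hfc : HasCompactSupport f := HasCompactSupport.intro c.K_compact hfK
    have h1 : HasCompactSupport (fun x => a x * f x) := hfc.mul_left
    have h2 : (fun x => 1 - a x * (1 - f x)) = fun x => (1 - a x) + a x * f x := by
      funext x
      ring
    rw [h2]
    exact ha'.add h1
  have hsl : ContDiff ℝ ∞ (fun y => R (s0, y)) := h.smooth.comp (contDiff_const.prodMk contDiff_id)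
  obtain ⟨xs, hxsK, hxs⟩ := c.exists_lt hsl (h.crit s0 hs0 x0 hx0)
  rw [hx0] at hxs
  have hev3 : ∀ᶠ p : ℝ × ℝ in 𝓝 (s0, s0), R (p.1, xs) < 0 := by
    have h1 : Continuous (fun p : ℝ × ℝ => R (p.1, xs)) := by
      have := h.smooth.continuous
      fun_prop
    exact h1.continuousAt.eventually (gt_mem_nhds hxs)
  have hFgen : ∀ b : E → ℝ, ContDiff ℝ ∞ b → ContDiff ℝ ∞ (fun q : (ℝ × ℝ) × E =>
      R (q.1.2, q.2) + b q.2 * (R (q.1.1, q.2) - R (q.1.2, q.2))) := by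
    intro b hb
    have h1 : ContDiff ℝ ∞ (fun q : (ℝ × ℝ) × E => R (q.1.1, q.2)) :=
      h.smooth.comp ((contDiff_fst.comp contDiff_fst).prodMk contDiff_snd)
    have h2 : ContDiff ℝ ∞ (fun q : (ℝ × ℝ) × E => R (q.1.2, q.2)) :=
      h.smooth.comp ((contDiff_snd.comp contDiff_fst).prodMk contDiff_snd)
    exact h2.add ((hb.comp contDiff_snd).mul (h1.sub h2))
  have hst1 := c.stable (P := ℝ × ℝ) (hFgen _ ha) (p0 := (s0, s0)) (fun x => by simp)
  have hst2 := c.stable (P := ℝ × ℝ) (hFgen _ hb) (p0 := (s0, s0)) (fun x => by simp)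
  filter_upwards [ncBump_psh h hs0 ha ha', ncBump_psh h hs0 hb hb', hev3, hst1, hst2] with
    p hp1 hp2 hp3 hp4 hp5 hI1 hI2 hle
  have hP1 := hp1 hI1
  have hP2 := hp2 hI1
  have hmono : ∀ x, 0 ≤ R (p.1, x) - R (p.2, x) := fun x => by
    linarith [h.anti p.1 hI1 p.2 hI2 hle x]
  -- inequalities
  have hA : ∀ x, R (p.2, x) ≤ R (p.2, x) + a x * (R (p.1, x) - R (p.2, x)) := fun x => by
    have := mul_nonneg (ha1 x).1 (hmono x)
    linarith
  have hB : ∀ x, R (p.2, x) ≤ R (p.2, x) + a x * (1 - f x) * (R (p.1, x) - R (p.2, x)) := fun x => by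
    have := mul_nonneg (mul_nonneg (ha1 x).1 (show 0 ≤ 1 - f x by linarith [(hf1 x).2])) (hmono x)
    linarith
  have hC : ∀ x, R (p.2, x) + a x * (1 - f x) * (R (p.1, x) - R (p.2, x)) ≤
      R (p.2, x) + a x * (R (p.1, x) - R (p.2, x)) := fun x => by
    have h1 := mul_nonneg (mul_nonneg (ha1 x).1 (hf1 x).1) (hmono x)
    nlinarith
  have hD : ∀ x, R (p.2, x) + a x * (R (p.1, x) - R (p.2, x)) ≤ R (p.1, x) := fun x => by
    have h1 := mul_nonneg (show 0 ≤ 1 - a x by linarith [(ha1 x).2]) (hmono x)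
    nlinarith
  have hoff : ∀ x, x ∉ c.K → R (p.2, x) + a x * (1 - f x) * (R (p.1, x) - R (p.2, x)) =
      R (p.2, x) + a x * (R (p.1, x) - R (p.2, x)) := fun x hx => by
    rw [hfK x hx]
    ring
  obtain ⟨ψ₁, ψ₂, hψ₁, hψ₂, hKeq⟩ := c.K_eq
  have hDB : {x | R (p.2, x) + a x * (R (p.1, x) - R (p.2, x)) ≤ 0} ∩
      (c.K ∩ {x | R (p.2, x) + a x * (1 - f x) * (R (p.1, x) - R (p.2, x)) ≤ 0}) =
      c.K ∩ {x | R (p.2, x) + a x * (R (p.1, x) - R (p.2, x)) ≤ 0} := by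
    ext x
    simp only [mem_inter_iff, mem_ofPred_eq]
    constructor
    · rintro ⟨h1, h2, -⟩
      exact ⟨h2, h1⟩
    · rintro ⟨h1, h2⟩
      exact ⟨h2, h1, (hC x).trans h2⟩
  refine ⟨{
    B := c.K ∩ {x | R (p.2, x) + a x * (1 - f x) * (R (p.1, x) - R (p.2, x)) ≤ 0}
    W := c.W
    θ := c.θ
    compact_D := ncBump_compact h hI2 hP1.smooth.continuous hA zero_le_one
    compact_B := c.K_compact.inter_right (isClosed_le hP2.smooth.continuous continuous_const)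
    union := ?_
    ne := ?_
    pc_union := pshConvex_sublevel hP2 one_pos
      (ncBump_compact h hI2 hP2.smooth.continuous hB le_rfl)
    pc_inter := ?_
    W_open := c.W_open
    B_W := fun x hx => c.K_subset hx.1
    W_Z := ?_
    θ_hol := (c.θ_smooth.differentiable (by simp)).differentiableOn
    θ_inj := ?_
    θ_der := c.der
    conv_B := hp5
    conv_C := ?_ }⟩
  · ext x
    simp only [mem_union, mem_inter_iff, mem_ofPred_eq]
    constructor
    · intro h1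
      by_cases hx : x ∈ c.K
      · exact Or.inr ⟨hx, h1⟩
      · left
        rw [hoff x hx] at h1
        exact h1
    · rintro (h1 | h1)
      · exact (hC x).trans h1
      · exact h1.2
  · refine ⟨xs, ?_⟩
    rw [hDB]
    exact ⟨hxsK, (hD xs).trans hp3.le⟩
  · rw [hDB]
    have h1 : c.K ∩ {x | R (p.2, x) + a x * (R (p.1, x) - R (p.2, x)) ≤ 0} =
        {x | R (p.2, x) + a x * (R (p.1, x) - R (p.2, x)) ≤ 0 ∧ ψ₁ x ≤ 0 ∧ ψ₂ x ≤ 0} := by
      rw [hKeq]
      ext x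
      simp only [mem_inter_iff, mem_ofPred_eq]
      tauto
    rw [h1]
    exact pshConvex_inter2 hP1 one_pos
      (ncBump_compact h hI2 hP1.smooth.continuous hA le_rfl) hψ₁ hψ₂
  · rw [Set.disjoint_left]
    intro x hx hxZ
    exact c.W_sub hx (subset_closure hxZ)
  · intro x hx y hy hxy
    rw [← c.left x hx, ← c.left y hy, hxy]
  · rw [hDB]
    exact hp4

end OkaP
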