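import Pool.Agent.H.MP_ceb9a9.NcCover
import Pool.Agent.H.MP_ceb9a9.NcBump

/-!
# MP_ceb9a9: noncritical deformations are finite sequences of convex bumps
-/

set_option autoImplicit false

open Set Metric Topology Filter
open scoped ContDiff

noncomputable section
namespace OkaP

variable {E : Type} [NormedAddCommGroup E] [NormedSpace ℂ E] [FiniteDimensional ℂ E]

/-- products of the cutoffs -/
def NcThm_a {N : ℕ} (f : Fin N → E → ℝ) (j : ℕ) (x : E) : ℝ :=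
  ∏ i ∈ Finset.range j, (1 - if h : i < N then f ⟨i, h⟩ x else 0)

theorem NcThm_a_zero {N : ℕ} (f : Fin N → E → ℝ) (x : E) : NcThm_a f 0 x = 1 := by
  simp [NcThm_a]

theorem NcThm_a_succ {N : ℕ} (f : Fin N → E → ℝ) {j : ℕ} (hj : j < N) (x : E) :
    NcThm_a f (j + 1) x = NcThm_a f j x * (1 - f ⟨j, hj⟩ x) := by
  simp only [NcThm_a]
  rw [Finset.prod_range_succ, dif_pos hj]

theorem NcThm_a_mem {N : ℕ} {f : Fin N → E → ℝ} (hf : ∀ i y, f i y ∈ Icc (0 : ℝ) 1) (j : ℕ)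
    (x : E) : NcThm_a f j x ∈ Icc (0 : ℝ) 1 := by
  have h : ∀ i, 0 ≤ (1 - if h : i < N then f ⟨i, h⟩ x else 0) ∧
      (1 - if h : i < N then f ⟨i, h⟩ x else 0) ≤ 1 := by
    intro i
    by_cases h : i < N
    · rw [dif_pos h]
      have := hf ⟨i, h⟩ x
      exact ⟨by linarith [this.2], by linarith [this.1]⟩
    · rw [dif_neg h]; norm_num
  exact ⟨Finset.prod_nonneg fun i _ => (h i).1,
    Finset.prod_le_one (fun i _ => (h i).1) fun i _ => (h i).2⟩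

theorem NcThm_a_smooth {N : ℕ} {f : Fin N → E → ℝ} (hf : ∀ i, ContDiff ℝ ∞ (f i)) (j : ℕ) :
    ContDiff ℝ ∞ (NcThm_a f j) := by
  have h : ∀ i ∈ Finset.range j,
      ContDiff ℝ ∞ (fun x => 1 - if h : i < N then f ⟨i, h⟩ x else 0) := by
    intro i _
    by_cases h : i < N
    · simp only [dif_pos h]
      exact contDiff_const.sub (hf _)
    · simp only [dif_neg h]
      exact contDiff_const
  exact contDiff_prod h

theorem NcThm_a_support {N : ℕ} {f : Fin N → E → ℝ} {K : Fin N → Set E}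
    (hK : ∀ i, IsCompact (K i)) (hf : ∀ i y, y ∉ K i → f i y = 0) (j : ℕ) :
    HasCompactSupport (fun x => 1 - NcThm_a f j x) := by
  refine HasCompactSupport.intro (K := ⋃ i, K i) (isCompact_iUnion hK) fun x hx => ?_
  have h : NcThm_a f j x = 1 := by
    simp only [NcThm_a]
    refine Finset.prod_eq_one fun i _ => ?_
    by_cases h : i < N
    · rw [dif_pos h, hf ⟨i, h⟩ x fun h' => hx (mem_iUnion.2 ⟨_, h'⟩), sub_zero]
    · rw [dif_neg h, sub_zero]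
  rw [h, sub_self]

theorem NcThm_a_eq_zero {N : ℕ} {f : Fin N → E → ℝ} {x : E} (h : ∃ i, f i x = 1) :
    NcThm_a f N x = 0 := by
  obtain ⟨i, hi⟩ := h
  refine Finset.prod_eq_zero (Finset.mem_range.2 i.2) ?_
  rw [dif_pos i.2]
  simp only [Fin.eta, hi, sub_self]

/-- the last step: away from `O` and `U` the sign does not change -/
theorem NcFamily.NcThm_sign {R : ℝ × E → ℝ} {Z O : Set E} (h : NcFamily R Z O) {U : Set E}
    (hU : IsOpen U) {s0 : ℝ} (hcov : ∀ y, R (s0, y) = 0 → y ∉ O → y ∈ U) :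
    ∀ᶠ p : ℝ × ℝ in 𝓝 (s0, s0), p.2 ∈ Icc (0 : ℝ) 1 → ∀ x, x ∉ O → x ∉ U →
      R (p.2, x) ≤ 0 → R (p.1, x) ≤ 0 := by
  set S : Set (ℝ × E) := {p : ℝ × E | p.1 ∈ Icc (0 : ℝ) 1 ∧ R p ≤ 1} ∩
    {p : ℝ × E | R p ≤ 0 ∧ p.2 ∈ Oᶜ ∩ Uᶜ} with hS
  have hScl : IsClosed {p : ℝ × E | R p ≤ 0 ∧ p.2 ∈ Oᶜ ∩ Uᶜ} :=
    (isClosed_le h.smooth.continuous continuous_const).inter
      ((h.O_open.isClosed_compl.inter hU.isClosed_compl).preimage continuous_snd)
  have hSc : IsCompact S := h.compact.inter_right hScl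
  have hH : IsCompact (Prod.snd '' S) := hSc.image continuous_snd
  have hev := hH.eventually_forall_of_forall_eventually (x₀ := (s0, s0))
    (P := fun (p : ℝ × ℝ) (x : E) => R (p.2, x) ≤ 0 → R (p.1, x) ≤ 0) (by
      rintro x ⟨q, hq, rfl⟩
      have hne : R (s0, q.2) ≠ 0 := by
        intro h0
        exact hq.2.2.2 (hcov _ h0 hq.2.2.1)
      have hc1 : Continuous fun z : (ℝ × ℝ) × E => R (z.1.1, z.2) :=
        h.smooth.continuous.comp (by fun_prop)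
      have hc2 : Continuous fun z : (ℝ × ℝ) × E => R (z.1.2, z.2) :=
        h.smooth.continuous.comp (by fun_prop)
      rcases lt_or_gt_of_ne hne with h1 | h1
      · have h2 : ∀ᶠ z : (ℝ × ℝ) × E in 𝓝 ((s0, s0), q.2), R (z.1.1, z.2) < 0 :=
          hc1.continuousAt.eventually_lt continuousAt_const h1
        filter_upwards [h2] with z hz _
        exact hz.le
      · have h2 : ∀ᶠ z : (ℝ × ℝ) × E in 𝓝 ((s0, s0), q.2), 0 < R (z.1.2, z.2) :=
          continuousAt_const.eventually_lt hc2.continuousAt h1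
        filter_upwards [h2] with z hz hz'
        exact absurd hz' (not_le.2 hz))
  filter_upwards [hev] with p hp hp2 x hxO hxU hx
  refine hp x ⟨(p.2, x), ⟨⟨hp2, by linarith⟩, hx, hxO, hxU⟩, rfl⟩ hx

/-- the local theorem (`S0` is a fixed set contained in all the sublevel sets) -/
theorem NcFamily.loc {R : ℝ × E → ℝ} {Z O : Set E} (h : NcFamily R Z O)
    {S0 : Set E} (hS0 : ∀ s ∈ Icc (0 : ℝ) 1, ∀ x ∈ S0, R (s, x) ≤ 0)
    {Q : Set E → Set E → Prop} (hmono : ∀ D D', S0 ⊆ D' → D' ⊆ D → Q D D')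
    (htrans : ∀ D D' D'', Q D D' → Q D' D'' → Q D D'')
    (hbump : ∀ D D', S0 ⊆ D → Nonempty (BumpData Z D D') → Q D D') {s0 : ℝ}
    (hs0 : s0 ∈ Icc (0 : ℝ) 1) :
    ∀ᶠ p : ℝ × ℝ in 𝓝 (s0, s0), p.1 ∈ Icc (0 : ℝ) 1 → p.2 ∈ Icc (0 : ℝ) 1 → p.1 ≤ p.2 →
      Q {x | R (p.1, x) ≤ 0} {x | R (p.2, x) ≤ 0} := by
  let L : E ≃L[ℂ] EuclideanSpace ℂ (Fin (Module.finrank ℂ E)) :=
    ContinuousLinearEquiv.ofFinrankEq (by simp)
  obtain ⟨N, x, c, f, U, hx, hf, hf1, hfK, hU, hcov, hU1⟩ := h.exists_cover L hs0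
  have hb : ∀ᶠ p : ℝ × ℝ in 𝓝 (s0, s0), ∀ j : Fin N, p.1 ∈ Icc (0 : ℝ) 1 →
      p.2 ∈ Icc (0 : ℝ) 1 → p.1 ≤ p.2 →
      Nonempty (BumpData Z {x | R (p.2, x) + NcThm_a f j x * (R (p.1, x) - R (p.2, x)) ≤ 0}
        {x | R (p.2, x) + NcThm_a f (j + 1) x * (R (p.1, x) - R (p.2, x)) ≤ 0}) := by
    rw [eventually_all]
    intro j
    have h1 := h.bump L hs0 (hx j) (c j) (NcThm_a_smooth hf j)
      (NcThm_a_support (fun i => (c i).K_compact) hfK j) (NcThm_a_mem hf1 j) (hf j) (hf1 j)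
      (hfK j)
    have h2 : ∀ y, NcThm_a f (j + 1) y = NcThm_a f j y * (1 - f j y) := fun y =>
      NcThm_a_succ f j.2 y
    simp only [h2]
    exact h1
  filter_upwards [hb, h.NcThm_sign hU hcov] with p hp hsign hp1 hp2 hp12
  have hS0j : ∀ j : ℕ,
      S0 ⊆ {x | R (p.2, x) + NcThm_a f j x * (R (p.1, x) - R (p.2, x)) ≤ 0} := by
    intro j y hy
    simp only [mem_setOf_eq]
    have h1 := hS0 _ hp1 y hy
    have h2 := hS0 _ hp2 y hy
    obtain ⟨h3, h4⟩ := NcThm_a_mem hf1 j y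
    nlinarith [mul_nonneg h3 (neg_nonneg.2 h1), mul_nonneg (sub_nonneg.2 h4) (neg_nonneg.2 h2)]
  have hstep : ∀ j : ℕ, j ≤ N → Q {x | R (p.1, x) ≤ 0}
      {x | R (p.2, x) + NcThm_a f j x * (R (p.1, x) - R (p.2, x)) ≤ 0} := by
    intro j
    induction j with
    | zero =>
      intro _
      apply hmono _ _ (hS0j 0)
      intro y hy
      simp only [mem_setOf_eq, NcThm_a_zero] at hy ⊢
      linarith
    | succ j ih =>
      intro hj
      exact htrans _ _ _ (ih (by omega))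
        (hbump _ _ (hS0j j) (hp ⟨j, by omega⟩ hp1 hp2 hp12))
  refine htrans _ _ _ (hstep N le_rfl) (hmono _ _ (fun y hy => hS0 _ hp2 y hy) ?_)
  intro y hy
  simp only [mem_setOf_eq] at hy ⊢
  by_cases hyO : y ∈ O
  · have h1 : R (p.1, y) - R (p.2, y) = 0 := by
      rw [h.fix _ hp1 y hyO, h.fix _ hp2 y hyO, sub_self]
    rw [h1, mul_zero, add_zero]
    exact hy
  by_cases hyU : y ∈ U
  · rw [NcThm_a_eq_zero (hU1 y hyU), zero_mul, add_zero]
    exact hy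
  · have h1 := hsign hp2 y hyO hyU hy
    obtain ⟨h2, h3⟩ := NcThm_a_mem hf1 N y
    nlinarith [mul_nonneg h2 (neg_nonneg.2 h1), mul_nonneg (sub_nonneg.2 h3) (neg_nonneg.2 hy)]

/-- the theorem on noncritical deformations -/
theorem nc_theorem {R : ℝ × E → ℝ} {Z O : Set E} (h : NcFamily R Z O)
    {S0 : Set E} (hS0 : ∀ s ∈ Icc (0 : ℝ) 1, ∀ x ∈ S0, R (s, x) ≤ 0)
    {Q : Set E → Set E → Prop} (hmono : ∀ D D', S0 ⊆ D' → D' ⊆ D → Q D D')
    (htrans : ∀ D D' D'', Q D D' → Q D' D'' → Q D D'')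
    (hbump : ∀ D D', S0 ⊆ D → Nonempty (BumpData Z D D') → Q D D') :
    Q {x | R (0, x) ≤ 0} {x | R (1, x) ≤ 0} := by
  have hloc : ∀ s0 : ℝ, s0 ∈ Icc (0 : ℝ) 1 → ∃ ε > 0, ∀ s ∈ ball s0 ε, ∀ t ∈ ball s0 ε,
      s ∈ Icc (0 : ℝ) 1 → t ∈ Icc (0 : ℝ) 1 → s ≤ t →
      Q {x | R (s, x) ≤ 0} {x | R (t, x) ≤ 0} := by
    intro s0 hs0
    have h1 := h.loc hS0 hmono htrans hbump hs0
    rw [nhds_prod_eq, Filter.Eventually, Metric.nhds_basis_ball.prod_self.mem_iff] at h1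
    obtain ⟨ε, hε, hsub⟩ := h1
    exact ⟨ε, hε, fun s hs t ht => hsub (mk_mem_prod hs ht)⟩
  choose! ε hε hQ using hloc
  obtain ⟨δ, hδ, hleb⟩ := lebesgue_number_lemma_of_metric (isCompact_Icc (a := (0 : ℝ)) (b := 1))
    (c := fun s0 : Icc (0 : ℝ) 1 => ball (s0 : ℝ) (ε s0)) (fun _ => isOpen_ball)
    (fun s hs => mem_iUnion.2 ⟨⟨s, hs⟩, mem_ball_self (hε s hs)⟩)
  obtain ⟨n, hn⟩ := exists_nat_one_div_lt hδ
  have hn1 : (0 : ℝ) < (n : ℝ) + 1 := by positivity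
  have hstep : ∀ k : ℕ, k ≤ n + 1 → Q {x | R (0, x) ≤ 0} {x | R ((k : ℝ) / (n + 1), x) ≤ 0} := by
    intro k
    induction k with
    | zero =>
      intro _
      have h0 : ((0 : ℕ) : ℝ) / ((n : ℝ) + 1) = 0 := by simp
      rw [h0]
      exact hmono _ _ (fun y hy => hS0 0 ⟨le_rfl, zero_le_one⟩ y hy) (fun y hy => hy)
    | succ k ih =>
      intro hk
      have hk1 : (k : ℝ) / (n + 1) ∈ Icc (0 : ℝ) 1 := by
        refine ⟨by positivity, ?_⟩
        rw [div_le_one hn1]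
        have : k ≤ n + 1 := by omega
        exact_mod_cast this
      have hk2 : ((k + 1 : ℕ) : ℝ) / (n + 1) ∈ Icc (0 : ℝ) 1 := by
        refine ⟨by positivity, ?_⟩
        rw [div_le_one hn1]
        exact_mod_cast hk
      have hd : ((k + 1 : ℕ) : ℝ) / (n + 1) - (k : ℝ) / (n + 1) = 1 / (n + 1) := by
        push_cast
        ring
      obtain ⟨i, hi⟩ := hleb _ hk1
      refine htrans _ _ _ (ih (by omega)) (hQ i i.2 _ (hi (mem_ball_self hδ)) _ (hi ?_) hk1 hk2 ?_)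
      · rw [mem_ball, Real.dist_eq, hd, abs_of_pos (by positivity)]
        exact hn
      · have : 0 < 1 / ((n : ℝ) + 1) := by positivity
        linarith
  have := hstep (n + 1) le_rfl
  have h1 : ((n + 1 : ℕ) : ℝ) / (n + 1) = 1 := by
    push_cast
    exact div_self hn1.ne'
  rwa [h1] at this

end OkaP
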