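import Pool.Agent.H.MP_ceb9a9.CylNeck
import Pool.Agent.H.MP_ceb9a9.CylC
import Pool.Agent.H.MP_ceb9a9.NcThm

/-!
# MP_ceb9a9: Theorem C3' (the cylinder domains for the Oka principle)
-/

set_option autoImplicit false

open Set Metric Topology Filter
open scoped ContDiff ComplexConjugate

noncomputable section
namespace OkaP

/-- THEOREM C3'. -/
theorem cyl_main {n : ℕ} {Ψ : EuclideanSpace ℂ (Fin n) → ℝ} (hΨ : Psh Ψ)
    {R R' r : ℝ} (hR : 0 < R) (hRR : R < R') (hr : 0 < r)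
    {a1 a2 a3 a4 : ℝ} (h1 : 0 < a1) (h12 : a1 < a2) (h23 : a2 < a3) (h34 : a3 < a4) :
    ∃ (b : ℝ) (P Q : Set (E3 n)), 0 < b ∧
      IsCompact P ∧ IsCompact Q ∧ PshConvex (P ∪ Q) ∧ PshConvex (P ∩ Q) ∧
      (∀ x ∈ P ∪ Q, ‖x.1‖ < R') ∧
      (∀ x ∈ P ∪ Q, a1 ≤ Ψ x.1 → ‖x.2.1 - conjE x.1‖ < r ∧ ‖x.2.2‖ < r) ∧
      (∀ x ∈ P, Ψ x.1 ≤ a2 ∨ a3 ≤ Ψ x.1) ∧ (∀ x ∈ Q, a1 ≤ Ψ x.1 ∧ Ψ x.1 ≤ a4) ∧
      ∀ r' > 0, ∃ D0 D1 : Set (E3 n), IsCompact D0 ∧ D0 ⊆ P ∪ Q ∧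
        (∀ x ∈ D0, a1 ≤ Ψ x.1 → ‖x.2.1 - conjE x.1‖ < r' ∧ ‖x.2.2‖ < r') ∧
        (∀ z : EuclideanSpace ℂ (Fin n), ‖z‖ ≤ R → Ψ z ≤ 0 → ((z, 0, (b : ℂ)) : E3 n) ∈ D0) ∧
        (∀ z : EuclideanSpace ℂ (Fin n), ‖z‖ ≤ R → ((z, 0, (b : ℂ)) : E3 n) ∈ D1) ∧
        ∀ (m : ℝ), 0 < m → ∀ T : Set (E3 n) → Set (E3 n) → Prop,
          (∀ D D', D0 ⊆ D' → D' ⊆ D → T D D') →
          (∀ D D' D'', T D D' → T D' D'' → T D D'') →
          (∀ D D', D0 ⊆ D → Nonempty (BumpData {x : E3 n | Ψ x.1 < -m} D D') → T D D') →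
          T D0 D1 := by
  set b : ℝ := R + 1 with hbdef
  have hb : 0 < b := by linarith
  obtain ⟨Λ0, A0, ε0, P, Q, hΛ0, hA0, hε0, hε01, hP, hQ, hPQ, hcU, hcI, hball, hthin, hPs, hQs⟩ :=
    exists_neck hΨ hR hRR hb hr h1 h12 h23 h34
  refine ⟨b, P, Q, hb, hP, hQ, hcU, hcI, hball, hthin, hPs, hQs, ?_⟩
  intro r' hr'
  obtain ⟨Λ1, hΛ1, ε1, hε1, hT⟩ := cyl_thin hb.le h1 hr'
  set Λ : ℝ := max Λ0 Λ1 with hΛdef
  set ε : ℝ := min ε0 ε1 with hεdef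
  have hΛ : 0 < Λ := lt_max_of_lt_left hΛ0
  have hε : 0 < ε := lt_min hε0 hε1
  obtain ⟨A1, hA1, hC⟩ := cyl_crit hΨ.smooth (b := b) hR hΛ.le hε
  set A : ℝ := max A0 A1 with hAdef
  have hA : 0 < A := lt_max_of_lt_left hA0
  have hΨc : Continuous Ψ := hΨ.smooth.continuous
  have hsmall : ∀ s ∈ Icc (0 : ℝ) 1, ∀ x : E3 n, cyl Ψ R b Λ A ε (0, x) ≤ 0 →
      cyl Ψ R b Λ A ε (s, x) ≤ 0 := fun s hs x hx =>
    (cyl_anti Ψ hΛ.le hs.1 x).trans hx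
  refine ⟨{x | cyl Ψ R b Λ A ε (0, x) ≤ 0}, {x | cyl Ψ R b Λ A ε (1, x) ≤ 0},
    cyl_compact_slice hΨc hΛ.le hA 0 ⟨le_rfl, zero_le_one⟩, ?_, ?_, ?_, ?_, ?_⟩
  · rw [hPQ]
    intro x hx
    exact (cyl_mono_param Ψ (le_max_left _ _) (le_max_left _ _) hε.le (min_le_left _ _) x).trans hx
  · intro x hx hax
    exact hT Λ (le_max_right _ _) ε ⟨hε, min_le_right _ _⟩ n Ψ R A hA.le x hax hx
  · intro z hz hΨz
    exact cyl_start hR.le (by linarith) hz hΨz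
  · intro z hz
    exact cyl_end hR.le (by linarith) hz
  · intro m hm T hmono htrans hbump
    have hfam : NcFamily (cyl Ψ R b Λ A ε) {x : E3 n | Ψ x.1 < -m} {x : E3 n | Ψ x.1 < 0} := by
      refine ⟨cyl_smooth hΨ.smooth _ _ _ _ _, ?_, cyl_compact hΨc hΛ.le hA 1, ?_, ?_, ?_, ?_, ?_⟩
      · intro s hs x v hv
        exact cyl_levi_pos hΨ hΛ.le hA.le hs.2 x hv
      · intro s hs t ht hst x
        exact cyl_anti Ψ hΛ.le hst x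
      · intro s hs x hx
        exact hC A (le_max_right _ _) s hs x hx
      · exact isOpen_lt (hΨc.comp continuous_fst) continuous_const
      · have hcl : IsClosed {x : E3 n | Ψ x.1 ≤ -m} :=
          isClosed_le (hΨc.comp continuous_fst) continuous_const
        refine (closure_minimal ?_ hcl).trans ?_
        · intro x hx
          have hx' : Ψ x.1 < -m := hx
          exact hx'.le
        · intro x hx
          have : Ψ x.1 ≤ -m := hx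
          show Ψ x.1 < 0
          linarith
      · intro s hs x hx
        have hx' : Ψ x.1 < 0 := hx
        exact cyl_fix Ψ 0 s hx'.le
    refine nc_theorem hfam (S0 := {x | cyl Ψ R b Λ A ε (0, x) ≤ 0}) ?_ hmono htrans hbump
    intro s hs x hx
    exact hsmall s hs x hx

end OkaP
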