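import Pool.Agent.H.MP_ceb9a9.Psh0

/-!
# MP_ceb9a9: psh-convexity of sublevel sets
-/

set_option autoImplicit false

open Set Metric Topology
open scoped ContDiff

noncomputable section
namespace OkaP

variable {E : Type} [NormedAddCommGroup E] [NormedSpace ℂ E]

private theorem pshT_const (c : ℝ) : Psh (fun _ : E => c) :=
  ⟨contDiff_const, fun x v => (levi_const c x v).ge⟩

private theorem pshT_list (l : List (E → ℝ)) (hl : ∀ ψ ∈ l, Psh ψ) {N : ℝ} (hN : 0 ≤ N) :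
    Psh (fun x => (l.map (fun ψ => hc (N * ψ x))).sum) := by
  induction l with
  | nil => simpa using pshT_const (E := E) 0
  | cons ψ l ih =>
    have h1 : Psh ψ := hl ψ (by simp)
    have h2 := ih (fun χ hχ => hl χ (by simp [hχ]))
    have h3 := ((h1.const_mul hN).hc_comp).add h2
    simpa using h3

private theorem pshT_sum_nonneg (l : List (E → ℝ)) (N : ℝ) (x : E) :
    0 ≤ (l.map (fun ψ => hc (N * ψ x))).sum := by
  induction l with
  | nil => simp
  | cons ψ l ih =>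
    simp only [List.map_cons, List.sum_cons]
    exact add_nonneg (hc_nonneg _) ih

private theorem pshT_le_sum (l : List (E → ℝ)) (N : ℝ) (x : E) {ψ : E → ℝ} (hψ : ψ ∈ l) :
    hc (N * ψ x) ≤ (l.map (fun ψ => hc (N * ψ x))).sum := by
  induction l with
  | nil => simp at hψ
  | cons χ l ih =>
    simp only [List.map_cons, List.sum_cons]
    rcases List.mem_cons.1 hψ with h | h
    · subst h
      linarith [pshT_sum_nonneg l N x]
    · linarith [ih h, hc_nonneg (N * χ x)]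

private theorem pshT_sum_le (l : List (E → ℝ)) (N : ℝ) (x : E) {c : ℝ}
    (h : ∀ ψ ∈ l, hc (N * ψ x) ≤ c) :
    (l.map (fun ψ => hc (N * ψ x))).sum ≤ l.length * c := by
  induction l with
  | nil => simp
  | cons χ l ih =>
    simp only [List.map_cons, List.sum_cons, List.length_cons, Nat.cast_add, Nat.cast_one]
    have h1 := h χ (by simp)
    have h2 := ih (fun ψ hψ => h ψ (by simp [hψ]))
    linarith

private theorem pshT_sum_zero (l : List (E → ℝ)) (N : ℝ) (x : E)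
    (h : ∀ ψ ∈ l, N * ψ x ≤ 0) : (l.map (fun ψ => hc (N * ψ x))).sum = 0 := by
  induction l with
  | nil => simp
  | cons χ l ih =>
    simp only [List.map_cons, List.sum_cons]
    rw [hc_zero (h χ (by simp)), ih (fun ψ hψ => h ψ (by simp [hψ])), add_zero]

/-- intersections of sublevel sets -/
theorem pshConvex_inter {φ : E → ℝ} (hφ : Psh φ) {δ : ℝ} (hδ : 0 < δ)
    (hc' : IsCompact {x | φ x ≤ δ}) (l : List (E → ℝ)) (hl : ∀ ψ ∈ l, Psh ψ) :
    PshConvex {x | φ x ≤ 0 ∧ ∀ ψ ∈ l, ψ x ≤ 0} := by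
  have hφc : Continuous φ := hφ.smooth.continuous
  have hclosed : IsClosed {x | φ x ≤ 0 ∧ ∀ ψ ∈ l, ψ x ≤ 0} := by
    have h1 : {x | φ x ≤ 0 ∧ ∀ ψ ∈ l, ψ x ≤ 0} =
        {x | φ x ≤ 0} ∩ ⋂ ψ ∈ l, {x | ψ x ≤ 0} := by
      ext x
      simp
    rw [h1]
    refine (isClosed_le hφc continuous_const).inter ?_
    exact isClosed_biInter fun ψ hψ => isClosed_le (hl ψ hψ).smooth.continuous continuous_const
  refine ⟨hc'.of_isClosed_subset hclosed fun x hx => hx.1.trans hδ.le, fun U hU hSU => ?_⟩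
  -- the constant beyond which `hc > 3/2`
  obtain ⟨C, hC0, hC⟩ : ∃ C : ℝ, 0 < C ∧ ∀ t, C < t → (3 / 2 : ℝ) < hc t := by
    obtain ⟨C, hC⟩ := Filter.eventually_atTop.1 (hc_tendsto.eventually_gt_atTop (3 / 2 : ℝ))
    exact ⟨max C 1, by positivity, fun t ht => hC t ((le_max_left C 1).trans ht.le)⟩
  -- the auxiliary function
  set G : E → ℝ := fun x => hc (1 * φ x) + (l.map (fun ψ => hc (1 * ψ x))).sum with hG
  have hGc : Continuous G :=
    ((hφ.const_mul zero_le_one).hc_comp.smooth.continuous).add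
      (pshT_list l hl zero_le_one).smooth.continuous
  have hGpos : ∀ x, x ∉ {x | φ x ≤ 0 ∧ ∀ ψ ∈ l, ψ x ≤ 0} → 0 < G x := by
    intro x hx
    by_cases h1 : φ x ≤ 0
    · have h2 : ∃ ψ ∈ l, 0 < ψ x := by
        by_contra h3
        push Not at h3
        exact hx ⟨h1, h3⟩
      obtain ⟨ψ, hψ, h4⟩ := h2
      have h5 := pshT_le_sum l 1 x hψ
      have h6 : 0 < hc (1 * ψ x) := hc_pos (by linarith)
      have h7 := hc_nonneg (1 * φ x)
      simp only [hG]
      linarith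
    · have h2 : 0 < hc (1 * φ x) := hc_pos (by linarith)
      have h3 := pshT_sum_nonneg l 1 x
      simp only [hG]
      linarith
  obtain ⟨m, hm0, hm⟩ : ∃ m : ℝ, 0 < m ∧ ∀ x, φ x ≤ δ → x ∉ U → m ≤ G x := by
    have hK : IsCompact ({x | φ x ≤ δ} \ U) := hc'.diff hU
    rcases ({x | φ x ≤ δ} \ U).eq_empty_or_nonempty with h0 | h0
    · refine ⟨1, one_pos, fun x hx hxU => ?_⟩
      have : x ∈ ({x | φ x ≤ δ} \ U) := ⟨hx, hxU⟩
      rw [h0] at this
      exact this.elim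
    · obtain ⟨x0, hx0, hmin⟩ := hK.exists_isMinOn h0 hGc.continuousOn
      exact ⟨G x0, hGpos x0 fun h => hx0.2 (hSU h), fun x hx hxU => hmin ⟨hx, hxU⟩⟩
  obtain ⟨ε, hε0, hεδ, hε⟩ : ∃ ε : ℝ, 0 < ε ∧ ε ≤ δ ∧ (1 + l.length) * hc ε < m := by
    have h1 : Filter.Tendsto (fun t : ℝ => (1 + (l.length : ℝ)) * hc t) (𝓝[>] 0) (𝓝 0) := by
      have h2 : Continuous (fun t : ℝ => (1 + (l.length : ℝ)) * hc t) :=
        continuous_const.mul hc_smooth.continuous
      have h3 := h2.tendsto 0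
      rw [hc_zero le_rfl, mul_zero] at h3
      exact h3.mono_left nhdsWithin_le_nhds
    have h4 := h1.eventually (gt_mem_nhds hm0)
    have h5 : ∀ᶠ t in 𝓝[>] (0 : ℝ), t ∈ Ioc 0 δ := Ioc_mem_nhdsGT hδ
    obtain ⟨ε, h6, h7⟩ := (h4.and h5).exists
    exact ⟨ε, h7.1, h7.2, h6⟩
  have hN0 : 0 < C / ε := div_pos hC0 hε0
  set ρ : E → ℝ := fun x => (hc (C / ε * φ x) + (l.map (fun ψ => hc (C / ε * ψ x))).sum) + (-1 / 2)
    with hρ
  have hρpsh : Psh ρ :=
    (((hφ.const_mul hN0.le).hc_comp).add (pshT_list l hl hN0.le)).add_const _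
  have hle : ∀ t : ℝ, hc (C / ε * t) ≤ 3 / 2 → t ≤ ε := by
    intro t ht
    by_contra h1
    push Not at h1
    have h2 : C < C / ε * t := by
      rw [div_mul_eq_mul_div, lt_div_iff₀ hε0]
      exact mul_lt_mul_of_pos_left h1 hC0
    linarith [hC _ h2]
  have hsub : ∀ x, ρ x ≤ 1 → φ x ≤ ε ∧ ∀ ψ ∈ l, ψ x ≤ ε := by
    intro x hx
    simp only [hρ] at hx
    refine ⟨hle _ ?_, fun ψ hψ => hle _ ?_⟩
    · linarith [pshT_sum_nonneg l (C / ε) x]
    · linarith [pshT_le_sum l (C / ε) x hψ, hc_nonneg (C / ε * φ x)]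
  refine ⟨ρ, hρpsh, ?_, ?_, ?_⟩
  · refine hc'.of_isClosed_subset (isClosed_le hρpsh.smooth.continuous continuous_const) ?_
    intro x hx
    exact (hsub x hx).1.trans hεδ
  · intro x hx
    have h1 : hc (C / ε * φ x) = 0 := hc_zero (mul_nonpos_of_nonneg_of_nonpos hN0.le hx.1)
    have h2 := pshT_sum_zero l (C / ε) x fun ψ hψ =>
      mul_nonpos_of_nonneg_of_nonpos hN0.le (hx.2 ψ hψ)
    show ρ x < 0
    simp only [hρ]
    rw [h1, h2]
    norm_num
  · intro x hx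
    by_contra hxU
    obtain ⟨h1, h2⟩ := hsub x hx
    have h3 := hm x (h1.trans hεδ) hxU
    have h4 : G x ≤ (1 + l.length) * hc ε := by
      have h5 : hc (1 * φ x) ≤ hc ε := hc_mono (by linarith)
      have h6 := pshT_sum_le l 1 x (c := hc ε) fun ψ hψ => hc_mono (by linarith [h2 ψ hψ])
      simp only [hG]
      linarith
    linarith

/-- sublevel sets of psh functions are psh-convex -/
theorem pshConvex_sublevel {φ : E → ℝ} (hφ : Psh φ) {δ : ℝ} (hδ : 0 < δ)
    (hc : IsCompact {x | φ x ≤ δ}) : PshConvex {x | φ x ≤ 0} := by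
  have h := pshConvex_inter hφ hδ hc [] (by simp)
  simpa using h

/-- intersection with two further sublevel sets -/
theorem pshConvex_inter2 {φ ψ₁ ψ₂ : E → ℝ} (hφ : Psh φ) {δ : ℝ} (hδ : 0 < δ)
    (hc : IsCompact {x | φ x ≤ δ}) (h₁ : Psh ψ₁) (h₂ : Psh ψ₂) :
    PshConvex {x | φ x ≤ 0 ∧ ψ₁ x ≤ 0 ∧ ψ₂ x ≤ 0} := by
  have h := pshConvex_inter hφ hδ hc [ψ₁, ψ₂] (by simp [h₁, h₂])
  simpa using h

end OkaP
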