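import Pool.Agent.H.MP_ceb9a9.CylA
import Pool.Agent.H.MP_ceb9a9.CylB
import Pool.Agent.H.MP_ceb9a9.PshConvT
import Pool.Agent.H.MP_ceb9a9.CutR

/-!
# MP_ceb9a9: the neck pair
-/

set_option autoImplicit false

open Set Metric Topology Filter
open scoped ContDiff ComplexConjugate

noncomputable section
namespace OkaP

/-- a smooth function which is constant outside a compact set has a bounded Levi form -/
private theorem cylNeck_levi {n : ℕ} {u : EuclideanSpace ℂ (Fin n) → ℝ} (hu : ContDiff ℝ ∞ u)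
    {S : Set (EuclideanSpace ℂ (Fin n))} (hS : IsCompact S)
    (h0 : ∀ x, x ∉ S → u =ᶠ[𝓝 x] fun _ => 1) :
    ∃ C : ℝ, 0 ≤ C ∧ ∀ x v, -(C * ‖v‖ ^ 2) ≤ levi u x v := by
  set b := (EuclideanSpace.basisFun (Fin n) ℂ).toBasis with hb
  obtain ⟨C, hC, h⟩ := levi_bound b hu hS
  refine ⟨C, hC, fun x v => ?_⟩
  by_cases hx : x ∈ S
  · have h1 := h x hx (fun j => v j)
    have h2 : ∑ j, v j • b j = v := by
      have h3 := (EuclideanSpace.basisFun (Fin n) ℂ).sum_repr v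
      simpa [hb] using h3
    have h3 : ∑ j, ‖v j‖ ^ 2 = ‖v‖ ^ 2 := by
      rw [EuclideanSpace.norm_sq_eq]
    rw [h2, h3] at h1
    exact (abs_le.1 h1).1
  · rw [levi_congr (h0 x hx), levi_const]
    have : 0 ≤ C * ‖v‖ ^ 2 := by positivity
    linarith

/-- a psh function on `E3`, negative near `Δ` exactly over the shells `{a1 < Ψ < a2}` and
`{a3 < Ψ < a4}`. -/
theorem exists_neckC {n : ℕ} {Ψ : EuclideanSpace ℂ (Fin n) → ℝ} (hΨ : ContDiff ℝ ∞ Ψ)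
    {R' a1 a2 a3 a4 : ℝ} (h12 : a1 < a2) (h23 : a2 < a3) (h34 : a3 < a4) :
    ∃ (K : ℝ) (ρC : E3 n → ℝ), 0 < K ∧ Psh ρC ∧
      (∀ x : E3 n, ‖x.1‖ ≤ R' → ρC x = K * (‖x.2.1 - conjE x.1‖ ^ 2 + ‖x.2.2‖ ^ 2) +
        (Ψ x.1 - a1) * (Ψ x.1 - a2) * ((Ψ x.1 - a3) * (Ψ x.1 - a4))) := by
  obtain ⟨θ, hθ, hθc, -, hθ1, -⟩ := exists_cutR (E := EuclideanSpace ℂ (Fin n)) one_pos R'
  set u : EuclideanSpace ℂ (Fin n) → ℝ := fun z =>
    θ z * ((Ψ z - a1) * (Ψ z - a2) * ((Ψ z - a3) * (Ψ z - a4))) + (1 - θ z) with hu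
  have hus : ContDiff ℝ ∞ u := by
    have h1 : ∀ a : ℝ, ContDiff ℝ ∞ fun z => Ψ z - a := fun a => hΨ.sub contDiff_const
    exact (hθ.mul (((h1 a1).mul (h1 a2)).mul ((h1 a3).mul (h1 a4)))).add
      (contDiff_const.sub hθ)
  obtain ⟨C, hC0, hC⟩ := cylNeck_levi hus (S := tsupport θ) hθc (by
    intro x hx
    have h0 : θ =ᶠ[𝓝 x] 0 := notMem_tsupport_iff_eventuallyEq.mp hx
    filter_upwards [h0] with z hz
    simp [hu, hz])
  have hd2 : ContDiff ℝ ∞ (fun x : E3 n => ‖x.2.1 - conjE x.1‖ ^ 2) := contDiff_dist2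
  have ht2 : ContDiff ℝ ∞ (fun x : E3 n => ‖x.2.2‖ ^ 2) :=
    (contDiff_snd.comp contDiff_snd).norm_sq ℝ
  have hu1 : ContDiff ℝ ∞ (fun x : E3 n => u x.1) := hus.comp contDiff_fst
  refine ⟨C + 1, fun x => (C + 1) * (‖x.2.1 - conjE x.1‖ ^ 2 + ‖x.2.2‖ ^ 2) + u x.1,
    by positivity, ⟨?_, ?_⟩, ?_⟩
  · exact (contDiff_const.mul (hd2.add ht2)).add hu1
  · intro x v
    have e1 : levi (fun x : E3 n => (C + 1) * (‖x.2.1 - conjE x.1‖ ^ 2 + ‖x.2.2‖ ^ 2) + u x.1) x v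
        = (C + 1) * ((‖v.1‖ ^ 2 + ‖v.2.1‖ ^ 2) + ‖v.2.2‖ ^ 2) + levi u x.1 v.1 := by
      have e2 : levi (fun x : E3 n => ‖x.2.2‖ ^ 2) x v = ‖v.2.2‖ ^ 2 := by
        have e3 := levi_comp_linear (E := E3 n) (F := ℂ)
          ((ContinuousLinearMap.snd ℂ (EuclideanSpace ℂ (Fin n)) ℂ).comp
            (ContinuousLinearMap.snd ℂ (EuclideanSpace ℂ (Fin n))
              (EuclideanSpace ℂ (Fin n) × ℂ)))
          (f := fun z : ℂ => ‖z‖ ^ 2) (x := x) ((contDiff_norm_sq ℝ).contDiffAt) v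
        exact e3.trans (levi_normSq _ _)
      have e4 : levi (fun x : E3 n => u x.1) x v = levi u x.1 v.1 :=
        levi_comp_linear (E := E3 n) (F := EuclideanSpace ℂ (Fin n))
          (ContinuousLinearMap.fst ℂ (EuclideanSpace ℂ (Fin n))
            (EuclideanSpace ℂ (Fin n) × ℂ)) (f := u) (x := x) hus.contDiffAt v
      rw [levi_add (contDiff_const.mul (hd2.add ht2)).contDiffAt hu1.contDiffAt,
        levi_const_mul, levi_add hd2.contDiffAt ht2.contDiffAt, levi_dist2, e2, e4]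
    rw [e1]
    have h1 := hC x.1 v.1
    have h2 : 0 ≤ (C + 1) * (‖v.2.1‖ ^ 2 + ‖v.2.2‖ ^ 2) := by positivity
    have h3 : 0 ≤ ‖v.1‖ ^ 2 := by positivity
    linarith
  · intro x hx
    have h1 : θ x.1 = 1 := hθ1 x.1 (by rwa [mem_closedBall, dist_zero_right])
    simp [hu, h1]

private theorem cylNeck_quart {a1 a2 a3 a4 t : ℝ} (h12 : a1 < a2) (h23 : a2 < a3) (h34 : a3 < a4)
    (h : (t - a1) * (t - a2) * ((t - a3) * (t - a4)) ≤ 0) :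
    a1 ≤ t ∧ t ≤ a4 ∧ (t ≤ a2 ∨ a3 ≤ t) := by
  refine ⟨?_, ?_, ?_⟩
  · by_contra hc
    push Not at hc
    have h1 : 0 < (t - a1) * (t - a2) := mul_pos_of_neg_of_neg (by linarith) (by linarith)
    have h2 : 0 < (t - a3) * (t - a4) := mul_pos_of_neg_of_neg (by linarith) (by linarith)
    linarith [mul_pos h1 h2]
  · by_contra hc
    push Not at hc
    have h1 : 0 < (t - a1) * (t - a2) := mul_pos (by linarith) (by linarith)
    have h2 : 0 < (t - a3) * (t - a4) := mul_pos (by linarith) (by linarith)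
    linarith [mul_pos h1 h2]
  · by_contra hc
    push Not at hc
    have h1 : 0 < (t - a1) * (t - a2) := mul_pos (by linarith) (by linarith)
    have h2 : 0 < (t - a3) * (t - a4) := mul_pos_of_neg_of_neg (by linarith) (by linarith)
    linarith [mul_pos h1 h2]

/-- the neck pair -/
theorem exists_neck {n : ℕ} {Ψ : EuclideanSpace ℂ (Fin n) → ℝ} (hΨ : Psh Ψ)
    {R R' b r : ℝ} (hR : 0 < R) (hRR : R < R') (hb : 0 < b) (hr : 0 < r)
    {a1 a2 a3 a4 : ℝ} (h1 : 0 < a1) (h12 : a1 < a2) (h23 : a2 < a3) (h34 : a3 < a4) :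
    ∃ (Λ0 A0 ε0 : ℝ) (P Q : Set (E3 n)), 0 < Λ0 ∧ 0 < A0 ∧ 0 < ε0 ∧ ε0 ≤ 1 ∧
      IsCompact P ∧ IsCompact Q ∧ P ∪ Q = {x | cyl Ψ R b Λ0 A0 ε0 (0, x) ≤ 0} ∧
      PshConvex (P ∪ Q) ∧ PshConvex (P ∩ Q) ∧
      (∀ x ∈ P ∪ Q, ‖x.1‖ < R') ∧
      (∀ x ∈ P ∪ Q, a1 ≤ Ψ x.1 → ‖x.2.1 - conjE x.1‖ < r ∧ ‖x.2.2‖ < r) ∧
      (∀ x ∈ P, Ψ x.1 ≤ a2 ∨ a3 ≤ Ψ x.1) ∧ (∀ x ∈ Q, a1 ≤ Ψ x.1 ∧ Ψ x.1 ≤ a4) := by
  obtain ⟨K, ρC, hK, hρC, hρCe⟩ := exists_neckC (R' := R') hΨ.smooth h12 h23 h34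
  set m1 : ℝ := (a1 + a2) / 2 with hm1
  set m2 : ℝ := (a3 + a4) / 2 with hm2
  set q : ℝ → ℝ := fun t => (t - a1) * (t - a2) * ((t - a3) * (t - a4)) with hq
  have hq1 : q m1 < 0 := by
    have e1 : (m1 - a1) * (m1 - a2) < 0 := mul_neg_of_pos_of_neg (by linarith) (by linarith)
    have e2 : 0 < (m1 - a3) * (m1 - a4) := mul_pos_of_neg_of_neg (by linarith) (by linarith)
    exact mul_neg_of_neg_of_pos e1 e2
  have hq2 : q m2 < 0 := by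
    have e1 : 0 < (m2 - a1) * (m2 - a2) := mul_pos (by linarith) (by linarith)
    have e2 : (m2 - a3) * (m2 - a4) < 0 := mul_neg_of_pos_of_neg (by linarith) (by linarith)
    exact mul_neg_of_pos_of_neg e1 e2
  obtain ⟨c, hc0, hc1, hc2⟩ : ∃ c > 0, q m1 ≤ -c ∧ q m2 ≤ -c :=
    ⟨min (-q m1) (-q m2), lt_min (by linarith) (by linarith),
      by have := min_le_left (-q m1) (-q m2); linarith,
      by have := min_le_right (-q m1) (-q m2); linarith⟩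
  obtain ⟨r', hr'0, hr'r, hr'c⟩ : ∃ r' > 0, r' ≤ r ∧ K * (r' ^ 2 + r' ^ 2) ≤ c := by
    refine ⟨min r (min 1 (c / (2 * K))), lt_min hr (lt_min one_pos (by positivity)),
      min_le_left _ _, ?_⟩
    set s := min r (min 1 (c / (2 * K))) with hs
    have hs0 : 0 < s := lt_min hr (lt_min one_pos (by positivity))
    have hs1 : s ≤ 1 := (min_le_right _ _).trans (min_le_left _ _)
    have hs2 : s ≤ c / (2 * K) := (min_le_right _ _).trans (min_le_right _ _)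
    rw [le_div_iff₀ (by positivity)] at hs2
    have hs3 : s ^ 2 ≤ s := by nlinarith
    nlinarith
  obtain ⟨Λ0, hΛ0, ε1, hε1, hthin⟩ := cyl_thin hb.le h1 hr'0
  obtain ⟨A0, hA0, hball⟩ := cyl_ball (b := b) hR.le hRR
  set ε0 : ℝ := min ε1 1 with hε0
  have hε0p : 0 < ε0 := lt_min hε1 one_pos
  have hε01 : ε0 ≤ 1 := min_le_right _ _
  set D : Set (E3 n) := {x | cyl Ψ R b Λ0 A0 ε0 (0, x) ≤ 0} with hD
  have hDc : IsCompact D := cyl_compact_slice hΨ.smooth.continuous hΛ0.le hA0 0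
    (s := 0) ⟨le_rfl, zero_le_one⟩
  have hDb : ∀ x ∈ D, ‖x.1‖ < R' := fun x hx =>
    hball A0 le_rfl ε0 ⟨hε0p, hε01⟩ n Ψ Λ0 0 hΛ0.le zero_le_one x hx
  have hDt : ∀ x ∈ D, a1 ≤ Ψ x.1 → ‖x.2.1 - conjE x.1‖ < r' ∧ ‖x.2.2‖ < r' := fun x hx ha =>
    hthin Λ0 le_rfl ε0 ⟨hε0p, min_le_left _ _⟩ n Ψ R A0 hA0.le x ha hx
  have hneg : ∀ x ∈ D, (Ψ x.1 = m1 ∨ Ψ x.1 = m2) → ρC x ≤ 0 := by
    intro x hx hm
    have ha : a1 ≤ Ψ x.1 := by
      rcases hm with hm | hm <;> rw [hm] <;> linarith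
    obtain ⟨e1, e2⟩ := hDt x hx ha
    have e3 : q (Ψ x.1) ≤ -c := by
      rcases hm with hm | hm <;> rw [hm] <;> assumption
    rw [hρCe x (hDb x hx).le]
    have e4 : ‖x.2.1 - conjE x.1‖ ^ 2 ≤ r' ^ 2 := pow_le_pow_left₀ (norm_nonneg _) e1.le 2
    have e5 : ‖x.2.2‖ ^ 2 ≤ r' ^ 2 := pow_le_pow_left₀ (norm_nonneg _) e2.le 2
    have e6 : K * (‖x.2.1 - conjE x.1‖ ^ 2 + ‖x.2.2‖ ^ 2) ≤ K * (r' ^ 2 + r' ^ 2) := by gcongr
    have e7 : (Ψ x.1 - a1) * (Ψ x.1 - a2) * ((Ψ x.1 - a3) * (Ψ x.1 - a4)) ≤ -c := e3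
    linarith
  have hquart : ∀ x ∈ D, ρC x ≤ 0 → a1 ≤ Ψ x.1 ∧ Ψ x.1 ≤ a4 ∧ (Ψ x.1 ≤ a2 ∨ a3 ≤ Ψ x.1) := by
    intro x hx hρ
    rw [hρCe x (hDb x hx).le] at hρ
    refine cylNeck_quart h12 h23 h34 ?_
    have : 0 ≤ K * (‖x.2.1 - conjE x.1‖ ^ 2 + ‖x.2.2‖ ^ 2) := by positivity
    linarith
  have hΨc : Continuous fun x : E3 n => Ψ x.1 := hΨ.smooth.continuous.comp continuous_fst
  have hρc : Continuous ρC := hρC.smooth.continuous
  set P : Set (E3 n) := D ∩ ({x | Ψ x.1 ≤ m1} ∪ ({x | m2 ≤ Ψ x.1} ∪ {x | ρC x ≤ 0})) with hP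
  set Q : Set (E3 n) := D ∩ (({x | m1 ≤ Ψ x.1} ∩ {x | Ψ x.1 ≤ m2}) ∪ {x | ρC x ≤ 0}) with hQ
  have hPQ : P ∪ Q = D := by
    ext x
    constructor
    · rintro (hx | hx)
      · exact hx.1
      · exact hx.1
    · intro hx
      by_cases e1 : Ψ x.1 ≤ m1
      · exact Or.inl ⟨hx, Or.inl e1⟩
      · by_cases e2 : m2 ≤ Ψ x.1
        · exact Or.inl ⟨hx, Or.inr (Or.inl e2)⟩
        · push Not at e1 e2
          exact Or.inr ⟨hx, Or.inl ⟨e1.le, e2.le⟩⟩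
  have hPiQ : P ∩ Q = {x | cyl Ψ R b Λ0 A0 ε0 (0, x) ≤ 0 ∧ ∀ ψ ∈ [ρC], ψ x ≤ 0} := by
    ext x
    simp only [List.mem_singleton, forall_eq, mem_ofPred_eq]
    constructor
    · rintro ⟨⟨hx, e1⟩, -, e2⟩
      refine ⟨hx, ?_⟩
      rcases e2 with ⟨e3, e4⟩ | e3
      · have e3' : m1 ≤ Ψ x.1 := e3
        have e4' : Ψ x.1 ≤ m2 := e4
        rcases e1 with e5 | e5 | e5
        · have e5' : Ψ x.1 ≤ m1 := e5
          exact hneg x hx (Or.inl (le_antisymm e5' e3'))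
        · have e5' : m2 ≤ Ψ x.1 := e5
          exact hneg x hx (Or.inr (le_antisymm e4' e5'))
        · exact e5
      · exact e3
    · rintro ⟨hx, e1⟩
      exact ⟨⟨hx, Or.inr (Or.inr e1)⟩, hx, Or.inr e1⟩
  have hcylpsh : Psh (fun y => cyl Ψ R b Λ0 A0 ε0 (0, y)) :=
    cyl_psh hΨ hΛ0.le hA0.le (s := 0) zero_le_one
  have hDc1 : IsCompact {x : E3 n | cyl Ψ R b Λ0 A0 ε0 (0, x) ≤ 1} :=
    cyl_compact_slice hΨ.smooth.continuous hΛ0.le hA0 1 (s := 0) ⟨le_rfl, zero_le_one⟩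
  refine ⟨Λ0, A0, ε0, P, Q, hΛ0, hA0, hε0p, hε01, ?_, ?_, hPQ, ?_, ?_, ?_, ?_, ?_, ?_⟩
  · exact hDc.inter_right ((isClosed_le hΨc continuous_const).union
      ((isClosed_le continuous_const hΨc).union (isClosed_le hρc continuous_const)))
  · exact hDc.inter_right (((isClosed_le continuous_const hΨc).inter
      (isClosed_le hΨc continuous_const)).union (isClosed_le hρc continuous_const))
  · rw [hPQ]
    exact pshConvex_sublevel hcylpsh one_pos hDc1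
  · rw [hPiQ]
    refine pshConvex_inter hcylpsh one_pos hDc1 [ρC] ?_
    intro ψ hψ
    rw [List.mem_singleton] at hψ
    rw [hψ]
    exact hρC
  · intro x hx
    rw [hPQ] at hx
    exact hDb x hx
  · intro x hx ha
    rw [hPQ] at hx
    obtain ⟨e1, e2⟩ := hDt x hx ha
    exact ⟨e1.trans_le hr'r, e2.trans_le hr'r⟩
  · rintro x ⟨hx, e1 | e1 | e1⟩
    · have e1' : Ψ x.1 ≤ m1 := e1
      left
      linarith
    · have e1' : m2 ≤ Ψ x.1 := e1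
      right
      linarith
    · exact (hquart x hx e1).2.2
  · rintro x ⟨hx, ⟨e1, e2⟩ | e1⟩
    · have e1' : m1 ≤ Ψ x.1 := e1
      have e2' : Ψ x.1 ≤ m2 := e2
      constructor <;> linarith
    · exact ⟨(hquart x hx e1).1, (hquart x hx e1).2.1⟩

end OkaP
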