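import Mathlib

/-!
# MP_ceb9a9: geometry side definitions (Levi form, psh functions, bump and handle data)
-/

set_option autoImplicit false

namespace OkaP

open Set Metric Topology

section General

variable {E : Type} [NormedAddCommGroup E] [NormedSpace ℂ E]

/-- second real derivative in the directions `v`, `w` -/
noncomputable def D2 (φ : E → ℝ) (x v w : E) : ℝ :=
  fderiv ℝ (fun y => fderiv ℝ φ y v) x w

/-- the Levi form (`levi` of the square of a Hermitian norm is the square of the norm) -/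
noncomputable def levi (φ : E → ℝ) (x v : E) : ℝ :=
  (D2 φ x v v + D2 φ x (Complex.I • v) (Complex.I • v)) / 4

/-- smooth plurisubharmonic functions on the whole space -/
structure Psh (φ : E → ℝ) : Prop where
  smooth : ContDiff ℝ ((⊤ : ℕ∞) : WithTop ℕ∞) φ
  nonneg : ∀ x v, 0 ≤ levi φ x v

/-- smooth plurisubharmonic functions on an open set -/
structure PshOn (φ : E → ℝ) (U : Set E) : Prop where
  smooth : ContDiffOn ℝ ((⊤ : ℕ∞) : WithTop ℕ∞) φ U
  nonneg : ∀ x ∈ U, ∀ v, 0 ≤ levi φ x v

/-- smooth strictly plurisubharmonic functions on an open set -/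
structure SPshOn (φ : E → ℝ) (U : Set E) : Prop where
  smooth : ContDiffOn ℝ ((⊤ : ℕ∞) : WithTop ℕ∞) φ U
  pos : ∀ x ∈ U, ∀ v, v ≠ 0 → 0 < levi φ x v

/-- compact sets with a neighbourhood basis of sublevel sets of smooth psh functions -/
def PshConvex (S : Set E) : Prop :=
  IsCompact S ∧ ∀ U : Set E, IsOpen U → S ⊆ U →
    ∃ ρ : E → ℝ, Psh ρ ∧ IsCompact {x | ρ x ≤ 1} ∧ S ⊆ {x | ρ x < 0} ∧ {x | ρ x ≤ 1} ⊆ U

end General

section Moves

variable {E : Type} [NormedAddCommGroup E] [NormedSpace ℂ E]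

/-- Data of a convex bump `D' = D ∪ B`: the bump and `D ∩ B` are convex in a holomorphic
coordinate `θ`, and everything happens in `W`, away from `Z`. -/
structure BumpData (Z D D' : Set E) where
  B : Set E
  W : Set E
  θ : E → E
  compact_D : IsCompact D
  compact_B : IsCompact B
  union : D' = D ∪ B
  ne : (D ∩ B).Nonempty
  pc_union : PshConvex D'
  pc_inter : PshConvex (D ∩ B)
  W_open : IsOpen W
  B_W : B ⊆ W
  W_Z : Disjoint W Z
  θ_hol : DifferentiableOn ℂ θ W
  θ_inj : InjOn θ W
  θ_der : ∀ x ∈ W, Function.Bijective (fderiv ℂ θ x)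
  conv_B : Convex ℝ (θ '' B)
  conv_C : Convex ℝ (θ '' (D ∩ B))

end Moves

end OkaP
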