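import Pool.Agent.H.MP_ceb9a9.Base
import Pool.Agent.H.MP_ceb9a9.Geom

/-!
# MP_ceb9a9: etale families, states, moves
-/

set_option autoImplicit false

open scoped Manifold

namespace OkaP

open Set Metric Topology

variable {m : ℕ} {X : Type} [MetricSpace X] [ChartedSpace (Fin m → ℂ) X]

/-- `Φ : T × ℂ^m → X` is a continuous family over `S` of holomorphic open embeddings of the
ball of radius `r`. -/
structure EtCont {T : Type} [TopologicalSpace T] (Φ : T × (Fin m → ℂ) → X) (S : Set T) (r : ℝ) :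
    Prop where
  cont : ContinuousOn Φ (S ×ˢ ball (0 : Fin m → ℂ) r)
  fib : ∀ x ∈ S, MDifferentiableOn 𝓘(ℂ, Fin m → ℂ) 𝓘(ℂ, Fin m → ℂ) (fun u => Φ (x, u))
    (ball (0 : Fin m → ℂ) r)
  inj : ∀ x ∈ S, InjOn (fun u => Φ (x, u)) (ball (0 : Fin m → ℂ) r)
  der : ∀ x ∈ S, ∀ u ∈ ball (0 : Fin m → ℂ) r,
    Function.Bijective (mfderiv 𝓘(ℂ, Fin m → ℂ) 𝓘(ℂ, Fin m → ℂ) (fun u => Φ (x, u)) u)

/-- holomorphic families of open embeddings of the ball of radius `r` -/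
structure EtHol {E : Type} [NormedAddCommGroup E] [NormedSpace ℂ E]
    (Φ : E × (Fin m → ℂ) → X) (U : Set E) (r : ℝ) : Prop extends EtCont Φ U r where
  hol : HolOn m Φ (U ×ˢ ball (0 : Fin m → ℂ) r)

/-- a state: a continuous family over the closed ball of radius `R1`, holomorphic near `D`,
whose base map avoids `p` on the ball minus `Z`. -/
structure State {E : Type} [NormedAddCommGroup E] [NormedSpace ℂ E] (p : X) (R1 : ℝ)
    (Z D : Set E) (G : E × (Fin m → ℂ) → X) (r : ℝ) : Prop where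
  rpos : 0 < r
  nhd : ∃ U1 : Set E, IsOpen U1 ∧ closedBall (0 : E) R1 ⊆ U1 ∧ EtCont G U1 r
  nhdD : ∃ UD : Set E, IsOpen UD ∧ D ⊆ UD ∧ EtHol G UD r
  avoid : ∀ x ∈ closedBall (0 : E) R1, x ∉ Z → G (x, 0) ≠ p

/-- homotopies of continuous families over `N` (germs at the zero section), base avoiding `p`
off `Z`. -/
def EtHtpy {m : ℕ} {X : Type} [MetricSpace X] [ChartedSpace (Fin m → ℂ) X] {T : Type}
    [TopologicalSpace T] (p : X) (Z N : Set T) (Φ0 Φ1 : T × (Fin m → ℂ) → X) : Prop :=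
  ∃ r > 0, ∃ Θ : (T × ℝ) × (Fin m → ℂ) → X,
    EtCont Θ (N ×ˢ Icc (0 : ℝ) 1) r ∧
    (∀ x ∈ N, ∀ u ∈ ball (0 : Fin m → ℂ) r, Θ ((x, 0), u) = Φ0 (x, u)) ∧
    (∀ x ∈ N, ∀ u ∈ ball (0 : Fin m → ℂ) r, Θ ((x, 1), u) = Φ1 (x, u)) ∧
    (∀ x ∈ N, x ∉ Z → ∀ s ∈ Icc (0 : ℝ) 1, Θ ((x, s), 0) ≠ p)

/-- every state on `D` can be moved to a state on `D'` with a small change on `Ecl` -/
def CanMove (m : ℕ) {X : Type} [MetricSpace X] [ChartedSpace (Fin m → ℂ) X] {E : Type} [NormedAddCommGroup E] [NormedSpace ℂ E] (p : X) (R1 : ℝ)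
    (Z Ecl D D' : Set E) : Prop :=
  ∀ (G : E × (Fin m → ℂ) → X) (r : ℝ), State p R1 Z D G r → ∀ η > 0,
    ∃ (G' : E × (Fin m → ℂ) → X) (r' : ℝ), State p R1 Z D' G' r' ∧
      ∀ x ∈ Ecl, dist (G' (x, 0)) (G (x, 0)) < η

theorem CanMove.trans {E : Type} [NormedAddCommGroup E] [NormedSpace ℂ E] {p : X} {R1 : ℝ}
    {Z Ecl D D' D'' : Set E} (h : CanMove m p R1 Z Ecl D D') (h' : CanMove m p R1 Z Ecl D' D'') :
    CanMove m p R1 Z Ecl D D'' := by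
  intro G r hG η hη
  obtain ⟨G', r', hG', hd⟩ := h G r hG (η / 2) (by positivity)
  obtain ⟨G'', r'', hG'', hd'⟩ := h' G' r' hG' (η / 2) (by positivity)
  refine ⟨G'', r'', hG'', fun x hx => ?_⟩
  calc dist (G'' (x, 0)) (G (x, 0)) ≤ dist (G'' (x, 0)) (G' (x, 0)) + dist (G' (x, 0)) (G (x, 0)) :=
        dist_triangle _ _ _
    _ < η / 2 + η / 2 := add_lt_add (hd' x hx) (hd x hx)
    _ = η := by ring

theorem CanMove.mono {E : Type} [NormedAddCommGroup E] [NormedSpace ℂ E] {p : X} {R1 : ℝ}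
    {Z Ecl D D' : Set E} (h : D' ⊆ D) : CanMove m p R1 Z Ecl D D' := by
  intro G r hG η hη
  refine ⟨G, r, ⟨hG.rpos, hG.nhd, ?_, hG.avoid⟩, fun x _ => by simpa using hη⟩
  obtain ⟨UD, h1, h2, h3⟩ := hG.nhdD
  exact ⟨UD, h1, h.trans h2, h3⟩

end OkaP
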