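import Pool.Agent.H.MP_ceb9a9.KeyIneq

/-!
# MP_ceb9a9, chapter 1: the duality inequality
-/

set_option autoImplicit false

open Set Metric Topology MeasureTheory
open scoped ContDiff

noncomputable section
namespace OkaP

variable {E : Type} [NormedAddCommGroup E] [NormedSpace ℂ E] [FiniteDimensional ℂ E]
  [MeasurableSpace E] [BorelSpace E] {μ : Measure E} [μ.IsAddHaarMeasure]

set_option linter.unusedSectionVars false

/-- finite families of square integrable functions. -/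
abbrev DualIneqH {E : Type} [MeasurableSpace E] (ι : Type) [Fintype ι] (μ : Measure E) : Type :=
  PiLp 2 (fun _ : ι => Lp ℂ 2 μ)

/-- the scalar product with the class of a square integrable function. -/
theorem dualIneq_inner {u : E → ℂ} (hu : MemLp u 2 μ) (f : Lp ℂ 2 μ) :
    inner ℂ (hu.toLp u) f = ∫ x, f x * (starRingEnd ℂ) (u x) ∂μ := by
  rw [L2.inner_def]
  refine integral_congr_ae ?_
  filter_upwards [hu.coeFn_toLp] with x hx
  rw [hx]
  simp

theorem dualIneq_integrable {u : E → ℂ} (hu : MemLp u 2 μ) (f : Lp ℂ 2 μ) :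
    Integrable (fun x => f x * (starRingEnd ℂ) (u x)) μ := by
  have h := L2.integrable_inner (𝕜 := ℂ) (hu.toLp u) f
  refine h.congr ?_
  filter_upwards [hu.coeFn_toLp] with x hx
  rw [hx]
  simp

theorem dualIneq_norm_sq (f : Lp ℂ 2 μ) : ‖f‖ ^ 2 = ∫ x, ‖f x‖ ^ 2 ∂μ := by
  have h1 : (inner ℂ f f : ℂ) = ((‖f‖ ^ 2 : ℝ) : ℂ) := by
    rw [inner_self_eq_norm_sq_to_K]; push_cast; rfl
  have h2 : (inner ℂ f f : ℂ) = ((∫ x, ‖f x‖ ^ 2 ∂μ : ℝ) : ℂ) := by
    rw [L2.inner_def, ← integral_complex_ofReal]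
    refine integral_congr_ae (Filter.Eventually.of_forall fun x => ?_)
    simp only
    rw [inner_self_eq_norm_sq_to_K]; push_cast; rfl
  exact_mod_cast h1.symm.trans h2

theorem dualIneq_norm_toLp {u : E → ℂ} (hu : MemLp u 2 μ) :
    ‖hu.toLp u‖ ^ 2 = ∫ x, ‖u x‖ ^ 2 ∂μ := by
  rw [dualIneq_norm_sq]
  refine integral_congr_ae ?_
  filter_upwards [hu.coeFn_toLp] with x hx
  rw [hx]

theorem dualIneq_wt_mul (φ : E → ℝ) (x : E) :
    wt φ x * wt φ x = ((Real.exp (-φ x) : ℝ) : ℂ) := by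
  rw [wt, ← Complex.ofReal_mul, ← Real.exp_add]
  congr 2
  ring

theorem dualIneq_wt_ne (φ : E → ℝ) (x : E) : wt φ x ≠ 0 := by
  rw [wt]
  exact_mod_cast (Real.exp_pos _).ne'

theorem dualIneq_wt_conj (φ : E → ℝ) (x : E) : (starRingEnd ℂ) (wt φ x) = wt φ x := by
  rw [wt, Complex.conj_ofReal]

theorem dualIneq_wt_norm (φ : E → ℝ) (x : E) : ‖wt φ x‖ ^ 2 = Real.exp (-φ x) := by
  rw [wt, Complex.norm_real, Real.norm_eq_abs, abs_of_pos (Real.exp_pos _), ← Real.exp_nat_mul]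
  congr 1
  push_cast
  ring

theorem dualIneq_wt_cont {φ : E → ℝ} (hφ : ContDiff ℝ ∞ φ) : Continuous (wt φ) := by
  unfold wt
  exact Complex.continuous_ofReal.comp (Real.continuous_exp.comp
    ((hφ.continuous.neg).div_const 2))

theorem dualIneq_memLp {u v : E → ℂ} (hu : Continuous u) (hv : Tst v) :
    MemLp (fun x => u x * v x) 2 μ :=
  (hu.mul hv.continuous).memLp_of_hasCompactSupport hv.2.mul_left

/-- duality inequality: `|(g, δ v)|² ≤ ‖∂̄ g‖² ‖δ v‖²` in the weighted norms, for a test function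
`g` and every test form `v` (not necessarily closed) -/
theorem dual_ineq {ι : Type} [Fintype ι] (b : ι → E) {φ : E → ℝ} (hφ : ContDiff ℝ ∞ φ)
    (hl : ∀ x, ∀ w : ι → ℂ, ∑ j, ‖w j‖ ^ 2 ≤ levi φ x (∑ j, w j • b j))
    {g : E → ℂ} (hg : Tst g) {v : ι → E → ℂ} (hv : ∀ j, Tst (v j)) :
    ‖∫ x, g x * (starRingEnd ℂ) (dl b φ v x) * ((Real.exp (-φ x) : ℝ) : ℂ) ∂μ‖ ^ 2 ≤
      (∑ j, ∫ x, ‖pb (b j) g x‖ ^ 2 * Real.exp (-φ x) ∂μ) *
        ∫ x, ‖dl b φ v x‖ ^ 2 * Real.exp (-φ x) ∂μ := by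
  classical
  have hφc := hφ.continuous
  have hwc : Continuous (wt φ) := dualIneq_wt_cont hφ
  have hwic : Continuous (fun x => (wt φ x)⁻¹) := hwc.inv₀ (dualIneq_wt_ne φ)
  -- the classes
  have hG : ∀ (ψ : E → ℂ), Tst ψ → ∀ j, MemLp (fun x => wt φ x * pb (b j) ψ x) 2 μ :=
    fun ψ hψ j => dualIneq_memLp hwc hψ.pb
  have hEm : ∀ (ψ : E → ℂ), Tst ψ → ∀ j,
      MemLp (fun x => (wt φ x)⁻¹ * (starRingEnd ℂ) (pb (b j) ψ x)) 2 μ :=
    fun ψ hψ j => dualIneq_memLp hwic (Tst.conj hψ.pb)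
  have hVm : ∀ j, MemLp (fun x => wt φ x * v j x) 2 μ := fun j => dualIneq_memLp hwc (hv j)
  let N : Submodule ℂ (DualIneqH ι μ) :=
    { carrier := {V | ∀ j k, ∀ (ψ : E → ℂ) (hψ : Tst ψ),
        inner ℂ ((hEm ψ hψ j).toLp _) (V k) = inner ℂ ((hEm ψ hψ k).toLp _) (V j)}
      add_mem' := by
        intro V W hV hW j k ψ hψ
        simp only [PiLp.add_apply, inner_add_right]
        rw [hV j k ψ hψ, hW j k ψ hψ]
      zero_mem' := by
        intro j k ψ hψ
        simp only [PiLp.zero_apply, inner_zero_right]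
      smul_mem' := by
        intro c V hV j k ψ hψ
        simp only [PiLp.smul_apply, inner_smul_right]
        rw [hV j k ψ hψ] }
  have hNmem : ∀ V : DualIneqH ι μ, V ∈ N ↔ ∀ j k, ∀ (ψ : E → ℂ) (hψ : Tst ψ),
        inner ℂ ((hEm ψ hψ j).toLp _) (V k) = inner ℂ ((hEm ψ hψ k).toLp _) (V j) :=
    fun V => Iff.rfl
  have hNclosed : IsClosed (N : Set (DualIneqH ι μ)) := by
    have h1 : (N : Set (DualIneqH ι μ)) = ⋂ (j : ι) (k : ι) (ψ : E → ℂ) (hψ : Tst ψ),
        {V : DualIneqH ι μ | inner ℂ ((hEm ψ hψ j).toLp _) (V k) = inner ℂ ((hEm ψ hψ k).toLp _) (V j)} := by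
      ext V
      simp only [SetLike.mem_coe, hNmem, mem_iInter, mem_ofPred_eq]
    rw [h1]
    refine isClosed_iInter fun j => isClosed_iInter fun k => isClosed_iInter fun ψ =>
      isClosed_iInter fun hψ => isClosed_eq ?_ ?_
    · exact Continuous.inner continuous_const (PiLp.continuous_apply 2 (fun _ : ι => Lp ℂ 2 μ) k)
    · exact Continuous.inner continuous_const (PiLp.continuous_apply 2 (fun _ : ι => Lp ℂ 2 μ) j)
  have : CompleteSpace N := hNclosed.completeSpace_coe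
  let G : ∀ (ψ : E → ℂ), Tst ψ → DualIneqH ι μ := fun ψ hψ => WithLp.toLp 2 (fun j => (hG ψ hψ j).toLp _)
  let Vt : DualIneqH ι μ := WithLp.toLp 2 (fun j => (hVm j).toLp _)
  have hGN : ∀ (ψ' : E → ℂ) (hψ' : Tst ψ'), G ψ' hψ' ∈ N := by
    intro ψ' hψ'
    rw [hNmem]
    intro j k ψ hψ
    have h1 : ∀ j k : ι, inner ℂ ((hEm ψ hψ j).toLp _) ((G ψ' hψ') k) =
        ∫ x, pb (b k) ψ' x * pb (b j) ψ x ∂μ := by
      intro j k
      rw [dualIneq_inner]
      refine integral_congr_ae ?_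
      have h2 : ((G ψ' hψ') k : E → ℂ) =ᵐ[μ] fun x => wt φ x * pb (b k) ψ' x :=
        (hG ψ' hψ' k).coeFn_toLp
      filter_upwards [h2] with x hx
      rw [hx, map_mul, map_inv₀, dualIneq_wt_conj, Complex.conj_conj]
      have := dualIneq_wt_ne φ x
      field_simp
    rw [h1 j k, h1 k j, ibp_pb (contDiff_pb hψ'.1) hψ, ibp_pb (contDiff_pb hψ'.1) hψ]
    congr 1
    refine integral_congr_ae (Filter.Eventually.of_forall fun x => ?_)
    simp only
    rw [pb_pb_comm hψ'.1]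
  -- the projection
  let V1 : DualIneqH ι μ := N.starProjection Vt
  have hV1N : V1 ∈ N := Submodule.starProjection_apply_mem N Vt
  have horth : ∀ W ∈ N, inner ℂ W V1 = inner ℂ W Vt := by
    intro W hW
    have h1 : inner ℂ W (Vt - V1) = 0 := by
      have h2 : Vt - V1 ∈ Nᗮ := Submodule.sub_starProjection_mem_orthogonal Vt
      exact Submodule.inner_right_of_mem_orthogonal hW h2
    rw [inner_sub_right, sub_eq_zero] at h1
    exact h1.symm
  have hinner : ∀ (ψ : E → ℂ) (hψ : Tst ψ) (W : DualIneqH ι μ), inner ℂ (G ψ hψ) W =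
      ∑ j, ∫ x, W j x * (starRingEnd ℂ) (wt φ x * pb (b j) ψ x) ∂μ := by
    intro ψ hψ W
    rw [PiLp.inner_apply]
    exact Finset.sum_congr rfl fun j _ => dualIneq_inner (hG ψ hψ j) (W j)
  -- the representative of the projection
  let v1 : ι → E → ℂ := fun j x => V1 j x * (wt φ x)⁻¹
  have hv1 : ∀ j x, v1 j x * wt φ x = V1 j x := by
    intro j x
    have := dualIneq_wt_ne φ x
    simp only [v1]
    field_simp
  have hkey : ∑ j, ∫ x, ‖v1 j x‖ ^ 2 * Real.exp (-φ x) ∂μ ≤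
      ∫ x, ‖dl b φ v x‖ ^ 2 * Real.exp (-φ x) ∂μ := by
    refine key_ineq b hφ hl ?_ ?_ ?_ ?_
    · intro j
      have h1 : (fun x => v1 j x * wt φ x) = fun x => V1 j x := funext fun x => hv1 j x
      rw [h1]
      exact Lp.memLp (V1 j)
    · have h1 := dualIneq_memLp (μ := μ) hwc (tst_dl b hφ hv)
      simpa only [mul_comm] using h1
    · intro j k ψ hψ
      have h1 := (hNmem V1).1 hV1N j k ψ hψ
      rw [dualIneq_inner, dualIneq_inner] at h1
      have h2 : ∀ j k : ι, ∀ x, V1 k x * (starRingEnd ℂ) ((wt φ x)⁻¹ *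
          (starRingEnd ℂ) (pb (b j) ψ x)) = v1 k x * pb (b j) ψ x := by
        intro j k x
        simp only [v1, map_mul, map_inv₀, dualIneq_wt_conj, Complex.conj_conj]
        ring
      have hi1 := dualIneq_integrable (hEm ψ hψ j) (V1 k)
      have hi2 := dualIneq_integrable (hEm ψ hψ k) (V1 j)
      simp only [h2] at h1 hi1 hi2
      rw [integral_sub hi1 hi2, h1, sub_self]
    · intro ψ hψ
      have hψ' : Tst (fun x => (starRingEnd ℂ) (ψ x)) := hψ.conj
      have h1 := horth _ (hGN _ hψ')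
      rw [hinner _ hψ', hinner _ hψ'] at h1
      have h2 : ∀ j x, V1 j x * (starRingEnd ℂ) (wt φ x *
          pb (b j) (fun x => (starRingEnd ℂ) (ψ x)) x) =
          v1 j x * pd (b j) ψ x * ((Real.exp (-φ x) : ℝ) : ℂ) := by
        intro j x
        rw [pb_conj, map_mul, Complex.conj_conj, dualIneq_wt_conj, ← dualIneq_wt_mul, ← hv1]
        ring
      have h3 : ∀ j, ∫ x, Vt j x * (starRingEnd ℂ) (wt φ x *
          pb (b j) (fun x => (starRingEnd ℂ) (ψ x)) x) ∂μ =
          - ∫ x, (pd (b j) (v j) x - pd (b j) (fun y => ((φ y : ℝ) : ℂ)) x * v j x) * ψ x *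
            ((Real.exp (-φ x) : ℝ) : ℂ) ∂μ := by
        intro j
        have h4 := adj_one (μ := μ) (a := b j) hφ hψ'.1 (hv j)
        have h5 : ∫ x, Vt j x * (starRingEnd ℂ) (wt φ x *
          pb (b j) (fun x => (starRingEnd ℂ) (ψ x)) x) ∂μ =
          (starRingEnd ℂ) (∫ x, pb (b j) (fun x => (starRingEnd ℂ) (ψ x)) x *
            (starRingEnd ℂ) (v j x) * ((Real.exp (-φ x) : ℝ) : ℂ) ∂μ) := by
          rw [← integral_conj]
          refine integral_congr_ae ?_
          have h6 : (Vt j : E → ℂ) =ᵐ[μ] fun x => wt φ x * v j x := (hVm j).coeFn_toLp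
          filter_upwards [h6] with x hx
          rw [hx, ← dualIneq_wt_mul]
          simp only [map_mul, Complex.conj_conj, dualIneq_wt_conj]
          ring
        have h7 : ∫ x, (pd (b j) (v j) x - pd (b j) (fun y => ((φ y : ℝ) : ℂ)) x * v j x) * ψ x *
            ((Real.exp (-φ x) : ℝ) : ℂ) ∂μ = (starRingEnd ℂ) (∫ x, (starRingEnd ℂ) (ψ x) *
            (starRingEnd ℂ) (pd (b j) (v j) x - pd (b j) (fun y => ((φ y : ℝ) : ℂ)) x * v j x) *
              ((Real.exp (-φ x) : ℝ) : ℂ) ∂μ) := by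
          rw [← integral_conj]
          refine integral_congr_ae (Filter.Eventually.of_forall fun x => ?_)
          simp only [map_mul, Complex.conj_conj, Complex.conj_ofReal]
          ring
        rw [h5, h7, h4, map_neg, neg_neg]
      rw [Finset.sum_congr rfl fun j _ => h3 j] at h1
      have hi : ∀ j, Integrable (fun x => v1 j x * pd (b j) ψ x * ((Real.exp (-φ x) : ℝ) : ℂ)) μ := by
        intro j
        have := dualIneq_integrable (hG _ hψ' j) (V1 j)
        simp only [h2] at this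
        exact this
      simp only [h2] at h1
      have h8 : ∀ x, (∑ j, v1 j x * pd (b j) ψ x) * ((Real.exp (-φ x) : ℝ) : ℂ) =
          ∑ j, v1 j x * pd (b j) ψ x * ((Real.exp (-φ x) : ℝ) : ℂ) := by
        intro x; rw [Finset.sum_mul]
      have h9 : ∀ x, dl b φ v x * ψ x * ((Real.exp (-φ x) : ℝ) : ℂ) =
          ∑ j, - ((pd (b j) (v j) x - pd (b j) (fun y => ((φ y : ℝ) : ℂ)) x * v j x) * ψ x *
            ((Real.exp (-φ x) : ℝ) : ℂ)) := by
        intro x
        rw [dl, Finset.sum_neg_distrib, ← Finset.sum_mul, ← Finset.sum_mul]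
        ring
      have hwexp : Continuous (fun x => ((Real.exp (-φ x) : ℝ) : ℂ)) :=
        Complex.continuous_ofReal.comp (Real.continuous_exp.comp hφc.neg)
      have hφC : ContDiff ℝ ∞ (fun y => ((φ y : ℝ) : ℂ)) := Complex.ofRealCLM.contDiff.comp hφ
      have hi2 : ∀ j, Integrable (fun x => - ((pd (b j) (v j) x -
          pd (b j) (fun y => ((φ y : ℝ) : ℂ)) x * v j x) * ψ x *
            ((Real.exp (-φ x) : ℝ) : ℂ))) μ := by
        intro j
        have hc : Continuous (fun x => (pd (b j) (v j) x -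
          pd (b j) (fun y => ((φ y : ℝ) : ℂ)) x * v j x) * ((Real.exp (-φ x) : ℝ) : ℂ)) :=
          (((contDiff_pd (hv j).1).continuous.sub
            ((contDiff_pd hφC).continuous.mul (hv j).continuous))).mul hwexp
        have := (integrable_mul_tst (μ := μ) hc hψ).neg
        refine this.congr (Filter.Eventually.of_forall fun x => ?_)
        simp only [Pi.neg_apply]
        ring
      simp only [h8, h9]
      rw [integral_finsetSum _ fun j _ => hi j, integral_finsetSum _ fun j _ => hi2 j, h1]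
      exact Finset.sum_congr rfl fun j _ => (integral_neg _).symm
  -- norms
  have hV1n : ‖V1‖ ^ 2 ≤ ∫ x, ‖dl b φ v x‖ ^ 2 * Real.exp (-φ x) ∂μ := by
    refine le_trans (le_of_eq ?_) hkey
    rw [PiLp.norm_sq_eq_of_L2]
    refine Finset.sum_congr rfl fun j _ => ?_
    rw [dualIneq_norm_sq]
    refine integral_congr_ae (Filter.Eventually.of_forall fun x => ?_)
    simp only
    rw [← hv1 j x, norm_mul, mul_pow, dualIneq_wt_norm]
  have hFn : ‖G g hg‖ ^ 2 = ∑ j, ∫ x, ‖pb (b j) g x‖ ^ 2 * Real.exp (-φ x) ∂μ := by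
    rw [PiLp.norm_sq_eq_of_L2]
    refine Finset.sum_congr rfl fun j _ => ?_
    change ‖(hG g hg j).toLp _‖ ^ 2 = _
    rw [dualIneq_norm_toLp]
    refine integral_congr_ae (Filter.Eventually.of_forall fun x => ?_)
    simp only
    rw [norm_mul, mul_pow, dualIneq_wt_norm, mul_comm]
  -- the left side
  have hLHS : (starRingEnd ℂ) (∫ x, g x * (starRingEnd ℂ) (dl b φ v x) *
      ((Real.exp (-φ x) : ℝ) : ℂ) ∂μ) = inner ℂ (G g hg) Vt := by
    rw [hinner _ hg]
    have h1 : ∀ j, ∫ x, Vt j x * (starRingEnd ℂ) (wt φ x * pb (b j) g x) ∂μ =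
        (starRingEnd ℂ) (∫ x, pb (b j) g x * (starRingEnd ℂ) (v j x) *
          ((Real.exp (-φ x) : ℝ) : ℂ) ∂μ) := by
      intro j
      rw [← integral_conj]
      refine integral_congr_ae ?_
      have h6 : (Vt j : E → ℂ) =ᵐ[μ] fun x => wt φ x * v j x := (hVm j).coeFn_toLp
      filter_upwards [h6] with x hx
      rw [hx, ← dualIneq_wt_mul]
      simp only [map_mul, Complex.conj_conj, dualIneq_wt_conj]
      ring
    rw [Finset.sum_congr rfl fun j _ => h1 j, ← map_sum]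
    congr 1
    have h2 : ∀ j, ∫ x, pb (b j) g x * (starRingEnd ℂ) (v j x) *
          ((Real.exp (-φ x) : ℝ) : ℂ) ∂μ = - ∫ x, g x * (starRingEnd ℂ) (pd (b j) (v j) x -
          pd (b j) (fun y => ((φ y : ℝ) : ℂ)) x * v j x) * ((Real.exp (-φ x) : ℝ) : ℂ) ∂μ := by
      intro j
      rw [adj_one hφ hg.1 (hv j), neg_neg]
    rw [Finset.sum_congr rfl fun j _ => h2 j]
    have hwexp : Continuous (fun x => ((Real.exp (-φ x) : ℝ) : ℂ)) :=
      Complex.continuous_ofReal.comp (Real.continuous_exp.comp hφc.neg)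
    have hφC : ContDiff ℝ ∞ (fun y => ((φ y : ℝ) : ℂ)) := Complex.ofRealCLM.contDiff.comp hφ
    have hi2 : ∀ j, Integrable (fun x => - (g x * (starRingEnd ℂ) (pd (b j) (v j) x -
          pd (b j) (fun y => ((φ y : ℝ) : ℂ)) x * v j x) * ((Real.exp (-φ x) : ℝ) : ℂ))) μ := by
      intro j
      have hc : Continuous (fun x => (starRingEnd ℂ) (pd (b j) (v j) x -
        pd (b j) (fun y => ((φ y : ℝ) : ℂ)) x * v j x) * ((Real.exp (-φ x) : ℝ) : ℂ)) :=
        (Complex.continuous_conj.comp ((contDiff_pd (hv j).1).continuous.sub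
          ((contDiff_pd hφC).continuous.mul (hv j).continuous))).mul hwexp
      have := (integrable_mul_tst (μ := μ) hc hg).neg
      refine this.congr (Filter.Eventually.of_forall fun x => ?_)
      simp only [Pi.neg_apply]
      ring
    have h3 : ∀ x, g x * (starRingEnd ℂ) (dl b φ v x) * ((Real.exp (-φ x) : ℝ) : ℂ) =
        ∑ j, - (g x * (starRingEnd ℂ) (pd (b j) (v j) x -
          pd (b j) (fun y => ((φ y : ℝ) : ℂ)) x * v j x) * ((Real.exp (-φ x) : ℝ) : ℂ)) := by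
      intro x
      rw [dl, map_neg, map_sum, Finset.sum_neg_distrib, ← Finset.sum_mul, ← Finset.mul_sum]
      ring
    simp only [h3]
    rw [integral_finsetSum _ fun j _ => hi2 j]
    exact Finset.sum_congr rfl fun j _ => integral_neg _
  have h1 : ‖∫ x, g x * (starRingEnd ℂ) (dl b φ v x) * ((Real.exp (-φ x) : ℝ) : ℂ) ∂μ‖ =
      ‖inner ℂ (G g hg) V1‖ := by
    rw [horth _ (hGN g hg), ← hLHS, RCLike.norm_conj]
  rw [h1, ← hFn]
  have h2 : ‖inner ℂ (G g hg) V1‖ ≤ ‖G g hg‖ * ‖V1‖ := norm_inner_le_norm _ _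
  calc ‖inner ℂ (G g hg) V1‖ ^ 2 ≤ (‖G g hg‖ * ‖V1‖) ^ 2 := by gcongr
    _ = ‖G g hg‖ ^ 2 * ‖V1‖ ^ 2 := by ring
    _ ≤ _ := mul_le_mul_of_nonneg_left hV1n (by positivity)

end OkaP
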