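import Pool.Agent.H.MP_ceb9a9.EsHol
import Pool.Agent.H.MP_ceb9a9.EntireModel

set_option autoImplicit false
open Set Metric Filter
open scoped Topology Manifold

noncomputable section
namespace OkaP

section aux

variable {m : ℕ} {E : Type} [NormedAddCommGroup E] [NormedSpace ℂ E]

/-- rescaled near identity family. -/
theorem pushFam_scaled {W : Set E} (hW : IsOpen W) {c : E → ℂ} (hc : Differentiable ℂ c)
    (hc0 : ∀ z, c z ≠ 0) {α : E × (Fin m → ℂ) → (Fin m → ℂ)}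
    (hα : DifferentiableOn ℂ α (W ×ˢ ball (0 : Fin m → ℂ) (1 / 2)))
    (hn : ∀ z ∈ W, ∀ u ∈ ball (0 : Fin m → ℂ) (1 / 2), ‖α (z, u) - u‖ ≤ 1 / 16) :
    IsOpen {x : E × (Fin m → ℂ) | x.1 ∈ W ∧ ‖(c x.1)⁻¹ • x.2‖ < 1 / 4} ∧
    DifferentiableOn ℂ (fun x : E × (Fin m → ℂ) => c x.1 • α (x.1, (c x.1)⁻¹ • x.2))
      {x : E × (Fin m → ℂ) | x.1 ∈ W ∧ ‖(c x.1)⁻¹ • x.2‖ < 1 / 4} ∧
    (∀ z ∈ W, ∀ u v : Fin m → ℂ, ‖(c z)⁻¹ • u‖ < 1 / 4 → ‖(c z)⁻¹ • v‖ < 1 / 4 →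
      c z • α (z, (c z)⁻¹ • u) = c z • α (z, (c z)⁻¹ • v) → u = v) ∧
    (∀ z ∈ W, ∀ u : Fin m → ℂ, ‖(c z)⁻¹ • u‖ < 1 / 4 →
      Function.Bijective (fderiv ℂ (fun v => c z • α (z, (c z)⁻¹ • v)) u)) := by
  obtain ⟨hinj, hder⟩ := fiber_near_id (r := 1 / 2) (δ := 1 / 16) (by norm_num) (by norm_num)
    (by norm_num) hα hW hn
  have h12 : (1 / 2 / 2 : ℝ) = 1 / 4 := by norm_num
  rw [h12] at hinj hder
  have hci : Differentiable ℂ (fun z => (c z)⁻¹) := hc.inv hc0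
  have hτ : Differentiable ℂ (fun x : E × (Fin m → ℂ) => (x.1, (c x.1)⁻¹ • x.2)) :=
    differentiable_fst.prodMk ((hci.comp differentiable_fst).smul differentiable_snd)
  have heq : {x : E × (Fin m → ℂ) | x.1 ∈ W ∧ ‖(c x.1)⁻¹ • x.2‖ < 1 / 4} =
      (fun x : E × (Fin m → ℂ) => (x.1, (c x.1)⁻¹ • x.2)) ⁻¹' (W ×ˢ ball (0 : Fin m → ℂ) (1 / 4)) := by
    ext x
    simp only [mem_ofPred_eq, mem_preimage, mem_prod, mem_ball_zero_iff]
  have hopen : IsOpen (W ×ˢ ball (0 : Fin m → ℂ) (1 / 2)) := hW.prod isOpen_ball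
  refine ⟨?_, ?_, ?_, ?_⟩
  · rw [heq]
    exact (hW.prod isOpen_ball).preimage hτ.continuous
  · have h1 : DifferentiableOn ℂ (fun x : E × (Fin m → ℂ) => α (x.1, (c x.1)⁻¹ • x.2))
        {x : E × (Fin m → ℂ) | x.1 ∈ W ∧ ‖(c x.1)⁻¹ • x.2‖ < 1 / 4} := by
      refine hα.comp hτ.differentiableOn ?_
      intro x hx
      refine ⟨hx.1, ?_⟩
      rw [mem_ball_zero_iff]
      exact hx.2.trans (by norm_num)
    exact (hc.comp differentiable_fst).differentiableOn.smul h1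
  · intro z hz u v hu hv huv
    have h1 : α (z, (c z)⁻¹ • u) = α (z, (c z)⁻¹ • v) := smul_right_injective _ (hc0 z) huv
    have h2 := hinj z hz (mem_ball_zero_iff.2 hu) (mem_ball_zero_iff.2 hv) h1
    exact smul_right_injective _ (inv_ne_zero (hc0 z)) h2
  · intro z hz u hu
    have hu4 : (c z)⁻¹ • u ∈ ball (0 : Fin m → ℂ) (1 / 4) := mem_ball_zero_iff.2 hu
    have hu2 : (c z)⁻¹ • u ∈ ball (0 : Fin m → ℂ) (1 / 2) :=
      ball_subset_ball (by norm_num) hu4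
    have h1 : DifferentiableAt ℂ α (z, (c z)⁻¹ • u) :=
      hα.differentiableAt (hopen.mem_nhds ⟨hz, hu2⟩)
    have h2 : HasFDerivAt (fun v : Fin m → ℂ => (z, v))
        (ContinuousLinearMap.inr ℂ E (Fin m → ℂ)) ((c z)⁻¹ • u) := hasFDerivAt_prodMk_right z _
    have h3 : DifferentiableAt ℂ (fun v => α (z, v)) ((c z)⁻¹ • u) :=
      (h1.hasFDerivAt.comp _ h2).differentiableAt
    set A := fderiv ℂ (fun v => α (z, v)) ((c z)⁻¹ • u) with hA
    have h4 : HasFDerivAt (fun v : Fin m → ℂ => (c z)⁻¹ • v)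
        ((c z)⁻¹ • ContinuousLinearMap.id ℂ (Fin m → ℂ)) u :=
      ((c z)⁻¹ • ContinuousLinearMap.id ℂ (Fin m → ℂ)).hasFDerivAt
    have h5 : HasFDerivAt (fun v : Fin m → ℂ => c z • α (z, (c z)⁻¹ • v))
        (c z • (A.comp ((c z)⁻¹ • ContinuousLinearMap.id ℂ (Fin m → ℂ)))) u :=
      (h3.hasFDerivAt.comp u h4).const_smul (c z)
    have h6 : c z • (A.comp ((c z)⁻¹ • ContinuousLinearMap.id ℂ (Fin m → ℂ))) = A := by
      ext1 v
      show c z • A ((c z)⁻¹ • v) = A v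
      rw [map_smul, smul_smul, mul_inv_cancel₀ (hc0 z), one_smul]
    rw [h5.fderiv, h6]
    exact hder z hz _ hu4

/-- uniform radius on which an entire family of local biholomorphisms is injective. -/
theorem pushFam_radius {L : Set E} (hL : IsCompact L) {Nh : E × (Fin m → ℂ) → (Fin m → ℂ)}
    [FiniteDimensional ℂ E] (hN : Differentiable ℂ Nh) (hN0 : ∀ z, Nh (z, 0) = 0)
    (hN1 : ∀ z, IsUnit (fderiv ℂ (fun v => Nh (z, v)) 0)) {rB : ℝ} (hrB : 0 < rB) :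
    ∃ r > 0, ∀ z ∈ L, InjOn (fun v => Nh (z, v)) (ball 0 r) ∧
      ∀ v ∈ ball (0 : Fin m → ℂ) r, Function.Bijective (fderiv ℂ (fun v => Nh (z, v)) v) ∧
        ‖Nh (z, v)‖ < rB := by
  have hpair : ∀ (z : E) (u : Fin m → ℂ), HasFDerivAt (fun v : Fin m → ℂ => (z, v))
      (ContinuousLinearMap.inr ℂ E (Fin m → ℂ)) u := fun z u => hasFDerivAt_prodMk_right z u
  have hslice : ∀ z : E, Differentiable ℂ (fun v => Nh (z, v)) := fun z v =>
    ((hN (z, v)).hasFDerivAt.comp v (hpair z v)).differentiableAt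
  set M : E → ((Fin m → ℂ) →L[ℂ] (Fin m → ℂ)) := fun z => fderiv ℂ (fun v => Nh (z, v)) 0 with hM
  have hMeq : ∀ z, M z = (fderiv ℂ Nh (z, 0)).comp (ContinuousLinearMap.inr ℂ E (Fin m → ℂ)) :=
    fun z => ((hN (z, 0)).hasFDerivAt.comp (0 : Fin m → ℂ) (hpair z 0)).fderiv
  have hMc : Continuous M := by
    have h1 : DifferentiableOn ℂ (fderiv ℂ Nh) univ :=
      differentiableOn_fderiv isOpen_univ hN.differentiableOn
    have h2 : Continuous (fderiv ℂ Nh) := continuousOn_univ.1 h1.continuousOn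
    have h3 : Continuous (fun z : E => (fderiv ℂ Nh (z, (0 : Fin m → ℂ))).comp
        (ContinuousLinearMap.inr ℂ E (Fin m → ℂ))) :=
      (h2.comp (continuous_id.prodMk continuous_const)).clm_comp continuous_const
    have h4 : M = fun z : E => (fderiv ℂ Nh (z, (0 : Fin m → ℂ))).comp
        (ContinuousLinearMap.inr ℂ E (Fin m → ℂ)) := funext hMeq
    rw [h4]
    exact h3
  obtain ⟨b0, hb0, hlow⟩ := EsHol_lower hL hMc.continuousOn (fun z _ => hN1 z)
  obtain ⟨B', hB'⟩ := (hL.prod (isCompact_closedBall (0 : Fin m → ℂ) 1)).exists_bound_of_continuousOn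
    (f := Nh) hN.continuous.continuousOn
  set B : ℝ := |B'| + 1 with hB
  have hBpos : 0 < B := by positivity
  have hBb : ∀ z ∈ L, ∀ v ∈ ball (0 : Fin m → ℂ) 1, ‖Nh (z, v)‖ ≤ B := fun z hz v hv => by
    have h1 := (hB' (z, v) ⟨hz, ball_subset_closedBall hv⟩).trans (le_abs_self B')
    linarith
  set P : E → ((Fin m → ℂ) →L[ℂ] (Fin m → ℂ)) := fun z => Ring.inverse (M z) with hPdef
  have hPM : ∀ z v, P z (M z v) = v := fun z v =>
    congrArg (fun A : (Fin m → ℂ) →L[ℂ] (Fin m → ℂ) => A v) (Ring.inverse_mul_cancel (M z) (hN1 z))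
  have hMP : ∀ z v, M z (P z v) = v := fun z v =>
    congrArg (fun A : (Fin m → ℂ) →L[ℂ] (Fin m → ℂ) => A v) (Ring.mul_inverse_cancel (M z) (hN1 z))
  have hPn : ∀ z ∈ L, ∀ v : Fin m → ℂ, ‖P z v‖ ≤ b0 * ‖v‖ := by
    intro z hz v
    have := hlow z hz (P z v)
    rwa [hMP] at this
  have hPb : ∀ z, Function.Bijective (P z) := by
    intro z
    constructor
    · intro u v huv
      rw [← hMP z u, huv, hMP]
    · intro u
      exact ⟨M z u, hPM z u⟩
  set C2 : ℝ := 8 * B / 1 ^ 2 with hC2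
  have hC2pos : 0 < C2 := by positivity
  obtain ⟨r, hr, hr1, hr2, hr3⟩ : ∃ r : ℝ, 0 < r ∧ r ≤ 1 / 4 ∧ b0 * C2 * r ≤ 1 / 8 ∧
      2 * B * r ≤ rB := by
    refine ⟨min (1 / 4) (min (1 / (8 * (b0 * C2))) (rB / (2 * B))), by positivity, min_le_left _ _,
      ?_, ?_⟩
    · have h1 : min (1 / 4) (min (1 / (8 * (b0 * C2))) (rB / (2 * B))) ≤ 1 / (8 * (b0 * C2)) :=
        (min_le_right _ _).trans (min_le_left _ _)
      calc b0 * C2 * min (1 / 4) (min (1 / (8 * (b0 * C2))) (rB / (2 * B)))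
          ≤ b0 * C2 * (1 / (8 * (b0 * C2))) := by gcongr
        _ = 1 / 8 := by field_simp
    · have h1 : min (1 / 4) (min (1 / (8 * (b0 * C2))) (rB / (2 * B))) ≤ rB / (2 * B) :=
        (min_le_right _ _).trans (min_le_right _ _)
      calc 2 * B * min (1 / 4) (min (1 / (8 * (b0 * C2))) (rB / (2 * B)))
          ≤ 2 * B * (rB / (2 * B)) := by gcongr
        _ = rB := by field_simp
  refine ⟨r / 2, by positivity, fun z hz => ?_⟩
  have hF : ∀ v ∈ ball (0 : Fin m → ℂ) r, ‖P z (Nh (z, v)) - v‖ ≤ r / 8 := by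
    intro v hv
    have hv' := mem_ball_zero_iff.1 hv
    have h1 := EsHol_second (F := fun v => Nh (z, v)) (ρ := 1) (B := B) one_pos
      (hslice z).differentiableOn (hBb z hz) (hN0 z) (u := v)
      (ball_subset_ball hr1 hv)
    have h2 : P z (Nh (z, v)) - v = P z (Nh (z, v) - M z v) := by
      rw [map_sub, hPM]
    rw [h2]
    refine (hPn z hz _).trans ?_
    calc b0 * ‖Nh (z, v) - M z v‖ ≤ b0 * (C2 * ‖v‖ ^ 2) := by gcongr
      _ ≤ b0 * (C2 * r ^ 2) := by gcongr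
      _ = b0 * C2 * r * r := by ring
      _ ≤ 1 / 8 * r := by gcongr
      _ = r / 8 := by ring
  have hFd : DifferentiableOn ℂ (fun v => P z (Nh (z, v))) (ball 0 r) :=
    ((P z).differentiable.comp (hslice z)).differentiableOn
  obtain ⟨hinj, hder, -, -⟩ := near_id (f := fun v => P z (Nh (z, v))) hr (by positivity)
    (le_refl (r / 8)) hFd hF
  refine ⟨?_, ?_⟩
  · intro u hu v hv huv
    refine hinj hu hv ?_
    show P z (Nh (z, u)) = P z (Nh (z, v))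
    have h1 : Nh (z, u) = Nh (z, v) := huv
    rw [h1]
  · intro v hv
    constructor
    · obtain ⟨A, hA⟩ := hder v hv
      have h1 : HasFDerivAt (fun v => P z (Nh (z, v)))
          ((P z).comp (fderiv ℂ (fun v => Nh (z, v)) v)) v :=
        (P z).hasFDerivAt.comp v ((hslice z) v).hasFDerivAt
      rw [h1.fderiv] at hA
      have h2 : Function.Bijective ((P z).comp (fderiv ℂ (fun v => Nh (z, v)) v)) := by
        rw [← hA]
        exact A.bijective
      exact (Function.Bijective.of_comp_iff' (hPb z) _).1 h2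
    · have hv' := mem_ball_zero_iff.1 hv
      have h1 := norm_sub_le_of_bound (f := fun v => Nh (z, v)) (x := 0) (y := v) (z := 0) (r := 1)
        (M := B) one_pos (hslice z).differentiableOn (hBb z hz)
        (ball_subset_ball (by linarith) hv) (mem_ball_self (by norm_num))
      simp only [hN0, sub_zero, div_one] at h1
      calc ‖Nh (z, v)‖ ≤ 2 * B * ‖v‖ := h1
        _ < 2 * B * r := by
            have : ‖v‖ < r := by linarith
            gcongr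
        _ ≤ rB := hr3

end aux

variable {m : ℕ} {X : Type} [MetricSpace X] [ChartedSpace (Fin m → ℂ) X]
  [IsManifold 𝓘(ℂ, Fin m → ℂ) ⊤ X]
variable {E : Type} [NormedAddCommGroup E] [NormedSpace ℂ E] [FiniteDimensional ℂ E]

/-- extension of a chart family with given core across a slab, keeping its size over `K₀`. -/
theorem push_fam {K : Set E} (hK : IsCompact K) (hc : Convex ℝ K) (l : E →L[ℂ] ℂ) {a b : ℝ}
    (hab : a < b) {U : Set E} (hU : IsOpen U) (hKU : K ⊆ U) {h : E → X} (hh : HolOn m h U)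
    {D : Set (E × (Fin m → ℂ))} {S : E × (Fin m → ℂ) → X} (hS : Fam m S D)
    (hD : ∀ z ∈ K, (l z).re ≤ b → (z, 0) ∈ D) (hcore : ∀ z, (z, 0) ∈ D → S (z, 0) = h z)
    {K₀ : Set E} (hK₀ : IsCompact K₀) (hK₀K : K₀ ⊆ K) (hK₀a : ∀ z ∈ K₀, (l z).re < a)
    {r₀ : ℝ} (hr₀ : 0 ≤ r₀) (hD₀ : K₀ ×ˢ closedBall (0 : Fin m → ℂ) r₀ ⊆ D)
    {ε : ℝ} (hε : 0 < ε) :
    ∃ (D' : Set (E × (Fin m → ℂ))) (S' : E × (Fin m → ℂ) → X), Fam m S' D' ∧
      (∀ z ∈ K, (z, 0) ∈ D') ∧ K₀ ×ˢ closedBall (0 : Fin m → ℂ) r₀ ⊆ D' ∧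
      (∀ z, (z, 0) ∈ D' → S' (z, 0) = h z) ∧
      ∀ x ∈ K₀ ×ˢ closedBall (0 : Fin m → ℂ) r₀, dist (S x) (S' x) < ε := by
  have hprop : ProperSpace E := FiniteDimensional.proper ℂ E
  have hlc : Continuous fun z : E => (l z).re := Complex.continuous_re.comp l.continuous
  have hlin : IsLinearMap ℝ (fun z : E => (l z).re) := ⟨fun x y => by simp, fun c x => by simp⟩
  -- the chart family near the right part
  obtain ⟨WB0, rB, SB, hWB0, hKB0, hrB, hSB, hSB0⟩ : HasFam m h (K ∩ {z | a ≤ (l z).re}) :=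
    es_hol (hK.inter_right (isClosed_le continuous_const hlc))
      (hc.inter (convex_halfSpace_ge hlin a)) hU (inter_subset_left.trans hKU) hh
  -- the overlap
  set C : Set E := K ∩ {z | a ≤ (l z).re ∧ (l z).re ≤ b} with hCdef
  have hCc : IsCompact C := by
    refine hK.inter_right ?_
    exact (isClosed_le continuous_const hlc).inter (isClosed_le hlc continuous_const)
  have hCconv : Convex ℝ C :=
    hc.inter ((convex_halfSpace_ge hlin a).inter (convex_halfSpace_le hlin b))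
  have hD0open : IsOpen {z : E | (z, (0 : Fin m → ℂ)) ∈ D} :=
    hS.isOpen.preimage (continuous_id.prodMk continuous_const)
  obtain ⟨W1, r1, N, hW1, hCW1, hW1W, hr1, hNd, hN, hN0, hNu⟩ :=
    fam_compare hS hSB (C := C) (W₀ := {z : E | (z, (0 : Fin m → ℂ)) ∈ D} ∩ WB0) hCc
      (hD0open.inter hWB0) (fun z hz => ⟨hD z hz.1 hz.2.2, hKB0 ⟨hz.1, hz.2.1⟩⟩)
      (fun z hz => ⟨hz.1, ⟨hz.2, mem_ball_self hrB⟩, by rw [hcore z hz.1, hSB0 z hz.2]⟩)
  obtain ⟨d, hd, hdW⟩ := hCc.exists_cthickening_subset_open hW1 hCW1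
  set C1 : Set E := cthickening d C with hC1def
  have hC1c : IsCompact C1 := hCc.cthickening
  have hC1conv : Convex ℝ C1 := hCconv.cthickening d
  obtain ⟨r2, hr2, hr21, hmodel⟩ := entire_model hC1c hC1conv hW1 hdW hr1 hNd hN0 hNu
  set t : ℝ := r2 / 8 with ht
  have htpos : 0 < t := by positivity
  -- the gap
  obtain ⟨e0, he0, he0K⟩ : ∃ e0 > 0, ∀ z ∈ K₀, (l z).re ≤ a - e0 := by
    rcases K₀.eq_empty_or_nonempty with he | hne
    · exact ⟨1, one_pos, fun z hz => by rw [he] at hz; exact absurd hz (notMem_empty z)⟩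
    · obtain ⟨z0, hz0, hmax⟩ := hK₀.exists_isMaxOn hne hlc.continuousOn
      refine ⟨a - (l z0).re, sub_pos.2 (hK₀a z0 hz0), fun z hz => ?_⟩
      have := hmax hz
      rw [mem_ofPred_eq] at this
      linarith
  obtain ⟨Λ, hΛ, hΛe⟩ : ∃ Λ : ℝ, 0 < Λ ∧ Real.exp (-(Λ * e0)) * (r₀ + 1) ≤ t / 8 := by
    refine ⟨8 * (r₀ + 1) / (t * e0), by positivity, ?_⟩
    have h1 : 8 * (r₀ + 1) / (t * e0) * e0 = 8 * (r₀ + 1) / t := by field_simp
    rw [h1, Real.exp_neg]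
    have h2 : 8 * (r₀ + 1) / t ≤ Real.exp (8 * (r₀ + 1) / t) := by
      have := Real.add_one_le_exp (8 * (r₀ + 1) / t)
      linarith
    have h3 : 0 < 8 * (r₀ + 1) / t := by positivity
    calc (Real.exp (8 * (r₀ + 1) / t))⁻¹ * (r₀ + 1) ≤ (8 * (r₀ + 1) / t)⁻¹ * (r₀ + 1) := by
          gcongr
      _ = t / 8 := by field_simp
  -- the scaling function
  set c : E → ℂ := fun z => (t : ℂ) * Complex.exp (-((Λ : ℂ) * (l z - (a : ℂ)))) with hcdef
  have hcd : Differentiable ℂ c := by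
    refine (differentiable_const _).mul (Differentiable.cexp ?_)
    exact ((l.differentiable.sub_const _).const_mul _).neg
  have hc0 : ∀ z, c z ≠ 0 := fun z =>
    mul_ne_zero (by exact_mod_cast htpos.ne') (Complex.exp_ne_zero _)
  have hcn : ∀ z, ‖c z‖ = t * Real.exp (-(Λ * ((l z).re - a))) := by
    intro z
    rw [hcdef]
    simp only [norm_mul, Complex.norm_real, Real.norm_eq_abs, abs_of_pos htpos, Complex.norm_exp]
    congr 2
    simp
  have hcin : ∀ z, ‖(c z)⁻¹‖ = t⁻¹ * Real.exp (Λ * ((l z).re - a)) := by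
    intro z
    rw [norm_inv, hcn, mul_inv, ← Real.exp_neg, neg_neg]
  have hcpos : ∀ z, 0 < ‖c z‖ := fun z => norm_pos_iff.2 (hc0 z)
  -- the neighbourhood `W`
  obtain ⟨d', hd', hd'd, hd'e⟩ : ∃ d' : ℝ, 0 < d' ∧ d' ≤ d ∧ Real.exp (Λ * (‖l‖ * d')) ≤ 2 := by
    refine ⟨min d (Real.log 2 / (Λ * ‖l‖ + 1)), ?_, min_le_left _ _, ?_⟩
    · have := Real.log_pos (by norm_num : (1 : ℝ) < 2)
      positivity
    · have h0 := Real.log_pos (by norm_num : (1 : ℝ) < 2)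
      have h1 : Λ * (‖l‖ * min d (Real.log 2 / (Λ * ‖l‖ + 1))) ≤ Real.log 2 := by
        calc Λ * (‖l‖ * min d (Real.log 2 / (Λ * ‖l‖ + 1)))
            ≤ Λ * (‖l‖ * (Real.log 2 / (Λ * ‖l‖ + 1))) := by
              gcongr
              exact min_le_right _ _
          _ = (Λ * ‖l‖) / (Λ * ‖l‖ + 1) * Real.log 2 := by ring
          _ ≤ 1 * Real.log 2 := by
              gcongr
              rw [div_le_one (by positivity)]
              linarith
          _ = Real.log 2 := one_mul _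
      calc Real.exp (Λ * (‖l‖ * min d (Real.log 2 / (Λ * ‖l‖ + 1)))) ≤ Real.exp (Real.log 2) :=
            Real.exp_le_exp.2 h1
        _ = 2 := Real.exp_log (by norm_num)
  set W : Set E := thickening d' C with hWdef
  have hWopen : IsOpen W := isOpen_thickening
  have hCW : C ⊆ W := self_subset_thickening hd' C
  have hWC1 : W ⊆ C1 := (thickening_subset_cthickening d' C).trans (cthickening_mono hd'd C)
  have hWint : W ⊆ interior C1 := interior_maximal hWC1 hWopen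
  have hcW : ∀ z ∈ W, ‖c z‖ ≤ r2 / 4 := by
    intro z hz
    obtain ⟨y, hy, hzy⟩ := mem_thickening_iff.1 hz
    have h1 : a ≤ (l y).re := hy.2.1
    have h2 : |(l (y - z)).re| ≤ ‖l‖ * d' := by
      refine (Complex.abs_re_le_norm _).trans ((l.le_opNorm _).trans ?_)
      gcongr
      rw [← dist_eq_norm, dist_comm]
      exact hzy.le
    have h3 : (l (y - z)).re = (l y).re - (l z).re := by rw [map_sub, Complex.sub_re]
    have h4 := (abs_le.1 h2).2
    rw [h3] at h4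
    rw [hcn]
    have h5 : Real.exp (-(Λ * ((l z).re - a))) ≤ Real.exp (Λ * (‖l‖ * d')) := by
      refine Real.exp_le_exp.2 ?_
      have : -(Λ * ((l z).re - a)) = Λ * (a - (l z).re) := by ring
      rw [this]
      gcongr
      linarith
    calc t * Real.exp (-(Λ * ((l z).re - a))) ≤ t * 2 := by
          gcongr
          exact h5.trans hd'e
      _ = r2 / 4 := by rw [ht]; ring
  -- uniform continuity near `K₀ × closedBall r₀`
  have hQc : IsCompact (K₀ ×ˢ closedBall (0 : Fin m → ℂ) r₀) := hK₀.prod (isCompact_closedBall _ _)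
  obtain ⟨η1, hη1, hη1D⟩ := hQc.exists_thickening_subset_open hS.isOpen hD₀
  obtain ⟨η2, hη2, hη2S⟩ := Metric.mem_uniformity_dist.mp
    (hQc.uniformContinuousAt_of_continuousAt S
      (fun x hx => hS.hol.continuousOn.continuousAt (hS.isOpen.mem_nhds (hD₀ hx)))
      (Metric.dist_mem_uniformity hε))
  obtain ⟨Bc', hBc'⟩ := hK₀.exists_bound_of_continuousOn hcd.continuous.continuousOn
  set Bc : ℝ := |Bc'| + 1 with hBc
  have hBcpos : 0 < Bc := by positivity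
  have hBcb : ∀ z ∈ K₀, ‖c z‖ ≤ Bc := fun z hz => by
    have := (hBc' z hz).trans (le_abs_self Bc')
    linarith
  obtain ⟨η4, hη4, hη4a, hη4b, hη4c⟩ : ∃ η4 : ℝ, 0 < η4 ∧ η4 ≤ 1 / 16 ∧ Bc * η4 < η1 ∧
      Bc * η4 < η2 := by
    refine ⟨min (1 / 16) (min (η1 / (2 * Bc)) (η2 / (2 * Bc))), by positivity, min_le_left _ _,
      ?_, ?_⟩
    · have h1 : min (1 / 16) (min (η1 / (2 * Bc)) (η2 / (2 * Bc))) ≤ η1 / (2 * Bc) :=
        (min_le_right _ _).trans (min_le_left _ _)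
      calc Bc * min (1 / 16) (min (η1 / (2 * Bc)) (η2 / (2 * Bc))) ≤ Bc * (η1 / (2 * Bc)) := by
            gcongr
        _ = η1 / 2 := by field_simp
        _ < η1 := by linarith
    · have h1 : min (1 / 16) (min (η1 / (2 * Bc)) (η2 / (2 * Bc))) ≤ η2 / (2 * Bc) :=
        (min_le_right _ _).trans (min_le_right _ _)
      calc Bc * min (1 / 16) (min (η1 / (2 * Bc)) (η2 / (2 * Bc))) ≤ Bc * (η2 / (2 * Bc)) := by
            gcongr
        _ = η2 / 2 := by field_simp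
        _ < η2 := by linarith
  -- the Cartan splitting
  obtain ⟨WA, WB, ε4, hWA, hWB, hKA, hKB, hABW, hε4, hcart⟩ : ∃ (WA WB : Set E) (ε : ℝ),
      IsOpen WA ∧ IsOpen WB ∧ K ∩ {z | (l z).re ≤ b} ⊆ WA ∧
      K ∩ {z | a ≤ (l z).re} ⊆ WB ∧ WA ∩ WB ⊆ W ∧ 0 < ε ∧
      ∀ γ : E × (Fin m → ℂ) → (Fin m → ℂ), DifferentiableOn ℂ γ (W ×ˢ ball (0 : Fin m → ℂ) 1) →
        (∀ z ∈ W, ∀ t ∈ ball (0 : Fin m → ℂ) 1, ‖γ (z, t) - t‖ ≤ ε) →
        ∃ α β : E × (Fin m → ℂ) → (Fin m → ℂ),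
          DifferentiableOn ℂ α (WA ×ˢ ball (0 : Fin m → ℂ) (1 / 2)) ∧
          DifferentiableOn ℂ β (WB ×ˢ ball (0 : Fin m → ℂ) (1 / 2)) ∧
          (∀ z ∈ WA, ∀ t ∈ ball (0 : Fin m → ℂ) (1 / 2), ‖α (z, t) - t‖ ≤ η4) ∧
          (∀ z ∈ WB, ∀ t ∈ ball (0 : Fin m → ℂ) (1 / 2), ‖β (z, t) - t‖ ≤ η4) ∧
          (∀ z ∈ WA ∩ WB, ∀ t ∈ ball (0 : Fin m → ℂ) (1 / 2), γ (z, α (z, t)) = β (z, t)) ∧
          ((∀ z ∈ W, γ (z, 0) = 0) →
            (∀ z ∈ WA, α (z, 0) = 0) ∧ (∀ z ∈ WB, β (z, 0) = 0)) :=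
    cartan_convex hK hc l hab hWopen hCW one_pos hη4
  -- the entire model
  obtain ⟨B5', hB5'⟩ := hC1c.exists_bound_of_continuousOn (f := fun z => (c z)⁻¹)
    (hcd.inv hc0).continuous.continuousOn
  set B5 : ℝ := |B5'| + 1 with hB5
  have hB5pos : 0 < B5 := by positivity
  have hB5b : ∀ z ∈ C1, ‖(c z)⁻¹‖ ≤ B5 := fun z hz => by
    have := (hB5' z hz).trans (le_abs_self B5')
    linarith
  obtain ⟨Nh, g0, hNhd, hNh0, hNhu, hg0d, hg00, hg0⟩ := hmodel (ε4 / B5) (by positivity)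
  have hcsmall : ∀ z ∈ W, ∀ w : Fin m → ℂ, ‖w‖ < 2 → c z • w ∈ ball (0 : Fin m → ℂ) r2 := by
    intro z hz w hw
    rw [mem_ball_zero_iff, norm_smul]
    have h1 := hcW z hz
    have h2 := norm_nonneg w
    nlinarith [hcpos z]
  set γ : E × (Fin m → ℂ) → (Fin m → ℂ) := fun x => (c x.1)⁻¹ • g0 (x.1, c x.1 • x.2) with hγdef
  have hγd : DifferentiableOn ℂ γ (W ×ˢ ball (0 : Fin m → ℂ) 1) := by
    have h1 : DifferentiableOn ℂ (fun x : E × (Fin m → ℂ) => g0 (x.1, c x.1 • x.2))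
        (W ×ˢ ball (0 : Fin m → ℂ) 1) := by
      refine hg0d.comp (differentiable_fst.prodMk
        ((hcd.comp differentiable_fst).smul differentiable_snd)).differentiableOn ?_
      intro x hx
      refine ⟨hWint hx.1, hcsmall x.1 hx.1 x.2 ?_⟩
      have := mem_ball_zero_iff.1 hx.2
      linarith
    exact ((hcd.inv hc0).comp differentiable_fst).differentiableOn.smul h1
  have hγn : ∀ z ∈ W, ∀ w ∈ ball (0 : Fin m → ℂ) 1, ‖γ (z, w) - w‖ ≤ ε4 := by
    intro z hz w hw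
    rw [mem_ball_zero_iff] at hw
    have h1 : γ (z, w) - w = (c z)⁻¹ • (g0 (z, c z • w) - c z • w) := by
      rw [smul_sub, smul_smul, inv_mul_cancel₀ (hc0 z), one_smul]
    have h2 := (hg0 z (hWint hz) (c z • w) (hcsmall z hz w (by linarith))).1
    rw [h1, norm_smul]
    calc ‖(c z)⁻¹‖ * ‖g0 (z, c z • w) - c z • w‖ ≤ B5 * (ε4 / B5) := by
          gcongr
          exact hB5b z (hWC1 hz)
      _ = ε4 := by field_simp
  have hγ0 : ∀ z ∈ W, γ (z, 0) = 0 := by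
    intro z hz
    show (c z)⁻¹ • g0 (z, c z • (0 : Fin m → ℂ)) = 0
    rw [smul_zero, hg00 z (hWint hz), smul_zero]
  obtain ⟨α, β, hαd, hβd, hαn, hβn, hαβ, hzero⟩ := hcart γ hγd hγn
  obtain ⟨hα0, hβ0⟩ := hzero hγ0
  -- the two scaled maps
  obtain ⟨oA, dA, iA, bA⟩ := pushFam_scaled hWA hcd hc0 hαd
    (fun z hz u hu => (hαn z hz u hu).trans hη4a)
  obtain ⟨oB, dB, iB, bB⟩ := pushFam_scaled hWB hcd hc0 hβd
    (fun z hz u hu => (hβn z hz u hu).trans hη4a)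
  set ΩA : Set (E × (Fin m → ℂ)) := {x | x.1 ∈ WA ∧ ‖(c x.1)⁻¹ • x.2‖ < 1 / 4} with hΩA
  set ΩB : Set (E × (Fin m → ℂ)) := {x | x.1 ∈ WB ∧ ‖(c x.1)⁻¹ • x.2‖ < 1 / 4} with hΩB
  set φA : E × (Fin m → ℂ) → (Fin m → ℂ) := fun x => c x.1 • α (x.1, (c x.1)⁻¹ • x.2) with hφA
  set φB : E × (Fin m → ℂ) → (Fin m → ℂ) := fun x => c x.1 • β (x.1, (c x.1)⁻¹ • x.2) with hφB
  -- the left family
  set DA : Set (E × (Fin m → ℂ)) := {x | x ∈ ΩA ∧ (x.1, φA x) ∈ D} with hDA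
  have hDAopen : IsOpen DA := by
    have h1 : ContinuousOn (fun x : E × (Fin m → ℂ) => (x.1, φA x)) ΩA :=
      continuousOn_fst.prodMk dA.continuousOn
    exact h1.isOpen_inter_preimage oA hS.isOpen
  have hFA : Fam m (fun x => S (x.1, φA x)) DA := by
    refine Fam.comp hS hDAopen (dA.mono fun x hx => hx.1) ?_ ?_ ?_
    · intro z u hu
      exact hu.2
    · intro z u v hu hv huv
      exact iA z hu.1.1 u v hu.1.2 hv.1.2 huv
    · intro z u hu
      exact bA z hu.1.1 u hu.1.2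
  -- the right family
  obtain ⟨L, hL, hKL, hLW⟩ := exists_compact_between (hK.inter_right
    (isClosed_le continuous_const hlc)) (hWB.inter hWB0) (subset_inter hKB hKB0)
  obtain ⟨r3, hr3, hrad⟩ := pushFam_radius hL hNhd hNh0 hNhu hrB
  obtain ⟨B6', hB6'⟩ := hL.exists_bound_of_continuousOn (f := fun z => (c z)⁻¹)
    (hcd.inv hc0).continuous.continuousOn
  set B6 : ℝ := |B6'| + 1 with hB6
  have hB6pos : 0 < B6 := by positivity
  have hB6b : ∀ z ∈ L, ‖(c z)⁻¹‖ ≤ B6 := fun z hz => by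
    have := (hB6' z hz).trans (le_abs_self B6')
    linarith
  set ρ : ℝ := min (1 / (4 * B6)) (r3 / 2) with hρ
  have hρpos : 0 < ρ := by positivity
  set ZB : Set E := interior L with hZB
  have hZBo : IsOpen ZB := isOpen_interior
  have hZBL : ZB ⊆ L := interior_subset
  set DB : Set (E × (Fin m → ℂ)) := ZB ×ˢ ball (0 : Fin m → ℂ) ρ with hDB
  have hDBopen : IsOpen DB := hZBo.prod isOpen_ball
  have hw4 : ∀ z ∈ ZB, ∀ u ∈ ball (0 : Fin m → ℂ) ρ, ‖(c z)⁻¹ • u‖ < 1 / 4 := by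
    intro z hz u hu
    rw [mem_ball_zero_iff] at hu
    rw [norm_smul]
    have h1 : ‖u‖ < 1 / (4 * B6) := hu.trans_le (min_le_left _ _)
    calc ‖(c z)⁻¹‖ * ‖u‖ ≤ B6 * ‖u‖ := by
          gcongr
          exact hB6b z (hZBL hz)
      _ < B6 * (1 / (4 * B6)) := by gcongr
      _ = 1 / 4 := by field_simp
  have hDBΩ : DB ⊆ ΩB := fun x hx => ⟨(hLW (hZBL hx.1)).1, hw4 x.1 hx.1 x.2 hx.2⟩
  have hφBn : ∀ z ∈ ZB, ∀ u ∈ ball (0 : Fin m → ℂ) ρ, φB (z, u) ∈ ball (0 : Fin m → ℂ) r3 := by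
    intro z hz u hu
    have hzWB : z ∈ WB := (hLW (hZBL hz)).1
    have h4 := hw4 z hz u hu
    have hsl : DifferentiableOn ℂ (fun w => β (z, w) - w) (ball (0 : Fin m → ℂ) (1 / 2)) := by
      refine DifferentiableOn.sub ?_ differentiableOn_id
      exact DifferentiableOn.comp (g := β) (f := fun u : Fin m → ℂ => (z, u)) hβd
        ((differentiable_const z).prodMk differentiable_id).differentiableOn
        (fun u hu => ⟨hzWB, hu⟩)
    have h5 := norm_sub_le_of_bound (f := fun w => β (z, w) - w) (x := 0)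
      (y := (c z)⁻¹ • u) (z := 0) (r := 1 / 2) (M := 1 / 16) (by norm_num) hsl
      (fun w hw => (hβn z hzWB w hw).trans hη4a)
      (by rw [mem_ball_zero_iff]; linarith) (mem_ball_self (by norm_num))
    simp only [hβ0 z hzWB, sub_zero] at h5
    have h6 : ‖β (z, (c z)⁻¹ • u)‖ ≤ 2 * ‖(c z)⁻¹ • u‖ := by
      have h7 : β (z, (c z)⁻¹ • u) = (β (z, (c z)⁻¹ • u) - (c z)⁻¹ • u) + (c z)⁻¹ • u := by abel
      have h8 : ‖β (z, (c z)⁻¹ • u)‖ ≤ ‖β (z, (c z)⁻¹ • u) - (c z)⁻¹ • u‖ + ‖(c z)⁻¹ • u‖ := by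
        conv_lhs => rw [h7]
        exact norm_add_le _ _
      have h9 := norm_nonneg ((c z)⁻¹ • u)
      have h10 : (2 : ℝ) * (1 / 16) / (1 / 2) = 1 / 4 := by norm_num
      rw [h10] at h5
      linarith
    rw [mem_ball_zero_iff]
    show ‖c z • β (z, (c z)⁻¹ • u)‖ < r3
    have hu' := mem_ball_zero_iff.1 hu
    have h11 : ‖u‖ < r3 / 2 := hu'.trans_le (min_le_right _ _)
    rw [norm_smul]
    calc ‖c z‖ * ‖β (z, (c z)⁻¹ • u)‖ ≤ ‖c z‖ * (2 * ‖(c z)⁻¹ • u‖) := by gcongr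
      _ = 2 * ‖u‖ := by
          rw [norm_smul, norm_inv]
          have := hcpos z
          field_simp
      _ < r3 := by linarith
  have hFB0 : Fam m (fun x => SB (x.1, Nh x)) (ZB ×ˢ ball (0 : Fin m → ℂ) r3) := by
    refine Fam.comp hSB (hZBo.prod isOpen_ball) hNhd.differentiableOn ?_ ?_ ?_
    · intro z u hu
      exact ⟨(hLW (hZBL hu.1)).2, mem_ball_zero_iff.2 ((hrad z (hZBL hu.1)).2 u hu.2).2⟩
    · intro z u v hu hv huv
      exact (hrad z (hZBL hu.1)).1 hu.2 hv.2 huv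
    · intro z u hu
      exact ((hrad z (hZBL hu.1)).2 u hu.2).1
  have hFB : Fam m (fun x => SB (x.1, Nh (x.1, φB x))) DB := by
    refine Fam.comp (φ := φB) hFB0 hDBopen (dB.mono hDBΩ) ?_ ?_ ?_
    · intro z u hu
      exact ⟨hu.1, hφBn z hu.1 u hu.2⟩
    · intro z u v hu hv huv
      exact iB z (hDBΩ hu).1 u v (hDBΩ hu).2 (hDBΩ hv).2 huv
    · intro z u hu
      exact bB z (hDBΩ hu).1 u (hDBΩ hu).2
  -- norms of the left map
  have hφAn : ∀ z ∈ WA, z ∈ W → ∀ u : Fin m → ℂ, ‖(c z)⁻¹ • u‖ < 1 / 4 →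
      φA (z, u) ∈ ball (0 : Fin m → ℂ) r2 := by
    intro z hzA hzW u hu
    refine hcsmall z hzW _ ?_
    have h1 := hαn z hzA ((c z)⁻¹ • u) (by rw [mem_ball_zero_iff]; linarith)
    have h7 : α (z, (c z)⁻¹ • u) = (α (z, (c z)⁻¹ • u) - (c z)⁻¹ • u) + (c z)⁻¹ • u := by abel
    have h8 : ‖α (z, (c z)⁻¹ • u)‖ ≤ ‖α (z, (c z)⁻¹ • u) - (c z)⁻¹ • u‖ + ‖(c z)⁻¹ • u‖ := by
      conv_lhs => rw [h7]
      exact norm_add_le _ _
    show ‖α (z, (c z)⁻¹ • u)‖ < 2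
    linarith
  -- the gluing
  have hAB : ∀ z ∈ WA, z ∈ WB → ∀ u : Fin m → ℂ, ‖(c z)⁻¹ • u‖ < 1 / 4 →
      (z, φA (z, u)) ∈ D ∧ S (z, φA (z, u)) = SB (z, Nh (z, φB (z, u))) := by
    intro z hzA hzB u hu
    have hzW : z ∈ W := hABW ⟨hzA, hzB⟩
    have hzW1 : z ∈ W1 := hdW (hWC1 hzW)
    have h1 := hφAn z hzA hzW u hu
    have h2 := hN z hzW1 (φA (z, u)) (ball_subset_ball hr21 h1)
    refine ⟨h2.1, ?_⟩
    rw [← h2.2.2, ← (hg0 z (hWint hzW) (φA (z, u)) h1).2]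
    have h3 : γ (z, α (z, (c z)⁻¹ • u)) = β (z, (c z)⁻¹ • u) :=
      hαβ z ⟨hzA, hzB⟩ _ (by rw [mem_ball_zero_iff]; linarith)
    have h4 : g0 (z, φA (z, u)) = φB (z, u) := by
      show g0 (z, c z • α (z, (c z)⁻¹ • u)) = c z • β (z, (c z)⁻¹ • u)
      rw [← h3]
      show _ = c z • ((c z)⁻¹ • g0 (z, c z • α (z, (c z)⁻¹ • u)))
      rw [smul_smul, mul_inv_cancel₀ (hc0 z), one_smul]
    rw [h4]
  obtain ⟨S', hSh, hSa, hSb⟩ := HolOn.glue hDAopen hDBopen hFA.hol hFB.hol (by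
    rintro ⟨z, u⟩ ⟨hA, hB⟩
    exact (hAB z hA.1.1 (hDBΩ hB).1 u hA.1.2).2)
  have hsubfib : ∀ z u v, (z, u) ∈ DA → (z, v) ∈ DB → (z, v) ∈ DA := by
    intro z u v hu hv
    have h1 := (hDBΩ hv).2
    exact ⟨⟨hu.1.1, h1⟩, (hAB z hu.1.1 (hDBΩ hv).1 v h1).1⟩
  have h0A : ∀ z ∈ WA, φA (z, 0) = 0 := by
    intro z hz
    show c z • α (z, (c z)⁻¹ • (0 : Fin m → ℂ)) = 0
    rw [smul_zero, hα0 z hz, smul_zero]
  have h0B : ∀ z ∈ WB, φB (z, 0) = 0 := by
    intro z hz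
    show c z • β (z, (c z)⁻¹ • (0 : Fin m → ℂ)) = 0
    rw [smul_zero, hβ0 z hz, smul_zero]
  have hzero4 : ∀ z, ‖(c z)⁻¹ • (0 : Fin m → ℂ)‖ < 1 / 4 := by
    intro z
    rw [smul_zero, norm_zero]
    norm_num
  -- the size over `K₀`
  have hK₀A : ∀ x ∈ K₀ ×ˢ closedBall (0 : Fin m → ℂ) r₀, x ∈ DA ∧ dist (S x) (S (x.1, φA x)) < ε := by
    rintro ⟨z, u⟩ ⟨hz, hu⟩
    have hzA : z ∈ WA := hKA ⟨hK₀K hz, by
      have := hK₀a z hz
      show (l z).re ≤ b
      linarith⟩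
    have hu' : ‖u‖ ≤ r₀ := by rwa [mem_closedBall_zero_iff] at hu
    have h1 : ‖(c z)⁻¹ • u‖ < 1 / 4 := by
      rw [norm_smul, hcin]
      have h2 : Real.exp (Λ * ((l z).re - a)) ≤ Real.exp (-(Λ * e0)) := by
        refine Real.exp_le_exp.2 ?_
        have h3 : (l z).re - a ≤ -e0 := by
          have := he0K z hz
          linarith
        have h4 : -(Λ * e0) = Λ * (-e0) := by ring
        rw [h4]
        gcongr
      calc t⁻¹ * Real.exp (Λ * ((l z).re - a)) * ‖u‖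
          ≤ t⁻¹ * Real.exp (-(Λ * e0)) * (r₀ + 1) := by
            gcongr
            linarith
        _ = t⁻¹ * (Real.exp (-(Λ * e0)) * (r₀ + 1)) := by ring
        _ ≤ t⁻¹ * (t / 8) := by gcongr
        _ = 1 / 8 := by field_simp
        _ < 1 / 4 := by norm_num
    have h5 : ‖φA (z, u) - u‖ ≤ Bc * η4 := by
      have h6 : φA (z, u) - u = c z • (α (z, (c z)⁻¹ • u) - (c z)⁻¹ • u) := by
        rw [smul_sub, smul_smul, mul_inv_cancel₀ (hc0 z), one_smul]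
      rw [h6, norm_smul]
      gcongr
      · exact hBcb z hz
      · exact hαn z hzA _ (by rw [mem_ball_zero_iff]; linarith)
    have h7 : dist ((z, u) : E × (Fin m → ℂ)) (z, φA (z, u)) ≤ Bc * η4 := by
      rw [Prod.dist_eq, dist_self, dist_comm, dist_eq_norm]
      exact max_le (by positivity) h5
    have h8 : ((z, φA (z, u)) : E × (Fin m → ℂ)) ∈ D := by
      refine hη1D (mem_thickening_iff.2 ⟨(z, u), ⟨hz, hu⟩, ?_⟩)
      rw [dist_comm]
      exact h7.trans_lt hη4b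
    refine ⟨⟨⟨hzA, h1⟩, h8⟩, ?_⟩
    exact hη2S (h7.trans_lt hη4c) ⟨hz, hu⟩
  refine ⟨DA ∪ DB, S', ⟨hDAopen.union hDBopen, hSh, ?_, ?_⟩, ?_, ?_, ?_, ?_⟩
  · intro z u v hu hv huv
    by_cases hA : (z, u) ∈ DA ∨ (z, v) ∈ DA
    · have huA : (z, u) ∈ DA := by
        rcases hA with hA | hA
        · exact hA
        · rcases hu with hu | hu
          · exact hu
          · exact hsubfib z v u hA hu
      have hvA : (z, v) ∈ DA := by
        rcases hv with hv | hv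
        · exact hv
        · exact hsubfib z u v huA hv
      rw [hSa _ huA, hSa _ hvA] at huv
      exact hFA.inj z u v huA hvA huv
    · rw [not_or] at hA
      have huB : (z, u) ∈ DB := hu.resolve_left hA.1
      have hvB : (z, v) ∈ DB := hv.resolve_left hA.2
      rw [hSb _ huB, hSb _ hvB] at huv
      exact hFB.inj z u v huB hvB huv
  · rintro z u (hu | hu)
    · have h1 := hFA.der z u hu
      have h2 : (fun v => S' (z, v)) =ᶠ[𝓝 u] (fun v => S (z, φA (z, v))) := by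
        filter_upwards [(Fam_slice_open hDAopen z).mem_nhds hu] with v hv
        exact hSa (z, v) hv
      rw [h2.mfderiv_eq]
      exact h1
    · have h1 := hFB.der z u hu
      have h2 : (fun v => S' (z, v)) =ᶠ[𝓝 u] (fun v => SB (z, Nh (z, φB (z, v)))) := by
        filter_upwards [(Fam_slice_open hDBopen z).mem_nhds hu] with v hv
        exact hSb (z, v) hv
      rw [h2.mfderiv_eq]
      exact h1
  · intro z hz
    rcases le_total (l z).re b with hle | hle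
    · left
      have hzA : z ∈ WA := hKA ⟨hz, hle⟩
      refine ⟨⟨hzA, hzero4 z⟩, ?_⟩
      show (z, φA (z, 0)) ∈ D
      rw [h0A z hzA]
      exact hD z hz hle
    · right
      have hle' : a ≤ (l z).re := by linarith
      exact ⟨hKL ⟨hz, hle'⟩, mem_ball_self hρpos⟩
  · intro x hx
    exact Or.inl (hK₀A x hx).1
  · rintro z (hz | hz)
    · rw [hSa _ hz]
      have h1 : (z, φA (z, 0)) ∈ D := hz.2
      rw [h0A z hz.1.1] at h1
      show S (z, φA (z, 0)) = h z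
      rw [h0A z hz.1.1]
      exact hcore z h1
    · rw [hSb _ hz]
      have h1 := (hDBΩ hz).1
      show SB (z, Nh (z, φB (z, 0))) = h z
      rw [h0B z h1, hNh0, hSB0 z (hLW (hZBL hz.1)).2]
  · intro x hx
    rw [hSa x (hK₀A x hx).1]
    exact (hK₀A x hx).2

end OkaP
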