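import Pool.Agent.H.MP_ceb9a9.Sigma
import Pool.Agent.H.MP_ceb9a9.PushFam
import Pool.Agent.H.MP_ceb9a9.ConvInd

set_option autoImplicit false
open Set Metric Filter
open scoped Topology Manifold

noncomputable section
namespace OkaP

variable {m : ℕ} {X : Type} [MetricSpace X] [ChartedSpace (Fin m → ℂ) X]

/-- chart family over `σ` on the ball of radius `R`, of radius `c` over the ball of radius `2 c`
where it is close to `σ (t + u)`, thin elsewhere. -/
structure ERData {p : X} (S : SigD m X p) (R ε : ℝ) where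
  Ef : (Fin m → ℂ) × (Fin m → ℂ) → X
  ρ : ℝ → ℝ
  ρ_cont : Continuous ρ
  ρ_anti : Antitone ρ
  ρ_pos : ∀ s, 0 < ρ s
  ρ_c : ∀ s, s ≤ 2 * S.c → ρ s = S.c
  fam : Fam m Ef {x | ‖x.1‖ < R ∧ ‖x.2‖ < ρ ‖x.1‖}
  core : ∀ t, ‖t‖ < R → Ef (t, 0) = S.σ t
  zero : ∀ u, ‖u‖ < S.c → Ef (0, u) = S.σ u
  near : ∀ t u, ‖t‖ ≤ 2 * S.c → ‖u‖ < S.c →
    Ef (t, u) ∈ S.e.source ∧ ‖S.e (Ef (t, u)) - (t + u)‖ ≤ ε * ‖u‖

theorem ERFam_start [IsManifold 𝓘(ℂ, Fin m → ℂ) ⊤ X] {p : X} (S : SigD m X p) :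
    Fam m (fun x : (Fin m → ℂ) × (Fin m → ℂ) => S.σ (x.1 + x.2))
      (ball (0 : Fin m → ℂ) (4 * S.c) ×ˢ ball (0 : Fin m → ℂ) (4 * S.c)) := by
  have hc := S.c_pos
  have hmem : ∀ t ∈ ball (0 : Fin m → ℂ) (4 * S.c), ∀ u ∈ ball (0 : Fin m → ℂ) (4 * S.c),
      t + u ∈ closedBall (0 : Fin m → ℂ) (16 * S.c) := by
    intro t ht u hu
    rw [mem_ball_zero_iff] at ht hu
    rw [mem_closedBall_zero_iff]
    linarith [norm_add_le t u]
  have hsrc : ∀ w ∈ closedBall (0 : Fin m → ℂ) (16 * S.c), S.σ w ∈ S.e.source ∧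
      S.e (S.σ w) = w := by
    intro w hw
    rw [S.σ_symm w hw]
    exact ⟨S.e.map_target (S.ball_target hw), S.e.right_inv (S.ball_target hw)⟩
  refine ⟨isOpen_ball.prod isOpen_ball, ?_, ?_, ?_⟩
  · exact HolOn.comp (g := fun x : (Fin m → ℂ) × (Fin m → ℂ) => x.1 + x.2) S.σ_hol
      (differentiable_fst.add differentiable_snd).differentiableOn (fun _ _ => mem_univ _)
  · intro z u v hu hv he
    have h1 := hsrc _ (hmem z hu.1 u hu.2)
    have h2 := hsrc _ (hmem z hv.1 v hv.2)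
    have h3 : S.σ (z + u) = S.σ (z + v) := he
    rw [h3] at h1
    have h4 : z + u = z + v := h1.2.symm.trans h2.2
    exact add_left_cancel h4
  · intro z u hu
    have h1 := hsrc _ (hmem z hu.1 u hu.2)
    have h2 : HolOn m (fun v : Fin m → ℂ => S.σ (z + v)) univ :=
      HolOn.comp (g := fun v : Fin m → ℂ => z + v) S.σ_hol
        (differentiable_id.const_add z).differentiableOn (fun _ _ => mem_univ _)
    show Function.Bijective (mfderiv 𝓘(ℂ, Fin m → ℂ) 𝓘(ℂ, Fin m → ℂ)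
      (fun v : Fin m → ℂ => S.σ (z + v)) u)
    rw [bijective_mfderiv_iff isOpen_univ (mem_univ u) h2 S.e_chart h1.1]
    have h3 : (fun v : Fin m → ℂ => S.e (S.σ (z + v))) =ᶠ[𝓝 u] fun v => z + v := by
      filter_upwards [isOpen_ball.mem_nhds hu.2] with v hv
      exact (hsrc _ (hmem z hu.1 v hv)).2
    rw [h3.fderiv_eq]
    have h4 : fderiv ℂ (fun v : Fin m → ℂ => z + v) u = ContinuousLinearMap.id ℂ (Fin m → ℂ) := by
      rw [fderiv_const_add]; exact fderiv_id
    rw [h4]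
    exact Function.bijective_id

/-- the family before normalisation. -/
theorem er_pre [IsManifold 𝓘(ℂ, Fin m → ℂ) ⊤ X] {p : X} (S : SigD m X p) {R : ℝ}
    (hR : 4 * S.c < R) {ε : ℝ} (hε : 0 < ε) :
    ∃ (D : Set ((Fin m → ℂ) × (Fin m → ℂ))) (Ef : (Fin m → ℂ) × (Fin m → ℂ) → X), Fam m Ef D ∧
      (∀ t ∈ closedBall (0 : Fin m → ℂ) R, (t, 0) ∈ D) ∧
      closedBall (0 : Fin m → ℂ) (3 * S.c) ×ˢ closedBall (0 : Fin m → ℂ) (3 * S.c) ⊆ D ∧
      (∀ t, (t, 0) ∈ D → Ef (t, 0) = S.σ t) ∧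
      ∀ t ∈ closedBall (0 : Fin m → ℂ) (3 * S.c), ∀ u ∈ closedBall (0 : Fin m → ℂ) (3 * S.c),
        dist (S.σ (t + u)) (Ef (t, u)) < ε := by
  have hc := S.c_pos
  have key := convex_chain (K := closedBall (0 : Fin m → ℂ) (7 * S.c / 2))
    (L := closedBall (0 : Fin m → ℂ) R) (U := ball (0 : Fin m → ℂ) (4 * S.c))
    (isCompact_closedBall _ _) (convex_closedBall _ _) (isCompact_closedBall _ _)
    (convex_closedBall _ _) (closedBall_subset_closedBall (by linarith)) isOpen_ball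
    (closedBall_subset_ball (by linarith))
    (fun K' => ∀ ε > 0, ∃ (D : Set ((Fin m → ℂ) × (Fin m → ℂ)))
      (Ef : (Fin m → ℂ) × (Fin m → ℂ) → X), Fam m Ef D ∧
      (∀ t ∈ K', (t, 0) ∈ D) ∧
      closedBall (0 : Fin m → ℂ) (3 * S.c) ×ˢ closedBall (0 : Fin m → ℂ) (3 * S.c) ⊆ D ∧
      (∀ t, (t, 0) ∈ D → Ef (t, 0) = S.σ t) ∧
      ∀ t ∈ closedBall (0 : Fin m → ℂ) (3 * S.c), ∀ u ∈ closedBall (0 : Fin m → ℂ) (3 * S.c),
        dist (S.σ (t + u)) (Ef (t, u)) < ε) ?_ ?_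
  · exact key ε hε
  · intro K' _ _ _ hK'U _ ε hε
    refine ⟨_, _, ERFam_start S, ?_, ?_, ?_, ?_⟩
    · intro t ht
      exact ⟨hK'U ht, mem_ball_self (by positivity)⟩
    · exact prod_mono (closedBall_subset_ball (by linarith)) (closedBall_subset_ball (by linarith))
    · intro t _
      show S.σ (t + 0) = S.σ t
      rw [add_zero]
    · intro t _ u _
      show dist (S.σ (t + u)) (S.σ (t + u)) < ε
      rw [dist_self]; exact hε
  · intro K' l b hK'c hK'v hKK' _ hlb hP ε hε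
    obtain ⟨D, Ef, hF, h1, h2, h3, h4⟩ := hP (ε / 2) (by positivity)
    obtain ⟨z0, hz0, hz0m⟩ := (isCompact_closedBall (0 : Fin m → ℂ) (7 * S.c / 2)).exists_isMaxOn
      ⟨0, mem_closedBall_self (by positivity)⟩
      (f := fun z => (l z).re) (Complex.continuous_re.comp l.continuous).continuousOn
    have hz0b : (l z0).re < b := hlb z0 hz0
    have hsub3 : closedBall (0 : Fin m → ℂ) (3 * S.c) ⊆ closedBall (0 : Fin m → ℂ) (7 * S.c / 2) :=
      closedBall_subset_closedBall (by linarith)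
    obtain ⟨D', S', hF', h1', h2', h3', h4'⟩ := push_fam hK'c hK'v l
      (a := ((l z0).re + b) / 2) (b := b) (by linarith) isOpen_univ (subset_univ _) S.σ_hol hF
      (fun z hz hzb => h1 z ⟨hz, hzb⟩) h3 (isCompact_closedBall (0 : Fin m → ℂ) (3 * S.c))
      (hsub3.trans hKK') (fun z hz => by
        have := hz0m (hsub3 hz)
        have h5 : (l z).re ≤ (l z0).re := this
        linarith) (r₀ := 3 * S.c) (by positivity) h2 (ε := ε / 2) (by positivity)
    refine ⟨D', S', hF', h1', h2', h3', fun t ht u hu => ?_⟩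
    calc dist (S.σ (t + u)) (S' (t, u)) ≤ dist (S.σ (t + u)) (Ef (t, u))
          + dist (Ef (t, u)) (S' (t, u)) := dist_triangle _ _ _
      _ < ε / 2 + ε / 2 := add_lt_add (h4 t ht u hu) (h4' (t, u) ⟨ht, hu⟩)
      _ = ε := by ring

theorem er_exists [IsManifold 𝓘(ℂ, Fin m → ℂ) ⊤ X] {p : X} (S : SigD m X p) {R : ℝ}
    (hR : 4 * S.c < R) {ε : ℝ} (hε : 0 < ε) : Nonempty (ERData S R ε) := by
  classical
  have hc := S.c_pos
  set c := S.c with hcdef
  set e2 : ℝ := min (c / 4) (ε * c / 3) with he2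
  have he2pos : 0 < e2 := lt_min (by positivity) (by positivity)
  have he2c : e2 ≤ c / 4 := min_le_left _ _
  have he2e : e2 ≤ ε * c / 3 := min_le_right _ _
  have hsub6 : closedBall (0 : Fin m → ℂ) (6 * c) ⊆ closedBall (0 : Fin m → ℂ) (16 * c) :=
    closedBall_subset_closedBall (by linarith)
  have hC : IsCompact (S.e.symm '' closedBall (0 : Fin m → ℂ) (6 * c)) :=
    (isCompact_closedBall _ _).image_of_continuousOn
      (S.e.continuousOn_symm.mono (hsub6.trans S.ball_target))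
  have hCs : S.e.symm '' closedBall (0 : Fin m → ℂ) (6 * c) ⊆ S.e.source := by
    rintro _ ⟨w, hw, rfl⟩
    exact S.e.map_target (S.ball_target (hsub6 hw))
  obtain ⟨e1, he1, hnear⟩ := chart_near S.e hC hCs he2pos
  obtain ⟨D, Ef0, hF, hD1, hD2, hcore, hdist⟩ := er_pre S hR he1
  -- closeness in the chart
  have hch : ∀ t ∈ closedBall (0 : Fin m → ℂ) (3 * c), ∀ u ∈ closedBall (0 : Fin m → ℂ) (3 * c),
      Ef0 (t, u) ∈ S.e.source ∧ ‖S.e (Ef0 (t, u)) - (t + u)‖ ≤ e2 := by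
    intro t ht u hu
    have htu : t + u ∈ closedBall (0 : Fin m → ℂ) (6 * c) := by
      rw [mem_closedBall_zero_iff] at ht hu ⊢
      linarith [norm_add_le t u]
    have h1 : S.σ (t + u) = S.e.symm (t + u) := S.σ_symm _ (hsub6 htu)
    have h2 := hnear (S.σ (t + u)) (h1 ▸ mem_image_of_mem _ htu) (Ef0 (t, u)) (hdist t ht u hu)
    refine ⟨h2.1, ?_⟩
    have h3 : S.e (S.σ (t + u)) = t + u := by
      rw [h1]; exact S.e.right_inv (S.ball_target (hsub6 htu))
    rw [← h3, norm_sub_rev, h3, ← h3]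
    exact h2.2.le
  -- the map φ
  have h3c : ∀ t ∈ closedBall (0 : Fin m → ℂ) (3 * c), DifferentiableOn ℂ
      (fun u => S.e (Ef0 (t, u))) (ball (0 : Fin m → ℂ) (3 * c)) := by
    intro t ht
    have h1 : HolOn m (fun u => Ef0 (t, u)) (ball (0 : Fin m → ℂ) (3 * c)) :=
      (Fam_slice hF t).mono fun u hu => hD2 ⟨ht, ball_subset_closedBall hu⟩
    refine (h1.hchart S.e_chart).mono fun u hu => ⟨hu, ?_⟩
    exact (hch t ht u (ball_subset_closedBall hu)).1
  have h03 : (0 : Fin m → ℂ) ∈ closedBall (0 : Fin m → ℂ) (3 * c) :=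
    mem_closedBall_self (by positivity)
  have h0b3 : (0 : Fin m → ℂ) ∈ ball (0 : Fin m → ℂ) (3 * c / 2) :=
    mem_ball_self (by positivity)
  set φ : (Fin m → ℂ) → (Fin m → ℂ) := fun u => S.e (Ef0 (0, u)) with hφ
  have hφd : DifferentiableOn ℂ φ (ball (0 : Fin m → ℂ) (3 * c)) := h3c 0 h03
  have hφn : ∀ u ∈ ball (0 : Fin m → ℂ) (3 * c), ‖φ u - u‖ ≤ e2 := by
    intro u hu
    have := (hch 0 h03 u (ball_subset_closedBall hu)).2
    rwa [zero_add] at this
  have hφ0 : φ 0 = 0 := by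
    show S.e (Ef0 (0, 0)) = 0
    rw [hcore 0 (hD1 0 (mem_closedBall_self (by linarith))), (S.σ_eq 0).2 rfl]
    exact S.e_p
  have hni := near_id (f := φ) (a := 0) (r := 3 * c) (δ := e2) (by positivity) he2pos.le
    (by linarith) hφd hφn
  obtain ⟨g, hgd, hg⟩ := near_id_param (Z := Fin m → ℂ) (E := Fin m → ℂ)
    (f := fun x => φ x.2) (W := univ) (r := 3 * c) (δ := e2) isOpen_univ (by positivity) he2pos.le
    (by linarith)
    (hφd.comp (differentiable_snd.differentiableOn) (fun x hx => hx.2))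
    (fun z _ x hx => hφn x hx)
  set I : (Fin m → ℂ) → (Fin m → ℂ) := fun u => g (0, u) with hI
  have hI1 : ∀ y ∈ ball (0 : Fin m → ℂ) (5 * c / 4), I y ∈ ball (0 : Fin m → ℂ) (3 * c / 2) ∧
      φ (I y) = y ∧ ‖I y - y‖ ≤ e2 := by
    intro y hy
    exact hg 0 (mem_univ _) y (ball_subset_ball (by linarith) hy)
  have hId : DifferentiableOn ℂ I (ball (0 : Fin m → ℂ) (5 * c / 4)) := by
    refine DifferentiableOn.comp (g := g) (f := fun u : Fin m → ℂ => (0, u)) hgd
      ((differentiable_const _).prodMk differentiable_id).differentiableOn (fun u hu => ?_)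
    exact ⟨mem_univ _, ball_subset_ball (by linarith) hu⟩
  have h054 : (0 : Fin m → ℂ) ∈ ball (0 : Fin m → ℂ) (5 * c / 4) := mem_ball_self (by positivity)
  have hI0 : I 0 = 0 := by
    have h1 := hI1 0 h054
    exact hni.1 h1.1 h0b3 (h1.2.1.trans hφ0.symm)
  have hIinj : ∀ u ∈ ball (0 : Fin m → ℂ) (5 * c / 4), ∀ v ∈ ball (0 : Fin m → ℂ) (5 * c / 4),
      I u = I v → u = v := by
    intro u hu v hv h
    rw [← (hI1 u hu).2.1, ← (hI1 v hv).2.1, h]
  have hI2 : ∀ u ∈ ball (0 : Fin m → ℂ) (5 * c / 4), ‖I u‖ ≤ 2 * ‖u‖ := by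
    intro u hu
    have h1 := hni.2.2.1 (I u) (hI1 u hu).1 0 h0b3
    rw [sub_zero, hφ0, sub_zero, (hI1 u hu).2.1] at h1
    exact h1
  have hIder : ∀ u ∈ ball (0 : Fin m → ℂ) (5 * c / 4), Function.Bijective (fderiv ℂ I u) := by
    intro u hu
    have h1 : DifferentiableAt ℂ I u := hId.differentiableAt (isOpen_ball.mem_nhds hu)
    have h2 : DifferentiableAt ℂ φ (I u) := hφd.differentiableAt
      (isOpen_ball.mem_nhds (ball_subset_ball (by linarith) (hI1 u hu).1))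
    have h3 : (fun v => φ (I v)) =ᶠ[𝓝 u] id := by
      filter_upwards [isOpen_ball.mem_nhds hu] with v hv
      exact (hI1 v hv).2.1
    have h4 : (fderiv ℂ φ (I u)).comp (fderiv ℂ I u) = ContinuousLinearMap.id ℂ _ := by
      rw [← fderiv_fun_comp u h2 h1, h3.fderiv_eq, fderiv_id]
    have hinj : ∀ v, fderiv ℂ I u v = 0 → v = 0 := by
      intro v hv
      have h5 := congrArg (fun A : (Fin m → ℂ) →L[ℂ] (Fin m → ℂ) => A v) h4
      simp only [ContinuousLinearMap.comp_apply, hv, map_zero, ContinuousLinearMap.id_apply] at h5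
      exact h5.symm
    obtain ⟨B, hB⟩ := scv6_equiv_of_inj (fderiv ℂ I u) hinj
    rw [← hB]
    exact B.bijective
  -- the radius function
  obtain ⟨ρ1, hρ1, hρ1c, hρ1D⟩ : ∃ ρ1 > 0, ρ1 ≤ c ∧
      closedBall (0 : Fin m → ℂ) R ×ˢ closedBall (0 : Fin m → ℂ) (2 * ρ1) ⊆ D := by
    have h1 : closedBall (0 : Fin m → ℂ) R ×ˢ {(0 : Fin m → ℂ)} ⊆ D := by
      rintro ⟨t, u⟩ ⟨ht, hu⟩
      rw [mem_singleton_iff] at hu
      simp only at hu ht
      rw [hu]
      exact hD1 t ht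
    obtain ⟨u, v, _, hv, hu', hv', huv⟩ := generalized_tube_lemma
      (isCompact_closedBall (0 : Fin m → ℂ) R) isCompact_singleton hF.isOpen h1
    obtain ⟨η, hη, hηv⟩ := Metric.isOpen_iff.1 hv 0 (hv' (mem_singleton _))
    refine ⟨min c (η / 3), lt_min hc (by positivity), min_le_left _ _, ?_⟩
    refine (prod_mono hu' ?_).trans huv
    refine (closedBall_subset_ball ?_).trans hηv
    have : min c (η / 3) ≤ η / 3 := min_le_right _ _
    linarith
  set ρ : ℝ → ℝ := fun s => max ρ1 (min c (c + (ρ1 - c) * ((s - 2 * c) / c))) with hρ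
  have hρle : ∀ s, ρ s ≤ c := fun s => max_le hρ1c (min_le_left _ _)
  have hρ3 : ∀ s, 3 * c ≤ s → ρ s = ρ1 := by
    intro s hs
    have h1 : 1 ≤ (s - 2 * c) / c := by
      rw [le_div_iff₀ hc]; linarith
    have h2 : (ρ1 - c) * ((s - 2 * c) / c) ≤ (ρ1 - c) * 1 :=
      mul_le_mul_of_nonpos_left h1 (by linarith)
    refine max_eq_left ?_
    refine (min_le_right _ _).trans ?_
    linarith
  have hρcont : Continuous ρ := by
    refine continuous_const.max (continuous_const.min ?_)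
    exact continuous_const.add (continuous_const.mul
      ((continuous_id.sub continuous_const).div_const _))
  refine ⟨⟨fun x => Ef0 (x.1, I x.2), ρ, hρcont, ?_, ?_, ?_, ?_, ?_, ?_, ?_⟩⟩
  · intro s s' hss
    refine max_le_max le_rfl (min_le_min le_rfl ?_)
    have h1 : (s - 2 * c) / c ≤ (s' - 2 * c) / c := by
      gcongr
    have h2 : (ρ1 - c) * ((s' - 2 * c) / c) ≤ (ρ1 - c) * ((s - 2 * c) / c) :=
      mul_le_mul_of_nonpos_left h1 (by linarith)
    linarith
  · intro s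
    exact lt_of_lt_of_le hρ1 (le_max_left _ _)
  · intro s hs
    have h1 : (s - 2 * c) / c ≤ 0 := div_nonpos_of_nonpos_of_nonneg (by linarith) hc.le
    have h2 : 0 ≤ (ρ1 - c) * ((s - 2 * c) / c) := mul_nonneg_of_nonpos_of_nonpos (by linarith) h1
    show max ρ1 (min c (c + (ρ1 - c) * ((s - 2 * c) / c))) = c
    rw [min_eq_left (by linarith), max_eq_right hρ1c]
  · have h54 : ∀ x : (Fin m → ℂ) × (Fin m → ℂ), ‖x.2‖ < ρ ‖x.1‖ →
        x.2 ∈ ball (0 : Fin m → ℂ) (5 * c / 4) := by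
      intro x hx
      rw [mem_ball_zero_iff]
      have := hρle ‖x.1‖
      linarith
    refine Fam.comp (φ := fun x => I x.2) hF ?_ ?_ ?_ ?_ ?_
    · exact (isOpen_lt continuous_fst.norm continuous_const).inter
        (isOpen_lt continuous_snd.norm (hρcont.comp continuous_fst.norm))
    · exact hId.comp differentiable_snd.differentiableOn (fun x hx => h54 x hx.2)
    · rintro z u ⟨hz, hu⟩
      simp only at hz hu
      have hu54 := h54 (z, u) hu
      rcases le_or_gt ‖z‖ (3 * c) with h3 | h3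
      · refine hD2 ⟨mem_closedBall_zero_iff.2 h3, mem_closedBall_zero_iff.2 ?_⟩
        have h4 := hI2 u hu54
        have h5 := hρle ‖z‖
        have h6 : ‖u‖ < ρ ‖z‖ := hu
        show ‖I u‖ ≤ 3 * c
        linarith
      · refine hρ1D ⟨mem_closedBall_zero_iff.2 hz.le, mem_closedBall_zero_iff.2 ?_⟩
        have h4 := hI2 u hu54
        have h6 : ‖u‖ < ρ ‖z‖ := hu
        rw [hρ3 _ h3.le] at h6
        show ‖I u‖ ≤ 2 * ρ1
        linarith
    · rintro z u v ⟨_, hu⟩ ⟨_, hv⟩ h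
      exact hIinj u (h54 (z, u) hu) v (h54 (z, v) hv) h
    · rintro z u ⟨_, hu⟩
      exact hIder u (h54 (z, u) hu)
  · intro t ht
    show Ef0 (t, I 0) = S.σ t
    rw [hI0]
    exact hcore t (hD1 t (mem_closedBall_zero_iff.2 ht.le))
  · intro u hu
    have hu54 : u ∈ ball (0 : Fin m → ℂ) (5 * c / 4) := mem_ball_zero_iff.2 (by linarith)
    have h1 := hI1 u hu54
    have h2 := hch 0 h03 (I u) (ball_subset_closedBall (ball_subset_ball (by linarith) h1.1))
    have h3 : S.e (Ef0 (0, I u)) = u := h1.2.1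
    show Ef0 (0, I u) = S.σ u
    rw [S.σ_symm u (mem_closedBall_zero_iff.2 (by linarith)), ← h3, S.e.left_inv h2.1, h3]
  · intro t u ht hu
    have ht3 : t ∈ closedBall (0 : Fin m → ℂ) (3 * c) := mem_closedBall_zero_iff.2 (by linarith)
    have hu54 : u ∈ ball (0 : Fin m → ℂ) (5 * c / 4) := mem_ball_zero_iff.2 (by linarith)
    have hI3 : ∀ v ∈ ball (0 : Fin m → ℂ) (5 * c / 4), I v ∈ ball (0 : Fin m → ℂ) (3 * c) :=
      fun v hv => ball_subset_ball (by linarith) (hI1 v hv).1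
    have h2 := hch t ht3 (I u) (ball_subset_closedBall (hI3 u hu54))
    refine ⟨h2.1, ?_⟩
    set ψ : (Fin m → ℂ) → (Fin m → ℂ) := fun v => S.e (Ef0 (t, I v)) - (t + v) with hψ
    have hψd : DifferentiableOn ℂ ψ (ball (0 : Fin m → ℂ) (5 * c / 4)) := by
      refine DifferentiableOn.sub ?_ (differentiable_id.const_add t).differentiableOn
      exact (h3c t ht3).comp hId hI3
    have hψ0 : ψ 0 = 0 := by
      show S.e (Ef0 (t, I 0)) - (t + 0) = 0
      have ht16 : t ∈ closedBall (0 : Fin m → ℂ) (16 * c) := mem_closedBall_zero_iff.2 (by linarith)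
      rw [hI0, hcore t (hD1 t (mem_closedBall_zero_iff.2 (by linarith))), S.σ_symm t ht16,
        S.e.right_inv (S.ball_target ht16), add_zero, sub_self]
    have hψm : MapsTo ψ (ball (0 : Fin m → ℂ) (5 * c / 4)) (closedBall (ψ 0) (2 * e2)) := by
      intro v hv
      rw [hψ0, mem_closedBall_zero_iff]
      have h5 := (hch t ht3 (I v) (ball_subset_closedBall (hI3 v hv))).2
      have h6 := (hI1 v hv).2.2
      have h7 : ψ v = (S.e (Ef0 (t, I v)) - (t + I v)) + (I v - v) := by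
        simp only [hψ]; abel
      rw [h7]
      exact (norm_add_le _ _).trans (by linarith)
    have h8 := Complex.dist_le_div_mul_dist_of_mapsTo_ball hψd hψm hu54
    rw [hψ0, dist_zero_right, dist_zero_right] at h8
    have h9 : 2 * e2 / (5 * c / 4) ≤ ε := by
      rw [div_le_iff₀ (by positivity)]
      nlinarith
    calc ‖ψ u‖ ≤ 2 * e2 / (5 * c / 4) * ‖u‖ := h8
      _ ≤ ε * ‖u‖ := mul_le_mul_of_nonneg_right h9 (norm_nonneg _)

end OkaP
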