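import Pool.Agent.H.MP_ceb9a9.EtD
import Pool.Agent.H.MP_ceb9a9.BoxBisect

/-!
# MP_ceb9a9: continuous etale families over continuous maps of boxes and retracts
-/

set_option autoImplicit false

open scoped Manifold

namespace OkaP

open Set Metric Topology

variable {m : ℕ} {X : Type} [MetricSpace X] [ChartedSpace (Fin m → ℂ) X]

/-- the family of translates in a chart over a continuous map with values in the chart -/
theorem esCont_chart {T : Type} [TopologicalSpace T] {e : OpenPartialHomeomorph X (Fin m → ℂ)}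
    (he : HChart m e) {S : Set T} {G : T → X} (hG : ContinuousOn G S) (hGe : MapsTo G S e.source)
    {s : ℝ} (hs : ∀ x ∈ S, ∀ u ∈ ball (0 : Fin m → ℂ) s, e (G x) + u ∈ e.target) :
    EtCont (fun q : T × (Fin m → ℂ) => e.symm (e (G q.1) + q.2)) S s := by
  constructor
  · refine e.continuousOn_symm.comp ?_ ?_
    · refine ContinuousOn.add ?_ continuous_snd.continuousOn
      have h1 : ContinuousOn (fun x => e (G x)) S := e.continuousOn.comp hG hGe
      exact h1.comp continuous_fst.continuousOn (fun q hq => hq.1)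
    · rintro ⟨x, u⟩ hq
      exact hs x hq.1 u hq.2
  · intro x hx
    exact holOn_symm (E := Fin m → ℂ) he (φ := fun u => e (G x) + u)
      ((differentiable_id.const_add (e (G x))).differentiableOn) (fun u hu => hs x hx u hu)
  · intro x hx u hu v hv huv
    have h := e.symm.injOn (hs x hx u hu) (hs x hx v hv) huv
    exact add_left_cancel h
  · intro x hx u hu
    have hd1 : MDifferentiableAt 𝓘(ℂ, Fin m → ℂ) 𝓘(ℂ, Fin m → ℂ) e.symm (e (G x) + u) :=
      he.symm.mdifferentiableAt (hs x hx u hu)
    have hd2 : MDifferentiableAt 𝓘(ℂ, Fin m → ℂ) 𝓘(ℂ, Fin m → ℂ)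
        (fun v : Fin m → ℂ => e (G x) + v) u :=
      ((differentiable_id.const_add (e (G x))).differentiableAt).mdifferentiableAt
    have h3 := mfderiv_comp (I := 𝓘(ℂ, Fin m → ℂ)) (I' := 𝓘(ℂ, Fin m → ℂ))
      (I'' := 𝓘(ℂ, Fin m → ℂ)) u hd1 hd2
    have h4 : Function.Bijective (mfderiv 𝓘(ℂ, Fin m → ℂ) 𝓘(ℂ, Fin m → ℂ)
        (e.symm ∘ (fun v : Fin m → ℂ => e (G x) + v)) u) := by
      rw [h3]
      have h5 : Function.Bijective (mfderiv 𝓘(ℂ, Fin m → ℂ) 𝓘(ℂ, Fin m → ℂ) e.symm
          (e (G x) + u)) := he.symm.mfderiv_bijective (hs x hx u hu)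
      have h6 : Function.Bijective (mfderiv 𝓘(ℂ, Fin m → ℂ) 𝓘(ℂ, Fin m → ℂ)
          (fun v : Fin m → ℂ => e (G x) + v) u) := by
        rw [mfderiv_eq_fderiv, fderiv_const_add]
        have : fderiv ℂ (fun v : Fin m → ℂ => v) u = ContinuousLinearMap.id ℂ _ := fderiv_fun_id
        rw [this]
        exact Function.bijective_id
      exact h5.comp h6
    exact h4

theorem esCont_box_local [IsManifold 𝓘(ℂ, Fin m → ℂ) ⊤ X] {T : Type} [PseudoMetricSpace T]
    {Q : Set T} {G : T → X} (hG : ContinuousOn G Q) {z : T} (hz : z ∈ Q) :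
    ∃ ε > 0, ∀ S : Set T, S ⊆ Q → S ⊆ ball z ε →
      ∃ r > 0, ∃ Φ : T × (Fin m → ℂ) → X, EtCont Φ S r ∧ ∀ x ∈ S, Φ (x, 0) = G x := by
  obtain ⟨e, he, hze⟩ := HChart.exists_at (m := m) (G z)
  obtain ⟨s, hs, hst⟩ := Metric.isOpen_iff.1 e.open_target (e (G z)) (e.map_source hze)
  have h1 : ∀ᶠ x in 𝓝[Q] z, G x ∈ e.source := (hG z hz) (e.open_source.mem_nhds hze)
  have h2 : ∀ᶠ x in 𝓝[Q] z, e (G x) ∈ ball (e (G z)) (s / 2) := by
    have hc : ContinuousWithinAt (fun x => e (G x)) Q z :=
      ContinuousAt.comp_continuousWithinAt (e.continuousAt hze) (hG z hz)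
    exact hc (ball_mem_nhds _ (by positivity))
  have h3 := h1.and h2
  rw [Filter.eventually_iff, Metric.mem_nhdsWithin_iff] at h3
  obtain ⟨ε, hε, h4⟩ := h3
  refine ⟨ε, hε, fun S hSQ hSz => ⟨s / 2, by positivity,
    fun q => e.symm (e (G q.1) + q.2), esCont_chart he (hG.mono hSQ) ?_ ?_, ?_⟩⟩
  · intro x hx
    exact (h4 ⟨hSz hx, hSQ hx⟩).1
  · intro x hx u hu
    apply hst
    have h5 := (h4 ⟨hSz hx, hSQ hx⟩).2
    rw [mem_ball, dist_eq_norm] at h5 ⊢
    rw [mem_ball_zero_iff] at hu
    calc ‖e (G x) + u - e (G z)‖ = ‖(e (G x) - e (G z)) + u‖ := by congr 1; abel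
      _ ≤ ‖e (G x) - e (G z)‖ + ‖u‖ := norm_add_le _ _
      _ < s / 2 + s / 2 := add_lt_add h5 hu
      _ = s := by ring
  · intro x hx
    have h5 := (h4 ⟨hSz hx, hSQ hx⟩).1
    simp only [add_zero]
    exact e.left_inv h5

theorem esCont_box [IsManifold 𝓘(ℂ, Fin m → ℂ) ⊤ X] {N : ℕ} {a b : Fin N → ℝ} (hab : a ≤ b)
    {G : (Fin N → ℝ) → X} (hG : ContinuousOn G (Icc a b)) :
    ∃ r > 0, ∃ Φ : (Fin N → ℝ) × (Fin m → ℂ) → X, EtCont Φ (Icc a b) r ∧
      ∀ x ∈ Icc a b, Φ (x, 0) = G x := by
  refine box_bisect (fun a' b' => ∃ r > 0, ∃ Φ : (Fin N → ℝ) × (Fin m → ℂ) → X,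
    EtCont Φ (Icc a' b') r ∧ ∀ x ∈ Icc a' b', Φ (x, 0) = G x) a b hab ?_ ?_
  · intro z hz
    obtain ⟨ε, hε, h⟩ := esCont_box_local (m := m) hG hz
    exact ⟨ε, hε, fun a' b' _ h1 h2 => h _ h1 h2⟩
  · rintro a' b' hab' hsub i c hc ⟨r1, hr1, Φ1, h1, hb1⟩ ⟨r2, hr2, Φ2, h2, hb2⟩
    classical
    set F : Set (Fin N → ℝ) := {x | x ∈ Icc a' b' ∧ x i = c} with hF
    have hFc : IsCompact F := by
      have : F = Icc a' b' ∩ {x | x i = c} := rfl
      rw [this]
      exact isCompact_Icc.inter_right (isClosed_eq (continuous_apply i) continuous_const)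
    have hF1 : F ⊆ Icc a' (Function.update b' i c) := by
      rintro x ⟨hx, hxi⟩
      refine ⟨hx.1, fun j => ?_⟩
      rcases eq_or_ne j i with rfl | hj
      · rw [Function.update_self]; exact hxi.le
      · rw [Function.update_of_ne hj]; exact hx.2 j
    have hF2 : F ⊆ Icc (Function.update a' i c) b' := by
      rintro x ⟨hx, hxi⟩
      refine ⟨fun j => ?_, hx.2⟩
      rcases eq_or_ne j i with rfl | hj
      · rw [Function.update_self]; exact hxi.ge
      · rw [Function.update_of_ne hj]; exact hx.1 j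
    have hQ2 : Icc (Function.update a' i c) b' ⊆ Icc a' b' := by
      rintro x ⟨hx1, hx2⟩
      refine ⟨fun j => ?_, hx2⟩
      rcases eq_or_ne j i with rfl | hj
      · have := hx1 j
        rw [Function.update_self] at this
        exact hc.1.trans this
      · have := hx1 j
        rw [Function.update_of_ne hj] at this
        exact this
    have hQ2c : ∀ x ∈ Icc (Function.update a' i c) b', c ≤ x i := by
      intro x hx
      have := hx.1 i
      rwa [Function.update_self] at this
    have hQ1c : ∀ x ∈ Icc a' (Function.update b' i c), x i ≤ c := by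
      intro x hx
      have := hx.2 i
      rwa [Function.update_self] at this
    have hpi : ∀ x ∈ Icc a' b', Function.update x i c ∈ F := by
      intro x hx
      refine ⟨⟨fun j => ?_, fun j => ?_⟩, Function.update_self i c x⟩
      · rcases eq_or_ne j i with rfl | hj
        · rw [Function.update_self]; exact hc.1
        · rw [Function.update_of_ne hj]; exact hx.1 j
      · rcases eq_or_ne j i with rfl | hj
        · rw [Function.update_self]; exact hc.2
        · rw [Function.update_of_ne hj]; exact hx.2 j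
    obtain ⟨r, hr, hrr1, δ, hδ, hδ0, hδm⟩ := EtCont.transition (h1.mono hF1 le_rfl)
      (h2.mono hF2 le_rfl) hr1 hr2 hFc
      (fun x hx => (hb1 x (hF1 hx)).trans (hb2 x (hF2 hx)).symm)
    have hun : Icc a' b' = Icc a' (Function.update b' i c) ∪ Icc (Function.update a' i c) b' := by
      ext x
      constructor
      · intro hx
        rcases le_total (x i) c with hxc | hxc
        · left
          refine ⟨hx.1, fun j => ?_⟩
          rcases eq_or_ne j i with rfl | hj
          · rw [Function.update_self]; exact hxc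
          · rw [Function.update_of_ne hj]; exact hx.2 j
        · right
          refine ⟨fun j => ?_, hx.2⟩
          rcases eq_or_ne j i with rfl | hj
          · rw [Function.update_self]; exact hxc
          · rw [Function.update_of_ne hj]; exact hx.1 j
      · rintro (hx | hx)
        · refine ⟨hx.1, fun j => ?_⟩
          rcases eq_or_ne j i with rfl | hj
          · have := hx.2 j
            rw [Function.update_self] at this
            exact this.trans hc.2
          · have := hx.2 j
            rw [Function.update_of_ne hj] at this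
            exact this
        · exact hQ2 hx
    -- the family on the second box
    have hcu : Continuous (fun x : Fin N → ℝ => Function.update x i c) :=
      continuous_id.update i continuous_const
    have h3 : EtCont (fun q : (Fin N → ℝ) × (Fin m → ℂ) =>
        Φ2 (q.1, δ (Function.update q.1 i c, q.2))) (Icc (Function.update a' i c) b') r := by
      have h4 : EtCont (fun q : (Fin N → ℝ) × (Fin m → ℂ) => δ (Function.update q.1 i c, q.2))
          (Icc (Function.update a' i c) b') r :=
        hδ.pullback hcu.continuousOn (fun x hx => hpi x (hQ2 hx))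
      refine EtCont.comp h2 h4 ?_
      intro x hx u hu
      exact (hδm _ (hpi x (hQ2 hx)) u hu).1
    refine ⟨r, hr, fun q => if q.1 i ≤ c then Φ1 q
      else Φ2 (q.1, δ (Function.update q.1 i c, q.2)), ?_, ?_⟩
    · rw [hun]
      refine EtCont.union_closed ?_ ?_ isClosed_Icc isClosed_Icc
      · refine (h1.mono subset_rfl hrr1).congr ?_
        intro x hx u _
        simp only [hQ1c x hx, if_true]
      · refine h3.congr ?_
        intro x hx u hu
        by_cases hxc : x i ≤ c
        · have hxi : x i = c := le_antisymm hxc (hQ2c x hx)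
          have hxF : x ∈ F := ⟨hQ2 hx, hxi⟩
          have hup : Function.update x i c = x := by
            rw [← hxi]; exact Function.update_eq_self i x
          simp only [hxc, if_true, hup]
          exact ((hδm x hxF u hu).2).symm
        · simp only [hxc, if_false]
    · intro x hx
      by_cases hxc : x i ≤ c
      · simp only [hxc, if_true]
        refine hb1 x ⟨hx.1, fun j => ?_⟩
        rcases eq_or_ne j i with rfl | hj
        · rw [Function.update_self]; exact hxc
        · rw [Function.update_of_ne hj]; exact hx.2 j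
      · simp only [hxc, if_false]
        rw [hδ0 _ (hpi x hx)]
        refine hb2 x ⟨fun j => ?_, hx.2⟩
        rcases eq_or_ne j i with rfl | hj
        · rw [Function.update_self]; exact (not_le.1 hxc).le
        · rw [Function.update_of_ne hj]; exact hx.1 j

theorem esCont [IsManifold 𝓘(ℂ, Fin m → ℂ) ⊤ X] {T : Type} [NormedAddCommGroup T]
    [NormedSpace ℝ T] [FiniteDimensional ℝ T] {K : Set T} (hK : IsCompact K) {ρ : T → T}
    (hρ : Continuous ρ) (hρK : ∀ x, ρ x ∈ K) (hρid : ∀ x ∈ K, ρ x = x) {G : T → X}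
    (hG : ContinuousOn G K) :
    ∃ r > 0, ∃ Φ : T × (Fin m → ℂ) → X, EtCont Φ K r ∧ ∀ x ∈ K, Φ (x, 0) = G x := by
  set N := Module.finrank ℝ T with hN
  let L : T ≃L[ℝ] (Fin N → ℝ) := ContinuousLinearEquiv.ofFinrankEq (by simp [hN])
  have hLK : IsCompact (L '' K) := hK.image L.continuous
  obtain ⟨M, hM⟩ := hLK.isBounded.subset_closedBall (0 : Fin N → ℝ)
  have hM0 : 0 ≤ max M 0 := le_max_right _ _
  have hbox : ∀ x ∈ K, L x ∈ Icc (fun _ : Fin N => -(max M 0)) (fun _ : Fin N => max M 0) := by
    intro x hx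
    have h1 : L x ∈ closedBall (0 : Fin N → ℝ) M := hM ⟨x, hx, rfl⟩
    rw [mem_closedBall_zero_iff] at h1
    have h2 : ∀ j, |L x j| ≤ max M 0 := fun j =>
      (Real.norm_eq_abs (L x j) ▸ norm_le_pi_norm (L x) j).trans (h1.trans (le_max_left _ _))
    exact ⟨fun j => (abs_le.1 (h2 j)).1, fun j => (abs_le.1 (h2 j)).2⟩
  have hle : (fun _ : Fin N => -(max M 0)) ≤ (fun _ : Fin N => max M 0) := by
    intro j
    show -(max M 0) ≤ max M 0
    linarith
  have hGc : ContinuousOn (fun y : Fin N → ℝ => G (ρ (L.symm y)))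
      (Icc (fun _ : Fin N => -(max M 0)) (fun _ : Fin N => max M 0)) := by
    refine hG.comp ((hρ.comp L.symm.continuous).continuousOn) ?_
    intro y _
    exact hρK _
  obtain ⟨r, hr, Φ, hΦ, hb⟩ := esCont_box (m := m) hle hGc
  refine ⟨r, hr, fun q => Φ (L q.1, q.2), hΦ.pullback L.continuous.continuousOn hbox, ?_⟩
  intro x hx
  have h1 := hb (L x) (hbox x hx)
  simp only at h1 ⊢
  rw [h1, ContinuousLinearEquiv.symm_apply_apply, hρid x hx]

end OkaP
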