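import Pool.Agent.H.MP_ceb9a9.Defs

/-!
# MP_ceb9a9: basic constructions with etale families
-/

set_option autoImplicit false

open scoped Manifold

namespace OkaP

open Set Metric Topology

variable {m : ℕ} {X : Type} [MetricSpace X] [ChartedSpace (Fin m → ℂ) X]
variable {T T' : Type} [TopologicalSpace T] [TopologicalSpace T']
variable {E F : Type} [NormedAddCommGroup E] [NormedSpace ℂ E] [NormedAddCommGroup F]
  [NormedSpace ℂ F]

theorem EtCont.mono {Φ : T × (Fin m → ℂ) → X} {S S' : Set T} {r r' : ℝ} (h : EtCont Φ S r)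
    (hS : S' ⊆ S) (hr : r' ≤ r) : EtCont Φ S' r' where
  cont := h.cont.mono (prod_mono hS (ball_subset_ball hr))
  fib x hx := (h.fib x (hS hx)).mono (ball_subset_ball hr)
  inj x hx := (h.inj x (hS hx)).mono (ball_subset_ball hr)
  der x hx u hu := h.der x (hS hx) u (ball_subset_ball hr hu)

theorem EtCont.congr {Φ Ψ : T × (Fin m → ℂ) → X} {S : Set T} {r : ℝ} (h : EtCont Φ S r)
    (he : ∀ x ∈ S, ∀ u ∈ ball (0 : Fin m → ℂ) r, Ψ (x, u) = Φ (x, u)) : EtCont Ψ S r where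
  cont := h.cont.congr fun q hq => he q.1 hq.1 q.2 hq.2
  fib x hx := (h.fib x hx).congr fun u hu => he x hx u hu
  inj x hx := (h.inj x hx).congr fun u hu => (he x hx u hu).symm
  der x hx u hu := by
    have h1 : (fun u => Ψ (x, u)) =ᶠ[𝓝 u] fun u => Φ (x, u) := by
      filter_upwards [isOpen_ball.mem_nhds hu] with v hv using he x hx v hv
    rw [h1.mfderiv_eq]
    exact h.der x hx u hu

theorem EtCont.pullback {Φ : T × (Fin m → ℂ) → X} {S : Set T} {r : ℝ} (h : EtCont Φ S r)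
    {a : T' → T} {S' : Set T'} (ha : ContinuousOn a S') (hm : MapsTo a S' S) :
    EtCont (fun q : T' × (Fin m → ℂ) => Φ (a q.1, q.2)) S' r where
  cont := by
    refine h.cont.comp ((ha.comp continuousOn_fst fun q hq => hq.1).prodMk continuousOn_snd)
      fun q hq => ⟨hm hq.1, hq.2⟩
  fib x hx := h.fib (a x) (hm hx)
  inj x hx := h.inj (a x) (hm hx)
  der x hx := h.der (a x) (hm hx)

/-- composition in the fibre -/
theorem EtCont.comp {Φ : T × (Fin m → ℂ) → X} {δ : T × (Fin m → ℂ) → (Fin m → ℂ)} {S : Set T}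
    {r r' : ℝ} (h : EtCont Φ S r) (hδ : EtCont δ S r')
    (hm : ∀ x ∈ S, ∀ u ∈ ball (0 : Fin m → ℂ) r', δ (x, u) ∈ ball (0 : Fin m → ℂ) r) :
    EtCont (fun q : T × (Fin m → ℂ) => Φ (q.1, δ q)) S r' where
  cont := h.cont.comp (continuousOn_fst.prodMk hδ.cont) fun q hq => ⟨hq.1, hm q.1 hq.1 q.2 hq.2⟩
  fib x hx := MDifferentiableOn.comp (g := fun u => Φ (x, u)) (f := fun u => δ (x, u))
    (u := ball (0 : Fin m → ℂ) r) (h.fib x hx) (hδ.fib x hx) fun u hu => hm x hx u hu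
  inj x hx := by
    intro u hu v hv huv
    exact hδ.inj x hx hu hv (h.inj x hx (hm x hx u hu) (hm x hx v hv) huv)
  der x hx u hu := by
    have h1 : MDifferentiableAt 𝓘(ℂ, Fin m → ℂ) 𝓘(ℂ, Fin m → ℂ) (fun u => δ (x, u)) u :=
      (hδ.fib x hx u hu).mdifferentiableAt (isOpen_ball.mem_nhds hu)
    have h2 : MDifferentiableAt 𝓘(ℂ, Fin m → ℂ) 𝓘(ℂ, Fin m → ℂ) (fun u => Φ (x, u))
        (δ (x, u)) :=
      (h.fib x hx _ (hm x hx u hu)).mdifferentiableAt (isOpen_ball.mem_nhds (hm x hx u hu))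
    have h3 : mfderiv 𝓘(ℂ, Fin m → ℂ) 𝓘(ℂ, Fin m → ℂ) (fun u => Φ (x, δ (x, u))) u =
        (mfderiv 𝓘(ℂ, Fin m → ℂ) 𝓘(ℂ, Fin m → ℂ) (fun u => Φ (x, u)) (δ (x, u))).comp
          (mfderiv 𝓘(ℂ, Fin m → ℂ) 𝓘(ℂ, Fin m → ℂ) (fun u => δ (x, u)) u) :=
      mfderiv_comp u h2 h1
    show Function.Bijective (mfderiv 𝓘(ℂ, Fin m → ℂ) 𝓘(ℂ, Fin m → ℂ)
      (fun u => Φ (x, δ (x, u))) u)
    rw [h3]
    exact (h.der x hx _ (hm x hx u hu)).comp (hδ.der x hx u hu)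

/-- local criterion -/
theorem EtCont.of_local {Φ : T × (Fin m → ℂ) → X} {S : Set T} {r : ℝ}
    (h : ∀ x ∈ S, ∃ V ∈ 𝓝[S] x, EtCont Φ V r) : EtCont Φ S r where
  cont := by
    rintro ⟨x, u⟩ ⟨hx, hu⟩
    obtain ⟨V, hV, hΦ⟩ := h x hx
    have h1 : (x, u) ∈ V ×ˢ ball (0 : Fin m → ℂ) r := ⟨mem_of_mem_nhdsWithin hx hV, hu⟩
    refine (hΦ.cont _ h1).mono_of_mem_nhdsWithin ?_
    rw [nhdsWithin_prod_eq]
    exact Filter.prod_mem_prod hV self_mem_nhdsWithin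
  fib x hx := by
    obtain ⟨V, hV, hΦ⟩ := h x hx
    exact hΦ.fib x (mem_of_mem_nhdsWithin hx hV)
  inj x hx := by
    obtain ⟨V, hV, hΦ⟩ := h x hx
    exact hΦ.inj x (mem_of_mem_nhdsWithin hx hV)
  der x hx := by
    obtain ⟨V, hV, hΦ⟩ := h x hx
    exact hΦ.der x (mem_of_mem_nhdsWithin hx hV)

/-- gluing along closed sets -/
theorem EtCont.union_closed {Φ : T × (Fin m → ℂ) → X} {S1 S2 : Set T} {r : ℝ}
    (h1 : EtCont Φ S1 r) (h2 : EtCont Φ S2 r) (hc1 : IsClosed S1) (hc2 : IsClosed S2) :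
    EtCont Φ (S1 ∪ S2) r where
  cont := by
    rintro ⟨x, u⟩ ⟨hx, hu⟩
    have hu' : u ∈ ball (0 : Fin m → ℂ) r := hu
    rw [union_prod]
    by_cases hx1 : x ∈ S1
    · by_cases hx2 : x ∈ S2
      · exact ContinuousWithinAt.union (h1.cont _ ⟨hx1, hu'⟩) (h2.cont _ ⟨hx2, hu'⟩)
      · refine (h1.cont _ ⟨hx1, hu'⟩).mono_of_mem_nhdsWithin ?_
        have : (S2ᶜ) ×ˢ (univ : Set (Fin m → ℂ)) ∈ 𝓝 (x, u) :=
          (hc2.isOpen_compl.prod isOpen_univ).mem_nhds ⟨hx2, mem_univ _⟩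
        filter_upwards [mem_nhdsWithin_of_mem_nhds this, self_mem_nhdsWithin] with q hq1 hq2
        rcases hq2 with hq2 | hq2
        · exact hq2
        · exact absurd hq2.1 hq1.1
    · have hx2 : x ∈ S2 := hx.resolve_left hx1
      refine (h2.cont _ ⟨hx2, hu'⟩).mono_of_mem_nhdsWithin ?_
      have : (S1ᶜ) ×ˢ (univ : Set (Fin m → ℂ)) ∈ 𝓝 (x, u) :=
        (hc1.isOpen_compl.prod isOpen_univ).mem_nhds ⟨hx1, mem_univ _⟩
      filter_upwards [mem_nhdsWithin_of_mem_nhds this, self_mem_nhdsWithin] with q hq1 hq2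
      rcases hq2 with hq2 | hq2
      · exact absurd hq2.1 hq1.1
      · exact hq2
  fib x hx := hx.elim (h1.fib x) (h2.fib x)
  inj x hx := hx.elim (h1.inj x) (h2.inj x)
  der x hx := hx.elim (h1.der x) (h2.der x)

theorem EtHol.mono {Φ : E × (Fin m → ℂ) → X} {S S' : Set E} {r r' : ℝ} (h : EtHol Φ S r)
    (hS : S' ⊆ S) (hr : r' ≤ r) : EtHol Φ S' r' where
  toEtCont := h.toEtCont.mono hS hr
  hol := h.hol.mono (prod_mono hS (ball_subset_ball hr))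

theorem EtHol.congr {Φ Ψ : E × (Fin m → ℂ) → X} {S : Set E} {r : ℝ} (h : EtHol Φ S r)
    (he : ∀ x ∈ S, ∀ u ∈ ball (0 : Fin m → ℂ) r, Ψ (x, u) = Φ (x, u)) : EtHol Ψ S r where
  toEtCont := h.toEtCont.congr he
  hol := h.hol.congr fun q hq => he q.1 hq.1 q.2 hq.2

theorem EtHol.pullback {Φ : E × (Fin m → ℂ) → X} {U : Set E} {r : ℝ} (h : EtHol Φ U r)
    {a : F → E} {V : Set F} (ha : DifferentiableOn ℂ a V) (hm : MapsTo a V U) :
    EtHol (fun q : F × (Fin m → ℂ) => Φ (a q.1, q.2)) V r where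
  toEtCont := h.toEtCont.pullback ha.continuousOn hm
  hol := HolOn.comp (V := U ×ˢ ball (0 : Fin m → ℂ) r) (g := fun q : F × (Fin m → ℂ) =>
      (a q.1, q.2)) h.hol
    ((ha.comp differentiableOn_fst fun q hq => hq.1).prodMk differentiableOn_snd)
    fun q hq => ⟨hm hq.1, hq.2⟩

theorem EtHol.comp {Φ : E × (Fin m → ℂ) → X} {δ : E × (Fin m → ℂ) → (Fin m → ℂ)} {U : Set E}
    {r r' : ℝ} (h : EtHol Φ U r) (hδ : EtHol δ U r')
    (hm : ∀ x ∈ U, ∀ u ∈ ball (0 : Fin m → ℂ) r', δ (x, u) ∈ ball (0 : Fin m → ℂ) r) :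
    EtHol (fun q : E × (Fin m → ℂ) => Φ (q.1, δ q)) U r' where
  toEtCont := h.toEtCont.comp hδ.toEtCont hm
  hol := by
    have hd : DifferentiableOn ℂ δ (U ×ˢ ball (0 : Fin m → ℂ) r') :=
      mdifferentiableOn_iff_differentiableOn.1 hδ.hol
    exact HolOn.comp (V := U ×ˢ ball (0 : Fin m → ℂ) r) (g := fun q : E × (Fin m → ℂ) =>
        (q.1, δ q)) h.hol (differentiableOn_fst.prodMk hd)
      fun q hq => ⟨hq.1, hm q.1 hq.1 q.2 hq.2⟩

/-- a fibrewise family which is holomorphic in all variables -/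
theorem EtHol.of_etCont_fib {Φ : E × (Fin m → ℂ) → X} {U : Set E} {r : ℝ}
    (hU : IsOpen U) (hol : HolOn m Φ (U ×ˢ ball (0 : Fin m → ℂ) r))
    (inj : ∀ x ∈ U, InjOn (fun u => Φ (x, u)) (ball (0 : Fin m → ℂ) r))
    (der : ∀ x ∈ U, ∀ u ∈ ball (0 : Fin m → ℂ) r,
      Function.Bijective (mfderiv 𝓘(ℂ, Fin m → ℂ) 𝓘(ℂ, Fin m → ℂ) (fun u => Φ (x, u)) u)) :
    EtHol Φ U r where
  cont := hol.continuousOn
  fib x hx := HolOn.comp (V := U ×ˢ ball (0 : Fin m → ℂ) r) (g := fun u : Fin m → ℂ =>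
      (x, u)) hol ((differentiableOn_const x).prodMk differentiableOn_id) fun u hu => ⟨hx, hu⟩
  inj := inj
  der := der
  hol := hol

/-- gluing along open sets -/
theorem EtHol.union_open {Φ : E × (Fin m → ℂ) → X} {U1 U2 : Set E} {r : ℝ}
    (h1 : EtHol Φ U1 r) (h2 : EtHol Φ U2 r) (hU1 : IsOpen U1) (hU2 : IsOpen U2) :
    EtHol Φ (U1 ∪ U2) r := by
  refine EtHol.of_etCont_fib (hU1.union hU2) (holOn_of_local ?_) ?_ ?_
  · rintro q ⟨hq | hq, hq2⟩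
    · exact ⟨U1 ×ˢ ball 0 r, hU1.prod isOpen_ball, ⟨hq, hq2⟩, h1.hol⟩
    · exact ⟨U2 ×ˢ ball 0 r, hU2.prod isOpen_ball, ⟨hq, hq2⟩, h2.hol⟩
  · intro x hx
    exact hx.elim (h1.inj x) (h2.inj x)
  · intro x hx
    exact hx.elim (h1.der x) (h2.der x)

/-- the base map of a holomorphic family is holomorphic -/
theorem EtHol.base {Φ : E × (Fin m → ℂ) → X} {U : Set E} {r : ℝ} (hr : 0 < r)
    (h : EtHol Φ U r) : HolOn m (fun x => Φ (x, 0)) U :=
  HolOn.comp (V := U ×ˢ ball (0 : Fin m → ℂ) r) (g := fun x : E => (x, (0 : Fin m → ℂ))) h.hol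
    (differentiableOn_id.prodMk (differentiableOn_const 0)) fun x hx => ⟨hx, mem_ball_self hr⟩

end OkaP
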