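import Pool.Agent.H.MP_ceb9a9.EtA
import Pool.Agent.H.MP_ceb9a9.Scv6

/-!
# MP_ceb9a9: etale families with values in the model space
-/

set_option autoImplicit false

open scoped Manifold

namespace OkaP

open Set Metric Topology

variable {m : ℕ} {T : Type} [TopologicalSpace T]
variable {E : Type} [NormedAddCommGroup E] [NormedSpace ℂ E]

/-- conversion of the derivative condition for maps of the model space -/
theorem bijective_mfderiv_iff_model {f : (Fin m → ℂ) → (Fin m → ℂ)} {u : Fin m → ℂ} :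
    Function.Bijective (mfderiv 𝓘(ℂ, Fin m → ℂ) 𝓘(ℂ, Fin m → ℂ) f u) ↔
      Function.Bijective (fderiv ℂ f u) := by
  rw [mfderiv_eq_fderiv]
  exact Iff.rfl

/-- constructor in the model space -/
theorem etB_mk {δ : T × (Fin m → ℂ) → (Fin m → ℂ)} {S : Set T} {r : ℝ}
    (hc : ContinuousOn δ (S ×ˢ ball (0 : Fin m → ℂ) r))
    (hd : ∀ x ∈ S, DifferentiableOn ℂ (fun u => δ (x, u)) (ball (0 : Fin m → ℂ) r))
    (hi : ∀ x ∈ S, InjOn (fun u => δ (x, u)) (ball (0 : Fin m → ℂ) r))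
    (hb : ∀ x ∈ S, ∀ u ∈ ball (0 : Fin m → ℂ) r,
      Function.Bijective (fderiv ℂ (fun u => δ (x, u)) u)) :
    EtCont δ S r where
  cont := hc
  fib := fun x hx => mdifferentiableOn_iff_differentiableOn.2 (hd x hx)
  inj := hi
  der := fun x hx u hu => bijective_mfderiv_iff_model.2 (hb x hx u hu)

/-- one fibre -/
theorem etB_fibre {f : (Fin m → ℂ) → (Fin m → ℂ)} {r τ : ℝ} (hr : 0 < r) (hτ : 0 < τ)
    (hd : DifferentiableOn ℂ f (ball (0 : Fin m → ℂ) r))
    (hn : ∀ u ∈ ball (0 : Fin m → ℂ) r, ‖f u - (τ : ℂ) • u‖ ≤ τ * (r / 8)) :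
    InjOn f (ball (0 : Fin m → ℂ) (r / 2)) ∧
      ∀ u ∈ ball (0 : Fin m → ℂ) (r / 2), Function.Bijective (fderiv ℂ f u) := by
  have hτ0 : (τ : ℂ) ≠ 0 := by exact_mod_cast hτ.ne'
  set g : (Fin m → ℂ) → (Fin m → ℂ) := fun u => (τ : ℂ)⁻¹ • f u with hg
  have hfg : ∀ u, f u = (τ : ℂ) • g u := by
    intro u
    simp only [hg]
    rw [smul_smul, mul_inv_cancel₀ hτ0, one_smul]
  have hgd : DifferentiableOn ℂ g (ball (0 : Fin m → ℂ) r) := hd.const_smul ((τ : ℂ)⁻¹)
  have hgn : ∀ u ∈ ball (0 : Fin m → ℂ) r, ‖g u - u‖ ≤ r / 8 := by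
    intro u hu
    have h1 : g u - u = (τ : ℂ)⁻¹ • (f u - (τ : ℂ) • u) := by
      simp only [hg]
      rw [smul_sub, smul_smul, inv_mul_cancel₀ hτ0, one_smul]
    rw [h1, norm_smul, norm_inv]
    have h2 : ‖(τ : ℂ)‖ = τ := by
      rw [Complex.norm_real, Real.norm_eq_abs, abs_of_pos hτ]
    rw [h2]
    calc τ⁻¹ * ‖f u - (τ : ℂ) • u‖ ≤ τ⁻¹ * (τ * (r / 8)) :=
          mul_le_mul_of_nonneg_left (hn u hu) (inv_nonneg.2 hτ.le)
      _ = r / 8 := by rw [← mul_assoc, inv_mul_cancel₀ hτ.ne', one_mul]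
  obtain ⟨h1, h2, _, _⟩ := near_id (f := g) (a := 0) (δ := r / 8) hr (by positivity) le_rfl hgd hgn
  constructor
  · intro u hu v hv huv
    apply h1 hu hv
    simp only [hg]
    have : f u = f v := huv
    rw [this]
  · intro u hu
    obtain ⟨A, hA⟩ := h2 u hu
    have hu' : u ∈ ball (0 : Fin m → ℂ) r := ball_subset_ball (by linarith) hu
    have hgu : DifferentiableAt ℂ g u := hgd.differentiableAt (isOpen_ball.mem_nhds hu')
    have hfd : fderiv ℂ f u = (τ : ℂ) • fderiv ℂ g u := by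
      have h3 : HasFDerivAt (fun u => (τ : ℂ) • g u) ((τ : ℂ) • fderiv ℂ g u) u :=
        hgu.hasFDerivAt.const_smul (τ : ℂ)
      have h4 : f = fun u => (τ : ℂ) • g u := funext hfg
      conv_lhs => rw [h4]
      exact h3.fderiv
    rw [hfd, ← hA]
    constructor
    · intro v w hvw
      have h5 : (τ : ℂ) • A v = (τ : ℂ) • A w := hvw
      exact A.injective (smul_right_injective _ hτ0 h5)
    · intro w
      refine ⟨A.symm ((τ : ℂ)⁻¹ • w), ?_⟩
      show (τ : ℂ) • A (A.symm ((τ : ℂ)⁻¹ • w)) = w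
      rw [A.apply_symm_apply, smul_smul, mul_inv_cancel₀ hτ0, one_smul]

/-- variable scale version -/
theorem etCont_of_near_smul' {δ : T × (Fin m → ℂ) → (Fin m → ℂ)} {S : Set T} {r : ℝ} {τ : T → ℝ}
    (hr : 0 < r) (hτ : ∀ x ∈ S, 0 < τ x) (hc : ContinuousOn δ (S ×ˢ ball (0 : Fin m → ℂ) r))
    (hd : ∀ x ∈ S, DifferentiableOn ℂ (fun u => δ (x, u)) (ball (0 : Fin m → ℂ) r))
    (hn : ∀ x ∈ S, ∀ u ∈ ball (0 : Fin m → ℂ) r, ‖δ (x, u) - (τ x : ℂ) • u‖ ≤ τ x * (r / 8)) :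
    EtCont δ S (r / 2) := by
  have hsub : ball (0 : Fin m → ℂ) (r / 2) ⊆ ball (0 : Fin m → ℂ) r :=
    ball_subset_ball (by linarith)
  exact etB_mk (hc.mono (prod_mono_right hsub)) (fun x hx => (hd x hx).mono hsub)
    (fun x hx => (etB_fibre hr (hτ x hx) (hd x hx) (hn x hx)).1)
    (fun x hx => (etB_fibre hr (hτ x hx) (hd x hx) (hn x hx)).2)

theorem etCont_of_near_smul {δ : T × (Fin m → ℂ) → (Fin m → ℂ)} {S : Set T} {r τ : ℝ} (hr : 0 < r)
    (hτ : 0 < τ) (hc : ContinuousOn δ (S ×ˢ ball (0 : Fin m → ℂ) r))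
    (hd : ∀ x ∈ S, DifferentiableOn ℂ (fun u => δ (x, u)) (ball (0 : Fin m → ℂ) r))
    (hn : ∀ x ∈ S, ∀ u ∈ ball (0 : Fin m → ℂ) r, ‖δ (x, u) - (τ : ℂ) • u‖ ≤ τ * (r / 8)) :
    EtCont δ S (r / 2) :=
  etCont_of_near_smul' (τ := fun _ => τ) hr (fun _ _ => hτ) hc hd hn

theorem etCont_of_near_id {δ : T × (Fin m → ℂ) → (Fin m → ℂ)} {S : Set T} {r : ℝ} (hr : 0 < r)
    (hc : ContinuousOn δ (S ×ˢ ball (0 : Fin m → ℂ) r))
    (hd : ∀ x ∈ S, DifferentiableOn ℂ (fun u => δ (x, u)) (ball (0 : Fin m → ℂ) r))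
    (hn : ∀ x ∈ S, ∀ u ∈ ball (0 : Fin m → ℂ) r, ‖δ (x, u) - u‖ ≤ r / 8) :
    EtCont δ S (r / 2) := by
  refine etCont_of_near_smul (τ := 1) hr one_pos hc hd fun x hx u hu => ?_
  rw [Complex.ofReal_one, one_smul, one_mul]
  exact hn x hx u hu

theorem etCont_linear {a : T → ((Fin m → ℂ) →L[ℂ] (Fin m → ℂ))} {S : Set T} (r : ℝ)
    (ha : ContinuousOn a S) (hb : ∀ x ∈ S, Function.Bijective (a x)) :
    EtCont (fun q : T × (Fin m → ℂ) => a q.1 q.2) S r := by
  refine etB_mk ?_ ?_ ?_ ?_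
  · exact (ha.comp continuousOn_fst fun q hq => hq.1).clm_apply continuousOn_snd
  · intro x _
    exact (a x).differentiable.differentiableOn
  · intro x hx
    exact ((hb x hx).1).injOn
  · intro x hx u _
    have : fderiv ℂ (fun u : Fin m → ℂ => a x u) u = a x := (a x).hasFDerivAt.fderiv
    show Function.Bijective (fderiv ℂ (fun u : Fin m → ℂ => a x u) u)
    rw [this]
    exact hb x hx

theorem etCont_translate {c : T → (Fin m → ℂ)} {S : Set T} (r : ℝ) (hc : ContinuousOn c S) :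
    EtCont (fun q : T × (Fin m → ℂ) => c q.1 + q.2) S r := by
  refine etB_mk ?_ ?_ ?_ ?_
  · exact (hc.comp continuousOn_fst fun q hq => hq.1).add continuousOn_snd
  · intro x _
    exact (differentiable_id.const_add (c x)).differentiableOn
  · intro x _
    exact (add_right_injective (c x)).injOn
  · intro x _ u _
    have : fderiv ℂ (fun u : Fin m → ℂ => c x + u) u = ContinuousLinearMap.id ℂ (Fin m → ℂ) :=
      ((hasFDerivAt_id u).const_add (c x)).fderiv
    show Function.Bijective (fderiv ℂ (fun u : Fin m → ℂ => c x + u) u)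
    rw [this]
    exact Function.bijective_id

theorem etCont_smul {S : Set T} (r : ℝ) {τ : T → ℂ} (hτ : ContinuousOn τ S)
    (h0 : ∀ x ∈ S, τ x ≠ 0) :
    EtCont (fun q : T × (Fin m → ℂ) => τ q.1 • q.2) S r := by
  refine etB_mk ?_ ?_ ?_ ?_
  · exact (hτ.comp continuousOn_fst fun q hq => hq.1).smul continuousOn_snd
  · intro x _
    exact (differentiable_id.const_smul (τ x)).differentiableOn
  · intro x hx
    exact (smul_right_injective _ (h0 x hx)).injOn
  · intro x hx u _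
    have : fderiv ℂ (fun u : Fin m → ℂ => τ x • u) u =
        τ x • ContinuousLinearMap.id ℂ (Fin m → ℂ) :=
      ((hasFDerivAt_id u).const_smul (τ x)).fderiv
    show Function.Bijective (fderiv ℂ (fun u : Fin m → ℂ => τ x • u) u)
    rw [this]
    constructor
    · intro v w hvw
      exact smul_right_injective _ (h0 x hx) hvw
    · intro w
      refine ⟨(τ x)⁻¹ • w, ?_⟩
      show τ x • ((τ x)⁻¹ • w) = w
      rw [smul_smul, mul_inv_cancel₀ (h0 x hx), one_smul]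

theorem etHol_of_near_smul {δ : E × (Fin m → ℂ) → (Fin m → ℂ)} {U : Set E} {r τ : ℝ} (hr : 0 < r)
    (hτ : 0 < τ) (hU : IsOpen U) (hd : DifferentiableOn ℂ δ (U ×ˢ ball (0 : Fin m → ℂ) r))
    (hn : ∀ x ∈ U, ∀ u ∈ ball (0 : Fin m → ℂ) r, ‖δ (x, u) - (τ : ℂ) • u‖ ≤ τ * (r / 8)) :
    EtHol δ U (r / 2) := by
  have hsub : ball (0 : Fin m → ℂ) (r / 2) ⊆ ball (0 : Fin m → ℂ) r :=
    ball_subset_ball (by linarith)
  have hfib : ∀ x ∈ U, DifferentiableOn ℂ (fun u => δ (x, u)) (ball (0 : Fin m → ℂ) r) := by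
    intro x hx
    exact hd.comp ((differentiable_const x).prodMk differentiable_id).differentiableOn
      fun u hu => ⟨hx, hu⟩
  refine { toEtCont := etCont_of_near_smul hr hτ hd.continuousOn hfib hn, hol := ?_ }
  exact mdifferentiableOn_iff_differentiableOn.2 (hd.mono (prod_mono_right hsub))

theorem etHol_of_near_id {δ : E × (Fin m → ℂ) → (Fin m → ℂ)} {U : Set E} {r : ℝ} (hr : 0 < r)
    (hU : IsOpen U) (hd : DifferentiableOn ℂ δ (U ×ˢ ball (0 : Fin m → ℂ) r))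
    (hn : ∀ x ∈ U, ∀ u ∈ ball (0 : Fin m → ℂ) r, ‖δ (x, u) - u‖ ≤ r / 8) :
    EtHol δ U (r / 2) := by
  refine etHol_of_near_smul (τ := 1) hr one_pos hU hd fun x hx u hu => ?_
  rw [Complex.ofReal_one, one_smul, one_mul]
  exact hn x hx u hu

theorem etHol_linear {a : E → ((Fin m → ℂ) →L[ℂ] (Fin m → ℂ))} {U : Set E} (r : ℝ)
    (hU : IsOpen U) (ha : DifferentiableOn ℂ a U) (hb : ∀ x ∈ U, Function.Bijective (a x)) :
    EtHol (fun q : E × (Fin m → ℂ) => a q.1 q.2) U r := by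
  refine { toEtCont := etCont_linear r ha.continuousOn hb, hol := ?_ }
  exact mdifferentiableOn_iff_differentiableOn.2
    ((ha.comp differentiableOn_fst fun q hq => hq.1).clm_apply differentiableOn_snd)

theorem etHol_translate {c : E → (Fin m → ℂ)} {U : Set E} (r : ℝ) (hU : IsOpen U)
    (hc : DifferentiableOn ℂ c U) :
    EtHol (fun q : E × (Fin m → ℂ) => c q.1 + q.2) U r := by
  refine { toEtCont := etCont_translate r hc.continuousOn, hol := ?_ }
  exact mdifferentiableOn_iff_differentiableOn.2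
    ((hc.comp differentiableOn_fst fun q hq => hq.1).add differentiableOn_snd)

end OkaP
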