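import Pool.Agent.H.MP_ceb9a9.Scv1

set_option autoImplicit false
open Set Metric Filter
open scoped Topology

noncomputable section
namespace OkaP

variable {E F : Type} [NormedAddCommGroup E] [NormedSpace ℂ E]
  [NormedAddCommGroup F] [NormedSpace ℂ F]

variable [FiniteDimensional ℂ E]

variable {E' : Type} [NormedAddCommGroup E'] [NormedSpace ℂ E'] [FiniteDimensional ℂ E']

/-- an injective holomorphic map with invertible derivatives is open with holomorphic inverse. -/
theorem inverse_hol {f : E → E'} {U : Set E} (hU : IsOpen U) (hf : DifferentiableOn ℂ f U)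
    (hinj : InjOn f U) (hd : ∀ x ∈ U, ∃ A : E ≃L[ℂ] E', (A : E →L[ℂ] E') = fderiv ℂ f x) :
    IsOpen (f '' U) ∧ ∃ g : E' → E, DifferentiableOn ℂ g (f '' U) ∧ (∀ x ∈ U, g (f x) = x) := by
  classical
  have hcE : CompleteSpace E := FiniteDimensional.complete ℂ E
  have hcE' : CompleteSpace E' := FiniteDimensional.complete ℂ E'
  have hstrict : ∀ x ∈ U, ∃ A : E ≃L[ℂ] E', HasStrictFDerivAt f (A : E →L[ℂ] E') x := by
    intro x hx
    obtain ⟨A, hA⟩ := hd x hx
    refine ⟨A, ?_⟩
    rw [hA]
    have h1 : ContDiffAt ℂ (1 : ℕ) f x :=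
      (contDiffOn_of_diff hU hf 1).contDiffAt (hU.mem_nhds hx)
    exact h1.hasStrictFDerivAt (by simp)
  refine ⟨?_, Function.invFunOn f U, ?_, fun x hx => hinj.leftInvOn_invFunOn hx⟩
  · rw [isOpen_iff_mem_nhds]
    rintro _ ⟨x, hx, rfl⟩
    obtain ⟨A, hA⟩ := hstrict x hx
    rw [← hA.map_nhds_eq_of_equiv]
    exact image_mem_map (hU.mem_nhds hx)
  · rintro _ ⟨x, hx, rfl⟩
    obtain ⟨A, hA⟩ := hstrict x hx
    have h1 := hA.to_localInverse.hasFDerivAt
    have h2 := hA.eventually_right_inverse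
    have h3 : hA.localInverse f A x (f x) = x := hA.localInverse_apply_image
    have h4 : ∀ᶠ y in 𝓝 (f x), hA.localInverse f A x y ∈ U := by
      have hc : ContinuousAt (hA.localInverse f A x) (f x) := h1.continuousAt
      refine hc.eventually_mem ?_
      rw [h3]
      exact hU.mem_nhds hx
    have h5 : Function.invFunOn f U =ᶠ[𝓝 (f x)] hA.localInverse f A x := by
      filter_upwards [h2, h4] with y hy1 hy2
      have hy3 : ∃ z ∈ U, f z = y := ⟨_, hy2, hy1⟩
      refine hinj (Function.invFunOn_mem hy3) hy2 ?_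
      rw [Function.invFunOn_eq hy3, hy1]
    exact (h1.congr_of_eventuallyEq h5).differentiableAt.differentiableWithinAt

end OkaP
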