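import Pool.Agent.H.MP_ceb9a9.EtB
import Pool.Agent.H.MP_ceb9a9.Near
import Pool.Agent.H.MP_ceb9a9.Scv5

/-!
# MP_ceb9a9: coordinates of maps in etale families
-/

set_option autoImplicit false

open scoped Manifold

namespace OkaP

open Set Metric Topology

variable {m : ℕ} {X : Type} [MetricSpace X] [ChartedSpace (Fin m → ℂ) X]
variable {T T' : Type} [TopologicalSpace T] [TopologicalSpace T']
variable {E F : Type} [NormedAddCommGroup E] [NormedSpace ℂ E] [NormedAddCommGroup F]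
  [NormedSpace ℂ F]

/-- the derivative of an etale map read in a chart is bijective. -/
theorem EtC_fderiv_bij {g : (Fin m → ℂ) → X} {u : Fin m → ℂ}
    {e : OpenPartialHomeomorph X (Fin m → ℂ)} (he : HChart m e)
    (hg : MDifferentiableAt 𝓘(ℂ, Fin m → ℂ) 𝓘(ℂ, Fin m → ℂ) g u) (hu : g u ∈ e.source)
    (hb : Function.Bijective (mfderiv 𝓘(ℂ, Fin m → ℂ) 𝓘(ℂ, Fin m → ℂ) g u)) :
    Function.Bijective (fderiv ℂ (fun v => e (g v)) u) := by
  have h1 : MDifferentiableAt 𝓘(ℂ, Fin m → ℂ) 𝓘(ℂ, Fin m → ℂ) e (g u) :=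
    he.mdifferentiableAt hu
  have h2 := mfderiv_comp u h1 hg
  have h3 := OpenPartialHomeomorph.MDifferentiable.mfderiv_bijective he hu
  have h4 : Function.Bijective (mfderiv 𝓘(ℂ, Fin m → ℂ) 𝓘(ℂ, Fin m → ℂ) (e ∘ g) u) := by
    rw [h2]
    exact h3.comp hb
  rw [mfderiv_eq_fderiv] at h4
  exact h4

/-- local solvability with uniqueness estimate (the key local lemma) -/
theorem EtCont.local_coord [IsManifold 𝓘(ℂ, Fin m → ℂ) ⊤ X]
    {Φ : T × (Fin m → ℂ) → X} {S : Set T} {r : ℝ} (h : EtCont Φ S r)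
    {x0 : T} (hx0 : x0 ∈ S) {u0 : Fin m → ℂ} (hu0 : u0 ∈ ball (0 : Fin m → ℂ) r)
    {η : ℝ} (hη : 0 < η) :
    ∃ V ∈ 𝓝[S] x0, ∃ ε > 0, ∀ x ∈ V, x ∈ S → ∀ y : X, dist (Φ (x0, u0)) y < ε →
      ∃ v ∈ ball (0 : Fin m → ℂ) r, ‖v - u0‖ < η ∧ Φ (x, v) = y := by
  obtain ⟨e, he, hsrc⟩ := HChart.exists_at (m := m) (Φ (x0, u0))
  -- the set where the chart is defined along the fibre at `x0`
  have hWo : ∀ x ∈ S, IsOpen (ball (0 : Fin m → ℂ) r ∩ (fun u => Φ (x, u)) ⁻¹' e.source) := by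
    intro x hx
    exact (h.fib x hx).continuousOn.isOpen_inter_preimage isOpen_ball e.open_source
  have hfd : ∀ x ∈ S, DifferentiableOn ℂ (fun u => e (Φ (x, u)))
      (ball (0 : Fin m → ℂ) r ∩ (fun u => Φ (x, u)) ⁻¹' e.source) := by
    intro x hx
    exact HolOn.hchart (h.fib x hx) he
  have hu0W : u0 ∈ ball (0 : Fin m → ℂ) r ∩ (fun u => Φ (x0, u)) ⁻¹' e.source := ⟨hu0, hsrc⟩
  have hbij : Function.Bijective (fderiv ℂ (fun v => e (Φ (x0, v))) u0) :=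
    EtC_fderiv_bij he ((h.fib x0 hx0).mdifferentiableAt (isOpen_ball.mem_nhds hu0)) hsrc
      (h.der x0 hx0 u0 hu0)
  obtain ⟨A, hA⟩ := scv6_equiv_of_inj (fderiv ℂ (fun v => e (Φ (x0, v))) u0)
    (fun v hv => hbij.1 (by rw [hv, map_zero]))
  -- the normalised map
  have hder : HasFDerivAt (fun v => e (Φ (x0, v))) (A : (Fin m → ℂ) →L[ℂ] (Fin m → ℂ)) u0 := by
    rw [hA]
    exact ((hfd x0 hx0).differentiableAt ((hWo x0 hx0).mem_nhds hu0W)).hasFDerivAt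
  have hder2 : HasFDerivAt (fun v => A.symm (e (Φ (x0, v)) - e (Φ (x0, u0))) + u0 - v)
      (0 : (Fin m → ℂ) →L[ℂ] (Fin m → ℂ)) u0 := by
    have h1 := ((A.symm : (Fin m → ℂ) →L[ℂ] (Fin m → ℂ)).hasFDerivAt.comp u0
      (hder.sub_const (e (Φ (x0, u0))))).add_const u0
    have h2 := h1.sub (hasFDerivAt_id u0)
    have h3 : (A.symm : (Fin m → ℂ) →L[ℂ] (Fin m → ℂ)).comp
        (A : (Fin m → ℂ) →L[ℂ] (Fin m → ℂ)) - ContinuousLinearMap.id ℂ (Fin m → ℂ) = 0 := by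
      ext v
      simp
    rw [h3] at h2
    exact h2
  have hsmall : ∀ᶠ v in 𝓝 u0,
      ‖A.symm (e (Φ (x0, v)) - e (Φ (x0, u0))) + u0 - v‖ ≤ 1 / 32 * ‖v - u0‖ := by
    have h1 := hder2.isLittleO.def (show (0 : ℝ) < 1 / 32 by norm_num)
    refine h1.mono fun v hv => ?_
    simpa using hv
  have hev : ∀ᶠ v in 𝓝 u0, v ∈ ball (0 : Fin m → ℂ) r ∩ (fun u => Φ (x0, u)) ⁻¹' e.source :=
    (hWo x0 hx0).mem_nhds hu0W
  obtain ⟨s0, hs0, hs0b⟩ := Metric.eventually_nhds_iff_ball.1 (hsmall.and hev)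
  obtain ⟨s, hs, hss0, hsη⟩ : ∃ s : ℝ, 0 < s ∧ s < s0 ∧ s ≤ η := by
    refine ⟨min (s0 / 2) η, lt_min (by positivity) hη, ?_, min_le_right _ _⟩
    exact (min_le_left _ _).trans_lt (by linarith)
  have hcb : ∀ u ∈ closedBall u0 s, ‖A.symm (e (Φ (x0, u)) - e (Φ (x0, u0))) + u0 - u‖ ≤ s / 32 ∧
      u ∈ ball (0 : Fin m → ℂ) r ∧ Φ (x0, u) ∈ e.source := by
    intro u hu
    have h1 := hs0b u (closedBall_subset_ball hss0 hu)
    refine ⟨h1.1.trans ?_, h1.2⟩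
    have h2 : ‖u - u0‖ ≤ s := by rw [← dist_eq_norm]; exact hu
    linarith
  -- tube lemma
  have htube : ∀ᶠ x in 𝓝 x0, ∀ u ∈ closedBall u0 s, x ∈ S → (Φ (x, u) ∈ e.source ∧
      ‖A.symm (e (Φ (x, u)) - e (Φ (x0, u)))‖ < s / 32) := by
    refine (isCompact_closedBall u0 s).eventually_forall_of_forall_eventually ?_
    intro u hu
    obtain ⟨hu1, hur, hus⟩ := hcb u hu
    have hc : ContinuousWithinAt Φ (S ×ˢ ball (0 : Fin m → ℂ) r) (x0, u) :=
      h.cont (x0, u) ⟨hx0, hur⟩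
    have h1 : ∀ᶠ q in 𝓝[S ×ˢ ball (0 : Fin m → ℂ) r] (x0, u), Φ q ∈ e.source :=
      hc (e.open_source.mem_nhds hus)
    have hc2 : ContinuousWithinAt (fun q : T × (Fin m → ℂ) => Φ (x0, q.2))
        (S ×ˢ ball (0 : Fin m → ℂ) r) (x0, u) := by
      have h2 : ContinuousWithinAt (fun q : T × (Fin m → ℂ) => (x0, q.2))
          (S ×ˢ ball (0 : Fin m → ℂ) r) (x0, u) :=
        (continuous_const.prodMk continuous_snd).continuousWithinAt
      exact ContinuousWithinAt.comp (t := S ×ˢ ball (0 : Fin m → ℂ) r) hc h2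
        (fun q hq => ⟨hx0, hq.2⟩)
    have hce : ContinuousAt e (Φ (x0, u)) := e.continuousAt hus
    have hc3 : ContinuousWithinAt (fun q : T × (Fin m → ℂ) => ‖A.symm (e (Φ q) - e (Φ (x0, q.2)))‖)
        (S ×ˢ ball (0 : Fin m → ℂ) r) (x0, u) := by
      refine ContinuousWithinAt.norm ?_
      refine A.symm.continuous.continuousAt.comp_continuousWithinAt ?_
      refine ContinuousWithinAt.sub ?_ ?_
      · exact hce.comp_continuousWithinAt hc
      · exact ContinuousAt.comp_continuousWithinAt (x := (x0, u))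
          (f := fun q : T × (Fin m → ℂ) => Φ (x0, q.2)) hce hc2
    have h3 : ∀ᶠ q in 𝓝[S ×ˢ ball (0 : Fin m → ℂ) r] (x0, u),
        ‖A.symm (e (Φ q) - e (Φ (x0, q.2)))‖ < s / 32 := by
      refine hc3.eventually_lt_const ?_
      simp only [sub_self, map_zero, norm_zero]
      positivity
    have h4 := h1.and h3
    rw [eventually_nhdsWithin_iff] at h4
    have h5 : ∀ᶠ q : T × (Fin m → ℂ) in 𝓝 (x0, u), q.2 ∈ ball (0 : Fin m → ℂ) r :=
      continuous_snd.continuousAt.eventually (isOpen_ball.mem_nhds hur)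
    filter_upwards [h4, h5] with q hq1 hq2 hq3
    exact hq1 ⟨hq3, hq2⟩
  -- the size of the neighbourhood of the value
  have hval : ∀ᶠ y in 𝓝 (Φ (x0, u0)), y ∈ e.source ∧
      ‖A.symm (e y - e (Φ (x0, u0)))‖ < s / 4 := by
    have h1 : ContinuousAt (fun y => ‖A.symm (e y - e (Φ (x0, u0)))‖) (Φ (x0, u0)) :=
      (A.symm.continuous.continuousAt.comp
        ((e.continuousAt hsrc).sub continuousAt_const)).norm
    have h2 : ∀ᶠ y in 𝓝 (Φ (x0, u0)), ‖A.symm (e y - e (Φ (x0, u0)))‖ < s / 4 := by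
      refine h1.eventually_lt_const ?_
      simp only [sub_self, map_zero, norm_zero]
      positivity
    have h3 : ∀ᶠ y in 𝓝 (Φ (x0, u0)), y ∈ e.source := e.open_source.mem_nhds hsrc
    exact h3.and h2
  obtain ⟨ε, hε, hεb⟩ := Metric.eventually_nhds_iff_ball.1 hval
  refine ⟨{x | ∀ u ∈ closedBall u0 s, x ∈ S → (Φ (x, u) ∈ e.source ∧
      ‖A.symm (e (Φ (x, u)) - e (Φ (x0, u)))‖ < s / 32)}, mem_nhdsWithin_of_mem_nhds htube,
      ε, hε, ?_⟩
  intro x hx hxS y hy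
  have hy' := hεb y (by rw [mem_ball, dist_comm]; exact hy)
  -- near identity map
  have hd : DifferentiableOn ℂ (fun u => A.symm (e (Φ (x, u)) - e (Φ (x0, u0))) + u0)
      (ball u0 s) := by
    have hAd : Differentiable ℂ (fun v => A.symm v) :=
      (A.symm : (Fin m → ℂ) →L[ℂ] (Fin m → ℂ)).differentiable
    have h1 : DifferentiableOn ℂ (fun u => e (Φ (x, u))) (ball u0 s) := by
      refine (hfd x hxS).mono fun u hu => ?_
      exact ⟨(hcb u (ball_subset_closedBall hu)).2.1, (hx u (ball_subset_closedBall hu) hxS).1⟩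
    exact (hAd.comp_differentiableOn (h1.sub_const (e (Φ (x0, u0))))).add_const u0
  have hn : ∀ u ∈ ball u0 s,
      ‖(fun u => A.symm (e (Φ (x, u)) - e (Φ (x0, u0))) + u0) u - u‖ ≤ s / 16 := by
    intro u hu
    have h1 := (hcb u (ball_subset_closedBall hu)).1
    have h2 := (hx u (ball_subset_closedBall hu) hxS).2
    have h3 : (fun u => A.symm (e (Φ (x, u)) - e (Φ (x0, u0))) + u0) u - u =
        A.symm (e (Φ (x, u)) - e (Φ (x0, u))) +
          (A.symm (e (Φ (x0, u)) - e (Φ (x0, u0))) + u0 - u) := by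
      simp only [map_sub]; abel
    rw [h3]
    refine (norm_add_le _ _).trans ?_
    linarith
  obtain ⟨-, -, -, h4⟩ := near_id hs (by positivity : (0 : ℝ) ≤ s / 16) (by linarith) hd hn
  obtain ⟨v, hv, hveq, -⟩ := h4 (A.symm (e y - e (Φ (x0, u0))) + u0) (by
    rw [mem_ball_iff_norm, add_sub_cancel_right]
    exact hy'.2.trans (by linarith))
  have hvs : v ∈ closedBall u0 s := ball_subset_closedBall (ball_subset_ball (by linarith) hv)
  refine ⟨v, (hcb v hvs).2.1, ?_, ?_⟩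
  · rw [mem_ball_iff_norm] at hv
    linarith
  · have h5 : A.symm (e (Φ (x, v)) - e (Φ (x0, u0))) = A.symm (e y - e (Φ (x0, u0))) :=
      add_right_cancel hveq
    have h6 : e (Φ (x, v)) = e y := sub_left_injective (A.symm.injective h5)
    exact e.injOn (hx v hvs hxS).1 hy'.1 h6

theorem EtCont.coord_continuous [IsManifold 𝓘(ℂ, Fin m → ℂ) ⊤ X]
    {Φ : T × (Fin m → ℂ) → X} {S : Set T} {r : ℝ} (h : EtCont Φ S r)
    {a : T' → T} {c : T' → (Fin m → ℂ)} {g : T' → X} {S' : Set T'} (ha : ContinuousOn a S')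
    (hg : ContinuousOn g S') (hm : MapsTo a S' S) (hc : ∀ z ∈ S', c z ∈ ball (0 : Fin m → ℂ) r)
    (he : ∀ z ∈ S', Φ (a z, c z) = g z) : ContinuousOn c S' := by
  intro z0 hz0
  refine Metric.tendsto_nhds.2 fun η hη => ?_
  obtain ⟨V, hV, ε, hε, hsol⟩ := h.local_coord (hm hz0) (hc z0 hz0) hη
  have h1 : ∀ᶠ z in 𝓝[S'] z0, a z ∈ V := (ha z0 hz0).tendsto_nhdsWithin hm hV
  have h2 : ∀ᶠ z in 𝓝[S'] z0, dist (g z) (g z0) < ε := Metric.tendsto_nhds.1 (hg z0 hz0) ε hε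
  filter_upwards [h1, h2, self_mem_nhdsWithin] with z hz1 hz2 hz3
  obtain ⟨v, hv, hvn, hve⟩ := hsol (a z) hz1 (hm hz3) (g z) (by
    rw [he z0 hz0, dist_comm]; exact hz2)
  have hvc : v = c z := h.inj (a z) (hm hz3) hv (hc z hz3) (hve.trans (he z hz3).symm)
  rw [dist_eq_norm, ← hvc]
  exact hvn

theorem EtHol.coord_hol [IsManifold 𝓘(ℂ, Fin m → ℂ) ⊤ X] [FiniteDimensional ℂ E]
    [FiniteDimensional ℂ F]
    {Φ : E × (Fin m → ℂ) → X} {U : Set E} {r : ℝ} (hU : IsOpen U) (h : EtHol Φ U r)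
    {a : F → E} {c : F → (Fin m → ℂ)} {g : F → X} {V : Set F} (hV : IsOpen V)
    (ha : DifferentiableOn ℂ a V)
    (hg : HolOn m g V) (hm : MapsTo a V U) (hc : ∀ z ∈ V, c z ∈ ball (0 : Fin m → ℂ) r)
    (he : ∀ z ∈ V, Φ (a z, c z) = g z) : DifferentiableOn ℂ c V := by
  intro z0 hz0
  obtain ⟨e, hch, hsrc⟩ := HChart.exists_at (m := m) (g z0)
  have hUo : IsOpen (U ×ˢ ball (0 : Fin m → ℂ) r) := hU.prod isOpen_ball
  have hWo : IsOpen (U ×ˢ ball (0 : Fin m → ℂ) r ∩ Φ ⁻¹' e.source) :=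
    isOpen_preimage_of_holOn hUo h.hol e.open_source
  have hF : DifferentiableOn ℂ (fun q => e (Φ q)) (U ×ˢ ball (0 : Fin m → ℂ) r ∩ Φ ⁻¹' e.source) :=
    h.hol.hchart hch
  have hQ : DifferentiableOn ℂ (fun q : E × (Fin m → ℂ) => (q.1, e (Φ q)))
      (U ×ˢ ball (0 : Fin m → ℂ) r ∩ Φ ⁻¹' e.source) :=
    differentiableOn_fst.prodMk hF
  have hQi : InjOn (fun q : E × (Fin m → ℂ) => (q.1, e (Φ q)))
      (U ×ˢ ball (0 : Fin m → ℂ) r ∩ Φ ⁻¹' e.source) := by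
    rintro ⟨x, u⟩ hq ⟨x', u'⟩ hq' heq
    have h1 : x = x' := congrArg Prod.fst heq
    subst h1
    have h2 : e (Φ (x, u)) = e (Φ (x, u')) := congrArg Prod.snd heq
    have h3 : Φ (x, u) = Φ (x, u') := e.injOn hq.2 hq'.2 h2
    have h4 : u = u' := h.inj x hq.1.1 hq.1.2 hq'.1.2 h3
    rw [h4]
  have hQd : ∀ q ∈ U ×ˢ ball (0 : Fin m → ℂ) r ∩ Φ ⁻¹' e.source,
      ∃ A : (E × (Fin m → ℂ)) ≃L[ℂ] (E × (Fin m → ℂ)),
        (A : (E × (Fin m → ℂ)) →L[ℂ] (E × (Fin m → ℂ))) =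
          fderiv ℂ (fun q : E × (Fin m → ℂ) => (q.1, e (Φ q))) q := by
    rintro ⟨x, u⟩ hq
    refine scv6_equiv_of_inj _ ?_
    rintro ⟨v, w⟩ hvw
    have hFd : HasFDerivAt (fun q => e (Φ q)) (fderiv ℂ (fun q => e (Φ q)) (x, u)) (x, u) :=
      (hF.differentiableAt (hWo.mem_nhds hq)).hasFDerivAt
    have hQd' : HasFDerivAt (fun q : E × (Fin m → ℂ) => (q.1, e (Φ q)))
        ((ContinuousLinearMap.fst ℂ E (Fin m → ℂ)).prod (fderiv ℂ (fun q => e (Φ q)) (x, u)))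
        (x, u) := hasFDerivAt_fst.prodMk hFd
    rw [hQd'.fderiv] at hvw
    have hv : v = 0 := congrArg Prod.fst hvw
    have hw : fderiv ℂ (fun q => e (Φ q)) (x, u) (v, w) = 0 := congrArg Prod.snd hvw
    subst hv
    have hfib : HasFDerivAt (fun u' => e (Φ (x, u')))
        ((fderiv ℂ (fun q => e (Φ q)) (x, u)).comp (ContinuousLinearMap.inr ℂ E (Fin m → ℂ))) u :=
      hFd.comp u (hasFDerivAt_prodMk_right x u)
    have hbij : Function.Bijective (fderiv ℂ (fun u' => e (Φ (x, u'))) u) :=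
      EtC_fderiv_bij hch ((h.fib x hq.1.1).mdifferentiableAt (isOpen_ball.mem_nhds hq.1.2)) hq.2
        (h.der x hq.1.1 u hq.1.2)
    rw [hfib.fderiv] at hbij
    have hw0 : w = 0 := hbij.1 (by
      rw [map_zero]
      exact hw)
    rw [hw0]
    rfl
  obtain ⟨hop, G, hG, hGi⟩ := inverse_hol hWo hQ hQi hQd
  have hV' : IsOpen (V ∩ g ⁻¹' e.source) := isOpen_preimage_of_holOn hV hg e.open_source
  have hz0' : z0 ∈ V ∩ g ⁻¹' e.source := ⟨hz0, hsrc⟩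
  have hmem : ∀ z ∈ V ∩ g ⁻¹' e.source,
      (a z, c z) ∈ U ×ˢ ball (0 : Fin m → ℂ) r ∩ Φ ⁻¹' e.source := by
    intro z hz
    refine ⟨⟨hm hz.1, hc z hz.1⟩, ?_⟩
    rw [mem_preimage, he z hz.1]
    exact hz.2
  have h1 : DifferentiableOn ℂ (fun z => (a z, e (g z))) (V ∩ g ⁻¹' e.source) :=
    (ha.mono inter_subset_left).prodMk (hg.hchart hch)
  have h2 : MapsTo (fun z => (a z, e (g z))) (V ∩ g ⁻¹' e.source)
      ((fun q : E × (Fin m → ℂ) => (q.1, e (Φ q))) '' (U ×ˢ ball (0 : Fin m → ℂ) r ∩ Φ ⁻¹' e.source)) := by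
    intro z hz
    refine ⟨(a z, c z), hmem z hz, ?_⟩
    simp only [he z hz.1]
  have h3 : DifferentiableOn ℂ (fun z => (G (a z, e (g z))).2) (V ∩ g ⁻¹' e.source) :=
    (hG.comp h1 h2).snd
  have h4 : DifferentiableOn ℂ c (V ∩ g ⁻¹' e.source) := by
    refine h3.congr fun z hz => ?_
    have h5 := hGi (a z, c z) (hmem z hz)
    simp only [he z hz.1] at h5
    rw [h5]
  exact (h4.differentiableAt (hV'.mem_nhds hz0')).differentiableWithinAt

/-- uniform solvability over a compact set -/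
theorem EtCont.exists_coord [IsManifold 𝓘(ℂ, Fin m → ℂ) ⊤ X]
    {Φ : T × (Fin m → ℂ) → X} {S : Set T} {r : ℝ} (h : EtCont Φ S r)
    {K : Set T} (hK : IsCompact K) (hKS : K ⊆ S) {r' : ℝ} (hr' : r' < r) {η : ℝ} (hη : 0 < η) :
    ∃ ε > 0, ∀ x ∈ K, ∀ u ∈ closedBall (0 : Fin m → ℂ) r', ∀ y : X, dist (Φ (x, u)) y < ε →
      ∃ v ∈ ball (0 : Fin m → ℂ) r, ‖v - u‖ < η ∧ Φ (x, v) = y := by
  have hcomp : IsCompact (K ×ˢ closedBall (0 : Fin m → ℂ) r') := hK.prod (isCompact_closedBall _ _)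
  have key : ∃ ε > 0, ∀ q ∈ K ×ˢ closedBall (0 : Fin m → ℂ) r', ∀ y : X, dist (Φ q) y < ε →
      ∃ v ∈ ball (0 : Fin m → ℂ) r, ‖v - q.2‖ < η ∧ Φ (q.1, v) = y := by
    refine hcomp.induction_on (p := fun s => ∃ ε > 0, ∀ q ∈ s, ∀ y : X, dist (Φ q) y < ε →
      ∃ v ∈ ball (0 : Fin m → ℂ) r, ‖v - q.2‖ < η ∧ Φ (q.1, v) = y) ?_ ?_ ?_ ?_
    · exact ⟨1, one_pos, fun q hq => absurd hq (notMem_empty q)⟩
    · rintro s t hst ⟨ε, hε, ht⟩
      exact ⟨ε, hε, fun q hq => ht q (hst hq)⟩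
    · rintro s t ⟨ε, hε, hs⟩ ⟨ε', hε', ht⟩
      refine ⟨min ε ε', lt_min hε hε', ?_⟩
      rintro q (hq | hq) y hy
      · exact hs q hq y (hy.trans_le (min_le_left _ _))
      · exact ht q hq y (hy.trans_le (min_le_right _ _))
    · rintro ⟨x0, u0⟩ ⟨hx0, hu0⟩
      have hsub : K ×ˢ closedBall (0 : Fin m → ℂ) r' ⊆ S ×ˢ ball (0 : Fin m → ℂ) r :=
        prod_mono hKS (closedBall_subset_ball hr')
      have hu0r : u0 ∈ ball (0 : Fin m → ℂ) r := closedBall_subset_ball hr' hu0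
      obtain ⟨V, hV, ε, hε, hsol⟩ := h.local_coord (hKS hx0) hu0r (half_pos hη)
      have h1 : ∀ᶠ q in 𝓝[K ×ˢ closedBall (0 : Fin m → ℂ) r'] (x0, u0), q.1 ∈ V := by
        have h2 : ContinuousWithinAt (fun q : T × (Fin m → ℂ) => q.1)
            (K ×ˢ closedBall (0 : Fin m → ℂ) r') (x0, u0) := continuous_fst.continuousWithinAt
        exact h2.tendsto_nhdsWithin (fun q hq => hKS hq.1) hV
      have h2 : ∀ᶠ q in 𝓝[K ×ˢ closedBall (0 : Fin m → ℂ) r'] (x0, u0),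
          dist (Φ q) (Φ (x0, u0)) < ε / 2 :=
        Metric.tendsto_nhds.1 ((h.cont (x0, u0) ⟨hKS hx0, hu0r⟩).mono hsub) (ε / 2) (half_pos hε)
      have h3 : ∀ᶠ q : T × (Fin m → ℂ) in 𝓝[K ×ˢ closedBall (0 : Fin m → ℂ) r'] (x0, u0),
          dist q.2 u0 < η / 2 :=
        Metric.tendsto_nhds.1 (continuous_snd.continuousWithinAt (s := K ×ˢ closedBall (0 : Fin m → ℂ) r')
          (x := (x0, u0))) (η / 2) (half_pos hη)
      refine ⟨_, (h1.and (h2.and (h3.and self_mem_nhdsWithin))), ε / 2, half_pos hε, ?_⟩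
      rintro q ⟨hq1, hq2, hq3, hq4⟩ y hy
      have h4 : dist (Φ (x0, u0)) y < ε := by
        have := dist_triangle (Φ (x0, u0)) (Φ q) y
        rw [dist_comm (Φ (x0, u0)) (Φ q)] at this
        linarith
      obtain ⟨v, hv, hvn, hve⟩ := hsol q.1 hq1 (hKS hq4.1) y h4
      refine ⟨v, hv, ?_, hve⟩
      have h5 : v - q.2 = (v - u0) + (u0 - q.2) := by abel
      rw [h5]
      rw [dist_comm, dist_eq_norm] at hq3
      have := norm_add_le (v - u0) (u0 - q.2)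
      linarith
  obtain ⟨ε, hε, hk⟩ := key
  exact ⟨ε, hε, fun x hx u hu y hy => hk (x, u) ⟨hx, hu⟩ y hy⟩

end OkaP
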