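import Pool.Agent.H.MP_ceb9a9.EtC

/-!
# MP_ceb9a9: coordinates of nearby families and maps, transitions
-/

set_option autoImplicit false

open scoped Manifold

namespace OkaP

open Set Metric Topology

variable {m : ℕ} {X : Type} [MetricSpace X] [ChartedSpace (Fin m → ℂ) X]
variable {T : Type} [TopologicalSpace T]
variable {E : Type} [NormedAddCommGroup E] [NormedSpace ℂ E]

/-- nearby holomorphic families are obtained by a near-identity reparametrisation -/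
theorem EtHol.near_family [IsManifold 𝓘(ℂ, Fin m → ℂ) ⊤ X] [FiniteDimensional ℂ E]
    {Φ : E × (Fin m → ℂ) → X} {U : Set E} {r : ℝ} (hU : IsOpen U) (h : EtHol Φ U r)
    {K : Set E} (hK : IsCompact K) (hKU : K ⊆ U) {r' : ℝ} (hr' : r' < r) {η : ℝ} (hη : 0 < η) :
    ∃ ε > 0, ∀ (V : Set E) (Ψ : E × (Fin m → ℂ) → X), IsOpen V → V ⊆ K →
      HolOn m Ψ (V ×ˢ ball (0 : Fin m → ℂ) r') →
      (∀ x ∈ V, ∀ u ∈ ball (0 : Fin m → ℂ) r', dist (Φ (x, u)) (Ψ (x, u)) < ε) →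
      ∃ γ : E × (Fin m → ℂ) → (Fin m → ℂ), DifferentiableOn ℂ γ (V ×ˢ ball (0 : Fin m → ℂ) r') ∧
        ∀ x ∈ V, ∀ u ∈ ball (0 : Fin m → ℂ) r', γ (x, u) ∈ ball (0 : Fin m → ℂ) r ∧
          ‖γ (x, u) - u‖ < η ∧ Φ (x, γ (x, u)) = Ψ (x, u) := by
  obtain ⟨ε, hε, hex⟩ := h.toEtCont.exists_coord hK hKU hr' hη
  refine ⟨ε, hε, fun V Ψ hV hVK hΨ hd => ?_⟩
  have hsel : ∀ w : E × (Fin m → ℂ), ∃ v : Fin m → ℂ, w ∈ V ×ˢ ball (0 : Fin m → ℂ) r' →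
      v ∈ ball (0 : Fin m → ℂ) r ∧ ‖v - w.2‖ < η ∧ Φ (w.1, v) = Ψ w := by
    rintro ⟨x, u⟩
    by_cases hw : (x, u) ∈ V ×ˢ ball (0 : Fin m → ℂ) r'
    · obtain ⟨v, h1, h2, h3⟩ := hex x (hVK hw.1) u (ball_subset_closedBall hw.2) (Ψ (x, u))
        (hd x hw.1 u hw.2)
      exact ⟨v, fun _ => ⟨h1, h2, h3⟩⟩
    · exact ⟨0, fun h' => absurd h' hw⟩
  choose γ hγ using hsel
  refine ⟨γ, ?_, fun x hx u hu => hγ (x, u) ⟨hx, hu⟩⟩
  refine EtHol.coord_hol (a := Prod.fst) (g := Ψ) hU h (hV.prod isOpen_ball)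
    differentiable_fst.differentiableOn hΨ ?_ ?_ ?_
  · intro w hw
    exact hKU (hVK hw.1)
  · intro w hw
    exact (hγ w hw).1
  · intro w hw
    exact (hγ w hw).2.2

/-- nearby holomorphic maps have small holomorphic coordinates -/
theorem EtHol.near_map [IsManifold 𝓘(ℂ, Fin m → ℂ) ⊤ X] [FiniteDimensional ℂ E]
    {Φ : E × (Fin m → ℂ) → X} {U : Set E} {r : ℝ} (hr : 0 < r) (hU : IsOpen U) (h : EtHol Φ U r)
    {K : Set E} (hK : IsCompact K) (hKU : K ⊆ U) {η : ℝ} (hη : 0 < η) :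
    ∃ ε > 0, ∀ (V : Set E) (g : E → X), IsOpen V → V ⊆ K → HolOn m g V →
      (∀ x ∈ V, dist (Φ (x, 0)) (g x) < ε) →
      ∃ c : E → (Fin m → ℂ), DifferentiableOn ℂ c V ∧
        ∀ x ∈ V, c x ∈ ball (0 : Fin m → ℂ) r ∧ ‖c x‖ < η ∧ Φ (x, c x) = g x := by
  obtain ⟨ε, hε, hex⟩ := h.toEtCont.exists_coord hK hKU hr hη
  refine ⟨ε, hε, fun V g hV hVK hg hd => ?_⟩
  have hsel : ∀ x : E, ∃ v : Fin m → ℂ, x ∈ V →
      v ∈ ball (0 : Fin m → ℂ) r ∧ ‖v‖ < η ∧ Φ (x, v) = g x := by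
    intro x
    by_cases hx : x ∈ V
    · obtain ⟨v, h1, h2, h3⟩ := hex x (hVK hx) 0 (mem_closedBall_self le_rfl) (g x) (hd x hx)
      rw [sub_zero] at h2
      exact ⟨v, fun _ => ⟨h1, h2, h3⟩⟩
    · exact ⟨0, fun h' => absurd h' hx⟩
  choose c hc using hsel
  refine ⟨c, ?_, fun x hx => hc x hx⟩
  refine EtHol.coord_hol (a := id) (g := g) hU h hV differentiableOn_id hg ?_ ?_ ?_
  · intro x hx
    exact hKU (hVK hx)
  · intro x hx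
    exact (hc x hx).1
  · intro x hx
    exact (hc x hx).2.2

/-- nearby continuous maps have small continuous coordinates -/
theorem EtCont.near_map [IsManifold 𝓘(ℂ, Fin m → ℂ) ⊤ X]
    {Φ : T × (Fin m → ℂ) → X} {S : Set T} {r : ℝ} (hr : 0 < r) (h : EtCont Φ S r)
    {K : Set T} (hK : IsCompact K) (hKS : K ⊆ S) {η : ℝ} (hη : 0 < η) :
    ∃ ε > 0, ∀ (V : Set T) (g : T → X), V ⊆ K → ContinuousOn g V →
      (∀ x ∈ V, dist (Φ (x, 0)) (g x) < ε) →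
      ∃ c : T → (Fin m → ℂ), ContinuousOn c V ∧
        ∀ x ∈ V, c x ∈ ball (0 : Fin m → ℂ) r ∧ ‖c x‖ < η ∧ Φ (x, c x) = g x := by
  obtain ⟨ε, hε, hex⟩ := h.exists_coord hK hKS hr hη
  refine ⟨ε, hε, fun V g hVK hg hd => ?_⟩
  have hsel : ∀ x : T, ∃ v : Fin m → ℂ, x ∈ V →
      v ∈ ball (0 : Fin m → ℂ) r ∧ ‖v‖ < η ∧ Φ (x, v) = g x := by
    intro x
    by_cases hx : x ∈ V
    · obtain ⟨v, h1, h2, h3⟩ := hex x (hVK hx) 0 (mem_closedBall_self le_rfl) (g x) (hd x hx)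
      rw [sub_zero] at h2
      exact ⟨v, fun _ => ⟨h1, h2, h3⟩⟩
    · exact ⟨0, fun h' => absurd h' hx⟩
  choose c hc using hsel
  refine ⟨c, ?_, fun x hx => hc x hx⟩
  refine EtCont.coord_continuous (a := id) (g := g) h continuousOn_id hg ?_ ?_ ?_
  · intro x hx
    exact hKS (hVK hx)
  · intro x hx
    exact (hc x hx).1
  · intro x hx
    exact (hc x hx).2.2

/-- uniform smallness of the fibre radius over a compact set -/
theorem etD_uniform_radius {Φ : T × (Fin m → ℂ) → X} {S : Set T} {r1 : ℝ}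
    (h : EtCont Φ S r1) (hr1 : 0 < r1) (hS : IsCompact S) {ε : ℝ} (hε : 0 < ε) :
    ∃ r > 0, r ≤ r1 ∧ ∀ x ∈ S, ∀ u ∈ ball (0 : Fin m → ℂ) r,
      dist (Φ (x, 0)) (Φ (x, u)) < ε := by
  have key : ∃ r > 0, r ≤ r1 ∧ ∀ x ∈ S, x ∈ S → ∀ u ∈ ball (0 : Fin m → ℂ) r,
      dist (Φ (x, 0)) (Φ (x, u)) < ε := by
    refine hS.induction_on (p := fun A => ∃ r > 0, r ≤ r1 ∧ ∀ x ∈ A, x ∈ S →
      ∀ u ∈ ball (0 : Fin m → ℂ) r, dist (Φ (x, 0)) (Φ (x, u)) < ε) ?_ ?_ ?_ ?_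
    · exact ⟨r1, hr1, le_refl _, fun x hx => absurd hx (notMem_empty x)⟩
    · rintro A B hAB ⟨r, hr, hr', hB⟩
      exact ⟨r, hr, hr', fun x hx => hB x (hAB hx)⟩
    · rintro A B ⟨r, hr, hr', hA⟩ ⟨t, ht, ht', hB⟩
      refine ⟨min r t, lt_min hr ht, (min_le_left _ _).trans hr', ?_⟩
      rintro x (hx | hx) hxS u hu
      · exact hA x hx hxS u (ball_subset_ball (min_le_left _ _) hu)
      · exact hB x hx hxS u (ball_subset_ball (min_le_right _ _) hu)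
    · intro x0 hx0
      have h0 : (0 : Fin m → ℂ) ∈ ball (0 : Fin m → ℂ) r1 := mem_ball_self hr1
      have hc : ContinuousWithinAt Φ (S ×ˢ ball (0 : Fin m → ℂ) r1) (x0, 0) :=
        h.cont (x0, 0) ⟨hx0, h0⟩
      have hev : ∀ᶠ w in 𝓝[S ×ˢ ball (0 : Fin m → ℂ) r1] (x0, (0 : Fin m → ℂ)),
          dist (Φ w) (Φ (x0, 0)) < ε / 2 :=
        (tendsto_iff_dist_tendsto_zero.1 hc).eventually_lt_const (by positivity)
      rw [nhdsWithin_prod_eq, isOpen_ball.nhdsWithin_eq h0] at hev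
      obtain ⟨A, hA, B, hB, hAB⟩ := Filter.mem_prod_iff.1 hev
      obtain ⟨ρ, hρ, hρB⟩ := Metric.mem_nhds_iff.1 hB
      refine ⟨A, hA, min ρ r1, lt_min hρ hr1, min_le_right _ _, ?_⟩
      intro x hx hxS u hu
      have h1 : dist (Φ (x, u)) (Φ (x0, 0)) < ε / 2 :=
        hAB (mk_mem_prod hx (hρB (ball_subset_ball (min_le_left _ _) hu)))
      have h2 : dist (Φ (x, 0)) (Φ (x0, 0)) < ε / 2 :=
        hAB (mk_mem_prod hx (hρB (mem_ball_self hρ)))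
      calc dist (Φ (x, 0)) (Φ (x, u)) ≤ dist (Φ (x, 0)) (Φ (x0, 0)) + dist (Φ (x, u)) (Φ (x0, 0)) :=
            dist_triangle_right _ _ _
        _ < ε / 2 + ε / 2 := add_lt_add h2 h1
        _ = ε := by ring
  obtain ⟨r, hr, hr', hk⟩ := key
  exact ⟨r, hr, hr', fun x hx => hk x hx hx⟩

/-- a solution of `Φ2 (x, δ (x, u)) = Φ1 (x, u)` is itself an etale family -/
theorem etD_coord_etCont [IsManifold 𝓘(ℂ, Fin m → ℂ) ⊤ X]
    {Φ1 Φ2 : T × (Fin m → ℂ) → X} {S : Set T} {r r2 : ℝ} (h1 : EtCont Φ1 S r)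
    (h2 : EtCont Φ2 S r2) {δ : T × (Fin m → ℂ) → (Fin m → ℂ)}
    (hδ : ∀ x ∈ S, ∀ u ∈ ball (0 : Fin m → ℂ) r, δ (x, u) ∈ ball (0 : Fin m → ℂ) r2 ∧
        Φ2 (x, δ (x, u)) = Φ1 (x, u)) : EtCont δ S r := by
  have hfib : ∀ x ∈ S, DifferentiableOn ℂ (fun u => δ (x, u)) (ball (0 : Fin m → ℂ) r) := by
    intro x hx
    have hΦ' : EtHol (E := Fin m → ℂ) (fun w : (Fin m → ℂ) × (Fin m → ℂ) => Φ2 (x, w.2)) univ r2 := by
      refine EtHol.of_etCont_fib isOpen_univ ?_ (fun _ _ => h2.inj x hx) (fun _ _ => h2.der x hx)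
      have h3 : HolOn m (fun u => Φ2 (x, u)) (ball (0 : Fin m → ℂ) r2) := h2.fib x hx
      exact h3.comp (g := fun w : (Fin m → ℂ) × (Fin m → ℂ) => w.2)
        differentiable_snd.differentiableOn (fun w hw => hw.2)
    refine EtHol.coord_hol (a := id) (g := fun u => Φ1 (x, u)) isOpen_univ hΦ' isOpen_ball
      differentiableOn_id (h1.fib x hx) (fun _ _ => mem_univ _) (fun u hu => (hδ x hx u hu).1)
      (fun u hu => (hδ x hx u hu).2)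
  refine ⟨?_, ?_, ?_, ?_⟩
  · refine EtCont.coord_continuous (a := Prod.fst) (g := Φ1) h2 continuous_fst.continuousOn
      h1.cont (fun w hw => hw.1) ?_ ?_
    · rintro ⟨x, u⟩ ⟨hx, hu⟩
      exact (hδ x hx u hu).1
    · rintro ⟨x, u⟩ ⟨hx, hu⟩
      exact (hδ x hx u hu).2
  · intro x hx
    exact (hfib x hx).mdifferentiableOn
  · intro x hx u hu u' hu' heq
    have h3 : δ (x, u) = δ (x, u') := heq
    refine h1.inj x hx hu hu' ?_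
    show Φ1 (x, u) = Φ1 (x, u')
    rw [← (hδ x hx u hu).2, ← (hδ x hx u' hu').2, h3]
  · intro x hx u hu
    have hδd : MDifferentiableAt 𝓘(ℂ, Fin m → ℂ) 𝓘(ℂ, Fin m → ℂ) (fun u => δ (x, u)) u :=
      ((hfib x hx).differentiableAt (isOpen_ball.mem_nhds hu)).mdifferentiableAt
    have hΦd : MDifferentiableAt 𝓘(ℂ, Fin m → ℂ) 𝓘(ℂ, Fin m → ℂ) (fun v => Φ2 (x, v)) (δ (x, u)) :=
      (h2.fib x hx).mdifferentiableAt (isOpen_ball.mem_nhds (hδ x hx u hu).1)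
    have heq : (fun u => Φ1 (x, u)) =ᶠ[𝓝 u] ((fun v => Φ2 (x, v)) ∘ (fun u => δ (x, u))) := by
      filter_upwards [isOpen_ball.mem_nhds hu] with w hw
      exact (hδ x hx w hw).2.symm
    have h4 := heq.mfderiv_eq (I := 𝓘(ℂ, Fin m → ℂ)) (I' := 𝓘(ℂ, Fin m → ℂ))
    rw [mfderiv_comp u hΦd hδd] at h4
    have h5 := h1.der x hx u hu
    have h6 := h2.der x hx (δ (x, u)) (hδ x hx u hu).1
    rw [h4] at h5
    exact (Function.Bijective.of_comp_iff' h6 _).1 h5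

/-- transition between two families with the same base map over a compact set -/
theorem EtCont.transition [IsManifold 𝓘(ℂ, Fin m → ℂ) ⊤ X]
    {Φ1 Φ2 : T × (Fin m → ℂ) → X} {S : Set T} {r1 r2 : ℝ} (h1 : EtCont Φ1 S r1)
    (h2 : EtCont Φ2 S r2) (hr1 : 0 < r1) (hr2 : 0 < r2) (hS : IsCompact S)
    (hb : ∀ x ∈ S, Φ1 (x, 0) = Φ2 (x, 0)) :
    ∃ r > 0, r ≤ r1 ∧ ∃ δ : T × (Fin m → ℂ) → (Fin m → ℂ), EtCont δ S r ∧
      (∀ x ∈ S, δ (x, 0) = 0) ∧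
      ∀ x ∈ S, ∀ u ∈ ball (0 : Fin m → ℂ) r, δ (x, u) ∈ ball (0 : Fin m → ℂ) r2 ∧
        Φ2 (x, δ (x, u)) = Φ1 (x, u) := by
  obtain ⟨ε, hε, hex⟩ := h2.exists_coord hS Subset.rfl hr2 hr2
  obtain ⟨r, hr, hrr1, hclose⟩ := etD_uniform_radius h1 hr1 hS hε
  have hsel : ∀ w : T × (Fin m → ℂ), ∃ v : Fin m → ℂ, w ∈ S ×ˢ ball (0 : Fin m → ℂ) r →
      v ∈ ball (0 : Fin m → ℂ) r2 ∧ Φ2 (w.1, v) = Φ1 w := by
    rintro ⟨x, u⟩
    by_cases hw : (x, u) ∈ S ×ˢ ball (0 : Fin m → ℂ) r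
    · have hd : dist (Φ2 (x, 0)) (Φ1 (x, u)) < ε := by
        rw [← hb x hw.1]
        exact hclose x hw.1 u hw.2
      obtain ⟨v, h3, _, h4⟩ := hex x hw.1 0 (mem_closedBall_self le_rfl) _ hd
      exact ⟨v, fun _ => ⟨h3, h4⟩⟩
    · exact ⟨0, fun h' => absurd h' hw⟩
  choose δ hδ using hsel
  have hδ' : ∀ x ∈ S, ∀ u ∈ ball (0 : Fin m → ℂ) r, δ (x, u) ∈ ball (0 : Fin m → ℂ) r2 ∧
        Φ2 (x, δ (x, u)) = Φ1 (x, u) := fun x hx u hu => hδ (x, u) ⟨hx, hu⟩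
  refine ⟨r, hr, hrr1, δ, etD_coord_etCont (h1.mono Subset.rfl hrr1) h2 hδ', ?_, hδ'⟩
  intro x hx
  obtain ⟨h3, h4⟩ := hδ' x hx 0 (mem_ball_self hr)
  rw [hb x hx] at h4
  exact h2.inj x hx h3 (mem_ball_self hr2) h4

/-- holomorphic transition near a compact set -/
theorem EtHol.transition [IsManifold 𝓘(ℂ, Fin m → ℂ) ⊤ X] [FiniteDimensional ℂ E]
    {Φ1 Φ2 : E × (Fin m → ℂ) → X} {U K : Set E} {r1 r2 : ℝ} (hU : IsOpen U) (h1 : EtHol Φ1 U r1)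
    (h2 : EtHol Φ2 U r2) (hr1 : 0 < r1) (hr2 : 0 < r2) (hK : IsCompact K) (hKU : K ⊆ U)
    (hb : ∀ x ∈ U, Φ1 (x, 0) = Φ2 (x, 0)) :
    ∃ r > 0, r ≤ r1 ∧ ∃ V : Set E, IsOpen V ∧ K ⊆ V ∧ V ⊆ U ∧
      ∃ δ : E × (Fin m → ℂ) → (Fin m → ℂ), EtHol δ V r ∧ (∀ x ∈ V, δ (x, 0) = 0) ∧
      ∀ x ∈ V, ∀ u ∈ ball (0 : Fin m → ℂ) r, δ (x, u) ∈ ball (0 : Fin m → ℂ) r2 ∧
        Φ2 (x, δ (x, u)) = Φ1 (x, u) := by
  have : ProperSpace E := FiniteDimensional.proper ℂ E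
  obtain ⟨L, hL, hKL, hLU⟩ := exists_compact_between hK hU hKU
  obtain ⟨r, hr, hrr1, δ, hδ, hδ0, hδs⟩ := (h1.toEtCont.mono hLU le_rfl).transition
    (h2.toEtCont.mono hLU le_rfl) hr1 hr2 hL (fun x hx => hb x (hLU hx))
  have hVL : interior L ⊆ L := interior_subset
  refine ⟨r, hr, hrr1, interior L, isOpen_interior, hKL, hVL.trans hLU, δ, ?_,
    fun x hx => hδ0 x (hVL hx), fun x hx => hδs x (hVL hx)⟩
  refine { toEtCont := hδ.mono hVL le_rfl, hol := ?_ }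
  have hd : DifferentiableOn ℂ δ (interior L ×ˢ ball (0 : Fin m → ℂ) r) := by
    refine EtHol.coord_hol (a := Prod.fst) (g := Φ1) hU h2 (isOpen_interior.prod isOpen_ball)
      differentiable_fst.differentiableOn ?_ ?_ ?_ ?_
    · exact h1.hol.mono (prod_mono (hVL.trans hLU) (ball_subset_ball hrr1))
    · intro w hw
      exact hLU (hVL hw.1)
    · rintro ⟨x, u⟩ ⟨hx, hu⟩
      exact (hδs x (hVL hx) u hu).1
    · rintro ⟨x, u⟩ ⟨hx, hu⟩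
      exact (hδs x (hVL hx) u hu).2
  exact hd.mdifferentiableOn

end OkaP
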