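import Pool.Agent.H.MP_ceb9a9.EtB

/-!
# MP_ceb9a9: homotopies of etale families, the merging lemma
-/

set_option autoImplicit false

open scoped Manifold

namespace OkaP

open Set Metric Topology

variable {m : ℕ} {X : Type} [MetricSpace X] [ChartedSpace (Fin m → ℂ) X]
variable {T T' : Type} [TopologicalSpace T] [TopologicalSpace T']

theorem EtHtpy.refl {p : X} {Z N : Set T} {Φ : T × (Fin m → ℂ) → X} {r : ℝ} (hr : 0 < r)
    (h : EtCont Φ N r) (hp : ∀ x ∈ N, x ∉ Z → Φ (x, 0) ≠ p) : EtHtpy p Z N Φ Φ := by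
  refine ⟨r, hr, fun q => Φ (q.1.1, q.2), ?_, fun x _ u _ => rfl, fun x _ u _ => rfl,
    fun x hx hZ s _ => hp x hx hZ⟩
  exact h.pullback (a := fun y : T × ℝ => y.1) continuous_fst.continuousOn
    (fun y hy => hy.1)

theorem EtHtpy.symm {p : X} {Z N : Set T} {Φ0 Φ1 : T × (Fin m → ℂ) → X}
    (h : EtHtpy p Z N Φ0 Φ1) : EtHtpy p Z N Φ1 Φ0 := by
  obtain ⟨r, hr, Θ, hΘ, h0, h1, hp⟩ := h
  refine ⟨r, hr, fun q => Θ ((q.1.1, 1 - q.1.2), q.2), ?_, ?_, ?_, ?_⟩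
  · refine hΘ.pullback (a := fun y : T × ℝ => (y.1, 1 - y.2)) ?_ ?_
    · exact (continuous_fst.prodMk (continuous_const.sub continuous_snd)).continuousOn
    · rintro ⟨x, s⟩ ⟨hx, hs⟩
      refine ⟨hx, ?_, ?_⟩
      · show (0 : ℝ) ≤ 1 - s
        linarith [hs.2]
      · show 1 - s ≤ (1 : ℝ)
        linarith [hs.1]
  · intro x hx u hu
    simpa using h1 x hx u hu
  · intro x hx u hu
    simpa using h0 x hx u hu
  · intro x hx hZ s hs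
    exact hp x hx hZ (1 - s) ⟨by linarith [hs.2], by linarith [hs.1]⟩

theorem EtHtpy.trans {p : X} {Z N : Set T} {Φ0 Φ1 Φ2 : T × (Fin m → ℂ) → X}
    (h : EtHtpy p Z N Φ0 Φ1) (h' : EtHtpy p Z N Φ1 Φ2) : EtHtpy p Z N Φ0 Φ2 := by
  obtain ⟨r1, hr1, Θ1, hΘ1, h10, h11, hp1⟩ := h
  obtain ⟨r2, hr2, Θ2, hΘ2, h20, h21, hp2⟩ := h'
  set r := min r1 r2 with hr
  have hrpos : 0 < r := lt_min hr1 hr2
  have hb1 : ∀ u ∈ ball (0 : Fin m → ℂ) r, u ∈ ball (0 : Fin m → ℂ) r1 := fun u hu =>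
    ball_subset_ball (min_le_left _ _) hu
  have hb2 : ∀ u ∈ ball (0 : Fin m → ℂ) r, u ∈ ball (0 : Fin m → ℂ) r2 := fun u hu =>
    ball_subset_ball (min_le_right _ _) hu
  -- the two pieces
  set A : (T × ℝ) × (Fin m → ℂ) → X := fun q => Θ1 ((q.1.1, 2 * q.1.2), q.2) with hA
  set B : (T × ℝ) × (Fin m → ℂ) → X := fun q => Θ2 ((q.1.1, 2 * q.1.2 - 1), q.2) with hB
  have hAet : EtCont A (N ×ˢ Icc (0 : ℝ) (1 / 2)) r := by
    refine (hΘ1.mono (subset_refl _) (min_le_left _ _)).pullback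
      (a := fun y : T × ℝ => (y.1, 2 * y.2)) ?_ ?_
    · exact (continuous_fst.prodMk (continuous_const.mul continuous_snd)).continuousOn
    · rintro ⟨x, s⟩ ⟨hx, hs⟩
      refine ⟨hx, ?_, ?_⟩
      · show (0 : ℝ) ≤ 2 * s
        linarith [hs.1]
      · show 2 * s ≤ (1 : ℝ)
        linarith [hs.2]
  have hBet : EtCont B (N ×ˢ Icc (1 / 2 : ℝ) 1) r := by
    refine (hΘ2.mono (subset_refl _) (min_le_right _ _)).pullback
      (a := fun y : T × ℝ => (y.1, 2 * y.2 - 1)) ?_ ?_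
    · exact (continuous_fst.prodMk
        ((continuous_const.mul continuous_snd).sub continuous_const)).continuousOn
    · rintro ⟨x, s⟩ ⟨hx, hs⟩
      refine ⟨hx, ?_, ?_⟩
      · show (0 : ℝ) ≤ 2 * s - 1
        linarith [hs.1]
      · show 2 * s - 1 ≤ (1 : ℝ)
        linarith [hs.2]
  have hagree : ∀ x ∈ N, ∀ u ∈ ball (0 : Fin m → ℂ) r,
      A ((x, (1 / 2 : ℝ)), u) = B ((x, (1 / 2 : ℝ)), u) := by
    intro x hx u hu
    have e1 := h11 x hx u (hb1 u hu)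
    have e2 := h20 x hx u (hb2 u hu)
    simp only [hA, hB]
    norm_num
    rw [e1, e2]
  set C : (T × ℝ) × (Fin m → ℂ) → X := fun q => if q.1.2 ≤ 1 / 2 then A q else B q with hC
  have hCA : ∀ y : T × ℝ, y.2 ≤ 1 / 2 → (fun u => C (y, u)) = fun u => A (y, u) := by
    intro y hy
    funext u
    simp only [hC, if_pos hy]
  have hCB : ∀ y : T × ℝ, ¬ y.2 ≤ 1 / 2 → (fun u => C (y, u)) = fun u => B (y, u) := by
    intro y hy
    funext u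
    simp only [hC, if_neg hy]
  have hcont : ContinuousOn C ((N ×ˢ Icc (0 : ℝ) 1) ×ˢ ball (0 : Fin m → ℂ) r) := by
    have hcs : Continuous fun q : (T × ℝ) × (Fin m → ℂ) => q.1.2 :=
      continuous_snd.comp continuous_fst
    refine ContinuousOn.if ?_ ?_ ?_
    · rintro ⟨⟨x, s⟩, u⟩ ⟨⟨⟨hx, _⟩, hu⟩, hf⟩
      have := frontier_le_subset_eq hcs continuous_const hf
      have hs : s = 1 / 2 := this
      subst hs
      exact hagree x hx u hu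
    · refine hAet.cont.mono ?_
      rintro ⟨⟨x, s⟩, u⟩ ⟨⟨⟨hx, hs⟩, hu⟩, hf⟩
      have : s ≤ 1 / 2 := by
        have hcl : IsClosed {q : (T × ℝ) × (Fin m → ℂ) | q.1.2 ≤ 1 / 2} :=
          isClosed_le hcs continuous_const
        have := hcl.closure_subset_iff.2 (subset_refl _) hf
        exact this
      exact ⟨⟨hx, hs.1, this⟩, hu⟩
    · refine hBet.cont.mono ?_
      rintro ⟨⟨x, s⟩, u⟩ ⟨⟨⟨hx, hs⟩, hu⟩, hf⟩
      have : 1 / 2 ≤ s := by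
        have hcl : IsClosed {q : (T × ℝ) × (Fin m → ℂ) | 1 / 2 ≤ q.1.2} :=
          isClosed_le continuous_const hcs
        have hsub : {q : (T × ℝ) × (Fin m → ℂ) | ¬ q.1.2 ≤ 1 / 2} ⊆
            {q : (T × ℝ) × (Fin m → ℂ) | 1 / 2 ≤ q.1.2} := by
          intro q hq
          exact le_of_lt (not_le.1 hq)
        have := closure_minimal hsub hcl hf
        exact this
      exact ⟨⟨hx, this, hs.2⟩, hu⟩
  refine ⟨r, hrpos, C, ⟨hcont, ?_, ?_, ?_⟩, ?_, ?_, ?_⟩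
  · rintro ⟨x, s⟩ ⟨hx, hs⟩
    by_cases h2 : s ≤ 1 / 2
    · rw [hCA (x, s) h2]
      exact hAet.fib (x, s) ⟨hx, hs.1, h2⟩
    · rw [hCB (x, s) h2]
      exact hBet.fib (x, s) ⟨hx, le_of_lt (not_le.1 h2), hs.2⟩
  · rintro ⟨x, s⟩ ⟨hx, hs⟩
    by_cases h2 : s ≤ 1 / 2
    · rw [hCA (x, s) h2]
      exact hAet.inj (x, s) ⟨hx, hs.1, h2⟩
    · rw [hCB (x, s) h2]
      exact hBet.inj (x, s) ⟨hx, le_of_lt (not_le.1 h2), hs.2⟩
  · rintro ⟨x, s⟩ ⟨hx, hs⟩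
    by_cases h2 : s ≤ 1 / 2
    · rw [hCA (x, s) h2]
      exact hAet.der (x, s) ⟨hx, hs.1, h2⟩
    · rw [hCB (x, s) h2]
      exact hBet.der (x, s) ⟨hx, le_of_lt (not_le.1 h2), hs.2⟩
  · intro x hx u hu
    have e : C ((x, 0), u) = A ((x, 0), u) := by
      simp only [hC]
      rw [if_pos (by norm_num)]
    rw [e]
    simp only [hA, mul_zero]
    exact h10 x hx u (hb1 u hu)
  · intro x hx u hu
    have e : C ((x, 1), u) = B ((x, 1), u) := by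
      simp only [hC]
      rw [if_neg (by norm_num)]
    rw [e]
    simp only [hB]
    norm_num
    exact h21 x hx u (hb2 u hu)
  · intro x hx hZ s hs
    by_cases h2 : s ≤ 1 / 2
    · have e : C ((x, s), 0) = A ((x, s), 0) := by
        simp only [hC]
        rw [if_pos h2]
      rw [e]
      exact hp1 x hx hZ (2 * s) ⟨by linarith [hs.1], by linarith⟩
    · have e : C ((x, s), 0) = B ((x, s), 0) := by
        simp only [hC]
        rw [if_neg h2]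
      rw [e]
      exact hp2 x hx hZ (2 * s - 1) ⟨by linarith [not_le.1 h2], by linarith [hs.2]⟩

theorem EtHtpy.mono {p : X} {Z Z' N N' : Set T} {Φ0 Φ1 : T × (Fin m → ℂ) → X}
    (h : EtHtpy p Z N Φ0 Φ1) (hN : N' ⊆ N) (hZ : ∀ x ∈ N', x ∈ Z → x ∈ Z') :
    EtHtpy p Z' N' Φ0 Φ1 := by
  obtain ⟨r, hr, Θ, hΘ, h0, h1, hp⟩ := h
  refine ⟨r, hr, Θ, hΘ.mono (prod_mono_left hN) le_rfl, fun x hx => h0 x (hN hx),
    fun x hx => h1 x (hN hx), fun x hx hxZ => hp x (hN hx) (fun hh => hxZ (hZ x hx hh))⟩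

theorem EtHtpy.congr {p : X} {Z N : Set T} {Φ0 Φ1 Ψ0 Ψ1 : T × (Fin m → ℂ) → X} {r : ℝ}
    (hr : 0 < r) (h : EtHtpy p Z N Φ0 Φ1)
    (h0 : ∀ x ∈ N, ∀ u ∈ ball (0 : Fin m → ℂ) r, Ψ0 (x, u) = Φ0 (x, u))
    (h1 : ∀ x ∈ N, ∀ u ∈ ball (0 : Fin m → ℂ) r, Ψ1 (x, u) = Φ1 (x, u)) :
    EtHtpy p Z N Ψ0 Ψ1 := by
  obtain ⟨r', hr', Θ, hΘ, k0, k1, hp⟩ := h
  refine ⟨min r r', lt_min hr hr', Θ, hΘ.mono (subset_refl _) (min_le_right _ _), ?_, ?_, hp⟩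
  · intro x hx u hu
    rw [k0 x hx u (ball_subset_ball (min_le_right _ _) hu),
      h0 x hx u (ball_subset_ball (min_le_left _ _) hu)]
  · intro x hx u hu
    rw [k1 x hx u (ball_subset_ball (min_le_right _ _) hu),
      h1 x hx u (ball_subset_ball (min_le_left _ _) hu)]

/-- homotopies given by a continuous family over `N × [0,1]` -/
theorem EtHtpy.of_family {p : X} {Z N : Set T} {Θ : (T × ℝ) × (Fin m → ℂ) → X} {r : ℝ}
    (hr : 0 < r) (h : EtCont Θ (N ×ˢ Icc (0 : ℝ) 1) r)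
    (hp : ∀ x ∈ N, x ∉ Z → ∀ s ∈ Icc (0 : ℝ) 1, Θ ((x, s), 0) ≠ p) :
    EtHtpy p Z N (fun q => Θ ((q.1, 0), q.2)) (fun q => Θ ((q.1, 1), q.2)) :=
  ⟨r, hr, Θ, h, fun _ _ _ _ => rfl, fun _ _ _ _ => rfl, hp⟩

/-- homotopies obtained by moving the base point -/
theorem EtHtpy.of_move {p : X} {Z N S : Set T} {Φ : T × (Fin m → ℂ) → X} {r : ℝ} (hr : 0 < r)
    (h : EtCont Φ S r) {R : ℝ × T → T} (hR : ContinuousOn R (Icc (0 : ℝ) 1 ×ˢ N))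
    (hm : ∀ s ∈ Icc (0 : ℝ) 1, ∀ x ∈ N, R (s, x) ∈ S)
    (hp : ∀ x ∈ N, x ∉ Z → ∀ s ∈ Icc (0 : ℝ) 1, Φ (R (s, x), 0) ≠ p) :
    EtHtpy p Z N (fun q => Φ (R (0, q.1), q.2)) (fun q => Φ (R (1, q.1), q.2)) := by
  refine ⟨r, hr, fun q => Φ (R (q.1.2, q.1.1), q.2), ?_, fun _ _ _ _ => rfl,
    fun _ _ _ _ => rfl, hp⟩
  refine h.pullback (a := fun y : T × ℝ => R (y.2, y.1)) ?_ ?_
  · exact hR.comp (continuous_snd.prodMk continuous_fst).continuousOn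
      (fun y hy => ⟨hy.2, hy.1⟩)
  · rintro ⟨x, s⟩ ⟨hx, hs⟩
    exact hm s hs x hx

/-- straight line homotopies in the coordinates of a family `Φ` -/
theorem EtHtpy.of_line {p : X} {Z N : Set T} {Φ : T × (Fin m → ℂ) → X} {r : ℝ}
    (h : EtCont Φ N r) {δ0 δ1 : T × (Fin m → ℂ) → (Fin m → ℂ)} {r' : ℝ} {τ0 τ1 : T → ℝ}
    (hr' : 0 < r')
    (hτ0c : ContinuousOn τ0 N) (hτ1c : ContinuousOn τ1 N)
    (hτ0 : ∀ x ∈ N, 0 < τ0 x) (hτ1 : ∀ x ∈ N, 0 < τ1 x)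
    (hc0 : ContinuousOn δ0 (N ×ˢ ball (0 : Fin m → ℂ) r'))
    (hc1 : ContinuousOn δ1 (N ×ˢ ball (0 : Fin m → ℂ) r'))
    (hd0 : ∀ x ∈ N, DifferentiableOn ℂ (fun u => δ0 (x, u)) (ball (0 : Fin m → ℂ) r'))
    (hd1 : ∀ x ∈ N, DifferentiableOn ℂ (fun u => δ1 (x, u)) (ball (0 : Fin m → ℂ) r'))
    (hn0 : ∀ x ∈ N, ∀ u ∈ ball (0 : Fin m → ℂ) r', ‖δ0 (x, u) - (τ0 x : ℂ) • u‖ ≤ τ0 x * (r' / 8))
    (hn1 : ∀ x ∈ N, ∀ u ∈ ball (0 : Fin m → ℂ) r', ‖δ1 (x, u) - (τ1 x : ℂ) • u‖ ≤ τ1 x * (r' / 8))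
    (hm0 : ∀ x ∈ N, ∀ u ∈ ball (0 : Fin m → ℂ) r', δ0 (x, u) ∈ ball (0 : Fin m → ℂ) r)
    (hm1 : ∀ x ∈ N, ∀ u ∈ ball (0 : Fin m → ℂ) r', δ1 (x, u) ∈ ball (0 : Fin m → ℂ) r)
    (hp : ∀ x ∈ N, x ∉ Z → ∀ s ∈ Icc (0 : ℝ) 1,
      Φ (x, ((1 - s : ℝ) : ℂ) • δ0 (x, 0) + ((s : ℝ) : ℂ) • δ1 (x, 0)) ≠ p) :
    EtHtpy p Z N (fun q => Φ (q.1, δ0 q)) (fun q => Φ (q.1, δ1 q)) := by
  set D : (T × ℝ) × (Fin m → ℂ) → (Fin m → ℂ) := fun q =>
    ((1 - q.1.2 : ℝ) : ℂ) • δ0 (q.1.1, q.2) + ((q.1.2 : ℝ) : ℂ) • δ1 (q.1.1, q.2) with hD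
  have hmul : ∀ (c : ℝ), 0 ≤ c → ∀ v : Fin m → ℂ, ‖((c : ℝ) : ℂ) • v‖ = c * ‖v‖ := by
    intro c hc v
    rw [norm_smul, Complex.norm_real, Real.norm_of_nonneg hc]
  have hDball : ∀ y ∈ N ×ˢ Icc (0 : ℝ) 1, ∀ u ∈ ball (0 : Fin m → ℂ) r',
      D (y, u) ∈ ball (0 : Fin m → ℂ) r := by
    rintro ⟨x, s⟩ ⟨hx, hs⟩ u hu
    have a0 := hm0 x hx u hu
    have a1 := hm1 x hx u hu
    rw [mem_ball_zero_iff] at a0 a1 ⊢
    have s0 : 0 ≤ s := hs.1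
    have s1 : 0 ≤ 1 - s := by linarith [hs.2]
    calc ‖D ((x, s), u)‖ ≤ ‖((1 - s : ℝ) : ℂ) • δ0 (x, u)‖ + ‖((s : ℝ) : ℂ) • δ1 (x, u)‖ :=
          norm_add_le _ _
      _ = (1 - s) * ‖δ0 (x, u)‖ + s * ‖δ1 (x, u)‖ := by rw [hmul _ s1, hmul _ s0]
      _ < r := by
          rcases eq_or_lt_of_le s0 with h0 | h0
          · rw [← h0]
            simpa using a0
          · have := mul_le_mul_of_nonneg_left a0.le s1
            have := mul_lt_mul_of_pos_left a1 h0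
            nlinarith
  have hpull : ∀ (δ : T × (Fin m → ℂ) → (Fin m → ℂ)),
      ContinuousOn δ (N ×ˢ ball (0 : Fin m → ℂ) r') →
      ContinuousOn (fun q : (T × ℝ) × (Fin m → ℂ) => δ (q.1.1, q.2))
        ((N ×ˢ Icc (0 : ℝ) 1) ×ˢ ball (0 : Fin m → ℂ) r') := by
    intro δ hδ
    refine hδ.comp ?_ ?_
    · exact ((continuous_fst.comp continuous_fst).prodMk continuous_snd).continuousOn
    · rintro ⟨⟨x, s⟩, u⟩ ⟨⟨hx, _⟩, hu⟩
      exact ⟨hx, hu⟩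
  have hDc : ContinuousOn D ((N ×ˢ Icc (0 : ℝ) 1) ×ˢ ball (0 : Fin m → ℂ) r') := by
    have c1 : Continuous fun q : (T × ℝ) × (Fin m → ℂ) => ((1 - q.1.2 : ℝ) : ℂ) :=
      Complex.continuous_ofReal.comp
        (continuous_const.sub (continuous_snd.comp continuous_fst))
    have c2 : Continuous fun q : (T × ℝ) × (Fin m → ℂ) => ((q.1.2 : ℝ) : ℂ) :=
      Complex.continuous_ofReal.comp (continuous_snd.comp continuous_fst)
    exact (c1.continuousOn.smul (hpull δ0 hc0)).add (c2.continuousOn.smul (hpull δ1 hc1))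
  have hDet : EtCont D (N ×ˢ Icc (0 : ℝ) 1) (r' / 2) := by
    refine etCont_of_near_smul' (τ := fun y : T × ℝ => (1 - y.2) * τ0 y.1 + y.2 * τ1 y.1)
      hr' ?_ hDc ?_ ?_
    · rintro ⟨x, s⟩ ⟨hx, hs⟩
      have a0 := hτ0 x hx
      have a1 := hτ1 x hx
      have s0 : 0 ≤ s := hs.1
      have s1 : 0 ≤ 1 - s := by linarith [hs.2]
      show 0 < (1 - s) * τ0 x + s * τ1 x
      rcases eq_or_lt_of_le s0 with h0 | h0
      · rw [← h0]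
        simpa using a0
      · have := mul_nonneg s1 a0.le
        have := mul_pos h0 a1
        linarith
    · rintro ⟨x, s⟩ ⟨hx, hs⟩
      have e0 := (hd0 x hx).const_smul (((1 - s : ℝ)) : ℂ)
      have e1 := (hd1 x hx).const_smul ((s : ℝ) : ℂ)
      exact e0.add e1
    · rintro ⟨x, s⟩ ⟨hx, hs⟩ u hu
      have s0 : 0 ≤ s := hs.1
      have s1 : 0 ≤ 1 - s := by linarith [hs.2]
      have e : D ((x, s), u) - ((((1 - s) * τ0 x + s * τ1 x : ℝ)) : ℂ) • u =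
          ((1 - s : ℝ) : ℂ) • (δ0 (x, u) - (τ0 x : ℂ) • u) +
          ((s : ℝ) : ℂ) • (δ1 (x, u) - (τ1 x : ℂ) • u) := by
        simp only [hD]
        push_cast
        simp only [smul_sub, add_smul, sub_smul, mul_smul, one_smul, mul_comm]
        ext i
        simp only [Pi.add_apply, Pi.sub_apply, Pi.smul_apply, smul_eq_mul]
        ring
      show ‖D ((x, s), u) - ((((1 - s) * τ0 x + s * τ1 x : ℝ)) : ℂ) • u‖ ≤
        ((1 - s) * τ0 x + s * τ1 x) * (r' / 8)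
      rw [e]
      calc _ ≤ ‖((1 - s : ℝ) : ℂ) • (δ0 (x, u) - (τ0 x : ℂ) • u)‖ +
            ‖((s : ℝ) : ℂ) • (δ1 (x, u) - (τ1 x : ℂ) • u)‖ := norm_add_le _ _
        _ = (1 - s) * ‖δ0 (x, u) - (τ0 x : ℂ) • u‖ + s * ‖δ1 (x, u) - (τ1 x : ℂ) • u‖ := by
            rw [hmul _ s1, hmul _ s0]
        _ ≤ (1 - s) * (τ0 x * (r' / 8)) + s * (τ1 x * (r' / 8)) :=
            add_le_add (mul_le_mul_of_nonneg_left (hn0 x hx u hu) s1)
              (mul_le_mul_of_nonneg_left (hn1 x hx u hu) s0)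
        _ = ((1 - s) * τ0 x + s * τ1 x) * (r' / 8) := by ring
  have hΦ : EtCont (fun q : (T × ℝ) × (Fin m → ℂ) => Φ (q.1.1, q.2)) (N ×ˢ Icc (0 : ℝ) 1) r :=
    h.pullback (a := fun y : T × ℝ => y.1) continuous_fst.continuousOn (fun y hy => hy.1)
  have hcomp := hΦ.comp hDet (fun y hy u hu =>
    hDball y hy u (ball_subset_ball (by linarith) hu))
  refine ⟨r' / 2, by positivity, _, hcomp, ?_, ?_, ?_⟩
  · intro x hx u hu
    simp [hD]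
  · intro x hx u hu
    simp [hD]
  · intro x hx hZ s hs
    exact hp x hx hZ s hs

end OkaP
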