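import Pool.Agent.H.MP_ceb9a9.EtE

/-!
# MP_ceb9a9: the merging lemma
-/

set_option autoImplicit false

open scoped Manifold

namespace OkaP

open Set Metric Topology

variable {m : ℕ} {X : Type} [MetricSpace X] [ChartedSpace (Fin m → ℂ) X]

/-- a homotopy over an open set `N` from a global family `G` to `Φ'` allows to change `G` into
a global family equal to `Φ'` near a closed subset `D` of `N`. -/
theorem merge {T : Type} [MetricSpace T] {p : X} {Z U N D : Set T}
    {G Φ' : T × (Fin m → ℂ) → X} {r : ℝ} (hr : 0 < r) (hG : EtCont G U r) (hN : IsOpen N)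
    (hNU : N ⊆ U) (hD : IsClosed D) (hDN : D ⊆ N) (hh : EtHtpy p Z N G Φ')
    (hp : ∀ x ∈ U, x ∉ Z → G (x, 0) ≠ p) :
    ∃ (G' : T × (Fin m → ℂ) → X) (r' : ℝ), 0 < r' ∧ r' ≤ r ∧ EtCont G' U r' ∧
      (∃ N' : Set T, IsOpen N' ∧ D ⊆ N' ∧ N' ⊆ N ∧
        ∀ x ∈ N', ∀ u ∈ ball (0 : Fin m → ℂ) r', G' (x, u) = Φ' (x, u)) ∧
      (∀ x, x ∉ N → ∀ u, G' (x, u) = G (x, u)) ∧
      ∀ x ∈ U, x ∉ Z → G' (x, 0) ≠ p := by
  classical
  obtain ⟨r0, hr0, Θ, hΘ, h0, h1, hΘp⟩ := hh
  obtain ⟨N', hN'o, hDN', hN'N⟩ := normal_exists_closure_subset hD hN hDN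
  obtain ⟨N'', hN''o, hN'N'', hN''N⟩ := normal_exists_closure_subset isClosed_closure hN hN'N
  have hdisj : Disjoint (N''ᶜ) (closure N') := by
    rw [Set.disjoint_left]
    intro x hx hx'
    exact hx (hN'N'' hx')
  obtain ⟨lam, hl0, hl1, hl⟩ := exists_continuous_zero_one_of_isClosed
    (hN''o.isClosed_compl) isClosed_closure hdisj
  set r' := min r r0 with hr'
  have hbr : ∀ u ∈ ball (0 : Fin m → ℂ) r', u ∈ ball (0 : Fin m → ℂ) r := fun u hu =>
    ball_subset_ball (min_le_left _ _) hu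
  have hbr0 : ∀ u ∈ ball (0 : Fin m → ℂ) r', u ∈ ball (0 : Fin m → ℂ) r0 := fun u hu =>
    ball_subset_ball (min_le_right _ _) hu
  set G' : T × (Fin m → ℂ) → X := fun q =>
    if q.1 ∈ N then Θ ((q.1, lam q.1), q.2) else G q with hG'
  have hG'N : ∀ x ∈ N, ∀ u, G' (x, u) = Θ ((x, lam x), u) := by
    intro x hx u
    simp only [hG', if_pos hx]
  have hG'nN : ∀ x, x ∉ N → ∀ u, G' (x, u) = G (x, u) := by
    intro x hx u
    simp only [hG', if_neg hx]
  refine ⟨G', r', lt_min hr hr0, min_le_left _ _, ?_, ⟨N', hN'o, hDN', subset_closure.trans hN'N,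
    ?_⟩, hG'nN, ?_⟩
  · refine EtCont.of_local ?_
    intro x hx
    by_cases hxc : x ∈ closure N''
    · have hxN : x ∈ N := hN''N hxc
      refine ⟨N, mem_nhdsWithin_of_mem_nhds (hN.mem_nhds hxN), ?_⟩
      have hpb : EtCont (fun q : T × (Fin m → ℂ) => Θ ((q.1, lam q.1), q.2)) N r' := by
        refine (hΘ.mono (subset_refl _) (min_le_right _ _)).pullback
          (a := fun y : T => (y, lam y)) ?_ ?_
        · exact (continuous_id.prodMk lam.continuous).continuousOn
        · intro y hy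
          exact ⟨hy, hl y⟩
      exact hpb.congr (fun y hy u _ => hG'N y hy u)
    · refine ⟨U ∩ (closure N'')ᶜ, ?_, ?_⟩
      · exact Filter.inter_mem self_mem_nhdsWithin
          (mem_nhdsWithin_of_mem_nhds (isClosed_closure.isOpen_compl.mem_nhds hxc))
      · refine (hG.mono inter_subset_left (min_le_left _ _)).congr ?_
        rintro y ⟨hyU, hyc⟩ u hu
        by_cases hyN : y ∈ N
        · rw [hG'N y hyN u]
          have hy'' : y ∈ N''ᶜ := fun h => hyc (subset_closure h)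
          have e : lam y = 0 := hl0 hy''
          rw [e]
          exact h0 y hyN u (hbr0 u hu)
        · exact hG'nN y hyN u
  · intro x hx u hu
    have hxN : x ∈ N := hN'N (subset_closure hx)
    have e : lam x = 1 := hl1 (subset_closure hx)
    rw [hG'N x hxN u, e]
    exact h1 x hxN u (hbr0 u hu)
  · intro x hx hxZ
    by_cases hxN : x ∈ N
    · rw [hG'N x hxN 0]
      exact hΘp x hxN hxZ (lam x) (hl x)
    · rw [hG'nN x hxN 0]
      exact hp x hx hxZ

end OkaP
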