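import Pool.Agent.H.MP_ceb9a9.RegMax

/-!
# MP_ceb9a9: global extension of psh functions
-/

set_option autoImplicit false

open Set Metric Topology
open scoped ContDiff

noncomputable section
namespace OkaP

/-- a function psh near `{ρ ≤ 1}` extends from `{ρ ≤ s}`, `s < 1`, to a global psh function,
equal to `A (ρ - (s + 1) / 2)` off `{ρ < 1}`. -/
theorem extPsh {E : Type} [NormedAddCommGroup E] [NormedSpace ℂ E] {ρ f : E → ℝ} {Ω : Set E}
    (hρ : Psh ρ) (hc : IsCompact {x | ρ x ≤ 1}) (hΩ : IsOpen Ω) (hsub : {x | ρ x ≤ 1} ⊆ Ω)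
    (hf : PshOn f Ω) {s : ℝ} (hs : s < 1) :
    ∃ F : E → ℝ, Psh F ∧ (∀ x, ρ x ≤ s → F x = f x) ∧ (∀ x, ρ x ≤ 1 → f x ≤ F x) ∧
      ∃ A > 0, ∀ x, 1 ≤ ρ x → F x = A * (ρ x - (s + 1) / 2) := by
  classical
  obtain ⟨C0, hC0⟩ := hc.exists_bound_of_continuousOn (hf.smooth.continuousOn.mono hsub)
  obtain ⟨C, hCdef⟩ : ∃ C : ℝ, C = max C0 0 := ⟨_, rfl⟩
  have hCn : 0 ≤ C := by rw [hCdef]; exact le_max_right _ _
  have hC : ∀ x, ρ x ≤ 1 → |f x| ≤ C := by
    intro x hx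
    rw [hCdef]
    exact (hC0 x hx).trans (le_max_left _ _)
  have hs' : 0 < 1 - s := by linarith
  obtain ⟨A, hAdef⟩ : ∃ A : ℝ, A = 4 * (C + 1) / (1 - s) := ⟨_, rfl⟩
  have hA : 0 < A := by rw [hAdef]; positivity
  have hA1 : A * (1 - s) = 4 * (C + 1) := by rw [hAdef]; field_simp
  obtain ⟨M, hM1, -, hM3, hM4, hM5, hM6⟩ := exists_regmax one_pos
  let g : E → ℝ := fun x => A * (ρ x - (s + 1) / 2)
  have hg : Psh g := by
    have h1 := (hρ.const_mul hA.le).add_const (-(A * ((s + 1) / 2)))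
    have h2 : (fun y => A * ρ y + -(A * ((s + 1) / 2))) = g := by
      funext y
      simp only [g]
      ring
    rw [h2] at h1
    exact h1
  have hgd : ∀ x, g x = A * (ρ x - (s + 1) / 2) := fun _ => rfl
  -- the value of `g` near the boundary
  have hgbig : ∀ x, (3 + s) / 4 < ρ x → ρ x < 1 → f x + 1 ≤ g x := by
    intro x hx1 hx2
    have h1 := (abs_le.1 (hC x hx2.le)).2
    have h2 : A * ((1 - s) / 4) ≤ g x := by
      rw [hgd]
      exact mul_le_mul_of_nonneg_left (by linarith) hA.le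
    nlinarith
  let F : E → ℝ := fun x => if ρ x < 1 then M (f x) (g x) else g x
  have hFlt : ∀ x, ρ x < 1 → F x = M (f x) (g x) := fun x hx => if_pos hx
  have hFge : ∀ x, 1 ≤ ρ x → F x = g x := fun x hx => if_neg (not_lt.2 hx)
  have hρc : Continuous ρ := hρ.smooth.continuous
  have hU1 : IsOpen {x | ρ x < 1} := isOpen_lt hρc continuous_const
  have hU2 : IsOpen {x | (3 + s) / 4 < ρ x} := isOpen_lt continuous_const hρc
  have hsub1 : {x | ρ x < 1} ⊆ Ω := fun x hx => hsub (show ρ x ≤ 1 from le_of_lt hx)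
  have hF1 : ∀ x, ρ x < 1 → F =ᶠ[𝓝 x] fun y => M (f y) (g y) := by
    intro x hx
    filter_upwards [hU1.mem_nhds hx] with y hy
    exact hFlt y hy
  have hF2 : ∀ x, 1 ≤ ρ x → F =ᶠ[𝓝 x] g := by
    intro x hx
    have hx' : x ∈ {x | (3 + s) / 4 < ρ x} := by
      change (3 + s) / 4 < ρ x
      linarith
    filter_upwards [hU2.mem_nhds hx'] with y hy
    by_cases hy1 : ρ y < 1
    · rw [hFlt y hy1]
      exact hM4 _ _ (hgbig y hy hy1)
    · exact hFge y (not_lt.1 hy1)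
  refine ⟨F, ⟨?_, ?_⟩, ?_, ?_, A, hA, fun x hx => by rw [hFge x hx]⟩
  · rw [contDiff_iff_contDiffAt]
    intro x
    by_cases hx : ρ x < 1
    · have h1 := hM5 E f g {x | ρ x < 1} hU1 (hf.smooth.mono hsub1) hg.smooth.contDiffOn
      exact (h1.contDiffAt (hU1.mem_nhds hx)).congr_of_eventuallyEq (hF1 x hx)
    · exact hg.smooth.contDiffAt.congr_of_eventuallyEq (hF2 x (not_lt.1 hx))
  · intro x v
    by_cases hx : ρ x < 1
    · rw [levi_congr (hF1 x hx) v]
      have h1 : ContDiffAt ℝ ∞ f x :=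
        (hf.smooth.mono hsub1).contDiffAt (hU1.mem_nhds hx)
      have h2 := hM6 E f g x v h1 hg.smooth.contDiffAt
      refine le_trans (le_min ?_ (hg.nonneg x v)) h2
      exact hf.nonneg x (hsub1 hx) v
    · rw [levi_congr (hF2 x (not_lt.1 hx)) v]
      exact hg.nonneg x v
  · intro x hx
    rw [hFlt x (lt_of_le_of_lt hx hs)]
    apply hM3
    have h1 := (abs_le.1 (hC x (hx.trans hs.le))).1
    have h2 : g x ≤ A * (-((1 - s) / 2)) := by
      rw [hgd]
      exact mul_le_mul_of_nonneg_left (by linarith) hA.le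
    nlinarith
  · intro x hx
    rcases lt_or_eq_of_le hx with h | h
    · rw [hFlt x h]
      exact (le_max_left _ _).trans (hM1 _ _)
    · rw [hFge x h.ge]
      have h1 := (abs_le.1 (hC x hx)).2
      have h2 : g x = A * ((1 - s) / 2) := by
        rw [hgd, h]
        ring
      rw [h2]
      nlinarith

/-- the square of the norm is psh -/
private theorem extPsh_normSq {E : Type} [NormedAddCommGroup E] [InnerProductSpace ℂ E]
    [FiniteDimensional ℂ E] : Psh (fun x : E => ‖x‖ ^ 2) := by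
  let b := stdOrthonormalBasis ℂ E
  have h1 : (fun x : E => ‖x‖ ^ 2) = qf b.toBasis := by
    funext x
    unfold qf
    have h2 : ‖x‖ = ‖b.repr x‖ := (b.repr.norm_map x).symm
    rw [h2, EuclideanSpace.norm_sq_eq]
    simp
  rw [h1]
  exact psh_qf _

/-- extension from a closed ball (inner product space) -/
theorem extPsh_ball {E : Type} [NormedAddCommGroup E] [InnerProductSpace ℂ E]
    [FiniteDimensional ℂ E] {f : E → ℝ} {U : Set E} (hU : IsOpen U) {R R' : ℝ} (hR0 : 0 ≤ R)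
    (hR : R < R') (hsub : closedBall (0 : E) R' ⊆ U) (hf : PshOn f U) :
    ∃ F : E → ℝ, Psh F ∧ (∀ x ∈ closedBall (0 : E) R, F x = f x) := by
  have hD : 0 < R' ^ 2 - R ^ 2 := by nlinarith
  have hR' : 0 ≤ R' := hR0.trans hR.le
  let ρ : E → ℝ := fun x => (R' ^ 2 - R ^ 2)⁻¹ * ‖x‖ ^ 2 + -((R' ^ 2 - R ^ 2)⁻¹ * R ^ 2)
  have hρ : Psh ρ := (extPsh_normSq.const_mul (inv_nonneg.2 hD.le)).add_const _
  have hρd : ∀ x, ρ x = (‖x‖ ^ 2 - R ^ 2) / (R' ^ 2 - R ^ 2) := by
    intro x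
    simp only [ρ]
    field_simp
    ring
  have h1 : {x | ρ x ≤ 1} = closedBall (0 : E) R' := by
    ext x
    change ρ x ≤ 1 ↔ _
    rw [hρd, div_le_one hD, mem_closedBall_zero_iff]
    constructor
    · intro h
      have h2 : ‖x‖ ^ 2 ≤ R' ^ 2 := by linarith
      exact (pow_le_pow_iff_left₀ (norm_nonneg x) hR' two_ne_zero).1 h2
    · intro h
      have h2 : ‖x‖ ^ 2 ≤ R' ^ 2 := pow_le_pow_left₀ (norm_nonneg x) h 2
      linarith
  have : ProperSpace E := FiniteDimensional.proper ℂ E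
  have hc : IsCompact {x | ρ x ≤ 1} := by
    rw [h1]
    exact isCompact_closedBall _ _
  obtain ⟨F, hF, hF1, -, -⟩ := extPsh hρ hc hU (h1 ▸ hsub) hf zero_lt_one
  refine ⟨F, hF, fun x hx => hF1 x ?_⟩
  rw [hρd]
  rw [mem_closedBall_zero_iff] at hx
  have h2 : ‖x‖ ^ 2 ≤ R ^ 2 := pow_le_pow_left₀ (norm_nonneg x) hx 2
  exact div_nonpos_of_nonpos_of_nonneg (by linarith) hD.le

end OkaP
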