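import Pool.Agent.H.MP_ceb9a9.ThetaStep

set_option autoImplicit false
open Set Metric Filter
open scoped Topology Manifold

noncomputable section
namespace OkaP

variable {m : ℕ} {X : Type} [MetricSpace X] [ChartedSpace (Fin m → ℂ) X]

/-- the transport `θ (x, (t, s))`, moving `Ef (t, u)` to `Ef ((1 - s) t, u)`. -/
structure ThetaD {p : X} {S : SigD m X p} {R ε : ℝ} (D : ERData S R ε) (R' : ℝ) where
  θ : X × ((Fin m → ℂ) × ℝ) → X
  cont : ContinuousOn θ {q | ‖q.2.1‖ ≤ R' ∧ q.2.2 ∈ Icc (0 : ℝ) 1}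
  zero : ∀ x t, ‖t‖ ≤ R' → θ (x, (t, 0)) = x
  germ : ∀ t, ‖t‖ ≤ R' → ∀ s ∈ Icc (0 : ℝ) 1, ∀ u, ‖u‖ ≤ D.ρ ‖t‖ / 4 →
    θ (D.Ef (t, u), (t, s)) = D.Ef (((1 - s : ℝ) : ℂ) • t, u)
  loc : ∀ t, ‖t‖ ≤ R' → ∀ s ∈ Icc (0 : ℝ) 1, ∀ x,
    θ (x, (t, s)) = S.σ (((1 - s : ℝ) : ℂ) • t) ↔ x = S.σ t
  modulus : ∀ t, ‖t‖ ≤ S.c → ∀ s ∈ Icc (0 : ℝ) 1, ∀ x, θ (x, (t, s)) = x ∨
    (x ∈ S.e.source ∧ ‖S.e x‖ ≤ 2 * S.c ∧ θ (x, (t, s)) ∈ S.e.source ∧
      ‖S.e (θ (x, (t, s))) - S.e x‖ ≤ 4 * ‖t‖)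

theorem ThetaD.eq_p {p : X} {S : SigD m X p} {R ε : ℝ} {D : ERData S R ε} {R' : ℝ}
    (T : ThetaD D R') {t : Fin m → ℂ} (ht : ‖t‖ ≤ R') (x : X) :
    T.θ (x, (t, 1)) = p ↔ x = S.σ t := by
  have h := T.loc t ht 1 (by simp) x
  simpa [(S.σ_eq 0).2 rfl] using h

/-- the time variable clamped to the `i`-th interval -/
def thetaMainCl (k i : ℕ) (s : ℝ) : ℝ := max ((i : ℝ) / k) (min s (((i + 1 : ℕ) : ℝ) / k))

/-- the iterated transport -/
def thetaMainT (k : ℕ) (h : X × ((Fin m → ℂ) × (Fin m → ℂ)) → X) :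
    ℕ → X × ((Fin m → ℂ) × ℝ) → X
  | 0, q => q.1
  | i + 1, q => h (thetaMainT k h i q, (((1 - (i : ℝ) / k : ℝ) : ℂ) • q.2.1,
      ((1 - thetaMainCl k i q.2.2 : ℝ) : ℂ) • q.2.1))

theorem thetaMain_cl_cont (k i : ℕ) : Continuous (thetaMainCl k i) := by
  unfold thetaMainCl
  fun_prop

theorem thetaMain_cl_of_le {k i : ℕ} (hi : i < k) {s : ℝ} (hs : s ≤ (i : ℝ) / k) :
    thetaMainCl k i s = (i : ℝ) / k ∧ min s ((i : ℝ) / k) = s ∧
      min s (((i + 1 : ℕ) : ℝ) / k) = s := by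
  have hk : (0 : ℝ) < k := by exact_mod_cast (Nat.zero_le i).trans_lt hi
  have h1 : (i : ℝ) / k ≤ ((i + 1 : ℕ) : ℝ) / k := by
    apply div_le_div_of_nonneg_right _ hk.le
    push_cast
    linarith
  refine ⟨?_, min_eq_left hs, min_eq_left (hs.trans h1)⟩
  unfold thetaMainCl
  rw [min_eq_left (hs.trans h1), max_eq_left hs]

theorem thetaMain_cl_of_lt {k i : ℕ} (hi : i < k) {s : ℝ} (hs : (i : ℝ) / k < s) :
    thetaMainCl k i s = min s (((i + 1 : ℕ) : ℝ) / k) ∧ min s ((i : ℝ) / k) = (i : ℝ) / k := by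
  have hk : (0 : ℝ) < k := by exact_mod_cast (Nat.zero_le i).trans_lt hi
  have h1 : (i : ℝ) / k ≤ ((i + 1 : ℕ) : ℝ) / k := by
    apply div_le_div_of_nonneg_right _ hk.le
    push_cast
    linarith
  refine ⟨?_, min_eq_right hs.le⟩
  unfold thetaMainCl
  exact max_eq_right (le_min hs.le h1)

theorem thetaMain_geo {k i : ℕ} (hi : i < k) {s : ℝ} (_hs : s ∈ Icc (0 : ℝ) 1)
    (t : Fin m → ℂ) :
    ∃ τ ∈ Icc (0 : ℝ) 1, ((1 - thetaMainCl k i s : ℝ) : ℂ) • t =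
        (τ : ℂ) • (((1 - (i : ℝ) / k : ℝ) : ℂ) • t) ∧
      ‖((1 - (i : ℝ) / k : ℝ) : ℂ) • t‖ ≤ ‖t‖ ∧
      ‖((1 - (i : ℝ) / k : ℝ) : ℂ) • t - ((1 - thetaMainCl k i s : ℝ) : ℂ) • t‖ =
        (thetaMainCl k i s - (i : ℝ) / k) * ‖t‖ ∧
      ‖((1 - (i : ℝ) / k : ℝ) : ℂ) • t - ((1 - thetaMainCl k i s : ℝ) : ℂ) • t‖ ≤ ‖t‖ / k := by
  have hk : (0 : ℝ) < k := by exact_mod_cast (Nat.zero_le i).trans_lt hi
  have hik : (i : ℝ) / k < 1 := by
    rw [div_lt_one hk]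
    exact_mod_cast hi
  have hi0 : (0 : ℝ) ≤ (i : ℝ) / k := by positivity
  have h1 : (((i + 1 : ℕ) : ℝ)) / k ≤ 1 := by
    rw [div_le_one hk]
    exact_mod_cast hi
  have h2 : (((i + 1 : ℕ) : ℝ)) / k = (i : ℝ) / k + 1 / k := by
    push_cast
    ring
  have hc1 : (i : ℝ) / k ≤ thetaMainCl k i s := le_max_left _ _
  have hc2 : thetaMainCl k i s ≤ (i : ℝ) / k + 1 / k := by
    rw [← h2]
    refine max_le ?_ (min_le_right _ _)
    rw [h2]
    have : (0 : ℝ) < 1 / k := by positivity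
    linarith
  have hc3 : thetaMainCl k i s ≤ 1 := hc2.trans (h2 ▸ h1)
  set a : ℝ := 1 - (i : ℝ) / k with ha
  set b : ℝ := 1 - thetaMainCl k i s with hb
  have hapos : 0 < a := by linarith
  have hnorm : ‖(a : ℂ) • t - (b : ℂ) • t‖ = (thetaMainCl k i s - (i : ℝ) / k) * ‖t‖ := by
    rw [← sub_smul, norm_smul, ← Complex.ofReal_sub, Complex.norm_real, Real.norm_eq_abs,
      abs_of_nonneg (by linarith)]
    congr 1
    rw [ha, hb]
    ring
  refine ⟨b / a, ⟨div_nonneg (by linarith) hapos.le, (div_le_one hapos).2 (by linarith)⟩,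
    ?_, ?_, hnorm, ?_⟩
  · rw [smul_smul, ← Complex.ofReal_mul, div_mul_cancel₀ _ hapos.ne']
  · rw [norm_smul, Complex.norm_real, Real.norm_eq_abs, abs_of_nonneg hapos.le]
    have : a ≤ 1 := by linarith
    calc a * ‖t‖ ≤ 1 * ‖t‖ := mul_le_mul_of_nonneg_right this (norm_nonneg _)
      _ = ‖t‖ := one_mul _
  · rw [hnorm]
    calc (thetaMainCl k i s - (i : ℝ) / k) * ‖t‖ ≤ (1 / k) * ‖t‖ :=
          mul_le_mul_of_nonneg_right (by linarith) (norm_nonneg _)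
      _ = ‖t‖ / k := by ring

theorem theta_exists [IsManifold 𝓘(ℂ, Fin m → ℂ) ⊤ X] {p : X} {S : SigD m X p} {R ε : ℝ}
    (D : ERData S R ε) (hε : ε ≤ 1 / 64) {R' : ℝ} (hR' : R' < R) (hc : 2 * S.c < R') :
    Nonempty (ThetaD D R') := by
  obtain ⟨δ, hδ, h, hcont, hid, hgerm, hloc, hmod⟩ := theta_step D hε hR' hc
  have hcpos := S.c_pos
  have hR0 : 0 < R' := by linarith
  obtain ⟨k0, hk0⟩ := exists_nat_gt (R' / δ)
  have hk0' : (0 : ℝ) < k0 := (div_pos hR0 hδ).trans hk0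
  set k : ℕ := k0 with hkdef
  have hRk : R' / k ≤ δ := by
    rw [div_le_iff₀ hk0']
    rw [div_lt_iff₀ hδ] at hk0
    linarith
  have hcR : S.c ≤ R' := by linarith
  -- the difference bound
  have hdiff : ∀ t : Fin m → ℂ, ‖t‖ ≤ R' → ‖t‖ / k ≤ δ := fun t ht =>
    (div_le_div_of_nonneg_right ht hk0'.le).trans hRk
  -- identity steps
  have hstep_id : ∀ i, i < k → ∀ (x : X) (t : Fin m → ℂ) (s : ℝ), s ≤ (i : ℝ) / k →
      thetaMainT k h (i + 1) (x, (t, s)) = thetaMainT k h i (x, (t, s)) := by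
    intro i hi x t s hs
    show h (thetaMainT k h i (x, (t, s)), (((1 - (i : ℝ) / k : ℝ) : ℂ) • t,
      ((1 - thetaMainCl k i s : ℝ) : ℂ) • t)) = _
    rw [(thetaMain_cl_of_le hi hs).1, hid]
  have hstep : ∀ i, ∀ (x : X) (t : Fin m → ℂ) (s : ℝ),
      thetaMainT k h (i + 1) (x, (t, s)) =
        h (thetaMainT k h i (x, (t, s)), (((1 - (i : ℝ) / k : ℝ) : ℂ) • t,
          ((1 - thetaMainCl k i s : ℝ) : ℂ) • t)) := fun i x t s => rfl
  have hkk : (k : ℝ) / k = 1 := div_self hk0'.ne'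
  have hT_cont : ∀ i, i ≤ k → ContinuousOn (thetaMainT k h i)
      {q | ‖q.2.1‖ ≤ R' ∧ q.2.2 ∈ Icc (0 : ℝ) 1} := by
    intro i
    induction i with
    | zero => exact fun _ => continuous_fst.continuousOn
    | succ i ih =>
      intro hi
      have h1 : ContinuousOn (fun q : X × ((Fin m → ℂ) × ℝ) => (thetaMainT k h i q,
          (((1 - (i : ℝ) / k : ℝ) : ℂ) • q.2.1,
            ((1 - thetaMainCl k i q.2.2 : ℝ) : ℂ) • q.2.1)))
          {q | ‖q.2.1‖ ≤ R' ∧ q.2.2 ∈ Icc (0 : ℝ) 1} := by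
        refine (ih (by omega)).prodMk (Continuous.continuousOn ?_)
        have hcl := thetaMain_cl_cont k i
        fun_prop
      refine hcont.comp h1 ?_
      rintro q ⟨hq1, hq2⟩
      obtain ⟨τ, hτ, e1, e2, -, e4⟩ := thetaMain_geo (by omega : i < k) hq2 q.2.1
      exact ⟨e2.trans hq1, e4.trans (hdiff _ hq1), τ, hτ, e1⟩
  have hT_zero : ∀ i, i ≤ k → ∀ (x : X) (t : Fin m → ℂ), thetaMainT k h i (x, (t, 0)) = x := by
    intro i
    induction i with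
    | zero => exact fun _ x t => rfl
    | succ i ih =>
      intro hi x t
      rw [hstep_id i (by omega) x t 0 (by positivity), ih (by omega)]
  have hT_germ : ∀ i, i ≤ k → ∀ t, ‖t‖ ≤ R' → ∀ s ∈ Icc (0 : ℝ) 1, ∀ u, ‖u‖ ≤ D.ρ ‖t‖ / 4 →
      thetaMainT k h i (D.Ef (t, u), (t, s)) =
        D.Ef (((1 - min s ((i : ℝ) / k) : ℝ) : ℂ) • t, u) := by
    intro i
    induction i with
    | zero =>
      intro _ t ht s hs u hu
      show D.Ef (t, u) = _
      simp [hs.1]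
    | succ i ih =>
      intro hi t ht s hs u hu
      have hi' : i < k := by omega
      rcases le_or_gt s ((i : ℝ) / k) with hsi | hsi
      · rw [hstep_id i hi' _ t s hsi, ih hi'.le t ht s hs u hu,
          (thetaMain_cl_of_le hi' hsi).2.1, (thetaMain_cl_of_le hi' hsi).2.2]
      · obtain ⟨τ, hτ, e1, e2, -, e4⟩ := thetaMain_geo hi' hs t
        rw [hstep, ih hi'.le t ht s hs u hu, (thetaMain_cl_of_lt hi' hsi).2,
          ← (thetaMain_cl_of_lt hi' hsi).1, e1]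
        rw [e1] at e4
        refine hgerm _ (e2.trans ht) τ hτ (e4.trans (hdiff t ht)) u (hu.trans ?_)
        have := D.ρ_anti e2
        linarith
  have hT_loc : ∀ i, i ≤ k → ∀ t, ‖t‖ ≤ R' → ∀ s ∈ Icc (0 : ℝ) 1, ∀ x,
      thetaMainT k h i (x, (t, s)) = S.σ (((1 - min s ((i : ℝ) / k) : ℝ) : ℂ) • t) ↔
        x = S.σ t := by
    intro i
    induction i with
    | zero =>
      intro _ t ht s hs x
      show x = _ ↔ _
      simp [hs.1]
    | succ i ih =>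
      intro hi t ht s hs x
      have hi' : i < k := by omega
      rcases le_or_gt s ((i : ℝ) / k) with hsi | hsi
      · have h3 := ih hi'.le t ht s hs x
        rw [(thetaMain_cl_of_le hi' hsi).2.1] at h3
        rw [hstep_id i hi' _ t s hsi, (thetaMain_cl_of_le hi' hsi).2.2]
        exact h3
      · obtain ⟨τ, hτ, e1, e2, -, e4⟩ := thetaMain_geo hi' hs t
        have h3 := ih hi'.le t ht s hs x
        rw [(thetaMain_cl_of_lt hi' hsi).2] at h3
        rw [hstep, ← (thetaMain_cl_of_lt hi' hsi).1, e1]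
        rw [e1] at e4
        rw [hloc _ (e2.trans ht) τ hτ (e4.trans (hdiff t ht)), h3]
  have hT_mod : ∀ i, i ≤ k → ∀ t, ‖t‖ ≤ S.c → ∀ s ∈ Icc (0 : ℝ) 1, ∀ x,
      thetaMainT k h i (x, (t, s)) = x ∨
      (x ∈ S.e.source ∧ ‖S.e x‖ ≤ 2 * S.c ∧ thetaMainT k h i (x, (t, s)) ∈ S.e.source ∧
        ‖S.e (thetaMainT k h i (x, (t, s))) - S.e x‖ ≤ 4 * (min s ((i : ℝ) / k) * ‖t‖)) := by
    intro i
    induction i with
    | zero => exact fun _ t ht s hs x => Or.inl rfl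
    | succ i ih =>
      intro hi t ht s hs x
      have hi' : i < k := by omega
      rcases le_or_gt s ((i : ℝ) / k) with hsi | hsi
      · have h3 := ih hi'.le t ht s hs x
        rw [(thetaMain_cl_of_le hi' hsi).2.1] at h3
        rw [hstep_id i hi' _ t s hsi, (thetaMain_cl_of_le hi' hsi).2.2]
        exact h3
      · obtain ⟨τ, hτ, e1, e2, e3, e4⟩ := thetaMain_geo hi' hs t
        have h3 := ih hi'.le t ht s hs x
        rw [(thetaMain_cl_of_lt hi' hsi).2] at h3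
        have e5 : (thetaMainCl k i s - (i : ℝ) / k) * ‖t‖ =
            (min s (((i + 1 : ℕ) : ℝ) / k)) * ‖t‖ - (i : ℝ) / k * ‖t‖ := by
          rw [(thetaMain_cl_of_lt hi' hsi).1]
          ring
        rw [e5] at e3
        have hi0 : (0 : ℝ) ≤ (i : ℝ) / k * ‖t‖ := by positivity
        rw [hstep, e1]
        rw [e1] at e4 e3
        have h4 := hmod _ (e2.trans ht) τ hτ (e4.trans (hdiff t (ht.trans hcR)))
          (thetaMainT k h i (x, (t, s)))
        rw [e3] at h4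
        rcases h4 with h4 | ⟨h5, h6, h7, h8⟩
        · rw [h4]
          rcases h3 with h3 | ⟨h9, h10, h11, h12⟩
          · exact Or.inl h3
          · refine Or.inr ⟨h9, h10, h11, h12.trans ?_⟩
            have h13 : 0 ≤ ‖((1 - (i : ℝ) / k : ℝ) : ℂ) • t -
                (τ : ℂ) • ((1 - (i : ℝ) / k : ℝ) : ℂ) • t‖ := norm_nonneg _
            rw [e3] at h13
            linarith
        · rcases h3 with h3 | ⟨h9, h10, h11, h12⟩
          · rw [h3] at h5 h6 h7 h8 ⊢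
            refine Or.inr ⟨h5, h6, h7, h8.trans ?_⟩
            linarith
          · refine Or.inr ⟨h9, h10, h7, ?_⟩
            refine (norm_sub_le_norm_sub_add_norm_sub _ (S.e (thetaMainT k h i (x, (t, s)))) _).trans ?_
            linarith
  refine ⟨⟨thetaMainT k h k, hT_cont k le_rfl, fun x t _ => hT_zero k le_rfl x t, ?_, ?_, ?_⟩⟩
  · intro t ht s hs u hu
    have := hT_germ k le_rfl t ht s hs u hu
    rwa [hkk, min_eq_left hs.2] at this
  · intro t ht s hs x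
    have := hT_loc k le_rfl t ht s hs x
    rwa [hkk, min_eq_left hs.2] at this
  · intro t ht s hs x
    have := hT_mod k le_rfl t ht s hs x
    rw [hkk, min_eq_left hs.2] at this
    rcases this with h1 | ⟨h1, h2, h3, h4⟩
    · exact Or.inl h1
    · refine Or.inr ⟨h1, h2, h3, h4.trans ?_⟩
      have : s * ‖t‖ ≤ 1 * ‖t‖ := mul_le_mul_of_nonneg_right hs.2 (norm_nonneg _)
      linarith

end OkaP
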