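import Pool.Agent.H.MP_ceb9a9.ThetaDefs
import Pool.Agent.H.MP_ceb9a9.ThetaMain

/-!
# MP_ceb9a9: existence of sigma and theta (statement)
-/

set_option autoImplicit false

open scoped Manifold

namespace OkaP

open Set Metric Topology

/-- the exported form of the data of `Sigma.lean`. -/
def SigD.toSigmaData {m : ℕ} {X : Type} [MetricSpace X] [ChartedSpace (Fin m → ℂ) X] {p : X}
    (S : SigD m X p) : SigmaData m p where
  σ := S.σ
  e := S.e
  c := S.c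
  c_pos := S.c_pos
  hol := S.σ_hol
  chart := S.e_chart
  mem := S.p_mem
  e_p := S.e_p
  target := (ball_subset_closedBall.trans (closedBall_subset_closedBall (by
    have := S.c_pos; linarith))).trans S.ball_target
  symm_eq := fun t ht => (S.σ_symm t (closedBall_subset_closedBall (by
    have := S.c_pos; linarith) (ball_subset_closedBall ht))).symm

/-- the exported form of the data of `ThetaMain.lean`. -/
theorem Theta_conv {m : ℕ} {X : Type} [MetricSpace X]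
    [ChartedSpace (Fin m → ℂ) X] {p : X} (S : SigD m X p) {R ε R' R₀ ε' : ℝ}
    (D : ERData S R' ε') (T₀ : ThetaD D R₀) (hR : R ≤ R₀) (hR₀ : R₀ < R') (hR1 : S.c < R₀)
    (hε' : 0 ≤ ε') (hε : ε' * S.c ≤ ε) :
    ∃ T : ThetaData S.toSigmaData R ε, T.θ = T₀.θ := by
  have hc := S.c_pos
  have hball : ∀ t ∈ ball (0 : Fin m → ℂ) R, ‖t‖ ≤ R₀ ∧ ‖t‖ < R' := by
    intro t ht
    rw [mem_ball_zero_iff] at ht
    exact ⟨by linarith, by linarith⟩
  refine ⟨{ r := fun t => D.ρ ‖t‖, Er := D.Ef, θ := T₀.θ, r_cont := ?_, r_pos := ?_, r_c := ?_,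
            hol := ?_, inj := ?_, der := ?_, base := ?_, zero := ?_, close := ?_, θ_cont := ?_,
            θ_zero := ?_, θ_one := ?_, θ_germ := ?_ }, rfl⟩
  · exact (D.ρ_cont.comp continuous_norm).continuousOn
  · exact fun t _ => D.ρ_pos _
  · intro t ht
    have h1 : ‖t‖ < S.c := mem_ball_zero_iff.1 ht
    exact D.ρ_c _ (by linarith)
  · refine D.fam.hol.mono ?_
    rintro ⟨t, u⟩ ⟨ht, hu⟩
    exact ⟨(hball t ht).2, hu⟩
  · intro t ht u hu v hv h
    exact D.fam.inj t u v ⟨(hball t ht).2, mem_ball_zero_iff.1 hu⟩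
      ⟨(hball t ht).2, mem_ball_zero_iff.1 hv⟩ h
  · intro t ht u hu
    exact D.fam.der t u ⟨(hball t ht).2, mem_ball_zero_iff.1 hu⟩
  · intro t ht
    exact D.core t (hball t ht).2
  · intro u hu
    exact D.zero u (mem_ball_zero_iff.1 hu)
  · intro t ht u hu
    have ht' : ‖t‖ < S.c := mem_ball_zero_iff.1 ht
    have hu' : ‖u‖ < S.c := mem_ball_zero_iff.1 hu
    have h1 := D.near t u (by linarith) hu'
    refine ⟨h1.1, h1.2.trans ?_⟩
    calc ε' * ‖u‖ ≤ ε' * S.c := mul_le_mul_of_nonneg_left hu'.le hε'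
      _ ≤ ε := hε
  · refine T₀.cont.mono ?_
    rintro ⟨x, t, s⟩ ⟨_, ht, hs⟩
    exact ⟨(hball t ht).1, hs⟩
  · intro x t ht
    exact T₀.zero x t (hball t ht).1
  · intro x t ht
    exact T₀.eq_p (hball t ht).1 x
  · intro t ht s hs u hu
    have h0 := D.ρ_pos ‖t‖
    have hs1 : ‖(((1 - s : ℝ) : ℂ) • t)‖ ≤ ‖t‖ := by
      rw [norm_smul, Complex.norm_real, Real.norm_eq_abs, abs_of_nonneg (by linarith [hs.2])]
      have := norm_nonneg t
      nlinarith [hs.1]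
    have h1 : D.ρ ‖t‖ ≤ D.ρ ‖(((1 - s : ℝ) : ℂ) • t)‖ := D.ρ_anti hs1
    have hu' : ‖u‖ < D.ρ ‖t‖ / 4 := hu
    refine ⟨?_, T₀.germ t (hball t ht).1 s hs u hu'.le⟩
    show ‖u‖ < D.ρ ‖(((1 - s : ℝ) : ℂ) • t)‖
    linarith

theorem exists_sigma_theta {m : ℕ} {X : Type} [MetricSpace X] [SecondCountableTopology X]
    [ChartedSpace (Fin m → ℂ) X] [IsManifold 𝓘(ℂ, Fin m → ℂ) ⊤ X] {p : X} (hp : CAPY m p) :
    ∃ (S : SigmaData m p) (μ : ℝ → ℝ), (∀ ε > 0, 0 < μ ε) ∧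
      ∀ R > S.c, ∀ ε > 0, ∃ T : ThetaData S R ε,
        ∀ ε' > 0, ∀ x, ∀ t ∈ ball (0 : Fin m → ℂ) R, ‖t‖ < μ ε' → ∀ s ∈ Icc (0 : ℝ) 1,
          dist (T.θ (x, t, s)) x ≤ ε' := by
  classical
  obtain ⟨S⟩ := sigma_exists hp
  have hc := S.c_pos
  have hD : closedBall (0 : Fin m → ℂ) (2 * S.c) ⊆ S.e.target :=
    (closedBall_subset_closedBall (by linarith)).trans S.ball_target
  have hex : ∀ ε' : ℝ, ∃ ν > 0, 0 < ε' → ∀ u ∈ closedBall (0 : Fin m → ℂ) (2 * S.c), ∀ v,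
      ‖u - v‖ < ν → v ∈ S.e.target ∧ dist (S.e.symm u) (S.e.symm v) < ε' := by
    intro ε'
    by_cases h : 0 < ε'
    · obtain ⟨ν, hν, h1⟩ := symm_near S.e (isCompact_closedBall (0 : Fin m → ℂ) (2 * S.c)) hD h
      exact ⟨ν, hν, fun _ => h1⟩
    · exact ⟨1, one_pos, fun h' => absurd h' h⟩
  choose ν hν hν1 using hex
  refine ⟨S.toSigmaData, fun ε' => min S.c (ν ε' / 4), fun ε' _ => lt_min hc (by
    have := hν ε'; positivity), ?_⟩
  intro R hR ε hε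
  have hRc : S.c < R := hR
  set R₀ : ℝ := max R (5 * S.c) with hR₀
  have hR₀1 : R ≤ R₀ := le_max_left _ _
  have hR₀2 : 5 * S.c ≤ R₀ := le_max_right _ _
  set ε₁ : ℝ := min (ε / (S.c + 1)) (1 / 64) with hε₁
  have hε₁pos : 0 < ε₁ := lt_min (by positivity) (by norm_num)
  obtain ⟨D⟩ := er_exists S (R := R₀ + 1) (by linarith) hε₁pos
  obtain ⟨T₀⟩ := theta_exists D (min_le_right _ _) (R' := R₀) (by linarith) (by linarith)
  have hε2 : ε₁ * S.c ≤ ε := by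
    have h1 : ε₁ ≤ ε / (S.c + 1) := min_le_left _ _
    have h2 : ε₁ * (S.c + 1) ≤ ε := by
      rwa [le_div_iff₀ (by positivity)] at h1
    nlinarith
  obtain ⟨T, hT⟩ := Theta_conv S (R := R) (ε := ε) D T₀ hR₀1 (by linarith) (by linarith)
    hε₁pos.le hε2
  refine ⟨T, ?_⟩
  intro ε' hε' x t _ htμ s hs
  rw [hT]
  have h1 : ‖t‖ < S.c := lt_of_lt_of_le htμ (min_le_left _ _)
  have h2 : ‖t‖ < ν ε' / 4 := lt_of_lt_of_le htμ (min_le_right _ _)
  rcases T₀.modulus t h1.le s hs x with h3 | ⟨hxs, hx2, hys, hxy⟩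
  · rw [h3, dist_self]; exact hε'.le
  · have h4 := hν1 ε' hε' (S.e x) (mem_closedBall_zero_iff.2 hx2) (S.e (T₀.θ (x, (t, s)))) (by
      rw [norm_sub_rev]
      linarith)
    rw [S.e.left_inv hxs, S.e.left_inv hys] at h4
    rw [dist_comm]
    exact h4.2.le

end OkaP
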