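import Pool.Agent.H.MP_ceb9a9.KSide
import Pool.Agent.H.MP_ceb9a9.Theta

/-!
# MP_ceb9a9: data attached to a global map close to `f1`
-/

set_option autoImplicit false

open scoped Manifold

namespace OkaP

open Set Metric Topology

/-- A map `F` holomorphic near the ball of radius `R'`, close to `f1` on `{κ < s4}`, the
entire map `tt` close to `tK`, and the coordinate `û` of `F` in the family `T.Er` over
`σ (tt x)`. -/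
structure FData {m : ℕ} {X : Type} [MetricSpace X] [ChartedSpace (Fin m → ℂ) X] {p : X}
    {S : SigmaData m p} {E : Type} [NormedAddCommGroup E] [NormedSpace ℂ E] {κ : E → ℝ}
    {fs f1 f2 : E → X} {D : LocData S {x | κ x ≤ 1} fs} {k : ℕ} {ηK : ℝ}
    (KS : KSideData D f1 f2 k ηK) (s4 R' η ε1 : ℝ) where
  F : E → X
  UF : Set E
  R : ℝ
  T : ThetaData S R ε1
  tt : E → (Fin m → ℂ)
  N : Set E
  û : E → (Fin m → ℂ)
  cF : E → (Fin m → ℂ)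
  cH : E × ℝ → (Fin m → ℂ)
  UF_open : IsOpen UF
  UF_sub : closedBall (0 : E) R' ⊆ UF
  F_hol : HolOn m F UF
  R_gt : S.c < R
  tt_hol : Differentiable ℂ tt
  tt_le : ∀ x ∈ UF, ‖tt x‖ < R
  tt_small : ∀ x, κ x < s4 → ‖tt x‖ ≤ η
  tt_close : ∀ x, κ x < s4 → ‖tt x - KS.tK x‖ ≤ ε1
  s4_UF : {x | κ x < s4} ⊆ UF
  cF_hol : DifferentiableOn ℂ cF {x | κ x < s4}
  cF_spec : ∀ x, κ x < s4 → ‖cF x‖ ≤ η ∧ ‖cF x - KS.c1f x‖ ≤ ε1 ∧ D.Φ (x, cF x) = F x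
  F_near : ∀ x, κ x < s4 → x ∈ D.V D.c1 → F x ∈ S.e.source ∧ ‖S.e (F x) - S.e (f1 x)‖ ≤ ε1
  N_open : IsOpen N
  N_UF : N ⊆ UF
  û_hol : DifferentiableOn ℂ û N
  û_spec : ∀ x ∈ N, ‖û x‖ < T.r (tt x) / 4 ∧ T.Er (tt x, û x) = F x
  N_mem : ∀ x ∈ UF, ∀ u : Fin m → ℂ, ‖u‖ < T.r (tt x) / 4 → T.Er (tt x, u) = F x → x ∈ N
  cH_cont : ContinuousOn cH ({x | κ x < s4} ×ˢ Icc (0 : ℝ) 1)
  cH_spec : ∀ x, κ x < s4 → ∀ s ∈ Icc (0 : ℝ) 1, ‖cH (x, s)‖ ≤ η ∧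
    D.Φ (x, cH (x, s)) = T.θ (F x, tt x, s)

/-- approximation of `h` on `{κ ≤ s}`, `s < 1/2`, by maps holomorphic near large balls -/
def Appr (m : ℕ) {X : Type} [MetricSpace X] [ChartedSpace (Fin m → ℂ) X]
    {E : Type} [NormedAddCommGroup E] [NormedSpace ℂ E] (κ : E → ℝ) (h : E → X) : Prop :=
  ∀ R : ℝ, ∀ s < 1 / 2, ∀ ε > 0, ∃ (V : Set E) (F : E → X), IsOpen V ∧ closedBall (0 : E) R ⊆ V ∧
    HolOn m F V ∧ ∀ x, κ x ≤ s → dist (F x) (h x) < ε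

end OkaP
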