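import Pool.Agent.H.MP_ceb9a9.LeviR

/-!
# MP_ceb9a9, chapter 1: rules for the Levi form
-/

set_option autoImplicit false

open Set Metric Topology
open scoped ContDiff

noncomputable section
namespace OkaP

variable {E : Type} [NormedAddCommGroup E] [NormedSpace ℂ E]
variable {F : Type} [NormedAddCommGroup F] [NormedSpace ℂ F]

/-- the coordinate norm squared -/
def qf {ι : Type} [Fintype ι] (b : Module.Basis ι ℂ E) (x : E) : ℝ := ∑ j, ‖b.repr x j‖ ^ 2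

private theorem psh0_coord [FiniteDimensional ℂ E] {ι : Type} [Fintype ι] (b : Module.Basis ι ℂ E)
    (j : ι) : ∃ L : E →L[ℂ] ℂ, ∀ x, L x = b.repr x j :=
  ⟨LinearMap.toContinuousLinearMap (b.coord j), fun _ => rfl⟩

private theorem psh0_normSq_smooth : ContDiff ℝ ∞ (fun z : ℂ => ‖z‖ ^ 2) :=
  contDiff_id.norm_sq ℝ

theorem qf_smooth [FiniteDimensional ℂ E] {ι : Type} [Fintype ι] (b : Module.Basis ι ℂ E) :
    ContDiff ℝ ∞ (qf b) := by
  unfold qf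
  refine ContDiff.sum fun j _ => ?_
  obtain ⟨L, hL⟩ := psh0_coord b j
  have h1 : ContDiff ℝ ∞ (fun x => ‖L x‖ ^ 2) :=
    psh0_normSq_smooth.comp (L.restrictScalars ℝ).contDiff
  simpa only [hL] using h1

theorem qf_nonneg {ι : Type} [Fintype ι] (b : Module.Basis ι ℂ E) (x : E) : 0 ≤ qf b x :=
  Finset.sum_nonneg fun _ _ => sq_nonneg _

theorem levi_qf [FiniteDimensional ℂ E] {ι : Type} [Fintype ι] (b : Module.Basis ι ℂ E)
    (x : E) (w : ι → ℂ) : levi (qf b) x (∑ j, w j • b j) = ∑ j, ‖w j‖ ^ 2 := by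
  classical
  choose L hL using fun j => psh0_coord b j
  have h1 : qf b = fun x => ∑ j, (fun z : ℂ => ‖z‖ ^ 2) (L j x) := by
    funext x
    unfold qf
    exact Finset.sum_congr rfl fun j _ => by rw [hL j]
  rw [h1, levi_sum]
  · refine Finset.sum_congr rfl fun j _ => ?_
    rw [levi_comp_linear (L j) psh0_normSq_smooth.contDiffAt, levi_normSq, hL j]
    congr 2
    rw [map_sum, Finset.sum_apply']
    simp [Finsupp.single_apply]
  · intro j _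
    exact (psh0_normSq_smooth.comp ((L j).restrictScalars ℝ).contDiff).contDiffAt

theorem qf_le [FiniteDimensional ℂ E] {ι : Type} [Fintype ι] (b : Module.Basis ι ℂ E) :
    ∃ C : ℝ, 0 < C ∧ ∀ x : E, qf b x ≤ C * ‖x‖ ^ 2 := by
  choose L hL using fun j => psh0_coord b j
  refine ⟨∑ j, ‖L j‖ ^ 2 + 1, by positivity, fun x => ?_⟩
  have h1 : qf b x ≤ ∑ j, ‖L j‖ ^ 2 * ‖x‖ ^ 2 := by
    unfold qf
    refine Finset.sum_le_sum fun j _ => ?_
    rw [← hL j, ← mul_pow]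
    exact pow_le_pow_left₀ (norm_nonneg _) ((L j).le_opNorm x) 2
  rw [← Finset.sum_mul] at h1
  nlinarith [sq_nonneg ‖x‖]

theorem Psh.add {f g : E → ℝ} (hf : Psh f) (hg : Psh g) : Psh (fun y => f y + g y) := by
  refine ⟨hf.smooth.add hg.smooth, fun x v => ?_⟩
  rw [levi_add hf.smooth.contDiffAt hg.smooth.contDiffAt]
  exact add_nonneg (hf.nonneg x v) (hg.nonneg x v)

theorem Psh.const_mul {f : E → ℝ} (hf : Psh f) {c : ℝ} (hc : 0 ≤ c) :
    Psh (fun y => c * f y) := by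
  refine ⟨contDiff_const.mul hf.smooth, fun x v => ?_⟩
  rw [levi_const_mul]
  exact mul_nonneg hc (hf.nonneg x v)

theorem Psh.add_const {f : E → ℝ} (hf : Psh f) (c : ℝ) : Psh (fun y => f y + c) := by
  refine ⟨hf.smooth.add contDiff_const, fun x v => ?_⟩
  rw [levi_add_const]
  exact hf.nonneg x v

theorem Psh.sum {ι : Type} (s : Finset ι) {f : ι → E → ℝ} (hf : ∀ i ∈ s, Psh (f i)) :
    Psh (fun y => ∑ i ∈ s, f i y) := by
  refine ⟨ContDiff.sum fun i hi => (hf i hi).smooth, fun x v => ?_⟩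
  rw [levi_sum s fun i hi => (hf i hi).smooth.contDiffAt]
  exact Finset.sum_nonneg fun i hi => (hf i hi).nonneg x v

theorem Psh.hc_comp {f : E → ℝ} (hf : Psh f) : Psh (fun y => hc (f y)) := by
  refine ⟨hc_smooth.comp hf.smooth, fun x v => ?_⟩
  exact (mul_nonneg (hc_deriv_nonneg _) (hf.nonneg x v)).trans
    (levi_hc_ge hf.smooth.contDiffAt v)

theorem Psh.comp_linear {f : F → ℝ} (hf : Psh f) (L : E →L[ℂ] F) : Psh (fun y => f (L y)) := by
  refine ⟨hf.smooth.comp (L.restrictScalars ℝ).contDiff, fun x v => ?_⟩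
  rw [levi_comp_linear L hf.smooth.contDiffAt]
  exact hf.nonneg _ _

theorem psh_normSq : Psh (fun z : ℂ => ‖z‖ ^ 2) := by
  refine ⟨psh0_normSq_smooth, fun x v => ?_⟩
  rw [levi_normSq]
  positivity

theorem psh_qf [FiniteDimensional ℂ E] {ι : Type} [Fintype ι] (b : Module.Basis ι ℂ E) :
    Psh (qf b) := by
  choose L hL using fun j => psh0_coord b j
  have h1 : qf b = fun x => ∑ j, (fun z : ℂ => ‖z‖ ^ 2) (L j x) := by
    funext x
    unfold qf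
    exact Finset.sum_congr rfl fun j _ => by rw [hL j]
  rw [h1]
  exact Psh.sum Finset.univ fun j _ => psh_normSq.comp_linear (L j)

theorem PshOn.mono {f : E → ℝ} {U V : Set E} (h : PshOn f U) (hVU : V ⊆ U) : PshOn f V :=
  ⟨h.smooth.mono hVU, fun x hx v => h.nonneg x (hVU hx) v⟩

theorem Psh.on {f : E → ℝ} (h : Psh f) (U : Set E) : PshOn f U :=
  ⟨h.smooth.contDiffOn, fun x _ v => h.nonneg x v⟩

section log

variable {m : ℕ}

private theorem psh0_F_smooth (ε : ℝ) :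
    ContDiff ℝ ∞ (fun ζ : Fin m → ℂ => ∑ i, ‖ζ i‖ ^ 2 + ε ^ 2) := by
  refine ContDiff.add (ContDiff.sum fun i _ => ?_) contDiff_const
  exact psh0_normSq_smooth.comp
    ((ContinuousLinearMap.proj (R := ℝ) (φ := fun _ : Fin m => ℂ) i).contDiff)

private theorem psh0_levi_F (ε : ℝ) (ζ a : Fin m → ℂ) :
    levi (fun ζ : Fin m → ℂ => ∑ i, ‖ζ i‖ ^ 2 + ε ^ 2) ζ a = ∑ i, ‖a i‖ ^ 2 := by
  rw [levi_add_const]
  have h2 : (fun ζ : Fin m → ℂ => ∑ i, ‖ζ i‖ ^ 2) = fun ζ : Fin m → ℂ => ∑ i, (fun z : ℂ => ‖z‖ ^ 2)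
      ((ContinuousLinearMap.proj (R := ℂ) (φ := fun _ : Fin m => ℂ) i) ζ) := rfl
  rw [h2, levi_sum]
  · refine Finset.sum_congr rfl fun i _ => ?_
    rw [levi_comp_linear _ psh0_normSq_smooth.contDiffAt, levi_normSq]
    rfl
  · intro i _
    exact (psh0_normSq_smooth.comp
      ((ContinuousLinearMap.proj (R := ℝ) (φ := fun _ : Fin m => ℂ) i).contDiff)).contDiffAt

private theorem psh0_fderiv_F {y : E → (Fin m → ℂ)} {x : E} (hy : DifferentiableAt ℂ y x)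
    (ε : ℝ) (v : E) :
    HasFDerivAt (fun z => ∑ i, ‖y z i‖ ^ 2 + ε ^ 2)
      (fderiv ℝ (fun z => ∑ i, ‖y z i‖ ^ 2 + ε ^ 2) x) x ∧
    fderiv ℝ (fun z => ∑ i, ‖y z i‖ ^ 2 + ε ^ 2) x v =
      2 * (∑ i, (starRingEnd ℂ) (y x i) * fderiv ℂ y x v i).re := by
  have h1 : ∀ i, HasFDerivAt (fun z => y z i)
      (((ContinuousLinearMap.proj (R := ℂ) (φ := fun _ : Fin m => ℂ) i).comp
        (fderiv ℂ y x)).restrictScalars ℝ) x := by
    intro i
    exact ((hasFDerivAt_pi'.1 hy.hasFDerivAt) i).restrictScalars ℝ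
  have h2 : ∀ i, HasFDerivAt (fun z => ‖y z i‖ ^ 2)
      (2 • (innerSL ℝ (y x i)).comp
        (((ContinuousLinearMap.proj (R := ℂ) (φ := fun _ : Fin m => ℂ) i).comp
        (fderiv ℂ y x)).restrictScalars ℝ)) x := fun i => (h1 i).norm_sq
  have h3 : HasFDerivAt (fun z => ∑ i, ‖y z i‖ ^ 2 + ε ^ 2)
      (∑ i, (2 • (innerSL ℝ (y x i)).comp
        (((ContinuousLinearMap.proj (R := ℂ) (φ := fun _ : Fin m => ℂ) i).comp
        (fderiv ℂ y x)).restrictScalars ℝ))) x := by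
    have h4 := HasFDerivAt.fun_sum (u := Finset.univ) fun i _ => h2 i
    exact h4.add_const (ε ^ 2)
  refine ⟨h3.differentiableAt.hasFDerivAt, ?_⟩
  rw [h3.fderiv, sum_apply, Complex.re_sum, Finset.mul_sum]
  refine Finset.sum_congr rfl fun i _ => ?_
  simp only [smul_apply, ContinuousLinearMap.comp_apply, ContinuousLinearMap.coe_restrictScalars',
    ContinuousLinearMap.proj_apply, innerSL_apply_apply, nsmul_eq_mul]
  rw [Complex.inner]
  simp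
  ring

private theorem psh0_cs {ι : Type} [Fintype ι] (ζ a : ι → ℂ) :
    ‖∑ i, (starRingEnd ℂ) (ζ i) * a i‖ ^ 2 ≤ (∑ i, ‖ζ i‖ ^ 2) * ∑ i, ‖a i‖ ^ 2 := by
  have h1 : ‖∑ i, (starRingEnd ℂ) (ζ i) * a i‖ ≤ ∑ i, ‖ζ i‖ * ‖a i‖ := by
    refine (norm_sum_le _ _).trans (Finset.sum_le_sum fun i _ => ?_)
    rw [norm_mul, RCLike.norm_conj]
  calc ‖∑ i, (starRingEnd ℂ) (ζ i) * a i‖ ^ 2 ≤ (∑ i, ‖ζ i‖ * ‖a i‖) ^ 2 :=
        pow_le_pow_left₀ (norm_nonneg _) h1 2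
    _ ≤ (∑ i, ‖ζ i‖ ^ 2) * ∑ i, ‖a i‖ ^ 2 := Finset.sum_mul_sq_le_sq_mul_sq _ _ _

/-- `log (∑ |y_i|² + ε²)` of a holomorphic map is psh; gradient bound -/
theorem levi_log_nonneg {m : ℕ} {y : E → (Fin m → ℂ)} {U : Set E} (hU : IsOpen U)
    (hy : ContDiffOn ℂ ∞ y U) {ε : ℝ} (hε : 0 < ε) {x : E} (hx : x ∈ U) (v : E) :
    0 ≤ levi (fun z => Real.log (∑ i, ‖y z i‖ ^ 2 + ε ^ 2)) x v := by
  have hpos : ∀ z, 0 < ∑ i, ‖y z i‖ ^ 2 + ε ^ 2 := fun z => by positivity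
  have hyd : DifferentiableAt ℂ y x :=
    ((hy x hx).contDiffAt (hU.mem_nhds hx)).differentiableAt (by simp)
  have hyr : ContDiffAt ℝ ∞ y x := ((hy x hx).contDiffAt (hU.mem_nhds hx)).restrict_scalars ℝ
  have hFs : ContDiffAt ℝ ∞ (fun z => ∑ i, ‖y z i‖ ^ 2 + ε ^ 2) x :=
    (psh0_F_smooth (m := m) ε).contDiffAt.comp x hyr
  have hus : ContDiffAt ℝ ∞ (fun z => Real.log (∑ i, ‖y z i‖ ^ 2 + ε ^ 2)) x :=
    hFs.log (hpos x).ne'
  have h1 := levi_comp Real.contDiff_exp hus v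
  have h2 : (fun z => Real.exp (Real.log (∑ i, ‖y z i‖ ^ 2 + ε ^ 2))) =
      fun z => ∑ i, ‖y z i‖ ^ 2 + ε ^ 2 := by
    funext z
    exact Real.exp_log (hpos z)
  have h3 : levi (fun z => ∑ i, ‖y z i‖ ^ 2 + ε ^ 2) x v = ∑ i, ‖fderiv ℂ y x v i‖ ^ 2 := by
    have h4 := levi_comp_hol (f := fun ζ : Fin m → ℂ => ∑ i, ‖ζ i‖ ^ 2 + ε ^ 2) hU hy hx
      (psh0_F_smooth (m := m) ε).contDiffAt v
    rw [h4, psh0_levi_F]
  obtain ⟨hF1, hF2⟩ := psh0_fderiv_F hyd ε v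
  obtain ⟨-, hF3⟩ := psh0_fderiv_F hyd ε (Complex.I • v)
  have hlog := hF1.log (hpos x).ne'
  rw [h2, h3, Real.deriv_exp, Real.deriv_exp, Real.exp_log (hpos x), hlog.fderiv] at h1
  simp only [smul_apply, smul_eq_mul] at h1
  rw [hF2, hF3] at h1
  set Fx : ℝ := ∑ i, ‖y x i‖ ^ 2 + ε ^ 2 with hFx
  set A : ℂ := ∑ i, (starRingEnd ℂ) (y x i) * fderiv ℂ y x v i with hA
  have hA' : ∑ i, (starRingEnd ℂ) (y x i) * fderiv ℂ y x (Complex.I • v) i = Complex.I * A := by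
    rw [hA, Finset.mul_sum]
    refine Finset.sum_congr rfl fun i _ => ?_
    rw [map_smul, Pi.smul_apply, smul_eq_mul]
    ring
  rw [hA'] at h1
  have hre : (Complex.I * A).re = -A.im := by simp
  rw [hre] at h1
  have hcs := psh0_cs (y x) (fderiv ℂ y x v)
  rw [← hA] at hcs
  have hns : ‖A‖ ^ 2 = A.re ^ 2 + A.im ^ 2 := by
    rw [← Complex.normSq_eq_norm_sq, Complex.normSq_apply]
    ring
  set S : ℝ := ∑ i, ‖fderiv ℂ y x v i‖ ^ 2 with hS
  have hS0 : 0 ≤ S := Finset.sum_nonneg fun _ _ => sq_nonneg _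
  have hFx0 : 0 < Fx := hpos x
  have h5 : A.re ^ 2 + A.im ^ 2 ≤ Fx * S := by
    rw [← hns]
    refine hcs.trans ?_
    refine mul_le_mul_of_nonneg_right ?_ hS0
    rw [hFx]
    nlinarith [sq_nonneg ε]
  have h6 : Fx * levi (fun z => Real.log (∑ i, ‖y z i‖ ^ 2 + ε ^ 2)) x v =
      S - (A.re ^ 2 + A.im ^ 2) / Fx := by
    have h7 : Fx * ((Fx⁻¹ * (2 * A.re)) ^ 2 + (Fx⁻¹ * (2 * -A.im)) ^ 2) / 4 =
        (A.re ^ 2 + A.im ^ 2) / Fx := by
      field_simp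
      ring
    rw [h7] at h1
    linarith
  have h8 : 0 ≤ Fx * levi (fun z => Real.log (∑ i, ‖y z i‖ ^ 2 + ε ^ 2)) x v := by
    rw [h6, sub_nonneg, div_le_iff₀ hFx0]
    linarith [mul_comm Fx S]
  exact nonneg_of_mul_nonneg_right h8 hFx0

theorem fderiv_log_le {m : ℕ} {y : E → (Fin m → ℂ)} {U : Set E} (hU : IsOpen U)
    (hy : ContDiffOn ℂ ∞ y U) {ε : ℝ} (hε : 0 < ε) {x : E} (hx : x ∈ U) (v : E)
    {c G : ℝ} (hc : 0 < c) (hcy : c ^ 2 ≤ ∑ i, ‖y x i‖ ^ 2) (hG : ∀ i, ‖fderiv ℂ y x v i‖ ≤ G)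
    (hG0 : 0 ≤ G) :
    |fderiv ℝ (fun z => Real.log (∑ i, ‖y z i‖ ^ 2 + ε ^ 2)) x v| ≤ 2 * m * G / c := by
  have hpos : ∀ z, 0 < ∑ i, ‖y z i‖ ^ 2 + ε ^ 2 := fun z => by positivity
  have hyd : DifferentiableAt ℂ y x :=
    ((hy x hx).contDiffAt (hU.mem_nhds hx)).differentiableAt (by simp)
  obtain ⟨hF1, hF2⟩ := psh0_fderiv_F hyd ε v
  have hlog := hF1.log (hpos x).ne'
  rw [hlog.fderiv]
  simp only [smul_apply, smul_eq_mul]
  rw [hF2, abs_mul, abs_inv, abs_of_pos (hpos x), abs_mul, abs_two]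
  set S : ℝ := ∑ i, ‖y x i‖ ^ 2 with hS
  have hS0 : 0 < S := lt_of_lt_of_le (by positivity) hcy
  have hyi : ∀ i, ‖y x i‖ ≤ Real.sqrt S := by
    intro i
    apply Real.le_sqrt_of_sq_le
    exact Finset.single_le_sum (f := fun i => ‖y x i‖ ^ 2) (fun _ _ => sq_nonneg _)
      (Finset.mem_univ i)
  have h1 : |(∑ i, (starRingEnd ℂ) (y x i) * fderiv ℂ y x v i).re| ≤ m * (Real.sqrt S * G) := by
    refine (Complex.abs_re_le_norm _).trans ((norm_sum_le _ _).trans ?_)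
    calc ∑ i, ‖(starRingEnd ℂ) (y x i) * fderiv ℂ y x v i‖ ≤ ∑ _i : Fin m, Real.sqrt S * G := by
          refine Finset.sum_le_sum fun i _ => ?_
          rw [norm_mul, RCLike.norm_conj]
          exact mul_le_mul (hyi i) (hG i) (norm_nonneg _) (Real.sqrt_nonneg _)
      _ = m * (Real.sqrt S * G) := by simp
  have hsq : 0 < Real.sqrt S := Real.sqrt_pos.2 hS0
  have hcs : c ≤ Real.sqrt S := Real.le_sqrt_of_sq_le hcy
  have h2 : (S + ε ^ 2)⁻¹ ≤ (Real.sqrt S * Real.sqrt S)⁻¹ := by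
    rw [Real.mul_self_sqrt hS0.le]
    exact inv_anti₀ hS0 (by nlinarith [sq_nonneg ε])
  calc (S + ε ^ 2)⁻¹ * (2 * |(∑ i, (starRingEnd ℂ) (y x i) * fderiv ℂ y x v i).re|)
      ≤ (Real.sqrt S * Real.sqrt S)⁻¹ * (2 * (m * (Real.sqrt S * G))) := by
        refine mul_le_mul h2 (by linarith) (by positivity) (by positivity)
    _ = 2 * m * G / Real.sqrt S := by
        field_simp
    _ ≤ 2 * m * G / c := by
        refine div_le_div_of_nonneg_left (by positivity) hc hcs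

end log

end OkaP
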