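import Pool.Agent.H.MP_ceb9a9.Ibp

/-!
# MP_ceb9a9, chapter 1: mean value property of holomorphic functions of several variables
-/

set_option autoImplicit false

open Set Metric Topology MeasureTheory
open scoped ContDiff

noncomputable section
namespace OkaP

variable {E : Type} [NormedAddCommGroup E] [NormedSpace ℂ E] [FiniteDimensional ℂ E]
  [MeasurableSpace E] [BorelSpace E] {μ : Measure E} [μ.IsAddHaarMeasure]

/-- mean value over circles -/
theorem circle_mean {f : E → ℂ} {x y : E} {r : ℝ} (hf : DifferentiableOn ℂ f (ball x r))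
    (hy : ‖y‖ < r) :
    ∫ θ in (0 : ℝ)..(2 * Real.pi), f (x + Complex.exp (θ * Complex.I) • y) = 2 * Real.pi * f x := by
  have hmap : ∀ z ∈ closedBall (0 : ℂ) 1, x + z • y ∈ ball x r := by
    intro z hz
    rw [mem_closedBall_zero_iff] at hz
    rw [mem_ball, dist_eq_norm, add_sub_cancel_left, norm_smul]
    calc ‖z‖ * ‖y‖ ≤ 1 * ‖y‖ := by gcongr
      _ < r := by rwa [one_mul]
  have haff : Differentiable ℂ (fun z : ℂ => x + z • y) := by fun_prop
  have hg : DifferentiableOn ℂ (fun z : ℂ => f (x + z • y)) (closedBall (0 : ℂ) 1) := by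
    intro z hz
    have h1 : DifferentiableAt ℂ f (x + z • y) :=
      (hf _ (hmap z hz)).differentiableAt (isOpen_ball.mem_nhds (hmap z hz))
    exact (h1.comp z haff.differentiableAt).differentiableWithinAt
  have hd : DiffContOnCl ℂ (fun z : ℂ => f (x + z • y)) (ball (0 : ℂ) |1|) := by
    rw [abs_one]
    exact (hg.mono (closure_ball_subset_closedBall)).diffContOnCl
  have h := DiffContOnCl.circleAverage hd
  rw [Real.circleAverage_def] at h
  simp only [circleMap, zero_smul, add_zero, Complex.ofReal_one, one_mul, zero_add] at h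
  have hpi : (2 * Real.pi : ℝ) ≠ 0 := by positivity
  have hpi2 : (2 * Real.pi : ℂ) * (((2 * Real.pi)⁻¹ : ℝ) : ℂ) = 1 := by
    rw [← Complex.ofReal_ofNat, ← Complex.ofReal_mul, ← Complex.ofReal_mul, mul_inv_cancel₀ hpi,
      Complex.ofReal_one]
  rw [← h, Complex.real_smul, ← mul_assoc, hpi2, one_mul]

/-- rotations preserve a Haar measure -/
private theorem meanV_rot {c : ℂ} (hc : ‖c‖ = 1) : MeasurePreserving (fun y : E => c • y) μ μ := by
  have hc0 : c ≠ 0 := by
    intro h
    rw [h, norm_zero] at hc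
    norm_num at hc
  let L : E ≃ₗ[ℝ] E := (LinearEquiv.smulOfNeZero ℂ E c hc0).restrictScalars ℝ
  have hL : ∀ y, L y = c • y := fun y => rfl
  have hdet : LinearMap.det (L : E →ₗ[ℝ] E) ≠ 0 := by
    exact (LinearEquiv.isUnit_det' L).ne_zero
  have hmap := Measure.map_linearMap_addHaar_eq_smul_addHaar μ hdet
  have hmeas : Measurable (fun y : E => c • y) := (continuous_const_smul c).measurable
  have hpre : (fun y : E => c • y) ⁻¹' ball (0 : E) 1 = ball 0 1 := by
    ext y
    simp [norm_smul, hc]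
  have h1 : (Measure.map (L : E →ₗ[ℝ] E) μ) (ball (0 : E) 1) = μ (ball (0 : E) 1) := by
    have : ((L : E →ₗ[ℝ] E) : E → E) = fun y => c • y := rfl
    rw [this, Measure.map_apply hmeas measurableSet_ball, hpre]
  have hpos : μ (ball (0 : E) 1) ≠ 0 := (measure_ball_pos μ 0 one_pos).ne'
  have hfin : μ (ball (0 : E) 1) ≠ ⊤ := measure_ball_lt_top.ne
  have hfac : ENNReal.ofReal |(LinearMap.det (L : E →ₗ[ℝ] E))⁻¹| = 1 := by
    rw [hmap, Measure.smul_apply, smul_eq_mul] at h1
    exact (ENNReal.mul_eq_right hpos hfin).1 h1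
  refine ⟨hmeas, ?_⟩
  rw [hfac, one_smul] at hmap
  exact hmap

omit [FiniteDimensional ℂ E] in
private theorem meanV_rot_emb {c : ℂ} (hc : ‖c‖ = 1) : MeasurableEmbedding (fun y : E => c • y) := by
  have hc0 : c ≠ 0 := by
    intro h
    rw [h, norm_zero] at hc
    norm_num at hc
  exact (Homeomorph.smulOfNeZero c hc0).measurableEmbedding

private theorem meanV_general {f : E → ℂ} {x : E} {r : ℝ} (hf : DifferentiableOn ℂ f (ball x r))
    {k : E → ℝ} (hk : Continuous k) (hc : ∀ c : ℂ, ‖c‖ = 1 → ∀ y, k (c • y) = k y)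
    (hi : IntegrableOn (fun y => f (x + y) * ((k y : ℝ) : ℂ)) (ball 0 r) μ) :
    ∫ y in ball 0 r, f (x + y) * ((k y : ℝ) : ℂ) ∂μ
      = f x * ((∫ y in ball 0 r, k y ∂μ : ℝ) : ℂ) := by
  have hnorm : ∀ θ : ℝ, ‖Complex.exp (θ * Complex.I)‖ = 1 := Complex.norm_exp_ofReal_mul_I
  have hpre : ∀ c : ℂ, ‖c‖ = 1 → (fun y : E => c • y) ⁻¹' ball (0 : E) r = ball 0 r := by
    intro c hc1
    ext y
    simp [norm_smul, hc1]
  -- rotation
  have hrot : ∀ θ : ℝ, ∫ y in ball 0 r, f (x + Complex.exp (θ * Complex.I) • y) * ((k y : ℝ) : ℂ) ∂μ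
      = ∫ y in ball 0 r, f (x + y) * ((k y : ℝ) : ℂ) ∂μ := by
    intro θ
    have h1 := (meanV_rot (μ := μ) (hnorm θ)).setIntegral_preimage_emb (meanV_rot_emb (hnorm θ))
      (fun y => f (x + y) * ((k y : ℝ) : ℂ)) (ball 0 r)
    rw [hpre _ (hnorm θ)] at h1
    rw [← h1]
    apply setIntegral_congr_fun measurableSet_ball
    intro y hy
    simp only [hc _ (hnorm θ) y]
  have hroti : ∀ θ : ℝ, IntegrableOn
      (fun y => f (x + Complex.exp (θ * Complex.I) • y) * ((k y : ℝ) : ℂ)) (ball 0 r) μ := by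
    intro θ
    have h1 := ((meanV_rot (μ := μ) (hnorm θ)).integrableOn_comp_preimage
      (meanV_rot_emb (hnorm θ)) (f := fun y => f (x + y) * ((k y : ℝ) : ℂ)) (s := ball 0 r)).2 hi
    rw [hpre _ (hnorm θ)] at h1
    refine h1.congr_fun (fun y hy => ?_) measurableSet_ball
    simp only [Function.comp_apply, hc _ (hnorm θ) y]
  have hrotn : ∀ θ : ℝ,
      ∫ y in ball 0 r, ‖f (x + Complex.exp (θ * Complex.I) • y) * ((k y : ℝ) : ℂ)‖ ∂μ
      = ∫ y in ball 0 r, ‖f (x + y) * ((k y : ℝ) : ℂ)‖ ∂μ := by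
    intro θ
    have h1 := (meanV_rot (μ := μ) (hnorm θ)).setIntegral_preimage_emb (meanV_rot_emb (hnorm θ))
      (fun y => ‖f (x + y) * ((k y : ℝ) : ℂ)‖) (ball 0 r)
    rw [hpre _ (hnorm θ)] at h1
    rw [← h1]
    apply setIntegral_congr_fun measurableSet_ball
    intro y hy
    simp only [hc _ (hnorm θ) y]
  -- Fubini
  let F : ℝ → E → ℂ := fun θ y => f (x + Complex.exp (θ * Complex.I) • y) * ((k y : ℝ) : ℂ)
  have hcont : ContinuousOn (Function.uncurry F) (Ioc (0 : ℝ) (2 * Real.pi) ×ˢ ball (0 : E) r) := by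
    have hfc : ContinuousOn f (ball x r) := hf.continuousOn
    have hin : Continuous (fun q : ℝ × E => x + Complex.exp (q.1 * Complex.I) • q.2) := by
      fun_prop
    have hmaps : MapsTo (fun q : ℝ × E => x + Complex.exp (q.1 * Complex.I) • q.2)
        (Ioc (0 : ℝ) (2 * Real.pi) ×ˢ ball (0 : E) r) (ball x r) := by
      rintro ⟨θ, y⟩ ⟨-, hy⟩
      rw [mem_ball_zero_iff] at hy
      simp only [mem_ball, dist_eq_norm, add_sub_cancel_left, norm_smul, hnorm, one_mul]
      exact hy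
    have h1 := hfc.comp hin.continuousOn hmaps
    have h2 : ContinuousOn (fun q : ℝ × E => ((k q.2 : ℝ) : ℂ))
        (Ioc (0 : ℝ) (2 * Real.pi) ×ˢ ball (0 : E) r) :=
      (Complex.continuous_ofReal.comp (hk.comp continuous_snd)).continuousOn
    exact h1.mul h2
  have hint : Integrable (Function.uncurry F)
      ((volume.restrict (Ioc (0 : ℝ) (2 * Real.pi))).prod (μ.restrict (ball (0 : E) r))) := by
    have hms : AEStronglyMeasurable (Function.uncurry F)
        ((volume.restrict (Ioc (0 : ℝ) (2 * Real.pi))).prod (μ.restrict (ball (0 : E) r))) := by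
      rw [Measure.prod_restrict]
      exact hcont.aestronglyMeasurable (measurableSet_Ioc.prod measurableSet_ball)
    rw [integrable_prod_iff hms]
    refine ⟨Filter.Eventually.of_forall (fun θ => hroti θ), ?_⟩
    have hconst : (fun θ : ℝ => ∫ y in ball (0 : E) r, ‖Function.uncurry F (θ, y)‖ ∂μ)
        = fun _ => ∫ y in ball 0 r, ‖f (x + y) * ((k y : ℝ) : ℂ)‖ ∂μ := by
      funext θ
      exact hrotn θ
    rw [hconst]
    exact integrable_const _
  have hswap := integral_integral_swap hint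
  have hleft : ∫ θ in Ioc (0 : ℝ) (2 * Real.pi), ∫ y in ball (0 : E) r, F θ y ∂μ
      = (2 * Real.pi : ℂ) * ∫ y in ball 0 r, f (x + y) * ((k y : ℝ) : ℂ) ∂μ := by
    have h1 : (fun θ : ℝ => ∫ y in ball (0 : E) r, F θ y ∂μ)
        = fun _ => ∫ y in ball 0 r, f (x + y) * ((k y : ℝ) : ℂ) ∂μ := by
      funext θ
      exact hrot θ
    rw [h1, setIntegral_const]
    simp only [Real.volume_real_Ioc, sub_zero, Complex.real_smul]
    rw [max_eq_left (by positivity)]
    push_cast
    ring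
  have hright : ∫ y in ball (0 : E) r, (∫ θ in Ioc (0 : ℝ) (2 * Real.pi), F θ y) ∂μ
      = (2 * Real.pi : ℂ) * (f x * ((∫ y in ball 0 r, k y ∂μ : ℝ) : ℂ)) := by
    have h1 : ∀ y ∈ ball (0 : E) r, (∫ θ in Ioc (0 : ℝ) (2 * Real.pi), F θ y)
        = (2 * Real.pi : ℂ) * f x * ((k y : ℝ) : ℂ) := by
      intro y hy
      rw [mem_ball_zero_iff] at hy
      have h2 := circle_mean hf hy
      rw [intervalIntegral.integral_of_le (by positivity)] at h2
      simp only [F]
      rw [integral_mul_const, h2]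
    rw [setIntegral_congr_fun measurableSet_ball h1, integral_const_mul, integral_complex_ofReal]
    ring
  rw [hleft, hright] at hswap
  have hpi : (2 * Real.pi : ℂ) ≠ 0 := by
    simp [Real.pi_ne_zero]
  exact mul_left_cancel₀ hpi hswap

/-- mean value property for circled kernels -/
theorem circ_mean {f : E → ℂ} {x : E} {r : ℝ} (hf : DifferentiableOn ℂ f (ball x r))
    {k : E → ℝ} (hk : Continuous k)
    (hc : ∀ c : ℂ, ‖c‖ = 1 → ∀ y, k (c • y) = k y) (hr : ∃ r' < r, ∀ y, r' ≤ ‖y‖ → k y = 0) :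
    ∫ y, f (x + y) * ((k y : ℝ) : ℂ) ∂μ = f x * ((∫ y, k y ∂μ : ℝ) : ℂ) := by
  obtain ⟨r', hr', hk0⟩ := hr
  have hproper : ProperSpace E := FiniteDimensional.proper ℂ E
  have hcont : ContinuousOn (fun y => f (x + y) * ((k y : ℝ) : ℂ)) (closedBall (0 : E) r') := by
    have hfc : ContinuousOn f (ball x r) := hf.continuousOn
    have hmaps : MapsTo (fun y : E => x + y) (closedBall (0 : E) r') (ball x r) := by
      intro y hy
      rw [mem_closedBall_zero_iff] at hy
      simp only [mem_ball, dist_eq_norm, add_sub_cancel_left]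
      exact lt_of_le_of_lt hy hr'
    exact (hfc.comp (by fun_prop) hmaps).mul
      (Complex.continuous_ofReal.comp hk).continuousOn
  have hi0 : IntegrableOn (fun y => f (x + y) * ((k y : ℝ) : ℂ)) (closedBall (0 : E) r') μ :=
    hcont.integrableOn_compact (isCompact_closedBall _ _)
  have hi : IntegrableOn (fun y => f (x + y) * ((k y : ℝ) : ℂ)) (ball 0 r) μ := by
    apply IntegrableOn.of_forall_sdiff_eq_zero hi0 measurableSet_ball
    rintro y ⟨-, hy⟩
    rw [mem_closedBall_zero_iff, not_le] at hy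
    rw [hk0 y hy.le]
    simp
  have h := meanV_general hf hk hc hi
  rw [setIntegral_eq_integral_of_forall_compl_eq_zero, setIntegral_eq_integral_of_forall_compl_eq_zero]
    at h
  · exact h
  · intro y hy
    rw [mem_ball_zero_iff, not_lt] at hy
    exact hk0 y (hr'.le.trans hy)
  · intro y hy
    rw [mem_ball_zero_iff, not_lt] at hy
    rw [hk0 y (hr'.le.trans hy)]
    simp

/-- mean value property for balls -/
theorem ball_mean {f : E → ℂ} {x : E} {r : ℝ} (hr : 0 < r)
    (hf : DifferentiableOn ℂ f (ball x r)) (hi : IntegrableOn f (ball x r) μ) :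
    ∫ y in ball x r, f y ∂μ = f x * ((μ.real (ball x r) : ℝ) : ℂ) := by
  have hpre : (fun y : E => x + y) ⁻¹' ball x r = ball 0 r := by
    ext y
    simp [dist_eq_norm]
  have hmp : MeasurePreserving (fun y : E => x + y) μ μ := measurePreserving_add_left μ x
  have hemb : MeasurableEmbedding (fun y : E => x + y) := measurableEmbedding_addLeft x
  have h1 := hmp.setIntegral_preimage_emb hemb f (ball x r)
  rw [hpre] at h1
  have hi' : IntegrableOn (fun y => f (x + y) * (((1 : ℝ)) : ℂ)) (ball 0 r) μ := by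
    have h2 := (hmp.integrableOn_comp_preimage hemb (f := f) (s := ball x r)).2 hi
    rw [hpre] at h2
    refine h2.congr_fun (fun y hy => ?_) measurableSet_ball
    simp
  have h3 := meanV_general (k := fun _ => (1 : ℝ)) hf continuous_const (fun _ _ _ => rfl) hi'
  simp only [Complex.ofReal_one, mul_one] at h3
  rw [← h1, h3]
  have hb : μ.real (ball x r) = μ.real (ball (0 : E) r) := by
    rw [Measure.real, Measure.real, ← hmp.measure_preimage_emb hemb, hpre]
  rw [hb]
  simp

/-- pointwise bound by the `L²` norm -/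
theorem sq_norm_le_of_hol {f : E → ℂ} {x : E} {r : ℝ} (hr : 0 < r)
    (hf : DifferentiableOn ℂ f (ball x r)) (hi : IntegrableOn (fun y => ‖f y‖ ^ 2) (ball x r) μ) :
    ‖f x‖ ^ 2 ≤ (∫ y in ball x r, ‖f y‖ ^ 2 ∂μ) / μ.real (ball x r) := by
  have hf2 : DifferentiableOn ℂ (fun y => f y ^ 2) (ball x r) := hf.pow 2
  have hi2 : IntegrableOn (fun y => f y ^ 2) (ball x r) μ := by
    refine ⟨hf2.continuousOn.aestronglyMeasurable measurableSet_ball, ?_⟩
    have h1 := hi.2
    refine h1.mono (Filter.Eventually.of_forall (fun y => ?_))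
    simp
  have h := ball_mean hr hf2 hi2
  have hproper : ProperSpace E := FiniteDimensional.proper ℂ E
  have hpos : 0 < μ.real (ball x r) :=
    ENNReal.toReal_pos (measure_ball_pos μ x hr).ne' measure_ball_lt_top.ne
  rw [le_div_iff₀ hpos]
  calc ‖f x‖ ^ 2 * μ.real (ball x r) = ‖f x ^ 2 * ((μ.real (ball x r) : ℝ) : ℂ)‖ := by
        rw [norm_mul, norm_pow, Complex.norm_real, Real.norm_of_nonneg hpos.le]
    _ = ‖∫ y in ball x r, f y ^ 2 ∂μ‖ := by rw [h]
    _ ≤ ∫ y in ball x r, ‖f y ^ 2‖ ∂μ := norm_integral_le_integral_norm _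
    _ = ∫ y in ball x r, ‖f y‖ ^ 2 ∂μ := by simp only [norm_pow]

/-- measure of balls -/
theorem measure_ball_eq (x : E) {r : ℝ} (hr : 0 < r) :
    μ.real (ball x r) = r ^ (2 * Module.finrank ℂ E) * μ.real (ball (0 : E) 1) := by
  rw [Measure.real, Measure.real, Measure.addHaar_ball_of_pos μ x hr, ENNReal.toReal_mul,
    ENNReal.toReal_ofReal (by positivity), finrank_real_of_complex]

/-- pointwise bound by the `L²` norm, explicit constant -/
theorem norm_le_of_hol {f : E → ℂ} {x : E} {r : ℝ} (hr : 0 < r) {M : ℝ}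
    (hf : DifferentiableOn ℂ f (ball x r)) (hi : IntegrableOn (fun y => ‖f y‖ ^ 2) (ball x r) μ)
    (hM : ∫ y in ball x r, ‖f y‖ ^ 2 ∂μ ≤ M ^ 2) (hM0 : 0 ≤ M) :
    ‖f x‖ ≤ (μ.real (ball (0 : E) 1))⁻¹ ^ ((1 : ℝ) / 2) * (r⁻¹) ^ (Module.finrank ℂ E) * M := by
  have hproper : ProperSpace E := FiniteDimensional.proper ℂ E
  have hpos : 0 < μ.real (ball (0 : E) 1) :=
    ENNReal.toReal_pos (measure_ball_pos μ 0 one_pos).ne' measure_ball_lt_top.ne
  have h1 := sq_norm_le_of_hol hr hf hi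
  rw [measure_ball_eq x hr] at h1
  have h2 : ‖f x‖ ^ 2 ≤ ((μ.real (ball (0 : E) 1))⁻¹ ^ ((1 : ℝ) / 2)
      * (r⁻¹) ^ (Module.finrank ℂ E) * M) ^ 2 := by
    have h3 : ((μ.real (ball (0 : E) 1))⁻¹ ^ ((1 : ℝ) / 2)) ^ 2 = (μ.real (ball (0 : E) 1))⁻¹ := by
      rw [← Real.sqrt_eq_rpow, Real.sq_sqrt (by positivity)]
    rw [mul_pow, mul_pow, h3]
    calc ‖f x‖ ^ 2 ≤ _ := h1
      _ ≤ M ^ 2 / (r ^ (2 * Module.finrank ℂ E) * μ.real (ball (0 : E) 1)) := by gcongr
      _ = _ := by
        have h4 : ((r⁻¹) ^ (Module.finrank ℂ E)) ^ 2 = (r ^ (2 * Module.finrank ℂ E))⁻¹ := by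
          rw [← pow_mul, mul_comm _ 2, inv_pow]
        rw [h4, div_eq_mul_inv, mul_inv]
        ring
  exact (pow_le_pow_iff_left₀ (norm_nonneg _) (by positivity) (by norm_num)).1 h2

end OkaP
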