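import Pool.Agent.H.MP_ceb9a9.HorLoc
import Pool.Agent.H.MP_ceb9a9.MeanV

/-!
# MP_ceb9a9, chapter 1: Oka-Weil / Runge approximation
-/

set_option autoImplicit false

open Set Metric Topology MeasureTheory
open scoped ContDiff

noncomputable section
namespace OkaP

variable {E : Type} [NormedAddCommGroup E] [NormedSpace ℂ E] [FiniteDimensional ℂ E]

/-- the main estimate: a bound of the form `ε` from the weighted `L²` estimate -/
private theorem runge_point [MeasurableSpace E] [BorelSpace E] {μ : Measure E}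
    [μ.IsAddHaarMeasure] {f g h : E → ℂ} {w : E → ℝ} {T : Set E} (hT : IsCompact T)
    (hg : Continuous g) (hh : Differentiable ℂ h) {x : E} {r : ℝ} (hr : 0 < r)
    (hf : DifferentiableOn ℂ f (ball x r)) (hfg : ∀ y ∈ ball x r, f y = g y)
    {c : ℝ} (hc : 0 < c) (hw : ∀ y ∈ ball x r, c ≤ w y) (hw0 : ∀ y, 0 ≤ w y)
    (hbT : ball x r ⊆ T)
    (hi : IntegrableOn (fun y => ‖g y - h y‖ ^ 2 * w y) T μ) :
    ‖f x - h x‖ ^ 2 * (c * μ.real (ball x r)) ≤ ∫ y in T, ‖g y - h y‖ ^ 2 * w y ∂μ := by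
  have hproper : ProperSpace E := FiniteDimensional.proper ℂ E
  have hpos : 0 < μ.real (ball x r) :=
    ENNReal.toReal_pos (measure_ball_pos μ x hr).ne' measure_ball_lt_top.ne
  have hcont : Continuous (fun y => ‖g y - h y‖ ^ 2) :=
    ((hg.sub hh.continuous).norm).pow 2
  have hint : IntegrableOn (fun y => ‖g y - h y‖ ^ 2) (ball x r) μ :=
    (hcont.continuousOn.integrableOn_compact hT).mono_set hbT
  have hcongr : ∀ y ∈ ball x r, ‖g y - h y‖ ^ 2 = ‖f y - h y‖ ^ 2 := by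
    intro y hy
    rw [hfg y hy]
  have hint' : IntegrableOn (fun y => ‖f y - h y‖ ^ 2) (ball x r) μ :=
    hint.congr_fun hcongr measurableSet_ball
  have h1 := sq_norm_le_of_hol (μ := μ) hr (f := fun y => f y - h y)
    (hf.sub hh.differentiableOn) hint'
  rw [le_div_iff₀ hpos] at h1
  have h2 : c * ∫ y in ball x r, ‖f y - h y‖ ^ 2 ∂μ ≤
      ∫ y in T, ‖g y - h y‖ ^ 2 * w y ∂μ := by
    have h3 : ∫ y in ball x r, ‖f y - h y‖ ^ 2 ∂μ = ∫ y in ball x r, ‖g y - h y‖ ^ 2 ∂μ :=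
      setIntegral_congr_fun measurableSet_ball (fun y hy => (hcongr y hy).symm)
    rw [h3, ← integral_const_mul]
    calc ∫ y in ball x r, c * ‖g y - h y‖ ^ 2 ∂μ
        ≤ ∫ y in ball x r, ‖g y - h y‖ ^ 2 * w y ∂μ := by
          apply setIntegral_mono_on (hint.const_mul c) (hi.mono_set hbT) measurableSet_ball
          intro y hy
          rw [mul_comm]
          exact mul_le_mul_of_nonneg_left (hw y hy) (by positivity)
      _ ≤ ∫ y in T, ‖g y - h y‖ ^ 2 * w y ∂μ := by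
          apply setIntegral_mono_set hi
          · exact Filter.Eventually.of_forall (fun y => mul_nonneg (by positivity) (hw0 y))
          · exact hbT.eventuallyLE
  calc ‖f x - h x‖ ^ 2 * (c * μ.real (ball x r))
      = c * (‖f x - h x‖ ^ 2 * μ.real (ball x r)) := by ring
    _ ≤ c * ∫ y in ball x r, ‖f y - h y‖ ^ 2 ∂μ := mul_le_mul_of_nonneg_left h1 hc.le
    _ ≤ _ := h2

/-- relative Runge theorem, scalar case -/
theorem runge_rel {ρ ρ2 : E → ℝ} (hρ : Psh ρ) (hc : IsCompact {x | ρ x ≤ 1})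
    (h2 : PshOn ρ2 {x | ρ x < 1}) {f : E → ℂ}
    (hf : DifferentiableOn ℂ f {x | ρ x < 1 ∧ ρ2 x < 1}) {s : ℝ} (hs : s < 1)
    {ε : ℝ} (hε : 0 < ε) :
    ∃ g : E → ℂ, Differentiable ℂ g ∧ ∀ x, ρ x ≤ s → ρ2 x ≤ s → ‖f x - g x‖ < ε := by
  have hproper : ProperSpace E := FiniteDimensional.proper ℂ E
  let : MeasurableSpace E := borel E
  have : BorelSpace E := ⟨rfl⟩
  let μ : Measure E := Measure.addHaar
  let b := Module.finBasis ℂ E
  have hρc : Continuous ρ := hρ.smooth.continuous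
  -- levels
  obtain ⟨s1, hs1, hs1'⟩ := exists_between hs
  obtain ⟨s2, hs2, hs2'⟩ := exists_between hs1'
  obtain ⟨s3, hs3, hs3'⟩ := exists_between hs2'
  have hO1 : IsOpen {x | ρ x < 1} := isOpen_lt hρc continuous_const
  have hρ2c : ContinuousOn ρ2 {x | ρ x < 1} := h2.smooth.continuousOn
  have hcomp : ∀ t : ℝ, t ≤ 1 → IsCompact {x | ρ x ≤ t} := by
    intro t ht
    refine hc.of_isClosed_subset (isClosed_le hρc continuous_const) ?_
    intro x hx
    exact le_trans hx ht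
  have hS : ∀ t u : ℝ, t < 1 → IsCompact {x | ρ x ≤ t ∧ ρ2 x ≤ u} := by
    intro t u ht
    have hcl : IsClosed {x | ρ x ≤ t} := isClosed_le hρc continuous_const
    have h3 : ContinuousOn ρ2 {x | ρ x ≤ t} :=
      hρ2c.mono (fun x (hx : ρ x ≤ t) => lt_of_le_of_lt hx ht)
    refine (hcomp t ht.le).of_isClosed_subset
      (h3.preimage_isClosed_of_isClosed hcl isClosed_Iic (t := Iic u)) ?_
    intro x hx
    exact hx.1
  have hU : ∀ t u : ℝ, t ≤ 1 → IsOpen {x | ρ x < t ∧ ρ2 x < u} := by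
    intro t u ht
    have h3 : ContinuousOn ρ2 {x | ρ x < t} :=
      hρ2c.mono (fun x (hx : ρ x < t) => lt_of_lt_of_le hx ht)
    exact h3.isOpen_inter_preimage (isOpen_lt hρc continuous_const) isOpen_Iio (t := Iio u)
  -- cutoff
  have hSU : {x | ρ x ≤ s3 ∧ ρ2 x ≤ s3} ⊆ {x | ρ x < 1 ∧ ρ2 x < 1} :=
    fun x hx => ⟨lt_of_le_of_lt hx.1 hs3', lt_of_le_of_lt hx.2 hs3'⟩
  obtain ⟨χ, hχ, hχc, hχ01, hχs, hχ1⟩ := exists_cut (hS s3 s3 hs3') (hU 1 1 le_rfl) hSU
  set g0 : E → ℂ := fun x => ((χ x : ℝ) : ℂ) * f x with hg0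
  have hg0s : ContDiff ℝ ∞ g0 :=
    contDiff_cut_mul (hU 1 1 le_rfl) hχ hχs (contDiffOn_of_hol (hU 1 1 le_rfl) hf)
  have hg0c : HasCompactSupport g0 := by
    have h1 : HasCompactSupport (fun x => ((χ x : ℝ) : ℂ)) :=
      hχc.comp_left (g := fun t : ℝ => (t : ℂ)) Complex.ofReal_zero
    exact h1.mul_right
  have hg0T : Tst g0 := ⟨hg0s, hg0c⟩
  -- `g0 = f` near `S3`
  have hgf : ∀ x, ρ x ≤ s3 → ρ2 x ≤ s3 → g0 =ᶠ[𝓝 x] f := by
    intro x h3 h4
    have h5 : x ∈ interior {x | χ x = 1} := hχ1 ⟨h3, h4⟩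
    filter_upwards [mem_interior_iff_mem_nhds.mp h5] with y hy
    have hy' : χ y = 1 := hy
    simp [hg0, hy']
  -- bound of `pb g0`
  obtain ⟨Cg, hCg0, hCg⟩ : ∃ Cg : ℝ, 0 ≤ Cg ∧ ∀ x, ∑ j, ‖pb (b j) g0 x‖ ^ 2 ≤ Cg := by
    have h3 : ∀ j, ∃ C : ℝ, ∀ x, ‖pb (b j) g0 x‖ ≤ C := fun j =>
      (hg0T.pb (a := b j)).2.exists_bound_of_continuous (hg0T.pb (a := b j)).1.continuous
    choose C hC using h3
    refine ⟨∑ j, (C j) ^ 2, Finset.sum_nonneg (fun j _ => sq_nonneg _), fun x => ?_⟩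
    refine Finset.sum_le_sum (fun j _ => ?_)
    exact pow_le_pow_left₀ (norm_nonneg _) (hC j x) 2
  -- the weight
  set f0 : E → ℝ := fun x => OkaP.hc (ρ2 x + (-s1)) with hf0
  have hsub2 : {x | ρ x < s2} ⊆ {x | ρ x < 1} := fun x (hx : ρ x < s2) => hx.trans hs2'
  have hf0s : ContDiffOn ℝ ∞ f0 {x | ρ x < s2} := by
    have h3 : ContDiffOn ℝ ∞ (fun x => ρ2 x + (-s1)) {x | ρ x < s2} :=
      (h2.smooth.mono hsub2).add contDiffOn_const
    exact hc_smooth.comp_contDiffOn h3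
  have hf0l : ∀ N : ℝ, 0 ≤ N → ∀ x, ρ x < s2 → ∀ v, 0 ≤ levi (fun y => N * f0 y) x v := by
    intro N hN x hx v
    rw [levi_const_mul]
    apply mul_nonneg hN
    have h3 : ContDiffAt ℝ ∞ (fun y => ρ2 y + (-s1)) x :=
      (h2.smooth.contDiffAt (hO1.mem_nhds (hsub2 hx))).add contDiffAt_const
    refine le_trans ?_ (levi_hc_ge h3 v)
    rw [levi_add_const]
    exact mul_nonneg (hc_deriv_nonneg _) (h2.nonneg x (hsub2 hx) v)
  -- constants
  set a : ℝ := OkaP.hc (s3 + (-s1)) with ha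
  have ha0 : 0 < a := hc_pos (by linarith)
  set V : ℝ := μ.real {x | ρ x ≤ s2} with hV
  have hV0 : 0 ≤ V := measureReal_nonneg
  obtain ⟨M, hM⟩ : ∃ M : ℝ, ∀ x, ρ x ≤ s1 → qf b x ≤ M := by
    obtain ⟨M, hM⟩ := (hcomp s1 (by linarith)).exists_bound_of_continuousOn
      (f := qf b) (qf_smooth b).continuous.continuousOn
    exact ⟨M, fun x hx => le_trans (le_abs_self _) (hM x hx)⟩
  -- radius
  have hSs : IsCompact {x | ρ x ≤ s ∧ ρ2 x ≤ s} := hS s s hs
  obtain ⟨r, hr, hrs⟩ := hSs.exists_thickening_subset_open (hU s1 s1 (by linarith))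
    (fun x hx => ⟨lt_of_le_of_lt hx.1 hs1, lt_of_le_of_lt hx.2 hs1⟩)
  set v : ℝ := μ.real (ball (0 : E) 1) * r ^ (2 * Module.finrank ℂ E) with hv
  have hball : ∀ x : E, μ.real (ball x r) = v := by
    intro x
    rw [measure_ball_eq x hr, mul_comm]
  have hv0 : 0 < v := by
    rw [← hball 0]
    exact ENNReal.toReal_pos (measure_ball_pos μ 0 hr).ne' measure_ball_lt_top.ne
  set η : ℝ := Real.exp (-M) * v * ε ^ 2 with hη
  have hη0 : 0 < η := by positivity
  -- the weight parameter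
  obtain ⟨N, hN⟩ := exists_pow_lt_of_lt_one (x := η / 2 / (Cg * V + 1)) (y := Real.exp (-a))
    (by positivity) (by rw [Real.exp_lt_one_iff]; linarith)
  have hN' : Real.exp (-((N : ℝ) * a)) < η / 2 / (Cg * V + 1) := by
    rw [← Real.exp_nat_mul] at hN
    have h3 : -((N : ℝ) * a) = (N : ℝ) * (-a) := by ring
    rw [h3]
    exact hN
  set B : ℝ := Cg * Real.exp (-((N : ℝ) * a)) with hB
  have hB0 : 0 ≤ B := by positivity
  obtain ⟨h, hh, hhi, hhb⟩ := hor_loc (μ := μ) b hρ hs2 (hcomp s2 hs2'.le)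
    (f := fun y => (N : ℝ) * f0 y) (contDiffOn_const.mul hf0s) (C1 := 0) le_rfl
    (fun x hx w => by
      rw [neg_zero, zero_mul]
      exact hf0l N (Nat.cast_nonneg N) x hx _)
    hg0T (B := B)
    (fun x hx => by
      by_cases hx3 : ρ2 x ≤ s3
      · have hx3' : ρ x ≤ s3 := (hx.trans hs3).le
        have h4 : ∀ j, pb (b j) g0 x = 0 := by
          intro j
          have h5 : DifferentiableAt ℂ f x :=
            hf.differentiableAt ((hU 1 1 le_rfl).mem_nhds (hSU ⟨hx3', hx3⟩))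
          exact pb_eq_zero (h5.congr_of_eventuallyEq (hgf x hx3' hx3))
        simp only [h4]
        simpa using hB0
      · have h4 : a ≤ f0 x := hc_mono (by linarith)
        have h5 : Real.exp (-((N : ℝ) * f0 x)) ≤ Real.exp (-((N : ℝ) * a)) := by
          apply Real.exp_le_exp.mpr
          have := mul_le_mul_of_nonneg_left h4 (Nat.cast_nonneg N (α := ℝ))
          linarith
        exact mul_le_mul (hCg x) h5 (Real.exp_pos _).le hCg0)
    hB0 (half_pos hη0)
  refine ⟨h, hh, fun x hx1 hx2 => ?_⟩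
  have hbs : ball x r ⊆ {x | ρ x < s1 ∧ ρ2 x < s1} :=
    (ball_subset_thickening (E := {x | ρ x ≤ s ∧ ρ2 x ≤ s}) ⟨hx1, hx2⟩ r).trans hrs
  have hpt := runge_point (μ := μ) (T := {x | ρ x ≤ s1})
    (w := fun y => Real.exp (-((N : ℝ) * f0 y) - (1 + 0) * qf b y)) (c := Real.exp (-M))
    (hcomp s1 (by linarith)) hg0s.continuous hh hr (f := f)
    (hf.mono (fun y hy => ⟨(hbs hy).1.trans hs1', (hbs hy).2.trans hs1'⟩))
    (fun y hy => (hgf y ((hbs hy).1.trans (hs2.trans hs3)).le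
      ((hbs hy).2.trans (hs2.trans hs3)).le).eq_of_nhds.symm)
    (Real.exp_pos _)
    (fun y hy => by
      apply Real.exp_le_exp.mpr
      have h4 : f0 y = 0 := hc_zero (by linarith [(hbs hy).2])
      have h5 := hM y (hbs hy).1.le
      rw [h4]
      linarith)
    (fun y => (Real.exp_pos _).le)
    (fun y hy => (hbs hy).1.le)
    hhi
  rw [hball] at hpt
  have hfin : ‖f x - h x‖ ^ 2 * (Real.exp (-M) * v) < ε ^ 2 * (Real.exp (-M) * v) := by
    calc ‖f x - h x‖ ^ 2 * (Real.exp (-M) * v) ≤ B * V + η / 2 := hpt.trans hhb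
      _ < η := by
        have h6 : B * V < η / 2 := by
          have h7 : (Cg * V + 1) * Real.exp (-((N : ℝ) * a)) < η / 2 := by
            rw [lt_div_iff₀ (by positivity)] at hN'
            linarith
          have h8 : B * V ≤ (Cg * V + 1) * Real.exp (-((N : ℝ) * a)) := by
            rw [hB]
            have := (Real.exp_pos (-((N : ℝ) * a))).le
            nlinarith
          linarith
        linarith
      _ = ε ^ 2 * (Real.exp (-M) * v) := by rw [hη]; ring
  have hfin2 : ‖f x - h x‖ ^ 2 < ε ^ 2 := lt_of_mul_lt_mul_right hfin (by positivity)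
  exact lt_of_pow_lt_pow_left₀ 2 hε.le hfin2

/-- relative Runge theorem, vector valued -/
theorem runge_rel_vec {F : Type} [NormedAddCommGroup F] [NormedSpace ℂ F] [FiniteDimensional ℂ F]
    {ρ ρ2 : E → ℝ} (hρ : Psh ρ) (hc : IsCompact {x | ρ x ≤ 1})
    (h2 : PshOn ρ2 {x | ρ x < 1}) {f : E → F}
    (hf : DifferentiableOn ℂ f {x | ρ x < 1 ∧ ρ2 x < 1}) {s : ℝ} (hs : s < 1)
    {ε : ℝ} (hε : 0 < ε) :
    ∃ g : E → F, Differentiable ℂ g ∧ ∀ x, ρ x ≤ s → ρ2 x ≤ s → ‖f x - g x‖ < ε := by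
  let b := Module.finBasis ℂ F
  let L : Fin (Module.finrank ℂ F) → F →L[ℂ] ℂ := fun j => (b.coord j).toContinuousLinearMap
  set C : ℝ := ∑ j, ‖b j‖ with hC
  have hC0 : 0 ≤ C := Finset.sum_nonneg (fun j _ => norm_nonneg _)
  have h3 : ∀ j, ∃ g : E → ℂ, Differentiable ℂ g ∧
      ∀ x, ρ x ≤ s → ρ2 x ≤ s → ‖L j (f x) - g x‖ < ε / (C + 1) := fun j =>
    runge_rel hρ hc h2 ((L j).differentiable.comp_differentiableOn hf) hs (by positivity)
  choose g hg hgb using h3
  refine ⟨fun x => ∑ j, g j x • b j, ?_, fun x hx1 hx2 => ?_⟩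
  · exact Differentiable.fun_sum (fun j _ => (hg j).smul_const (b j))
  · have h4 : f x = ∑ j, L j (f x) • b j := by
      conv_lhs => rw [← b.sum_repr (f x)]
      rfl
    have h5 : f x - ∑ j, g j x • b j = ∑ j, (L j (f x) - g j x) • b j := by
      conv_lhs => rw [h4]
      rw [← Finset.sum_sub_distrib]
      exact Finset.sum_congr rfl (fun j _ => by rw [sub_smul])
    rw [h5]
    calc ‖∑ j, (L j (f x) - g j x) • b j‖ ≤ ∑ j, ‖(L j (f x) - g j x) • b j‖ := norm_sum_le _ _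
      _ ≤ ∑ j, ε / (C + 1) * ‖b j‖ := by
        refine Finset.sum_le_sum (fun j _ => ?_)
        rw [norm_smul]
        exact mul_le_mul_of_nonneg_right (hgb j x hx1 hx2).le (norm_nonneg _)
      _ = ε / (C + 1) * C := by rw [← Finset.mul_sum]
      _ < ε := by
        rw [div_mul_eq_mul_div, div_lt_iff₀ (by positivity)]
        nlinarith

/-- Oka-Weil theorem -/
theorem oka_weil {F : Type} [NormedAddCommGroup F] [NormedSpace ℂ F] [FiniteDimensional ℂ F]
    {S U : Set E} (hS : PshConvex S) (hU : IsOpen U) (hSU : S ⊆ U) {f : E → F}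
    (hf : DifferentiableOn ℂ f U) {ε : ℝ} (hε : 0 < ε) :
    ∃ g : E → F, Differentiable ℂ g ∧ ∀ x ∈ S, ‖f x - g x‖ < ε := by
  obtain ⟨ρ, hρ, hc, hS0, hSU'⟩ := hS.2 U hU hSU
  obtain ⟨g, hg, hgb⟩ := runge_rel_vec hρ hc (hρ.on _) (f := f)
    (hf.mono (fun x (hx : ρ x < 1 ∧ ρ x < 1) => hSU' hx.1.le)) zero_lt_one hε
  exact ⟨g, hg, fun x hx => hgb x (hS0 hx).le (hS0 hx).le⟩

omit [FiniteDimensional ℂ E] in
/-- real affine functions are psh -/
private theorem runge_psh_affine (l : E →L[ℝ] ℝ) (c : ℝ) : Psh (fun y => l y + c) := by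
  refine ⟨l.contDiff.add contDiff_const, fun x v => ?_⟩
  rw [levi_add_const]
  have h1 : ∀ w : E, D2 (fun y => l y) x w w = 0 := by
    intro w
    unfold D2
    have h2 : (fun y => fderiv ℝ (fun y => l y) y w) = fun _ => l w := by
      funext y
      have : fderiv ℝ (fun y => l y) y = l := l.fderiv
      rw [this]
    rw [h2]
    simp
  unfold levi
  rw [h1, h1]
  simp

/-- compact convex sets are psh-convex -/
theorem pshConvex_of_convex {S : Set E} (hS : IsCompact S) (hc : Convex ℝ S) : PshConvex S := by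
  have hproper : ProperSpace E := FiniteDimensional.proper ℂ E
  refine ⟨hS, fun U hU hSU => ?_⟩
  rcases S.eq_empty_or_nonempty with rfl | ⟨a, haS⟩
  · refine ⟨fun _ => 2, ⟨contDiff_const, fun x v => (levi_const 2 x v).ge⟩, ?_, ?_, ?_⟩
    · have : {x : E | (2 : ℝ) ≤ 1} = ∅ := by
        ext x; simp
      rw [this]
      exact isCompact_empty
    · exact empty_subset _
    · intro x hx
      have : (2 : ℝ) ≤ 1 := hx
      norm_num at this
  obtain ⟨R, hR⟩ := hS.isBounded.subset_closedBall (0 : E)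
  have haR : ‖a‖ ≤ R := by simpa using hR haS
  -- the bad set
  set Kb : Set E := (closedBall (0 : E) (R + 1) \ U) ∪ sphere (0 : E) (R + 1) with hKb
  have hKbc : IsCompact Kb := ((isCompact_closedBall 0 (R + 1)).diff hU).union (isCompact_sphere _ _)
  have hKbS : ∀ x ∈ Kb, x ∉ S := by
    rintro x (hx | hx) hxS
    · exact hx.2 (hSU hxS)
    · have h1 : ‖x‖ = R + 1 := by simpa using hx
      have h2 : ‖x‖ ≤ R := by simpa using hR hxS
      linarith
  have hsep : ∀ x : E, ∃ (l : E →L[ℝ] ℝ) (u : ℝ), x ∈ Kb → ((∀ y ∈ S, l y < u) ∧ u < l x) := by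
    intro x
    by_cases hx : x ∈ Kb
    · obtain ⟨l, u, h1, h2⟩ := geometric_hahn_banach_closed_point hc hS.isClosed (hKbS x hx)
      exact ⟨l, u, fun _ => ⟨h1, h2⟩⟩
    · exact ⟨0, 0, fun h => absurd h hx⟩
  choose l u hlu using hsep
  obtain ⟨t, htK, htc⟩ := hKbc.elim_nhds_subcover (fun x => {y | u x < l x y})
    (fun x hx => (isOpen_lt continuous_const (l x).continuous).mem_nhds (hlu x hx).2)
  set Sg : E → ℝ := fun y => ∑ x ∈ t, OkaP.hc (l x y + (-u x)) with hSg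
  have hSgP : Psh Sg := Psh.sum t (fun x _ => (runge_psh_affine (l x) (-u x)).hc_comp)
  have hSgc : Continuous Sg := hSgP.smooth.continuous
  have hSgS : ∀ y ∈ S, Sg y = 0 := by
    intro y hy
    apply Finset.sum_eq_zero
    intro x hx
    apply hc_zero
    have := (hlu x (htK x hx)).1 y hy
    linarith
  have hSgK : ∀ y ∈ Kb, 0 < Sg y := by
    intro y hy
    obtain ⟨x, hx, hxy⟩ := mem_iUnion₂.mp (htc hy)
    refine Finset.sum_pos' (fun z _ => hc_nonneg _) ⟨x, hx, ?_⟩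
    apply hc_pos
    have : u x < l x y := hxy
    linarith
  obtain ⟨m0, hm0, hm0K⟩ := hKbc.exists_forall_le' hSgc.continuousOn hSgK
  -- outside the ball
  have hout : ∀ y : E, R + 1 < ‖y‖ → m0 ≤ Sg y := by
    intro y hy
    have hcont : ContinuousOn (fun τ : ℝ => ‖a + τ • (y - a)‖) (Icc (0 : ℝ) 1) := by
      fun_prop
    have hiv := intermediate_value_Icc (zero_le_one (α := ℝ)) hcont
    have hmem : R + 1 ∈ Icc (‖a + (0 : ℝ) • (y - a)‖) (‖a + (1 : ℝ) • (y - a)‖) := by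
      constructor
      · rw [zero_smul, add_zero]; linarith
      · rw [one_smul, add_sub_cancel]; exact hy.le
    obtain ⟨τ, hτ, hτe⟩ := hiv hmem
    set w : E := a + τ • (y - a) with hw
    have hwK : w ∈ Kb := Or.inr (by simpa using hτe)
    refine (hm0K w hwK).trans ?_
    refine Finset.sum_le_sum (fun x hx => ?_)
    have h1 : l x w = (1 - τ) * l x a + τ * l x y := by
      rw [hw, map_add, map_smul, map_sub, smul_eq_mul]
      ring
    have h2 : l x a < u x := (hlu x (htK x hx)).1 a haS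
    by_cases h3 : l x w + (-u x) ≤ 0
    · rw [hc_zero h3]
      exact hc_nonneg _
    · apply hc_mono
      have h4 : 0 < l x w + (-u x) := not_le.mp h3
      have h5 : l x w + (-u x) = (1 - τ) * (l x a - u x) + τ * (l x y - u x) := by
        rw [h1]; ring
      have h6 : (1 - τ) * (l x a - u x) ≤ 0 :=
        mul_nonpos_of_nonneg_of_nonpos (by linarith [hτ.2]) (by linarith)
      have h7 : 0 < τ * (l x y - u x) := by linarith
      have h8 : 0 < l x y - u x := by
        by_contra hneg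
        have := mul_nonpos_of_nonneg_of_nonpos hτ.1 (not_lt.mp hneg)
        linarith
      have h9 : τ * (l x y - u x) ≤ 1 * (l x y - u x) :=
        mul_le_mul_of_nonneg_right hτ.2 h8.le
      linarith
  -- the function
  have hsubset : {x | 4 / m0 * Sg x + (-1) ≤ 1} ⊆ closedBall (0 : E) (R + 1) ∩ U := by
    intro y hy
    have h1 : 4 / m0 * Sg y + (-1) ≤ 1 := hy
    have h2 : Sg y < m0 := by
      by_contra h3
      have h4 : m0 ≤ Sg y := not_lt.mp h3
      have h5 : 4 / m0 * m0 ≤ 4 / m0 * Sg y := mul_le_mul_of_nonneg_left h4 (by positivity)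
      rw [div_mul_cancel₀ _ hm0.ne'] at h5
      linarith
    have h3 : ‖y‖ ≤ R + 1 := by
      by_contra h4
      exact absurd (hout y (not_le.mp h4)) (not_le.mpr h2)
    have h4 : y ∈ closedBall (0 : E) (R + 1) := by simpa using h3
    refine ⟨h4, ?_⟩
    by_contra h5
    exact absurd (hm0K y (Or.inl ⟨h4, h5⟩)) (not_le.mpr h2)
  have hPsh : Psh (fun y => 4 / m0 * Sg y + (-1)) := (hSgP.const_mul (by positivity)).add_const _
  refine ⟨fun y => 4 / m0 * Sg y + (-1), hPsh, ?_, ?_, ?_⟩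
  · exact (isCompact_closedBall (0 : E) (R + 1)).of_isClosed_subset
      (isClosed_le hPsh.smooth.continuous continuous_const) (fun y hy => (hsubset hy).1)
  · intro y hy
    show 4 / m0 * Sg y + (-1) < 0
    rw [hSgS y hy]
    norm_num
  · exact fun y hy => (hsubset hy).2

end OkaP
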