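import Pool.Agent.H.MP_ceb9a9.FDataDefs
import Pool.Agent.H.MP_ceb9a9.Runge
import Pool.Agent.H.MP_ceb9a9.Psh0

/-!
# MP_ceb9a9: existence of the data attached to a global map
-/

set_option autoImplicit false

open scoped Manifold

namespace OkaP

open Set Metric Topology

private theorem fexist_fam {m : ℕ} {X : Type} [MetricSpace X] [ChartedSpace (Fin m → ℂ) X]
    {p : X} {S : SigmaData m p} {R ε : ℝ} (T : ThetaData S R ε) {a : ℝ} (ha : 1 ≤ a) :
    Fam m T.Er {q | q.1 ∈ ball (0 : Fin m → ℂ) R ∧ ‖q.2‖ < T.r q.1 / a} := by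
  have hsub : ∀ q : (Fin m → ℂ) × (Fin m → ℂ), q.1 ∈ ball (0 : Fin m → ℂ) R →
      ‖q.2‖ < T.r q.1 / a → ‖q.2‖ < T.r q.1 := by
    intro q h1 h2
    exact h2.trans_le (div_le_self (T.r_pos _ h1).le ha)
  refine ⟨?_, ?_, ?_, ?_⟩
  · have h1 : ContinuousOn (fun q : (Fin m → ℂ) × (Fin m → ℂ) => (T.r q.1 / a - ‖q.2‖))
        (ball (0 : Fin m → ℂ) R ×ˢ univ) :=
      ((T.r_cont.comp continuousOn_fst (fun q hq => hq.1)).div_const a).sub
        (continuous_norm.comp continuous_snd).continuousOn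
    have h2 := h1.isOpen_inter_preimage (isOpen_ball.prod isOpen_univ) (isOpen_Ioi (a := (0 : ℝ)))
    convert h2 using 1
    ext q
    simp only [mem_ofPred_eq, mem_inter_iff, mem_prod, mem_univ, and_true, mem_preimage, mem_Ioi,
      sub_pos]
  · exact T.hol.mono (fun q hq => ⟨hq.1, hsub q hq.1 hq.2⟩)
  · exact fun z u v hu hv h => T.inj z hu.1 (mem_ball_zero_iff.2 (hsub (z, u) hu.1 hu.2))
      (mem_ball_zero_iff.2 (hsub (z, v) hv.1 hv.2)) h
  · exact fun z u hu => T.der z hu.1 u (mem_ball_zero_iff.2 (hsub (z, u) hu.1 hu.2))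

/-- the entire map `tt` close to `tK` -/
private theorem fexist_tt {m : ℕ} {E : Type} [NormedAddCommGroup E] [NormedSpace ℂ E]
    [FiniteDimensional ℂ E] {κ : E → ℝ} (hκ : Psh κ) (hκc : ∀ a : ℝ, IsCompact {x | κ x ≤ a})
    {tK : E → (Fin m → ℂ)} (htK : DifferentiableOn ℂ tK {x | κ x < 5 / 8}) {s4 : ℝ}
    (hs4 : s4 < 1 / 2) {ε : ℝ} (hε : 0 < ε) :
    ∃ tt : E → (Fin m → ℂ), Differentiable ℂ tt ∧ ∀ x, κ x ≤ s4 → ‖tK x - tt x‖ < ε := by
  have hρ : Psh (fun x => (8 / 5) * κ x) := hκ.const_mul (by norm_num)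
  have hc : IsCompact {x | (8 / 5) * κ x ≤ 1} := by
    convert hκc (5 / 8) using 1
    ext x
    constructor
    · intro (h : (8 / 5) * κ x ≤ 1)
      show κ x ≤ 5 / 8
      linarith
    · intro (h : κ x ≤ 5 / 8)
      show (8 / 5) * κ x ≤ 1
      linarith
  obtain ⟨g, hg, hgb⟩ := runge_rel_vec hρ hc (hρ.on _) (f := tK)
    (htK.mono (fun x (hx : (8 / 5) * κ x < 1 ∧ (8 / 5) * κ x < 1) => by
      show κ x < 5 / 8
      linarith [hx.1])) (s := (8 / 5) * s4) (by linarith) hε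
  exact ⟨g, hg, fun x hx => hgb x (by linarith) (by linarith)⟩

theorem exists_fdata {m : ℕ} {X : Type} [MetricSpace X] [ChartedSpace (Fin m → ℂ) X]
    [IsManifold 𝓘(ℂ, Fin m → ℂ) ⊤ X] {p : X} {S : SigmaData m p} {μ : ℝ → ℝ}
    (hμ : ∀ ε > 0, 0 < μ ε)
    (hT : ∀ R > S.c, ∀ ε > 0, ∃ T : ThetaData S R ε, ∀ ε' > 0, ∀ x,
      ∀ t ∈ ball (0 : Fin m → ℂ) R, ‖t‖ < μ ε' → ∀ s ∈ Icc (0 : ℝ) 1,
        dist (T.θ (x, t, s)) x ≤ ε')
    {E : Type} [NormedAddCommGroup E] [InnerProductSpace ℂ E] [FiniteDimensional ℂ E]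
    {κ : E → ℝ} (hκ : Psh κ) (hκc : ∀ a : ℝ, IsCompact {x | κ x ≤ a}) {fs : E → X}
    (D : LocData S {x | κ x ≤ 1} fs) {η : ℝ} (hη : 0 < η) :
    ∃ η0 > 0, ∀ (k : ℕ) (f1 f2 : E → X) (ηK : ℝ), 0 < ηK → ηK ≤ η0 →
      ∀ KS : KSideData D f1 f2 k ηK, Appr m κ f1 →
      ∀ s4 < 1 / 2, ∀ R' : ℝ, {x | κ x ≤ 1} ⊆ ball (0 : E) R' → ∀ ε1 > 0,
        ∃ ε2 ∈ Ioc (0 : ℝ) ε1, Nonempty (FData KS s4 R' η ε2) := by
  classical
  have hprop : ProperSpace E := FiniteDimensional.proper ℂ E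
  have hκcont : Continuous κ := hκ.smooth.continuous
  have hc := S.c_pos
  have hc1 := D.c1_pos
  have hc1' := D.c1_le
  have hr0 := D.r0_pos
  have hr1 := D.r1_pos
  have hr1' := D.r1_le
  -- the compact set `{κ ≤ 1/2}` and the family over it
  set K2 : Set E := {x | κ x ≤ 1 / 2} with hK2
  have hK2c : IsCompact K2 := hκc (1 / 2)
  have hK2U : K2 ⊆ D.U := fun x (hx : κ x ≤ 1 / 2) => D.K_U (show κ x ≤ 1 by linarith)
  have hEC : EtCont D.Φ D.U D.r0 := D.hol.toEtCont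
  -- step 1
  have hpb : EtCont (fun q : (E × ℝ) × (Fin m → ℂ) => D.Φ (q.1.1, q.2)) (D.U ×ˢ Icc (0 : ℝ) 1)
      D.r0 := hEC.pullback (a := fun q : E × ℝ => q.1) continuousOn_fst (fun q hq => hq.1)
  obtain ⟨eH, heH, hnear⟩ := hpb.near_map hr0 (K := K2 ×ˢ Icc (0 : ℝ) 1)
    (hK2c.prod isCompact_Icc) (prod_mono hK2U Subset.rfl) hη
  -- step 2
  obtain ⟨ρ0, hρ0, hρ0r, hrad⟩ := etD_uniform_radius (hEC.mono hK2U le_rfl) hr0 hK2c
    (ε := eH / 4) (by linarith)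
  have hμ4 := hμ (eH / 4) (by linarith)
  set η0 : ℝ := min (min (η / 2) (μ (eH / 4) / 2)) (min (ρ0 / 2) (D.r1 / 2)) with hη0
  have hη0a : η0 ≤ η / 2 := (min_le_left _ _).trans (min_le_left _ _)
  have hη0b : η0 ≤ μ (eH / 4) / 2 := (min_le_left _ _).trans (min_le_right _ _)
  have hη0c : η0 ≤ ρ0 / 2 := (min_le_right _ _).trans (min_le_left _ _)
  have hη0d : η0 ≤ D.r1 / 2 := (min_le_right _ _).trans (min_le_right _ _)
  have hη0pos : 0 < η0 := by
    refine lt_min (lt_min ?_ ?_) (lt_min ?_ ?_) <;> linarith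
  refine ⟨η0, hη0pos, ?_⟩
  intro k f1 f2 ηK hηK hηK0 KS hA s4 hs4 R' hR' ε1 hε1
  set ε2 : ℝ := min ε1 (min (η / 4) (μ (eH / 4) / 4)) with hε2
  have hε2a : ε2 ≤ ε1 := min_le_left _ _
  have hε2b : ε2 ≤ η / 4 := (min_le_right _ _).trans (min_le_left _ _)
  have hε2c : ε2 ≤ μ (eH / 4) / 4 := (min_le_right _ _).trans (min_le_right _ _)
  have hε2pos : 0 < ε2 := lt_min hε1 (lt_min (by linarith) (by linarith))
  refine ⟨ε2, ⟨hε2pos, hε2a⟩, ?_⟩
  -- the set `{κ < s4}`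
  have hs4K2 : ∀ x, κ x < s4 → x ∈ K2 := fun x hx => show κ x ≤ 1 / 2 by linarith
  have hs4o : IsOpen {x | κ x < s4} := isOpen_lt hκcont continuous_const
  -- tt
  obtain ⟨tt, htt, httb⟩ := fexist_tt hκ hκc KS.tK_hol hs4 hε2pos
  have htt1 : ∀ x, κ x < s4 → ‖tt x - KS.tK x‖ ≤ ε2 := by
    intro x hx
    rw [norm_sub_rev]
    exact (httb x hx.le).le
  have htt2 : ∀ x, κ x < s4 → ‖tt x‖ ≤ ηK + ε2 := by
    intro x hx
    have h1 : tt x = (tt x - KS.tK x) + KS.tK x := by abel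
    rw [h1]
    refine (norm_add_le _ _).trans ?_
    linarith [htt1 x hx, KS.tK_le x (by linarith)]
  -- c1f
  have hc1f : ∀ x, κ x ≤ 1 / 2 → ‖KS.c1f x‖ ≤ ηK ∧ D.Φ (x, KS.c1f x) = f1 x :=
    fun x hx => KS.c1f_spec x (by linarith)
  have hC1 : IsCompact ((fun x => (x, KS.c1f x)) '' K2) := by
    refine hK2c.image_of_continuousOn ?_
    refine continuousOn_id.prodMk (KS.c1f_hol.continuousOn.mono ?_)
    intro x (hx : κ x ≤ 1 / 2)
    show κ x < 5 / 8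
    linarith
  have hC1D : (fun x => (x, KS.c1f x)) '' K2 ⊆ D.U ×ˢ ball (0 : Fin m → ℂ) D.r0 := by
    rintro _ ⟨x, hx, rfl⟩
    exact ⟨hK2U hx, mem_ball_zero_iff.2 (by linarith [(hc1f x hx).1])⟩
  obtain ⟨d1, hd1, hsolve⟩ := (Fam.of_etHol D.U_open D.hol).solve hC1 hC1D hε2pos
  -- charts
  have hcb : closedBall (0 : Fin m → ℂ) (2 * D.c1) ⊆ S.e.target := by
    refine (closedBall_subset_ball ?_).trans S.target
    linarith
  have hC2 : IsCompact (S.e.symm '' closedBall (0 : Fin m → ℂ) (2 * D.c1)) :=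
    (isCompact_closedBall _ _).image_of_continuousOn (S.e.continuousOn_symm.mono hcb)
  have hC2s : S.e.symm '' closedBall (0 : Fin m → ℂ) (2 * D.c1) ⊆ S.e.source := by
    rintro _ ⟨z, hz, rfl⟩
    exact S.e.map_target (hcb hz)
  obtain ⟨d2, hd2, hchart⟩ := chart_near S.e hC2 hC2s hε2pos
  -- F
  obtain ⟨V1, F, hV1, hV1R, hF, hFd⟩ := hA R' s4 hs4 (min (min d1 d2) (eH / 4))
    (lt_min (lt_min hd1 hd2) (by linarith))
  have hFd1 : ∀ x, κ x ≤ s4 → dist (F x) (f1 x) < d1 :=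
    fun x hx => (hFd x hx).trans_le ((min_le_left _ _).trans (min_le_left _ _))
  have hFd2 : ∀ x, κ x ≤ s4 → dist (F x) (f1 x) < d2 :=
    fun x hx => (hFd x hx).trans_le ((min_le_left _ _).trans (min_le_right _ _))
  have hFd3 : ∀ x, κ x ≤ s4 → dist (F x) (f1 x) < eH / 4 :=
    fun x hx => (hFd x hx).trans_le (min_le_right _ _)
  set UF : Set E := V1 ∩ ball (0 : E) (R' + 1) with hUF
  have hUFo : IsOpen UF := hV1.inter isOpen_ball
  have hUFsub : closedBall (0 : E) R' ⊆ UF :=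
    fun x hx => ⟨hV1R hx, closedBall_subset_ball (by linarith) hx⟩
  have hs4UF : {x | κ x < s4} ⊆ UF := by
    intro x (hx : κ x < s4)
    exact hUFsub (ball_subset_closedBall (hR' (show κ x ≤ 1 by linarith)))
  have hFUF : HolOn m F UF := hF.mono inter_subset_left
  -- R
  have hM : ∃ M : ℝ, 0 ≤ M ∧ ∀ x ∈ closedBall (0 : E) (R' + 1), ‖tt x‖ ≤ M := by
    obtain ⟨M, hM⟩ := (isCompact_closedBall (0 : E) (R' + 1)).exists_bound_of_continuousOn
      htt.continuous.continuousOn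
    exact ⟨max M 0, le_max_right _ _, fun x hx => (hM x hx).trans (le_max_left _ _)⟩
  obtain ⟨M, hM0, hM⟩ := hM
  set R : ℝ := S.c + 1 + M with hR
  have hRc : S.c < R := by linarith
  obtain ⟨T, hTθ⟩ := hT R hRc ε2 hε2pos
  have httR : ∀ x ∈ UF, ‖tt x‖ < R := by
    intro x hx
    have := hM x (ball_subset_closedBall hx.2)
    linarith
  have httR' : ∀ x ∈ UF, tt x ∈ ball (0 : Fin m → ℂ) R := fun x hx => mem_ball_zero_iff.2 (httR x hx)
  -- N
  have hfam := fexist_fam T (a := 4) (by norm_num)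
  set N : Set E := {x | x ∈ UF ∧ ∃ u : Fin m → ℂ, ‖u‖ < T.r (tt x) / 4 ∧ T.Er (tt x, u) = F x}
    with hN
  have hNo : IsOpen N := by
    have h1 : ContinuousOn (fun x => (tt x, F x)) UF :=
      htt.continuous.continuousOn.prodMk hFUF.continuousOn
    have h2 := h1.isOpen_inter_preimage hUFo hfam.isOpen_image
    convert h2 using 1
    ext x
    constructor
    · rintro ⟨hx, u, hu1, hu2⟩
      exact ⟨hx, (tt x, u), ⟨httR' x hx, hu1⟩, Prod.ext rfl hu2⟩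
    · rintro ⟨hx, ⟨t, u⟩, ⟨_, hu1⟩, he⟩
      have he1 : t = tt x := congrArg Prod.fst he
      have he2 : T.Er (t, u) = F x := congrArg Prod.snd he
      subst he1
      exact ⟨hx, u, hu1, he2⟩
  have hsel : ∀ x : E, ∃ u : Fin m → ℂ, x ∈ N →
      ‖u‖ < T.r (tt x) / 4 ∧ T.Er (tt x, u) = F x := by
    intro x
    by_cases hx : x ∈ N
    · obtain ⟨u, hu⟩ := hx.2
      exact ⟨u, fun _ => hu⟩
    · exact ⟨0, fun h => absurd h hx⟩
  choose û hû using hsel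
  have hNUF : N ⊆ UF := fun x hx => hx.1
  have hûhol : DifferentiableOn ℂ û N := by
    refine hfam.solve_hol hNo htt.differentiableOn (hFUF.mono hNUF) ?_
    intro x hx
    exact ⟨⟨httR' x (hNUF hx), (hû x hx).1⟩, (hû x hx).2⟩
  -- cF
  obtain ⟨cF, hcFhol, hcF⟩ := hsolve E {x | κ x < s4} id F KS.c1f hs4o differentiableOn_id
    (hFUF.mono hs4UF) (by
      intro x (hx : κ x < s4)
      refine ⟨⟨x, hs4K2 x hx, rfl⟩, ?_⟩
      show dist (D.Φ (x, KS.c1f x)) (F x) < d1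
      rw [(hc1f x (hs4K2 x hx)).2, dist_comm]
      exact hFd1 x hx.le)
  -- cH
  have hgcont : ContinuousOn (fun q : E × ℝ => T.θ (F q.1, tt q.1, q.2))
      ({x | κ x < s4} ×ˢ Icc (0 : ℝ) 1) := by
    refine T.θ_cont.comp (f := fun q : E × ℝ => (F q.1, tt q.1, q.2)) ?_ ?_
    · refine ContinuousOn.prodMk ?_ ?_
      · exact (hFUF.continuousOn.mono hs4UF).comp continuousOn_fst (fun q hq => hq.1)
      · exact ((htt.continuous.comp continuous_fst).prodMk continuous_snd).continuousOn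
    · rintro ⟨x, s⟩ ⟨hx, hs⟩
      exact ⟨mem_univ _, httR' x (hs4UF hx), hs⟩
  obtain ⟨cH, hcHcont, hcH⟩ := hnear ({x | κ x < s4} ×ˢ Icc (0 : ℝ) 1)
    (fun q : E × ℝ => T.θ (F q.1, tt q.1, q.2)) (prod_mono (fun x hx => hs4K2 x hx) Subset.rfl)
    hgcont (by
      rintro ⟨x, s⟩ ⟨hx, hs⟩
      have hx' : κ x < s4 := hx
      have hxK : x ∈ K2 := hs4K2 x hx'
      show dist (D.Φ (x, 0)) (T.θ (F x, tt x, s)) < eH
      have hc1x := hc1f x hxK
      have h1 : dist (D.Φ (x, 0)) (f1 x) < eH / 4 := by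
        rw [← hc1x.2]
        exact hrad x hxK (KS.c1f x) (mem_ball_zero_iff.2 (by linarith [hc1x.1]))
      have h2 : dist (f1 x) (F x) < eH / 4 := by
        rw [dist_comm]
        exact hFd3 x hx'.le
      have h3 : dist (F x) (T.θ (F x, tt x, s)) ≤ eH / 4 := by
        rw [dist_comm]
        refine hTθ (eH / 4) (by linarith) (F x) (tt x) (httR' x (hs4UF hx')) ?_ s hs
        linarith [htt2 x hx']
      have h4 := dist_triangle4 (D.Φ (x, 0)) (f1 x) (F x) (T.θ (F x, tt x, s))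
      linarith)
  refine ⟨{ F := F, UF := UF, R := R, T := T, tt := tt, N := N, û := û, cF := cF, cH := cH,
            UF_open := hUFo, UF_sub := hUFsub, F_hol := hFUF, R_gt := hRc, tt_hol := htt,
            tt_le := httR, tt_small := ?_, tt_close := htt1, s4_UF := hs4UF, cF_hol := hcFhol,
            cF_spec := ?_, F_near := ?_, N_open := hNo, N_UF := hNUF, û_hol := hûhol,
            û_spec := hû, N_mem := ?_, cH_cont := hcHcont, cH_spec := ?_ }⟩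
  · intro x hx
    have := htt2 x hx
    linarith
  · intro x hx
    obtain ⟨h1, h2, h3⟩ := hcF x hx
    refine ⟨?_, h1.le, h3⟩
    have h4 : cF x = (cF x - KS.c1f x) + KS.c1f x := by abel
    rw [h4]
    refine (norm_add_le _ _).trans ?_
    linarith [(hc1f x (hs4K2 x hx)).1]
  · intro x hx hxV
    have hc1x := hc1f x (hs4K2 x hx)
    have hZ := D.Z_spec x hxV.1 hxV.2.1 hxV.2.2 (KS.c1f x) (mem_ball_zero_iff.2 (by linarith))
    rw [hc1x.2] at hZ
    have h1 : f1 x ∈ S.e.symm '' closedBall (0 : Fin m → ℂ) (2 * D.c1) :=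
      ⟨S.e (f1 x), mem_closedBall_zero_iff.2 hZ.2.le, S.e.left_inv hZ.1⟩
    have h2 := hchart (f1 x) h1 (F x) (by rw [dist_comm]; exact hFd2 x hx.le)
    refine ⟨h2.1, ?_⟩
    rw [norm_sub_rev]
    exact h2.2.le
  · intro x hx u hu he
    exact ⟨hx, u, hu, he⟩
  · intro x hx s hs
    obtain ⟨h1, h2, h3⟩ := hcH (x, s) ⟨hx, hs⟩
    exact ⟨h2.le, h3⟩

end OkaP
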