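import Pool.Agent.H.MP_ceb9a9.FDataDefs

/-!
# MP_ceb9a9: the coordinate `û` over the convex set, the tube
-/

set_option autoImplicit false

open scoped Manifold

namespace OkaP

open Set Metric Topology

private theorem fgeom_fam {m : ℕ} {X : Type} [MetricSpace X] [ChartedSpace (Fin m → ℂ) X]
    {p : X} {S : SigmaData m p} {R ε : ℝ} (T : ThetaData S R ε) :
    Fam m T.Er {q | q.1 ∈ ball (0 : Fin m → ℂ) R ∧ ‖q.2‖ < T.r q.1} where
  isOpen := by
    have h1 : ContinuousOn (fun q : (Fin m → ℂ) × (Fin m → ℂ) => (T.r q.1 - ‖q.2‖))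
        (ball (0 : Fin m → ℂ) R ×ˢ univ) :=
      (T.r_cont.comp continuousOn_fst (fun q hq => hq.1)).sub
        (continuous_norm.comp continuous_snd).continuousOn
    have h2 := h1.isOpen_inter_preimage (isOpen_ball.prod isOpen_univ) (isOpen_Ioi (a := (0 : ℝ)))
    convert h2 using 1
    ext q
    simp only [mem_setOf_eq, mem_inter_iff, mem_prod, mem_univ, and_true, mem_preimage, mem_Ioi,
      sub_pos]
  hol := T.hol
  inj := fun z u v hu hv h => T.inj z hu.1 (mem_ball_zero_iff.2 hu.2) (mem_ball_zero_iff.2 hv.2) h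
  der := fun z u hu => T.der z hu.1 u (mem_ball_zero_iff.2 hu.2)

/-- local solution of `T.Er (t, u) = y` near `p` -/
private theorem fgeom_solve {m : ℕ} {X : Type} [MetricSpace X] [ChartedSpace (Fin m → ℂ) X]
    {p : X} {S : SigmaData m p} {R ε : ℝ} (T : ThetaData S R ε) (hR : S.c < R)
    (hε : 0 < ε) (hε' : ε ≤ S.c / 8) {t : Fin m → ℂ} (ht : ‖t‖ < S.c) {y : X}
    (hy : y ∈ S.e.source) (hyt : ‖S.e y - t‖ < S.c / 2 - ε) :
    ∃ u : Fin m → ℂ, ‖u - (S.e y - t)‖ ≤ ε ∧ ‖u‖ < S.c ∧ T.Er (t, u) = y := by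
  have hc := S.c_pos
  have htR : t ∈ ball (0 : Fin m → ℂ) R := mem_ball_zero_iff.2 (ht.trans hR)
  have htc : t ∈ ball (0 : Fin m → ℂ) S.c := mem_ball_zero_iff.2 ht
  have hhol : HolOn m (fun u => T.Er (t, u)) (ball (0 : Fin m → ℂ) S.c) := by
    refine HolOn.comp (g := fun u : Fin m → ℂ => (t, u)) T.hol
      ((differentiable_const t).prodMk differentiable_id).differentiableOn ?_
    intro u hu
    refine ⟨htR, ?_⟩
    show ‖u‖ < T.r t
    rw [T.r_c t htc]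
    exact mem_ball_zero_iff.1 hu
  have hsrc : ∀ u ∈ ball (0 : Fin m → ℂ) S.c, T.Er (t, u) ∈ S.e.source :=
    fun u hu => (T.close t htc u hu).1
  have hd : DifferentiableOn ℂ (fun u => S.e (T.Er (t, u)) - t) (ball (0 : Fin m → ℂ) S.c) := by
    refine DifferentiableOn.sub ?_ (differentiableOn_const _)
    refine (hhol.hchart S.chart).mono ?_
    intro u hu
    exact ⟨hu, hsrc u hu⟩
  have hn := (near_id (f := fun u => S.e (T.Er (t, u)) - t) (a := 0) hc hε.le hε' hd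
    (fun u hu => by
      have h1 := (T.close t htc u hu).2
      have h2 : S.e (T.Er (t, u)) - t - u = S.e (T.Er (t, u)) - (t + u) := by abel
      rw [h2]
      exact h1)).2.2.2
  obtain ⟨u, hu1, hu2, hu3⟩ := hn (S.e y - t) (mem_ball_zero_iff.2 hyt)
  have huc : u ∈ ball (0 : Fin m → ℂ) S.c := ball_subset_ball (by linarith) hu1
  refine ⟨u, hu3, mem_ball_zero_iff.1 huc, ?_⟩
  refine S.e.injOn (hsrc u huc) hy ?_
  simpa using hu2

variable {m : ℕ} {X : Type} [MetricSpace X] [ChartedSpace (Fin m → ℂ) X]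
  [IsManifold 𝓘(ℂ, Fin m → ℂ) ⊤ X] {p : X} {S : SigmaData m p} {E : Type}
  [NormedAddCommGroup E] [NormedSpace ℂ E] [FiniteDimensional ℂ E] {κ : E → ℝ}
  {fs f1 f2 : E → X} {D : LocData S {x | κ x ≤ 1} fs} {k : ℕ} {ηK : ℝ}
  {KS : KSideData D f1 f2 k ηK} {s4 R' η ε1 : ℝ}

/-- solving `T.Er (tt x, u) = Φ (x, v)` near the `p`-locus over the convex set: `u` is close to
`e (Φ (x, v)) - tt x`. -/
theorem FData.exists_U (A : FData KS s4 R' η ε1) (hκ : Continuous κ) (hηK : ηK ≤ D.c1 / 8) (hη : η ≤ D.c1 / 8)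
    (hε : ε1 ≤ D.c1 / 8) (hε0 : 0 < ε1) (hs4 : s4 ≤ 1 / 2) :
    ∃ U1 : E × (Fin m → ℂ) → (Fin m → ℂ),
      DifferentiableOn ℂ U1 (({x | κ x < s4} ∩ D.V D.c1) ×ˢ ball (0 : Fin m → ℂ) D.r1) ∧
      ∀ x, κ x < s4 → x ∈ D.V D.c1 → ∀ v ∈ ball (0 : Fin m → ℂ) D.r1,
        A.T.Er (A.tt x, U1 (x, v)) = D.Φ (x, v) ∧
        ‖U1 (x, v) - (S.e (D.Φ (x, v)) - A.tt x)‖ ≤ ε1 ∧ ‖U1 (x, v)‖ < 3 * D.c1 := by
  classical
  have hc1 := D.c1_pos
  have hc1' := D.c1_le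
  have hc := S.c_pos
  have hr0 := D.r0_pos
  have hr1 := D.r1_le
  have key : ∀ q : E × (Fin m → ℂ), ∃ u : Fin m → ℂ,
      (κ q.1 < s4 ∧ q.1 ∈ D.V D.c1 ∧ q.2 ∈ ball (0 : Fin m → ℂ) D.r1) →
      A.T.Er (A.tt q.1, u) = D.Φ q ∧ ‖u - (S.e (D.Φ q) - A.tt q.1)‖ ≤ ε1 ∧ ‖u‖ < 3 * D.c1 := by
    rintro ⟨x, v⟩
    by_cases hq : κ x < s4 ∧ x ∈ D.V D.c1 ∧ v ∈ ball (0 : Fin m → ℂ) D.r1
    · obtain ⟨h1, h2, h3⟩ := hq
      have hZ := D.Z_spec x h2.1 h2.2.1 h2.2.2 v h3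
      have ht := A.tt_small x h1
      have h4 : ‖S.e (D.Φ (x, v)) - A.tt x‖ < 2 * D.c1 + D.c1 / 8 := by
        refine (norm_sub_le _ _).trans_lt ?_
        linarith [hZ.2]
      obtain ⟨u, hu1, hu2, hu3⟩ := fgeom_solve A.T A.R_gt hε0 (by linarith) (t := A.tt x)
        (by linarith) hZ.1 (by linarith)
      refine ⟨u, fun _ => ⟨hu3, hu1, ?_⟩⟩
      have h5 : u = (u - (S.e (D.Φ (x, v)) - A.tt x)) + (S.e (D.Φ (x, v)) - A.tt x) := by abel
      rw [h5]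
      refine (norm_add_le _ _).trans_lt ?_
      linarith
    · exact ⟨0, fun h => absurd h hq⟩
  choose U1 hU1 using key
  refine ⟨U1, ?_, fun x hx1 hx2 v hv => hU1 (x, v) ⟨hx1, hx2, hv⟩⟩
  refine (fgeom_fam A.T).solve_hol
    (((isOpen_lt hκ continuous_const).inter (D.V_open D.c1)).prod isOpen_ball)
    (ζ := fun q : E × (Fin m → ℂ) => A.tt q.1) (h := D.Φ) ?_ ?_ ?_
  · exact (A.tt_hol.comp differentiable_fst).differentiableOn
  · refine D.hol.hol.mono ?_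
    rintro ⟨x, v⟩ ⟨hx, hv⟩
    exact ⟨hx.2.1, ball_subset_ball (by linarith) hv⟩
  · rintro ⟨x, v⟩ ⟨hx, hv⟩
    have h := hU1 (x, v) ⟨hx.1, hx.2, hv⟩
    have ht := A.tt_small x hx.1
    refine ⟨⟨mem_ball_zero_iff.2 ?_, ?_⟩, h.1⟩
    · show ‖A.tt x‖ < A.R
      linarith [A.R_gt]
    · show ‖U1 (x, v)‖ < A.T.r (A.tt x)
      rw [A.T.r_c _ (mem_ball_zero_iff.2 (by linarith))]
      linarith [h.2.2]

/-- `û` over the convex set -/
theorem FData.û_K (A : FData KS s4 R' η ε1) (hκ : Continuous κ) (hηK : ηK ≤ D.c1 / 8) (hη : η ≤ D.c1 / 8)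
    (hηr : η < D.r1) (hε : ε1 ≤ D.c1 / 8) (hε0 : 0 < ε1) (hs4 : s4 ≤ 1 / 2) (hk : 1 ≤ k) :
    (∀ x, κ x < s4 → x ∈ D.V (D.c1 / 2) → x ∈ A.N ∧
      ‖A.û x - S.e (f2 x)‖ ≤ 4 * ε1 + ηK * ‖S.e (f2 x)‖ ^ k) ∧
    (∀ x, κ x < s4 → x ∈ A.N → ‖A.û x‖ < D.c1 / 8 → x ∈ D.V (D.c1 / 2)) := by
  have hc1 := D.c1_pos
  have hc1' := D.c1_le
  have hc := S.c_pos
  have hr0 := D.r0_pos
  have hr1 := D.r1_le
  obtain ⟨U1, -, hU1⟩ := A.exists_U hκ hηK hη hε hε0 hs4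
  have htt : ∀ x, κ x < s4 → A.tt x ∈ ball (0 : Fin m → ℂ) S.c := by
    intro x hx
    have := A.tt_small x hx
    exact mem_ball_zero_iff.2 (by linarith)
  constructor
  · intro x hx hxV
    have hxV1 : x ∈ D.V D.c1 := ⟨hxV.1, hxV.2.1, hxV.2.2.trans_le (by linarith)⟩
    obtain ⟨hcF1, -, hcF3⟩ := A.cF_spec x hx
    have hcF : A.cF x ∈ ball (0 : Fin m → ℂ) D.r1 := mem_ball_zero_iff.2 (by linarith)
    obtain ⟨h1, h2, h3⟩ := hU1 x hx hxV1 (A.cF x) hcF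
    rw [hcF3] at h1 h2
    have hr : A.T.r (A.tt x) = S.c := A.T.r_c _ (htt x hx)
    have hxUF : x ∈ A.UF := A.s4_UF hx
    have hN : x ∈ A.N := A.N_mem x hxUF (U1 (x, A.cF x)) (by rw [hr]; linarith) h1
    have hsp := A.û_spec x hN
    have htR : A.tt x ∈ ball (0 : Fin m → ℂ) A.R := mem_ball_zero_iff.2 (A.tt_le x hxUF)
    have heq : A.û x = U1 (x, A.cF x) := by
      refine A.T.inj (A.tt x) htR (mem_ball_zero_iff.2 ?_) (mem_ball_zero_iff.2 ?_) ?_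
      · have := hsp.1
        rw [hr] at this ⊢
        linarith
      · rw [hr]; linarith
      · show A.T.Er (A.tt x, A.û x) = A.T.Er (A.tt x, U1 (x, A.cF x))
        rw [hsp.2, h1]
    refine ⟨hN, ?_⟩
    rw [heq]
    have hF := (A.F_near x hx hxV1).2
    have hK := KS.tK_contact x (by linarith) hxV
    have ht := A.tt_close x hx
    have hsum : U1 (x, A.cF x) - S.e (f2 x) = (U1 (x, A.cF x) - (S.e (A.F x) - A.tt x))
        + (S.e (A.F x) - S.e (f1 x)) + (S.e (f1 x) - S.e (f2 x) - KS.tK x)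
        - (A.tt x - KS.tK x) := by abel
    rw [hsum]
    calc ‖(U1 (x, A.cF x) - (S.e (A.F x) - A.tt x))
        + (S.e (A.F x) - S.e (f1 x)) + (S.e (f1 x) - S.e (f2 x) - KS.tK x)
        - (A.tt x - KS.tK x)‖
        ≤ ‖(U1 (x, A.cF x) - (S.e (A.F x) - A.tt x))
        + (S.e (A.F x) - S.e (f1 x)) + (S.e (f1 x) - S.e (f2 x) - KS.tK x)‖
        + ‖A.tt x - KS.tK x‖ := norm_sub_le _ _
      _ ≤ (‖U1 (x, A.cF x) - (S.e (A.F x) - A.tt x)‖ + ‖S.e (A.F x) - S.e (f1 x)‖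
        + ‖S.e (f1 x) - S.e (f2 x) - KS.tK x‖) + ‖A.tt x - KS.tK x‖ := by
          gcongr
          exact norm_add₃_le
      _ ≤ 4 * ε1 + ηK * ‖S.e (f2 x)‖ ^ k := by linarith
  · intro x hx hN hu
    obtain ⟨hcF1, -, hcF3⟩ := A.cF_spec x hx
    have hcF : A.cF x ∈ ball (0 : Fin m → ℂ) D.r1 := mem_ball_zero_iff.2 (by linarith)
    have hsp := A.û_spec x hN
    have hcl := A.T.close (A.tt x) (htt x hx) (A.û x) (mem_ball_zero_iff.2 (by linarith))
    rw [hsp.2, ← hcF3] at hcl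
    have hxU : x ∈ D.U := D.K_U (show κ x ≤ 1 by linarith)
    have ht := A.tt_small x hx
    have hnorm : ‖S.e (D.Φ (x, A.cF x))‖ ≤ 3 * D.c1 / 8 := by
      have h1 : S.e (D.Φ (x, A.cF x)) = (S.e (D.Φ (x, A.cF x)) - (A.tt x + A.û x))
          + (A.tt x + A.û x) := by abel
      rw [h1]
      refine (norm_add_le _ _).trans ?_
      have h2 := norm_add_le (A.tt x) (A.û x)
      linarith [hcl.2]
    obtain ⟨h1, h2⟩ := D.near x hxU (A.cF x) hcF hcl.1 hnorm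
    exact ⟨hxU, h1, h2⟩

/-- compactness of closed tubes of small radius, and the tube is the zero set of `θ - p` -/
theorem FData.tube (A : FData KS s4 R' η ε1) :
    ∃ c > 0, c ≤ S.c / 16 ∧ ∀ c' ≤ c, IsCompact {x | x ∈ closedBall (0 : E) R' ∧ x ∈ A.N ∧ ‖A.û x‖ ≤ c'} := by
  have hprop : ProperSpace E := FiniteDimensional.proper ℂ E
  have hc := S.c_pos
  have hK : IsCompact (closedBall (0 : E) R') := isCompact_closedBall _ _
  have htR : ∀ x ∈ closedBall (0 : E) R', A.tt x ∈ ball (0 : Fin m → ℂ) A.R :=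
    fun x hx => mem_ball_zero_iff.2 (A.tt_le x (A.UF_sub hx))
  have hcont : ContinuousOn (fun x => A.T.r (A.tt x)) (closedBall (0 : E) R') :=
    A.T.r_cont.comp A.tt_hol.continuous.continuousOn htR
  have hmin : ∃ c5 > 0, ∀ x ∈ closedBall (0 : E) R', c5 ≤ A.T.r (A.tt x) := by
    rcases (closedBall (0 : E) R').eq_empty_or_nonempty with he | hne
    · exact ⟨1, one_pos, fun x hx => by rw [he] at hx; exact absurd hx (notMem_empty x)⟩
    · obtain ⟨x0, hx0, hx0'⟩ := hK.exists_isMinOn hne hcont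
      exact ⟨A.T.r (A.tt x0), A.T.r_pos _ (htR x0 hx0), fun x hx => hx0' hx⟩
  obtain ⟨c5, hc5, hmin⟩ := hmin
  refine ⟨min (c5 / 8) (S.c / 16), lt_min (by linarith) (by linarith), min_le_right _ _, ?_⟩
  intro c' hc'
  have hc'5 : c' ≤ c5 / 8 := hc'.trans (min_le_left _ _)
  set P : Set (E × (Fin m → ℂ)) := closedBall (0 : E) R' ×ˢ closedBall (0 : Fin m → ℂ) c' with hP
  have hPc : IsCompact P := hK.prod (isCompact_closedBall _ _)
  have hg : ContinuousOn (fun q : E × (Fin m → ℂ) => (A.T.Er (A.tt q.1, q.2), A.F q.1)) P := by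
    refine ContinuousOn.prodMk ?_ ?_
    · refine A.T.hol.continuousOn.comp (f := fun q : E × (Fin m → ℂ) => (A.tt q.1, q.2)) ?_ ?_
      · exact ((A.tt_hol.continuous.comp continuous_fst).prodMk continuous_snd).continuousOn
      · rintro ⟨x, u⟩ ⟨hx, hu⟩
        refine ⟨htR x hx, ?_⟩
        have h1 := mem_closedBall_zero_iff.1 hu
        have h2 := hmin x hx
        show ‖u‖ < A.T.r (A.tt x)
        linarith
    · exact A.F_hol.continuousOn.comp (f := fun q : E × (Fin m → ℂ) => q.1)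
        continuous_fst.continuousOn (fun q hq => A.UF_sub hq.1)
  have hcl : IsClosed (P ∩ (fun q : E × (Fin m → ℂ) => (A.T.Er (A.tt q.1, q.2), A.F q.1)) ⁻¹'
      {z : X × X | z.1 = z.2}) :=
    hg.preimage_isClosed_of_isClosed hPc.isClosed (isClosed_eq continuous_fst continuous_snd)
  have hC := hPc.of_isClosed_subset hcl inter_subset_left
  have himg := hC.image continuous_fst
  convert himg using 1
  ext x
  constructor
  · rintro ⟨hx, hN, hu⟩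
    exact ⟨(x, A.û x), ⟨⟨hx, mem_closedBall_zero_iff.2 hu⟩, (A.û_spec x hN).2⟩, rfl⟩
  · rintro ⟨⟨y, u⟩, ⟨⟨hy, hu⟩, he⟩, rfl⟩
    have hu' : ‖u‖ ≤ c' := mem_closedBall_zero_iff.1 hu
    have hy' : y ∈ closedBall (0 : E) R' := hy
    have he' : A.T.Er (A.tt y, u) = A.F y := he
    have h2 := hmin y hy'
    have hN : y ∈ A.N := A.N_mem y (A.UF_sub hy') u (by linarith) he'
    have hsp := A.û_spec y hN
    have heq : A.û y = u := by
      refine A.T.inj (A.tt y) (htR y hy') (mem_ball_zero_iff.2 (by linarith [hsp.1]))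
        (mem_ball_zero_iff.2 (by linarith)) ?_
      show A.T.Er (A.tt y, A.û y) = A.T.Er (A.tt y, u)
      rw [hsp.2, he']
    refine ⟨hy', hN, ?_⟩
    show ‖A.û y‖ ≤ c'
    rw [heq]
    exact hu'

theorem FData.θ_eq_p (A : FData KS s4 R' η ε1) {x : E} (hx : x ∈ A.UF) :
    A.T.θ (A.F x, A.tt x, 1) = p ↔ x ∈ A.N ∧ A.û x = 0 := by
  have htR : A.tt x ∈ ball (0 : Fin m → ℂ) A.R := mem_ball_zero_iff.2 (A.tt_le x hx)
  have hr := A.T.r_pos _ htR
  rw [A.T.θ_one _ _ htR]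
  constructor
  · intro h
    have h1 : A.T.Er (A.tt x, 0) = A.F x := by rw [A.T.base _ htR, h]
    have hN : x ∈ A.N := A.N_mem x hx 0 (by rw [norm_zero]; linarith) h1
    have hsp := A.û_spec x hN
    refine ⟨hN, ?_⟩
    refine A.T.inj (A.tt x) htR (mem_ball_zero_iff.2 (by linarith [hsp.1]))
      (mem_ball_self hr) ?_
    show A.T.Er (A.tt x, A.û x) = A.T.Er (A.tt x, 0)
    rw [hsp.2, h1]
  · rintro ⟨hN, h0⟩
    have hsp := (A.û_spec x hN).2
    rw [h0, A.T.base _ htR] at hsp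
    exact hsp.symm

theorem FData.θ_tube (A : FData KS s4 R' η ε1) {x : E} (hx : x ∈ A.N) {s : ℝ}
    (hs : s ∈ Icc (0 : ℝ) 1) :
    ‖A.û x‖ < A.T.r (((1 - s : ℝ) : ℂ) • A.tt x) ∧
      A.T.θ (A.F x, A.tt x, s) = A.T.Er (((1 - s : ℝ) : ℂ) • A.tt x, A.û x) := by
  have htR : A.tt x ∈ ball (0 : Fin m → ℂ) A.R := mem_ball_zero_iff.2 (A.tt_le x (A.N_UF hx))
  have hsp := A.û_spec x hx
  have h := A.T.θ_germ (A.tt x) htR s hs (A.û x) hsp.1
  rw [hsp.2] at h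
  exact h

end OkaP
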