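import Pool.Agent.H.MP_ceb9a9.Defs
import Pool.Agent.H.MP_ceb9a9.Near
import Pool.Agent.H.MP_ceb9a9.Scv6

set_option autoImplicit false
open Set Metric Filter
open scoped Topology Manifold

noncomputable section
namespace OkaP

variable {m : ℕ} {X : Type} [MetricSpace X] [ChartedSpace (Fin m → ℂ) X]
variable {E : Type} [NormedAddCommGroup E] [NormedSpace ℂ E]

/-- holomorphic family of charts over an open domain `D` of `E × ℂ^m` (not necessarily a product). -/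
structure Fam (m : ℕ) {X : Type} [MetricSpace X] [ChartedSpace (Fin m → ℂ) X]
    {E : Type} [NormedAddCommGroup E] [NormedSpace ℂ E]
    (S : E × (Fin m → ℂ) → X) (D : Set (E × (Fin m → ℂ))) : Prop where
  isOpen : IsOpen D
  hol : HolOn m S D
  inj : ∀ z u v, (z, u) ∈ D → (z, v) ∈ D → S (z, u) = S (z, v) → u = v
  der : ∀ z u, (z, u) ∈ D → Function.Bijective
    (mfderiv 𝓘(ℂ, Fin m → ℂ) 𝓘(ℂ, Fin m → ℂ) (fun v => S (z, v)) u)

theorem Fam.mono {S : E × (Fin m → ℂ) → X} {D D' : Set (E × (Fin m → ℂ))} (h : Fam m S D)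
    (hD' : IsOpen D') (hs : D' ⊆ D) : Fam m S D' :=
  ⟨hD', h.hol.mono hs, fun z u v hu hv => h.inj z u v (hs hu) (hs hv),
    fun z u hu => h.der z u (hs hu)⟩

theorem Fam.of_etHol {Φ : E × (Fin m → ℂ) → X} {U : Set E} {r : ℝ} (hU : IsOpen U)
    (h : EtHol Φ U r) : Fam m Φ (U ×ˢ ball (0 : Fin m → ℂ) r) :=
  ⟨hU.prod isOpen_ball, h.hol, fun z _ _ hu hv he => h.inj z hu.1 hu.2 hv.2 he,
    fun z u hu => h.der z hu.1 u hu.2⟩

theorem Fam_slice {S : E × (Fin m → ℂ) → X} {D : Set (E × (Fin m → ℂ))} (h : Fam m S D) (z : E) :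
    HolOn m (fun u => S (z, u)) {u | (z, u) ∈ D} :=
  HolOn.comp (g := fun u : Fin m → ℂ => (z, u)) h.hol
    ((differentiable_const z).prodMk differentiable_id).differentiableOn (fun _ hu => hu)

theorem Fam_slice_open {D : Set (E × (Fin m → ℂ))} (h : IsOpen D) (z : E) :
    IsOpen {u : Fin m → ℂ | (z, u) ∈ D} :=
  h.preimage (continuous_const.prodMk continuous_id)

theorem Fam.etHol {Φ : E × (Fin m → ℂ) → X} {U : Set E} {r : ℝ}
    (h : Fam m Φ (U ×ˢ ball (0 : Fin m → ℂ) r)) : EtHol Φ U r where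
  cont := h.hol.continuousOn
  fib := fun x hx => (Fam_slice h x).mono fun _ hu => ⟨hx, hu⟩
  inj := fun x hx _ hu _ hv he => h.inj x _ _ ⟨hx, hu⟩ ⟨hx, hv⟩ he
  der := fun x hx u hu => h.der x u ⟨hx, hu⟩
  hol := h.hol

/-- the derivative condition read in a chart. -/
theorem bijective_mfderiv_iff {φ : (Fin m → ℂ) → X} {u : Fin m → ℂ}
    {U : Set (Fin m → ℂ)} (hU : IsOpen U) (hu : u ∈ U) (hφ : HolOn m φ U)
    {e : OpenPartialHomeomorph X (Fin m → ℂ)} (he : HChart m e) (hs : φ u ∈ e.source) :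
    Function.Bijective (mfderiv 𝓘(ℂ, Fin m → ℂ) 𝓘(ℂ, Fin m → ℂ) φ u) ↔
      Function.Bijective (fderiv ℂ (fun v => e (φ v)) u) := by
  have h1 : MDifferentiableAt 𝓘(ℂ, Fin m → ℂ) 𝓘(ℂ, Fin m → ℂ) φ u :=
    (hφ u hu).mdifferentiableAt (hU.mem_nhds hu)
  have h2 : MDifferentiableAt 𝓘(ℂ, Fin m → ℂ) 𝓘(ℂ, Fin m → ℂ) e (φ u) := he.mdifferentiableAt hs
  have h3 := mfderiv_comp u h2 h1
  have h4 : fderiv ℂ (fun v => e (φ v)) u
      = mfderiv 𝓘(ℂ, Fin m → ℂ) 𝓘(ℂ, Fin m → ℂ) (e ∘ φ) u := by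
    rw [mfderiv_eq_fderiv]; rfl
  rw [h4, h3]
  exact (Function.Bijective.of_comp_iff' (he.mfderiv_bijective hs) _).symm

/-- precomposition with a fibrewise injective immersion. -/
theorem Fam.comp {S : E × (Fin m → ℂ) → X} {D D' : Set (E × (Fin m → ℂ))} (h : Fam m S D)
    {φ : E × (Fin m → ℂ) → (Fin m → ℂ)} (hD' : IsOpen D') (hφ : DifferentiableOn ℂ φ D')
    (hm : ∀ z u, (z, u) ∈ D' → (z, φ (z, u)) ∈ D)
    (hinj : ∀ z u v, (z, u) ∈ D' → (z, v) ∈ D' → φ (z, u) = φ (z, v) → u = v)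
    (hder : ∀ z u, (z, u) ∈ D' → Function.Bijective (fderiv ℂ (fun v => φ (z, v)) u)) :
    Fam m (fun x => S (x.1, φ x)) D' := by
  refine ⟨hD', ?_, ?_, ?_⟩
  · exact HolOn.comp (g := fun x : E × (Fin m → ℂ) => (x.1, φ x)) h.hol
      (differentiableOn_fst.prodMk hφ) (fun x hx => hm x.1 x.2 hx)
  · intro z u v hu hv he
    exact hinj z u v hu hv (h.inj z _ _ (hm z u hu) (hm z v hv) he)
  · intro z u hu
    have h1 : MDifferentiableAt 𝓘(ℂ, Fin m → ℂ) 𝓘(ℂ, Fin m → ℂ) (fun v => S (z, v)) (φ (z, u)) :=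
      (Fam_slice h z _ (hm z u hu)).mdifferentiableAt
        ((Fam_slice_open h.isOpen z).mem_nhds (hm z u hu))
    have h2 : DifferentiableAt ℂ (fun v => φ (z, v)) u := by
      have h3 : DifferentiableAt ℂ φ (z, u) := hφ.differentiableAt (hD'.mem_nhds hu)
      exact DifferentiableAt.comp u h3 ((differentiableAt_const z).prodMk differentiableAt_id)
    have h4 := mfderiv_comp u h1 h2.mdifferentiableAt
    have h5 : mfderiv 𝓘(ℂ, Fin m → ℂ) 𝓘(ℂ, Fin m → ℂ) (fun v => S (z, φ (z, v))) u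
      = mfderiv 𝓘(ℂ, Fin m → ℂ) 𝓘(ℂ, Fin m → ℂ) ((fun v => S (z, v)) ∘ (fun v => φ (z, v))) u := rfl
    show Function.Bijective
      (mfderiv 𝓘(ℂ, Fin m → ℂ) 𝓘(ℂ, Fin m → ℂ) (fun v => S (z, φ (z, v))) u)
    rw [h5, h4, mfderiv_eq_fderiv]
    exact (h.der z _ (hm z u hu)).comp (hder z u hu)

/-- near identity families of maps are fibrewise injective immersions on the half ball. -/
theorem fiber_near_id {φ : E × (Fin m → ℂ) → (Fin m → ℂ)} {W : Set E} {r δ : ℝ} (hr : 0 < r)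
    (hδ : 0 ≤ δ) (hδr : δ ≤ r / 8) (hφ : DifferentiableOn ℂ φ (W ×ˢ ball (0 : Fin m → ℂ) r))
    (hW : IsOpen W)
    (hn : ∀ z ∈ W, ∀ u ∈ ball (0 : Fin m → ℂ) r, ‖φ (z, u) - u‖ ≤ δ) :
    (∀ z ∈ W, InjOn (fun u => φ (z, u)) (ball (0 : Fin m → ℂ) (r / 2))) ∧
    (∀ z ∈ W, ∀ u ∈ ball (0 : Fin m → ℂ) (r / 2),
      Function.Bijective (fderiv ℂ (fun v => φ (z, v)) u)) := by
  have hd : ∀ z ∈ W, DifferentiableOn ℂ (fun u => φ (z, u)) (ball (0 : Fin m → ℂ) r) := by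
    intro z hz
    exact DifferentiableOn.comp (g := φ) (f := fun u : Fin m → ℂ => (z, u)) hφ
      ((differentiable_const z).prodMk differentiable_id).differentiableOn (fun u hu => ⟨hz, hu⟩)
  refine ⟨fun z hz => (near_id hr hδ hδr (hd z hz) (hn z hz)).1, fun z hz u hu => ?_⟩
  obtain ⟨A, hA⟩ := (near_id hr hδ hδr (hd z hz) (hn z hz)).2.1 u hu
  rw [← hA]
  exact A.bijective

end OkaP
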