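import Pool.Agent.H.MP_ceb9a9.FamSolve

set_option autoImplicit false
open Set Metric Filter
open scoped Topology Manifold

noncomputable section
namespace OkaP

variable {m : ℕ} {X : Type} [MetricSpace X] [ChartedSpace (Fin m → ℂ) X]
  [IsManifold 𝓘(ℂ, Fin m → ℂ) ⊤ X]
variable {E : Type} [NormedAddCommGroup E] [NormedSpace ℂ E] [FiniteDimensional ℂ E]

theorem FamCont_aux {S : E × (Fin m → ℂ) → X} {D : Set (E × (Fin m → ℂ))} (hS : Fam m S D)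
    {z₀ : E} {u₀ : Fin m → ℂ} (h0 : (z₀, u₀) ∈ D) {η : ℝ} (hη : 0 < η) :
    ∃ δ > 0, ∃ ε > 0, ∀ z, dist z z₀ ≤ δ → ∀ x : X, dist (S (z, u₀)) x < ε →
      ∃ v, ‖v - u₀‖ < η ∧ (z, v) ∈ D ∧ S (z, v) = x := by
  have hprop : ProperSpace E := FiniteDimensional.proper ℂ E
  have ho : IsOpen {z : E | (z, u₀) ∈ D} := hS.isOpen.preimage (Continuous.prodMk_left u₀)
  obtain ⟨δ, hδ, hδD⟩ := Metric.nhds_basis_closedBall.mem_iff.1 (ho.mem_nhds h0)
  obtain ⟨ε, hε, hn⟩ := hS.near (C := closedBall z₀ δ ×ˢ {u₀})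
    ((isCompact_closedBall _ _).prod isCompact_singleton)
    (fun x hx => by
      obtain ⟨z, u⟩ := x
      have h1 : u = u₀ := hx.2
      subst h1
      exact hδD hx.1) hη
  exact ⟨δ, hδ, ε, hε, fun z hz x hx => hn z u₀ ⟨hz, rfl⟩ x hx⟩

/-- solutions `u` of `S (ζ w, u w) = h w` are automatically continuous. -/
theorem Fam.solve_cont {S : E × (Fin m → ℂ) → X} {D : Set (E × (Fin m → ℂ))} (hS : Fam m S D)
    {T : Type} [TopologicalSpace T] {A : Set T} {ζ : T → E} (hζ : ContinuousOn ζ A) {h : T → X}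
    (hh : ContinuousOn h A) {u : T → (Fin m → ℂ)}
    (hu : ∀ w ∈ A, (ζ w, u w) ∈ D ∧ S (ζ w, u w) = h w) : ContinuousOn u A := by
  intro w0 hw0
  rw [ContinuousWithinAt, Metric.tendsto_nhds]
  intro η hη
  obtain ⟨δ, hδ, ε, hε, hn⟩ := FamCont_aux hS (hu w0 hw0).1 hη
  have hSc : ContinuousAt S (ζ w0, u w0) :=
    hS.hol.continuousOn.continuousAt (hS.isOpen.mem_nhds (hu w0 hw0).1)
  have h1 : Tendsto (fun w => dist (S (ζ w, u w0)) (h w)) (𝓝[A] w0)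
      (𝓝 (dist (S (ζ w0, u w0)) (h w0))) := by
    refine Tendsto.dist ?_ (hh w0 hw0)
    exact hSc.tendsto.comp ((hζ w0 hw0).prodMk_nhds tendsto_const_nhds)
  rw [(hu w0 hw0).2, dist_self] at h1
  have h2 : ∀ᶠ w in 𝓝[A] w0, dist (S (ζ w, u w0)) (h w) < ε := h1.eventually (gt_mem_nhds hε)
  have h3 : ∀ᶠ w in 𝓝[A] w0, dist (ζ w) (ζ w0) < δ := Metric.tendsto_nhds.1 (hζ w0 hw0) δ hδ
  filter_upwards [h2, h3, self_mem_nhdsWithin] with w hw2 hw3 hwA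
  obtain ⟨v, hv1, hv2, hv3⟩ := hn (ζ w) hw3.le (h w) hw2
  have : v = u w := hS.inj (ζ w) v (u w) hv2 (hu w hwA).1 (by rw [hv3, (hu w hwA).2])
  rw [← this, dist_eq_norm]
  exact hv1

/-- the image of an open part of the domain is open in `E × X`. -/
theorem Fam.isOpen_image {S : E × (Fin m → ℂ) → X} {D : Set (E × (Fin m → ℂ))} (hS : Fam m S D) :
    IsOpen ((fun x : E × (Fin m → ℂ) => (x.1, S x)) '' D) := by
  rw [isOpen_iff_mem_nhds]
  rintro _ ⟨⟨z0, u0⟩, h0, rfl⟩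
  obtain ⟨δ, hδ, ε, hε, hn⟩ := FamCont_aux hS h0 one_pos
  have hSc : ContinuousAt S (z0, u0) :=
    hS.hol.continuousOn.continuousAt (hS.isOpen.mem_nhds h0)
  have h1 : Tendsto (fun y : E × X => dist (S (y.1, u0)) y.2) (𝓝 (z0, S (z0, u0)))
      (𝓝 (dist (S (z0, u0)) (S (z0, u0)))) := by
    refine Tendsto.dist ?_ (continuous_snd.tendsto _)
    have h2 : Tendsto (fun y : E × X => (y.1, u0)) (𝓝 (z0, S (z0, u0))) (𝓝 (z0, u0)) :=
      (continuous_fst.tendsto (z0, S (z0, u0))).prodMk_nhds tendsto_const_nhds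
    exact hSc.tendsto.comp h2
  rw [dist_self] at h1
  have h2 : ∀ᶠ y in 𝓝 (z0, S (z0, u0)), dist (S (y.1, u0)) y.2 < ε :=
    h1.eventually (gt_mem_nhds hε)
  have h3 : ∀ᶠ y in 𝓝 (z0, S (z0, u0)), dist y.1 z0 < δ :=
    Metric.tendsto_nhds.1 (continuous_fst.tendsto (z0, S (z0, u0))) δ hδ
  filter_upwards [h2, h3] with y hy2 hy3
  obtain ⟨v, -, hv2, hv3⟩ := hn y.1 hy3.le y.2 hy2
  exact ⟨(y.1, v), hv2, Prod.ext rfl hv3⟩

end OkaP
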