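import Pool.Agent.H.MP_ceb9a9.FamSolve

set_option autoImplicit false
open Set Metric Filter
open scoped Topology Manifold

noncomputable section
namespace OkaP

variable {m : ℕ} {X : Type} [MetricSpace X] [ChartedSpace (Fin m → ℂ) X]
  [IsManifold 𝓘(ℂ, Fin m → ℂ) ⊤ X]
variable {E : Type} [NormedAddCommGroup E] [NormedSpace ℂ E] [FiniteDimensional ℂ E]

/-- local existence of families over a given core map. -/
theorem fam_local {U : Set E} (hU : IsOpen U) {h : E → X} (hh : HolOn m h U) {z₀ : E}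
    (hz : z₀ ∈ U) : ∃ (W : Set E) (r : ℝ) (S : E × (Fin m → ℂ) → X), IsOpen W ∧ z₀ ∈ W ∧ W ⊆ U ∧
      0 < r ∧ Fam m S (W ×ˢ ball (0 : Fin m → ℂ) r) ∧ ∀ z ∈ W, S (z, 0) = h z := by
  obtain ⟨e, he, hs⟩ := HChart.exists_at (m := m) (h z₀)
  obtain ⟨r, hr, hball⟩ := Metric.isOpen_iff.1 e.open_target (e (h z₀)) (e.map_source hs)
  have hVo : IsOpen (e.source ∩ e ⁻¹' ball (e (h z₀)) (r / 2)) :=
    e.isOpen_inter_preimage isOpen_ball
  let W : Set E := U ∩ h ⁻¹' (e.source ∩ e ⁻¹' ball (e (h z₀)) (r / 2))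
  have hWo : IsOpen W := isOpen_preimage_of_holOn hU hh hVo
  have hmem : ∀ z ∈ W, ∀ u ∈ ball (0 : Fin m → ℂ) (r / 2), e (h z) + u ∈ e.target := by
    intro z hz u hu
    apply hball
    have h1 : dist (e (h z)) (e (h z₀)) < r / 2 := hz.2.2
    rw [mem_ball, dist_zero_right] at hu
    rw [mem_ball, dist_eq_norm]
    rw [dist_eq_norm] at h1
    calc ‖e (h z) + u - e (h z₀)‖ = ‖(e (h z) - e (h z₀)) + u‖ := by congr 1; abel
      _ ≤ ‖e (h z) - e (h z₀)‖ + ‖u‖ := norm_add_le _ _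
      _ < r := by linarith
  have hde : DifferentiableOn ℂ (fun x => e (h x)) W :=
    (hh.hchart he).mono fun z hz => ⟨hz.1, hz.2.1⟩
  have hhol : HolOn m (fun x : E × (Fin m → ℂ) => e.symm (e (h x.1) + x.2))
      (W ×ˢ ball (0 : Fin m → ℂ) (r / 2)) := by
    refine holOn_symm he (φ := fun x : E × (Fin m → ℂ) => e (h x.1) + x.2) ?_ ?_
    · refine DifferentiableOn.add ?_ differentiableOn_snd
      exact DifferentiableOn.comp (g := fun x => e (h x)) (f := fun x : E × (Fin m → ℂ) => x.1)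
        hde differentiableOn_fst (fun x hx => hx.1)
    · intro x hx
      exact hmem x.1 hx.1 x.2 hx.2
  have hinv : ∀ z ∈ W, ∀ u ∈ ball (0 : Fin m → ℂ) (r / 2),
      e (e.symm (e (h z) + u)) = e (h z) + u := fun z hz u hu => e.right_inv (hmem z hz u hu)
  refine ⟨W, r / 2, fun x => e.symm (e (h x.1) + x.2), hWo, ⟨hz, hs, mem_ball_self (by positivity)⟩,
    inter_subset_left, by positivity, ⟨hWo.prod isOpen_ball, hhol, ?_, ?_⟩, ?_⟩
  · intro z u v hu hv heq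
    have h1 := hinv z hu.1 u hu.2
    have h2 := hinv z hv.1 v hv.2
    have h3 : e (e.symm (e (h z) + u)) = e (e.symm (e (h z) + v)) := congrArg e heq
    rw [h1, h2] at h3
    exact add_left_cancel h3
  · intro z u hu
    have hsl : HolOn m (fun v => e.symm (e (h z) + v)) (ball (0 : Fin m → ℂ) (r / 2)) :=
      HolOn.comp (g := fun v : Fin m → ℂ => (z, v)) hhol
        ((differentiable_const z).prodMk differentiable_id).differentiableOn
        (fun v hv => ⟨hu.1, hv⟩)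
    refine (bijective_mfderiv_iff isOpen_ball hu.2 hsl he
      (e.map_target (hmem z hu.1 u hu.2))).2 ?_
    have h1 : (fun v => e (e.symm (e (h z) + v))) =ᶠ[𝓝 u] fun v => e (h z) + v := by
      filter_upwards [isOpen_ball.mem_nhds hu.2] with v hv
      exact hinv z hu.1 v hv
    rw [h1.fderiv_eq, fderiv_const_add, fderiv_id']
    exact Function.bijective_id
  · intro z hz
    show e.symm (e (h z) + 0) = h z
    rw [add_zero, e.left_inv hz.2.1]

/-- comparison of two families with the same core over a compact set of base points. -/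
theorem fam_compare {SA SB : E × (Fin m → ℂ) → X} {DA DB : Set (E × (Fin m → ℂ))}
    (hA : Fam m SA DA) (hB : Fam m SB DB) {C W₀ : Set E} (hC : IsCompact C) (hW₀ : IsOpen W₀)
    (hCW : C ⊆ W₀) (h0 : ∀ z ∈ W₀, (z, 0) ∈ DA ∧ (z, 0) ∈ DB ∧ SA (z, 0) = SB (z, 0)) :
    ∃ (W : Set E) (r : ℝ) (N : E × (Fin m → ℂ) → (Fin m → ℂ)), IsOpen W ∧ C ⊆ W ∧ W ⊆ W₀ ∧ 0 < r ∧
      DifferentiableOn ℂ N (W ×ˢ ball (0 : Fin m → ℂ) r) ∧
      (∀ z ∈ W, ∀ u ∈ ball (0 : Fin m → ℂ) r,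
        (z, u) ∈ DA ∧ (z, N (z, u)) ∈ DB ∧ SB (z, N (z, u)) = SA (z, u)) ∧
      (∀ z ∈ W, N (z, 0) = 0) ∧
      (∀ z ∈ W, IsUnit (fderiv ℂ (fun v => N (z, v)) 0)) := by
  haveI : ProperSpace E := FiniteDimensional.proper ℂ E
  obtain ⟨C', hC', hCC', hC'W⟩ := exists_compact_between hC hW₀ hCW
  let CB : Set (E × (Fin m → ℂ)) := (fun z : E => (z, (0 : Fin m → ℂ))) '' C'
  have hCB : IsCompact CB := hC'.image (continuous_id.prodMk continuous_const)
  have hCBB : CB ⊆ DB := by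
    rintro _ ⟨z, hz, rfl⟩
    exact (h0 z (hC'W hz)).2.1
  have hCBA : CB ⊆ DA := by
    rintro _ ⟨z, hz, rfl⟩
    exact (h0 z (hC'W hz)).1
  obtain ⟨ε, hε, hsolve⟩ := hB.solve hCB hCBB one_pos
  obtain ⟨δ, hδ, hnear⟩ := map_near hA.isOpen hA.hol.continuousOn hCB hCBA hε
  have hdist : ∀ z : E, ∀ u ∈ ball (0 : Fin m → ℂ) δ,
      dist ((z, (0 : Fin m → ℂ)) : E × (Fin m → ℂ)) (z, u) < δ := by
    intro z u hu
    rw [Prod.dist_eq, max_lt_iff]
    refine ⟨by simpa using hδ, ?_⟩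
    rw [dist_comm]
    exact hu
  have hWsub : ∀ z ∈ interior C', ∀ u ∈ ball (0 : Fin m → ℂ) δ, (z, u) ∈ DA ∧
      dist (SA (z, 0)) (SA (z, u)) < ε := fun z hz u hu =>
    hnear (z, 0) ⟨z, interior_subset hz, rfl⟩ (z, u) (hdist z u hu)
  obtain ⟨N, hNd, hN⟩ := hsolve (E × (Fin m → ℂ)) (interior C' ×ˢ ball (0 : Fin m → ℂ) δ)
    Prod.fst SA (fun _ => 0) (isOpen_interior.prod isOpen_ball) differentiableOn_fst
    (hA.hol.mono fun x hx => (hWsub x.1 hx.1 x.2 hx.2).1) (by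
      rintro ⟨z, u⟩ ⟨hz, hu⟩
      refine ⟨⟨z, interior_subset hz, rfl⟩, ?_⟩
      have h1 := (hWsub z hz u hu).2
      rw [(h0 z (hC'W (interior_subset hz))).2.2] at h1
      exact h1)
  have hN0 : ∀ z ∈ interior C', N (z, 0) = 0 := by
    intro z hz
    have h1 := hN (z, 0) ⟨hz, mem_ball_self hδ⟩
    have h2 := h0 z (hC'W (interior_subset hz))
    exact hB.inj z _ _ h1.2.1 h2.2.1 (h1.2.2.trans h2.2.2)
  refine ⟨interior C', δ, N, isOpen_interior, hCC', interior_subset.trans hC'W, hδ, hNd, ?_, hN0, ?_⟩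
  · intro z hz u hu
    have h1 := hN (z, u) ⟨hz, hu⟩
    exact ⟨(hWsub z hz u hu).1, h1.2.1, h1.2.2⟩
  · intro z hz
    have hz0 := h0 z (hC'W (interior_subset hz))
    have hbA := hA.der z 0 hz0.1
    have hbB := hB.der z 0 hz0.2.1
    have h1 : MDifferentiableAt 𝓘(ℂ, Fin m → ℂ) 𝓘(ℂ, Fin m → ℂ) (fun v => SB (z, v)) (N (z, 0)) := by
      rw [hN0 z hz]
      exact (Fam_slice hB z _ hz0.2.1).mdifferentiableAt
        ((Fam_slice_open hB.isOpen z).mem_nhds hz0.2.1)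
    have h2 : DifferentiableAt ℂ (fun v => N (z, v)) 0 := by
      have h3 : DifferentiableAt ℂ N (z, 0) := hNd.differentiableAt
        ((isOpen_interior.prod isOpen_ball).mem_nhds ⟨hz, mem_ball_self hδ⟩)
      exact DifferentiableAt.comp (0 : Fin m → ℂ) h3
        ((differentiableAt_const z).prodMk differentiableAt_id)
    have h4 := mfderiv_comp (0 : Fin m → ℂ) h1 h2.mdifferentiableAt
    have h5 : (fun v => SA (z, v)) =ᶠ[𝓝 0] ((fun v => SB (z, v)) ∘ (fun v => N (z, v))) := by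
      filter_upwards [isOpen_ball.mem_nhds (mem_ball_self hδ)] with v hv
      exact (hN (z, v) ⟨hz, hv⟩).2.2.symm
    have h6 : mfderiv 𝓘(ℂ, Fin m → ℂ) 𝓘(ℂ, Fin m → ℂ) (fun v => SA (z, v)) 0
      = mfderiv 𝓘(ℂ, Fin m → ℂ) 𝓘(ℂ, Fin m → ℂ) ((fun v => SB (z, v)) ∘ (fun v => N (z, v))) 0 :=
      h5.mfderiv_eq
    rw [h6, h4, mfderiv_eq_fderiv] at hbA
    rw [← hN0 z hz] at hbB
    have h7 : Function.Bijective (fderiv ℂ (fun v => N (z, v)) 0) :=
      (Function.Bijective.of_comp_iff' hbB _).1 hbA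
    exact ContinuousLinearMap.isUnit_iff_bijective.2 h7

end OkaP
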