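import Pool.Agent.H.MP_ceb9a9.Fam

set_option autoImplicit false
open Set Metric Filter
open scoped Topology Manifold

noncomputable section
namespace OkaP

variable {m : ℕ} {X : Type} [MetricSpace X] [ChartedSpace (Fin m → ℂ) X]
  [IsManifold 𝓘(ℂ, Fin m → ℂ) ⊤ X]
variable {E : Type} [NormedAddCommGroup E] [NormedSpace ℂ E] [FiniteDimensional ℂ E]

/-- local model: `(z, u) ↦ (z, e (S (z, u)))` is a local homeomorphism with differentiable inverse. -/
theorem famSolve_loc {S : E × (Fin m → ℂ) → X} {D : Set (E × (Fin m → ℂ))} (hS : Fam m S D)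
    {c : E × (Fin m → ℂ)} (hc : c ∈ D) :
    ∃ (e : OpenPartialHomeomorph X (Fin m → ℂ))
      (Φ : OpenPartialHomeomorph (E × (Fin m → ℂ)) (E × (Fin m → ℂ))),
      HChart m e ∧ S c ∈ e.source ∧ c ∈ Φ.source ∧ Φ.source ⊆ D ∧
      (∀ p ∈ Φ.source, S p ∈ e.source) ∧ (∀ p ∈ Φ.source, Φ p = (p.1, e (S p))) ∧
      DifferentiableAt ℂ Φ.symm (c.1, e (S c)) := by
  obtain ⟨z0, u0⟩ := c
  obtain ⟨e, he, hs⟩ := HChart.exists_at (m := m) (S (z0, u0))
  set D0 : Set (E × (Fin m → ℂ)) := D ∩ S ⁻¹' e.source with hD0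
  have hD0o : IsOpen D0 := isOpen_preimage_of_holOn hS.isOpen hS.hol e.open_source
  have hc0 : (z0, u0) ∈ D0 := ⟨hc, hs⟩
  have hG : DifferentiableOn ℂ (fun p => e (S p)) D0 := hS.hol.hchart he
  set f : E × (Fin m → ℂ) → E × (Fin m → ℂ) := fun p => (p.1, e (S p)) with hf
  have hfd : DifferentiableOn ℂ f D0 := differentiableOn_fst.prodMk hG
  have hfc : ContDiffAt ℂ 1 f (z0, u0) := by
    have := contDiffOn_of_diff hD0o hfd 1
    exact (this.contDiffAt (hD0o.mem_nhds hc0))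
  set L : E × (Fin m → ℂ) →L[ℂ] (Fin m → ℂ) := fderiv ℂ (fun p => e (S p)) (z0, u0) with hL
  have hLd : HasFDerivAt (fun p => e (S p)) L (z0, u0) :=
    (hG.differentiableAt (hD0o.mem_nhds hc0)).hasFDerivAt
  set A : E × (Fin m → ℂ) →L[ℂ] E × (Fin m → ℂ) :=
    (ContinuousLinearMap.fst ℂ E (Fin m → ℂ)).prod L with hA
  have hAd : HasFDerivAt f A (z0, u0) := hasFDerivAt_fst.prodMk hLd
  -- the fibre derivative
  have hfib : HolOn m (fun v => S (z0, v)) {v | (z0, v) ∈ D} :=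
    HolOn.comp hS.hol (((differentiable_const z0).prodMk differentiable_id).differentiableOn)
      (fun v hv => hv)
  have hfo : IsOpen {v : Fin m → ℂ | (z0, v) ∈ D} :=
    hS.isOpen.preimage (Continuous.prodMk_right z0)
  have hbij : Function.Bijective (fderiv ℂ (fun v => e (S (z0, v))) u0) :=
    (bijective_mfderiv_iff hfo (show u0 ∈ {v | (z0, v) ∈ D} from hc) hfib he hs).1
      (hS.der z0 u0 hc)
  have hinr : HasFDerivAt (fun v : Fin m → ℂ => e (S (z0, v)))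
      (L.comp (ContinuousLinearMap.inr ℂ E (Fin m → ℂ))) u0 := by
    have h1 : HasFDerivAt (fun v : Fin m → ℂ => (z0, v))
        (ContinuousLinearMap.inr ℂ E (Fin m → ℂ)) u0 := hasFDerivAt_prodMk_right z0 u0
    exact HasFDerivAt.comp u0 hLd h1
  rw [hinr.fderiv] at hbij
  have hAinj : Function.Injective A := by
    rw [injective_iff_map_eq_zero]
    rintro ⟨v1, v2⟩ hv
    have h1 : v1 = 0 := congrArg Prod.fst hv
    have h2 : L (v1, v2) = 0 := congrArg Prod.snd hv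
    subst h1
    have h3 : v2 = 0 := by
      have : (L.comp (ContinuousLinearMap.inr ℂ E (Fin m → ℂ))) v2 = 0 := h2
      exact (injective_iff_map_eq_zero _).1 hbij.1 v2 this
    rw [h3]; rfl
  have hAsurj : Function.Surjective A :=
    LinearMap.surjective_of_injective (f := (A : E × (Fin m → ℂ) →ₗ[ℂ] E × (Fin m → ℂ))) hAinj
  let A' : (E × (Fin m → ℂ)) ≃L[ℂ] (E × (Fin m → ℂ)) :=
    (LinearEquiv.ofBijective (A : E × (Fin m → ℂ) →ₗ[ℂ] E × (Fin m → ℂ))
      ⟨hAinj, hAsurj⟩).toContinuousLinearEquiv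
  have hA' : HasFDerivAt f (A' : E × (Fin m → ℂ) →L[ℂ] E × (Fin m → ℂ)) (z0, u0) := by
    have h1 : (A' : E × (Fin m → ℂ) →L[ℂ] E × (Fin m → ℂ)) = A := by
      ext v <;> rfl
    rw [h1]
    exact hAd
  have : CompleteSpace (E × (Fin m → ℂ)) := FiniteDimensional.complete ℂ _
  let Φ0 := hfc.toOpenPartialHomeomorph f hA' (by simp)
  have hΦ0 : ∀ p, Φ0 p = f p := fun p => rfl
  have hΦ0s : (z0, u0) ∈ Φ0.source := hfc.mem_toOpenPartialHomeomorph_source hA' (by simp)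
  have hΦ0d : ContDiffAt ℂ 1 Φ0.symm (f (z0, u0)) := hfc.to_localInverse hA' (by simp)
  refine ⟨e, Φ0.restrOpen D0 hD0o, he, hs, ⟨hΦ0s, hc0⟩, fun p hp => hp.2.1, fun p hp => hp.2.2,
    fun p hp => rfl, hΦ0d.differentiableAt (by simp)⟩

/-- solutions `u` of `S (ζ w, u w) = h w` are automatically holomorphic. -/
theorem Fam.solve_hol {S : E × (Fin m → ℂ) → X} {D : Set (E × (Fin m → ℂ))} (hS : Fam m S D)
    {F : Type} [NormedAddCommGroup F] [NormedSpace ℂ F] [FiniteDimensional ℂ F]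
    {W : Set F} (hW : IsOpen W) {ζ : F → E} (hζ : DifferentiableOn ℂ ζ W) {h : F → X}
    (hh : HolOn m h W) {u : F → (Fin m → ℂ)}
    (hu : ∀ w ∈ W, (ζ w, u w) ∈ D ∧ S (ζ w, u w) = h w) : DifferentiableOn ℂ u W := by
  intro w0 hw0
  obtain ⟨e, Φ, he, hs, hcΦ, hΦD, hΦe, hΦ, hd⟩ := famSolve_loc hS (hu w0 hw0).1
  have hSw : S (ζ w0, u w0) = h w0 := (hu w0 hw0).2
  have hWn : W ∈ 𝓝 w0 := hW.mem_nhds hw0
  have hζd : DifferentiableAt ℂ ζ w0 := hζ.differentiableAt hWn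
  have hhd : DifferentiableAt ℂ (fun w => e (h w)) w0 := by
    have h1 := hh.hchart he
    have h2 : IsOpen (W ∩ h ⁻¹' e.source) := isOpen_preimage_of_holOn hW hh e.open_source
    exact h1.differentiableAt (h2.mem_nhds ⟨hw0, by
      show h w0 ∈ e.source
      rw [← hSw]; exact hs⟩)
  have hhc : ContinuousAt h w0 := hh.continuousOn.continuousAt hWn
  set g : F → E × (Fin m → ℂ) := fun w => (ζ w, e (h w)) with hg
  have hgd : DifferentiableAt ℂ g w0 := hζd.prodMk hhd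
  have hg0 : g w0 = (ζ w0, e (S (ζ w0, u w0))) := by rw [hg, hSw]
  have hgt : g w0 ∈ Φ.target := by
    have h1 := Φ.map_source hcΦ
    rw [hΦ _ hcΦ] at h1
    rw [hg0]; exact h1
  have hcomp : DifferentiableAt ℂ (fun w => (Φ.symm (g w)).2) w0 := by
    have h1 : DifferentiableAt ℂ Φ.symm (g w0) := by rw [hg0]; exact hd
    exact (DifferentiableAt.comp w0 h1 hgd).snd
  have hev : ∀ᶠ w in 𝓝 w0, u w = (Φ.symm (g w)).2 := by
    have h1 : ∀ᶠ w in 𝓝 w0, g w ∈ Φ.target :=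
      hgd.continuousAt.eventually (Φ.open_target.mem_nhds hgt)
    have h2 : ∀ᶠ w in 𝓝 w0, h w ∈ e.source :=
      hhc.eventually (e.open_source.mem_nhds (by rw [← hSw]; exact hs))
    filter_upwards [h1, h2, hWn] with w hw1 hw2 hw3
    set p := Φ.symm (g w) with hp
    have hps : p ∈ Φ.source := Φ.map_target hw1
    have hΦp : Φ p = g w := Φ.right_inv hw1
    rw [hΦ p hps] at hΦp
    have hp1 : p.1 = ζ w := congrArg Prod.fst hΦp
    have hp2 : e (S p) = e (h w) := congrArg Prod.snd hΦp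
    have hp3 : S p = h w := e.injOn (hΦe p hps) hw2 hp2
    have hp4 : (ζ w, p.2) = p := by rw [← hp1]
    refine hS.inj (ζ w) (u w) p.2 (hu w hw3).1 (by rw [hp4]; exact hΦD hps) ?_
    rw [(hu w hw3).2, hp4, hp3]
  exact (hcomp.congr_of_eventuallyEq hev).differentiableWithinAt

/-- points of `X` close to `S (z, u)` are of the form `S (z, v)` with `v` close to `u`,
uniformly over compact sets. -/
theorem Fam.near {S : E × (Fin m → ℂ) → X} {D : Set (E × (Fin m → ℂ))} (hS : Fam m S D)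
    {C : Set (E × (Fin m → ℂ))} (hC : IsCompact C) (hCD : C ⊆ D) {η : ℝ} (hη : 0 < η) :
    ∃ ε > 0, ∀ z u, (z, u) ∈ C → ∀ x : X, dist (S (z, u)) x < ε →
      ∃ v, ‖v - u‖ < η ∧ (z, v) ∈ D ∧ S (z, v) = x := by
  -- local version
  have hloc : ∀ c ∈ C, ∃ N ∈ 𝓝[C] c, ∃ ε > 0, ∀ p ∈ N, ∀ x : X, dist (S p) x < ε →
      ∃ v, ‖v - p.2‖ < η ∧ (p.1, v) ∈ D ∧ S (p.1, v) = x := by
    intro c hcC
    obtain ⟨e, Φ, he, hs, hcΦ, hΦD, hΦe, hΦ, hd⟩ := famSolve_loc hS (hCD hcC)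
    have hct : (c.1, e (S c)) ∈ Φ.target := by
      have h1 := Φ.map_source hcΦ
      rwa [hΦ _ hcΦ] at h1
    have hcs : Φ.symm (c.1, e (S c)) = c := by
      have h1 := Φ.left_inv hcΦ
      rwa [hΦ _ hcΦ] at h1
    have hSc : ContinuousAt S c := hS.hol.continuousOn.continuousAt (hS.isOpen.mem_nhds (hCD hcC))
    have hm : ContinuousAt (fun q : E × X => (q.1, e q.2)) (c.1, S c) := by
      refine continuousAt_fst.prodMk ?_
      exact ContinuousAt.comp (f := fun q : E × X => q.2) (g := e)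
        (e.continuousAt hs) continuousAt_snd
    have hm2 : ContinuousAt (fun q : E × X => (Φ.symm (q.1, e q.2)).2) (c.1, S c) := by
      have h1 : ContinuousAt Φ.symm (c.1, e (S c)) := Φ.symm.continuousAt hct
      exact (ContinuousAt.comp (f := fun q : E × X => (q.1, e q.2)) (g := Φ.symm) h1 hm).snd
    have hev : ∀ᶠ q : E × X in 𝓝 (c.1, S c), q.2 ∈ e.source ∧ (q.1, e q.2) ∈ Φ.target ∧
        dist (Φ.symm (q.1, e q.2)).2 c.2 < η / 2 := by
      have h1 : ∀ᶠ q : E × X in 𝓝 (c.1, S c), q.2 ∈ e.source :=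
        continuousAt_snd.eventually (e.open_source.mem_nhds hs)
      have h2 : ∀ᶠ q : E × X in 𝓝 (c.1, S c), (q.1, e q.2) ∈ Φ.target :=
        hm.eventually (Φ.open_target.mem_nhds hct)
      have h3 : ∀ᶠ q : E × X in 𝓝 (c.1, S c), dist (Φ.symm (q.1, e q.2)).2 c.2 < η / 2 := by
        have h4 := hm2.eventually (Metric.ball_mem_nhds _ (half_pos hη))
        filter_upwards [h4] with q hq
        have h5 : (Φ.symm (c.1, e (S c))).2 = c.2 := by rw [hcs]
        have h6 := Metric.mem_ball.1 hq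
        simp only [h5] at h6
        exact h6
      filter_upwards [h1, h2, h3] with q a b c using ⟨a, b, c⟩
    obtain ⟨δ, hδ, hball⟩ := Metric.eventually_nhds_iff.1 hev
    refine ⟨{p | dist p.1 c.1 < δ ∧ dist (S p) (S c) < δ / 2 ∧ dist p.2 c.2 < η / 2}, ?_,
      δ / 2, half_pos hδ, ?_⟩
    · apply mem_nhdsWithin_of_mem_nhds
      have h1 : ∀ᶠ p : E × (Fin m → ℂ) in 𝓝 c, dist p.1 c.1 < δ :=
        continuousAt_fst.eventually (Metric.ball_mem_nhds _ hδ)
      have h2 : ∀ᶠ p : E × (Fin m → ℂ) in 𝓝 c, dist (S p) (S c) < δ / 2 :=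
        hSc.eventually (Metric.ball_mem_nhds _ (half_pos hδ))
      have h3 : ∀ᶠ p : E × (Fin m → ℂ) in 𝓝 c, dist p.2 c.2 < η / 2 :=
        continuousAt_snd.eventually (Metric.ball_mem_nhds _ (half_pos hη))
      filter_upwards [h1, h2, h3] with p a b c using ⟨a, b, c⟩
    · rintro p ⟨hp1, hp2, hp3⟩ x hx
      have hq : dist (p.1, x) (c.1, S c) < δ := by
        rw [Prod.dist_eq]
        refine max_lt hp1 ?_
        show dist x (S c) < δ
        calc dist x (S c) ≤ dist x (S p) + dist (S p) (S c) := dist_triangle _ _ _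
          _ < δ / 2 + δ / 2 := add_lt_add (by rw [dist_comm]; exact hx) hp2
          _ = δ := by ring
      obtain ⟨hq1, hq2, hq3⟩ := hball hq
      simp only at hq1 hq2 hq3
      set v := Φ.symm (p.1, e x) with hv
      have hvs : v ∈ Φ.source := Φ.map_target hq2
      have hΦv : Φ v = (p.1, e x) := Φ.right_inv hq2
      rw [hΦ v hvs] at hΦv
      have hv1 : v.1 = p.1 := (Prod.mk.inj hΦv).1
      have hv2 : e (S v) = e x := (Prod.mk.inj hΦv).2
      have hv3 : S v = x := e.injOn (hΦe v hvs) hq1 hv2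
      have hv4 : (p.1, v.2) = v := by rw [← hv1]
      refine ⟨v.2, ?_, by rw [hv4]; exact hΦD hvs, by rw [hv4]; exact hv3⟩
      rw [← dist_eq_norm]
      calc dist v.2 p.2 ≤ dist v.2 c.2 + dist c.2 p.2 := dist_triangle _ _ _
        _ < η / 2 + η / 2 := add_lt_add hq3 (by rw [dist_comm]; exact hp3)
        _ = η := by ring
  have key : ∃ ε > 0, ∀ p ∈ C, ∀ x : X, dist (S p) x < ε →
      ∃ v, ‖v - p.2‖ < η ∧ (p.1, v) ∈ D ∧ S (p.1, v) = x := by
    refine hC.induction_on (p := fun A => ∃ ε > 0, ∀ p ∈ A, ∀ x : X, dist (S p) x < ε →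
      ∃ v, ‖v - p.2‖ < η ∧ (p.1, v) ∈ D ∧ S (p.1, v) = x) ?_ ?_ ?_ ?_
    · exact ⟨1, one_pos, fun p hp => absurd hp (Set.notMem_empty _)⟩
    · rintro A B hAB ⟨ε, hε, h⟩
      exact ⟨ε, hε, fun p hp => h p (hAB hp)⟩
    · rintro A B ⟨ε, hε, h⟩ ⟨ε', hε', h'⟩
      refine ⟨min ε ε', lt_min hε hε', fun p hp x hx => ?_⟩
      rcases hp with hp | hp
      · exact h p hp x (hx.trans_le (min_le_left _ _))
      · exact h' p hp x (hx.trans_le (min_le_right _ _))
    · intro c hcC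
      obtain ⟨N, hN, ε, hε, h⟩ := hloc c hcC
      exact ⟨N, hN, ε, hε, h⟩
  obtain ⟨ε, hε, h⟩ := key
  exact ⟨ε, hε, fun z u hzu x hx => h (z, u) hzu x hx⟩

/-- combination: holomorphic solution of `S (ζ w, u w) = h w` near a given approximate one. -/
theorem Fam.solve {S : E × (Fin m → ℂ) → X} {D : Set (E × (Fin m → ℂ))} (hS : Fam m S D)
    {C : Set (E × (Fin m → ℂ))} (hC : IsCompact C) (hCD : C ⊆ D) {η : ℝ} (hη : 0 < η) :
    ∃ ε > 0, ∀ (F : Type) [NormedAddCommGroup F] [NormedSpace ℂ F] [FiniteDimensional ℂ F]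
      (W : Set F) (ζ : F → E) (h : F → X) (u₀ : F → (Fin m → ℂ)), IsOpen W →
      DifferentiableOn ℂ ζ W → HolOn m h W →
      (∀ w ∈ W, (ζ w, u₀ w) ∈ C ∧ dist (S (ζ w, u₀ w)) (h w) < ε) →
      ∃ u : F → (Fin m → ℂ), DifferentiableOn ℂ u W ∧
        ∀ w ∈ W, ‖u w - u₀ w‖ < η ∧ (ζ w, u w) ∈ D ∧ S (ζ w, u w) = h w := by
  obtain ⟨ε, hε, hn⟩ := hS.near hC hCD hη
  refine ⟨ε, hε, fun F _ _ _ W ζ h u₀ hW hζ hh hu => ?_⟩
  classical
  choose! u hu' using fun w (hw : w ∈ W) => hn (ζ w) (u₀ w) (hu w hw).1 (h w) (hu w hw).2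
  exact ⟨u, hS.solve_hol hW hζ hh (fun w hw => (hu' w hw).2), fun w hw => hu' w hw⟩

/-- the family over a compact set of base points covers a uniform neighbourhood of the core. -/
theorem Fam.inj_near {S : E × (Fin m → ℂ) → X} {D : Set (E × (Fin m → ℂ))} (hS : Fam m S D)
    {C : Set (E × (Fin m → ℂ))} (hC : IsCompact C) (hCD : C ⊆ D) {η : ℝ} (hη : 0 < η) :
    ∃ ε > 0, ∀ z u v, (z, u) ∈ C → (z, v) ∈ C → dist (S (z, u)) (S (z, v)) < ε → ‖u - v‖ < η := by
  set B : Set ((E × (Fin m → ℂ)) × (E × (Fin m → ℂ))) :=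
    (C ×ˢ C) ∩ {q | q.1.1 = q.2.1 ∧ η ≤ ‖q.1.2 - q.2.2‖} with hB
  have hcl : IsClosed {q : (E × (Fin m → ℂ)) × (E × (Fin m → ℂ)) |
      q.1.1 = q.2.1 ∧ η ≤ ‖q.1.2 - q.2.2‖} := by
    apply IsClosed.inter
    · exact isClosed_eq (continuous_fst.comp continuous_fst) (continuous_fst.comp continuous_snd)
    · exact isClosed_le continuous_const
        ((continuous_snd.comp continuous_fst).sub (continuous_snd.comp continuous_snd)).norm
  have hBc : IsCompact B := (hC.prod hC).inter_right hcl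
  have hSc : ContinuousOn S C := hS.hol.continuousOn.mono hCD
  have hcont : ContinuousOn (fun q : (E × (Fin m → ℂ)) × (E × (Fin m → ℂ)) =>
      dist (S q.1) (S q.2)) B := by
    have h1 : ContinuousOn (fun q : (E × (Fin m → ℂ)) × (E × (Fin m → ℂ)) => (S q.1, S q.2)) B :=
      (hSc.comp continuousOn_fst (fun q hq => hq.1.1)).prodMk
        (hSc.comp continuousOn_snd (fun q hq => hq.1.2))
    exact continuous_dist.comp_continuousOn h1
  rcases B.eq_empty_or_nonempty with hBe | hBn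
  · refine ⟨1, one_pos, fun z u v hu hv _ => ?_⟩
    by_contra hcon
    have : ((z, u), (z, v)) ∈ B := ⟨⟨hu, hv⟩, rfl, not_lt.1 hcon⟩
    rw [hBe] at this
    exact this
  · obtain ⟨q, hqB, hq⟩ := hBc.exists_isMinOn hBn hcont
    have hpos : 0 < dist (S q.1) (S q.2) := by
      rw [dist_pos]
      intro heq
      obtain ⟨⟨hq1, hq2⟩, hq3, hq4⟩ := hqB
      obtain ⟨⟨z1, u1⟩, ⟨z2, u2⟩⟩ := q
      simp only at hq1 hq2 hq3 hq4 heq
      subst hq3
      have := hS.inj z1 u1 u2 (hCD hq1) (hCD hq2) heq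
      rw [this, sub_self, norm_zero] at hq4
      linarith
    refine ⟨_, hpos, fun z u v hu hv hd => ?_⟩
    by_contra hcon
    have hmem : ((z, u), (z, v)) ∈ B := ⟨⟨hu, hv⟩, rfl, not_lt.1 hcon⟩
    have := hq hmem
    simp only [Set.mem_ofPred_eq] at this
    linarith

end OkaP
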