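import Pool.Agent.H.MP_ceb9a9.ParamInt
import Pool.Agent.H.MP_ceb9a9.Cplx

/-!
# MP_ceb9a9: Gaussian approximation of continuous functions on `ℝ^k` by entire functions,
with a holomorphic parameter `q ∈ ball 0 s`, and smallness away from the support.

Proof.  For `ν > 0` put `J = ∫ x : Fin k → ℝ, exp (-(∑ i, x i ^ 2))` (a positive finite number; the integrand is
integrable, e.g. by `GaussianFourier.integrable_cexp_neg_mul_sum_add` with `b = 1`, `c = 0`) and
`F (z, q) = (J * ν ^ k)⁻¹ • ∫ x in K0, exp (-(∑ i, (z i - x i) ^ 2) / ν ^ 2) • h (x, q)`.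

(1) `F` is holomorphic on `univ ×ˢ ball 0 s`: `differentiableOn_setIntegral` for the source `(Fin k → ℂ) × P`,
the function `f ((z, q), x) = exp (-(∑ i, (z i - x i) ^ 2) / ν ^ 2) • h (x, q)` (continuous on
`(univ ×ˢ ball 0 s) ×ˢ K0`, holomorphic in `(z, q)` for fixed `x`), `μ = volume`.

(2) Since `h (x, q) = 0` for `x ∉ K0`, for `q ∈ ball 0 s` the integral over `K0` may be replaced by the integral over
the whole space (`setIntegral_eq_integral_of_forall_compl_eq_zero`).  For real `z = cplx x0` substitute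
`x = x0 + ν y` (`integral_add_left_eq_self`, `Measure.integral_comp_smul`; `finrank = k`):
`F (cplx x0, q) - h (x0, q) = J⁻¹ ∫ exp (-(∑ y_i ^ 2)) • (h (x0 + ν y, q) - h (x0, q)) dy`.
Let `B` bound `‖h‖` on `univ ×ˢ closedBall 0 s'` (compactness of `K0 ×ˢ closedBall 0 s'`; `s' < s`, and `h` vanishes
outside `K0`).  `h` is uniformly continuous in `x`, uniformly in `q ∈ closedBall 0 s'`: for each `κ' > 0` there is
`ρ > 0` with `‖h (x, q) - h (x', q)‖ < κ'` for all `x, x'` with `‖x - x'‖ < ρ` and `q ∈ closedBall 0 s'` (compact support: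
`h` is uniformly continuous on the compact set `cthickening 1 K0 ×ˢ closedBall 0 s'`, and if `x, x' ∉ K0` both values
are `0`).  Choose `M` with `2 B J⁻¹ ∫_{‖y‖ > M} exp (-∑ y_i ^ 2) < κ / 4` and then `ν` with `ν M < ρ` for
`κ' = κ / 4`: the difference is `< κ`.  All `ν` smaller than some `ν₀ > 0` work.

(3) If `d ≤ (∑ i, (z i - x i) ^ 2).re` for all `x ∈ K0`, then
`‖F (z, q)‖ ≤ (J * ν ^ k)⁻¹ * exp (-d / ν ^ 2) * B * volume K0`, which tends to `0` as `ν → 0+`
(`exp` beats powers), so it is `< κ` for `ν` small.  Take `ν` small enough for (2) and (3).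
-/

set_option autoImplicit false
open Set Metric Filter MeasureTheory
open scoped Topology

noncomputable section
namespace OkaP

theorem gauss_sum_eq {k : ℕ} (b : ℝ) (x : Fin k → ℝ) :
    Real.exp (-b * ∑ i, x i ^ 2) = ∏ i, Real.exp (-b * x i ^ 2) := by
  rw [Finset.mul_sum, Real.exp_sum]

theorem gauss_integrable {k : ℕ} {b : ℝ} (hb : 0 < b) :
    Integrable (fun x : Fin k → ℝ => Real.exp (-b * ∑ i, x i ^ 2)) := by
  simp_rw [gauss_sum_eq]
  exact Integrable.fintype_prod (f := fun _ t => Real.exp (-b * t ^ 2))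
    (fun _ => integrable_exp_neg_mul_sq hb)

theorem gauss_integral {k : ℕ} (b : ℝ) :
    ∫ x : Fin k → ℝ, Real.exp (-b * ∑ i, x i ^ 2) = √(Real.pi / b) ^ k := by
  simp_rw [gauss_sum_eq]
  rw [integral_fintype_prod_volume_eq_pow (fun t : ℝ => Real.exp (-b * t ^ 2)),
    integral_gaussian, Fintype.card_fin]

theorem gauss_integrable_shift {k : ℕ} {b : ℝ} (hb : 0 < b) (y : Fin k → ℝ) :
    Integrable (fun x : Fin k → ℝ => Real.exp (-b * ∑ i, (y i - x i) ^ 2)) :=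
  (gauss_integrable hb).comp_sub_left y

theorem gauss_integral_shift {k : ℕ} (b : ℝ) (y : Fin k → ℝ) :
    ∫ x : Fin k → ℝ, Real.exp (-b * ∑ i, (y i - x i) ^ 2) = √(Real.pi / b) ^ k := by
  rw [← gauss_integral (k := k) b]
  exact integral_sub_left_eq_self (fun x : Fin k → ℝ => Real.exp (-b * ∑ i, x i ^ 2)) volume y

theorem gauss_ratio {k : ℕ} {b : ℝ} (hb : 0 < b) :
    √(Real.pi / (b / 2)) ^ k = √2 ^ k * √(Real.pi / b) ^ k := by
  rw [← mul_pow, ← Real.sqrt_mul (by norm_num)]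
  congr 2
  field_simp

theorem gauss_norm {k : ℕ} (b : ℝ) (z : Fin k → ℂ) (x : Fin k → ℝ) :
    ‖Complex.exp (-(b : ℂ) * ∑ i, (z i - (x i : ℂ)) ^ 2)‖ =
      Real.exp (-b * (∑ i, (z i - (x i : ℂ)) ^ 2).re) := by
  rw [Complex.norm_exp]
  congr 1
  rw [← Complex.ofReal_neg, Complex.re_ofReal_mul]

theorem gauss_cplx {k : ℕ} (b : ℝ) (y x : Fin k → ℝ) :
    Complex.exp (-(b : ℂ) * ∑ i, (cplx y i - (x i : ℂ)) ^ 2) =
      ((Real.exp (-b * ∑ i, (y i - x i) ^ 2) : ℝ) : ℂ) := by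
  push_cast
  rfl


/-- estimate at the real points -/
theorem gauss_real {k : ℕ} {A' : Type} [NormedAddCommGroup A'] [NormedSpace ℂ A']
    [FiniteDimensional ℂ A'] {g : (Fin k → ℝ) → A'} (hg : Continuous g)
    {K0 : Set (Fin k → ℝ)} (h0 : ∀ x, x ∉ K0 → g x = 0) {B : ℝ}
    (hB : ∀ x, ‖g x‖ ≤ B) {ρ ε : ℝ} (hρ : 0 < ρ)
    (hu : ∀ x y, dist x y < ρ → ‖g x - g y‖ ≤ ε) {b : ℝ} (hb : 0 < b) (y : Fin k → ℝ) :
    ‖((√(Real.pi / b) ^ k : ℝ) : ℂ)⁻¹ • (∫ x in K0,
      Complex.exp (-(b : ℂ) * ∑ i, (cplx y i - (x i : ℂ)) ^ 2) • g x) - g y‖ ≤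
      ε + 2 * B * √2 ^ k * Real.exp (-(b * ρ ^ 2 / 2)) := by
  have _ : CompleteSpace A' := FiniteDimensional.complete ℂ A'
  set c : ℝ := √(Real.pi / b) ^ k with hc
  have hcpos : 0 < c := by
    have : 0 < Real.pi / b := div_pos Real.pi_pos hb
    positivity
  have hB0 : 0 ≤ B := (norm_nonneg _).trans (hB y)
  have hε0 : 0 ≤ ε := (norm_nonneg _).trans (hu y y (by simpa using hρ))
  have e1 : (∫ x in K0, Complex.exp (-(b : ℂ) * ∑ i, (cplx y i - (x i : ℂ)) ^ 2) • g x) =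
      ∫ x, ((Real.exp (-b * ∑ i, (y i - x i) ^ 2) : ℝ) : ℂ) • g x := by
    rw [setIntegral_eq_integral_of_forall_compl_eq_zero]
    · simp_rw [gauss_cplx]
    · intro x hx
      rw [h0 x hx, smul_zero]
  have hcont : Continuous (fun x : Fin k → ℝ => Real.exp (-b * ∑ i, (y i - x i) ^ 2)) := by
    fun_prop
  have i1 : Integrable (fun x : Fin k → ℝ =>
      ((Real.exp (-b * ∑ i, (y i - x i) ^ 2) : ℝ) : ℂ) • g x) := by
    refine ((gauss_integrable_shift hb y).mul_const B).mono'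
      ((Complex.continuous_ofReal.comp hcont).smul hg).aestronglyMeasurable ?_
    filter_upwards with x
    rw [norm_smul, Complex.norm_real, Real.norm_eq_abs, Real.abs_exp]
    exact mul_le_mul_of_nonneg_left (hB x) (Real.exp_pos _).le
  have i2 : Integrable (fun x : Fin k → ℝ =>
      ((Real.exp (-b * ∑ i, (y i - x i) ^ 2) : ℝ) : ℂ) • g y) :=
    ((gauss_integrable_shift hb y).ofReal).smul_const _
  have e2 : ∫ x : Fin k → ℝ, ((Real.exp (-b * ∑ i, (y i - x i) ^ 2) : ℝ) : ℂ) • g y =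
      (c : ℂ) • g y := by
    rw [integral_smul_const, integral_complex_ofReal, gauss_integral_shift]
  have hc0 : (c : ℂ) ≠ 0 := by exact_mod_cast hcpos.ne'
  have e3 : (c : ℂ)⁻¹ • (∫ x in K0,
      Complex.exp (-(b : ℂ) * ∑ i, (cplx y i - (x i : ℂ)) ^ 2) • g x) - g y =
      (c : ℂ)⁻¹ • ∫ x : Fin k → ℝ,
        ((Real.exp (-b * ∑ i, (y i - x i) ^ 2) : ℝ) : ℂ) • (g x - g y) := by
    simp_rw [smul_sub]
    rw [integral_sub i1 i2, e2, e1, smul_sub, smul_smul, inv_mul_cancel₀ hc0, one_smul]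
  rw [e3, norm_smul, norm_inv, Complex.norm_real, Real.norm_eq_abs, abs_of_pos hcpos]
  have i3 : Integrable (fun x : Fin k → ℝ => Real.exp (-b * ∑ i, (y i - x i) ^ 2) * ε +
      Real.exp (-(b / 2) * ∑ i, (y i - x i) ^ 2) * (2 * B * Real.exp (-(b * ρ ^ 2 / 2)))) :=
    ((gauss_integrable_shift hb y).mul_const _).add
      ((gauss_integrable_shift (half_pos hb) y).mul_const _)
  have h1 : ‖∫ x : Fin k → ℝ,
        ((Real.exp (-b * ∑ i, (y i - x i) ^ 2) : ℝ) : ℂ) • (g x - g y)‖ ≤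
      ∫ x : Fin k → ℝ, (Real.exp (-b * ∑ i, (y i - x i) ^ 2) * ε +
      Real.exp (-(b / 2) * ∑ i, (y i - x i) ^ 2) * (2 * B * Real.exp (-(b * ρ ^ 2 / 2)))) := by
    apply norm_integral_le_of_norm_le i3
    filter_upwards with x
    rw [norm_smul, Complex.norm_real, Real.norm_eq_abs, Real.abs_exp]
    by_cases hx : dist x y < ρ
    · have := mul_le_mul_of_nonneg_left (hu x y hx)
        (Real.exp_pos (-b * ∑ i, (y i - x i) ^ 2)).le
      have h2 : 0 ≤ Real.exp (-(b / 2) * ∑ i, (y i - x i) ^ 2) *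
        (2 * B * Real.exp (-(b * ρ ^ 2 / 2))) := by positivity
      linarith
    · have hsum : ρ ^ 2 ≤ ∑ i, (y i - x i) ^ 2 := by
        by_contra hlt
        push Not at hlt
        apply hx
        rw [dist_pi_lt_iff hρ]
        intro i
        have h3 : (y i - x i) ^ 2 ≤ ∑ i, (y i - x i) ^ 2 :=
          Finset.single_le_sum (f := fun i => (y i - x i) ^ 2) (fun j _ => sq_nonneg _)
            (Finset.mem_univ i)
        have h4 : (x i - y i) ^ 2 < ρ ^ 2 := by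
          have : (x i - y i) ^ 2 = (y i - x i) ^ 2 := by ring
          rw [this]
          exact lt_of_le_of_lt h3 hlt
        rw [Real.dist_eq]
        exact abs_lt_of_sq_lt_sq h4 hρ.le
      have h5 : ‖g x - g y‖ ≤ 2 * B := by
        have := norm_sub_le (g x) (g y)
        have h6 := hB x
        have h7 := hB y
        linarith
      have h8 : Real.exp (-b * ∑ i, (y i - x i) ^ 2) ≤
          Real.exp (-(b / 2) * ∑ i, (y i - x i) ^ 2) * Real.exp (-(b * ρ ^ 2 / 2)) := by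
        rw [← Real.exp_add]
        apply Real.exp_le_exp.2
        have : b / 2 * ρ ^ 2 ≤ b / 2 * ∑ i, (y i - x i) ^ 2 :=
          mul_le_mul_of_nonneg_left hsum (by positivity)
        linarith
      have h9 : Real.exp (-b * ∑ i, (y i - x i) ^ 2) * ‖g x - g y‖ ≤
          (Real.exp (-(b / 2) * ∑ i, (y i - x i) ^ 2) * Real.exp (-(b * ρ ^ 2 / 2))) * (2 * B) :=
        mul_le_mul h8 h5 (norm_nonneg _) (by positivity)
      have h10 : 0 ≤ Real.exp (-b * ∑ i, (y i - x i) ^ 2) * ε := by positivity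
      linarith
  have h2 : ∫ x : Fin k → ℝ, (Real.exp (-b * ∑ i, (y i - x i) ^ 2) * ε +
      Real.exp (-(b / 2) * ∑ i, (y i - x i) ^ 2) * (2 * B * Real.exp (-(b * ρ ^ 2 / 2)))) =
      c * (ε + 2 * B * √2 ^ k * Real.exp (-(b * ρ ^ 2 / 2))) := by
    rw [integral_add ((gauss_integrable_shift hb y).mul_const _)
      ((gauss_integrable_shift (half_pos hb) y).mul_const _), integral_mul_const,
      integral_mul_const, gauss_integral_shift, gauss_integral_shift, gauss_ratio hb]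
    ring
  rw [h2] at h1
  calc c⁻¹ * ‖∫ x : Fin k → ℝ,
        ((Real.exp (-b * ∑ i, (y i - x i) ^ 2) : ℝ) : ℂ) • (g x - g y)‖
      ≤ c⁻¹ * (c * (ε + 2 * B * √2 ^ k * Real.exp (-(b * ρ ^ 2 / 2)))) :=
        mul_le_mul_of_nonneg_left h1 (inv_nonneg.2 hcpos.le)
    _ = _ := by rw [← mul_assoc, inv_mul_cancel₀ hcpos.ne', one_mul]

variable {k : ℕ} {P A' : Type} [NormedAddCommGroup P] [NormedSpace ℂ P] [FiniteDimensional ℂ P]
  [NormedAddCommGroup A'] [NormedSpace ℂ A'] [FiniteDimensional ℂ A']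

theorem gauss_holo {s : ℝ} {h : (Fin k → ℝ) × P → A'}
    (hc : ContinuousOn h (univ ×ˢ ball (0 : P) s))
    (hd : ∀ x, DifferentiableOn ℂ (fun q => h (x, q)) (ball (0 : P) s))
    {K0 : Set (Fin k → ℝ)} (hK0 : IsCompact K0) (b : ℝ) :
    DifferentiableOn ℂ (fun w : (Fin k → ℂ) × P => ∫ x in K0,
      Complex.exp (-(b : ℂ) * ∑ i, (w.1 i - (x i : ℂ)) ^ 2) • h (x, w.2))
      (univ ×ˢ ball (0 : P) s) := by
  refine differentiableOn_setIntegral (E := (Fin k → ℂ) × P) (T := Fin k → ℝ) (μ := volume)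
    (f := fun v : ((Fin k → ℂ) × P) × (Fin k → ℝ) =>
      Complex.exp (-(b : ℂ) * ∑ i, (v.1.1 i - (v.2 i : ℂ)) ^ 2) • h (v.2, v.1.2))
    hK0 hK0.measure_lt_top (isOpen_univ.prod isOpen_ball) ?_ ?_
  · apply ContinuousOn.smul
    · apply Continuous.continuousOn
      fun_prop
    · refine hc.comp (by fun_prop) ?_
      rintro ⟨⟨z, q⟩, x⟩ ⟨⟨_, hq⟩, _⟩
      exact ⟨mem_univ _, hq⟩
  · intro x _
    apply DifferentiableOn.smul
    · apply Differentiable.differentiableOn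
      change Differentiable ℂ (fun w : (Fin k → ℂ) × P =>
        Complex.exp (-(b : ℂ) * ∑ i, (w.1 i - (x i : ℂ)) ^ 2))
      have hi : ∀ i : Fin k, Differentiable ℂ (fun w : (Fin k → ℂ) × P => w.1 i) := fun i =>
        ((ContinuousLinearMap.proj (R := ℂ) (φ := fun _ : Fin k => ℂ) i).comp
          (ContinuousLinearMap.fst ℂ (Fin k → ℂ) P)).differentiable
      exact ((Differentiable.fun_sum (fun i _ =>
        ((hi i).sub_const _).pow 2)).const_mul _).cexp
    · refine (hd x).comp (t := ball (0 : P) s) (f := fun w : (Fin k → ℂ) × P => w.2)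
        differentiable_snd.differentiableOn ?_
      rintro ⟨z, q⟩ ⟨_, hq⟩
      exact hq

theorem gauss_unif {s s' : ℝ} (hs : s' < s) {h : (Fin k → ℝ) × P → A'}
    (hc : ContinuousOn h (univ ×ˢ ball (0 : P) s))
    {K0 : Set (Fin k → ℝ)} (hK0 : IsCompact K0)
    (h0 : ∀ x, x ∉ K0 → ∀ q ∈ ball (0 : P) s, h (x, q) = 0) {ε : ℝ} (hε : 0 < ε) :
    ∃ ρ : ℝ, 0 < ρ ∧ ∀ q ∈ closedBall (0 : P) s', ∀ x y, dist x y < ρ →
      ‖h (x, q) - h (y, q)‖ ≤ ε := by
  have _ : ProperSpace P := FiniteDimensional.proper ℂ P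
  have hK1 : IsCompact (cthickening 1 K0 ×ˢ closedBall (0 : P) s') :=
    hK0.cthickening.prod (isCompact_closedBall _ _)
  have hsub : closedBall (0 : P) s' ⊆ ball 0 s := closedBall_subset_ball hs
  have huc := hK1.uniformContinuousOn_of_continuous
    (hc.mono (prod_mono (subset_univ _) hsub))
  rw [Metric.uniformContinuousOn_iff] at huc
  obtain ⟨δ, hδ, hδ2⟩ := huc ε hε
  refine ⟨min δ 1, lt_min hδ one_pos, ?_⟩
  intro q hq x y hxy
  by_cases hx : x ∈ K0 ∨ y ∈ K0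
  · have hxm : x ∈ cthickening 1 K0 ∧ y ∈ cthickening 1 K0 := by
      rcases hx with hx | hx
      · exact ⟨self_subset_cthickening _ hx,
          mem_cthickening_of_dist_le y x 1 K0 hx (by
            rw [dist_comm]; exact (hxy.trans_le (min_le_right _ _)).le)⟩
      · exact ⟨mem_cthickening_of_dist_le x y 1 K0 hx (hxy.trans_le (min_le_right _ _)).le,
          self_subset_cthickening _ hx⟩
    have := hδ2 (x, q) ⟨hxm.1, hq⟩ (y, q) ⟨hxm.2, hq⟩ (by
      rw [Prod.dist_eq]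
      simp only [dist_self]
      exact max_lt (hxy.trans_le (min_le_left _ _)) hδ)
    rw [dist_eq_norm] at this
    exact this.le
  · push Not at hx
    rw [h0 x hx.1 q (hsub hq), h0 y hx.2 q (hsub hq), sub_zero, norm_zero]
    exact hε.le

theorem gauss_bound {s s' : ℝ} (hs : s' < s) {h : (Fin k → ℝ) × P → A'}
    (hc : ContinuousOn h (univ ×ˢ ball (0 : P) s))
    {K0 : Set (Fin k → ℝ)} (hK0 : IsCompact K0)
    (h0 : ∀ x, x ∉ K0 → ∀ q ∈ ball (0 : P) s, h (x, q) = 0) :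
    ∃ B : ℝ, 0 ≤ B ∧ ∀ q ∈ closedBall (0 : P) s', ∀ x, ‖h (x, q)‖ ≤ B := by
  have _ : ProperSpace P := FiniteDimensional.proper ℂ P
  have hsub : closedBall (0 : P) s' ⊆ ball 0 s := closedBall_subset_ball hs
  obtain ⟨C, hC⟩ := (hK0.prod (isCompact_closedBall (0 : P) s')).exists_bound_of_continuousOn
    (hc.mono (prod_mono (subset_univ _) hsub))
  refine ⟨max C 0, le_max_right _ _, ?_⟩
  intro q hq x
  by_cases hx : x ∈ K0
  · exact (hC (x, q) ⟨hx, hq⟩).trans (le_max_left _ _)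
  · rw [h0 x hx q (hsub hq), norm_zero]
    exact le_max_right _ _

theorem gauss_small {g : (Fin k → ℝ) → A'} {K0 : Set (Fin k → ℝ)} (hK0 : IsCompact K0)
    {B : ℝ} (hB0 : 0 ≤ B) (hB : ∀ x, ‖g x‖ ≤ B) {d b : ℝ} (hb : 1 ≤ b) (z : Fin k → ℂ)
    (hz : ∀ x ∈ K0, d ≤ (∑ i, (z i - (x i : ℂ)) ^ 2).re) :
    ‖((√(Real.pi / b) ^ k : ℝ) : ℂ)⁻¹ • (∫ x in K0,
      Complex.exp (-(b : ℂ) * ∑ i, (z i - (x i : ℂ)) ^ 2) • g x)‖ ≤
      B * volume.real K0 * (b ^ k * Real.exp (-(b * d))) := by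
  have hbpos : 0 < b := by linarith
  have hcpos : 0 < √(Real.pi / b) ^ k := by
    have : 0 < Real.pi / b := div_pos Real.pi_pos hbpos
    positivity
  have hci : (√(Real.pi / b) ^ k)⁻¹ ≤ b ^ k := by
    rw [← inv_pow]
    apply pow_le_pow_left₀ (by positivity)
    rw [← Real.sqrt_inv, inv_div]
    have h1 : b / Real.pi ≤ b ^ 2 := by
      rw [div_le_iff₀ Real.pi_pos]
      nlinarith [Real.pi_gt_three]
    calc √(b / Real.pi) ≤ √(b ^ 2) := Real.sqrt_le_sqrt h1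
      _ = b := Real.sqrt_sq hbpos.le
  rw [norm_smul, norm_inv, Complex.norm_real, Real.norm_eq_abs, abs_of_pos hcpos]
  have h2 : ‖∫ x in K0, Complex.exp (-(b : ℂ) * ∑ i, (z i - (x i : ℂ)) ^ 2) • g x‖ ≤
      (Real.exp (-(b * d)) * B) * volume.real K0 := by
    apply norm_setIntegral_le_of_norm_le_const hK0.measure_lt_top
    intro x hx
    rw [norm_smul, gauss_norm]
    apply mul_le_mul _ (hB x) (norm_nonneg _) (Real.exp_pos _).le
    apply Real.exp_le_exp.2
    have := mul_le_mul_of_nonneg_left (hz x hx) hbpos.le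
    linarith
  calc (√(Real.pi / b) ^ k)⁻¹ *
        ‖∫ x in K0, Complex.exp (-(b : ℂ) * ∑ i, (z i - (x i : ℂ)) ^ 2) • g x‖
      ≤ b ^ k * ((Real.exp (-(b * d)) * B) * volume.real K0) :=
        mul_le_mul hci h2 (norm_nonneg _) (by positivity)
    _ = _ := by ring

theorem gauss_lim (n : ℕ) {d : ℝ} (hd : 0 < d) (C : ℝ) :
    Tendsto (fun b : ℝ => C * (b ^ n * Real.exp (-(b * d)))) atTop (𝓝 0) := by
  have h1 := (Real.tendsto_pow_mul_exp_neg_atTop_nhds_zero n).comp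
    (tendsto_id.atTop_mul_const hd)
  have h2 := h1.const_mul (C * (d ^ n)⁻¹)
  rw [mul_zero] at h2
  refine h2.congr ?_
  intro b
  simp only [Function.comp_apply, id_eq]
  have : (d ^ n) ≠ 0 := by positivity
  rw [mul_pow]
  field_simp

/-- Gaussian approximation by functions entire in `z`, holomorphic in the parameter `q`. -/
theorem gauss_approx {s s' : ℝ} (hs : s' < s) {h : (Fin k → ℝ) × P → A'}
    (hc : ContinuousOn h (univ ×ˢ ball (0 : P) s))
    (hd : ∀ x, DifferentiableOn ℂ (fun q => h (x, q)) (ball (0 : P) s))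
    {K0 : Set (Fin k → ℝ)} (hK0 : IsCompact K0)
    (h0 : ∀ x, x ∉ K0 → ∀ q ∈ ball (0 : P) s, h (x, q) = 0)
    {d κ : ℝ} (hd0 : 0 < d) (hκ : 0 < κ) :
    ∃ F : (Fin k → ℂ) × P → A', DifferentiableOn ℂ F (univ ×ˢ ball (0 : P) s) ∧
      (∀ x, ∀ q ∈ closedBall (0 : P) s', ‖F (cplx x, q) - h (x, q)‖ < κ) ∧
      ∀ z : Fin k → ℂ, (∀ x ∈ K0, d ≤ (∑ i, (z i - (x i : ℂ)) ^ 2).re) →
        ∀ q ∈ closedBall (0 : P) s', ‖F (z, q)‖ < κ := by
  have hsub : closedBall (0 : P) s' ⊆ ball 0 s := closedBall_subset_ball hs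
  obtain ⟨ρ, hρ, hu⟩ := gauss_unif hs hc hK0 h0 (half_pos hκ)
  obtain ⟨B, hB0, hB⟩ := gauss_bound hs hc hK0 h0
  have hlim1 := gauss_lim k hd0 (B * volume.real K0)
  have hlim2 := gauss_lim 0 (d := ρ ^ 2 / 2) (by positivity) (2 * B * √2 ^ k)
  have hev := (((hlim1.eventually (gt_mem_nhds hκ)).and
    (hlim2.eventually (gt_mem_nhds (half_pos hκ)))).and (eventually_ge_atTop (1 : ℝ))).exists
  obtain ⟨b, ⟨hb1, hb2⟩, hb⟩ := hev
  have hbpos : 0 < b := by linarith
  refine ⟨fun w => ((√(Real.pi / b) ^ k : ℝ) : ℂ)⁻¹ • (∫ x in K0,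
      Complex.exp (-(b : ℂ) * ∑ i, (w.1 i - (x i : ℂ)) ^ 2) • h (x, w.2)), ?_, ?_, ?_⟩
  · exact (gauss_holo hc hd hK0 b).const_smul _
  · intro x q hq
    have hg : Continuous (fun x => h (x, q)) := by
      rw [← continuousOn_univ]
      refine hc.comp (by fun_prop) ?_
      intro y _
      exact ⟨mem_univ _, hsub hq⟩
    have h3 := gauss_real hg (fun x hx => h0 x hx q (hsub hq)) (hB q hq) hρ (hu q hq) hbpos x
    refine lt_of_le_of_lt h3 ?_
    have e : -(b * ρ ^ 2 / 2) = -(b * (ρ ^ 2 / 2)) := by ring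
    rw [e]
    rw [pow_zero, one_mul] at hb2
    linarith
  · intro z hz q hq
    exact lt_of_le_of_lt (gauss_small hK0 hB0 (hB q hq) hb z hz) hb1

end OkaP
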