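import Pool.Agent.H.MP_ceb9a9.Push

set_option autoImplicit false
open Set Metric Filter
open scoped Topology Manifold

noncomputable section
namespace OkaP

variable {m : ℕ} {X : Type} [MetricSpace X] [ChartedSpace (Fin m → ℂ) X]

/-- `h` is holomorphic near `K`, `h 0 = p`, no other `p`-points on `K`, and `h` is close to
`e.symm` on the ball of radius `r₀`. -/
structure Good (m : ℕ) {X : Type} [MetricSpace X] [ChartedSpace (Fin m → ℂ) X] (p : X)
    (e : OpenPartialHomeomorph X (Fin m → ℂ)) (r₀ : ℝ) (K : Set (Fin m → ℂ))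
    (h : (Fin m → ℂ) → X) : Prop where
  nhd : ∃ U : Set (Fin m → ℂ), IsOpen U ∧ K ⊆ U ∧ HolOn m h U
  ball_sub : closedBall (0 : Fin m → ℂ) r₀ ⊆ K
  zero : h 0 = p
  avoid : ∀ z ∈ K, z ≠ 0 → h z ≠ p
  near : ∀ z ∈ closedBall (0 : Fin m → ℂ) r₀, h z ∈ e.source ∧ ‖e (h z) - z‖ < r₀ / 8

/-- a holomorphic chart centred at `p`. -/
theorem exists_chart_zero [IsManifold 𝓘(ℂ, Fin m → ℂ) ⊤ X] (p : X) :
    ∃ e : OpenPartialHomeomorph X (Fin m → ℂ), HChart m e ∧ p ∈ e.source ∧ e p = 0 := by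
  obtain ⟨e0, he0, hp⟩ := HChart.exists_at (m := m) p
  refine ⟨e0.transHomeomorph (Homeomorph.addRight (-(e0 p))), ⟨?_, ?_⟩, hp, ?_⟩
  · have h1 : MDifferentiableOn 𝓘(ℂ, Fin m → ℂ) 𝓘(ℂ, Fin m → ℂ)
        (fun x => (fun v : Fin m → ℂ => v + -(e0 p)) (e0 x)) e0.source := by
      have h2 : MDifferentiableOn 𝓘(ℂ, Fin m → ℂ) 𝓘(ℂ, Fin m → ℂ)
          (fun v : Fin m → ℂ => v + -(e0 p)) univ :=
        (differentiable_id.add_const _).differentiableOn.mdifferentiableOn
      exact MDifferentiableOn.comp h2 he0.1 (subset_univ _)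
    exact h1
  · have h1 : MDifferentiableOn 𝓘(ℂ, Fin m → ℂ) 𝓘(ℂ, Fin m → ℂ)
        (fun v : Fin m → ℂ => e0.symm (v - -(e0 p))) {v | v - -(e0 p) ∈ e0.target} := by
      have h2 : MDifferentiableOn 𝓘(ℂ, Fin m → ℂ) 𝓘(ℂ, Fin m → ℂ)
          (fun v : Fin m → ℂ => v - -(e0 p)) {v | v - -(e0 p) ∈ e0.target} :=
        (differentiable_id.sub_const _).differentiableOn.mdifferentiableOn
      exact MDifferentiableOn.comp he0.2 h2 (fun v hv => hv)
    have hs : ∀ v : Fin m → ℂ, (Homeomorph.addRight (-(e0 p))).symm v = v + e0 p := by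
      intro v
      have hs1 : (Homeomorph.addRight (-(e0 p))) (v + e0 p) = v := by simp
      rw [Homeomorph.symm_apply_eq]
      exact hs1.symm
    have h3 : (e0.transHomeomorph (Homeomorph.addRight (-(e0 p)))).target
        = {v | v - -(e0 p) ∈ e0.target} := by
      ext v
      simp [OpenPartialHomeomorph.transHomeomorph, sub_neg_eq_add, hs]
    rw [h3]
    refine h1.congr ?_
    intro v _
    simp [OpenPartialHomeomorph.transHomeomorph, sub_neg_eq_add, hs]
  · simp [OpenPartialHomeomorph.transHomeomorph]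

/-- collars for sublevel parts of compact sets. -/
theorem Good_collar {E : Type} [NormedAddCommGroup E] [NormedSpace ℂ E] [FiniteDimensional ℂ E]
    {K : Set E} (hK : IsCompact K) {f : E → ℝ} (hf : Continuous f) {b : ℝ} {O : Set E}
    (hO : IsOpen O) (hKO : K ∩ {z | f z ≤ b} ⊆ O) (hne : K.Nonempty) :
    ∃ η > 0, cthickening η K ∩ {z | f z ≤ b + η} ⊆ O := by
  have hprop : ProperSpace E := FiniteDimensional.proper ℂ E
  have hc : IsCompact (cthickening 1 K \ O) := hK.cthickening.diff hO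
  have hg : Continuous (fun z => max (infDist z K) (f z - b)) :=
    (continuous_infDist_pt K).max (hf.sub continuous_const)
  rcases (cthickening 1 K \ O).eq_empty_or_nonempty with h0 | h0
  · refine ⟨1, one_pos, fun z hz => ?_⟩
    by_contra hzO
    exact notMem_empty z (h0 ▸ ⟨hz.1, hzO⟩)
  · obtain ⟨y, hy, hmin⟩ := hc.exists_isMinOn h0 hg.continuousOn
    have hpos : 0 < max (infDist y K) (f y - b) := by
      by_contra hle
      push Not at hle
      have h1 : infDist y K ≤ 0 := (le_max_left _ _).trans hle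
      have h2 : f y - b ≤ 0 := (le_max_right _ _).trans hle
      have h3 : y ∈ K := by
        rw [hK.isClosed.mem_iff_infDist_zero hne]
        exact le_antisymm h1 infDist_nonneg
      exact hy.2 (hKO ⟨h3, by show f y ≤ b; linarith⟩)
    set g0 := max (infDist y K) (f y - b) with hg0
    refine ⟨min 1 (g0 / 2), by positivity, fun z hz => ?_⟩
    by_contra hzO
    have hz1 : z ∈ cthickening 1 K \ O := ⟨cthickening_mono (min_le_left _ _) K hz.1, hzO⟩
    have h1 : g0 ≤ max (infDist z K) (f z - b) := hmin hz1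
    have h2 : infDist z K ≤ min 1 (g0 / 2) := by
      have h3 := mem_cthickening_iff.1 hz.1
      rw [infDist]
      refine ENNReal.toReal_le_of_le_ofReal (by positivity) h3
    have h3 : f z - b ≤ min 1 (g0 / 2) := by
      have : f z ≤ b + min 1 (g0 / 2) := hz.2
      linarith
    have h4 : max (infDist z K) (f z - b) ≤ g0 / 2 :=
      max_le (h2.trans (min_le_right _ _)) (h3.trans (min_le_right _ _))
    linarith

/-- push for good maps. -/
theorem good_push [IsManifold 𝓘(ℂ, Fin m → ℂ) ⊤ X] {p : X} (hY : CAPY m p)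
    {e : OpenPartialHomeomorph X (Fin m → ℂ)} (he : HChart m e) (hpe : p ∈ e.source) (hep : e p = 0)
    {r₀ : ℝ} (hr₀ : 0 < r₀) {K : Set (Fin m → ℂ)} (hK : IsCompact K) (hc : Convex ℝ K)
    (l : (Fin m → ℂ) →L[ℂ] ℂ) {b : ℝ}
    (hlb : ∀ z ∈ closedBall (0 : Fin m → ℂ) r₀, (l z).re < b) {h : (Fin m → ℂ) → X}
    (hg : Good m p e r₀ (K ∩ {z | (l z).re ≤ b}) h) {ε : ℝ} (hε : 0 < ε) :
    ∃ g, Good m p e r₀ K g ∧ ∀ z ∈ K, (l z).re ≤ b → dist (h z) (g z) < ε := by
  obtain ⟨⟨U, hU, hKU, hhU⟩, hball, h0, havoid, hnear⟩ := hg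
  have hlc : Continuous fun z : Fin m → ℂ => (l z).re := Complex.continuous_re.comp l.continuous
  have hB : IsCompact (closedBall (0 : Fin m → ℂ) r₀) := isCompact_closedBall _ _
  have h0B : (0 : Fin m → ℂ) ∈ closedBall (0 : Fin m → ℂ) r₀ := mem_closedBall_self hr₀.le
  have hKne : K.Nonempty := ⟨0, (hball h0B).1⟩
  -- choice of `a`
  obtain ⟨y, hy, hymax⟩ := hB.exists_isMaxOn ⟨0, h0B⟩ hlc.continuousOn
  set a : ℝ := ((l y).re + b) / 2 with ha
  have hab : a < b := by have := hlb y hy; rw [ha]; linarith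
  have hlB : ∀ z ∈ closedBall (0 : Fin m → ℂ) r₀, (l z).re < a := by
    intro z hz
    have h1 : (l z).re ≤ (l y).re := hymax hz
    have := hlb y hy
    rw [ha]; linarith
  -- the good open set
  set K' : Set (Fin m → ℂ) := K ∩ {z | (l z).re ≤ b} with hK'
  have hK'c : IsCompact K' := hK.inter_right (isClosed_le hlc continuous_const)
  set O : Set (Fin m → ℂ) := (U ∩ h ⁻¹' {p}ᶜ) ∪ (U ∩ ball 0 (r₀ / 2)) with hOdef
  have hO : IsOpen O := (isOpen_preimage_of_holOn hU hhU isOpen_compl_singleton).union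
    (hU.inter isOpen_ball)
  have hOU : O ⊆ U := union_subset inter_subset_left inter_subset_left
  have hK'O : K' ⊆ O := by
    intro z hz
    by_cases hz0 : z = 0
    · exact Or.inr ⟨hKU hz, by rw [hz0]; exact mem_ball_self (by positivity)⟩
    · exact Or.inl ⟨hKU hz, havoid z hz hz0⟩
  obtain ⟨η, hη, hηO⟩ := Good_collar hK hlc hO hK'O hKne
  set Kη : Set (Fin m → ℂ) := cthickening η K with hKη
  have hKηc : IsCompact Kη := hK.cthickening
  have hKηconv : Convex ℝ Kη := hc.cthickening η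
  have hKKη : K ⊆ Kη := self_subset_cthickening K
  -- lower bound away from the half ball
  set Q : Set (Fin m → ℂ) := (Kη ∩ {z | (l z).re ≤ b + η}) \ ball 0 (r₀ / 2) with hQ
  have hQc : IsCompact Q :=
    (hKηc.inter_right (isClosed_le hlc continuous_const)).diff isOpen_ball
  have hQp : ∀ z ∈ Q, h z ≠ p := by
    intro z hz
    rcases hηO hz.1 with h1 | h1
    · exact h1.2
    · exact absurd h1.2 hz.2
  obtain ⟨ηl, hηl, hlow⟩ := dist_lower hQc
    (hhU.continuousOn.mono (fun z hz => hOU (hηO hz.1))) hQp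
  -- closeness needed on the ball
  have himg : IsCompact (h '' closedBall (0 : Fin m → ℂ) r₀) :=
    hB.image_of_continuousOn (hhU.continuousOn.mono (hball.trans hKU))
  have hballne : (closedBall (0 : Fin m → ℂ) r₀).Nonempty := ⟨0, h0B⟩
  have hcontE : ContinuousOn (fun z => ‖e (h z) - z‖) (closedBall (0 : Fin m → ℂ) r₀) := by
    refine ContinuousOn.norm (ContinuousOn.sub ?_ continuousOn_id)
    exact e.continuousOn.comp (hhU.continuousOn.mono (hball.trans hKU)) (fun z hz => (hnear z hz).1)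
  obtain ⟨w, hw, hwmax⟩ := hB.exists_isMaxOn hballne hcontE
  set μ : ℝ := r₀ / 8 - ‖e (h w) - w‖ with hμ
  have hμpos : 0 < μ := by have := (hnear w hw).2; rw [hμ]; linarith
  obtain ⟨ε2, hε2, hchart⟩ := chart_near e himg
    (by rintro _ ⟨z, hz, rfl⟩; exact (hnear z hz).1) hμpos
  have hclose : ∀ z ∈ closedBall (0 : Fin m → ℂ) r₀, ∀ x, dist (h z) x < ε2 →
      x ∈ e.source ∧ ‖e x - z‖ < r₀ / 8 := by
    intro z hz x hx
    obtain ⟨h1, h2⟩ := hchart (h z) ⟨z, hz, rfl⟩ x hx
    refine ⟨h1, ?_⟩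
    have h3 : ‖e (h z) - z‖ ≤ ‖e (h w) - w‖ := hwmax hz
    have h4 : ‖e x - z‖ ≤ ‖e (h z) - e x‖ + ‖e (h z) - z‖ := by
      have : e x - z = -(e (h z) - e x) + (e (h z) - z) := by abel
      rw [this]
      refine (norm_add_le _ _).trans ?_
      rw [norm_neg]
    have h5 : ‖e (h z) - e x‖ < μ := h2
    rw [hμ] at h5
    linarith
  -- uniform continuity of `h` near `K'`
  set ε4 : ℝ := min ε2 ε / 2 with hε4
  have hε4p : 0 < ε4 := by positivity
  obtain ⟨δ4, hδ4, hunif⟩ := map_near hU hhU.continuousOn hK'c hKU hε4p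
  -- bound for the displacement
  set ηa : ℝ := min (min η (η / (‖l‖ + 1))) (min (δ4 / 2) (r₀ / 2)) with hηa
  have hηap : 0 < ηa := by positivity
  obtain ⟨ε3, hε3, hchart3⟩ := chart_near e (isCompact_singleton (x := p))
    (by intro x hx; rw [show x = p from hx]; exact hpe) (η := ηa / 2) (by positivity)
  set ε' : ℝ := min (min ε4 ε3) (ηl / 2) with hε'
  have hε'p : 0 < ε' := by positivity
  have hε'4 : ε' ≤ ε4 := (min_le_left _ _).trans (min_le_left _ _)
  have hε'3 : ε' ≤ ε3 := (min_le_left _ _).trans (min_le_right _ _)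
  have hε'l : ε' < ηl := (min_le_right _ _).trans_lt (by linarith)
  have hε'2 : ε' ≤ ε2 := hε'4.trans (by
    rw [hε4]
    have := min_le_left ε2 ε
    linarith)
  -- push
  have hpush := push (m := m) hY hKηc hKηconv l (a := a) (b := b + η) (by linarith) hU
    (fun z hz => hOU (hηO hz)) hhU (by
      intro z hz hza hzb
      rcases hηO ⟨hz, hzb⟩ with h1 | h1
      · exact h1.2
      · exfalso
        have h2 : z ∈ closedBall (0 : Fin m → ℂ) r₀ :=
          ball_subset_closedBall (ball_subset_ball (by linarith) h1.2)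
        have := hlB z h2
        linarith) hε'p
  obtain ⟨W, g0, hW, hKW, hg0, hg0d, hg0p⟩ := hpush
  have hK'η : ∀ z ∈ K', z ∈ Kη ∧ (l z).re ≤ b + η := fun z hz => ⟨hKKη hz.1, by
    have : (l z).re ≤ b := hz.2
    linarith⟩
  -- near the origin
  have hg0ball : ∀ z ∈ closedBall (0 : Fin m → ℂ) r₀, g0 z ∈ e.source ∧ ‖e (g0 z) - z‖ < r₀ / 8 := by
    intro z hz
    have h1 := hK'η z (hball hz)
    exact hclose z hz _ ((hg0d z h1.1 h1.2).trans_le hε'2)
  have hdiff : DifferentiableOn ℂ (fun z => e (g0 z)) (ball (0 : Fin m → ℂ) r₀) := by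
    refine (hg0.hchart he).mono ?_
    intro z hz
    exact ⟨hKW (hKKη (hball (ball_subset_closedBall hz)).1),
      (hg0ball z (ball_subset_closedBall hz)).1⟩
  obtain ⟨hinj, -, hlip, hsurj⟩ := near_id (f := fun z => e (g0 z)) hr₀ (δ := r₀ / 8) (by positivity)
    le_rfl hdiff (fun z hz => (hg0ball z (ball_subset_closedBall hz)).2.le)
  obtain ⟨a0, ha0, ha0e, -⟩ := hsurj 0 (mem_ball_self (by linarith))
  have ha0B : a0 ∈ closedBall (0 : Fin m → ℂ) r₀ :=
    ball_subset_closedBall (ball_subset_ball (by linarith) ha0)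
  have hga0 : g0 a0 = p := e.injOn (hg0ball a0 ha0B).1 hpe (by rw [hep]; exact ha0e)
  have h0r : (0 : Fin m → ℂ) ∈ ball (0 : Fin m → ℂ) (r₀ / 2) := mem_ball_self (by positivity)
  have ha0n : ‖a0‖ < ηa := by
    have h1 := hlip a0 ha0 0 h0r
    simp only [sub_zero] at h1
    have h2 : (fun z => e (g0 z)) a0 = 0 := ha0e
    have h3 : ‖a0‖ ≤ 2 * ‖e (g0 0)‖ := by
      have h4 : ‖(fun z => e (g0 z)) a0 - (fun z => e (g0 z)) 0‖ = ‖e (g0 0)‖ := by
        rw [h2]; simp
      rw [h4] at h1; exact h1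
    have h5 : dist p (g0 0) < ε3 := by
      have h6 := hK'η 0 (hball h0B)
      have h7 := hg0d 0 h6.1 h6.2
      rw [h0] at h7
      exact h7.trans_le hε'3
    have h8 := (hchart3 p rfl (g0 0) h5).2
    rw [hep, zero_sub, norm_neg] at h8
    linarith
  have ha0η : ‖a0‖ ≤ η := (ha0n.le).trans ((min_le_left _ _).trans (min_le_left _ _))
  have ha0l : ‖l‖ * ‖a0‖ ≤ η := by
    have h1 : ‖a0‖ ≤ η / (‖l‖ + 1) := (ha0n.le).trans ((min_le_left _ _).trans (min_le_right _ _))
    have h2 : 0 < ‖l‖ + 1 := by positivity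
    have h3 : (‖l‖ + 1) * ‖a0‖ ≤ η := by
      have := mul_le_mul_of_nonneg_left h1 h2.le
      rwa [mul_div_cancel₀ _ h2.ne'] at this
    nlinarith [norm_nonneg a0]
  have ha0δ : ‖a0‖ < δ4 := ha0n.trans_le (((min_le_right _ _).trans (min_le_left _ _)).trans
    (by linarith))
  have hshift : ∀ z ∈ K, z + a0 ∈ Kη := by
    intro z hz
    refine mem_cthickening_of_dist_le (z + a0) z η K hz ?_
    rw [dist_eq_norm]
    simpa using ha0η
  have hshift' : ∀ z ∈ K', z + a0 ∈ Kη ∧ (l (z + a0)).re ≤ b + η := by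
    intro z hz
    refine ⟨hshift z hz.1, ?_⟩
    have h1 : (l (z + a0)).re = (l z).re + (l a0).re := by simp
    have h2 : (l a0).re ≤ ‖l‖ * ‖a0‖ := (Complex.re_le_norm _).trans (l.le_opNorm a0)
    have h3 : (l z).re ≤ b := hz.2
    rw [h1]; linarith
  have hdist : ∀ z ∈ K', dist (h z) (g0 (z + a0)) < min ε2 ε := by
    intro z hz
    have h1 : dist (h z) (h (z + a0)) < ε4 := (hunif z hz (z + a0) (by
      rw [dist_eq_norm]; simpa using ha0δ)).2
    have h2 := hg0d (z + a0) (hshift' z hz).1 (hshift' z hz).2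
    calc dist (h z) (g0 (z + a0)) ≤ dist (h z) (h (z + a0)) + dist (h (z + a0)) (g0 (z + a0)) :=
          dist_triangle _ _ _
      _ < ε4 + ε4 := add_lt_add_of_lt_of_le h1 (h2.le.trans hε'4)
      _ = min ε2 ε := by rw [hε4]; ring
  refine ⟨fun z => g0 (z + a0), ⟨?_, fun z hz => (hball hz).1, ?_, ?_, ?_⟩, ?_⟩
  · refine ⟨(fun z => z + a0) ⁻¹' W, hW.preimage (continuous_id.add continuous_const),
      fun z hz => hKW (hshift z hz), ?_⟩
    exact hg0.comp ((differentiable_id.add_const a0).differentiableOn) (fun z hz => hz)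
  · show g0 (0 + a0) = p
    rw [zero_add]; exact hga0
  · intro z hz hz0 hzp
    have hzp' : g0 (z + a0) = p := hzp
    by_cases hzb : (l (z + a0)).re ≤ b + η
    · by_cases hzr : z + a0 ∈ ball (0 : Fin m → ℂ) (r₀ / 2)
      · have h1 : (fun z => e (g0 z)) (z + a0) = (fun z => e (g0 z)) a0 := by
          show e (g0 (z + a0)) = e (g0 a0)
          rw [hzp', hga0]
        have h2 := hinj hzr ha0 h1
        exact hz0 (by simpa using h2)
      · have h1 : z + a0 ∈ Q := ⟨⟨hshift z hz, hzb⟩, hzr⟩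
        have h2 := hlow _ h1
        have h3 := hg0d (z + a0) (hshift z hz) hzb
        rw [hzp'] at h3
        linarith
    · push Not at hzb
      exact hg0p (z + a0) (hshift z hz) (by linarith) hzp'
  · intro z hz
    exact hclose z hz _ ((hdist z (hball hz)).trans_le (min_le_left _ _))
  · intro z hz hzb
    exact (hdist z ⟨hz, hzb⟩).trans_le (min_le_right _ _)

/-- good maps on `K` extend, approximately, to good maps on larger compact convex sets. -/
theorem good_extend [IsManifold 𝓘(ℂ, Fin m → ℂ) ⊤ X] {p : X} (hY : CAPY m p)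
    {e : OpenPartialHomeomorph X (Fin m → ℂ)} (he : HChart m e) (hpe : p ∈ e.source) (hep : e p = 0)
    {r₀ : ℝ} (hr₀ : 0 < r₀) {K L : Set (Fin m → ℂ)} (hK : IsCompact K) (hcK : Convex ℝ K)
    (hL : IsCompact L) (hcL : Convex ℝ L) (hKL : K ⊆ L) {h : (Fin m → ℂ) → X}
    (hg : Good m p e r₀ K h) {ε : ℝ} (hε : 0 < ε) :
    ∃ g, Good m p e r₀ L g ∧ ∀ z ∈ K, dist (h z) (g z) < ε := by
  obtain ⟨⟨U, hU, hKU, hhU⟩, hball, h0, havoid, hnear⟩ := hg
  set O : Set (Fin m → ℂ) := (U ∩ h ⁻¹' {p}ᶜ) ∪ (U ∩ ball 0 r₀) with hOdef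
  have hO : IsOpen O := (isOpen_preimage_of_holOn hU hhU isOpen_compl_singleton).union
    (hU.inter isOpen_ball)
  have hOU : O ⊆ U := union_subset inter_subset_left inter_subset_left
  have hKO : K ⊆ O := by
    intro z hz
    by_cases hz0 : z = 0
    · exact Or.inr ⟨hKU hz, by rw [hz0]; exact mem_ball_self hr₀⟩
    · exact Or.inl ⟨hKU hz, havoid z hz hz0⟩
  have key : ∀ ε > 0, ∃ g, Good m p e r₀ L g ∧ ∀ z ∈ K, dist (h z) (g z) < ε := by
    refine convex_chain hK hcK hL hcL hKL hO hKO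
      (fun K' => ∀ ε > 0, ∃ g, Good m p e r₀ K' g ∧ ∀ z ∈ K, dist (h z) (g z) < ε) ?_ ?_
    · intro K' _ _ hKK' hK'O _ ε hε
      refine ⟨h, ⟨⟨U, hU, hK'O.trans hOU, hhU⟩, hball.trans hKK', h0, ?_, hnear⟩,
        fun z _ => by rw [dist_self]; exact hε⟩
      intro z hz hz0
      rcases hK'O hz with h1 | h1
      · exact h1.2
      · exact havoid z (hball (ball_subset_closedBall h1.2)) hz0
    · intro K' l b hK'c hK'conv hKK' _ hlb hP ε hε
      obtain ⟨g1, hg1, hd1⟩ := hP (ε / 2) (by positivity)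
      obtain ⟨g2, hg2, hd2⟩ := good_push hY he hpe hep hr₀ hK'c hK'conv l
        (fun z hz => hlb z (hball hz)) hg1 (ε := ε / 2) (by positivity)
      refine ⟨g2, hg2, fun z hz => ?_⟩
      calc dist (h z) (g2 z) ≤ dist (h z) (g1 z) + dist (g1 z) (g2 z) := dist_triangle _ _ _
        _ < ε / 2 + ε / 2 := add_lt_add (hd1 z hz) (hd2 z (hKK' hz) (hlb z hz).le)
        _ = ε := by ring
  exact key ε hε

end OkaP
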