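import Mathlib

/-!
# MP_ceb9a9, chapter 1: the convex function `x exp (-1/x)`
-/

set_option autoImplicit false

open Set Metric Topology
open scoped ContDiff

noncomputable section
namespace OkaP

/-- smooth, convex, nondecreasing; zero exactly on `(-∞, 0]` -/
def hc (x : ℝ) : ℝ := x * expNegInvGlue x

private theorem hcFun_glue (x : ℝ) : HasDerivAt expNegInvGlue (x⁻¹ ^ 2 * expNegInvGlue x) x := by
  have h := expNegInvGlue.hasDerivAt_polynomial_eval_inv_mul (1 : Polynomial ℝ) x
  simpa using h

private theorem hcFun_d1 (x : ℝ) :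
    HasDerivAt hc ((1 + Polynomial.X : Polynomial ℝ).eval x⁻¹ * expNegInvGlue x) x := by
  have h := (hasDerivAt_id x).mul (hcFun_glue x)
  have e : 1 * expNegInvGlue x + x * (x⁻¹ ^ 2 * expNegInvGlue x) =
      (1 + Polynomial.X : Polynomial ℝ).eval x⁻¹ * expNegInvGlue x := by
    simp only [Polynomial.eval_add, Polynomial.eval_one, Polynomial.eval_X]
    by_cases hx : x = 0
    · subst hx
      simp
    · field_simp
  rw [← e]
  exact h

private theorem hcFun_deriv :
    deriv hc = fun x => (1 + Polynomial.X : Polynomial ℝ).eval x⁻¹ * expNegInvGlue x :=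
  funext fun x => (hcFun_d1 x).deriv

private theorem hcFun_d2 (x : ℝ) : HasDerivAt (deriv hc) (x⁻¹ ^ 3 * expNegInvGlue x) x := by
  rw [hcFun_deriv]
  have h := expNegInvGlue.hasDerivAt_polynomial_eval_inv_mul (1 + Polynomial.X : Polynomial ℝ) x
  convert h using 2
  simp
  ring

theorem hc_smooth : ContDiff ℝ ∞ hc := contDiff_id.mul expNegInvGlue.contDiff

theorem hc_zero {x : ℝ} (hx : x ≤ 0) : hc x = 0 := by
  unfold hc
  rw [expNegInvGlue.zero_of_nonpos hx, mul_zero]

theorem hc_pos {x : ℝ} (hx : 0 < x) : 0 < hc x := mul_pos hx (expNegInvGlue.pos_of_pos hx)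

theorem hc_nonneg (x : ℝ) : 0 ≤ hc x := by
  rcases le_or_gt x 0 with h | h
  · rw [hc_zero h]
  · exact (hc_pos h).le

theorem hc_deriv_pos {x : ℝ} (hx : 0 < x) : 0 < deriv hc x := by
  rw [hcFun_deriv]
  simp only [Polynomial.eval_add, Polynomial.eval_one, Polynomial.eval_X]
  have := expNegInvGlue.pos_of_pos hx
  positivity

theorem hc_deriv_nonneg (x : ℝ) : 0 ≤ deriv hc x := by
  rcases le_or_gt x 0 with h | h
  · rw [hcFun_deriv]
    simp only [expNegInvGlue.zero_of_nonpos h, mul_zero, le_refl]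
  · exact (hc_deriv_pos h).le

theorem hc_mono : Monotone hc :=
  monotone_of_deriv_nonneg (fun x => (hcFun_d1 x).differentiableAt) hc_deriv_nonneg

theorem hc_deriv2_nonneg (x : ℝ) : 0 ≤ deriv (deriv hc) x := by
  rw [(hcFun_d2 x).deriv]
  rcases le_or_gt x 0 with h | h
  · rw [expNegInvGlue.zero_of_nonpos h, mul_zero]
  · have := expNegInvGlue.pos_of_pos h
    positivity

theorem hc_deriv_mono : Monotone (deriv hc) :=
  monotone_of_deriv_nonneg (fun x => (hcFun_d2 x).differentiableAt) hc_deriv2_nonneg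

theorem hc_tendsto : Filter.Tendsto hc Filter.atTop Filter.atTop := by
  have h1 : Filter.Tendsto (fun x : ℝ => x * expNegInvGlue 1) Filter.atTop Filter.atTop :=
    Filter.tendsto_id.atTop_mul_const (expNegInvGlue.pos_of_pos one_pos)
  refine Filter.tendsto_atTop_mono' _ ?_ h1
  filter_upwards [Filter.eventually_ge_atTop 1] with x hx
  exact mul_le_mul_of_nonneg_left (expNegInvGlue.monotone hx) (by linarith)

end OkaP
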