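import Pool.Agent.H.MP_ceb9a9.Defs

/-!
# MP_ceb9a9: holomorphic states
-/

set_option autoImplicit false
open Set Metric Filter
open scoped Topology Manifold

namespace OkaP

variable {m : ℕ} {X : Type} [MetricSpace X] [ChartedSpace (Fin m → ℂ) X]
variable {E : Type} [NormedAddCommGroup E] [NormedSpace ℂ E]

/-- a holomorphic etale family near `D` whose base map avoids `p` on `D` minus `Z` -/
structure HolState (p : X) (Z D : Set E) (G : E × (Fin m → ℂ) → X) (r : ℝ) : Prop where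
  rpos : 0 < r
  nhd : ∃ U : Set E, IsOpen U ∧ D ⊆ U ∧ EtHol G U r
  avoid : ∀ x ∈ D, x ∉ Z → G (x, 0) ≠ p

/-- every holomorphic state on `D` can be extended to `D'` after a small change on `D` -/
def HolMove (m : ℕ) {X : Type} [MetricSpace X] [ChartedSpace (Fin m → ℂ) X] {E : Type}
    [NormedAddCommGroup E] [NormedSpace ℂ E] (p : X) (Z D D' : Set E) : Prop :=
  D ⊆ D' ∧ ∀ (G : E × (Fin m → ℂ) → X) (r : ℝ), HolState p Z D G r → ∀ η > 0,
    ∃ (G' : E × (Fin m → ℂ) → X) (r' : ℝ), HolState p Z D' G' r' ∧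
      ∀ x ∈ D, dist (G' (x, 0)) (G (x, 0)) < η

theorem HolMove.trans {p : X} {Z D D' D'' : Set E} (h : HolMove m p Z D D')
    (h' : HolMove m p Z D' D'') : HolMove m p Z D D'' := by
  refine ⟨h.1.trans h'.1, fun G r hG η hη => ?_⟩
  obtain ⟨G', r', hG', hd⟩ := h.2 G r hG (η / 2) (by positivity)
  obtain ⟨G'', r'', hG'', hd'⟩ := h'.2 G' r' hG' (η / 2) (by positivity)
  refine ⟨G'', r'', hG'', fun x hx => ?_⟩
  calc dist (G'' (x, 0)) (G (x, 0)) ≤ dist (G'' (x, 0)) (G' (x, 0)) + dist (G' (x, 0)) (G (x, 0)) :=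
        dist_triangle _ _ _
    _ < η / 2 + η / 2 := add_lt_add (hd' x (h.1 hx)) (hd x hx)
    _ = η := by ring

theorem HolMove.refl (p : X) (Z D : Set E) : HolMove m p Z D D :=
  ⟨Subset.rfl, fun G r hG η hη => ⟨G, r, hG, fun x _ => by simpa using hη⟩⟩

end OkaP
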