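import Pool.Agent.H.MP_ceb9a9.FGeom

/-!
# MP_ceb9a9: the transport maps `q_s` over the convex set
-/

set_option autoImplicit false

open scoped Manifold

namespace OkaP

open Set Metric Topology

variable {m : ℕ} {X : Type} [MetricSpace X] [ChartedSpace (Fin m → ℂ) X]
  {p : X} {S : SigmaData m p} {E : Type}
  [NormedAddCommGroup E] [NormedSpace ℂ E] {κ : E → ℝ}
  {fs f1 f2 : E → X} {D : LocData S {x | κ x ≤ 1} fs} {k : ℕ} {ηK : ℝ}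
  {KS : KSideData D f1 f2 k ηK} {s4 R' η ε1 : ℝ}

/-- the transport in the coordinates of `D.Φ` -/
noncomputable def qmap (A : FData KS s4 R' η ε1) (U1 : E × (Fin m → ℂ) → (Fin m → ℂ))
    (q : (E × ℝ) × (Fin m → ℂ)) : Fin m → ℂ :=
  D.G (q.1.1, S.e (A.T.Er (((1 - q.1.2 : ℝ) : ℂ) • A.tt q.1.1, U1 (q.1.1, q.2))))

/-- the properties of `U1` used everywhere -/
structure U1Spec (A : FData KS s4 R' η ε1) (U1 : E × (Fin m → ℂ) → (Fin m → ℂ)) : Prop where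
  hol : DifferentiableOn ℂ U1 (({x | κ x < s4} ∩ D.V D.c1) ×ˢ ball (0 : Fin m → ℂ) D.r1)
  spec : ∀ x, κ x < s4 → x ∈ D.V D.c1 → ∀ v ∈ ball (0 : Fin m → ℂ) D.r1,
    A.T.Er (A.tt x, U1 (x, v)) = D.Φ (x, v) ∧
    ‖U1 (x, v) - (S.e (D.Φ (x, v)) - A.tt x)‖ ≤ ε1 ∧ ‖U1 (x, v)‖ < 3 * D.c1

/-- the estimates for one point -/
theorem qmap_core (A : FData KS s4 R' η ε1) {U1 : E × (Fin m → ℂ) → (Fin m → ℂ)}
    (hU : U1Spec A U1) (hη : η ≤ D.c1 / 8) (hε : ε1 ≤ D.c1 / 8)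
    {x : E} (hx : κ x < s4) (hxV : x ∈ D.V D.c1) {s : ℝ} (hs : s ∈ Icc (0 : ℝ) 1)
    {v : Fin m → ℂ} (hv : v ∈ ball (0 : Fin m → ℂ) D.r1) :
    (((1 - s : ℝ) : ℂ) • A.tt x ∈ ball (0 : Fin m → ℂ) S.c) ∧
    (U1 (x, v) ∈ ball (0 : Fin m → ℂ) S.c) ∧
    A.T.Er (((1 - s : ℝ) : ℂ) • A.tt x, U1 (x, v)) ∈ S.e.source ∧
    ‖S.e (A.T.Er (((1 - s : ℝ) : ℂ) • A.tt x, U1 (x, v))) - S.e (D.Φ (x, v))‖ ≤ η + 2 * ε1 ∧
    ‖S.e (A.T.Er (((1 - s : ℝ) : ℂ) • A.tt x, U1 (x, v)))‖ < 3 * D.c1 := by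
  have hc := D.c1_pos
  have hcS := D.c1_le
  have hSc := S.c_pos
  have ht : ‖A.tt x‖ ≤ η := A.tt_small x hx
  have h1s : ‖((1 - s : ℝ) : ℂ)‖ ≤ 1 := by
    rw [Complex.norm_real, Real.norm_eq_abs, abs_of_nonneg (by linarith [hs.2])]
    linarith [hs.1]
  have hts : ‖((1 - s : ℝ) : ℂ) • A.tt x‖ ≤ ‖A.tt x‖ := by
    rw [norm_smul]
    exact mul_le_of_le_one_left (norm_nonneg _) h1s
  obtain ⟨_, hu1, hu2⟩ := hU.spec x hx hxV v hv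
  have hm1 : ((1 - s : ℝ) : ℂ) • A.tt x ∈ ball (0 : Fin m → ℂ) S.c := by
    rw [mem_ball_zero_iff]; linarith
  have hm2 : U1 (x, v) ∈ ball (0 : Fin m → ℂ) S.c := by
    rw [mem_ball_zero_iff]; linarith
  obtain ⟨hsrc, hcl⟩ := A.T.close _ hm1 _ hm2
  obtain ⟨_, hZ⟩ := D.Z_spec x hxV.1 hxV.2.1 hxV.2.2 v hv
  have hst : ‖((1 - s : ℝ) : ℂ) • A.tt x - A.tt x‖ ≤ η := by
    have e : ((1 - s : ℝ) : ℂ) • A.tt x - A.tt x = -((s : ℂ) • A.tt x) := by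
      push_cast
      rw [sub_smul, one_smul]
      abel
    rw [e, norm_neg, norm_smul, Complex.norm_real, Real.norm_eq_abs, abs_of_nonneg hs.1]
    calc s * ‖A.tt x‖ ≤ 1 * ‖A.tt x‖ := mul_le_mul_of_nonneg_right hs.2 (norm_nonneg _)
      _ ≤ η := by rw [one_mul]; exact ht
  have key : ‖S.e (A.T.Er (((1 - s : ℝ) : ℂ) • A.tt x, U1 (x, v))) - S.e (D.Φ (x, v))‖ ≤
      η + 2 * ε1 := by
    have e : S.e (A.T.Er (((1 - s : ℝ) : ℂ) • A.tt x, U1 (x, v))) - S.e (D.Φ (x, v)) =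
        (S.e (A.T.Er (((1 - s : ℝ) : ℂ) • A.tt x, U1 (x, v))) -
          (((1 - s : ℝ) : ℂ) • A.tt x + U1 (x, v))) +
        (U1 (x, v) - (S.e (D.Φ (x, v)) - A.tt x)) +
        (((1 - s : ℝ) : ℂ) • A.tt x - A.tt x) := by abel
    rw [e]
    refine (norm_add₃_le).trans ?_
    linarith
  refine ⟨hm1, hm2, hsrc, key, ?_⟩
  calc ‖S.e (A.T.Er (((1 - s : ℝ) : ℂ) • A.tt x, U1 (x, v)))‖
      = ‖(S.e (A.T.Er (((1 - s : ℝ) : ℂ) • A.tt x, U1 (x, v))) - S.e (D.Φ (x, v))) +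
          S.e (D.Φ (x, v))‖ := by rw [sub_add_cancel]
    _ ≤ ‖S.e (A.T.Er (((1 - s : ℝ) : ℂ) • A.tt x, U1 (x, v))) - S.e (D.Φ (x, v))‖ +
          ‖S.e (D.Φ (x, v))‖ := norm_add_le _ _
    _ < 3 * D.c1 := by linarith

theorem qmap_V_mono {a b : ℝ} (hab : a ≤ b) : D.V a ⊆ D.V b :=
  fun _ hx => ⟨hx.1, hx.2.1, hx.2.2.trans_le hab⟩

/-- the values of one point -/
theorem qmap_point (A : FData KS s4 R' η ε1) {U1 : E × (Fin m → ℂ) → (Fin m → ℂ)}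
    (hU : U1Spec A U1) (hη : η ≤ D.c1 / 8) (hε : ε1 ≤ D.c1 / 8)
    {x : E} (hx : κ x < s4) (hxV : x ∈ D.V D.c1) {s : ℝ} (hs : s ∈ Icc (0 : ℝ) 1)
    {v : Fin m → ℂ} (hv : v ∈ ball (0 : Fin m → ℂ) D.r1) :
    ‖qmap A U1 ((x, s), v) - v‖ ≤ D.L * (η + 2 * ε1) ∧
      qmap A U1 ((x, s), v) ∈ ball (0 : Fin m → ℂ) (D.r0 / 4) ∧
      D.Φ (x, qmap A U1 ((x, s), v)) =
        A.T.Er (((1 - s : ℝ) : ℂ) • A.tt x, U1 (x, v)) := by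
  have hc := D.c1_pos
  have hcS := D.c1_le
  have hSc := S.c_pos
  obtain ⟨hm1, hm2, hsrc, h1, h2⟩ := qmap_core A hU hη hε hx hxV hs hv
  obtain ⟨_, hZ⟩ := D.Z_spec x hxV.1 hxV.2.1 hxV.2.2 v hv
  have hw4 : S.e (A.T.Er (((1 - s : ℝ) : ℂ) • A.tt x, U1 (x, v))) ∈
      ball (0 : Fin m → ℂ) (4 * D.c1) := by rw [mem_ball_zero_iff]; linarith
  have hw3 : S.e (A.T.Er (((1 - s : ℝ) : ℂ) • A.tt x, U1 (x, v))) ∈
      ball (0 : Fin m → ℂ) (3 * D.c1) := by rw [mem_ball_zero_iff]; linarith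
  have hw8 : S.e (A.T.Er (((1 - s : ℝ) : ℂ) • A.tt x, U1 (x, v))) ∈
      ball (0 : Fin m → ℂ) (8 * S.c) := by rw [mem_ball_zero_iff]; linarith
  have hZ3 : S.e (D.Φ (x, v)) ∈ ball (0 : Fin m → ℂ) (3 * D.c1) := by
    rw [mem_ball_zero_iff]; linarith
  obtain ⟨h3, h4⟩ := D.G_spec x hxV.1 hxV.2.1 hxV.2.2 _ hw4
  refine ⟨?_, h3, ?_⟩
  · have h5 := D.G_lip x hxV.1 hxV.2.1 hxV.2.2 _ hw3 _ hZ3
    rw [D.G_Z hxV hv] at h5
    refine h5.trans ?_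
    exact mul_le_mul_of_nonneg_left h1 (by linarith [D.L_ge])
  · change D.Φ (x, D.G (x, S.e (A.T.Er (((1 - s : ℝ) : ℂ) • A.tt x, U1 (x, v))))) = _
    rw [h4, ← S.symm_eq _ hw8, S.e.left_inv hsrc]

theorem qmap_props [IsManifold 𝓘(ℂ, Fin m → ℂ) ⊤ X] [FiniteDimensional ℂ E]
    (A : FData KS s4 R' η ε1) {U1 : E × (Fin m → ℂ) → (Fin m → ℂ)} (hU : U1Spec A U1)
    (hκ : Continuous κ)
    (hη : η ≤ D.c1 / 8) (hηr : η < D.r1) (hε : ε1 ≤ D.c1 / 8) (hε0 : 0 < ε1)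
    (hs4 : s4 ≤ 1 / 2) :
    ContinuousOn (qmap A U1) ((({x | κ x < s4} ∩ D.V D.c1) ×ˢ Icc (0 : ℝ) 1) ×ˢ
      ball (0 : Fin m → ℂ) D.r1) ∧
    (∀ x, κ x < s4 → x ∈ D.V D.c1 → ∀ s ∈ Icc (0 : ℝ) 1,
      DifferentiableOn ℂ (fun v => qmap A U1 ((x, s), v)) (ball (0 : Fin m → ℂ) D.r1)) ∧
    (∀ x, κ x < s4 → x ∈ D.V D.c1 → ∀ s ∈ Icc (0 : ℝ) 1, ∀ v ∈ ball (0 : Fin m → ℂ) D.r1,
      ‖qmap A U1 ((x, s), v) - v‖ ≤ D.L * (η + 2 * ε1) ∧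
      qmap A U1 ((x, s), v) ∈ ball (0 : Fin m → ℂ) (D.r0 / 4) ∧
      D.Φ (x, qmap A U1 ((x, s), v)) =
        A.T.Er (((1 - s : ℝ) : ℂ) • A.tt x, U1 (x, v))) ∧
    (∀ x, κ x < s4 → x ∈ D.V D.c1 → ∀ v ∈ ball (0 : Fin m → ℂ) D.r1,
      qmap A U1 ((x, 0), v) = v ∧ qmap A U1 ((x, 1), v) = D.G (x, U1 (x, v))) ∧
    (∀ x, κ x < s4 → x ∈ D.V (D.c1 / 2) → ∀ s ∈ Icc (0 : ℝ) 1,
      U1 (x, A.cF x) = A.û x ∧ qmap A U1 ((x, s), A.cF x) = A.cH (x, s)) ∧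
    (∀ x, κ x < s4 → A.cH (x, 0) = A.cF x) := by
  have hc := D.c1_pos
  have hcS := D.c1_le
  have hSc := S.c_pos
  have hR := A.R_gt
  have hrr := D.r1_le
  have hr0 := D.r0_pos
  have hz0 : (0 : ℝ) ∈ Icc (0 : ℝ) 1 := ⟨le_rfl, zero_le_one⟩
  have hz1 : (1 : ℝ) ∈ Icc (0 : ℝ) 1 := ⟨zero_le_one, le_rfl⟩
  refine ⟨?_, ?_, fun x hx hxV s hs v hv => qmap_point A hU hη hε hx hxV hs hv, ?_, ?_, ?_⟩
  · -- continuity
    have hU1c : ContinuousOn (fun q : (E × ℝ) × (Fin m → ℂ) => U1 (q.1.1, q.2))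
        ((({x | κ x < s4} ∩ D.V D.c1) ×ˢ Icc (0 : ℝ) 1) ×ˢ ball (0 : Fin m → ℂ) D.r1) := by
      refine hU.hol.continuousOn.comp (Continuous.continuousOn (by fun_prop)) ?_
      rintro ⟨⟨x, s⟩, v⟩ ⟨⟨hx, _⟩, hv⟩
      exact ⟨hx, hv⟩
    have htt : Continuous A.tt := A.tt_hol.continuous
    have hpair : ContinuousOn (fun q : (E × ℝ) × (Fin m → ℂ) =>
        ((((1 - q.1.2 : ℝ) : ℂ) • A.tt q.1.1, U1 (q.1.1, q.2)) : (Fin m → ℂ) × (Fin m → ℂ)))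
        ((({x | κ x < s4} ∩ D.V D.c1) ×ˢ Icc (0 : ℝ) 1) ×ˢ ball (0 : Fin m → ℂ) D.r1) := by
      refine ContinuousOn.prodMk (Continuous.continuousOn ?_) hU1c
      have hc1 : Continuous fun q : (E × ℝ) × (Fin m → ℂ) => ((1 - q.1.2 : ℝ) : ℂ) := by
        fun_prop
      exact hc1.smul (htt.comp (by fun_prop))
    have hEr : ContinuousOn (fun q : (E × ℝ) × (Fin m → ℂ) =>
        A.T.Er (((1 - q.1.2 : ℝ) : ℂ) • A.tt q.1.1, U1 (q.1.1, q.2)))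
        ((({x | κ x < s4} ∩ D.V D.c1) ×ˢ Icc (0 : ℝ) 1) ×ˢ ball (0 : Fin m → ℂ) D.r1) := by
      refine A.T.hol.continuousOn.comp hpair ?_
      rintro ⟨⟨x, s⟩, v⟩ ⟨⟨⟨hx, hxV⟩, hs⟩, hv⟩
      obtain ⟨hm1, hm2, _⟩ := qmap_core A hU hη hε hx hxV hs hv
      refine ⟨?_, ?_⟩
      · exact ball_subset_ball hR.le hm1
      · show ‖U1 (x, v)‖ < A.T.r (((1 - s : ℝ) : ℂ) • A.tt x)
        rw [A.T.r_c _ hm1]
        exact mem_ball_zero_iff.1 hm2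
    have hw : ContinuousOn (fun q : (E × ℝ) × (Fin m → ℂ) =>
        S.e (A.T.Er (((1 - q.1.2 : ℝ) : ℂ) • A.tt q.1.1, U1 (q.1.1, q.2))))
        ((({x | κ x < s4} ∩ D.V D.c1) ×ˢ Icc (0 : ℝ) 1) ×ˢ ball (0 : Fin m → ℂ) D.r1) := by
      refine S.e.continuousOn.comp hEr ?_
      rintro ⟨⟨x, s⟩, v⟩ ⟨⟨⟨hx, hxV⟩, hs⟩, hv⟩
      exact (qmap_core A hU hη hε hx hxV hs hv).2.2.1
    refine D.G_hol.continuousOn.comp
      (ContinuousOn.prodMk (Continuous.continuousOn (by fun_prop)) hw) ?_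
    rintro ⟨⟨x, s⟩, v⟩ ⟨⟨⟨hx, hxV⟩, hs⟩, hv⟩
    refine ⟨hxV, ?_⟩
    have := (qmap_core A hU hη hε hx hxV hs hv).2.2.2.2
    show S.e (A.T.Er (((1 - s : ℝ) : ℂ) • A.tt x, U1 (x, v))) ∈ ball (0 : Fin m → ℂ) (4 * D.c1)
    rw [mem_ball_zero_iff]
    linarith
  · -- holomorphy in the fibre
    intro x hx hxV s hs
    have hu : DifferentiableOn ℂ (fun v => U1 (x, v)) (ball (0 : Fin m → ℂ) D.r1) := by
      refine hU.hol.comp ((differentiable_const x).prodMk differentiable_id).differentiableOn ?_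
      intro v hv
      exact ⟨⟨hx, hxV⟩, hv⟩
    have hEr : HolOn m (fun v => A.T.Er (((1 - s : ℝ) : ℂ) • A.tt x, U1 (x, v)))
        (ball (0 : Fin m → ℂ) D.r1) := by
      refine HolOn.comp (g := fun v => (((1 - s : ℝ) : ℂ) • A.tt x, U1 (x, v))) A.T.hol
        ((differentiableOn_const _).prodMk hu) ?_
      intro v hv
      obtain ⟨hm1, hm2, _⟩ := qmap_core A hU hη hε hx hxV hs hv
      refine ⟨ball_subset_ball hR.le hm1, ?_⟩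
      show ‖U1 (x, v)‖ < A.T.r (((1 - s : ℝ) : ℂ) • A.tt x)
      rw [A.T.r_c _ hm1]
      exact mem_ball_zero_iff.1 hm2
    have hw : DifferentiableOn ℂ (fun v =>
        S.e (A.T.Er (((1 - s : ℝ) : ℂ) • A.tt x, U1 (x, v)))) (ball (0 : Fin m → ℂ) D.r1) := by
      refine (hEr.hchart S.chart).mono ?_
      intro v hv
      exact ⟨hv, (qmap_core A hU hη hε hx hxV hs hv).2.2.1⟩
    refine D.G_hol.comp ((differentiableOn_const x).prodMk hw) ?_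
    intro v hv
    refine ⟨hxV, ?_⟩
    have := (qmap_core A hU hη hε hx hxV hs hv).2.2.2.2
    show S.e (A.T.Er (((1 - s : ℝ) : ℂ) • A.tt x, U1 (x, v))) ∈ ball (0 : Fin m → ℂ) (4 * D.c1)
    rw [mem_ball_zero_iff]
    linarith
  · -- s = 0 and s = 1
    intro x hx hxV v hv
    constructor
    · show D.G (x, S.e (A.T.Er (((1 - 0 : ℝ) : ℂ) • A.tt x, U1 (x, v)))) = v
      rw [sub_zero, Complex.ofReal_one, one_smul, (hU.spec x hx hxV v hv).1]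
      exact D.G_Z hxV hv
    · show D.G (x, S.e (A.T.Er (((1 - 1 : ℝ) : ℂ) • A.tt x, U1 (x, v)))) = _
      have hm2 := (qmap_core A hU hη hε hx hxV hz1 hv).2.1
      have hm8 : U1 (x, v) ∈ ball (0 : Fin m → ℂ) (8 * S.c) :=
        ball_subset_ball (by linarith) hm2
      rw [sub_self, Complex.ofReal_zero, zero_smul, A.T.zero _ hm2, ← S.symm_eq _ hm8,
        S.e.right_inv (S.target hm8)]
  · -- the section
    intro x hx hxV2 s hs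
    have hxV : x ∈ D.V D.c1 := qmap_V_mono (by linarith) hxV2
    obtain ⟨hF1, _, hF3⟩ := A.cF_spec x hx
    have hcF : A.cF x ∈ ball (0 : Fin m → ℂ) D.r1 := by
      rw [mem_ball_zero_iff]; linarith
    obtain ⟨hu1, _, hu3⟩ := hU.spec x hx hxV _ hcF
    have ht : A.tt x ∈ ball (0 : Fin m → ℂ) S.c := by
      rw [mem_ball_zero_iff]
      linarith [A.tt_small x hx]
    have htR : A.tt x ∈ ball (0 : Fin m → ℂ) A.R := ball_subset_ball hR.le ht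
    have hrt : A.T.r (A.tt x) = S.c := A.T.r_c _ ht
    have hxF : x ∈ A.UF := A.s4_UF hx
    have hN : x ∈ A.N := by
      refine A.N_mem x hxF (U1 (x, A.cF x)) ?_ ?_
      · rw [hrt]; linarith
      · rw [hu1, hF3]
    obtain ⟨hû1, hû2⟩ := A.û_spec x hN
    have hUû : U1 (x, A.cF x) = A.û x := by
      refine A.T.inj (A.tt x) htR ?_ ?_ ?_
      · rw [mem_ball_zero_iff, hrt]; linarith
      · rw [mem_ball_zero_iff]
        rw [hrt] at hû1 ⊢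
        linarith
      · show A.T.Er (A.tt x, U1 (x, A.cF x)) = A.T.Er (A.tt x, A.û x)
        rw [hu1, hF3, hû2]
    refine ⟨hUû, ?_⟩
    obtain ⟨_, hq2, hq3⟩ := qmap_point A hU hη hε hx hxV hs hcF
    obtain ⟨hH1, hH2⟩ := A.cH_spec x hx s hs
    refine D.hol.inj x hxV.1 ?_ ?_ ?_
    · exact ball_subset_ball (by linarith) hq2
    · rw [mem_ball_zero_iff]; linarith
    · show D.Φ (x, qmap A U1 ((x, s), A.cF x)) = D.Φ (x, A.cH (x, s))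
      rw [hq3, hH2, hUû, (A.θ_tube hN hs).2]
  · intro x hx
    obtain ⟨hF1, _, hF3⟩ := A.cF_spec x hx
    obtain ⟨hH1, hH2⟩ := A.cH_spec x hx 0 hz0
    have hxU : x ∈ D.U := D.K_U (by
      show κ x ≤ 1
      linarith)
    have htR : A.tt x ∈ ball (0 : Fin m → ℂ) A.R :=
      mem_ball_zero_iff.2 (A.tt_le x (A.s4_UF hx))
    refine D.hol.inj x hxU ?_ ?_ ?_
    · rw [mem_ball_zero_iff]; linarith
    · rw [mem_ball_zero_iff]; linarith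
    · show D.Φ (x, A.cH (x, 0)) = D.Φ (x, A.cF x)
      rw [hH2, A.T.θ_zero _ _ htR, hF3]

end OkaP
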