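import Pool.Agent.H.MP_ceb9a9.EsCont

/-!
# MP_ceb9a9: relative extension of continuous etale families
-/

set_option autoImplicit false

open scoped Manifold

namespace OkaP

open Set Metric Topology

variable {m : ℕ} {X : Type} [MetricSpace X] [ChartedSpace (Fin m → ℂ) X]

/-- relative version: extension of a family given over `N × [0,1]` and over `K × {0}` -/
theorem relExt [IsManifold 𝓘(ℂ, Fin m → ℂ) ⊤ X] {T : Type} [NormedAddCommGroup T]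
    [NormedSpace ℝ T] [FiniteDimensional ℝ T] {K : Set T} (hK : IsCompact K) {ρ : T → T}
    (hρ : Continuous ρ) (hρK : ∀ x, ρ x ∈ K) (hρid : ∀ x ∈ K, ρ x = x)
    {H : T × ℝ → X} (hH : ContinuousOn H (K ×ˢ Icc (0 : ℝ) 1))
    {S' N : Set T} (hS' : IsClosed S') (hN : IsOpen N) (hSN : S' ⊆ N)
    {Ψ : T × (Fin m → ℂ) → X} {r1 : ℝ} (hr1 : 0 < r1) (hΨ : EtCont Ψ K r1)
    (hΨb : ∀ x ∈ K, Ψ (x, 0) = H (x, 0))
    {𝓔 : (T × ℝ) × (Fin m → ℂ) → X} (h𝓔 : EtCont 𝓔 ((K ∩ N) ×ˢ Icc (0 : ℝ) 1) r1)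
    (h𝓔b : ∀ x ∈ K ∩ N, ∀ s ∈ Icc (0 : ℝ) 1, 𝓔 ((x, s), 0) = H (x, s))
    (h𝓔0 : ∀ x ∈ K ∩ N, ∀ u ∈ ball (0 : Fin m → ℂ) r1, 𝓔 ((x, 0), u) = Ψ (x, u)) :
    ∃ r > 0, ∃ Φ : T × (Fin m → ℂ) → X, EtCont Φ K r ∧ (∀ x ∈ K, Φ (x, 0) = H (x, 1)) ∧
      ∃ N' : Set T, IsOpen N' ∧ S' ⊆ N' ∧ ∀ x ∈ K ∩ N', ∀ u ∈ ball (0 : Fin m → ℂ) r,
        Φ (x, u) = 𝓔 ((x, 1), u) := by
  classical
  have h01 : (0 : ℝ) ≤ 1 := zero_le_one
  have m0 : (0 : ℝ) ∈ Icc (0 : ℝ) 1 := ⟨le_refl _, h01⟩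
  have m1 : (1 : ℝ) ∈ Icc (0 : ℝ) 1 := ⟨h01, le_refl _⟩
  -- the family over `K × [0,1]`
  obtain ⟨r0, hr0, F0, hF0, hF0b⟩ := esCont (m := m) (X := X) (T := T × ℝ)
    (K := K ×ˢ Icc (0 : ℝ) 1) (hK.prod isCompact_Icc)
    (ρ := fun z => (ρ z.1, max 0 (min z.2 1)))
    ((hρ.comp continuous_fst).prodMk (continuous_const.max (continuous_snd.min continuous_const)))
    (fun z => ⟨hρK z.1, le_max_left _ _, max_le h01 (min_le_right _ _)⟩)
    (fun z hz => by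
      obtain ⟨hz1, hz2, hz3⟩ := hz
      refine Prod.ext (hρid _ hz1) ?_
      simp only
      rw [min_eq_left hz3, max_eq_right hz2]) hH
  -- nested neighbourhoods
  obtain ⟨N1, hN1o, hSN1, hN1N⟩ := normal_exists_closure_subset hS' hN hSN
  obtain ⟨N2, hN2o, hN12, hN2N⟩ := normal_exists_closure_subset isClosed_closure hN hN1N
  obtain ⟨lam, hlam0, hlam1, hlamI⟩ := exists_continuous_zero_one_of_isClosed
    (s := N2ᶜ) (t := closure N1) hN2o.isClosed_compl isClosed_closure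
    (disjoint_compl_left_iff_subset.2 hN12)
  -- transitions
  have hA : IsCompact ((K ∩ closure N2) ×ˢ Icc (0 : ℝ) 1) :=
    (hK.inter_right isClosed_closure).prod isCompact_Icc
  have hAN : (K ∩ closure N2) ×ˢ Icc (0 : ℝ) 1 ⊆ (K ∩ N) ×ˢ Icc (0 : ℝ) 1 :=
    prod_mono (inter_subset_inter_right _ hN2N) subset_rfl
  have hAK : (K ∩ closure N2) ×ˢ Icc (0 : ℝ) 1 ⊆ K ×ˢ Icc (0 : ℝ) 1 :=
    prod_mono inter_subset_left subset_rfl
  obtain ⟨ra, hra, hra1, δ, hδ, hδ0, hδF⟩ := EtCont.transition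
    (h𝓔.mono hAN le_rfl) (hF0.mono hAK le_rfl) hr1 hr0 hA (by
      rintro ⟨x, s⟩ hz
      rw [hF0b _ (hAK hz), h𝓔b x (hAN hz).1 s (hAN hz).2])
  have hF00 : EtCont (fun q : T × (Fin m → ℂ) => F0 ((q.1, (0 : ℝ)), q.2)) K r0 :=
    hF0.pullback (a := fun x : T => (x, (0 : ℝ)))
      (continuousOn_id.prodMk continuousOn_const) (fun x hx => ⟨hx, m0⟩)
  have hF01 : EtCont (fun q : T × (Fin m → ℂ) => F0 ((q.1, (1 : ℝ)), q.2)) K r0 :=
    hF0.pullback (a := fun x : T => (x, (1 : ℝ)))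
      (continuousOn_id.prodMk continuousOn_const) (fun x hx => ⟨hx, m1⟩)
  obtain ⟨rb, hrb, hrb1, δ0, hδ', hδ'0, hδ'F⟩ := EtCont.transition hΨ hF00 hr1 hr0 hK (by
      intro x hx
      simp only
      rw [hF0b (x, 0) ⟨hx, m0⟩, hΨb x hx])
  have hrpos : 0 < min ra rb := lt_min hra hrb
  -- the two transitions agree at time zero
  have hagree : ∀ x ∈ K ∩ closure N2, ∀ u ∈ ball (0 : Fin m → ℂ) (min ra rb),
      δ ((x, 0), u) = δ0 (x, u) := by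
    intro x hx u hu
    have hua : u ∈ ball (0 : Fin m → ℂ) ra := ball_subset_ball (min_le_left _ _) hu
    have hub : u ∈ ball (0 : Fin m → ℂ) rb := ball_subset_ball (min_le_right _ _) hu
    obtain ⟨h1, h2⟩ := hδF (x, 0) ⟨hx, m0⟩ u hua
    obtain ⟨h3, h4⟩ := hδ'F x hx.1 u hub
    refine hF0.inj (x, 0) ⟨hx.1, m0⟩ h1 h3 ?_
    simp only at h2 h4 ⊢
    rw [h2, h4, h𝓔0 x ⟨hx.1, hN2N hx.2⟩ u (ball_subset_ball hra1 hua)]
  let d : T × (Fin m → ℂ) → (Fin m → ℂ) := fun q =>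
    if q.1 ∈ closure N2 then δ ((q.1, lam q.1), q.2) else δ0 q
  have hd1 : ∀ x ∈ closure N2, ∀ u, d (x, u) = δ ((x, lam x), u) := fun x hx u => if_pos hx
  have hd2 : ∀ x, x ∉ closure N2 → ∀ u, d (x, u) = δ0 (x, u) := fun x hx u => if_neg hx
  have hlm : ∀ x, lam x ∈ Icc (0 : ℝ) 1 := hlamI
  have hEd1 : EtCont d (K ∩ closure N2) (min ra rb) := by
    have h1 : EtCont (fun q : T × (Fin m → ℂ) => δ ((q.1, lam q.1), q.2)) (K ∩ closure N2) ra :=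
      hδ.pullback (a := fun x : T => (x, lam x))
        (continuousOn_id.prodMk lam.continuous.continuousOn) (fun x hx => ⟨hx, hlm x⟩)
    exact (h1.mono subset_rfl (min_le_left _ _)).congr fun x hx u _ => hd1 x hx.2 u
  have hEd2 : EtCont d (K ∩ N2ᶜ) (min ra rb) := by
    refine (hδ'.mono inter_subset_left (min_le_right _ _)).congr fun x hx u hu => ?_
    by_cases hc : x ∈ closure N2
    · have hz : lam x = 0 := hlam0 hx.2
      rw [hd1 x hc u, hz, hagree x ⟨hx.1, hc⟩ u hu]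
    · exact hd2 x hc u
  have hEd : EtCont d K (min ra rb) := by
    have h1 := hEd1.union_closed hEd2 (hK.isClosed.inter isClosed_closure)
      (hK.isClosed.inter hN2o.isClosed_compl)
    refine h1.mono ?_ le_rfl
    intro x hx
    by_cases hc : x ∈ closure N2
    · exact Or.inl ⟨hx, hc⟩
    · exact Or.inr ⟨hx, fun h => hc (subset_closure h)⟩
  have hdm : ∀ x ∈ K, ∀ u ∈ ball (0 : Fin m → ℂ) (min ra rb), d (x, u) ∈ ball (0 : Fin m → ℂ) r0 := by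
    intro x hx u hu
    by_cases hc : x ∈ closure N2
    · rw [hd1 x hc u]
      exact (hδF (x, lam x) ⟨⟨hx, hc⟩, hlm x⟩ u (ball_subset_ball (min_le_left _ _) hu)).1
    · rw [hd2 x hc u]
      exact (hδ'F x hx u (ball_subset_ball (min_le_right _ _) hu)).1
  refine ⟨min ra rb, hrpos, fun q => F0 ((q.1, 1), d q), hF01.comp hEd hdm, ?_, N1, hN1o, hSN1, ?_⟩
  · intro x hx
    have hd0 : d (x, 0) = 0 := by
      by_cases hc : x ∈ closure N2
      · rw [hd1 x hc 0]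
        exact hδ0 (x, lam x) ⟨⟨hx, hc⟩, hlm x⟩
      · rw [hd2 x hc 0]
        exact hδ'0 x hx
    simp only
    rw [hd0, hF0b (x, 1) ⟨hx, m1⟩]
  · intro x hx u hu
    have hx1 : x ∈ closure N1 := subset_closure hx.2
    have hx2 : x ∈ closure N2 := subset_closure (hN12 hx1)
    have hl1 : lam x = 1 := hlam1 hx1
    simp only
    rw [hd1 x hx2 u, hl1]
    exact (hδF (x, 1) ⟨⟨hx.1, hx2⟩, m1⟩ u (ball_subset_ball (min_le_left _ _) hu)).2

end OkaP
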