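import Pool.Agent.H.MP_ceb9a9.PsiFam
import Pool.Agent.H.MP_ceb9a9.QMap
import Pool.Agent.H.MP_ceb9a9.RelExt

/-!
# MP_ceb9a9: the global continuous family extending the family over the convex set and the tube
-/

set_option autoImplicit false

open scoped Manifold

namespace OkaP

open Set Metric Topology

/-- cut-off in the variable `κ`: `0` for `κ ≤ a`, `1` for `κ ≥ b` -/
noncomputable def cutK {E : Type} (κ : E → ℝ) (a b : ℝ) (x : E) : ℝ :=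
  min 1 (max 0 ((κ x - a) / (b - a)))

open Classical in
/-- cut-off in the variable `û`: `0` for `‖û‖ ≤ cT/2`, `1` for `‖û‖ ≥ 3cT/4` and off `N` -/
noncomputable def cutU {m : ℕ} {X : Type} [MetricSpace X] [ChartedSpace (Fin m → ℂ) X]
    {p : X} {S : SigmaData m p} {E : Type} [NormedAddCommGroup E] [NormedSpace ℂ E] {κ : E → ℝ}
    {fs f1 f2 : E → X} {D : LocData S {x | κ x ≤ 1} fs} {k : ℕ} {ηK : ℝ}
    {KS : KSideData D f1 f2 k ηK} {s4 R' η ε1 : ℝ} (A : FData KS s4 R' η ε1) (cT : ℝ)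
    (y : E) : ℝ :=
  if y ∈ A.N then min 1 (max 0 ((‖A.û y‖ - cT / 2) / (cT / 4))) else 1

/-- the reparametrisation over the convex set:
`(1 - ν) (v + s W) + ν ((1 - μ) q_s(v) + μ (v + c_H(s) - c_F))` -/
noncomputable def bmap {m : ℕ} {X : Type} [MetricSpace X] [ChartedSpace (Fin m → ℂ) X]
    {p : X} {S : SigmaData m p} {E : Type} [NormedAddCommGroup E] [NormedSpace ℂ E] {κ : E → ℝ}
    {fs f1 f2 : E → X} {D : LocData S {x | κ x ≤ 1} fs} {k : ℕ} {ηK : ℝ}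
    {KS : KSideData D f1 f2 k ηK} {s4 R' η ε1 : ℝ} (A : FData KS s4 R' η ε1)
    (U1 Wt : E × (Fin m → ℂ) → (Fin m → ℂ)) (ν μ : E → ℝ) (q : (E × ℝ) × (Fin m → ℂ)) :
    Fin m → ℂ :=
  ((1 - ν q.1.1 : ℝ) : ℂ) • (q.2 + ((q.1.2 : ℝ) : ℂ) • Wt (q.1.1, q.2)) +
    ((ν q.1.1 : ℝ) : ℂ) • (((1 - μ q.1.1 : ℝ) : ℂ) • qmap A U1 q +
      ((μ q.1.1 : ℝ) : ℂ) • (q.2 + A.cH q.1 - A.cF q.1.1))

section Aux

variable {m : ℕ} {X : Type} [MetricSpace X] [ChartedSpace (Fin m → ℂ) X]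
  {p : X} {S : SigmaData m p} {E : Type} [NormedAddCommGroup E] [NormedSpace ℂ E] {κ : E → ℝ}
  {fs f1 f2 : E → X} {D : LocData S {x | κ x ≤ 1} fs} {k : ℕ} {ηK : ℝ}
  {KS : KSideData D f1 f2 k ηK} {s4 R' η ε1 : ℝ}

private theorem homFam_cutK_mem {F : Type} (κ : F → ℝ) (a b : ℝ) (x : F) :
    0 ≤ cutK κ a b x ∧ cutK κ a b x ≤ 1 :=
  ⟨le_min zero_le_one (le_max_left _ _), min_le_left _ _⟩

private theorem homFam_cutK_one {F : Type} {κ : F → ℝ} {a b : ℝ} (hab : a < b) {x : F}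
    (h : b ≤ κ x) : cutK κ a b x = 1 := by
  unfold cutK
  have h1 : 1 ≤ (κ x - a) / (b - a) := by
    rw [le_div_iff₀ (by linarith)]
    linarith
  rw [max_eq_right (by linarith), min_eq_left h1]

private theorem homFam_cutK_cont (hκ : Continuous κ) (a b : ℝ) : Continuous (cutK κ a b) :=
  continuous_const.min (continuous_const.max ((hκ.sub continuous_const).div_const _))

private theorem homFam_cutU_mem (A : FData KS s4 R' η ε1) (cT : ℝ) (x : E) :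
    0 ≤ cutU A cT x ∧ cutU A cT x ≤ 1 := by
  unfold cutU
  split_ifs
  · exact ⟨le_min zero_le_one (le_max_left _ _), min_le_left _ _⟩
  · exact ⟨zero_le_one, le_rfl⟩

private theorem homFam_cutU_zero (A : FData KS s4 R' η ε1) {cT : ℝ} (hcT : 0 < cT) {x : E}
    (hx : x ∈ A.N) (h : ‖A.û x‖ ≤ cT / 2) : cutU A cT x = 0 := by
  unfold cutU
  rw [if_pos hx]
  have h1 : (‖A.û x‖ - cT / 2) / (cT / 4) ≤ 0 :=
    div_nonpos_of_nonpos_of_nonneg (by linarith) (by positivity)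
  rw [max_eq_left h1, min_eq_right zero_le_one]

private theorem homFam_cutU_one (A : FData KS s4 R' η ε1) {cT : ℝ} (hcT : 0 < cT) {x : E}
    (h : ¬ (x ∈ A.N ∧ ‖A.û x‖ ≤ cT)) : cutU A cT x = 1 := by
  unfold cutU
  split_ifs with hx
  · have h1 : cT < ‖A.û x‖ := by
      by_contra hcon
      exact h ⟨hx, not_lt.mp hcon⟩
    have h2 : 1 ≤ (‖A.û x‖ - cT / 2) / (cT / 4) := by
      rw [le_div_iff₀ (by positivity)]
      linarith
    rw [max_eq_right (by linarith), min_eq_left h2]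
  · rfl

private theorem homFam_cutU_contAt (A : FData KS s4 R' η ε1) (cT : ℝ) {x : E}
    (hx : x ∈ A.N) : ContinuousAt (cutU A cT) x := by
  have h1 : ContinuousAt (fun y => min 1 (max 0 ((‖A.û y‖ - cT / 2) / (cT / 4)))) x := by
    have h2 : ContinuousAt A.û x := A.û_hol.continuousOn.continuousAt (A.N_open.mem_nhds hx)
    exact continuousAt_const.min (continuousAt_const.max ((h2.norm.sub continuousAt_const).div_const _))
  refine h1.congr ?_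
  filter_upwards [A.N_open.mem_nhds hx] with y hy
  unfold cutU
  rw [if_pos hy]

private theorem homFam_cutU_near (A : FData KS s4 R' η ε1) {cT : ℝ} (hcT : 0 < cT)
    (hcTc : IsClosed {x | x ∈ closedBall (0 : E) R' ∧ x ∈ A.N ∧ ‖A.û x‖ ≤ cT}) {x : E}
    (hxK : x ∈ closedBall (0 : E) R') (h : ¬ (x ∈ A.N ∧ ‖A.û x‖ ≤ cT)) :
    ∀ᶠ y in 𝓝[closedBall (0 : E) R'] x, cutU A cT y = 1 := by
  have h1 : {x | x ∈ closedBall (0 : E) R' ∧ x ∈ A.N ∧ ‖A.û x‖ ≤ cT}ᶜ ∈ 𝓝 x :=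
    hcTc.isOpen_compl.mem_nhds fun hc => h hc.2
  filter_upwards [mem_nhdsWithin_of_mem_nhds h1, self_mem_nhdsWithin] with y hy hyK
  exact homFam_cutU_one A hcT fun hc => hy ⟨hyK, hc⟩

private theorem homFam_cutU_cont (A : FData KS s4 R' η ε1) {cT : ℝ} (hcT : 0 < cT)
    (hcTc : IsClosed {x | x ∈ closedBall (0 : E) R' ∧ x ∈ A.N ∧ ‖A.û x‖ ≤ cT}) {x : E}
    (hxK : x ∈ closedBall (0 : E) R') :
    ContinuousWithinAt (cutU A cT) (closedBall (0 : E) R') x := by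
  by_cases h : x ∈ A.N ∧ ‖A.û x‖ ≤ cT
  · exact (homFam_cutU_contAt A cT h.1).continuousWithinAt
  · have h1 := homFam_cutU_near A hcT hcTc hxK h
    refine (continuousWithinAt_const (b := (1 : ℝ))).congr_of_eventuallyEq h1 ?_
    exact homFam_cutU_one A hcT h

/-- continuity of the reparametrisation -/
private theorem homFam_bmap_cont (A : FData KS s4 R' η ε1)
    {U1 Wt : E × (Fin m → ℂ) → (Fin m → ℂ)} (hκ : Continuous κ) {ν μ : E → ℝ} {K : Set E}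
    {a s5 ρ : ℝ} (ha : a ≤ s5) (hs5 : s5 < s4) (hρ : ρ ≤ D.r1)
    (hq : ContinuousOn (qmap A U1) ((({x | κ x < s4} ∩ D.V D.c1) ×ˢ Icc (0 : ℝ) 1) ×ˢ
      ball (0 : Fin m → ℂ) D.r1))
    (hWt : ContinuousOn Wt ({x | κ x < s5} ×ˢ ball (0 : Fin m → ℂ) ρ))
    (hν : Continuous ν) (hμ : ∀ x ∈ K, ContinuousWithinAt μ K x)
    (hc : ∀ x ∈ K, κ x < s4 → x ∈ D.V D.c1 ∨ ∀ᶠ y in 𝓝[K] x, μ y = 1) :
    ContinuousOn (bmap A U1 Wt ν μ) (((K ∩ {x | κ x < a}) ×ˢ Icc (0 : ℝ) 1) ×ˢ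
      ball (0 : Fin m → ℂ) ρ) := by
  rintro ⟨⟨x, s⟩, v⟩ ⟨⟨⟨hxK, hxa⟩, hs⟩, hv⟩
  have hxa' : κ x < a := hxa
  set Ω : Set ((E × ℝ) × (Fin m → ℂ)) := ((K ∩ {x | κ x < a}) ×ˢ Icc (0 : ℝ) 1) ×ˢ
    ball (0 : Fin m → ℂ) ρ with hΩ
  have hf : ContinuousWithinAt (fun q : (E × ℝ) × (Fin m → ℂ) => q.1.1) Ω ((x, s), v) :=
    (continuous_fst.comp continuous_fst).continuousWithinAt
  have hfK : MapsTo (fun q : (E × ℝ) × (Fin m → ℂ) => q.1.1) Ω K := fun q hq => hq.1.1.1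
  have c1 : ContinuousWithinAt (fun q : (E × ℝ) × (Fin m → ℂ) => ν q.1.1) Ω ((x, s), v) :=
    hν.continuousAt.comp_continuousWithinAt hf
  have c2 : ContinuousWithinAt (fun q : (E × ℝ) × (Fin m → ℂ) => μ q.1.1) Ω ((x, s), v) :=
    ContinuousWithinAt.comp (t := K) (g := μ) (hμ x hxK) hf hfK
  have c3 : ContinuousWithinAt (fun q : (E × ℝ) × (Fin m → ℂ) => Wt (q.1.1, q.2)) Ω
      ((x, s), v) := by
    refine ContinuousWithinAt.comp (t := {x | κ x < s5} ×ˢ ball (0 : Fin m → ℂ) ρ) (g := Wt)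
      (f := fun q : (E × ℝ) × (Fin m → ℂ) => (q.1.1, q.2)) (hWt _ ⟨hxa'.trans_le ha, hv⟩)
      (hf.prodMk continuous_snd.continuousWithinAt) ?_
    rintro q ⟨⟨⟨-, hq1⟩, -⟩, hq2⟩
    exact ⟨lt_of_lt_of_le hq1 ha, hq2⟩
  have c4 : ContinuousWithinAt (fun q : (E × ℝ) × (Fin m → ℂ) => A.cH q.1) Ω ((x, s), v) := by
    refine ContinuousWithinAt.comp (t := {x | κ x < s4} ×ˢ Icc (0 : ℝ) 1) (g := A.cH)
      (f := fun q : (E × ℝ) × (Fin m → ℂ) => q.1)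
      (A.cH_cont _ ⟨(hxa'.trans_le ha).trans hs5, hs⟩) continuous_fst.continuousWithinAt ?_
    rintro q ⟨⟨⟨-, hq1⟩, hq3⟩, hq2⟩
    exact ⟨(lt_of_lt_of_le hq1 ha).trans hs5, hq3⟩
  have c5 : ContinuousWithinAt (fun q : (E × ℝ) × (Fin m → ℂ) => A.cF q.1.1) Ω ((x, s), v) := by
    refine ContinuousWithinAt.comp (t := {x | κ x < s4}) (g := A.cF)
      (f := fun q : (E × ℝ) × (Fin m → ℂ) => q.1.1)
      (A.cF_hol.continuousOn _ ((hxa'.trans_le ha).trans hs5)) hf ?_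
    rintro q ⟨⟨⟨-, hq1⟩, hq3⟩, hq2⟩
    exact (lt_of_lt_of_le hq1 ha).trans hs5
  have c6 : ContinuousWithinAt (fun q : (E × ℝ) × (Fin m → ℂ) =>
      ((1 - μ q.1.1 : ℝ) : ℂ) • qmap A U1 q) Ω ((x, s), v) := by
    rcases hc x hxK ((hxa'.trans_le ha).trans hs5) with hV | h1
    · have hO : IsOpen ({x | κ x < s4} ∩ D.V D.c1) :=
        (isOpen_lt hκ continuous_const).inter (D.V_open _)
      have hmem : x ∈ {x | κ x < s4} ∩ D.V D.c1 := ⟨(hxa'.trans_le ha).trans hs5, hV⟩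
      have hqc : ContinuousWithinAt (qmap A U1) Ω ((x, s), v) := by
        refine (hq ((x, s), v) ⟨⟨hmem, hs⟩, ball_subset_ball hρ hv⟩).mono_of_mem_nhdsWithin ?_
        have h2 : (fun q : (E × ℝ) × (Fin m → ℂ) => q.1.1) ⁻¹' ({x | κ x < s4} ∩ D.V D.c1) ∈
            𝓝 ((x, s), v) :=
          (continuous_fst.comp continuous_fst).continuousAt.preimage_mem_nhds (hO.mem_nhds hmem)
        filter_upwards [mem_nhdsWithin_of_mem_nhds h2, self_mem_nhdsWithin] with q hq1 hq2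
        exact ⟨⟨hq1, hq2.1.2⟩, ball_subset_ball hρ hq2.2⟩
      exact (Complex.continuous_ofReal.continuousAt.comp_continuousWithinAt
        (continuousWithinAt_const.sub c2)).smul hqc
    · have h2 : ∀ᶠ q in 𝓝[Ω] ((x, s), v), μ (q : (E × ℝ) × (Fin m → ℂ)).1.1 = 1 :=
        (hf.tendsto_nhdsWithin hfK).eventually h1
      refine (continuousWithinAt_const (b := (0 : Fin m → ℂ))).congr_of_eventuallyEq ?_ ?_
      · filter_upwards [h2] with q hq1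
        rw [hq1]; simp
      · have h3 : μ x = 1 := h1.self_of_nhdsWithin hxK
        simp [h3]
  unfold bmap
  have e1 := (Complex.continuous_ofReal.continuousAt.comp_continuousWithinAt
    (continuousWithinAt_const (b := (1 : ℝ)) |>.sub c1)).smul
    ((continuous_snd.continuousWithinAt (s := Ω) (x := ((x, s), v))).add
      ((Complex.continuous_ofReal.comp (continuous_snd.comp continuous_fst)).continuousWithinAt
        (s := Ω) (x := ((x, s), v)) |>.smul c3))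
  have e2 := (Complex.continuous_ofReal.continuousAt.comp_continuousWithinAt c2).smul
    (((continuous_snd.continuousWithinAt (s := Ω) (x := ((x, s), v))).add c4).sub c5)
  have e3 := (Complex.continuous_ofReal.continuousAt.comp_continuousWithinAt c1).smul (c6.add e2)
  exact e1.add e3

/-- fibrewise holomorphy of the reparametrisation -/
private theorem homFam_bmap_diff (A : FData KS s4 R' η ε1)
    {U1 Wt : E × (Fin m → ℂ) → (Fin m → ℂ)} {ν μ : E → ℝ} {ρ : ℝ} (hρ : ρ ≤ D.r1) {x : E}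
    {s : ℝ} (hWt : DifferentiableOn ℂ (fun v => Wt (x, v)) (ball (0 : Fin m → ℂ) ρ))
    (hc : DifferentiableOn ℂ (fun v => qmap A U1 ((x, s), v)) (ball (0 : Fin m → ℂ) D.r1) ∨
      μ x = 1) :
    DifferentiableOn ℂ (fun v => bmap A U1 Wt ν μ ((x, s), v)) (ball (0 : Fin m → ℂ) ρ) := by
  have d1 : DifferentiableOn ℂ (fun v => ((1 - μ x : ℝ) : ℂ) • qmap A U1 ((x, s), v))
      (ball (0 : Fin m → ℂ) ρ) := by
    rcases hc with h | h
    · exact (h.mono (ball_subset_ball hρ)).const_smul ((1 - μ x : ℝ) : ℂ)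
    · refine (differentiableOn_const (0 : Fin m → ℂ)).congr fun v _ => ?_
      rw [h]; simp
  have d2 : DifferentiableOn ℂ (fun v : Fin m → ℂ => v) (ball (0 : Fin m → ℂ) ρ) :=
    differentiableOn_id
  have d3 : DifferentiableOn ℂ (fun v : Fin m → ℂ => v + ((s : ℝ) : ℂ) • Wt (x, v))
      (ball (0 : Fin m → ℂ) ρ) := d2.add (hWt.const_smul ((s : ℝ) : ℂ))
  have d4 : DifferentiableOn ℂ (fun v : Fin m → ℂ => v + A.cH (x, s) - A.cF x)
      (ball (0 : Fin m → ℂ) ρ) := (d2.add_const (A.cH (x, s))).sub_const (A.cF x)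
  have d5 : DifferentiableOn ℂ (fun v : Fin m → ℂ => ((1 - μ x : ℝ) : ℂ) • qmap A U1 ((x, s), v) +
      ((μ x : ℝ) : ℂ) • (v + A.cH (x, s) - A.cF x)) (ball (0 : Fin m → ℂ) ρ) :=
    d1.add (d4.const_smul ((μ x : ℝ) : ℂ))
  exact (d3.const_smul ((1 - ν x : ℝ) : ℂ)).add (d5.const_smul ((ν x : ℝ) : ℂ))

private theorem homFam_cvx {a b : ℝ} {u v : Fin m → ℂ} (ha : 0 ≤ a) (ha1 : a ≤ 1)
    (hu : ‖u‖ ≤ b) (hv : ‖v‖ ≤ b) :
    ‖((1 - a : ℝ) : ℂ) • u + ((a : ℝ) : ℂ) • v‖ ≤ b := by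
  refine (norm_add_le _ _).trans ?_
  rw [norm_smul, norm_smul, Complex.norm_real, Complex.norm_real, Real.norm_eq_abs,
    Real.norm_eq_abs, abs_of_nonneg ha, abs_of_nonneg (by linarith : 0 ≤ 1 - a)]
  have h1 : (1 - a) * ‖u‖ ≤ (1 - a) * b := mul_le_mul_of_nonneg_left hu (by linarith)
  have h2 : a * ‖v‖ ≤ a * b := mul_le_mul_of_nonneg_left hv ha
  nlinarith

/-- the reparametrisation is close to the identity -/
private theorem homFam_bmap_near (A : FData KS s4 R' η ε1)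
    {U1 Wt : E × (Fin m → ℂ) → (Fin m → ℂ)} {ν μ : E → ℝ} {b : ℝ} {x : E}
    {s : ℝ} {v : Fin m → ℂ} (hs : s ∈ Icc (0 : ℝ) 1) (hν : 0 ≤ ν x ∧ ν x ≤ 1)
    (hμ : 0 ≤ μ x ∧ μ x ≤ 1) (hWt : ‖Wt (x, v)‖ ≤ b)
    (hH : ‖A.cH (x, s) - A.cF x‖ ≤ b)
    (hc : ‖qmap A U1 ((x, s), v) - v‖ ≤ b ∨ μ x = 1) :
    ‖bmap A U1 Wt ν μ ((x, s), v) - v‖ ≤ b := by
  have hb0 : 0 ≤ b := (norm_nonneg _).trans hWt
  have h1 : ‖((s : ℝ) : ℂ) • Wt (x, v)‖ ≤ b := by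
    rw [norm_smul, Complex.norm_real, Real.norm_eq_abs, abs_of_nonneg hs.1]
    calc s * ‖Wt (x, v)‖ ≤ 1 * b := mul_le_mul hs.2 hWt (norm_nonneg _) zero_le_one
      _ = b := one_mul b
  have h2 : ‖((1 - μ x : ℝ) : ℂ) • (qmap A U1 ((x, s), v) - v) +
      ((μ x : ℝ) : ℂ) • (A.cH (x, s) - A.cF x)‖ ≤ b := by
    rcases hc with h | h
    · exact homFam_cvx hμ.1 hμ.2 h hH
    · rw [h]
      simpa using hH
  have h3 : bmap A U1 Wt ν μ ((x, s), v) - v =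
      ((1 - ν x : ℝ) : ℂ) • (((s : ℝ) : ℂ) • Wt (x, v)) +
      ((ν x : ℝ) : ℂ) • (((1 - μ x : ℝ) : ℂ) • (qmap A U1 ((x, s), v) - v) +
      ((μ x : ℝ) : ℂ) • (A.cH (x, s) - A.cF x)) := by
    funext i
    simp only [bmap, Pi.add_apply, Pi.sub_apply, Pi.smul_apply, smul_eq_mul, Complex.ofReal_sub,
      Complex.ofReal_one]
    ring
  rw [h3]
  exact homFam_cvx hν.1 hν.2 h1 h2

/-- the family in the tube -/
private theorem homFam_tube (A : FData KS s4 R' η ε1) {s5 ρ3 : ℝ} (P : PsiData A s5 ρ3) {cT : ℝ}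
    (Q : TubeU P cT) :
    EtCont (fun q : (E × ℝ) × (Fin m → ℂ) =>
      A.T.Er (((1 - q.1.2 : ℝ) : ℂ) • A.tt q.1.1, Q.U2 (q.1.1, q.2)))
      (Q.UT ×ˢ Icc (0 : ℝ) 1) Q.r := by
  have hnorm : ∀ (x : E) (s : ℝ), s ∈ Icc (0 : ℝ) 1 →
      ‖((1 - s : ℝ) : ℂ) • A.tt x‖ ≤ ‖A.tt x‖ := by
    intro x s hs
    rw [norm_smul, Complex.norm_real, Real.norm_eq_abs, abs_of_nonneg (by linarith [hs.2])]
    have := norm_nonneg (A.tt x)
    nlinarith [hs.1]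
  have htt : ∀ x ∈ Q.UT, A.tt x ∈ ball (0 : Fin m → ℂ) A.R := by
    intro x hx
    rw [mem_ball_zero_iff]
    exact A.tt_le x (A.N_UF (Q.UT_N hx))
  have htts : ∀ x ∈ Q.UT, ∀ s ∈ Icc (0 : ℝ) 1,
      ((1 - s : ℝ) : ℂ) • A.tt x ∈ ball (0 : Fin m → ℂ) A.R := by
    intro x hx s hs
    rw [mem_ball_zero_iff]
    exact (hnorm x s hs).trans_lt (A.tt_le x (A.N_UF (Q.UT_N hx)))
  have hU2 : ∀ x ∈ Q.UT, ∀ s ∈ Icc (0 : ℝ) 1, ∀ t ∈ ball (0 : Fin m → ℂ) Q.r,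
      ‖Q.U2 (x, t)‖ < A.T.r (((1 - s : ℝ) : ℂ) • A.tt x) := by
    intro x hx s hs t ht
    exact (A.T.θ_germ (A.tt x) (htt x hx) s hs _ (Q.U2_lt x hx t ht).1).1
  have hc1 : ContinuousOn (fun q : (E × ℝ) × (Fin m → ℂ) =>
      ((((1 - q.1.2 : ℝ) : ℂ) • A.tt q.1.1, Q.U2 (q.1.1, q.2)) : (Fin m → ℂ) × (Fin m → ℂ)))
      ((Q.UT ×ˢ Icc (0 : ℝ) 1) ×ˢ ball (0 : Fin m → ℂ) Q.r) := by
    refine ContinuousOn.prodMk ?_ ?_
    · exact ((Complex.continuous_ofReal.comp (continuous_const.sub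
        (continuous_snd.comp continuous_fst))).smul (A.tt_hol.continuous.comp
          (continuous_fst.comp continuous_fst))).continuousOn
    · refine Q.U2_hol.cont.comp ((continuous_fst.comp continuous_fst).prodMk
        continuous_snd).continuousOn ?_
      rintro q ⟨⟨hq1, hq2⟩, hq3⟩
      exact ⟨hq1, hq3⟩
  have hcont : ContinuousOn (fun q : (E × ℝ) × (Fin m → ℂ) =>
      A.T.Er (((1 - q.1.2 : ℝ) : ℂ) • A.tt q.1.1, Q.U2 (q.1.1, q.2)))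
      ((Q.UT ×ˢ Icc (0 : ℝ) 1) ×ˢ ball (0 : Fin m → ℂ) Q.r) := by
    refine A.T.hol.continuousOn.comp hc1 ?_
    rintro q ⟨⟨hq1, hq2⟩, hq3⟩
    exact ⟨htts _ hq1 _ hq2, hU2 _ hq1 _ hq2 _ hq3⟩
  -- one fibre
  have hfib : ∀ x ∈ Q.UT, ∀ s ∈ Icc (0 : ℝ) 1,
      EtCont (fun q : (E × ℝ) × (Fin m → ℂ) =>
        A.T.Er (((1 - s : ℝ) : ℂ) • A.tt x, Q.U2 (x, q.2))) {(x, s)} Q.r := by
    intro x hx s hs
    set τ : Fin m → ℂ := ((1 - s : ℝ) : ℂ) • A.tt x with hτ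
    have hτR : τ ∈ ball (0 : Fin m → ℂ) A.R := htts x hx s hs
    have e1 : EtCont (fun q : (E × ℝ) × (Fin m → ℂ) => A.T.Er (τ, q.2)) {(x, s)} (A.T.r τ) := by
      have hh : HolOn m (fun u : Fin m → ℂ => A.T.Er (τ, u)) (ball (0 : Fin m → ℂ) (A.T.r τ)) :=
        HolOn.comp (g := fun u : Fin m → ℂ => (τ, u)) A.T.hol
          ((differentiableOn_const τ).prodMk differentiableOn_id) fun u hu =>
            ⟨hτR, mem_ball_zero_iff.1 hu⟩
      refine ⟨?_, fun _ _ => hh, fun _ _ => A.T.inj τ hτR, fun _ _ => A.T.der τ hτR⟩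
      exact hh.continuousOn.comp continuousOn_snd fun q hq => hq.2
    have e2 : EtCont (fun q : (E × ℝ) × (Fin m → ℂ) => Q.U2 (x, q.2)) {(x, s)} Q.r :=
      Q.U2_hol.toEtCont.pullback (a := fun _ : E × ℝ => x) continuousOn_const fun _ _ => hx
    exact e1.comp e2 fun y _ u hu => mem_ball_zero_iff.2 (hU2 x hx s hs u hu)
  refine ⟨hcont, ?_, ?_, ?_⟩
  · rintro ⟨x, s⟩ ⟨hx, hs⟩
    exact (hfib x hx s hs).fib (x, s) rfl
  · rintro ⟨x, s⟩ ⟨hx, hs⟩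
    exact (hfib x hx s hs).inj (x, s) rfl
  · rintro ⟨x, s⟩ ⟨hx, hs⟩
    exact (hfib x hx s hs).der (x, s) rfl

/-- the two coordinates agree -/
private theorem homFam_U (A : FData KS s4 R' η ε1) {U1 : E × (Fin m → ℂ) → (Fin m → ℂ)}
    (hU : U1Spec A U1) {s5 ρ3 : ℝ} (P : PsiData A s5 ρ3) {cT : ℝ} (Q : TubeU P cT)
    (hs5 : s5 < s4) (hη : η ≤ D.c1 / 8) (hρ : ρ3 ≤ D.r1) {x : E} (hx5 : κ x < s5)
    (hxU : x ∈ Q.UT) (hV : x ∈ D.V D.c1) {t : Fin m → ℂ} (ht : t ∈ ball (0 : Fin m → ℂ) Q.r) :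
    U1 (x, P.v (x, t)) = Q.U2 (x, t) := by
  have hx4 : κ x < s4 := hx5.trans hs5
  have htP : t ∈ ball (0 : Fin m → ℂ) P.r := ball_subset_ball Q.r_le ht
  have hv : P.v (x, t) ∈ ball (0 : Fin m → ℂ) D.r1 := by
    rw [mem_ball_zero_iff]
    exact (P.v_lt x hx5 t htP).trans_le hρ
  obtain ⟨h1, -, h3⟩ := hU.spec x hx4 hV _ hv
  have hc := S.c_pos
  have hc1 := D.c1_pos
  have hc2 := D.c1_le
  have htt : ‖A.tt x‖ < S.c := (A.tt_small x hx4).trans_lt (by linarith)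
  have hr : A.T.r (A.tt x) = S.c := A.T.r_c _ (mem_ball_zero_iff.2 htt)
  have htR : A.tt x ∈ ball (0 : Fin m → ℂ) A.R := by
    rw [mem_ball_zero_iff]
    exact htt.trans A.R_gt
  refine A.T.inj _ htR ?_ ?_ ?_
  · rw [hr, mem_ball_zero_iff]; linarith
  · rw [hr, mem_ball_zero_iff]
    have := (Q.U2_lt x hxU t ht).2
    linarith
  · show A.T.Er (A.tt x, U1 (x, P.v (x, t))) = A.T.Er (A.tt x, Q.U2 (x, t))
    rw [h1, P.v_spec x hx5 t htP, Q.U2_spec x hxU t ht]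

/-- radial retraction -/
private theorem homFam_retr {F : Type} [NormedAddCommGroup F] [NormedSpace ℝ F] {R : ℝ}
    (hR : 0 < R) : ∃ ρ : F → F, Continuous ρ ∧ (∀ x, ρ x ∈ closedBall (0 : F) R) ∧
      ∀ x ∈ closedBall (0 : F) R, ρ x = x := by
  have hpos : ∀ x : F, 0 < max R ‖x‖ := fun x => lt_max_of_lt_left hR
  refine ⟨fun x => (R / max R ‖x‖) • x, ?_, ?_, ?_⟩
  · exact (continuous_const.div (continuous_const.max continuous_norm)
      fun x => (hpos x).ne').smul continuous_id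
  · intro x
    rw [mem_closedBall_zero_iff, norm_smul, Real.norm_eq_abs, abs_of_pos (div_pos hR (hpos x)),
      div_mul_eq_mul_div, div_le_iff₀ (hpos x)]
    exact mul_le_mul_of_nonneg_left (le_max_right _ _) hR.le
  · intro x hx
    rw [mem_closedBall_zero_iff] at hx
    simp only
    rw [max_eq_left hx, div_self hR.ne', one_smul]

end Aux

theorem exists_homFam {m : ℕ} {X : Type} [MetricSpace X] [ChartedSpace (Fin m → ℂ) X]
    [IsManifold 𝓘(ℂ, Fin m → ℂ) ⊤ X] {p : X} {S : SigmaData m p} {E : Type}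
    [NormedAddCommGroup E] [InnerProductSpace ℂ E] [FiniteDimensional ℂ E] {κ : E → ℝ}
    (hκ : Continuous κ) {fs f1 f2 : E → X} {D : LocData S {x | κ x ≤ 1} fs} {k : ℕ} {ηK : ℝ}
    {KS : KSideData D f1 f2 k ηK} {s4 R' η ε1 : ℝ} (A : FData KS s4 R' η ε1) (hR'0 : 0 < R')
    {U1 : E × (Fin m → ℂ) → (Fin m → ℂ)} (hU : U1Spec A U1)
    (hηK : ηK ≤ D.c1 / 8) (hη : η ≤ D.c1 / 8) (hε : ε1 ≤ D.c1 / 8) (hε0 : 0 < ε1)
    (hk : 1 ≤ k) {s5 ρ3 : ℝ} (P : PsiData A s5 ρ3) {cT : ℝ} (hcT : 0 < cT)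
    (hcT1 : cT ≤ D.c1 / 16)
    (hcTc : IsCompact {x | x ∈ closedBall (0 : E) R' ∧ x ∈ A.N ∧ ‖A.û x‖ ≤ cT}) (Q : TubeU P cT)
    {s d : ℝ} (hd : 0 < d) (hs5 : s + 9 * d ≤ s5) (hs5' : s5 < s4) (hs4 : s4 ≤ 1 / 2)
    (hR' : {x | κ x ≤ 1} ⊆ ball (0 : E) R')
    -- sizes
    (hρ3 : 0 < ρ3) (hρ31 : 2 * ρ3 ≤ D.r1)
    (hsm : D.L * (η + 2 * ε1) + 2 * η ≤ ρ3 / 8)
    {Wt : E × (Fin m → ℂ) → (Fin m → ℂ)}
    (hWt : DifferentiableOn ℂ Wt ({x | κ x < s5} ×ˢ ball (0 : Fin m → ℂ) (2 * ρ3)))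
    (hWtle : ∀ x, κ x < s5 → ∀ v ∈ ball (0 : Fin m → ℂ) (2 * ρ3), ‖Wt (x, v)‖ ≤ ρ3 / 8) :
    ∃ (r : ℝ) (𝒢 : E × (Fin m → ℂ) → X), 0 < r ∧ r ≤ Q.r ∧ EtCont 𝒢 (closedBall (0 : E) R') r ∧
      (∀ x, κ x ≤ s + 7 * d → ∀ t ∈ ball (0 : Fin m → ℂ) r,
        𝒢 (x, t) = D.Φ (x, bmap A U1 Wt (cutK κ (s + 5.5 * d) (s + 6 * d))
          (cutU A cT) ((x, 1), P.v (x, t)))) ∧
      (∀ x ∈ closedBall (0 : E) R', s + 7 * d ≤ κ x → x ∈ A.N → ‖A.û x‖ ≤ cT / 4 →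
        ∀ t ∈ ball (0 : Fin m → ℂ) r, 𝒢 (x, t) = A.T.Er (0, Q.U2 (x, t))) ∧
      (∀ x ∈ closedBall (0 : E) R', s + 7 * d ≤ κ x →
        𝒢 (x, 0) = A.T.θ (A.F x, A.tt x, 1)) := by
  classical
  have hprop : ProperSpace E := FiniteDimensional.proper ℂ E
  have hc1 := D.c1_pos
  have hr1 := D.r1_pos
  have hr1le := D.r1_le
  have hr0 := D.r0_pos
  have hL := D.L_ge
  have hηr : η < D.r1 := by
    by_contra hcon
    rw [not_lt] at hcon
    have h1 : 0 < η := hr1.trans_le hcon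
    have h2 : 0 ≤ D.L * (η + 2 * ε1) := by positivity
    linarith
  obtain ⟨hqc, hqd, hqn, hq0, hqF, hcH0⟩ := qmap_props A hU hκ hη hηr hε hε0 hs4
  obtain ⟨-, hK2⟩ := FData.û_K A hκ hηK hη hηr hε hε0 hs4 hk
  set ν : E → ℝ := cutK κ (s + 5.5 * d) (s + 6 * d) with hν
  set μ : E → ℝ := cutU A cT with hμ
  set K : Set E := closedBall (0 : E) R' with hKdef
  have hx5 : ∀ x, κ x < s + 8 * d → κ x < s5 := fun x hx => by linarith
  have hx4 : ∀ x, κ x < s + 8 * d → κ x < s4 := fun x hx => (hx5 x hx).trans hs5'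
  have hVV : D.V (D.c1 / 2) ⊆ D.V D.c1 := fun x hx => ⟨hx.1, hx.2.1, hx.2.2.trans (by linarith)⟩
  have hV : ∀ x, κ x < s4 → x ∈ A.N → ‖A.û x‖ ≤ cT → x ∈ D.V (D.c1 / 2) :=
    fun x h1 h2 h3 => hK2 x h1 h2 (by linarith)
  have hcase : ∀ x, κ x < s4 → x ∈ D.V (D.c1 / 2) ∨ μ x = 1 := by
    intro x hx
    by_cases h : x ∈ A.N ∧ ‖A.û x‖ ≤ cT
    · exact Or.inl (hV x hx h.1 h.2)
    · exact Or.inr (homFam_cutU_one A hcT h)
  have hηnn : ∀ x, κ x < s4 → 0 ≤ η := fun x hx => (norm_nonneg _).trans (A.cF_spec x hx).1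
  have hbL : ∀ x, κ x < s4 → D.L * (η + 2 * ε1) ≤ ρ3 / 8 := by
    intro x hx
    have := hηnn x hx
    linarith
  have hbη : ∀ x, κ x < s4 → 2 * η ≤ ρ3 / 8 := by
    intro x hx
    have h1 := hηnn x hx
    have h2 : 0 ≤ D.L * (η + 2 * ε1) := by positivity
    linarith
  have hνm : ∀ x, 0 ≤ ν x ∧ ν x ≤ 1 := fun x => homFam_cutK_mem κ _ _ x
  have hμm : ∀ x, 0 ≤ μ x ∧ μ x ≤ 1 := fun x => homFam_cutU_mem A cT x
  have hν1 : ∀ x, s + 6 * d ≤ κ x → ν x = 1 := fun x hx =>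
    homFam_cutK_one (by linarith) hx
  -- the reparametrisation is close to the identity
  have hnear : ∀ x, κ x < s + 8 * d → ∀ s' ∈ Icc (0 : ℝ) 1, ∀ v ∈ ball (0 : Fin m → ℂ) (2 * ρ3),
      ‖bmap A U1 Wt ν μ ((x, s'), v) - v‖ ≤ ρ3 / 8 := by
    intro x hx s' hs' v hv
    refine homFam_bmap_near A hs' (hνm x) (hμm x) (hWtle x (hx5 x hx) v hv) ?_ ?_
    · have h1 := (A.cH_spec x (hx4 x hx) s' hs').1
      have h2 := (A.cF_spec x (hx4 x hx)).1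
      have h3 := hbη x (hx4 x hx)
      exact (norm_sub_le _ _).trans (by linarith)
    · rcases hcase x (hx4 x hx) with h | h
      · exact Or.inl (((hqn x (hx4 x hx) (hVV h) s' hs' v (ball_subset_ball hρ31 hv)).1).trans
          (hbL x (hx4 x hx)))
      · exact Or.inr h
  set Ks : Set (E × ℝ) := (K ∩ {x | κ x < s + 8 * d}) ×ˢ Icc (0 : ℝ) 1 with hKs
  have hb1 : EtCont (bmap A U1 Wt ν μ) Ks (2 * ρ3 / 2) := by
    refine etCont_of_near_id (by linarith) ?_ ?_ ?_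
    · refine homFam_bmap_cont A hκ (by linarith) hs5' hρ31 hqc hWt.continuousOn
        (homFam_cutK_cont hκ _ _) (fun x hx => homFam_cutU_cont A hcT hcTc.isClosed hx) ?_
      intro x hxK hx
      by_cases h : x ∈ A.N ∧ ‖A.û x‖ ≤ cT
      · exact Or.inl (hVV (hV x hx h.1 h.2))
      · exact Or.inr (homFam_cutU_near A hcT hcTc.isClosed hxK h)
    · rintro ⟨x, s'⟩ ⟨⟨-, hx⟩, hs'⟩
      have hx' : κ x < s + 8 * d := hx
      refine homFam_bmap_diff A hρ31 ?_ ?_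
      · exact hWt.comp ((differentiableOn_const x).prodMk differentiableOn_id)
          fun v hv => ⟨hx5 x hx', hv⟩
      · rcases hcase x (hx4 x hx') with h | h
        · exact Or.inl (hqd x (hx4 x hx') (hVV h) s' hs')
        · exact Or.inr h
    · rintro ⟨x, s'⟩ ⟨⟨-, hx⟩, hs'⟩ v hv
      have h1 := hnear x hx s' hs' v hv
      linarith
  have hhalf : 2 * ρ3 / 2 = ρ3 := by ring
  rw [hhalf] at hb1
  have hv1 : EtCont (fun q : (E × ℝ) × (Fin m → ℂ) => P.v (q.1.1, q.2)) Ks Q.r :=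
    (P.v_hol.toEtCont.mono subset_rfl Q.r_le).pullback (a := fun y : E × ℝ => y.1)
      continuous_fst.continuousOn fun y hy => hx5 _ hy.1.2
  have hvlt : ∀ x, κ x < s + 8 * d → ∀ u ∈ ball (0 : Fin m → ℂ) Q.r, ‖P.v (x, u)‖ < ρ3 :=
    fun x hx u hu => P.v_lt x (hx5 x hx) u (ball_subset_ball Q.r_le hu)
  have hbv : EtCont (fun q : (E × ℝ) × (Fin m → ℂ) =>
      bmap A U1 Wt ν μ (q.1, P.v (q.1.1, q.2))) Ks Q.r :=
    hb1.comp hv1 fun y hy u hu => mem_ball_zero_iff.2 (hvlt y.1 hy.1.2 u hu)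
  have hΦ : EtCont (fun q : (E × ℝ) × (Fin m → ℂ) => D.Φ (q.1.1, q.2)) Ks D.r0 :=
    D.hol.toEtCont.pullback (a := fun y : E × ℝ => y.1) continuous_fst.continuousOn
      fun y hy => D.K_U (by
        have h1 : κ y.1 < s4 := hx4 _ hy.1.2
        show κ y.1 ≤ 1
        linarith)
  have hE1 : EtCont (fun q : (E × ℝ) × (Fin m → ℂ) =>
      D.Φ (q.1.1, bmap A U1 Wt ν μ (q.1, P.v (q.1.1, q.2)))) Ks Q.r := by
    refine hΦ.comp hbv ?_
    rintro ⟨x, s'⟩ ⟨⟨-, hx⟩, hs'⟩ u hu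
    rw [mem_ball_zero_iff]
    have h1 := hvlt x hx u hu
    have h2 := hnear x hx s' hs' (P.v (x, u)) (mem_ball_zero_iff.2 (by linarith))
    have h3 : ‖bmap A U1 Wt ν μ ((x, s'), P.v (x, u))‖ ≤
        ‖bmap A U1 Wt ν μ ((x, s'), P.v (x, u)) - P.v (x, u)‖ + ‖P.v (x, u)‖ := by
      have := norm_add_le (bmap A U1 Wt ν μ ((x, s'), P.v (x, u)) - P.v (x, u)) (P.v (x, u))
      rwa [sub_add_cancel] at this
    show ‖bmap A U1 Wt ν μ ((x, s'), P.v (x, u))‖ < D.r0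
    linarith
  -- the tube
  set O2 : Set E := {x | x ∈ Q.UT ∧ ‖A.û x‖ < cT / 2 ∧ s + 6 * d < κ x} with hO2
  have hO2o : IsOpen O2 := by
    have h1 : IsOpen (Q.UT ∩ A.û ⁻¹' ball 0 (cT / 2)) :=
      (A.û_hol.continuousOn.mono Q.UT_N).isOpen_inter_preimage Q.UT_open isOpen_ball
    have h2 : O2 = (Q.UT ∩ A.û ⁻¹' ball 0 (cT / 2)) ∩ {x | s + 6 * d < κ x} := by
      ext x
      simp only [hO2, mem_setOf_eq, mem_inter_iff, mem_preimage, mem_ball_zero_iff, and_assoc]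
    rw [h2]
    exact h1.inter (isOpen_lt continuous_const hκ)
  have hagree : ∀ x ∈ Q.UT, ‖A.û x‖ ≤ cT / 2 → s + 6 * d ≤ κ x → κ x < s + 8 * d →
      ∀ s' ∈ Icc (0 : ℝ) 1, ∀ t ∈ ball (0 : Fin m → ℂ) Q.r,
      D.Φ (x, bmap A U1 Wt ν μ ((x, s'), P.v (x, t))) =
        A.T.Er (((1 - s' : ℝ) : ℂ) • A.tt x, Q.U2 (x, t)) := by
    intro x hxU hux hκ6 hκ8 s' hs' t ht
    have hV2 : x ∈ D.V (D.c1 / 2) := hV x (hx4 x hκ8) (Q.UT_N hxU) (by linarith)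
    have h1 : bmap A U1 Wt ν μ ((x, s'), P.v (x, t)) = qmap A U1 ((x, s'), P.v (x, t)) := by
      simp only [bmap, hν1 x hκ6, hμ, homFam_cutU_zero A hcT (Q.UT_N hxU) hux]
      simp
    have hv : P.v (x, t) ∈ ball (0 : Fin m → ℂ) D.r1 := by
      rw [mem_ball_zero_iff]
      have := hvlt x hκ8 t ht
      linarith
    rw [h1, (hqn x (hx4 x hκ8) (hVV hV2) s' hs' _ hv).2.2,
      homFam_U A hU P Q hs5' hη (by linarith) (hx5 x hκ8) hxU (hVV hV2) ht]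
  -- the base
  have hbase : ∀ x, κ x < s + 8 * d → ∀ s' ∈ Icc (0 : ℝ) 1,
      bmap A U1 Wt ν μ ((x, s'), A.cF x) =
        ((1 - ν x : ℝ) : ℂ) • (A.cF x + ((s' : ℝ) : ℂ) • Wt (x, A.cF x)) +
          ((ν x : ℝ) : ℂ) • A.cH (x, s') := by
    intro x hx s' hs'
    have h1 : ((1 - μ x : ℝ) : ℂ) • qmap A U1 ((x, s'), A.cF x) +
        ((μ x : ℝ) : ℂ) • (A.cF x + A.cH (x, s') - A.cF x) = A.cH (x, s') := by
      rcases hcase x (hx4 x hx) with h | h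
      · rw [(hqF x (hx4 x hx) h s' hs').2]
        funext i
        simp only [Pi.add_apply, Pi.sub_apply, Pi.smul_apply, smul_eq_mul, Complex.ofReal_sub,
          Complex.ofReal_one]
        ring
      · rw [h]; simp
    simp only [bmap]
    rw [h1]
  set H : E × ℝ → X := fun q => if κ q.1 < s + 8 * d then
      D.Φ (q.1, ((1 - ν q.1 : ℝ) : ℂ) • (A.cF q.1 + ((q.2 : ℝ) : ℂ) • Wt (q.1, A.cF q.1)) +
        ((ν q.1 : ℝ) : ℂ) • A.cH q)
    else A.T.θ (A.F q.1, A.tt q.1, q.2) with hH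
  set 𝓔 : (E × ℝ) × (Fin m → ℂ) → X := fun q => if κ q.1.1 < s + 8 * d then
      D.Φ (q.1.1, bmap A U1 Wt ν μ (q.1, P.v (q.1.1, q.2)))
    else A.T.Er (((1 - q.1.2 : ℝ) : ℂ) • A.tt q.1.1, Q.U2 (q.1.1, q.2)) with h𝓔
  have h𝓔1 : ∀ x, κ x < s + 8 * d → ∀ (s' : ℝ) (t : Fin m → ℂ),
      𝓔 ((x, s'), t) = D.Φ (x, bmap A U1 Wt ν μ ((x, s'), P.v (x, t))) :=
    fun x hx s' t => if_pos hx
  have h𝓔2 : ∀ x ∈ O2, ∀ s' ∈ Icc (0 : ℝ) 1, ∀ t ∈ ball (0 : Fin m → ℂ) Q.r,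
      𝓔 ((x, s'), t) = A.T.Er (((1 - s' : ℝ) : ℂ) • A.tt x, Q.U2 (x, t)) := by
    rintro x ⟨hx1, hx2, hx3⟩ s' hs' t ht
    by_cases h : κ x < s + 8 * d
    · rw [h𝓔1 x h]
      exact hagree x hx1 hx2.le hx3.le h s' hs' t ht
    · exact if_neg h
  have hH1 : ∀ x, κ x < s + 8 * d → ∀ s' ∈ Icc (0 : ℝ) 1, H (x, s') = 𝓔 ((x, s'), 0) := by
    intro x hx s' hs'
    rw [h𝓔1 x hx, P.v_zero x (hx5 x hx), hbase x hx s' hs']
    exact if_pos hx
  have hH2 : ∀ x, s + 6 * d ≤ κ x → ∀ s' ∈ Icc (0 : ℝ) 1,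
      H (x, s') = A.T.θ (A.F x, A.tt x, s') := by
    intro x hx6 s' hs'
    by_cases h : κ x < s + 8 * d
    · have h1 : H (x, s') = D.Φ (x, ((1 - ν x : ℝ) : ℂ) • (A.cF x + ((s' : ℝ) : ℂ) •
          Wt (x, A.cF x)) + ((ν x : ℝ) : ℂ) • A.cH (x, s')) := if_pos h
      rw [h1, hν1 x hx6, ← (A.cH_spec x (hx4 x h) s' hs').2]
      simp
    · exact if_neg h
  have htt : ∀ x ∈ K, A.tt x ∈ ball (0 : Fin m → ℂ) A.R := by
    intro x hx
    rw [mem_ball_zero_iff]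
    exact A.tt_le x (A.UF_sub hx)
  have hHc : ContinuousOn H (K ×ˢ Icc (0 : ℝ) 1) := by
    rintro ⟨x, s'⟩ ⟨hxK, hs'⟩
    by_cases h : κ x < s + 8 * d
    · have h1 : ContinuousOn (fun y : E × ℝ => 𝓔 (y, 0)) Ks := by
        have h2 : ContinuousOn (fun y : E × ℝ =>
            D.Φ (y.1, bmap A U1 Wt ν μ (y, P.v (y.1, 0)))) Ks :=
          hE1.cont.comp (continuous_id.prodMk continuous_const).continuousOn
            fun y hy => ⟨hy, mem_ball_self Q.r_pos⟩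
        exact h2.congr fun y hy => h𝓔1 y.1 hy.1.2 y.2 0
      have h2 : ContinuousOn H Ks := h1.congr fun y hy => hH1 y.1 hy.1.2 y.2 hy.2
      refine (h2 (x, s') ⟨⟨hxK, h⟩, hs'⟩).mono_of_mem_nhdsWithin ?_
      have h3 : (fun y : E × ℝ => y.1) ⁻¹' {x | κ x < s + 8 * d} ∈ 𝓝 (x, s') :=
        continuous_fst.continuousAt.preimage_mem_nhds
          ((isOpen_lt hκ continuous_const).mem_nhds h)
      filter_upwards [mem_nhdsWithin_of_mem_nhds h3, self_mem_nhdsWithin] with y hy1 hy2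
      exact ⟨⟨hy2.1, hy1⟩, hy2.2⟩
    · have h6 : s + 6 * d < κ x := by rw [not_lt] at h; linarith
      have h1 : ContinuousOn (fun y : E × ℝ => A.T.θ (A.F y.1, A.tt y.1, y.2))
          (K ×ˢ Icc (0 : ℝ) 1) := by
        refine A.T.θ_cont.comp (t := univ ×ˢ (ball (0 : Fin m → ℂ) A.R ×ˢ Icc (0 : ℝ) 1))
          (f := fun y : E × ℝ => ((A.F y.1, A.tt y.1, y.2) : X × (Fin m → ℂ) × ℝ)) ?_ ?_
        · exact ((A.F_hol.continuousOn.mono A.UF_sub).comp continuousOn_fst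
            fun y hy => hy.1).prodMk ((A.tt_hol.continuous.comp continuous_fst).prodMk
              continuous_snd).continuousOn
        · intro y hy
          exact ⟨mem_univ _, htt _ hy.1, hy.2⟩
      refine (h1 (x, s') ⟨hxK, hs'⟩).congr_of_eventuallyEq ?_ (hH2 x h6.le s' hs')
      have h3 : (fun y : E × ℝ => y.1) ⁻¹' {x | s + 6 * d < κ x} ∈ 𝓝 (x, s') :=
        continuous_fst.continuousAt.preimage_mem_nhds
          ((isOpen_lt continuous_const hκ).mem_nhds h6)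
      filter_upwards [mem_nhdsWithin_of_mem_nhds h3, self_mem_nhdsWithin] with y hy1 hy2
      exact hH2 y.1 (le_of_lt hy1) y.2 hy2.2
  -- the closed set and its neighbourhood
  set S' : Set E := {x | κ x ≤ s + 7 * d} ∪ {x | x ∈ K ∧ x ∈ A.N ∧ ‖A.û x‖ ≤ cT / 4} with hS'
  set Nr : Set E := {x | κ x < s + 8 * d} ∪ O2 with hNr
  have hS'c : IsClosed S' := by
    refine (isClosed_le hκ continuous_const).union ?_
    have h1 : {x | x ∈ K ∧ x ∈ A.N ∧ ‖A.û x‖ ≤ cT / 4} =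
        {x | x ∈ K ∧ x ∈ A.N ∧ ‖A.û x‖ ≤ cT} ∩ A.û ⁻¹' closedBall 0 (cT / 4) := by
      ext x
      simp only [mem_setOf_eq, mem_inter_iff, mem_preimage, mem_closedBall_zero_iff]
      constructor
      · rintro ⟨h2, h3, h4⟩
        exact ⟨⟨h2, h3, by linarith⟩, h4⟩
      · rintro ⟨⟨h2, h3, -⟩, h4⟩
        exact ⟨h2, h3, h4⟩
    rw [h1]
    exact (A.û_hol.continuousOn.mono fun x hx => hx.2.1).preimage_isClosed_of_isClosed
      hcTc.isClosed isClosed_closedBall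
  have hNro : IsOpen Nr := (isOpen_lt hκ continuous_const).union hO2o
  have hSN : S' ⊆ Nr := by
    rintro x (hx | ⟨hxK, hxN, hux⟩)
    · left
      have hx' : κ x ≤ s + 7 * d := hx
      show κ x < s + 8 * d
      linarith
    · by_cases h : κ x < s + 8 * d
      · exact Or.inl h
      · rw [not_lt] at h
        exact Or.inr ⟨Q.UT_sub x hxK hxN (by linarith), by linarith, by linarith⟩
  have h𝓔c : EtCont 𝓔 ((K ∩ Nr) ×ˢ Icc (0 : ℝ) 1) Q.r := by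
    refine EtCont.of_local ?_
    rintro ⟨x, s'⟩ ⟨⟨hxK, hxN⟩, hs'⟩
    rcases hxN with h | h
    · refine ⟨Ks, ?_, hE1.congr fun y hy u _ => h𝓔1 y.1 hy.1.2 y.2 u⟩
      have h3 : (fun y : E × ℝ => y.1) ⁻¹' {x | κ x < s + 8 * d} ∈ 𝓝 (x, s') :=
        continuous_fst.continuousAt.preimage_mem_nhds
          ((isOpen_lt hκ continuous_const).mem_nhds h)
      filter_upwards [mem_nhdsWithin_of_mem_nhds h3, self_mem_nhdsWithin] with y hy1 hy2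
      exact ⟨⟨hy2.1.1, hy1⟩, hy2.2⟩
    · refine ⟨O2 ×ˢ Icc (0 : ℝ) 1, ?_, ?_⟩
      · have h3 : (fun y : E × ℝ => y.1) ⁻¹' O2 ∈ 𝓝 (x, s') :=
          continuous_fst.continuousAt.preimage_mem_nhds (hO2o.mem_nhds h)
        filter_upwards [mem_nhdsWithin_of_mem_nhds h3, self_mem_nhdsWithin] with y hy1 hy2
        exact ⟨hy1, hy2.2⟩
      · exact ((homFam_tube A P Q).mono (prod_mono (fun y hy => hy.1) subset_rfl) le_rfl).congr
          fun y hy u hu => h𝓔2 y.1 hy.1 y.2 hy.2 u hu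
  have h𝓔b : ∀ x ∈ K ∩ Nr, ∀ s' ∈ Icc (0 : ℝ) 1, 𝓔 ((x, s'), 0) = H (x, s') := by
    rintro x ⟨hxK, hxN⟩ s' hs'
    rcases hxN with h | h
    · exact (hH1 x h s' hs').symm
    · rw [h𝓔2 x h s' hs' 0 (mem_ball_self Q.r_pos), hH2 x h.2.2.le s' hs', Q.U2_zero x h.1,
        (FData.θ_tube A (Q.UT_N h.1) hs').2]
  have h𝓔0 : ∀ x ∈ K ∩ Nr, ∀ u ∈ ball (0 : Fin m → ℂ) Q.r, 𝓔 ((x, 0), u) = P.Ψ (x, u) := by
    rintro x ⟨hxK, hxN⟩ u hu
    rcases hxN with h | h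
    · have h' : κ x < s + 8 * d := h
      have hv : P.v (x, u) ∈ ball (0 : Fin m → ℂ) D.r1 := by
        rw [mem_ball_zero_iff]
        have := hvlt x h' u hu
        linarith
      have h1 : bmap A U1 Wt ν μ ((x, 0), P.v (x, u)) = P.v (x, u) := by
        have h2 : ((1 - μ x : ℝ) : ℂ) • qmap A U1 ((x, 0), P.v (x, u)) +
            ((μ x : ℝ) : ℂ) • (P.v (x, u) + A.cH (x, 0) - A.cF x) = P.v (x, u) := by
          rw [hcH0 x (hx4 x h')]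
          rcases hcase x (hx4 x h') with h3 | h3
          · rw [(hq0 x (hx4 x h') (hVV h3) _ hv).1]
            funext i
            simp only [Pi.add_apply, Pi.sub_apply, Pi.smul_apply, smul_eq_mul,
              Complex.ofReal_sub, Complex.ofReal_one]
            ring
          · rw [h3]; simp
        simp only [bmap]
        rw [h2]
        funext i
        simp only [Pi.add_apply, Pi.smul_apply, smul_eq_mul, Complex.ofReal_sub,
          Complex.ofReal_one, Complex.ofReal_zero, zero_mul, add_zero]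
        ring
      rw [h𝓔1 x h', h1, P.v_spec x (hx5 x h') u (ball_subset_ball Q.r_le hu)]
    · rw [h𝓔2 x h 0 ⟨le_rfl, zero_le_one⟩ u hu, ← Q.U2_spec x h.1 u hu]
      simp
  obtain ⟨ρr, hρr, hρrK, hρrid⟩ := homFam_retr (F := E) hR'0
  have hΨc : EtCont P.Ψ K Q.r := P.hol.toEtCont.mono P.UΨ_sub Q.r_le
  have hΨb : ∀ x ∈ K, P.Ψ (x, 0) = H (x, 0) := by
    intro x hxK
    rw [P.base x (P.UΨ_sub hxK)]
    by_cases h : κ x < s + 8 * d
    · rw [hH1 x h 0 ⟨le_rfl, zero_le_one⟩, h𝓔0 x ⟨hxK, Or.inl h⟩ 0 (mem_ball_self Q.r_pos),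
        P.base x (P.UΨ_sub hxK)]
    · rw [not_lt] at h
      rw [hH2 x (by linarith) 0 ⟨le_rfl, zero_le_one⟩, A.T.θ_zero _ _ (htt x hxK)]
  obtain ⟨r, hr, 𝒢, h𝒢, h𝒢b, N', hN'o, hSN', h𝒢E⟩ := relExt (m := m) (X := X) (T := E) (K := K)
    (isCompact_closedBall _ _) hρr hρrK hρrid hHc hS'c hNro hSN Q.r_pos hΨc hΨb h𝓔c h𝓔b h𝓔0
  have m1 : (1 : ℝ) ∈ Icc (0 : ℝ) 1 := ⟨zero_le_one, le_rfl⟩
  refine ⟨min r Q.r, 𝒢, lt_min hr Q.r_pos, min_le_right _ _, h𝒢.mono subset_rfl (min_le_left _ _),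
    ?_, ?_, ?_⟩
  · intro x hx t ht
    have hx1 : κ x ≤ 1 := by linarith
    have hxK : x ∈ K := ball_subset_closedBall (hR' hx1)
    rw [h𝒢E x ⟨hxK, hSN' (Or.inl hx)⟩ t (ball_subset_ball (min_le_left _ _) ht)]
    exact h𝓔1 x (by linarith) 1 t
  · intro x hxK hx7 hxN hux t ht
    have htQ : t ∈ ball (0 : Fin m → ℂ) Q.r := ball_subset_ball (min_le_right _ _) ht
    have hxO : x ∈ O2 := ⟨Q.UT_sub x hxK hxN (by linarith), by linarith, by linarith⟩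
    rw [h𝒢E x ⟨hxK, hSN' (Or.inr ⟨hxK, hxN, hux⟩)⟩ t (ball_subset_ball (min_le_left _ _) ht),
      h𝓔2 x hxO 1 m1 t htQ]
    simp
  · intro x hxK hx7
    rw [h𝒢b x hxK, hH2 x (by linarith) 1 m1]

end OkaP
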