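import Pool.Agent.H.MP_ceb9a9.Moll
import Pool.Agent.H.MP_ceb9a9.MeanV

/-!
# MP_ceb9a9, chapter 1: Weyl's lemma for `∂̄`
-/

set_option autoImplicit false

open Set Metric Topology MeasureTheory
open scoped ContDiff

noncomputable section
namespace OkaP

variable {E : Type} [NormedAddCommGroup E] [NormedSpace ℂ E] [FiniteDimensional ℂ E]
  [MeasurableSpace E] [BorelSpace E] {μ : Measure E} [μ.IsAddHaarMeasure]

omit [FiniteDimensional ℂ E] [BorelSpace E] [μ.IsAddHaarMeasure] in
private theorem weyln_even {ρ : E → ℝ} {δ : ℝ} (h : Mol μ ρ δ) (x : E) : ρ (-x) = ρ x := by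
  have := h.circ (-1) (by simp) x
  simpa using this

omit [FiniteDimensional ℂ E] [MeasurableSpace E] [BorelSpace E] in
private theorem weyln_bdd {u : E → ℂ} (hu : Tst u) : ∃ C : ℝ, ∀ x, ‖u x‖ ≤ C :=
  hu.2.exists_bound_of_continuous hu.1.continuous

private theorem weyln_swap {ρ : E → ℝ} {δ : ℝ} (h : Mol μ ρ δ) {f ψ : E → ℂ}
    (hf : LocallyIntegrable f μ) (hψ : Tst ψ) :
    ∫ x, cv μ ρ f x * ψ x ∂μ = ∫ y, f y * cv μ ρ ψ y ∂μ := by
  have : ProperSpace E := FiniteDimensional.proper_rclike ℂ E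
  obtain ⟨R, hR⟩ : ∃ R : ℝ, ∀ x, R < ‖x‖ → ψ x = 0 := by
    obtain ⟨R, hR⟩ := hψ.2.isCompact.isBounded.subset_closedBall 0
    refine ⟨R, fun x hx => ?_⟩
    by_contra hne
    have := hR (subset_tsupport ψ (Function.mem_support.2 hne))
    rw [mem_closedBall_zero_iff] at this
    linarith
  obtain ⟨C1, hC1⟩ := weyln_bdd hψ
  obtain ⟨C2, hC2⟩ := weyln_bdd h.tst
  have hI : Integrable (Function.uncurry
      (fun x y => f y * ((ρ (x - y) : ℝ) : ℂ) * ψ x)) (μ.prod μ) := by
    set A : E → ℂ := (closedBall (0 : E) R).indicator (fun _ => 1) with hA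
    set B : E → ℂ := (closedBall (0 : E) (R + δ)).indicator f with hB
    have hAi : Integrable A μ := by
      rw [hA, integrable_indicator_iff measurableSet_closedBall]
      exact integrableOn_const (by
        exact (isCompact_closedBall (0 : E) R).measure_lt_top.ne)
    have hBi : Integrable B μ := by
      rw [hB, integrable_indicator_iff measurableSet_closedBall]
      exact hf.integrableOn_isCompact (isCompact_closedBall _ _)
    have h1 : Integrable (fun z : E × E => A z.1 * B z.2) (μ.prod μ) := hAi.mul_prod hBi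
    have h2 : Integrable (fun z : E × E => (A z.1 * B z.2) *
        (((ρ (z.1 - z.2) : ℝ) : ℂ) * ψ z.1)) (μ.prod μ) := by
      refine h1.mul_bdd (c := C2 * C1) ?_ ?_
      · refine Continuous.aestronglyMeasurable ?_
        have h3 : Continuous ψ := hψ.1.continuous
        have h4 : Continuous ρ := h.smooth.continuous
        fun_prop
      · refine Filter.Eventually.of_forall (fun z => ?_)
        rw [norm_mul]
        exact mul_le_mul (hC2 _) (hC1 _) (norm_nonneg _) ((norm_nonneg _).trans (hC2 0))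
    refine h2.congr (Filter.Eventually.of_forall ?_)
    rintro ⟨x, y⟩
    simp only [Function.uncurry]
    by_cases hx : R < ‖x‖
    · rw [hR x hx]; ring
    · push Not at hx
      by_cases hy : δ ≤ ‖x - y‖
      · rw [h.supp _ hy]; simp
      · push Not at hy
        have h3 : A x = 1 := by
          rw [hA, indicator_of_mem]
          rwa [mem_closedBall_zero_iff]
        have h4 : B y = f y := by
          rw [hB, indicator_of_mem]
          rw [mem_closedBall_zero_iff]
          have : ‖y‖ ≤ ‖x‖ + ‖x - y‖ := by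
            calc ‖y‖ = ‖x - (x - y)‖ := by congr 1; abel
              _ ≤ ‖x‖ + ‖x - y‖ := norm_sub_le _ _
          linarith
        rw [h3, h4]; ring
  have h1 : ∀ x, cv μ ρ f x * ψ x = ∫ y, f y * ((ρ (x - y) : ℝ) : ℂ) * ψ x ∂μ := by
    intro x
    rw [cv, integral_mul_const]
  simp_rw [h1]
  rw [integral_integral_swap hI]
  refine integral_congr_ae (Filter.Eventually.of_forall (fun y => ?_))
  simp only
  rw [cv, ← integral_const_mul]
  refine integral_congr_ae (Filter.Eventually.of_forall (fun x => ?_))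
  simp only
  rw [← weyln_even h (x - y), neg_sub]
  ring

private theorem weyln_comm {ρ ρ' : E → ℝ} {δ δ' : ℝ} (h : Mol μ ρ δ) (h' : Mol μ ρ' δ')
    {f : E → ℂ} (hf : LocallyIntegrable f μ) (x : E) :
    cv μ ρ' (cv μ ρ f) x = cv μ ρ (cv μ ρ' f) x := by
  have e1 : cv μ ρ' (cv μ ρ f) x = ∫ y, f y * cv μ ρ (fun z => ((ρ' (x - z) : ℝ) : ℂ)) y ∂μ :=
    weyln_swap h hf (h'.tst_sub x)
  have e2 : cv μ ρ (cv μ ρ' f) x = ∫ y, f y * cv μ ρ' (fun z => ((ρ (x - z) : ℝ) : ℂ)) y ∂μ :=
    weyln_swap h' hf (h.tst_sub x)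
  rw [e1, e2]
  refine integral_congr_ae (Filter.Eventually.of_forall (fun y => ?_))
  simp only
  congr 1
  simp only [cv]
  rw [← integral_sub_left_eq_self _ μ (x + y)]
  refine integral_congr_ae (Filter.Eventually.of_forall (fun z => ?_))
  simp only
  rw [show x - (x + y - z) = -(y - z) by abel, show y - (x + y - z) = -(x - z) by abel,
    weyln_even h, weyln_even h']
  ring

private theorem weyln_entire {ρ : E → ℝ} {δ : ℝ} (h : Mol μ ρ δ) {g : E → ℂ}
    (hg : Differentiable ℂ g) (x : E) : cv μ ρ g x = g x := by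
  rw [cv, ← integral_add_left_eq_self _ x]
  have h1 : ∀ y, g (x + y) * ((ρ (x - (x + y)) : ℝ) : ℂ) = g (x + y) * ((ρ y : ℝ) : ℂ) := by
    intro y
    rw [show x - (x + y) = -y by abel, weyln_even h]
  simp_rw [h1]
  rw [circ_mean (r := δ + 1) hg.differentiableOn h.smooth.continuous h.circ
    ⟨δ, by linarith, h.supp⟩, h.int_one]
  simp

/-- mollification of a test function is uniformly close to it, with controlled support -/
private theorem weyln_unif {ψ : E → ℂ} (hψ : Tst ψ) {η : ℝ} (hη : 0 < η) :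
    ∃ δ0 : ℝ, 0 < δ0 ∧ δ0 ≤ 1 ∧ ∀ (ρ : E → ℝ), Mol μ ρ δ0 → ∀ y, ‖cv μ ρ ψ y - ψ y‖ ≤ η := by
  have huc : UniformContinuous ψ := hψ.2.uniformContinuous_of_continuous hψ.1.continuous
  obtain ⟨d, hd, hdd⟩ := Metric.uniformContinuous_iff.1 huc η hη
  refine ⟨min d 1, lt_min hd one_pos, min_le_right _ _, fun ρ h y => ?_⟩
  have hi : Integrable (fun z => ρ (y - z)) μ := by
    have := (h.tst_sub y).integrable (μ := μ)
    exact_mod_cast this.re
  have h1 : ∫ z, ((ρ (y - z) : ℝ) : ℂ) ∂μ = 1 := by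
    rw [integral_sub_left_eq_self (fun z => ((ρ z : ℝ) : ℂ)) μ y, integral_complex_ofReal,
      h.int_one]
    simp
  have h2 : cv μ ρ ψ y - ψ y = ∫ z, (ψ z - ψ y) * ((ρ (y - z) : ℝ) : ℂ) ∂μ := by
    have h3 : ψ y = ∫ z, ψ y * ((ρ (y - z) : ℝ) : ℂ) ∂μ := by
      rw [integral_const_mul, h1, mul_one]
    calc cv μ ρ ψ y - ψ y = ∫ z, ψ z * ((ρ (y - z) : ℝ) : ℂ) ∂μ -
          ∫ z, ψ y * ((ρ (y - z) : ℝ) : ℂ) ∂μ := by rw [← h3]; rfl
      _ = ∫ z, (ψ z * ((ρ (y - z) : ℝ) : ℂ) - ψ y * ((ρ (y - z) : ℝ) : ℂ)) ∂μ :=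
          (integral_sub (integrable_mul_tst hψ.1.continuous (h.tst_sub y))
            (integrable_mul_tst continuous_const (h.tst_sub y))).symm
      _ = _ := by
          refine integral_congr_ae (Filter.Eventually.of_forall (fun z => ?_))
          simp only
          ring
  rw [h2]
  have h4 : ‖∫ z, (ψ z - ψ y) * ((ρ (y - z) : ℝ) : ℂ) ∂μ‖ ≤ ∫ z, η * ρ (y - z) ∂μ := by
    refine norm_integral_le_of_norm_le (hi.const_mul η) (Filter.Eventually.of_forall (fun z => ?_))
    rw [norm_mul, Complex.norm_real, Real.norm_of_nonneg (h.nonneg _)]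
    by_cases hz : min d 1 ≤ ‖y - z‖
    · rw [h.supp _ hz]; simp
    · push Not at hz
      refine mul_le_mul_of_nonneg_right ?_ (h.nonneg _)
      have : dist z y < d := by
        rw [dist_comm, dist_eq_norm]
        exact hz.trans_le (min_le_left _ _)
      have := hdd this
      rw [dist_eq_norm] at this
      exact this.le
  refine h4.trans ?_
  rw [integral_const_mul, integral_sub_left_eq_self ρ μ y, h.int_one, mul_one]

omit [FiniteDimensional ℂ E] [BorelSpace E] [μ.IsAddHaarMeasure] in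
private theorem weyln_supp {ρ : E → ℝ} {δ : ℝ} (h : Mol μ ρ δ) {ψ : E → ℂ} {R : ℝ}
    (hR : ∀ x, R < ‖x‖ → ψ x = 0) {y : E} (hy : R + δ < ‖y‖) : cv μ ρ ψ y = 0 := by
  rw [cv]
  have : ∀ z, ψ z * ((ρ (y - z) : ℝ) : ℂ) = 0 := by
    intro z
    by_cases hz : R < ‖z‖
    · rw [hR z hz, zero_mul]
    · push Not at hz
      have : δ ≤ ‖y - z‖ := by
        have : ‖y‖ ≤ ‖y - z‖ + ‖z‖ := by
          calc ‖y‖ = ‖(y - z) + z‖ := by congr 1; abel
            _ ≤ _ := norm_add_le _ _
        linarith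
      rw [h.supp _ this]
      simp
  simp [this]

/-- Weyl's lemma: a weakly holomorphic locally integrable function is a.e. equal to an entire
function -/
theorem weyl {ι : Type} [Fintype ι] (b : Module.Basis ι ℂ E) {f : E → ℂ}
    (hf : LocallyIntegrable f μ)
    (h : ∀ j, ∀ ψ : E → ℂ, Tst ψ → ∫ x, f x * pb (b j) ψ x ∂μ = 0) :
    ∃ g : E → ℂ, Differentiable ℂ g ∧ f =ᵐ[μ] g := by
  have : ProperSpace E := FiniteDimensional.proper_rclike ℂ E
  have : FiniteDimensional ℝ E := FiniteDimensional.complexToReal E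
  -- mollifications are entire
  have hent : ∀ (ρ : E → ℝ) (δ : ℝ), Mol μ ρ δ → Differentiable ℂ (cv μ ρ f) := by
    intro ρ δ hρ x
    refine differentiableAt_of_pb b
      ((cv_smooth hρ hf).differentiable (by simp) x) (fun j => ?_)
    rw [pb_cv hρ hf, h j _ (hρ.tst_sub x), neg_zero]
  -- they do not depend on the mollifier
  have hind : ∀ (ρ ρ' : E → ℝ) (δ δ' : ℝ), Mol μ ρ δ → Mol μ ρ' δ' →
      cv μ ρ f = cv μ ρ' f := by
    intro ρ ρ' δ δ' hρ hρ'
    funext x
    rw [← weyln_entire hρ' (hent ρ δ hρ) x, weyln_comm hρ hρ' hf x,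
      weyln_entire hρ (hent ρ' δ' hρ') x]
  obtain ⟨ρ₀, hρ₀⟩ := exists_mol μ (one_pos : (0 : ℝ) < 1)
  refine ⟨cv μ ρ₀ f, hent ρ₀ 1 hρ₀, ?_⟩
  have hgc : Continuous (cv μ ρ₀ f) := (cv_smooth hρ₀ hf).continuous
  refine ae_eq_of_integral_contDiff_smul_eq hf hgc.locallyIntegrable (fun φ hφ hφc => ?_)
  set ψ : E → ℂ := fun x => ((φ x : ℝ) : ℂ) with hψdef
  have hψ : Tst ψ := by
    refine ⟨Complex.ofRealCLM.contDiff.comp hφ, ?_⟩
    exact hφc.comp_left (g := fun t : ℝ => (t : ℂ)) (by simp)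
  have e1 : ∫ x, φ x • f x ∂μ = ∫ x, f x * ψ x ∂μ := by
    refine integral_congr_ae (Filter.Eventually.of_forall (fun x => ?_))
    simp only [hψdef, Complex.real_smul]
    ring
  have e2 : ∫ x, φ x • cv μ ρ₀ f x ∂μ = ∫ x, cv μ ρ₀ f x * ψ x ∂μ := by
    refine integral_congr_ae (Filter.Eventually.of_forall (fun x => ?_))
    simp only [hψdef, Complex.real_smul]
    ring
  rw [e1, e2]
  -- the difference is arbitrarily small
  obtain ⟨R, hR⟩ : ∃ R : ℝ, ∀ x, R < ‖x‖ → ψ x = 0 := by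
    obtain ⟨R, hR⟩ := hψ.2.isCompact.isBounded.subset_closedBall 0
    refine ⟨R, fun x hx => ?_⟩
    by_contra hne
    have := hR (subset_tsupport ψ (Function.mem_support.2 hne))
    rw [mem_closedBall_zero_iff] at this
    linarith
  set B : E → ℂ := (closedBall (0 : E) (R + 1)).indicator f with hB
  have hBi : Integrable B μ := by
    rw [hB, integrable_indicator_iff measurableSet_closedBall]
    exact hf.integrableOn_isCompact (isCompact_closedBall _ _)
  set M : ℝ := ∫ x, ‖B x‖ ∂μ with hM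
  have hM0 : 0 ≤ M := integral_nonneg (fun x => norm_nonneg _)
  have key : ∀ η : ℝ, 0 < η →
      ‖∫ x, cv μ ρ₀ f x * ψ x ∂μ - ∫ x, f x * ψ x ∂μ‖ ≤ η * M := by
    intro η hη
    obtain ⟨δ0, hδ, hδ1, hun⟩ := weyln_unif (μ := μ) hψ hη
    obtain ⟨ρ, hρ⟩ := exists_mol μ hδ
    rw [hind ρ₀ ρ 1 δ0 hρ₀ hρ, weyln_swap hρ hf hψ]
    have hcvs : Tst (cv μ ρ ψ) := by
      refine ⟨cv_smooth hρ hψ.1.continuous.locallyIntegrable, ?_⟩
      refine HasCompactSupport.intro (isCompact_closedBall (0 : E) (R + δ0)) (fun y hy => ?_)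
      rw [mem_closedBall_zero_iff, not_le] at hy
      exact weyln_supp hρ hR hy
    rw [← integral_sub (locInt_mul_tst hf hcvs) (locInt_mul_tst hf hψ)]
    rw [hM, ← integral_const_mul]
    refine norm_integral_le_of_norm_le (hBi.norm.const_mul η)
      (Filter.Eventually.of_forall (fun y => ?_))
    rw [← mul_sub, norm_mul]
    by_cases hy : R + 1 < ‖y‖
    · rw [weyln_supp hρ hR (by linarith), hR y (by linarith)]
      simp only [sub_self, norm_zero, mul_zero]
      positivity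
    · push Not at hy
      have h4 : B y = f y := by
        rw [hB, indicator_of_mem]
        rwa [mem_closedBall_zero_iff]
      rw [h4, mul_comm η]
      exact mul_le_mul_of_nonneg_left (hun ρ hρ y) (norm_nonneg _)
  have hz : ‖∫ x, cv μ ρ₀ f x * ψ x ∂μ - ∫ x, f x * ψ x ∂μ‖ ≤ 0 := by
    refine le_of_forall_pos_le_add (fun ε hε => ?_)
    have h1 := key (ε / (M + 1)) (by positivity)
    refine h1.trans ?_
    rw [zero_add, div_mul_eq_mul_div, div_le_iff₀ (by positivity)]
    nlinarith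
  have := norm_le_zero_iff.1 hz
  exact (sub_eq_zero.1 this).symm

end OkaP
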