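import Pool.Agent.H.MP_ceb9a9.DualIneq
import Pool.Agent.H.MP_ceb9a9.WeylN

/-!
# MP_ceb9a9, chapter 1: Hörmander's theorem on the whole space (approximation form)
-/

set_option autoImplicit false

open Set Metric Topology MeasureTheory
open scoped ContDiff

noncomputable section
namespace OkaP

variable {E : Type} [NormedAddCommGroup E] [NormedSpace ℂ E] [FiniteDimensional ℂ E]
  [MeasurableSpace E] [BorelSpace E] {μ : Measure E} [μ.IsAddHaarMeasure]

omit [FiniteDimensional ℂ E] [MeasurableSpace E] [BorelSpace E] in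
private theorem hor_wt_ne (φ : E → ℝ) (x : E) : wt φ x ≠ 0 := by
  unfold wt
  exact_mod_cast (Real.exp_pos _).ne'

omit [FiniteDimensional ℂ E] [MeasurableSpace E] [BorelSpace E] in
private theorem hor_wt_sq (φ : E → ℝ) (x : E) :
    wt φ x * wt φ x = ((Real.exp (-φ x) : ℝ) : ℂ) := by
  unfold wt
  rw [← Complex.ofReal_mul, ← Real.exp_add]
  congr 2
  ring

omit [FiniteDimensional ℂ E] [MeasurableSpace E] [BorelSpace E] in
private theorem hor_norm_wt (φ : E → ℝ) (x : E) : ‖wt φ x‖ ^ 2 = Real.exp (-φ x) := by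
  unfold wt
  rw [Complex.norm_real, Real.norm_eq_abs, abs_of_pos (Real.exp_pos _), sq, ← Real.exp_add]
  congr 1
  ring

omit [FiniteDimensional ℂ E] [MeasurableSpace E] [BorelSpace E] in
private theorem hor_conj_wt (φ : E → ℝ) (x : E) : (starRingEnd ℂ) (wt φ x) = wt φ x := by
  unfold wt
  exact Complex.conj_ofReal _

omit [FiniteDimensional ℂ E] [MeasurableSpace E] [BorelSpace E] in
private theorem hor_wt_cont {φ : E → ℝ} (hφ : ContDiff ℝ ∞ φ) : Continuous (wt φ) := by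
  unfold wt
  have := hφ.continuous
  fun_prop

private theorem hor_memLp {φ : E → ℝ} (hφ : ContDiff ℝ ∞ φ) {u : E → ℂ} (hu : Tst u) :
    MemLp (fun x => u x * wt φ x) 2 μ := by
  refine Continuous.memLp_of_hasCompactSupport (hu.1.continuous.mul (hor_wt_cont hφ)) ?_
  exact hu.2.mul_right

private theorem hor_norm_sq {F : Lp ℂ 2 μ} {f : E → ℂ} (h : F =ᵐ[μ] f) :
    ‖F‖ ^ 2 = ∫ x, ‖f x‖ ^ 2 ∂μ := by
  have h1 : ((‖F‖ ^ 2 : ℝ) : ℂ) = inner ℂ F F := by
    rw [inner_self_eq_norm_sq_to_K]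
    norm_cast
  rw [L2.inner_def] at h1
  have h2 : ∫ x, inner ℂ (F x) (F x) ∂μ = ∫ x, ((‖f x‖ ^ 2 : ℝ) : ℂ) ∂μ := by
    refine integral_congr_ae (h.mono fun x hx => ?_)
    simp only
    rw [hx, inner_self_eq_norm_sq_to_K]
    norm_cast
  rw [h2, integral_complex_ofReal] at h1
  exact_mod_cast h1

private theorem hor_inner {F G : Lp ℂ 2 μ} {f g : E → ℂ} (hF : F =ᵐ[μ] f) (hG : G =ᵐ[μ] g) :
    inner ℂ F G = ∫ x, (starRingEnd ℂ) (f x) * g x ∂μ := by
  rw [L2.inner_def]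
  refine integral_congr_ae ?_
  filter_upwards [hF, hG] with x hx hx'
  rw [hx, hx', RCLike.inner_apply']

omit [FiniteDimensional ℂ E] [MeasurableSpace E] [BorelSpace E] in
private theorem hor_dl_add {ι : Type} [Fintype ι] (b : ι → E) (φ : E → ℝ) {v w : ι → E → ℂ}
    (hv : ∀ j, Tst (v j)) (hw : ∀ j, Tst (w j)) (x : E) :
    dl b φ (fun j y => v j y + w j y) x = dl b φ v x + dl b φ w x := by
  unfold dl
  rw [← neg_add, ← Finset.sum_add_distrib]
  congr 1
  refine Finset.sum_congr rfl fun j _ => ?_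
  rw [pd_add ((hv j).1.differentiable (by norm_num) x) ((hw j).1.differentiable (by norm_num) x)]
  ring

omit [FiniteDimensional ℂ E] [MeasurableSpace E] [BorelSpace E] in
private theorem hor_dl_smul {ι : Type} [Fintype ι] (b : ι → E) (φ : E → ℝ) {v : ι → E → ℂ}
    (hv : ∀ j, Tst (v j)) (c : ℂ) (x : E) :
    dl b φ (fun j y => c * v j y) x = c * dl b φ v x := by
  unfold dl
  rw [mul_neg, Finset.mul_sum]
  congr 1
  refine Finset.sum_congr rfl fun j _ => ?_
  rw [pd_mul (differentiableAt_const c) ((hv j).1.differentiable (by norm_num) x), pd_const]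
  ring

/-- the submodule of the functions `δ v * wt φ` -/
private def horSub {ι : Type} [Fintype ι] (b : ι → E) (φ : E → ℝ) (μ : Measure E) :
    Submodule ℂ (Lp ℂ 2 μ) where
  carrier := {F | ∃ v : ι → E → ℂ, (∀ j, Tst (v j)) ∧
    F =ᵐ[μ] fun x => dl b φ v x * wt φ x}
  add_mem' := by
    rintro F G ⟨v, hv, hF⟩ ⟨w, hw, hG⟩
    refine ⟨fun j y => v j y + w j y, fun j => (hv j).add (hw j), ?_⟩
    filter_upwards [hF, hG, Lp.coeFn_add F G] with x h1 h2 h3
    rw [h3, Pi.add_apply, h1, h2, hor_dl_add b φ hv hw]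
    ring
  zero_mem' := by
    refine ⟨fun _ _ => 0, fun _ => ⟨contDiff_const, HasCompactSupport.zero⟩, ?_⟩
    filter_upwards [Lp.coeFn_zero ℂ 2 μ] with x h1
    rw [h1]
    simp [dl, pd_const]
  smul_mem' := by
    rintro c F ⟨v, hv, hF⟩
    refine ⟨fun j y => c * v j y, fun j => Tst.mul contDiff_const (hv j), ?_⟩
    filter_upwards [hF, Lp.coeFn_smul c F] with x h1 h3
    rw [h3, Pi.smul_apply, h1, hor_dl_smul b φ hv, smul_eq_mul]
    ring

/-- Hörmander's theorem: a test function is approximated by an entire function in the weighted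
`L²` norm, with error at most the norm of `∂̄ g`. -/
theorem hormander {ι : Type} [Fintype ι] (b : Module.Basis ι ℂ E) {φ : E → ℝ}
    (hφ : ContDiff ℝ ∞ φ)
    (hl : ∀ x, ∀ w : ι → ℂ, ∑ j, ‖w j‖ ^ 2 ≤ levi φ x (∑ j, w j • b j))
    {g : E → ℂ} (hg : Tst g) :
    ∃ h : E → ℂ, Differentiable ℂ h ∧
      Integrable (fun x => ‖g x - h x‖ ^ 2 * Real.exp (-φ x)) μ ∧
      ∫ x, ‖g x - h x‖ ^ 2 * Real.exp (-φ x) ∂μ ≤
        ∑ j, ∫ x, ‖pb (b j) g x‖ ^ 2 * Real.exp (-φ x) ∂μ := by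
  classical
  haveI : ProperSpace E := FiniteDimensional.proper ℂ E
  set A : ℝ := ∑ j, ∫ x, ‖pb (b j) g x‖ ^ 2 * Real.exp (-φ x) ∂μ with hA
  have hA0 : 0 ≤ A := Finset.sum_nonneg fun j _ => integral_nonneg fun x => by positivity
  set G : Lp ℂ 2 μ := (hor_memLp (μ := μ) hφ hg).toLp _ with hG
  have hGe : G =ᵐ[μ] fun x => g x * wt φ x := MemLp.coeFn_toLp _
  set K : Submodule ℂ (Lp ℂ 2 μ) := (horSub b φ μ).topologicalClosure with hK
  haveI : CompleteSpace K := (horSub b φ μ).isClosed_topologicalClosure.completeSpace_coe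
  set u : Lp ℂ 2 μ := K.starProjection G with hu
  have huK : u ∈ K := K.starProjection_apply_mem G
  have horth : G - u ∈ Kᗮ := K.sub_starProjection_mem_orthogonal G
  set Ht : Lp ℂ 2 μ := G - u with hHt
  -- the weakly holomorphic function
  have hloc : LocallyIntegrable (fun x => Ht x * (wt φ x)⁻¹) μ := by
    have h1 : LocallyIntegrable (fun x => Ht x) μ := (Lp.memLp Ht).locallyIntegrable one_le_two
    rw [← locallyIntegrableOn_univ] at h1 ⊢
    refine h1.mul_continuousOn ?_ isClosed_univ.isLocallyClosed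
    exact ((hor_wt_cont hφ).inv₀ (hor_wt_ne φ)).continuousOn
  have hweak : ∀ j, ∀ ψ : E → ℂ, Tst ψ →
      ∫ x, (Ht x * (wt φ x)⁻¹) * pb (b j) ψ x ∂μ = 0 := by
    intro j ψ hψ
    have hexp : ContDiff ℝ ∞ (fun y => ((Real.exp (φ y) : ℝ) : ℂ)) :=
      Complex.ofRealCLM.contDiff.comp (Real.contDiff_exp.comp hφ)
    have hvT : Tst (fun y => ((Real.exp (φ y) : ℝ) : ℂ) * (starRingEnd ℂ) (ψ y)) :=
      Tst.mul hexp hψ.conj
    set v : ι → E → ℂ := fun k => if k = j then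
      (fun y => ((Real.exp (φ y) : ℝ) : ℂ) * (starRingEnd ℂ) (ψ y)) else fun _ => 0 with hv
    have hvt : ∀ k, Tst (v k) := by
      intro k
      simp only [hv]
      split_ifs
      · exact hvT
      · exact ⟨contDiff_const, HasCompactSupport.zero⟩
    have hdl : ∀ x, dl b φ v x =
        - (((Real.exp (φ x) : ℝ) : ℂ) * (starRingEnd ℂ) (pb (b j) ψ x)) := by
      intro x
      unfold dl
      rw [Finset.sum_eq_single j]
      · simp only [hv, if_true]
        rw [pd_mul (hexp.differentiable (by norm_num) x)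
          (hψ.conj.1.differentiable (by norm_num) x), pd_exp (hφ.differentiable (by norm_num) x),
          pd_conj]
        ring
      · intro k _ hk
        simp only [hv, hk, if_false, pd_const]
        ring
      · intro h
        exact absurd (Finset.mem_univ _) h
    set F : Lp ℂ 2 μ := (hor_memLp (μ := μ) hφ (tst_dl b hφ hvt)).toLp _ with hF
    have hFe : F =ᵐ[μ] fun x => dl b φ v x * wt φ x := MemLp.coeFn_toLp _
    have hFK : F ∈ K := (horSub b φ μ).le_topologicalClosure ⟨v, hvt, hFe⟩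
    have h0 : inner ℂ F Ht = 0 := (Submodule.mem_orthogonal _ _).mp horth F hFK
    rw [hor_inner hFe (Filter.EventuallyEq.refl _ (Ht : E → ℂ))] at h0
    have h1 : ∀ x, (starRingEnd ℂ) (dl b φ v x * wt φ x) * Ht x =
        - ((Ht x * (wt φ x)⁻¹) * pb (b j) ψ x) := by
      intro x
      have e1 : ((Real.exp (φ x) : ℝ) : ℂ) * wt φ x = (wt φ x)⁻¹ := by
        have e2 : ((Real.exp (φ x) : ℝ) : ℂ) * (wt φ x * wt φ x) = 1 := by
          rw [hor_wt_sq, ← Complex.ofReal_mul, ← Real.exp_add]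
          simp
        field_simp [hor_wt_ne φ x]
        rw [← e2]
        ring
      rw [hdl, map_mul, map_neg, map_mul, Complex.conj_ofReal, Complex.conj_conj, hor_conj_wt,
        ← e1]
      ring
    rw [integral_congr_ae (Filter.Eventually.of_forall h1), integral_neg, neg_eq_zero] at h0
    exact h0
  obtain ⟨h, hh, hhe⟩ := weyl b hloc hweak
  -- the error
  have hue : u =ᵐ[μ] fun x => (g x - h x) * wt φ x := by
    have e1 : u = G - Ht := by rw [hHt]; abel
    rw [e1]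
    filter_upwards [Lp.coeFn_sub G Ht, hGe, hhe] with x h1 h2 h3
    rw [h1, Pi.sub_apply, h2, sub_mul, ← h3, mul_assoc, inv_mul_cancel₀ (hor_wt_ne φ x), mul_one]
  have hfe : ∀ x, ‖(g x - h x) * wt φ x‖ ^ 2 = ‖g x - h x‖ ^ 2 * Real.exp (-φ x) := by
    intro x
    rw [norm_mul, mul_pow, hor_norm_wt]
  have hnorm : ‖u‖ ^ 2 = ∫ x, ‖g x - h x‖ ^ 2 * Real.exp (-φ x) ∂μ := by
    rw [hor_norm_sq hue]
    exact integral_congr_ae (Filter.Eventually.of_forall hfe)
  have hint : Integrable (fun x => ‖g x - h x‖ ^ 2 * Real.exp (-φ x)) μ := by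
    have h1 : MemLp (fun x => (g x - h x) * wt φ x) 2 μ := (memLp_congr_ae hue).mp (Lp.memLp u)
    have h2 := (memLp_two_iff_integrable_sq_norm h1.1).mp h1
    refine h2.congr (Filter.Eventually.of_forall hfe)
  refine ⟨h, hh, hint, ?_⟩
  rw [← hnorm]
  -- the inequality on the submodule
  have hineq0 : ∀ k ∈ horSub b φ μ, ‖inner ℂ k G‖ ^ 2 ≤ A * ‖k‖ ^ 2 := by
    rintro k ⟨v, hv, hk⟩
    have h1 := dual_ineq (μ := μ) b hφ hl hg hv
    rw [hor_inner hk hGe, hor_norm_sq hk]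
    have e1 : ∀ x, (starRingEnd ℂ) (dl b φ v x * wt φ x) * (g x * wt φ x) =
        g x * (starRingEnd ℂ) (dl b φ v x) * ((Real.exp (-φ x) : ℝ) : ℂ) := by
      intro x
      rw [map_mul, hor_conj_wt, ← hor_wt_sq]
      ring
    have e2 : ∀ x, ‖dl b φ v x * wt φ x‖ ^ 2 = ‖dl b φ v x‖ ^ 2 * Real.exp (-φ x) := by
      intro x
      rw [norm_mul, mul_pow, hor_norm_wt]
    rw [integral_congr_ae (Filter.Eventually.of_forall e1),
      integral_congr_ae (Filter.Eventually.of_forall e2)]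
    exact h1
  have hineq : ‖inner ℂ u G‖ ^ 2 ≤ A * ‖u‖ ^ 2 := by
    have hcl : IsClosed {k : Lp ℂ 2 μ | ‖inner ℂ k G‖ ^ 2 ≤ A * ‖k‖ ^ 2} := by
      refine isClosed_le ?_ ?_
      · exact ((continuous_id.inner continuous_const).norm).pow 2
      · exact continuous_const.mul (continuous_norm.pow 2)
    have : (K : Set (Lp ℂ 2 μ)) ⊆ {k | ‖inner ℂ k G‖ ^ 2 ≤ A * ‖k‖ ^ 2} := by
      rw [hK, Submodule.topologicalClosure_coe]
      exact closure_minimal hineq0 hcl
    exact this huK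
  have huG : inner ℂ u G = ((‖u‖ ^ 2 : ℝ) : ℂ) := by
    have h1 : inner ℂ u Ht = 0 := (Submodule.mem_orthogonal _ _).mp horth u huK
    have h2 : G = Ht + u := by rw [hHt]; abel
    rw [h2, inner_add_right, h1, zero_add, inner_self_eq_norm_sq_to_K]
    norm_cast
  rw [huG, Complex.norm_real, Real.norm_eq_abs, abs_of_nonneg (by positivity)] at hineq
  by_cases h0 : ‖u‖ ^ 2 = 0
  · rw [h0]
    exact hA0
  · have hpos : 0 < ‖u‖ ^ 2 := lt_of_le_of_ne (by positivity) (Ne.symm h0)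
    rw [sq (‖u‖ ^ 2)] at hineq
    exact le_of_mul_le_mul_right hineq hpos

/-- Hörmander's theorem with an additional weight `N Λ`, `N → ∞`: only the set `{Λ ≤ 0}` counts -/
theorem hormander_inf {ι : Type} [Fintype ι] (b : Module.Basis ι ℂ E) {φ Λ : E → ℝ}
    (hφ : ContDiff ℝ ∞ φ) (hΛ : ContDiff ℝ ∞ Λ) (hΛ0 : ∀ x, 0 ≤ Λ x)
    {N0 : ℝ} (hl : ∀ N, N0 ≤ N → ∀ x, ∀ w : ι → ℂ,
      ∑ j, ‖w j‖ ^ 2 ≤ levi (fun y => φ y + N * Λ y) x (∑ j, w j • b j))
    {g : E → ℂ} (hg : Tst g) {ε : ℝ} (hε : 0 < ε) :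
    ∃ h : E → ℂ, Differentiable ℂ h ∧
      IntegrableOn (fun x => ‖g x - h x‖ ^ 2 * Real.exp (-φ x)) {x | Λ x ≤ 0} μ ∧
      ∫ x in {x | Λ x ≤ 0}, ‖g x - h x‖ ^ 2 * Real.exp (-φ x) ∂μ ≤
        (∑ j, ∫ x in {x | Λ x ≤ 0}, ‖pb (b j) g x‖ ^ 2 * Real.exp (-φ x) ∂μ) + ε := by
  classical
  haveI : ProperSpace E := FiniteDimensional.proper ℂ E
  have hmeas : MeasurableSet {x | Λ x ≤ 0} :=
    (isClosed_le hΛ.continuous continuous_const).measurableSet
  have hint0 : ∀ j, Integrable (fun x => ‖pb (b j) g x‖ ^ 2 * Real.exp (-φ x)) μ := by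
    intro j
    have h1 : Tst (pb (b j) g) := hg.pb
    refine Continuous.integrable_of_hasCompactSupport ?_ ?_
    · have := h1.1.continuous
      have := hφ.continuous
      fun_prop
    · have : HasCompactSupport (fun x => ‖pb (b j) g x‖ ^ 2) := by
        refine h1.2.comp_left (g := fun z : ℂ => ‖z‖ ^ 2) ?_
        simp
      exact this.mul_right
  have hlim : ∀ j, Filter.Tendsto (fun n : ℕ => ∫ x, ‖pb (b j) g x‖ ^ 2 *
      Real.exp (-(φ x + (n : ℝ) * Λ x)) ∂μ) Filter.atTop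
      (𝓝 (∫ x in {x | Λ x ≤ 0}, ‖pb (b j) g x‖ ^ 2 * Real.exp (-φ x) ∂μ)) := by
    intro j
    rw [← integral_indicator hmeas]
    refine tendsto_integral_of_dominated_convergence
      (fun x => ‖pb (b j) g x‖ ^ 2 * Real.exp (-φ x)) ?_ (hint0 j) ?_ ?_
    · intro n
      refine Continuous.aestronglyMeasurable ?_
      have := (hg.pb (a := b j)).1.continuous
      have := hφ.continuous
      have := hΛ.continuous
      fun_prop
    · intro n
      refine Filter.Eventually.of_forall fun x => ?_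
      rw [Real.norm_eq_abs, abs_of_nonneg (by positivity)]
      refine mul_le_mul_of_nonneg_left (Real.exp_le_exp.mpr ?_) (by positivity)
      have := mul_nonneg (Nat.cast_nonneg (α := ℝ) n) (hΛ0 x)
      linarith
    · refine Filter.Eventually.of_forall fun x => ?_
      by_cases hx : Λ x ≤ 0
      · have hx0 : Λ x = 0 := le_antisymm hx (hΛ0 x)
        rw [indicator_of_mem (show x ∈ {x | Λ x ≤ 0} from hx)]
        simp only [hx0, mul_zero, add_zero]
        exact tendsto_const_nhds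
      · rw [indicator_of_notMem (show x ∉ {x | Λ x ≤ 0} from hx)]
        push Not at hx
        have h1 : Filter.Tendsto (fun n : ℕ => φ x + (n : ℝ) * Λ x) Filter.atTop Filter.atTop :=
          Filter.tendsto_atTop_add_const_left _ _
            (tendsto_natCast_atTop_atTop.atTop_mul_const hx)
        have h2 := Real.tendsto_exp_neg_atTop_nhds_zero.comp h1
        have h3 := h2.const_mul (‖pb (b j) g x‖ ^ 2)
        rw [mul_zero] at h3
        exact h3
  have hlimS := tendsto_finsetSum (Finset.univ : Finset ι) fun j _ => hlim j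
  have hev : ∀ᶠ n : ℕ in Filter.atTop, ∑ j, ∫ x, ‖pb (b j) g x‖ ^ 2 *
      Real.exp (-(φ x + (n : ℝ) * Λ x)) ∂μ ≤
      (∑ j, ∫ x in {x | Λ x ≤ 0}, ‖pb (b j) g x‖ ^ 2 * Real.exp (-φ x) ∂μ) + ε := by
    refine (hlimS.eventually (gt_mem_nhds (lt_add_of_pos_right _ hε))).mono fun n hn => hn.le
  obtain ⟨n, hn1, hn2⟩ := (hev.and (Filter.eventually_ge_atTop ⌈N0⌉₊)).exists
  have hnN : N0 ≤ (n : ℝ) := (Nat.le_ceil N0).trans (by exact_mod_cast hn2)
  obtain ⟨h, hh, hhi, hhle⟩ := hormander (μ := μ) b (φ := fun y => φ y + (n : ℝ) * Λ y)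
    (hφ.add (contDiff_const.mul hΛ)) (hl n hnN) hg
  have hcongr : ∀ x ∈ {x | Λ x ≤ 0}, ‖g x - h x‖ ^ 2 * Real.exp (-(φ x + (n : ℝ) * Λ x)) =
      ‖g x - h x‖ ^ 2 * Real.exp (-φ x) := by
    intro x hx
    have hx0 : Λ x = 0 := le_antisymm hx (hΛ0 x)
    rw [hx0, mul_zero, add_zero]
  refine ⟨h, hh, ?_, ?_⟩
  · exact (hhi.integrableOn (s := {x | Λ x ≤ 0})).congr_fun hcongr hmeas
  · calc ∫ x in {x | Λ x ≤ 0}, ‖g x - h x‖ ^ 2 * Real.exp (-φ x) ∂μ
        = ∫ x in {x | Λ x ≤ 0}, ‖g x - h x‖ ^ 2 * Real.exp (-(φ x + (n : ℝ) * Λ x)) ∂μ :=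
          (setIntegral_congr_fun hmeas hcongr).symm
      _ ≤ ∫ x, ‖g x - h x‖ ^ 2 * Real.exp (-(φ x + (n : ℝ) * Λ x)) ∂μ :=
          setIntegral_le_integral hhi (Filter.Eventually.of_forall fun x => by positivity)
      _ ≤ _ := hhle
      _ ≤ _ := hn1

end OkaP
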