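import Pool.Agent.H.MP_ceb9a9.Hor
import Pool.Agent.H.MP_ceb9a9.Psh0
import Pool.Agent.H.MP_ceb9a9.CutR

/-!
# MP_ceb9a9, chapter 1: Hörmander's theorem on sublevel sets of psh functions
-/

set_option autoImplicit false

open Set Metric Topology MeasureTheory
open scoped ContDiff

noncomputable section
namespace OkaP

variable {E : Type} [NormedAddCommGroup E] [NormedSpace ℂ E] [FiniteDimensional ℂ E]
  [MeasurableSpace E] [BorelSpace E] {μ : Measure E} [μ.IsAddHaarMeasure]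

omit [FiniteDimensional ℂ E] [MeasurableSpace E] [BorelSpace E] in
private theorem horLoc_cut {U : Set E} (hU : IsOpen U) {χ : E → ℝ} (hχ : ContDiff ℝ ∞ χ)
    (hs : tsupport χ ⊆ U) {f : E → ℝ} (hf : ContDiffOn ℝ ∞ f U) :
    ContDiff ℝ ∞ (fun x => χ x * f x) := by
  rw [contDiff_iff_contDiffAt]
  intro x
  by_cases hx : x ∈ U
  · exact hχ.contDiffAt.mul (hf.contDiffAt (hU.mem_nhds hx))
  · have h0 : χ =ᶠ[𝓝 x] 0 := notMem_tsupport_iff_eventuallyEq.mp fun h => hx (hs h)
    have h1 : (fun x => χ x * f x) =ᶠ[𝓝 x] fun _ => 0 := by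
      filter_upwards [h0] with y hy
      simp [hy]
    exact (contDiffAt_const (c := (0 : ℝ))).congr_of_eventuallyEq h1

/-- approximation of a test function by an entire function on the sublevel set `{ρ ≤ σ}`, with an
additional weight `f` defined near the larger sublevel set `{ρ < σ'}` -/
theorem hor_loc {ι : Type} [Fintype ι] (b : Module.Basis ι ℂ E) {ρ : E → ℝ} (hρ : Psh ρ)
    {σ σ' : ℝ} (hσ : σ < σ') (hc : IsCompact {x | ρ x ≤ σ'})
    {f : E → ℝ} (hf : ContDiffOn ℝ ∞ f {x | ρ x < σ'}) {C1 : ℝ} (hC1 : 0 ≤ C1)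
    (hl : ∀ x, ρ x < σ' → ∀ w : ι → ℂ, -C1 * ∑ j, ‖w j‖ ^ 2 ≤ levi f x (∑ j, w j • b j))
    {g : E → ℂ} (hg : Tst g) {B : ℝ}
    (hB : ∀ x, ρ x < σ' → (∑ j, ‖pb (b j) g x‖ ^ 2) * Real.exp (-f x) ≤ B) (hB0 : 0 ≤ B)
    {ε : ℝ} (hε : 0 < ε) :
    ∃ h : E → ℂ, Differentiable ℂ h ∧
      IntegrableOn (fun x => ‖g x - h x‖ ^ 2 * Real.exp (-f x - (1 + C1) * qf b x))
        {x | ρ x ≤ σ} μ ∧
      ∫ x in {x | ρ x ≤ σ}, ‖g x - h x‖ ^ 2 * Real.exp (-f x - (1 + C1) * qf b x) ∂μ ≤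
        B * μ.real {x | ρ x ≤ σ'} + ε := by
  classical
  have hρc : Continuous ρ := hρ.smooth.continuous
  have hqs := qf_smooth b
  have hqc : Continuous (qf b) := hqs.continuous
  set d : ℝ := σ' - σ with hd
  have hd0 : 0 < d := by linarith
  -- the constant delta
  obtain ⟨M, hM⟩ := hc.exists_bound_of_continuousOn hqc.continuousOn
  obtain ⟨δ, hδ0, hδ⟩ : ∃ δ : ℝ, 0 < δ ∧ ∀ x, ρ x ≤ σ' → δ * qf b x ≤ d / 4 := by
    refine ⟨d / (4 * (|M| + 1)), by positivity, fun x hx => ?_⟩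
    have h1 : qf b x ≤ |M| + 1 := by
      have := hM x hx
      rw [Real.norm_of_nonneg (qf_nonneg b x)] at this
      linarith [le_abs_self M]
    calc d / (4 * (|M| + 1)) * qf b x ≤ d / (4 * (|M| + 1)) * (|M| + 1) := by
          apply mul_le_mul_of_nonneg_left h1
          positivity
      _ = d / 4 := by
          have : |M| + 1 ≠ 0 := by positivity
          field_simp
  set A : E → ℝ := fun x => (ρ x + δ * qf b x) + -(σ + d / 4) with hA
  have hAs : ContDiff ℝ ∞ A := by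
    rw [hA]
    exact (hρ.smooth.add (contDiff_const.mul hqs)).add contDiff_const
  set Lam : E → ℝ := fun x => OkaP.hc (A x) with hLam
  have hLs : ContDiff ℝ ∞ Lam := hc_smooth.comp hAs
  have hL0 : ∀ x, 0 ≤ Lam x := fun x => hc_nonneg _
  have hLi : ∀ x, ρ x ≤ σ → Lam x ≤ 0 := by
    intro x hx
    have h1 := hδ x (by linarith)
    rw [hLam]
    simp only
    rw [hc_zero]
    simp only [hA]
    linarith
  have hLii : ∀ x, Lam x ≤ 0 → ρ x ≤ σ + d / 4 := by
    intro x hx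
    by_contra hcon
    push Not at hcon
    have h1 : 0 < A x := by
      simp only [hA]
      have := mul_nonneg hδ0.le (qf_nonneg b x)
      linarith
    exact absurd (hc_pos h1) (not_lt.mpr hx)
  have hAl : ∀ x v, levi A x v = levi ρ x v + δ * levi (qf b) x v := by
    intro x v
    rw [hA, levi_add_const, levi_add hρ.smooth.contDiffAt (contDiff_const.mul hqs).contDiffAt,
      levi_const_mul]
  have hAge : ∀ x (w : ι → ℂ), δ * ∑ j, ‖w j‖ ^ 2 ≤ levi A x (∑ j, w j • b j) := by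
    intro x w
    rw [hAl, levi_qf]
    have := hρ.nonneg x (∑ j, w j • b j)
    linarith
  have hLev : ∀ x v, deriv OkaP.hc (A x) * levi A x v ≤ levi Lam x v := fun x v =>
    levi_hc_ge hAs.contDiffAt v
  have hLev0 : ∀ x (w : ι → ℂ), 0 ≤ levi Lam x (∑ j, w j • b j) := by
    intro x w
    refine le_trans ?_ (hLev x _)
    apply mul_nonneg (hc_deriv_nonneg _)
    refine le_trans ?_ (hAge x w)
    exact mul_nonneg hδ0.le (Finset.sum_nonneg fun j _ => by positivity)
  have hk0 : 0 < deriv OkaP.hc (d / 4) := hc_deriv_pos (by linarith)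
  set κ : ℝ := deriv OkaP.hc (d / 4) * δ with hκ
  have hκ0 : 0 < κ := mul_pos hk0 hδ0
  have hLev1 : ∀ x (w : ι → ℂ), σ + d / 2 ≤ ρ x →
      κ * ∑ j, ‖w j‖ ^ 2 ≤ levi Lam x (∑ j, w j • b j) := by
    intro x w hx
    refine le_trans ?_ (hLev x _)
    have h1 : d / 4 ≤ A x := by
      simp only [hA]
      have := mul_nonneg hδ0.le (qf_nonneg b x)
      linarith
    have h2 : deriv OkaP.hc (d / 4) ≤ deriv OkaP.hc (A x) := hc_deriv_mono h1
    have hs0 : 0 ≤ ∑ j, ‖w j‖ ^ 2 := Finset.sum_nonneg fun j _ => by positivity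
    calc κ * ∑ j, ‖w j‖ ^ 2 = deriv OkaP.hc (d / 4) * (δ * ∑ j, ‖w j‖ ^ 2) := by rw [hκ]; ring
      _ ≤ deriv OkaP.hc (A x) * levi A x (∑ j, w j • b j) :=
          mul_le_mul h2 (hAge x w) (mul_nonneg hδ0.le hs0) (hc_deriv_nonneg _)
  -- the cutoff
  have hUo : IsOpen {x | ρ x < σ'} := isOpen_lt hρc continuous_const
  have hK1 : IsCompact {x | ρ x ≤ σ + d / 2} :=
    hc.of_isClosed_subset (isClosed_le hρc continuous_const) fun x hx => by
      have : ρ x ≤ σ + d / 2 := hx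
      show ρ x ≤ σ'
      linarith
  obtain ⟨θ, hθs, hθc, hθm, hθU, hθ1⟩ := exists_cut hK1 hUo fun x hx => by
    have : ρ x ≤ σ + d / 2 := hx
    show ρ x < σ'
    linarith
  set F : E → ℝ := fun x => θ x * f x with hF
  have hFs : ContDiff ℝ ∞ F := horLoc_cut hUo hθs hθU hf
  obtain ⟨C2, hC20, hC2⟩ := levi_bound b hFs hc
  have hFall : ∀ x (w : ι → ℂ), -C2 * ∑ j, ‖w j‖ ^ 2 ≤ levi F x (∑ j, w j • b j) := by
    intro x w
    have hs0 : 0 ≤ ∑ j, ‖w j‖ ^ 2 := Finset.sum_nonneg fun j _ => by positivity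
    by_cases hx : ρ x ≤ σ'
    · have := (abs_le.mp (hC2 x hx w)).1
      linarith
    · have hx' : x ∉ tsupport θ := fun h => hx (le_of_lt (hθU h))
      have h0 : F =ᶠ[𝓝 x] fun _ => (0 : ℝ) := by
        filter_upwards [notMem_tsupport_iff_eventuallyEq.mp hx'] with y hy
        simp [hF, hy]
      rw [levi_congr h0, levi_const]
      nlinarith
  have hFin : ∀ x, ρ x ≤ σ + d / 2 → F =ᶠ[𝓝 x] f := by
    intro x hx
    have h1 : interior {x | θ x = 1} ∈ 𝓝 x := isOpen_interior.mem_nhds (hθ1 hx)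
    filter_upwards [h1] with y hy
    have hy2 : y ∈ {x | θ x = 1} := interior_subset hy
    have : θ y = 1 := hy2
    simp [hF, this]
  set φ : E → ℝ := fun x => F x + (1 + C1) * qf b x with hφ
  have hφs : ContDiff ℝ ∞ φ := hFs.add (contDiff_const.mul hqs)
  have hφl : ∀ x (w : ι → ℂ), levi φ x (∑ j, w j • b j) =
      levi F x (∑ j, w j • b j) + (1 + C1) * ∑ j, ‖w j‖ ^ 2 := by
    intro x w
    rw [hφ, levi_add hFs.contDiffAt (contDiff_const.mul hqs).contDiffAt, levi_const_mul, levi_qf]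
  have hmain : ∀ N, C2 / κ ≤ N → ∀ x, ∀ w : ι → ℂ,
      ∑ j, ‖w j‖ ^ 2 ≤ levi (fun y => φ y + N * Lam y) x (∑ j, w j • b j) := by
    intro N hN x w
    have hs0 : 0 ≤ ∑ j, ‖w j‖ ^ 2 := Finset.sum_nonneg fun j _ => by positivity
    have hN0 : 0 ≤ N := le_trans (by positivity) hN
    rw [levi_add hφs.contDiffAt (contDiff_const.mul hLs).contDiffAt, levi_const_mul, hφl]
    by_cases hx : ρ x ≤ σ + d / 2
    · have h1 : -C1 * ∑ j, ‖w j‖ ^ 2 ≤ levi F x (∑ j, w j • b j) := by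
        rw [levi_congr (hFin x hx)]
        exact hl x (by linarith) w
      have h2 := mul_nonneg hN0 (hLev0 x w)
      linarith
    · push Not at hx
      have h1 := hFall x w
      have h2 := mul_le_mul_of_nonneg_left (hLev1 x w hx.le) hN0
      have h3 : C2 ≤ N * κ := by
        rwa [div_le_iff₀ hκ0] at hN
      have h4 := mul_le_mul_of_nonneg_right h3 hs0
      have h5 := mul_nonneg hC1 hs0
      nlinarith
  obtain ⟨h, hh, hint, hle⟩ := hormander_inf (μ := μ) b hφs hLs hL0 hmain hg hε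
  -- comparison of the weights
  have hS : {x | ρ x ≤ σ} ⊆ {x | Lam x ≤ 0} := fun x hx => hLi x hx
  have hSm : MeasurableSet {x | Lam x ≤ 0} :=
    (isClosed_le hLs.continuous continuous_const).measurableSet
  have hSm' : MeasurableSet {x | ρ x ≤ σ} := (isClosed_le hρc continuous_const).measurableSet
  have hφe : ∀ x, Lam x ≤ 0 → -φ x = -f x - (1 + C1) * qf b x := by
    intro x hx
    have h1 := hLii x hx
    have h2 : F x = f x := (hFin x (by linarith)).self_of_nhds
    simp only [hφ, h2]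
    ring
  have hKfin : μ {x | ρ x ≤ σ'} ≠ ⊤ := hc.measure_lt_top.ne
  have hLK : {x | Lam x ≤ 0} ⊆ {x | ρ x ≤ σ'} := fun x hx => by
    have := hLii x hx
    show ρ x ≤ σ'
    linarith
  have hLfin : μ {x | Lam x ≤ 0} ≠ ⊤ := ne_top_of_le_ne_top hKfin (measure_mono hLK)
  have hint' : IntegrableOn (fun x => ‖g x - h x‖ ^ 2 * Real.exp (-f x - (1 + C1) * qf b x))
      {x | Lam x ≤ 0} μ := by
    refine hint.congr_fun ?_ hSm
    intro x hx
    simp only
    rw [hφe x hx]
  refine ⟨h, hh, hint'.mono_set hS, ?_⟩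
  have s1 : ∫ x in {x | ρ x ≤ σ}, ‖g x - h x‖ ^ 2 * Real.exp (-f x - (1 + C1) * qf b x) ∂μ ≤
      ∫ x in {x | Lam x ≤ 0}, ‖g x - h x‖ ^ 2 * Real.exp (-f x - (1 + C1) * qf b x) ∂μ := by
    refine setIntegral_mono_set hint' ?_ (Filter.Eventually.of_forall hS)
    exact Filter.Eventually.of_forall fun x => by positivity
  have s2 : ∫ x in {x | Lam x ≤ 0}, ‖g x - h x‖ ^ 2 * Real.exp (-f x - (1 + C1) * qf b x) ∂μ =
      ∫ x in {x | Lam x ≤ 0}, ‖g x - h x‖ ^ 2 * Real.exp (-φ x) ∂μ := by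
    refine setIntegral_congr_fun hSm ?_
    intro x hx
    simp only
    rw [hφe x hx]
  have hpbint : ∀ j, IntegrableOn (fun x => ‖pb (b j) g x‖ ^ 2 * Real.exp (-φ x))
      {x | Lam x ≤ 0} μ := by
    intro j
    have h1 : Tst (pb (b j) g) := hg.pb
    refine Integrable.integrableOn (Continuous.integrable_of_hasCompactSupport ?_ ?_)
    · have := h1.1.continuous
      have := hφs.continuous
      fun_prop
    · have : HasCompactSupport (fun x => ‖pb (b j) g x‖ ^ 2) := by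
        refine h1.2.comp_left (g := fun z : ℂ => ‖z‖ ^ 2) ?_
        simp
      exact this.mul_right
  have s3 : (∑ j, ∫ x in {x | Lam x ≤ 0}, ‖pb (b j) g x‖ ^ 2 * Real.exp (-φ x) ∂μ) ≤
      B * μ.real {x | ρ x ≤ σ'} := by
    rw [← integral_finsetSum _ fun j _ => hpbint j]
    calc ∫ x in {x | Lam x ≤ 0}, (∑ j, ‖pb (b j) g x‖ ^ 2 * Real.exp (-φ x)) ∂μ
        ≤ ∫ x in {x | Lam x ≤ 0}, B ∂μ := by
          refine setIntegral_mono_on (integrable_finsetSum _ fun j _ => hpbint j)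
            (integrableOn_const hLfin) hSm ?_
          intro x hx
          rw [← Finset.sum_mul, hφe x hx]
          have h1 := hLii x hx
          refine le_trans ?_ (hB x (by linarith))
          apply mul_le_mul_of_nonneg_left _ (Finset.sum_nonneg fun j _ => by positivity)
          apply Real.exp_le_exp.mpr
          have := mul_nonneg (by linarith : 0 ≤ 1 + C1) (qf_nonneg b x)
          linarith
      _ = B * μ.real {x | Lam x ≤ 0} := by
          rw [setIntegral_const, smul_eq_mul, mul_comm]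
      _ ≤ B * μ.real {x | ρ x ≤ σ'} := by
          apply mul_le_mul_of_nonneg_left _ hB0
          exact measureReal_mono hLK hKfin
  linarith

end OkaP
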