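import Pool.Agent.H.MP_ceb9a9.Wirt

/-!
# MP_ceb9a9, chapter 1: integration by parts for Wirtinger derivatives
-/

set_option autoImplicit false

open Set Metric Topology MeasureTheory
open scoped ContDiff

noncomputable section
namespace OkaP

variable {E : Type} [NormedAddCommGroup E] [NormedSpace ℂ E] [FiniteDimensional ℂ E]
  [MeasurableSpace E] [BorelSpace E] {μ : Measure E} [μ.IsAddHaarMeasure]

theorem Tst.continuous {u : E → ℂ} (hu : Tst u) : Continuous u := hu.1.continuous

theorem Tst.integrable {u : E → ℂ} (hu : Tst u) : Integrable u μ := by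
  have : IsFiniteMeasureOnCompacts μ := inferInstance
  exact hu.continuous.integrable_of_hasCompactSupport hu.2

/-- a continuous function times a test function is integrable -/
theorem integrable_mul_tst {u v : E → ℂ} (hu : Continuous u) (hv : Tst v) :
    Integrable (fun x => u x * v x) μ := by
  have h1 : HasCompactSupport (fun x => u x * v x) := hv.2.mul_left
  exact (hu.mul hv.continuous).integrable_of_hasCompactSupport h1

/-- a locally integrable function times a test function is integrable -/
theorem locInt_mul_tst {u v : E → ℂ} (hu : LocallyIntegrable u μ) (hv : Tst v) :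
    Integrable (fun x => u x * v x) μ := by
  have h := hu.integrable_smul_left_of_hasCompactSupport hv.continuous hv.2
  refine h.congr (Filter.Eventually.of_forall fun x => ?_)
  simp only [smul_eq_mul]
  ring

private theorem ibp_cont_fderiv {u : E → ℂ} (hu : ContDiff ℝ ∞ u) (a : E) :
    Continuous (fun x => fderiv ℝ u x a) :=
  (hu.continuous_fderiv (by simp)).clm_apply continuous_const

private theorem ibp_supp_fderiv {u : E → ℂ} (hu : Tst u) (a : E) :
    HasCompactSupport (fun x => fderiv ℝ u x a) :=
  hu.2.fderiv_apply ℝ a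

private theorem ibp_dir {u v : E → ℂ} (hu : ContDiff ℝ ∞ u) (hv : Tst v) (a : E) :
    Integrable (fun x => fderiv ℝ u x a * v x) μ ∧ Integrable (fun x => u x * fderiv ℝ v x a) μ ∧
    ∫ x, u x * fderiv ℝ v x a ∂μ = - ∫ x, fderiv ℝ u x a * v x ∂μ := by
  have h1 : Integrable (fun x => fderiv ℝ u x a * v x) μ :=
    ((ibp_cont_fderiv hu a).mul hv.continuous).integrable_of_hasCompactSupport hv.2.mul_left
  have h2 : Integrable (fun x => u x * fderiv ℝ v x a) μ :=
    (hu.continuous.mul (ibp_cont_fderiv hv.1 a)).integrable_of_hasCompactSupport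
      (ibp_supp_fderiv hv a).mul_left
  have h3 : Integrable (fun x => u x * v x) μ := integrable_mul_tst hu.continuous hv
  exact ⟨h1, h2, integral_mul_fderiv_eq_neg_fderiv_mul_of_integrable h1 h2 h3
    (fun x _ => (hu.differentiable (by simp)).differentiableAt)
    (fun x _ => (hv.1.differentiable (by simp)).differentiableAt)⟩

theorem ibp_pd {a : E} {u v : E → ℂ} (hu : ContDiff ℝ ∞ u) (hv : Tst v) :
    ∫ x, u x * pd a v x ∂μ = - ∫ x, pd a u x * v x ∂μ := by
  obtain ⟨h1, h2, h3⟩ := ibp_dir (μ := μ) hu hv a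
  obtain ⟨k1, k2, k3⟩ := ibp_dir (μ := μ) hu hv (Complex.I • a)
  have e1 : ∀ x, u x * pd a v x = (1 / 2 : ℂ) * (u x * fderiv ℝ v x a) -
      (Complex.I / 2) * (u x * fderiv ℝ v x (Complex.I • a)) := by
    intro x; unfold pd; ring
  have e2 : ∀ x, pd a u x * v x = (1 / 2 : ℂ) * (fderiv ℝ u x a * v x) -
      (Complex.I / 2) * (fderiv ℝ u x (Complex.I • a) * v x) := by
    intro x; unfold pd; ring
  simp_rw [e1, e2]
  rw [integral_sub (h2.const_mul _) (k2.const_mul _), integral_sub (h1.const_mul _) (k1.const_mul _),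
    integral_const_mul, integral_const_mul, integral_const_mul, integral_const_mul, h3, k3]
  ring

theorem ibp_pb {a : E} {u v : E → ℂ} (hu : ContDiff ℝ ∞ u) (hv : Tst v) :
    ∫ x, u x * pb a v x ∂μ = - ∫ x, pb a u x * v x ∂μ := by
  obtain ⟨h1, h2, h3⟩ := ibp_dir (μ := μ) hu hv a
  obtain ⟨k1, k2, k3⟩ := ibp_dir (μ := μ) hu hv (Complex.I • a)
  have e1 : ∀ x, u x * pb a v x = (1 / 2 : ℂ) * (u x * fderiv ℝ v x a) +
      (Complex.I / 2) * (u x * fderiv ℝ v x (Complex.I • a)) := by
    intro x; unfold pb; ring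
  have e2 : ∀ x, pb a u x * v x = (1 / 2 : ℂ) * (fderiv ℝ u x a * v x) +
      (Complex.I / 2) * (fderiv ℝ u x (Complex.I • a) * v x) := by
    intro x; unfold pb; ring
  simp_rw [e1, e2]
  rw [integral_add (h2.const_mul _) (k2.const_mul _), integral_add (h1.const_mul _) (k1.const_mul _),
    integral_const_mul, integral_const_mul, integral_const_mul, integral_const_mul, h3, k3]
  ring

end OkaP
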