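import Pool.Agent.H.MP_ceb9a9.Runge

/-!
# MP_ceb9a9, chapter 1: approximation with contact along the zero set of `y`
-/

set_option autoImplicit false

open Set Metric Topology MeasureTheory
open scoped ContDiff

noncomputable section
namespace OkaP

/-- Euclidean norm -/
def en {m : ℕ} (y : Fin m → ℂ) : ℝ := Real.sqrt (∑ i, ‖y i‖ ^ 2)

private theorem intEps_en_sq {m : ℕ} (y : Fin m → ℂ) : en y ^ 2 = ∑ i, ‖y i‖ ^ 2 :=
  Real.sq_sqrt (Finset.sum_nonneg fun _ _ => by positivity)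

private theorem intEps_en_nonneg {m : ℕ} (y : Fin m → ℂ) : 0 ≤ en y := Real.sqrt_nonneg _

private theorem intEps_coord_le {m : ℕ} (y : Fin m → ℂ) (i : Fin m) : ‖y i‖ ≤ en y := by
  refine Real.le_sqrt_of_sq_le ?_
  exact Finset.single_le_sum (f := fun i => ‖y i‖ ^ 2) (fun _ _ => by positivity)
    (Finset.mem_univ i)

private theorem intEps_norm_le {m : ℕ} (y : Fin m → ℂ) : ‖y‖ ≤ en y :=
  (pi_norm_le_iff_of_nonneg (intEps_en_nonneg y)).2 (intEps_coord_le y)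

private theorem intEps_en_eq {m : ℕ} (y : Fin m → ℂ) : en y = ‖WithLp.toLp 2 y‖ := by
  rw [EuclideanSpace.norm_eq]
  rfl

private theorem intEps_en_add {m : ℕ} (y z : Fin m → ℂ) : en (y + z) ≤ en y + en z := by
  rw [intEps_en_eq, intEps_en_eq, intEps_en_eq, WithLp.toLp_add]
  exact norm_add_le _ _

private theorem intEps_en_le {m : ℕ} (y : Fin m → ℂ) : en y ≤ Real.sqrt m * ‖y‖ := by
  unfold en
  rw [← Real.sqrt_sq (norm_nonneg y), ← Real.sqrt_mul (Nat.cast_nonneg m)]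
  refine Real.sqrt_le_sqrt ?_
  calc ∑ i, ‖y i‖ ^ 2 ≤ ∑ _i : Fin m, ‖y‖ ^ 2 :=
        Finset.sum_le_sum fun i _ => pow_le_pow_left₀ (norm_nonneg _) (norm_le_pi_norm y i) 2
    _ = m * ‖y‖ ^ 2 := by simp

private theorem intEps_en_lip {m : ℕ} (y z : Fin m → ℂ) :
    en y ≤ en z + Real.sqrt m * ‖y - z‖ := by
  calc en y = en (z + (y - z)) := by rw [add_sub_cancel]
    _ ≤ en z + en (y - z) := intEps_en_add _ _
    _ ≤ _ := by gcongr; exact intEps_en_le _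

/-- a smooth cutoff on the line -/
private theorem intEps_cut : ∃ (η : ℝ → ℝ) (K : ℝ), ContDiff ℝ ∞ η ∧ 0 < K ∧
    (∀ s, η s ∈ Icc (0 : ℝ) 1) ∧ (∀ s, s ≤ 9 / 16 → η s = 1) ∧ (∀ s, 1 ≤ s → η s = 0) ∧
    (∀ s, |deriv η s| ≤ K) ∧ (∀ s, s < 9 / 16 → deriv η s = 0) ∧ (∀ s, 1 < s → deriv η s = 0) := by
  set η : ℝ → ℝ := fun s => 1 - Real.smoothTransition ((s - 9 / 16) * (16 / 7)) with hη
  have h1 : ContDiff ℝ ∞ η := by
    refine contDiff_const.sub (Real.smoothTransition.contDiff.comp ?_)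
    fun_prop
  have hlow : ∀ s, s ≤ 9 / 16 → η s = 1 := by
    intro s hs
    simp only [hη]
    rw [Real.smoothTransition.zero_of_nonpos (by nlinarith), sub_zero]
  have hhigh : ∀ s, 1 ≤ s → η s = 0 := by
    intro s hs
    simp only [hη]
    rw [Real.smoothTransition.one_of_one_le (by nlinarith), sub_self]
  have hdlow : ∀ s, s < 9 / 16 → deriv η s = 0 := by
    intro s hs
    have h2 : η =ᶠ[𝓝 s] fun _ => 1 := by
      filter_upwards [Iio_mem_nhds hs] with t ht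
      exact hlow t ht.le
    rw [h2.deriv_eq, deriv_const]
  have hdhigh : ∀ s, 1 < s → deriv η s = 0 := by
    intro s hs
    have h2 : η =ᶠ[𝓝 s] fun _ => 0 := by
      filter_upwards [Ioi_mem_nhds hs] with t ht
      exact hhigh t ht.le
    rw [h2.deriv_eq, deriv_const]
  have hcont : Continuous (deriv η) := h1.continuous_deriv (by simp)
  obtain ⟨K, hK⟩ := (isCompact_Icc (a := (9 / 16 : ℝ)) (b := 1)).exists_bound_of_continuousOn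
    hcont.continuousOn
  refine ⟨η, max K 1, h1, by positivity, ?_, hlow, hhigh, ?_, hdlow, hdhigh⟩
  · intro s
    simp only [hη]
    exact ⟨by linarith [Real.smoothTransition.le_one ((s - 9 / 16) * (16 / 7))],
      by linarith [Real.smoothTransition.nonneg ((s - 9 / 16) * (16 / 7))]⟩
  · intro s
    rcases lt_or_ge s (9 / 16) with h | h
    · rw [hdlow s h, abs_zero]; positivity
    · rcases lt_or_ge 1 s with h' | h'
      · rw [hdhigh s h', abs_zero]; positivity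
      · exact (hK s ⟨h, h'⟩).trans (le_max_left _ _)

section
variable {E : Type} [NormedAddCommGroup E] [NormedSpace ℂ E]

private theorem intEps_dN {m : ℕ} {y : E → (Fin m → ℂ)} {x : E} (hy : DifferentiableAt ℂ y x)
    {G s : ℝ} (hG : ‖fderiv ℂ y x‖ ≤ G) (hs : ∀ i, ‖y x i‖ ≤ s) (hs0 : 0 ≤ s) :
    DifferentiableAt ℝ (fun z => ∑ i, ‖y z i‖ ^ 2) x ∧
      ‖fderiv ℝ (fun z => ∑ i, ‖y z i‖ ^ 2) x‖ ≤ 2 * m * s * G := by
  have h1 : ∀ i, HasFDerivAt (fun z => y z i)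
      (((ContinuousLinearMap.proj i).comp (fderiv ℂ y x)).restrictScalars ℝ) x := by
    intro i
    have h2 := hasFDerivAt_pi'.1 hy.hasFDerivAt i
    exact h2.restrictScalars ℝ
  have h2 : ∀ i, HasFDerivAt (fun z => ‖y z i‖ ^ 2) (2 • (innerSL ℝ (y x i)).comp
      (((ContinuousLinearMap.proj i).comp (fderiv ℂ y x)).restrictScalars ℝ)) x :=
    fun i => (h1 i).norm_sq
  have h3 : HasFDerivAt (fun z => ∑ i, ‖y z i‖ ^ 2) (∑ i, 2 • (innerSL ℝ (y x i)).comp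
      (((ContinuousLinearMap.proj i).comp (fderiv ℂ y x)).restrictScalars ℝ)) x :=
    HasFDerivAt.fun_sum fun i _ => h2 i
  refine ⟨h3.differentiableAt, ?_⟩
  rw [h3.fderiv]
  have hG0 : 0 ≤ G := (norm_nonneg _).trans hG
  calc ‖∑ i, 2 • (innerSL ℝ (y x i)).comp
            (((ContinuousLinearMap.proj i).comp (fderiv ℂ y x)).restrictScalars ℝ)‖
      ≤ ∑ i, ‖2 • (innerSL ℝ (y x i)).comp
            (((ContinuousLinearMap.proj i).comp (fderiv ℂ y x)).restrictScalars ℝ)‖ :=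
        norm_sum_le _ _
    _ ≤ ∑ _i : Fin m, 2 * (s * G) := by
        refine Finset.sum_le_sum fun i _ => ?_
        rw [← Nat.cast_smul_eq_nsmul ℝ, norm_smul]
        have e1 : ‖((2 : ℕ) : ℝ)‖ = 2 := by norm_num
        rw [e1]
        have e2 : ‖(((ContinuousLinearMap.proj (R := ℂ) (φ := fun _ : Fin m => ℂ) i).comp
            (fderiv ℂ y x)).restrictScalars ℝ)‖ ≤ G := by
          rw [ContinuousLinearMap.norm_restrictScalars]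
          refine ContinuousLinearMap.opNorm_le_bound _ hG0 fun v => ?_
          calc ‖(fderiv ℂ y x v) i‖ ≤ ‖fderiv ℂ y x v‖ := norm_le_pi_norm _ i
            _ ≤ ‖fderiv ℂ y x‖ * ‖v‖ := ContinuousLinearMap.le_opNorm _ _
            _ ≤ G * ‖v‖ := by gcongr
        have e3 : ‖innerSL ℝ (y x i)‖ ≤ s := by
          rw [innerSL_apply_norm]; exact hs i
        have e4 := ContinuousLinearMap.opNorm_comp_le (innerSL ℝ (y x i))
          (((ContinuousLinearMap.proj (R := ℂ) (φ := fun _ : Fin m => ℂ) i).comp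
            (fderiv ℂ y x)).restrictScalars ℝ)
        have e5 := e4.trans (mul_le_mul e3 e2 (norm_nonneg _) hs0)
        linarith
    _ = 2 * m * s * G := by
        rw [Finset.sum_const, Finset.card_univ, Fintype.card_fin, nsmul_eq_mul]; ring

variable [FiniteDimensional ℂ E]

private theorem intEps_smooth {m : ℕ} {y : E → (Fin m → ℂ)} {W : Set E} (hW : IsOpen W)
    (hy : DifferentiableOn ℂ y W) : ContDiffOn ℂ ∞ y W := by
  rw [contDiffOn_infty]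
  exact fun n => contDiffOn_of_diff hW hy n

private theorem intEps_smoothN {m : ℕ} {y : E → (Fin m → ℂ)} {W : Set E} (hW : IsOpen W)
    (hy : DifferentiableOn ℂ y W) : ContDiffOn ℝ ∞ (fun z => ∑ i, ‖y z i‖ ^ 2) W := by
  refine ContDiffOn.sum fun i _ => ?_
  have h1 : ContDiffOn ℝ ∞ (fun z => y z i) W :=
    contDiffOn_of_hol hW (differentiableOn_pi.1 hy i)
  exact h1.norm_sq ℝ


private theorem intEps_smoothL {m : ℕ} {y : E → (Fin m → ℂ)} {W : Set E} (hW : IsOpen W)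
    (hy : DifferentiableOn ℂ y W) {ε : ℝ} (hε : 0 < ε) :
    ContDiffOn ℝ ∞ (fun z => Real.log (∑ i, ‖y z i‖ ^ 2 + ε ^ 2)) W := by
  refine ContDiffOn.log ((intEps_smoothN hW hy).add contDiffOn_const) fun x _ => ?_
  have : 0 ≤ ∑ i, ‖y x i‖ ^ 2 := Finset.sum_nonneg fun _ _ => by positivity
  positivity

omit [FiniteDimensional ℂ E] in
private theorem intEps_basis {ι : Type} [Fintype ι] (b : ι → E) (w : ι → ℂ) :
    ‖∑ j, w j • b j‖ ^ 2 ≤ (∑ j, ‖b j‖ ^ 2) * ∑ j, ‖w j‖ ^ 2 := by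
  have h1 : ‖∑ j, w j • b j‖ ≤ ∑ j, ‖b j‖ * ‖w j‖ := by
    refine (norm_sum_le _ _).trans (Finset.sum_le_sum fun j _ => ?_)
    rw [norm_smul, mul_comm]
  calc ‖∑ j, w j • b j‖ ^ 2 ≤ (∑ j, ‖b j‖ * ‖w j‖) ^ 2 := by gcongr
    _ ≤ _ := Finset.sum_mul_sq_le_sq_mul_sq _ _ _

/-- lower bound of the Levi form of the weight -/
private theorem intEps_levi {m : ℕ} {ρ1 χ1 : E → ℝ} (hρ1 : ContDiff ℝ ∞ ρ1)
    (hc : IsCompact {x | ρ1 x ≤ 1}) {V0 : Set E}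
    (hV0 : IsOpen V0) (hχ : ContDiff ℝ ∞ χ1) (hχ01 : ∀ x, χ1 x ∈ Icc (0 : ℝ) 1)
    {c0 : ℝ} (hc0 : 0 < c0) {d0 : ℝ} (hd0 : 0 < d0)
    (hd : ∀ x, x ∈ tsupport χ1 → ρ1 x ≤ 1 / 2 → ball x d0 ⊆ V0 ∩ {x | ρ1 x < 1})
    {ι : Type} [Fintype ι] (b : Module.Basis ι ℂ E) :
    ∃ C1 : ℝ, 0 ≤ C1 ∧ ∀ y : E → (Fin m → ℂ), DifferentiableOn ℂ y (V0 ∩ {x | ρ1 x < 1}) →
      (∀ x ∈ V0, ρ1 x < 1 → en (y x) ≤ 1) →
      (∀ x ∈ V0, ρ1 x < 1 → χ1 x < 1 → c0 ≤ en (y x)) →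
      ∀ ε : ℝ, 0 < ε → ε ≤ 1 → ∀ x, ρ1 x < 1 / 2 → ∀ w : ι → ℂ,
        -C1 * ∑ j, ‖w j‖ ^ 2 ≤
          levi (fun z => χ1 z * Real.log (∑ i, ‖y z i‖ ^ 2 + ε ^ 2)) x (∑ j, w j • b j) := by
  obtain ⟨Cχ, hCχ0, hCχ⟩ := levi_bound b hχ hc
  obtain ⟨Gχ, hGχ⟩ := hc.exists_bound_of_continuousOn
    (hχ.continuous_fderiv (by simp)).continuousOn
  set Cb : ℝ := ∑ j, ‖b j‖ ^ 2 with hCb
  have hCb0 : 0 ≤ Cb := Finset.sum_nonneg fun _ _ => by positivity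
  set Λ : ℝ := |Real.log (c0 ^ 2)| + Real.log 2 with hΛ
  have hlog2 : 0 < Real.log 2 := Real.log_pos one_lt_two
  have hΛ0 : 0 ≤ Λ := by positivity
  refine ⟨Λ * Cχ + |Gχ| * (2 * m * (1 / d0) / c0) * Cb, by positivity, ?_⟩
  intro y hy hle hlow ε hε hε1 x hx w
  set W : Set E := V0 ∩ {x | ρ1 x < 1} with hWdef
  have hW : IsOpen W := hV0.inter (isOpen_lt hρ1.continuous continuous_const)
  set v : E := ∑ j, w j • b j with hv
  have hS0 : 0 ≤ ∑ j, ‖w j‖ ^ 2 := Finset.sum_nonneg fun _ _ => by positivity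
  have hneg : -(Λ * Cχ + |Gχ| * (2 * m * (1 / d0) / c0) * Cb) * ∑ j, ‖w j‖ ^ 2 ≤ 0 := by
    have : 0 ≤ (Λ * Cχ + |Gχ| * (2 * m * (1 / d0) / c0) * Cb) * ∑ j, ‖w j‖ ^ 2 := by positivity
    linarith
  by_cases hxt : x ∈ tsupport χ1
  swap
  · have h0 : χ1 =ᶠ[𝓝 x] 0 := notMem_tsupport_iff_eventuallyEq.mp hxt
    have h1 : (fun z => χ1 z * Real.log (∑ i, ‖y z i‖ ^ 2 + ε ^ 2)) =ᶠ[𝓝 x] fun _ => 0 := by
      filter_upwards [h0] with z hz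
      simp [hz]
    rw [levi_congr h1, levi_const]
    exact hneg
  have hball : ball x d0 ⊆ W := hd x hxt hx.le
  have hxW : x ∈ W := hball (mem_ball_self hd0)
  have hyc := intEps_smooth hW hy
  by_cases h1 : ∀ᶠ z in 𝓝 x, χ1 z = 1
  · have h2 : (fun z => χ1 z * Real.log (∑ i, ‖y z i‖ ^ 2 + ε ^ 2)) =ᶠ[𝓝 x]
        fun z => Real.log (∑ i, ‖y z i‖ ^ 2 + ε ^ 2) := by
      filter_upwards [h1] with z hz
      rw [hz, one_mul]
    rw [levi_congr h2]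
    exact hneg.trans (levi_log_nonneg hW hyc hε hxW v)
  have hN : c0 ^ 2 ≤ ∑ i, ‖y x i‖ ^ 2 := by
    by_contra hcon
    push Not at hcon
    apply h1
    have hcN : ContinuousAt (fun z => ∑ i, ‖y z i‖ ^ 2) x :=
      ((intEps_smoothN hW hy).continuousOn).continuousAt (hW.mem_nhds hxW)
    filter_upwards [hcN.eventually_lt_const hcon, hW.mem_nhds hxW] with z hz hzW
    by_contra h3
    have h4 : χ1 z < 1 := lt_of_le_of_ne (hχ01 z).2 h3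
    have h5 := hlow z hzW.1 hzW.2 h4
    have h6 : c0 ^ 2 ≤ en (y z) ^ 2 := pow_le_pow_left₀ hc0.le h5 2
    rw [intEps_en_sq] at h6
    linarith
  have hxle : en (y x) ≤ 1 := hle x hxW.1 hxW.2
  have hNle : ∑ i, ‖y x i‖ ^ 2 ≤ 1 := by
    rw [← intEps_en_sq]
    exact pow_le_one₀ (intEps_en_nonneg _) hxle
  -- the logarithm
  have hLabs : |Real.log (∑ i, ‖y x i‖ ^ 2 + ε ^ 2)| ≤ Λ := by
    have e1 : Real.log (c0 ^ 2) ≤ Real.log (∑ i, ‖y x i‖ ^ 2 + ε ^ 2) :=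
      Real.log_le_log (by positivity) (by nlinarith [sq_nonneg ε])
    have e2 : Real.log (∑ i, ‖y x i‖ ^ 2 + ε ^ 2) ≤ Real.log 2 := by
      refine Real.log_le_log (by nlinarith [sq_nonneg ε, sq_pos_of_pos hc0]) ?_
      nlinarith
    rw [abs_le]
    constructor
    · have := neg_abs_le (Real.log (c0 ^ 2))
      linarith
    · have := abs_nonneg (Real.log (c0 ^ 2))
      linarith
  have hG : ‖fderiv ℂ y x‖ ≤ 1 / d0 := by
    refine norm_fderiv_le hd0 (hy.mono hball) fun z hz => ?_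
    exact (intEps_norm_le _).trans (hle z (hball hz).1 (hball hz).2)
  have hGi : ∀ u : E, ‖u‖ ≤ ‖v‖ → ∀ i, ‖fderiv ℂ y x u i‖ ≤ 1 / d0 * ‖v‖ := by
    intro u hu i
    calc ‖fderiv ℂ y x u i‖ ≤ ‖fderiv ℂ y x u‖ := norm_le_pi_norm _ i
      _ ≤ ‖fderiv ℂ y x‖ * ‖u‖ := ContinuousLinearMap.le_opNorm _ _
      _ ≤ 1 / d0 * ‖v‖ := by gcongr
  have hDL : ∀ u : E, ‖u‖ ≤ ‖v‖ →
      |fderiv ℝ (fun z => Real.log (∑ i, ‖y z i‖ ^ 2 + ε ^ 2)) x u| ≤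
        2 * m * (1 / d0 * ‖v‖) / c0 := by
    intro u hu
    exact fderiv_log_le hW hyc hε hxW u hc0 hN (hGi u hu) (by positivity)
  have hDχ : ∀ u : E, ‖u‖ ≤ ‖v‖ → |fderiv ℝ χ1 x u| ≤ |Gχ| * ‖v‖ := by
    intro u hu
    have e1 := (fderiv ℝ χ1 x).le_opNorm u
    have e2 := hGχ x (show ρ1 x ≤ 1 by linarith)
    rw [← Real.norm_eq_abs]
    calc ‖fderiv ℝ χ1 x u‖ ≤ ‖fderiv ℝ χ1 x‖ * ‖u‖ := e1
      _ ≤ |Gχ| * ‖v‖ := by
        gcongr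
        exact e2.trans (le_abs_self _)
  have hLs : ContDiffAt ℝ ∞ (fun z => Real.log (∑ i, ‖y z i‖ ^ 2 + ε ^ 2)) x :=
    (intEps_smoothL hW hy hε).contDiffAt (hW.mem_nhds hxW)
  rw [levi_mul hχ.contDiffAt hLs v]
  have hIv : ‖Complex.I • v‖ ≤ ‖v‖ := by rw [norm_smul, Complex.norm_I, one_mul]
  have t1 : 0 ≤ χ1 x * levi (fun z => Real.log (∑ i, ‖y z i‖ ^ 2 + ε ^ 2)) x v :=
    mul_nonneg (hχ01 x).1 (levi_log_nonneg hW hyc hε hxW v)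
  have t2 : -(Λ * (Cχ * ∑ j, ‖w j‖ ^ 2)) ≤
      Real.log (∑ i, ‖y x i‖ ^ 2 + ε ^ 2) * levi χ1 x v := by
    have e1 := hCχ x (show ρ1 x ≤ 1 by linarith) w
    have e2 : |Real.log (∑ i, ‖y x i‖ ^ 2 + ε ^ 2) * levi χ1 x v| ≤
        Λ * (Cχ * ∑ j, ‖w j‖ ^ 2) := by
      rw [abs_mul]
      exact mul_le_mul hLabs e1 (abs_nonneg _) hΛ0
    exact (abs_le.1 e2).1
  have t3 : ∀ u : E, ‖u‖ ≤ ‖v‖ → -((|Gχ| * ‖v‖) * (2 * m * (1 / d0 * ‖v‖) / c0)) ≤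
      fderiv ℝ χ1 x u * fderiv ℝ (fun z => Real.log (∑ i, ‖y z i‖ ^ 2 + ε ^ 2)) x u := by
    intro u hu
    have e2 : |fderiv ℝ χ1 x u *
        fderiv ℝ (fun z => Real.log (∑ i, ‖y z i‖ ^ 2 + ε ^ 2)) x u| ≤
        (|Gχ| * ‖v‖) * (2 * m * (1 / d0 * ‖v‖) / c0) := by
      rw [abs_mul]
      exact mul_le_mul (hDχ u hu) (hDL u hu) (abs_nonneg _) (by positivity)
    exact (abs_le.1 e2).1
  have t4 := t3 v le_rfl
  have t5 := t3 _ hIv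
  have t6 : (|Gχ| * ‖v‖) * (2 * m * (1 / d0 * ‖v‖) / c0) ≤
      |Gχ| * (2 * m * (1 / d0) / c0) * Cb * ∑ j, ‖w j‖ ^ 2 := by
    have e1 : (|Gχ| * ‖v‖) * (2 * m * (1 / d0 * ‖v‖) / c0) =
        |Gχ| * (2 * m * (1 / d0) / c0) * ‖v‖ ^ 2 := by ring
    have e2 := intEps_basis b w
    rw [e1, mul_assoc _ Cb]
    exact mul_le_mul_of_nonneg_left e2 (by positivity)
  linarith

/-- the function to be approximated -/
private def ieV {E : Type} {m : ℕ} (θ χ1 : E → ℝ) (η : ℝ → ℝ) (y : E → (Fin m → ℂ)) (c2 : ℝ)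
    (h : E → ℂ) (z : E) : ℂ :=
  ((θ z * χ1 z : ℝ) : ℂ) * (((η ((∑ i, ‖y z i‖ ^ 2) / c2 ^ 2) : ℝ) : ℂ) * h z)

/-- the weight -/
private def ieF {E : Type} {m : ℕ} (k : ℕ) (χ1 : E → ℝ) (y : E → (Fin m → ℂ)) (ε : ℝ) (z : E) :
    ℝ :=
  (k : ℝ) * (χ1 z * Real.log (∑ i, ‖y z i‖ ^ 2 + ε ^ 2))

private theorem intEps_smoothV {m : ℕ} {y : E → (Fin m → ℂ)} {W Ω : Set E} (hW : IsOpen W)
    (hy : DifferentiableOn ℂ y W) {θ χ1 : E → ℝ} (hθ : ContDiff ℝ ∞ θ) (hχ : ContDiff ℝ ∞ χ1)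
    (hθc : HasCompactSupport θ) (hθs : tsupport θ ⊆ Ω) (hWs : tsupport χ1 ∩ Ω ⊆ W)
    {η : ℝ → ℝ} (hη : ContDiff ℝ ∞ η) (c2 : ℝ) {h : E → ℂ} (hh : DifferentiableOn ℂ h W) :
    Tst (ieV θ χ1 η y c2 h) := by
  constructor
  · refine contDiff_cut_mul hW (χ := fun z => θ z * χ1 z) (hθ.mul hχ) ?_ ?_
    · intro z hz
      exact hWs ⟨tsupport_mul_subset_right hz, hθs (tsupport_mul_subset_left hz)⟩
    · refine ContDiffOn.mul ?_ (contDiffOn_of_hol hW hh)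
      refine Complex.ofRealCLM.contDiff.comp_contDiffOn ?_
      exact hη.comp_contDiffOn ((intEps_smoothN hW hy).div_const _)
  · have h1 : HasCompactSupport (fun z => θ z * χ1 z) := hθc.mul_right
    have h2 : HasCompactSupport (fun z => ((θ z * χ1 z : ℝ) : ℂ)) :=
      h1.comp_left (g := fun r : ℝ => (r : ℂ)) Complex.ofReal_zero
    exact h2.mul_right

private theorem intEps_smoothF {m : ℕ} {y : E → (Fin m → ℂ)} {W Ω : Set E} (hW : IsOpen W)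
    (hy : DifferentiableOn ℂ y W) {χ1 : E → ℝ} (hχ : ContDiff ℝ ∞ χ1)
    (hWs : tsupport χ1 ∩ Ω ⊆ W) {ε : ℝ} (hε : 0 < ε) (k : ℕ) :
    ContDiffOn ℝ ∞ (ieF k χ1 y ε) Ω := by
  intro x hx
  refine ContDiffAt.contDiffWithinAt ?_
  by_cases hxt : x ∈ tsupport χ1
  · have hxW : x ∈ W := hWs ⟨hxt, hx⟩
    have h1 := (intEps_smoothL hW hy hε).contDiffAt (hW.mem_nhds hxW)
    exact contDiffAt_const.mul (hχ.contDiffAt.mul h1)
  · have h0 : χ1 =ᶠ[𝓝 x] 0 := notMem_tsupport_iff_eventuallyEq.mp hxt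
    refine (contDiffAt_const (c := (0 : ℝ))).congr_of_eventuallyEq ?_
    filter_upwards [h0] with z hz
    simp [ieF, hz]

omit [FiniteDimensional ℂ E] in
private theorem intEps_exp_neg (k : ℕ) {t : ℝ} (ht : 0 < t) :
    Real.exp (-((k : ℝ) * (1 * Real.log t))) = (1 / t) ^ k := by
  rw [one_mul, Real.exp_neg, Real.exp_nat_mul, Real.exp_log ht, one_div, inv_pow]

omit [FiniteDimensional ℂ E] in
/-- the error term -/
private theorem intEps_pb {m : ℕ} {y : E → (Fin m → ℂ)} {W : Set E} (hW : IsOpen W)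
    (hy : DifferentiableOn ℂ y W) {θ χ1 : E → ℝ}
    {η : ℝ → ℝ} (hη : ContDiff ℝ ∞ η) {K : ℝ} (hK : 0 < K) (hη0 : ∀ s, 1 ≤ s → η s = 0)
    (hdη : ∀ s, |deriv η s| ≤ K) (hdη1 : ∀ s, s < 9 / 16 → deriv η s = 0)
    (hdη2 : ∀ s, 1 < s → deriv η s = 0)
    (hχ01 : ∀ x, χ1 x ∈ Icc (0 : ℝ) 1)
    (hle : ∀ x ∈ W, en (y x) ≤ 1) {c0 c2 ε : ℝ} (hc2 : 0 < c2) (hc20 : c2 < c0) (hε : 0 < ε)
    (hlow : ∀ x ∈ W, χ1 x < 1 → c0 ≤ en (y x))
    {d0 : ℝ} (hd0 : 0 < d0) {x : E} (hd : x ∈ tsupport χ1 → ball x d0 ⊆ W)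
    (hθ : ∀ᶠ z in 𝓝 x, θ z = 1)
    {h : E → ℂ} (hh : DifferentiableOn ℂ h W) {B : ℝ}
    (hB : ∀ x ∈ W, c2 / 2 ≤ en (y x) → en (y x) ≤ c2 → ‖h x‖ ≤ B) (k : ℕ) (a : E) :
    ‖pb a (ieV θ χ1 η y c2 h) x‖ ^ 2 * Real.exp (-ieF k χ1 y ε x) ≤
      (K * (2 * m * (1 / d0)) * ‖a‖) ^ 2 * (16 / 9) ^ k * (B ^ 2 * (1 / c2) ^ (2 + 2 * k)) := by
  have hR0 : 0 ≤ (K * (2 * m * (1 / d0)) * ‖a‖) ^ 2 * (16 / 9) ^ k *
      (B ^ 2 * (1 / c2) ^ (2 + 2 * k)) := by positivity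
  by_cases hxt : x ∈ tsupport χ1
  swap
  · have h0 : χ1 =ᶠ[𝓝 x] 0 := notMem_tsupport_iff_eventuallyEq.mp hxt
    have h1 : ieV θ χ1 η y c2 h =ᶠ[𝓝 x] fun _ => 0 := by
      filter_upwards [h0] with z hz
      simp [ieV, hz]
    have h2 : pb a (ieV θ χ1 η y c2 h) x = 0 := by
      unfold pb
      rw [h1.fderiv_eq]
      simp
    rw [h2, norm_zero]
    simpa using hR0
  have hball : ball x d0 ⊆ W := hd hxt
  have hxW : x ∈ W := hball (mem_ball_self hd0)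
  have hWx : W ∈ 𝓝 x := hW.mem_nhds hxW
  set N : E → ℝ := fun z => ∑ i, ‖y z i‖ ^ 2 with hN
  have hNen : ∀ z, N z = en (y z) ^ 2 := fun z => (intEps_en_sq _).symm
  set u : E → ℂ := fun z => ((η (N z / c2 ^ 2) : ℝ) : ℂ) with hu
  have h1 : ieV θ χ1 η y c2 h =ᶠ[𝓝 x] fun z => u z * h z := by
    filter_upwards [hθ, hWx] with z hz hzW
    by_cases h3 : χ1 z = 1
    · simp [ieV, hz, h3, hu, hN]
    · have h4 : χ1 z < 1 := lt_of_le_of_ne (hχ01 z).2 h3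
      have h5 := hlow z hzW h4
      have h6 : u z = 0 := by
        simp only [hu]
        rw [hη0 _, Complex.ofReal_zero]
        rw [hNen, one_le_div (by positivity)]
        exact pow_le_pow_left₀ hc2.le (hc20.le.trans h5) 2
      have h7 : ieV θ χ1 η y c2 h z = ((θ z * χ1 z : ℝ) : ℂ) * (u z * h z) := rfl
      rw [h7, h6]
      simp
  have hxle : en (y x) ≤ 1 := hle x hxW
  have hG : ‖fderiv ℂ y x‖ ≤ 1 / d0 := by
    refine norm_fderiv_le hd0 (hy.mono hball) fun z hz => ?_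
    exact (intEps_norm_le _).trans (hle z (hball hz))
  obtain ⟨hNd, hNb⟩ := intEps_dN (m := m) (hy.differentiableAt hWx) hG (s := en (y x))
    (fun i => intEps_coord_le _ i) (intEps_en_nonneg _)
  have hNd' : HasFDerivAt N (fderiv ℝ N x) x := hNd.hasFDerivAt
  have hηd : HasDerivAt η (deriv η (N x / c2 ^ 2)) (N x / c2 ^ 2) :=
    (hη.differentiable (by simp)).differentiableAt.hasDerivAt
  have hNc : HasFDerivAt (fun z => N z / c2 ^ 2) ((c2 ^ 2)⁻¹ • fderiv ℝ N x) x := by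
    have := hNd'.const_mul ((c2 ^ 2)⁻¹)
    refine this.congr_of_eventuallyEq (Filter.Eventually.of_forall fun z => ?_)
    simp only
    rw [div_eq_inv_mul]
  have hcomp : HasFDerivAt (fun z => η (N z / c2 ^ 2))
      (deriv η (N x / c2 ^ 2) • ((c2 ^ 2)⁻¹ • fderiv ℝ N x)) x :=
    hηd.comp_hasFDerivAt x hNc
  have hud : HasFDerivAt u (Complex.ofRealCLM.comp
      (deriv η (N x / c2 ^ 2) • ((c2 ^ 2)⁻¹ • fderiv ℝ N x))) x :=
    Complex.ofRealCLM.hasFDerivAt.comp x hcomp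
  have hhd : DifferentiableAt ℂ h x := hh.differentiableAt hWx
  have h2 : pb a (ieV θ χ1 η y c2 h) x = pb a u x * h x := by
    have e1 : pb a (ieV θ χ1 η y c2 h) x = pb a (fun z => u z * h z) x := by
      unfold pb
      rw [h1.fderiv_eq]
    rw [e1, pb_mul hud.differentiableAt (hhd.restrictScalars ℝ), pb_eq_zero hhd, mul_zero,
      add_zero]
  by_cases hz : deriv η (N x / c2 ^ 2) = 0
  · have h3 : pb a u x = 0 := by
      unfold pb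
      rw [hud.fderiv, hz]
      simp
    rw [h2, h3, zero_mul, norm_zero]
    simpa using hR0
  have hlo : 9 / 16 ≤ N x / c2 ^ 2 := by
    by_contra hcon
    exact hz (hdη1 _ (not_le.1 hcon))
  have hhi : N x / c2 ^ 2 ≤ 1 := by
    by_contra hcon
    exact hz (hdη2 _ (not_le.1 hcon))
  rw [le_div_iff₀ (by positivity)] at hlo
  rw [div_le_one (by positivity)] at hhi
  have hyhi : en (y x) ≤ c2 := by
    rw [hNen] at hhi
    exact (pow_le_pow_iff_left₀ (intEps_en_nonneg _) hc2.le (by norm_num)).1 hhi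
  have hylo : c2 / 2 ≤ en (y x) := by
    rw [hNen] at hlo
    refine (pow_le_pow_iff_left₀ (by positivity) (intEps_en_nonneg _) (n := 2) (by norm_num)).1 ?_
    nlinarith [sq_nonneg c2]
  have hhB : ‖h x‖ ≤ B := hB x hxW hylo hyhi
  have hχ1 : χ1 x = 1 := by
    by_contra h3
    have h4 : χ1 x < 1 := lt_of_le_of_ne (hχ01 x).2 h3
    have h5 := hlow x hxW h4
    linarith
  have hfd : ‖fderiv ℝ u x‖ ≤ K * (2 * m * (1 / d0)) * (1 / c2) := by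
    rw [hud.fderiv]
    have e1 : ‖deriv η (N x / c2 ^ 2) • ((c2 ^ 2)⁻¹ • fderiv ℝ N x)‖ ≤
        K * ((c2 ^ 2)⁻¹ * (2 * m * c2 * (1 / d0))) := by
      rw [norm_smul, norm_smul, Real.norm_eq_abs (deriv η _),
        Real.norm_of_nonneg (show (0 : ℝ) ≤ (c2 ^ 2)⁻¹ by positivity)]
      have e2 : ‖fderiv ℝ N x‖ ≤ 2 * m * c2 * (1 / d0) := by
        refine hNb.trans ?_
        gcongr
      have := hdη (N x / c2 ^ 2)
      gcongr
    calc ‖Complex.ofRealCLM.comp (deriv η (N x / c2 ^ 2) • ((c2 ^ 2)⁻¹ • fderiv ℝ N x))‖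
        ≤ ‖Complex.ofRealCLM‖ * ‖deriv η (N x / c2 ^ 2) • ((c2 ^ 2)⁻¹ • fderiv ℝ N x)‖ :=
          ContinuousLinearMap.opNorm_comp_le _ _
      _ ≤ 1 * (K * ((c2 ^ 2)⁻¹ * (2 * m * c2 * (1 / d0)))) := by
          gcongr
          exact Complex.ofRealCLM_norm.le
      _ = K * (2 * m * (1 / d0)) * (1 / c2) := by field_simp
  have hpb : ‖pb a u x‖ ≤ K * (2 * m * (1 / d0)) * (1 / c2) * ‖a‖ :=
    norm_pb_le.trans (by gcongr)
  have hexp : Real.exp (-ieF k χ1 y ε x) ≤ (16 / 9) ^ k * (1 / c2) ^ (2 * k) := by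
    have e0 : 0 < N x := lt_of_lt_of_le (by positivity) hlo
    have e1 : ieF k χ1 y ε x = (k : ℝ) * (1 * Real.log (N x + ε ^ 2)) := by
      simp only [ieF, hχ1, hN]
    rw [e1, intEps_exp_neg k (by positivity), pow_mul, ← mul_pow]
    refine pow_le_pow_left₀ (by positivity) ?_ k
    rw [div_le_iff₀ (by positivity)]
    have e2 : 1 = (16 / 9 : ℝ) * (1 / c2) ^ 2 * (9 / 16 * c2 ^ 2) := by
      field_simp
    calc (1 : ℝ) = (16 / 9 : ℝ) * (1 / c2) ^ 2 * (9 / 16 * c2 ^ 2) := e2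
      _ ≤ (16 / 9 : ℝ) * (1 / c2) ^ 2 * (N x + ε ^ 2) := by
        gcongr
        nlinarith [sq_nonneg ε]
  rw [h2, norm_mul]
  calc (‖pb a u x‖ * ‖h x‖) ^ 2 * Real.exp (-ieF k χ1 y ε x)
      ≤ (K * (2 * m * (1 / d0)) * (1 / c2) * ‖a‖ * B) ^ 2 *
        ((16 / 9) ^ k * (1 / c2) ^ (2 * k)) := by
        gcongr
    _ = _ := by ring

omit [NormedSpace ℂ E] [FiniteDimensional ℂ E] in
private theorem intEps_lower [MeasurableSpace E] [BorelSpace E] {μ : Measure E} {S D : Set E}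
    (hD : MeasurableSet D) (hDS : D ⊆ S) {p q : E → ℝ} (hp : IntegrableOn p S μ)
    (hp0 : ∀ x, 0 ≤ p x) (hq0 : ∀ x, 0 ≤ q x) {κ J : ℝ} (hκ : 0 < κ)
    (hle : ∀ x ∈ D, κ * q x ≤ p x) (hqc : ContinuousOn q D) (hJ : ∫ x in S, p x ∂μ ≤ J) :
    IntegrableOn q D μ ∧ κ * ∫ x in D, q x ∂μ ≤ J := by
  have hpD : IntegrableOn p D μ := hp.mono_set hDS
  have hqm : AEStronglyMeasurable q (μ.restrict D) := hqc.aestronglyMeasurable hD
  have hqi : IntegrableOn q D μ := by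
    refine Integrable.mono' (hpD.const_mul κ⁻¹) hqm ?_
    rw [ae_restrict_iff' hD]
    refine Filter.Eventually.of_forall fun x hx => ?_
    rw [Real.norm_of_nonneg (hq0 x), ← div_eq_inv_mul, le_div_iff₀ hκ, mul_comm]
    exact hle x hx
  refine ⟨hqi, ?_⟩
  calc κ * ∫ x in D, q x ∂μ = ∫ x in D, κ * q x ∂μ := (integral_const_mul _ _).symm
    _ ≤ ∫ x in D, p x ∂μ := setIntegral_mono_on (hqi.const_mul κ) hpD hD hle
    _ ≤ ∫ x in S, p x ∂μ :=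
        setIntegral_mono_set hp (Filter.Eventually.of_forall hp0)
          (Filter.Eventually.of_forall hDS)
    _ ≤ J := hJ

omit [FiniteDimensional ℂ E] in
/-- Lipschitz estimate for the Euclidean norm of `y` -/
private theorem intEps_lip {m : ℕ} {y : E → (Fin m → ℂ)} {W : Set E}
    (hy : DifferentiableOn ℂ y W) (hle : ∀ x ∈ W, en (y x) ≤ 1) {d0 a0 : ℝ} (hd0 : 0 < d0)
    (ha0 : 0 < a0) (ha : a0 ≤ d0 / (16 * (Real.sqrt m + 1))) {p : E} (hp : ball p d0 ⊆ W)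
    {s : ℝ} (hs0 : 0 ≤ s) (hs1 : s ≤ 1) {z : E} (hz : ‖z - p‖ ≤ a0 * s) :
    z ∈ W ∧ en (y z) ≤ en (y p) + s / 8 ∧ en (y p) ≤ en (y z) + s / 8 := by
  have hm0 : 0 ≤ Real.sqrt m := Real.sqrt_nonneg _
  have ha2 : a0 * (16 * (Real.sqrt m + 1)) ≤ d0 := by
    rwa [le_div_iff₀ (by positivity)] at ha
  have ha3 : a0 < d0 / 2 := by nlinarith
  have hzr : ‖z - p‖ < d0 / 2 := by nlinarith
  have hzb : z ∈ ball p (d0 / 2) := by rwa [mem_ball, dist_eq_norm]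
  have hpb : p ∈ ball p (d0 / 2) := mem_ball_self (by positivity)
  have hzW : z ∈ W := hp (ball_subset_ball (by linarith) hzb)
  have hlip := norm_sub_le_of_bound hd0 (hy.mono hp) (M := 1)
    (fun w hw => (intEps_norm_le _).trans (hle w (hp hw))) hzb hpb
  have hs : Real.sqrt m * (2 * 1 / d0 * ‖z - p‖) ≤ s / 8 := by
    calc Real.sqrt m * (2 * 1 / d0 * ‖z - p‖) ≤ Real.sqrt m * (2 * 1 / d0 * (a0 * s)) := by
          gcongr
      _ = (Real.sqrt m * a0 * 16) * s / (8 * d0) := by field_simp; ring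
      _ ≤ d0 * s / (8 * d0) := by
        gcongr
        nlinarith
      _ = s / 8 := by field_simp
  refine ⟨hzW, ?_, ?_⟩
  · have h1 := intEps_en_lip (y z) (y p)
    have h2 : Real.sqrt m * ‖y z - y p‖ ≤ Real.sqrt m * (2 * 1 / d0 * ‖z - p‖) := by gcongr
    linarith
  · have h1 := intEps_en_lip (y p) (y z)
    rw [norm_sub_rev] at h1
    have h2 : Real.sqrt m * ‖y z - y p‖ ≤ Real.sqrt m * (2 * 1 / d0 * ‖z - p‖) := by gcongr
    linarith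

/-- the basic `L²` estimate -/
private theorem intEps_L2 [MeasurableSpace E] [BorelSpace E] (μ : Measure E)
    [μ.IsAddHaarMeasure] (m : ℕ) {ρ1 χ1 : E → ℝ} (hρ1 : Psh ρ1)
    (hc : IsCompact {x | ρ1 x ≤ 1}) {V0 : Set E}
    (hV0 : IsOpen V0) (hχ : ContDiff ℝ ∞ χ1) (hχ01 : ∀ x, χ1 x ∈ Icc (0 : ℝ) 1)
    (hsupp : tsupport χ1 ∩ {x | ρ1 x ≤ 1} ⊆ V0) {c0 : ℝ} (hc0 : 0 < c0) (hc01 : c0 ≤ 1) (k : ℕ)
    {d0 : ℝ} (hd0 : 0 < d0)
    (hd : ∀ x, x ∈ tsupport χ1 → ρ1 x ≤ 1 / 2 → ball x d0 ⊆ V0 ∩ {x | ρ1 x < 1})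
    {θ : E → ℝ} (hθ : ContDiff ℝ ∞ θ) (hθc : HasCompactSupport θ)
    (hθs : tsupport θ ⊆ {x | ρ1 x < 1}) (hθ1 : {x | ρ1 x ≤ 1 / 2} ⊆ interior {x | θ x = 1})
    {η : ℝ → ℝ} (hη : ContDiff ℝ ∞ η) {K : ℝ} (hK : 0 < K) (hη0 : ∀ s, 1 ≤ s → η s = 0)
    (hdη : ∀ s, |deriv η s| ≤ K) (hdη1 : ∀ s, s < 9 / 16 → deriv η s = 0)
    (hdη2 : ∀ s, 1 < s → deriv η s = 0) :
    ∃ A : ℝ, 0 < A ∧ ∀ (y : E → (Fin m → ℂ)), DifferentiableOn ℂ y (V0 ∩ {x | ρ1 x < 1}) →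
      (∀ x ∈ V0, ρ1 x < 1 → en (y x) ≤ 1) →
      (∀ x ∈ V0, ρ1 x < 1 → χ1 x < 1 → c0 ≤ en (y x)) →
      ∀ c2 ∈ Ioo (0 : ℝ) c0, ∀ ε ∈ Ioc (0 : ℝ) c2, ∀ (h : E → ℂ) (B : ℝ), 0 ≤ B →
      DifferentiableOn ℂ h (V0 ∩ {x | ρ1 x < 1}) →
      (∀ x ∈ V0, ρ1 x < 1 → c2 / 2 ≤ en (y x) → en (y x) ≤ c2 → ‖h x‖ ≤ B) →
      ∀ τ > 0, ∃ H : E → ℂ, Differentiable ℂ H ∧
        IntegrableOn (fun z => ‖ieV θ χ1 η y c2 h z - H z‖ ^ 2 * Real.exp (-ieF k χ1 y ε z))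
          {x | ρ1 x ≤ 3 / 8} μ ∧
        ∫ z in {x | ρ1 x ≤ 3 / 8}, ‖ieV θ χ1 η y c2 h z - H z‖ ^ 2 *
          Real.exp (-ieF k χ1 y ε z) ∂μ ≤ (A * ((B + τ) * (1 / c2) ^ (1 + k))) ^ 2 := by
  classical
  have : ProperSpace E := FiniteDimensional.proper ℂ E
  set b := Module.finBasis ℂ E with hb
  obtain ⟨C1, hC10, hC1⟩ := intEps_levi (m := m) hρ1.smooth hc hV0 hχ hχ01 hc0 hd0 hd b
  obtain ⟨Q, hQ⟩ := hc.exists_bound_of_continuousOn (qf_smooth b).continuous.continuousOn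
  have hcl : ∀ s : ℝ, IsClosed {x | ρ1 x ≤ s} := fun s =>
    isClosed_le hρ1.smooth.continuous continuous_const
  have hcs : ∀ s : ℝ, s ≤ 1 → IsCompact {x | ρ1 x ≤ s} := fun s hs =>
    hc.of_isClosed_subset (hcl s) fun x (hx : ρ1 x ≤ s) => hx.trans hs
  set P : ℝ := ∑ j, (K * (2 * m * (1 / d0)) * ‖b j‖) ^ 2 * (16 / 9) ^ k with hP
  have hP0 : 0 ≤ P := Finset.sum_nonneg fun _ _ => by positivity
  set M0 : ℝ := μ.real {x | ρ1 x ≤ 1 / 2} with hM0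
  have hM00 : 0 ≤ M0 := measureReal_nonneg
  set κ : ℝ := Real.exp (-((1 + k * C1) * |Q|)) with hκ
  have hκ0 : 0 < κ := Real.exp_pos _
  refine ⟨1 + (P * M0 + 1) / κ, by positivity, ?_⟩
  intro y hy hle hlow c2 hc2 ε hε h B hB0 hh hB τ hτ
  obtain ⟨hc2a, hc2b⟩ := hc2
  obtain ⟨hεa, hεb⟩ := hε
  set W : Set E := V0 ∩ {x | ρ1 x < 1} with hWdef
  have hW : IsOpen W := hV0.inter (isOpen_lt hρ1.smooth.continuous continuous_const)
  have hWs : tsupport χ1 ∩ {x | ρ1 x < 1} ⊆ W := fun x hx =>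
    ⟨hsupp ⟨hx.1, show ρ1 x ≤ 1 from le_of_lt (show ρ1 x < 1 from hx.2)⟩, hx.2⟩
  have hv : Tst (ieV θ χ1 η y c2 h) := intEps_smoothV hW hy hθ hχ hθc hθs hWs hη c2 hh
  have hF : ContDiffOn ℝ ∞ (ieF k χ1 y ε) {x | ρ1 x < 1 / 2} :=
    (intEps_smoothF hW hy hχ hWs hεa k).mono fun x (hx : ρ1 x < 1 / 2) =>
      show ρ1 x < 1 by linarith
  have hl : ∀ x, ρ1 x < 1 / 2 → ∀ w : Fin (Module.finrank ℂ E) → ℂ,
      -(k * C1) * ∑ j, ‖w j‖ ^ 2 ≤ levi (ieF k χ1 y ε) x (∑ j, w j • b j) := by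
    intro x hx w
    have h1 := hC1 y hy hle hlow ε hεa (hεb.trans (hc2b.le.trans hc01)) x hx w
    have h2 : levi (ieF k χ1 y ε) x (∑ j, w j • b j) = k *
        levi (fun z => χ1 z * Real.log (∑ i, ‖y z i‖ ^ 2 + ε ^ 2)) x (∑ j, w j • b j) :=
      levi_const_mul _ _ _ _
    rw [h2]
    have h3 : (0 : ℝ) ≤ k := Nat.cast_nonneg k
    calc -(k * C1) * ∑ j, ‖w j‖ ^ 2 = k * (-C1 * ∑ j, ‖w j‖ ^ 2) := by ring
      _ ≤ _ := mul_le_mul_of_nonneg_left h1 h3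
  set T : ℝ := (1 / c2) ^ (2 + 2 * k) with hT
  have hT0 : 0 < T := by positivity
  have hBB : ∀ x, ρ1 x < 1 / 2 → (∑ j, ‖pb (b j) (ieV θ χ1 η y c2 h) x‖ ^ 2) *
      Real.exp (-ieF k χ1 y ε x) ≤ P * (B ^ 2 * T) := by
    intro x hx
    rw [Finset.sum_mul, hP, Finset.sum_mul]
    refine Finset.sum_le_sum fun j _ => ?_
    refine intEps_pb hW hy hη hK hη0 hdη hdη1 hdη2 hχ01 (fun x hx => hle x hx.1 hx.2) hc2a hc2b
      hεa (fun x hx => hlow x hx.1 hx.2) hd0 (fun hxt => hd x hxt hx.le) ?_ hh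
      (fun x hx => hB x hx.1 hx.2) k (b j)
    have h1 : x ∈ interior {x | θ x = 1} := hθ1 hx.le
    exact mem_interior_iff_mem_nhds.1 h1
  obtain ⟨H, hH, hHi, hHle⟩ := hor_loc (μ := μ) b hρ1 (σ := 3 / 8) (σ' := 1 / 2) (by norm_num)
    (hcs _ (by norm_num)) hF (C1 := k * C1) (by positivity) hl hv hBB
    (by positivity) (ε := τ ^ 2 * T) (by positivity)
  refine ⟨H, hH, ?_⟩
  have hmeas : MeasurableSet {x | ρ1 x ≤ 3 / 8} := (hcl _).measurableSet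
  have hJ : (∫ x in {x | ρ1 x ≤ 3 / 8}, ‖ieV θ χ1 η y c2 h x - H x‖ ^ 2 *
      Real.exp (-ieF k χ1 y ε x - (1 + k * C1) * qf b x) ∂μ) ≤ (P * M0 + 1) * ((B + τ) ^ 2 * T) := by
    refine hHle.trans ?_
    have e1 : B ^ 2 * T ≤ (B + τ) ^ 2 * T := by gcongr; linarith
    have e2 : τ ^ 2 * T ≤ (B + τ) ^ 2 * T := by gcongr; linarith
    calc P * (B ^ 2 * T) * M0 + τ ^ 2 * T ≤ P * ((B + τ) ^ 2 * T) * M0 + (B + τ) ^ 2 * T := by
          gcongr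
      _ = _ := by ring
  have hpos1 : ∀ x, 0 ≤ ‖ieV θ χ1 η y c2 h x - H x‖ ^ 2 *
      Real.exp (-ieF k χ1 y ε x - (1 + k * C1) * qf b x) := fun x => by positivity
  have hpos2 : ∀ x, 0 ≤ ‖ieV θ χ1 η y c2 h x - H x‖ ^ 2 * Real.exp (-ieF k χ1 y ε x) :=
    fun x => by positivity
  have hlow2 := intEps_lower (μ := μ) hmeas (Subset.refl _) hHi hpos1 hpos2 hκ0 ?_ ?_ hJ
  · refine ⟨hlow2.1, ?_⟩
    have h1 := hlow2.2
    rw [mul_comm, ← le_div_iff₀ hκ0] at h1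
    refine h1.trans ?_
    have e1 : (P * M0 + 1) * ((B + τ) ^ 2 * T) / κ =
        (P * M0 + 1) / κ * ((B + τ) * (1 / c2) ^ (1 + k)) ^ 2 := by
      rw [hT]
      ring
    rw [e1, mul_pow (1 + (P * M0 + 1) / κ)]
    have e3 : 0 ≤ ((B + τ) * (1 / c2) ^ (1 + k)) ^ 2 := sq_nonneg _
    refine mul_le_mul_of_nonneg_right ?_ e3
    have e2 : 0 ≤ (P * M0 + 1) / κ := by positivity
    nlinarith
  · intro x hx
    have h1 := hQ x (show ρ1 x ≤ 1 by have : ρ1 x ≤ 3 / 8 := hx; linarith)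
    rw [Real.norm_of_nonneg (qf_nonneg b x)] at h1
    have h2 : κ * Real.exp (-ieF k χ1 y ε x) ≤
        Real.exp (-ieF k χ1 y ε x - (1 + k * C1) * qf b x) := by
      rw [hκ, ← Real.exp_add]
      refine Real.exp_le_exp.2 ?_
      have h3 : (1 + k * C1) * qf b x ≤ (1 + k * C1) * |Q| := by
        gcongr
        exact h1.trans (le_abs_self _)
      linarith
    calc κ * (‖ieV θ χ1 η y c2 h x - H x‖ ^ 2 * Real.exp (-ieF k χ1 y ε x))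
        = ‖ieV θ χ1 η y c2 h x - H x‖ ^ 2 * (κ * Real.exp (-ieF k χ1 y ε x)) := by ring
      _ ≤ _ := by gcongr
  · have h1 : ContinuousOn (ieF k χ1 y ε) {x | ρ1 x ≤ 3 / 8} :=
      hF.continuousOn.mono fun x (hx : ρ1 x ≤ 3 / 8) => show ρ1 x < 1 / 2 by linarith
    exact ((hv.1.continuous.sub hH.continuous).norm.pow 2).continuousOn.mul
      (Real.continuous_exp.comp_continuousOn h1.neg)

/-- pointwise estimate near the zero set -/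
private theorem intEps_ptA [MeasurableSpace E] [BorelSpace E] (μ : Measure E)
    [μ.IsAddHaarMeasure] {m : ℕ} {ρ1 χ1 : E → ℝ} {V0 : Set E}
    (hχ01 : ∀ x, χ1 x ∈ Icc (0 : ℝ) 1) {c0 : ℝ} (hc01 : c0 ≤ 1) (k : ℕ)
    {d0 : ℝ} (hd0 : 0 < d0)
    (hd : ∀ x, x ∈ tsupport χ1 → ρ1 x ≤ 1 / 2 → ball x d0 ⊆ V0 ∩ {x | ρ1 x < 1})
    {θ : E → ℝ} (hθ1 : ∀ x, ρ1 x ≤ 1 / 2 → θ x = 1)
    {η : ℝ → ℝ} (hη1 : ∀ s, s ≤ 9 / 16 → η s = 1)
    {a0 d1 : ℝ} (ha0 : 0 < a0) (ha : a0 ≤ d0 / (16 * (Real.sqrt m + 1))) (had : a0 ≤ d1)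
    (hd1 : ∀ x, ρ1 x < 1 / 4 → ball x d1 ⊆ {x | ρ1 x < 3 / 8})
    {y : E → (Fin m → ℂ)} (hy : DifferentiableOn ℂ y (V0 ∩ {x | ρ1 x < 1}))
    (hle : ∀ x ∈ V0, ρ1 x < 1 → en (y x) ≤ 1)
    (hlow : ∀ x ∈ V0, ρ1 x < 1 → χ1 x < 1 → c0 ≤ en (y x))
    {c2 : ℝ} (hc2 : 0 < c2) (hc2c : c2 < c0) {ε : ℝ} (hε : 0 < ε) (hεc : ε ≤ c2) {h : E → ℂ}
    (hh : DifferentiableOn ℂ h (V0 ∩ {x | ρ1 x < 1})) {H : E → ℂ} (hH : Differentiable ℂ H)
    {R : ℝ} (hR : 0 ≤ R)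
    (hi : IntegrableOn (fun z => ‖ieV θ χ1 η y c2 h z - H z‖ ^ 2 *
      Real.exp (-ieF (k + Module.finrank ℂ E) χ1 y ε z)) {x | ρ1 x ≤ 3 / 8} μ)
    (hJ : ∫ z in {x | ρ1 x ≤ 3 / 8}, ‖ieV θ χ1 η y c2 h z - H z‖ ^ 2 *
          Real.exp (-ieF (k + Module.finrank ℂ E) χ1 y ε z) ∂μ ≤ R ^ 2)
    {x : E} (hx : x ∈ V0) (hxρ : ρ1 x < 1 / 4) (hxy : en (y x) ≤ 5 / 8 * c2) :
    ‖H x - h x‖ ≤ (μ.real (ball (0 : E) 1))⁻¹ ^ ((1 : ℝ) / 2) * (a0⁻¹) ^ (Module.finrank ℂ E) *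
      2 ^ (k + Module.finrank ℂ E) * R * max (en (y x)) ε ^ k := by
  set n := Module.finrank ℂ E with hn
  set W : Set E := V0 ∩ {x | ρ1 x < 1} with hWdef
  set M : ℝ := max (en (y x)) ε with hM
  have hM0 : 0 < M := lt_of_lt_of_le hε (le_max_right _ _)
  have hMc : M ≤ c2 := max_le (by linarith) hεc
  have hM1 : M ≤ 1 := by linarith
  have hxW : x ∈ W := ⟨hx, show ρ1 x < 1 by linarith⟩
  have hone : ∀ z ∈ W, en (y z) < c0 → χ1 z = 1 := by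
    intro z hz hzc
    by_contra h3
    have h4 : χ1 z < 1 := lt_of_le_of_ne (hχ01 z).2 h3
    have h5 := hlow z hz.1 hz.2 h4
    linarith
  have hχx : χ1 x = 1 := hone x hxW (by linarith)
  have hxt : x ∈ tsupport χ1 := subset_tsupport _ (by
    rw [Function.mem_support, hχx]; exact one_ne_zero)
  have hball : ball x d0 ⊆ W := hd x hxt (by linarith)
  have hrle : a0 * M ≤ d1 := by nlinarith
  have hsub1 : ball x (a0 * M) ⊆ {x | ρ1 x < 3 / 8} :=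
    (ball_subset_ball hrle).trans (hd1 x hxρ)
  have hkey : ∀ z ∈ ball x (a0 * M), z ∈ W ∧ en (y z) ≤ en (y x) + M / 8 := by
    intro z hz
    rw [mem_ball, dist_eq_norm] at hz
    have h1 := intEps_lip hy (fun x hx => hle x hx.1 hx.2) hd0 ha0 ha hball hM0.le hM1 hz.le
    exact ⟨h1.1, h1.2.1⟩
  have hsmall : ∀ z ∈ ball x (a0 * M), en (y z) ≤ 3 / 4 * c2 := by
    intro z hz
    have := (hkey z hz).2
    linarith
  have hchi : ∀ z ∈ ball x (a0 * M), χ1 z = 1 := fun z hz =>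
    hone z (hkey z hz).1 (by have := hsmall z hz; linarith)
  have hv : ∀ z ∈ ball x (a0 * M), ieV θ χ1 η y c2 h z = h z := by
    intro z hz
    have h1 : θ z = 1 := hθ1 z (by have : ρ1 z < 3 / 8 := hsub1 hz; linarith)
    have h2 : η ((∑ i, ‖y z i‖ ^ 2) / c2 ^ 2) = 1 := by
      apply hη1
      rw [div_le_iff₀ (by positivity), ← intEps_en_sq]
      have := pow_le_pow_left₀ (intEps_en_nonneg _) (hsmall z hz) 2
      nlinarith
    simp [ieV, h1, h2, hchi z hz]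
  have hF : ∀ z ∈ ball x (a0 * M),
      (1 / (2 * M) ^ 2) ^ (k + n) ≤ Real.exp (-ieF (k + n) χ1 y ε z) := by
    intro z hz
    have e1 : ieF (k + n) χ1 y ε z =
        ((k + n : ℕ) : ℝ) * (1 * Real.log (∑ i, ‖y z i‖ ^ 2 + ε ^ 2)) := by
      simp only [ieF, hchi z hz]
    have e0 : 0 ≤ ∑ i, ‖y z i‖ ^ 2 := Finset.sum_nonneg fun _ _ => by positivity
    rw [e1, intEps_exp_neg _ (by positivity)]
    refine pow_le_pow_left₀ (by positivity) ?_ _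
    refine one_div_le_one_div_of_le (by positivity) ?_
    rw [← intEps_en_sq]
    have h3 : en (y z) ≤ 9 / 8 * M := by
      have := (hkey z hz).2
      have h4 : en (y x) ≤ M := le_max_left _ _
      linarith
    have h5 : en (y z) ^ 2 ≤ (9 / 8 * M) ^ 2 := pow_le_pow_left₀ (intEps_en_nonneg _) h3 2
    have h6 : ε ^ 2 ≤ M ^ 2 := pow_le_pow_left₀ hε.le (le_max_right _ _) 2
    nlinarith
  have hsub : ball x (a0 * M) ⊆ {x | ρ1 x ≤ 3 / 8} := fun z hz =>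
    show ρ1 z ≤ 3 / 8 from le_of_lt (show ρ1 z < 3 / 8 from hsub1 hz)
  have hsubW : ball x (a0 * M) ⊆ W := fun z hz => (hkey z hz).1
  have hd' : DifferentiableOn ℂ (fun z => H z - h z) (ball x (a0 * M)) :=
    hH.differentiableOn.sub (hh.mono hsubW)
  have hlo := intEps_lower (μ := μ) measurableSet_ball hsub
    (q := fun z => ‖H z - h z‖ ^ 2) hi (fun x => by positivity) (fun x => by positivity)
    (κ := (1 / (2 * M) ^ 2) ^ (k + n)) (by positivity) ?_ ?_ hJ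
  · have h1 : ∫ z in ball x (a0 * M), ‖H z - h z‖ ^ 2 ∂μ ≤ ((2 * M) ^ (k + n) * R) ^ 2 := by
      have h2 := hlo.2
      rw [mul_comm, ← le_div_iff₀ (by positivity)] at h2
      refine h2.trans (le_of_eq ?_)
      rw [one_div, inv_pow, div_inv_eq_mul, mul_pow _ R, ← pow_mul, ← pow_mul,
        mul_comm (k + n) 2]
      ring
    have h3 := norm_le_of_hol (μ := μ) (f := fun z => H z - h z) (x := x) (r := a0 * M)
      (by positivity) hd' hlo.1 h1 (by positivity)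
    refine h3.trans (le_of_eq ?_)
    rw [← hn, mul_inv, mul_pow, mul_pow, pow_add M]
    have h4 : M⁻¹ ^ n * M ^ n = 1 := by
      rw [← mul_pow, inv_mul_cancel₀ hM0.ne', one_pow]
    linear_combination ((μ.real (ball (0 : E) 1))⁻¹ ^ ((1 : ℝ) / 2) * (a0⁻¹) ^ n *
      2 ^ (k + n) * R * M ^ k) * h4
  · intro z hz
    have e1 := hF z hz
    rw [hv z hz, norm_sub_rev (h z), mul_comm]
    gcongr
  · exact (hd'.continuousOn.norm.pow 2)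

/-- pointwise estimate away from the zero set -/
private theorem intEps_ptB [MeasurableSpace E] [BorelSpace E] (μ : Measure E)
    [μ.IsAddHaarMeasure] {m : ℕ} {ρ1 χ1 : E → ℝ} (hρ1 : Continuous ρ1)
    (hc : IsCompact {x | ρ1 x ≤ 1}) {V0 : Set E}
    (hsupp : tsupport χ1 ∩ {x | ρ1 x ≤ 1} ⊆ V0)
    (hχ01 : ∀ x, χ1 x ∈ Icc (0 : ℝ) 1) {c0 : ℝ} (hc01 : c0 ≤ 1) (k : ℕ)
    {d0 : ℝ} (hd0 : 0 < d0)
    (hd : ∀ x, x ∈ tsupport χ1 → ρ1 x ≤ 1 / 2 → ball x d0 ⊆ V0 ∩ {x | ρ1 x < 1})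
    {θ : E → ℝ} (hθ01 : ∀ x, θ x ∈ Icc (0 : ℝ) 1)
    {η : ℝ → ℝ} (hη01 : ∀ s, η s ∈ Icc (0 : ℝ) 1) (hη0 : ∀ s, 1 ≤ s → η s = 0)
    {a0 d1 : ℝ} (ha0 : 0 < a0) (ha : a0 ≤ d0 / (16 * (Real.sqrt m + 1))) (had : a0 ≤ d1)
    (hd1 : ∀ x, ρ1 x < 1 / 4 → ball x d1 ⊆ {x | ρ1 x < 3 / 8})
    {y : E → (Fin m → ℂ)} (hy : DifferentiableOn ℂ y (V0 ∩ {x | ρ1 x < 1}))
    (hle : ∀ x ∈ V0, ρ1 x < 1 → en (y x) ≤ 1)
    {c2 : ℝ} (hc2 : 0 < c2) (hc2c : c2 < c0) {ε : ℝ} (hε : 0 < ε) (hεc : ε ≤ c2) {h : E → ℂ}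
    {B : ℝ} (hB0 : 0 ≤ B)
    (hB : ∀ x ∈ V0, ρ1 x < 1 → c2 / 2 ≤ en (y x) → en (y x) ≤ c2 → ‖h x‖ ≤ B)
    (hvc : Continuous (ieV θ χ1 η y c2 h)) {H : E → ℂ} (hH : Differentiable ℂ H)
    {A T : ℝ} (hT : B ≤ T)
    (hi : IntegrableOn (fun z => ‖ieV θ χ1 η y c2 h z - H z‖ ^ 2 *
      Real.exp (-ieF (k + Module.finrank ℂ E) χ1 y ε z)) {x | ρ1 x ≤ 3 / 8} μ)
    (hJ : ∫ z in {x | ρ1 x ≤ 3 / 8}, ‖ieV θ χ1 η y c2 h z - H z‖ ^ 2 *
          Real.exp (-ieF (k + Module.finrank ℂ E) χ1 y ε z) ∂μ ≤ (A * T) ^ 2)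
    {x : E} (hxρ : ρ1 x < 1 / 4) (hxy : x ∈ V0 → 5 / 8 * c2 < en (y x)) :
    ‖H x‖ ≤ (μ.real (ball (0 : E) 1))⁻¹ ^ ((1 : ℝ) / 2) * (a0⁻¹) ^ (Module.finrank ℂ E) *
      (1 + 2 * A ^ 2 * 2 ^ (k + Module.finrank ℂ E) + 2 * μ.real {x | ρ1 x ≤ 3 / 8}) *
      (1 / c2) ^ (Module.finrank ℂ E) * T := by
  set n := Module.finrank ℂ E with hn
  set W : Set E := V0 ∩ {x | ρ1 x < 1} with hWdef
  have hT0 : 0 ≤ T := hB0.trans hT
  have hc21 : c2 ≤ 1 := by linarith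
  set v := ieV θ χ1 η y c2 h with hv
  have hrle : a0 * c2 ≤ d1 := by nlinarith
  have hsub1 : ball x (a0 * c2) ⊆ {x | ρ1 x < 3 / 8} :=
    (ball_subset_ball hrle).trans (hd1 x hxρ)
  have hsub : ball x (a0 * c2) ⊆ {x | ρ1 x ≤ 3 / 8} := fun z hz =>
    show ρ1 z ≤ 3 / 8 from le_of_lt (show ρ1 z < 3 / 8 from hsub1 hz)
  have hvB : ∀ z ∈ ball x (a0 * c2), ‖v z‖ ≤ B := by
    intro z hz
    by_cases hz0 : v z = 0
    · rw [hz0, norm_zero]; exact hB0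
    have hχz : χ1 z ≠ 0 := by
      intro h0
      apply hz0
      simp [hv, ieV, h0]
    have hηz : η ((∑ i, ‖y z i‖ ^ 2) / c2 ^ 2) ≠ 0 := by
      intro h0
      apply hz0
      simp [hv, ieV, h0]
    have hρz : ρ1 z < 3 / 8 := hsub1 hz
    have hzt : z ∈ tsupport χ1 := subset_tsupport _ hχz
    have hball : ball z d0 ⊆ W := hd z hzt (by linarith)
    have hzW : z ∈ W := hball (mem_ball_self hd0)
    have hzx : ‖x - z‖ ≤ a0 * c2 := by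
      rw [mem_ball', dist_eq_norm] at hz
      exact hz.le
    have h1 := intEps_lip hy (fun x hx => hle x hx.1 hx.2) hd0 ha0 ha hball hc2.le hc21 hzx
    have h2 := hxy h1.1.1
    have h3 : c2 / 2 ≤ en (y z) := by linarith [h1.2.1]
    have h4 : en (y z) ≤ c2 := by
      by_contra hcon
      push Not at hcon
      apply hηz
      apply hη0
      rw [one_le_div (by positivity), ← intEps_en_sq]
      exact pow_le_pow_left₀ hc2.le hcon.le 2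
    have h5 := hB z hzW.1 hzW.2 h3 h4
    have h6 : ‖((θ z * χ1 z : ℝ) : ℂ)‖ ≤ 1 := by
      rw [Complex.norm_real, Real.norm_of_nonneg (mul_nonneg (hθ01 z).1 (hχ01 z).1)]
      exact mul_le_one₀ (hθ01 z).2 (hχ01 z).1 (hχ01 z).2
    have h7 : ‖((η ((∑ i, ‖y z i‖ ^ 2) / c2 ^ 2) : ℝ) : ℂ)‖ ≤ 1 := by
      rw [Complex.norm_real, Real.norm_of_nonneg (hη01 _).1]
      exact (hη01 _).2
    have h8 : ‖v z‖ = ‖((θ z * χ1 z : ℝ) : ℂ)‖ *
        (‖((η ((∑ i, ‖y z i‖ ^ 2) / c2 ^ 2) : ℝ) : ℂ)‖ * ‖h z‖) := by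
      rw [hv, ieV, norm_mul, norm_mul]
    rw [h8]
    calc ‖((θ z * χ1 z : ℝ) : ℂ)‖ *
        (‖((η ((∑ i, ‖y z i‖ ^ 2) / c2 ^ 2) : ℝ) : ℂ)‖ * ‖h z‖) ≤ 1 * (1 * B) := by
          gcongr
      _ = B := by ring
  have hF : ∀ z ∈ ball x (a0 * c2),
      (1 / 2) ^ (k + n) ≤ Real.exp (-ieF (k + n) χ1 y ε z) := by
    intro z hz
    have hρz : ρ1 z < 3 / 8 := hsub1 hz
    have h1 : χ1 z * Real.log (∑ i, ‖y z i‖ ^ 2 + ε ^ 2) ≤ Real.log 2 := by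
      have hlog2 : 0 < Real.log 2 := Real.log_pos one_lt_two
      by_cases hzt : χ1 z = 0
      · rw [hzt, zero_mul]; exact hlog2.le
      have hzV : z ∈ V0 := hsupp ⟨subset_tsupport _ hzt, show ρ1 z ≤ 1 by linarith⟩
      have h2 := hle z hzV (by linarith)
      have h3 : ∑ i, ‖y z i‖ ^ 2 + ε ^ 2 ≤ 2 := by
        rw [← intEps_en_sq]
        have h4 : en (y z) ^ 2 ≤ 1 := pow_le_one₀ (intEps_en_nonneg _) h2
        have h5 : ε ^ 2 ≤ 1 := pow_le_one₀ hε.le (hεc.trans hc21)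
        linarith
      have e0 : 0 ≤ ∑ i, ‖y z i‖ ^ 2 := Finset.sum_nonneg fun _ _ => by positivity
      have h6 : Real.log (∑ i, ‖y z i‖ ^ 2 + ε ^ 2) ≤ Real.log 2 :=
        Real.log_le_log (by positivity) h3
      calc χ1 z * Real.log (∑ i, ‖y z i‖ ^ 2 + ε ^ 2) ≤ χ1 z * Real.log 2 :=
            mul_le_mul_of_nonneg_left h6 (hχ01 z).1
        _ ≤ 1 * Real.log 2 := by
            gcongr
            exact (hχ01 z).2
        _ = Real.log 2 := one_mul _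
    have h7 : (1 / 2 : ℝ) ^ (k + n) = Real.exp (-(((k + n : ℕ) : ℝ) * (1 * Real.log 2))) :=
      (intEps_exp_neg (k + n) two_pos).symm
    rw [h7, one_mul]
    refine Real.exp_le_exp.2 (neg_le_neg ?_)
    exact mul_le_mul_of_nonneg_left h1 (Nat.cast_nonneg _)
  have hproper : ProperSpace E := FiniteDimensional.proper ℂ E
  have hScl : IsClosed {x | ρ1 x ≤ 3 / 8} := isClosed_le hρ1 continuous_const
  have hSc : IsCompact {x | ρ1 x ≤ 3 / 8} :=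
    hc.of_isClosed_subset hScl fun x (hx : ρ1 x ≤ 3 / 8) => show ρ1 x ≤ 1 by linarith
  have hlo := intEps_lower (μ := μ) measurableSet_ball hsub
    (q := fun z => ‖v z - H z‖ ^ 2) hi (fun x => by positivity) (fun x => by positivity)
    (κ := (1 / 2) ^ (k + n)) (by positivity) (by
      intro z hz
      have e1 := hF z hz
      rw [mul_comm]
      gcongr) ((hvc.sub hH.continuous).norm.pow 2).continuousOn hJ
  have hbfin : μ (ball x (a0 * c2)) ≠ ⊤ := measure_ball_lt_top.ne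
  have hHi : IntegrableOn (fun z => ‖H z‖ ^ 2) (ball x (a0 * c2)) μ := by
    have h1 : IntegrableOn (fun z => ‖H z‖ ^ 2) (closedBall x (a0 * c2)) μ :=
      (hH.continuous.norm.pow 2).continuousOn.integrableOn_compact (isCompact_closedBall _ _)
    exact h1.mono_set ball_subset_closedBall
  have hHle : ∫ z in ball x (a0 * c2), ‖H z‖ ^ 2 ∂μ ≤
      ((1 + 2 * A ^ 2 * 2 ^ (k + n) + 2 * μ.real {x | ρ1 x ≤ 3 / 8}) * T) ^ 2 := by
    have h1 : ∫ z in ball x (a0 * c2), ‖H z‖ ^ 2 ∂μ ≤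
        ∫ z in ball x (a0 * c2), (2 * ‖v z - H z‖ ^ 2 + 2 * B ^ 2) ∂μ := by
      refine setIntegral_mono_on hHi ((hlo.1.const_mul 2).add
        (integrableOn_const (C := 2 * B ^ 2) hbfin)) measurableSet_ball fun z hz => ?_
      have h2 : ‖H z‖ ≤ ‖v z - H z‖ + B := by
        calc ‖H z‖ = ‖v z - (v z - H z)‖ := by rw [sub_sub_cancel]
          _ ≤ ‖v z‖ + ‖v z - H z‖ := norm_sub_le _ _
          _ ≤ ‖v z - H z‖ + B := by linarith [hvB z hz]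
      have h3 : ‖H z‖ ^ 2 ≤ (‖v z - H z‖ + B) ^ 2 := pow_le_pow_left₀ (norm_nonneg _) h2 2
      nlinarith [sq_nonneg (‖v z - H z‖ - B)]
    have h2 : ∫ z in ball x (a0 * c2), (2 * ‖v z - H z‖ ^ 2 + 2 * B ^ 2) ∂μ =
        2 * ∫ z in ball x (a0 * c2), ‖v z - H z‖ ^ 2 ∂μ +
          μ.real (ball x (a0 * c2)) * (2 * B ^ 2) := by
      rw [integral_add (hlo.1.const_mul 2) (integrableOn_const (C := 2 * B ^ 2) hbfin),
        integral_const_mul, setIntegral_const, smul_eq_mul]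
    have h3 : ∫ z in ball x (a0 * c2), ‖v z - H z‖ ^ 2 ∂μ ≤ 2 ^ (k + n) * (A * T) ^ 2 := by
      have h4 := hlo.2
      rw [mul_comm, ← le_div_iff₀ (by positivity)] at h4
      refine h4.trans (le_of_eq ?_)
      rw [one_div, inv_pow, div_inv_eq_mul, mul_comm]
    have h5 : μ.real (ball x (a0 * c2)) ≤ μ.real {x | ρ1 x ≤ 3 / 8} :=
      measureReal_mono hsub hSc.measure_lt_top.ne
    have h6 : B ^ 2 ≤ T ^ 2 := pow_le_pow_left₀ hB0 hT 2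
    have h7 : 0 ≤ μ.real {x | ρ1 x ≤ 3 / 8} := measureReal_nonneg
    rw [h2] at h1
    have h8 : μ.real (ball x (a0 * c2)) * (2 * B ^ 2) ≤
        μ.real {x | ρ1 x ≤ 3 / 8} * (2 * T ^ 2) := by gcongr
    set S0 : ℝ := 2 * A ^ 2 * 2 ^ (k + n) + 2 * μ.real {x | ρ1 x ≤ 3 / 8} with hS0
    have hS00 : 0 ≤ S0 := by positivity
    have h9 : ∫ z in ball x (a0 * c2), ‖H z‖ ^ 2 ∂μ ≤ S0 * T ^ 2 := by
      calc ∫ z in ball x (a0 * c2), ‖H z‖ ^ 2 ∂μ ≤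
            2 * (2 ^ (k + n) * (A * T) ^ 2) + μ.real {x | ρ1 x ≤ 3 / 8} * (2 * T ^ 2) := by
            linarith
        _ = S0 * T ^ 2 := by rw [hS0]; ring
    have h10 : (1 + 2 * A ^ 2 * 2 ^ (k + n) + 2 * μ.real {x | ρ1 x ≤ 3 / 8}) = 1 + S0 := by
      rw [hS0]; ring
    rw [h10, mul_pow]
    refine h9.trans (mul_le_mul_of_nonneg_right ?_ (sq_nonneg T))
    nlinarith
  have h3 := norm_le_of_hol (μ := μ) (f := H) (x := x) (r := a0 * c2)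
    (by positivity) hH.differentiableOn hHi hHle (by positivity)
  refine h3.trans (le_of_eq ?_)
  rw [← hn, mul_inv, mul_pow, one_div c2]
  ring

end

/-- a uniform radius -/
private theorem intEps_radius {E : Type} [NormedAddCommGroup E] {K U : Set E} (hK : IsCompact K)
    (hU : IsOpen U) (hKU : K ⊆ U) : ∃ d > 0, ∀ x ∈ K, ball x d ⊆ U := by
  obtain ⟨d, hd, h⟩ := hK.exists_thickening_subset_open hU hKU
  exact ⟨d, hd, fun x hx => (ball_subset_thickening hx d).trans h⟩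

/-- interpolation, scalar valued -/
theorem int_scalar {E : Type} [NormedAddCommGroup E] [NormedSpace ℂ E] [FiniteDimensional ℂ E]
    (m : ℕ) {ρ1 χ1 : E → ℝ} (hρ1 : Psh ρ1) (hc : IsCompact {x | ρ1 x ≤ 1}) {V0 : Set E}
    (hV0 : IsOpen V0) (hχ : ContDiff ℝ ∞ χ1) (hχ01 : ∀ x, χ1 x ∈ Icc (0 : ℝ) 1)
    (hsupp : tsupport χ1 ∩ {x | ρ1 x ≤ 1} ⊆ V0) {c0 : ℝ} (hc0 : 0 < c0) (hc01 : c0 ≤ 1) (k : ℕ) :
    ∃ C : ℝ, 0 < C ∧ ∀ (y : E → (Fin m → ℂ)), DifferentiableOn ℂ y (V0 ∩ {x | ρ1 x < 1}) →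
      (∀ x ∈ V0, ρ1 x < 1 → en (y x) ≤ 1) →
      (∀ x ∈ V0, ρ1 x < 1 → χ1 x < 1 → c0 ≤ en (y x)) →
      ∀ c2 ∈ Ioo (0 : ℝ) c0, ∀ ε ∈ Ioc (0 : ℝ) c2, ∀ (h : E → ℂ) (B : ℝ), 0 ≤ B →
      DifferentiableOn ℂ h (V0 ∩ {x | ρ1 x < 1}) →
      (∀ x ∈ V0, ρ1 x < 1 → c2 / 2 ≤ en (y x) → en (y x) ≤ c2 → ‖h x‖ ≤ B) →
      ∀ τ > 0, ∃ H : E → ℂ, Differentiable ℂ H ∧
        (∀ x ∈ V0, ρ1 x < 1 / 4 → en (y x) ≤ c2 / 2 →
          ‖H x - h x‖ ≤ C * (B + τ) * (1 / c2) ^ (k + 2 * Module.finrank ℂ E + 1) *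
            max (en (y x)) ε ^ k) ∧
        (∀ x, ρ1 x < 1 / 4 → (x ∉ V0 ∨ c2 < en (y x)) →
          ‖H x‖ ≤ C * (B + τ) * (1 / c2) ^ (k + 2 * Module.finrank ℂ E + 1)) ∧
        (∀ x ∈ V0, ρ1 x < 1 / 4 → en (y x) ≤ c2 →
          ‖H x‖ ≤ C * (B + τ) * (1 / c2) ^ (k + 2 * Module.finrank ℂ E + 1) + ‖h x‖) := by
  classical
  have hproper : ProperSpace E := FiniteDimensional.proper ℂ E
  let _ : MeasurableSpace E := borel E
  have _ : BorelSpace E := ⟨rfl⟩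
  let μ : Measure E := Measure.addHaar
  set n := Module.finrank ℂ E with hn
  have hρc : Continuous ρ1 := hρ1.smooth.continuous
  have hcs : ∀ s : ℝ, s ≤ 1 → IsCompact {x | ρ1 x ≤ s} := fun s hs =>
    hc.of_isClosed_subset (isClosed_le hρc continuous_const) fun x (hx : ρ1 x ≤ s) => hx.trans hs
  obtain ⟨d0, hd0, hd0'⟩ := intEps_radius (K := tsupport χ1 ∩ {x | ρ1 x ≤ 1 / 2})
    (U := V0 ∩ {x | ρ1 x < 1}) ((hcs _ (by norm_num)).inter_left (isClosed_tsupport _))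
    (hV0.inter (isOpen_lt hρc continuous_const)) (fun x hx =>
      ⟨hsupp ⟨hx.1, show ρ1 x ≤ 1 by have : ρ1 x ≤ 1 / 2 := hx.2; linarith⟩,
        show ρ1 x < 1 by have : ρ1 x ≤ 1 / 2 := hx.2; linarith⟩)
  have hd : ∀ x, x ∈ tsupport χ1 → ρ1 x ≤ 1 / 2 → ball x d0 ⊆ V0 ∩ {x | ρ1 x < 1} :=
    fun x h1 h2 => hd0' x ⟨h1, h2⟩
  obtain ⟨d1, hd1, hd1'⟩ := intEps_radius (K := {x | ρ1 x ≤ 1 / 4})
    (U := {x | ρ1 x < 3 / 8}) (hcs _ (by norm_num)) (isOpen_lt hρc continuous_const)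
    (fun x hx => show ρ1 x < 3 / 8 by have : ρ1 x ≤ 1 / 4 := hx; linarith)
  have hd1s : ∀ x, ρ1 x < 1 / 4 → ball x d1 ⊆ {x | ρ1 x < 3 / 8} := fun x hx =>
    hd1' x (le_of_lt hx)
  obtain ⟨θ, hθ, hθc, hθ01, hθs, hθ1⟩ := exists_cut (K := {x | ρ1 x ≤ 1 / 2})
    (U := {x | ρ1 x < 1}) (hcs _ (by norm_num)) (isOpen_lt hρc continuous_const)
    (fun x hx => show ρ1 x < 1 by have : ρ1 x ≤ 1 / 2 := hx; linarith)
  obtain ⟨η, K, hη, hK, hη01, hη1, hη0, hdη, hdη1, hdη2⟩ := intEps_cut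
  obtain ⟨A, hA, hL2⟩ := intEps_L2 μ m hρ1 hc hV0 hχ hχ01 hsupp hc0 hc01 (k + n) hd0 hd hθ hθc
    hθs hθ1 hη hK hη0 hdη hdη1 hdη2
  set a0 : ℝ := min d1 (d0 / (16 * (Real.sqrt m + 1))) with ha0
  have ha0p : 0 < a0 := lt_min hd1 (by positivity)
  set cn : ℝ := (μ.real (ball (0 : E) 1))⁻¹ ^ ((1 : ℝ) / 2) * (a0⁻¹) ^ n with hcn
  have hcn0 : 0 ≤ cn := by positivity
  set CA : ℝ := cn * 2 ^ (k + n) * A with hCA
  set CB : ℝ := cn * (1 + 2 * A ^ 2 * 2 ^ (k + n) + 2 * μ.real {x | ρ1 x ≤ 3 / 8}) with hCB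
  have hCA0 : 0 ≤ CA := by positivity
  have hCB0 : 0 ≤ CB := by positivity
  refine ⟨CA + CB + 1, by positivity, ?_⟩
  intro y hy hle hlow c2 hc2 ε hε h B hB0 hh hB τ hτ
  obtain ⟨H, hH, hi, hJ⟩ := hL2 y hy hle hlow c2 hc2 ε hε h B hB0 hh hB τ hτ
  obtain ⟨hc2a, hc2b⟩ := hc2
  obtain ⟨hεa, hεb⟩ := hε
  have hc21 : 1 ≤ 1 / c2 := by
    rw [le_div_iff₀ hc2a]
    linarith
  have hθone : ∀ x, ρ1 x ≤ 1 / 2 → θ x = 1 := by
    intro x hx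
    have h1 : x ∈ {x | θ x = 1} := interior_subset (hθ1 hx)
    exact h1
  have hBτ : 0 < B + τ := by linarith
  have hWs : tsupport χ1 ∩ {x | ρ1 x < 1} ⊆ V0 ∩ {x | ρ1 x < 1} := fun x hx =>
    ⟨hsupp ⟨hx.1, show ρ1 x ≤ 1 from le_of_lt (show ρ1 x < 1 from hx.2)⟩, hx.2⟩
  have hvT := intEps_smoothV (hV0.inter (isOpen_lt hρc continuous_const)) hy hθ hχ hθc hθs hWs
    hη c2 hh
  have hpA : ∀ x ∈ V0, ρ1 x < 1 / 4 → en (y x) ≤ 5 / 8 * c2 →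
      ‖H x - h x‖ ≤ CA * (B + τ) * (1 / c2) ^ (k + 2 * n + 1) * max (en (y x)) ε ^ k := by
    intro x hx hxρ hxy
    have h1 := intEps_ptA μ hχ01 hc01 k hd0 hd hθone hη1 ha0p (min_le_right _ _)
      (min_le_left _ _) hd1s hy hle hlow hc2a hc2b hεa hεb hh hH
      (R := A * ((B + τ) * (1 / c2) ^ (1 + (k + n)))) (by positivity) hi hJ hx hxρ hxy
    refine h1.trans ?_
    rw [← hn, ← hcn]
    have h2 : (1 / c2) ^ (1 + (k + n)) ≤ (1 / c2) ^ (k + 2 * n + 1) :=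
      pow_le_pow_right₀ hc21 (by omega)
    have h3 : 0 ≤ max (en (y x)) ε := hεa.le.trans (le_max_right _ _)
    calc cn * 2 ^ (k + n) * (A * ((B + τ) * (1 / c2) ^ (1 + (k + n)))) * max (en (y x)) ε ^ k
        ≤ cn * 2 ^ (k + n) * (A * ((B + τ) * (1 / c2) ^ (k + 2 * n + 1))) *
          max (en (y x)) ε ^ k := by gcongr
      _ = _ := by rw [hCA]; ring
  have hpB : ∀ x, ρ1 x < 1 / 4 → (x ∈ V0 → 5 / 8 * c2 < en (y x)) →
      ‖H x‖ ≤ CB * (B + τ) * (1 / c2) ^ (k + 2 * n + 1) := by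
    intro x hxρ hxy
    have hT : B ≤ (B + τ) * (1 / c2) ^ (1 + (k + n)) := by
      have h2 : 1 ≤ (1 / c2) ^ (1 + (k + n)) := one_le_pow₀ hc21
      nlinarith
    have h1 := intEps_ptB μ hρc hc hsupp hχ01 hc01 k hd0 hd hθ01 hη01 hη0 ha0p
      (min_le_right _ _) (min_le_left _ _) hd1s hy hle hc2a hc2b hεa hεb hB0 hB
      hvT.1.continuous hH hT hi hJ hxρ hxy
    refine h1.trans (le_of_eq ?_)
    rw [← hn, ← hcn, hCB]
    ring
  have hE : 0 ≤ (B + τ) * (1 / c2) ^ (k + 2 * n + 1) := by positivity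
  refine ⟨H, hH, ?_, ?_, ?_⟩
  · intro x hx hxρ hxy
    refine (hpA x hx hxρ (by linarith)).trans ?_
    have h3 : 0 ≤ max (en (y x)) ε := hεa.le.trans (le_max_right _ _)
    have h4 : CA ≤ CA + CB + 1 := by linarith
    gcongr
  · intro x hxρ hxy
    refine (hpB x hxρ fun hx => ?_).trans ?_
    · rcases hxy with h1 | h1
      · exact absurd hx h1
      · linarith
    · have h4 : CB ≤ CA + CB + 1 := by linarith
      gcongr
  · intro x hx hxρ hxy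
    by_cases h5 : en (y x) ≤ 5 / 8 * c2
    · have h6 := hpA x hx hxρ h5
      have h7 : max (en (y x)) ε ^ k ≤ 1 := by
        refine pow_le_one₀ (hεa.le.trans (le_max_right _ _)) (max_le ?_ ?_)
        · linarith
        · linarith
      have h8 : CA * (B + τ) * (1 / c2) ^ (k + 2 * n + 1) * max (en (y x)) ε ^ k ≤
          CA * (B + τ) * (1 / c2) ^ (k + 2 * n + 1) := mul_le_of_le_one_right (by positivity) h7
      have h9 : CA * (B + τ) * (1 / c2) ^ (k + 2 * n + 1) ≤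
          (CA + CB + 1) * (B + τ) * (1 / c2) ^ (k + 2 * n + 1) := by
        have h4 : CA ≤ CA + CB + 1 := by linarith
        gcongr
      have h10 : ‖H x‖ ≤ ‖H x - h x‖ + ‖h x‖ := by
        calc ‖H x‖ = ‖(H x - h x) + h x‖ := by rw [sub_add_cancel]
          _ ≤ _ := norm_add_le _ _
      linarith
    · push Not at h5
      have h6 := hpB x hxρ fun _ => h5
      have h9 : CB * (B + τ) * (1 / c2) ^ (k + 2 * n + 1) ≤
          (CA + CB + 1) * (B + τ) * (1 / c2) ^ (k + 2 * n + 1) := by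
        have h4 : CB ≤ CA + CB + 1 := by linarith
        gcongr
      have := norm_nonneg (h x)
      linarith

/-- interpolation, vector valued -/
theorem int_vec {E : Type} [NormedAddCommGroup E] [NormedSpace ℂ E] [FiniteDimensional ℂ E]
    (m q : ℕ) {ρ1 χ1 : E → ℝ} (hρ1 : Psh ρ1) (hc : IsCompact {x | ρ1 x ≤ 1}) {V0 : Set E}
    (hV0 : IsOpen V0) (hχ : ContDiff ℝ ∞ χ1) (hχ01 : ∀ x, χ1 x ∈ Icc (0 : ℝ) 1)
    (hsupp : tsupport χ1 ∩ {x | ρ1 x ≤ 1} ⊆ V0) {c0 : ℝ} (hc0 : 0 < c0) (hc01 : c0 ≤ 1) (k : ℕ) :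
    ∃ C : ℝ, 0 < C ∧ ∀ (y : E → (Fin m → ℂ)), DifferentiableOn ℂ y (V0 ∩ {x | ρ1 x < 1}) →
      (∀ x ∈ V0, ρ1 x < 1 → en (y x) ≤ 1) →
      (∀ x ∈ V0, ρ1 x < 1 → χ1 x < 1 → c0 ≤ en (y x)) →
      ∀ c2 ∈ Ioo (0 : ℝ) c0, ∀ ε ∈ Ioc (0 : ℝ) c2, ∀ (h : E → (Fin q → ℂ)) (B : ℝ), 0 ≤ B →
      DifferentiableOn ℂ h (V0 ∩ {x | ρ1 x < 1}) →
      (∀ x ∈ V0, ρ1 x < 1 → c2 / 2 ≤ en (y x) → en (y x) ≤ c2 → ‖h x‖ ≤ B) →
      ∀ τ > 0, ∃ H : E → (Fin q → ℂ), Differentiable ℂ H ∧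
        (∀ x ∈ V0, ρ1 x < 1 / 4 → en (y x) ≤ c2 / 2 →
          ‖H x - h x‖ ≤ C * (B + τ) * (1 / c2) ^ (k + 2 * Module.finrank ℂ E + 1) *
            max (en (y x)) ε ^ k) ∧
        (∀ x, ρ1 x < 1 / 4 → (x ∉ V0 ∨ c2 < en (y x)) →
          ‖H x‖ ≤ C * (B + τ) * (1 / c2) ^ (k + 2 * Module.finrank ℂ E + 1)) ∧
        (∀ x ∈ V0, ρ1 x < 1 / 4 → en (y x) ≤ c2 →
          ‖H x‖ ≤ C * (B + τ) * (1 / c2) ^ (k + 2 * Module.finrank ℂ E + 1) + ‖h x‖) := by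
  obtain ⟨C, hC, hmain⟩ := int_scalar m hρ1 hc hV0 hχ hχ01 hsupp hc0 hc01 k
  refine ⟨C, hC, ?_⟩
  intro y hy hle hlow c2 hc2 ε hε h B hB0 hh hB τ hτ
  have h1 : ∀ j : Fin q, ∃ H : E → ℂ, Differentiable ℂ H ∧
        (∀ x ∈ V0, ρ1 x < 1 / 4 → en (y x) ≤ c2 / 2 →
          ‖H x - h x j‖ ≤ C * (B + τ) * (1 / c2) ^ (k + 2 * Module.finrank ℂ E + 1) *
            max (en (y x)) ε ^ k) ∧
        (∀ x, ρ1 x < 1 / 4 → (x ∉ V0 ∨ c2 < en (y x)) →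
          ‖H x‖ ≤ C * (B + τ) * (1 / c2) ^ (k + 2 * Module.finrank ℂ E + 1)) ∧
        (∀ x ∈ V0, ρ1 x < 1 / 4 → en (y x) ≤ c2 →
          ‖H x‖ ≤ C * (B + τ) * (1 / c2) ^ (k + 2 * Module.finrank ℂ E + 1) + ‖h x j‖) := by
    intro j
    exact hmain y hy hle hlow c2 hc2 ε hε (fun x => h x j) B hB0 (differentiableOn_pi.1 hh j)
      (fun x hx h2 h3 h4 => (norm_le_pi_norm _ j).trans (hB x hx h2 h3 h4)) τ hτ
  choose H hH hH1 hH2 hH3 using h1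
  have hc2p : 0 < c2 := hc2.1
  have hεp : 0 < ε := hε.1
  have hE : 0 ≤ C * (B + τ) * (1 / c2) ^ (k + 2 * Module.finrank ℂ E + 1) := by
    have : 0 < B + τ := by linarith
    positivity
  refine ⟨fun x j => H j x, differentiable_pi.2 hH, ?_, ?_, ?_⟩
  · intro x hx h2 h3
    have h4 : 0 ≤ max (en (y x)) ε := hεp.le.trans (le_max_right _ _)
    refine (pi_norm_le_iff_of_nonneg (by positivity)).2 fun j => ?_
    exact hH1 j x hx h2 h3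
  · intro x h2 h3
    exact (pi_norm_le_iff_of_nonneg hE).2 fun j => hH2 j x h2 h3
  · intro x hx h2 h3
    refine (pi_norm_le_iff_of_nonneg (by positivity)).2 fun j => ?_
    refine (hH3 j x hx h2 h3).trans ?_
    have := norm_le_pi_norm (h x) j
    linarith

end OkaP
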