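import Pool.Agent.H.MP_ceb9a9.Geom
import Pool.Agent.H.MP_ceb9a9.IntEps
import Pool.Agent.H.MP_ceb9a9.Scv1

/-!
# MP_ceb9a9: interpolation to high order along the zero set of a holomorphic map
-/

set_option autoImplicit false

namespace OkaP

open Set Metric Topology Filter

/-- exponent of the interpolation estimate -/
def intExp (n k : ℕ) : ℕ := k + 2 * n + 1

/-- locally bounded sequences of holomorphic maps have holomorphic limits along the hyperfilter. -/
theorem IntExact_montel {E F : Type} [NormedAddCommGroup E] [NormedSpace ℂ E]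
    [FiniteDimensional ℂ E] [NormedAddCommGroup F] [NormedSpace ℂ F] [FiniteDimensional ℂ F]
    {U : Set E} {H : ℕ → E → F} (hH : ∀ j, DifferentiableOn ℂ (H j) U)
    (hb : ∀ x ∈ U, ∃ r > 0, ∃ M : ℝ, ball x r ⊆ U ∧ ∀ j, ∀ y ∈ ball x r, ‖H j y‖ ≤ M) :
    ∃ G : E → F, DifferentiableOn ℂ G U ∧
      ∀ x ∈ U, Tendsto (fun j => H j x) (hyperfilter ℕ : Filter ℕ) (𝓝 (G x)) := by
  classical
  have hpF : ProperSpace F := FiniteDimensional.proper ℂ F
  have hpE : ProperSpace (E →L[ℂ] F) := FiniteDimensional.proper ℂ (E →L[ℂ] F)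
  have lim : ∀ {V : Type} [NormedAddCommGroup V] [ProperSpace V] (a : ℕ → V) (M : ℝ),
      (∀ j, ‖a j‖ ≤ M) → ∃ b : V, Tendsto a (hyperfilter ℕ : Filter ℕ) (𝓝 b) := by
    intro V _ _ a M ha
    obtain ⟨b, _, hb⟩ := (isCompact_closedBall (0 : V) M).ultrafilter_le_nhds
      ((hyperfilter ℕ).map a) (by
        rw [le_principal_iff]
        exact mem_map.2 (Filter.univ_mem' fun j => mem_closedBall_zero_iff.2 (ha j)))
    exact ⟨b, hb⟩
  have hex : ∀ x : E, ∃ g : F, x ∈ U →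
      Tendsto (fun j => H j x) (hyperfilter ℕ : Filter ℕ) (𝓝 g) := by
    intro x
    by_cases hx : x ∈ U
    · obtain ⟨r, hr, M, _, hM⟩ := hb x hx
      obtain ⟨g, hg⟩ := lim (fun j => H j x) M (fun j => hM j x (mem_ball_self hr))
      exact ⟨g, fun _ => hg⟩
    · exact ⟨0, fun h => absurd h hx⟩
  choose G hG using hex
  refine ⟨G, ?_, hG⟩
  intro x hx
  obtain ⟨r, hr, M, hrU, hM⟩ := hb x hx
  have hM0 : 0 ≤ M := (norm_nonneg _).trans (hM 0 x (mem_ball_self hr))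
  have hHr : ∀ j, DifferentiableOn ℂ (H j) (ball x r) := fun j => (hH j).mono hrU
  obtain ⟨L, hL⟩ := lim (fun j => fderiv ℂ (H j) x) (M / r)
    (fun j => norm_fderiv_le hr (hHr j) (hM j))
  set C : ℝ := 8 * M / r ^ 2 with hC
  have hC0 : 0 ≤ C := by positivity
  -- uniform second order estimate
  have hsec : ∀ j, ∀ y ∈ ball x (r / 4),
      ‖H j y - H j x - fderiv ℂ (H j) x (y - x)‖ ≤ C * ‖y - x‖ * ‖y - x‖ := by
    intro j y hy
    have hyr : ‖y - x‖ < r / 4 := by rwa [mem_ball, dist_eq_norm] at hy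
    set s : Set E := ball x (r / 4) ∩ closedBall x ‖y - x‖ with hs
    have hsc : Convex ℝ s := (convex_ball _ _).inter (convex_closedBall _ _)
    have h1 : ∀ z ∈ s, HasFDerivWithinAt (fun z => H j z - fderiv ℂ (H j) x z)
        (fderiv ℂ (H j) z - fderiv ℂ (H j) x) s z := by
      intro z hz
      have h2 : DifferentiableAt ℂ (H j) z :=
        (hHr j).differentiableAt (isOpen_ball.mem_nhds (ball_subset_ball (by linarith) hz.1))
      exact (h2.hasFDerivAt.sub (fderiv ℂ (H j) x).hasFDerivAt).hasFDerivWithinAt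
    have h3 : ∀ z ∈ s, ‖fderiv ℂ (H j) z - fderiv ℂ (H j) x‖ ≤ C * ‖y - x‖ := by
      intro z hz
      refine (scv1_fderiv_lip hr (hHr j) (hM j) hz.1 (mem_ball_self (by positivity))).trans ?_
      have h4 : ‖z - x‖ ≤ ‖y - x‖ := by
        have := hz.2
        rwa [mem_closedBall, dist_eq_norm] at this
      exact mul_le_mul_of_nonneg_left h4 hC0
    have h5 := hsc.norm_image_sub_le_of_norm_hasFDerivWithin_le h1 h3
      (x := x) (y := y) ⟨mem_ball_self (by positivity), mem_closedBall_self (norm_nonneg _)⟩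
      ⟨hy, by rw [mem_closedBall, dist_eq_norm]⟩
    have h6 : H j y - fderiv ℂ (H j) x y - (H j x - fderiv ℂ (H j) x x) =
        H j y - H j x - fderiv ℂ (H j) x (y - x) := by
      rw [map_sub]; abel
    rw [h6] at h5
    exact h5
  have hlim : ∀ y ∈ ball x (r / 4), ‖G y - G x - L (y - x)‖ ≤ C * ‖y - x‖ * ‖y - x‖ := by
    intro y hy
    have hyU : y ∈ U := hrU (ball_subset_ball (by linarith) hy)
    have h1 : Tendsto (fun j => fderiv ℂ (H j) x (y - x)) (hyperfilter ℕ : Filter ℕ)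
        (𝓝 (L (y - x))) :=
      ((ContinuousLinearMap.apply ℂ F (y - x)).continuous.tendsto L).comp hL
    have h2 := ((hG y hyU).sub (hG x hx)).sub h1
    exact le_of_tendsto h2.norm (Eventually.of_forall fun j => hsec j y hy)
  have hder : HasFDerivAt G L x := by
    rw [hasFDerivAt_iff_isLittleO]
    refine Asymptotics.isLittleO_iff.2 fun ε hε => ?_
    have h1 : ball x (min (r / 4) (ε / (C + 1))) ∈ 𝓝 x :=
      isOpen_ball.mem_nhds (mem_ball_self (lt_min (by positivity) (by positivity)))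
    filter_upwards [h1] with y hy
    have h2 : y ∈ ball x (r / 4) := ball_subset_ball (min_le_left _ _) hy
    have h3 : ‖y - x‖ < ε / (C + 1) := by
      have := ball_subset_ball (min_le_right _ _) hy
      rwa [mem_ball, dist_eq_norm] at this
    refine (hlim y h2).trans (mul_le_mul_of_nonneg_right ?_ (norm_nonneg _))
    rw [lt_div_iff₀ (by positivity)] at h3
    nlinarith [norm_nonneg (y - x)]
  exact hder.differentiableAt.differentiableWithinAt

theorem IntExact_en_sq {m : ℕ} (y : Fin m → ℂ) : en y ^ 2 = ∑ i, ‖y i‖ ^ 2 :=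
  Real.sq_sqrt (Finset.sum_nonneg fun _ _ => by positivity)

theorem IntExact_en_nonneg {m : ℕ} (y : Fin m → ℂ) : 0 ≤ en y := Real.sqrt_nonneg _

theorem IntExact_norm_le {m : ℕ} (y : Fin m → ℂ) : ‖y‖ ≤ en y := by
  refine (pi_norm_le_iff_of_nonneg (IntExact_en_nonneg y)).2 fun i => ?_
  refine abs_le_of_sq_le_sq' ?_ (IntExact_en_nonneg y) |>.2
  rw [IntExact_en_sq]
  exact Finset.single_le_sum (f := fun i => ‖y i‖ ^ 2) (fun _ _ => by positivity)
    (Finset.mem_univ i)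

theorem IntExact_en_le {m : ℕ} (y : Fin m → ℂ) : en y ≤ (m + 1) * ‖y‖ := by
  refine abs_le_of_sq_le_sq' ?_ (by positivity) |>.2
  rw [IntExact_en_sq]
  have h1 : ∑ i, ‖y i‖ ^ 2 ≤ ∑ _i : Fin m, ‖y‖ ^ 2 :=
    Finset.sum_le_sum fun i _ => pow_le_pow_left₀ (norm_nonneg _) (norm_le_pi_norm y i) 2
  rw [Finset.sum_const, Finset.card_univ, Fintype.card_fin, nsmul_eq_mul] at h1
  refine h1.trans ?_
  rw [mul_pow]
  refine mul_le_mul_of_nonneg_right ?_ (by positivity)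
  have : (0 : ℝ) ≤ m := Nat.cast_nonneg m
  nlinarith

theorem IntExact_en_smul {m : ℕ} {c : ℝ} (hc : 0 ≤ c) (y : Fin m → ℂ) :
    en ((c : ℂ) • y) = c * en y := by
  unfold en
  have h1 : ∑ i, ‖((c : ℂ) • y) i‖ ^ 2 = c ^ 2 * ∑ i, ‖y i‖ ^ 2 := by
    rw [Finset.mul_sum]
    refine Finset.sum_congr rfl fun i _ => ?_
    rw [Pi.smul_apply, norm_smul, Complex.norm_real, Real.norm_eq_abs, abs_of_nonneg hc, mul_pow]
  rw [h1, Real.sqrt_mul (by positivity), Real.sqrt_sq hc]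

/-- interpolation along `{y = 0}` with contact of order `k`, with estimates uniform in `y`. -/
theorem intExact {E : Type} [NormedAddCommGroup E] [NormedSpace ℂ E] [FiniteDimensional ℂ E]
    (m k q : ℕ) {ρ1 : E → ℝ} (hρ : Psh ρ1) (hρc : IsCompact {x | ρ1 x ≤ 1})
    {V0 : Set E} (hV0 : IsOpen V0) {χ1 : E → ℝ}
    (hχ : ContDiff ℝ ((⊤ : ℕ∞) : WithTop ℕ∞) χ1) (hχm : ∀ x, χ1 x ∈ Icc (0 : ℝ) 1)
    (hχV : ∀ x ∈ tsupport χ1, ρ1 x ≤ 1 → x ∈ V0) {c0 : ℝ} (hc0 : 0 < c0) :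
    ∃ C : ℝ, 1 ≤ C ∧ ∀ y : E → (Fin m → ℂ), DifferentiableOn ℂ y (V0 ∩ {x | ρ1 x < 1}) →
      (∀ x ∈ V0, ρ1 x < 1 → ‖y x‖ ≤ 1) →
      (∀ x ∈ V0, ρ1 x < 1 → χ1 x < 1 → c0 ≤ ‖y x‖) →
      ∀ c2 ∈ Ioo (0 : ℝ) (c0 / C), ∀ h : E → (Fin q → ℂ),
      DifferentiableOn ℂ h (V0 ∩ {x | ρ1 x < 1}) → ∀ B : ℝ, 0 ≤ B →
      (∀ x ∈ V0, ρ1 x < 1 → c2 / C ≤ ‖y x‖ → ‖y x‖ ≤ c2 → ‖h x‖ ≤ B) →
      ∃ H : E → (Fin q → ℂ), DifferentiableOn ℂ H {x | ρ1 x < 1 / 8} ∧
        (∀ x ∈ V0, ρ1 x < 1 / 8 → ‖y x‖ ≤ c2 / C →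
          ‖H x - h x‖ ≤ C * B * (1 / c2) ^ intExp (Module.finrank ℂ E) k * ‖y x‖ ^ k) ∧
        (∀ x, ρ1 x < 1 / 8 → (x ∉ V0 ∨ c2 < ‖y x‖) →
          ‖H x‖ ≤ C * B * (1 / c2) ^ intExp (Module.finrank ℂ E) k) ∧
        (∀ x ∈ V0, ρ1 x < 1 / 8 → ‖y x‖ ≤ c2 →
          ‖H x‖ ≤ C * B * (1 / c2) ^ intExp (Module.finrank ℂ E) k + ‖h x‖) := by
  classical
  set M : ℝ := (m : ℝ) + 1 with hM
  have hM1 : 1 ≤ M := by
    have : (0 : ℝ) ≤ m := Nat.cast_nonneg m
    linarith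
  have hM0 : 0 < M := by linarith
  set e : ℕ := intExp (Module.finrank ℂ E) k with he
  -- the scaled data
  set c0' : ℝ := min c0 1 / M with hc0'
  have hc0'0 : 0 < c0' := div_pos (lt_min hc0 one_pos) hM0
  have hc0'1 : c0' ≤ 1 := by
    rw [hc0', div_le_one hM0]
    exact (min_le_right _ _).trans hM1
  obtain ⟨C1, hC1, hmain⟩ := int_vec m q hρ hρc hV0 hχ hχm (fun x hx => hχV x hx.1 hx.2) hc0'0
    hc0'1 k
  set C : ℝ := max (max 1 c0) (max (2 * M * M) (C1 * M ^ e)) with hC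
  have hC1' : 1 ≤ C := (le_max_left _ _).trans (le_max_left _ _)
  have hCc0 : c0 ≤ C := (le_max_right _ _).trans (le_max_left _ _)
  have hCM : 2 * M * M ≤ C := (le_max_left _ _).trans (le_max_right _ _)
  have hCC : C1 * M ^ e ≤ C := (le_max_right _ _).trans (le_max_right _ _)
  have hC0 : 0 < C := by linarith
  refine ⟨C, hC1', ?_⟩
  intro y hy hy1 hylow c2 hc2 h hh B hB hhB
  have hc20 : 0 < c2 := hc2.1
  have hc2C : c2 < c0 / C := hc2.2
  set y' : E → (Fin m → ℂ) := fun x => ((M⁻¹ : ℝ) : ℂ) • y x with hy'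
  have hMi : 0 ≤ M⁻¹ := by positivity
  have hen : ∀ x, en (y' x) = M⁻¹ * en (y x) := fun x => IntExact_en_smul hMi (y x)
  have henle : ∀ x, en (y' x) ≤ ‖y x‖ := by
    intro x
    rw [hen]
    calc M⁻¹ * en (y x) ≤ M⁻¹ * (M * ‖y x‖) :=
          mul_le_mul_of_nonneg_left (IntExact_en_le _) hMi
      _ = ‖y x‖ := by field_simp
  have henge : ∀ x, ‖y x‖ / M ≤ en (y' x) := by
    intro x
    rw [hen, div_eq_inv_mul]
    exact mul_le_mul_of_nonneg_left (IntExact_norm_le _) hMi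
  set c2' : ℝ := c2 / M with hc2'
  have hc2'0 : 0 < c2' := by positivity
  have hc2min : c2 < min c0 1 := by
    rw [lt_div_iff₀ hC0] at hc2C
    refine lt_min ?_ ?_
    · have : c2 * 1 ≤ c2 * C := mul_le_mul_of_nonneg_left hC1' hc20.le
      linarith
    · by_contra hcon
      push Not at hcon
      have : 1 * C ≤ c2 * C := mul_le_mul_of_nonneg_right hcon hC0.le
      linarith
  have hc2'm : c2' ∈ Ioo (0 : ℝ) c0' := ⟨hc2'0, div_lt_div_of_pos_right hc2min hM0⟩
  have hyd : DifferentiableOn ℂ y' (V0 ∩ {x | ρ1 x < 1}) := DifferentiableOn.fun_const_smul hy _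
  have hseq : ∀ j : ℕ, ∃ H : E → (Fin q → ℂ), Differentiable ℂ H ∧
        (∀ x ∈ V0, ρ1 x < 1 / 4 → en (y' x) ≤ c2' / 2 →
          ‖H x - h x‖ ≤ C1 * (B + 1 / ((j : ℝ) + 1)) *
            (1 / c2') ^ (k + 2 * Module.finrank ℂ E + 1) *
            max (en (y' x)) (c2' / ((j : ℝ) + 1)) ^ k) ∧
        (∀ x, ρ1 x < 1 / 4 → (x ∉ V0 ∨ c2' < en (y' x)) →
          ‖H x‖ ≤ C1 * (B + 1 / ((j : ℝ) + 1)) *
            (1 / c2') ^ (k + 2 * Module.finrank ℂ E + 1)) ∧
        (∀ x ∈ V0, ρ1 x < 1 / 4 → en (y' x) ≤ c2' →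
          ‖H x‖ ≤ C1 * (B + 1 / ((j : ℝ) + 1)) *
            (1 / c2') ^ (k + 2 * Module.finrank ℂ E + 1) + ‖h x‖) := by
    intro j
    have hj : (0 : ℝ) ≤ j := Nat.cast_nonneg j
    refine hmain y' hyd ?_ ?_ c2' hc2'm (c2' / ((j : ℝ) + 1)) ⟨by positivity, ?_⟩ h B hB hh ?_
      (1 / ((j : ℝ) + 1)) (by positivity)
    · intro x hx hx1
      exact (henle x).trans (hy1 x hx hx1)
    · intro x hx hx1 hx2
      refine le_trans ?_ (henge x)
      exact div_le_div_of_nonneg_right ((min_le_left _ _).trans (hylow x hx hx1 hx2)) hM0.le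
    · exact div_le_self hc2'0.le (by linarith)
    · intro x hx hx1 h1 h2
      refine hhB x hx hx1 ?_ ?_
      · have h3 := h1.trans (henle x)
        refine le_trans ?_ h3
        rw [hc2', div_div]
        refine div_le_div_of_nonneg_left hc20.le (by positivity) ?_
        nlinarith
      · have h3 := (henge x).trans h2
        rw [hc2', div_le_div_iff_of_pos_right hM0] at h3
        exact h3
  choose H hHd hH1 hH2 hH3 using hseq
  set U : Set E := {x | ρ1 x < 1 / 4} with hU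
  have hUo : IsOpen U := isOpen_lt hρ.smooth.continuous continuous_const
  set Q : ℝ := C1 * (1 / c2') ^ (k + 2 * Module.finrank ℂ E + 1) with hQ
  have hQ0 : 0 ≤ Q := by positivity
  have hone : ∀ j : ℕ, (1 : ℝ) / ((j : ℝ) + 1) ≤ 1 := by
    intro j
    rw [div_le_one (by positivity)]
    have : (0 : ℝ) ≤ j := Nat.cast_nonneg j
    linarith
  have hbound : ∀ j x, ρ1 x < 1 / 4 → (x ∉ V0 ∨ c2' < en (y' x)) → ‖H j x‖ ≤ Q * (B + 1) := by
    intro j x hx1 hx2
    refine (hH2 j x hx1 hx2).trans ?_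
    have h1 := hone j
    calc C1 * (B + 1 / ((j : ℝ) + 1)) * (1 / c2') ^ (k + 2 * Module.finrank ℂ E + 1)
        = Q * (B + 1 / ((j : ℝ) + 1)) := by rw [hQ]; ring
      _ ≤ Q * (B + 1) := mul_le_mul_of_nonneg_left (by linarith) hQ0
  have hbound2 : ∀ j x, ρ1 x < 1 / 4 → x ∈ V0 → ‖H j x‖ ≤ Q * (B + 1) + ‖h x‖ := by
    intro j x hx1 hxV
    rcases le_or_gt (en (y' x)) c2' with h2 | h2
    · refine (hH3 j x hxV hx1 h2).trans ?_
      have h1 := hone j
      have h3 : C1 * (B + 1 / ((j : ℝ) + 1)) * (1 / c2') ^ (k + 2 * Module.finrank ℂ E + 1)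
          = Q * (B + 1 / ((j : ℝ) + 1)) := by rw [hQ]; ring
      have h4 : Q * (B + 1 / ((j : ℝ) + 1)) ≤ Q * (B + 1) :=
        mul_le_mul_of_nonneg_left (by linarith) hQ0
      linarith
    · have := hbound j x hx1 (Or.inr h2)
      have := norm_nonneg (h x)
      linarith
  obtain ⟨G, hG, hGlim⟩ := IntExact_montel (U := U) (fun j => (hHd j).differentiableOn) (by
    intro x hx
    have hx1 : ρ1 x < 1 / 4 := hx
    by_cases hxV : x ∈ V0
    · have hVo : IsOpen (V0 ∩ {x | ρ1 x < 1}) :=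
        hV0.inter (isOpen_lt hρ.smooth.continuous continuous_const)
      have hcon : ContinuousAt h x := (hh.differentiableAt (hVo.mem_nhds
        ⟨hxV, by show ρ1 x < 1; linarith⟩)).continuousAt
      have h1 : ∀ᶠ z in 𝓝 x, ‖h z‖ < ‖h x‖ + 1 := hcon.norm.eventually_lt_const (by linarith)
      obtain ⟨r, hr, hrs⟩ := Metric.mem_nhds_iff.1 (Filter.inter_mem h1
        ((hV0.inter hUo).mem_nhds ⟨hxV, hx⟩))
      refine ⟨r, hr, Q * (B + 1) + (‖h x‖ + 1), fun z hz => (hrs hz).2.2, fun j z hz => ?_⟩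
      have h2 := hrs hz
      have h3 : ‖h z‖ < ‖h x‖ + 1 := h2.1
      have h4 := hbound2 j z h2.2.2 h2.2.1
      linarith
    · have hxs : x ∉ tsupport χ1 := fun hs => hxV (hχV x hs (by linarith))
      have hso : IsOpen ((tsupport χ1)ᶜ) := (isClosed_tsupport χ1).isOpen_compl
      obtain ⟨r, hr, hrs⟩ := Metric.isOpen_iff.1 (hso.inter hUo) x ⟨hxs, hx⟩
      refine ⟨r, hr, Q * (B + 1), fun z hz => (hrs hz).2, fun j z hz => ?_⟩
      have hz1 : ρ1 z < 1 / 4 := (hrs hz).2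
      refine hbound j z hz1 ?_
      by_cases hzV : z ∈ V0
      · right
        have h2 : χ1 z = 0 := image_eq_zero_of_notMem_tsupport (hrs hz).1
        have h3 := hylow z hzV (by linarith) (by rw [h2]; exact one_pos)
        refine lt_of_lt_of_le ?_ (henge z)
        rw [hc2']
        refine div_lt_div_of_pos_right ?_ hM0
        exact lt_of_lt_of_le hc2min ((min_le_left _ _).trans h3)
      · exact Or.inl hzV)
  have hle18 : ∀ x, ρ1 x < 1 / 8 → ρ1 x < 1 / 4 := fun x hx => by linarith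
  -- limits of the bounds
  have hlim0 : Tendsto (fun j : ℕ => (1 : ℝ) / ((j : ℝ) + 1)) (hyperfilter ℕ : Filter ℕ) (𝓝 0) :=
    tendsto_one_div_add_atTop_nhds_zero_nat.mono_left Nat.hyperfilter_le_atTop
  have hlim1 : Tendsto (fun j : ℕ => C1 * (B + 1 / ((j : ℝ) + 1)) *
      (1 / c2') ^ (k + 2 * Module.finrank ℂ E + 1)) (hyperfilter ℕ : Filter ℕ)
      (𝓝 (C1 * B * (1 / c2') ^ (k + 2 * Module.finrank ℂ E + 1))) := by
    have h1 := ((hlim0.const_add B).const_mul C1).mul_const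
      ((1 / c2') ^ (k + 2 * Module.finrank ℂ E + 1))
    rw [add_zero] at h1
    exact h1
  have hfin : C1 * B * (1 / c2') ^ (k + 2 * Module.finrank ℂ E + 1) ≤ C * B * (1 / c2) ^ e := by
    have h1 : 1 / c2' = M * (1 / c2) := by rw [hc2']; field_simp
    have h2 : (1 / c2') ^ (k + 2 * Module.finrank ℂ E + 1) = M ^ e * (1 / c2) ^ e := by
      rw [h1, mul_pow, he, intExp]
    rw [h2]
    calc C1 * B * (M ^ e * (1 / c2) ^ e) = (C1 * M ^ e) * (B * (1 / c2) ^ e) := by ring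
      _ ≤ C * (B * (1 / c2) ^ e) := mul_le_mul_of_nonneg_right hCC (by positivity)
      _ = C * B * (1 / c2) ^ e := by ring
  have hr2 : ∀ x, ρ1 x < 1 / 8 → (x ∉ V0 ∨ c2' < en (y' x)) → ‖G x‖ ≤ C * B * (1 / c2) ^ e := by
    intro x hx hx2
    refine le_trans ?_ hfin
    exact le_of_tendsto_of_tendsto (hGlim x (hle18 x hx)).norm hlim1
      (Eventually.of_forall fun j => hH2 j x (hle18 x hx) hx2)
  refine ⟨G, hG.mono (fun x hx => hle18 x hx), ?_, ?_, ?_⟩
  · intro x hxV hx hxy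
    have hx2 : en (y' x) ≤ c2' / 2 := by
      refine (henle x).trans (hxy.trans ?_)
      rw [hc2', div_div]
      refine div_le_div_of_nonneg_left hc20.le (by positivity) ?_
      nlinarith
    have h1 : Tendsto (fun j : ℕ => c2' / ((j : ℝ) + 1)) (hyperfilter ℕ : Filter ℕ) (𝓝 0) := by
      have := hlim0.const_mul c2'
      rw [mul_zero] at this
      refine this.congr fun j => ?_
      ring
    have h2 : Tendsto (fun j : ℕ => max (en (y' x)) (c2' / ((j : ℝ) + 1)) ^ k)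
        (hyperfilter ℕ : Filter ℕ) (𝓝 (en (y' x) ^ k)) := by
      have h3 := (tendsto_const_nhds (x := en (y' x)) (f := (hyperfilter ℕ : Filter ℕ))).max h1
      rw [max_eq_left (IntExact_en_nonneg _)] at h3
      exact h3.pow k
    have h4 := le_of_tendsto_of_tendsto ((hGlim x (hle18 x hx)).sub_const (h x)).norm
      (hlim1.mul h2) (Eventually.of_forall fun j => hH1 j x hxV (hle18 x hx) hx2)
    refine h4.trans ?_
    have h5 : en (y' x) ^ k ≤ ‖y x‖ ^ k :=
      pow_le_pow_left₀ (IntExact_en_nonneg _) (henle x) k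
    exact mul_le_mul hfin h5 (pow_nonneg (IntExact_en_nonneg _) k) (by positivity)
  · intro x hx hx2
    refine hr2 x hx ?_
    rcases hx2 with h1 | h1
    · exact Or.inl h1
    · right
      refine lt_of_lt_of_le ?_ (henge x)
      exact div_lt_div_of_pos_right h1 hM0
  · intro x hxV hx _
    rcases le_or_gt (en (y' x)) c2' with h2 | h2
    · have h3 := le_of_tendsto_of_tendsto (hGlim x (hle18 x hx)).norm (hlim1.add_const ‖h x‖)
        (Eventually.of_forall fun j => hH3 j x hxV (hle18 x hx) h2)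
      exact h3.trans (by linarith [hfin])
    · have h3 := hr2 x hx (Or.inr h2)
      have h4 := norm_nonneg (h x)
      linarith

end OkaP
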