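import Pool.Agent.H.MP_ceb9a9.Loc
import Pool.Agent.H.MP_ceb9a9.IntExact
import Pool.Agent.H.MP_ceb9a9.Psh0

/-!
# MP_ceb9a9: the transport data over the convex set (independent of the global map)
-/

set_option autoImplicit false

open scoped Manifold

namespace OkaP

open Set Metric Topology

/-- interpolation with a uniform bound -/
theorem kside_int {E : Type} [NormedAddCommGroup E] [NormedSpace ℂ E] [FiniteDimensional ℂ E]
    (m k q : ℕ) {ρ1 : E → ℝ} (hρ : Psh ρ1) (hρc : IsCompact {x | ρ1 x ≤ 1})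
    {V0 : Set E} (hV0 : IsOpen V0) {χ1 : E → ℝ}
    (hχ : ContDiff ℝ ((⊤ : ℕ∞) : WithTop ℕ∞) χ1) (hχm : ∀ x, χ1 x ∈ Icc (0 : ℝ) 1)
    (hχV : ∀ x ∈ tsupport χ1, ρ1 x ≤ 1 → x ∈ V0) {c0 : ℝ} (hc0 : 0 < c0) (hc01 : c0 ≤ 1) :
    ∃ Q : ℝ, 1 ≤ Q ∧ ∀ y : E → (Fin m → ℂ), DifferentiableOn ℂ y (V0 ∩ {x | ρ1 x < 1}) →
      (∀ x ∈ V0, ρ1 x < 1 → ‖y x‖ ≤ 1) →
      (∀ x ∈ V0, ρ1 x < 1 → χ1 x < 1 → c0 ≤ ‖y x‖) →
      ∀ h : E → (Fin q → ℂ), DifferentiableOn ℂ h (V0 ∩ {x | ρ1 x < 1}) → ∀ B : ℝ, 0 ≤ B →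
      (∀ x ∈ V0, ρ1 x < 1 → ‖h x‖ ≤ B) →
      ∃ H : E → (Fin q → ℂ), DifferentiableOn ℂ H {x | ρ1 x < 1 / 8} ∧
        (∀ x, ρ1 x < 1 / 8 → ‖H x‖ ≤ Q * B) ∧
        (∀ x ∈ V0, ρ1 x < 1 / 8 → ‖H x - h x‖ ≤ Q * B * ‖y x‖ ^ k) := by
  obtain ⟨C, hC, hint⟩ := intExact m k q hρ hρc hV0 hχ hχm hχV hc0
  have hC0 : 0 < C := by linarith
  set c2 : ℝ := c0 / (2 * C) with hc2
  have hc2p : 0 < c2 := by positivity
  have hc2m : c2 ∈ Ioo (0 : ℝ) (c0 / C) := by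
    refine ⟨hc2p, ?_⟩
    rw [hc2]
    exact div_lt_div_of_pos_left hc0 hC0 (by linarith)
  set Q1 : ℝ := C * (1 / c2) ^ intExp (Module.finrank ℂ E) k with hQ1
  have hQ1p : 0 ≤ Q1 := by positivity
  have hcC : 1 ≤ C / c2 := by
    rw [le_div_iff₀ hc2p, one_mul, hc2, div_le_iff₀ (by positivity)]
    nlinarith
  have hpow : 1 ≤ (C / c2) ^ k := one_le_pow₀ hcC
  refine ⟨(Q1 + 2) * (C / c2) ^ k, ?_, ?_⟩
  · nlinarith
  intro y hy hy1 hyc h hh B hB hhB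
  obtain ⟨H, hH, h1, h2, h3⟩ := hint y hy hy1 hyc c2 hc2m h hh B hB
    (fun x hx hx1 _ _ => hhB x hx hx1)
  have hCB : C * B * (1 / c2) ^ intExp (Module.finrank ℂ E) k = Q1 * B := by rw [hQ1]; ring
  rw [hCB] at h1 h2 h3
  have hlt : ∀ x, ρ1 x < 1 / 8 → ρ1 x < 1 := fun x hx => by linarith
  have hbound : ∀ x, ρ1 x < 1 / 8 → ‖H x‖ ≤ (Q1 + 1) * B := by
    intro x hx
    by_cases hxV : x ∈ V0
    · rcases le_or_gt ‖y x‖ c2 with hy2 | hy2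
      · have h4 := h3 x hxV hx hy2
        have h5 := hhB x hxV (hlt x hx)
        calc ‖H x‖ ≤ Q1 * B + ‖h x‖ := h4
          _ ≤ Q1 * B + B := by linarith
          _ = (Q1 + 1) * B := by ring
      · have h4 := h2 x hx (Or.inr hy2)
        linarith
    · have h4 := h2 x hx (Or.inl hxV)
      linarith
  refine ⟨H, hH, fun x hx => ?_, fun x hxV hx => ?_⟩
  · calc ‖H x‖ ≤ (Q1 + 1) * B := hbound x hx
      _ ≤ (Q1 + 2) * B := by nlinarith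
      _ = (Q1 + 2) * 1 * B := by ring
      _ ≤ (Q1 + 2) * (C / c2) ^ k * B := by gcongr
  · rcases le_or_gt ‖y x‖ (c2 / C) with hy2 | hy2
    · calc ‖H x - h x‖ ≤ Q1 * B * ‖y x‖ ^ k := h1 x hxV hx hy2
        _ ≤ (Q1 + 2) * (C / c2) ^ k * B * ‖y x‖ ^ k := by
          have : Q1 * B ≤ (Q1 + 2) * (C / c2) ^ k * B := by
            refine mul_le_mul_of_nonneg_right ?_ hB
            calc Q1 ≤ (Q1 + 2) * 1 := by linarith
              _ ≤ (Q1 + 2) * (C / c2) ^ k := by gcongr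
          exact mul_le_mul_of_nonneg_right this (by positivity)
    · have h4 : ‖H x - h x‖ ≤ (Q1 + 2) * B := by
        calc ‖H x - h x‖ ≤ ‖H x‖ + ‖h x‖ := norm_sub_le _ _
          _ ≤ (Q1 + 1) * B + B := add_le_add (hbound x hx) (hhB x hxV (hlt x hx))
          _ = (Q1 + 2) * B := by ring
      have h5 : 1 ≤ C / c2 * ‖y x‖ := by
        rw [div_lt_iff₀ hC0] at hy2
        rw [div_mul_eq_mul_div, le_div_iff₀ hc2p]
        linarith
      have h6 : 1 ≤ (C / c2) ^ k * ‖y x‖ ^ k := by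
        rw [← mul_pow]
        exact one_le_pow₀ h5
      calc ‖H x - h x‖ ≤ (Q1 + 2) * B * 1 := by rw [mul_one]; exact h4
        _ ≤ (Q1 + 2) * B * ((C / c2) ^ k * ‖y x‖ ^ k) := by gcongr
        _ = (Q1 + 2) * (C / c2) ^ k * B * ‖y x‖ ^ k := by ring

/-- the weight on the product -/
theorem kside_psh {m : ℕ} {E : Type} [NormedAddCommGroup E] [NormedSpace ℂ E]
    {κ : E → ℝ} (hκ : Psh κ) (hκc : IsCompact {x | κ x ≤ 1})
    {r : ℝ} (hr : 0 < r) :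
    ∃ ρ : E × (Fin m → ℂ) → ℝ, Psh ρ ∧ IsCompact {q | ρ q ≤ 1} ∧
      (∀ q, ρ q ≤ 1 → κ q.1 < 25 / 32 ∧ ‖q.2‖ < r / 2) ∧
      (∀ q, κ q.1 < 5 / 8 → ‖q.2‖ < 2 * shr m r → ρ q < 1 / 8) := by
  have hcont : Continuous κ := hκ.smooth.continuous
  set N : (Fin m → ℂ) → ℝ := fun v => ∑ i, ‖v i‖ ^ 2 with hN
  have hNle : ∀ v : Fin m → ℂ, ‖v‖ ^ 2 ≤ N v := by
    intro v
    have h0 : 0 ≤ N v := Finset.sum_nonneg fun i _ => by positivity
    have h1 : ‖v‖ ≤ Real.sqrt (N v) := by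
      rw [pi_norm_le_iff_of_nonneg (Real.sqrt_nonneg _)]
      intro i
      apply Real.le_sqrt_of_sq_le
      exact Finset.single_le_sum (f := fun i => ‖v i‖ ^ 2) (fun i _ => by positivity)
        (Finset.mem_univ i)
    calc ‖v‖ ^ 2 ≤ Real.sqrt (N v) ^ 2 := by gcongr
      _ = N v := Real.sq_sqrt h0
  have hNge : ∀ v : Fin m → ℂ, N v ≤ m * ‖v‖ ^ 2 := by
    intro v
    calc N v ≤ ∑ _i : Fin m, ‖v‖ ^ 2 := Finset.sum_le_sum fun i _ => by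
          have := norm_le_pi_norm v i
          gcongr
      _ = m * ‖v‖ ^ 2 := by simp
  have hNpsh : Psh (fun q : E × (Fin m → ℂ) => N q.2) := by
    have h1 : (fun q : E × (Fin m → ℂ) => N q.2) =
        fun q => ∑ i ∈ Finset.univ, (fun z : ℂ => ‖z‖ ^ 2)
          (((ContinuousLinearMap.proj (R := ℂ) (φ := fun _ : Fin m => ℂ) i).comp
            (ContinuousLinearMap.snd ℂ E (Fin m → ℂ))) q) := rfl
    rw [h1]
    exact Psh.sum Finset.univ fun i _ => psh_normSq.comp_linear _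
  have hκpsh : Psh (fun q : E × (Fin m → ℂ) => κ q.1) :=
    hκ.comp_linear (ContinuousLinearMap.fst ℂ E (Fin m → ℂ))
  set a1 : ℝ := hc (5 / 32) with ha1
  have ha1p : 0 < a1 := hc_pos (by norm_num)
  set a2 : ℝ := hc (5 * r ^ 2 / 64) with ha2
  have ha2p : 0 < a2 := hc_pos (by positivity)
  set ρ : E × (Fin m → ℂ) → ℝ := fun q =>
    2 / a1 * hc (κ q.1 + (-(5 / 8))) + 2 / a2 * hc (N q.2 + (-(r / 4) ^ 2)) with hρ
  have hρpsh : Psh ρ := ((hκpsh.add_const _).hc_comp.const_mul (by positivity)).add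
    ((hNpsh.add_const _).hc_comp.const_mul (by positivity))
  have hkey : ∀ q, ρ q ≤ 1 → κ q.1 < 25 / 32 ∧ N q.2 < (3 * r / 8) ^ 2 := by
    intro q hq
    have h1 : 0 ≤ 2 / a1 * hc (κ q.1 + (-(5 / 8))) := mul_nonneg (by positivity) (hc_nonneg _)
    have h2 : 0 ≤ 2 / a2 * hc (N q.2 + (-(r / 4) ^ 2)) := mul_nonneg (by positivity) (hc_nonneg _)
    have h3 : 2 / a1 * hc (κ q.1 + (-(5 / 8))) + 2 / a2 * hc (N q.2 + (-(r / 4) ^ 2)) ≤ 1 := hq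
    constructor
    · by_contra hcon
      rw [not_lt] at hcon
      have h4 : a1 ≤ hc (κ q.1 + (-(5 / 8))) := hc_mono (by linarith)
      have h5 : 2 / a1 * a1 ≤ 2 / a1 * hc (κ q.1 + (-(5 / 8))) := by gcongr
      rw [div_mul_cancel₀ _ ha1p.ne'] at h5
      linarith
    · by_contra hcon
      rw [not_lt] at hcon
      have h4 : a2 ≤ hc (N q.2 + (-(r / 4) ^ 2)) := hc_mono (by nlinarith)
      have h5 : 2 / a2 * a2 ≤ 2 / a2 * hc (N q.2 + (-(r / 4) ^ 2)) := by gcongr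
      rw [div_mul_cancel₀ _ ha2p.ne'] at h5
      linarith
  have hkey2 : ∀ q, ρ q ≤ 1 → κ q.1 < 25 / 32 ∧ ‖q.2‖ < r / 2 := by
    intro q hq
    obtain ⟨h1, h2⟩ := hkey q hq
    refine ⟨h1, ?_⟩
    have h3 : ‖q.2‖ < 3 * r / 8 := lt_of_pow_lt_pow_left₀ 2 (by positivity)
      ((hNle q.2).trans_lt h2)
    linarith
  refine ⟨ρ, hρpsh, ?_, hkey2, ?_⟩
  · refine (hκc.prod (isCompact_closedBall (0 : Fin m → ℂ) (r / 2))).of_isClosed_subset
      (isClosed_le hρpsh.smooth.continuous continuous_const) ?_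
    intro q hq
    obtain ⟨h1, h2⟩ := hkey2 q hq
    refine ⟨?_, ?_⟩
    · show κ q.1 ≤ 1
      linarith
    · rw [mem_closedBall_zero_iff]
      exact h2.le
  · intro q h1 h2
    have h3 : N q.2 ≤ (r / 4) ^ 2 := by
      have h4 : ‖q.2‖ ^ 2 ≤ (2 * shr m r) ^ 2 := by gcongr
      have h5 : (m : ℝ) * (2 * shr m r) ^ 2 ≤ (r / 4) ^ 2 := by
        have h6 : 2 * shr m r = (r / 4) / (m + 1) := by
          unfold shr
          field_simp
          norm_num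
        rw [h6, div_pow, mul_div_assoc', div_le_iff₀ (by positivity)]
        have h7 : (m : ℝ) ≤ ((m : ℝ) + 1) ^ 2 := by nlinarith [sq_nonneg (m : ℝ), (Nat.cast_nonneg m : (0 : ℝ) ≤ m)]
        nlinarith [sq_nonneg (r / 4)]
      calc N q.2 ≤ m * ‖q.2‖ ^ 2 := hNge q.2
        _ ≤ m * (2 * shr m r) ^ 2 := by gcongr
        _ ≤ (r / 4) ^ 2 := h5
    have h4 : ρ q = 0 := by
      show 2 / a1 * hc (κ q.1 + (-(5 / 8))) + 2 / a2 * hc (N q.2 + (-(r / 4) ^ 2)) = 0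
      rw [hc_zero (by linarith), hc_zero (by linarith)]
      ring
    rw [h4]
    norm_num

/-- data comparing two maps `f1`, `f2` close to `fs`: `tK` moves `f1` to `f2` near the
`p`-locus, `W` is the extension of the transport to the whole convex set. -/
structure KSideData {m : ℕ} {X : Type} [MetricSpace X] [ChartedSpace (Fin m → ℂ) X] {p : X}
    {S : SigmaData m p} {E : Type} [NormedAddCommGroup E] [NormedSpace ℂ E] {κ : E → ℝ}
    {fs : E → X} (D : LocData S {x | κ x ≤ 1} fs) (f1 f2 : E → X) (k : ℕ) (η : ℝ) where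
  tK : E → (Fin m → ℂ)
  c1f : E → (Fin m → ℂ)
  c2f : E → (Fin m → ℂ)
  W : E × (Fin m → ℂ) → (Fin m → ℂ)
  tK_hol : DifferentiableOn ℂ tK {x | κ x < 5 / 8}
  tK_le : ∀ x, κ x < 5 / 8 → ‖tK x‖ ≤ η
  c1f_hol : DifferentiableOn ℂ c1f {x | κ x < 5 / 8}
  c2f_hol : DifferentiableOn ℂ c2f {x | κ x < 5 / 8}
  c1f_spec : ∀ x, κ x < 5 / 8 → ‖c1f x‖ ≤ η ∧ D.Φ (x, c1f x) = f1 x
  c2f_spec : ∀ x, κ x < 5 / 8 → ‖c2f x‖ ≤ η ∧ D.Φ (x, c2f x) = f2 x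
  f_near : ∀ x, κ x < 5 / 8 → x ∈ D.V D.c1 → f1 x ∈ S.e.source ∧ f2 x ∈ S.e.source ∧
    ‖S.e (f1 x) - S.e (fs x)‖ ≤ η ∧ ‖S.e (f2 x) - S.e (fs x)‖ ≤ η
  W_hol : DifferentiableOn ℂ W ({x | κ x < 5 / 8} ×ˢ ball (0 : Fin m → ℂ) (shr m D.r1))
  W_le : ∀ x, κ x < 5 / 8 → ∀ v ∈ ball (0 : Fin m → ℂ) (shr m D.r1), ‖W (x, v)‖ ≤ η
  W_c : ∀ x, κ x < 5 / 8 → W (x, c1f x) = c2f x - c1f x
  tK_contact : ∀ x, κ x < 5 / 8 → x ∈ D.V (D.c1 / 2) →
    ‖S.e (f1 x) - S.e (f2 x) - tK x‖ ≤ η * ‖S.e (f2 x)‖ ^ k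
  W_contact : ∀ x, κ x < 5 / 8 → x ∈ D.V (D.c1 / 2) →
    ∀ v ∈ ball (0 : Fin m → ℂ) (shr m D.r1),
      ‖D.G (x, S.e (D.Φ (x, v)) - tK x) - v - W (x, v)‖ ≤ η * ‖S.e (f2 x)‖ ^ k

/-- the cutoff function -/
theorem kside_cut {m : ℕ} {X : Type} [MetricSpace X] [ChartedSpace (Fin m → ℂ) X] {p : X}
    {S : SigmaData m p} {E : Type} [NormedAddCommGroup E] [NormedSpace ℂ E]
    [FiniteDimensional ℂ E] {κ : E → ℝ} (hκ : Continuous κ)
    (hκc : IsCompact {x | κ x ≤ 1}) {fs : E → X} (D : LocData S {x | κ x ≤ 1} fs) :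
    ∃ χ : E → ℝ, ContDiff ℝ ((⊤ : ℕ∞) : WithTop ℕ∞) χ ∧ (∀ x, χ x ∈ Icc (0 : ℝ) 1) ∧
      (∀ x ∈ tsupport χ, κ x ≤ 1 → x ∈ D.V D.c1) ∧
      (∀ x ∈ D.V D.c1, κ x ≤ 1 → χ x < 1 → D.c1 / 2 < ‖S.e (fs x)‖) := by
  have hprop : ProperSpace E := FiniteDimensional.proper ℂ E
  have hc1 := D.c1_pos
  have hc1l := D.c1_le
  have hSc := S.c_pos
  have hfc : ContinuousOn fs {x | κ x ≤ 1} := (HolOn.continuousOn D.fs_hol).mono D.K_U
  have hcl : IsClosed {x : E | κ x ≤ 1} := isClosed_le hκ continuous_const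
  have hs : IsClosed ({x : E | κ x ≤ 1} \ D.V D.c1) := by
    rw [sdiff_eq]
    exact hcl.inter (D.V_open D.c1).isClosed_compl
  have hcomp : IsCompact (S.e.symm '' closedBall (0 : Fin m → ℂ) (D.c1 / 2)) := by
    refine (isCompact_closedBall _ _).image_of_continuousOn (S.e.continuousOn_symm.mono ?_)
    refine Subset.trans ?_ S.target
    intro z hz
    rw [mem_closedBall_zero_iff] at hz
    rw [mem_ball_zero_iff]
    linarith
  have hmem : ∀ y, y ∈ S.e.symm '' closedBall (0 : Fin m → ℂ) (D.c1 / 2) ↔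
      y ∈ S.e.source ∧ ‖S.e y‖ ≤ D.c1 / 2 := by
    intro y
    constructor
    · rintro ⟨z, hz, rfl⟩
      rw [mem_closedBall_zero_iff] at hz
      have hzt : z ∈ S.e.target := S.target (by rw [mem_ball_zero_iff]; linarith)
      refine ⟨S.e.map_target hzt, ?_⟩
      rw [S.e.right_inv hzt]
      exact hz
    · rintro ⟨h1, h2⟩
      exact ⟨S.e y, by rw [mem_closedBall_zero_iff]; exact h2, S.e.left_inv h1⟩
  have ht : IsClosed ({x : E | κ x ≤ 1} ∩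
      fs ⁻¹' (S.e.symm '' closedBall (0 : Fin m → ℂ) (D.c1 / 2))) :=
    hfc.preimage_isClosed_of_isClosed hcl hcomp.isClosed
  have hd : Disjoint ({x : E | κ x ≤ 1} \ D.V D.c1) ({x : E | κ x ≤ 1} ∩
      fs ⁻¹' (S.e.symm '' closedBall (0 : Fin m → ℂ) (D.c1 / 2))) := by
    rw [Set.disjoint_left]
    rintro x ⟨h1, h2⟩ ⟨h3, h4⟩
    apply h2
    obtain ⟨h5, h6⟩ := (hmem (fs x)).1 h4
    exact ⟨D.K_U h1, h5, by linarith⟩
  obtain ⟨f, hf0, hf1, hf⟩ := exists_contMDiffMap_zero_one_nhds_of_isClosed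
    (I := 𝓘(ℝ, E)) (n := (⊤ : ℕ∞)) hs ht hd
  refine ⟨f, contMDiff_iff_contDiff.1 f.contMDiff, hf, ?_, ?_⟩
  · intro x hx hxk
    by_contra hcon
    have hxs : x ∈ {x : E | κ x ≤ 1} \ D.V D.c1 := ⟨hxk, hcon⟩
    have h1 : ∀ᶠ y in 𝓝 x, f y = 0 := Filter.Eventually.filter_mono (nhds_le_nhdsSet hxs) hf0
    have h2 : x ∉ tsupport f := by
      rw [notMem_tsupport_iff_eventuallyEq]
      exact h1
    exact h2 hx
  · intro x hx hxk hx1
    by_contra hcon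
    rw [not_lt] at hcon
    have h1 : x ∈ {x : E | κ x ≤ 1} ∩
        fs ⁻¹' (S.e.symm '' closedBall (0 : Fin m → ℂ) (D.c1 / 2)) :=
      ⟨hxk, (hmem (fs x)).2 ⟨hx.2.1, hcon⟩⟩
    have h2 : f x = 1 := hf1.self_of_nhdsSet x h1
    linarith

theorem exists_kside {m : ℕ} {X : Type} [MetricSpace X] [ChartedSpace (Fin m → ℂ) X]
    [IsManifold 𝓘(ℂ, Fin m → ℂ) ⊤ X] {p : X} {S : SigmaData m p} {E : Type}
    [NormedAddCommGroup E] [NormedSpace ℂ E] [FiniteDimensional ℂ E] {κ : E → ℝ} (hκ : Psh κ)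
    (hκc : IsCompact {x | κ x ≤ 1}) {fs : E → X} (D : LocData S {x | κ x ≤ 1} fs) (k : ℕ)
    {η : ℝ} (hη : 0 < η) :
    ∃ δ > 0, ∀ (f1 f2 : E → X) (Uf : Set E), IsOpen Uf → {x | κ x ≤ 1} ⊆ Uf → HolOn m f1 Uf →
      HolOn m f2 Uf → (∀ x, κ x ≤ 1 → dist (f1 x) (fs x) < δ ∧ dist (f2 x) (fs x) < δ) →
      Nonempty (KSideData D f1 f2 k η) := by
  have hκcont : Continuous κ := hκ.smooth.continuous
  have hc1 := D.c1_pos
  have hc1l := D.c1_le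
  have hc1o := D.c1_one
  have hSc := S.c_pos
  have hr0 := D.r0_pos
  have hr1 := D.r1_pos
  have hr1l := D.r1_le
  have hL := D.L_ge
  have hL0 : 0 < D.L := by linarith
  have hshr : 0 < shr m D.r1 := by unfold shr; positivity
  have hshr1 : shr m D.r1 ≤ D.r1 / 8 := by
    unfold shr
    apply div_le_div_of_nonneg_left hr1.le (by norm_num)
    have : (0 : ℝ) ≤ m := Nat.cast_nonneg m
    linarith
  obtain ⟨χ, hχs, hχm, hχV, hχ1⟩ := kside_cut hκcont hκc D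
  -- first interpolation
  have hρ1 : Psh (fun x => 4 * κ x + (-3)) := (hκ.const_mul (by norm_num)).add_const _
  have hρ1c : IsCompact {x | 4 * κ x + (-3) ≤ 1} := by
    convert hκc using 1
    ext x
    simp only [mem_ofPred_eq]
    constructor <;> intro h <;> linarith
  obtain ⟨Q, hQ, hint⟩ := kside_int m k m hρ1 hρ1c (D.V_open D.c1) hχs hχm
    (fun x hx hx1 => hχV x hx (by linarith)) (c0 := D.c1 / 4) (by positivity) (by linarith)
  -- second interpolation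
  obtain ⟨ρ, hρ, hρc, hρ1', hρ2⟩ := kside_psh (m := m) hκ hκc hr1
  have hχs' : ContDiff ℝ ((⊤ : ℕ∞) : WithTop ℕ∞) (fun q : E × (Fin m → ℂ) => χ q.1) :=
    hχs.comp contDiff_fst
  obtain ⟨Q', hQ', hint'⟩ := kside_int m k m hρ hρc ((D.V_open D.c1).prod isOpen_univ)
    (χ1 := fun q : E × (Fin m → ℂ) => χ q.1) hχs' (fun q => hχm q.1)
    (fun q hq hq1 => ⟨hχV q.1 (by
      have h1 : tsupport (fun q : E × (Fin m → ℂ) => χ q.1) ⊆ Prod.fst ⁻¹' tsupport χ :=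
        closure_minimal (fun q hq => subset_tsupport _ hq)
          ((isClosed_tsupport _).preimage continuous_fst)
      exact h1 hq) (by have := (hρ1' q hq1).1; linarith), mem_univ _⟩)
    (c0 := D.c1 / 4) (by positivity) (by linarith)
  -- choice of the small parameter
  have hQ0 : 0 < Q := by linarith
  have hQ'0 : 0 < Q' := by linarith
  obtain ⟨T, hT⟩ : ∃ T : ℝ, T = 2 + 2 * Q + 2 * (D.L * Q) + 8 * (D.L * Q * Q') := ⟨_, rfl⟩
  have hLQ : 0 < D.L * Q := by positivity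
  have hLQQ : 0 < D.L * Q * Q' := by positivity
  have hT0 : 0 < T := by rw [hT]; positivity
  obtain ⟨ε, hε, hεη, hεc, hεr⟩ : ∃ ε : ℝ, 0 < ε ∧ T * ε ≤ η ∧ T * ε ≤ D.c1 / 4 ∧
      T * ε ≤ shr m D.r1 := by
    refine ⟨min η (min (D.c1 / 4) (shr m D.r1)) / T, by positivity, ?_, ?_, ?_⟩
    · rw [mul_div_cancel₀ _ hT0.ne']; exact min_le_left _ _
    · rw [mul_div_cancel₀ _ hT0.ne']; exact (min_le_right _ _).trans (min_le_left _ _)
    · rw [mul_div_cancel₀ _ hT0.ne']; exact (min_le_right _ _).trans (min_le_right _ _)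
  have hTε : T * ε = 2 * ε + 2 * Q * ε + 2 * (D.L * Q * ε) + 8 * (D.L * Q * Q' * ε) := by
    rw [hT]; ring
  have hp1 : 0 < Q * ε := by positivity
  have hp2 : 0 < D.L * Q * ε := by positivity
  have hp3 : 0 < D.L * Q * Q' * ε := by positivity
  -- closeness
  have htarget : closedBall (0 : Fin m → ℂ) D.c1 ⊆ S.e.target := by
    refine Subset.trans ?_ S.target
    intro z hz
    rw [mem_closedBall_zero_iff] at hz
    rw [mem_ball_zero_iff]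
    linarith
  have hcompact : IsCompact (S.e.symm '' closedBall (0 : Fin m → ℂ) D.c1) :=
    (isCompact_closedBall _ _).image_of_continuousOn (S.e.continuousOn_symm.mono htarget)
  have hsource : S.e.symm '' closedBall (0 : Fin m → ℂ) D.c1 ⊆ S.e.source := by
    rintro _ ⟨z, hz, rfl⟩
    exact S.e.map_target (htarget hz)
  obtain ⟨δ1, hδ1, hnear⟩ := D.hol.near_map hr0 D.U_open hκc D.K_U hε
  obtain ⟨δ2, hδ2, hch⟩ := chart_near S.e hcompact hsource hε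
  refine ⟨min δ1 δ2, lt_min hδ1 hδ2, ?_⟩
  intro f1 f2 Uf hUf hKU hf1 hf2 hd
  have hKW : ∀ x, κ x < 1 → x ∈ {x | κ x ≤ 1} := fun x hx => le_of_lt hx
  have hV1 : IsOpen {x | κ x < 1} := isOpen_lt hκcont continuous_const
  have hbase : ∀ x, κ x ≤ 1 → D.Φ (x, 0) = fs x := fun x hx => D.base x (D.K_U hx)
  obtain ⟨c1, hc1d, hc1s⟩ := hnear {x | κ x < 1} f1 hV1 (fun x hx => hKW x hx)
    (hf1.mono ((fun x hx => hKU (hKW x hx)))) (fun x hx => by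
      rw [hbase x (hKW x hx), dist_comm]
      exact (hd x (hKW x hx)).1.trans_le (min_le_left _ _))
  obtain ⟨c2, hc2d, hc2s⟩ := hnear {x | κ x < 1} f2 hV1 (fun x hx => hKW x hx)
    (hf2.mono ((fun x hx => hKU (hKW x hx)))) (fun x hx => by
      rw [hbase x (hKW x hx), dist_comm]
      exact (hd x (hKW x hx)).2.trans_le (min_le_left _ _))
  have hfn : ∀ x, κ x ≤ 1 → x ∈ D.V D.c1 → (f1 x ∈ S.e.source ∧ ‖S.e (fs x) - S.e (f1 x)‖ < ε) ∧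
      (f2 x ∈ S.e.source ∧ ‖S.e (fs x) - S.e (f2 x)‖ < ε) := by
    intro x hx hxV
    have hmem : fs x ∈ S.e.symm '' closedBall (0 : Fin m → ℂ) D.c1 :=
      ⟨S.e (fs x), by rw [mem_closedBall_zero_iff]; exact hxV.2.2.le, S.e.left_inv hxV.2.1⟩
    refine ⟨hch (fs x) hmem (f1 x) ?_, hch (fs x) hmem (f2 x) ?_⟩
    · rw [dist_comm]; exact (hd x hx).1.trans_le (min_le_right _ _)
    · rw [dist_comm]; exact (hd x hx).2.trans_le (min_le_right _ _)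
  have hy2b : ∀ x, κ x ≤ 1 → x ∈ D.V D.c1 → ‖S.e (f2 x)‖ < 5 / 4 * D.c1 := by
    intro x hx hxV
    have h1 := (hfn x hx hxV).2.2
    have h2 := hxV.2.2
    have h3 : ‖S.e (f2 x)‖ ≤ ‖S.e (fs x)‖ + ‖S.e (fs x) - S.e (f2 x)‖ := by
      rw [norm_sub_rev]
      exact norm_le_norm_add_norm_sub' _ _
    linarith
  have hy1b : ∀ x, κ x ≤ 1 → x ∈ D.V D.c1 → ‖S.e (f1 x)‖ < 5 / 4 * D.c1 := by
    intro x hx hxV
    have h1 := (hfn x hx hxV).1.2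
    have h2 := hxV.2.2
    have h3 : ‖S.e (f1 x)‖ ≤ ‖S.e (fs x)‖ + ‖S.e (fs x) - S.e (f1 x)‖ := by
      rw [norm_sub_rev]
      exact norm_le_norm_add_norm_sub' _ _
    linarith
  have hy12 : ∀ x, κ x ≤ 1 → x ∈ D.V D.c1 → ‖S.e (f1 x) - S.e (f2 x)‖ ≤ 2 * ε := by
    intro x hx hxV
    have h1 := (hfn x hx hxV).1.2
    have h2 := (hfn x hx hxV).2.2
    calc ‖S.e (f1 x) - S.e (f2 x)‖ = ‖(S.e (fs x) - S.e (f2 x)) - (S.e (fs x) - S.e (f1 x))‖ := by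
          congr 1; abel
      _ ≤ ‖S.e (fs x) - S.e (f2 x)‖ + ‖S.e (fs x) - S.e (f1 x)‖ := norm_sub_le _ _
      _ ≤ 2 * ε := by linarith
  have hy1d : DifferentiableOn ℂ (fun x => S.e (f1 x)) (D.V D.c1 ∩ {x | κ x ≤ 1}) :=
    (hf1.hchart S.chart).mono (fun x hx => ⟨hKU hx.2, (hfn x hx.2 hx.1).1.1⟩)
  have hy2d : DifferentiableOn ℂ (fun x => S.e (f2 x)) (D.V D.c1 ∩ {x | κ x ≤ 1}) :=
    (hf2.hchart S.chart).mono (fun x hx => ⟨hKU hx.2, (hfn x hx.2 hx.1).2.1⟩)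
  have hsub1 : D.V D.c1 ∩ {x | 4 * κ x + (-3) < 1} ⊆ D.V D.c1 ∩ {x | κ x ≤ 1} := by
    rintro x ⟨h1, h2⟩
    refine ⟨h1, ?_⟩
    rw [mem_ofPred_eq] at h2 ⊢
    linarith
  obtain ⟨tK, htKd, htKb, htKc⟩ := hint (fun x => S.e (f2 x)) (hy2d.mono hsub1)
    (fun x hx hx1 => by
      have := hy2b x (by linarith) hx
      linarith)
    (fun x hx hx1 hx2 => by
      have h1 := hχ1 x hx (by linarith) hx2
      have h2 := (hfn x (by linarith) hx).2.2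
      have h3 : ‖S.e (fs x)‖ ≤ ‖S.e (f2 x)‖ + ‖S.e (fs x) - S.e (f2 x)‖ :=
        norm_le_norm_add_norm_sub' _ _
      linarith)
    (fun x => S.e (f1 x) - S.e (f2 x)) ((hy1d.mono hsub1).sub (hy2d.mono hsub1)) (2 * ε)
    (by positivity) (fun x hx hx1 => hy12 x (by linarith) hx)
  have htKb' : ∀ x, κ x < 25 / 32 → ‖tK x‖ ≤ 2 * Q * ε := by
    intro x hx
    have := htKb x (by linarith)
    linarith
  have htKc' : ∀ x ∈ D.V D.c1, κ x < 25 / 32 →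
      ‖S.e (f1 x) - S.e (f2 x) - tK x‖ ≤ 2 * Q * ε * ‖S.e (f2 x)‖ ^ k := by
    intro x hxV hx
    have h1 := htKc x hxV (by linarith)
    rw [norm_sub_rev]
    calc ‖tK x - (S.e (f1 x) - S.e (f2 x))‖ ≤ Q * (2 * ε) * ‖S.e (f2 x)‖ ^ k := h1
      _ = 2 * Q * ε * ‖S.e (f2 x)‖ ^ k := by ring
  have htKd' : DifferentiableOn ℂ tK {x | κ x < 25 / 32} := by
    refine htKd.mono fun x hx => ?_
    rw [mem_ofPred_eq] at hx ⊢
    linarith
  -- the transport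
  have hVset : ∀ x, x ∈ D.V D.c1 → x ∈ {x | x ∈ D.U ∧ fs x ∈ S.e.source ∧ ‖S.e (fs x)‖ < D.c1} :=
    fun x hx => hx
  have hZ : ∀ x ∈ D.V D.c1, ∀ v ∈ ball (0 : Fin m → ℂ) D.r1, ‖S.e (D.Φ (x, v))‖ < 2 * D.c1 :=
    fun x hx v hv => (D.Z_spec x hx.1 hx.2.1 hx.2.2 v hv).2
  have harg : ∀ x ∈ D.V D.c1, κ x < 25 / 32 → ∀ v ∈ ball (0 : Fin m → ℂ) D.r1,
      S.e (D.Φ (x, v)) - tK x ∈ ball (0 : Fin m → ℂ) (3 * D.c1) := by
    intro x hxV hx v hv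
    rw [mem_ball_zero_iff]
    have h1 := hZ x hxV v hv
    have h2 := htKb' x hx
    have h3 := norm_sub_le (S.e (D.Φ (x, v))) (tK x)
    linarith
  obtain ⟨q0, hq0⟩ : ∃ q0 : E × (Fin m → ℂ) → (Fin m → ℂ),
      q0 = fun q => D.G (q.1, S.e (D.Φ q) - tK q.1) := ⟨_, rfl⟩
  have hq0d : DifferentiableOn ℂ q0
      ((D.V D.c1 ∩ {x | κ x < 25 / 32}) ×ˢ ball (0 : Fin m → ℂ) D.r1) := by
    rw [hq0]
    have h1 : DifferentiableOn ℂ (fun q : E × (Fin m → ℂ) => (q.1, S.e (D.Φ q) - tK q.1))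
        ((D.V D.c1 ∩ {x | κ x < 25 / 32}) ×ˢ ball (0 : Fin m → ℂ) D.r1) := by
      refine differentiableOn_fst.prodMk (DifferentiableOn.sub ?_ ?_)
      · exact D.Z_hol.mono (prod_mono inter_subset_left Subset.rfl)
      · exact htKd'.comp differentiableOn_fst (fun q hq => hq.1.2)
    refine D.G_hol.comp h1 ?_
    rintro ⟨x, v⟩ ⟨⟨h2, h3⟩, h4⟩
    exact ⟨h2, ball_subset_ball (by linarith) (harg x h2 h3 v h4)⟩
  have hq0b : ∀ x ∈ D.V D.c1, κ x < 25 / 32 → ∀ v ∈ ball (0 : Fin m → ℂ) D.r1,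
      ‖q0 (x, v) - v‖ ≤ 2 * (D.L * Q * ε) := by
    intro x hxV hx v hv
    have h1 := D.G_lip x hxV.1 hxV.2.1 hxV.2.2 _ (harg x hxV hx v hv) (S.e (D.Φ (x, v)))
      (by rw [mem_ball_zero_iff]; have := hZ x hxV v hv; linarith)
    rw [D.G_Z hxV hv] at h1
    have h2 : q0 (x, v) = D.G (x, S.e (D.Φ (x, v)) - tK x) := by rw [hq0]
    rw [h2]
    calc ‖D.G (x, S.e (D.Φ (x, v)) - tK x) - v‖ ≤
          D.L * ‖S.e (D.Φ (x, v)) - tK x - S.e (D.Φ (x, v))‖ := h1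
      _ = D.L * ‖tK x‖ := by
        congr 1
        rw [sub_sub_cancel_left, norm_neg]
      _ ≤ D.L * (2 * Q * ε) := mul_le_mul_of_nonneg_left (htKb' x hx) hL0.le
      _ = 2 * (D.L * Q * ε) := by ring
  obtain ⟨w1, hw1⟩ : ∃ w1 : E × (Fin m → ℂ) → (Fin m → ℂ),
      w1 = fun q => q0 (q.1, c1 q.1 + q.2) - q0 (q.1, c1 q.1) - q.2 := ⟨_, rfl⟩
  have hc1b : ∀ x, κ x < 1 → ‖c1 x‖ < ε := fun x hx => (hc1s x hx).2.1
  have hc2b : ∀ x, κ x < 1 → ‖c2 x‖ < ε := fun x hx => (hc2s x hx).2.1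
  have hc1m : ∀ x, κ x < 1 → c1 x ∈ ball (0 : Fin m → ℂ) D.r1 := by
    intro x hx
    rw [mem_ball_zero_iff]
    have := hc1b x hx
    linarith
  have hc2m : ∀ x, κ x < 1 → c2 x ∈ ball (0 : Fin m → ℂ) D.r1 := by
    intro x hx
    rw [mem_ball_zero_iff]
    have := hc2b x hx
    linarith
  have hcm : ∀ x, κ x < 1 → ∀ v : Fin m → ℂ, ‖v‖ < D.r1 / 2 →
      c1 x + v ∈ ball (0 : Fin m → ℂ) D.r1 := by
    intro x hx v hv
    rw [mem_ball_zero_iff]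
    have h1 := hc1b x hx
    have h2 := norm_add_le (c1 x) v
    linarith
  have hreg : ∀ q ∈ (D.V D.c1 ×ˢ (univ : Set (Fin m → ℂ))) ∩ {q | ρ q < 1},
      q.1 ∈ D.V D.c1 ∧ κ q.1 < 25 / 32 ∧ ‖q.2‖ < D.r1 / 2 := by
    rintro q ⟨h1, h2⟩
    have h3 := hρ1' q (le_of_lt h2)
    exact ⟨h1.1, h3.1, h3.2⟩
  have hw1d : DifferentiableOn ℂ w1 ((D.V D.c1 ×ˢ (univ : Set (Fin m → ℂ))) ∩ {q | ρ q < 1}) := by
    rw [hw1]
    have hc1c : DifferentiableOn ℂ (fun q : E × (Fin m → ℂ) => c1 q.1)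
        ((D.V D.c1 ×ˢ (univ : Set (Fin m → ℂ))) ∩ {q | ρ q < 1}) :=
      hc1d.comp differentiableOn_fst (fun q hq => by
        have := (hreg q hq).2.1
        rw [mem_ofPred_eq]
        linarith)
    refine (DifferentiableOn.sub ?_ ?_).sub differentiableOn_snd
    · refine hq0d.comp (differentiableOn_fst.prodMk (hc1c.add differentiableOn_snd)) ?_
      intro q hq
      obtain ⟨h1, h2, h3⟩ := hreg q hq
      exact ⟨⟨h1, h2⟩, hcm q.1 (by linarith) q.2 h3⟩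
    · refine hq0d.comp (differentiableOn_fst.prodMk hc1c) ?_
      intro q hq
      obtain ⟨h1, h2, h3⟩ := hreg q hq
      exact ⟨⟨h1, h2⟩, hc1m q.1 (by linarith)⟩
  have hw1b : ∀ q ∈ D.V D.c1 ×ˢ (univ : Set (Fin m → ℂ)), ρ q < 1 →
      ‖w1 q‖ ≤ 4 * (D.L * Q * ε) := by
    intro q hq hq1
    obtain ⟨h1, h2, h3⟩ := hreg q ⟨hq, hq1⟩
    have h4 := hq0b q.1 h1 h2 (c1 q.1 + q.2) (hcm q.1 (by linarith) q.2 h3)
    have h5 := hq0b q.1 h1 h2 (c1 q.1) (hc1m q.1 (by linarith))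
    have h6 : w1 q = (q0 (q.1, c1 q.1 + q.2) - (c1 q.1 + q.2)) - (q0 (q.1, c1 q.1) - c1 q.1) := by
      rw [hw1]
      show q0 (q.1, c1 q.1 + q.2) - q0 (q.1, c1 q.1) - q.2 = _
      abel
    rw [h6]
    have h7 := norm_sub_le (q0 (q.1, c1 q.1 + q.2) - (c1 q.1 + q.2)) (q0 (q.1, c1 q.1) - c1 q.1)
    linarith
  obtain ⟨W1, hW1d, hW1b, hW1c⟩ := hint' (fun q => S.e (f2 q.1))
    (hy2d.comp differentiableOn_fst (fun q hq => by
      obtain ⟨h1, h2, h3⟩ := hreg q hq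
      refine ⟨h1, ?_⟩
      rw [mem_ofPred_eq]
      linarith))
    (fun q hq hq1 => by
      obtain ⟨h1, h2, h3⟩ := hreg q ⟨hq, hq1⟩
      have := hy2b q.1 (by linarith) h1
      linarith)
    (fun q hq hq1 hq2 => by
      obtain ⟨h1, h2, h3⟩ := hreg q ⟨hq, hq1⟩
      have h4 := hχ1 q.1 h1 (by linarith) hq2
      have h5 := (hfn q.1 (by linarith) h1).2.2
      have h6 : ‖S.e (fs q.1)‖ ≤ ‖S.e (f2 q.1)‖ + ‖S.e (fs q.1) - S.e (f2 q.1)‖ :=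
        norm_le_norm_add_norm_sub' _ _
      linarith)
    w1 hw1d (4 * (D.L * Q * ε)) (by positivity) hw1b
  have hsmall : ∀ x, κ x < 5 / 8 → ∀ v : Fin m → ℂ, ‖v‖ < shr m D.r1 →
      ρ (x, v - c1 x) < 1 / 8 ∧ ρ (x, 0) < 1 / 8 ∧ ‖v - c1 x‖ < D.r1 / 2 := by
    intro x hx v hv
    have h1 := hc1b x (by linarith)
    have h2 := norm_sub_le v (c1 x)
    have h3 : ‖v - c1 x‖ < 2 * shr m D.r1 := by linarith
    refine ⟨hρ2 (x, v - c1 x) hx h3, hρ2 (x, 0) hx ?_, by linarith⟩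
    show ‖(0 : Fin m → ℂ)‖ < 2 * shr m D.r1
    rw [norm_zero]
    linarith
  have hlt : ∀ x, κ x < 5 / 8 → κ x < 1 := fun x hx => by linarith
  have hlt' : ∀ x, κ x < 5 / 8 → κ x < 25 / 32 := fun x hx => by linarith
  have hlt'' : {x | κ x < 5 / 8} ⊆ {x | κ x < 1} := fun x hx => hlt x hx
  have hVhalf : ∀ x, x ∈ D.V (D.c1 / 2) → x ∈ D.V D.c1 :=
    fun x hx => ⟨hx.1, hx.2.1, by have := hx.2.2; linarith⟩
  refine ⟨{
    tK := tK
    c1f := c1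
    c2f := c2
    W := fun q => (c2 q.1 - c1 q.1) + W1 (q.1, q.2 - c1 q.1) - W1 (q.1, 0)
    tK_hol := htKd'.mono fun x hx => hlt' x hx
    tK_le := fun x hx => by
      have := htKb' x (hlt' x hx)
      linarith
    c1f_hol := hc1d.mono hlt''
    c2f_hol := hc2d.mono hlt''
    c1f_spec := fun x hx => ⟨by have := hc1b x (hlt x hx); linarith, (hc1s x (hlt x hx)).2.2⟩
    c2f_spec := fun x hx => ⟨by have := hc2b x (hlt x hx); linarith, (hc2s x (hlt x hx)).2.2⟩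
    f_near := ?_
    W_hol := ?_
    W_le := ?_
    W_c := ?_
    tK_contact := ?_
    W_contact := ?_ }⟩
  · intro x hx hxV
    obtain ⟨⟨h1, h2⟩, h3, h4⟩ := hfn x (hlt x hx).le hxV
    rw [norm_sub_rev] at h2 h4
    exact ⟨h1, h3, by linarith, by linarith⟩
  · have hc1c : DifferentiableOn ℂ (fun q : E × (Fin m → ℂ) => c1 q.1)
        ({x | κ x < 5 / 8} ×ˢ ball (0 : Fin m → ℂ) (shr m D.r1)) :=
      hc1d.comp differentiableOn_fst (fun q hq => hlt q.1 hq.1)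
    have hc2c : DifferentiableOn ℂ (fun q : E × (Fin m → ℂ) => c2 q.1)
        ({x | κ x < 5 / 8} ×ˢ ball (0 : Fin m → ℂ) (shr m D.r1)) :=
      hc2d.comp differentiableOn_fst (fun q hq => hlt q.1 hq.1)
    refine DifferentiableOn.sub ((hc2c.sub hc1c).add ?_) ?_
    · refine hW1d.comp (differentiableOn_fst.prodMk (differentiableOn_snd.sub hc1c)) ?_
      rintro ⟨x, v⟩ ⟨h1, h2⟩
      rw [mem_ball_zero_iff] at h2
      exact (hsmall x h1 v h2).1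
    · refine hW1d.comp (differentiableOn_fst.prodMk (differentiableOn_const 0)) ?_
      rintro ⟨x, v⟩ ⟨h1, h2⟩
      rw [mem_ball_zero_iff] at h2
      exact (hsmall x h1 v h2).2.1
  · intro x hx v hv
    rw [mem_ball_zero_iff] at hv
    obtain ⟨h1, h2, -⟩ := hsmall x hx v hv
    have h3 := hW1b (x, v - c1 x) h1
    have h4 := hW1b (x, 0) h2
    have h5 := hc1b x (hlt x hx)
    have h6 := hc2b x (hlt x hx)
    show ‖(c2 x - c1 x) + W1 (x, v - c1 x) - W1 (x, 0)‖ ≤ η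
    have h7 := norm_sub_le ((c2 x - c1 x) + W1 (x, v - c1 x)) (W1 (x, 0))
    have h8 := norm_add_le (c2 x - c1 x) (W1 (x, v - c1 x))
    have h9 := norm_sub_le (c2 x) (c1 x)
    have h10 : Q' * (4 * (D.L * Q * ε)) = 4 * (D.L * Q * Q' * ε) := by ring
    rw [h10] at h3 h4
    linarith
  · intro x hx
    show (c2 x - c1 x) + W1 (x, c1 x - c1 x) - W1 (x, 0) = c2 x - c1 x
    rw [sub_self]
    abel
  · intro x hx hxV
    refine (htKc' x (hVhalf x hxV) (hlt' x hx)).trans ?_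
    exact mul_le_mul_of_nonneg_right (by linarith) (by positivity)
  · intro x hx hxV v hv
    rw [mem_ball_zero_iff] at hv
    have hxV1 := hVhalf x hxV
    obtain ⟨h1, h2, h3⟩ := hsmall x hx v hv
    have h4 := hW1c (x, v - c1 x) ⟨hxV1, mem_univ _⟩ h1
    have h5 := hW1c (x, 0) ⟨hxV1, mem_univ _⟩ h2
    have h6 : w1 (x, 0) = 0 := by
      rw [hw1]
      show q0 (x, c1 x + 0) - q0 (x, c1 x) - 0 = 0
      rw [add_zero, sub_self, sub_zero]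
    have h7 : w1 (x, v - c1 x) = q0 (x, v) - q0 (x, c1 x) - (v - c1 x) := by
      rw [hw1]
      show q0 (x, c1 x + (v - c1 x)) - q0 (x, c1 x) - (v - c1 x) = _
      rw [add_sub_cancel]
    have hq0c : q0 (x, c1 x) = D.G (x, S.e (f1 x) - tK x) := by
      rw [hq0]
      show D.G (x, S.e (D.Φ (x, c1 x)) - tK x) = _
      rw [(hc1s x (hlt x hx)).2.2]
    have hc2G : c2 x = D.G (x, S.e (f2 x)) := by
      have h8 := D.G_Z hxV1 (hc2m x (hlt x hx))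
      rw [(hc2s x (hlt x hx)).2.2] at h8
      exact h8.symm
    have h8 : ‖q0 (x, c1 x) - c2 x‖ ≤ D.L * (2 * Q * ε * ‖S.e (f2 x)‖ ^ k) := by
      rw [hq0c, hc2G]
      have h9 : S.e (f1 x) - tK x ∈ ball (0 : Fin m → ℂ) (3 * D.c1) := by
        have h10 := harg x hxV1 (hlt' x hx) (c1 x) (hc1m x (hlt x hx))
        rw [(hc1s x (hlt x hx)).2.2] at h10
        exact h10
      have h10 : S.e (f2 x) ∈ ball (0 : Fin m → ℂ) (3 * D.c1) := by
        rw [mem_ball_zero_iff]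
        have := hy2b x (hlt x hx).le hxV1
        linarith
      refine (D.G_lip x hxV1.1 hxV1.2.1 hxV1.2.2 _ h9 _ h10).trans ?_
      refine mul_le_mul_of_nonneg_left ?_ hL0.le
      have h11 := htKc' x hxV1 (hlt' x hx)
      have h12 : S.e (f1 x) - tK x - S.e (f2 x) = S.e (f1 x) - S.e (f2 x) - tK x := by abel
      rw [h12]
      exact h11
    have h9 : D.G (x, S.e (D.Φ (x, v)) - tK x) = q0 (x, v) := by rw [hq0]
    show ‖D.G (x, S.e (D.Φ (x, v)) - tK x) - v -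
      ((c2 x - c1 x) + W1 (x, v - c1 x) - W1 (x, 0))‖ ≤ η * ‖S.e (f2 x)‖ ^ k
    rw [h9]
    have h10 : q0 (x, v) - v - ((c2 x - c1 x) + W1 (x, v - c1 x) - W1 (x, 0)) =
        (q0 (x, c1 x) - c2 x) - (W1 (x, v - c1 x) - w1 (x, v - c1 x)) +
          (W1 (x, 0) - w1 (x, 0)) := by
      rw [h6, h7]
      abel
    rw [h10]
    have h11 := norm_add_le ((q0 (x, c1 x) - c2 x) - (W1 (x, v - c1 x) - w1 (x, v - c1 x)))
      (W1 (x, 0) - w1 (x, 0))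
    have h12 := norm_sub_le (q0 (x, c1 x) - c2 x) (W1 (x, v - c1 x) - w1 (x, v - c1 x))
    have h13 : 0 ≤ ‖S.e (f2 x)‖ ^ k := by positivity
    have h14 : (2 * (D.L * Q * ε) + 8 * (D.L * Q * Q' * ε)) * ‖S.e (f2 x)‖ ^ k ≤
        η * ‖S.e (f2 x)‖ ^ k := mul_le_mul_of_nonneg_right (by linarith) h13
    calc _ ≤ D.L * (2 * Q * ε * ‖S.e (f2 x)‖ ^ k) +
          Q' * (4 * (D.L * Q * ε)) * ‖S.e (f2 x)‖ ^ k +
          Q' * (4 * (D.L * Q * ε)) * ‖S.e (f2 x)‖ ^ k := by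
          refine h11.trans (add_le_add (h12.trans (add_le_add h8 h4)) h5)
      _ = (2 * (D.L * Q * ε) + 8 * (D.L * Q * Q' * ε)) * ‖S.e (f2 x)‖ ^ k := by ring
      _ ≤ η * ‖S.e (f2 x)‖ ^ k := h14

end OkaP
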