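import Pool.Agent.H.MP_ceb9a9.Geom

/-!
# MP_ceb9a9: a smooth convex exhaustion adapted to a compact convex set
-/

set_option autoImplicit false

namespace OkaP

open Set Metric Topology

section

variable {E : Type} [NormedAddCommGroup E] [NormedSpace ℝ E]

private theorem Kappa_D2 {φ : E → ℝ} (hs : ContDiff ℝ ((⊤ : ℕ∞) : WithTop ℕ∞) φ)
    (hc : ConvexOn ℝ univ φ) (x v : E) :
    0 ≤ fderiv ℝ (fun y => fderiv ℝ φ y v) x v := by
  have hd : Differentiable ℝ φ := hs.differentiable (by simp)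
  have hfd : Differentiable ℝ (fun y => fderiv ℝ φ y v) := by
    have h1 : ContDiff ℝ ((⊤ : ℕ∞) : WithTop ℕ∞) (fderiv ℝ φ) := hs.fderiv_right (by simp)
    exact (h1.clm_apply contDiff_const).differentiable (by simp)
  have hline : ∀ t : ℝ, HasDerivAt (fun t : ℝ => x + t • v) v t := by
    intro t
    simpa using ((hasDerivAt_id t).smul_const v).const_add x
  set g : ℝ → ℝ := fun t => φ (x + t • v) with hg
  have hg1 : ∀ t, HasDerivAt g (fderiv ℝ φ (x + t • v) v) t := fun t =>
    (hd (x + t • v)).hasFDerivAt.comp_hasDerivAt t (hline t)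
  have hgc : ConvexOn ℝ univ g := by
    have h1 := hc.comp_affineMap (AffineMap.lineMap x (x + v) : ℝ →ᵃ[ℝ] E)
    rw [preimage_univ] at h1
    refine h1.congr fun t _ => ?_
    simp only [Function.comp_apply, AffineMap.lineMap_apply, vsub_eq_sub, vadd_eq_add, hg]
    congr 1
    rw [add_sub_cancel_left, add_comm]
  have hmono : Monotone (fun t : ℝ => fderiv ℝ φ (x + t • v) v) := by
    have h1 : MonotoneOn (deriv g) univ := hgc.monotoneOn_deriv fun t _ => (hg1 t).differentiableAt
    rw [monotoneOn_univ] at h1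
    have h2 : deriv g = fun t : ℝ => fderiv ℝ φ (x + t • v) v := funext fun t => (hg1 t).deriv
    rwa [h2] at h1
  have h2 : HasDerivAt (fun t : ℝ => fderiv ℝ φ (x + t • v) v)
      (fderiv ℝ (fun y => fderiv ℝ φ y v) x v) 0 := by
    have h3 : HasFDerivAt (fun y => fderiv ℝ φ y v) (fderiv ℝ (fun y => fderiv ℝ φ y v) x)
        (x + (0 : ℝ) • v) := by
      simpa using (hfd x).hasFDerivAt
    exact h3.comp_hasDerivAt (0 : ℝ) (hline 0)
  rw [← h2.deriv]
  exact hmono.deriv_nonneg

private theorem Kappa_infDist {K : Set E} (hK : IsCompact K) (hKc : Convex ℝ K)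
    (hne : K.Nonempty) : ConvexOn ℝ univ (fun x => infDist x K) := by
  refine ⟨convex_univ, ?_⟩
  intro x _ y _ a b ha hb hab
  obtain ⟨p, hp, hxp⟩ := hK.exists_infDist_eq_dist hne x
  obtain ⟨q, hq, hyq⟩ := hK.exists_infDist_eq_dist hne y
  have h1 : a • p + b • q ∈ K := hKc hp hq ha hb hab
  calc infDist (a • x + b • y) K ≤ dist (a • x + b • y) (a • p + b • q) := infDist_le_dist_of_mem h1
    _ = ‖a • (x - p) + b • (y - q)‖ := by
        rw [dist_eq_norm]; congr 1; rw [smul_sub, smul_sub]; abel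
    _ ≤ ‖a • (x - p)‖ + ‖b • (y - q)‖ := norm_add_le _ _
    _ = a • infDist x K + b • infDist y K := by
        rw [norm_smul, norm_smul, Real.norm_of_nonneg ha, Real.norm_of_nonneg hb, hxp, hyq,
          dist_eq_norm, dist_eq_norm, smul_eq_mul, smul_eq_mul]

private theorem Kappa_moll [FiniteDimensional ℝ E] {f : E → ℝ} (hf : Continuous f)
    (hc : ConvexOn ℝ univ f) {δ : ℝ} (hδ : 0 < δ) (hlip : ∀ x y, |f x - f y| ≤ dist x y) :
    ∃ g : E → ℝ, ContDiff ℝ ((⊤ : ℕ∞) : WithTop ℕ∞) g ∧ ConvexOn ℝ univ g ∧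
      ∀ x, |g x - f x| ≤ δ := by
  borelize E
  set μ : MeasureTheory.Measure E := MeasureTheory.Measure.addHaar with hμ
  set φ : ContDiffBump (0 : E) := ⟨δ / 2, δ, half_pos hδ, half_lt_self hδ⟩ with hφ
  have hint : ∀ z : E, MeasureTheory.Integrable (fun t => φ.normed μ t * f (z - t)) μ := by
    intro z
    refine Continuous.integrable_of_hasCompactSupport ?_ ?_
    · exact φ.continuous_normed.mul (hf.comp (continuous_const.sub continuous_id))
    · exact φ.hasCompactSupport_normed.mul_right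
  set g : E → ℝ := fun x => ∫ t, φ.normed μ t * f (x - t) ∂μ with hg
  have hgc : g = MeasureTheory.convolution (φ.normed μ) f (ContinuousLinearMap.lsmul ℝ ℝ) μ := by
    funext x
    rw [MeasureTheory.convolution_def]
    rfl
  refine ⟨g, ?_, ⟨convex_univ, ?_⟩, ?_⟩
  · rw [hgc]
    exact φ.hasCompactSupport_normed.contDiff_convolution_left _ φ.contDiff_normed
      hf.locallyIntegrable
  · intro x _ y _ a b ha hb hab
    have h1 : a • g x + b • g y =
        ∫ t, (a * (φ.normed μ t * f (x - t)) + b * (φ.normed μ t * f (y - t))) ∂μ := by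
      rw [MeasureTheory.integral_add ((hint x).const_mul a) ((hint y).const_mul b),
        MeasureTheory.integral_const_mul, MeasureTheory.integral_const_mul]
      rfl
    rw [h1]
    refine MeasureTheory.integral_mono (hint _)
      (((hint x).const_mul a).add ((hint y).const_mul b)) ?_
    intro t
    have h2 : a • x + b • y - t = a • (x - t) + b • (y - t) := by
      rw [smul_sub, smul_sub]
      have : t = a • t + b • t := by rw [← add_smul, hab, one_smul]
      nth_rewrite 1 [this]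
      abel
    have h3 := hc.2 (mem_univ (x - t)) (mem_univ (y - t)) ha hb hab
    simp only [smul_eq_mul] at h3
    have h4 : 0 ≤ φ.normed μ t := φ.nonneg_normed t
    simp only [h2]
    calc φ.normed μ t * f (a • (x - t) + b • (y - t))
        ≤ φ.normed μ t * (a * f (x - t) + b * f (y - t)) := mul_le_mul_of_nonneg_left h3 h4
      _ = a * (φ.normed μ t * f (x - t)) + b * (φ.normed μ t * f (y - t)) := by ring
  · intro x
    have h1 := φ.dist_normed_convolution_le (μ := μ) (g := f) (x₀ := x) (ε := δ)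
      hf.aestronglyMeasurable (by
        intro y hy
        rw [Real.dist_eq]
        exact (hlip y x).trans (mem_ball.1 hy).le)
    rw [← Real.dist_eq, hgc]
    exact h1

end

theorem exists_kappa {E : Type} [NormedAddCommGroup E] [InnerProductSpace ℂ E]
    [FiniteDimensional ℂ E] {K U : Set E} (hK : IsCompact K) (hKc : Convex ℝ K)
    (hU : IsOpen U) (hKU : K ⊆ U) :
    ∃ κ : E → ℝ, Psh κ ∧ ConvexOn ℝ univ κ ∧ (∀ a : ℝ, IsCompact {x | κ x ≤ a}) ∧
      (∀ x ∈ K, κ x < 0) ∧ {x | κ x ≤ 1} ⊆ U := by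
  have : ProperSpace E := FiniteDimensional.proper ℂ E
  have : FiniteDimensional ℝ E := FiniteDimensional.complexToReal E
  have hpsh : ∀ κ : E → ℝ, ContDiff ℝ ((⊤ : ℕ∞) : WithTop ℕ∞) κ → ConvexOn ℝ univ κ → Psh κ := by
    intro κ h1 h2
    refine ⟨h1, fun x v => ?_⟩
    have h3 := Kappa_D2 h1 h2 x v
    have h4 := Kappa_D2 h1 h2 x (Complex.I • v)
    unfold levi D2
    linarith
  have hnsm : ContDiff ℝ ((⊤ : ℕ∞) : WithTop ℕ∞) (fun x : E => ‖x‖ ^ 2) := by
    letI : InnerProductSpace ℝ E := InnerProductSpace.rclikeToReal ℂ E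
    exact contDiff_norm_sq ℝ
  have hncv : ConvexOn ℝ univ (fun x : E => ‖x‖ ^ 2) :=
    (convexOn_univ_norm (E := E)).pow (fun x _ => norm_nonneg x) 2
  have hcomp : ∀ (κ : E → ℝ) (η c : ℝ), Continuous κ → 0 < η → (∀ x, η * ‖x‖ ^ 2 - c ≤ κ x) →
      ∀ a : ℝ, IsCompact {x | κ x ≤ a} := by
    intro κ η c hcont hη hlow a
    refine isCompact_of_isClosed_isBounded (isClosed_le hcont continuous_const) ?_
    refine (isBounded_closedBall (x := (0 : E)) (r := Real.sqrt ((a + c) / η))).subset ?_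
    intro x hx
    rw [mem_closedBall_zero_iff]
    apply Real.le_sqrt_of_sq_le
    rw [le_div_iff₀ hη]
    have h1 := hlow x
    have h2 : κ x ≤ a := hx
    nlinarith
  rcases K.eq_empty_or_nonempty with hem | hne
  · refine ⟨fun x => ‖x‖ ^ 2 + 2, hpsh _ (hnsm.add contDiff_const) (hncv.add_const 2),
      hncv.add_const 2, ?_, ?_, ?_⟩
    · exact hcomp _ 1 0 (hnsm.continuous.add continuous_const) one_pos fun x => by
        have := sq_nonneg ‖x‖
        linarith
    · intro x hx
      rw [hem] at hx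
      exact absurd hx (notMem_empty x)
    · intro x hx
      have h1 : ‖x‖ ^ 2 + 2 ≤ 1 := hx
      have := sq_nonneg ‖x‖
      linarith
  obtain ⟨δ', hδ', hsub⟩ := hK.exists_cthickening_subset_open hU hKU
  set δ := δ' / 4 with hδ
  have hδ0 : 0 < δ := by rw [hδ]; linarith
  obtain ⟨g, hgs, hgc, hgd⟩ := Kappa_moll (f := fun x : E => infDist x K) (continuous_infDist_pt K)
    (Kappa_infDist hK hKc hne) hδ0 (by
      intro x y
      rw [← Real.dist_eq]
      simpa using (lipschitz_infDist_pt K).dist_le_mul x y)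
  obtain ⟨R, hR⟩ := hK.isBounded.exists_norm_le
  have hRsq : 0 ≤ R ^ 2 := sq_nonneg R
  set η : ℝ := 1 / (4 * (R ^ 2 + 1)) with hη
  have hη0 : 0 < η := by rw [hη]; positivity
  set κ : E → ℝ := fun x => (δ⁻¹ * g x + -2) + η * ‖x‖ ^ 2 with hκ
  have hκs : ContDiff ℝ ((⊤ : ℕ∞) : WithTop ℕ∞) κ :=
    ((contDiff_const.mul hgs).add contDiff_const).add (contDiff_const.mul hnsm)
  have hκc : ConvexOn ℝ univ κ := by
    have h1 : ConvexOn ℝ univ (fun x => δ⁻¹ * g x) := by
      simpa [smul_eq_mul] using hgc.smul (inv_pos.2 hδ0).le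
    have h2 : ConvexOn ℝ univ (fun x : E => η * ‖x‖ ^ 2) := by
      simpa [smul_eq_mul] using hncv.smul hη0.le
    exact (h1.add_const (-2)).add h2
  have hinv : δ⁻¹ * δ = 1 := inv_mul_cancel₀ hδ0.ne'
  have hinv0 : 0 < δ⁻¹ := inv_pos.2 hδ0
  refine ⟨κ, hpsh κ hκs hκc, hκc, ?_, ?_, ?_⟩
  · refine hcomp κ η 3 hκs.continuous hη0 fun x => ?_
    have h1 := (abs_le.1 (hgd x)).1
    have h2 : (0 : ℝ) ≤ infDist x K := infDist_nonneg
    have h3 : -δ ≤ g x := by linarith
    have h4 : δ⁻¹ * (-δ) ≤ δ⁻¹ * g x := mul_le_mul_of_nonneg_left h3 hinv0.le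
    simp only [hκ]
    have h5 : δ⁻¹ * (-δ) = -1 := by rw [mul_neg, hinv]
    linarith
  · intro x hx
    have h1 := (abs_le.1 (hgd x)).2
    simp only [infDist_zero_of_mem hx, sub_zero] at h1
    have h4 : δ⁻¹ * g x ≤ δ⁻¹ * δ := mul_le_mul_of_nonneg_left h1 hinv0.le
    have h5 : ‖x‖ ^ 2 ≤ R ^ 2 := by
      have := hR x hx
      have h0 := norm_nonneg x
      nlinarith
    have h6 : η * ‖x‖ ^ 2 ≤ η * R ^ 2 := mul_le_mul_of_nonneg_left h5 hη0.le
    have h7 : η * R ^ 2 < 1 := by
      rw [hη, one_div, inv_mul_lt_iff₀ (by positivity)]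
      linarith
    simp only [hκ]
    linarith
  · intro x hx
    have h1 : κ x ≤ 1 := hx
    simp only [hκ] at h1
    have h2 : 0 ≤ η * ‖x‖ ^ 2 := by positivity
    have h3 : δ⁻¹ * g x ≤ 3 := by linarith
    have h4 : g x ≤ 3 * δ := by
      have := mul_le_mul_of_nonneg_left h3 hδ0.le
      rw [← mul_assoc, mul_inv_cancel₀ hδ0.ne', one_mul] at this
      linarith
    have h5 := (abs_le.1 (hgd x)).1
    have h6 : infDist x K ≤ δ' := by
      have : δ' = 4 * δ := by rw [hδ]; ring
      linarith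
    obtain ⟨y, hy, hxy⟩ := hK.exists_infDist_eq_dist hne x
    apply hsub
    exact mem_cthickening_of_dist_le x y δ' K hy (by rw [← hxy]; exact h6)

end OkaP
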