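import Pool.Agent.H.MP_ceb9a9.Khw
import Pool.Agent.H.MP_ceb9a9.CutR

/-!
# MP_ceb9a9, chapter 1: the a priori inequality for weakly closed square integrable forms
-/

set_option autoImplicit false

open Set Metric Topology MeasureTheory
open scoped ContDiff

noncomputable section
namespace OkaP

variable {E : Type} [NormedAddCommGroup E] [NormedSpace ℂ E] [FiniteDimensional ℂ E]
  [MeasurableSpace E] [BorelSpace E] {μ : Measure E} [μ.IsAddHaarMeasure]

/-- the square root of the weight -/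
def wt (φ : E → ℝ) (x : E) : ℂ := ((Real.exp (-φ x / 2) : ℝ) : ℂ)

omit [FiniteDimensional ℂ E] [MeasurableSpace E] [BorelSpace E] [NormedSpace ℂ E] in
private theorem ki_wt_ne (φ : E → ℝ) (x : E) : wt φ x ≠ 0 := by
  unfold wt
  exact_mod_cast (Real.exp_pos _).ne'

omit [FiniteDimensional ℂ E] [MeasurableSpace E] [BorelSpace E] [NormedSpace ℂ E] in
private theorem ki_norm (φ : E → ℝ) (x : E) : ‖wt φ x‖ ^ 2 = Real.exp (-φ x) := by
  rw [wt, Complex.norm_real, Real.norm_of_nonneg (Real.exp_pos _).le, ← Real.exp_nat_mul]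
  congr 1
  push_cast
  ring

omit [FiniteDimensional ℂ E] [MeasurableSpace E] [BorelSpace E] [NormedSpace ℂ E] in
private theorem ki_sq (φ : E → ℝ) (z : ℂ) (x : E) :
    ‖z * wt φ x‖ ^ 2 = ‖z‖ ^ 2 * Real.exp (-φ x) := by
  rw [norm_mul, mul_pow, ki_norm]

omit [FiniteDimensional ℂ E] [MeasurableSpace E] [BorelSpace E] in
private theorem ki_cont {φ : E → ℝ} (hφ : ContDiff ℝ ∞ φ) : Continuous (wt φ) := by
  have := hφ.continuous
  unfold wt
  fun_prop

omit [FiniteDimensional ℂ E] in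
private theorem ki_mem {φ : E → ℝ} (hφ : ContDiff ℝ ∞ φ) {c g : E → ℂ} (hc : Continuous c)
    (hcs : HasCompactSupport c) (hg : MemLp (fun x => g x * wt φ x) 2 μ) :
    MemLp (fun x => c x * g x) 2 μ := by
  have h1 : Continuous (fun x => c x * (wt φ x)⁻¹) := hc.mul ((ki_cont hφ).inv₀ (ki_wt_ne φ))
  have h2 : HasCompactSupport (fun x => c x * (wt φ x)⁻¹) := hcs.mul_right
  have h3 : MemLp (fun x => c x * (wt φ x)⁻¹) ⊤ μ := h1.memLp_top_of_hasCompactSupport h2 μ
  have h4 : MemLp ((fun x => c x * (wt φ x)⁻¹) * (fun x => g x * wt φ x)) 2 μ := MemLp.mul hg h3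
  convert h4 using 1
  funext x
  simp only [Pi.mul_apply]
  field_simp [ki_wt_ne φ x]

omit [FiniteDimensional ℂ E] in
private theorem ki_int {φ : E → ℝ} (hφ : ContDiff ℝ ∞ φ) {c g : E → ℂ} (hc : Continuous c)
    (hcs : HasCompactSupport c) (hg : MemLp (fun x => g x * wt φ x) 2 μ) :
    Integrable (fun x => c x * g x) μ := by
  have h1 : Continuous (fun x => c x * (wt φ x)⁻¹) := hc.mul ((ki_cont hφ).inv₀ (ki_wt_ne φ))
  have h2 : HasCompactSupport (fun x => c x * (wt φ x)⁻¹) := hcs.mul_right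
  have h3 : MemLp (fun x => c x * (wt φ x)⁻¹) 2 μ := h1.memLp_of_hasCompactSupport h2
  have h4 : MemLp ((fun x => c x * (wt φ x)⁻¹) * (fun x => g x * wt φ x)) 1 μ := MemLp.mul hg h3
  rw [← memLp_one_iff_integrable]
  convert h4 using 1
  funext x
  simp only [Pi.mul_apply]
  field_simp [ki_wt_ne φ x]

omit [FiniteDimensional ℂ E] in
private theorem ki_int_sq {φ : E → ℝ} {g : E → ℂ}
    (hg : MemLp (fun x => g x * wt φ x) 2 μ) :
    Integrable (fun x => ‖g x‖ ^ 2 * Real.exp (-φ x)) μ := by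
  have := hg.norm.integrable_sq
  simpa only [ki_sq] using this

omit [FiniteDimensional ℂ E] in
private theorem ki_int_comb {ι : Type} [Fintype ι] {φ : E → ℝ} {v : ι → E → ℂ}
    (hv : ∀ j, MemLp (fun x => v j x * wt φ x) 2 μ) (c : ι → ℝ) :
    Integrable (fun x => (∑ j, c j * ‖v j x‖) ^ 2 * Real.exp (-φ x)) μ := by
  have h1 : MemLp (fun x => ∑ j, c j * ‖v j x * wt φ x‖) 2 μ :=
    memLp_finsetSum _ fun j _ => (hv j).norm.const_mul (c j)
  have h2 := h1.integrable_sq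
  have h3 : ∀ x, (∑ j, c j * ‖v j x * wt φ x‖) ^ 2 =
      (∑ j, c j * ‖v j x‖) ^ 2 * Real.exp (-φ x) := by
    intro x
    rw [← ki_norm φ x, ← mul_pow, Finset.sum_mul]
    congr 1
    refine Finset.sum_congr rfl fun j _ => ?_
    rw [norm_mul]
    ring
  simpa only [h3] using h2

/-- one cutoff step of the a priori inequality -/
private theorem ki_step {ι : Type} [Fintype ι] (b : ι → E) {φ : E → ℝ} (hφ : ContDiff ℝ ∞ φ)
    (hl : ∀ x, ∀ w : ι → ℂ, ∑ j, ‖w j‖ ^ 2 ≤ levi φ x (∑ j, w j • b j))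
    {v : ι → E → ℂ} (hv : ∀ j, MemLp (fun x => v j x * wt φ x) 2 μ)
    {s : E → ℂ} (hs : MemLp (fun x => s x * wt φ x) 2 μ)
    (hcl : ∀ j k, ∀ ψ : E → ℂ, Tst ψ →
      ∫ x, (v k x * pb (b j) ψ x - v j x * pb (b k) ψ x) ∂μ = 0)
    (hdl : ∀ ψ : E → ℂ, Tst ψ →
      ∫ x, (∑ j, v j x * pd (b j) ψ x) * ((Real.exp (-φ x) : ℝ) : ℂ) ∂μ =
        ∫ x, s x * ψ x * ((Real.exp (-φ x) : ℝ) : ℂ) ∂μ) {η : ℝ} (hη : 0 < η) (R : ℝ) :
    ∑ j, ∫ x in closedBall (0 : E) R, ‖v j x‖ ^ 2 * Real.exp (-φ x) ∂μ ≤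
      (1 + η) * (∫ x, ‖s x‖ ^ 2 * Real.exp (-φ x) ∂μ) +
        (η + η ^ 2) * (∫ x, (∑ j, ‖b j‖ * ‖v j x‖) ^ 2 * Real.exp (-φ x) ∂μ) +
        η ^ 2 * ∑ j, ∑ k, (1 / 2) *
          ∫ x, (‖b j‖ * ‖v k x‖ + ‖b k‖ * ‖v j x‖) ^ 2 * Real.exp (-φ x) ∂μ := by
  classical
  obtain ⟨χ, hχ, hχs, hχI, hχ1, hχd⟩ := exists_cutR (E := E) hη R
  set X : E → ℂ := fun y => ((χ y : ℝ) : ℂ) with hX
  have hXs : ContDiff ℝ ∞ X := Complex.ofRealCLM.contDiff.comp hχ
  have hXc : HasCompactSupport X := hχs.comp_left (g := fun t : ℝ => (t : ℂ)) (by simp)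
  have hXT : Tst X := ⟨hXs, hXc⟩
  set P : E → ℂ := fun y => ((φ y : ℝ) : ℂ) with hP
  have hPs : ContDiff ℝ ∞ P := Complex.ofRealCLM.contDiff.comp hφ
  have hX1 : ∀ x, ‖X x‖ ≤ 1 := fun x => by
    simp only [hX, Complex.norm_real, Real.norm_eq_abs]
    exact abs_le.2 ⟨by linarith [(hχI x).1], (hχI x).2⟩
  have hdX : ∀ a x, ‖pd a X x‖ ≤ η * ‖a‖ := fun a x =>
    norm_pd_le.trans (mul_le_mul_of_nonneg_right (hχd x) (norm_nonneg _))
  have hbX : ∀ a x, ‖pb a X x‖ ≤ η * ‖a‖ := fun a x =>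
    norm_pb_le.trans (mul_le_mul_of_nonneg_right (hχd x) (norm_nonneg _))
  -- continuity and compact support of the coefficients
  have cX : Continuous X := hXs.continuous
  have cdX : ∀ a, Continuous (pd a X) := fun a => (contDiff_pd hXs).continuous
  have cbX : ∀ a, Continuous (pb a X) := fun a => (contDiff_pb hXs).continuous
  have sdX : ∀ a, HasCompactSupport (pd a X) := fun a => (Tst.pd hXT).2
  have sbX : ∀ a, HasCompactSupport (pb a X) := fun a => (Tst.pb hXT).2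
  have cP : ∀ a, Continuous (pd a P) := fun a => (contDiff_pd hPs).continuous
  have hdiff : ∀ {u : E → ℂ}, ContDiff ℝ ∞ u → ∀ x, DifferentiableAt ℝ u x := fun hu x =>
    (hu.differentiable (by simp)) x
  have hK : IsCompact (tsupport X) := hXc
  have X0 : ∀ x, x ∉ tsupport X → X x = 0 := fun x hx => image_eq_zero_of_notMem_tsupport hx
  have dX0 : ∀ a x, x ∉ tsupport X → pd a X x = 0 := fun a x hx =>
    image_eq_zero_of_notMem_tsupport fun h => hx (tsupport_pd_subset h)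
  set w : ι → E → ℂ := fun j x => X x * v j x with hwdef
  set A : ι → ι → E → ℂ := fun j k x => pb (b j) X x * v k x - pb (b k) X x * v j x with hAdef
  set d : E → ℂ := fun x => -(X x * s x) + ∑ j, (pd (b j) P x * X x) * v j x +
    ∑ j, pd (b j) X x * v j x with hddef
  have hw : ∀ j, MemLp (w j) 2 μ := fun j => ki_mem hφ cX hXc (hv j)
  have hA : ∀ j k, MemLp (A j k) 2 μ := fun j k =>
    (ki_mem hφ (cbX _) (sbX _) (hv k)).sub (ki_mem hφ (cbX _) (sbX _) (hv j))
  have hd : MemLp d 2 μ := by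
    refine ((ki_mem hφ cX hXc hs).neg.add (memLp_finsetSum _ fun j _ => ?_)).add
      (memLp_finsetSum _ fun j _ => ki_mem hφ (cdX _) (sdX _) (hv j))
    exact ki_mem hφ ((cP _).mul cX) hXc.mul_left (hv j)
  have hwK : ∀ j, ∀ x, x ∉ tsupport X → w j x = 0 := fun j x hx => by
    simp only [hwdef, X0 x hx, zero_mul]
  have hdK : ∀ x, x ∉ tsupport X → d x = 0 := fun x hx => by
    simp only [hddef, X0 x hx, dX0 _ x hx, zero_mul, mul_zero, neg_zero, Finset.sum_const_zero,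
      add_zero]
  have hwA : ∀ j k, ∀ ψ : E → ℂ, Tst ψ →
      ∫ x, (w k x * pb (b j) ψ x - w j x * pb (b k) ψ x) ∂μ = - ∫ x, A j k x * ψ x ∂μ := by
    intro j k ψ hψ
    have h1 := hcl j k (fun x => X x * ψ x) (Tst.mul hXs hψ)
    have cψ : Continuous ψ := hψ.1.continuous
    have hbψ : ∀ a, Continuous (pb a ψ) := fun a => (contDiff_pb hψ.1).continuous
    have i1 : Integrable (fun x => w k x * pb (b j) ψ x - w j x * pb (b k) ψ x) μ := by
      have e1 : Integrable (fun x => (X x * pb (b j) ψ x) * v k x) μ :=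
        ki_int hφ (cX.mul (hbψ _)) hXc.mul_right (hv k)
      have e2 : Integrable (fun x => (X x * pb (b k) ψ x) * v j x) μ :=
        ki_int hφ (cX.mul (hbψ _)) hXc.mul_right (hv j)
      refine (e1.sub e2).congr (Filter.Eventually.of_forall fun x => ?_)
      simp only [hwdef, Pi.sub_apply]
      ring
    have i2 : Integrable (fun x => A j k x * ψ x) μ := by
      have e1 : Integrable (fun x => (pb (b j) X x * ψ x) * v k x) μ :=
        ki_int hφ ((cbX _).mul cψ) (sbX _).mul_right (hv k)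
      have e2 : Integrable (fun x => (pb (b k) X x * ψ x) * v j x) μ :=
        ki_int hφ ((cbX _).mul cψ) (sbX _).mul_right (hv j)
      refine (e1.sub e2).congr (Filter.Eventually.of_forall fun x => ?_)
      simp only [hAdef, Pi.sub_apply]
      ring
    have h2 : ∫ x, ((w k x * pb (b j) ψ x - w j x * pb (b k) ψ x) + A j k x * ψ x) ∂μ = 0 := by
      rw [← h1]
      refine integral_congr_ae (Filter.Eventually.of_forall fun x => ?_)
      simp only
      rw [pb_mul (hdiff hXs x) (hdiff hψ.1 x), pb_mul (hdiff hXs x) (hdiff hψ.1 x)]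
      simp only [hwdef, hAdef]
      ring
    rw [integral_add i1 i2] at h2
    exact eq_neg_of_add_eq_zero_left h2
  have hwd : ∀ ψ : E → ℂ, Tst ψ →
      ∫ x, ∑ j, w j x * pd (b j) ψ x ∂μ = - ∫ x, d x * ψ x ∂μ := by
    intro ψ hψ
    have cψ : Continuous ψ := hψ.1.continuous
    have hdψ : ∀ a, Continuous (pd a ψ) := fun a => (contDiff_pd hψ.1).continuous
    set Q : E → ℂ := fun x => ((Real.exp (φ x) : ℝ) : ℂ) with hQ
    have hQs : ContDiff ℝ ∞ Q := Complex.ofRealCLM.contDiff.comp (Real.contDiff_exp.comp hφ)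
    have hT : Tst (fun x => (Q x * X x) * ψ x) := Tst.mul (hQs.mul hXs) hψ
    have h1 := hdl _ hT
    have hpd : ∀ j x, pd (b j) (fun x => (Q x * X x) * ψ x) x =
        Q x * (pd (b j) P x * X x * ψ x + pd (b j) X x * ψ x + X x * pd (b j) ψ x) := by
      intro j x
      rw [pd_mul (hdiff (hQs.mul hXs) x) (hdiff hψ.1 x), pd_mul (hdiff hQs x) (hdiff hXs x),
        pd_exp (hφ.differentiable (by simp) x)]
      simp only [hQ, hP]
      ring
    have hQe : ∀ x, Q x * ((Real.exp (-φ x) : ℝ) : ℂ) = 1 := by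
      intro x
      simp only [hQ]
      rw [← Complex.ofReal_mul, ← Real.exp_add, add_neg_cancel, Real.exp_zero, Complex.ofReal_one]
    have i1 : Integrable (fun x => ∑ j, w j x * pd (b j) ψ x) μ := by
      refine integrable_finsetSum _ fun j _ => ?_
      have e1 : Integrable (fun x => (X x * pd (b j) ψ x) * v j x) μ :=
        ki_int hφ (cX.mul (hdψ _)) hXc.mul_right (hv j)
      refine e1.congr (Filter.Eventually.of_forall fun x => ?_)
      simp only [hwdef]
      ring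
    have i2 : Integrable (fun x => d x * ψ x) μ := by
      have e1 : Integrable (fun x => -((X x * ψ x) * s x) +
          ∑ j, (pd (b j) P x * X x * ψ x) * v j x + ∑ j, (pd (b j) X x * ψ x) * v j x) μ := by
        refine ((ki_int hφ (cX.mul cψ) hXc.mul_right hs).neg.add
          (integrable_finsetSum _ fun j _ => ?_)).add (integrable_finsetSum _ fun j _ => ?_)
        · exact ki_int hφ (((cP _).mul cX).mul cψ) (hXc.mul_left.mul_right) (hv j)
        · exact ki_int hφ ((cdX _).mul cψ) (sdX _).mul_right (hv j)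
      refine e1.congr (Filter.Eventually.of_forall fun x => ?_)
      simp only [hddef]
      rw [add_mul, add_mul, Finset.sum_mul, Finset.sum_mul]
      congr 1
      · congr 1
        · ring
        · exact Finset.sum_congr rfl fun j _ => by ring
      · exact Finset.sum_congr rfl fun j _ => by ring
    have i3 : Integrable (fun x => X x * ψ x * s x) μ :=
      ki_int hφ (cX.mul cψ) hXc.mul_right hs
    have h2 : ∫ x, ((∑ j, w j x * pd (b j) ψ x) + d x * ψ x) + X x * ψ x * s x ∂μ =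
        ∫ x, X x * ψ x * s x ∂μ := by
      have e1 : ∫ x, (∑ j, v j x * pd (b j) (fun x => (Q x * X x) * ψ x) x) *
          ((Real.exp (-φ x) : ℝ) : ℂ) ∂μ =
          ∫ x, ((∑ j, w j x * pd (b j) ψ x) + d x * ψ x) + X x * ψ x * s x ∂μ := by
        refine integral_congr_ae (Filter.Eventually.of_forall fun x => ?_)
        simp only [hpd, hddef, hwdef]
        have e2 : (∑ j, v j x * (Q x * (pd (b j) P x * X x * ψ x + pd (b j) X x * ψ x +
            X x * pd (b j) ψ x))) * ((Real.exp (-φ x) : ℝ) : ℂ) =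
            ∑ j, v j x * (pd (b j) P x * X x * ψ x + pd (b j) X x * ψ x + X x * pd (b j) ψ x) := by
          rw [Finset.sum_mul]
          refine Finset.sum_congr rfl fun j _ => ?_
          calc _ = v j x * (pd (b j) P x * X x * ψ x + pd (b j) X x * ψ x +
              X x * pd (b j) ψ x) * (Q x * ((Real.exp (-φ x) : ℝ) : ℂ)) := by ring
            _ = _ := by rw [hQe, mul_one]
        rw [e2, add_mul, add_mul, Finset.sum_mul, Finset.sum_mul]
        have e3 : ∑ j, v j x * (pd (b j) P x * X x * ψ x + pd (b j) X x * ψ x +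
            X x * pd (b j) ψ x) = (∑ j, X x * v j x * pd (b j) ψ x) +
              ∑ j, pd (b j) P x * X x * v j x * ψ x + ∑ j, pd (b j) X x * v j x * ψ x := by
          rw [← Finset.sum_add_distrib, ← Finset.sum_add_distrib]
          exact Finset.sum_congr rfl fun j _ => by ring
        rw [e3]
        ring
      have e4 : ∫ x, s x * ((Q x * X x) * ψ x) * ((Real.exp (-φ x) : ℝ) : ℂ) ∂μ =
          ∫ x, X x * ψ x * s x ∂μ := by
        refine integral_congr_ae (Filter.Eventually.of_forall fun x => ?_)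
        calc s x * ((Q x * X x) * ψ x) * ((Real.exp (-φ x) : ℝ) : ℂ) =
            X x * ψ x * s x * (Q x * ((Real.exp (-φ x) : ℝ) : ℂ)) := by ring
          _ = _ := by rw [hQe, mul_one]
      rw [← e1, ← e4]
      exact h1
    have i12 : Integrable (fun x => (∑ j, w j x * pd (b j) ψ x) + d x * ψ x) μ := i1.add i2
    rw [integral_add i12 i3, integral_add i1 i2] at h2
    exact eq_neg_of_add_eq_zero_left (add_eq_right.1 h2)
  have key := kohn_weak b hφ hl hK hw hwK hA hd hdK hwA hwd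
  -- lower bound
  have low : ∑ j, ∫ x in closedBall (0 : E) R, ‖v j x‖ ^ 2 * Real.exp (-φ x) ∂μ ≤
      ∑ j, ∫ x, ‖w j x‖ ^ 2 * Real.exp (-φ x) ∂μ := by
    refine Finset.sum_le_sum fun j _ => ?_
    have h1 : ∫ x in closedBall (0 : E) R, ‖v j x‖ ^ 2 * Real.exp (-φ x) ∂μ =
        ∫ x in closedBall (0 : E) R, ‖w j x‖ ^ 2 * Real.exp (-φ x) ∂μ := by
      refine setIntegral_congr_fun isClosed_closedBall.measurableSet fun x hx => ?_
      simp only [hwdef, hX, hχ1 x hx, Complex.ofReal_one, one_mul]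
    rw [h1]
    refine setIntegral_le_integral ?_ (Filter.Eventually.of_forall fun x => by positivity)
    refine ki_int_sq (φ := φ) ?_
    have h2 := ki_mem (μ := μ) hφ (cX.mul (ki_cont hφ)) (hXc.mul_right (f' := wt φ)) (hv j)
    convert h2 using 1
    funext x
    simp only [hwdef, Pi.mul_apply]
    ring
  -- upper bounds
  have iS := ki_int_sq hs
  have iT := ki_int_comb hv (fun j => ‖b j‖)
  have up1 : ∫ x, ‖-d x + ∑ j, pd (b j) (fun y => ((φ y : ℝ) : ℂ)) x * w j x‖ ^ 2 *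
      Real.exp (-φ x) ∂μ ≤ (1 + η) * (∫ x, ‖s x‖ ^ 2 * Real.exp (-φ x) ∂μ) +
        (η + η ^ 2) * (∫ x, (∑ j, ‖b j‖ * ‖v j x‖) ^ 2 * Real.exp (-φ x) ∂μ) := by
    rw [← integral_const_mul, ← integral_const_mul,
      ← integral_add (iS.const_mul _) (iT.const_mul _)]
    refine integral_mono_of_nonneg (Filter.Eventually.of_forall fun x => by positivity)
      ((iS.const_mul _).add (iT.const_mul _)) (Filter.Eventually.of_forall fun x => ?_)
    simp only
    have e1 : -d x + ∑ j, pd (b j) (fun y => ((φ y : ℝ) : ℂ)) x * w j x =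
        X x * s x - ∑ j, pd (b j) X x * v j x := by
      simp only [hddef, hwdef, hP]
      have : ∑ j, pd (b j) (fun y => ((φ y : ℝ) : ℂ)) x * (X x * v j x) =
          ∑ j, pd (b j) (fun y => ((φ y : ℝ) : ℂ)) x * X x * v j x :=
        Finset.sum_congr rfl fun j _ => by ring
      rw [this]
      ring
    have e2 : ‖X x * s x - ∑ j, pd (b j) X x * v j x‖ ≤ ‖s x‖ + η * ∑ j, ‖b j‖ * ‖v j x‖ := by
      refine (norm_sub_le _ _).trans (add_le_add ?_ ?_)
      · rw [norm_mul]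
        exact mul_le_of_le_one_left (norm_nonneg _) (hX1 x)
      · rw [Finset.mul_sum]
        refine (norm_sum_le _ _).trans (Finset.sum_le_sum fun j _ => ?_)
        rw [norm_mul, ← mul_assoc]
        exact mul_le_mul_of_nonneg_right (hdX _ _) (norm_nonneg _)
    have e3 : ‖X x * s x - ∑ j, pd (b j) X x * v j x‖ ^ 2 ≤
        (1 + η) * ‖s x‖ ^ 2 + (η + η ^ 2) * (∑ j, ‖b j‖ * ‖v j x‖) ^ 2 := by
      refine (pow_le_pow_left₀ (norm_nonneg _) e2 2).trans ?_
      nlinarith [mul_nonneg hη.le (sq_nonneg (‖s x‖ - ∑ j, ‖b j‖ * ‖v j x‖))]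
    rw [e1]
    calc _ ≤ ((1 + η) * ‖s x‖ ^ 2 + (η + η ^ 2) * (∑ j, ‖b j‖ * ‖v j x‖) ^ 2) *
        Real.exp (-φ x) := mul_le_mul_of_nonneg_right e3 (Real.exp_pos _).le
      _ = _ := by ring
  have up2 : ∑ j, ∑ k, (1 / 2) * ∫ x, ‖A j k x‖ ^ 2 * Real.exp (-φ x) ∂μ ≤
      η ^ 2 * ∑ j, ∑ k, (1 / 2) *
          ∫ x, (‖b j‖ * ‖v k x‖ + ‖b k‖ * ‖v j x‖) ^ 2 * Real.exp (-φ x) ∂μ := by
    rw [Finset.mul_sum]
    refine Finset.sum_le_sum fun j _ => ?_
    rw [Finset.mul_sum]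
    refine Finset.sum_le_sum fun k _ => ?_
    suffices hsuff : ∫ x, ‖A j k x‖ ^ 2 * Real.exp (-φ x) ∂μ ≤ η ^ 2 *
        ∫ x, (‖b j‖ * ‖v k x‖ + ‖b k‖ * ‖v j x‖) ^ 2 * Real.exp (-φ x) ∂μ by linarith
    rw [← integral_const_mul]
    have iA : Integrable (fun x => (‖b j‖ * ‖v k x‖ + ‖b k‖ * ‖v j x‖) ^ 2 *
        Real.exp (-φ x)) μ := by
      have h1 := ki_int_comb (μ := μ) (φ := φ) (v := fun i : Fin 2 => if i = 0 then v k else v j)
        (by intro i; by_cases hi : i = 0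
            · simp only [if_pos hi]; exact hv k
            · simp only [if_neg hi]; exact hv j)
        (fun i : Fin 2 => if i = 0 then ‖b j‖ else ‖b k‖)
      simpa [Fin.sum_univ_two] using h1
    refine integral_mono_of_nonneg (Filter.Eventually.of_forall fun x => by positivity)
      (iA.const_mul _) (Filter.Eventually.of_forall fun x => ?_)
    simp only
    have e2 : ‖A j k x‖ ≤ η * (‖b j‖ * ‖v k x‖ + ‖b k‖ * ‖v j x‖) := by
      refine (norm_sub_le _ _).trans ?_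
      rw [mul_add, norm_mul, norm_mul, ← mul_assoc, ← mul_assoc]
      exact add_le_add (mul_le_mul_of_nonneg_right (hbX _ _) (norm_nonneg _))
        (mul_le_mul_of_nonneg_right (hbX _ _) (norm_nonneg _))
    calc _ ≤ (η * (‖b j‖ * ‖v k x‖ + ‖b k‖ * ‖v j x‖)) ^ 2 * Real.exp (-φ x) :=
        mul_le_mul_of_nonneg_right (pow_le_pow_left₀ (norm_nonneg _) e2 2) (Real.exp_pos _).le
      _ = _ := by ring
  exact low.trans (key.trans (add_le_add up1 up2))

/-- a priori inequality: `V j = v_j * exp (-φ/2)`, `S = s * exp (-φ/2)` square integrable,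
`v` weakly `∂̄`-closed and `δ v = s` weakly. -/
theorem key_ineq {ι : Type} [Fintype ι] (b : ι → E) {φ : E → ℝ} (hφ : ContDiff ℝ ∞ φ)
    (hl : ∀ x, ∀ w : ι → ℂ, ∑ j, ‖w j‖ ^ 2 ≤ levi φ x (∑ j, w j • b j))
    {v : ι → E → ℂ} (hv : ∀ j, MemLp (fun x => v j x * wt φ x) 2 μ)
    {s : E → ℂ} (hs : MemLp (fun x => s x * wt φ x) 2 μ)
    (hcl : ∀ j k, ∀ ψ : E → ℂ, Tst ψ →
      ∫ x, (v k x * pb (b j) ψ x - v j x * pb (b k) ψ x) ∂μ = 0)
    (hdl : ∀ ψ : E → ℂ, Tst ψ →
      ∫ x, (∑ j, v j x * pd (b j) ψ x) * ((Real.exp (-φ x) : ℝ) : ℂ) ∂μ =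
        ∫ x, s x * ψ x * ((Real.exp (-φ x) : ℝ) : ℂ) ∂μ) :
    ∑ j, ∫ x, ‖v j x‖ ^ 2 * Real.exp (-φ x) ∂μ ≤ ∫ x, ‖s x‖ ^ 2 * Real.exp (-φ x) ∂μ := by
  have iv : ∀ j, Integrable (fun x => ‖v j x‖ ^ 2 * Real.exp (-φ x)) μ := fun j => ki_int_sq (hv j)
  have hstep := fun n : ℕ => ki_step b hφ hl hv hs hcl hdl
    (η := 1 / ((n : ℝ) + 1)) (by positivity) (n : ℝ)
  have h1 : Filter.Tendsto (fun n : ℕ => ∑ j, ∫ x in closedBall (0 : E) (n : ℝ),
      ‖v j x‖ ^ 2 * Real.exp (-φ x) ∂μ) Filter.atTop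
      (𝓝 (∑ j, ∫ x, ‖v j x‖ ^ 2 * Real.exp (-φ x) ∂μ)) := by
    refine tendsto_finsetSum _ fun j _ => ?_
    have hU : (⋃ n : ℕ, closedBall (0 : E) (n : ℝ)) = univ := iUnion_closedBall_nat 0
    have h2 := tendsto_setIntegral_of_monotone (μ := μ) (s := fun n : ℕ => closedBall (0 : E) (n : ℝ))
      (f := fun x => ‖v j x‖ ^ 2 * Real.exp (-φ x))
      (fun n => isClosed_closedBall.measurableSet)
      (fun m n hmn => closedBall_subset_closedBall (by exact_mod_cast hmn))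
      (iv j).integrableOn
    rwa [hU, setIntegral_univ] at h2
  have h0 : Filter.Tendsto (fun n : ℕ => 1 / ((n : ℝ) + 1)) Filter.atTop (𝓝 0) :=
    tendsto_one_div_add_atTop_nhds_zero_nat
  have h3 : ∀ a c e : ℝ, Filter.Tendsto (fun n : ℕ => (1 + 1 / ((n : ℝ) + 1)) * a +
      (1 / ((n : ℝ) + 1) + (1 / ((n : ℝ) + 1)) ^ 2) * c + (1 / ((n : ℝ) + 1)) ^ 2 * e)
      Filter.atTop (𝓝 a) := by
    intro a c e
    have h4 := (((tendsto_const_nhds (x := (1 : ℝ))).add h0).mul_const a).add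
      ((h0.add (h0.pow 2)).mul_const c) |>.add ((h0.pow 2).mul_const e)
    simpa using h4
  exact le_of_tendsto_of_tendsto' h1 (h3 _ _ _) hstep

end OkaP
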