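import Pool.Agent.H.MP_ceb9a9.Ibp

/-!
# MP_ceb9a9, chapter 1: the Kohn-Hörmander (Bochner-Kodaira) inequality for test forms
-/

set_option autoImplicit false

open Set Metric Topology MeasureTheory
open scoped ContDiff

noncomputable section
namespace OkaP

variable {E : Type} [NormedAddCommGroup E] [NormedSpace ℂ E] [FiniteDimensional ℂ E]
  [MeasurableSpace E] [BorelSpace E] {μ : Measure E} [μ.IsAddHaarMeasure]

/-- the formal adjoint `δ v = - ∑ (∂_j v_j - φ_j v_j)` of `∂̄` in the weight `exp (-φ)` -/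
def dl {ι : Type} [Fintype ι] (b : ι → E) (φ : E → ℝ) (v : ι → E → ℂ) (x : E) : ℂ :=
  - ∑ j, (pd (b j) (v j) x - pd (b j) (fun y => ((φ y : ℝ) : ℂ)) x * v j x)

omit [FiniteDimensional ℂ E] [MeasurableSpace E] [BorelSpace E] in
private theorem kh_neg {u : E → ℂ} (hu : Tst u) : Tst (fun x => - u x) := by
  have h := Tst.mul (u := fun _ : E => (-1 : ℂ)) contDiff_const hu
  have h2 : (fun x => (-1 : ℂ) * u x) = fun x => - u x := by
    funext x
    ring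
  rwa [h2] at h

omit [FiniteDimensional ℂ E] [MeasurableSpace E] [BorelSpace E] in
private theorem kh_sub {u v : E → ℂ} (hu : Tst u) (hv : Tst v) : Tst (fun x => u x - v x) := by
  have h := Tst.add hu (kh_neg hv)
  have h2 : (fun x => u x + - v x) = fun x => u x - v x := by
    funext x
    ring
  rwa [h2] at h

omit [FiniteDimensional ℂ E] [MeasurableSpace E] [BorelSpace E] in
private theorem kh_phi {φ : E → ℝ} (hφ : ContDiff ℝ ∞ φ) :
    ContDiff ℝ ∞ (fun y => ((φ y : ℝ) : ℂ)) :=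
  Complex.ofRealCLM.contDiff.comp hφ

omit [FiniteDimensional ℂ E] [MeasurableSpace E] [BorelSpace E] in
private theorem kh_e {φ : E → ℝ} (hφ : ContDiff ℝ ∞ φ) :
    ContDiff ℝ ∞ (fun y => ((Real.exp (-φ y) : ℝ) : ℂ)) :=
  kh_phi (Real.contDiff_exp.comp hφ.neg)

/-- `D_a g = ∂_a g - φ_a g` -/
private def khD (a : E) (φ : E → ℝ) (g : E → ℂ) (x : E) : ℂ :=
  pd a g x - pd a (fun y => ((φ y : ℝ) : ℂ)) x * g x

omit [FiniteDimensional ℂ E] [MeasurableSpace E] [BorelSpace E] in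
private theorem kh_tst_D {a : E} {φ : E → ℝ} (hφ : ContDiff ℝ ∞ φ) {g : E → ℂ} (hg : Tst g) :
    Tst (khD a φ g) :=
  kh_sub hg.pd (Tst.mul (contDiff_pd (kh_phi hφ)) hg)

omit [FiniteDimensional ℂ E] [MeasurableSpace E] [BorelSpace E] in
private theorem dl_eq {ι : Type} [Fintype ι] (b : ι → E) (φ : E → ℝ) (v : ι → E → ℂ) (x : E) :
    dl b φ v x = - ∑ j, khD (b j) φ (v j) x := rfl

theorem tst_dl {ι : Type} [Fintype ι] (b : ι → E) {φ : E → ℝ} (hφ : ContDiff ℝ ∞ φ)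
    {v : ι → E → ℂ} (hv : ∀ j, Tst (v j)) : Tst (dl b φ v) :=
  kh_neg (Tst.sum Finset.univ (fun j _ => kh_tst_D (a := b j) hφ (hv j)))

omit [FiniteDimensional ℂ E] [MeasurableSpace E] [BorelSpace E] in
private theorem kh_pb_e {a : E} {φ : E → ℝ} (hφ : ContDiff ℝ ∞ φ) (x : E) :
    pb a (fun y => ((Real.exp (-φ y) : ℝ) : ℂ)) x =
      - (starRingEnd ℂ) (pd a (fun y => ((φ y : ℝ) : ℂ)) x) * ((Real.exp (-φ x) : ℝ) : ℂ) := by
  have hd : DifferentiableAt ℝ φ x := hφ.differentiable (by simp) x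
  rw [pb_exp (g := fun y => -φ y) hd.neg]
  congr 1
  have h1 : (fun y => (((-φ y) : ℝ) : ℂ)) = fun y => (fun _ : E => (-1 : ℂ)) y *
      (starRingEnd ℂ) ((fun y => ((φ y : ℝ) : ℂ)) y) := by
    funext y
    simp
  have hdc : DifferentiableAt ℝ (fun y => (starRingEnd ℂ) ((fun y => ((φ y : ℝ) : ℂ)) y)) x := by
    have : (fun y => (starRingEnd ℂ) ((fun y => ((φ y : ℝ) : ℂ)) y)) =
        fun y => ((φ y : ℝ) : ℂ) := by
      funext y
      simp
    rw [this]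
    exact (kh_phi hφ).differentiable (by simp) x
  rw [h1, pb_mul (differentiableAt_const _) hdc, pb_const, pb_conj]
  ring

/-- `(f, D_k g) = - (∂̄_k f, g)` where `D_k g = ∂_k g - φ_k g` -/
theorem adj_one {a : E} {φ : E → ℝ} (hφ : ContDiff ℝ ∞ φ) {f g : E → ℂ} (hf : ContDiff ℝ ∞ f)
    (hg : Tst g) :
    ∫ x, f x * (starRingEnd ℂ) (pd a g x - pd a (fun y => ((φ y : ℝ) : ℂ)) x * g x) *
        ((Real.exp (-φ x) : ℝ) : ℂ) ∂μ =
      - ∫ x, pb a f x * (starRingEnd ℂ) (g x) * ((Real.exp (-φ x) : ℝ) : ℂ) ∂μ := by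
  have hT : Tst (fun x => ((Real.exp (-φ x) : ℝ) : ℂ) * (starRingEnd ℂ) (g x)) :=
    Tst.mul (kh_e hφ) hg.conj
  have h := ibp_pb (μ := μ) (a := a) hf hT
  have h1 : ∀ x, f x * (starRingEnd ℂ) (pd a g x - pd a (fun y => ((φ y : ℝ) : ℂ)) x * g x) *
        ((Real.exp (-φ x) : ℝ) : ℂ) =
      f x * pb a (fun x => ((Real.exp (-φ x) : ℝ) : ℂ) * (starRingEnd ℂ) (g x)) x := by
    intro x
    rw [pb_mul ((kh_e hφ).differentiable (by simp) x) (hg.conj.1.differentiable (by simp) x),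
      kh_pb_e hφ, pb_conj]
    simp only [map_sub, map_mul]
    ring
  have h2 : ∀ x, pb a f x * (starRingEnd ℂ) (g x) * ((Real.exp (-φ x) : ℝ) : ℂ) =
      pb a f x * (((Real.exp (-φ x) : ℝ) : ℂ) * (starRingEnd ℂ) (g x)) := by
    intro x
    ring
  simp only [h1, h2]
  exact h

/-- the weighted inner product -/
private def khI (μ : Measure E) (φ : E → ℝ) (f g : E → ℂ) : ℂ :=
  ∫ x, f x * (starRingEnd ℂ) (g x) * ((Real.exp (-φ x) : ℝ) : ℂ) ∂μ

private theorem kh_int {φ : E → ℝ} (hφ : ContDiff ℝ ∞ φ) {f g : E → ℂ} (hf : Tst f) (hg : Tst g) :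
    Integrable (fun x => f x * (starRingEnd ℂ) (g x) * ((Real.exp (-φ x) : ℝ) : ℂ)) μ := by
  have h := integrable_mul_tst (μ := μ) (u := fun x => f x * ((Real.exp (-φ x) : ℝ) : ℂ))
    (hf.continuous.mul (kh_e hφ).continuous) hg.conj
  refine h.congr (Filter.Eventually.of_forall fun x => ?_)
  simp only
  ring

private theorem kh_adj {a : E} {φ : E → ℝ} (hφ : ContDiff ℝ ∞ φ) {f g : E → ℂ} (hf : Tst f)
    (hg : Tst g) : khI μ φ f (khD a φ g) = - khI μ φ (pb a f) g :=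
  adj_one hφ hf.1 hg

omit [NormedAddCommGroup E] [NormedSpace ℂ E] [FiniteDimensional ℂ E] [BorelSpace E]
  [μ.IsAddHaarMeasure] in
private theorem kh_conj (φ : E → ℝ) (f g : E → ℂ) :
    (starRingEnd ℂ) (khI μ φ f g) = khI μ φ g f := by
  unfold khI
  rw [← integral_conj]
  congr 1
  funext x
  simp only [map_mul, Complex.conj_conj, Complex.conj_ofReal]
  ring

private theorem kh_adj' {a : E} {φ : E → ℝ} (hφ : ContDiff ℝ ∞ φ) {f g : E → ℂ} (hf : Tst f)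
    (hg : Tst g) : khI μ φ (khD a φ f) g = - khI μ φ f (pb a g) := by
  rw [← kh_conj, kh_adj hφ hg hf, map_neg, kh_conj]

omit [NormedAddCommGroup E] [NormedSpace ℂ E] [FiniteDimensional ℂ E] [BorelSpace E]
  [μ.IsAddHaarMeasure] in
private theorem kh_ofReal (f : E → ℝ) :
    (((∫ x, f x ∂μ : ℝ)) : ℂ) = ∫ x, ((f x : ℝ) : ℂ) ∂μ := by
  exact (integral_ofReal (𝕜 := ℂ)).symm

omit [NormedAddCommGroup E] [NormedSpace ℂ E] [FiniteDimensional ℂ E] [BorelSpace E]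
  [μ.IsAddHaarMeasure] in
private theorem kh_self (φ : E → ℝ) (u : E → ℂ) :
    (((∫ x, ‖u x‖ ^ 2 * Real.exp (-φ x) ∂μ : ℝ)) : ℂ) = khI μ φ u u := by
  unfold khI
  rw [kh_ofReal]
  congr 1
  funext x
  rw [Complex.mul_conj, Complex.normSq_eq_norm_sq]
  push_cast
  ring

omit [FiniteDimensional ℂ E] [MeasurableSpace E] [BorelSpace E] in
private theorem kh_comm {a c : E} {φ : E → ℝ} (hφ : ContDiff ℝ ∞ φ) {f : E → ℂ} (hf : Tst f)
    (x : E) : pb c (khD a φ f) x =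
      khD a φ (pb c f) x - pd a (pb c (fun y => ((φ y : ℝ) : ℂ))) x * f x := by
  have h1 : khD a φ f = fun x => pd a f x - pd a (fun y => ((φ y : ℝ) : ℂ)) x * f x := rfl
  have hpd : DifferentiableAt ℝ (pd a (fun y => ((φ y : ℝ) : ℂ))) x :=
    (contDiff_pd (kh_phi hφ)).differentiable (by simp) x
  have hf' : DifferentiableAt ℝ f x := hf.1.differentiable (by simp) x
  have hpf : DifferentiableAt ℝ (pd a f) x := (contDiff_pd hf.1).differentiable (by simp) x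
  have hpm : DifferentiableAt ℝ (fun x => pd a (fun y => ((φ y : ℝ) : ℂ)) x * f x) x :=
    hpd.mul hf'
  rw [h1, pb_sub hpf hpm, pb_mul hpd hf', pb_pd_comm hf.1, pb_pd_comm (kh_phi hφ)]
  unfold khD
  ring

private theorem kh_sub_left {φ : E → ℝ} (hφ : ContDiff ℝ ∞ φ) {f f' g : E → ℂ} (hf : Tst f)
    (hf' : Tst f') (hg : Tst g) :
    khI μ φ (fun x => f x - f' x) g = khI μ φ f g - khI μ φ f' g := by
  unfold khI
  rw [← integral_sub (kh_int hφ hf hg) (kh_int hφ hf' hg)]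
  congr 1
  funext x
  ring

private theorem kh_cross {ι : Type} [Fintype ι] (b : ι → E) {φ : E → ℝ} (hφ : ContDiff ℝ ∞ φ)
    {v : ι → E → ℂ} (hv : ∀ j, Tst (v j)) (j k : ι) :
    khI μ φ (khD (b j) φ (v j)) (khD (b k) φ (v k)) =
      khI μ φ (pb (b k) (v j)) (pb (b j) (v k)) +
        khI μ φ (fun x => pd (b j) (pb (b k) (fun y => ((φ y : ℝ) : ℂ))) x * v j x) (v k) := by
  rw [kh_adj hφ (kh_tst_D hφ (hv j)) (hv k)]
  have h1 : pb (b k) (khD (b j) φ (v j)) = fun x => khD (b j) φ (pb (b k) (v j)) x -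
      pd (b j) (pb (b k) (fun y => ((φ y : ℝ) : ℂ))) x * v j x := by
    funext x
    exact kh_comm hφ (hv j) x
  rw [h1, kh_sub_left hφ (kh_tst_D hφ (hv j).pb)
    (Tst.mul (contDiff_pd (contDiff_pb (kh_phi hφ))) (hv j)) (hv k),
    kh_adj' hφ (hv j).pb (hv k)]
  ring

private theorem kh_dl {ι : Type} [Fintype ι] (b : ι → E) {φ : E → ℝ} (hφ : ContDiff ℝ ∞ φ)
    {v : ι → E → ℂ} (hv : ∀ j, Tst (v j)) :
    khI μ φ (dl b φ v) (dl b φ v) =
      ∑ j, ∑ k, khI μ φ (khD (b j) φ (v j)) (khD (b k) φ (v k)) := by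
  unfold khI
  have h1 : ∀ j, ∑ k, ∫ x, khD (b j) φ (v j) x * (starRingEnd ℂ) (khD (b k) φ (v k) x) *
      ((Real.exp (-φ x) : ℝ) : ℂ) ∂μ = ∫ x, ∑ k, khD (b j) φ (v j) x *
        (starRingEnd ℂ) (khD (b k) φ (v k) x) * ((Real.exp (-φ x) : ℝ) : ℂ) ∂μ := fun j =>
    (integral_finsetSum _ (fun k _ => kh_int hφ (kh_tst_D hφ (hv j)) (kh_tst_D hφ (hv k)))).symm
  simp only [h1]
  rw [← integral_finsetSum _ (fun j _ => integrable_finsetSum _
    (fun k _ => kh_int hφ (kh_tst_D hφ (hv j)) (kh_tst_D hφ (hv k))))]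
  congr 1
  funext x
  rw [dl_eq, map_neg, neg_mul_neg, map_sum, Finset.sum_mul_sum, Finset.sum_mul]
  refine Finset.sum_congr rfl fun j _ => ?_
  rw [Finset.sum_mul]

omit [FiniteDimensional ℂ E] [MeasurableSpace E] [BorelSpace E] in
private theorem kh_levi_pt {ι : Type} [Fintype ι] (b : ι → E) {φ : E → ℝ}
    (hφ : ContDiff ℝ ∞ φ) (v : ι → E → ℂ) (x : E) :
    (((levi φ x (∑ j, v j x • b j) * Real.exp (-φ x) : ℝ)) : ℂ) =
      ∑ j, ∑ k, pd (b j) (pb (b k) (fun y => ((φ y : ℝ) : ℂ))) x * v j x *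
        (starRingEnd ℂ) (v k x) * ((Real.exp (-φ x) : ℝ) : ℂ) := by
  rw [Complex.ofReal_mul, levi_eq_sum b hφ x (fun j => v j x), Finset.sum_mul]
  refine Finset.sum_congr rfl fun j _ => ?_
  rw [Finset.sum_mul]
  refine Finset.sum_congr rfl fun k _ => ?_
  ring

private theorem kh_levi_int {ι : Type} [Fintype ι] (b : ι → E) {φ : E → ℝ}
    (hφ : ContDiff ℝ ∞ φ) {v : ι → E → ℂ} (hv : ∀ j, Tst (v j)) (j k : ι) :
    Integrable (fun x => pd (b j) (pb (b k) (fun y => ((φ y : ℝ) : ℂ))) x * v j x *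
        (starRingEnd ℂ) (v k x) * ((Real.exp (-φ x) : ℝ) : ℂ)) μ :=
  kh_int hφ (Tst.mul (contDiff_pd (contDiff_pb (kh_phi hφ))) (hv j)) (hv k)

private theorem kh_levi {ι : Type} [Fintype ι] (b : ι → E) {φ : E → ℝ} (hφ : ContDiff ℝ ∞ φ)
    {v : ι → E → ℂ} (hv : ∀ j, Tst (v j)) :
    (((∫ x, levi φ x (∑ j, v j x • b j) * Real.exp (-φ x) ∂μ : ℝ)) : ℂ) =
      ∑ j, ∑ k, khI μ φ (fun x => pd (b j) (pb (b k) (fun y => ((φ y : ℝ) : ℂ))) x * v j x)
        (v k) := by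
  rw [kh_ofReal]
  simp only [kh_levi_pt b hφ v]
  rw [integral_finsetSum _ (fun j _ => integrable_finsetSum _
    (fun k _ => kh_levi_int b hφ hv j k))]
  refine Finset.sum_congr rfl fun j _ => ?_
  rw [integral_finsetSum _ (fun k _ => kh_levi_int b hφ hv j k)]
  rfl

private theorem kh_diff {φ : E → ℝ} (hφ : ContDiff ℝ ∞ φ) {f g : E → ℂ} (hf : Tst f)
    (hg : Tst g) :
    (((∫ x, ‖f x - g x‖ ^ 2 * Real.exp (-φ x) ∂μ : ℝ)) : ℂ) =
      khI μ φ f f + khI μ φ g g - khI μ φ f g - khI μ φ g f := by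
  have h0 := kh_self (μ := μ) φ (fun x => f x - g x)
  have h1 : ∀ u : E → ℂ, Tst u → khI μ φ u (fun x => f x - g x) = khI μ φ u f - khI μ φ u g := by
    intro u hu
    rw [← kh_conj, kh_sub_left hφ hf hg hu, map_sub, kh_conj, kh_conj]
  rw [h0, kh_sub_left hφ hf hg (kh_sub hf hg), h1 f hf, h1 g hg]
  ring

/-- the Kohn-Hörmander identity -/
theorem kohn_identity {ι : Type} [Fintype ι] (b : ι → E) {φ : E → ℝ} (hφ : ContDiff ℝ ∞ φ)
    {v : ι → E → ℂ} (hv : ∀ j, Tst (v j)) :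
    ∫ x, ‖dl b φ v x‖ ^ 2 * Real.exp (-φ x) ∂μ +
        ∑ j, ∑ k, (1 / 2) * ∫ x, ‖pb (b j) (v k) x - pb (b k) (v j) x‖ ^ 2 * Real.exp (-φ x) ∂μ =
      ∫ x, levi φ x (∑ j, v j x • b j) * Real.exp (-φ x) ∂μ +
        ∑ j, ∑ k, ∫ x, ‖pb (b j) (v k) x‖ ^ 2 * Real.exp (-φ x) ∂μ := by
  apply Complex.ofReal_injective
  push_cast
  have e1 := kh_self (μ := μ) φ (dl b φ v)
  have e2 := kh_levi (μ := μ) b hφ hv
  have e3 : ∀ j k, (((∫ x, ‖pb (b j) (v k) x‖ ^ 2 * Real.exp (-φ x) ∂μ : ℝ)) : ℂ) =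
      khI μ φ (pb (b j) (v k)) (pb (b j) (v k)) := fun j k => kh_self φ _
  have e4 : ∀ j k, (((∫ x, ‖pb (b j) (v k) x - pb (b k) (v j) x‖ ^ 2 *
      Real.exp (-φ x) ∂μ : ℝ)) : ℂ) = khI μ φ (pb (b j) (v k)) (pb (b j) (v k)) +
      khI μ φ (pb (b k) (v j)) (pb (b k) (v j)) - khI μ φ (pb (b j) (v k)) (pb (b k) (v j)) -
      khI μ φ (pb (b k) (v j)) (pb (b j) (v k)) := fun j k => kh_diff hφ (hv k).pb (hv j).pb
  rw [e1, e2, kh_dl b hφ hv]
  simp only [e3, e4, kh_cross b hφ hv, mul_add, mul_sub, Finset.sum_add_distrib,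
    Finset.sum_sub_distrib, ← Finset.mul_sum]
  have s1 : ∑ j, ∑ k, khI μ φ (pb (b k) (v j)) (pb (b k) (v j)) =
      ∑ j, ∑ k, khI μ φ (pb (b j) (v k)) (pb (b j) (v k)) := Finset.sum_comm
  have s2 : ∑ j, ∑ k, khI μ φ (pb (b j) (v k)) (pb (b k) (v j)) =
      ∑ j, ∑ k, khI μ φ (pb (b k) (v j)) (pb (b j) (v k)) := Finset.sum_comm
  rw [s1, s2]
  ring

/-- the Kohn-Hörmander inequality -/
theorem kohn_ineq {ι : Type} [Fintype ι] (b : ι → E) {φ : E → ℝ} (hφ : ContDiff ℝ ∞ φ)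
    (hl : ∀ x, ∀ w : ι → ℂ, ∑ j, ‖w j‖ ^ 2 ≤ levi φ x (∑ j, w j • b j))
    {v : ι → E → ℂ} (hv : ∀ j, Tst (v j)) :
    ∑ j, ∫ x, ‖v j x‖ ^ 2 * Real.exp (-φ x) ∂μ ≤
      ∫ x, ‖dl b φ v x‖ ^ 2 * Real.exp (-φ x) ∂μ +
        ∑ j, ∑ k, (1 / 2) * ∫ x, ‖pb (b j) (v k) x - pb (b k) (v j) x‖ ^ 2 * Real.exp (-φ x) ∂μ := by
  rw [kohn_identity b hφ hv]
  have h0 : 0 ≤ ∑ j, ∑ k, ∫ x, ‖pb (b j) (v k) x‖ ^ 2 * Real.exp (-φ x) ∂μ :=
    Finset.sum_nonneg fun j _ => Finset.sum_nonneg fun k _ =>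
      integral_nonneg fun x => mul_nonneg (by positivity) (Real.exp_pos _).le
  have hi : ∀ j, Integrable (fun x => ‖v j x‖ ^ 2 * Real.exp (-φ x)) μ := by
    intro j
    have h := (kh_int (μ := μ) hφ (hv j) (hv j)).re
    refine h.congr (Filter.Eventually.of_forall fun x => ?_)
    have h2 : v j x * (starRingEnd ℂ) (v j x) * ((Real.exp (-φ x) : ℝ) : ℂ) =
        ((‖v j x‖ ^ 2 * Real.exp (-φ x) : ℝ) : ℂ) := by
      rw [Complex.mul_conj, Complex.normSq_eq_norm_sq]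
      push_cast
      ring
    simp only [h2]
    exact Complex.ofReal_re _
  have hL : Integrable (fun x => levi φ x (∑ j, v j x • b j) * Real.exp (-φ x)) μ := by
    have h := (integrable_finsetSum (μ := μ) Finset.univ (fun j _ => integrable_finsetSum
      Finset.univ (fun k _ => kh_levi_int (μ := μ) b hφ hv j k))).re
    refine h.congr (Filter.Eventually.of_forall fun x => ?_)
    have h2 := kh_levi_pt b hφ v x
    simp only [← h2]
    exact Complex.ofReal_re _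
  rw [← integral_finsetSum _ (fun j _ => hi j)]
  have h1 : ∫ x, ∑ j, ‖v j x‖ ^ 2 * Real.exp (-φ x) ∂μ ≤
      ∫ x, levi φ x (∑ j, v j x • b j) * Real.exp (-φ x) ∂μ := by
    refine integral_mono (integrable_finsetSum _ (fun j _ => hi j)) hL fun x => ?_
    simp only
    rw [← Finset.sum_mul]
    exact mul_le_mul_of_nonneg_right (hl x fun j => v j x) (Real.exp_pos _).le
  linarith

end OkaP
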