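import Pool.Agent.H.MP_ceb9a9.Ibp

/-!
# MP_ceb9a9, chapter 1: circled mollifiers and convolution
-/

set_option autoImplicit false

open Set Metric Topology MeasureTheory
open scoped ContDiff

noncomputable section
namespace OkaP

variable {E : Type} [NormedAddCommGroup E] [NormedSpace ℂ E] [FiniteDimensional ℂ E]
  [MeasurableSpace E] [BorelSpace E] {μ : Measure E} [μ.IsAddHaarMeasure]

/-- a circled mollifier supported in the ball of radius `δ` -/
structure Mol (μ : Measure E) (ρ : E → ℝ) (δ : ℝ) : Prop where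
  smooth : ContDiff ℝ ∞ ρ
  nonneg : ∀ x, 0 ≤ ρ x
  supp : ∀ x, δ ≤ ‖x‖ → ρ x = 0
  int_one : ∫ x, ρ x ∂μ = 1
  circ : ∀ c : ℂ, ‖c‖ = 1 → ∀ x, ρ (c • x) = ρ x

omit [MeasurableSpace E] [BorelSpace E] in
private theorem moll_proper : ProperSpace E := FiniteDimensional.proper ℂ E

theorem exists_mol (μ : Measure E) [μ.IsAddHaarMeasure] {δ : ℝ} (hδ : 0 < δ) :
    ∃ ρ : E → ℝ, Mol μ ρ δ := by
  classical
  have hprop : ProperSpace E := moll_proper
  let b := Module.finBasis ℂ E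
  let L : Fin (Module.finrank ℂ E) → (E →L[ℂ] ℂ) := fun j =>
    LinearMap.toContinuousLinearMap (b.coord j)
  have hL : ∀ j x, L j x = b.repr x j := fun j x => rfl
  let q : E → ℝ := fun x => ∑ j, ‖L j x‖ ^ 2
  have hq0 : ∀ x, 0 ≤ q x := fun x => Finset.sum_nonneg fun j _ => sq_nonneg _
  have hqs : ContDiff ℝ ∞ q := by
    refine ContDiff.sum fun j _ => ?_
    exact (((L j).restrictScalars ℝ).contDiff).norm_sq ℝ
  have hqc : ∀ c : ℂ, ‖c‖ = 1 → ∀ x, q (c • x) = q x := by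
    intro c hc x
    refine Finset.sum_congr rfl fun j _ => ?_
    rw [map_smul, norm_smul, hc, one_mul]
  set M : ℝ := ∑ j, ‖b j‖ + 1 with hM
  have hM0 : 0 < M := by
    have : 0 ≤ ∑ j, ‖b j‖ := Finset.sum_nonneg fun j _ => norm_nonneg _
    linarith
  set η : ℝ := (δ / M) ^ 2 with hη
  have hη0 : 0 < η := by positivity
  have hsmall : ∀ x, q x < η → ‖x‖ < δ := by
    intro x hx
    have h1 : ∀ j, ‖L j x‖ ≤ δ / M := by
      intro j
      have h2 : ‖L j x‖ ^ 2 ≤ q x :=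
        Finset.single_le_sum (f := fun j => ‖L j x‖ ^ 2) (fun j _ => sq_nonneg _)
          (Finset.mem_univ j)
      have h3 : ‖L j x‖ ^ 2 ≤ (δ / M) ^ 2 := by linarith
      exact (sq_le_sq₀ (norm_nonneg _) (by positivity)).mp h3
    have h2 : ‖x‖ ≤ ∑ j, ‖L j x‖ * ‖b j‖ := by
      conv_lhs => rw [← b.sum_repr x]
      refine (norm_sum_le _ _).trans (Finset.sum_le_sum fun j _ => ?_)
      rw [norm_smul, hL]
    have h3 : ∑ j, ‖L j x‖ * ‖b j‖ ≤ (δ / M) * ∑ j, ‖b j‖ := by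
      rw [Finset.mul_sum]
      exact Finset.sum_le_sum fun j _ => mul_le_mul_of_nonneg_right (h1 j) (norm_nonneg _)
    have h4 : (δ / M) * ∑ j, ‖b j‖ < (δ / M) * M := by
      apply mul_lt_mul_of_pos_left _ (by positivity)
      rw [hM]; linarith
    have h5 : (δ / M) * M = δ := by field_simp
    linarith
  let ρ0 : E → ℝ := fun x => Real.smoothTransition (1 - q x / η)
  have hs0 : ContDiff ℝ ∞ ρ0 := by
    have h1 : ContDiff ℝ ∞ (fun x => 1 - q x / η) := contDiff_const.sub (hqs.div_const η)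
    exact (Real.smoothTransition.contDiff (n := ⊤)).comp h1
  have hn0 : ∀ x, 0 ≤ ρ0 x := fun x => Real.smoothTransition.nonneg _
  have hsup0 : ∀ x, δ ≤ ‖x‖ → ρ0 x = 0 := by
    intro x hx
    apply Real.smoothTransition.zero_of_nonpos
    have h1 : η ≤ q x := by
      by_contra hcon
      exact absurd (hsmall x (not_le.mp hcon)) (not_lt.mpr hx)
    have h2 : 1 ≤ q x / η := by rwa [le_div_iff₀ hη0, one_mul]
    linarith
  have hcs0 : HasCompactSupport ρ0 := by
    apply HasCompactSupport.intro (isCompact_closedBall (0 : E) δ)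
    intro x hx
    apply hsup0
    rw [mem_closedBall, dist_zero_right, not_le] at hx
    exact hx.le
  have h00 : ρ0 0 ≠ 0 := by
    have : q 0 = 0 := by simp [q]
    simp [ρ0, this]
  have hpos : 0 < ∫ x, ρ0 x ∂μ :=
    hs0.continuous.integral_pos_of_hasCompactSupport_nonneg_nonzero hcs0 hn0 h00
  refine ⟨fun x => (∫ x, ρ0 x ∂μ)⁻¹ * ρ0 x, ?_, ?_, ?_, ?_, ?_⟩
  · exact contDiff_const.mul hs0
  · intro x
    exact mul_nonneg (inv_nonneg.mpr hpos.le) (hn0 x)
  · intro x hx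
    rw [hsup0 x hx, mul_zero]
  · rw [integral_const_mul, inv_mul_cancel₀ hpos.ne']
  · intro c hc x
    simp only [ρ0, hqc c hc x]

/-- convolution `f * ρ` -/
def cv (μ : Measure E) (ρ : E → ℝ) (f : E → ℂ) (x : E) : ℂ :=
  ∫ y, f y * ((ρ (x - y) : ℝ) : ℂ) ∂μ

omit [BorelSpace E] [μ.IsAddHaarMeasure] in
private theorem moll_hcs {ρ : E → ℝ} {δ : ℝ} (h : Mol μ ρ δ) : HasCompactSupport ρ := by
  have hprop : ProperSpace E := moll_proper
  apply HasCompactSupport.intro (isCompact_closedBall (0 : E) δ)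
  intro x hx
  apply h.supp
  rw [mem_closedBall, dist_zero_right, not_le] at hx
  exact hx.le

theorem Mol.tst {ρ : E → ℝ} {δ : ℝ} (h : Mol μ ρ δ) : Tst (fun x => ((ρ x : ℝ) : ℂ)) := by
  refine ⟨Complex.ofRealCLM.contDiff.comp h.smooth, ?_⟩
  exact (moll_hcs h).comp_left (g := fun r : ℝ => (r : ℂ)) Complex.ofReal_zero

/-- the reflected translate of a mollifier is a test function -/
theorem Mol.tst_sub {ρ : E → ℝ} {δ : ℝ} (h : Mol μ ρ δ) (x : E) :
    Tst (fun y => ((ρ (x - y) : ℝ) : ℂ)) := by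
  refine ⟨h.tst.1.comp (contDiff_const.sub contDiff_id), ?_⟩
  exact h.tst.2.comp_homeomorph (Homeomorph.subLeft x)

private theorem moll_cv_eq (μ : Measure E) (ρ : E → ℝ) (f : E → ℂ) :
    cv μ ρ f = convolution f (fun x => ((ρ x : ℝ) : ℂ)) (ContinuousLinearMap.mul ℝ ℂ) μ := by
  funext x
  rfl

theorem cv_smooth {ρ : E → ℝ} {δ : ℝ} (h : Mol μ ρ δ) {f : E → ℂ}
    (hf : LocallyIntegrable f μ) : ContDiff ℝ ∞ (cv μ ρ f) := by
  rw [moll_cv_eq]
  exact HasCompactSupport.contDiff_convolution_right (n := ⊤) _ h.tst.2 hf h.tst.1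

private theorem moll_fderiv {ρ : E → ℝ} {δ : ℝ} (h : Mol μ ρ δ) {f : E → ℂ}
    (hf : LocallyIntegrable f μ) (a x : E) :
    fderiv ℝ (cv μ ρ f) x a = ∫ y, f y * fderiv ℝ (fun x => ((ρ x : ℝ) : ℂ)) (x - y) a ∂μ := by
  have h1 := HasCompactSupport.hasFDerivAt_convolution_right (ContinuousLinearMap.mul ℝ ℂ)
    h.tst.2 hf (h.tst.1.of_le (by simp)) x
  rw [← moll_cv_eq] at h1
  rw [h1.fderiv]
  exact convolution_precompR_apply _ hf (h.tst.2.fderiv ℝ) (h.tst.1.continuous_fderiv (by simp))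
    x a

private theorem moll_tst_fd {ρ : E → ℝ} {δ : ℝ} (h : Mol μ ρ δ) (a x : E) :
    Tst (fun y => fderiv ℝ (fun x => ((ρ x : ℝ) : ℂ)) (x - y) a) := by
  have h1 : ContDiff ℝ ∞ (fun y => fderiv ℝ (fun x => ((ρ x : ℝ) : ℂ)) y a) := by
    have h2 : ContDiff ℝ ∞ (fderiv ℝ (fun x => ((ρ x : ℝ) : ℂ))) :=
      h.tst.1.fderiv_right (by simp)
    exact h2.clm_apply contDiff_const
  refine ⟨h1.comp (contDiff_const.sub contDiff_id), ?_⟩
  have h3 : HasCompactSupport (fun y => fderiv ℝ (fun x => ((ρ x : ℝ) : ℂ)) y a) :=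
    h.tst.2.fderiv_apply ℝ a
  exact h3.comp_homeomorph (Homeomorph.subLeft x)

private theorem moll_fd_sub {ρ : E → ℝ} {δ : ℝ} (h : Mol μ ρ δ) (a x y : E) :
    fderiv ℝ (fun z => ((ρ (x - z) : ℝ) : ℂ)) y a =
      - fderiv ℝ (fun x => ((ρ x : ℝ) : ℂ)) (x - y) a := by
  have h1 : HasFDerivAt (fun z => ((ρ (x - z) : ℝ) : ℂ))
      ((fderiv ℝ (fun x => ((ρ x : ℝ) : ℂ)) (x - y)).comp (-(ContinuousLinearMap.id ℝ E))) y := by
    have h2 : HasFDerivAt (fun z : E => x - z) (-(ContinuousLinearMap.id ℝ E)) y :=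
      (hasFDerivAt_id y).const_sub x
    have h3 : HasFDerivAt (fun x => ((ρ x : ℝ) : ℂ)) (fderiv ℝ (fun x => ((ρ x : ℝ) : ℂ)) (x - y))
        (x - y) := ((h.tst.1.differentiable (by simp)) (x - y)).hasFDerivAt
    exact h3.comp y h2
  rw [h1.fderiv]
  simp

/-- derivatives of the convolution fall on the mollifier -/
theorem pb_cv {ρ : E → ℝ} {δ : ℝ} (h : Mol μ ρ δ) {f : E → ℂ} (hf : LocallyIntegrable f μ)
    (a x : E) :
    pb a (cv μ ρ f) x = - ∫ y, f y * pb a (fun z => ((ρ (x - z) : ℝ) : ℂ)) y ∂μ := by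
  have hi1 : Integrable (fun y => f y * fderiv ℝ (fun x => ((ρ x : ℝ) : ℂ)) (x - y) a) μ :=
    locInt_mul_tst hf (moll_tst_fd h a x)
  have hi2 : Integrable (fun y => f y * fderiv ℝ (fun x => ((ρ x : ℝ) : ℂ)) (x - y)
      (Complex.I • a)) μ := locInt_mul_tst hf (moll_tst_fd h (Complex.I • a) x)
  unfold pb
  rw [moll_fderiv h hf, moll_fderiv h hf, ← integral_const_mul, ← integral_add hi1
    (hi2.const_mul _), ← integral_div, ← integral_neg]
  refine integral_congr_ae (Filter.Eventually.of_forall fun y => ?_)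
  simp only [moll_fd_sub h]
  ring

theorem pd_cv {ρ : E → ℝ} {δ : ℝ} (h : Mol μ ρ δ) {f : E → ℂ} (hf : LocallyIntegrable f μ)
    (a x : E) :
    pd a (cv μ ρ f) x = - ∫ y, f y * pd a (fun z => ((ρ (x - z) : ℝ) : ℂ)) y ∂μ := by
  have hi1 : Integrable (fun y => f y * fderiv ℝ (fun x => ((ρ x : ℝ) : ℂ)) (x - y) a) μ :=
    locInt_mul_tst hf (moll_tst_fd h a x)
  have hi2 : Integrable (fun y => f y * fderiv ℝ (fun x => ((ρ x : ℝ) : ℂ)) (x - y)
      (Complex.I • a)) μ := locInt_mul_tst hf (moll_tst_fd h (Complex.I • a) x)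
  unfold pd
  rw [moll_fderiv h hf, moll_fderiv h hf, ← integral_const_mul, ← integral_sub hi1
    (hi2.const_mul _), ← integral_div, ← integral_neg]
  refine integral_congr_ae (Filter.Eventually.of_forall fun y => ?_)
  simp only [moll_fd_sub h]
  ring

/-- the support of the convolution -/
theorem cv_eq_zero {ρ : E → ℝ} {δ : ℝ} (h : Mol μ ρ δ) {f : E → ℂ} {K : Set E}
    (hK : ∀ x, x ∉ K → f x = 0) {x : E} (hx : x ∉ cthickening δ K) : cv μ ρ f x = 0 := by
  unfold cv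
  rw [← integral_zero E ℂ (μ := μ)]
  refine integral_congr_ae (Filter.Eventually.of_forall fun y => ?_)
  by_cases hy : y ∈ K
  · have h1 : δ ≤ ‖x - y‖ := by
      by_contra hcon
      rw [not_le] at hcon
      apply hx
      apply mem_cthickening_of_dist_le x y δ K hy
      rw [dist_eq_norm]
      exact hcon.le
    simp only [h.supp _ h1, Complex.ofReal_zero, mul_zero]
  · simp only [hK y hy, zero_mul]

private theorem moll_int_sub {ρ : E → ℝ} {δ : ℝ} (h : Mol μ ρ δ) (x : E) :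
    ∫ y, ρ (x - y) ∂μ = 1 := by
  have hprop : ProperSpace E := moll_proper
  rw [integral_sub_left_eq_self (fun z => ρ z) μ x]
  exact h.int_one

private theorem moll_int_mul {ρ : E → ℝ} {δ : ℝ} (h : Mol μ ρ δ) {u : E → ℝ}
    (hu : LocallyIntegrable u μ) (x : E) : Integrable (fun y => u y * ρ (x - y)) μ := by
  have h1 : Continuous (fun y => ρ (x - y)) := h.smooth.continuous.comp (continuous_const.sub
    continuous_id)
  have h2 : HasCompactSupport (fun y => ρ (x - y)) :=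
    (moll_hcs h).comp_homeomorph (Homeomorph.subLeft x)
  have h3 := hu.integrable_smul_left_of_hasCompactSupport h1 h2
  refine h3.congr (Filter.Eventually.of_forall fun y => ?_)
  simp only [smul_eq_mul]
  ring

private theorem moll_int_rho {ρ : E → ℝ} {δ : ℝ} (h : Mol μ ρ δ) (x : E) :
    Integrable (fun y => ρ (x - y)) μ := by
  have h1 : Continuous (fun y => ρ (x - y)) := h.smooth.continuous.comp (continuous_const.sub
    continuous_id)
  have h2 : HasCompactSupport (fun y => ρ (x - y)) :=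
    (moll_hcs h).comp_homeomorph (Homeomorph.subLeft x)
  exact h1.integrable_of_hasCompactSupport h2

/-- Jensen -/
private theorem moll_pointwise {ρ : E → ℝ} {δ : ℝ} (h : Mol μ ρ δ) {f : E → ℂ}
    (hf : LocallyIntegrable (fun y => ‖f y‖) μ)
    (hf2 : LocallyIntegrable (fun y => ‖f y‖ ^ 2) μ) (x : E) :
    ‖cv μ ρ f x‖ ^ 2 ≤ ∫ y, ‖f y‖ ^ 2 * ρ (x - y) ∂μ := by
  have hi0 : Integrable (fun y => ρ (x - y)) μ := moll_int_rho h x
  have hi1 : Integrable (fun y => ‖f y‖ * ρ (x - y)) μ := moll_int_mul h hf x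
  have hi2 : Integrable (fun y => ‖f y‖ ^ 2 * ρ (x - y)) μ := moll_int_mul h hf2 x
  set t : ℝ := ∫ y, ‖f y‖ * ρ (x - y) ∂μ with ht
  have h1 : ‖cv μ ρ f x‖ ≤ t := by
    unfold cv
    refine (norm_integral_le_integral_norm _).trans (le_of_eq ?_)
    rw [ht]
    refine integral_congr_ae (Filter.Eventually.of_forall fun y => ?_)
    simp only [norm_mul, Complex.norm_real, Real.norm_eq_abs, abs_of_nonneg (h.nonneg _)]
  have h2 : 0 ≤ ∫ y, (‖f y‖ - t) ^ 2 * ρ (x - y) ∂μ :=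
    integral_nonneg fun y => mul_nonneg (sq_nonneg _) (h.nonneg _)
  have h3 : ∫ y, (‖f y‖ - t) ^ 2 * ρ (x - y) ∂μ =
      ∫ y, ‖f y‖ ^ 2 * ρ (x - y) ∂μ - t ^ 2 := by
    have e1 : (fun y => (‖f y‖ - t) ^ 2 * ρ (x - y)) = fun y =>
        (‖f y‖ ^ 2 * ρ (x - y) - (2 * t) * (‖f y‖ * ρ (x - y))) + t ^ 2 * ρ (x - y) := by
      funext y; ring
    have hi3 : Integrable (fun y => (2 * t) * (‖f y‖ * ρ (x - y))) μ := hi1.const_mul _
    have hi4 : Integrable (fun y => t ^ 2 * ρ (x - y)) μ := hi0.const_mul _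
    have hi5 : Integrable (fun y => ‖f y‖ ^ 2 * ρ (x - y) - (2 * t) * (‖f y‖ * ρ (x - y))) μ :=
      hi2.sub hi3
    rw [e1, integral_add hi5 hi4, integral_sub hi2 hi3, integral_const_mul, integral_const_mul,
      moll_int_sub h x, ← ht]
    ring
  have h4 : ‖cv μ ρ f x‖ ^ 2 ≤ t ^ 2 := by
    have := norm_nonneg (cv μ ρ f x)
    nlinarith
  linarith

/-- Young's inequality -/
theorem cv_young {ρ : E → ℝ} {δ : ℝ} (h : Mol μ ρ δ) {f : E → ℂ} (hf : MemLp f 2 μ) :
    MemLp (cv μ ρ f) 2 μ ∧ ∫ x, ‖cv μ ρ f x‖ ^ 2 ∂μ ≤ ∫ x, ‖f x‖ ^ 2 ∂μ := by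
  have hprop : ProperSpace E := moll_proper
  have hfl : LocallyIntegrable f μ := hf.locallyIntegrable (by norm_num)
  have hf2 : Integrable (fun y => ‖f y‖ ^ 2) μ := (memLp_two_iff_integrable_sq_norm hf.1).mp hf
  have hρ : Integrable ρ μ := h.smooth.continuous.integrable_of_hasCompactSupport (moll_hcs h)
  set G : E → ℝ := convolution (fun y => ‖f y‖ ^ 2) ρ (ContinuousLinearMap.mul ℝ ℝ) μ with hG
  have hGi : Integrable G μ := hf2.integrable_convolution _ hρ
  have hGe : ∀ x, G x = ∫ y, ‖f y‖ ^ 2 * ρ (x - y) ∂μ := fun x => rfl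
  have hGint : ∫ x, G x ∂μ = ∫ x, ‖f x‖ ^ 2 ∂μ := by
    rw [hG, integral_convolution _ hf2 hρ, h.int_one]
    simp
  have hle : ∀ x, ‖cv μ ρ f x‖ ^ 2 ≤ G x := fun x => by
    rw [hGe]
    exact moll_pointwise h (hf.norm.locallyIntegrable (by norm_num)) hf2.locallyIntegrable x
  have hm : AEStronglyMeasurable (cv μ ρ f) μ :=
    (cv_smooth h hfl).continuous.aestronglyMeasurable
  have hi : Integrable (fun x => ‖cv μ ρ f x‖ ^ 2) μ := by
    refine hGi.mono' (hm.norm.pow 2) (Filter.Eventually.of_forall fun x => ?_)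
    rw [Real.norm_eq_abs, abs_of_nonneg (sq_nonneg _)]
    exact hle x
  refine ⟨(memLp_two_iff_integrable_sq_norm hm).mpr hi, ?_⟩
  rw [← hGint]
  exact integral_mono hi hGi hle

private theorem moll_cv_sub {ρ : E → ℝ} {δ : ℝ} (h : Mol μ ρ δ) {f g : E → ℂ}
    (hf : LocallyIntegrable f μ) (hg : LocallyIntegrable g μ) (x : E) :
    cv μ ρ (fun y => f y - g y) x = cv μ ρ f x - cv μ ρ g x := by
  unfold cv
  rw [← integral_sub (locInt_mul_tst hf (h.tst_sub x)) (locInt_mul_tst hg (h.tst_sub x))]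
  refine integral_congr_ae (Filter.Eventually.of_forall fun y => ?_)
  simp only
  ring

private theorem moll_near {ρ : E → ℝ} {δ : ℝ} (h : Mol μ ρ δ) {g : E → ℂ}
    (hg : Continuous g) {ε : ℝ} (x : E) (hx : ∀ y, ‖x - y‖ < δ → ‖g y - g x‖ ≤ ε) :
    ‖cv μ ρ g x - g x‖ ≤ ε := by
  have hgl : LocallyIntegrable g μ := hg.locallyIntegrable
  have h1 : cv μ ρ g x - g x = ∫ y, (g y - g x) * ((ρ (x - y) : ℝ) : ℂ) ∂μ := by
    have h2 : ∫ y, g x * ((ρ (x - y) : ℝ) : ℂ) ∂μ = g x := by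
      rw [integral_const_mul]
      have h3 : ∫ y, ((ρ (x - y) : ℝ) : ℂ) ∂μ = 1 := by
        rw [integral_complex_ofReal, moll_int_sub h x, Complex.ofReal_one]
      rw [h3, mul_one]
    have h4 : (fun y => (g y - g x) * ((ρ (x - y) : ℝ) : ℂ)) = fun y =>
        g y * ((ρ (x - y) : ℝ) : ℂ) - g x * ((ρ (x - y) : ℝ) : ℂ) := by
      funext y; ring
    rw [h4, integral_sub (locInt_mul_tst hgl (h.tst_sub x)) ((h.tst_sub x).integrable.const_mul _),
      h2]
    rfl
  rw [h1]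
  have h5 : ‖∫ y, (g y - g x) * ((ρ (x - y) : ℝ) : ℂ) ∂μ‖ ≤ ∫ y, ε * ρ (x - y) ∂μ := by
    refine norm_integral_le_of_norm_le ((moll_int_rho h x).const_mul ε)
      (Filter.Eventually.of_forall fun y => ?_)
    rw [norm_mul, Complex.norm_real, Real.norm_eq_abs, abs_of_nonneg (h.nonneg _)]
    by_cases hy : ‖x - y‖ < δ
    · exact mul_le_mul_of_nonneg_right (hx y hy) (h.nonneg _)
    · rw [h.supp _ (not_lt.mp hy), mul_zero, mul_zero]
  rw [integral_const_mul, moll_int_sub h x, mul_one] at h5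
  exact h5

/-- mollifiers are an approximate identity in `L²` -/
theorem cv_tendsto {f : E → ℂ} (hf : MemLp f 2 μ) {η : ℝ} (hη : 0 < η) :
    ∃ δ0 > 0, ∀ (ρ : E → ℝ) (δ : ℝ), δ ≤ δ0 → Mol μ ρ δ →
      ∫ x, ‖cv μ ρ f x - f x‖ ^ 2 ∂μ ≤ η := by
  have hprop : ProperSpace E := moll_proper
  have hfl : LocallyIntegrable f μ := hf.locallyIntegrable (by norm_num)
  have hf' : MemLp f (ENNReal.ofReal 2) μ := by simpa using hf
  obtain ⟨g, hgc, hge, hgcont, hgm⟩ :=
    hf'.exists_hasCompactSupport_integral_rpow_sub_le (by norm_num) (show 0 < η / 9 by positivity)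
  have hgm2 : MemLp g 2 μ := by simpa using hgm
  have hge2 : ∫ x, ‖f x - g x‖ ^ 2 ∂μ ≤ η / 9 := by simpa using hge
  have hgl : LocallyIntegrable g μ := hgcont.locallyIntegrable
  set K : Set E := cthickening 1 (tsupport g) with hK
  have hKc : IsCompact K := hgc.isCompact.cthickening
  have hKf : μ K < ⊤ := hKc.measure_lt_top
  set m : ℝ := (μ K).toReal with hm
  have hm0 : 0 ≤ m := ENNReal.toReal_nonneg
  obtain ⟨ε, hε, hεm⟩ : ∃ ε : ℝ, 0 < ε ∧ ε ^ 2 * m ≤ η / 9 := by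
    refine ⟨Real.sqrt (η / 9 / (m + 1)), Real.sqrt_pos.mpr (by positivity), ?_⟩
    rw [Real.sq_sqrt (by positivity), div_mul_eq_mul_div, div_le_iff₀ (by positivity)]
    have : 0 ≤ η / 9 := by positivity
    nlinarith
  have huc : UniformContinuous g := hgc.uniformContinuous_of_continuous hgcont
  obtain ⟨δ1, hδ1, hδ2⟩ := Metric.uniformContinuous_iff.mp huc ε hε
  refine ⟨min δ1 1, lt_min hδ1 one_pos, ?_⟩
  intro ρ δ hδ h
  have hδa : δ ≤ δ1 := hδ.trans (min_le_left _ _)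
  have hδb : δ ≤ 1 := hδ.trans (min_le_right _ _)
  have hfg : MemLp (fun y => f y - g y) 2 μ := hf.sub hgm2
  obtain ⟨hy1, hy2⟩ := cv_young h hfg
  obtain ⟨hz1, -⟩ := cv_young h hgm2
  obtain ⟨hw1, -⟩ := cv_young h hf
  have hmid : MemLp (fun x => cv μ ρ g x - g x) 2 μ := hz1.sub hgm2
  have htot : MemLp (fun x => cv μ ρ f x - f x) 2 μ := hw1.sub hf
  have i1 : Integrable (fun x => ‖cv μ ρ (fun y => f y - g y) x‖ ^ 2) μ :=
    (memLp_two_iff_integrable_sq_norm hy1.1).mp hy1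
  have i2 : Integrable (fun x => ‖cv μ ρ g x - g x‖ ^ 2) μ :=
    (memLp_two_iff_integrable_sq_norm hmid.1).mp hmid
  have i3 : Integrable (fun x => ‖f x - g x‖ ^ 2) μ :=
    (memLp_two_iff_integrable_sq_norm hfg.1).mp hfg
  have i4 : Integrable (fun x => ‖cv μ ρ f x - f x‖ ^ 2) μ :=
    (memLp_two_iff_integrable_sq_norm htot.1).mp htot
  have hpt : ∀ x, ‖cv μ ρ f x - f x‖ ^ 2 ≤ 3 * (‖cv μ ρ (fun y => f y - g y) x‖ ^ 2 +
      ‖cv μ ρ g x - g x‖ ^ 2 + ‖f x - g x‖ ^ 2) := by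
    intro x
    have h1 : cv μ ρ f x - f x = cv μ ρ (fun y => f y - g y) x + (cv μ ρ g x - g x) -
        (f x - g x) := by
      rw [moll_cv_sub h hfl hgl]
      ring
    have h2 : ‖cv μ ρ f x - f x‖ ≤ ‖cv μ ρ (fun y => f y - g y) x‖ + ‖cv μ ρ g x - g x‖ +
        ‖f x - g x‖ := by
      rw [h1]
      exact (norm_sub_le _ _).trans (add_le_add (norm_add_le _ _) le_rfl)
    have h3 := norm_nonneg (cv μ ρ f x - f x)
    set A := ‖cv μ ρ (fun y => f y - g y) x‖
    set B := ‖cv μ ρ g x - g x‖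
    set C := ‖f x - g x‖
    have h4 : ‖cv μ ρ f x - f x‖ ^ 2 ≤ (A + B + C) ^ 2 := by
      exact pow_le_pow_left₀ h3 h2 2
    nlinarith [sq_nonneg (A - B), sq_nonneg (A - C), sq_nonneg (B - C)]
  have hB : ∫ x, ‖cv μ ρ g x - g x‖ ^ 2 ∂μ ≤ η / 9 := by
    have hzero : ∀ x, x ∉ K → ‖cv μ ρ g x - g x‖ ^ 2 = 0 := by
      intro x hx
      have h1 : x ∉ cthickening δ (tsupport g) := fun hcon =>
        hx (cthickening_mono hδb _ hcon)
      have h2 : cv μ ρ g x = 0 :=
        cv_eq_zero h (fun y hy => image_eq_zero_of_notMem_tsupport hy) h1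
      have h3 : g x = 0 := by
        apply image_eq_zero_of_notMem_tsupport
        intro hcon
        exact hx (self_subset_cthickening _ hcon)
      rw [h2, h3]; simp
    have hle : ∀ x, ‖cv μ ρ g x - g x‖ ^ 2 ≤ K.indicator (fun _ => ε ^ 2) x := by
      intro x
      by_cases hx : x ∈ K
      · rw [indicator_of_mem hx]
        have h1 : ‖cv μ ρ g x - g x‖ ≤ ε := by
          apply moll_near h hgcont x
          intro y hy
          have h2 : dist y x < δ1 := by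
            rw [dist_comm, dist_eq_norm]
            exact hy.trans_le hδa
          have h3 := hδ2 h2
          rw [dist_eq_norm] at h3
          exact h3.le
        exact pow_le_pow_left₀ (norm_nonneg _) h1 2
      · rw [indicator_of_notMem hx, hzero x hx]
    have hKm : MeasurableSet K := hKc.isClosed.measurableSet
    have hii : Integrable (K.indicator (fun _ => ε ^ 2)) μ :=
      (integrable_indicator_iff hKm).mpr (integrableOn_const hKf.ne)
    refine (integral_mono i2 hii hle).trans ?_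
    rw [integral_indicator hKm, setIntegral_const, smul_eq_mul]
    have : μ.real K = m := rfl
    rw [this, mul_comm]
    exact hεm
  have i5 : Integrable (fun x => 3 * (‖cv μ ρ (fun y => f y - g y) x‖ ^ 2 +
      ‖cv μ ρ g x - g x‖ ^ 2 + ‖f x - g x‖ ^ 2)) μ := ((i1.add i2).add i3).const_mul 3
  refine (integral_mono i4 i5 hpt).trans ?_
  have i6 : Integrable (fun x => ‖cv μ ρ (fun y => f y - g y) x‖ ^ 2 +
      ‖cv μ ρ g x - g x‖ ^ 2) μ := i1.add i2
  rw [integral_const_mul, integral_add i6 i3, integral_add i1 i2]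
  linarith

end OkaP
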