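import Pool.Agent.H.MP_ceb9a9.Kh
import Pool.Agent.H.MP_ceb9a9.Moll

/-!
# MP_ceb9a9, chapter 1: the Kohn-Hörmander inequality for compactly supported weak forms
-/

set_option autoImplicit false
set_option linter.unusedSectionVars false

open Set Metric Topology MeasureTheory Filter
open scoped ContDiff

noncomputable section
namespace OkaP

variable {E : Type} [NormedAddCommGroup E] [NormedSpace ℂ E] [FiniteDimensional ℂ E]
  [MeasurableSpace E] [BorelSpace E] {μ : Measure E} [μ.IsAddHaarMeasure]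

/-- convergence in the mean square -/
def KhwT (μ : Measure E) (u : ℕ → E → ℂ) (v : E → ℂ) : Prop :=
  (∀ n, MemLp (u n) 2 μ) ∧ MemLp v 2 μ ∧ Tendsto (fun n => ∫ x, ‖u n x - v x‖ ^ 2 ∂μ) atTop (𝓝 0)

omit [NormedAddCommGroup E] [NormedSpace ℂ E] [FiniteDimensional ℂ E] [BorelSpace E]
  [μ.IsAddHaarMeasure] in
theorem khw_int {u : E → ℂ} (hu : MemLp u 2 μ) : Integrable (fun x => ‖u x‖ ^ 2) μ :=
  (memLp_two_iff_integrable_sq_norm hu.1).mp hu

omit [NormedSpace ℂ E] [FiniteDimensional ℂ E] [BorelSpace E] [μ.IsAddHaarMeasure] in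
theorem KhwT.add {u u' : ℕ → E → ℂ} {v v' : E → ℂ} (h : KhwT μ u v) (h' : KhwT μ u' v') :
    KhwT μ (fun n x => u n x + u' n x) (fun x => v x + v' x) := by
  refine ⟨fun n => (h.1 n).add (h'.1 n), h.2.1.add h'.2.1, ?_⟩
  have hlim : Tendsto (fun n => 2 * (∫ x, ‖u n x - v x‖ ^ 2 ∂μ) + 2 * (∫ x, ‖u' n x - v' x‖ ^ 2 ∂μ))
      atTop (𝓝 0) := by
    simpa using (h.2.2.const_mul 2).add (h'.2.2.const_mul 2)
  refine squeeze_zero (fun n => integral_nonneg fun x => by positivity) (fun n => ?_) hlim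
  have i1 : Integrable (fun x => ‖u n x - v x‖ ^ 2) μ := khw_int ((h.1 n).sub h.2.1)
  have i2 : Integrable (fun x => ‖u' n x - v' x‖ ^ 2) μ := khw_int ((h'.1 n).sub h'.2.1)
  rw [← integral_const_mul, ← integral_const_mul, ← integral_add (i1.const_mul 2) (i2.const_mul 2)]
  refine integral_mono_of_nonneg (Eventually.of_forall fun x => by positivity)
    ((i1.const_mul 2).add (i2.const_mul 2)) (Eventually.of_forall fun x => ?_)
  have e : u n x + u' n x - (v x + v' x) = (u n x - v x) + (u' n x - v' x) := by ring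
  simp only
  rw [e]
  have h1 := norm_add_le (u n x - v x) (u' n x - v' x)
  have h2 := norm_nonneg (u n x - v x + (u' n x - v' x))
  nlinarith [sq_nonneg (‖u n x - v x‖ - ‖u' n x - v' x‖)]

omit [NormedSpace ℂ E] [FiniteDimensional ℂ E] [BorelSpace E] [μ.IsAddHaarMeasure] in
theorem KhwT.neg {u : ℕ → E → ℂ} {v : E → ℂ} (h : KhwT μ u v) :
    KhwT μ (fun n x => - u n x) (fun x => - v x) := by
  refine ⟨fun n => (h.1 n).neg, h.2.1.neg, ?_⟩
  have e : ∀ n x, ‖-u n x - -v x‖ = ‖u n x - v x‖ := by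
    intro n x
    rw [← norm_neg]
    congr 1
    ring
  simpa only [e] using h.2.2

omit [NormedSpace ℂ E] [FiniteDimensional ℂ E] [BorelSpace E] [μ.IsAddHaarMeasure] in
theorem KhwT.zero : KhwT μ (fun _ _ => (0 : ℂ)) (fun _ : E => (0 : ℂ)) := by
  refine ⟨fun n => MemLp.zero', MemLp.zero', ?_⟩
  simp

omit [NormedSpace ℂ E] [FiniteDimensional ℂ E] [BorelSpace E] [μ.IsAddHaarMeasure] in
theorem KhwT.sum {ι : Type} (s : Finset ι) {u : ι → ℕ → E → ℂ} {v : ι → E → ℂ}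
    (h : ∀ i ∈ s, KhwT μ (u i) (v i)) :
    KhwT μ (fun n x => ∑ i ∈ s, u i n x) (fun x => ∑ i ∈ s, v i x) := by
  classical
  induction s using Finset.induction_on with
  | empty => simpa using KhwT.zero
  | insert a s ha ih =>
    simp only [Finset.sum_insert ha]
    exact (h a (Finset.mem_insert_self a s)).add (ih fun i hi => h i (Finset.mem_insert_of_mem hi))

omit [NormedSpace ℂ E] [FiniteDimensional ℂ E] [μ.IsAddHaarMeasure] in
theorem KhwT.mul {u : ℕ → E → ℂ} {v : E → ℂ} (h : KhwT μ u v) {g : E → ℂ} (hg : Continuous g)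
    {K : Set E} {B : ℝ} (hB : ∀ x ∈ K, ‖g x‖ ≤ B) (hu : ∀ n x, x ∉ K → u n x = 0)
    (hv : ∀ x, x ∉ K → v x = 0) :
    KhwT μ (fun n x => g x * u n x) (fun x => g x * v x) := by
  have hb : ∀ (w : E → ℂ), (∀ x, x ∉ K → w x = 0) → ∀ x, ‖g x * w x‖ ≤ B * ‖w x‖ := by
    intro w hw x
    by_cases hx : x ∈ K
    · rw [norm_mul]
      exact mul_le_mul_of_nonneg_right (hB x hx) (norm_nonneg _)
    · simp [hw x hx]
  have hm : ∀ (w : E → ℂ), MemLp w 2 μ → (∀ x, x ∉ K → w x = 0) →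
      MemLp (fun x => g x * w x) 2 μ := by
    intro w hw hw0
    exact hw.of_le_mul (hg.aestronglyMeasurable.mul hw.1) (Eventually.of_forall (hb w hw0))
  refine ⟨fun n => hm _ (h.1 n) (hu n), hm _ h.2.1 hv, ?_⟩
  have hlim : Tendsto (fun n => B ^ 2 * (∫ x, ‖u n x - v x‖ ^ 2 ∂μ)) atTop (𝓝 0) := by
    simpa using h.2.2.const_mul (B ^ 2)
  refine squeeze_zero (fun n => integral_nonneg fun x => by positivity) (fun n => ?_) hlim
  rw [← integral_const_mul]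
  have i1 := khw_int ((h.1 n).sub h.2.1)
  refine integral_mono_of_nonneg (Eventually.of_forall fun x => by positivity)
    (i1.const_mul _) (Eventually.of_forall fun x => ?_)
  have h1 := hb (fun x => u n x - v x) (fun x hx => by simp [hu n x hx, hv x hx]) x
  simp only
  rw [← mul_sub, ← mul_pow]
  exact pow_le_pow_left₀ (norm_nonneg _) h1 2

omit [NormedSpace ℂ E] [FiniteDimensional ℂ E] [μ.IsAddHaarMeasure] in
theorem KhwT.weight {u : ℕ → E → ℂ} {v : E → ℂ} (h : KhwT μ u v) {κ : E → ℝ} (hκ : Continuous κ)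
    (hκ0 : ∀ x, 0 ≤ κ x) {K : Set E} {M : ℝ} (hM : ∀ x ∈ K, κ x ≤ M) (hM0 : 0 ≤ M)
    (hu : ∀ n x, x ∉ K → u n x = 0) (hv : ∀ x, x ∉ K → v x = 0) :
    Tendsto (fun n => ∫ x, ‖u n x‖ ^ 2 * κ x ∂μ) atTop (𝓝 (∫ x, ‖v x‖ ^ 2 * κ x ∂μ)) := by
  have hb : ∀ (w : E → ℂ), (∀ x, x ∉ K → w x = 0) → ∀ x, ‖w x‖ ^ 2 * κ x ≤ M * ‖w x‖ ^ 2 := by
    intro w hw x
    by_cases hx : x ∈ K
    · rw [mul_comm]
      exact mul_le_mul_of_nonneg_right (hM x hx) (by positivity)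
    · simp [hw x hx]
  have hint : ∀ (w : E → ℂ), MemLp w 2 μ → (∀ x, x ∉ K → w x = 0) →
      Integrable (fun x => ‖w x‖ ^ 2 * κ x) μ := by
    intro w hw hw0
    refine Integrable.mono' ((khw_int hw).const_mul M)
      ((hw.1.norm.pow 2).mul hκ.aestronglyMeasurable) (Eventually.of_forall fun x => ?_)
    rw [Real.norm_of_nonneg (mul_nonneg (by positivity) (hκ0 x))]
    exact hb w hw0 x
  rw [Metric.tendsto_atTop]
  intro ε hε
  set V := ∫ x, ‖v x‖ ^ 2 ∂μ with hV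
  have hV0 : 0 ≤ V := integral_nonneg fun x => by positivity
  -- choice of the parameter
  obtain ⟨s, hs0, hs⟩ : ∃ s : ℝ, 0 < s ∧ M * s * V < ε / 2 := by
    refine ⟨ε / (4 * (M * V + 1)), by positivity, ?_⟩
    have h1 : 0 ≤ M * V := mul_nonneg hM0 hV0
    have h2 : M * (ε / (4 * (M * V + 1))) * V = (M * V) / (M * V + 1) * (ε / 4) := by
      field_simp
    rw [h2]
    have h3 : (M * V) / (M * V + 1) ≤ 1 := by
      rw [div_le_one (by positivity)]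
      linarith
    nlinarith
  have h4 : Tendsto (fun n => M * (1 + 1 / s) * (∫ x, ‖u n x - v x‖ ^ 2 ∂μ)) atTop (𝓝 0) := by
    simpa using h.2.2.const_mul (M * (1 + 1 / s))
  obtain ⟨N, hN⟩ := (h4.eventually (gt_mem_nhds (half_pos hε))).exists_forall_of_atTop
  refine ⟨N, fun n hn => ?_⟩
  rw [Real.dist_eq, ← integral_sub (hint _ (h.1 n) (hu n)) (hint _ h.2.1 hv)]
  have hi := ((khw_int ((h.1 n).sub h.2.1)).const_mul (M * (1 + 1 / s))).add
    ((khw_int h.2.1).const_mul (M * s))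
  have hpt : ∀ x, |‖u n x‖ ^ 2 * κ x - ‖v x‖ ^ 2 * κ x| ≤
      M * (1 + 1 / s) * ‖u n x - v x‖ ^ 2 + M * s * ‖v x‖ ^ 2 := by
    intro x
    by_cases hx : x ∈ K
    · rw [← sub_mul, abs_mul, abs_of_nonneg (hκ0 x)]
      have h5 : |‖u n x‖ ^ 2 - ‖v x‖ ^ 2| ≤
          (1 + 1 / s) * ‖u n x - v x‖ ^ 2 + s * ‖v x‖ ^ 2 := by
        have h6 : |‖u n x‖ - ‖v x‖| ≤ ‖u n x - v x‖ := abs_norm_sub_norm_le _ _
        have h7 : ‖u n x‖ ^ 2 - ‖v x‖ ^ 2 = (‖u n x‖ - ‖v x‖) * (‖u n x‖ - ‖v x‖) +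
          (‖u n x‖ - ‖v x‖) * (2 * ‖v x‖) := by ring
        rw [h7]
        refine (abs_add_le _ _).trans ?_
        rw [abs_mul, abs_mul, abs_of_nonneg (by positivity : 0 ≤ 2 * ‖v x‖)]
        set a := ‖u n x - v x‖ with ha
        set t := |‖u n x‖ - ‖v x‖| with ht
        have ht0 : 0 ≤ t := abs_nonneg _
        have hv0 : 0 ≤ ‖v x‖ := norm_nonneg _
        have h8 : t * t ≤ a ^ 2 := by nlinarith
        have h9 : t * (2 * ‖v x‖) ≤ 1 / s * a ^ 2 + s * ‖v x‖ ^ 2 := by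
          have h10 : 2 * (a * ‖v x‖) ≤ 1 / s * a ^ 2 + s * ‖v x‖ ^ 2 := by
            have h11 : 0 ≤ (1 / s) * (a - s * ‖v x‖) ^ 2 := by positivity
            have h12 : (1 / s) * (a - s * ‖v x‖) ^ 2 = 1 / s * a ^ 2 + s * ‖v x‖ ^ 2 -
              2 * (a * ‖v x‖) := by
              field_simp
              ring
            linarith
          nlinarith [mul_le_mul_of_nonneg_right h6 hv0]
        linarith
      calc |‖u n x‖ ^ 2 - ‖v x‖ ^ 2| * κ x
          ≤ ((1 + 1 / s) * ‖u n x - v x‖ ^ 2 + s * ‖v x‖ ^ 2) * M := by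
            apply mul_le_mul h5 (hM x hx) (hκ0 x) (by positivity)
        _ = _ := by ring
    · rw [hu n x hx, hv x hx]
      simp
  calc |∫ x, (‖u n x‖ ^ 2 * κ x - ‖v x‖ ^ 2 * κ x) ∂μ|
      ≤ ∫ x, (M * (1 + 1 / s) * ‖(u n - v) x‖ ^ 2 + M * s * ‖v x‖ ^ 2) ∂μ := by
        rw [← Real.norm_eq_abs]
        exact norm_integral_le_of_norm_le hi (Eventually.of_forall hpt)
    _ = M * (1 + 1 / s) * (∫ x, ‖u n x - v x‖ ^ 2 ∂μ) + M * s * V := by
        rw [integral_add ((khw_int ((h.1 n).sub h.2.1)).const_mul _)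
          ((khw_int h.2.1).const_mul _), integral_const_mul, integral_const_mul]
        rfl
    _ < ε := by
        have := hN n hn
        linarith

/-- a weak first order datum vanishes where the form vanishes. -/
theorem khw_ae_zero {ι : Type} {b : ι → E} {K : Set E} (hK : IsCompact K)
    {w : ι → E → ℂ} (hwK : ∀ j, ∀ x, x ∉ K → w j x = 0) {j k : ι} {A : E → ℂ}
    (hA : MemLp A 2 μ)
    (hwA : ∀ ψ : E → ℂ, Tst ψ →
      ∫ x, (w k x * pb (b j) ψ x - w j x * pb (b k) ψ x) ∂μ = - ∫ x, A x * ψ x ∂μ) :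
    ∀ᵐ x ∂μ, x ∈ Kᶜ → A x = 0 := by
  have : FiniteDimensional ℝ E := FiniteDimensional.complexToReal E
  refine hK.isClosed.isOpen_compl.ae_eq_zero_of_integral_contDiff_smul_eq_zero
    ((hA.locallyIntegrable (by norm_num)).locallyIntegrableOn _) ?_
  intro g hg hgc hgs
  have hψ : Tst (fun x => ((g x : ℝ) : ℂ)) := by
    refine ⟨Complex.ofRealCLM.contDiff.comp hg, ?_⟩
    exact hgc.comp_left (g := fun t : ℝ => (t : ℂ)) Complex.ofReal_zero
  have h1 := hwA _ hψ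
  have h0 : ∀ x, w k x * pb (b j) (fun x => ((g x : ℝ) : ℂ)) x -
      w j x * pb (b k) (fun x => ((g x : ℝ) : ℂ)) x = 0 := by
    intro x
    by_cases hx : x ∈ K
    · have hx2 : ∀ a, pb a (fun x => ((g x : ℝ) : ℂ)) x = 0 := by
        intro a
        by_contra hne
        have h2 : x ∈ tsupport (fun x => ((g x : ℝ) : ℂ)) :=
          tsupport_pb_subset (subset_tsupport _ (Function.mem_support.mpr hne))
        have h3 : tsupport (fun x => ((g x : ℝ) : ℂ)) ⊆ tsupport g := by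
          apply closure_mono
          intro y hy hy0
          exact hy (by simp only [hy0]; rfl)
        exact hgs (h3 h2) hx
      rw [hx2, hx2]
      ring
    · rw [hwK _ x hx, hwK _ x hx]
      ring
  simp only [h0, integral_zero] at h1
  have h4 : ∫ x, A x * ((g x : ℝ) : ℂ) ∂μ = 0 := by
    rw [eq_comm, neg_eq_zero] at h1
    exact h1
  rw [← h4]
  congr 1
  ext x
  rw [Complex.real_smul, mul_comm]

theorem kohn_weak {ι : Type} [Fintype ι] (b : ι → E) {φ : E → ℝ} (hφ : ContDiff ℝ ∞ φ)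
    (hl : ∀ x, ∀ w : ι → ℂ, ∑ j, ‖w j‖ ^ 2 ≤ levi φ x (∑ j, w j • b j))
    {K : Set E} (hK : IsCompact K)
    {w : ι → E → ℂ} (hw : ∀ j, MemLp (w j) 2 μ) (hwK : ∀ j, ∀ x, x ∉ K → w j x = 0)
    {A : ι → ι → E → ℂ} (hA : ∀ j k, MemLp (A j k) 2 μ)
    {d : E → ℂ} (hd : MemLp d 2 μ) (hdK : ∀ x, x ∉ K → d x = 0)
    (hwA : ∀ j k, ∀ ψ : E → ℂ, Tst ψ →
      ∫ x, (w k x * pb (b j) ψ x - w j x * pb (b k) ψ x) ∂μ = - ∫ x, A j k x * ψ x ∂μ)
    (hwd : ∀ ψ : E → ℂ, Tst ψ →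
      ∫ x, ∑ j, w j x * pd (b j) ψ x ∂μ = - ∫ x, d x * ψ x ∂μ) :
    ∑ j, ∫ x, ‖w j x‖ ^ 2 * Real.exp (-φ x) ∂μ ≤
      ∫ x, ‖-d x + ∑ j, pd (b j) (fun y => ((φ y : ℝ) : ℂ)) x * w j x‖ ^ 2 *
          Real.exp (-φ x) ∂μ +
        ∑ j, ∑ k, (1 / 2) * ∫ x, ‖A j k x‖ ^ 2 * Real.exp (-φ x) ∂μ := by
  classical
  -- cut the second order data to `K`
  set A' : ι → ι → E → ℂ := fun j k => K.indicator (A j k) with hA'
  have hAae : ∀ j k, A' j k =ᵐ[μ] A j k := by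
    intro j k
    filter_upwards [khw_ae_zero hK hwK (hA j k) (hwA j k)] with x hx
    by_cases hxK : x ∈ K
    · simp only [hA', indicator_of_mem hxK]
    · simp only [hA', indicator_of_notMem hxK]
      exact (hx hxK).symm
  have hA'L : ∀ j k, MemLp (A' j k) 2 μ := fun j k => (hA j k).indicator hK.measurableSet
  have hA'K : ∀ j k x, x ∉ K → A' j k x = 0 := fun j k x hx => indicator_of_notMem hx _
  -- the compact set
  set K' : Set E := cthickening 1 K with hK'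
  have : FiniteDimensional ℝ E := FiniteDimensional.complexToReal E
  have : ProperSpace E := FiniteDimensional.proper ℂ E
  have hK'c : IsCompact K' := hK.cthickening
  have hKK' : K ⊆ K' := self_subset_cthickening K
  have hφc : Continuous φ := hφ.continuous
  have hκc : Continuous (fun x => Real.exp (-φ x)) := by fun_prop
  obtain ⟨M, hM⟩ : ∃ M : ℝ, ∀ x ∈ K', Real.exp (-φ x) ≤ M := by
    obtain ⟨M, hM⟩ := hK'c.exists_bound_of_continuousOn hκc.continuousOn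
    exact ⟨M, fun x hx => (le_abs_self _).trans (hM x hx)⟩
  have hM' : ∀ x ∈ K', Real.exp (-φ x) ≤ max M 0 := fun x hx => (hM x hx).trans (le_max_left _ _)
  have hgc : ∀ j, Continuous (pd (b j) (fun y => ((φ y : ℝ) : ℂ))) := fun j =>
    (contDiff_pd (Complex.ofRealCLM.contDiff.comp hφ)).continuous
  have hB : ∀ j, ∃ B : ℝ, ∀ x ∈ K', ‖pd (b j) (fun y => ((φ y : ℝ) : ℂ)) x‖ ≤ B := fun j =>
    hK'c.exists_bound_of_continuousOn (hgc j).continuousOn
  choose B hB using hB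
  -- choice of the mollifiers
  have hchoice : ∀ n : ℕ, ∃ ρ : E → ℝ, ∃ δ : ℝ, δ ≤ 1 ∧ Mol μ ρ δ ∧
      (∀ j, ∫ x, ‖cv μ ρ (w j) x - w j x‖ ^ 2 ∂μ ≤ 1 / ((n : ℝ) + 1)) ∧
      (∫ x, ‖cv μ ρ d x - d x‖ ^ 2 ∂μ ≤ 1 / ((n : ℝ) + 1)) ∧
      (∀ j k, ∫ x, ‖cv μ ρ (A' j k) x - A' j k x‖ ^ 2 ∂μ ≤ 1 / ((n : ℝ) + 1)) := by
    intro n
    have hη : (0 : ℝ) < 1 / ((n : ℝ) + 1) := by positivity
    have c1 : ∀ j, ∃ δ0 > 0, ∀ (ρ : E → ℝ) (δ : ℝ), δ ≤ δ0 → Mol μ ρ δ →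
        ∫ x, ‖cv μ ρ (w j) x - w j x‖ ^ 2 ∂μ ≤ 1 / ((n : ℝ) + 1) := fun j => cv_tendsto (hw j) hη
    have c3 : ∀ j k, ∃ δ0 > 0, ∀ (ρ : E → ℝ) (δ : ℝ), δ ≤ δ0 → Mol μ ρ δ →
        ∫ x, ‖cv μ ρ (A' j k) x - A' j k x‖ ^ 2 ∂μ ≤ 1 / ((n : ℝ) + 1) :=
      fun j k => cv_tendsto (hA'L j k) hη
    obtain ⟨δ2, hδ2, c2⟩ := cv_tendsto hd hη
    choose δ1 hδ1 c1 using c1
    choose δ3 hδ3 c3 using c3
    obtain ⟨δ, hδ0, hδa, hδb, hδc, hδd⟩ : ∃ δ : ℝ, 0 < δ ∧ δ ≤ 1 ∧ (∀ j, δ ≤ δ1 j) ∧ δ ≤ δ2 ∧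
        (∀ j k, δ ≤ δ3 j k) := by
      have e1 : ∀ᶠ δ in 𝓝[>] (0 : ℝ), δ ≤ 1 :=
        eventually_nhdsWithin_of_eventually_nhds (eventually_le_nhds zero_lt_one)
      have e2 : ∀ᶠ δ in 𝓝[>] (0 : ℝ), ∀ j, δ ≤ δ1 j := by
        rw [eventually_all]
        exact fun j => eventually_nhdsWithin_of_eventually_nhds (eventually_le_nhds (hδ1 j))
      have e3 : ∀ᶠ δ in 𝓝[>] (0 : ℝ), δ ≤ δ2 :=
        eventually_nhdsWithin_of_eventually_nhds (eventually_le_nhds hδ2)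
      have e4 : ∀ᶠ δ in 𝓝[>] (0 : ℝ), ∀ j k, δ ≤ δ3 j k := by
        rw [eventually_all]
        intro j
        rw [eventually_all]
        exact fun k => eventually_nhdsWithin_of_eventually_nhds (eventually_le_nhds (hδ3 j k))
      have e5 : ∀ᶠ δ in 𝓝[>] (0 : ℝ), 0 < δ := self_mem_nhdsWithin
      obtain ⟨δ, h⟩ := (e5.and (e1.and (e2.and (e3.and e4)))).exists
      exact ⟨δ, h.1, h.2.1, h.2.2.1, h.2.2.2.1, h.2.2.2.2⟩
    obtain ⟨ρ, hρ⟩ := exists_mol μ hδ0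
    exact ⟨ρ, δ, hδa, hρ, fun j => c1 j ρ δ (hδb j) hρ, c2 ρ δ hδc hρ,
      fun j k => c3 j k ρ δ (hδd j k) hρ⟩
  choose ρ δ hδ1 hρ hρw hρd hρA using hchoice
  have hzero : ∀ (n : ℕ) (f : E → ℂ), (∀ x, x ∉ K → f x = 0) → ∀ x, x ∉ K' →
      cv μ (ρ n) f x = 0 := by
    intro n f hf x hx
    exact cv_eq_zero (hρ n) hf (fun h => hx (cthickening_mono (hδ1 n) K h))
  have hlim0 : Tendsto (fun n : ℕ => 1 / ((n : ℝ) + 1)) atTop (𝓝 0) :=
    tendsto_one_div_add_atTop_nhds_zero_nat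
  have mk : ∀ (f : E → ℂ), MemLp f 2 μ →
      (∀ n : ℕ, ∫ x, ‖cv μ (ρ n) f x - f x‖ ^ 2 ∂μ ≤ 1 / ((n : ℝ) + 1)) →
      KhwT μ (fun n => cv μ (ρ n) f) f := by
    intro f hf hn
    exact ⟨fun n => (cv_young (hρ n) hf).1, hf,
      squeeze_zero (fun n => integral_nonneg fun x => by positivity) hn hlim0⟩
  have Tw : ∀ j, KhwT μ (fun n => cv μ (ρ n) (w j)) (w j) := fun j =>
    mk _ (hw j) (fun n => hρw n j)
  have Td : KhwT μ (fun n => cv μ (ρ n) d) d := mk _ hd hρd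
  have TA : ∀ j k, KhwT μ (fun n => cv μ (ρ n) (A' j k)) (A' j k) := fun j k =>
    mk _ (hA'L j k) (fun n => hρA n j k)
  have Tl : KhwT μ (fun n x => - cv μ (ρ n) d x +
      ∑ j, pd (b j) (fun y => ((φ y : ℝ) : ℂ)) x * cv μ (ρ n) (w j) x)
      (fun x => - d x + ∑ j, pd (b j) (fun y => ((φ y : ℝ) : ℂ)) x * w j x) := by
    refine Td.neg.add (KhwT.sum _ fun j _ => ?_)
    exact (Tw j).mul (hgc j) (hB j) (fun n x hx => hzero n _ (hwK j) x hx)
      (fun x hx => hwK j x fun h => hx (hKK' h))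
  -- test functions
  have hwl : ∀ j, LocallyIntegrable (w j) μ := fun j => (hw j).locallyIntegrable (by norm_num)
  have hTst : ∀ n j, Tst (cv μ (ρ n) (w j)) := by
    intro n j
    refine ⟨cv_smooth (hρ n) (hwl j), ?_⟩
    exact HasCompactSupport.intro hK'c (fun x hx => hzero n _ (hwK j) x hx)
  have hcvA : ∀ n j k x, cv μ (ρ n) (A' j k) x = cv μ (ρ n) (A j k) x := by
    intro n j k x
    unfold cv
    refine integral_congr_ae ?_
    filter_upwards [hAae j k] with y hy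
    rw [hy]
  have hpb : ∀ n j k x, pb (b j) (cv μ (ρ n) (w k)) x - pb (b k) (cv μ (ρ n) (w j)) x =
      cv μ (ρ n) (A' j k) x := by
    intro n j k x
    rw [hcvA, pb_cv (hρ n) (hwl k), pb_cv (hρ n) (hwl j)]
    have hψ := (hρ n).tst_sub (μ := μ) x
    have i1 := locInt_mul_tst (hwl k) (hψ.pb (a := b j))
    have i2 := locInt_mul_tst (hwl j) (hψ.pb (a := b k))
    have h1 := hwA j k _ hψ
    rw [integral_sub i1 i2] at h1
    unfold cv
    linear_combination -h1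
  have hdl : ∀ n x, dl b φ (fun j => cv μ (ρ n) (w j)) x = - cv μ (ρ n) d x +
      ∑ j, pd (b j) (fun y => ((φ y : ℝ) : ℂ)) x * cv μ (ρ n) (w j) x := by
    intro n x
    unfold dl
    rw [Finset.sum_sub_distrib, neg_sub, sub_eq_neg_add]
    congr 1
    have hψ := (hρ n).tst_sub (μ := μ) x
    have h1 := hwd _ hψ
    rw [integral_finsetSum _ (fun j _ => locInt_mul_tst (hwl j) (hψ.pd (a := b j)))] at h1
    have h2 : ∑ j, pd (b j) (cv μ (ρ n) (w j)) x =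
        - ∑ j, ∫ y, w j y * pd (b j) (fun z => ((ρ n (x - z) : ℝ) : ℂ)) y ∂μ := by
      rw [← Finset.sum_neg_distrib]
      exact Finset.sum_congr rfl fun j _ => pd_cv (hρ n) (hwl j) (b j) x
    rw [h2, h1]
    simp [cv]
  have hineq : ∀ n, ∑ j, ∫ x, ‖cv μ (ρ n) (w j) x‖ ^ 2 * Real.exp (-φ x) ∂μ ≤
      ∫ x, ‖- cv μ (ρ n) d x +
        ∑ j, pd (b j) (fun y => ((φ y : ℝ) : ℂ)) x * cv μ (ρ n) (w j) x‖ ^ 2 *
          Real.exp (-φ x) ∂μ +
        ∑ j, ∑ k, (1 / 2) * ∫ x, ‖cv μ (ρ n) (A' j k) x‖ ^ 2 * Real.exp (-φ x) ∂μ := by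
    intro n
    have h1 := kohn_ineq (μ := μ) b hφ hl (hTst n)
    simp only [hdl, hpb] at h1
    exact h1
  have hAe : ∀ j k, ∫ x, ‖A j k x‖ ^ 2 * Real.exp (-φ x) ∂μ =
      ∫ x, ‖A' j k x‖ ^ 2 * Real.exp (-φ x) ∂μ := by
    intro j k
    refine integral_congr_ae ?_
    filter_upwards [hAae j k] with x hx
    rw [hx]
  simp only [hAe]
  refine le_of_tendsto_of_tendsto' (b := atTop) ?_ ?_ hineq
  · refine tendsto_finsetSum _ fun j _ => ?_
    exact (Tw j).weight hκc (fun x => (Real.exp_pos _).le) hM' (le_max_right _ _)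
      (fun n x hx => hzero n _ (hwK j) x hx) (fun x hx => hwK j x fun h => hx (hKK' h))
  · refine Tendsto.add ?_ (tendsto_finsetSum _ fun j _ => tendsto_finsetSum _ fun k _ => ?_)
    · refine Tl.weight hκc (fun x => (Real.exp_pos _).le) hM' (le_max_right _ _) ?_ ?_
      · intro n x hx
        rw [hzero n _ hdK x hx, Finset.sum_eq_zero fun j _ => by rw [hzero n _ (hwK j) x hx,
          mul_zero]]
        simp
      · intro x hx
        rw [hdK x fun h => hx (hKK' h), Finset.sum_eq_zero fun j _ => by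
          rw [hwK j x fun h => hx (hKK' h), mul_zero]]
        simp
    · refine Tendsto.const_mul _ ?_
      exact (TA j k).weight hκc (fun x => (Real.exp_pos _).le) hM' (le_max_right _ _)
        (fun n x hx => hzero n _ (hA'K j k) x hx) (fun x hx => hA'K j k x fun h => hx (hKK' h))

end OkaP
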