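import Pool.Agent.H.MP_ceb9a9.Geom

/-!
# MP_ceb9a9, chapter 1: Wirtinger derivatives on a finite dimensional complex space
-/

set_option autoImplicit false

open Set Metric Topology MeasureTheory
open scoped ContDiff

noncomputable section
namespace OkaP

variable {E : Type} [NormedAddCommGroup E] [NormedSpace ℂ E]

/-- Wirtinger derivative `∂_a u` -/
def pd (a : E) (u : E → ℂ) (x : E) : ℂ :=
  (fderiv ℝ u x a - Complex.I * fderiv ℝ u x (Complex.I • a)) / 2

/-- Wirtinger derivative `∂̄_a u` -/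
def pb (a : E) (u : E → ℂ) (x : E) : ℂ :=
  (fderiv ℝ u x a + Complex.I * fderiv ℝ u x (Complex.I • a)) / 2

/-- smooth compactly supported complex functions -/
def Tst (u : E → ℂ) : Prop := ContDiff ℝ ∞ u ∧ HasCompactSupport u

theorem pd_add {a : E} {u v : E → ℂ} {x : E} (hu : DifferentiableAt ℝ u x)
    (hv : DifferentiableAt ℝ v x) : pd a (fun y => u y + v y) x = pd a u x + pd a v x := by
  unfold pd
  rw [fderiv_fun_add hu hv]
  simp only [add_apply]
  ring

theorem pb_add {a : E} {u v : E → ℂ} {x : E} (hu : DifferentiableAt ℝ u x)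
    (hv : DifferentiableAt ℝ v x) : pb a (fun y => u y + v y) x = pb a u x + pb a v x := by
  unfold pb
  rw [fderiv_fun_add hu hv]
  simp only [add_apply]
  ring

theorem pd_sub {a : E} {u v : E → ℂ} {x : E} (hu : DifferentiableAt ℝ u x)
    (hv : DifferentiableAt ℝ v x) : pd a (fun y => u y - v y) x = pd a u x - pd a v x := by
  unfold pd
  rw [fderiv_fun_sub hu hv]
  simp only [sub_apply]
  ring

theorem pb_sub {a : E} {u v : E → ℂ} {x : E} (hu : DifferentiableAt ℝ u x)
    (hv : DifferentiableAt ℝ v x) : pb a (fun y => u y - v y) x = pb a u x - pb a v x := by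
  unfold pb
  rw [fderiv_fun_sub hu hv]
  simp only [sub_apply]
  ring

theorem pd_mul {a : E} {u v : E → ℂ} {x : E} (hu : DifferentiableAt ℝ u x)
    (hv : DifferentiableAt ℝ v x) :
    pd a (fun y => u y * v y) x = pd a u x * v x + u x * pd a v x := by
  unfold pd
  rw [fderiv_fun_mul hu hv]
  simp only [add_apply, smul_apply, smul_eq_mul]
  ring

theorem pb_mul {a : E} {u v : E → ℂ} {x : E} (hu : DifferentiableAt ℝ u x)
    (hv : DifferentiableAt ℝ v x) :
    pb a (fun y => u y * v y) x = pb a u x * v x + u x * pb a v x := by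
  unfold pb
  rw [fderiv_fun_mul hu hv]
  simp only [add_apply, smul_apply, smul_eq_mul]
  ring

theorem pd_sum {ι : Type} (s : Finset ι) {a : E} {u : ι → E → ℂ} {x : E}
    (hu : ∀ i ∈ s, DifferentiableAt ℝ (u i) x) :
    pd a (fun y => ∑ i ∈ s, u i y) x = ∑ i ∈ s, pd a (u i) x := by
  unfold pd
  rw [fderiv_fun_sum hu]
  simp only [sum_apply]
  rw [Finset.mul_sum, ← Finset.sum_sub_distrib, Finset.sum_div]

theorem pb_sum {ι : Type} (s : Finset ι) {a : E} {u : ι → E → ℂ} {x : E}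
    (hu : ∀ i ∈ s, DifferentiableAt ℝ (u i) x) :
    pb a (fun y => ∑ i ∈ s, u i y) x = ∑ i ∈ s, pb a (u i) x := by
  unfold pb
  rw [fderiv_fun_sum hu]
  simp only [sum_apply]
  rw [Finset.mul_sum, ← Finset.sum_add_distrib, Finset.sum_div]

theorem pd_const (a : E) (c : ℂ) (x : E) : pd a (fun _ => c) x = 0 := by
  simp [pd]

theorem pb_const (a : E) (c : ℂ) (x : E) : pb a (fun _ => c) x = 0 := by
  simp [pb]

private theorem wirt_fderiv_conj {u : E → ℂ} {x : E} :
    fderiv ℝ (fun y => (starRingEnd ℂ) (u y)) x =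
      (Complex.conjCLE : ℂ →L[ℝ] ℂ).comp (fderiv ℝ u x) :=
  ContinuousLinearEquiv.comp_fderiv Complex.conjCLE

private theorem wirt_conj_two : (starRingEnd ℂ) (2 : ℂ) = 2 := map_ofNat _ 2

private theorem wirt_conj_apply (z : ℂ) :
    (Complex.conjCLE : ℂ →L[ℝ] ℂ) z = (starRingEnd ℂ) z := rfl

private theorem wirt_fderiv_ofReal {g : E → ℝ} {x : E} (hg : DifferentiableAt ℝ g x) :
    fderiv ℝ (fun y => ((g y : ℝ) : ℂ)) x = Complex.ofRealCLM.comp (fderiv ℝ g x) :=
  (Complex.ofRealCLM.hasFDerivAt.comp x hg.hasFDerivAt).fderiv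

private theorem wirt_ofRealComp_apply (L : E →L[ℝ] ℝ) (a : E) :
    (Complex.ofRealCLM.comp L) a = ((L a : ℝ) : ℂ) := rfl

theorem pb_conj {a : E} {u : E → ℂ} {x : E} :
    pb a (fun y => (starRingEnd ℂ) (u y)) x = (starRingEnd ℂ) (pd a u x) := by
  unfold pb pd
  rw [wirt_fderiv_conj]
  simp only [ContinuousLinearMap.comp_apply, wirt_conj_apply, map_div₀, map_sub, map_mul,
    Complex.conj_I, wirt_conj_two]
  ring

theorem pd_conj {a : E} {u : E → ℂ} {x : E} :
    pd a (fun y => (starRingEnd ℂ) (u y)) x = (starRingEnd ℂ) (pb a u x) := by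
  unfold pb pd
  rw [wirt_fderiv_conj]
  simp only [ContinuousLinearMap.comp_apply, wirt_conj_apply, map_div₀, map_add, map_mul,
    Complex.conj_I, wirt_conj_two]
  ring

/-- Wirtinger derivatives of `exp (g)` for a real function `g`. -/
theorem pd_exp {a : E} {g : E → ℝ} {x : E} (hg : DifferentiableAt ℝ g x) :
    pd a (fun y => ((Real.exp (g y) : ℝ) : ℂ)) x =
      pd a (fun y => ((g y : ℝ) : ℂ)) x * ((Real.exp (g x) : ℝ) : ℂ) := by
  unfold pd
  rw [wirt_fderiv_ofReal hg.exp, wirt_fderiv_ofReal hg, (hg.hasFDerivAt.exp).fderiv]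
  simp only [wirt_ofRealComp_apply, smul_apply, smul_eq_mul, Complex.ofReal_mul]
  ring

theorem pb_exp {a : E} {g : E → ℝ} {x : E} (hg : DifferentiableAt ℝ g x) :
    pb a (fun y => ((Real.exp (g y) : ℝ) : ℂ)) x =
      pb a (fun y => ((g y : ℝ) : ℂ)) x * ((Real.exp (g x) : ℝ) : ℂ) := by
  unfold pb
  rw [wirt_fderiv_ofReal hg.exp, wirt_fderiv_ofReal hg, (hg.hasFDerivAt.exp).fderiv]
  simp only [wirt_ofRealComp_apply, smul_apply, smul_eq_mul, Complex.ofReal_mul]
  ring

theorem norm_pd_le {a : E} {u : E → ℂ} {x : E} : ‖pd a u x‖ ≤ ‖fderiv ℝ u x‖ * ‖a‖ := by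
  unfold pd
  have h1 : ‖fderiv ℝ u x a‖ ≤ ‖fderiv ℝ u x‖ * ‖a‖ := (fderiv ℝ u x).le_opNorm a
  have h2 : ‖fderiv ℝ u x (Complex.I • a)‖ ≤ ‖fderiv ℝ u x‖ * ‖a‖ := by
    have h := (fderiv ℝ u x).le_opNorm (Complex.I • a)
    rwa [norm_smul, Complex.norm_I, one_mul] at h
  have h3 : ‖fderiv ℝ u x a - Complex.I * fderiv ℝ u x (Complex.I • a)‖ ≤
      ‖fderiv ℝ u x a‖ + ‖fderiv ℝ u x (Complex.I • a)‖ := by
    refine (norm_sub_le _ _).trans ?_
    rw [norm_mul, Complex.norm_I, one_mul]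
  rw [norm_div]
  have h4 : ‖(2 : ℂ)‖ = 2 := by simp
  rw [h4]
  linarith

theorem norm_pb_le {a : E} {u : E → ℂ} {x : E} : ‖pb a u x‖ ≤ ‖fderiv ℝ u x‖ * ‖a‖ := by
  unfold pb
  have h1 : ‖fderiv ℝ u x a‖ ≤ ‖fderiv ℝ u x‖ * ‖a‖ := (fderiv ℝ u x).le_opNorm a
  have h2 : ‖fderiv ℝ u x (Complex.I • a)‖ ≤ ‖fderiv ℝ u x‖ * ‖a‖ := by
    have h := (fderiv ℝ u x).le_opNorm (Complex.I • a)
    rwa [norm_smul, Complex.norm_I, one_mul] at h
  have h3 : ‖fderiv ℝ u x a + Complex.I * fderiv ℝ u x (Complex.I • a)‖ ≤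
      ‖fderiv ℝ u x a‖ + ‖fderiv ℝ u x (Complex.I • a)‖ := by
    refine (norm_add_le _ _).trans ?_
    rw [norm_mul, Complex.norm_I, one_mul]
  rw [norm_div]
  have h4 : ‖(2 : ℂ)‖ = 2 := by simp
  rw [h4]
  linarith

theorem contDiff_pd {a : E} {u : E → ℂ} (hu : ContDiff ℝ ∞ u) : ContDiff ℝ ∞ (pd a u) := by
  have h : ContDiff ℝ ∞ (fderiv ℝ u) := hu.fderiv_right (by norm_num)
  have h1 : ContDiff ℝ ∞ (fun x => fderiv ℝ u x a) := h.clm_apply contDiff_const
  have h2 : ContDiff ℝ ∞ (fun x => fderiv ℝ u x (Complex.I • a)) := h.clm_apply contDiff_const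
  exact (h1.sub (contDiff_const.mul h2)).div_const 2

theorem contDiff_pb {a : E} {u : E → ℂ} (hu : ContDiff ℝ ∞ u) : ContDiff ℝ ∞ (pb a u) := by
  have h : ContDiff ℝ ∞ (fderiv ℝ u) := hu.fderiv_right (by norm_num)
  have h1 : ContDiff ℝ ∞ (fun x => fderiv ℝ u x a) := h.clm_apply contDiff_const
  have h2 : ContDiff ℝ ∞ (fun x => fderiv ℝ u x (Complex.I • a)) := h.clm_apply contDiff_const
  exact (h1.add (contDiff_const.mul h2)).div_const 2

theorem tsupport_pd_subset {a : E} {u : E → ℂ} : tsupport (pd a u) ⊆ tsupport u := by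
  refine closure_minimal ?_ (isClosed_tsupport u)
  intro x hx
  by_contra hc
  have h0 : fderiv ℝ u x = 0 := by
    by_contra h
    exact hc (support_fderiv_subset ℝ h)
  apply hx
  simp [pd, h0]

theorem tsupport_pb_subset {a : E} {u : E → ℂ} : tsupport (pb a u) ⊆ tsupport u := by
  refine closure_minimal ?_ (isClosed_tsupport u)
  intro x hx
  by_contra hc
  have h0 : fderiv ℝ u x = 0 := by
    by_contra h
    exact hc (support_fderiv_subset ℝ h)
  apply hx
  simp [pb, h0]

theorem Tst.pd {a : E} {u : E → ℂ} (hu : Tst u) : Tst (pd a u) :=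
  ⟨contDiff_pd hu.1, hu.2.of_isClosed_subset (isClosed_tsupport _) tsupport_pd_subset⟩

theorem Tst.pb {a : E} {u : E → ℂ} (hu : Tst u) : Tst (pb a u) :=
  ⟨contDiff_pb hu.1, hu.2.of_isClosed_subset (isClosed_tsupport _) tsupport_pb_subset⟩

theorem Tst.conj {u : E → ℂ} (hu : Tst u) : Tst (fun x => (starRingEnd ℂ) (u x)) := by
  refine ⟨Complex.conjCLE.contDiff.comp hu.1, ?_⟩
  exact hu.2.comp_left (map_zero _)

theorem Tst.mul {u v : E → ℂ} (hu : ContDiff ℝ ∞ u) (hv : Tst v) : Tst (fun x => u x * v x) := by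
  exact ⟨hu.mul hv.1, hv.2.mul_left⟩

theorem Tst.add {u v : E → ℂ} (hu : Tst u) (hv : Tst v) : Tst (fun x => u x + v x) := by
  exact ⟨hu.1.add hv.1, hu.2.add hv.2⟩

theorem Tst.sum {ι : Type} (s : Finset ι) {u : ι → E → ℂ} (hu : ∀ i ∈ s, Tst (u i)) :
    Tst (fun x => ∑ i ∈ s, u i x) := by
  classical
  revert hu
  induction s using Finset.induction_on with
  | empty =>
    intro _
    simp only [Finset.sum_empty]
    exact ⟨contDiff_const, HasCompactSupport.zero⟩
  | insert i s hi ih =>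
    intro hu
    simp only [Finset.sum_insert hi]
    exact Tst.add (hu i (Finset.mem_insert_self i s))
      (ih fun j hj => hu j (Finset.mem_insert_of_mem hj))

private theorem wirt_diff {u : E → ℂ} (hu : ContDiff ℝ ∞ u) (x : E) :
    DifferentiableAt ℝ (fderiv ℝ u) x :=
  (hu.fderiv_right (m := ∞) (by norm_num)).differentiable (by norm_num) x

private theorem wirt_fderiv_apply {u : E → ℂ} (hu : ContDiff ℝ ∞ u) (x c w : E) :
    fderiv ℝ (fun y => fderiv ℝ u y c) x w = fderiv ℝ (fderiv ℝ u) x w c := by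
  rw [fderiv_clm_apply (wirt_diff hu x) (differentiableAt_const c)]
  simp

private theorem wirt_diff_apply {u : E → ℂ} (hu : ContDiff ℝ ∞ u) (x c : E) :
    DifferentiableAt ℝ (fun y => fderiv ℝ u y c) x :=
  (wirt_diff hu x).clm_apply (differentiableAt_const c)

private theorem wirt_symm {u : E → ℂ} (hu : ContDiff ℝ ∞ u) (x v w : E) :
    fderiv ℝ (fderiv ℝ u) x v w = fderiv ℝ (fderiv ℝ u) x w v :=
  (ContDiffAt.isSymmSndFDerivAt hu.contDiffAt
    (by rw [minSmoothness_of_isRCLikeNormedField]; exact WithTop.coe_le_coe.2 (le_top : (2 : ℕ∞) ≤ ⊤))).eq v w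

private theorem wirt_fderiv_pd {u : E → ℂ} (hu : ContDiff ℝ ∞ u) (x c w : E) :
    fderiv ℝ (pd c u) x w = (fderiv ℝ (fderiv ℝ u) x w c -
      Complex.I * fderiv ℝ (fderiv ℝ u) x w (Complex.I • c)) / 2 := by
  have h1 : pd c u = fun y => (2 : ℂ)⁻¹ * (fderiv ℝ u y c -
      Complex.I * fderiv ℝ u y (Complex.I • c)) := by
    funext y; unfold pd; ring
  rw [h1, fderiv_const_mul, fderiv_fun_sub, fderiv_const_mul]
  · simp only [smul_apply, sub_apply, smul_eq_mul,
      wirt_fderiv_apply hu]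
    ring
  · exact wirt_diff_apply hu x _
  · exact wirt_diff_apply hu x _
  · exact (wirt_diff_apply hu x _).const_mul _
  · exact (wirt_diff_apply hu x _).sub ((wirt_diff_apply hu x _).const_mul _)

private theorem wirt_fderiv_pb {u : E → ℂ} (hu : ContDiff ℝ ∞ u) (x c w : E) :
    fderiv ℝ (pb c u) x w = (fderiv ℝ (fderiv ℝ u) x w c +
      Complex.I * fderiv ℝ (fderiv ℝ u) x w (Complex.I • c)) / 2 := by
  have h1 : pb c u = fun y => (2 : ℂ)⁻¹ * (fderiv ℝ u y c +
      Complex.I * fderiv ℝ u y (Complex.I • c)) := by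
    funext y; unfold pb; ring
  rw [h1, fderiv_const_mul, fderiv_fun_add, fderiv_const_mul]
  · simp only [smul_apply, add_apply, smul_eq_mul,
      wirt_fderiv_apply hu]
    ring
  · exact wirt_diff_apply hu x _
  · exact wirt_diff_apply hu x _
  · exact (wirt_diff_apply hu x _).const_mul _
  · exact (wirt_diff_apply hu x _).add ((wirt_diff_apply hu x _).const_mul _)

private theorem wirt_pb_pb {u : E → ℂ} (hu : ContDiff ℝ ∞ u) (x a c : E) :
    pb a (pb c u) x =
      ((fderiv ℝ (fderiv ℝ u) x a c +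
        Complex.I * fderiv ℝ (fderiv ℝ u) x a (Complex.I • c)) / 2 +
      Complex.I * ((fderiv ℝ (fderiv ℝ u) x (Complex.I • a) c +
        Complex.I * fderiv ℝ (fderiv ℝ u) x (Complex.I • a) (Complex.I • c)) / 2)) / 2 := by
  show (fderiv ℝ (pb c u) x a + Complex.I * fderiv ℝ (pb c u) x (Complex.I • a)) / 2 = _
  rw [wirt_fderiv_pb hu, wirt_fderiv_pb hu]

private theorem wirt_pb_pd {u : E → ℂ} (hu : ContDiff ℝ ∞ u) (x a c : E) :
    pb a (pd c u) x =
      ((fderiv ℝ (fderiv ℝ u) x a c -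
        Complex.I * fderiv ℝ (fderiv ℝ u) x a (Complex.I • c)) / 2 +
      Complex.I * ((fderiv ℝ (fderiv ℝ u) x (Complex.I • a) c -
        Complex.I * fderiv ℝ (fderiv ℝ u) x (Complex.I • a) (Complex.I • c)) / 2)) / 2 := by
  show (fderiv ℝ (pd c u) x a + Complex.I * fderiv ℝ (pd c u) x (Complex.I • a)) / 2 = _
  rw [wirt_fderiv_pd hu, wirt_fderiv_pd hu]

private theorem wirt_pd_pb {u : E → ℂ} (hu : ContDiff ℝ ∞ u) (x a c : E) :
    pd a (pb c u) x =
      ((fderiv ℝ (fderiv ℝ u) x a c +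
        Complex.I * fderiv ℝ (fderiv ℝ u) x a (Complex.I • c)) / 2 -
      Complex.I * ((fderiv ℝ (fderiv ℝ u) x (Complex.I • a) c +
        Complex.I * fderiv ℝ (fderiv ℝ u) x (Complex.I • a) (Complex.I • c)) / 2)) / 2 := by
  show (fderiv ℝ (pb c u) x a - Complex.I * fderiv ℝ (pb c u) x (Complex.I • a)) / 2 = _
  rw [wirt_fderiv_pb hu, wirt_fderiv_pb hu]

theorem pb_pb_comm {a c : E} {u : E → ℂ} (hu : ContDiff ℝ ∞ u) (x : E) :
    pb a (pb c u) x = pb c (pb a u) x := by
  simp only [wirt_pb_pb hu]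
  rw [wirt_symm hu x (Complex.I • a) c, wirt_symm hu x a c, wirt_symm hu x a (Complex.I • c),
    wirt_symm hu x (Complex.I • a) (Complex.I • c)]
  ring

theorem pb_pd_comm {a c : E} {u : E → ℂ} (hu : ContDiff ℝ ∞ u) (x : E) :
    pb a (pd c u) x = pd c (pb a u) x := by
  rw [wirt_pb_pd hu, wirt_pd_pb hu]
  rw [wirt_symm hu x (Complex.I • a) c, wirt_symm hu x a c, wirt_symm hu x a (Complex.I • c),
    wirt_symm hu x (Complex.I • a) (Complex.I • c)]
  ring

private theorem wirt_pd_dir_add (a c : E) (u : E → ℂ) (x : E) :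
    pd (a + c) u x = pd a u x + pd c u x := by
  unfold pd
  rw [smul_add, map_add, map_add]
  ring

private theorem wirt_pb_dir_add (a c : E) (u : E → ℂ) (x : E) :
    pb (a + c) u x = pb a u x + pb c u x := by
  unfold pb
  rw [smul_add, map_add, map_add]
  ring

private theorem wirt_smul_eq (w : ℂ) (a : E) :
    w • a = w.re • a + w.im • (Complex.I • a) := by
  conv_lhs => rw [← Complex.re_add_im w]
  rw [add_smul, mul_smul, Complex.coe_smul, Complex.coe_smul]

private theorem wirt_I_smul_eq (w : ℂ) (a : E) :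
    Complex.I • (w • a) = w.re • (Complex.I • a) - w.im • a := by
  rw [smul_smul, mul_comm, mul_smul, wirt_smul_eq w (Complex.I • a), smul_smul Complex.I Complex.I,
    Complex.I_mul_I, neg_smul, one_smul, smul_neg, sub_eq_add_neg]

private theorem wirt_pd_dir_smul (w : ℂ) (a : E) (u : E → ℂ) (x : E) :
    pd (w • a) u x = w * pd a u x := by
  unfold pd
  rw [wirt_I_smul_eq, wirt_smul_eq, map_add, map_sub, (fderiv ℝ u x).map_smul w.re a,
    (fderiv ℝ u x).map_smul w.im a, (fderiv ℝ u x).map_smul w.re (Complex.I • a),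
    (fderiv ℝ u x).map_smul w.im (Complex.I • a)]
  simp only [Complex.real_smul]
  conv_rhs => rw [← Complex.re_add_im w]
  have h3 : Complex.I * Complex.I = -1 := Complex.I_mul_I
  linear_combination ((w.im : ℂ) * fderiv ℝ u x (Complex.I • a) / 2) * h3

private theorem wirt_pb_dir_smul (w : ℂ) (a : E) (u : E → ℂ) (x : E) :
    pb (w • a) u x = (starRingEnd ℂ) w * pb a u x := by
  unfold pb
  rw [wirt_I_smul_eq, wirt_smul_eq, map_add, map_sub, (fderiv ℝ u x).map_smul w.re a,
    (fderiv ℝ u x).map_smul w.im a, (fderiv ℝ u x).map_smul w.re (Complex.I • a),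
    (fderiv ℝ u x).map_smul w.im (Complex.I • a)]
  simp only [Complex.real_smul]
  have h4 : (starRingEnd ℂ) w = (w.re : ℂ) - (w.im : ℂ) * Complex.I := by
    apply Complex.ext <;> simp
  rw [h4]
  have h3 : Complex.I * Complex.I = -1 := Complex.I_mul_I
  linear_combination ((w.im : ℂ) * fderiv ℝ u x (Complex.I • a) / 2) * h3

/-- `pd` is complex linear in the direction -/
theorem pd_dir_sum {ι : Type} (s : Finset ι) (b : ι → E) (w : ι → ℂ) (u : E → ℂ) (x : E) :
    pd (∑ i ∈ s, w i • b i) u x = ∑ i ∈ s, w i * pd (b i) u x := by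
  classical
  induction s using Finset.induction_on with
  | empty => simp [pd]
  | insert i s hi ih =>
    rw [Finset.sum_insert hi, Finset.sum_insert hi, wirt_pd_dir_add, wirt_pd_dir_smul, ih]

/-- `pb` is complex antilinear in the direction -/
theorem pb_dir_sum {ι : Type} (s : Finset ι) (b : ι → E) (w : ι → ℂ) (u : E → ℂ) (x : E) :
    pb (∑ i ∈ s, w i • b i) u x = ∑ i ∈ s, (starRingEnd ℂ) (w i) * pb (b i) u x := by
  classical
  induction s using Finset.induction_on with
  | empty => simp [pb]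
  | insert i s hi ih =>
    rw [Finset.sum_insert hi, Finset.sum_insert hi, wirt_pb_dir_add, wirt_pb_dir_smul, ih]

private theorem wirt_D2_eq {φ : E → ℝ} (hφ : ContDiff ℝ ∞ φ) (x v w : E) :
    ((D2 φ x v w : ℝ) : ℂ) =
      fderiv ℝ (fderiv ℝ (fun y => ((φ y : ℝ) : ℂ))) x w v := by
  have hφc : ContDiff ℝ ∞ (fun y => ((φ y : ℝ) : ℂ)) := Complex.ofRealCLM.contDiff.comp hφ
  rw [← wirt_fderiv_apply hφc]
  have h1 : (fun y => fderiv ℝ (fun y => ((φ y : ℝ) : ℂ)) y v) =
      fun y => ((fderiv ℝ φ y v : ℝ) : ℂ) := by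
    funext y
    rw [wirt_fderiv_ofReal (hφ.differentiable (by norm_num) y)]
    rfl
  have h2 : DifferentiableAt ℝ (fun y => fderiv ℝ φ y v) x :=
    ((hφ.fderiv_right (m := ∞) (by norm_num)).differentiable (by norm_num) x).clm_apply
      (differentiableAt_const v)
  rw [h1, wirt_fderiv_ofReal h2]
  rfl

private theorem wirt_levi_eq {φ : E → ℝ} (hφ : ContDiff ℝ ∞ φ) (x v : E) :
    ((levi φ x v : ℝ) : ℂ) = pd v (pb v (fun y => ((φ y : ℝ) : ℂ))) x := by
  have hφc : ContDiff ℝ ∞ (fun y => ((φ y : ℝ) : ℂ)) := Complex.ofRealCLM.contDiff.comp hφ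
  unfold levi
  push_cast
  rw [wirt_D2_eq hφ, wirt_D2_eq hφ, wirt_pd_pb hφc, wirt_symm hφc x (Complex.I • v) v]
  have h3 : Complex.I * Complex.I = -1 := Complex.I_mul_I
  linear_combination (fderiv ℝ (fderiv ℝ (fun y => ((φ y : ℝ) : ℂ))) x (Complex.I • v)
    (Complex.I • v) / 4) * h3

/-- the Levi form in coordinates -/
theorem levi_eq_sum {ι : Type} [Fintype ι] (b : ι → E) {φ : E → ℝ} (hφ : ContDiff ℝ ∞ φ)
    (x : E) (w : ι → ℂ) :
    ((levi φ x (∑ j, w j • b j) : ℝ) : ℂ) =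
      ∑ j, ∑ k, w j * (starRingEnd ℂ) (w k) *
        pd (b j) (pb (b k) (fun y => ((φ y : ℝ) : ℂ))) x := by
  have hφc : ContDiff ℝ ∞ (fun y => ((φ y : ℝ) : ℂ)) := Complex.ofRealCLM.contDiff.comp hφ
  rw [wirt_levi_eq hφ, pd_dir_sum]
  refine Finset.sum_congr rfl fun j _ => ?_
  have h1 : pb (∑ k, w k • b k) (fun y => ((φ y : ℝ) : ℂ)) =
      fun y => ∑ k, (starRingEnd ℂ) (w k) * pb (b k) (fun y => ((φ y : ℝ) : ℂ)) y := by
    funext y
    exact pb_dir_sum _ _ _ _ _
  rw [h1, pd_sum]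
  · rw [Finset.mul_sum]
    refine Finset.sum_congr rfl fun k _ => ?_
    rw [pd_mul (differentiableAt_const _)
      ((contDiff_pb hφc).differentiable (by norm_num) x), pd_const]
    ring
  · intro k _
    exact (differentiableAt_const _).mul ((contDiff_pb hφc).differentiable (by norm_num) x)

/-- a real differentiable function with vanishing `∂̄` (along a spanning family) is complex
differentiable -/
theorem differentiableAt_of_pb {ι : Type} [Fintype ι] (b : Module.Basis ι ℂ E) {u : E → ℂ} {x : E}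
    (hu : DifferentiableAt ℝ u x) (h : ∀ i, pb (b i) u x = 0) : DifferentiableAt ℂ u x := by
  have hall : ∀ a : E, pb a u x = 0 := by
    intro a
    rw [← b.sum_repr a, pb_dir_sum]
    exact Finset.sum_eq_zero fun i _ => by rw [h i, mul_zero]
  have hI : ∀ a : E, fderiv ℝ u x (Complex.I • a) = Complex.I * fderiv ℝ u x a := by
    intro a
    have h1 := hall a
    unfold pb at h1
    have h2 : fderiv ℝ u x a + Complex.I * fderiv ℝ u x (Complex.I • a) = 0 := by
      linear_combination 2 * h1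
    have h3 : Complex.I * Complex.I = -1 := Complex.I_mul_I
    linear_combination (-Complex.I) * h2 + fderiv ℝ u x (Complex.I • a) * h3
  rw [differentiableAt_iff_restrictScalars ℝ hu]
  have hsm : ∀ (c : ℂ) (a : E), fderiv ℝ u x (c • a) = c • fderiv ℝ u x a := by
    intro c a
    have h1 : c • a = c.re • a + c.im • (Complex.I • a) := by
      conv_lhs => rw [← Complex.re_add_im c]
      rw [add_smul, mul_smul, Complex.coe_smul, Complex.coe_smul]
    rw [h1, map_add, map_smul, map_smul, hI, smul_eq_mul, Complex.real_smul, Complex.real_smul]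
    conv_rhs => rw [← Complex.re_add_im c]
    ring
  refine ⟨{ toFun := fun a => fderiv ℝ u x a
            map_add' := fun a c => map_add _ a c
            map_smul' := fun c a => hsm c a
            cont := (fderiv ℝ u x).continuous }, ?_⟩
  ext a
  rfl

theorem pb_eq_zero {a : E} {u : E → ℂ} {x : E} (hu : DifferentiableAt ℂ u x) : pb a u x = 0 := by
  unfold pb
  rw [hu.fderiv_restrictScalars ℝ]
  simp only [ContinuousLinearMap.coe_restrictScalars', map_smul, smul_eq_mul]
  rw [← mul_assoc, Complex.I_mul_I]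
  ring

end OkaP
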