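import Pool.Agent.H.MP_ceb9a9.HcFun
import Pool.Agent.H.MP_ceb9a9.Wirt

/-!
# MP_ceb9a9, chapter 1: rules for the Levi form
-/

set_option autoImplicit false

open Set Metric Topology
open scoped ContDiff

noncomputable section
namespace OkaP

variable {E : Type} [NormedAddCommGroup E] [NormedSpace ℂ E]
variable {F : Type} [NormedAddCommGroup F] [NormedSpace ℂ F]

private theorem LeviR_le : (2 : WithTop ℕ∞) ≤ ∞ := by
  have h : ((2 : ℕ∞) : WithTop ℕ∞) ≤ ((⊤ : ℕ∞) : WithTop ℕ∞) := WithTop.coe_le_coe.2 le_top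
  exact h

private theorem LeviR_hd {f : E → ℝ} {x : E} (hf : ContDiffAt ℝ ∞ f x) :
    ∀ᶠ y in 𝓝 x, DifferentiableAt ℝ f y := by
  have h2 : ContDiffAt ℝ 2 f x := hf.of_le LeviR_le
  have h3 : ∀ᶠ y in 𝓝 x, ContDiffAt ℝ 2 f y := h2.eventually (by decide)
  exact h3.mono fun y hy => hy.differentiableAt (by norm_num)

private theorem LeviR_d2 {f : E → ℝ} {x : E} (hf : ContDiffAt ℝ ∞ f x) :
    DifferentiableAt ℝ (fderiv ℝ f) x := by
  have h2 : ContDiffAt ℝ 2 f x := hf.of_le LeviR_le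
  have h3 : ContDiffAt ℝ 1 (fderiv ℝ f) x := h2.fderiv_right (by norm_num)
  exact h3.differentiableAt (by norm_num)

private theorem LeviR_dv {f : E → ℝ} {x : E} (hf : ContDiffAt ℝ ∞ f x) (v : E) :
    DifferentiableAt ℝ (fun y => fderiv ℝ f y v) x :=
  (LeviR_d2 hf).clm_apply (differentiableAt_const v)

private theorem LeviR_D2 {f : E → ℝ} {x : E} (hf : ContDiffAt ℝ ∞ f x) (v w : E) :
    D2 f x v w = fderiv ℝ (fderiv ℝ f) x w v := by
  unfold D2
  rw [fderiv_clm_apply (LeviR_d2 hf) (differentiableAt_const v)]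
  simp

private theorem LeviR_D2_add {f g : E → ℝ} {x : E} (hf : ContDiffAt ℝ ∞ f x)
    (hg : ContDiffAt ℝ ∞ g x) (v w : E) :
    D2 (fun y => f y + g y) x v w = D2 f x v w + D2 g x v w := by
  have h : (fun y => fderiv ℝ (fun y => f y + g y) y v) =ᶠ[𝓝 x]
      fun y => fderiv ℝ f y v + fderiv ℝ g y v := by
    filter_upwards [LeviR_hd hf, LeviR_hd hg] with y h1 h2
    rw [fderiv_fun_add h1 h2]
    rfl
  unfold D2
  rw [h.fderiv_eq, fderiv_fun_add (LeviR_dv hf v) (LeviR_dv hg v)]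
  rfl

private theorem LeviR_D2_mul {f g : E → ℝ} {x : E} (hf : ContDiffAt ℝ ∞ f x)
    (hg : ContDiffAt ℝ ∞ g x) (v w : E) :
    D2 (fun y => f y * g y) x v w = f x * D2 g x v w + g x * D2 f x v w +
      (fderiv ℝ f x w * fderiv ℝ g x v + fderiv ℝ g x w * fderiv ℝ f x v) := by
  have h : (fun y => fderiv ℝ (fun y => f y * g y) y v) =ᶠ[𝓝 x]
      fun y => f y * fderiv ℝ g y v + g y * fderiv ℝ f y v := by
    filter_upwards [LeviR_hd hf, LeviR_hd hg] with y h1 h2
    rw [fderiv_fun_mul h1 h2]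
    rfl
  have h1 := (LeviR_hd hf).self_of_nhds
  have h2 := (LeviR_hd hg).self_of_nhds
  have h3 : DifferentiableAt ℝ (fun y => f y * fderiv ℝ g y v) x := h1.mul (LeviR_dv hg v)
  have h4 : DifferentiableAt ℝ (fun y => g y * fderiv ℝ f y v) x := h2.mul (LeviR_dv hf v)
  unfold D2
  rw [h.fderiv_eq, fderiv_fun_add h3 h4,
    fderiv_fun_mul h1 (LeviR_dv hg v), fderiv_fun_mul h2 (LeviR_dv hf v)]
  simp only [add_apply, smul_apply, smul_eq_mul]
  ring

private theorem LeviR_D2_comp {h : ℝ → ℝ} (hh : ContDiff ℝ ∞ h) {f : E → ℝ} {x : E}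
    (hf : ContDiffAt ℝ ∞ f x) (v w : E) :
    D2 (fun y => h (f y)) x v w = deriv h (f x) * D2 f x v w +
      deriv (deriv h) (f x) * (fderiv ℝ f x w * fderiv ℝ f x v) := by
  have hd : Differentiable ℝ h := hh.differentiable (by simp)
  have hd2 : ContDiff ℝ ∞ (deriv h) := (contDiff_infty_iff_deriv.1 hh).2
  have hd3 : Differentiable ℝ (deriv h) := hd2.differentiable (by simp)
  have h0 : (fun y => fderiv ℝ (fun y => h (f y)) y v) =ᶠ[𝓝 x]
      fun y => deriv h (f y) * fderiv ℝ f y v := by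
    filter_upwards [LeviR_hd hf] with y h1
    have h2 : HasFDerivAt (fun y => h (f y)) (deriv h (f y) • fderiv ℝ f y) y :=
      (hd (f y)).hasDerivAt.comp_hasFDerivAt y h1.hasFDerivAt
    rw [h2.fderiv]
    rfl
  have h1 := (LeviR_hd hf).self_of_nhds
  have h2 : HasFDerivAt (fun y => deriv h (f y)) (deriv (deriv h) (f x) • fderiv ℝ f x) x :=
    (hd3 (f x)).hasDerivAt.comp_hasFDerivAt x h1.hasFDerivAt
  unfold D2
  rw [h0.fderiv_eq, fderiv_fun_mul h2.differentiableAt (LeviR_dv hf v), h2.fderiv]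
  simp only [add_apply, smul_apply, smul_eq_mul]
  ring

/-- the Levi form only depends on the germ -/
theorem levi_congr {f g : E → ℝ} {x : E} (h : f =ᶠ[𝓝 x] g) (v : E) : levi f x v = levi g x v := by
  have h1 : ∀ w : E, (fun y => fderiv ℝ f y w) =ᶠ[𝓝 x] fun y => fderiv ℝ g y w := by
    intro w
    filter_upwards [h.fderiv (𝕜 := ℝ)] with y hy
    rw [hy]
  unfold levi D2
  rw [(h1 v).fderiv_eq, (h1 (Complex.I • v)).fderiv_eq]

theorem levi_add {f g : E → ℝ} {x : E} (hf : ContDiffAt ℝ ∞ f x) (hg : ContDiffAt ℝ ∞ g x)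
    (v : E) : levi (fun y => f y + g y) x v = levi f x v + levi g x v := by
  unfold levi
  rw [LeviR_D2_add hf hg, LeviR_D2_add hf hg]
  ring

theorem levi_const (c : ℝ) (x v : E) : levi (fun _ : E => c) x v = 0 := by
  unfold levi D2
  simp

theorem levi_sum {ι : Type} (s : Finset ι) {f : ι → E → ℝ} {x : E}
    (hf : ∀ i ∈ s, ContDiffAt ℝ ∞ (f i) x) (v : E) :
    levi (fun y => ∑ i ∈ s, f i y) x v = ∑ i ∈ s, levi (f i) x v := by
  classical
  induction s using Finset.induction_on with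
  | empty => simpa using levi_const (0 : ℝ) x v
  | insert i s hi ih =>
    have h1 : ContDiffAt ℝ ∞ (fun y => ∑ i ∈ s, f i y) x :=
      ContDiffAt.sum fun j hj => hf j (Finset.mem_insert_of_mem hj)
    rw [Finset.sum_insert hi, ← ih fun j hj => hf j (Finset.mem_insert_of_mem hj),
      ← levi_add (hf i (Finset.mem_insert_self i s)) h1]
    congr 1
    funext y
    exact Finset.sum_insert hi

theorem levi_const_mul (c : ℝ) (f : E → ℝ) (x v : E) :
    levi (fun y => c * f y) x v = c * levi f x v := by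
  by_cases hc : c = 0
  · subst hc
    have : (fun y => (0 : ℝ) * f y) = fun _ => (0 : ℝ) := by
      funext y
      exact zero_mul _
    rw [this, levi_const, zero_mul]
  · have : Invertible c := invertibleOfNonzero hc
    have h1 : ∀ (g : E → ℝ) (y : E), fderiv ℝ (fun y => c * g y) y = c • fderiv ℝ g y := by
      intro g y
      exact fderiv_const_smul_of_invertible (f := g) c
    have h2 : ∀ w : E, D2 (fun y => c * f y) x w w = c * D2 f x w w := by
      intro w
      unfold D2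
      have h3 : (fun y => fderiv ℝ (fun y => c * f y) y w) = fun y => c * fderiv ℝ f y w := by
        funext y
        rw [h1]
        rfl
      rw [h3, h1]
      rfl
    unfold levi
    rw [h2, h2]
    ring

theorem levi_add_const (f : E → ℝ) (c : ℝ) (x v : E) :
    levi (fun y => f y + c) x v = levi f x v := by
  unfold levi D2
  simp only [fderiv_add_const]

/-- composition with a smooth function of one variable: the exact formula -/
theorem levi_comp {h : ℝ → ℝ} (hh : ContDiff ℝ ∞ h) {f : E → ℝ} {x : E}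
    (hf : ContDiffAt ℝ ∞ f x) (v : E) :
    levi (fun y => h (f y)) x v = deriv h (f x) * levi f x v +
      deriv (deriv h) (f x) *
        ((fderiv ℝ f x v) ^ 2 + (fderiv ℝ f x (Complex.I • v)) ^ 2) / 4 := by
  unfold levi
  rw [LeviR_D2_comp hh hf, LeviR_D2_comp hh hf]
  ring

/-- composition with `hc`: a lower bound -/
theorem levi_hc_ge {f : E → ℝ} {x : E} (hf : ContDiffAt ℝ ∞ f x) (v : E) :
    deriv hc (f x) * levi f x v ≤ levi (fun y => hc (f y)) x v := by
  rw [levi_comp hc_smooth hf]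
  have h1 : 0 ≤ deriv (deriv hc) (f x) *
        ((fderiv ℝ f x v) ^ 2 + (fderiv ℝ f x (Complex.I • v)) ^ 2) / 4 := by
    have := hc_deriv2_nonneg (f x)
    positivity
  linarith

/-- product rule -/
theorem levi_mul {f g : E → ℝ} {x : E} (hf : ContDiffAt ℝ ∞ f x) (hg : ContDiffAt ℝ ∞ g x)
    (v : E) : levi (fun y => f y * g y) x v = f x * levi g x v + g x * levi f x v +
      (fderiv ℝ f x v * fderiv ℝ g x v +
        fderiv ℝ f x (Complex.I • v) * fderiv ℝ g x (Complex.I • v)) / 2 := by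
  unfold levi
  rw [LeviR_D2_mul hf hg, LeviR_D2_mul hf hg]
  ring

/-- pullback by a holomorphic map -/
theorem levi_comp_hol {y : E → F} {U : Set E} (hU : IsOpen U) (hy : ContDiffOn ℂ ∞ y U)
    {f : F → ℝ} {x : E} (hx : x ∈ U) (hf : ContDiffAt ℝ ∞ f (y x)) (v : E) :
    levi (fun z => f (y z)) x v = levi f (y x) (fderiv ℂ y x v) := by
  have hyat : ∀ z ∈ U, ContDiffAt ℂ ∞ y z := fun z hz => hy.contDiffAt (hU.mem_nhds hz)
  have hyd : ∀ z ∈ U, DifferentiableAt ℂ y z := fun z hz => (hyat z hz).differentiableAt (by simp)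
  have hyd2 : DifferentiableAt ℂ (fderiv ℂ y) x := by
    have h2 : ContDiffAt ℂ 2 y x := (hyat x hx).of_le LeviR_le
    have h3 : ContDiffAt ℂ 1 (fderiv ℂ y) x := h2.fderiv_right (by norm_num)
    exact h3.differentiableAt (by norm_num)
  -- the second derivative of `y`
  have key : ∀ w : E, D2 (fun z => f (y z)) x w w =
      fderiv ℝ (fderiv ℝ f) (y x) (fderiv ℂ y x w) (fderiv ℂ y x w) +
        fderiv ℝ f (y x) (fderiv ℂ (fderiv ℂ y) x w w) := by
    intro w
    have h0 : (fun z => fderiv ℝ (fun z => f (y z)) z w) =ᶠ[𝓝 x]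
        fun z => fderiv ℝ f (y z) (fderiv ℂ y z w) := by
      have h1 : ∀ᶠ z in 𝓝 x, DifferentiableAt ℝ f (y z) :=
        (hyd x hx).continuousAt.eventually (LeviR_hd hf)
      filter_upwards [h1, hU.mem_nhds hx] with z hz1 hz2
      have h2 : HasFDerivAt (fun z => f (y z))
          ((fderiv ℝ f (y z)).comp ((fderiv ℂ y z).restrictScalars ℝ)) z :=
        hz1.hasFDerivAt.comp z ((hyd z hz2).hasFDerivAt.restrictScalars ℝ)
      rw [h2.fderiv]
      rfl
    have hA : HasFDerivAt (fun z => fderiv ℂ y z w)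
        ((((fderiv ℂ (fderiv ℂ y) x).flip w)).restrictScalars ℝ) x := by
      have h1 := hyd2.hasFDerivAt.clm_apply (hasFDerivAt_const w x)
      have h2 : (fderiv ℂ y x).comp (0 : E →L[ℂ] E) + (fderiv ℂ (fderiv ℂ y) x).flip w =
          (fderiv ℂ (fderiv ℂ y) x).flip w := by
        simp
      rw [h2] at h1
      exact h1.restrictScalars ℝ
    have hB : HasFDerivAt (fun z => fderiv ℝ f (y z))
        ((fderiv ℝ (fderiv ℝ f) (y x)).comp ((fderiv ℂ y x).restrictScalars ℝ)) x :=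
      (LeviR_d2 hf).hasFDerivAt.comp x ((hyd x hx).hasFDerivAt.restrictScalars ℝ)
    unfold D2
    rw [h0.fderiv_eq, (hB.clm_apply hA).fderiv]
    simp only [add_apply, ContinuousLinearMap.comp_apply,
      ContinuousLinearMap.flip_apply, ContinuousLinearMap.coe_restrictScalars']
    rw [add_comm]
  unfold levi
  rw [key v, key (Complex.I • v), LeviR_D2 hf, LeviR_D2 hf]
  have h1 : fderiv ℂ (fderiv ℂ y) x (Complex.I • v) (Complex.I • v) =
      - fderiv ℂ (fderiv ℂ y) x v v := by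
    rw [map_smul, map_smul, smul_apply, smul_smul, Complex.I_mul_I, neg_smul, one_smul]
  rw [h1, map_neg, map_smul (fderiv ℂ y x)]
  ring

/-- pullback by a continuous complex linear map -/
theorem levi_comp_linear (L : E →L[ℂ] F) {f : F → ℝ} {x : E} (hf : ContDiffAt ℝ ∞ f (L x))
    (v : E) : levi (fun y => f (L y)) x v = levi f (L x) (L v) := by
  have h := levi_comp_hol (y := fun z => L z) isOpen_univ L.contDiff.contDiffOn (mem_univ x) hf v
  rw [h]
  congr 1
  exact congrArg (fun T : E →L[ℂ] F => T v) L.fderiv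

/-- `|ζ|²` on `ℂ` -/
theorem levi_normSq (x v : ℂ) : levi (fun z : ℂ => ‖z‖ ^ 2) x v = ‖v‖ ^ 2 := by
  have key : ∀ w : ℂ, D2 (fun z : ℂ => ‖z‖ ^ 2) x w w = 2 * ‖w‖ ^ 2 := by
    intro w
    unfold D2
    have h1 : (fun y : ℂ => fderiv ℝ (fun z : ℂ => ‖z‖ ^ 2) y w) =
        fun y => (2 • (innerSL ℝ w)) y := by
      funext y
      rw [fderiv_norm_sq_apply]
      simp [real_inner_comm]
    rw [h1, ContinuousLinearMap.fderiv]
    simp
  unfold levi
  rw [key, key, norm_smul, Complex.norm_I, one_mul]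
  ring

/-- continuity of the Levi form -/
theorem continuous_levi {f : E → ℝ} (hf : ContDiff ℝ ∞ f) :
    Continuous (fun p : E × E => levi f p.1 p.2) := by
  have h2 : ContDiff ℝ 2 f := hf.of_le LeviR_le
  have h3 : ContDiff ℝ 1 (fderiv ℝ f) := h2.fderiv_right (by norm_num)
  have h4 : Continuous (fderiv ℝ (fderiv ℝ f)) := h3.continuous_fderiv (by norm_num)
  have h5 : ∀ g : E × E → E, Continuous g →
      Continuous (fun p : E × E => D2 f p.1 (g p) (g p)) := by
    intro g hg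
    have h6 : (fun p : E × E => D2 f p.1 (g p) (g p)) =
        fun p => fderiv ℝ (fderiv ℝ f) p.1 (g p) (g p) := by
      funext p
      exact LeviR_D2 hf.contDiffAt _ _
    rw [h6]
    exact ((h4.comp continuous_fst).clm_apply hg).clm_apply hg
  unfold levi
  exact ((h5 _ continuous_snd).add (h5 (fun p => Complex.I • p.2)
    (continuous_snd.const_smul Complex.I))).div_const 4

private theorem LeviR_hom {f : E → ℝ} (hf : ContDiff ℝ ∞ f) (x v : E) (t : ℝ) :
    levi f x (t • v) = t ^ 2 * levi f x v := by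
  have h1 : ∀ w : E, D2 f x (t • w) (t • w) = t ^ 2 * D2 f x w w := by
    intro w
    rw [LeviR_D2 hf.contDiffAt, LeviR_D2 hf.contDiffAt]
    simp only [map_smul, smul_apply, smul_eq_mul]
    ring
  unfold levi
  rw [h1, smul_comm Complex.I t v, h1]
  ring

/-- quadratic homogeneity gives a lower bound on compact sets -/
theorem levi_bound [FiniteDimensional ℂ E] {ι : Type} [Fintype ι] (b : Module.Basis ι ℂ E)
    {f : E → ℝ} (hf : ContDiff ℝ ∞ f) {K : Set E} (hK : IsCompact K) :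
    ∃ C : ℝ, 0 ≤ C ∧ ∀ x ∈ K, ∀ w : ι → ℂ,
      |levi f x (∑ j, w j • b j)| ≤ C * ∑ j, ‖w j‖ ^ 2 := by
  have hS : IsCompact (K ×ˢ sphere (0 : ι → ℂ) 1) := hK.prod (isCompact_sphere _ _)
  have hc : Continuous (fun p : E × (ι → ℂ) => levi f p.1 (∑ j, p.2 j • b j)) := by
    have h1 : Continuous (fun p : E × (ι → ℂ) => (p.1, ∑ j, p.2 j • b j)) := by
      fun_prop
    exact (continuous_levi hf).comp h1
  obtain ⟨C, hC⟩ := hS.exists_bound_of_continuousOn hc.continuousOn
  refine ⟨max C 0, le_max_right _ _, fun x hx w => ?_⟩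
  by_cases hw : w = 0
  · subst hw
    have h1 : (∑ j, (0 : ι → ℂ) j • b j) = (0 : ℝ) • (0 : E) := by
      simp
    rw [h1, LeviR_hom hf]
    simp
  · have hn : 0 < ‖w‖ := norm_pos_iff.2 hw
    have h1 : (∑ j, w j • b j) = ‖w‖ • (∑ j, (‖w‖⁻¹ • w) j • b j) := by
      rw [Finset.smul_sum]
      refine Finset.sum_congr rfl fun j _ => ?_
      rw [Pi.smul_apply, smul_assoc, smul_smul, mul_inv_cancel₀ hn.ne', one_smul]
    have h2 : ‖w‖⁻¹ • w ∈ sphere (0 : ι → ℂ) 1 := by
      rw [mem_sphere_zero_iff_norm, norm_smul, norm_inv, norm_norm, inv_mul_cancel₀ hn.ne']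
    have h3 := hC (x, ‖w‖⁻¹ • w) ⟨hx, h2⟩
    rw [Real.norm_eq_abs] at h3
    have h4 : ‖w‖ ^ 2 ≤ ∑ j, ‖w j‖ ^ 2 := by
      obtain ⟨j, hj⟩ : ∃ j, ‖w‖ = ‖w j‖ := by
        by_contra hcon
        push Not at hcon
        have h5 : ‖w‖ < ‖w‖ := by
          rw [pi_norm_lt_iff hn]
          intro j
          exact lt_of_le_of_ne (norm_le_pi_norm w j) (hcon j).symm
        exact lt_irrefl _ h5
      rw [hj]
      exact Finset.single_le_sum (f := fun j => ‖w j‖ ^ 2) (fun i _ => by positivity)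
        (Finset.mem_univ j)
    rw [h1, LeviR_hom hf, abs_mul, abs_of_nonneg (by positivity : (0 : ℝ) ≤ ‖w‖ ^ 2)]
    have h6 : |levi f x (∑ j, (‖w‖⁻¹ • w) j • b j)| ≤ max C 0 := h3.trans (le_max_left _ _)
    calc ‖w‖ ^ 2 * |levi f x (∑ j, (‖w‖⁻¹ • w) j • b j)| ≤ (∑ j, ‖w j‖ ^ 2) * max C 0 :=
          mul_le_mul h4 h6 (abs_nonneg _) (Finset.sum_nonneg fun i _ => by positivity)
      _ = max C 0 * ∑ j, ‖w j‖ ^ 2 := mul_comm _ _

end OkaP
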