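import Pool.Agent.H.MP_ceb9a9.Near
import Pool.Agent.H.MP_ceb9a9.Scv2

set_option autoImplicit false
open Set Metric Filter
open scoped Topology Manifold

noncomputable section
namespace OkaP

variable {m : ℕ} {X : Type} [MetricSpace X] [ChartedSpace (Fin m → ℂ) X]
variable {E F : Type} [NormedAddCommGroup E] [NormedSpace ℂ E]
  [NormedAddCommGroup F] [NormedSpace ℂ F]

omit [NormedSpace ℂ E] [NormedSpace ℂ F] in
/-- a locally uniform limit of continuous maps is continuous. -/
theorem limit_continuousOn {f : ℕ → E → X} {g : E → X} {U : Set E}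
    (hf : ∀ n, ContinuousOn (f n) U)
    (hg : ∀ x ∈ U, ∃ r > 0, ball x r ⊆ U ∧ ∀ ε > 0, ∃ N, ∀ n ≥ N, ∀ y ∈ ball x r, dist (f n y) (g y) ≤ ε) :
    ContinuousOn g U := by
  intro x hx
  obtain ⟨r, hr, hrU, h⟩ := hg x hx
  have hu : TendstoUniformlyOn f g atTop (ball x r) := by
    rw [Metric.tendstoUniformlyOn_iff]
    intro ε hε
    obtain ⟨N, hN⟩ := h (ε / 2) (by positivity)
    filter_upwards [eventually_ge_atTop N] with n hn y hy
    rw [dist_comm]
    exact lt_of_le_of_lt (hN n hn y hy) (by linarith)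
  have hc : ContinuousOn g (ball x r) :=
    hu.continuousOn (Eventually.of_forall fun n => (hf n).mono hrU).frequently
  exact (hc.continuousAt (ball_mem_nhds x hr)).continuousWithinAt

variable [FiniteDimensional ℂ E] [FiniteDimensional ℂ F]

/-- Weierstrass theorem for maps into X. -/
theorem HolOn.limit [IsManifold 𝓘(ℂ, Fin m → ℂ) ⊤ X] {f : ℕ → E → X} {g : E → X} {U : Set E}
    (hU : IsOpen U) (hf : ∀ n, HolOn m (f n) U)
    (hg : ∀ x ∈ U, ∃ r > 0, ball x r ⊆ U ∧ ∀ ε > 0, ∃ N, ∀ n ≥ N, ∀ y ∈ ball x r, dist (f n y) (g y) ≤ ε) :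
    HolOn m g U := by
  have hgc : ContinuousOn g U := limit_continuousOn (fun n => (hf n).continuousOn) hg
  apply holOn_of_local
  intro x hx
  obtain ⟨r, hr, hrU, h⟩ := hg x hx
  obtain ⟨e, he, hxe⟩ := HChart.exists_at (m := m) (g x)
  have hW : (U ∩ g ⁻¹' e.source) ∩ ball x r ∈ 𝓝 x :=
    (((hgc.isOpen_inter_preimage hU e.open_source).inter isOpen_ball).mem_nhds
      ⟨⟨hx, hxe⟩, mem_ball_self hr⟩)
  obtain ⟨r', hr', hr'W⟩ := Metric.nhds_basis_closedBall.mem_iff.1 hW
  have hcpt : IsCompact (closedBall x r') := by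
    have : ProperSpace E := FiniteDimensional.proper ℂ E
    exact isCompact_closedBall x r'
  have hbU : closedBall x r' ⊆ U := fun y hy => (hr'W hy).1.1
  have hbr : closedBall x r' ⊆ ball x r := fun y hy => (hr'W hy).2
  have hC : IsCompact (g '' closedBall x r') := hcpt.image_of_continuousOn (hgc.mono hbU)
  have hCe : g '' closedBall x r' ⊆ e.source := by
    rintro _ ⟨y, hy, rfl⟩
    exact (hr'W hy).1.2
  obtain ⟨ε₀, hε₀, hnear⟩ := chart_near e hC hCe (η := 1) one_pos
  obtain ⟨N₀, hN₀⟩ := h (ε₀ / 2) (by positivity)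
  refine ⟨ball x r', isOpen_ball, mem_ball_self hr', ?_⟩
  refine holOn_of_hchart he (fun y hy => (hr'W (ball_subset_closedBall hy)).1.2) ?_
  have hmem : ∀ n ≥ N₀, ∀ y ∈ closedBall x r', f n y ∈ e.source := by
    intro n hn y hy
    refine (hnear (g y) (mem_image_of_mem g hy) (f n y) ?_).1
    rw [dist_comm]
    exact lt_of_le_of_lt (hN₀ n hn y (hbr hy)) (by linarith)
  refine weierstrass (f := fun n y => e (f (n + N₀) y)) isOpen_ball ?_ ?_
  · intro n
    refine ((hf (n + N₀)).hchart he).mono ?_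
    intro y hy
    exact ⟨hbU (ball_subset_closedBall hy),
      hmem (n + N₀) (Nat.le_add_left _ _) y (ball_subset_closedBall hy)⟩
  · intro y hy
    obtain ⟨s, hs, hsb⟩ := Metric.isOpen_ball.mem_nhds hy |> Metric.mem_nhds_iff.1
    refine ⟨s, hs, hsb, ?_⟩
    intro ε hε
    obtain ⟨ε', hε', hnear'⟩ := chart_near e hC hCe (η := ε) hε
    obtain ⟨N, hN⟩ := h (ε' / 2) (by positivity)
    refine ⟨N, fun n hn z hz => ?_⟩
    have hz' : z ∈ closedBall x r' := ball_subset_closedBall (hsb hz)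
    have := (hnear' (g z) (mem_image_of_mem g hz') (f (n + N₀) z) (by
      rw [dist_comm]
      exact lt_of_le_of_lt (hN (n + N₀) (le_trans hn (Nat.le_add_right _ _)) z (hbr hz'))
        (by linarith))).2
    rw [norm_sub_rev]
    exact this.le

end OkaP
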