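import Pool.Agent.H.MP_ceb9a9.Limit

set_option autoImplicit false
open Set Metric Filter
open scoped Topology Manifold

noncomputable section
namespace OkaP

variable {m : ℕ} {X : Type} [MetricSpace X] [ChartedSpace (Fin m → ℂ) X]
variable {E F : Type} [NormedAddCommGroup E] [NormedSpace ℂ E]
  [NormedAddCommGroup F] [NormedSpace ℂ F]

variable [FiniteDimensional ℂ E] [FiniteDimensional ℂ F]

theorem limitSeq_delta {δ : ℕ → ℝ} (hδ2 : ∀ j, δ (j + 1) ≤ δ j / 2) (j k : ℕ) :
    δ (j + k) ≤ δ j / 2 ^ k := by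
  induction k with
  | zero => simp
  | succ k ih =>
    have h1 := hδ2 (j + k)
    rw [← add_assoc]
    calc δ (j + k + 1) ≤ δ (j + k) / 2 := h1
      _ ≤ (δ j / 2 ^ k) / 2 := by linarith
      _ = δ j / 2 ^ (k + 1) := by rw [pow_succ]; field_simp

/-- limits of rapidly converging sequences of maps into X over an exhaustion. -/
theorem limit_of_seq [IsManifold 𝓘(ℂ, Fin m → ℂ) ⊤ X] {f : ℕ → E → X} {K : ℕ → Set E} {δ : ℕ → ℝ}
    (hKc : ∀ j, IsCompact (K j)) (hK : ∀ j, K j ⊆ interior (K (j + 1)))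
    (hf : ∀ j, HolOn m (f j) (interior (K j))) (hfc : ∀ j, ContinuousOn (f j) (K j))
    (hδ : ∀ j, 0 < δ j) (hδ2 : ∀ j, δ (j + 1) ≤ δ j / 2)
    (hc : ∀ j, IsCompact (cthickening (2 * δ j) (f j '' K j)))
    (hd : ∀ j, ∀ x ∈ K j, dist (f j x) (f (j + 1) x) ≤ δ j) :
    ∃ g : E → X, HolOn m g (⋃ j, K j) ∧ ∀ j, ∀ x ∈ K j, dist (f j x) (g x) ≤ 2 * δ j := by
  have hmono : Monotone K := monotone_nat_of_le_succ fun n => (hK n).trans interior_subset
  have hpart : ∀ j, ∀ x ∈ K j, ∀ k, dist (f j x) (f (j + k) x) ≤ 2 * δ j - 2 * δ j / 2 ^ k := by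
    intro j x hx k
    induction k with
    | zero => simp
    | succ k ih =>
      have h1 : dist (f (j + k) x) (f (j + k + 1) x) ≤ δ j / 2 ^ k :=
        (hd (j + k) x (hmono (Nat.le_add_right j k) hx)).trans (limitSeq_delta hδ2 j k)
      have h2 : dist (f j x) (f (j + (k + 1)) x) ≤
          (2 * δ j - 2 * δ j / 2 ^ k) + δ j / 2 ^ k :=
        (dist_triangle _ (f (j + k) x) _).trans (add_le_add ih h1)
      refine h2.trans (le_of_eq ?_)
      rw [pow_succ]
      field_simp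
      ring
  have hpart' : ∀ j, ∀ x ∈ K j, ∀ k, dist (f j x) (f (j + k) x) ≤ 2 * δ j := by
    intro j x hx k
    have h1 := hpart j x hx k
    have h2 : 0 ≤ 2 * δ j / 2 ^ k := by have := hδ j; positivity
    linarith
  have key : ∀ x, x ∈ ⋃ j, K j → ∃ y, Tendsto (fun n => f n x) atTop (𝓝 y) := by
    intro x hx
    obtain ⟨j, hx⟩ := mem_iUnion.mp hx
    have hC : CauchySeq (fun k => f (j + k) x) := by
      apply cauchySeq_of_le_geometric_two (C := 2 * δ j)
      intro k
      have h1 : dist (f (j + k) x) (f (j + k + 1) x) ≤ δ j / 2 ^ k :=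
        (hd (j + k) x (hmono (Nat.le_add_right j k) hx)).trans (limitSeq_delta hδ2 j k)
      have h2 : 2 * δ j / 2 / 2 ^ k = δ j / 2 ^ k := by ring
      rw [h2, ← add_assoc]
      exact h1
    obtain ⟨y, -, hy⟩ := cauchySeq_tendsto_of_isComplete (hc j).isComplete
      (fun k => mem_cthickening_of_dist_le _ (f j x) _ _ (mem_image_of_mem _ hx)
        (by rw [dist_comm]; exact hpart' j x hx k)) hC
    refine ⟨y, ?_⟩
    rw [← tendsto_add_atTop_iff_nat j]
    refine hy.congr fun k => ?_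
    rw [add_comm]
  haveI : Nonempty X := ⟨f 0 0⟩
  choose! g hg using key
  have hdist : ∀ j, ∀ x ∈ K j, dist (f j x) (g x) ≤ 2 * δ j := by
    intro j x hx
    have h1 : Tendsto (fun k => dist (f j x) (f (k + j) x)) atTop (𝓝 (dist (f j x) (g x))) :=
      Tendsto.dist tendsto_const_nhds
        ((tendsto_add_atTop_iff_nat j).mpr (hg x (mem_iUnion.mpr ⟨j, hx⟩)))
    refine le_of_tendsto h1 (Eventually.of_forall fun k => ?_)
    have := hpart' j x hx k
    rw [add_comm] at this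
    exact this
  refine ⟨g, ?_, hdist⟩
  apply holOn_of_local
  intro x hx
  obtain ⟨j, hx⟩ := mem_iUnion.mp hx
  refine ⟨interior (K (j + 1)), isOpen_interior, hK j hx, ?_⟩
  refine HolOn.limit (f := fun n => f (j + 1 + n)) isOpen_interior
    (fun n => (hf (j + 1 + n)).mono (interior_mono (hmono (Nat.le_add_right _ _)))) ?_
  intro y hy
  obtain ⟨r, hr, hball⟩ := Metric.isOpen_iff.mp isOpen_interior y hy
  refine ⟨r, hr, hball, fun ε hε => ?_⟩
  have htend : Tendsto (fun n : ℕ => 2 * δ (j + 1) / 2 ^ n) atTop (𝓝 0) := by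
    have h1 : Tendsto (fun n : ℕ => (2 * δ (j + 1)) * (1 / 2 : ℝ) ^ n) atTop (𝓝 ((2 * δ (j + 1)) * 0)) :=
      (tendsto_pow_atTop_nhds_zero_of_lt_one (by norm_num) (by norm_num)).const_mul _
    rw [mul_zero] at h1
    refine h1.congr fun n => ?_
    rw [one_div, inv_pow, div_eq_mul_inv]
  obtain ⟨N, hN⟩ := eventually_atTop.mp (htend.eventually (ge_mem_nhds hε))
  refine ⟨N, fun n hn z hz => ?_⟩
  have hz' : z ∈ K (j + 1 + n) := hmono (Nat.le_add_right _ _) (interior_subset (hball hz))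
  have h1 := hdist (j + 1 + n) z hz'
  have h2 := limitSeq_delta hδ2 (j + 1) n
  have h3 := hN n hn
  have h4 : 2 * δ (j + 1) / 2 ^ n = 2 * (δ (j + 1) / 2 ^ n) := by ring
  linarith

end OkaP
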