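import Pool.Agent.H.MP_ceb9a9.EtC

/-!
# MP_ceb9a9: uniform Lipschitz inverse of a holomorphic family of local charts
-/

set_option autoImplicit false

open scoped Manifold

namespace OkaP

open Set Metric Topology

/-- local version -/
theorem lipInv_local {m : ℕ} {E : Type} [NormedAddCommGroup E] [NormedSpace ℂ E]
    {δ : E × (Fin m → ℂ) → (Fin m → ℂ)} {U : Set E} {r : ℝ}
    (hU : IsOpen U) (h : EtHol δ U r) {x0 : E} (hx0 : x0 ∈ U) {u0 : Fin m → ℂ}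
    (hu0 : u0 ∈ ball (0 : Fin m → ℂ) r) :
    ∃ N ∈ 𝓝 ((x0, u0) : E × (Fin m → ℂ)), ∃ Λ > 0, ∃ δ0 > 0, ∀ q ∈ N, ∀ w : Fin m → ℂ,
      ‖w - δ q‖ ≤ δ0 → ∃ t' ∈ ball (0 : Fin m → ℂ) r, δ (q.1, t') = w ∧
        ‖t' - q.2‖ ≤ Λ * ‖w - δ q‖ := by
  have hfd : ∀ x ∈ U, DifferentiableOn ℂ (fun u => δ (x, u)) (ball (0 : Fin m → ℂ) r) :=
    fun x hx => mdifferentiableOn_iff_differentiableOn.1 (h.fib x hx)
  have hbij : Function.Bijective (fderiv ℂ (fun v => δ (x0, v)) u0) :=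
    bijective_mfderiv_iff_model.1 (h.der x0 hx0 u0 hu0)
  obtain ⟨A, hA⟩ := scv6_equiv_of_inj (fderiv ℂ (fun v => δ (x0, v)) u0)
    (fun v hv => hbij.1 (by rw [hv, map_zero]))
  have hder : HasFDerivAt (fun v => δ (x0, v)) (A : (Fin m → ℂ) →L[ℂ] (Fin m → ℂ)) u0 := by
    rw [hA]
    exact ((hfd x0 hx0).differentiableAt (isOpen_ball.mem_nhds hu0)).hasFDerivAt
  have hder2 : HasFDerivAt (fun v => A.symm (δ (x0, v) - δ (x0, u0)) + u0 - v)
      (0 : (Fin m → ℂ) →L[ℂ] (Fin m → ℂ)) u0 := by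
    have h1 := ((A.symm : (Fin m → ℂ) →L[ℂ] (Fin m → ℂ)).hasFDerivAt.comp u0
      (hder.sub_const (δ (x0, u0)))).add_const u0
    have h2 := h1.sub (hasFDerivAt_id u0)
    have h3 : (A.symm : (Fin m → ℂ) →L[ℂ] (Fin m → ℂ)).comp
        (A : (Fin m → ℂ) →L[ℂ] (Fin m → ℂ)) - ContinuousLinearMap.id ℂ (Fin m → ℂ) = 0 := by
      ext v
      simp
    rw [h3] at h2
    exact h2
  have hsmall : ∀ᶠ v in 𝓝 u0,
      ‖A.symm (δ (x0, v) - δ (x0, u0)) + u0 - v‖ ≤ 1 / 32 * ‖v - u0‖ := by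
    have h1 := hder2.isLittleO.def (show (0 : ℝ) < 1 / 32 by norm_num)
    refine h1.mono fun v hv => ?_
    simpa using hv
  have hev : ∀ᶠ v in 𝓝 u0, v ∈ ball (0 : Fin m → ℂ) r := isOpen_ball.mem_nhds hu0
  obtain ⟨s0, hs0, hs0b⟩ := Metric.eventually_nhds_iff_ball.1 (hsmall.and hev)
  obtain ⟨s, hs, hss0⟩ : ∃ s : ℝ, 0 < s ∧ s < s0 := ⟨s0 / 2, by positivity, by linarith⟩
  have hcb : ∀ u ∈ closedBall u0 s, ‖A.symm (δ (x0, u) - δ (x0, u0)) + u0 - u‖ ≤ s / 32 ∧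
      u ∈ ball (0 : Fin m → ℂ) r := by
    intro u hu
    have h1 := hs0b u (closedBall_subset_ball hss0 hu)
    refine ⟨h1.1.trans ?_, h1.2⟩
    have h2 : ‖u - u0‖ ≤ s := by rw [← dist_eq_norm]; exact hu
    linarith
  -- tube lemma
  have htube : ∀ᶠ x in 𝓝 x0, ∀ u ∈ closedBall u0 s, x ∈ U ∧
      ‖A.symm (δ (x, u) - δ (x0, u))‖ < s / 32 := by
    refine (isCompact_closedBall u0 s).eventually_forall_of_forall_eventually ?_
    intro u hu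
    obtain ⟨hu1, hur⟩ := hcb u hu
    have hc : ContinuousAt δ (x0, u) :=
      h.cont.continuousAt (prod_mem_nhds (hU.mem_nhds hx0) (isOpen_ball.mem_nhds hur))
    have hc2 : ContinuousAt (fun q : E × (Fin m → ℂ) => δ (x0, q.2)) (x0, u) := by
      have h2 : ContinuousAt (fun q : E × (Fin m → ℂ) => (x0, q.2)) (x0, u) :=
        (continuous_const.prodMk continuous_snd).continuousAt
      exact ContinuousAt.comp (f := fun q : E × (Fin m → ℂ) => (x0, q.2)) (x := (x0, u)) hc h2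
    have hc3 : ContinuousAt (fun q : E × (Fin m → ℂ) => ‖A.symm (δ q - δ (x0, q.2))‖)
        (x0, u) := (A.symm.continuous.continuousAt.comp (hc.sub hc2)).norm
    have h3 : ∀ᶠ q in 𝓝 ((x0, u) : E × (Fin m → ℂ)), ‖A.symm (δ q - δ (x0, q.2))‖ < s / 32 := by
      refine hc3.eventually_lt_const ?_
      simp only [sub_self, map_zero, norm_zero]
      positivity
    have h5 : ∀ᶠ q : E × (Fin m → ℂ) in 𝓝 (x0, u), q.1 ∈ U :=
      continuous_fst.continuousAt.eventually (hU.mem_nhds hx0)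
    filter_upwards [h3, h5] with q hq1 hq2
    exact ⟨hq2, hq1⟩
  set C : ℝ := ‖(A.symm : (Fin m → ℂ) →L[ℂ] (Fin m → ℂ))‖ with hC
  have hC0 : 0 ≤ C := norm_nonneg _
  have hCb : ∀ v, ‖A.symm v‖ ≤ C * ‖v‖ := fun v =>
    (A.symm : (Fin m → ℂ) →L[ℂ] (Fin m → ℂ)).le_opNorm v
  refine ⟨{x | ∀ u ∈ closedBall u0 s, x ∈ U ∧ ‖A.symm (δ (x, u) - δ (x0, u))‖ < s / 32} ×ˢ
    ball u0 (s / 16), prod_mem_nhds htube (ball_mem_nhds _ (by positivity)), 2 * (C + 1),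
    by positivity, s / (8 * (C + 1)), by positivity, ?_⟩
  rintro ⟨x, t⟩ ⟨hx, ht⟩ w hw
  simp only at hx ht hw ⊢
  have hxU : x ∈ U := (hx u0 (mem_closedBall_self hs.le)).1
  have hd : DifferentiableOn ℂ (fun u => A.symm (δ (x, u) - δ (x0, u0)) + u0) (ball u0 s) := by
    have hAd : Differentiable ℂ (fun v => A.symm v) :=
      (A.symm : (Fin m → ℂ) →L[ℂ] (Fin m → ℂ)).differentiable
    have h1 : DifferentiableOn ℂ (fun u => δ (x, u)) (ball u0 s) :=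
      (hfd x hxU).mono fun u hu => (hcb u (ball_subset_closedBall hu)).2
    exact (hAd.comp_differentiableOn (h1.sub_const (δ (x0, u0)))).add_const u0
  have hn : ∀ u ∈ ball u0 s,
      ‖(fun u => A.symm (δ (x, u) - δ (x0, u0)) + u0) u - u‖ ≤ s / 16 := by
    intro u hu
    have h1 := (hcb u (ball_subset_closedBall hu)).1
    have h2 := (hx u (ball_subset_closedBall hu)).2
    have h3 : (fun u => A.symm (δ (x, u) - δ (x0, u0)) + u0) u - u =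
        A.symm (δ (x, u) - δ (x0, u)) + (A.symm (δ (x0, u) - δ (x0, u0)) + u0 - u) := by
      simp only [map_sub]; abel
    rw [h3]
    refine (norm_add_le _ _).trans ?_
    linarith
  obtain ⟨-, -, h3, h4⟩ := near_id hs (by positivity : (0 : ℝ) ≤ s / 16) (by linarith) hd hn
  have hts : t ∈ ball u0 s := ball_subset_ball (by linarith) ht
  have hts2 : t ∈ ball u0 (s / 2) := ball_subset_ball (by linarith) ht
  have hwt : ‖A.symm (w - δ (x, t))‖ ≤ C * ‖w - δ (x, t)‖ := hCb _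
  have hwt2 : C * ‖w - δ (x, t)‖ ≤ s / 8 := by
    have h5 : C * ‖w - δ (x, t)‖ ≤ (C + 1) * (s / (8 * (C + 1))) :=
      mul_le_mul (by linarith) hw (norm_nonneg _) (by positivity)
    have h6 : (C + 1) * (s / (8 * (C + 1))) = s / 8 := by
      field_simp
    linarith
  have hz : A.symm (w - δ (x0, u0)) + u0 ∈ ball u0 (s / 2 - s / 16) := by
    rw [mem_ball_iff_norm]
    have h5 := hn t hts
    have h6 : ‖t - u0‖ < s / 16 := by rw [← dist_eq_norm]; exact ht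
    have h7 : A.symm (w - δ (x0, u0)) + u0 - u0 = A.symm (w - δ (x, t)) +
        ((A.symm (δ (x, t) - δ (x0, u0)) + u0) - t) + (t - u0) := by
      simp only [map_sub]; abel
    rw [h7]
    have h8 := norm_add_le (A.symm (w - δ (x, t)) +
        ((A.symm (δ (x, t) - δ (x0, u0)) + u0) - t)) (t - u0)
    have h9 := norm_add_le (A.symm (w - δ (x, t)))
        ((A.symm (δ (x, t) - δ (x0, u0)) + u0) - t)
    simp only at h5
    linarith
  obtain ⟨t', ht', hteq, -⟩ := h4 _ hz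
  have h10 : δ (x, t') = w := by
    have h5 : A.symm (δ (x, t') - δ (x0, u0)) = A.symm (w - δ (x0, u0)) := add_right_cancel hteq
    exact sub_left_injective (A.symm.injective h5)
  refine ⟨t', (hcb t' (ball_subset_closedBall (ball_subset_ball (by linarith) ht'))).2, h10, ?_⟩
  have h11 := h3 t' ht' t hts2
  have h12 : (fun u => A.symm (δ (x, u) - δ (x0, u0)) + u0) t' -
      (fun u => A.symm (δ (x, u) - δ (x0, u0)) + u0) t = A.symm (w - δ (x, t)) := by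
    simp only [h10, map_sub]; abel
  rw [h12] at h11
  have h13 : 0 ≤ ‖w - δ (x, t)‖ := norm_nonneg _
  nlinarith

theorem EtHol.lip_inv {m : ℕ} {E : Type} [NormedAddCommGroup E] [NormedSpace ℂ E]
    [FiniteDimensional ℂ E] {δ : E × (Fin m → ℂ) → (Fin m → ℂ)} {U : Set E} {r : ℝ}
    (hU : IsOpen U) (h : EtHol δ U r) {K : Set E} (hK : IsCompact K) (hKU : K ⊆ U) {r' : ℝ}
    (hr' : r' < r) :
    ∃ Λ > 0, ∃ δ0 > 0, ∀ x ∈ K, ∀ t ∈ closedBall (0 : Fin m → ℂ) r', ∀ w : Fin m → ℂ,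
      ‖w - δ (x, t)‖ ≤ δ0 → ∃ t' ∈ ball (0 : Fin m → ℂ) r, δ (x, t') = w ∧
        ‖t' - t‖ ≤ Λ * ‖w - δ (x, t)‖ := by
  have hc : IsCompact (K ×ˢ closedBall (0 : Fin m → ℂ) r') := hK.prod (isCompact_closedBall _ _)
  have hmain : ∃ Λ > 0, ∃ δ0 > 0, ∀ q ∈ K ×ˢ closedBall (0 : Fin m → ℂ) r', ∀ w : Fin m → ℂ,
      ‖w - δ q‖ ≤ δ0 → ∃ t' ∈ ball (0 : Fin m → ℂ) r, δ (q.1, t') = w ∧
        ‖t' - q.2‖ ≤ Λ * ‖w - δ q‖ := by
    refine hc.induction_on (p := fun S => ∃ Λ > 0, ∃ δ0 > 0, ∀ q ∈ S, ∀ w : Fin m → ℂ,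
      ‖w - δ q‖ ≤ δ0 → ∃ t' ∈ ball (0 : Fin m → ℂ) r, δ (q.1, t') = w ∧
        ‖t' - q.2‖ ≤ Λ * ‖w - δ q‖) ?_ ?_ ?_ ?_
    · exact ⟨1, one_pos, 1, one_pos, fun q hq => absurd hq (notMem_empty _)⟩
    · rintro S S' hSS ⟨Λ, hΛ, δ0, hδ0, hS⟩
      exact ⟨Λ, hΛ, δ0, hδ0, fun q hq => hS q (hSS hq)⟩
    · rintro S S' ⟨Λ, hΛ, δ0, hδ0, hS⟩ ⟨Λ', hΛ', δ0', hδ0', hS'⟩
      refine ⟨max Λ Λ', lt_max_of_lt_left hΛ, min δ0 δ0', lt_min hδ0 hδ0', ?_⟩
      rintro q (hq | hq) w hw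
      · obtain ⟨t', h1, h2, h3⟩ := hS q hq w (hw.trans (min_le_left _ _))
        exact ⟨t', h1, h2, h3.trans (mul_le_mul_of_nonneg_right (le_max_left _ _)
          (norm_nonneg _))⟩
      · obtain ⟨t', h1, h2, h3⟩ := hS' q hq w (hw.trans (min_le_right _ _))
        exact ⟨t', h1, h2, h3.trans (mul_le_mul_of_nonneg_right (le_max_right _ _)
          (norm_nonneg _))⟩
    · rintro ⟨x, t⟩ ⟨hx, ht⟩
      obtain ⟨N, hN, Λ, hΛ, δ0, hδ0, hq⟩ := lipInv_local hU h (hKU hx)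
        (closedBall_subset_ball hr' ht)
      exact ⟨N, mem_nhdsWithin_of_mem_nhds hN, Λ, hΛ, δ0, hδ0, hq⟩
  obtain ⟨Λ, hΛ, δ0, hδ0, hq⟩ := hmain
  exact ⟨Λ, hΛ, δ0, hδ0, fun x hx t ht w hw => hq (x, t) ⟨hx, ht⟩ w hw⟩

end OkaP
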