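import Pool.Agent.H.MP_ceb9a9.ThetaDefs
import Pool.Agent.H.MP_ceb9a9.FamCont
import Pool.Agent.H.MP_ceb9a9.EsHol
import Pool.Agent.H.MP_ceb9a9.EtD

/-!
# MP_ceb9a9: local data of a holomorphic map near a compact convex set
-/

set_option autoImplicit false

open scoped Manifold

namespace OkaP

open Set Metric Topology

/-- shrinking of radii in the fibre (room for Euclidean versus sup norm) -/
noncomputable def shr (m : ℕ) (r : ℝ) : ℝ := r / (8 * (m + 1))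

/-- a chart family over `fs` near `K` with coordinates of the points near `p` -/
structure LocData {m : ℕ} {X : Type} [MetricSpace X] [ChartedSpace (Fin m → ℂ) X] {p : X}
    (S : SigmaData m p) {E : Type} [NormedAddCommGroup E] [NormedSpace ℂ E] (K : Set E)
    (fs : E → X) where
  U : Set E
  Φ : E × (Fin m → ℂ) → X
  G : E × (Fin m → ℂ) → (Fin m → ℂ)
  r0 : ℝ
  r1 : ℝ
  c1 : ℝ
  L : ℝ
  U_open : IsOpen U
  K_U : K ⊆ U
  r0_pos : 0 < r0
  r1_pos : 0 < r1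
  r1_le : r1 ≤ r0 / 8
  c1_pos : 0 < c1
  c1_le : c1 ≤ S.c / 64
  c1_one : c1 ≤ 1 / 16
  L_ge : 1 ≤ L
  fs_hol : HolOn m fs U
  hol : EtHol Φ U r0
  base : ∀ x ∈ U, Φ (x, 0) = fs x
  G_hol : DifferentiableOn ℂ G
    ({x | x ∈ U ∧ fs x ∈ S.e.source ∧ ‖S.e (fs x)‖ < c1} ×ˢ ball (0 : Fin m → ℂ) (4 * c1))
  G_spec : ∀ x ∈ U, fs x ∈ S.e.source → ‖S.e (fs x)‖ < c1 → ∀ z ∈ ball (0 : Fin m → ℂ) (4 * c1),
    G (x, z) ∈ ball (0 : Fin m → ℂ) (r0 / 4) ∧ Φ (x, G (x, z)) = S.σ z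
  G_lip : ∀ x ∈ U, fs x ∈ S.e.source → ‖S.e (fs x)‖ < c1 → ∀ z ∈ ball (0 : Fin m → ℂ) (3 * c1),
    ∀ z' ∈ ball (0 : Fin m → ℂ) (3 * c1), ‖G (x, z) - G (x, z')‖ ≤ L * ‖z - z'‖
  Z_spec : ∀ x ∈ U, fs x ∈ S.e.source → ‖S.e (fs x)‖ < c1 → ∀ v ∈ ball (0 : Fin m → ℂ) r1,
    Φ (x, v) ∈ S.e.source ∧ ‖S.e (Φ (x, v))‖ < 2 * c1
  Z_lip : ∀ x ∈ U, fs x ∈ S.e.source → ‖S.e (fs x)‖ < c1 → ∀ v ∈ ball (0 : Fin m → ℂ) r1,
    ∀ v' ∈ ball (0 : Fin m → ℂ) r1, ‖S.e (Φ (x, v)) - S.e (Φ (x, v'))‖ ≤ L * ‖v - v'‖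
  far : ∀ x ∈ U, ¬ (fs x ∈ S.e.source ∧ ‖S.e (fs x)‖ < c1 / 8) →
    ∀ v ∈ ball (0 : Fin m → ℂ) r1, Φ (x, v) ≠ p
  near : ∀ x ∈ U, ∀ v ∈ ball (0 : Fin m → ℂ) r1, Φ (x, v) ∈ S.e.source →
    ‖S.e (Φ (x, v))‖ ≤ 3 * c1 / 8 → fs x ∈ S.e.source ∧ ‖S.e (fs x)‖ < c1 / 2

/-- the part of `U` where `fs` is near `p` -/
def LocData.V {m : ℕ} {X : Type} [MetricSpace X] [ChartedSpace (Fin m → ℂ) X] {p : X}
    {S : SigmaData m p} {E : Type} [NormedAddCommGroup E] [NormedSpace ℂ E] {K : Set E}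
    {fs : E → X} (D : LocData S K fs) (a : ℝ) : Set E :=
  {x | x ∈ D.U ∧ fs x ∈ S.e.source ∧ ‖S.e (fs x)‖ < a}

theorem exists_locData {m : ℕ} {X : Type} [MetricSpace X] [ChartedSpace (Fin m → ℂ) X]
    [IsManifold 𝓘(ℂ, Fin m → ℂ) ⊤ X] {p : X} (S : SigmaData m p) {E : Type}
    [NormedAddCommGroup E] [NormedSpace ℂ E] [FiniteDimensional ℂ E] {K Uf : Set E}
    (hK : IsCompact K) (hKc : Convex ℝ K) (hUf : IsOpen Uf) (hKU : K ⊆ Uf) {fs : E → X}
    (hf : HolOn m fs Uf) : Nonempty (LocData S K fs) := by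
  have hprop : ProperSpace E := FiniteDimensional.proper ℂ E
  obtain ⟨W, r, Φ, hW, hKW, hr, hFam, hΦ0⟩ := es_hol hK hKc hUf hKU hf
  obtain ⟨L, hL, hKL, hLWU⟩ := exists_compact_between hK (hW.inter hUf) (subset_inter hKW hKU)
  have hLW : L ⊆ W := hLWU.trans inter_subset_left
  have hLU : L ⊆ Uf := hLWU.trans inter_subset_right
  have hEt : EtHol Φ W r := hFam.etHol
  have hIL : interior L ⊆ L := interior_subset
  obtain ⟨ε1, hε1, hcoord⟩ := hEt.toEtCont.exists_coord hL hLW hr (η := r / 16) (by positivity)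
  -- continuity of `σ` at `0`
  have hσc : ContinuousAt S.σ 0 := by
    have h1 : ContinuousOn S.σ univ := HolOn.continuousOn S.hol
    exact h1.continuousAt Filter.univ_mem
  obtain ⟨c', hc', hσ⟩ := Metric.continuousAt_iff.1 hσc (ε1 / 2) (by positivity)
  obtain ⟨c1, hc1, hc1a, hc1b, hc1c⟩ : ∃ c1 : ℝ, 0 < c1 ∧ c1 ≤ S.c / 64 ∧ c1 ≤ 1 / 16 ∧
      4 * c1 < c' := by
    have hSc := S.c_pos
    refine ⟨min (min (S.c / 64) (1 / 16)) (c' / 8), by positivity,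
      (min_le_left _ _).trans (min_le_left _ _), (min_le_left _ _).trans (min_le_right _ _), ?_⟩
    have := min_le_right (min (S.c / 64) (1 / 16)) (c' / 8)
    linarith
  have hSc := S.c_pos
  -- compact pieces of the chart
  have htarget : ∀ a : ℝ, a ≤ c1 → closedBall (0 : Fin m → ℂ) a ⊆ S.e.target := by
    intro a ha
    refine Subset.trans ?_ S.target
    intro z hz
    rw [mem_closedBall_zero_iff] at hz
    rw [mem_ball_zero_iff]
    linarith
  have hcompact : ∀ a : ℝ, a ≤ c1 → IsCompact (S.e.symm '' closedBall (0 : Fin m → ℂ) a) :=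
    fun a ha => (isCompact_closedBall _ _).image_of_continuousOn
      (S.e.continuousOn_symm.mono (htarget a ha))
  have hsource : ∀ a : ℝ, a ≤ c1 → S.e.symm '' closedBall (0 : Fin m → ℂ) a ⊆ S.e.source := by
    rintro a ha _ ⟨z, hz, rfl⟩
    exact S.e.map_target (htarget a ha hz)
  have hmemC : ∀ a : ℝ, ∀ y ∈ S.e.source, ‖S.e y‖ ≤ a →
      y ∈ S.e.symm '' closedBall (0 : Fin m → ℂ) a := by
    intro a y hy hya
    exact ⟨S.e y, by rw [mem_closedBall_zero_iff]; exact hya, S.e.left_inv hy⟩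
  obtain ⟨ε2, hε2, hnear2⟩ := chart_near S.e (hcompact c1 le_rfl) (hsource c1 le_rfl) hc1
  obtain ⟨ε3, hε3, hnear3⟩ := chart_near S.e (hcompact (3 * c1 / 8) (by linarith))
    (hsource (3 * c1 / 8) (by linarith)) (η := c1 / 8) (by positivity)
  -- the far part
  have hfc : ContinuousOn fs L := (HolOn.continuousOn hf).mono hLU
  have hopenB : IsOpen (S.e.source ∩ S.e ⁻¹' ball (0 : Fin m → ℂ) (c1 / 8)) :=
    S.e.isOpen_inter_preimage isOpen_ball
  have hQc : IsCompact (L ∩ fs ⁻¹' (S.e.source ∩ S.e ⁻¹' ball (0 : Fin m → ℂ) (c1 / 8))ᶜ) := by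
    refine hL.of_isClosed_subset ?_ inter_subset_left
    exact hfc.preimage_isClosed_of_isClosed hL.isClosed hopenB.isClosed_compl
  obtain ⟨ε4, hε4, hlow⟩ := dist_lower (p := p) hQc (hfc.mono inter_subset_left) (by
    rintro x ⟨-, hx⟩ hxp
    apply hx
    rw [hxp]
    refine ⟨S.mem, ?_⟩
    show S.e p ∈ ball (0 : Fin m → ℂ) (c1 / 8)
    rw [S.e_p]
    exact mem_ball_self (by positivity))
  obtain ⟨r2, hr2, hr2r, hunif⟩ := etD_uniform_radius (hEt.toEtCont.mono hLW le_rfl) hr hL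
    (ε := min (min ε2 ε3) ε4) (by positivity)
  have hd : ∀ x ∈ L, ∀ v ∈ ball (0 : Fin m → ℂ) r2,
      dist (fs x) (Φ (x, v)) < min (min ε2 ε3) ε4 := by
    intro x hx v hv
    have h := hunif x hx v hv
    rw [hΦ0 x (hLW hx)] at h
    exact h
  obtain ⟨r1, hr1, hr1a, hr1b⟩ : ∃ r1 : ℝ, 0 < r1 ∧ r1 ≤ r / 8 ∧ 2 * r1 ≤ r2 := by
    refine ⟨min (r / 8) (r2 / 2), by positivity, min_le_left _ _, ?_⟩
    have := min_le_right (r / 8) (r2 / 2)
    linarith
  have hball : ball (0 : Fin m → ℂ) r1 ⊆ ball (0 : Fin m → ℂ) (2 * r1) :=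
    ball_subset_ball (by linarith)
  have hball2 : ball (0 : Fin m → ℂ) (2 * r1) ⊆ ball (0 : Fin m → ℂ) r2 :=
    ball_subset_ball hr1b
  -- the coordinate of points of the chart
  have hZ : ∀ x ∈ L, fs x ∈ S.e.source → ‖S.e (fs x)‖ < c1 → ∀ v ∈ ball (0 : Fin m → ℂ) r2,
      Φ (x, v) ∈ S.e.source ∧ ‖S.e (Φ (x, v))‖ < 2 * c1 := by
    intro x hx hxs hxc v hv
    obtain ⟨h1, h2⟩ := hnear2 (fs x) (hmemC c1 _ hxs hxc.le) (Φ (x, v))
      ((hd x hx v hv).trans_le ((min_le_left _ _).trans (min_le_left _ _)))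
    refine ⟨h1, ?_⟩
    have h3 : ‖S.e (Φ (x, v))‖ ≤ ‖S.e (fs x)‖ + ‖S.e (fs x) - S.e (Φ (x, v))‖ := by
      rw [norm_sub_rev]
      exact norm_le_norm_add_norm_sub' _ _
    linarith
  -- the inverse coordinate
  have hσd : ∀ x ∈ L, fs x ∈ S.e.source → ‖S.e (fs x)‖ < c1 → ∀ z ∈ ball (0 : Fin m → ℂ) (4 * c1),
      dist (Φ (x, 0)) (S.σ z) < ε1 := by
    intro x hx hxs hxc z hz
    rw [mem_ball_zero_iff] at hz
    have h1 : S.σ (S.e (fs x)) = fs x := by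
      rw [← S.symm_eq (S.e (fs x)) (by rw [mem_ball_zero_iff]; linarith), S.e.left_inv hxs]
    have h2 : dist (S.σ (S.e (fs x))) (S.σ 0) < ε1 / 2 := hσ (by rw [dist_zero_right]; linarith)
    have h3 : dist (S.σ z) (S.σ 0) < ε1 / 2 := hσ (by rw [dist_zero_right]; linarith)
    rw [hΦ0 x (hLW hx), ← h1]
    calc dist (S.σ (S.e (fs x))) (S.σ z) ≤ dist (S.σ (S.e (fs x))) (S.σ 0) + dist (S.σ z) (S.σ 0) :=
          dist_triangle_right _ _ _
      _ < ε1 / 2 + ε1 / 2 := add_lt_add h2 h3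
      _ = ε1 := by ring
  have hsel : ∀ w : E × (Fin m → ℂ), ∃ v : Fin m → ℂ, (w.1 ∈ L ∧ fs w.1 ∈ S.e.source ∧
      ‖S.e (fs w.1)‖ < c1 ∧ w.2 ∈ ball (0 : Fin m → ℂ) (4 * c1)) →
      v ∈ ball (0 : Fin m → ℂ) r ∧ ‖v‖ < r / 16 ∧ Φ (w.1, v) = S.σ w.2 := by
    intro w
    by_cases hw : w.1 ∈ L ∧ fs w.1 ∈ S.e.source ∧ ‖S.e (fs w.1)‖ < c1 ∧
        w.2 ∈ ball (0 : Fin m → ℂ) (4 * c1)
    · obtain ⟨v, h1, h2, h3⟩ := hcoord w.1 hw.1 0 (mem_closedBall_self le_rfl) (S.σ w.2)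
        (hσd w.1 hw.1 hw.2.1 hw.2.2.1 w.2 hw.2.2.2)
      rw [sub_zero] at h2
      exact ⟨v, fun _ => ⟨h1, h2, h3⟩⟩
    · exact ⟨0, fun h' => absurd h' hw⟩
  choose G hG using hsel
  have hopenV : IsOpen {x | x ∈ interior L ∧ fs x ∈ S.e.source ∧ ‖S.e (fs x)‖ < c1} := by
    have h1 : IsOpen (S.e.source ∩ S.e ⁻¹' ball (0 : Fin m → ℂ) c1) :=
      S.e.isOpen_inter_preimage isOpen_ball
    have h2 := (hfc.mono hIL).isOpen_inter_preimage isOpen_interior h1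
    convert h2 using 1
    ext x
    simp only [mem_ofPred_eq, mem_inter_iff, mem_preimage, mem_ball_zero_iff]
  have hGhol : DifferentiableOn ℂ G
      ({x | x ∈ interior L ∧ fs x ∈ S.e.source ∧ ‖S.e (fs x)‖ < c1} ×ˢ
        ball (0 : Fin m → ℂ) (4 * c1)) := by
    refine EtHol.coord_hol (a := Prod.fst) (g := fun w => S.σ w.2) hW hEt
      (hopenV.prod isOpen_ball) differentiable_fst.differentiableOn ?_ ?_ ?_ ?_
    · exact HolOn.comp (g := fun w : E × (Fin m → ℂ) => w.2) S.hol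
        differentiable_snd.differentiableOn (fun _ _ => mem_univ _)
    · intro w hw
      exact hLW (hIL hw.1.1)
    · intro w hw
      exact (hG w ⟨hIL hw.1.1, hw.1.2.1, hw.1.2.2, hw.2⟩).1
    · intro w hw
      exact (hG w ⟨hIL hw.1.1, hw.1.2.1, hw.1.2.2, hw.2⟩).2.2
  have hslice : ∀ x ∈ interior L, fs x ∈ S.e.source → ‖S.e (fs x)‖ < c1 →
      DifferentiableOn ℂ (fun z => G (x, z)) (ball (0 : Fin m → ℂ) (4 * c1)) := by
    intro x hx hxs hxc
    exact hGhol.comp (((differentiable_const x).prodMk differentiable_id).differentiableOn)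
      (fun z hz => ⟨⟨hx, hxs, hxc⟩, hz⟩)
  refine ⟨{
    U := interior L
    Φ := Φ
    G := G
    r0 := r
    r1 := r1
    c1 := c1
    L := max 1 (max (r / 16 / c1) (2 * (2 * c1) / (2 * r1)))
    U_open := isOpen_interior
    K_U := hKL
    r0_pos := hr
    r1_pos := hr1
    r1_le := hr1a
    c1_pos := hc1
    c1_le := hc1a
    c1_one := hc1b
    L_ge := le_max_left _ _
    fs_hol := hf.mono (hIL.trans hLU)
    hol := (hFam.mono (isOpen_interior.prod isOpen_ball)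
      (prod_mono (hIL.trans hLW) Subset.rfl)).etHol
    base := fun x hx => hΦ0 x (hLW (hIL hx))
    G_hol := hGhol
    G_spec := ?_
    G_lip := ?_
    Z_spec := ?_
    Z_lip := ?_
    far := ?_
    near := ?_ }⟩
  · intro x hx hxs hxc z hz
    obtain ⟨h1, h2, h3⟩ := hG (x, z) ⟨hIL hx, hxs, hxc, hz⟩
    refine ⟨?_, h3⟩
    rw [mem_ball_zero_iff]
    linarith
  · intro x hx hxs hxc z hz z' hz'
    have hdiff := hslice x hx hxs hxc
    have hsub : ∀ w ∈ ball (0 : Fin m → ℂ) (3 * c1), ball w c1 ⊆ ball (0 : Fin m → ℂ) (4 * c1) := by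
      intro w hw
      apply ball_subset_ball'
      rw [mem_ball] at hw
      linarith
    have h1 : ∀ w ∈ ball (0 : Fin m → ℂ) (3 * c1), DifferentiableAt ℂ (fun z => G (x, z)) w :=
      fun w hw => hdiff.differentiableAt (isOpen_ball.mem_nhds (hsub w hw (mem_ball_self hc1)))
    have h2 : ∀ w ∈ ball (0 : Fin m → ℂ) (3 * c1), ‖fderiv ℂ (fun z => G (x, z)) w‖ ≤ r / 16 / c1 := by
      intro w hw
      refine norm_fderiv_le hc1 (hdiff.mono (hsub w hw)) (fun y hy => ?_)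
      exact (hG (x, y) ⟨hIL hx, hxs, hxc, hsub w hw hy⟩).2.1.le
    have h3 := (convex_ball (0 : Fin m → ℂ) (3 * c1)).norm_image_sub_le_of_norm_fderiv_le h1 h2
      hz' hz
    refine h3.trans (mul_le_mul_of_nonneg_right ?_ (norm_nonneg _))
    exact (le_max_left _ _).trans (le_max_right _ _)
  · intro x hx hxs hxc v hv
    exact hZ x (hIL hx) hxs hxc v (hball2 (hball hv))
  · intro x hx hxs hxc v hv v' hv'
    have hdiff : DifferentiableOn ℂ (fun v => S.e (Φ (x, v))) (ball (0 : Fin m → ℂ) (2 * r1)) := by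
      have h1 : HolOn m (fun v => Φ (x, v)) (ball (0 : Fin m → ℂ) (2 * r1)) := by
        refine HolOn.mono (hEt.fib x (hLW (hIL hx))) ?_
        exact hball2.trans (ball_subset_ball hr2r)
      refine (h1.hchart S.chart).mono (fun v hv => ⟨hv, ?_⟩)
      exact (hZ x (hIL hx) hxs hxc v (hball2 hv)).1
    have h2 := norm_sub_le_of_bound (f := fun v => S.e (Φ (x, v))) (x := (0 : Fin m → ℂ))
      (y := v) (z := v') (r := 2 * r1) (M := 2 * c1) (by positivity) hdiff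
      (fun y hy => (hZ x (hIL hx) hxs hxc y (hball2 hy)).2.le)
      (by rw [mul_div_cancel_left₀ _ (two_ne_zero)]; exact hv)
      (by rw [mul_div_cancel_left₀ _ (two_ne_zero)]; exact hv')
    refine h2.trans (mul_le_mul_of_nonneg_right ?_ (norm_nonneg _))
    exact (le_max_right _ _).trans (le_max_right _ _)
  · intro x hx hfar v hv heq
    have h1 := hlow x ⟨hIL hx, fun hx' => hfar ⟨hx'.1, by
      have := hx'.2
      rwa [mem_preimage, mem_ball_zero_iff] at this⟩⟩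
    have h2 := (hd x (hIL hx) v (hball2 (hball hv))).trans_le (min_le_right _ _)
    rw [heq] at h2
    exact absurd h2 (not_lt.2 h1)
  · intro x hx v hv hvs hvc
    have h1 := (hd x (hIL hx) v (hball2 (hball hv))).trans_le
      ((min_le_left _ _).trans (min_le_right _ _))
    rw [dist_comm] at h1
    obtain ⟨h2, h3⟩ := hnear3 (Φ (x, v)) (hmemC (3 * c1 / 8) _ hvs hvc) (fs x) h1
    refine ⟨h2, ?_⟩
    have h4 : ‖S.e (fs x)‖ ≤ ‖S.e (Φ (x, v))‖ + ‖S.e (Φ (x, v)) - S.e (fs x)‖ := by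
      rw [norm_sub_rev]
      exact norm_le_norm_add_norm_sub' _ _
    linarith

/-- points of `V` near the zero section are coordinates of chart points -/
theorem LocData.G_Z {m : ℕ} {X : Type} [MetricSpace X] [ChartedSpace (Fin m → ℂ) X] {p : X}
    {S : SigmaData m p} {E : Type} [NormedAddCommGroup E] [NormedSpace ℂ E] {K : Set E}
    {fs : E → X} (D : LocData S K fs) {x : E} (hx : x ∈ D.V D.c1) {v : Fin m → ℂ}
    (hv : v ∈ ball (0 : Fin m → ℂ) D.r1) : D.G (x, S.e (D.Φ (x, v))) = v := by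
  obtain ⟨hxU, hxs, hxc⟩ := hx
  obtain ⟨h1, h2⟩ := D.Z_spec x hxU hxs hxc v hv
  have hc1 := D.c1_pos
  have hc2 := D.c1_le
  have hSc := S.c_pos
  have hr0 := D.r0_pos
  have hr1 := D.r1_le
  obtain ⟨h3, h4⟩ := D.G_spec x hxU hxs hxc (S.e (D.Φ (x, v)))
    (by rw [mem_ball_zero_iff]; linarith)
  have h5 : S.σ (S.e (D.Φ (x, v))) = D.Φ (x, v) := by
    rw [← S.symm_eq (S.e (D.Φ (x, v))) (by rw [mem_ball_zero_iff]; linarith), S.e.left_inv h1]
  rw [h5] at h4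
  refine D.hol.inj x hxU ?_ ?_ h4
  · exact ball_subset_ball (by linarith) h3
  · exact ball_subset_ball (by linarith) hv

theorem LocData.V_open {m : ℕ} {X : Type} [MetricSpace X] [ChartedSpace (Fin m → ℂ) X] {p : X}
    {S : SigmaData m p} {E : Type} [NormedAddCommGroup E] [NormedSpace ℂ E] {K : Set E}
    {fs : E → X} (D : LocData S K fs) (a : ℝ) : IsOpen (D.V a) := by
  have h1 : IsOpen (S.e.source ∩ S.e ⁻¹' ball (0 : Fin m → ℂ) a) :=
    S.e.isOpen_inter_preimage isOpen_ball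
  have h2 := (HolOn.continuousOn D.fs_hol).isOpen_inter_preimage D.U_open h1
  convert h2 using 1
  ext x
  simp only [LocData.V, mem_ofPred_eq, mem_inter_iff, mem_preimage, mem_ball_zero_iff]

theorem LocData.Z_hol {m : ℕ} {X : Type} [MetricSpace X] [ChartedSpace (Fin m → ℂ) X] {p : X}
    {S : SigmaData m p} {E : Type} [NormedAddCommGroup E] [NormedSpace ℂ E] {K : Set E}
    {fs : E → X} (D : LocData S K fs) :
    DifferentiableOn ℂ (fun q : E × (Fin m → ℂ) => S.e (D.Φ q))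
      (D.V D.c1 ×ˢ ball (0 : Fin m → ℂ) D.r1) := by
  have h1 : HolOn m D.Φ (D.V D.c1 ×ˢ ball (0 : Fin m → ℂ) D.r1) := by
    refine HolOn.mono D.hol.hol (prod_mono (fun x hx => hx.1) (ball_subset_ball ?_))
    have hr0 := D.r0_pos
    have hr1 := D.r1_le
    linarith
  refine (h1.hchart S.chart).mono (fun q hq => ⟨hq, ?_⟩)
  exact (D.Z_spec q.1 hq.1.1 hq.1.2.1 hq.1.2.2 q.2 hq.2).1

end OkaP
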