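import Pool.Agent.H.MP_ceb9a9.LimitSeq

set_option autoImplicit false
open Set Metric Filter
open scoped Topology Manifold

noncomputable section
namespace OkaP

variable {m : ℕ} {X : Type} [MetricSpace X] [ChartedSpace (Fin m → ℂ) X]
variable {E F : Type} [NormedAddCommGroup E] [NormedSpace ℂ E]
  [NormedAddCommGroup F] [NormedSpace ℂ F]

/-- the state of the exhaustion: a holomorphic map near a compact convex set inside a ball. -/
structure StepRedState (m n : ℕ) (X : Type) [MetricSpace X] [ChartedSpace (Fin m → ℂ) X] where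
  V : Set (Fin n → ℂ)
  K : Set (Fin n → ℂ)
  f : (Fin n → ℂ) → X
  δ : ℝ
  r : ℝ
  hV : IsOpen V
  hK : IsCompact K
  hKc : Convex ℝ K
  hKV : K ⊆ V
  hf : HolOn m f V
  hδ : 0 < δ
  hc : IsCompact (cthickening (2 * δ) (f '' K))
  hr : K ⊆ closedBall 0 r

theorem stepRed_small [LocallyCompactSpace X] {C : Set X} (hC : IsCompact C) {η : ℝ} (hη : 0 < η) :
    ∃ δ > 0, δ ≤ η ∧ IsCompact (cthickening (2 * δ) C) := by
  obtain ⟨d, hd, hdC⟩ := exists_compact_thickening hC
  refine ⟨min (d / 2) η, lt_min (half_pos hd) hη, min_le_right _ _, ?_⟩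
  refine hdC.of_isClosed_subset isClosed_cthickening (cthickening_mono ?_ C)
  have := min_le_left (d / 2) η
  linarith

theorem stepRed_next [IsManifold 𝓘(ℂ, Fin m → ℂ) ⊤ X]
    (h : ∀ (n : ℕ) (K L U : Set (Fin n → ℂ)), IsCompact K → Convex ℝ K → IsCompact L → Convex ℝ L →
      K ⊆ L → IsOpen U → K ⊆ U → ∀ f : (Fin n → ℂ) → X, HolOn m f U → ∀ ε > 0,
      ∃ (V : Set (Fin n → ℂ)) (g : (Fin n → ℂ) → X), IsOpen V ∧ L ⊆ V ∧ HolOn m g V ∧
        ∀ x ∈ K, dist (f x) (g x) < ε) {n : ℕ} (s : StepRedState m n X) :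
    ∃ t : StepRedState m n X, t.K = closedBall 0 (s.r + 1) ∧ t.r = s.r + 1 ∧ t.δ ≤ s.δ / 2 ∧
      ∀ x ∈ s.K, dist (s.f x) (t.f x) ≤ s.δ := by
  haveI : LocallyCompactSpace X := locallyCompact (m := m)
  have hL : IsCompact (closedBall (0 : Fin n → ℂ) (s.r + 1)) := isCompact_closedBall _ _
  have hLc : Convex ℝ (closedBall (0 : Fin n → ℂ) (s.r + 1)) := convex_closedBall _ _
  have hKL : s.K ⊆ closedBall (0 : Fin n → ℂ) (s.r + 1) :=
    s.hr.trans (closedBall_subset_closedBall (by linarith))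
  obtain ⟨V, g, hV, hLV, hg, hd⟩ := h n s.K _ s.V s.hK s.hKc hL hLc hKL s.hV s.hKV s.f s.hf s.δ s.hδ
  have hgC : IsCompact (g '' closedBall (0 : Fin n → ℂ) (s.r + 1)) :=
    hL.image_of_continuousOn (hg.continuousOn.mono hLV)
  obtain ⟨δ, hδ, hδs, hδc⟩ := stepRed_small hgC (half_pos s.hδ)
  exact ⟨⟨V, closedBall 0 (s.r + 1), g, δ, s.r + 1, hV, hL, hLc, hLV, hg, hδ, hδc, subset_rfl⟩,
    rfl, rfl, hδs, fun x hx => (hd x hx).le⟩

/-- one-step version: it suffices to extend to larger compact convex sets. -/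
theorem capX_of_step [IsManifold 𝓘(ℂ, Fin m → ℂ) ⊤ X]
    (h : ∀ (n : ℕ) (K L U : Set (Fin n → ℂ)), IsCompact K → Convex ℝ K → IsCompact L → Convex ℝ L →
      K ⊆ L → IsOpen U → K ⊆ U → ∀ f : (Fin n → ℂ) → X, HolOn m f U → ∀ ε > 0,
      ∃ (V : Set (Fin n → ℂ)) (g : (Fin n → ℂ) → X), IsOpen V ∧ L ⊆ V ∧ HolOn m g V ∧
        ∀ x ∈ K, dist (f x) (g x) < ε) : CAPX m X := by
  intro n K U hK hKc hU hKU f hf ε hε
  haveI : LocallyCompactSpace X := locallyCompact (m := m)
  have hfC : IsCompact (f '' K) := hK.image_of_continuousOn (hf.continuousOn.mono hKU)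
  obtain ⟨δ, hδ, hδs, hδc⟩ := stepRed_small hfC (η := ε / 4) (by positivity)
  obtain ⟨R, hR⟩ := hK.isBounded.subset_closedBall 0
  let s0 : StepRedState m n X := ⟨U, K, f, δ, R, hU, hK, hKc, hKU, hf, hδ, hδc, hR⟩
  choose next h1 h2 h3 h4 using fun s : StepRedState m n X => stepRed_next h s
  let S : ℕ → StepRedState m n X := fun j => Nat.rec s0 (fun _ s => next s) j
  have hS : ∀ j, S (j + 1) = next (S j) := fun j => rfl
  have hS0 : S 0 = s0 := rfl
  have hr : ∀ j, (S j).r = R + j := by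
    intro j
    induction j with
    | zero => simp [hS0, s0]
    | succ j ih => rw [hS, h2, ih]; push_cast; ring
  obtain ⟨g, hg, hgd⟩ := limit_of_seq (m := m) (f := fun j => (S j).f) (K := fun j => (S j).K)
    (δ := fun j => (S j).δ) (fun j => (S j).hK)
    (fun j => by
      have : (S (j + 1)).K = closedBall 0 ((S j).r + 1) := by rw [hS, h1]
      rw [this]
      refine (S j).hr.trans ?_
      refine (closedBall_subset_ball (by linarith : (S j).r < (S j).r + 1)).trans ?_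
      exact ball_subset_interior_closedBall)
    (fun j => (S j).hf.mono (interior_subset.trans (S j).hKV))
    (fun j => (S j).hf.continuousOn.mono (S j).hKV)
    (fun j => (S j).hδ)
    (fun j => by rw [hS]; exact h3 _)
    (fun j => (S j).hc)
    (fun j x hx => by rw [hS]; exact h4 _ x hx)
  refine ⟨g, ?_, ?_⟩
  · refine hg.mono fun x _ => ?_
    obtain ⟨j, hj⟩ := exists_nat_ge (‖x‖ - R)
    refine mem_iUnion.2 ⟨j + 1, ?_⟩
    have : (S (j + 1)).K = closedBall 0 ((S j).r + 1) := by rw [hS, h1]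
    rw [this, mem_closedBall_zero_iff, hr]
    linarith
  · intro x hx
    have := hgd 0 x hx
    have h5 : dist (f x) (g x) ≤ 2 * δ := this
    linarith

end OkaP
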