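import Pool.Agent.H.MP_ceb9a9.Base

set_option autoImplicit false
open Set Metric Filter
open scoped Topology Manifold

namespace OkaP

/-- a linear isomorphism over the complex numbers maps convex sets to convex sets. -/
private theorem Transfer_convex {E : Type} [NormedAddCommGroup E] [NormedSpace ℂ E] {n : ℕ}
    (A : E ≃L[ℂ] (Fin n → ℂ)) {K : Set E} (hK : Convex ℝ K) : Convex ℝ (A '' K) := by
  rintro _ ⟨x, hx, rfl⟩ _ ⟨y, hy, rfl⟩ a b ha hb hab
  refine ⟨a • x + b • y, hK hx hy ha hb hab, ?_⟩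
  have h1 : ∀ (c : ℝ) (z : E), A (c • z) = c • A z := by
    intro c z
    have e1 : (c • z : E) = (c : ℂ) • z := rfl
    rw [e1, map_smul]
    ext i
    simp
  rw [map_add, h1, h1]

/-- the version of the transfer for a metric space. -/
private theorem Transfer_metric (m : ℕ) (X : Type) [MetricSpace X]
    [ChartedSpace (Fin m → ℂ) X] (p : X) (hmain : CAPY m p → CAPX m X)
    (hyp : ∀ (n : ℕ) (K U : Set (Fin n → ℂ)), IsCompact K → Convex ℝ K → IsOpen U → K ⊆ U →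
        ∀ f : (Fin n → ℂ) → X,
          MDifferentiableOn 𝓘(ℂ, Fin n → ℂ) 𝓘(ℂ, Fin m → ℂ) f U →
          (∀ x ∈ U, f x ≠ p) →
          ∀ O : Set ((Fin n → ℂ) × X), IsOpen O → (∀ x ∈ K, (x, f x) ∈ O) →
            ∃ g : (Fin n → ℂ) → X,
              MDifferentiable 𝓘(ℂ, Fin n → ℂ) 𝓘(ℂ, Fin m → ℂ) g ∧
              (∀ x, g x ≠ p) ∧ ∀ x ∈ K, (x, g x) ∈ O) :
    ∀ (n : ℕ) (K U : Set (Fin n → ℂ)), IsCompact K → Convex ℝ K → IsOpen U → K ⊆ U →
        ∀ f : (Fin n → ℂ) → X,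
          MDifferentiableOn 𝓘(ℂ, Fin n → ℂ) 𝓘(ℂ, Fin m → ℂ) f U →
          ∀ O : Set ((Fin n → ℂ) × X), IsOpen O → (∀ x ∈ K, (x, f x) ∈ O) →
            ∃ g : (Fin n → ℂ) → X,
              MDifferentiable 𝓘(ℂ, Fin n → ℂ) 𝓘(ℂ, Fin m → ℂ) g ∧
              ∀ x ∈ K, (x, g x) ∈ O := by
  have hX : CAPX m X := by
    apply hmain
    intro E _ _ _ K U hK hKc hU hKU f hf hfp ε hε
    let A : E ≃L[ℂ] (Fin (Module.finrank ℂ E) → ℂ) := (Module.finBasis ℂ E).equivFunL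
    have hU' : IsOpen (A.symm ⁻¹' U) := hU.preimage A.symm.continuous
    have hf' : HolOn m (fun z => f (A.symm z)) (A.symm ⁻¹' U) :=
      hf.comp A.symm.differentiable.differentiableOn (fun z hz => hz)
    obtain ⟨g, hg, hgp, hgO⟩ := hyp _ (A '' K) (A.symm ⁻¹' U) (hK.image A.continuous)
      (Transfer_convex A hKc) hU'
      (by rintro _ ⟨x, hx, rfl⟩; simpa using hKU hx) (fun z => f (A.symm z)) hf'
      (fun z hz => hfp _ hz)
      (((A.symm ⁻¹' U) ×ˢ univ) ∩ (fun q => dist (f (A.symm q.1)) q.2) ⁻¹' Iio ε)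
      (by
        refine ContinuousOn.isOpen_inter_preimage ?_ (hU'.prod isOpen_univ) isOpen_Iio
        refine continuous_dist.comp_continuousOn (ContinuousOn.prodMk ?_ continuousOn_snd)
        exact hf'.continuousOn.comp continuousOn_fst (fun q hq => hq.1))
      (by
        rintro _ ⟨x, hx, rfl⟩
        refine ⟨⟨?_, trivial⟩, ?_⟩
        · simpa using hKU hx
        · simpa using hε)
    refine ⟨fun x => g (A x), ?_, fun x => hgp _, fun x hx => ?_⟩
    · have hg' : HolOn m g univ := mdifferentiableOn_univ.2 hg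
      exact hg'.comp A.differentiable.differentiableOn (fun x _ => mem_univ _)
    · have := (hgO _ (mem_image_of_mem A hx)).2
      simpa using this
  intro n K U hK hKc hU hKU f hf O hO hKO
  have hfc : ContinuousOn f K := (HolOn.continuousOn (m := m) hf).mono hKU
  have hC : IsCompact ((fun x => (x, f x)) '' K) :=
    hK.image_of_continuousOn (continuousOn_id.prodMk hfc)
  obtain ⟨δ, hδ, hsub⟩ := hC.exists_thickening_subset_open hO (by
    rintro _ ⟨x, hx, rfl⟩; exact hKO x hx)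
  obtain ⟨g, hg, hgK⟩ := hX n K U hK hKc hU hKU f hf δ hδ
  refine ⟨g, mdifferentiableOn_univ.1 hg, fun x hx => hsub ?_⟩
  rw [mem_thickening_iff]
  refine ⟨(x, f x), mem_image_of_mem _ hx, ?_⟩
  rw [Prod.dist_eq, dist_self, max_lt_iff]
  refine ⟨hδ, ?_⟩
  rw [dist_comm]
  exact hgK x hx

end OkaP

/-- transfer to the frozen statement. -/
theorem OkaP.frozen_of_main
    (hmain : ∀ (m : ℕ) (X : Type) [MetricSpace X] [SecondCountableTopology X]
      [ChartedSpace (Fin m → ℂ) X] [IsManifold 𝓘(ℂ, Fin m → ℂ) ⊤ X] (p : X),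
      OkaP.CAPY m p → OkaP.CAPX m X) :
    ∀ (m : ℕ) (X : Type) [TopologicalSpace X] [T2Space X] [SecondCountableTopology X]
      [ChartedSpace (Fin m → ℂ) X] [IsManifold 𝓘(ℂ, Fin m → ℂ) ⊤ X] (p : X),
      (∀ (n : ℕ) (K U : Set (Fin n → ℂ)), IsCompact K → Convex ℝ K → IsOpen U → K ⊆ U →
        ∀ f : (Fin n → ℂ) → X,
          MDifferentiableOn 𝓘(ℂ, Fin n → ℂ) 𝓘(ℂ, Fin m → ℂ) f U →
          (∀ x ∈ U, f x ≠ p) →
          ∀ O : Set ((Fin n → ℂ) × X), IsOpen O → (∀ x ∈ K, (x, f x) ∈ O) →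
            ∃ g : (Fin n → ℂ) → X,
              MDifferentiable 𝓘(ℂ, Fin n → ℂ) 𝓘(ℂ, Fin m → ℂ) g ∧
              (∀ x, g x ≠ p) ∧ ∀ x ∈ K, (x, g x) ∈ O) →
      (∀ (n : ℕ) (K U : Set (Fin n → ℂ)), IsCompact K → Convex ℝ K → IsOpen U → K ⊆ U →
        ∀ f : (Fin n → ℂ) → X,
          MDifferentiableOn 𝓘(ℂ, Fin n → ℂ) 𝓘(ℂ, Fin m → ℂ) f U →
          ∀ O : Set ((Fin n → ℂ) × X), IsOpen O → (∀ x ∈ K, (x, f x) ∈ O) →
            ∃ g : (Fin n → ℂ) → X,
              MDifferentiable 𝓘(ℂ, Fin n → ℂ) 𝓘(ℂ, Fin m → ℂ) g ∧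
              ∀ x ∈ K, (x, g x) ∈ O) := by
  intro m X hX1 hX2 hX3 hX4 hX5 p hyp
  have hlc : LocallyCompactSpace X := Manifold.locallyCompact_of_finiteDimensional 𝓘(ℂ, Fin m → ℂ)
  have hmz : TopologicalSpace.MetrizableSpace X :=
    TopologicalSpace.metrizableSpace_of_t3_secondCountable X
  exact @OkaP.Transfer_metric m X (TopologicalSpace.metrizableSpaceMetric X) hX4 p
    (@hmain m X (TopologicalSpace.metrizableSpaceMetric X) hX3 hX4 hX5 p) hyp
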