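import Pool.Agent.H.MP_ceb9a9.PathInd
import Pool.Agent.H.MP_ceb9a9.StepRed
import Pool.Agent.H.MP_ceb9a9.Transfer

/-!
# MP_ceb9a9: `X` minus a point Oka implies `X` Oka
-/

set_option autoImplicit false

open scoped Manifold

namespace OkaP

open Set Metric Topology

/-- convexity from convexity with complex coefficients -/
theorem mainThm_convex {E : Type} [NormedAddCommGroup E] [NormedSpace ℂ E] {K : Set E}
    (h : ∀ x ∈ K, ∀ y ∈ K, ∀ a b : ℝ, 0 ≤ a → 0 ≤ b → a + b = 1 → (a : ℂ) • x + (b : ℂ) • y ∈ K) :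
    Convex ℝ K := by
  intro x hx y hy a b ha hb hab
  have := h x hx y hy a b ha hb hab
  simpa only [Complex.coe_smul] using this

theorem capX_of_capY (m : ℕ) (X : Type) [MetricSpace X] [SecondCountableTopology X]
    [ChartedSpace (Fin m → ℂ) X] [IsManifold 𝓘(ℂ, Fin m → ℂ) ⊤ X] (p : X)
    (hp : CAPY m p) : CAPX m X := by
  apply capX_of_step
  intro n K L U hK hKc hL _ hKL hU hKU f hf ε hε
  let e : EuclideanSpace ℂ (Fin n) ≃L[ℂ] (Fin n → ℂ) := EuclideanSpace.equiv (Fin n) ℂ
  have hK' : IsCompact (e ⁻¹' K) := by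
    have : e ⁻¹' K = e.symm '' K := by
      rw [e.symm.image_eq_preimage_symm, ContinuousLinearEquiv.symm_symm]
    rw [this]
    exact hK.image e.symm.continuous
  have hL' : IsCompact (e ⁻¹' L) := by
    have : e ⁻¹' L = e.symm '' L := by
      rw [e.symm.image_eq_preimage_symm, ContinuousLinearEquiv.symm_symm]
    rw [this]
    exact hL.image e.symm.continuous
  have hU' : IsOpen (e ⁻¹' U) := hU.preimage e.continuous
  have hKU' : e ⁻¹' K ⊆ e ⁻¹' U := preimage_mono hKU
  have hf' : HolOn m (fun x => f (e x)) (e ⁻¹' U) :=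
    HolOn.comp hf e.differentiable.differentiableOn (fun x hx => hx)
  obtain ⟨R, hR⟩ := hL'.isBounded.subset_closedBall 0
  obtain ⟨V', g', hV', hRV, hg', hd⟩ := appr_all hp hK' (mainThm_convex (by
    intro x hx y hy a b ha hb hab
    have h1 := hKc hx hy ha hb hab
    show e ((a : ℂ) • x + (b : ℂ) • y) ∈ K
    have e1 : e ((a : ℂ) • x + (b : ℂ) • y) = a • e x + b • e y := by
      rw [map_add, map_smul, map_smul]
      ext i
      simp
    rw [e1]
    exact h1)) hU' hKU' hf' R hε
  refine ⟨e.symm ⁻¹' V', fun x => g' (e.symm x), hV'.preimage e.symm.continuous, ?_, ?_, ?_⟩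
  · intro x hx
    apply hRV
    apply hR
    show e (e.symm x) ∈ L
    rw [e.apply_symm_apply]
    exact hx
  · exact HolOn.comp hg' e.symm.differentiable.differentiableOn (fun x hx => hx)
  · intro x hx
    have := hd (e.symm x) (by show e (e.symm x) ∈ K; rw [e.apply_symm_apply]; exact hx)
    simpa only [e.apply_symm_apply] using this

end OkaP
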