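import Pool.Agent.H.MP_ceb9a9.Psh0
import Pool.Agent.H.MP_ceb9a9.Scv5

/-!
# MP_ceb9a9: Narasimhan's lemma (local convexification) and stability of convexity
-/

set_option autoImplicit false

open Set Metric Topology Filter
open scoped ContDiff

noncomputable section
namespace OkaP

variable {E : Type} [NormedAddCommGroup E] [NormedSpace ℂ E]

theorem narA_diff {F G : Type*} [NormedAddCommGroup F] [NormedSpace ℝ F]
    [NormedAddCommGroup G] [NormedSpace ℝ G] {f : F → G} {x : F} (hf : ContDiffAt ℝ ∞ f x) :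
    ContDiffAt ℝ ∞ (fderiv ℝ f) x :=
  hf.fderiv_right (m := ∞) (by norm_cast)

theorem narA_ne : (∞ : WithTop ℕ∞) ≠ 0 := by
  simp

/-- the second derivative as iterated Fréchet derivative -/
theorem D2_eq_fderiv_fderiv {φ : E → ℝ} {x : E} (hφ : ContDiffAt ℝ ∞ φ x) (v w : E) :
    D2 φ x v w = fderiv ℝ (fderiv ℝ φ) x w v := by
  have h1 : HasFDerivAt (fderiv ℝ φ) (fderiv ℝ (fderiv ℝ φ) x) x :=
    ((narA_diff hφ).differentiableAt narA_ne).hasFDerivAt
  have h2 := h1.clm_apply (hasFDerivAt_const v x)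
  unfold D2
  rw [h2.fderiv]
  simp

/-- symmetry of the second derivative -/
theorem D2_symm {φ : E → ℝ} {x : E} (hφ : ContDiffAt ℝ ∞ φ x) (v w : E) :
    D2 φ x v w = D2 φ x w v := by
  rw [D2_eq_fderiv_fderiv hφ, D2_eq_fderiv_fderiv hφ]
  have h := hφ.isSymmSndFDerivAt (by
    rw [minSmoothness_of_isRCLikeNormedField]
    exact WithTop.coe_le_coe.2 le_top)
  exact h w v

theorem narA_param {P : Type} [NormedAddCommGroup P] [NormedSpace ℝ P] {F : P × E → ℝ}
    {U : Set (P × E)} (hU : IsOpen U) (hF : ContDiffOn ℝ ∞ F U) {p : P} {x : E}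
    (hx : (p, x) ∈ U) (v : E) :
    D2 (fun y => F (p, y)) x v v = fderiv ℝ (fderiv ℝ F) (p, x) (0, v) (0, v) := by
  have h1 : ∀ᶠ y in 𝓝 x, (p, y) ∈ U := by
    have hc : Continuous (fun y : E => (p, y)) := by fun_prop
    exact hc.continuousAt.eventually (hU.mem_nhds hx)
  have h2 : (fun y => fderiv ℝ (fun y' => F (p, y')) y v) =ᶠ[𝓝 x]
      fun y => fderiv ℝ F (p, y) (0, v) := by
    filter_upwards [h1] with y hy
    have h3 : HasFDerivAt F (fderiv ℝ F (p, y)) (p, y) :=
      ((hF.contDiffAt (hU.mem_nhds hy)).differentiableAt narA_ne).hasFDerivAt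
    have h4 := h3.comp y (hasFDerivAt_prodMk_right p y)
    have h5 : fderiv ℝ (fun y' => F (p, y')) y = (fderiv ℝ F (p, y)).comp
        (ContinuousLinearMap.inr ℝ P E) := h4.fderiv
    rw [h5]
    simp
  unfold D2
  rw [h2.fderiv_eq]
  have h6 : HasFDerivAt (fderiv ℝ F) (fderiv ℝ (fderiv ℝ F) (p, x)) (p, x) :=
    ((narA_diff (hF.contDiffAt (hU.mem_nhds hx))).differentiableAt narA_ne).hasFDerivAt
  have h7 := (h6.comp x (hasFDerivAt_prodMk_right p x)).clm_apply
    (hasFDerivAt_const ((0 : P), v) x)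
  have h8 : fderiv ℝ (fun y => fderiv ℝ F (p, y) (0, v)) x = _ := h7.fderiv
  rw [h8]
  simp

/-- joint continuity of the second derivative, with parameters -/
theorem continuousOn_D2 {P : Type} [NormedAddCommGroup P] [NormedSpace ℝ P] {F : P × E → ℝ}
    {U : Set (P × E)} (hU : IsOpen U) (hF : ContDiffOn ℝ ∞ F U) :
    ContinuousOn (fun q : (P × E) × E => D2 (fun y => F (q.1.1, y)) q.1.2 q.2 q.2)
      (U ×ˢ univ) := by
  have h1 : ContinuousOn (fun q : (P × E) × E =>
      fderiv ℝ (fderiv ℝ F) q.1 (0, q.2) (0, q.2)) (U ×ˢ univ) := by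
    have h2 : ContinuousOn (fderiv ℝ (fderiv ℝ F)) U := by
      intro z hz
      exact (narA_diff (narA_diff (hF.contDiffAt (hU.mem_nhds hz)))).continuousAt.continuousWithinAt
    have h3 : ContinuousOn (fun q : (P × E) × E => fderiv ℝ (fderiv ℝ F) q.1) (U ×ˢ univ) :=
      h2.comp continuousOn_fst (fun q hq => hq.1)
    have h4 : ContinuousOn (fun q : (P × E) × E => ((0 : P), q.2)) (U ×ˢ univ) := by
      apply Continuous.continuousOn
      fun_prop
    exact (h3.clm_apply h4).clm_apply h4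
  refine h1.congr ?_
  rintro ⟨⟨p, x⟩, v⟩ ⟨hx, _⟩
  exact narA_param hU hF hx v

/-- a function with positive second derivatives on an open convex set is convex there -/
theorem convexOn_of_D2_nonneg {φ : E → ℝ} {U : Set E} (hU : IsOpen U) (hUc : Convex ℝ U)
    (hφ : ContDiffOn ℝ ∞ φ U) (h : ∀ x ∈ U, ∀ v, 0 ≤ D2 φ x v v) : ConvexOn ℝ U φ := by
  refine ⟨hUc, ?_⟩
  intro x hx y hy a b ha hb hab
  let l : ℝ → E := fun t => x + t • (y - x)
  have hl : ∀ t ∈ Icc (0 : ℝ) 1, l t ∈ U := by
    intro t ht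
    have h1 := hUc hx hy (sub_nonneg.2 ht.2) ht.1 (by ring)
    have h2 : (1 - t) • x + t • y = l t := by
      simp only [l]
      module
    rwa [h2] at h1
  have hld : ∀ t, HasDerivAt l (y - x) t := by
    intro t
    have h3 : HasDerivAt (fun t : ℝ => x + t • (y - x)) ((1 : ℝ) • (y - x)) t :=
      ((hasDerivAt_id t).smul_const (y - x)).const_add x
    rw [one_smul] at h3
    exact h3
  have hlc : Continuous l := by
    simp only [l]
    fun_prop
  have hd : ∀ t, l t ∈ U → HasDerivAt (fun t => φ (l t)) (fderiv ℝ φ (l t) (y - x)) t := by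
    intro t ht
    exact ((hφ.contDiffAt (hU.mem_nhds ht)).differentiableAt narA_ne).hasFDerivAt.comp_hasDerivAt
      t (hld t)
  have hev : ∀ t, l t ∈ U → ∀ᶠ s in 𝓝 t, l s ∈ U := fun t ht =>
    hlc.continuousAt.eventually (hU.mem_nhds ht)
  have hd2 : ∀ t, l t ∈ U → HasDerivAt (deriv (fun t => φ (l t)))
      (D2 φ (l t) (y - x) (y - x)) t := by
    intro t ht
    have h4 : deriv (fun t => φ (l t)) =ᶠ[𝓝 t] fun s => fderiv ℝ φ (l s) (y - x) := by
      filter_upwards [hev t ht] with s hs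
      exact (hd s hs).deriv
    refine HasDerivAt.congr_of_eventuallyEq ?_ h4
    have h5 : HasFDerivAt (fun z => fderiv ℝ φ z (y - x))
        (fderiv ℝ (fun z => fderiv ℝ φ z (y - x)) (l t)) (l t) := by
      apply DifferentiableAt.hasFDerivAt
      exact ((narA_diff (hφ.contDiffAt (hU.mem_nhds ht))).differentiableAt narA_ne).clm_apply
        (differentiableAt_const _)
    exact h5.comp_hasDerivAt t (hld t)
  have hconv : ConvexOn ℝ (Icc (0 : ℝ) 1) (fun t => φ (l t)) := by
    apply convexOn_of_deriv2_nonneg (convex_Icc 0 1)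
    · intro t ht
      exact (hd t (hl t ht)).continuousAt.continuousWithinAt
    · intro t ht
      exact (hd t (hl t (interior_subset ht))).differentiableAt.differentiableWithinAt
    · intro t ht
      exact (hd2 t (hl t (interior_subset ht))).differentiableAt.differentiableWithinAt
    · intro t ht
      change 0 ≤ deriv (deriv (fun t => φ (l t))) t
      rw [(hd2 t (hl t (interior_subset ht))).deriv]
      exact h _ (hl t (interior_subset ht)) _
  have h6 := hconv.2 (left_mem_Icc.2 zero_le_one) (right_mem_Icc.2 zero_le_one) ha hb hab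
  have h7 : l (a • (0 : ℝ) + b • (1 : ℝ)) = a • x + b • y := by
    simp only [l]
    have h8 : a = 1 - b := by linarith
    subst h8
    simp only [smul_eq_mul]
    module
  have h9 : l 0 = x := by simp [l]
  have h10 : l 1 = y := by simp [l]
  simp only at h6
  rw [h7, h9, h10] at h6
  exact h6

/-- chain rule for the second derivative -/
theorem D2_comp {φ : E → ℝ} {g : E → E} {y : E} (hg : ContDiffAt ℝ ∞ g y)
    (hφ : ContDiffAt ℝ ∞ φ (g y)) (u : E) :
    D2 (fun z => φ (g z)) y u u =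
      D2 φ (g y) (fderiv ℝ g y u) (fderiv ℝ g y u) +
        fderiv ℝ φ (g y) (fderiv ℝ (fun z => fderiv ℝ g z u) y u) := by
  have hev1 : ∀ᶠ z in 𝓝 y, DifferentiableAt ℝ g z := by
    have h1 := (hg.of_le (m := 1) (by norm_cast)).eventually (by simp)
    filter_upwards [h1] with z hz
    exact hz.differentiableAt one_ne_zero
  have hev2 : ∀ᶠ z in 𝓝 y, DifferentiableAt ℝ φ (g z) := by
    have h1 := (hφ.of_le (m := 1) (by norm_cast)).eventually (by simp)
    filter_upwards [hg.continuousAt.eventually h1] with z hz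
    exact hz.differentiableAt one_ne_zero
  have h2 : (fun z => fderiv ℝ (fun z => φ (g z)) z u) =ᶠ[𝓝 y]
      fun z => fderiv ℝ φ (g z) (fderiv ℝ g z u) := by
    filter_upwards [hev1, hev2] with z hz1 hz2
    have h3 := hz2.hasFDerivAt.comp z hz1.hasFDerivAt
    have h4 : fderiv ℝ (fun z => φ (g z)) z = _ := h3.fderiv
    rw [h4]
    rfl
  have h5 : HasFDerivAt (fun z => fderiv ℝ φ (g z))
      ((fderiv ℝ (fderiv ℝ φ) (g y)).comp (fderiv ℝ g y)) y :=
    ((narA_diff hφ).differentiableAt narA_ne).hasFDerivAt.comp y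
      (hg.differentiableAt narA_ne).hasFDerivAt
  have h6 : HasFDerivAt (fun z => fderiv ℝ g z u) (fderiv ℝ (fun z => fderiv ℝ g z u) y) y := by
    apply DifferentiableAt.hasFDerivAt
    exact ((narA_diff hg).differentiableAt narA_ne).clm_apply (differentiableAt_const _)
  have h7 := h5.clm_apply h6
  rw [D2_eq_fderiv_fderiv hφ]
  unfold D2
  rw [h2.fderiv_eq, h7.fderiv]
  simp [add_comm]

end OkaP
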