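import Pool.Agent.H.MP_ceb9a9.NarA

/-!
# MP_ceb9a9: Narasimhan charts
-/

set_option autoImplicit false

open Set Metric Topology Filter
open scoped ContDiff

noncomputable section
namespace OkaP

variable {E : Type} [NormedAddCommGroup E] [NormedSpace ℂ E] [FiniteDimensional ℂ E]

omit [FiniteDimensional ℂ E] in
private theorem narB_smul (w : ℂ) (v : E) : w • v = w.re • v + w.im • (Complex.I • v) := by
  conv_lhs => rw [← Complex.re_add_im w]
  rw [add_smul, mul_smul, Complex.coe_smul, Complex.coe_smul]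

omit [FiniteDimensional ℂ E] in
private theorem narB_e {L : E →L[ℝ] ℝ} (hL : L ≠ 0) : ∃ e : E, ∀ c : ℂ, L (c • e) = 2 * c.re := by
  obtain ⟨v, hv⟩ : ∃ v, L v ≠ 0 := by
    by_contra h
    push Not at h
    exact hL (ContinuousLinearMap.ext h)
  set z : ℂ := ⟨L v / 2, - L (Complex.I • v) / 2⟩ with hz
  have hz0 : z ≠ 0 := by
    intro h
    apply hv
    have := congrArg Complex.re h
    simp only [hz, Complex.zero_re] at this
    linarith
  have key : ∀ w : ℂ, L (w • v) = 2 * (w * z).re := by
    intro w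
    rw [narB_smul, map_add, map_smul, map_smul, Complex.mul_re, hz]
    simp only [smul_eq_mul]
    ring
  refine ⟨z⁻¹ • v, fun c => ?_⟩
  rw [smul_smul, key, mul_assoc, inv_mul_cancel₀ hz0, mul_one]

private theorem narB_form (B : E →L[ℝ] E →L[ℝ] ℝ) (hB : ∀ v w, B v w = B w v) :
    ∃ b : E →L[ℂ] E →L[ℂ] ℂ, (∀ v w, b v w = b w v) ∧
      ∀ v, 4 * (b v v).re = B v v - B (Complex.I • v) (Complex.I • v) := by
  set f : E → E → ℂ := fun v w =>
    ⟨(B v w - B (Complex.I • v) (Complex.I • w)) / 4,
      - (B (Complex.I • v) w + B v (Complex.I • w)) / 4⟩ with hf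
  have hI : ∀ v : E, Complex.I • Complex.I • v = -v := by
    intro v
    rw [smul_smul, Complex.I_mul_I, neg_one_smul]
  have hfs : ∀ v w, f v w = f w v := by
    intro v w
    simp only [hf]
    rw [hB v w, hB (Complex.I • v) (Complex.I • w), hB (Complex.I • v) w,
      hB v (Complex.I • w), add_comm (B w (Complex.I • v))]
  have hadd : ∀ v v' w, f (v + v') w = f v w + f v' w := by
    intro v v' w
    apply Complex.ext
    · simp only [hf, smul_add, map_add, add_apply, Complex.add_re]
      ring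
    · simp only [hf, smul_add, map_add, add_apply, Complex.add_im]
      ring
  have hsm : ∀ (c : ℂ) v w, f (c • v) w = c • f v w := by
    intro c v w
    have h1 : ∀ u : E, B (c • v) u = c.re * B v u + c.im * B (Complex.I • v) u := by
      intro u
      rw [narB_smul c v, map_add, map_smul, map_smul]
      rfl
    have h2 : ∀ u : E, B (Complex.I • c • v) u = c.re * B (Complex.I • v) u - c.im * B v u := by
      intro u
      have h3 : Complex.I • c • v = c • (Complex.I • v) := smul_comm _ _ _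
      rw [h3, narB_smul c (Complex.I • v), hI, map_add, B.map_smul c.re, B.map_smul c.im, map_neg]
      simp only [add_apply, smul_apply, neg_apply, smul_eq_mul]
      ring
    apply Complex.ext
    · rw [smul_eq_mul, Complex.mul_re]
      simp only [hf]
      rw [h1, h2]
      ring
    · rw [smul_eq_mul, Complex.mul_im]
      simp only [hf]
      rw [h1, h2]
      ring
  let b1 : E →ₗ[ℂ] E →ₗ[ℂ] ℂ := LinearMap.mk₂ ℂ f hadd hsm
    (fun v w w' => by rw [hfs v, hadd, hfs w, hfs w'])
    (fun c v w => by rw [hfs v, hsm, hfs w])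
  let b2 : E →ₗ[ℂ] E →L[ℂ] ℂ :=
    (LinearMap.toContinuousLinearMap : (E →ₗ[ℂ] ℂ) ≃ₗ[ℂ] (E →L[ℂ] ℂ)).toLinearMap.comp b1
  let b : E →L[ℂ] E →L[ℂ] ℂ := LinearMap.toContinuousLinearMap b2
  have hb : ∀ v w, b v w = f v w := fun v w => rfl
  refine ⟨b, fun v w => by rw [hb, hb, hfs], fun v => ?_⟩
  rw [hb]
  simp only [hf]
  ring

/-- Narasimhan's lemma: near a noncritical point a strictly psh function is strictly convex in
suitable holomorphic coordinates `θ` (a polynomial map), `g` is the local inverse of `θ`. -/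
theorem narasimhan {φ : E → ℝ} (hφ : ContDiff ℝ ∞ φ) {x0 : E}
    (hpos : ∀ v, v ≠ 0 → 0 < levi φ x0 v) (hcrit : fderiv ℝ φ x0 ≠ 0) :
    ∃ (θ g : E → E) (W V : Set E), ContDiff ℂ ∞ θ ∧ θ x0 = 0 ∧ IsOpen W ∧ x0 ∈ W ∧ IsOpen V ∧
      MapsTo θ W V ∧ MapsTo g V W ∧ (∀ x ∈ W, g (θ x) = x) ∧ (∀ y ∈ V, θ (g y) = y) ∧
      ContDiffOn ℂ ∞ g V ∧ (∀ x ∈ W, Function.Bijective (fderiv ℂ θ x)) ∧
      ∀ u, u ≠ 0 → 0 < D2 (fun y => φ (g y)) 0 u u := by
  have : CompleteSpace E := FiniteDimensional.complete ℂ E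
  obtain ⟨e, he⟩ := narB_e hcrit
  obtain ⟨b, hbs, hb⟩ := narB_form (fderiv ℝ (fderiv ℝ φ) x0) (fun v w => by
    rw [← D2_eq_fderiv_fderiv hφ.contDiffAt, ← D2_eq_fderiv_fderiv hφ.contDiffAt,
      D2_symm hφ.contDiffAt])
  set θ : E → E := fun x => (x - x0) + ((1 / 2 : ℂ) * b (x - x0) (x - x0)) • e with hθ
  set T : E → E →L[ℂ] E := fun x => ContinuousLinearMap.id ℂ E + (b (x - x0)).smulRight e with hT
  have hθs : ContDiff ℂ ∞ θ := by
    have h1 : ContDiff ℂ ∞ (fun x : E => x - x0) := contDiff_id.sub contDiff_const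
    exact h1.add ((contDiff_const.mul ((b.contDiff.comp h1).clm_apply h1)).smul contDiff_const)
  have hθ0 : θ x0 = 0 := by simp [hθ]
  have hθd : ∀ x, HasFDerivAt θ (T x) x := by
    intro x
    have h1 : HasFDerivAt (fun x : E => x - x0) (ContinuousLinearMap.id ℂ E) x :=
      (hasFDerivAt_id x).sub_const x0
    have h2 : HasFDerivAt (fun x : E => b (x - x0)) (b.comp (ContinuousLinearMap.id ℂ E)) x :=
      b.hasFDerivAt.comp x h1
    have h3 := h2.clm_apply h1
    have h4 := h1.add ((h3.const_mul (1 / 2 : ℂ)).smul_const e)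
    refine h4.congr_fderiv ?_
    ext v
    simp only [hT, add_apply, ContinuousLinearMap.smulRight_apply, smul_apply,
      ContinuousLinearMap.comp_apply, ContinuousLinearMap.flip_apply,
      ContinuousLinearMap.id_apply, smul_eq_mul]
    rw [hbs v (x - x0)]
    congr 2
    ring
  have hT0 : T x0 = ((ContinuousLinearEquiv.refl ℂ E : E ≃L[ℂ] E) : E →L[ℂ] E) := by
    ext v
    simp [hT]
  have hTc : Continuous T := by
    have h1 : Continuous (fun x : E => b (x - x0)) :=
      b.continuous.comp (continuous_id.sub continuous_const)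
    have h2 : T = fun x => ContinuousLinearMap.id ℂ E +
        (ContinuousLinearMap.smulRightL ℂ E E (b (x - x0))) e := by
      funext x
      rfl
    rw [h2]
    exact continuous_const.add
      (((ContinuousLinearMap.smulRightL ℂ E E).continuous.comp h1).clm_apply continuous_const)
  have hd0 : HasFDerivAt θ ((ContinuousLinearEquiv.refl ℂ E : E ≃L[ℂ] E) : E →L[ℂ] E) x0 := by
    rw [← hT0]
    exact hθd x0
  have hn : (∞ : WithTop ℕ∞) ≠ 0 := by simp
  set P := hθs.contDiffAt.toOpenPartialHomeomorph θ hd0 hn with hP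
  have hPc : ∀ x, P x = θ x := fun x => rfl
  have hPs : x0 ∈ P.source := hθs.contDiffAt.mem_toOpenPartialHomeomorph_source hd0 hn
  set R : Set E := T ⁻¹' (Set.range ((↑) : (E ≃L[ℂ] E) → E →L[ℂ] E)) with hR
  have hRo : IsOpen R := ContinuousLinearEquiv.isOpen.preimage hTc
  have hxR : x0 ∈ R := ⟨ContinuousLinearEquiv.refl ℂ E, hT0.symm⟩
  set W : Set E := P.source ∩ R with hW
  set V : Set E := P.target ∩ P.symm ⁻¹' R with hV
  have hWo : IsOpen W := P.open_source.inter hRo
  have hVo : IsOpen V := P.symm.isOpen_inter_preimage hRo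
  have hgV : ContDiffOn ℂ ∞ P.symm V := by
    intro y hy
    obtain ⟨f', hf'⟩ := hy.2
    exact (P.contDiffAt_symm hy.1 (f₀' := f') (by
      rw [hf']
      exact hθd _) hθs.contDiffAt).contDiffWithinAt
  have hθg : ∀ y ∈ V, θ (P.symm y) = y := fun y hy => P.right_inv hy.1
  have h0V : (0 : E) ∈ V := by
    have h1 : θ x0 ∈ V := ⟨P.map_source hPs, by
      change P.symm (P x0) ∈ R
      rw [P.left_inv hPs]
      exact hxR⟩
    rwa [hθ0] at h1
  have hg0 : P.symm 0 = x0 := by
    have h1 := P.left_inv hPs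
    rwa [hPc, hθ0] at h1
  refine ⟨θ, P.symm, W, V, hθs, hθ0, hWo, ⟨hPs, hxR⟩, hVo, ?_, ?_, ?_, hθg, hgV, ?_, ?_⟩
  · intro x hx
    refine ⟨P.map_source hx.1, ?_⟩
    change P.symm (P x) ∈ R
    rw [P.left_inv hx.1]
    exact hx.2
  · intro y hy
    exact ⟨P.map_target hy.1, hy.2⟩
  · intro x hx
    exact P.left_inv hx.1
  · intro x hx
    rw [(hθd x).fderiv]
    obtain ⟨f', hf'⟩ := hx.2
    rw [← hf']
    exact f'.bijective
  · intro u hu
    set g : E → E := (P.symm : E → E) with hg
    have hgd : ∀ y ∈ V, DifferentiableAt ℂ g y := fun y hy =>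
      ((hgV y hy).contDiffAt (hVo.mem_nhds hy)).differentiableAt (by simp)
    have hgC : ContDiffAt ℂ ∞ g 0 := (hgV 0 h0V).contDiffAt (hVo.mem_nhds h0V)
    have hgR : ContDiffAt ℝ ∞ g 0 := hgC.restrict_scalars ℝ
    -- the derivative relation
    have hrel : ∀ z ∈ V, ∀ u, fderiv ℂ g z u = u - (b (g z - x0) (fderiv ℂ g z u)) • e := by
      intro z hz u
      have h1 : HasFDerivAt (fun y => θ (g y)) ((T (g z)).comp (fderiv ℂ g z)) z :=
        (hθd (g z)).comp z (hgd z hz).hasFDerivAt
      have h2 : HasFDerivAt (fun y => θ (g y)) (ContinuousLinearMap.id ℂ E) z := by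
        refine (hasFDerivAt_id z).congr_of_eventuallyEq ?_
        filter_upwards [hVo.mem_nhds hz] with y hy
        exact hθg y hy
      have h3 := DFunLike.congr_fun (h1.unique h2) u
      simp only [hT, ContinuousLinearMap.comp_apply, add_apply,
        ContinuousLinearMap.smulRight_apply, ContinuousLinearMap.id_apply] at h3
      exact eq_sub_of_add_eq h3
    have hg0' : ∀ u, fderiv ℂ g 0 u = u := by
      intro u
      have := hrel 0 h0V u
      rw [hg0, sub_self, map_zero, zero_apply, zero_smul, sub_zero] at this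
      exact this
    have hfd : ∀ z ∈ V, ∀ u, fderiv ℝ g z u = fderiv ℂ g z u := by
      intro z hz u
      rw [((hgd z hz).hasFDerivAt.restrictScalars ℝ).fderiv]
      rfl
    -- the second derivative of `g`
    have hh : DifferentiableAt ℂ (fun z => fderiv ℂ g z u) 0 := by
      have h1 : ContDiffAt ℂ 1 (fderiv ℂ g) 0 := hgC.fderiv_right (by
        norm_num
        exact WithTop.coe_le_coe.2 le_top)
      exact (h1.differentiableAt (by norm_num)).clm_apply (differentiableAt_const u)
    have hsec : fderiv ℂ (fun z => fderiv ℂ g z u) 0 u = - (b u u) • e := by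
      have h1 : HasFDerivAt (fun z => g z - x0) (fderiv ℂ g 0) 0 :=
        (hgd 0 h0V).hasFDerivAt.sub_const x0
      have h2 : HasFDerivAt (fun z => b (g z - x0)) (b.comp (fderiv ℂ g 0)) 0 :=
        b.hasFDerivAt.comp 0 h1
      have h3 := h2.clm_apply hh.hasFDerivAt
      have h4 := (h3.smul_const e).const_sub u
      have h5 : HasFDerivAt (fun z => fderiv ℂ g z u) _ 0 :=
        h4.congr_of_eventuallyEq (by
          filter_upwards [hVo.mem_nhds h0V] with z hz
          exact hrel z hz u)
      rw [h5.fderiv]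
      simp only [neg_apply, ContinuousLinearMap.smulRight_apply, add_apply,
        ContinuousLinearMap.comp_apply, ContinuousLinearMap.flip_apply]
      rw [hg0, sub_self, map_zero, zero_apply, zero_add, hg0', neg_smul]
    have hsecR : fderiv ℝ (fun z => fderiv ℝ g z u) 0 u = - (b u u) • e := by
      rw [← hsec]
      have h1 : (fun z => fderiv ℝ g z u) =ᶠ[𝓝 0] fun z => fderiv ℂ g z u := by
        filter_upwards [hVo.mem_nhds h0V] with z hz
        exact hfd z hz u
      rw [h1.fderiv_eq, (hh.hasFDerivAt.restrictScalars ℝ).fderiv]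
      rfl
    rw [D2_comp hgR (by rw [hg0]; exact hφ.contDiffAt), hsecR, hfd 0 h0V, hg0', hg0, he,
      Complex.neg_re]
    have hl := hpos u hu
    unfold levi at hl
    have h6 := hb u
    rw [← D2_eq_fderiv_fderiv hφ.contDiffAt, ← D2_eq_fderiv_fderiv hφ.contDiffAt] at h6
    linarith

end OkaP
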