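import Pool.Agent.H.MP_ceb9a9.NarB

/-!
# MP_ceb9a9: Narasimhan charts (compact neighbourhoods)
-/

set_option autoImplicit false

open Set Metric Topology Filter
open scoped ContDiff

noncomputable section
namespace OkaP

variable {E : Type} [NormedAddCommGroup E] [NormedSpace ℂ E] [FiniteDimensional ℂ E]

/-- a Narasimhan chart for `φ` at `x0`, in terms of a linear isomorphism `L` with a euclidean
space: the compact neighbourhood `K = {‖L (x - x0)‖ ≤ r0, ‖L (θ x)‖ ≤ r1}` of `x0`. -/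
structure NarChart {k : ℕ} (L : E ≃L[ℂ] EuclideanSpace ℂ (Fin k)) (φ : E → ℝ) (x0 : E)
    (O : Set E) where
  θ : E → E
  g : E → E
  W : Set E
  V : Set E
  r0 : ℝ
  r1 : ℝ
  r0_pos : 0 < r0
  r1_pos : 0 < r1
  θ_smooth : ContDiff ℂ ∞ θ
  θ_zero : θ x0 = 0
  W_open : IsOpen W
  V_open : IsOpen V
  W_sub : W ⊆ O
  maps : MapsTo θ W V
  maps' : MapsTo g V W
  left : ∀ x ∈ W, g (θ x) = x
  right : ∀ y ∈ V, θ (g y) = y
  g_smooth : ContDiffOn ℂ ∞ g V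
  der : ∀ x ∈ W, Function.Bijective (fderiv ℂ θ x)
  K_sub : ∀ x, ‖L (x - x0)‖ ≤ r0 → x ∈ W
  V_sup : ∀ y, ‖L y‖ ≤ r1 → y ∈ V
  inner : ∀ y, ‖L y‖ ≤ r1 → ‖L (g y - x0)‖ < r0
  pos : ∀ y, ‖L y‖ ≤ r1 → ∀ u, u ≠ 0 → 0 < D2 (fun z => φ (g z)) y u u

/-- the compact neighbourhood of a Narasimhan chart -/
def NarChart.K {k : ℕ} {L : E ≃L[ℂ] EuclideanSpace ℂ (Fin k)} {φ : E → ℝ} {x0 : E} {O : Set E}
    (c : NarChart L φ x0 O) : Set E :=
  {x | ‖L (x - x0)‖ ≤ c.r0 ∧ ‖L (c.θ x)‖ ≤ c.r1}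

private theorem narC_small {k : ℕ} (L : E ≃L[ℂ] EuclideanSpace ℂ (Fin k)) {a : E} {S : Set E}
    (hS : S ∈ 𝓝 a) : ∃ r : ℝ, 0 < r ∧ ∀ x, ‖L (x - a)‖ ≤ r → x ∈ S := by
  have h1 : Tendsto (fun z : EuclideanSpace ℂ (Fin k) => L.symm z + a) (𝓝 0) (𝓝 a) := by
    have h2 : Continuous (fun z : EuclideanSpace ℂ (Fin k) => L.symm z + a) :=
      L.symm.continuous.add continuous_const
    have h3 := h2.tendsto 0
    simpa using h3
  obtain ⟨r, hr, h4⟩ := Metric.mem_nhds_iff.1 (h1 hS)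
  refine ⟨r / 2, by positivity, fun x hx => ?_⟩
  have h5 : L (x - a) ∈ Metric.ball (0 : EuclideanSpace ℂ (Fin k)) r := by
    rw [mem_ball_zero_iff]
    linarith
  have h6 := h4 h5
  simpa using h6

private theorem narC_pos {f : E → ℝ} {V : Set E} (hV : IsOpen V) (hf : ContDiffOn ℝ ∞ f V)
    {a : E} (ha : a ∈ V) (h : ∀ u, u ≠ 0 → 0 < D2 f a u u) :
    ∀ᶠ y in 𝓝 a, ∀ u, u ≠ 0 → 0 < D2 f y u u := by
  have hproper : ProperSpace E := FiniteDimensional.proper ℂ E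
  have hF : ContDiffOn ℝ ∞ (fun p : ℝ × E => f p.2) (univ ×ˢ V) :=
    hf.comp contDiff_snd.contDiffOn fun p hp => hp.2
  have h1 := continuousOn_D2 (isOpen_univ.prod hV) hF
  have hO : IsOpen (((univ : Set ℝ) ×ˢ V) ×ˢ (univ : Set E)) :=
    (isOpen_univ.prod hV).prod isOpen_univ
  have h2 : ∀ u ∈ sphere (0 : E) 1, ∀ᶠ p : E × E in 𝓝 (a, u), 0 < D2 f p.1 p.2 p.2 := by
    intro u hu
    have hu0 : u ≠ 0 := by
      rintro rfl
      simp at hu
    have h3 := (h1 ((0, a), u) ⟨⟨mem_univ _, ha⟩, mem_univ _⟩).continuousAt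
      (hO.mem_nhds ⟨⟨mem_univ _, ha⟩, mem_univ _⟩)
    have h4 : Continuous (fun p : E × E => (((0 : ℝ), p.1), p.2)) := by fun_prop
    have h5 : ContinuousAt (fun p : E × E => D2 f p.1 p.2 p.2) (a, u) :=
      ContinuousAt.comp (f := fun p : E × E => (((0 : ℝ), p.1), p.2)) (x := (a, u)) h3
        h4.continuousAt
    exact h5.eventually (lt_mem_nhds (h u hu0))
  have h3 : ∀ᶠ y in 𝓝 a, ∀ u ∈ sphere (0 : E) 1, 0 < D2 f y u u :=
    (isCompact_sphere (0 : E) 1).eventually_forall_of_forall_eventually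
      (P := fun y u => 0 < D2 f y u u) (fun u hu => h2 u hu)
  filter_upwards [h3, hV.mem_nhds ha] with y hy hyV u hu
  have hfy : ContDiffAt ℝ ∞ f y := hf.contDiffAt (hV.mem_nhds hyV)
  have hn : 0 < ‖u‖ := norm_pos_iff.2 hu
  have h4 := hy (‖u‖⁻¹ • u) (by
    rw [mem_sphere_zero_iff_norm, norm_smul, norm_inv, norm_norm, inv_mul_cancel₀ hn.ne'])
  rw [D2_eq_fderiv_fderiv hfy] at h4 ⊢
  rw [map_smul, map_smul] at h4
  simp only [smul_apply, smul_eq_mul] at h4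
  have h5 : 0 < ‖u‖⁻¹ := inv_pos.2 hn
  exact (mul_pos_iff_of_pos_left h5).1 ((mul_pos_iff_of_pos_left h5).1 h4)

theorem exists_narChart {k : ℕ} (L : E ≃L[ℂ] EuclideanSpace ℂ (Fin k)) {φ : E → ℝ}
    (hφ : ContDiff ℝ ∞ φ) {x0 : E} (hpos : ∀ v, v ≠ 0 → 0 < levi φ x0 v)
    (hcrit : fderiv ℝ φ x0 ≠ 0) {O : Set E} (hO : IsOpen O) (hx : x0 ∈ O) :
    Nonempty (NarChart L φ x0 O) := by
  obtain ⟨θ, g, W, V, hθ, hθ0, hW, hxW, hV, hWV, hVW, hl, hr, hg, hder, hD⟩ :=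
    narasimhan hφ hpos hcrit
  have h0V : (0 : E) ∈ V := by
    have := hWV hxW
    rwa [hθ0] at this
  have hg0 : g 0 = x0 := by
    have := hl x0 hxW
    rwa [hθ0] at this
  have hgR : ContDiffOn ℝ ∞ g V := hg.restrict_scalars ℝ
  have hV' : IsOpen (V ∩ g ⁻¹' O) := hg.continuousOn.isOpen_inter_preimage hV hO
  have h0V' : (0 : E) ∈ V ∩ g ⁻¹' O := ⟨h0V, by rw [mem_preimage, hg0]; exact hx⟩
  obtain ⟨r0, hr0, hr0'⟩ := narC_small L ((hW.inter hO).mem_nhds ⟨hxW, hx⟩)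
  have hf : ContDiffOn ℝ ∞ (fun z => φ (g z)) V := hφ.comp_contDiffOn hgR
  have h1 := narC_pos hV hf h0V hD
  have h2 : ∀ᶠ y in 𝓝 (0 : E), ‖L (g y - x0)‖ < r0 := by
    have h3 : ContinuousAt g 0 := hg.continuousOn.continuousAt (hV.mem_nhds h0V)
    have h4 : ContinuousAt (fun y => ‖L (g y - x0)‖) 0 :=
      (L.continuous.continuousAt.comp (h3.sub continuousAt_const)).norm
    refine h4.eventually (gt_mem_nhds ?_)
    show ‖L (g 0 - x0)‖ < r0
    rw [hg0, sub_self, map_zero, norm_zero]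
    exact hr0
  obtain ⟨r1, hr1, hr1'⟩ := narC_small L (a := (0 : E))
    (Filter.inter_mem (Filter.inter_mem h1 h2) (hV'.mem_nhds h0V'))
  simp only [sub_zero] at hr1'
  exact ⟨{
    θ := θ
    g := g
    W := W ∩ O
    V := V ∩ g ⁻¹' O
    r0 := r0
    r1 := r1
    r0_pos := hr0
    r1_pos := hr1
    θ_smooth := hθ
    θ_zero := hθ0
    W_open := hW.inter hO
    V_open := hV'
    W_sub := inter_subset_right
    maps := fun x hx => ⟨hWV hx.1, by rw [mem_preimage, hl x hx.1]; exact hx.2⟩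
    maps' := fun y hy => ⟨hVW hy.1, hy.2⟩
    left := fun x hx => hl x hx.1
    right := fun y hy => hr y hy.1
    g_smooth := hg.mono inter_subset_left
    der := fun x hx => hder x hx.1
    K_sub := hr0'
    V_sup := fun y hy => (hr1' y hy).2
    inner := fun y hy => (hr1' y hy).1.2
    pos := fun y hy => (hr1' y hy).1.1 }⟩

theorem NarChart.K_compact {k : ℕ} {L : E ≃L[ℂ] EuclideanSpace ℂ (Fin k)} {φ : E → ℝ} {x0 : E}
    {O : Set E} (c : NarChart L φ x0 O) : IsCompact c.K := by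
  have h1 : IsCompact ((fun z : EuclideanSpace ℂ (Fin k) => L.symm z + x0) ''
      closedBall (0 : EuclideanSpace ℂ (Fin k)) c.r0) :=
    (isCompact_closedBall _ _).image (L.symm.continuous.add continuous_const)
  have h2 : IsClosed c.K := by
    have h3 : Continuous fun x => ‖L (x - x0)‖ :=
      (L.continuous.comp (continuous_id.sub continuous_const)).norm
    have h4 : Continuous fun x => ‖L (c.θ x)‖ := (L.continuous.comp c.θ_smooth.continuous).norm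
    exact (isClosed_le h3 continuous_const).inter (isClosed_le h4 continuous_const)
  refine h1.of_isClosed_subset h2 fun x hx => ⟨L (x - x0), ?_, ?_⟩
  · rw [mem_closedBall_zero_iff]
    exact hx.1
  · simp

theorem NarChart.K_mem_nhds {k : ℕ} {L : E ≃L[ℂ] EuclideanSpace ℂ (Fin k)} {φ : E → ℝ} {x0 : E}
    {O : Set E} (c : NarChart L φ x0 O) : c.K ∈ 𝓝 x0 := by
  have h3 : Continuous fun x => ‖L (x - x0)‖ :=
    (L.continuous.comp (continuous_id.sub continuous_const)).norm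
  have h4 : Continuous fun x => ‖L (c.θ x)‖ := (L.continuous.comp c.θ_smooth.continuous).norm
  have h5 : ∀ᶠ x in 𝓝 x0, ‖L (x - x0)‖ < c.r0 :=
    h3.continuousAt.eventually (gt_mem_nhds (by simpa using c.r0_pos))
  have h6 : ∀ᶠ x in 𝓝 x0, ‖L (c.θ x)‖ < c.r1 :=
    h4.continuousAt.eventually (gt_mem_nhds (by simpa [c.θ_zero] using c.r1_pos))
  filter_upwards [h5, h6] with x hx1 hx2
  exact ⟨hx1.le, hx2.le⟩

theorem NarChart.K_subset {k : ℕ} {L : E ≃L[ℂ] EuclideanSpace ℂ (Fin k)} {φ : E → ℝ} {x0 : E}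
    {O : Set E} (c : NarChart L φ x0 O) : c.K ⊆ c.W := fun x hx => c.K_sub x hx.1

/-- the image of `K` is the closed `L`-ball -/
theorem NarChart.image_K {k : ℕ} {L : E ≃L[ℂ] EuclideanSpace ℂ (Fin k)} {φ : E → ℝ} {x0 : E}
    {O : Set E} (c : NarChart L φ x0 O) : c.θ '' c.K = {y | ‖L y‖ ≤ c.r1} := by
  ext y
  constructor
  · rintro ⟨x, hx, rfl⟩
    exact hx.2
  · intro hy
    have h1 := c.right y (c.V_sup y hy)
    refine ⟨c.g y, ⟨(c.inner y hy).le, ?_⟩, h1⟩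
    rw [h1]
    exact hy

/-- `K` is cut out by two global psh functions -/
theorem NarChart.K_eq {k : ℕ} {L : E ≃L[ℂ] EuclideanSpace ℂ (Fin k)} {φ : E → ℝ} {x0 : E}
    {O : Set E} (c : NarChart L φ x0 O) :
    ∃ ψ₁ ψ₂ : E → ℝ, Psh ψ₁ ∧ Psh ψ₂ ∧ c.K = {x | ψ₁ x ≤ 0 ∧ ψ₂ x ≤ 0} := by
  have key : ∀ (f : E → EuclideanSpace ℂ (Fin k)) (r : ℝ), ContDiff ℂ ∞ f → 
      Psh (fun x => ‖f x‖ ^ 2 + -(r ^ 2)) := by
    intro f r hf
    refine Psh.add_const ?_ _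
    have h1 := psh_qf (EuclideanSpace.basisFun (Fin k) ℂ).toBasis
    have h2 : ∀ z : EuclideanSpace ℂ (Fin k), qf (EuclideanSpace.basisFun (Fin k) ℂ).toBasis z =
        ‖z‖ ^ 2 := by
      intro z
      rw [EuclideanSpace.norm_sq_eq]
      unfold qf
      refine Finset.sum_congr rfl fun j _ => ?_
      simp
    have h3 : (fun x => ‖f x‖ ^ 2) = fun x => qf (EuclideanSpace.basisFun (Fin k) ℂ).toBasis (f x) := by
      funext x
      rw [h2]
    rw [h3]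
    refine ⟨h1.smooth.comp (hf.restrict_scalars ℝ), fun x v => ?_⟩
    rw [levi_comp_hol isOpen_univ hf.contDiffOn (mem_univ x) h1.smooth.contDiffAt]
    exact h1.nonneg _ _
  refine ⟨fun x => ‖L (x - x0)‖ ^ 2 + -(c.r0 ^ 2), fun x => ‖L (c.θ x)‖ ^ 2 + -(c.r1 ^ 2),
    key _ _ ?_, key _ _ ?_, ?_⟩
  · exact L.contDiff.comp (contDiff_id.sub contDiff_const)
  · exact L.contDiff.comp c.θ_smooth
  · ext x
    simp only [NarChart.K, mem_setOf_eq]
    rw [← sub_eq_add_neg, ← sub_eq_add_neg, sub_nonpos, sub_nonpos,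
      sq_le_sq₀ (norm_nonneg _) c.r0_pos.le, sq_le_sq₀ (norm_nonneg _) c.r1_pos.le]

/-- near `x0` there are points of `K` where `φ < φ x0` -/
theorem NarChart.exists_lt {k : ℕ} {L : E ≃L[ℂ] EuclideanSpace ℂ (Fin k)} {φ : E → ℝ} {x0 : E}
    {O : Set E} (c : NarChart L φ x0 O) (hφ : ContDiff ℝ ∞ φ) (hcrit : fderiv ℝ φ x0 ≠ 0) :
    ∃ x ∈ c.K, φ x < φ x0 := by
  by_contra h
  push Not at h
  have h1 : IsLocalMin φ x0 := by
    filter_upwards [c.K_mem_nhds] with x hx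
    exact h x hx
  exact hcrit h1.fderiv_eq_zero

end OkaP
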