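import Pool.Agent.H.MP_ceb9a9.NarC

/-!
# MP_ceb9a9: stability of convexity in Narasimhan charts
-/

set_option autoImplicit false

open Set Metric Topology Filter
open scoped ContDiff

noncomputable section
namespace OkaP

variable {E : Type} [NormedAddCommGroup E] [NormedSpace ℂ E] [FiniteDimensional ℂ E]

/-- the closed `L`-ball is compact -/
theorem narD_isCompact {k : ℕ} (L : E ≃L[ℂ] EuclideanSpace ℂ (Fin k)) (r : ℝ) :
    IsCompact {y : E | ‖L y‖ ≤ r} := by
  have h : {y : E | ‖L y‖ ≤ r} = L.symm '' (closedBall (0 : EuclideanSpace ℂ (Fin k)) r) := by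
    ext y
    simp only [mem_ofPred_eq, mem_image, mem_closedBall, dist_zero_right]
    constructor
    · intro hy
      exact ⟨L y, hy, by simp⟩
    · rintro ⟨z, hz, rfl⟩
      simpa using hz
  rw [h]
  exact (isCompact_closedBall _ _).image L.symm.continuous

/-- image of the sublevel set in a Narasimhan chart -/
theorem NarChart.image_inter {k : ℕ} {L : E ≃L[ℂ] EuclideanSpace ℂ (Fin k)} {φ : E → ℝ} {x0 : E}
    {O : Set E} (c : NarChart L φ x0 O) (f : E → ℝ) :
    c.θ '' (c.K ∩ {x | f x ≤ 0}) = {y | ‖L y‖ ≤ c.r1 ∧ f (c.g y) ≤ 0} := by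
  ext y
  constructor
  · rintro ⟨x, ⟨hxK, hx⟩, rfl⟩
    refine ⟨hxK.2, ?_⟩
    rw [c.left x (c.K_subset hxK)]
    exact hx
  · rintro ⟨hy, hfy⟩
    have hr : c.θ (c.g y) = y := c.right y (c.V_sup y hy)
    refine ⟨c.g y, ⟨⟨(c.inner y hy).le, ?_⟩, hfy⟩, hr⟩
    rw [hr]
    exact hy

/-- stability: for a smooth family `F` with `F (p0, ·) = φ`, the sets
`θ '' (K ∩ {F (p, ·) ≤ 0})` are convex for `p` near `p0`. -/
theorem NarChart.stable {k : ℕ} {L : E ≃L[ℂ] EuclideanSpace ℂ (Fin k)} {φ : E → ℝ} {x0 : E}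
    {O : Set E} (c : NarChart L φ x0 O) {P : Type} [NormedAddCommGroup P] [NormedSpace ℝ P]
    {F : P × E → ℝ} (hF : ContDiff ℝ ∞ F) {p0 : P} (h0 : ∀ x, F (p0, x) = φ x) :
    ∀ᶠ p in 𝓝 p0, Convex ℝ (c.θ '' (c.K ∩ {x | F (p, x) ≤ 0})) := by
  haveI : ProperSpace E := FiniteDimensional.proper ℂ E
  have hgR : ContDiffOn ℝ ∞ c.g c.V := c.g_smooth.restrict_scalars ℝ
  -- the pulled back family
  have hG : ContDiffOn ℝ ∞ (fun q : P × E => F (q.1, c.g q.2)) (univ ×ˢ c.V) := by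
    refine hF.comp_contDiffOn ?_
    exact contDiffOn_fst.prodMk (hgR.comp contDiffOn_snd (fun q hq => hq.2))
  have hopen : IsOpen ((univ : Set P) ×ˢ c.V) := isOpen_univ.prod c.V_open
  have hcont := continuousOn_D2 hopen hG
  have hAc : IsCompact {y : E | ‖L y‖ ≤ c.r1} := narD_isCompact L c.r1
  have hSc : IsCompact (sphere (0 : E) 1) := isCompact_sphere _ _
  have hKc := hAc.prod hSc
  have key : ∀ᶠ p in 𝓝 p0, ∀ w ∈ {y : E | ‖L y‖ ≤ c.r1} ×ˢ sphere (0 : E) 1,
      0 < D2 (fun z => F (p, c.g z)) w.1 w.2 w.2 := by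
    refine hKc.eventually_forall_of_forall_eventually
      (P := fun p w => 0 < D2 (fun z => F (p, c.g z)) w.1 w.2 w.2) ?_
    rintro ⟨y, u⟩ ⟨hy, hu⟩
    have hyV : y ∈ c.V := c.V_sup y hy
    have hmem : (((p0, y), u) : (P × E) × E) ∈ ((univ : Set P) ×ˢ c.V) ×ˢ (univ : Set E) :=
      ⟨⟨mem_univ _, hyV⟩, mem_univ _⟩
    have hat := hcont.continuousAt ((hopen.prod isOpen_univ).mem_nhds hmem)
    have hu0 : u ≠ 0 := by
      rintro rfl
      simp at hu
    have hpos : 0 < D2 (fun z => F (p0, c.g z)) y u u := by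
      simp only [h0]
      exact c.pos y hy u hu0
    have hev := hat.eventually (lt_mem_nhds hpos)
    have hmap : Tendsto (fun z : P × (E × E) => (((z.1, z.2.1), z.2.2) : (P × E) × E))
        (𝓝 (p0, (y, u))) (𝓝 ((p0, y), u)) := by
      apply Continuous.tendsto (f := fun z : P × (E × E) => (((z.1, z.2.1), z.2.2) : (P × E) × E))
      fun_prop
    exact hmap.eventually hev
  filter_upwards [key] with p hp
  rw [c.image_inter (fun x => F (p, x))]
  -- the slice
  have hGp : ContDiffOn ℝ ∞ (fun z : E => F (p, c.g z)) c.V := by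
    refine hF.comp_contDiffOn ?_
    exact contDiffOn_const.prodMk hgR
  have hUsub : {y : E | ‖L y‖ < c.r1} ⊆ c.V := fun y hy => c.V_sup y (le_of_lt hy)
  have hUo : IsOpen {y : E | ‖L y‖ < c.r1} :=
    isOpen_lt (L.continuous.norm) continuous_const
  have hUc : Convex ℝ {y : E | ‖L y‖ < c.r1} := by
    have h1 : {y : E | ‖L y‖ < c.r1} =
        (L.toLinearEquiv.toLinearMap.restrictScalars ℝ) ⁻¹'
          (ball (0 : EuclideanSpace ℂ (Fin k)) c.r1) := by
      ext y
      simp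
    rw [h1]
    exact (convex_ball _ _).linear_preimage _
  have hAcv : Convex ℝ {y : E | ‖L y‖ ≤ c.r1} := by
    have h1 : {y : E | ‖L y‖ ≤ c.r1} =
        (L.toLinearEquiv.toLinearMap.restrictScalars ℝ) ⁻¹'
          (closedBall (0 : EuclideanSpace ℂ (Fin k)) c.r1) := by
      ext y
      simp
    rw [h1]
    exact (convex_closedBall _ _).linear_preimage _
  have hD2 : ∀ x ∈ {y : E | ‖L y‖ < c.r1}, ∀ v, 0 ≤ D2 (fun z => F (p, c.g z)) x v v := by
    intro x hx v
    have hx' : ‖L x‖ ≤ c.r1 := le_of_lt hx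
    have hcd : ContDiffAt ℝ ∞ (fun z : E => F (p, c.g z)) x :=
      hGp.contDiffAt (c.V_open.mem_nhds (hUsub hx))
    by_cases hv : v = 0
    · subst hv
      rw [D2_eq_fderiv_fderiv hcd]
      simp
    · have hn : 0 < ‖v‖ := norm_pos_iff.mpr hv
      have hu : (‖v‖⁻¹ • v) ∈ sphere (0 : E) 1 := by
        rw [mem_sphere, dist_zero_right, norm_smul, norm_inv, norm_norm]
        exact inv_mul_cancel₀ hn.ne'
      have h2 := hp (x, ‖v‖⁻¹ • v) ⟨hx', hu⟩
      rw [D2_eq_fderiv_fderiv hcd] at h2 ⊢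
      simp only [map_smul, smul_apply, smul_eq_mul] at h2
      have h3 : 0 < ‖v‖⁻¹ := inv_pos.mpr hn
      have h4 := (pos_iff_pos_of_mul_pos h2).1 h3
      have h5 := (pos_iff_pos_of_mul_pos h4).1 h3
      exact h5.le
  have hconv : ConvexOn ℝ {y : E | ‖L y‖ < c.r1} (fun z => F (p, c.g z)) :=
    convexOn_of_D2_nonneg hUo hUc (hGp.mono hUsub) hD2
  have hconvA : ConvexOn ℝ {y : E | ‖L y‖ ≤ c.r1} (fun z => F (p, c.g z)) := by
    refine ⟨hAcv, ?_⟩
    intro x hx y hy a b ha hb hab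
    have hxy : a • x + b • y ∈ {y : E | ‖L y‖ ≤ c.r1} := hAcv hx hy ha hb hab
    have hc : ∀ z ∈ {y : E | ‖L y‖ ≤ c.r1}, Tendsto (fun t : ℝ => F (p, c.g (t • z)))
        (𝓝[<] 1) (𝓝 (F (p, c.g z))) := by
      intro z hz
      have h1 : ContinuousAt (fun w : E => F (p, c.g w)) ((1 : ℝ) • z) := by
        rw [one_smul]
        exact (hGp.contDiffAt (c.V_open.mem_nhds (c.V_sup z hz))).continuousAt
      have h2 : ContinuousAt (fun t : ℝ => t • z) 1 := by fun_prop
      have h3 : ContinuousAt (fun t : ℝ => F (p, c.g (t • z))) 1 :=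
        ContinuousAt.comp (f := fun t : ℝ => t • z) (g := fun w : E => F (p, c.g w)) h1 h2
      have h4 := h3.tendsto
      simp only [one_smul] at h4
      exact h4.mono_left nhdsWithin_le_nhds
    have hlim1 := hc _ hxy
    have hlim2 := ((hc x hx).const_mul a).add ((hc y hy).const_mul b)
    refine le_of_tendsto_of_tendsto hlim1 hlim2 ?_
    have hI : Ioo (0 : ℝ) 1 ∈ 𝓝[<] (1 : ℝ) := Ioo_mem_nhdsLT one_pos
    filter_upwards [hI] with t ht
    have hin : ∀ z ∈ {y : E | ‖L y‖ ≤ c.r1}, t • z ∈ {y : E | ‖L y‖ < c.r1} := by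
      intro z hz
      have h6 : L (t • z) = t • L z :=
        (L.toLinearEquiv.toLinearMap.restrictScalars ℝ).map_smul t z
      have hz' : ‖L z‖ ≤ c.r1 := hz
      change ‖L (t • z)‖ < c.r1
      rw [h6, norm_smul, Real.norm_eq_abs, abs_of_pos ht.1]
      have hr := c.r1_pos
      calc t * ‖L z‖ ≤ t * c.r1 := by
            exact mul_le_mul_of_nonneg_left hz' ht.1.le
        _ < 1 * c.r1 := by
            exact mul_lt_mul_of_pos_right ht.2 hr
        _ = c.r1 := one_mul _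
    have h7 := hconv.2 (hin x hx) (hin y hy) ha hb hab
    have h8 : t • (a • x + b • y) = a • (t • x) + b • (t • y) := by
      rw [smul_add, smul_comm t a, smul_comm t b]
    rw [h8]
    simpa [smul_eq_mul] using h7
  have h9 := hconvA.convex_le 0
  exact h9

end OkaP
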