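import Pool.Agent.H.MP_ceb9a9.NcDefs

/-!
# MP_ceb9a9: finitely many charts and cutoffs
-/

set_option autoImplicit false

open Set Metric Topology Filter
open scoped ContDiff

noncomputable section
namespace OkaP

variable {E : Type} [NormedAddCommGroup E] [NormedSpace ℂ E] [FiniteDimensional ℂ E]

/-- a smooth cutoff: `f : E → [0,1]`, `1` near `x0`, supported in a given neighbourhood -/
theorem exists_cutoff_nhds {K : Set E} {x0 : E} (hK : K ∈ 𝓝 x0) :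
    ∃ f : E → ℝ, ContDiff ℝ ∞ f ∧ (∀ x, f x ∈ Icc (0 : ℝ) 1) ∧ (∀ᶠ x in 𝓝 x0, f x = 1) ∧
      (∀ x, x ∉ K → f x = 0) := by
  have : FiniteDimensional ℝ E := FiniteDimensional.complexToReal E
  obtain ⟨ε, hε, hball⟩ := Metric.mem_nhds_iff.1 hK
  let b : ContDiffBump x0 := ⟨ε / 4, ε / 2, by positivity, by linarith⟩
  refine ⟨fun x => b x, b.contDiff, fun x => ⟨b.nonneg, b.le_one⟩, b.eventuallyEq_one, ?_⟩
  intro x hx
  refine b.zero_of_le_dist ?_
  by_contra hlt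
  rw [not_le] at hlt
  have hlt' : dist x x0 < ε / 2 := hlt
  exact hx (hball (by rw [mem_ball]; linarith))

/-- finitely many charts and cutoffs adapted to time `s0` -/
theorem NcFamily.exists_cover {R : ℝ × E → ℝ} {Z O : Set E} (h : NcFamily R Z O) {k : ℕ}
    (L : E ≃L[ℂ] EuclideanSpace ℂ (Fin k)) {s0 : ℝ} (hs0 : s0 ∈ Icc (0 : ℝ) 1) :
    ∃ (N : ℕ) (x : Fin N → E) (c : ∀ i, NarChart L (fun y => R (s0, y)) (x i) (closure Z)ᶜ)
      (f : Fin N → E → ℝ) (U : Set E),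
      (∀ i, R (s0, x i) = 0) ∧ (∀ i, ContDiff ℝ ∞ (f i)) ∧
      (∀ i y, f i y ∈ Icc (0 : ℝ) 1) ∧ (∀ i y, y ∉ (c i).K → f i y = 0) ∧ IsOpen U ∧
      (∀ y, R (s0, y) = 0 → y ∉ O → y ∈ U) ∧ (∀ y ∈ U, ∃ i, f i y = 1) := by
  have hsm : ContDiff ℝ ∞ (fun y => R (s0, y)) := h.smooth.comp (contDiff_prodMk_right s0)
  have hcont : Continuous (fun y => R (s0, y)) := hsm.continuous
  -- the compact set to be covered
  have hC0 : IsCompact {y : E | R (s0, y) = 0 ∧ y ∉ O} := by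
    have h1 : IsCompact (Prod.snd '' {p : ℝ × E | p.1 ∈ Icc (0 : ℝ) 1 ∧ R p ≤ 1}) :=
      h.compact.image continuous_snd
    refine h1.of_isClosed_subset ?_ ?_
    · exact (isClosed_eq hcont continuous_const).inter h.O_open.isClosed_compl
    · rintro y ⟨hy, -⟩
      exact ⟨(s0, y), ⟨hs0, by rw [hy]; norm_num⟩, rfl⟩
  -- local data
  have hloc : ∀ y : {y : E | R (s0, y) = 0 ∧ y ∉ O},
      Nonempty (NarChart L (fun y => R (s0, y)) y.1 (closure Z)ᶜ) := by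
    rintro ⟨y, hy, hyO⟩
    exact exists_narChart L hsm (h.pos s0 hs0 y) (h.crit s0 hs0 y hy)
      isClosed_closure.isOpen_compl (fun hy' => hyO (h.Z_sub hy'))
  have c : ∀ y : {y : E | R (s0, y) = 0 ∧ y ∉ O},
      NarChart L (fun y => R (s0, y)) y.1 (closure Z)ᶜ := fun y => Classical.choice (hloc y)
  have hf : ∀ y : {y : E | R (s0, y) = 0 ∧ y ∉ O}, ∃ f : E → ℝ, ContDiff ℝ ∞ f ∧
      (∀ x, f x ∈ Icc (0 : ℝ) 1) ∧ (∀ᶠ x in 𝓝 y.1, f x = 1) ∧ (∀ x, x ∉ (c y).K → f x = 0) :=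
    fun y => exists_cutoff_nhds (c y).K_mem_nhds
  choose f hf1 hf2 hf3 hf4 using hf
  obtain ⟨t, ht⟩ := hC0.elim_nhds_subcover_nhdsSet' (fun y hy => {x | f ⟨y, hy⟩ x = 1})
    (fun y hy => hf3 ⟨y, hy⟩)
  let e := t.equivFin
  refine ⟨t.card, fun i => (e.symm i).1.1, fun i => c (e.symm i).1, fun i => f (e.symm i).1,
    interior (⋃ x ∈ t, {y | f x y = 1}), fun i => (e.symm i).1.2.1, fun i => hf1 _,
    fun i y => hf2 _ y, fun i y hy => hf4 _ y hy, isOpen_interior, ?_, ?_⟩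
  · intro y hy hyO
    have h1 := mem_nhdsSet_iff_forall.1 ht y ⟨hy, hyO⟩
    exact mem_interior_iff_mem_nhds.2 h1
  · intro y hy
    have h1 := interior_subset hy
    rw [mem_iUnion₂] at h1
    obtain ⟨x, hx, hxy⟩ := h1
    refine ⟨e ⟨x, hx⟩, ?_⟩
    simp only [Equiv.symm_apply_apply]
    exact hxy

end OkaP
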