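import Pool.Agent.H.MP_ceb9a9.NarD
import Pool.Agent.H.MP_ceb9a9.PshConvT

/-!
# MP_ceb9a9: noncritical families (definition)
-/

set_option autoImplicit false

open Set Metric Topology Filter
open scoped ContDiff

noncomputable section
namespace OkaP

variable {E : Type} [NormedAddCommGroup E] [NormedSpace ℂ E]

/-- a noncritical isotopy of strictly psh functions, constant on `O` -/
structure NcFamily (R : ℝ × E → ℝ) (Z O : Set E) : Prop where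
  smooth : ContDiff ℝ ∞ R
  pos : ∀ s ∈ Icc (0 : ℝ) 1, ∀ x v, v ≠ 0 → 0 < levi (fun y => R (s, y)) x v
  compact : IsCompact {p : ℝ × E | p.1 ∈ Icc (0 : ℝ) 1 ∧ R p ≤ 1}
  anti : ∀ s ∈ Icc (0 : ℝ) 1, ∀ t ∈ Icc (0 : ℝ) 1, s ≤ t → ∀ x, R (t, x) ≤ R (s, x)
  crit : ∀ s ∈ Icc (0 : ℝ) 1, ∀ x, R (s, x) = 0 → fderiv ℝ (fun y => R (s, y)) x ≠ 0
  O_open : IsOpen O
  Z_sub : closure Z ⊆ O
  fix : ∀ s ∈ Icc (0 : ℝ) 1, ∀ x ∈ O, R (s, x) = R (0, x)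

end OkaP
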