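import Pool.Agent.H.MP_ceb9a9.EtD

/-!
# MP_ceb9a9: holomorphic families close to an etale family over a compact set

Proof.  Choose a compact `K'` with `K ⊆ interior K'`, `K' ⊆ U` (`exists_compact_between`).  `EtHol.near_family` for `K'`, radii
`s' < r`, `η` gives `ε`; take `κ = ε / 2`.  Let `Ψ` be as in the statement.  The function
`(x, t) ↦ dist (Φ (x, t)) (Ψ (x, t))` is continuous on `(U ∩ V) ×ˢ ball 0 s` and `< ε` on the compact set
`K ×ˢ closedBall 0 s'`; by the tube lemma there is an open `N` with `K ⊆ N ⊆ interior K' ∩ V` and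
`dist (Φ (x, t)) (Ψ (x, t)) < ε` for `x ∈ N`, `t ∈ closedBall 0 s'`.  Apply `near_family` with `V := N ⊆ K'`.
(If `s' < 0` everything is trivial.)
-/

set_option autoImplicit false
open Set Metric Filter
open scoped Topology Manifold

noncomputable section
namespace OkaP

variable {m : ℕ} {X : Type} [MetricSpace X] [ChartedSpace (Fin m → ℂ) X]
  [IsManifold 𝓘(ℂ, Fin m → ℂ) ⊤ X]
variable {E : Type} [NormedAddCommGroup E] [NormedSpace ℂ E] [FiniteDimensional ℂ E]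

/-- families close to an etale family over a compact set are obtained from it, near the compact
set, by a near-identity reparametrisation -/
theorem EtHol.near_compact {Φ : E × (Fin m → ℂ) → X} {U : Set E} {r : ℝ} (hU : IsOpen U)
    (h : EtHol Φ U r) {K : Set E} (hK : IsCompact K) (hKU : K ⊆ U) {s s' : ℝ} (hs : s < r)
    (hs' : s' < s) {η : ℝ} (hη : 0 < η) :
    ∃ κ > 0, ∀ (V : Set E) (Ψ : E × (Fin m → ℂ) → X), IsOpen V → K ⊆ V →
      HolOn m Ψ (V ×ˢ ball (0 : Fin m → ℂ) s) →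
      (∀ x ∈ K, ∀ t ∈ ball (0 : Fin m → ℂ) s, dist (Φ (x, t)) (Ψ (x, t)) < κ) →
      ∃ (N : Set E) (γ : E × (Fin m → ℂ) → (Fin m → ℂ)), IsOpen N ∧ K ⊆ N ∧ N ⊆ U ∩ V ∧
        DifferentiableOn ℂ γ (N ×ˢ ball (0 : Fin m → ℂ) s') ∧
        ∀ x ∈ N, ∀ t ∈ ball (0 : Fin m → ℂ) s', ‖γ (x, t) - t‖ < η ∧
          γ (x, t) ∈ ball (0 : Fin m → ℂ) r ∧ Φ (x, γ (x, t)) = Ψ (x, t) := by
  have : ProperSpace E := FiniteDimensional.proper ℂ E
  obtain ⟨K', hK', hKK', hK'U⟩ := exists_compact_between hK hU hKU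
  obtain ⟨ε, hε, hex⟩ := h.near_family hU hK' hK'U (hs'.trans hs) hη
  refine ⟨ε, hε, fun V Ψ hV hKV hΨ hd => ?_⟩
  have hopen : IsOpen ((U ∩ V) ×ˢ ball (0 : Fin m → ℂ) s) := (hU.inter hV).prod isOpen_ball
  have hcont : ContinuousOn (fun q : E × (Fin m → ℂ) => dist (Φ q) (Ψ q))
      ((U ∩ V) ×ˢ ball (0 : Fin m → ℂ) s) :=
    continuous_dist.comp_continuousOn
      ((h.cont.mono (prod_mono inter_subset_left (ball_subset_ball hs.le))).prodMk
        (hΨ.continuousOn.mono (prod_mono_left inter_subset_right)))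
  have hW := hcont.isOpen_inter_preimage hopen (isOpen_Iio (a := ε))
  have hsub : K ×ˢ closedBall (0 : Fin m → ℂ) s' ⊆ ((U ∩ V) ×ˢ ball (0 : Fin m → ℂ) s) ∩
      (fun q : E × (Fin m → ℂ) => dist (Φ q) (Ψ q)) ⁻¹' Iio ε := by
    rintro ⟨x, t⟩ ⟨hx, ht⟩
    have ht' : t ∈ ball (0 : Fin m → ℂ) s := closedBall_subset_ball hs' ht
    exact ⟨⟨⟨hKU hx, hKV hx⟩, ht'⟩, hd x hx t ht'⟩
  obtain ⟨u, v, hu, hv, hKu, hv', huv⟩ :=
    generalized_tube_lemma hK (isCompact_closedBall (0 : Fin m → ℂ) s') hW hsub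
  have hNsub : u ∩ interior K' ∩ V ⊆ K' := fun x hx => interior_subset hx.1.2
  obtain ⟨γ, hγ, hγ'⟩ := hex (u ∩ interior K' ∩ V) Ψ ((hu.inter isOpen_interior).inter hV) hNsub
    (hΨ.mono (prod_mono inter_subset_right (ball_subset_ball hs'.le)))
    (fun x hx t ht => (huv (mk_mem_prod hx.1.1 (hv' (ball_subset_closedBall ht)))).2)
  refine ⟨u ∩ interior K' ∩ V, γ, (hu.inter isOpen_interior).inter hV,
    fun x hx => ⟨⟨hKu hx, hKK' hx⟩, hKV hx⟩, fun x hx => ⟨hK'U (hNsub hx), hx.2⟩, hγ,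
    fun x hx t ht => ?_⟩
  obtain ⟨h1, h2, h3⟩ := hγ' x hx t ht
  exact ⟨h2, h1, h3⟩

end OkaP
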