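import Pool.Agent.H.MP_ceb9a9.NeckFam
import Pool.Agent.H.MP_ceb9a9.CutFun

/-!
# MP_ceb9a9: the transition of the two families over the neck is close to the identity

Notation: `e = (c4 - c1) / 4`, `cm = (c1 + c4) / 2`, shells
`Sh = {z : ‖z‖ ≤ R1, (c0 - 1 ≤ Psi z ≤ c1 + e) or (c4 - e ≤ Psi z ≤ c)}` (compact).
`neckU c0 c1 c4 c R1 r2` is the open set of `(z, ζ)` with `‖z‖ < R1`, `c0 - 1 < Psi z`, (`Psi z < c1 + e` or
`c4 - e < Psi z < c`) and `‖ζ - conjE z‖ < r2`.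

Proof of `neck_trans`.
1. `cut_fun` with the levels `c1 + e < c4 - e` gives `ρ > 0`.
2. The compact set `{(z, conjE z) : z ∈ Sh}` is contained in the open set `D.N` (because `Psi ≤ c` on `Sh`:
`c1 + e < c4 < c`) and in the open domain `OA = {Z.1 ∈ U0, Psi Z.1 < cm} ∪ {Z ∈ D.V, cm < Psi Z.1}` of `neckA`
(`N_U0`, `N_V`; `c1 + e < cm < c4 - e`).  So there is `r2 ∈ (0, ρ]` such that
`Kc = {(z, ζ) : z ∈ Sh, ‖ζ - conjE z‖ ≤ r2}` (compact: closed and bounded) is contained in `D.N ∩ OA`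
(thickening of a compact set; `dist ((z, ζ), (z, conjE z)) = ‖ζ - conjE z‖`).  `neckU ⊆ Kc`.
3. Let `δ > 0`.  `EtHol.near_family` for `Φ = neckA`, `U = OA`, radius `D.s`, `K = Kc`, `r' = D.s / 4`, `η = δ` gives `ε > 0`.
`G` is uniformly continuous on `{z ∈ Sh} × closedBall 0 (3 s / 4)` in the second variable: there is `ω > 0` with
`dist (G (z, v)) (G (z, w)) < ε` for `z ∈ Sh`, `‖v‖ ≤ s / 2 + s / 64`, `‖v - w‖ < ω` (`map_near`-type argument; `G` is continuous on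
`U0 ×ˢ ball 0 r`, `Sh ⊆ U0`).  Take `κ = min 1 ω` in `cut_fun`: `cf` with `‖cf (z, ζ)‖ < κ` on the first shell and
`‖cf (z, ζ) - 1‖ < κ` on the second one, for `‖ζ - conjE z‖ ≤ r2 ≤ ρ`.  In particular `‖cf‖ < 2` on `neckU`.
Closeness on `neckU ×ˢ ball 0 (s / 4)`: first shell (`Psi z < c1 + e < cm`): `neckA = G (z, t)`,
`neckB = G (z, t + cf (γ - t))`, `‖cf (γ - t)‖ < κ s / 64`... `< ω` provided `s / 64 ≤ 1`; to be safe take
`κ = min 1 (ω / (s + 1))`.  Second shell (`Psi z > c4 - e > cm`): `neckA = S (Z, t) = G (z, γ (Z, t))` (`γ_eq`, `t ∈ ball 0 (s / 2)`),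
`neckB = G (z, t + cf (γ - t)) = G (z, γ + (cf - 1) (γ - t))`.
`near_family` with `V = neckU` (open, contained in `Kc`), `Ψ = neckB` (holomorphic by `neckB_hol`, restricted to
`ball 0 (s / 4)`) gives `T`.
-/

set_option autoImplicit false
open Set Metric Filter
open scoped Topology Manifold

noncomputable section
namespace OkaP

variable {m : ℕ} {X : Type} [MetricSpace X] [ChartedSpace (Fin m → ℂ) X]
  [IsManifold 𝓘(ℂ, Fin m → ℂ) ⊤ X]

/-- the part of the neck where the two families are compared -/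
def neckU {n : ℕ} (Psi : EEn n → ℝ) (c0 c1 c4 c R1 r2 : ℝ) : Set (EEn n × EEn n) :=
  {Z | ‖Z.1‖ < R1 ∧ c0 - 1 < Psi Z.1 ∧
    (Psi Z.1 < c1 + (c4 - c1) / 4 ∨ (c4 - (c4 - c1) / 4 < Psi Z.1 ∧ Psi Z.1 < c)) ∧
    ‖Z.2 - conjE Z.1‖ < r2}

theorem isOpen_neckU {n : ℕ} {Psi : EEn n → ℝ} (hPsi : Continuous Psi) (c0 c1 c4 c R1 r2 : ℝ) :
    IsOpen (neckU Psi c0 c1 c4 c R1 r2) := by
  have hP : Continuous fun Z : EEn n × EEn n => Psi Z.1 := hPsi.comp continuous_fst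
  have h1 : IsOpen {Z : EEn n × EEn n | ‖Z.1‖ < R1} :=
    isOpen_lt continuous_fst.norm continuous_const
  have h2 : IsOpen {Z : EEn n × EEn n | c0 - 1 < Psi Z.1} := isOpen_lt continuous_const hP
  have h3 : IsOpen {Z : EEn n × EEn n | Psi Z.1 < c1 + (c4 - c1) / 4} :=
    isOpen_lt hP continuous_const
  have h4 : IsOpen {Z : EEn n × EEn n | c4 - (c4 - c1) / 4 < Psi Z.1} :=
    isOpen_lt continuous_const hP
  have h5 : IsOpen {Z : EEn n × EEn n | Psi Z.1 < c} := isOpen_lt hP continuous_const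
  have h6 : IsOpen {Z : EEn n × EEn n | ‖Z.2 - conjE Z.1‖ < r2} :=
    isOpen_lt (continuous_snd.sub (conjE.continuous.comp continuous_fst)).norm continuous_const
  exact h1.inter (h2.inter ((h3.union (h4.inter h5)).inter h6))

/-- the closed shells -/
private def NeckTrans_Sh {n : ℕ} (Psi : EEn n → ℝ) (c0 c1 c4 c R1 : ℝ) : Set (EEn n) :=
  {z | ‖z‖ ≤ R1 ∧ c0 - 1 ≤ Psi z ∧
    (Psi z ≤ c1 + (c4 - c1) / 4 ∨ (c4 - (c4 - c1) / 4 ≤ Psi z ∧ Psi z ≤ c))}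

private theorem NeckTrans_Sh_closed {n : ℕ} {Psi : EEn n → ℝ} (hPsi : Continuous Psi)
    (c0 c1 c4 c R1 : ℝ) : IsClosed (NeckTrans_Sh Psi c0 c1 c4 c R1) := by
  have h1 : IsClosed {z : EEn n | ‖z‖ ≤ R1} := isClosed_le continuous_norm continuous_const
  have h2 : IsClosed {z : EEn n | c0 - 1 ≤ Psi z} := isClosed_le continuous_const hPsi
  have h3 : IsClosed {z : EEn n | Psi z ≤ c1 + (c4 - c1) / 4} :=
    isClosed_le hPsi continuous_const
  have h4 : IsClosed {z : EEn n | c4 - (c4 - c1) / 4 ≤ Psi z} :=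
    isClosed_le continuous_const hPsi
  have h5 : IsClosed {z : EEn n | Psi z ≤ c} := isClosed_le hPsi continuous_const
  exact h1.inter (h2.inter (h3.union (h4.inter h5)))

private theorem NeckTrans_Sh_compact {n : ℕ} {Psi : EEn n → ℝ} (hPsi : Continuous Psi)
    (c0 c1 c4 c R1 : ℝ) : IsCompact (NeckTrans_Sh Psi c0 c1 c4 c R1) := by
  refine (isCompact_closedBall (0 : EEn n) R1).of_isClosed_subset
    (NeckTrans_Sh_closed hPsi c0 c1 c4 c R1) ?_
  intro z hz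
  rw [mem_closedBall_zero_iff]
  exact hz.1

/-- transition over the neck -/
theorem neck_trans {n : ℕ} {p : X} {G : EEn n × (Fin m → ℂ) → X} {U0 : Set (EEn n)}
    {Psi : EEn n → ℝ} (hPsi : Continuous Psi) {R1 mm c r : ℝ} (hU0 : IsOpen U0)
    (hG0 : EtHol G U0 r) (D : NeckData p G U0 Psi R1 mm c r) {c0 c1 c4 : ℝ}
    (h01 : c0 < c1) (h14 : c1 < c4) (h4c : c4 < c) :
    ∃ r2 > 0, ∀ δ > 0, ∃ (cf : EEn n × EEn n → ℂ)
      (T : (EEn n × EEn n) × (Fin m → ℂ) → (Fin m → ℂ)), Differentiable ℂ cf ∧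
      (∀ z : EEn n, ‖cf (z, conjE z)‖ ≤ 1) ∧
      (∀ Z ∈ neckU Psi c0 c1 c4 c R1 r2, Z ∈ D.N ∧ ‖cf Z‖ < 2) ∧
      DifferentiableOn ℂ T (neckU Psi c0 c1 c4 c R1 r2 ×ˢ ball (0 : Fin m → ℂ) (D.s / 4)) ∧
      ∀ Z ∈ neckU Psi c0 c1 c4 c R1 r2, ∀ t ∈ ball (0 : Fin m → ℂ) (D.s / 4),
        ‖T (Z, t) - t‖ < δ ∧ T (Z, t) ∈ ball (0 : Fin m → ℂ) D.s ∧
        neckA G D.S Psi ((c1 + c4) / 2) (Z, T (Z, t)) = neckB G D.γ cf (Z, t) := by
  set e : ℝ := (c4 - c1) / 4 with he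
  have he0 : 0 < e := by rw [he]; linarith
  set Sh : Set (EEn n) := NeckTrans_Sh Psi c0 c1 c4 c R1 with hSh
  have hShc : IsCompact Sh := NeckTrans_Sh_compact hPsi c0 c1 c4 c R1
  have hs := D.s_pos
  have hsr := D.s_lt
  -- the domain of neckA
  set OA : Set (EEn n × EEn n) := {Z : EEn n × EEn n | Z.1 ∈ U0 ∧ Psi Z.1 < (c1 + c4) / 2} ∪
    {Z | Z ∈ D.V ∧ (c1 + c4) / 2 < Psi Z.1} with hOA
  have hOAo : IsOpen OA :=
    ((hU0.preimage continuous_fst).inter (isOpen_lt (hPsi.comp continuous_fst)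
      continuous_const)).union
      (D.V_open.inter (isOpen_lt continuous_const (hPsi.comp continuous_fst)))
  have hShPsi : ∀ z ∈ Sh, Psi z ≤ c := by
    intro z hz
    rcases hz.2.2 with h | h
    · rw [← he] at h
      linarith
    · exact h.2
  have hShN : ∀ z ∈ Sh, (z, conjE z) ∈ D.N := fun z hz => D.N_mem z hz.1 (hShPsi z hz)
  have hShU0 : ∀ z ∈ Sh, z ∈ U0 := fun z hz => D.N_U0 _ (hShN z hz)
  have hK0c : IsCompact ((fun z : EEn n => (z, conjE z)) '' Sh) :=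
    hShc.image (continuous_id.prodMk conjE.continuous)
  have hK0s : (fun z : EEn n => (z, conjE z)) '' Sh ⊆ D.N ∩ OA := by
    rintro _ ⟨z, hz, rfl⟩
    refine ⟨hShN z hz, ?_⟩
    rcases hz.2.2 with h | h
    · left
      refine ⟨hShU0 z hz, ?_⟩
      show Psi z < (c1 + c4) / 2
      rw [he] at he0
      linarith
    · right
      refine ⟨D.N_V (hShN z hz), ?_⟩
      show (c1 + c4) / 2 < Psi z
      rw [he] at he0
      linarith [h.1]
  obtain ⟨r1, hr1, hthick⟩ := hK0c.exists_cthickening_subset_open (D.N_open.inter hOAo) hK0s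
  obtain ⟨ρ, hρ, hcut⟩ := cut_fun (n := n) hPsi (R1 := R1) (c1 := c1 + e) (c4 := c4 - e)
    (by rw [he]; linarith)
  set r2 : ℝ := min ρ r1 with hr2
  have hr2pos : 0 < r2 := lt_min hρ hr1
  -- the compact set
  set Kc : Set (EEn n × EEn n) := {Z | Z.1 ∈ Sh ∧ ‖Z.2 - conjE Z.1‖ ≤ r2} with hKc
  have hKcthick : Kc ⊆ cthickening r1 ((fun z : EEn n => (z, conjE z)) '' Sh) := by
    rintro ⟨z, ζ⟩ ⟨hz, hζ⟩
    refine mem_cthickening_of_dist_le (z, ζ) (z, conjE z) r1 _ (mem_image_of_mem _ hz) ?_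
    have hζ' : ‖ζ - conjE z‖ ≤ r2 := hζ
    rw [Prod.dist_eq, dist_self, dist_eq_norm]
    exact max_le hr1.le (hζ'.trans (min_le_right _ _))
  have hKcclosed : IsClosed Kc := by
    refine (hShc.isClosed.preimage continuous_fst).inter ?_
    exact isClosed_le (continuous_snd.sub (conjE.continuous.comp continuous_fst)).norm
      continuous_const
  have hKcc : IsCompact Kc :=
    hK0c.cthickening.of_isClosed_subset hKcclosed hKcthick
  have hKcs : Kc ⊆ D.N ∩ OA := hKcthick.trans hthick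
  have hUK : neckU Psi c0 c1 c4 c R1 r2 ⊆ Kc := by
    rintro ⟨z, ζ⟩ ⟨h1, h2, h3, h4⟩
    refine ⟨⟨le_of_lt h1, le_of_lt h2, ?_⟩, le_of_lt h4⟩
    rcases h3 with h | h
    · exact Or.inl (le_of_lt h)
    · exact Or.inr ⟨le_of_lt h.1, le_of_lt h.2⟩
  refine ⟨r2, hr2pos, fun δ hδ => ?_⟩
  obtain ⟨ε, hε, hfam⟩ := (neckA_etHol hPsi hU0 hG0 D ((c1 + c4) / 2)).near_family hOAo hKcc
    (fun Z hZ => (hKcs hZ).2) (r' := D.s / 4) (by linarith) hδ
  -- uniform continuity of `G`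
  have hGc : ContinuousOn G (Sh ×ˢ closedBall (0 : Fin m → ℂ) (3 * D.s / 4)) := by
    refine hG0.hol.continuousOn.mono (prod_mono hShU0 ?_)
    exact closedBall_subset_ball (by linarith)
  have huc := (hShc.prod (isCompact_closedBall (0 : Fin m → ℂ)
    (3 * D.s / 4))).uniformContinuousOn_of_continuous hGc
  rw [Metric.uniformContinuousOn_iff] at huc
  obtain ⟨ω, hω, hω2⟩ := huc ε hε
  have hs1 : 0 < D.s + 1 := by linarith
  set κ : ℝ := min 1 (ω / (D.s + 1)) with hκ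
  have hκpos : 0 < κ := lt_min one_pos (div_pos hω hs1)
  have hκ1 : κ ≤ 1 := min_le_left _ _
  have hκω : κ * (D.s / 64) < ω := by
    have h1 : κ * (D.s / 64) ≤ ω / (D.s + 1) * (D.s / 64) :=
      mul_le_mul_of_nonneg_right (min_le_right _ _) (by positivity)
    have h2 : ω / (D.s + 1) * (D.s / 64) < ω := by
      rw [div_mul_eq_mul_div, div_lt_iff₀ hs1]
      nlinarith
    linarith
  obtain ⟨cf, hcf, hcf1, hcf2⟩ := hcut κ hκpos
  have hshell : ∀ Z ∈ neckU Psi c0 c1 c4 c R1 r2,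
      (Psi Z.1 < (c1 + c4) / 2 ∧ ‖cf Z‖ < κ) ∨ ((c1 + c4) / 2 < Psi Z.1 ∧ ‖cf Z - 1‖ < κ) := by
    rintro ⟨z, ζ⟩ hZ
    obtain ⟨h1, h2, h3, h4⟩ := hZ
    have h5 := hcf2 z ζ (le_of_lt h1) ((le_of_lt h4).trans (min_le_left _ _))
    rcases h3 with h | h
    · left
      have h' : Psi z < c1 + e := h
      refine ⟨?_, h5.1 h'.le⟩
      show Psi z < (c1 + c4) / 2
      rw [he] at h'
      linarith
    · right
      have h' : c4 - e < Psi z := h.1
      refine ⟨?_, h5.2 h'.le⟩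
      show (c1 + c4) / 2 < Psi z
      rw [he] at h'
      linarith
  have hlt2 : ∀ Z ∈ neckU Psi c0 c1 c4 c R1 r2, ‖cf Z‖ < 2 := by
    intro Z hZ
    rcases hshell Z hZ with h | h
    · linarith [h.2]
    · have h1 : ‖cf Z‖ ≤ ‖cf Z - 1‖ + ‖(1 : ℂ)‖ := by
        have := norm_add_le (cf Z - 1) 1
        rwa [sub_add_cancel] at this
      rw [norm_one] at h1
      linarith [h.2]
  have hN : ∀ Z ∈ neckU Psi c0 c1 c4 c R1 r2, Z ∈ D.N := fun Z hZ => (hKcs (hUK hZ)).1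
  have hhol : HolOn m (neckB G D.γ cf)
      (neckU Psi c0 c1 c4 c R1 r2 ×ˢ ball (0 : Fin m → ℂ) (D.s / 4)) := by
    refine (neckB_hol hU0 hG0 D hcf).mono (prod_mono ?_ (ball_subset_ball (by linarith)))
    exact fun Z hZ => ⟨hN Z hZ, hlt2 Z hZ⟩
  have hclose : ∀ Z ∈ neckU Psi c0 c1 c4 c R1 r2, ∀ u ∈ ball (0 : Fin m → ℂ) (D.s / 4),
      dist (neckA G D.S Psi ((c1 + c4) / 2) (Z, u)) (neckB G D.γ cf (Z, u)) < ε := by
    intro Z hZ u hu
    have hu2 : u ∈ ball (0 : Fin m → ℂ) (D.s / 2) := ball_subset_ball (by linarith) hu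
    have hγ := D.γ_near Z (hN Z hZ) u hu2
    have hun : ‖u‖ < D.s / 4 := mem_ball_zero_iff.1 hu
    have hZSh : Z.1 ∈ Sh := (hUK hZ).1
    have hBn : ‖u + cf Z • (D.γ (Z, u) - u)‖ ≤ 3 * D.s / 4 := by
      have h1 : ‖cf Z • (D.γ (Z, u) - u)‖ ≤ 2 * (D.s / 64) := by
        rw [norm_smul]
        exact mul_le_mul (hlt2 Z hZ).le hγ.le (norm_nonneg _) (by norm_num)
      have h2 := norm_add_le u (cf Z • (D.γ (Z, u) - u))
      linarith
    rcases hshell Z hZ with ⟨h1, h2⟩ | ⟨h1, h2⟩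
    · have hA : neckA G D.S Psi ((c1 + c4) / 2) (Z, u) = G (Z.1, u) := by
        simp only [neckA]
        exact if_pos h1
      rw [hA]
      show dist (G (Z.1, u)) (G (Z.1, u + cf Z • (D.γ (Z, u) - u))) < ε
      refine hω2 (Z.1, u) ⟨hZSh, ?_⟩ (Z.1, u + cf Z • (D.γ (Z, u) - u)) ⟨hZSh, ?_⟩ ?_
      · rw [mem_closedBall_zero_iff]
        linarith
      · rw [mem_closedBall_zero_iff]
        exact hBn
      · rw [Prod.dist_eq, dist_self, dist_eq_norm, sub_add_cancel_left, norm_neg, norm_smul]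
        refine max_lt hω (lt_of_le_of_lt ?_ hκω)
        exact mul_le_mul h2.le hγ.le (norm_nonneg _) hκpos.le
    · have hA : neckA G D.S Psi ((c1 + c4) / 2) (Z, u) = G (Z.1, D.γ (Z, u)) := by
        rw [D.γ_eq Z (hN Z hZ) u hu2]
        simp only [neckA]
        exact if_neg (not_lt.2 h1.le)
      rw [hA]
      show dist (G (Z.1, D.γ (Z, u))) (G (Z.1, u + cf Z • (D.γ (Z, u) - u))) < ε
      refine hω2 (Z.1, D.γ (Z, u)) ⟨hZSh, ?_⟩ (Z.1, u + cf Z • (D.γ (Z, u) - u)) ⟨hZSh, ?_⟩ ?_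
      · rw [mem_closedBall_zero_iff]
        have h3 := norm_add_le u (D.γ (Z, u) - u)
        rw [add_sub_cancel] at h3
        linarith
      · rw [mem_closedBall_zero_iff]
        exact hBn
      · have h3 : D.γ (Z, u) - (u + cf Z • (D.γ (Z, u) - u)) =
            -((cf Z - 1) • (D.γ (Z, u) - u)) := by
          rw [sub_smul, one_smul]
          abel
        rw [Prod.dist_eq, dist_self, dist_eq_norm, h3, norm_neg, norm_smul]
        refine max_lt hω (lt_of_le_of_lt ?_ hκω)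
        exact mul_le_mul h2.le hγ.le (norm_nonneg _) hκpos.le
  obtain ⟨T, hT, hT2⟩ := hfam (neckU Psi c0 c1 c4 c R1 r2) (neckB G D.γ cf)
    (isOpen_neckU hPsi c0 c1 c4 c R1 r2) hUK hhol hclose
  refine ⟨cf, T, hcf, hcf1, fun Z hZ => ⟨hN Z hZ, hlt2 Z hZ⟩, hT, fun Z hZ t ht => ?_⟩
  obtain ⟨h1, h2, h3⟩ := hT2 Z hZ t ht
  exact ⟨h2, h1, h3⟩

end OkaP
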