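import Pool.Agent.H.MP_ceb9a9.NeckExists
import Pool.Agent.H.MP_ceb9a9.NeckTrans
import Pool.Agent.H.MP_ceb9a9.NgW
import Pool.Agent.H.MP_ceb9a9.HolState

/-!
# MP_ceb9a9: the neck: a holomorphic state on the thin-fat domain `D0` of `E3 = E × E × ℂ`

Proof.  `exists_neckData` (with `c = c5'`) gives `r < r0` and `D : NeckData`; `hG0' : EtHol G U0 r` by `mono`.  Put `s = D.s`,
`e = (c4 - c1) / 4`, `cm = (c1 + c4) / 2`.  `neck_trans` gives `r2` (the claimed one).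

Let `A`, `B` be as in the statement.  `UC3 = {x : E3 n | (x.1, x.2.1) ∈ neckU Psi c0 c1 c4 c5' R1 r2}` is open and contains
`A ∩ B`: for `x ∈ A ∩ B`, `‖x.1‖ < R1`, `c0 ≤ Psi`, (`Psi ≤ c1` or `c4 ≤ Psi`), `Psi ≤ c5 < c5'`, thinness `< r2`.
Choice of `η1 ∈ (0, 1 / 32]`: by uniform continuity of `G` on `{‖z‖ ≤ R1, Psi z ≤ 0} × closedBall 0 (s / 4)` we want
`dist (G (z, v)) (G (z, 0)) < η` for `‖z‖ ≤ R1`, `Psi z ≤ 0`, `‖v‖ ≤ s η1 / 4` (tube lemma on the compact set; `G` is continuous on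
`U ×ˢ ball 0 r`).
`ngPair_core` with first set `B`, second set `A`, `U = UC3`, `η = η1` (note `B ∩ A = A ∩ B`, `B ∪ A = A ∪ B`) gives
`δ0, UD ⊇ B, UB ⊇ A`, `UD ∩ UB ⊆ UC3`.  `neck_trans` with `δ = δ0 * (s / 4)` gives `cf`, `T`.  Put
`T3 (x, t) = (4 / s) • T ((x.1, x.2.1), (s / 4) • t)` on `UC3 ×ˢ ball 0 1`, `‖T3 - t‖ < δ0`.  Get `α` on `UD ×ˢ ball 0 (1/2)`, `β` on
`UB ×ˢ ball 0 (1/2)`, `T3 (x, α (x, t)) = β (x, t)` on `UD ∩ UB`.

Choice of `ε2`: the compact sets `{(z, conjE z) : ‖z‖ ≤ R1}` and `{(z, conjE z) : ‖z‖ ≤ R1, Psi z ≤ c5}` are contained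
in the open sets `D.V ∩ ...` and `NB = {Z ∈ D.N | ‖cf Z‖ < 2}` (`‖cf (z, conjE z)‖ ≤ 1`); so there is `ε2 > 0` such that for
`‖z‖ ≤ R1`, `‖ζ - conjE z‖ < ε2`: `(z, ζ) ∈ D.V`; if moreover `Psi z ≤ c5` then `(z, ζ) ∈ NB`; and if moreover `-mm ≤ Psi z` then
`S ((z, ζ), t) ≠ p` for `‖t‖ ≤ s / 4` (tube lemma: `S` is continuous on `D.V ×ˢ ball 0 s`, and
`S ((z, conjE z), t) ≠ p` on the compact set `{‖z‖ ≤ R1, -mm ≤ Psi z} × closedBall 0 (s / 4)`).

Let `D0` be as in the statement.  `OA = {x ∈ UB | (x.1, x.2.1) ∈ domain of neckA}` where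
`dom = {Z.1 ∈ U0, Psi Z.1 < cm} ∪ {Z ∈ D.V, cm < Psi Z.1}`, `OB = {x ∈ UD | (x.1, x.2.1) ∈ NB}` (open sets).
`D0 ⊆ OA ∪ OB`: `x ∈ D0 ∩ A`: if `Psi x.1 ≤ c1` then `x.1 ∈ U0` (`‖x.1‖ < R1`, `Psi ≤ c1 < c5'`) and `Psi < cm`; if `c4 ≤ Psi x.1`
then `Psi > cm` and `(x.1, x.2.1) ∈ D.V` by thinness; so `x ∈ OA`.  `x ∈ D0 ∩ B`: `c0 ≤ Psi ≤ c5`, thin, so in `NB`: `x ∈ OB`.
Define, for `‖t‖ < s / 8`, `a (x, t) = neckA ((x.1, x.2.1), (s / 4) • β (x, (4 / s) • t))` on `OA`,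
`b (x, t) = neckB ((x.1, x.2.1), (s / 4) • α (x, (4 / s) • t))` on `OB`, and `G0 = a` on `OA`, `b` off `OA`.
On `OA ∩ OB` (contained in `UD ∩ UB ⊆ UC3`), with `w = (s / 4) • α (x, (4/s) • t) ∈ ball 0 (s / 4)`:
`b = neckB (Z, w) = neckA (Z, T (Z, w)) = neckA (Z, (s/4) • T3 (x, α)) = neckA (Z, (s/4) • β) = a`.
`EtHol a OA (s / 16)`: `etHol_of_near_id_ball` for `(s/4) • β (x, (4/s) • t)` (radii `s / 16 < s / 8`, distance to `t` at most
`(s/4) η1 ≤ s / 128 = (s/8 - s/16) / 8`) and `EtHol.comp` with the pull back of `neckA_etHol`; same for `b` with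
`neckB_etHol` (values in `ball 0 (s / 4)`: `s / 16 + s / 128 < s / 4`).  So `EtHol G0 (OA ∪ OB) (s / 16)`
(`EtHol.congr`, `union_open`).
Avoidance for `x ∈ D0`, `-mm ≤ Psi x.1` (i.e. `x ∉ Z`): if `x ∈ OA`, `Psi < cm`: `G0 (x, 0) = G (x.1, v)`, `‖v‖ < s < r`, `≠ p` by
`G_ne`.  If `x ∈ OA`, `Psi ≥ cm` (then `> c0`, thin): `G0 (x, 0) = S ((x.1, x.2.1), v)`, `‖v‖ ≤ s / 4`, `≠ p` by the choice of `ε2`.
If `x ∉ OA`: `x ∈ OB`, `G0 (x, 0) = G (x.1, v)` with `‖v‖ ≤ ‖w‖ + 2 s / 64 < r`, `≠ p` by `G_ne`.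
Closeness for `x ∈ D0`, `Psi x.1 ≤ 0`: `0 < c0` so `x ∉ B`, `x ∈ A`, `x ∈ OA`, `Psi < cm`, `G0 (x, 0) = G (x.1, (s/4) • β (x, 0))`,
`‖(s/4) • β (x, 0)‖ ≤ s η1 / 4`.
-/

set_option autoImplicit false
open Set Metric Filter
open scoped Topology Manifold

noncomputable section
namespace OkaP

variable {m : ℕ} {X : Type} [MetricSpace X] [ChartedSpace (Fin m → ℂ) X]
  [IsManifold 𝓘(ℂ, Fin m → ℂ) ⊤ X]

omit [ChartedSpace (Fin m → ℂ) X] [IsManifold 𝓘(ℂ, Fin m → ℂ) ⊤ X] in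
/-- uniform closeness to the zero section over a compact set -/
private theorem neck_close {T : Type} [PseudoMetricSpace T]
    {G : T × (Fin m → ℂ) → X} {K : Set T} {r : ℝ} (hr : 0 < r) (hK : IsCompact K)
    (hG : ContinuousOn G (K ×ˢ ball (0 : Fin m → ℂ) r)) {η : ℝ} (hη : 0 < η) :
    ∃ ε > 0, ∀ z ∈ K, ∀ v : Fin m → ℂ, ‖v‖ ≤ ε → dist (G (z, v)) (G (z, 0)) < η := by
  have hC : IsCompact (K ×ˢ closedBall (0 : Fin m → ℂ) (r / 2)) :=
    hK.prod (isCompact_closedBall _ _)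
  have hGC : ContinuousOn G (K ×ˢ closedBall (0 : Fin m → ℂ) (r / 2)) :=
    hG.mono (prod_mono_right (closedBall_subset_ball (by linarith)))
  obtain ⟨δ, hδ, hd⟩ := Metric.uniformContinuousOn_iff.1
    (hC.uniformContinuousOn_of_continuous hGC) η hη
  refine ⟨min (r / 2) (δ / 2), lt_min (by positivity) (by positivity), fun z hz v hv => ?_⟩
  refine hd (z, v) ⟨hz, mem_closedBall_zero_iff.2 (hv.trans (min_le_left _ _))⟩ (z, 0)
    ⟨hz, mem_closedBall_self (by positivity)⟩ ?_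
  rw [Prod.dist_eq, dist_self, dist_zero_right]
  refine max_lt hδ ?_
  have := hv.trans (min_le_right _ _)
  show ‖v‖ < δ
  linarith

/-- thin neighbourhoods of the totally real set, with a compact parameter -/
private theorem neck_thin {n : ℕ} {K : Set (EEn n)} (hK : IsCompact K) {C : Set (Fin m → ℂ)}
    (hC : IsCompact C) {O : Set ((EEn n × EEn n) × (Fin m → ℂ))} (hO : IsOpen O)
    (h : ∀ z ∈ K, ∀ t ∈ C, ((z, conjE z), t) ∈ O) :
    ∃ ε > 0, ∀ z ∈ K, ∀ ζ : EEn n, ‖ζ - conjE z‖ < ε → ∀ t ∈ C, ((z, ζ), t) ∈ O := by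
  have hcont : Continuous fun q : EEn n × (Fin m → ℂ) => ((q.1, conjE q.1), q.2) :=
    (continuous_fst.prodMk (conjE.continuous.comp continuous_fst)).prodMk continuous_snd
  have hKC := (hK.prod hC).image hcont
  obtain ⟨ε, hε, hsub⟩ := hKC.exists_thickening_subset_open hO (by
    rintro _ ⟨q, hq, rfl⟩
    exact h q.1 hq.1 q.2 hq.2)
  refine ⟨ε, hε, fun z hz ζ hζ t ht => hsub ?_⟩
  rw [mem_thickening_iff]
  refine ⟨((z, conjE z), t), ⟨(z, t), ⟨hz, ht⟩, rfl⟩, ?_⟩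
  rw [Prod.dist_eq, Prod.dist_eq]
  simp only [dist_self]
  rw [dist_eq_norm]
  exact max_lt (max_lt hε hζ) hε

omit [MetricSpace X] [ChartedSpace (Fin m → ℂ) X] [IsManifold 𝓘(ℂ, Fin m → ℂ) ⊤ X] in
private theorem neck_half {s : ℝ} (hs : 0 < s) {t : Fin m → ℂ} (ht : ‖t‖ < s / 8) :
    (4 / s) • t ∈ ball (0 : Fin m → ℂ) (1 / 2) := by
  rw [mem_ball_zero_iff, norm_smul, Real.norm_of_nonneg (by positivity)]
  calc 4 / s * ‖t‖ < 4 / s * (s / 8) := by
        exact mul_lt_mul_of_pos_left ht (by positivity)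
    _ = 1 / 2 := by field_simp; norm_num

/-- the rescaled map is close to the identity -/
private theorem neck_rescale_near {E : Type} {β : E × (Fin m → ℂ) → (Fin m → ℂ)} {U : Set E}
    {s η1 : ℝ} (hs : 0 < s)
    (hn : ∀ x ∈ U, ∀ t ∈ ball (0 : Fin m → ℂ) (1 / 2), ‖β (x, t) - t‖ < η1) :
    ∀ x ∈ U, ∀ t ∈ ball (0 : Fin m → ℂ) (s / 8),
      ‖(s / 4) • β (x, (4 / s) • t) - t‖ ≤ s / 4 * η1 := by
  intro x hx t ht
  have h1 : (s / 4) • β (x, (4 / s) • t) - t = (s / 4) • (β (x, (4 / s) • t) - (4 / s) • t) := by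
    rw [smul_sub, smul_smul]
    have h2 : s / 4 * (4 / s) = 1 := by field_simp
    rw [h2, one_smul]
  rw [h1, norm_smul, Real.norm_of_nonneg (by positivity)]
  exact mul_le_mul_of_nonneg_left
    (hn x hx _ (neck_half hs (mem_ball_zero_iff.1 ht))).le (by positivity)

/-- the rescaled map is an etale family -/
private theorem neck_rescale_et {E : Type} [NormedAddCommGroup E] [NormedSpace ℂ E]
    {β : E × (Fin m → ℂ) → (Fin m → ℂ)} {U : Set E} (hU : IsOpen U)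
    {s η1 : ℝ} (hs : 0 < s) (hη1 : η1 ≤ 1 / 32) (hη0 : 0 < η1)
    (hd : DifferentiableOn ℂ β (U ×ˢ ball (0 : Fin m → ℂ) (1 / 2)))
    (hn : ∀ x ∈ U, ∀ t ∈ ball (0 : Fin m → ℂ) (1 / 2), ‖β (x, t) - t‖ < η1) :
    EtHol (X := Fin m → ℂ) (fun q : E × (Fin m → ℂ) => (s / 4) • β (q.1, (4 / s) • q.2)) U
      (s / 16) := by
  have hd' : DifferentiableOn ℂ (fun q : E × (Fin m → ℂ) => (s / 4) • β (q.1, (4 / s) • q.2))
      (U ×ˢ ball (0 : Fin m → ℂ) (s / 8)) := by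
    have h1 : DifferentiableOn ℂ (fun q : E × (Fin m → ℂ) => (q.1, (4 / s) • q.2))
        (U ×ˢ ball (0 : Fin m → ℂ) (s / 8)) :=
      (differentiable_fst.prodMk (differentiable_snd.const_smul (4 / s))).differentiableOn
    have h2 : DifferentiableOn ℂ (fun q : E × (Fin m → ℂ) => β (q.1, (4 / s) • q.2))
        (U ×ˢ ball (0 : Fin m → ℂ) (s / 8)) :=
      hd.comp h1 fun q hq => ⟨hq.1, neck_half hs (mem_ball_zero_iff.1 hq.2)⟩
    exact h2.const_smul (s / 4)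
  have h3 : s / 4 * η1 ≤ s / 128 := by nlinarith
  refine etHol_of_near_id_ball (s := s / 16) (r := s / 8) (δ := s / 128) (by linarith)
    (by linarith) (by linarith) hU hd' fun x hx u hu => ?_
  exact (neck_rescale_near hs hn x hx u hu).trans h3

/-- the neck -/
theorem neck {n : ℕ} {p : X} {G : EEn n × (Fin m → ℂ) → X} {U U0 : Set (EEn n)}
    {Psi : EEn n → ℝ} (hPsi : Continuous Psi) {R1 mm r0 c0 c1 c4 c5 c5' : ℝ} (hr0 : 0 < r0)
    (h0 : 0 < c0) (h01 : c0 < c1) (h14 : c1 < c4) (h45 : c4 < c5) (h55 : c5 < c5') (hmm : 0 < mm)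
    (hG : EtCont G U r0) (hU : closedBall (0 : EEn n) R1 ⊆ U) (hU0 : IsOpen U0)
    (hU0c : ∀ z : EEn n, ‖z‖ ≤ R1 → Psi z ≤ c5' → z ∈ U0) (hG0 : EtHol G U0 r0)
    (hp : ∀ z : EEn n, ‖z‖ ≤ R1 → -mm ≤ Psi z → G (z, 0) ≠ p) {η : ℝ} (hη : 0 < η) :
    ∃ r2 > 0, ∀ A B : Set (E3 n), IsCompact A → IsCompact B → PshConvex (A ∪ B) →
      PshConvex (A ∩ B) → (∀ x ∈ A ∪ B, ‖x.1‖ < R1) →
      (∀ x ∈ A ∪ B, c0 ≤ Psi x.1 → ‖x.2.1 - conjE x.1‖ < r2) →
      (∀ x ∈ A, Psi x.1 ≤ c1 ∨ c4 ≤ Psi x.1) → (∀ x ∈ B, c0 ≤ Psi x.1 ∧ Psi x.1 ≤ c5) →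
      ∃ ε2 > 0, ∀ D0 : Set (E3 n), D0 ⊆ A ∪ B →
        (∀ x ∈ D0, c0 ≤ Psi x.1 → ‖x.2.1 - conjE x.1‖ < ε2) →
        ∃ (G0 : E3 n × (Fin m → ℂ) → X) (s0 : ℝ),
          HolState p {x : E3 n | Psi x.1 < -mm} D0 G0 s0 ∧
          ∀ x ∈ D0, Psi x.1 ≤ 0 → dist (G0 (x, 0)) (G (x.1, 0)) < η := by
  classical
  obtain ⟨r, hr, hrr0, ⟨D⟩⟩ := exists_neckData hPsi hr0 hG hU hU0 hU0c hG0 hp
  have hG0' : EtHol G U0 r := hG0.mono Subset.rfl hrr0.le
  obtain ⟨r2, hr2, htr⟩ := neck_trans hPsi hU0 hG0' D h01 h14 (h45.trans h55)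
  refine ⟨r2, hr2, fun A B hA hB hpu hpi hR hthin hA2 hB2 => ?_⟩
  obtain ⟨s, hsdef⟩ : ∃ s : ℝ, s = D.s := ⟨_, rfl⟩
  have hs : 0 < s := hsdef ▸ D.s_pos
  have hsr : s < r := hsdef ▸ D.s_lt
  -- the choice of η1
  have hKm : IsCompact (closedBall (0 : EEn n) R1 ∩ {z | Psi z ≤ 0}) :=
    (isCompact_closedBall _ _).inter_right (isClosed_le hPsi continuous_const)
  obtain ⟨ε0, hε0, hclose⟩ := neck_close hr hKm
    (hG.cont.mono (prod_mono (inter_subset_left.trans hU) (ball_subset_ball hrr0.le))) hη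
  obtain ⟨η1, hη1, hη1a, hη1b⟩ : ∃ η1 > 0, η1 ≤ 1 / 32 ∧ s / 4 * η1 ≤ ε0 := by
    refine ⟨min (1 / 32) (ε0 / (s / 4)), lt_min (by norm_num) (by positivity), min_le_left _ _, ?_⟩
    have h1 : min (1 / 32) (ε0 / (s / 4)) ≤ ε0 / (s / 4) := min_le_right _ _
    rw [le_div_iff₀ (by positivity)] at h1
    linarith
  have hη1c : s / 4 * η1 ≤ s / 128 := by nlinarith
  -- the splitting
  have hpr : Continuous fun x : E3 n => (x.1, x.2.1) :=
    continuous_fst.prodMk (continuous_fst.comp continuous_snd)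
  have hUC : IsOpen {x : E3 n | (x.1, x.2.1) ∈ neckU Psi c0 c1 c4 c5' R1 r2} :=
    (isOpen_neckU hPsi c0 c1 c4 c5' R1 r2).preimage hpr
  have hBA : B ∩ A ⊆ {x : E3 n | (x.1, x.2.1) ∈ neckU Psi c0 c1 c4 c5' R1 r2} := by
    rintro x ⟨hxB, hxA⟩
    obtain ⟨h1, h2⟩ := hB2 x hxB
    refine ⟨hR x (Or.inl hxA), by show c0 - 1 < Psi x.1; linarith, ?_,
      hthin x (Or.inl hxA) h1⟩
    rcases hA2 x hxA with h3 | h3
    · left
      show Psi x.1 < c1 + (c4 - c1) / 4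
      linarith
    · right
      refine ⟨?_, ?_⟩
      · show c4 - (c4 - c1) / 4 < Psi x.1
        linarith
      · show Psi x.1 < c5'
        linarith
  obtain ⟨δ0, UD, UB, hδ0, hUD, hUB, hBUD, hAUB, hUDUB, hcore⟩ :=
    ngPair_core (m := m) hB hA hUC hBA (by rw [union_comm]; exact hpu)
      (by rw [inter_comm]; exact hpi) hη1
  obtain ⟨cf, T, hcf, hcf1, hcfN, hTd, hT⟩ := htr (δ0 * (s / 4)) (by positivity)
  rw [← hsdef] at hTd hT
  have h4 : ∀ t ∈ ball (0 : Fin m → ℂ) 1, (s / 4) • t ∈ ball (0 : Fin m → ℂ) (s / 4) := by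
    intro t ht
    rw [mem_ball_zero_iff] at ht ⊢
    rw [norm_smul, Real.norm_of_nonneg (by positivity)]
    nlinarith
  obtain ⟨α, β, hα, hβ, hαn, hβn, hαβ, -⟩ := hcore
    (fun q : E3 n × (Fin m → ℂ) => (4 / s) • T ((q.1.1, q.1.2.1), (s / 4) • q.2))
    (by
      have h1 : DifferentiableOn ℂ (fun q : E3 n × (Fin m → ℂ) =>
          ((q.1.1, q.1.2.1), (s / 4) • q.2))
          ({x : E3 n | (x.1, x.2.1) ∈ neckU Psi c0 c1 c4 c5' R1 r2} ×ˢ
            ball (0 : Fin m → ℂ) 1) :=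
        (((differentiable_fst.comp differentiable_fst).prodMk
          (differentiable_fst.comp (differentiable_snd.comp differentiable_fst))).prodMk
          (differentiable_snd.const_smul (s / 4))).differentiableOn
      exact (hTd.comp h1 fun q hq => ⟨hq.1, h4 q.2 hq.2⟩).const_smul (4 / s))
    (by
      intro x hx t ht
      have h1 := (hT (x.1, x.2.1) hx ((s / 4) • t) (h4 t ht)).1
      show ‖(4 / s) • T ((x.1, x.2.1), (s / 4) • t) - t‖ < δ0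
      have h2 : (4 / s) • T ((x.1, x.2.1), (s / 4) • t) - t =
          (4 / s) • (T ((x.1, x.2.1), (s / 4) • t) - (s / 4) • t) := by
        rw [smul_sub, smul_smul]
        have h3 : 4 / s * (s / 4) = 1 := by field_simp
        rw [h3, one_smul]
      rw [h2, norm_smul, Real.norm_of_nonneg (by positivity)]
      calc 4 / s * ‖T ((x.1, x.2.1), (s / 4) • t) - (s / 4) • t‖ < 4 / s * (δ0 * (s / 4)) :=
            mul_lt_mul_of_pos_left h1 (by positivity)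
        _ = δ0 := by field_simp)
  -- thinness
  have hKR : IsCompact (closedBall (0 : EEn n) R1) := isCompact_closedBall _ _
  have hNBo : IsOpen {Z : EEn n × EEn n | Z ∈ D.N ∧ ‖cf Z‖ < 2} :=
    D.N_open.inter (isOpen_lt hcf.continuous.norm continuous_const)
  obtain ⟨ε1, hε1, hthin1⟩ := neck_thin (m := m) hKR (isCompact_singleton (x := 0))
    (D.V_open.prod isOpen_univ)
    (fun z hz t _ => ⟨D.V_mem z (mem_closedBall_zero_iff.1 hz), mem_univ _⟩)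
  obtain ⟨ε3, hε3, hthin2⟩ := neck_thin (m := m)
    (hKR.inter_right (isClosed_le hPsi (continuous_const (y := c5))))
    (isCompact_singleton (x := 0)) (hNBo.prod isOpen_univ)
    (fun z hz t _ => ⟨⟨D.N_mem z (mem_closedBall_zero_iff.1 hz.1) (le_trans hz.2 h55.le),
      (hcf1 z).trans_lt one_lt_two⟩, mem_univ _⟩)
  have hSo : IsOpen ((D.V ×ˢ ball (0 : Fin m → ℂ) D.s) ∩ D.S ⁻¹' {p}ᶜ) :=
    D.S_et.cont.isOpen_inter_preimage (D.V_open.prod isOpen_ball) isOpen_compl_singleton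
  obtain ⟨ε4, hε4, hthin3⟩ := neck_thin (m := m)
    (hKR.inter_right (isClosed_le (continuous_const (y := -mm)) hPsi))
    (isCompact_closedBall (0 : Fin m → ℂ) (s / 4)) hSo
    (fun z hz t ht => by
      have ht' : t ∈ ball (0 : Fin m → ℂ) D.s := by
        rw [← hsdef]
        exact closedBall_subset_ball (by linarith) ht
      exact ⟨⟨D.V_mem z (mem_closedBall_zero_iff.1 hz.1), ht'⟩,
        D.S_ne z (mem_closedBall_zero_iff.1 hz.1) hz.2 t ht'⟩)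
  refine ⟨min ε1 (min ε3 ε4), lt_min hε1 (lt_min hε3 hε4), fun D0 hD0 hD0t => ?_⟩
  -- the two sides
  have hβe := neck_rescale_et hUB hs hη1a hη1 hβ hβn
  have hαe := neck_rescale_et hUD hs hη1a hη1 hα hαn
  have hβv : ∀ x ∈ UB, ∀ t ∈ ball (0 : Fin m → ℂ) (s / 16),
      ‖(s / 4) • β (x, (4 / s) • t)‖ < s / 4 := by
    intro x hx t ht
    have h1 := neck_rescale_near hs hβn x hx t (ball_subset_ball (by linarith) ht)
    have h2 := mem_ball_zero_iff.1 ht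
    have h3 := norm_add_le ((s / 4) • β (x, (4 / s) • t) - t) t
    rw [sub_add_cancel] at h3
    linarith
  have hαv : ∀ x ∈ UD, ∀ t ∈ ball (0 : Fin m → ℂ) (s / 16),
      ‖(s / 4) • α (x, (4 / s) • t)‖ < s / 4 := by
    intro x hx t ht
    have h1 := neck_rescale_near hs hαn x hx t (ball_subset_ball (by linarith) ht)
    have h2 := mem_ball_zero_iff.1 ht
    have h3 := norm_add_le ((s / 4) • α (x, (4 / s) • t) - t) t
    rw [sub_add_cancel] at h3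
    linarith
  obtain ⟨OA, hOAdef⟩ : ∃ OA : Set (E3 n), OA = {x : E3 n | x ∈ UB ∧ (x.1, x.2.1) ∈
      ({Z : EEn n × EEn n | Z.1 ∈ U0 ∧ Psi Z.1 < (c1 + c4) / 2} ∪
        {Z | Z ∈ D.V ∧ (c1 + c4) / 2 < Psi Z.1})} := ⟨_, rfl⟩
  obtain ⟨OB, hOBdef⟩ : ∃ OB : Set (E3 n), OB = {x : E3 n | x ∈ UD ∧ (x.1, x.2.1) ∈
      {Z : EEn n × EEn n | Z ∈ D.N ∧ ‖cf Z‖ < 2}} := ⟨_, rfl⟩
  have hdom : IsOpen ({Z : EEn n × EEn n | Z.1 ∈ U0 ∧ Psi Z.1 < (c1 + c4) / 2} ∪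
        {Z | Z ∈ D.V ∧ (c1 + c4) / 2 < Psi Z.1}) :=
    ((hU0.preimage continuous_fst).inter
      (isOpen_lt (hPsi.comp continuous_fst) continuous_const)).union
      (D.V_open.inter (isOpen_lt continuous_const (hPsi.comp continuous_fst)))
  have hOA : IsOpen OA := by
    rw [hOAdef]
    exact hUB.inter (hdom.preimage hpr)
  have hOB : IsOpen OB := by
    rw [hOBdef]
    exact hUD.inter (hNBo.preimage hpr)
  have hprd : ∀ W : Set (E3 n), DifferentiableOn ℂ (fun x : E3 n => (x.1, x.2.1)) W := fun W =>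
    (differentiable_fst.prodMk (differentiable_fst.comp differentiable_snd)).differentiableOn
  have ha : EtHol (fun q : E3 n × (Fin m → ℂ) => neckA G D.S Psi ((c1 + c4) / 2)
      ((q.1.1, q.1.2.1), (s / 4) • β (q.1, (4 / s) • q.2))) OA (s / 16) := by
    have h1 := (neckA_etHol hPsi hU0 hG0' D ((c1 + c4) / 2)).pullback (hprd OA)
      (fun x hx => by rw [hOAdef] at hx; exact hx.2)
    rw [← hsdef] at h1
    refine h1.comp (hβe.mono (fun x hx => by rw [hOAdef] at hx; exact hx.1) le_rfl) ?_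
    intro x hx t ht
    rw [hOAdef] at hx
    rw [mem_ball_zero_iff]
    exact (hβv x hx.1 t ht).trans (by linarith)
  have hb : EtHol (fun q : E3 n × (Fin m → ℂ) => neckB G D.γ cf
      ((q.1.1, q.1.2.1), (s / 4) • α (q.1, (4 / s) • q.2))) OB (s / 16) := by
    have h1 := (neckB_etHol hU0 hG0' D hcf).pullback (hprd OB)
      (fun x hx => by rw [hOBdef] at hx; exact hx.2)
    rw [← hsdef] at h1
    refine h1.comp (hαe.mono (fun x hx => by rw [hOBdef] at hx; exact hx.1) le_rfl) ?_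
    intro x hx t ht
    rw [hOBdef] at hx
    rw [mem_ball_zero_iff]
    exact hαv x hx.1 t ht
  have hab : ∀ x ∈ OA, x ∈ OB → ∀ t ∈ ball (0 : Fin m → ℂ) (s / 16),
      neckA G D.S Psi ((c1 + c4) / 2) ((x.1, x.2.1), (s / 4) • β (x, (4 / s) • t)) =
        neckB G D.γ cf ((x.1, x.2.1), (s / 4) • α (x, (4 / s) • t)) := by
    intro x hxA hxB t ht
    rw [hOAdef] at hxA
    rw [hOBdef] at hxB
    have h1 : x ∈ UD ∩ UB := ⟨hxB.1, hxA.1⟩
    have ht2 : (4 / s) • t ∈ ball (0 : Fin m → ℂ) (1 / 2) :=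
      neck_half hs ((mem_ball_zero_iff.1 ht).trans (by linarith))
    have h2 : (4 / s) • T ((x.1, x.2.1), (s / 4) • α (x, (4 / s) • t)) = β (x, (4 / s) • t) :=
      hαβ x h1 _ ht2
    have h3 := (hT (x.1, x.2.1) (hUDUB h1) ((s / 4) • α (x, (4 / s) • t))
      (mem_ball_zero_iff.2 (hαv x hxB.1 t ht))).2.2
    rw [← h2, smul_smul]
    have h5 : s / 4 * (4 / s) = 1 := by field_simp
    rw [h5, one_smul]
    exact h3
  have hcov : D0 ⊆ OA ∪ OB := by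
    intro x hx
    have hxR : ‖x.1‖ < R1 := hR x (hD0 hx)
    rcases hD0 hx with hxA | hxB
    · left
      rw [hOAdef]
      refine ⟨hAUB hxA, ?_⟩
      rcases hA2 x hxA with h3 | h3
      · left
        refine ⟨hU0c x.1 hxR.le (by linarith), ?_⟩
        show Psi x.1 < (c1 + c4) / 2
        linarith
      · right
        refine ⟨?_, by show (c1 + c4) / 2 < Psi x.1; linarith⟩
        have h5 := hD0t x hx (by linarith)
        exact (hthin1 x.1 (mem_closedBall_zero_iff.2 hxR.le) x.2.1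
          (h5.trans_le (min_le_left _ _)) 0 rfl).1
    · right
      rw [hOBdef]
      obtain ⟨h1, h2⟩ := hB2 x hxB
      refine ⟨hBUD hxB, ?_⟩
      have h5 := hD0t x hx h1
      exact (hthin2 x.1 ⟨mem_closedBall_zero_iff.2 hxR.le, h2⟩ x.2.1
        (h5.trans_le ((min_le_right _ _).trans (min_le_left _ _))) 0 rfl).1
  refine ⟨fun q : E3 n × (Fin m → ℂ) => if q.1 ∈ OA then
      neckA G D.S Psi ((c1 + c4) / 2) ((q.1.1, q.1.2.1), (s / 4) • β (q.1, (4 / s) • q.2)) else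
      neckB G D.γ cf ((q.1.1, q.1.2.1), (s / 4) • α (q.1, (4 / s) • q.2)), s / 16,
    ⟨by positivity, ⟨OA ∪ OB, hOA.union hOB, hcov, ?_⟩, ?_⟩, ?_⟩
  · refine (ha.congr fun x hx t _ => ?_).union_open (hb.congr fun x hx t ht => ?_) hOA hOB
    · exact if_pos hx
    · by_cases hxA : x ∈ OA
      · rw [← hab x hxA hx t ht]
        exact if_pos hxA
      · exact if_neg hxA
  · intro x hx hxZ
    have hxR : ‖x.1‖ < R1 := hR x (hD0 hx)
    have hxm : -mm ≤ Psi x.1 := not_lt.1 hxZ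
    have h0 : (0 : Fin m → ℂ) ∈ ball (0 : Fin m → ℂ) (s / 16) := mem_ball_self (by positivity)
    by_cases hxA : x ∈ OA
    · have hUBx : x ∈ UB := by
        rw [hOAdef] at hxA
        exact hxA.1
      have hv := hβv x hUBx 0 h0
      show (if x ∈ OA then _ else _) ≠ p
      rw [if_pos hxA]
      show neckA G D.S Psi ((c1 + c4) / 2)
        ((x.1, x.2.1), (s / 4) • β (x, (4 / s) • (0 : Fin m → ℂ))) ≠ p
      by_cases hPc : Psi x.1 < (c1 + c4) / 2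
      · simp only [neckA]
        rw [if_pos hPc]
        exact D.G_ne x.1 hxR.le hxm _ (mem_ball_zero_iff.2 (hv.trans (by linarith)))
      · simp only [neckA]
        rw [if_neg hPc]
        have h5 := hD0t x hx (by linarith [not_lt.1 hPc])
        exact (hthin3 x.1 ⟨mem_closedBall_zero_iff.2 hxR.le, hxm⟩ x.2.1
          (h5.trans_le ((min_le_right _ _).trans (min_le_right _ _))) _
          (mem_closedBall_zero_iff.2 hv.le)).2
    · have hxB : x ∈ OB := (hcov hx).resolve_left hxA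
      rw [hOBdef] at hxB
      have h1 := neck_rescale_near hs hαn x hxB.1 0 (mem_ball_self (by positivity))
      rw [sub_zero] at h1
      obtain ⟨w, hw⟩ : ∃ w, w = (s / 4) • α (x, (4 / s) • (0 : Fin m → ℂ)) := ⟨_, rfl⟩
      rw [← hw] at h1
      show (if x ∈ OA then _ else _) ≠ p
      rw [if_neg hxA]
      show neckB G D.γ cf ((x.1, x.2.1), (s / 4) • α (x, (4 / s) • (0 : Fin m → ℂ))) ≠ p
      rw [← hw]
      have hw2 : w ∈ ball (0 : Fin m → ℂ) (D.s / 2) := by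
        rw [mem_ball_zero_iff, ← hsdef]
        linarith
      have h2 := D.γ_near (x.1, x.2.1) hxB.2.1 w hw2
      rw [← hsdef] at h2
      refine D.G_ne x.1 hxR.le hxm _ (mem_ball_zero_iff.2 ?_)
      show ‖w + cf (x.1, x.2.1) • (D.γ ((x.1, x.2.1), w) - w)‖ < r
      have h3 : ‖cf (x.1, x.2.1) • (D.γ ((x.1, x.2.1), w) - w)‖ ≤ 2 * (s / 64) := by
        rw [norm_smul]
        exact mul_le_mul hxB.2.2.le h2.le (norm_nonneg _) (by norm_num)
      have h5 := norm_add_le w (cf (x.1, x.2.1) • (D.γ ((x.1, x.2.1), w) - w))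
      linarith
  · intro x hx hx0
    have hxR : ‖x.1‖ < R1 := hR x (hD0 hx)
    have hxA : x ∈ A := by
      rcases hD0 hx with h | h
      · exact h
      · exact absurd (hB2 x h).1 (by linarith)
    have hUBx : x ∈ UB := hAUB hxA
    have hPc : Psi x.1 < (c1 + c4) / 2 := by linarith
    have hxOA : x ∈ OA := by
      rw [hOAdef]
      exact ⟨hUBx, Or.inl ⟨hU0c x.1 hxR.le (by linarith), hPc⟩⟩
    have h1 := neck_rescale_near hs hβn x hUBx 0 (mem_ball_self (by positivity))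
    rw [sub_zero] at h1
    show dist (if x ∈ OA then _ else _) (G (x.1, 0)) < η
    rw [if_pos hxOA]
    show dist (neckA G D.S Psi ((c1 + c4) / 2)
      ((x.1, x.2.1), (s / 4) • β (x, (4 / s) • (0 : Fin m → ℂ)))) (G (x.1, 0)) < η
    simp only [neckA]
    rw [if_pos hPc]
    exact hclose x.1 ⟨mem_closedBall_zero_iff.2 hxR.le, hx0⟩ _ (h1.trans hη1b)

end OkaP
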