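import Pool.Agent.H.MP_ceb9a9.CylDefs
import Pool.Agent.H.MP_ceb9a9.Cplx

/-!
# MP_ceb9a9: coordinates of `E × E` in which the set `{ζ = conj z}` is the real space

`E = EuclideanSpace ℂ (Fin n)`.  `toRe z = (re z, im z) ∈ ℝ^(n+n)`, `ofRe` is its inverse, and
`lamE (z, ζ) = ((z + ζ) / 2, (z - ζ) / (2 i)) ∈ ℂ^(n+n)`, a complex linear isomorphism with inverse
`(x, y) ↦ (x + i y, x - i y)`.

Proofs.  Everything is a coordinatewise computation.  `lamE (z, conj z) = (re z, im z)`.  With `z' = (z + conj ζ) / 2`: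
real parts of `lamE (z, ζ)` are `(re z', im z')` since `re ((z + ζ)/2) = (re z + re ζ)/2` and
`re ((z - ζ)/(2 i)) = (im z - im ζ)/2`; imaginary parts are `((im z + im ζ)/2, -(re z - re ζ)/2)`, and
`ζ - conj z` has real part `re ζ - re z`, imaginary part `im ζ + im z`.  Norms in `EuclideanSpace`: `EuclideanSpace.norm_eq`,
`‖w‖² = ∑ i, ‖w i‖²`, `‖w i‖² = re² + im²`; sums over `Fin (n + n)`: `Fin.sum_univ_add`, `Fin.append_left/right`.
-/

set_option autoImplicit false
open Set Metric Filter
open scoped Topology ComplexConjugate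

noncomputable section
namespace OkaP

variable {n : ℕ}

/-- real coordinates of a vector of `ℂ^n` -/
def toRe (z : EuclideanSpace ℂ (Fin n)) : Fin (n + n) → ℝ :=
  Fin.append (fun i => (z i).re) (fun i => (z i).im)

/-- the vector of `ℂ^n` with given real coordinates -/
def ofRe (x : Fin (n + n) → ℝ) : EuclideanSpace ℂ (Fin n) :=
  WithLp.toLp 2 (fun i => ((x (Fin.castAdd n i) : ℂ) + (x (Fin.natAdd n i) : ℂ) * Complex.I))

theorem ofRe_toRe (z : EuclideanSpace ℂ (Fin n)) : ofRe (toRe z) = z := by
  ext i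
  simp only [ofRe, toRe, Fin.append_left, Fin.append_right]
  exact Complex.re_add_im (z i)

theorem toRe_ofRe (x : Fin (n + n) → ℝ) : toRe (ofRe x) = x := by
  ext j
  refine Fin.addCases (fun i => ?_) (fun i => ?_) j
  · simp only [ofRe, toRe, Fin.append_left]
    simp only [Complex.add_re, Complex.mul_re, Complex.ofReal_re, Complex.ofReal_im,
      Complex.I_re, Complex.I_im, mul_zero, zero_mul, sub_zero, add_zero]
  · simp only [ofRe, toRe, Fin.append_right]
    simp only [Complex.add_im, Complex.mul_im, Complex.ofReal_re, Complex.ofReal_im,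
      Complex.I_re, Complex.I_im, mul_zero, mul_one, zero_add, add_zero]

theorem continuous_toRe : Continuous (toRe : EuclideanSpace ℂ (Fin n) → _) := by
  refine continuous_pi fun j => ?_
  have h : ∀ i : Fin n, Continuous fun z : EuclideanSpace ℂ (Fin n) => z i := fun i =>
    (EuclideanSpace.proj (𝕜 := ℂ) i).continuous
  refine Fin.addCases (fun i => ?_) (fun i => ?_) j
  · simp only [toRe, Fin.append_left]
    exact Complex.continuous_re.comp (h i)
  · simp only [toRe, Fin.append_right]
    exact Complex.continuous_im.comp (h i)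

theorem continuous_ofRe : Continuous (ofRe : (Fin (n + n) → ℝ) → EuclideanSpace ℂ (Fin n)) := by
  refine (PiLp.continuous_toLp 2 _).comp (continuous_pi fun i => ?_)
  exact (Complex.continuous_ofReal.comp (continuous_apply _)).add
    ((Complex.continuous_ofReal.comp (continuous_apply _)).mul continuous_const)

/-- the complex linear coordinates on `E × E` -/
def lamE : (EuclideanSpace ℂ (Fin n) × EuclideanSpace ℂ (Fin n)) →L[ℂ] (Fin (n + n) → ℂ) :=
  LinearMap.toContinuousLinearMap
    { toFun := fun Z => Fin.append (fun i => (Z.1 i + Z.2 i) / 2)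
        (fun i => (Z.1 i - Z.2 i) / (2 * Complex.I))
      map_add' := by
        intro x y
        ext j
        refine Fin.addCases (fun i => ?_) (fun i => ?_) j
        · simp only [Pi.add_apply, Fin.append_left, Prod.fst_add, Prod.snd_add, PiLp.add_apply]
          ring
        · simp only [Pi.add_apply, Fin.append_right, Prod.fst_add, Prod.snd_add, PiLp.add_apply]
          ring
      map_smul' := by
        intro c x
        ext j
        refine Fin.addCases (fun i => ?_) (fun i => ?_) j
        · simp only [Pi.smul_apply, Fin.append_left, Prod.smul_fst, Prod.smul_snd,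
            PiLp.smul_apply, smul_eq_mul, RingHom.id_apply]
          ring
        · simp only [Pi.smul_apply, Fin.append_right, Prod.smul_fst, Prod.smul_snd,
            PiLp.smul_apply, smul_eq_mul, RingHom.id_apply]
          ring }

private theorem neckCoord_left (z ζ : EuclideanSpace ℂ (Fin n)) (i : Fin n) :
    lamE (z, ζ) (Fin.castAdd n i) =
      (((z i).re + (ζ i).re) / 2 : ℝ) + (((z i).im + (ζ i).im) / 2 : ℝ) * Complex.I := by
  have h : lamE (z, ζ) (Fin.castAdd n i) = (z i + ζ i) / 2 := by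
    change Fin.append (fun i => (z i + ζ i) / 2) (fun i => (z i - ζ i) / (2 * Complex.I))
      (Fin.castAdd n i) = _
    rw [Fin.append_left]
  rw [h]
  apply Complex.ext <;> simp

private theorem neckCoord_right (z ζ : EuclideanSpace ℂ (Fin n)) (i : Fin n) :
    lamE (z, ζ) (Fin.natAdd n i) =
      (((z i).im - (ζ i).im) / 2 : ℝ) + (-((z i).re - (ζ i).re) / 2 : ℝ) * Complex.I := by
  have h : lamE (z, ζ) (Fin.natAdd n i) = (z i - ζ i) / (2 * Complex.I) := by
    change Fin.append (fun i => (z i + ζ i) / 2) (fun i => (z i - ζ i) / (2 * Complex.I))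
      (Fin.natAdd n i) = _
    rw [Fin.append_right]
  rw [h, div_eq_iff (by simp)]
  apply Complex.ext <;> simp

theorem lamE_conj (z : EuclideanSpace ℂ (Fin n)) : lamE (z, conjE z) = cplx (toRe z) := by
  ext j
  refine Fin.addCases (fun i => ?_) (fun i => ?_) j
  · rw [neckCoord_left]
    simp only [cplx, toRe, Fin.append_left, conjE_apply]
    apply Complex.ext <;> simp
  · rw [neckCoord_right]
    simp only [cplx, toRe, Fin.append_right, conjE_apply]
    apply Complex.ext <;> simp

private theorem neckCoord_norm (c : ℂ) : ‖c‖ ^ 2 = c.re ^ 2 + c.im ^ 2 := by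
  rw [← Complex.normSq_eq_norm_sq, Complex.normSq_apply]
  ring

theorem lamE_im (z ζ : EuclideanSpace ℂ (Fin n)) :
    ∑ i, (lamE (z, ζ) i).im ^ 2 = ‖ζ - conjE z‖ ^ 2 / 4 := by
  rw [Fin.sum_univ_add, EuclideanSpace.norm_sq_eq, ← Finset.sum_add_distrib, Finset.sum_div]
  refine Finset.sum_congr rfl fun i _ => ?_
  rw [neckCoord_left, neckCoord_right, neckCoord_norm]
  have h1 : (ζ - conjE z) i = ζ i - conj (z i) := rfl
  rw [h1]
  simp
  ring

theorem lamE_re (z ζ w : EuclideanSpace ℂ (Fin n)) :
    ∑ i, ((lamE (z, ζ) i).re - toRe w i) ^ 2 =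
      ‖(1 / 2 : ℂ) • (z + conjE ζ) - w‖ ^ 2 := by
  rw [Fin.sum_univ_add, EuclideanSpace.norm_sq_eq, ← Finset.sum_add_distrib]
  refine Finset.sum_congr rfl fun i _ => ?_
  rw [neckCoord_left, neckCoord_right, neckCoord_norm]
  have h1 : ((1 / 2 : ℂ) • (z + conjE ζ) - w) i = (1 / 2 : ℂ) * (z i + conj (ζ i)) - w i := rfl
  have h2 : toRe w (Fin.castAdd n i) = (w i).re := by simp only [toRe, Fin.append_left]
  have h3 : toRe w (Fin.natAdd n i) = (w i).im := by simp only [toRe, Fin.append_right]
  rw [h1, h2, h3]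
  simp
  ring

/-- the midpoint is close to `z` when `ζ` is close to `conj z` -/
theorem lamE_mid (z ζ : EuclideanSpace ℂ (Fin n)) :
    ‖(1 / 2 : ℂ) • (z + conjE ζ) - z‖ = ‖ζ - conjE z‖ / 2 := by
  have h1 : ‖(1 / 2 : ℂ) • (z + conjE ζ) - z‖ ^ 2 = (‖ζ - conjE z‖ / 2) ^ 2 := by
    rw [div_pow, EuclideanSpace.norm_sq_eq, EuclideanSpace.norm_sq_eq, Finset.sum_div]
    refine Finset.sum_congr rfl fun i _ => ?_
    rw [neckCoord_norm, neckCoord_norm]
    have h1 : ((1 / 2 : ℂ) • (z + conjE ζ) - z) i = (1 / 2 : ℂ) * (z i + conj (ζ i)) - z i := rfl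
    have h2 : (ζ - conjE z) i = ζ i - conj (z i) := rfl
    rw [h1, h2]
    simp
    ring
  exact (pow_left_inj₀ (norm_nonneg _) (by positivity) two_ne_zero).1 h1

end OkaP
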