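import Pool.Agent.H.MP_ceb9a9.Defs
import Pool.Agent.H.MP_ceb9a9.CylDefs

/-!
# MP_ceb9a9: the neck data (definition)

`G` is a continuous etale family over the ball `‖z‖ ≤ R1` of `E = ℂ^n`, holomorphic over `U0 ⊇ {Psi ≤ c}`.
`S` is a holomorphic etale family over a neighbourhood `V` of `{(z, conj z)}` in `E × E`, close to `G`; over
`N ⊇ {(z, conj z) : Psi z ≤ c}` it is `G (z, γ ((z, ζ), t))`, `γ` near the identity.
-/

set_option autoImplicit false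
open Set Metric Filter
open scoped Topology Manifold

noncomputable section
namespace OkaP

/-- abbreviation for `ℂ^n` -/
abbrev EEn (n : ℕ) : Type := EuclideanSpace ℂ (Fin n)

/-- data for the neck -/
structure NeckData {m : ℕ} {X : Type} [MetricSpace X] [ChartedSpace (Fin m → ℂ) X] {n : ℕ} (p : X)
    (G : EEn n × (Fin m → ℂ) → X) (U0 : Set (EEn n)) (Psi : EEn n → ℝ) (R1 mm c r : ℝ) where
  s : ℝ
  s_pos : 0 < s
  s_lt : s < r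
  V : Set (EEn n × EEn n)
  S : (EEn n × EEn n) × (Fin m → ℂ) → X
  V_open : IsOpen V
  V_mem : ∀ z : EEn n, ‖z‖ ≤ R1 → (z, conjE z) ∈ V
  S_et : EtHol S V s
  N : Set (EEn n × EEn n)
  N_open : IsOpen N
  N_mem : ∀ z : EEn n, ‖z‖ ≤ R1 → Psi z ≤ c → (z, conjE z) ∈ N
  N_U0 : ∀ Z ∈ N, Z.1 ∈ U0
  N_V : N ⊆ V
  γ : (EEn n × EEn n) × (Fin m → ℂ) → (Fin m → ℂ)
  γ_hol : DifferentiableOn ℂ γ (N ×ˢ ball (0 : Fin m → ℂ) (s / 2))
  γ_near : ∀ Z ∈ N, ∀ t ∈ ball (0 : Fin m → ℂ) (s / 2), ‖γ (Z, t) - t‖ < s / 64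
  γ_eq : ∀ Z ∈ N, ∀ t ∈ ball (0 : Fin m → ℂ) (s / 2), G (Z.1, γ (Z, t)) = S (Z, t)
  G_ne : ∀ z : EEn n, ‖z‖ ≤ R1 → -mm ≤ Psi z → ∀ t ∈ ball (0 : Fin m → ℂ) r, G (z, t) ≠ p
  S_ne : ∀ z : EEn n, ‖z‖ ≤ R1 → -mm ≤ Psi z → ∀ t ∈ ball (0 : Fin m → ℂ) s,
    S ((z, conjE z), t) ≠ p

/-- the interpolated family -/
def neckB {m : ℕ} {X : Type} {n : ℕ} (G : EEn n × (Fin m → ℂ) → X)
    (γ : (EEn n × EEn n) × (Fin m → ℂ) → (Fin m → ℂ)) (c : EEn n × EEn n → ℂ) :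
    (EEn n × EEn n) × (Fin m → ℂ) → X :=
  fun q => G (q.1.1, q.2 + c q.1 • (γ q - q.2))

open Classical in
/-- the family outside the neck: `G` over `{Psi < cm}`, `S` elsewhere -/
def neckA {m : ℕ} {X : Type} {n : ℕ} (G : EEn n × (Fin m → ℂ) → X)
    (S : (EEn n × EEn n) × (Fin m → ℂ) → X) (Psi : EEn n → ℝ) (cm : ℝ) :
    (EEn n × EEn n) × (Fin m → ℂ) → X :=
  fun q => if Psi q.1.1 < cm then G (q.1.1, q.2) else S q

end OkaP
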