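import Pool.Agent.H.MP_ceb9a9.BoxSplit
import Pool.Agent.H.MP_ceb9a9.NsMain

set_option autoImplicit false
open Set Metric Filter
open scoped Topology

noncomputable section
namespace OkaP

/-- the split scale over a slab (no loss in the base, shrinking balls in the fibre). -/
theorem ngBox_scale {V : Type} [NormedAddCommGroup V] [NormedSpace ℂ V] [FiniteDimensional ℂ V]
    {c0 c1 r C : ℝ} (hr : 0 < r)
    (E' : Type) [NormedAddCommGroup E'] [NormedSpace ℂ E']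
    [FiniteDimensional ℂ E'] (W : Set E') (b : ℝ) (hW : IsOpen W)
    (hsplit : ∀ (W' : Set (E' × V)) (c : ℂ × (E' × V) → V) (κ : ℝ), IsOpen W' →
      0 ≤ κ → DifferentiableOn ℂ c ((SL c1 b ∩ SR c0 b) ×ˢ W') →
      (∀ x ∈ (SL c1 b ∩ SR c0 b) ×ˢ W', ‖c x‖ ≤ κ) →
      ∃ a₁ b₁ : ℂ × (E' × V) → V, DifferentiableOn ℂ a₁ (SL c1 b ×ˢ W') ∧
        DifferentiableOn ℂ b₁ (SR c0 b ×ˢ W') ∧
        (∀ x ∈ SL c1 b ×ˢ W', ‖a₁ x‖ ≤ C * κ) ∧ (∀ x ∈ SR c0 b ×ˢ W', ‖b₁ x‖ ≤ C * κ) ∧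
        ∀ x ∈ (SL c1 b ∩ SR c0 b) ×ˢ W', b₁ x - a₁ x = c x) :
    SplitScale (E := ℂ × E') (V := V)
      (fun s => (SL c1 b ×ˢ W) ×ˢ ball (0 : V) (r * (1 - s / 2)))
      (fun s => (SR c0 b ×ˢ W) ×ˢ ball (0 : V) (r * (1 - s / 2)))
      (fun _ => 1) (fun _ => 1) (min (r / 2) 1) C 0 := by
  have hshrink : ∀ (s s' : ℝ) (ζ ζ' : V), s ≤ s' → ζ ∈ ball (0 : V) (r * (1 - s' / 2)) →
      ‖ζ' - ζ‖ ≤ min (r / 2) 1 * (s' - s) → ζ' ∈ ball (0 : V) (r * (1 - s / 2)) := by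
    intro s s' ζ ζ' hss hζ hn
    rw [mem_ball_zero_iff] at hζ ⊢
    have h1 : min (r / 2) 1 * (s' - s) ≤ (r / 2) * (s' - s) :=
      mul_le_mul_of_nonneg_right (min_le_left _ _) (by linarith)
    have h2 : ζ' = (ζ' - ζ) + ζ := by abel
    have h3 : ‖ζ'‖ ≤ ‖ζ' - ζ‖ + ‖ζ‖ := by
      conv_lhs => rw [h2]
      exact norm_add_le _ _
    have h4 : r / 2 * (s' - s) + r * (1 - s' / 2) = r * (1 - s / 2) := by ring
    linarith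
  have hstar : ∀ s : ℝ, s ≤ 1 → (0 : V) ∈ ball (0 : V) (r * (1 - s / 2)) := by
    intro s hs
    refine mem_ball_self (mul_pos hr ?_)
    linarith
  have hsub : ∀ s s' : ℝ, s ≤ s' → ball (0 : V) (r * (1 - s' / 2)) ⊆
      ball (0 : V) (r * (1 - s / 2)) := by
    intro s s' hss
    refine ball_subset_ball (mul_le_mul_of_nonneg_left ?_ hr.le)
    linarith
  refine
    { openA := fun s _ _ => ((isOpen_SL c1 b).prod hW).prod isOpen_ball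
      openB := fun s _ _ => ((isOpen_SR c0 b).prod hW).prod isOpen_ball
      pq := fun z => ⟨zero_le_one, le_refl _, le_refl _⟩
      shrinkA := ?_
      shrinkB := ?_
      starA := ?_
      starB := ?_
      split := ?_ }
  · rintro s s' z ζ ζ' _ hss _ ⟨hz, hζ⟩ hn
    exact ⟨hz, hshrink s s' ζ ζ' hss hζ hn⟩
  · rintro s s' z ζ ζ' _ hss _ ⟨hz, hζ⟩ hn
    exact ⟨hz, hshrink s s' ζ ζ' hss hζ hn⟩
  · rintro s z ζ _ hs ⟨hz, _⟩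
    exact ⟨hz, hstar s hs⟩
  · rintro s z ζ _ hs ⟨hz, _⟩
    exact ⟨hz, hstar s hs⟩
  · intro s s' hs hss hs' c κ hκ hc hcb
    have hre : DifferentiableOn ℂ (fun x : ℂ × (E' × V) => c ((x.1, x.2.1), x.2.2))
        ((SL c1 b ∩ SR c0 b) ×ˢ (W ×ˢ ball (0 : V) (r * (1 - s / 2)))) := by
      have h1 : Differentiable ℂ (fun x : ℂ × (E' × V) => ((x.1, x.2.1), x.2.2)) :=
        (differentiable_fst.prodMk (differentiable_fst.comp differentiable_snd)).prodMk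
          (differentiable_snd.comp differentiable_snd)
      refine hc.comp h1.differentiableOn ?_
      rintro ⟨z, w, v⟩ ⟨⟨hz1, hz2⟩, hw, hv⟩
      exact ⟨⟨⟨hz1, hw⟩, hv⟩, ⟨⟨hz2, hw⟩, hv⟩⟩
    obtain ⟨a₁, b₁, ha, hb, hab, hbb, hba⟩ := hsplit (W ×ˢ ball (0 : V) (r * (1 - s / 2)))
      (fun x : ℂ × (E' × V) => c ((x.1, x.2.1), x.2.2)) κ (hW.prod isOpen_ball) hκ hre (by
        rintro ⟨z, w, v⟩ ⟨⟨hz1, hz2⟩, hw, hv⟩
        have := hcb (z, w) v ⟨⟨⟨hz1, hw⟩, hv⟩, ⟨⟨hz2, hw⟩, hv⟩⟩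
        rw [mul_one] at this
        exact this)
    have h1 : Differentiable ℂ (fun w : (ℂ × E') × V => (w.1.1, (w.1.2, w.2))) :=
      (differentiable_fst.comp differentiable_fst).prodMk
        ((differentiable_snd.comp differentiable_fst).prodMk differentiable_snd)
    refine ⟨fun w => a₁ (w.1.1, (w.1.2, w.2)), fun w => b₁ (w.1.1, (w.1.2, w.2)), ?_, ?_, ?_, ?_, ?_⟩
    · refine ha.comp h1.differentiableOn ?_
      rintro ⟨⟨z, w⟩, v⟩ ⟨⟨hz, hw⟩, hv⟩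
      exact ⟨hz, hw, hsub s s' hss.le hv⟩
    · refine hb.comp h1.differentiableOn ?_
      rintro ⟨⟨z, w⟩, v⟩ ⟨⟨hz, hw⟩, hv⟩
      exact ⟨hz, hw, hsub s s' hss.le hv⟩
    · rintro ⟨z, w⟩ v ⟨⟨hz, hw⟩, hv⟩
      have := hab (z, (w, v)) ⟨hz, hw, hsub s s' hss.le hv⟩
      rw [pow_zero, div_one, mul_one]
      exact this
    · rintro ⟨z, w⟩ v ⟨⟨hz, hw⟩, hv⟩
      have := hbb (z, (w, v)) ⟨hz, hw, hsub s s' hss.le hv⟩
      rw [pow_zero, div_one, mul_one]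
      exact this
    · rintro ⟨⟨z, w⟩, v⟩ ⟨⟨⟨hz1, hw⟩, hv⟩, ⟨⟨hz2, _⟩, _⟩⟩
      exact hba (z, (w, v)) ⟨⟨hz1, hz2⟩, hw, hsub s s' hss.le hv⟩

/-- nonlinear splitting over a slab with no loss in the base; the threshold depends only on the
slab width, the height bound and the fibre radius. -/
theorem ng_box (V : Type) [NormedAddCommGroup V] [NormedSpace ℂ V] [FiniteDimensional ℂ V]
    (c0 c1 b₀ r : ℝ) (h : c0 < c1) (hb₀ : 0 < b₀) (hr : 0 < r) :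
    ∃ ε₀ > 0, ∃ C > 0, ∀ (E' : Type) [NormedAddCommGroup E'] [NormedSpace ℂ E']
      [FiniteDimensional ℂ E'] (W : Set E') (b : ℝ) (γ : (ℂ × E') × V → V) (ε : ℝ),
      IsOpen W → 0 < b → b ≤ b₀ → 0 ≤ ε → ε ≤ ε₀ →
      DifferentiableOn ℂ γ (((SL c1 b ∩ SR c0 b) ×ˢ W) ×ˢ ball 0 r) →
      (∀ z ∈ (SL c1 b ∩ SR c0 b) ×ˢ W, ∀ t ∈ ball (0 : V) r, ‖γ (z, t) - t‖ ≤ ε) →
      ∃ α β : (ℂ × E') × V → V, DifferentiableOn ℂ α ((SL c1 b ×ˢ W) ×ˢ ball 0 (r / 2)) ∧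
        DifferentiableOn ℂ β ((SR c0 b ×ˢ W) ×ˢ ball 0 (r / 2)) ∧
        (∀ z ∈ SL c1 b ×ˢ W, ∀ t ∈ ball (0 : V) (r / 2), ‖α (z, t) - t‖ ≤ C * ε) ∧
        (∀ z ∈ SR c0 b ×ˢ W, ∀ t ∈ ball (0 : V) (r / 2), ‖β (z, t) - t‖ ≤ C * ε) ∧
        (∀ z ∈ (SL c1 b ∩ SR c0 b) ×ˢ W, ∀ t ∈ ball (0 : V) (r / 2),
          γ (z, α (z, t)) = β (z, t)) ∧
        ((∀ z ∈ (SL c1 b ∩ SR c0 b) ×ˢ W, γ (z, 0) = 0) →
          (∀ z ∈ SL c1 b ×ˢ W, α (z, 0) = 0) ∧ (∀ z ∈ SR c0 b ×ˢ W, β (z, 0) = 0)) := by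
  have : CompleteSpace V := FiniteDimensional.complete ℂ V
  obtain ⟨C, hC1, hbs⟩ := box_split c0 c1 b₀ h hb₀
  have hC0 : 0 < C := by linarith
  have hκ0 : 0 < min (r / 2) 1 := lt_min (by linarith) one_pos
  refine ⟨min (r / 2) 1 / (2 ^ 8 * C), by positivity, 4 * C, by positivity, ?_⟩
  intro E' _ _ _ W b γ ε hW hb hbb₀ hε hεε₀ hγ hγε
  have hscale := ngBox_scale (V := V) (c0 := c0) (c1 := c1) (C := C) hr E' W b hW
    (fun W' c κ hW' hκ hc hcb => hbs (E' × V) V W' b c κ hW' hb hbb₀ hκ hc hcb)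
  have e0 : r * (1 - 0 / 2) = r := by ring
  have e1 : r * (1 - 1 / 2) = r / 2 := by ring
  have hint0 : (SL c1 b ×ˢ W) ×ˢ ball (0 : V) (r * (1 - 0 / 2)) ∩
      (SR c0 b ×ˢ W) ×ˢ ball (0 : V) (r * (1 - 0 / 2)) ⊆
      ((SL c1 b ∩ SR c0 b) ×ˢ W) ×ˢ ball (0 : V) r := by
    rw [e0]
    rintro ⟨⟨z, w⟩, v⟩ ⟨⟨⟨hz1, hw⟩, hv⟩, ⟨⟨hz2, _⟩, _⟩⟩
    exact ⟨⟨⟨hz1, hz2⟩, hw⟩, hv⟩
  have hεκ : ε * (2 ^ (3 * 0 + 8) * C) ≤ min (r / 2) 1 := by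
    have h1 : 3 * 0 + 8 = 8 := by norm_num
    rw [h1]
    rwa [le_div_iff₀ (by positivity)] at hεε₀
  obtain ⟨α, β, hα, hβ, hαb, hβb, hαβ, hzero⟩ := hscale.nonlinear hκ0 (min_le_right _ _) hC1 hε hεκ
    (γ := γ) (hγ.mono hint0) (by
      intro z ζ hz
      have h1 := hint0 hz
      show ‖γ (z, ζ) - ζ‖ ≤ ε * 1
      rw [mul_one]
      exact hγε z h1.1 ζ h1.2)
  have h22 : (2 : ℝ) ^ (2 * 0 + 2) = 4 := by norm_num
  refine ⟨α, β, ?_, ?_, ?_, ?_, ?_, ?_⟩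
  · have h1 : DifferentiableOn ℂ α ((SL c1 b ×ˢ W) ×ˢ ball (0 : V) (r * (1 - 1 / 2))) := hα
    rw [e1] at h1
    exact h1
  · have h1 : DifferentiableOn ℂ β ((SR c0 b ×ˢ W) ×ˢ ball (0 : V) (r * (1 - 1 / 2))) := hβ
    rw [e1] at h1
    exact h1
  · intro z hz t ht
    have h1 := (hαb z t ⟨hz, by rw [e1]; exact ht⟩).1
    rw [h22, mul_one] at h1
    exact h1
  · intro z hz t ht
    have h1 := (hβb z t ⟨hz, by rw [e1]; exact ht⟩).1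
    rw [h22, mul_one] at h1
    exact h1
  · rintro ⟨z, w⟩ ⟨⟨hz1, hz2⟩, hw⟩ t ht
    exact hαβ (z, w) t ⟨⟨⟨hz1, hw⟩, by rw [e1]; exact ht⟩, ⟨⟨hz2, hw⟩, by rw [e1]; exact ht⟩⟩
  · intro h0
    have h1 := hzero (fun z hz => h0 z (hint0 hz).1)
    refine ⟨fun z hz => h1.1 z ⟨hz, ?_⟩, fun z hz => h1.2 z ⟨hz, ?_⟩⟩
    · rw [e1]
      exact mem_ball_self (by linarith)
    · rw [e1]
      exact mem_ball_self (by linarith)

end OkaP
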