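import Pool.Agent.H.MP_ceb9a9.EtOpen
import Pool.Agent.H.MP_ceb9a9.Cplx

/-!
# MP_ceb9a9: comparison of two holomorphic families close to the same continuous family over a real set

Proof of `fibre_coord` (uniform fibrewise coordinates).  `EtCont.exists_coord` for the compact set `Q`, radius
`s1 < r`, gives `ε`; take `κ = ε`: for `x ∈ Q` and `φ` with `dist (φ u) (G (x, u)) < κ` on `ball 0 s1` choose
`v u ∈ ball 0 r` with `‖v u - u‖ < η`, `G (x, v u) = φ u` for `u ∈ ball 0 s1`.  Holomorphy of `v` on `ball 0 s1`: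
`EtHol.coord_hol` applied to the constant family `etHol_const` (`E = F = Fin m → ℂ`, `U = univ`,
`Φ (w, u) = G (x, u)`, `a = id`, `g = φ`, `V = ball 0 s1`).

Proof of `fibre_etale`: `v` as above with `η ≤ (s1 - s2) / 8`; `near_id_ball` says that `v` is injective with
bijective derivative on `ball 0 s2`, so `φ = G (x, ·) ∘ v` is injective with bijective `mfderiv` there (chain rule,
as in `EtCont.comp`/`EtHol.comp`: apply `EtHol.comp` to the constant families and read off the fibre at any point).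

Proof of `w0_compare`.  Let `κ` be the constant of `fibre_coord` and `fibre_etale` for `Q`, `s1`, `s2 = s1 / 2`,
`η' = min (η / 4) (s1 / 32)`.  Given `ΨA, ΨB` let `vA, vB` be the fibre coordinates at `x ∈ Q`.
(a) `ΨB` is, over real points of `Q`, injective with bijective derivative on `ball 0 (s1 / 2)`; by
`etHol_open_of_fib` (with `K = cplx '' Q`, `s' = 3 s1 / 8`) there is an open `V' ⊇ cplx '' Q`, `V' ⊆ VB`, with
`EtHol ΨB V' (3 s1 / 8)`.
(b) For `x ∈ Q`, `t ∈ closedBall 0 (s1 / 4)`: `w := vA t` has `‖w - t‖ < η'`, so `w ∈ ball 0 (s1 / 2)`... apply the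
covering part of `near_id_ball` to `vB` on `ball 0 s1` (with `s = s1 / 2`): there is `u ∈ ball 0 s1` with `vB u = w`,
`‖u - w‖ ≤ η'`; so `ΨB (cplx x, u) = G (x, vB u) = G (x, vA t) = ΨA (cplx x, t)` and
`‖u - t‖ ≤ 2 η' < s1 / 8`, in particular `u ∈ ball 0 (3 s1 / 8)`.
(c) The set `O = {q = (z, t) ∈ (V' ∩ VA) ×ˢ ball 0 s1 | ∃ u ∈ ball 0 (3 s1 / 8), ΨB (z, u) = ΨA (z, t)}` is open
(`EtCont.isOpen_coord` with `a = Prod.fst`, `g = ΨA`).  On `O` the coordinate `γ0 (z, t)` (unique by injectivity; choose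
it) is holomorphic by `EtHol.coord_hol`, hence continuous.  `O' = {q ∈ O | ‖γ0 q - q.2‖ < η}` is open and contains
`(cplx x, t)` for `x ∈ Q`, `t ∈ closedBall 0 (s1 / 4)` by (b).  By the tube lemma (`generalized_tube_lemma`, `Q` and
`closedBall 0 (s1 / 4)` compact) there is an open `N ⊇ cplx '' Q` with `N ×ˢ closedBall 0 (s1 / 4) ⊆ O'`.  `γ = γ0`.
-/

set_option autoImplicit false
open Set Metric Filter
open scoped Topology Manifold

noncomputable section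
namespace OkaP

variable {m : ℕ} {X : Type} [MetricSpace X] [ChartedSpace (Fin m → ℂ) X]
  [IsManifold 𝓘(ℂ, Fin m → ℂ) ⊤ X]

/-- uniform fibrewise coordinates of maps close to the fibres of a continuous family. -/
theorem fibre_coord {T : Type} [TopologicalSpace T] {G : T × (Fin m → ℂ) → X} {S : Set T} {r : ℝ}
    (hG : EtCont G S r) {Q : Set T} (hQ : IsCompact Q) (hQS : Q ⊆ S) {s1 : ℝ} (hs1 : s1 < r)
    {η : ℝ} (hη : 0 < η) :
    ∃ κ > 0, ∀ x ∈ Q, ∀ φ : (Fin m → ℂ) → X, HolOn m φ (ball (0 : Fin m → ℂ) s1) →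
      (∀ u ∈ ball (0 : Fin m → ℂ) s1, dist (φ u) (G (x, u)) < κ) →
      ∃ v : (Fin m → ℂ) → (Fin m → ℂ), DifferentiableOn ℂ v (ball (0 : Fin m → ℂ) s1) ∧
        ∀ u ∈ ball (0 : Fin m → ℂ) s1, v u ∈ ball (0 : Fin m → ℂ) r ∧ ‖v u - u‖ < η ∧
          G (x, v u) = φ u := by
  classical
  obtain ⟨ε, hε, hco⟩ := hG.exists_coord hQ hQS hs1 hη
  refine ⟨ε, hε, fun x hx φ hφ hd => ?_⟩
  have h1 : ∀ u ∈ ball (0 : Fin m → ℂ) s1, ∃ v ∈ ball (0 : Fin m → ℂ) r, ‖v - u‖ < η ∧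
      G (x, v) = φ u := by
    intro u hu
    refine hco x hx u (ball_subset_closedBall hu) (φ u) ?_
    rw [dist_comm]
    exact hd u hu
  choose! v hv1 hv2 hv3 using h1
  refine ⟨v, ?_, fun u hu => ⟨hv1 u hu, hv2 u hu, hv3 u hu⟩⟩
  have h2 : EtHol (fun q : (Fin m → ℂ) × (Fin m → ℂ) => G (x, q.2)) univ r :=
    etHol_const (φ := fun u => G (x, u)) univ (hG.fib x (hQS hx)) (hG.inj x (hQS hx))
      (hG.der x (hQS hx))
  exact h2.coord_hol isOpen_univ (a := id) isOpen_ball differentiableOn_id hφ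
    (fun _ _ => mem_univ _) hv1 hv3

/-- maps close to the fibres of a continuous etale family are etale on smaller balls. -/
theorem fibre_etale {T : Type} [TopologicalSpace T] {G : T × (Fin m → ℂ) → X} {S : Set T} {r : ℝ}
    (hG : EtCont G S r) {Q : Set T} (hQ : IsCompact Q) (hQS : Q ⊆ S) {s1 s2 : ℝ} (hs1 : s1 < r)
    (hs2 : s2 < s1) :
    ∃ κ > 0, ∀ x ∈ Q, ∀ φ : (Fin m → ℂ) → X, HolOn m φ (ball (0 : Fin m → ℂ) s1) →
      (∀ u ∈ ball (0 : Fin m → ℂ) s1, dist (φ u) (G (x, u)) < κ) →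
      InjOn φ (ball (0 : Fin m → ℂ) s2) ∧ ∀ u ∈ ball (0 : Fin m → ℂ) s2,
        Function.Bijective (mfderiv 𝓘(ℂ, Fin m → ℂ) 𝓘(ℂ, Fin m → ℂ) φ u) := by
  have hη : 0 < (s1 - s2) / 8 := by linarith
  obtain ⟨κ, hκ, hco⟩ := fibre_coord hG hQ hQS hs1 hη
  refine ⟨κ, hκ, fun x hx φ hφ hd => ?_⟩
  obtain ⟨v, hv, hv'⟩ := hco x hx φ hφ hd
  have h1 : EtHol (fun q : ℂ × (Fin m → ℂ) => G (x, q.2)) univ r :=
    etHol_const (φ := fun u => G (x, u)) univ (hG.fib x (hQS hx)) (hG.inj x (hQS hx))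
      (hG.der x (hQS hx))
  have h2 : EtHol (fun q : ℂ × (Fin m → ℂ) => v q.2) univ s2 := by
    refine etHol_of_near_id_ball (r := s1) hs2 hη.le le_rfl isOpen_univ ?_ ?_
    · exact hv.comp differentiableOn_snd fun q hq => hq.2
    · intro z _ u hu
      exact (hv' u hu).2.1.le
  have h3 := (h1.comp h2 fun z _ u hu => (hv' u (ball_subset_ball hs2.le hu)).1).congr
    (Ψ := fun q : ℂ × (Fin m → ℂ) => φ q.2)
    fun z _ u hu => (hv' u (ball_subset_ball hs2.le hu)).2.2.symm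
  exact ⟨h3.inj 0 (mem_univ _), h3.der 0 (mem_univ _)⟩

/-- transition between two holomorphic families close to the same continuous family over a real
compact set. -/
theorem w0_compare {k : ℕ} {G : (Fin k → ℝ) × (Fin m → ℂ) → X} {r : ℝ} (hG : EtCont G univ r)
    {Q : Set (Fin k → ℝ)} (hQ : IsCompact Q) {s1 : ℝ} (hs0 : 0 < s1) (hs1 : s1 < r) {η : ℝ}
    (hη : 0 < η) :
    ∃ κ > 0, ∀ (VA VB : Set (Fin k → ℂ)) (ΨA ΨB : (Fin k → ℂ) × (Fin m → ℂ) → X), IsOpen VA →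
      IsOpen VB → HolOn m ΨA (VA ×ˢ ball (0 : Fin m → ℂ) s1) →
      HolOn m ΨB (VB ×ˢ ball (0 : Fin m → ℂ) s1) → (∀ x ∈ Q, cplx x ∈ VA ∧ cplx x ∈ VB) →
      (∀ x ∈ Q, ∀ t ∈ ball (0 : Fin m → ℂ) s1,
        dist (ΨA (cplx x, t)) (G (x, t)) < κ ∧ dist (ΨB (cplx x, t)) (G (x, t)) < κ) →
      ∃ (N : Set (Fin k → ℂ)) (γ : (Fin k → ℂ) × (Fin m → ℂ) → (Fin m → ℂ)), IsOpen N ∧
        (∀ x ∈ Q, cplx x ∈ N) ∧ N ⊆ VA ∩ VB ∧
        DifferentiableOn ℂ γ (N ×ˢ ball (0 : Fin m → ℂ) (s1 / 4)) ∧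
        ∀ z ∈ N, ∀ t ∈ ball (0 : Fin m → ℂ) (s1 / 4), ‖γ (z, t) - t‖ < η ∧
          γ (z, t) ∈ ball (0 : Fin m → ℂ) s1 ∧ ΨB (z, γ (z, t)) = ΨA (z, t) := by
  classical
  set η' : ℝ := min (η / 4) (s1 / 32) with hη'def
  have hη' : 0 < η' := lt_min (by linarith) (by linarith)
  have hη1 : η' ≤ η / 4 := min_le_left _ _
  have hη2 : η' ≤ s1 / 32 := min_le_right _ _
  obtain ⟨κ1, hκ1, hco⟩ := fibre_coord hG hQ (subset_univ Q) hs1 hη'
  obtain ⟨κ2, hκ2, het⟩ := fibre_etale hG hQ (subset_univ Q) hs1 (s2 := s1 / 2) (by linarith)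
  refine ⟨min κ1 κ2, lt_min hκ1 hκ2, ?_⟩
  intro VA VB ΨA ΨB hVA hVB hΨA hΨB hV hd
  have hfA : ∀ x ∈ Q, HolOn m (fun t => ΨA (cplx x, t)) (ball (0 : Fin m → ℂ) s1) := by
    intro x hx
    exact hΨA.comp ((differentiableOn_const (cplx x)).prodMk differentiableOn_id)
      fun t ht => ⟨(hV x hx).1, ht⟩
  have hfB : ∀ x ∈ Q, HolOn m (fun t => ΨB (cplx x, t)) (ball (0 : Fin m → ℂ) s1) := by
    intro x hx
    exact hΨB.comp ((differentiableOn_const (cplx x)).prodMk differentiableOn_id)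
      fun t ht => ⟨(hV x hx).2, ht⟩
  have hfet : ∀ x ∈ Q, InjOn (fun t => ΨB (cplx x, t)) (ball (0 : Fin m → ℂ) (s1 / 2)) ∧
      ∀ u ∈ ball (0 : Fin m → ℂ) (s1 / 2), Function.Bijective
        (mfderiv 𝓘(ℂ, Fin m → ℂ) 𝓘(ℂ, Fin m → ℂ) (fun t => ΨB (cplx x, t)) u) := by
    intro x hx
    exact het x hx _ (hfB x hx) fun u hu => ((hd x hx u hu).2).trans_le (min_le_right _ _)
  obtain ⟨V', hV'o, hKV', hV'V, hV'et⟩ := etHol_open_of_fib (Φ := ΨB) (K := cplx '' Q) hVB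
    (by rintro _ ⟨x, hx, rfl⟩; exact (hV x hx).2) (s := s1 / 2) (s' := 3 * s1 / 8) (by linarith)
    (hΨB.mono (prod_mono subset_rfl (ball_subset_ball (by linarith))))
    (by rintro _ ⟨x, hx, rfl⟩; exact (hfet x hx).1)
    (by rintro _ ⟨x, hx, rfl⟩; exact (hfet x hx).2)
  -- coordinates over real points
  have hreal : ∀ x ∈ Q, ∀ t ∈ closedBall (0 : Fin m → ℂ) (s1 / 4),
      ∃ u ∈ ball (0 : Fin m → ℂ) (3 * s1 / 8), ‖u - t‖ < η ∧ ΨB (cplx x, u) = ΨA (cplx x, t) := by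
    intro x hx t ht
    rw [mem_closedBall_zero_iff] at ht
    obtain ⟨vA, hvA, hvA'⟩ := hco x hx _ (hfA x hx) fun u hu =>
      ((hd x hx u hu).1).trans_le (min_le_left _ _)
    obtain ⟨vB, hvB, hvB'⟩ := hco x hx _ (hfB x hx) fun u hu =>
      ((hd x hx u hu).2).trans_le (min_le_left _ _)
    have ht1 : t ∈ ball (0 : Fin m → ℂ) s1 := by
      rw [mem_ball_zero_iff]; linarith
    obtain ⟨ha1, ha2, ha3⟩ := hvA' t ht1
    have hw : vA t ∈ ball (0 : Fin m → ℂ) (s1 / 2) := by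
      rw [mem_ball_zero_iff]
      have : ‖vA t‖ ≤ ‖vA t - t‖ + ‖t‖ := by
        simpa using norm_add_le (vA t - t) t
      linarith
    obtain ⟨u, hu, hu1, hu2⟩ := (near_id_ball (s := s1 / 2) (r := s1) (δ := η') (by linarith)
      hη'.le (by linarith) hvB (fun z hz => (hvB' z hz).2.1.le)).2.2 (vA t) hw
    have hut : ‖u - t‖ ≤ 2 * η' := by
      have : ‖u - t‖ ≤ ‖u - vA t‖ + ‖vA t - t‖ := by
        simpa using norm_add_le (u - vA t) (vA t - t)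
      linarith
    refine ⟨u, ?_, by linarith, ?_⟩
    · rw [mem_ball_zero_iff]
      have : ‖u‖ ≤ ‖u - t‖ + ‖t‖ := by
        simpa using norm_add_le (u - t) t
      linarith
    · rw [← (hvB' u hu).2.2, hu1, ha3]
  -- the open set of points with coordinates
  set W : Set ((Fin k → ℂ) × (Fin m → ℂ)) := (V' ∩ VA) ×ˢ ball (0 : Fin m → ℂ) s1 with hW
  have hWo : IsOpen W := (hV'o.inter hVA).prod isOpen_ball
  have hAW : HolOn m ΨA W := hΨA.mono (prod_mono inter_subset_right subset_rfl)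
  set O : Set ((Fin k → ℂ) × (Fin m → ℂ)) :=
    {w | w ∈ W ∧ ∃ u ∈ ball (0 : Fin m → ℂ) (3 * s1 / 8), ΨB (w.1, u) = ΨA w} with hO
  have hOo : IsOpen O := hV'et.toEtCont.isOpen_coord hWo (a := Prod.fst) (g := ΨA)
    continuousOn_fst hAW.continuousOn fun q hq => hq.1.1
  have hch : ∀ w ∈ O, ∃ u ∈ ball (0 : Fin m → ℂ) (3 * s1 / 8), ΨB (w.1, u) = ΨA w :=
    fun w hw => hw.2
  choose! γ hγ1 hγ2 using hch
  have hγd : DifferentiableOn ℂ γ O :=
    hV'et.coord_hol hV'o (a := Prod.fst) hOo differentiableOn_fst (hAW.mono fun w hw => hw.1)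
      (fun w hw => hw.1.1.1) hγ1 hγ2
  set O' : Set ((Fin k → ℂ) × (Fin m → ℂ)) := O ∩ (fun q => ‖γ q - q.2‖) ⁻¹' Iio η with hO'
  have hO'o : IsOpen O' :=
    ((hγd.continuousOn.sub continuousOn_snd).norm).isOpen_inter_preimage hOo isOpen_Iio
  have hsub : (cplx '' Q) ×ˢ closedBall (0 : Fin m → ℂ) (s1 / 4) ⊆ O' := by
    rintro ⟨z, t⟩ ⟨⟨x, hx, hxz⟩, ht⟩
    simp only at hxz ht
    subst hxz
    obtain ⟨u, hu1, hu2, hu3⟩ := hreal x hx t ht
    have htO : (cplx x, t) ∈ O := by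
      refine ⟨⟨⟨hKV' ⟨x, hx, rfl⟩, (hV x hx).1⟩, ?_⟩, u, hu1, hu3⟩
      rw [mem_closedBall_zero_iff] at ht
      show t ∈ ball (0 : Fin m → ℂ) s1
      rw [mem_ball_zero_iff]
      linarith
    refine ⟨htO, ?_⟩
    have he : γ (cplx x, t) = u := by
      refine hV'et.inj (cplx x) (hKV' ⟨x, hx, rfl⟩) (hγ1 _ htO) hu1 ?_
      show ΨB (cplx x, γ (cplx x, t)) = ΨB (cplx x, u)
      rw [hu3]
      exact hγ2 _ htO
    show ‖γ (cplx x, t) - t‖ < η
    rw [he]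
    exact hu2
  obtain ⟨N, N2, hNo, -, hN1, hN2, hNN⟩ := generalized_tube_lemma (hQ.image continuous_cplx)
    (isCompact_closedBall (0 : Fin m → ℂ) (s1 / 4)) hO'o hsub
  have hin : ∀ z ∈ N, ∀ t ∈ ball (0 : Fin m → ℂ) (s1 / 4), (z, t) ∈ O' := fun z hz t ht =>
    hNN ⟨hz, hN2 (ball_subset_closedBall ht)⟩
  refine ⟨N, γ, hNo, fun x hx => hN1 ⟨x, hx, rfl⟩, ?_, ?_, ?_⟩
  · intro z hz
    have h0 := hin z hz 0 (mem_ball_self (by linarith))
    exact ⟨h0.1.1.1.2, hV'V h0.1.1.1.1⟩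
  · exact hγd.mono fun q hq => (hin q.1 hq.1 q.2 hq.2).1
  · intro z hz t ht
    have h0 := hin z hz t ht
    exact ⟨h0.2, ball_subset_ball (by linarith) (hγ1 _ h0.1), hγ2 _ h0.1⟩

end OkaP
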