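import Pool.Agent.H.MP_ceb9a9.W0Defs
import Pool.Agent.H.MP_ceb9a9.W0Compare
import Pool.Agent.H.MP_ceb9a9.NgBox

/-!
# MP_ceb9a9: W_0, merging two boxes with a common face

Proof.  `W0P.small` for both boxes `QA = [a, b with b i := c]`, `QB = [a with a i := c, b]`: common `δ ≤ 1`, common
`s1 < r` (decrease).  Put `δ' = δ / 2`, and the claim is proved with `δ'` and `s' = s1 / 8`.

Splitting of `ℂ^k`: the linear equivalence `Λ : (Fin k → ℂ) ≃L[ℂ] ℂ × ({j // j ≠ i} → ℂ)`, `Λ z = (z i, z restricted)`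
(build it from `Equiv.funSplitAt`/`Homeomorph.funSplitAt i ℂ`, it is linear).

`ng_box (Fin m → ℂ) (c - δ') (c + δ') 1 (s1 / 4)` gives `ε₀, C`.

Let `κ > 0`.  Let `Q = Icc (a - δ) (b + δ)` (compact box) and `Qc = {x ∈ Q | |x i - c| ≤ δ'}` (compact).
`G` is uniformly continuous near `Q ×ˢ closedBall 0 (s1 / 2)`: there is `κ1 ∈ (0, s1 / 16)` with
`dist (G (x, t)) (G (x, w)) < κ / 2` for `x ∈ Q`, `t ∈ closedBall 0 (s1 / 8)`, `‖w - t‖ < κ1`.
Let `η = min (ε₀) (κ1 / (2 C))` (`C > 0`) and let `κ2` be the constant of `w0_compare` for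
`Qc`, `s1`, `η`.  Take `ΨA` on `VA`, `ΨB` on `VB` for the two boxes with error `κ3 = min κ2 (κ / 2)`, `δ`, `s1`
(`Qc` is contained in both enlarged boxes, because `δ' ≤ δ` and `c ∈ Icc (a i) (b i)`).
`w0_compare` gives `N ⊇ cplx '' Qc` open and `γ` on `N ×ˢ ball 0 (s1 / 4)` with `‖γ - t‖ < η`, `ΨB (z, γ (z, t)) = ΨA (z, t)`.

Choice of the complex boxes: for `h > 0` let `W_h = {w : {j // j ≠ i} → ℂ | ∀ j, a j - δ' - h < re (w j) < b j + δ' + h,
|im (w j)| < h}`.  By compactness there is `h ∈ (0, min (1) (δ'/2))` such that, with `Λ` understood,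
 * `{z | |re (z i) - c| < δ', |im (z i)| < h, z' ∈ W_h} ⊆ N` (the compact set
   `{cplx x : |x i - c| ≤ δ', a j - δ' ≤ x j ≤ b j + δ' for j ≠ i} ⊆ N` has an `h`-neighbourhood in `N`),
 * `{z | a i - δ' - h < re (z i) < c + δ', |im (z i)| < h, z' ∈ W_h} ⊆ VA`, `{z | c - δ' < re (z i) < b i + δ' + h, ...} ⊆ VB`
   similarly.
Apply the conclusion of `ng_box` with `E' = {j // j ≠ i} → ℂ`, `W = W_h`, `b = h`, the transported
`γ' ((ζ, w), t) = γ (Λ.symm (ζ, w), t)`, `ε = η`: get `α` on `(SL (c + δ') h ×ˢ W_h) ×ˢ ball 0 (s1 / 8)` and `β` on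
`(SR (c - δ') h ×ˢ W_h) ×ˢ ball 0 (s1 / 8)` with `‖α - t‖, ‖β - t‖ ≤ C η ≤ κ1 / 2` and `γ' (z, α (z, t)) = β (z, t)`
on the slab.  Define (through `Λ`)
 `Ψ (z, t) = ΨA (z, α (Λ z, t))` for `z ∈ OA = {a i - δ' - h < re (z i) < c + δ', |im (z i)| < h, z' ∈ W_h}`,
 `Ψ (z, t) = ΨB (z, β (Λ z, t))` for `z ∈ OB = {c - δ' < re (z i) < b i + δ' + h, ...}`.
Both are holomorphic on `OA ×ˢ ball 0 (s1 / 8)`, `OB ×ˢ ball 0 (s1 / 8)` (`‖α‖ ≤ s1 / 8 + κ1 < s1`), and on the
intersection `ΨB (z, β) = ΨB (z, γ (z, α)) = ΨA (z, α)` (`‖α‖ < s1 / 8 + κ1 / 2 < s1 / 4`), so they glue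
(`HolOn.glue`) to `Ψ` on `V = OA ∪ OB` which contains `cplx x` for every `x` in `Icc (a - δ') (b + δ')`.
Closeness: for real `x` in `OA`, `dist (ΨA (x, α)) (G (x, t)) ≤ dist (ΨA (x, α)) (G (x, α)) + dist (G (x, α)) (G (x, t)) <
κ / 2 + κ / 2`; same for `B`.
-/

set_option autoImplicit false
open Set Metric Filter
open scoped Topology Manifold

noncomputable section
namespace OkaP

variable {m : ℕ} {X : Type} [MetricSpace X] [ChartedSpace (Fin m → ℂ) X]
  [IsManifold 𝓘(ℂ, Fin m → ℂ) ⊤ X]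

omit [IsManifold 𝓘(ℂ, Fin m → ℂ) ⊤ X] in
/-- a complex neighbourhood of a real box, in box form. -/
theorem W0Merge_box {k : ℕ} {lo hi : Fin k → ℝ} (hle : lo ≤ hi) {V : Set (Fin k → ℂ)}
    (hV : IsOpen V) (h : ∀ x ∈ Icc lo hi, cplx x ∈ V) : ∃ η > 0, ∀ z : Fin k → ℂ,
      (∀ j, (lo j - η < (z j).re ∧ (z j).re < hi j + η) ∧ |(z j).im| < η) → z ∈ V := by
  have hK : IsCompact (cplx '' Icc lo hi) := isCompact_Icc.image continuous_cplx
  have hsub : cplx '' Icc lo hi ⊆ V := by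
    rintro _ ⟨x, hx, rfl⟩
    exact h x hx
  obtain ⟨ε, hε, hth⟩ := hK.exists_thickening_subset_open hV hsub
  refine ⟨ε / 4, by positivity, fun z hz => hth ?_⟩
  rw [mem_thickening_iff]
  set x : Fin k → ℝ := fun j => max (lo j) (min (hi j) (z j).re) with hx
  refine ⟨cplx x, ⟨x, ⟨fun j => le_max_left _ _, fun j => max_le (hle j) (min_le_left _ _)⟩, rfl⟩, ?_⟩
  rw [dist_pi_lt_iff hε]
  intro j
  obtain ⟨⟨h1, h2⟩, h3⟩ := hz j
  have h4 : |(z j).re - x j| ≤ ε / 4 := by
    have hxj : x j = max (lo j) (min (hi j) (z j).re) := rfl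
    rw [hxj, abs_le]
    have h5 := hle j
    rcases le_total (hi j) (z j).re with h6 | h6
    · rw [min_eq_left h6, max_eq_right h5]
      constructor <;> linarith
    · rw [min_eq_right h6]
      rcases le_total (lo j) (z j).re with h7 | h7
      · rw [max_eq_right h7]
        constructor <;> linarith
      · rw [max_eq_left h7]
        constructor <;> linarith
  rw [dist_eq_norm]
  have h5 := Complex.norm_le_abs_re_add_abs_im (z j - cplx x j)
  have h6 : (z j - cplx x j).re = (z j).re - x j := by simp [cplx]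
  have h7 : (z j - cplx x j).im = (z j).im := by simp [cplx]
  rw [h6, h7] at h5
  linarith

/-- the box in the remaining coordinates. -/
def W0Merge_W {k : ℕ} (i : Fin k) (lo hi : Fin k → ℝ) (h : ℝ) : Set ({j : Fin k // j ≠ i} → ℂ) :=
  {w | ∀ j : {j : Fin k // j ≠ i}, (lo j - h < (w j).re ∧ (w j).re < hi j + h) ∧ |(w j).im| < h}

theorem W0Merge_W_open {k : ℕ} (i : Fin k) (lo hi : Fin k → ℝ) (h : ℝ) :
    IsOpen (W0Merge_W i lo hi h) := by
  have h1 : W0Merge_W i lo hi h = ⋂ j : {j : Fin k // j ≠ i}, {w : {j : Fin k // j ≠ i} → ℂ |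
      (lo j - h < (w j).re ∧ (w j).re < hi j + h) ∧ |(w j).im| < h} := by
    ext w
    simp only [W0Merge_W, Set.mem_ofPred_eq, mem_iInter]
  rw [h1]
  refine isOpen_iInter_of_finite fun j => ?_
  have c1 : Continuous fun w : {j : Fin k // j ≠ i} → ℂ => (w j).re :=
    Complex.continuous_re.comp (continuous_apply j)
  have c2 : Continuous fun w : {j : Fin k // j ≠ i} → ℂ => |(w j).im| :=
    (Complex.continuous_im.comp (continuous_apply j)).abs
  exact ((isOpen_lt continuous_const c1).inter (isOpen_lt c1 continuous_const)).inter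
    (isOpen_lt c2 continuous_const)

/-- putting back the coordinate `i`. -/
def W0Merge_put {k : ℕ} (i : Fin k) (p : ℂ × ({j : Fin k // j ≠ i} → ℂ)) : Fin k → ℂ :=
  fun j => if h : j = i then p.1 else p.2 ⟨j, h⟩

/-- separating the coordinate `i`. -/
def W0Merge_sep {k : ℕ} (i : Fin k) (z : Fin k → ℂ) : ℂ × ({j : Fin k // j ≠ i} → ℂ) :=
  (z i, fun j => z j)

theorem W0Merge_put_sep {k : ℕ} (i : Fin k) (z : Fin k → ℂ) :
    W0Merge_put i (W0Merge_sep i z) = z := by
  funext j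
  unfold W0Merge_put W0Merge_sep
  by_cases h : j = i
  · subst h; simp
  · simp [h]

theorem W0Merge_put_diff {k : ℕ} (i : Fin k) : Differentiable ℂ (W0Merge_put i) := by
  refine differentiable_pi.2 fun j => ?_
  unfold W0Merge_put
  by_cases h : j = i
  · simp only [h, dite_true]
    exact differentiable_fst
  · simp only [h, dite_false]
    have h1 : Differentiable ℂ
        (fun p : ℂ × ({j : Fin k // j ≠ i} → ℂ) => p.2 ⟨j, h⟩) := by fun_prop
    exact h1

theorem W0Merge_sep_diff {k : ℕ} (i : Fin k) : Differentiable ℂ (W0Merge_sep i) :=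
  (differentiable_apply (𝕜 := ℂ) i).prodMk
    (differentiable_pi.2 fun j => differentiable_apply (𝕜 := ℂ) (j : Fin k))

/-- merging two boxes along a common face. -/
theorem w0_merge {k : ℕ} {G : (Fin k → ℝ) × (Fin m → ℂ) → X} {r : ℝ} (hr : 0 < r)
    (hG : EtCont G univ r) {a b : Fin k → ℝ} (hab : a ≤ b) (i : Fin k) {c : ℝ}
    (hc : c ∈ Icc (a i) (b i)) (hA : W0P m G a (Function.update b i c))
    (hB : W0P m G (Function.update a i c) b) : W0P m G a b := by
  classical
  obtain ⟨δA, hδA, sA, hsA, HA⟩ := hA.small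
  obtain ⟨δB, hδB, sB, hsB, HB⟩ := hB.small
  set δ : ℝ := min δA δB with hδ
  have hδp : 0 < δ := lt_min hδA hδB
  set s1 : ℝ := min (min sA sB) (r / 2) with hs1
  have hs1p : 0 < s1 := lt_min (lt_min hsA hsB) (by positivity)
  have hs1A : s1 ≤ sA := (min_le_left _ _).trans (min_le_left _ _)
  have hs1B : s1 ≤ sB := (min_le_left _ _).trans (min_le_right _ _)
  have hs1r : s1 < r := lt_of_le_of_lt (min_le_right _ _) (by linarith)
  refine ⟨δ / 2, by positivity, s1 / 4 / 2, by positivity, fun κ hκ => ?_⟩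
  obtain ⟨ε₀, hε₀, C, hC, Hng⟩ := ng_box (Fin m → ℂ) (c - δ / 2) (c + δ / 2) 1 (s1 / 4)
    (by linarith) one_pos (by positivity)
  -- the compact boxes
  set Q : Set (Fin k → ℝ) := Icc (fun j => a j - δ) (fun j => b j + δ) with hQ
  have hQc : IsCompact Q := isCompact_Icc
  set Qc : Set (Fin k → ℝ) := Q ∩ {x | |x i - c| ≤ δ / 2} with hQcdef
  have hQcc : IsCompact Qc :=
    hQc.inter_right (isClosed_le (by fun_prop) continuous_const)
  -- uniform continuity
  obtain ⟨κ₁', hκ₁', hunif⟩ := map_near (isOpen_univ.prod isOpen_ball) hG.cont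
    (hQc.prod (isCompact_closedBall (0 : Fin m → ℂ) (s1 / 4 / 2)))
    (prod_mono (subset_univ _) (closedBall_subset_ball (by linarith))) (half_pos hκ)
  set κ₁ : ℝ := min κ₁' (s1 / 16) with hκ₁
  have hκ₁p : 0 < κ₁ := lt_min hκ₁' (by positivity)
  have hκ₁1 : κ₁ ≤ κ₁' := min_le_left _ _
  have hκ₁2 : κ₁ ≤ s1 / 16 := min_le_right _ _
  set η : ℝ := min ε₀ (κ₁ / (2 * C)) with hη
  have hηp : 0 < η := lt_min hε₀ (by positivity)
  have hηε : η ≤ ε₀ := min_le_left _ _
  have hCη : C * η ≤ κ₁ / 2 := by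
    have h1 : η ≤ κ₁ / (2 * C) := min_le_right _ _
    calc C * η ≤ C * (κ₁ / (2 * C)) := mul_le_mul_of_nonneg_left h1 hC.le
      _ = κ₁ / 2 := by field_simp
  obtain ⟨κ₂, hκ₂, Hcmp⟩ := w0_compare hG hQcc hs1p hs1r hηp
  set κ₃ : ℝ := min κ₂ (κ / 2) with hκ₃
  have hκ₃p : 0 < κ₃ := lt_min hκ₂ (by positivity)
  obtain ⟨VA, ΨA, hVA, hxA, hΨA, hdA⟩ := HA δ s1 κ₃ hδp (min_le_left _ _) hs1p hs1A hκ₃p
  obtain ⟨VB, ΨB, hVB, hxB, hΨB, hdB⟩ := HB δ s1 κ₃ hδp (min_le_right _ _) hs1p hs1B hκ₃p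
  -- membership in the enlarged boxes
  have memA : ∀ x : Fin k → ℝ, x ∈ Q → x i ≤ c + δ →
      x ∈ Icc (fun j => a j - δ) (fun j => Function.update b i c j + δ) := by
    intro x hx hxi
    refine ⟨hx.1, fun j => ?_⟩
    by_cases hj : j = i
    · subst hj; simpa using hxi
    · have h1 := hx.2 j
      simp only [Function.update_of_ne hj]
      exact h1
  have memB : ∀ x : Fin k → ℝ, x ∈ Q → c - δ ≤ x i →
      x ∈ Icc (fun j => Function.update a i c j - δ) (fun j => b j + δ) := by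
    intro x hx hxi
    refine ⟨fun j => ?_, hx.2⟩
    by_cases hj : j = i
    · subst hj; simpa using hxi
    · have h1 := hx.1 j
      simp only [Function.update_of_ne hj]
      exact h1
  have hQcA : ∀ x ∈ Qc, x ∈ Icc (fun j => a j - δ) (fun j => Function.update b i c j + δ) := by
    rintro x ⟨h1, h2⟩
    have h2' : |x i - c| ≤ δ / 2 := h2
    have h3 := abs_le.1 h2'
    exact memA x h1 (by linarith [h3.2])
  have hQcB : ∀ x ∈ Qc, x ∈ Icc (fun j => Function.update a i c j - δ) (fun j => b j + δ) := by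
    rintro x ⟨h1, h2⟩
    have h2' : |x i - c| ≤ δ / 2 := h2
    have h3 := abs_le.1 h2'
    exact memB x h1 (by linarith [h3.1])
  obtain ⟨N, γ, hN, hxN, hNV, hγ, hγ'⟩ := Hcmp VA VB ΨA ΨB hVA hVB hΨA hΨB
    (fun x hx => ⟨hxA x (hQcA x hx), hxB x (hQcB x hx)⟩)
    (fun x hx t ht => ⟨(hdA x (hQcA x hx) t ht).trans_le (min_le_left _ _),
      (hdB x (hQcB x hx) t ht).trans_le (min_le_left _ _)⟩)
  -- the size of the complex boxes
  have hsubQ : ∀ x : Fin k → ℝ, (∀ j, a j - δ / 2 ≤ x j) → (∀ j, x j ≤ b j + δ / 2) → x ∈ Q := by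
    intro x h1 h2
    refine ⟨fun j => ?_, fun j => ?_⟩
    · have := h1 j
      show a j - δ ≤ x j
      linarith
    · have := h2 j
      show x j ≤ b j + δ
      linarith
  obtain ⟨h₁, hh₁, HN⟩ := W0Merge_box (k := k)
    (lo := fun j => Function.update a i c j - δ / 2) (hi := fun j => Function.update b i c j + δ / 2)
    (by
      intro j
      by_cases hj : j = i
      · subst hj
        simp only [Function.update_self]
        linarith
      · simp only [Function.update_of_ne hj]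
        have := hab j
        linarith) hN (by
      rintro x ⟨hx1, hx2⟩
      apply hxN
      have h1 := hx1 i
      have h2 := hx2 i
      simp only [Function.update_self] at h1 h2
      refine ⟨hsubQ x (fun j => ?_) (fun j => ?_), ?_⟩
      · by_cases hj : j = i
        · subst hj
          have := hc.1
          linarith
        · have h3 := hx1 j
          simp only [Function.update_of_ne hj] at h3
          exact h3
      · by_cases hj : j = i
        · subst hj
          have := hc.2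
          linarith
        · have h3 := hx2 j
          simp only [Function.update_of_ne hj] at h3
          exact h3
      · rw [mem_setOf_eq, abs_le]
        constructor <;> linarith)
  obtain ⟨h₂, hh₂, HVA⟩ := W0Merge_box (k := k)
    (lo := fun j => a j - δ / 2) (hi := fun j => Function.update b i c j + δ / 2)
    (by
      intro j
      by_cases hj : j = i
      · subst hj
        simp only [Function.update_self]
        have := hc.1
        linarith
      · simp only [Function.update_of_ne hj]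
        have := hab j
        linarith) hVA (by
      rintro x ⟨hx1, hx2⟩
      apply hxA
      have h2 := hx2 i
      simp only [Function.update_self] at h2
      refine memA x (hsubQ x (fun j => hx1 j) (fun j => ?_)) (by linarith)
      by_cases hj : j = i
      · subst hj
        have := hc.2
        linarith
      · have h3 := hx2 j
        simp only [Function.update_of_ne hj] at h3
        exact h3)
  obtain ⟨h₃, hh₃, HVB⟩ := W0Merge_box (k := k)
    (lo := fun j => Function.update a i c j - δ / 2) (hi := fun j => b j + δ / 2)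
    (by
      intro j
      by_cases hj : j = i
      · subst hj
        simp only [Function.update_self]
        have := hc.2
        linarith
      · simp only [Function.update_of_ne hj]
        have := hab j
        linarith) hVB (by
      rintro x ⟨hx1, hx2⟩
      apply hxB
      have h2 := hx1 i
      simp only [Function.update_self] at h2
      refine memB x (hsubQ x (fun j => ?_) (fun j => hx2 j)) (by linarith)
      by_cases hj : j = i
      · subst hj
        have := hc.1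
        linarith
      · have h3 := hx1 j
        simp only [Function.update_of_ne hj] at h3
        exact h3)
  set h : ℝ := min (min h₁ h₂) (min h₃ 1) with hh
  have hhp : 0 < h := lt_min (lt_min hh₁ hh₂) (lt_min hh₃ one_pos)
  have hle1 : h ≤ h₁ := (min_le_left _ _).trans (min_le_left _ _)
  have hle2 : h ≤ h₂ := (min_le_left _ _).trans (min_le_right _ _)
  have hle3 : h ≤ h₃ := (min_le_right _ _).trans (min_le_left _ _)
  have hle4 : h ≤ 1 := (min_le_right _ _).trans (min_le_right _ _)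
  set W : Set ({j : Fin k // j ≠ i} → ℂ) :=
    W0Merge_W i (fun j => a j - δ / 2) (fun j => b j + δ / 2) h with hW
  have hWo : IsOpen W := W0Merge_W_open _ _ _ _
  -- the slab
  have hslab : ∀ z : Fin k → ℂ, (W0Merge_sep i z).1 ∈ SL (c + δ / 2) h ∩ SR (c - δ / 2) h →
      (W0Merge_sep i z).2 ∈ W → z ∈ N := by
    intro z hz1 hz2
    apply HN
    intro j
    by_cases hj : j = i
    · subst hj
      obtain ⟨⟨e1, e2⟩, ⟨e3, e4⟩⟩ := hz1
      simp only [Function.update_self]
      simp only [W0Merge_sep] at e1 e2 e3 e4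
      exact ⟨⟨by linarith, by linarith⟩, by linarith⟩
    · obtain ⟨⟨e1, e2⟩, e3⟩ := hz2 ⟨j, hj⟩
      simp only [Function.update_of_ne hj]
      simp only [W0Merge_sep] at e1 e2 e3
      exact ⟨⟨by linarith, by linarith⟩, by linarith⟩
  have hsep_put : ∀ p : ℂ × ({j : Fin k // j ≠ i} → ℂ), W0Merge_sep i (W0Merge_put i p) = p := by
    rintro ⟨ζ, w⟩
    unfold W0Merge_put W0Merge_sep
    refine Prod.ext (by simp) ?_
    funext j
    simp [j.2]
  -- splitting
  obtain ⟨α, β, hα, hβ, hαn, hβn, hαβ, -⟩ := Hng ({j : Fin k // j ≠ i} → ℂ) W h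
    (fun q => γ (W0Merge_put i q.1, q.2)) η hWo hhp hle4 hηp.le hηε
    (by
      refine hγ.comp ?_ ?_
      · exact (((W0Merge_put_diff i).comp differentiable_fst).prodMk
          differentiable_snd).differentiableOn
      · rintro ⟨p, t⟩ ⟨⟨hp1, hp2⟩, ht⟩
        refine ⟨hslab _ ?_ ?_, ht⟩
        · rw [hsep_put]; exact hp1
        · rw [hsep_put]; exact hp2)
    (by
      rintro p ⟨hp1, hp2⟩ t ht
      refine (hγ' _ (hslab _ ?_ ?_) t ht).1.le
      · rw [hsep_put]; exact hp1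
      · rw [hsep_put]; exact hp2)
  -- the two open boxes
  set OA : Set (Fin k → ℂ) := {z | (W0Merge_sep i z) ∈ SL (c + δ / 2) h ×ˢ W ∧
    a i - δ / 2 - h < (z i).re} with hOA
  set OB : Set (Fin k → ℂ) := {z | (W0Merge_sep i z) ∈ SR (c - δ / 2) h ×ˢ W ∧
    (z i).re < b i + δ / 2 + h} with hOB
  have hsc : Continuous (W0Merge_sep i) := (W0Merge_sep_diff i).continuous
  have hrec : Continuous fun z : Fin k → ℂ => (z i).re :=
    Complex.continuous_re.comp (continuous_apply i)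
  have hOAo : IsOpen OA :=
    (((isOpen_SL _ _).prod hWo).preimage hsc).inter (isOpen_lt continuous_const hrec)
  have hOBo : IsOpen OB :=
    (((isOpen_SR _ _).prod hWo).preimage hsc).inter (isOpen_lt hrec continuous_const)
  have hOAV : OA ⊆ VA := by
    rintro z ⟨⟨⟨e1, e2⟩, e3⟩, e4⟩
    apply HVA
    intro j
    by_cases hj : j = i
    · subst hj
      simp only [Function.update_self]
      simp only [W0Merge_sep] at e1 e2
      exact ⟨⟨by linarith, by linarith⟩, by linarith⟩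
    · obtain ⟨⟨e5, e6⟩, e7⟩ := e3 ⟨j, hj⟩
      simp only [Function.update_of_ne hj]
      simp only [W0Merge_sep] at e5 e6 e7
      exact ⟨⟨by linarith, by linarith⟩, by linarith⟩
  have hOBV : OB ⊆ VB := by
    rintro z ⟨⟨⟨e1, e2⟩, e3⟩, e4⟩
    apply HVB
    intro j
    by_cases hj : j = i
    · subst hj
      simp only [Function.update_self]
      simp only [W0Merge_sep] at e1 e2
      exact ⟨⟨by linarith, by linarith⟩, by linarith⟩
    · obtain ⟨⟨e5, e6⟩, e7⟩ := e3 ⟨j, hj⟩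
      simp only [Function.update_of_ne hj]
      simp only [W0Merge_sep] at e5 e6 e7
      exact ⟨⟨by linarith, by linarith⟩, by linarith⟩
  have hαball : ∀ z ∈ OA, ∀ t ∈ ball (0 : Fin m → ℂ) (s1 / 4 / 2),
      ‖α (W0Merge_sep i z, t) - t‖ < κ₁ ∧ α (W0Merge_sep i z, t) ∈ ball (0 : Fin m → ℂ) (s1 / 4) := by
    intro z hz t ht
    have e1 := hαn _ hz.1 t ht
    have e2 : ‖α (W0Merge_sep i z, t)‖ ≤ ‖α (W0Merge_sep i z, t) - t‖ + ‖t‖ := by
      calc ‖α (W0Merge_sep i z, t)‖ = ‖(α (W0Merge_sep i z, t) - t) + t‖ := by rw [sub_add_cancel]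
        _ ≤ _ := norm_add_le _ _
    rw [mem_ball_zero_iff] at ht ⊢
    exact ⟨by linarith, by linarith⟩
  have hβball : ∀ z ∈ OB, ∀ t ∈ ball (0 : Fin m → ℂ) (s1 / 4 / 2),
      ‖β (W0Merge_sep i z, t) - t‖ < κ₁ ∧ β (W0Merge_sep i z, t) ∈ ball (0 : Fin m → ℂ) (s1 / 4) := by
    intro z hz t ht
    have e1 := hβn _ hz.1 t ht
    have e2 : ‖β (W0Merge_sep i z, t)‖ ≤ ‖β (W0Merge_sep i z, t) - t‖ + ‖t‖ := by
      calc ‖β (W0Merge_sep i z, t)‖ = ‖(β (W0Merge_sep i z, t) - t) + t‖ := by rw [sub_add_cancel]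
        _ ≤ _ := norm_add_le _ _
    rw [mem_ball_zero_iff] at ht ⊢
    exact ⟨by linarith, by linarith⟩
  have hb4 : ball (0 : Fin m → ℂ) (s1 / 4) ⊆ ball (0 : Fin m → ℂ) s1 :=
    ball_subset_ball (by linarith)
  have hsd : Differentiable ℂ fun q : (Fin k → ℂ) × (Fin m → ℂ) => (W0Merge_sep i q.1, q.2) :=
    ((W0Merge_sep_diff i).comp differentiable_fst).prodMk differentiable_snd
  have hfA : HolOn m (fun q : (Fin k → ℂ) × (Fin m → ℂ) => ΨA (q.1, α (W0Merge_sep i q.1, q.2)))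
      (OA ×ˢ ball (0 : Fin m → ℂ) (s1 / 4 / 2)) := by
    refine HolOn.comp (g := fun q : (Fin k → ℂ) × (Fin m → ℂ) =>
      (q.1, α (W0Merge_sep i q.1, q.2))) hΨA ?_ ?_
    · refine differentiableOn_fst.prodMk (hα.comp hsd.differentiableOn ?_)
      rintro ⟨z, t⟩ ⟨hz, ht⟩
      exact ⟨hz.1, ht⟩
    · rintro ⟨z, t⟩ ⟨hz, ht⟩
      exact ⟨hOAV hz, hb4 (hαball z hz t ht).2⟩
  have hfB : HolOn m (fun q : (Fin k → ℂ) × (Fin m → ℂ) => ΨB (q.1, β (W0Merge_sep i q.1, q.2)))
      (OB ×ˢ ball (0 : Fin m → ℂ) (s1 / 4 / 2)) := by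
    refine HolOn.comp (g := fun q : (Fin k → ℂ) × (Fin m → ℂ) =>
      (q.1, β (W0Merge_sep i q.1, q.2))) hΨB ?_ ?_
    · refine differentiableOn_fst.prodMk (hβ.comp hsd.differentiableOn ?_)
      rintro ⟨z, t⟩ ⟨hz, ht⟩
      exact ⟨hz.1, ht⟩
    · rintro ⟨z, t⟩ ⟨hz, ht⟩
      exact ⟨hOBV hz, hb4 (hβball z hz t ht).2⟩
  obtain ⟨Ψ, hΨ, hΨ1, hΨ2⟩ := HolOn.glue (hOAo.prod isOpen_ball) (hOBo.prod isOpen_ball) hfA hfB
    (by
      rintro ⟨z, t⟩ ⟨⟨hz1, ht⟩, ⟨hz2, -⟩⟩
      have hzS : W0Merge_sep i z ∈ (SL (c + δ / 2) h ∩ SR (c - δ / 2) h) ×ˢ W :=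
        ⟨⟨hz1.1.1, hz2.1.1⟩, hz1.1.2⟩
      have e1 := hαβ _ hzS t ht
      simp only at e1
      rw [W0Merge_put_sep] at e1
      have e2 := (hγ' z (hslab z hzS.1 hzS.2) _ (hαball z hz1 t ht).2).2.2
      rw [e1] at e2
      exact e2.symm)
  have hW' : ∀ x : Fin k → ℝ, x ∈ Icc (fun j => a j - δ / 2) (fun j => b j + δ / 2) →
      (W0Merge_sep i (cplx x)).2 ∈ W := by
    intro x hx j
    have e1 := hx.1 j
    have e2 := hx.2 j
    simp only at e1 e2
    simp only [W0Merge_sep, cplx_apply, Complex.ofReal_re, Complex.ofReal_im, abs_zero]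
    exact ⟨⟨by linarith, by linarith⟩, hhp⟩
  have hcase : ∀ x : Fin k → ℝ, x ∈ Icc (fun j => a j - δ / 2) (fun j => b j + δ / 2) →
      (cplx x ∈ OA ∧ x i < c + δ / 2) ∨ (cplx x ∈ OB ∧ c - δ / 2 < x i) := by
    intro x hx
    have e1 := hx.1 i
    have e2 := hx.2 i
    simp only at e1 e2
    rcases lt_or_ge (x i) (c + δ / 2) with h1 | h1
    · left
      refine ⟨⟨⟨⟨?_, ?_⟩, hW' x hx⟩, ?_⟩, h1⟩
      · simpa [W0Merge_sep, cplx_apply] using h1
      · simpa [W0Merge_sep, cplx_apply] using hhp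
      · rw [cplx_apply, Complex.ofReal_re]
        linarith
    · right
      refine ⟨⟨⟨⟨?_, ?_⟩, hW' x hx⟩, ?_⟩, by linarith⟩
      · simp only [W0Merge_sep, cplx_apply, Complex.ofReal_re]
        linarith
      · simpa [W0Merge_sep, cplx_apply] using hhp
      · rw [cplx_apply, Complex.ofReal_re]
        linarith
  refine ⟨OA ∪ OB, Ψ, hOAo.union hOBo, fun x hx => ?_, ?_, fun x hx t ht => ?_⟩
  · rcases hcase x hx with h1 | h1
    · exact Or.inl h1.1
    · exact Or.inr h1.1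
  · rw [union_prod]
    exact hΨ
  · have hxQ : x ∈ Q := hsubQ x (fun j => hx.1 j) (fun j => hx.2 j)
    have hclose : ∀ v : Fin m → ℂ, ‖v - t‖ < κ₁ → dist (G (x, v)) (G (x, t)) < κ / 2 := by
      intro v hv
      have e1 : (x, t) ∈ Q ×ˢ closedBall (0 : Fin m → ℂ) (s1 / 4 / 2) := ⟨hxQ, ball_subset_closedBall ht⟩
      have e2 : dist (x, t) (x, v) < κ₁' := by
        rw [Prod.dist_eq, dist_self, dist_comm, dist_eq_norm]
        exact max_lt hκ₁' (lt_of_lt_of_le hv hκ₁1)
      have e3 := (hunif _ e1 _ e2).2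
      rw [dist_comm]
      exact e3
    rcases hcase x hx with ⟨h1, h2⟩ | ⟨h1, h2⟩
    · rw [hΨ1 _ ⟨h1, ht⟩]
      obtain ⟨e1, e2⟩ := hαball _ h1 t ht
      have e3 := hdA x (memA x hxQ (by linarith)) _ (hb4 e2)
      have e4 := hclose _ e1
      have e5 : κ₃ ≤ κ / 2 := min_le_right _ _
      calc _ ≤ _ := dist_triangle _ _ _
        _ < κ / 2 + κ / 2 := add_lt_add (lt_of_lt_of_le e3 e5) e4
        _ = κ := by ring
    · rw [hΨ2 _ ⟨h1, ht⟩]
      obtain ⟨e1, e2⟩ := hβball _ h1 t ht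
      have e3 := hdB x (memB x hxQ (by linarith)) _ (hb4 e2)
      have e4 := hclose _ e1
      have e5 : κ₃ ≤ κ / 2 := min_le_right _ _
      calc _ ≤ _ := dist_triangle _ _ _
        _ < κ / 2 + κ / 2 := add_lt_add (lt_of_lt_of_le e3 e5) e4
        _ = κ := by ring

end OkaP
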