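import Pool.Agent.H.MP_ceb9a9.W0Local
import Pool.Agent.H.MP_ceb9a9.W0Merge
import Pool.Agent.H.MP_ceb9a9.BoxBisect

/-!
# MP_ceb9a9: W_0: a continuous etale family over a real box is approximated by a holomorphic one

Proof.  `box_bisect` with `P = W0P m G` (local statement `w0_local`, merging `w0_merge`) gives `W0P m G a b`, i.e.
`δ, s0 > 0` such that for all `κ` there is `Ψ` holomorphic near the (enlarged) box times `ball 0 s0` and `κ`-close to `G`.
Decrease `s0` to `s1 < r` (`W0P.small`).  Let `s = s1 / 4`.  `fibre_etale` for `Q = Icc a b`, radii `s1 / 2 < s1` gives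
`κ0`.  For `κ > 0` take `Ψ` for `min κ κ0`: over real points of the box `Ψ (x, ·)` is injective with bijective derivative
on `ball 0 (s1 / 2)`, hence by `etHol_open_of_fib` `EtHol Ψ V' (s1 / 4)` for some open `V' ⊇ cplx '' Icc a b`.
-/

set_option autoImplicit false
open Set Metric Filter
open scoped Topology Manifold

noncomputable section
namespace OkaP

variable {m : ℕ} {X : Type} [MetricSpace X] [ChartedSpace (Fin m → ℂ) X]
  [IsManifold 𝓘(ℂ, Fin m → ℂ) ⊤ X]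

/-- W_0 -/
theorem w0_box {k : ℕ} {G : (Fin k → ℝ) × (Fin m → ℂ) → X} {r : ℝ} (hr : 0 < r)
    (hG : EtCont G univ r) {a b : Fin k → ℝ} (hab : a ≤ b) :
    ∃ s > 0, s < r ∧ ∀ κ > 0, ∃ (V : Set (Fin k → ℂ)) (Ψ : (Fin k → ℂ) × (Fin m → ℂ) → X),
      IsOpen V ∧ (∀ x ∈ Icc a b, cplx x ∈ V) ∧ EtHol Ψ V s ∧
      ∀ x ∈ Icc a b, ∀ t ∈ ball (0 : Fin m → ℂ) s, dist (Ψ (cplx x, t)) (G (x, t)) < κ := by
  have hP : W0P m G a b := by
    refine box_bisect (W0P m G) a b hab ?_ ?_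
    · intro z _
      obtain ⟨ε, hε, h⟩ := w0_local hr hG z
      exact ⟨ε, hε, fun a' b' hab' _ hb => h a' b' hab' hb⟩
    · intro a' b' hab' _ i c hc hA hB
      exact w0_merge hr hG hab' i hc hA hB
  obtain ⟨δ0, hδ0, s0, hs0, H⟩ := hP.small
  obtain ⟨s1, hs1, hs1s, hs1r⟩ : ∃ s1 : ℝ, 0 < s1 ∧ s1 ≤ s0 ∧ s1 < r :=
    ⟨min s0 (r / 2), by positivity, min_le_left _ _, (min_le_right _ _).trans_lt (by linarith)⟩
  obtain ⟨κ0, hκ0, hfe⟩ := fibre_etale hG (isCompact_Icc (a := a) (b := b)) (subset_univ _)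
    hs1r (s2 := s1 / 2) (by linarith)
  refine ⟨s1 / 4, by positivity, by linarith, fun κ hκ => ?_⟩
  obtain ⟨V, Ψ, hV, hxV, hΨ, hd⟩ := H δ0 s1 (min κ κ0) hδ0 le_rfl hs1 hs1s (lt_min hκ hκ0)
  have hsub : Icc a b ⊆ Icc (fun i => a i - δ0) (fun i => b i + δ0) :=
    Icc_subset_Icc (fun i => by dsimp only; linarith) (fun i => by dsimp only; linarith)
  have hfib : ∀ z ∈ V, HolOn m (fun u => Ψ (z, u)) (ball (0 : Fin m → ℂ) s1) := by
    intro z hz
    refine HolOn.comp (g := fun u : Fin m → ℂ => (z, u)) hΨ ?_ ?_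
    · intro u _
      exact (hasFDerivAt_prodMk_right (𝕜 := ℂ) z u).differentiableAt.differentiableWithinAt
    · intro u hu
      exact ⟨hz, hu⟩
  have het : ∀ x ∈ Icc a b, InjOn (fun u => Ψ (cplx x, u)) (ball (0 : Fin m → ℂ) (s1 / 2)) ∧
      ∀ u ∈ ball (0 : Fin m → ℂ) (s1 / 2), Function.Bijective
        (mfderiv 𝓘(ℂ, Fin m → ℂ) 𝓘(ℂ, Fin m → ℂ) (fun u => Ψ (cplx x, u)) u) := by
    intro x hx
    exact hfe x hx (fun u => Ψ (cplx x, u)) (hfib _ (hxV x (hsub hx)))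
      (fun u hu => (hd x (hsub hx) u hu).trans_le (min_le_right _ _))
  obtain ⟨V', hV', hKV', hV'V, hE⟩ := etHol_open_of_fib (Φ := Ψ) (V := V) (K := cplx '' Icc a b) hV
    (by
      rintro _ ⟨x, hx, rfl⟩
      exact hxV x (hsub hx)) (s := s1 / 2) (s' := s1 / 4) (by linarith)
    (hΨ.mono (prod_mono Subset.rfl (ball_subset_ball (by linarith))))
    (by
      rintro _ ⟨x, hx, rfl⟩
      exact (het x hx).1)
    (by
      rintro _ ⟨x, hx, rfl⟩
      exact (het x hx).2)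
  refine ⟨V', Ψ, hV', fun x hx => hKV' (mem_image_of_mem _ hx), hE, fun x hx t ht => ?_⟩
  exact (hd x (hsub hx) t (ball_subset_ball (by linarith) ht)).trans_le (min_le_left _ _)

end OkaP
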