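import Pool.Agent.H.MP_ceb9a9.NeckCoord
import Pool.Agent.H.MP_ceb9a9.W0
import Pool.Agent.H.MP_ceb9a9.EtA

/-!
# MP_ceb9a9: W_0 for a ball of `ℂ^n` seen as the totally real set `{(z, conj z)}` of `ℂ^n × ℂ^n`

Proof.  If `R1 < 0` the closed ball is empty: take `s = r / 2`, `V = ∅`, any `Ψ` (the empty `EtHol` is trivial).
Otherwise let `cl : E → E` be the radial retraction onto `closedBall 0 R1` (continuous:
`cl z = z` if `‖z‖ ≤ R1`, else `(R1 / ‖z‖) • z`; e.g. `cl z = (min 1 (R1 / ‖z‖)) • z`, or use the projection on a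
closed convex set, or `(max 1 (‖z‖ / R1))⁻¹ • z` when `R1 > 0`; for `R1 = 0` the constant `0`).
`G' (x, t) = G (cl (ofRe x), t)` satisfies `EtCont G' univ r` (`EtCont.pullback`).
Apply `w0_box` with `k = n + n` and the box `a = fun _ => -R1`, `b = fun _ => R1` (it contains `toRe z` for `‖z‖ ≤ R1`,
because `|re (z i)|, |im (z i)| ≤ ‖z i‖ ≤ ‖z‖`): `s`, and for `κ` a family `Ψ0` on `V0`.  Put `V = lamE ⁻¹' V0` (open),
`Ψ (Z, t) = Ψ0 (lamE Z, t)` (`EtHol.pullback`).  For `‖z‖ ≤ R1`: `lamE (z, conjE z) = cplx (toRe z) ∈ V0` and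
`G' (toRe z, t) = G (z, t)`.
-/

set_option autoImplicit false
open Set Metric Filter
open scoped Topology Manifold

noncomputable section
namespace OkaP

variable {m : ℕ} {X : Type} [MetricSpace X] [ChartedSpace (Fin m → ℂ) X]
  [IsManifold 𝓘(ℂ, Fin m → ℂ) ⊤ X]

/-- the radial retraction onto a closed ball -/
private theorem w0Ball_retr {F : Type} [NormedAddCommGroup F] [NormedSpace ℝ F] {R1 : ℝ}
    (hR : 0 ≤ R1) : ∃ cl : F → F, Continuous cl ∧ (∀ z, ‖cl z‖ ≤ R1) ∧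
      ∀ z, ‖z‖ ≤ R1 → cl z = z := by
  rcases hR.eq_or_lt with h0 | hpos
  · refine ⟨fun _ => 0, continuous_const, fun z => ?_, fun z hz => ?_⟩
    · rw [norm_zero]
      exact hR
    · rw [← h0] at hz
      exact (norm_le_zero_iff.1 hz).symm
  · refine ⟨fun z => (max 1 (‖z‖ / R1))⁻¹ • z, ?_, fun z => ?_, fun z hz => ?_⟩
    · refine Continuous.smul (Continuous.inv₀ ?_ fun z => ?_) continuous_id
      · exact continuous_const.max (continuous_norm.div_const _)
      · exact (lt_of_lt_of_le one_pos (le_max_left _ _)).ne'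
    · have h1 : 0 < max 1 (‖z‖ / R1) := lt_of_lt_of_le one_pos (le_max_left _ _)
      rw [norm_smul, norm_inv, Real.norm_of_nonneg h1.le, inv_mul_le_iff₀ h1]
      have h2 : ‖z‖ / R1 ≤ max 1 (‖z‖ / R1) := le_max_right _ _
      rwa [div_le_iff₀ hpos] at h2
    · have h1 : max 1 (‖z‖ / R1) = 1 := by
        refine max_eq_left ?_
        rw [div_le_one hpos]
        exact hz
      simp only [h1, inv_one, one_smul]

omit [IsManifold 𝓘(ℂ, Fin m → ℂ) ⊤ X] in
private theorem w0Ball_empty {F : Type} [NormedAddCommGroup F] [NormedSpace ℂ F]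
    (Ψ : F × (Fin m → ℂ) → X) (s : ℝ) : EtHol Ψ ∅ s where
  cont := by
    rw [empty_prod]
    exact continuousOn_empty _
  fib x hx := absurd hx (notMem_empty x)
  inj x hx := absurd hx (notMem_empty x)
  der x hx := absurd hx (notMem_empty x)
  hol := by
    intro q hq
    rw [empty_prod] at hq
    exact absurd hq (notMem_empty q)

/-- W_0 for the closed ball `‖z‖ ≤ R1` of `ℂ^n` -/
theorem w0_ball {n : ℕ} {G : EuclideanSpace ℂ (Fin n) × (Fin m → ℂ) → X}
    {U : Set (EuclideanSpace ℂ (Fin n))} {r R1 : ℝ} (hr : 0 < r) (hG : EtCont G U r)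
    (hU : closedBall (0 : EuclideanSpace ℂ (Fin n)) R1 ⊆ U) :
    ∃ s > 0, s < r ∧ ∀ κ > 0,
      ∃ (V : Set (EuclideanSpace ℂ (Fin n) × EuclideanSpace ℂ (Fin n)))
        (Ψ : (EuclideanSpace ℂ (Fin n) × EuclideanSpace ℂ (Fin n)) × (Fin m → ℂ) → X),
        IsOpen V ∧ (∀ z : EuclideanSpace ℂ (Fin n), ‖z‖ ≤ R1 → (z, conjE z) ∈ V) ∧ EtHol Ψ V s ∧
        ∀ z : EuclideanSpace ℂ (Fin n), ‖z‖ ≤ R1 → ∀ t ∈ ball (0 : Fin m → ℂ) s,
          dist (Ψ ((z, conjE z), t)) (G (z, t)) < κ := by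
  rcases lt_or_ge R1 0 with hneg | hR
  · refine ⟨r / 2, by positivity, by linarith, fun κ _ => ⟨∅, fun _ => G (0, 0), isOpen_empty,
      fun z hz => ?_, w0Ball_empty _ _, fun z hz => ?_⟩⟩
    · exact absurd (hz.trans_lt hneg) (not_lt.2 (norm_nonneg z))
    · exact absurd (hz.trans_lt hneg) (not_lt.2 (norm_nonneg z))
  obtain ⟨cl, hclc, hcln, hcle⟩ := w0Ball_retr (F := EuclideanSpace ℂ (Fin n)) hR
  have hG' : EtCont (fun q : (Fin (n + n) → ℝ) × (Fin m → ℂ) => G (cl (ofRe q.1), q.2))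
      univ r :=
    hG.pullback (hclc.comp continuous_ofRe).continuousOn fun x _ =>
      hU (by rw [mem_closedBall, dist_zero_right]; exact hcln _)
  obtain ⟨s, hs, hsr, h⟩ := w0_box hr hG' (a := fun _ => -R1) (b := fun _ => R1)
    (fun _ => by linarith)
  refine ⟨s, hs, hsr, fun κ hκ => ?_⟩
  obtain ⟨V0, Ψ0, hV0, hxV, hΨ0, hd⟩ := h κ hκ
  have hbox : ∀ z : EuclideanSpace ℂ (Fin n), ‖z‖ ≤ R1 →
      toRe z ∈ Icc (fun _ : Fin (n + n) => -R1) (fun _ => R1) := by
    intro z hz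
    have h1 : ∀ j, |toRe z j| ≤ R1 := by
      intro j
      refine Fin.addCases (fun i => ?_) (fun i => ?_) j
      · simp only [toRe, Fin.append_left]
        exact ((Complex.abs_re_le_norm _).trans (PiLp.norm_apply_le z i)).trans hz
      · simp only [toRe, Fin.append_right]
        exact ((Complex.abs_im_le_norm _).trans (PiLp.norm_apply_le z i)).trans hz
    exact ⟨fun j => (abs_le.1 (h1 j)).1, fun j => (abs_le.1 (h1 j)).2⟩
  refine ⟨lamE ⁻¹' V0, fun q => Ψ0 (lamE q.1, q.2), hV0.preimage lamE.continuous,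
    fun z hz => ?_, hΨ0.pullback lamE.differentiable.differentiableOn fun q hq => hq,
    fun z hz t ht => ?_⟩
  · rw [mem_preimage, lamE_conj]
    exact hxV _ (hbox z hz)
  · have h1 := hd (toRe z) (hbox z hz) t ht
    simp only [ofRe_toRe, hcle z hz] at h1
    simp only [lamE_conj]
    exact h1

end OkaP
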