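import Pool.Agent.H.MP_ceb9a9.NeckData
import Pool.Agent.H.MP_ceb9a9.W0Ball
import Pool.Agent.H.MP_ceb9a9.NearCpt

/-!
# MP_ceb9a9: existence of the neck data

Proof.  `Kp = {z | ‖z‖ ≤ R1, -mm ≤ Psi z}` is compact, `G (z, 0) ≠ p` on it, `G` is continuous on `U ×ˢ ball 0 r0`: by the tube
lemma (compact `Kp`, open set `{(z, t) : G (z, t) ≠ p}` relative to `U ×ˢ ball 0 r0`) there are `r1 ∈ (0, r0)` with
`G (z, t) ≠ p` for `z ∈ Kp`, `‖t‖ < r1`.  Let `r = r1 / 2`; then `Kp ×ˢ closedBall 0 r` is compact and `G ≠ p` on it, so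
there is `μ > 0` with `μ ≤ dist (G (z, t)) p` there (`dist_lower`).
`w0_ball` for `G`, `U`, radius `r` gives `s ∈ (0, r)`.
Let `Φ ((z, ζ), t) = G (z, t)`: `EtHol Φ (U0 ×ˢ univ) r` (`EtHol.pullback` of `hG0` by `Prod.fst`, and `EtHol.mono`),
`K = {(z, conjE z) : ‖z‖ ≤ R1, Psi z ≤ c}`, compact (image of a compact set under a continuous map), contained in
`U0 ×ˢ univ`.  `EtHol.near_compact` for `Φ`, `K`, radii `s / 2 < s < r`, `η = s / 64` gives `κ1`.  Take the family `S` on `V`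
from `w0_ball` with `κ = min κ1 μ`.  `near_compact` gives `N ⊇ K`, `N ⊆ (U0 ×ˢ univ) ∩ V`, `γ`.
`S_ne`: for `z ∈ Kp`, `t ∈ ball 0 s`, `dist (S ((z, conjE z), t)) (G (z, t)) < μ ≤ dist (G (z, t)) p`.
-/

set_option autoImplicit false
open Set Metric Filter
open scoped Topology Manifold

noncomputable section
namespace OkaP

variable {m : ℕ} {X : Type} [MetricSpace X] [ChartedSpace (Fin m → ℂ) X]
  [IsManifold 𝓘(ℂ, Fin m → ℂ) ⊤ X]

omit [ChartedSpace (Fin m → ℂ) X] [IsManifold 𝓘(ℂ, Fin m → ℂ) ⊤ X] in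
/-- a map avoiding `p` on the zero section over a compact set avoids it near the zero section -/
private theorem neckEx_radius {T : Type} [TopologicalSpace T] [T2Space T]
    {G : T × (Fin m → ℂ) → X} {K : Set T} {r0 : ℝ} (hr0 : 0 < r0) {p : X} (hK : IsCompact K)
    (hG : ContinuousOn G (K ×ˢ ball (0 : Fin m → ℂ) r0)) (hp : ∀ z ∈ K, G (z, 0) ≠ p) :
    ∃ r > 0, r < r0 ∧ ∀ z ∈ K, ∀ t ∈ closedBall (0 : Fin m → ℂ) r, G (z, t) ≠ p := by
  have hC : IsCompact (K ×ˢ closedBall (0 : Fin m → ℂ) (r0 / 2)) :=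
    hK.prod (isCompact_closedBall _ _)
  have hGC : ContinuousOn G (K ×ˢ closedBall (0 : Fin m → ℂ) (r0 / 2)) :=
    hG.mono (prod_mono_right (closedBall_subset_ball (by linarith)))
  have hBcl : IsClosed ((K ×ˢ closedBall (0 : Fin m → ℂ) (r0 / 2)) ∩ G ⁻¹' {p}) :=
    hGC.preimage_isClosed_of_isClosed hC.isClosed isClosed_singleton
  have hB : IsCompact ((K ×ˢ closedBall (0 : Fin m → ℂ) (r0 / 2)) ∩ G ⁻¹' {p}) :=
    hC.of_isClosed_subset hBcl inter_subset_left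
  rcases ((K ×ˢ closedBall (0 : Fin m → ℂ) (r0 / 2)) ∩ G ⁻¹' {p}).eq_empty_or_nonempty with
    hem | hne
  · refine ⟨r0 / 2, by positivity, by linarith, fun z hz t ht he => ?_⟩
    have h1 : (z, t) ∈ (K ×ˢ closedBall (0 : Fin m → ℂ) (r0 / 2)) ∩ G ⁻¹' {p} :=
      ⟨⟨hz, ht⟩, he⟩
    rw [hem] at h1
    exact h1
  · obtain ⟨q, hq, hmin⟩ := hB.exists_isMinOn hne
      ((continuous_norm.comp continuous_snd : Continuous fun q : T × (Fin m → ℂ) =>
        ‖q.2‖).continuousOn)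
    have hq0 : 0 < ‖q.2‖ := by
      rw [norm_pos_iff]
      intro h0
      refine hp q.1 hq.1.1 ?_
      have h1 : (q.1, (0 : Fin m → ℂ)) = q := by rw [← h0]
      rw [h1]
      exact hq.2
    refine ⟨min (‖q.2‖ / 2) (r0 / 2), lt_min (by positivity) (by positivity),
      (min_le_right _ _).trans_lt (by linarith), fun z hz t ht he => ?_⟩
    have ht1 : ‖t‖ ≤ ‖q.2‖ / 2 := (mem_closedBall_zero_iff.1 ht).trans (min_le_left _ _)
    have ht2 : t ∈ closedBall (0 : Fin m → ℂ) (r0 / 2) :=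
      closedBall_subset_closedBall (min_le_right _ _) ht
    have h1 : ‖q.2‖ ≤ ‖t‖ := hmin (a := (z, t)) ⟨⟨hz, ht2⟩, he⟩
    linarith

/-- existence of the neck data -/
theorem exists_neckData {n : ℕ} {p : X} {G : EEn n × (Fin m → ℂ) → X} {U U0 : Set (EEn n)}
    {Psi : EEn n → ℝ} (hPsi : Continuous Psi) {R1 mm c r0 : ℝ} (hr0 : 0 < r0)
    (hG : EtCont G U r0) (hU : closedBall (0 : EEn n) R1 ⊆ U) (hU0 : IsOpen U0)
    (hU0c : ∀ z : EEn n, ‖z‖ ≤ R1 → Psi z ≤ c → z ∈ U0) (hG0 : EtHol G U0 r0)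
    (hp : ∀ z : EEn n, ‖z‖ ≤ R1 → -mm ≤ Psi z → G (z, 0) ≠ p) :
    ∃ r > 0, r < r0 ∧ Nonempty (NeckData p G U0 Psi R1 mm c r) := by
  have hKp : IsCompact (closedBall (0 : EEn n) R1 ∩ {z | -mm ≤ Psi z}) :=
    (isCompact_closedBall _ _).inter_right (isClosed_le continuous_const hPsi)
  have hKpU : closedBall (0 : EEn n) R1 ∩ {z | -mm ≤ Psi z} ⊆ U := inter_subset_left.trans hU
  obtain ⟨r, hr, hrr0, hrp⟩ := neckEx_radius (p := p) hr0 hKp (hG.cont.mono (prod_mono_left hKpU))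
    (fun z hz => hp z (mem_closedBall_zero_iff.1 hz.1) hz.2)
  obtain ⟨μ, hμ, hμd⟩ := dist_lower (p := p) (hKp.prod (isCompact_closedBall (0 : Fin m → ℂ) r))
    (hG.cont.mono (prod_mono hKpU (closedBall_subset_ball hrr0)))
    (fun q hq => hrp q.1 hq.1 q.2 hq.2)
  obtain ⟨s, hs, hsr, hw⟩ := w0_ball hr (hG.mono Subset.rfl hrr0.le) hU
  have hΦ : EtHol (fun q : (EEn n × EEn n) × (Fin m → ℂ) => G (q.1.1, q.2))
      (U0 ×ˢ (univ : Set (EEn n))) r :=
    (hG0.mono Subset.rfl hrr0.le).pullback (a := fun Z : EEn n × EEn n => Z.1)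
      differentiableOn_fst (fun Z hZ => hZ.1)
  have hcont : Continuous fun z : EEn n => (z, conjE z) :=
    continuous_id.prodMk conjE.continuous
  have hK : IsCompact ((fun z : EEn n => (z, conjE z)) ''
      (closedBall (0 : EEn n) R1 ∩ {z | Psi z ≤ c})) :=
    ((isCompact_closedBall _ _).inter_right (isClosed_le hPsi continuous_const)).image hcont
  have hKU : (fun z : EEn n => (z, conjE z)) ''
      (closedBall (0 : EEn n) R1 ∩ {z | Psi z ≤ c}) ⊆ U0 ×ˢ (univ : Set (EEn n)) := by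
    rintro _ ⟨z, hz, rfl⟩
    exact ⟨hU0c z (mem_closedBall_zero_iff.1 hz.1) hz.2, mem_univ _⟩
  obtain ⟨κ, hκ, hnc⟩ := hΦ.near_compact (hU0.prod isOpen_univ) hK hKU hsr
    (show s / 2 < s by linarith) (show 0 < s / 64 by positivity)
  obtain ⟨V, S, hV, hVm, hS, hd⟩ := hw (min κ μ) (lt_min hκ hμ)
  obtain ⟨N, γ, hN, hKN, hNUV, hγ, hγ'⟩ := hnc V S hV
    (by
      rintro _ ⟨z, hz, rfl⟩
      exact hVm z (mem_closedBall_zero_iff.1 hz.1)) hS.hol
    (by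
      rintro _ ⟨z, hz, rfl⟩ t ht
      show dist (G (z, t)) (S ((z, conjE z), t)) < κ
      rw [dist_comm]
      exact (hd z (mem_closedBall_zero_iff.1 hz.1) t ht).trans_le (min_le_left _ _))
  refine ⟨r, hr, hrr0, ⟨{
    s := s
    s_pos := hs
    s_lt := hsr
    V := V
    S := S
    V_open := hV
    V_mem := hVm
    S_et := hS
    N := N
    N_open := hN
    N_mem := fun z hz hz' => hKN ⟨z, ⟨mem_closedBall_zero_iff.2 hz, hz'⟩, rfl⟩
    N_U0 := fun Z hZ => (hNUV hZ).1.1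
    N_V := fun Z hZ => (hNUV hZ).2
    γ := γ
    γ_hol := hγ
    γ_near := fun Z hZ t ht => (hγ' Z hZ t ht).1
    γ_eq := fun Z hZ t ht => (hγ' Z hZ t ht).2.2
    G_ne := fun z hz hz' t ht => hrp z ⟨mem_closedBall_zero_iff.2 hz, hz'⟩ t
      (ball_subset_closedBall ht)
    S_ne := ?_ }⟩⟩
  intro z hz hz' t ht he
  have h1 := hd z hz t ht
  have h2 := hμd (z, t) ⟨⟨mem_closedBall_zero_iff.2 hz, hz'⟩,
    ball_subset_closedBall (ball_subset_ball hsr.le ht)⟩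
  rw [he, dist_comm] at h1
  exact absurd (h1.trans_le (min_le_right _ _)) (not_lt.2 h2)

end OkaP
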