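import Pool.Agent.H.MP_ceb9a9.NeckData
import Pool.Agent.H.MP_ceb9a9.EtOpen

/-!
# MP_ceb9a9: the families on the two sides of the neck

Proofs.
`neckA_etHol`: on the open set `{Z | Z.1 ∈ U0, Psi Z.1 < cm}` (`Psi` continuous) `neckA` is `G (Z.1, t)`
(`EtHol.pullback` of `hG0` by `Prod.fst`, radius `s < r`, `EtHol.mono`), on the open set `{Z ∈ V | cm < Psi Z.1}` it is `S`.
Use `EtHol.congr` and `EtHol.union_open`.
`neckB_etHol`: let `δ (Z, t) = t + c Z • (γ (Z, t) - t)`; on `NB = {Z ∈ N | ‖c Z‖ < 2}` (open, `c` continuous) and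
`t ∈ ball 0 (s / 2)`: `‖δ - t‖ ≤ 2 (s / 64) = s / 32 = (s / 2 - s / 4) / 8`.  `etHol_of_near_id_ball` gives
`EtHol δ NB (s / 4)`; values in `ball 0 r` because `s / 4 + s / 32 < s < r`; compose with the pull back of `G`
(`EtHol.comp`).
`neckB_hol`: `HolOn` on the bigger ball `s / 2`: composition of `G` (holomorphic on `U0 ×ˢ ball 0 r`) with the
holomorphic map `(Z, t) ↦ (Z.1, δ (Z, t))`, `‖δ‖ < s / 2 + s / 32 < r`.
-/

set_option autoImplicit false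
open Set Metric Filter
open scoped Topology Manifold

noncomputable section
namespace OkaP

variable {m : ℕ} {X : Type} [MetricSpace X] [ChartedSpace (Fin m → ℂ) X]
  [IsManifold 𝓘(ℂ, Fin m → ℂ) ⊤ X]

theorem neckA_etHol {n : ℕ} {p : X} {G : EEn n × (Fin m → ℂ) → X} {U0 : Set (EEn n)}
    {Psi : EEn n → ℝ} (hPsi : Continuous Psi) {R1 mm c r : ℝ} (hU0 : IsOpen U0)
    (hG0 : EtHol G U0 r) (D : NeckData p G U0 Psi R1 mm c r) (cm : ℝ) :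
    EtHol (neckA G D.S Psi cm)
      ({Z : EEn n × EEn n | Z.1 ∈ U0 ∧ Psi Z.1 < cm} ∪ {Z | Z ∈ D.V ∧ cm < Psi Z.1}) D.s := by
  have h1 : EtHol (neckA G D.S Psi cm) {Z : EEn n × EEn n | Z.1 ∈ U0 ∧ Psi Z.1 < cm} D.s := by
    have h0 : EtHol (fun q : (EEn n × EEn n) × (Fin m → ℂ) => G (q.1.1, q.2))
        {Z : EEn n × EEn n | Z.1 ∈ U0 ∧ Psi Z.1 < cm} D.s :=
      (hG0.mono Subset.rfl D.s_lt.le).pullback (a := fun Z : EEn n × EEn n => Z.1)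
        differentiableOn_fst (fun Z hZ => hZ.1)
    refine h0.congr fun Z hZ u _ => ?_
    show neckA G D.S Psi cm (Z, u) = G (Z.1, u)
    simp only [neckA]
    exact if_pos hZ.2
  have h2 : EtHol (neckA G D.S Psi cm) {Z | Z ∈ D.V ∧ cm < Psi Z.1} D.s := by
    have h0 : EtHol D.S {Z | Z ∈ D.V ∧ cm < Psi Z.1} D.s :=
      D.S_et.mono (fun Z hZ => hZ.1) le_rfl
    refine h0.congr fun Z hZ u _ => ?_
    simp only [neckA]
    exact if_neg (not_lt.2 hZ.2.le)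
  refine h1.union_open h2 ?_ ?_
  · exact (hU0.preimage continuous_fst).inter
      (isOpen_lt (hPsi.comp continuous_fst) continuous_const)
  · exact D.V_open.inter (isOpen_lt continuous_const (hPsi.comp continuous_fst))

omit [IsManifold 𝓘(ℂ, Fin m → ℂ) ⊤ X] in
private theorem neckFam_open {n : ℕ} {p : X} {G : EEn n × (Fin m → ℂ) → X} {U0 : Set (EEn n)}
    {Psi : EEn n → ℝ} {R1 mm c r : ℝ}
    (D : NeckData p G U0 Psi R1 mm c r) {cf : EEn n × EEn n → ℂ}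
    (hcf : Differentiable ℂ cf) : IsOpen {Z | Z ∈ D.N ∧ ‖cf Z‖ < 2} :=
  D.N_open.inter (isOpen_lt hcf.continuous.norm continuous_const)

omit [IsManifold 𝓘(ℂ, Fin m → ℂ) ⊤ X] in
private theorem neckFam_diff {n : ℕ} {p : X} {G : EEn n × (Fin m → ℂ) → X} {U0 : Set (EEn n)}
    {Psi : EEn n → ℝ} {R1 mm c r : ℝ}
    (D : NeckData p G U0 Psi R1 mm c r) {cf : EEn n × EEn n → ℂ}
    (hcf : Differentiable ℂ cf) :
    DifferentiableOn ℂ (fun q : (EEn n × EEn n) × (Fin m → ℂ) =>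
      q.2 + cf q.1 • (D.γ q - q.2))
      ({Z | Z ∈ D.N ∧ ‖cf Z‖ < 2} ×ˢ ball (0 : Fin m → ℂ) (D.s / 2)) := by
  have h1 : DifferentiableOn ℂ D.γ
      ({Z | Z ∈ D.N ∧ ‖cf Z‖ < 2} ×ˢ ball (0 : Fin m → ℂ) (D.s / 2)) :=
    D.γ_hol.mono (prod_mono_left fun Z hZ => hZ.1)
  have h2 : DifferentiableOn ℂ (fun q : (EEn n × EEn n) × (Fin m → ℂ) => cf q.1)
      ({Z | Z ∈ D.N ∧ ‖cf Z‖ < 2} ×ˢ ball (0 : Fin m → ℂ) (D.s / 2)) :=
    (hcf.comp differentiable_fst).differentiableOn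
  exact differentiableOn_snd.add (h2.smul (h1.sub differentiableOn_snd))

omit [IsManifold 𝓘(ℂ, Fin m → ℂ) ⊤ X] in
private theorem neckFam_near {n : ℕ} {p : X} {G : EEn n × (Fin m → ℂ) → X} {U0 : Set (EEn n)}
    {Psi : EEn n → ℝ} {R1 mm c r : ℝ}
    (D : NeckData p G U0 Psi R1 mm c r) {cf : EEn n × EEn n → ℂ} :
    ∀ Z ∈ {Z | Z ∈ D.N ∧ ‖cf Z‖ < 2}, ∀ t ∈ ball (0 : Fin m → ℂ) (D.s / 2),
      ‖(t + cf Z • (D.γ (Z, t) - t)) - t‖ ≤ D.s / 32 := by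
  intro Z hZ t ht
  have h1 := D.γ_near Z hZ.1 t ht
  have h2 : (t + cf Z • (D.γ (Z, t) - t)) - t = cf Z • (D.γ (Z, t) - t) := by
    rw [add_sub_cancel_left]
  rw [h2, norm_smul]
  calc ‖cf Z‖ * ‖D.γ (Z, t) - t‖ ≤ 2 * (D.s / 64) :=
        mul_le_mul hZ.2.le h1.le (norm_nonneg _) (by norm_num)
    _ = D.s / 32 := by ring

theorem neckB_etHol {n : ℕ} {p : X} {G : EEn n × (Fin m → ℂ) → X} {U0 : Set (EEn n)}
    {Psi : EEn n → ℝ} {R1 mm c r : ℝ} (hU0 : IsOpen U0)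
    (hG0 : EtHol G U0 r) (D : NeckData p G U0 Psi R1 mm c r) {cf : EEn n × EEn n → ℂ}
    (hcf : Differentiable ℂ cf) :
    EtHol (neckB G D.γ cf) {Z | Z ∈ D.N ∧ ‖cf Z‖ < 2} (D.s / 4) := by
  have _ := hU0
  have hs := D.s_pos
  have hsr := D.s_lt
  have hδ : EtHol (X := Fin m → ℂ) (fun q : (EEn n × EEn n) × (Fin m → ℂ) =>
      q.2 + cf q.1 • (D.γ q - q.2)) {Z | Z ∈ D.N ∧ ‖cf Z‖ < 2} (D.s / 4) :=
    etHol_of_near_id_ball (s := D.s / 4) (r := D.s / 2) (δ := D.s / 32) (by linarith)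
      (by linarith) (by linarith) (neckFam_open D hcf) (neckFam_diff D hcf) (neckFam_near D)
  have hP : EtHol (fun q : (EEn n × EEn n) × (Fin m → ℂ) => G (q.1.1, q.2))
      {Z | Z ∈ D.N ∧ ‖cf Z‖ < 2} r :=
    hG0.pullback (a := fun Z : EEn n × EEn n => Z.1)
      differentiableOn_fst (fun Z hZ => D.N_U0 Z hZ.1)
  refine hP.comp hδ fun Z hZ t ht => ?_
  have h1 : ‖t‖ < D.s / 4 := mem_ball_zero_iff.1 ht
  have h2 := neckFam_near D Z hZ t (ball_subset_ball (by linarith) ht)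
  rw [mem_ball_zero_iff]
  show ‖t + cf Z • (D.γ (Z, t) - t)‖ < r
  calc ‖t + cf Z • (D.γ (Z, t) - t)‖ = ‖t + ((t + cf Z • (D.γ (Z, t) - t)) - t)‖ := by
        rw [add_sub_cancel]
    _ ≤ ‖t‖ + ‖(t + cf Z • (D.γ (Z, t) - t)) - t‖ := norm_add_le _ _
    _ < r := by linarith

theorem neckB_hol {n : ℕ} {p : X} {G : EEn n × (Fin m → ℂ) → X} {U0 : Set (EEn n)}
    {Psi : EEn n → ℝ} {R1 mm c r : ℝ} (hU0 : IsOpen U0)
    (hG0 : EtHol G U0 r) (D : NeckData p G U0 Psi R1 mm c r) {cf : EEn n × EEn n → ℂ}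
    (hcf : Differentiable ℂ cf) :
    HolOn m (neckB G D.γ cf) ({Z | Z ∈ D.N ∧ ‖cf Z‖ < 2} ×ˢ ball (0 : Fin m → ℂ) (D.s / 2)) := by
  have _ := hU0
  have hs := D.s_pos
  have hsr := D.s_lt
  refine HolOn.comp (V := U0 ×ˢ ball (0 : Fin m → ℂ) r)
    (g := fun q : (EEn n × EEn n) × (Fin m → ℂ) => (q.1.1, q.2 + cf q.1 • (D.γ q - q.2))) hG0.hol
    (DifferentiableOn.prodMk ?_ (neckFam_diff D hcf)) ?_
  · exact (differentiable_fst.comp differentiable_fst).differentiableOn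
  · rintro ⟨Z, t⟩ ⟨hZ, ht⟩
    have h1 : ‖t‖ < D.s / 2 := mem_ball_zero_iff.1 ht
    have h2 := neckFam_near D Z hZ t ht
    refine ⟨D.N_U0 Z hZ.1, ?_⟩
    rw [mem_ball_zero_iff]
    show ‖t + cf Z • (D.γ (Z, t) - t)‖ < r
    calc ‖t + cf Z • (D.γ (Z, t) - t)‖ = ‖t + ((t + cf Z • (D.γ (Z, t) - t)) - t)‖ := by
          rw [add_sub_cancel]
      _ ≤ ‖t‖ + ‖(t + cf Z • (D.γ (Z, t) - t)) - t‖ := norm_add_le _ _
      _ < r := by linarith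

end OkaP
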