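import Pool.Agent.H.MP_ceb9a9.Scv6

set_option autoImplicit false
open Set Metric Filter
open scoped Topology

noncomputable section
namespace OkaP

variable {E V : Type} [NormedAddCommGroup E] [NormedSpace ℂ E]
  [NormedAddCommGroup V] [NormedSpace ℂ V]

/-- Shrinking domains `DA s`, `DB s` (`0 ≤ s ≤ 1`) in `E × V` with a linear additive splitting
with loss `C / (s' - s) ^ M` and pointwise weights `p ≤ q ≤ 1`. -/
structure SplitScale (DA DB : ℝ → Set (E × V)) (p q : E → ℝ) (κ₀ C : ℝ) (M : ℕ) : Prop where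
  openA : ∀ s, 0 ≤ s → s ≤ 1 → IsOpen (DA s)
  openB : ∀ s, 0 ≤ s → s ≤ 1 → IsOpen (DB s)
  pq : ∀ z, 0 ≤ p z ∧ p z ≤ q z ∧ q z ≤ 1
  shrinkA : ∀ s s' z ζ ζ', 0 ≤ s → s ≤ s' → s' ≤ 1 → (z, ζ) ∈ DA s' →
    ‖ζ' - ζ‖ ≤ κ₀ * (s' - s) → (z, ζ') ∈ DA s
  shrinkB : ∀ s s' z ζ ζ', 0 ≤ s → s ≤ s' → s' ≤ 1 → (z, ζ) ∈ DB s' →
    ‖ζ' - ζ‖ ≤ κ₀ * (s' - s) → (z, ζ') ∈ DB s
  starA : ∀ s z ζ, 0 ≤ s → s ≤ 1 → (z, ζ) ∈ DA s → (z, 0) ∈ DA s
  starB : ∀ s z ζ, 0 ≤ s → s ≤ 1 → (z, ζ) ∈ DB s → (z, 0) ∈ DB s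
  split : ∀ s s', 0 ≤ s → s < s' → s' ≤ 1 → ∀ (c : E × V → V) (κ : ℝ), 0 ≤ κ →
    DifferentiableOn ℂ c (DA s ∩ DB s) →
    (∀ z ζ, (z, ζ) ∈ DA s ∩ DB s → ‖c (z, ζ)‖ ≤ κ * p z) →
    ∃ a b : E × V → V, DifferentiableOn ℂ a (DA s') ∧ DifferentiableOn ℂ b (DB s') ∧
      (∀ z ζ, (z, ζ) ∈ DA s' → ‖a (z, ζ)‖ ≤ C / (s' - s) ^ M * κ * q z) ∧
      (∀ z ζ, (z, ζ) ∈ DB s' → ‖b (z, ζ)‖ ≤ C / (s' - s) ^ M * κ * q z) ∧
      ∀ x ∈ DA s' ∩ DB s', b x - a x = c x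

/-- the intersections shrink (automatic from the splitting property when `V` is nontrivial). -/
theorem SplitScale.ns_inter_sub [Nontrivial V] {DA DB : ℝ → Set (E × V)} {p q : E → ℝ} {κ₀ C : ℝ}
    {M : ℕ} (h : SplitScale DA DB p q κ₀ C M) {s s' : ℝ} (hs : 0 ≤ s) (hss : s < s')
    (hs' : s' ≤ 1) {x : E × V} (hx : x ∈ DA s' ∩ DB s') : x ∈ DA s ∩ DB s := by
  classical
  by_contra hn
  obtain ⟨v, hv⟩ := exists_ne (0 : V)
  have hc0 : ∀ y ∈ DA s ∩ DB s, (if y = x then v else 0) = (0 : V) := by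
    intro y hy
    rw [if_neg]
    rintro rfl
    exact hn hy
  obtain ⟨a, b, -, -, ha, hb, hab⟩ := h.split s s' hs hss hs' (fun y => if y = x then v else 0) 0
    le_rfl ((differentiableOn_const (0 : V)).congr hc0)
    (fun z ζ hz => by rw [hc0 _ hz]; simp)
  have h1 := ha x.1 x.2 hx.1
  have h2 := hb x.1 x.2 hx.2
  have h3 := hab x hx
  rw [mul_zero, zero_mul] at h1 h2
  have h4 : a x = 0 := norm_le_zero_iff.1 h1
  have h5 : b x = 0 := norm_le_zero_iff.1 h2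
  rw [h4, h5, if_pos rfl, sub_zero] at h3
  exact hv h3.symm

/-- splitting which in addition preserves vanishing on the zero section (constant `2 C`). -/
theorem SplitScale.split0 {DA DB : ℝ → Set (E × V)} {p q : E → ℝ} {κ₀ C : ℝ} {M : ℕ}
    (h : SplitScale DA DB p q κ₀ C M) {s s' : ℝ} (hs : 0 ≤ s) (hss : s < s') (hs' : s' ≤ 1)
    {c : E × V → V} {κ : ℝ} (hκ : 0 ≤ κ) (hc : DifferentiableOn ℂ c (DA s ∩ DB s))
    (hb : ∀ z ζ, (z, ζ) ∈ DA s ∩ DB s → ‖c (z, ζ)‖ ≤ κ * p z) :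
    ∃ a b : E × V → V, DifferentiableOn ℂ a (DA s') ∧ DifferentiableOn ℂ b (DB s') ∧
      (∀ z ζ, (z, ζ) ∈ DA s' → ‖a (z, ζ)‖ ≤ 2 * C / (s' - s) ^ M * κ * q z) ∧
      (∀ z ζ, (z, ζ) ∈ DB s' → ‖b (z, ζ)‖ ≤ 2 * C / (s' - s) ^ M * κ * q z) ∧
      (∀ x ∈ DA s' ∩ DB s', b x - a x = c x) ∧
      ((∀ z, (z, 0) ∈ DA s ∩ DB s → c (z, 0) = 0) →
        (∀ z, (z, 0) ∈ DA s' → a (z, 0) = 0) ∧ (∀ z, (z, 0) ∈ DB s' → b (z, 0) = 0)) := by
  obtain ⟨a, b, hda, hdb, ha, hb', hab⟩ := h.split s s' hs hss hs' c κ hκ hc hb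
  have h0s' : 0 ≤ s' := hs.trans hss.le
  have e : ∀ z, 2 * C / (s' - s) ^ M * κ * q z = 2 * (C / (s' - s) ^ M * κ * q z) := by
    intro z; ring
  by_cases hv : Subsingleton V
  · refine ⟨a, b, hda, hdb, fun z ζ hz => ?_, fun z ζ hz => ?_, hab, fun _ =>
      ⟨fun z _ => Subsingleton.elim _ _, fun z _ => Subsingleton.elim _ _⟩⟩
    · have := ha z ζ hz
      have h0 := norm_nonneg (a (z, ζ))
      rw [e]; linarith
    · have := hb' z ζ hz
      have h0 := norm_nonneg (b (z, ζ))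
      rw [e]; linarith
  · have hnt : Nontrivial V := not_subsingleton_iff_nontrivial.1 hv
    by_cases H : ∀ z, (z, (0 : V)) ∈ DA s ∩ DB s → c (z, 0) = 0
    · have hp : Differentiable ℂ (fun x : E × V => (x.1, (0 : V))) :=
        differentiable_fst.prodMk (differentiable_const _)
      have hmA : MapsTo (fun x : E × V => (x.1, (0 : V))) (DA s') (DA s') :=
        fun x hx => h.starA s' x.1 x.2 h0s' hs' hx
      have hmB : MapsTo (fun x : E × V => (x.1, (0 : V))) (DB s') (DB s') :=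
        fun x hx => h.starB s' x.1 x.2 h0s' hs' hx
      refine ⟨fun x => a x - a (x.1, 0), fun x => b x - b (x.1, 0),
        hda.sub (hda.comp hp.differentiableOn hmA), hdb.sub (hdb.comp hp.differentiableOn hmB),
        fun z ζ hz => ?_, fun z ζ hz => ?_, fun x hx => ?_, fun _ => ⟨fun z _ => sub_self _,
          fun z _ => sub_self _⟩⟩
      · have h1 := ha z ζ hz
        have h2 := ha z 0 (hmA hz)
        have h3 := norm_sub_le (a (z, ζ)) (a (z, 0))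
        rw [e]
        linarith
      · have h1 := hb' z ζ hz
        have h2 := hb' z 0 (hmB hz)
        have h3 := norm_sub_le (b (z, ζ)) (b (z, 0))
        rw [e]
        linarith
      · have hx0 : (x.1, (0 : V)) ∈ DA s' ∩ DB s' := ⟨hmA hx.1, hmB hx.2⟩
        have h1 := hab x hx
        have h2 := hab _ hx0
        rw [H x.1 (h.ns_inter_sub hs hss hs' hx0)] at h2
        have h3 : b (x.1, 0) = a (x.1, 0) := sub_eq_zero.1 h2
        show b x - b (x.1, 0) - (a x - a (x.1, 0)) = c x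
        rw [h3, ← h1]
        abel
    · refine ⟨a, b, hda, hdb, fun z ζ hz => ?_, fun z ζ hz => ?_, hab, fun h' => absurd h' H⟩
      · have := ha z ζ hz
        have h0 := norm_nonneg (a (z, ζ))
        rw [e]; linarith
      · have := hb' z ζ hz
        have h0 := norm_nonneg (b (z, ζ))
        rw [e]; linarith

end OkaP
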