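import Pool.Agent.H.MP_ceb9a9.Ns

set_option autoImplicit false
open Set Metric Filter
open scoped Topology

noncomputable section
namespace OkaP

variable {E V : Type} [NormedAddCommGroup E] [NormedSpace ℂ E] [FiniteDimensional ℂ E]
  [NormedAddCommGroup V] [NormedSpace ℂ V] [FiniteDimensional ℂ V]

omit [FiniteDimensional ℂ E] [FiniteDimensional ℂ V] in
/-- differentiability of a slice `x ↦ f (z, x)`. -/
theorem nsStep_slice {f : E × V → V} {D : Set (E × V)} (hD : IsOpen D)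
    (hf : DifferentiableOn ℂ f D) {z : E} {S : Set V} (hS : ∀ x ∈ S, (z, x) ∈ D) :
    DifferentiableOn ℂ (fun x => f (z, x)) S := by
  intro x hx
  have h1 : DifferentiableAt ℂ f (z, x) := hf.differentiableAt (hD.mem_nhds (hS x hx))
  have h2 : DifferentiableAt ℂ (fun x : V => (z, x)) x :=
    (differentiableAt_const z).prodMk differentiableAt_id
  exact (h1.comp x h2).differentiableWithinAt

/-- one Newton step of the nonlinear splitting; the middle parameter is `(s + s') / 2`. -/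
theorem SplitScale.step {DA DB : ℝ → Set (E × V)} {p q : E → ℝ} {κ₀ C : ℝ} {M : ℕ}
    (h : SplitScale DA DB p q κ₀ C M) (hκ₀ : 0 < κ₀) (hC : 0 ≤ C)
    {s s' : ℝ} (hs : 0 ≤ s) (hss : s < s') (hs' : s' ≤ 1)
    {γ : E × V → V} {e : ℝ} (he : 0 ≤ e) (hγ : DifferentiableOn ℂ γ (DA s ∩ DB s))
    (hγe : ∀ z ζ, (z, ζ) ∈ DA s ∩ DB s → ‖γ (z, ζ) - ζ‖ ≤ e * p z)
    (heE : e ≤ κ₀ * (s' - s) / 32)
    (hE : 2 * C / ((s' - s) / 2) ^ M * e ≤ κ₀ * (s' - s) / 32) :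
    ∃ a b γ' : E × V → V,
      DifferentiableOn ℂ a (DA ((s + s') / 2)) ∧ DifferentiableOn ℂ b (DB ((s + s') / 2)) ∧
      (∀ z ζ, (z, ζ) ∈ DA ((s + s') / 2) → ‖a (z, ζ)‖ ≤ 2 * C / ((s' - s) / 2) ^ M * e * q z) ∧
      (∀ z ζ, (z, ζ) ∈ DB ((s + s') / 2) → ‖b (z, ζ)‖ ≤ 2 * C / ((s' - s) / 2) ^ M * e * q z) ∧
      DifferentiableOn ℂ γ' (DA s' ∩ DB s') ∧
      (∀ z ζ, (z, ζ) ∈ DA s' ∩ DB s' →
        ‖γ' (z, ζ) - ζ‖ ≤ 4 * e / (κ₀ * (s' - s)) * (2 * C / ((s' - s) / 2) ^ M * e) * p z) ∧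
      (∀ z ζ, (z, ζ) ∈ DA s' ∩ DB s' → (z, γ' (z, ζ)) ∈ DB ((s + s') / 2) ∧
        γ (z, ζ + a (z, ζ)) = γ' (z, ζ) + b (z, γ' (z, ζ))) ∧
      ((∀ z, (z, 0) ∈ DA s ∩ DB s → γ (z, 0) = 0) →
        (∀ z, (z, 0) ∈ DA ((s + s') / 2) → a (z, 0) = 0) ∧
        (∀ z, (z, 0) ∈ DB ((s + s') / 2) → b (z, 0) = 0) ∧
        (∀ z, (z, 0) ∈ DA s' ∩ DB s' → γ' (z, 0) = 0)) := by
  have : ProperSpace V := FiniteDimensional.proper ℂ V
  set m : ℝ := (s + s') / 2 with hm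
  set δ : ℝ := s' - s with hδ
  have hδ0 : 0 < δ := by rw [hδ]; linarith
  have hsm : s < m := by rw [hm]; linarith
  have hms' : m < s' := by rw [hm]; linarith
  have hm0 : 0 ≤ m := by linarith
  have hm1 : m ≤ 1 := by linarith
  have hms : m - s = δ / 2 := by rw [hm, hδ]; ring
  have hs'm : s' - m = δ / 2 := by rw [hm, hδ]; ring
  set E0 : ℝ := 2 * C / (δ / 2) ^ M * e with hE0
  have hE00 : 0 ≤ E0 := by rw [hE0]; positivity
  have hκδ : 0 < κ₀ * δ := mul_pos hκ₀ hδ0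
  -- openness
  have oA := h.openA s hs (by linarith)
  have oB := h.openB s hs (by linarith)
  have oAm := h.openA m hm0 hm1
  have oBm := h.openB m hm0 hm1
  have oA' := h.openA s' (by linarith) hs'
  have oB' := h.openB s' (by linarith) hs'
  -- shrinking facts
  have F1 : ∀ z ζ ζ', (z, ζ) ∈ DA s' ∩ DB s' → ‖ζ' - ζ‖ ≤ κ₀ * δ → (z, ζ') ∈ DA s ∩ DB s := by
    intro z ζ ζ' hz hn
    exact ⟨h.shrinkA s s' z ζ ζ' hs hss.le hs' hz.1 hn, h.shrinkB s s' z ζ ζ' hs hss.le hs' hz.2 hn⟩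
  have F2 : ∀ z ζ ζ', (z, ζ) ∈ DA s' ∩ DB s' → ‖ζ' - ζ‖ ≤ κ₀ * δ / 2 →
      (z, ζ') ∈ DA m ∩ DB m := by
    intro z ζ ζ' hz hn
    have hn' : ‖ζ' - ζ‖ ≤ κ₀ * (s' - m) := by rw [hs'm]; linarith
    exact ⟨h.shrinkA m s' z ζ ζ' hm0 hms'.le hs' hz.1 hn',
      h.shrinkB m s' z ζ ζ' hm0 hms'.le hs' hz.2 hn'⟩
  have F3 : ∀ z ζ, (z, ζ) ∈ DA s' ∩ DB s' → (z, ζ) ∈ DA m ∩ DB m := by
    intro z ζ hz
    refine F2 z ζ ζ hz ?_
    rw [sub_self, norm_zero]
    positivity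
  -- the additive splitting
  have hc : DifferentiableOn ℂ (fun x : E × V => γ x - x.2) (DA s ∩ DB s) :=
    hγ.sub differentiable_snd.differentiableOn
  obtain ⟨a, b, ha, hb, hab, hbb, hba, hz0⟩ := h.split0 hs hsm hm1 he hc hγe
  rw [hms] at hab hbb
  have hq1 : ∀ z, q z ≤ 1 := fun z => (h.pq z).2.2
  have hq0 : ∀ z, 0 ≤ q z := fun z => (h.pq z).1.trans (h.pq z).2.1
  have hp0 : ∀ z, 0 ≤ p z := fun z => (h.pq z).1
  have hp1 : ∀ z, p z ≤ 1 := fun z => (h.pq z).2.1.trans (hq1 z)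
  have hab' : ∀ z ζ, (z, ζ) ∈ DA m → ‖a (z, ζ)‖ ≤ E0 := by
    intro z ζ hz
    refine (hab z ζ hz).trans ?_
    have := mul_le_mul_of_nonneg_left (hq1 z) hE00
    rw [mul_one] at this
    exact this
  have hbb' : ∀ z ζ, (z, ζ) ∈ DB m → ‖b (z, ζ)‖ ≤ E0 := by
    intro z ζ hz
    refine (hbb z ζ hz).trans ?_
    have := mul_le_mul_of_nonneg_left (hq1 z) hE00
    rw [mul_one] at this
    exact this
  have hep : ∀ z, e * p z ≤ e := by
    intro z
    have := mul_le_mul_of_nonneg_left (hp1 z) he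
    rwa [mul_one] at this
  -- the right hand side y
  set y : E × V → V := fun w => γ (w.1, w.2 + a w) with hy
  have hin1 : ∀ z ζ, (z, ζ) ∈ DA s' ∩ DB s' → (z, ζ + a (z, ζ)) ∈ DA s ∩ DB s := by
    intro z ζ hz
    refine F1 z ζ _ hz ?_
    rw [add_sub_cancel_left]
    refine (hab' z ζ (F3 z ζ hz).1).trans ?_
    linarith
  have hyζ : ∀ z ζ, (z, ζ) ∈ DA s' ∩ DB s' → ‖y (z, ζ) - ζ‖ ≤ κ₀ * δ / 16 := by
    intro z ζ hz
    have h1 := hγe z _ (hin1 z ζ hz)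
    have h2 := hab' z ζ (F3 z ζ hz).1
    have h3 : y (z, ζ) - ζ = (γ (z, ζ + a (z, ζ)) - (ζ + a (z, ζ))) + a (z, ζ) := by
      simp only [hy]; abel
    rw [h3]
    refine (norm_add_le _ _).trans ?_
    have := hep z
    linarith
  have hyd : DifferentiableOn ℂ y (DA s' ∩ DB s') := by
    have h1 : DifferentiableOn ℂ (fun w : E × V => (w.1, w.2 + a w)) (DA s' ∩ DB s') := by
      refine differentiable_fst.differentiableOn.prodMk ?_
      refine differentiable_snd.differentiableOn.add (ha.mono ?_)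
      rintro ⟨z, ζ⟩ hz
      exact (F3 z ζ hz).1
    refine hγ.comp h1 ?_
    rintro ⟨z, ζ⟩ hz
    exact hin1 z ζ hz
  -- near identity on slices
  set r : ℝ := κ₀ * δ / 2 with hr
  have hr0 : 0 < r := by rw [hr]; linarith
  have hE0r : E0 ≤ r / 8 := by rw [hr]; linarith
  have hnear : ∀ z ζ, (z, ζ) ∈ DA s' ∩ DB s' →
      InjOn (fun x => x + b (z, x)) (ball ζ (r / 2)) ∧
      (∀ x ∈ ball ζ (r / 2), ∀ x' ∈ ball ζ (r / 2),
        ‖x - x'‖ ≤ 2 * ‖(x + b (z, x)) - (x' + b (z, x'))‖) ∧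
      (∀ u ∈ ball ζ (r / 2 - E0), ∃ x ∈ ball ζ (r / 2), x + b (z, x) = u ∧ ‖x - u‖ ≤ E0) := by
    intro z ζ hz
    have hsl : ∀ x ∈ ball ζ r, (z, x) ∈ DB m := by
      intro x hx
      rw [mem_ball, dist_eq_norm] at hx
      exact (F2 z ζ x hz hx.le).2
    have hbd : DifferentiableOn ℂ (fun x => x + b (z, x)) (ball ζ r) :=
      differentiableOn_id.add (nsStep_slice oBm hb hsl)
    obtain ⟨h1, _, h3, h4⟩ := near_id (f := fun x => x + b (z, x)) hr0 hE00 hE0r hbd (by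
      intro x hx
      rw [add_sub_cancel_left]
      exact hbb' z x (hsl x hx))
    exact ⟨h1, h3, h4⟩
  have hybal : ∀ z ζ, (z, ζ) ∈ DA s' ∩ DB s' → y (z, ζ) ∈ ball ζ (r / 2 - E0) := by
    intro z ζ hz
    rw [mem_ball, dist_eq_norm]
    have := hyζ z ζ hz
    rw [hr]
    linarith
  have hex : ∀ w : E × V, ∃ x : V, w ∈ DA s' ∩ DB s' →
      (x ∈ ball w.2 (r / 2) ∧ x + b (w.1, x) = y w) := by
    rintro ⟨z, ζ⟩
    by_cases hz : (z, ζ) ∈ DA s' ∩ DB s'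
    · obtain ⟨x, hx, hxy, _⟩ := (hnear z ζ hz).2.2 _ (hybal z ζ hz)
      exact ⟨x, fun _ => ⟨hx, hxy⟩⟩
    · exact ⟨ζ, fun h' => absurd h' hz⟩
  choose γ' hγ' using hex
  have huniq : ∀ z ζ, (z, ζ) ∈ DA s' ∩ DB s' → ∀ x ∈ ball ζ (r / 2), x + b (z, x) = y (z, ζ) →
      γ' (z, ζ) = x := by
    intro z ζ hz x hx hxy
    have h1 := hγ' (z, ζ) hz
    exact (hnear z ζ hz).1 h1.1 hx (h1.2.trans hxy.symm)
  refine ⟨a, b, γ', ha, hb, hab, hbb, ?_, ?_, ?_, ?_⟩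
  · -- holomorphy
    rintro ⟨z0, ζ0⟩ hz0'
    have hcomp : IsCompact (closedBall ζ0 r) := isCompact_closedBall ζ0 r
    have hsub0 : ({z0} : Set E) ×ˢ closedBall ζ0 r ⊆ DB m := by
      rintro ⟨z, x⟩ ⟨hz, hx⟩
      rw [mem_singleton_iff] at hz
      subst hz
      rw [mem_closedBall, dist_eq_norm] at hx
      exact (F2 _ ζ0 x hz0' hx).2
    obtain ⟨W, O, hWo, hOo, hzW, hclO, hWO⟩ := generalized_tube_lemma isCompact_singleton hcomp
      oBm hsub0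
    have hz0W : z0 ∈ W := hzW (mem_singleton z0)
    have hWb : ∀ z ∈ W, ∀ x ∈ ball (0 : V) r, (z, ζ0 + x) ∈ DB m := by
      intro z hz x hx
      refine hWO ⟨hz, hclO ?_⟩
      rw [mem_closedBall, dist_eq_norm, add_sub_cancel_left]
      rw [mem_ball_zero_iff] at hx
      exact hx.le
    have hfd : DifferentiableOn ℂ (fun w : E × V => w.2 + b (w.1, ζ0 + w.2))
        (W ×ˢ ball (0 : V) r) := by
      refine differentiable_snd.differentiableOn.add ?_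
      have h1 : DifferentiableOn ℂ (fun w : E × V => (w.1, ζ0 + w.2)) (W ×ˢ ball (0 : V) r) :=
        differentiable_fst.differentiableOn.prodMk
          (differentiable_snd.differentiableOn.const_add ζ0)
      refine hb.comp h1 ?_
      rintro ⟨z, x⟩ ⟨hz, hx⟩
      exact hWb z hz x hx
    obtain ⟨g, hgd, hg⟩ := near_id_param (f := fun w : E × V => w.2 + b (w.1, ζ0 + w.2)) hWo hr0
      hE00 hE0r hfd (by
        intro z hz x hx
        simp only []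
        rw [add_sub_cancel_left]
        exact hbb' z _ (hWb z hz x hx))
    set N : Set (E × V) := (DA s' ∩ DB s') ∩ (W ×ˢ ball ζ0 (κ₀ * δ / 16)) with hN
    have hNo : IsOpen N := (oA'.inter oB').inter (hWo.prod isOpen_ball)
    have hw0N : (z0, ζ0) ∈ N := ⟨hz0', hz0W, mem_ball_self (by positivity)⟩
    have hyN : ∀ z ζ, (z, ζ) ∈ N → y (z, ζ) - ζ0 ∈ ball (0 : V) (r / 2 - E0) := by
      rintro z ζ ⟨hz, hzW', hζ⟩
      rw [mem_ball_zero_iff]
      have h1 := hyζ z ζ hz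
      have h2 : ‖ζ - ζ0‖ < κ₀ * δ / 16 := by
        have := mem_ball.1 hζ
        rwa [dist_eq_norm] at this
      have h3 : y (z, ζ) - ζ0 = (y (z, ζ) - ζ) + (ζ - ζ0) := by abel
      rw [h3]
      refine (norm_add_le _ _).trans_lt ?_
      rw [hr]
      linarith
    have heq : ∀ w ∈ N, γ' w = ζ0 + g (w.1, y w - ζ0) := by
      rintro ⟨z, ζ⟩ hw
      obtain ⟨h1, h2, h3⟩ := hg z hw.2.1 _ (hyN z ζ hw)
      refine huniq z ζ hw.1 _ ?_ ?_
      · rw [mem_ball, dist_eq_norm]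
        have h4 : ζ0 + g (z, y (z, ζ) - ζ0) - ζ
            = (g (z, y (z, ζ) - ζ0) - (y (z, ζ) - ζ0)) + (y (z, ζ) - ζ) := by abel
        show ‖ζ0 + g (z, y (z, ζ) - ζ0) - ζ‖ < r / 2
        rw [h4]
        refine (norm_add_le _ _).trans_lt ?_
        have h5 := hyζ z ζ hw.1
        rw [hr]
        linarith
      · have h2' : g (z, y (z, ζ) - ζ0) + b (z, ζ0 + g (z, y (z, ζ) - ζ0)) = y (z, ζ) - ζ0 := h2
        show ζ0 + g (z, y (z, ζ) - ζ0) + b (z, ζ0 + g (z, y (z, ζ) - ζ0)) = y (z, ζ)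
        rw [add_assoc, h2']
        abel
    have hgN : DifferentiableOn ℂ (fun w : E × V => ζ0 + g (w.1, y w - ζ0)) N := by
      refine DifferentiableOn.const_add ζ0 ?_
      have h1 : DifferentiableOn ℂ (fun w : E × V => (w.1, y w - ζ0)) N :=
        differentiable_fst.differentiableOn.prodMk
          ((hyd.mono inter_subset_left).sub_const ζ0)
      refine hgd.comp h1 ?_
      rintro ⟨z, ζ⟩ hw
      exact ⟨hw.2.1, hyN z ζ hw⟩
    have h1 : DifferentiableAt ℂ γ' (z0, ζ0) :=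
      (hgN.congr heq).differentiableAt (hNo.mem_nhds hw0N)
    exact h1.differentiableWithinAt
  · -- estimate
    intro z ζ hz
    have h1 := hγ' (z, ζ) hz
    have hζb : ζ ∈ ball ζ (r / 2) := mem_ball_self (by linarith)
    have h2 := (hnear z ζ hz).2.1 _ h1.1 ζ hζb
    have hζm := F3 z ζ hz
    have h3 : (γ' (z, ζ) + b (z, γ' (z, ζ))) - (ζ + b (z, ζ))
        = (γ (z, ζ + a (z, ζ)) - (ζ + a (z, ζ))) - (γ (z, ζ) - ζ) := by
      have h4 : γ' (z, ζ) + b (z, γ' (z, ζ)) = γ (z, ζ + a (z, ζ)) := h1.2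
      have h5 : b (z, ζ) - a (z, ζ) = γ (z, ζ) - ζ := hba (z, ζ) hζm
      rw [h4, ← h5]
      abel
    have hsl : ∀ x ∈ ball ζ (κ₀ * δ), (z, x) ∈ DA s ∩ DB s := by
      intro x hx
      rw [mem_ball, dist_eq_norm] at hx
      exact F1 z ζ x hz hx.le
    have h6 : DifferentiableOn ℂ (fun x : V => γ (z, x) - x) (ball ζ (κ₀ * δ)) :=
      (nsStep_slice (oA.inter oB) hγ hsl).sub differentiableOn_id
    have haE := hab' z ζ hζm.1
    have h7 := norm_sub_le_of_bound (f := fun x : V => γ (z, x) - x) (x := ζ)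
      (y := ζ + a (z, ζ)) (z := ζ) (M := e * p z) hκδ h6 (fun x hx => hγe z x (hsl x hx)) (by
        rw [mem_ball, dist_eq_norm, add_sub_cancel_left]
        linarith) (mem_ball_self (by linarith))
    rw [add_sub_cancel_left] at h7
    have h8 : ‖(γ (z, ζ + a (z, ζ)) - (ζ + a (z, ζ))) - (γ (z, ζ) - ζ)‖
        ≤ 2 * (e * p z) / (κ₀ * δ) * E0 := by
      refine h7.trans ?_
      refine mul_le_mul_of_nonneg_left haE ?_
      have := hp0 z
      positivity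
    rw [h3] at h2
    calc ‖γ' (z, ζ) - ζ‖ ≤ 2 * (2 * (e * p z) / (κ₀ * δ) * E0) := h2.trans (by linarith)
      _ = 4 * e / (κ₀ * δ) * E0 * p z := by ring
  · intro z ζ hz
    have h1 := hγ' (z, ζ) hz
    refine ⟨?_, h1.2.symm⟩
    refine (F2 z ζ _ hz ?_).2
    have h2 := h1.1
    rw [mem_ball, dist_eq_norm] at h2
    have h3 : ‖γ' (z, ζ) - ζ‖ < r / 2 := h2
    rw [hr] at h3
    linarith
  · intro hγ0
    have h1 := hz0 (fun z hz => by
      show γ (z, 0) - 0 = 0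
      rw [hγ0 z hz, sub_zero])
    refine ⟨h1.1, h1.2, ?_⟩
    intro z hz
    have hm' := F3 z 0 hz
    have ha0 : a (z, 0) = 0 := h1.1 z hm'.1
    have hb0 : b (z, 0) = 0 := h1.2 z hm'.2
    refine huniq z 0 hz 0 (mem_ball_self (by linarith)) ?_
    rw [hb0, add_zero]
    show (0 : V) = γ (z, 0 + a (z, 0))
    rw [ha0, add_zero]
    have h2 : (z, (0 : V)) ∈ DA s ∩ DB s := by
      refine F1 z 0 0 hz ?_
      rw [sub_self, norm_zero]
      exact hκδ.le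
    exact (hγ0 z h2).symm

end OkaP
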