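import Pool.Agent.H.MP_ceb9a9.CylMain
import Pool.Agent.H.MP_ceb9a9.ExtPsh
import Pool.Agent.H.MP_ceb9a9.Neck
import Pool.Agent.H.MP_ceb9a9.Bump
import Pool.Agent.H.MP_ceb9a9.EtA

/-!
# MP_ceb9a9: the Oka principle in the form used, for `ℂ^n`
-/

set_option autoImplicit false
open Set Metric Filter
open scoped Topology Manifold

noncomputable section
namespace OkaP

variable {m : ℕ} {X : Type} [MetricSpace X] [ChartedSpace (Fin m → ℂ) X]
  [IsManifold 𝓘(ℂ, Fin m → ℂ) ⊤ X]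

theorem bumpData_move {p : X} (hp : CAPY m p) {E : Type} [NormedAddCommGroup E] [NormedSpace ℂ E]
    [FiniteDimensional ℂ E] {Z D D' : Set E} (hZ : IsOpen Z) (h : BumpData Z D D') :
    HolMove m p Z D D' := by
  have h1 := bump_move (m := m) hp hZ h.compact_D h.compact_B h.W_open h.B_W h.W_Z h.θ_hol h.θ_inj
    h.θ_der h.conv_B h.conv_C (by rw [← h.union]; exact h.pc_union) h.pc_inter
  rw [h.union]
  exact h1

omit [IsManifold 𝓘(ℂ, Fin m → ℂ) ⊤ X] in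
theorem HolState.mono {p : X} {E : Type} [NormedAddCommGroup E] [NormedSpace ℂ E]
    {Z D D' : Set E} {G : E × (Fin m → ℂ) → X} {r : ℝ} (h : HolState p Z D G r) (hD : D' ⊆ D) :
    HolState p Z D' G r := by
  obtain ⟨U, hU, hDU, hG⟩ := h.nhd
  exact ⟨h.rpos, ⟨U, hU, hD.trans hDU, hG⟩, fun x hx => h.avoid x (hD hx)⟩

theorem oka_principle_ee {p : X} (hp : CAPY m p) {n : ℕ} {R2 R1 : ℝ}
    (hR0 : 0 < R2) (hR : R2 < R1) {ρ : EEn n → ℝ} {U : Set (EEn n)} (hU : IsOpen U)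
    (hU1 : closedBall (0 : EEn n) R1 ⊆ U)
    (hρ : SPshOn ρ U) {m0 : ℝ} (hm0 : 0 < m0)
    {G : EEn n × (Fin m → ℂ) → X} {r : ℝ} (hr : 0 < r) (hG : EtCont G U r)
    {U0 : Set (EEn n)} (hU0 : IsOpen U0)
    (hU0D : ∀ x ∈ closedBall (0 : EEn n) R1, ρ x ≤ 0 → x ∈ U0)
    (hG0 : EtHol G U0 r) (havoid : ∀ x ∈ closedBall (0 : EEn n) R1, -m0 ≤ ρ x → G (x, 0) ≠ p)
    {η : ℝ} (hη : 0 < η) :
    ∃ (V : Set (EEn n)) (g : EEn n → X), IsOpen V ∧ closedBall (0 : EEn n) R2 ⊆ V ∧ HolOn m g V ∧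
      ∀ x ∈ closedBall (0 : EEn n) R2, ρ x ≤ -m0 → dist (g x) (G (x, 0)) < η := by
  classical
  -- the global psh function
  obtain ⟨R3, hR3, hR31⟩ := exists_between hR
  have hf : PshOn (fun x => ρ x + m0 / 2) U :=
    ⟨hρ.smooth.add contDiffOn_const, fun x hx v => by
      rw [levi_add_const]
      by_cases hv : v = 0
      · rw [hv]
        simp [levi, D2]
      · exact (hρ.pos x hx v hv).le⟩
  obtain ⟨F, hF, hFρ⟩ := extPsh_ball hU (hR0.le.trans hR3.le) hR31 hU1 hf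
  have hFc : Continuous F := hF.smooth.continuous
  have hsub31 : closedBall (0 : EEn n) R3 ⊆ closedBall 0 R1 := closedBall_subset_closedBall hR31.le
  -- the neck
  obtain ⟨r2, hr2, H⟩ := neck (m := m) (p := p) (G := G) (U := U) (U0 := U0) hFc (R1 := R3)
    (mm := m0 / 2) (r0 := r) (c0 := m0 / 12) (c1 := 2 * m0 / 12) (c4 := 3 * m0 / 12)
    (c5 := 4 * m0 / 12) (c5' := 5 * m0 / 12) hr (by positivity) (by linarith) (by linarith)
    (by linarith) (by linarith) (by positivity) hG (hsub31.trans hU1) hU0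
    (fun z hz hzF => hU0D z (hsub31 (mem_closedBall_zero_iff.2 hz)) (by
      rw [hFρ z (mem_closedBall_zero_iff.2 hz)] at hzF
      linarith)) hG0
    (fun z hz hzF => havoid z (hsub31 (mem_closedBall_zero_iff.2 hz)) (by
      rw [hFρ z (mem_closedBall_zero_iff.2 hz)] at hzF
      linarith)) (η := η / 2) (by positivity)
  obtain ⟨b, P, Q, hb, hP, hQ, hPQ, hPQi, hPQn, hPQt, hPl, hQl, HC⟩ :=
    cyl_main hF hR0 hR3 hr2 (a1 := m0 / 12) (a2 := 2 * m0 / 12) (a3 := 3 * m0 / 12)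
      (a4 := 4 * m0 / 12) (by positivity) (by linarith) (by linarith) (by linarith)
  obtain ⟨ε2, hε2, H2⟩ := H P Q hP hQ hPQ hPQi hPQn (fun x hx h => (hPQt x hx h).1) hPl hQl
  obtain ⟨D0, D1, hD0, hD0PQ, hD0t, hD0b, hD1b, HT⟩ := HC ε2 hε2
  obtain ⟨G0, s0, hG0s, hG0d⟩ := H2 D0 hD0PQ (fun x hx h => (hD0t x hx h).1)
  -- the bumps
  have hZ : IsOpen {x : E3 n | F x.1 < -(m0 / 2)} :=
    isOpen_lt (hFc.comp continuous_fst) continuous_const
  have hT := HT (m0 / 2) (by positivity) (fun D D' => ∀ (G : E3 n × (Fin m → ℂ) → X) (r : ℝ),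
      HolState p {x : E3 n | F x.1 < -(m0 / 2)} D G r → ∀ η > 0,
        ∃ (G' : E3 n × (Fin m → ℂ) → X) (r' : ℝ),
          HolState p {x : E3 n | F x.1 < -(m0 / 2)} D' G' r' ∧
          ∀ x ∈ D0, dist (G' (x, 0)) (G (x, 0)) < η)
    (fun D D' _ hDD G r hG η hη => ⟨G, r, hG.mono hDD, fun x _ => by simpa using hη⟩)
    (fun D D' D'' h h' G r hG η hη => by
      obtain ⟨G', r', hG', hd⟩ := h G r hG (η / 2) (by positivity)
      obtain ⟨G'', r'', hG'', hd'⟩ := h' G' r' hG' (η / 2) (by positivity)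
      refine ⟨G'', r'', hG'', fun x hx => ?_⟩
      calc dist (G'' (x, 0)) (G (x, 0))
          ≤ dist (G'' (x, 0)) (G' (x, 0)) + dist (G' (x, 0)) (G (x, 0)) := dist_triangle _ _ _
        _ < η / 2 + η / 2 := add_lt_add (hd' x hx) (hd x hx)
        _ = η := by ring)
    (fun D D' hD0D ⟨hB⟩ G r hG η hη => by
      obtain ⟨G', r', hG', hd⟩ := (bumpData_move hp hZ hB).2 G r hG η hη
      exact ⟨G', r', hG', fun x hx => hd x (hD0D hx)⟩)
  obtain ⟨G1, s1, hG1, hG1d⟩ := hT G0 s0 hG0s (η / 2) (by positivity)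
  obtain ⟨UD, hUD, hDUD, hG1h⟩ := hG1.nhd
  refine ⟨(fun z : EEn n => ((z, 0, (b : ℂ)) : E3 n)) ⁻¹' UD, fun z => G1 ((z, 0, (b : ℂ)), 0),
    ?_, ?_, ?_, ?_⟩
  · exact hUD.preimage (by fun_prop)
  · intro z hz
    exact hDUD (hD1b z (mem_closedBall_zero_iff.1 hz))
  · refine HolOn.comp (g := fun z : EEn n => ((z, 0, (b : ℂ)) : E3 n)) (hG1h.base hG1.rpos) ?_
      (fun z hz => hz)
    exact (differentiable_id.prodMk (differentiable_const _)).differentiableOn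
  · intro z hz hzρ
    have hz' := mem_closedBall_zero_iff.1 hz
    have hF0 : F z ≤ 0 := by
      rw [hFρ z (closedBall_subset_closedBall hR3.le hz)]
      linarith
    have hzD := hD0b z hz' hF0
    have h1 := hG1d _ hzD
    have h2 := hG0d _ hzD hF0
    calc dist (G1 ((z, 0, (b : ℂ)), 0)) (G (z, 0))
        ≤ dist (G1 ((z, 0, (b : ℂ)), 0)) (G0 ((z, 0, (b : ℂ)), 0)) +
          dist (G0 ((z, 0, (b : ℂ)), 0)) (G (z, 0)) := dist_triangle _ _ _
      _ < η / 2 + η / 2 := add_lt_add h1 h2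
      _ = η := by ring

end OkaP
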