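import Pool.Agent.H.MP_ceb9a9.OPState

/-!
# MP_ceb9a9: the Oka principle for `X` minus `p` in the form used
-/

set_option autoImplicit false

open scoped Manifold

namespace OkaP

open Set Metric Topology

theorem oka_principle {m : ℕ} {X : Type} [MetricSpace X] [ChartedSpace (Fin m → ℂ) X]
    [IsManifold 𝓘(ℂ, Fin m → ℂ) ⊤ X] {p : X} (hp : CAPY m p) {E : Type}
    [NormedAddCommGroup E] [InnerProductSpace ℂ E] [FiniteDimensional ℂ E] {R2 R1 : ℝ}
    (hR : R2 < R1) {ρ : E → ℝ} {U : Set E} (hU : IsOpen U) (hU1 : closedBall (0 : E) R1 ⊆ U)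
    (hρ : SPshOn ρ U) {m0 : ℝ} (hm0 : 0 < m0)
    {G : E × (Fin m → ℂ) → X} {r : ℝ} (hr : 0 < r) (hG : EtCont G U r)
    {U0 : Set E} (hU0 : IsOpen U0) (hU0D : ∀ x ∈ closedBall (0 : E) R1, ρ x ≤ 0 → x ∈ U0)
    (hG0 : EtHol G U0 r) (havoid : ∀ x ∈ closedBall (0 : E) R1, -m0 ≤ ρ x → G (x, 0) ≠ p)
    {η : ℝ} (hη : 0 < η) :
    ∃ (V : Set E) (g : E → X), IsOpen V ∧ closedBall (0 : E) R2 ⊆ V ∧ HolOn m g V ∧
      ∀ x ∈ closedBall (0 : E) R2, ρ x ≤ -m0 → dist (g x) (G (x, 0)) < η := by
  by_cases hR1 : R1 ≤ 0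
  · have hempty : closedBall (0 : E) R2 = ∅ := closedBall_eq_empty.2 (hR.trans_le hR1)
    refine ⟨∅, fun x => G (x, 0), isOpen_empty, by rw [hempty], ?_, ?_⟩
    · intro x hx
      exact absurd hx (Set.notMem_empty x)
    · intro x hx
      rw [hempty] at hx
      exact absurd hx (Set.notMem_empty x)
  · rw [not_le] at hR1
    let e : E ≃ₗᵢ[ℂ] EuclideanSpace ℂ (Fin (Module.finrank ℂ E)) := (stdOrthonormalBasis ℂ E).repr
    have hn : ∀ y, ‖e.symm y‖ = ‖y‖ := fun y => e.symm.norm_map y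
    have hce : Continuous (e.symm : EuclideanSpace ℂ (Fin (Module.finrank ℂ E)) → E) :=
      e.symm.continuous
    have hde : Differentiable ℂ (fun y => e.symm y) :=
      e.symm.toContinuousLinearEquiv.differentiable
    have hball : ∀ {R : ℝ} {y : EuclideanSpace ℂ (Fin (Module.finrank ℂ E))},
        y ∈ closedBall (0 : EuclideanSpace ℂ (Fin (Module.finrank ℂ E))) R ↔
          e.symm y ∈ closedBall (0 : E) R := by
      intro R y
      rw [mem_closedBall_zero_iff, mem_closedBall_zero_iff, hn]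
    have hR2 : max R2 (R1 / 2) < R1 := max_lt hR (by linarith)
    have hR20 : 0 < max R2 (R1 / 2) := lt_max_of_lt_right (by linarith)
    have hρ' : SPshOn (fun y => ρ (e.symm y)) (e.symm ⁻¹' U) := by
      refine ⟨?_, fun y hy v hv => ?_⟩
      · have hL : ContDiff ℝ ((⊤ : ℕ∞) : WithTop ℕ∞) (fun y => e.symm y) :=
          ((e.symm.toContinuousLinearEquiv :
            EuclideanSpace ℂ (Fin (Module.finrank ℂ E)) →L[ℂ] E).restrictScalars ℝ).contDiff
        exact hρ.smooth.comp hL.contDiffOn (fun y hy => hy)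
      · have h1 := levi_comp_linear (e.symm.toContinuousLinearEquiv : _ →L[ℂ] E) (f := ρ)
          (x := y) ((hρ.smooth _ hy).contDiffAt (hU.mem_nhds hy)) v
        have h2 : levi (fun y => ρ (e.symm y)) y v = levi ρ (e.symm y) (e.symm v) := h1
        rw [h2]
        exact hρ.pos _ hy _ (fun h => hv (by simpa using h))
    obtain ⟨V, g, hV, hVs, hg, hd⟩ := oka_principle_ee (m := m) hp hR20 hR2
      (hU.preimage hce) (fun y hy => hU1 (hball.1 hy)) hρ' hm0 hr
      (G := fun q => G (e.symm q.1, q.2))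
      (hG.pullback (a := fun y => e.symm y) hce.continuousOn (fun y hy => hy))
      (U0 := e.symm ⁻¹' U0) (hU0.preimage hce) (fun y hy h => hU0D _ (hball.1 hy) h)
      (hG0.pullback (a := fun y => e.symm y) hde.differentiableOn (fun y hy => hy))
      (fun y hy h => havoid _ (hball.1 hy) h) hη
    have hsub : closedBall (0 : E) R2 ⊆ closedBall 0 (max R2 (R1 / 2)) :=
      closedBall_subset_closedBall (le_max_left _ _)
    refine ⟨e ⁻¹' V, fun x => g (e x), hV.preimage e.continuous, ?_, ?_, ?_⟩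
    · intro x hx
      exact hVs (hball.2 (by simpa using hsub hx))
    · exact hg.comp (g := fun x => e x) e.toContinuousLinearEquiv.differentiable.differentiableOn
        (fun x hx => hx)
    · intro x hx hxρ
      have := hd (e x) (hball.2 (by simpa using hsub hx)) (by simpa using hxρ)
      simpa using this

end OkaP
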