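import Pool.Agent.H.MP_ceb9a9.Scv2

/-!
# MP_ceb9a9: integrals over compact sets depending on a holomorphic parameter

Proof.  Let `x0 ∈ U` and choose a closed ball `closedBall x0 (2 R) ⊆ U` (`E` is finite dimensional, so it is
compact).  `f` is continuous on the compact set `closedBall x0 (2 R) ×ˢ K0`, hence bounded there by some `M`.
For `x ∈ ball x0 R` and `t ∈ K0` the Cauchy estimate (`norm_fderiv_le`, module Scv1) gives
`‖fderiv ℂ (fun y => f (y, t)) x‖ ≤ M / R`.  Use
`hasFDerivAt_integral_of_dominated_of_fderiv_le` with the measure `μ.restrict K0` (finite, because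
`μ K0 < ⊤`) and the constant bound `M / R`.  Measurability: `t ↦ f (x, t)` is continuous on the compact
(so measurable) set `K0`, so it is ae strongly measurable for the restricted measure.  Measurability of
`t ↦ fderiv ℂ (fun y => f (y, t)) x0`: this map is continuous on `K0`: for `t, t'` in `K0` the Cauchy estimate
applied to `f (·, t) - f (·, t')` on `ball x0 R` gives
`‖fderiv .. t - fderiv .. t'‖ ≤ sup_{y ∈ closedBall x0 R} ‖f (y, t) - f (y, t')‖ / R`, which tends to `0` as
`t' → t` by uniform continuity of `f` on the compact set `closedBall x0 R ×ˢ K0`.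
-/

set_option autoImplicit false
open Set Metric Filter MeasureTheory
open scoped Topology

noncomputable section
namespace OkaP

/-- integrals over a compact set depending on a holomorphic parameter. -/
theorem differentiableOn_setIntegral {E F T : Type} [NormedAddCommGroup E] [NormedSpace ℂ E]
    [FiniteDimensional ℂ E] [NormedAddCommGroup F] [NormedSpace ℂ F] [FiniteDimensional ℂ F]
    [MetricSpace T] [MeasurableSpace T] [BorelSpace T] {μ : Measure T}
    {K0 : Set T} (hK0 : IsCompact K0) (hμ : μ K0 < ⊤) {f : E × T → F} {U : Set E} (hU : IsOpen U)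
    (hc : ContinuousOn f (U ×ˢ K0)) (hf : ∀ t ∈ K0, DifferentiableOn ℂ (fun x => f (x, t)) U) :
    DifferentiableOn ℂ (fun x => ∫ t in K0, f (x, t) ∂μ) U := by
  intro x0 hx0
  haveI : ProperSpace E := FiniteDimensional.proper ℂ E
  obtain ⟨ρ, hρ, hball⟩ := Metric.nhds_basis_closedBall.mem_iff.1 (hU.mem_nhds hx0)
  obtain ⟨R, hR, rfl⟩ : ∃ R : ℝ, 0 < R ∧ ρ = 2 * R := ⟨ρ / 2, by positivity, by ring⟩
  have hcomp : IsCompact (closedBall x0 (2 * R) ×ˢ K0) := (isCompact_closedBall _ _).prod hK0
  have hc1 : ContinuousOn f (closedBall x0 (2 * R) ×ˢ K0) :=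
    hc.mono (prod_mono hball Subset.rfl)
  obtain ⟨M, hM⟩ := hcomp.exists_bound_of_continuousOn hc1
  have hmeas : MeasurableSet K0 := hK0.measurableSet
  have hfin : IsFiniteMeasure (μ.restrict K0) := ⟨by rw [Measure.restrict_apply_univ]; exact hμ⟩
  have hsl : ∀ x ∈ U, ContinuousOn (fun t => f (x, t)) K0 := by
    intro x hx
    exact hc.comp (by fun_prop) (fun t ht => ⟨hx, ht⟩)
  have hFm : ∀ x ∈ U, AEStronglyMeasurable (fun t => f (x, t)) (μ.restrict K0) := fun x hx =>
    (hsl x hx).aestronglyMeasurable_of_isCompact hK0 hmeas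
  have hsub : ∀ x ∈ ball x0 R, ball x R ⊆ closedBall x0 (2 * R) := by
    intro x hx y hy
    rw [mem_ball] at hx hy
    rw [mem_closedBall]
    linarith [dist_triangle y x x0]
  have hbound : ∀ t ∈ K0, ∀ x ∈ ball x0 R, ‖fderiv ℂ (fun y => f (y, t)) x‖ ≤ M / R := by
    intro t ht x hx
    refine norm_fderiv_le hR ((hf t ht).mono ((hsub x hx).trans hball)) fun y hy => ?_
    exact hM (y, t) ⟨hsub x hx hy, ht⟩
  have hdc : ContinuousOn (fun t => fderiv ℂ (fun y => f (y, t)) x0) K0 := by
    rw [Metric.continuousOn_iff]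
    intro t ht ε hε
    have hun := hcomp.uniformContinuousOn_of_continuous hc1
    rw [Metric.uniformContinuousOn_iff] at hun
    obtain ⟨δ, hδ, hun⟩ := hun (ε * R / 2) (by positivity)
    refine ⟨δ, hδ, fun t' ht' hd => ?_⟩
    have hx0b : x0 ∈ ball x0 R := mem_ball_self hR
    have hdt : ∀ s ∈ K0, DifferentiableAt ℂ (fun y => f (y, s)) x0 := fun s hs =>
      (hf s hs).differentiableAt (hU.mem_nhds hx0)
    have h1 := norm_fderiv_le (f := fun y => f (y, t') - f (y, t)) (x := x0) (M := ε * R / 2)
      hR (((hf t' ht').mono ((hsub x0 hx0b).trans hball)).sub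
        ((hf t ht).mono ((hsub x0 hx0b).trans hball))) (by
        intro y hy
        have h2 := hun (y, t') ⟨hsub x0 hx0b hy, ht'⟩ (y, t) ⟨hsub x0 hx0b hy, ht⟩ (by
          rw [Prod.dist_eq, dist_self]
          exact max_lt hδ hd)
        rw [dist_eq_norm] at h2
        exact h2.le)
    have h3 : fderiv ℂ (fun y => f (y, t') - f (y, t)) x0 =
        fderiv ℂ (fun y => f (y, t')) x0 - fderiv ℂ (fun y => f (y, t)) x0 :=
      ((hdt t' ht').hasFDerivAt.sub (hdt t ht).hasFDerivAt).fderiv
    rw [h3] at h1
    rw [dist_eq_norm]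
    refine h1.trans_lt ?_
    rw [div_lt_iff₀ hR]
    nlinarith [mul_pos hε hR]
  have hmain := hasFDerivAt_integral_of_dominated_of_fderiv_le (𝕜 := ℂ) (μ := μ.restrict K0)
    (F := fun x t => f (x, t)) (F' := fun x t => fderiv ℂ (fun y => f (y, t)) x)
    (x₀ := x0) (s := ball x0 R) (bound := fun _ => M / R)
    (ball_mem_nhds x0 hR)
    (by
      filter_upwards [hU.mem_nhds hx0] with x hx using hFm x hx)
    (by
      refine Integrable.of_bound (hFm x0 hx0) M ?_
      filter_upwards [ae_restrict_mem hmeas] with t ht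
      exact hM (x0, t) ⟨mem_closedBall_self (by positivity), ht⟩)
    (hdc.aestronglyMeasurable_of_isCompact hK0 hmeas)
    (by
      filter_upwards [ae_restrict_mem hmeas] with t ht x hx using hbound t ht x hx)
    (integrable_const _)
    (by
      filter_upwards [ae_restrict_mem hmeas] with t ht x hx
      exact ((hf t ht).differentiableAt (hU.mem_nhds (hball (by
        rw [mem_ball] at hx
        rw [mem_closedBall]; linarith)))).hasFDerivAt)
  exact hmain.differentiableAt.differentiableWithinAt

end OkaP
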