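import Pool.Agent.H.MP_ceb9a9.StepThm
import Pool.Agent.H.MP_ceb9a9.Kappa

/-!
# MP_ceb9a9: the path argument
-/

set_option autoImplicit false

open scoped Manifold

namespace OkaP

open Set Metric Topology

/-- every map holomorphic near a compact convex set is a limit of maps holomorphic near large
balls. -/
theorem appr_all {m : ℕ} {X : Type} [MetricSpace X] [SecondCountableTopology X]
    [ChartedSpace (Fin m → ℂ) X]
    [IsManifold 𝓘(ℂ, Fin m → ℂ) ⊤ X] {p : X} (hp : CAPY m p)
    {E : Type} [NormedAddCommGroup E] [InnerProductSpace ℂ E] [FiniteDimensional ℂ E]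
    {K U : Set E} (hK : IsCompact K) (hKc : Convex ℝ K) (hU : IsOpen U) (hKU : K ⊆ U)
    {f : E → X} (hf : HolOn m f U) (R : ℝ) {ε : ℝ} (hε : 0 < ε) :
    ∃ (V : Set E) (g : E → X), IsOpen V ∧ closedBall (0 : E) R ⊆ V ∧ HolOn m g V ∧
      ∀ x ∈ K, dist (f x) (g x) < ε := by
  rcases K.eq_empty_or_nonempty with hem | ⟨x0, hx0⟩
  · refine ⟨univ, fun _ => p, isOpen_univ, subset_univ _, holOn_const _ _, ?_⟩
    intro x hx
    rw [hem] at hx
    exact absurd hx (notMem_empty x)
  obtain ⟨κ, hκ, hκv, hκc, hκK, hκU⟩ := exists_kappa hK hKc hU hKU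
  obtain ⟨S, μ, hμ, hT⟩ := exists_sigma_theta hp
  set a : ℝ → E → E := fun s x => x0 + ((s : ℝ) : ℂ) • (x - x0) with ha
  have hac : Continuous fun q : ℝ × E => a q.1 q.2 := by
    simp only [ha]
    exact continuous_const.add ((Complex.continuous_ofReal.comp continuous_fst).smul
      (continuous_snd.sub continuous_const))
  have hac1 : ∀ s, Continuous (a s) := fun s =>
    hac.comp (continuous_const.prodMk continuous_id)
  have had : ∀ s, Differentiable ℂ (a s) := fun s => by
    simp only [ha]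
    exact (differentiable_const x0).add ((differentiable_id.sub_const x0).const_smul _)
  have hak : ∀ s ∈ Icc (0 : ℝ) 1, ∀ x, κ x ≤ 1 → κ (a s x) ≤ 1 := by
    intro s hs x hx
    have h1 := hκv.2 (mem_univ x0) (mem_univ x) (by linarith [hs.2] : (0 : ℝ) ≤ 1 - s) hs.1
      (by ring)
    have h2 : a s x = (1 - s) • x0 + s • x := by
      simp only [ha]
      rw [Complex.coe_smul, smul_sub, sub_smul, one_smul]
      abel
    rw [h2]
    refine h1.trans ?_
    have h3 := hκK x0 hx0
    simp only [smul_eq_mul]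
    nlinarith [hs.1, hs.2]
  have hUo : ∀ s, IsOpen {x | a s x ∈ U} := fun s => hU.preimage (hac1 s)
  have hfh : ∀ s, HolOn m (fun x => f (a s x)) {x | a s x ∈ U} := fun s =>
    HolOn.comp hf (had s).differentiableOn (fun x hx => hx)
  have hsub : ∀ s ∈ Icc (0 : ℝ) 1, {x | κ x ≤ 1} ⊆ {x | a s x ∈ U} := fun s hs x hx =>
    hκU (hak s hs x hx)
  have hkey : ∀ s0 ∈ Icc (0 : ℝ) 1, ∀ᶠ s in 𝓝[Icc (0 : ℝ) 1] s0,
      (Appr m κ (fun x => f (a s0 x)) → Appr m κ (fun x => f (a s x))) ∧
      (Appr m κ (fun x => f (a s x)) → Appr m κ (fun x => f (a s0 x))) := by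
    intro s0 hs0
    obtain ⟨δ, hδ, hstep⟩ := step_thm hp hμ hT hκ hκv hκc (hUo s0) (hsub s0 hs0) (hfh s0)
    have h1 : ∀ᶠ s in 𝓝 s0, ∀ x ∈ {x | κ x ≤ 1}, dist (f (a s x)) (f (a s0 x)) < δ := by
      refine (hκc 1).eventually_forall_of_forall_eventually ?_
      intro y hy
      have hfc : ContinuousAt f (a s0 y) :=
        hf.continuousOn.continuousAt (hU.mem_nhds (hsub s0 hs0 hy))
      have h2 : ContinuousAt (fun q : ℝ × E => f (a q.1 q.2)) (s0, y) :=
        ContinuousAt.comp (f := fun q : ℝ × E => a q.1 q.2) (x := (s0, y)) hfc hac.continuousAt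
      have h3 : ContinuousAt (fun q : ℝ × E => f (a s0 q.2)) (s0, y) :=
        ContinuousAt.comp (f := fun q : ℝ × E => a s0 q.2) (x := (s0, y)) hfc
          ((hac1 s0).comp continuous_snd).continuousAt
      refine (h2.dist h3).eventually_lt_const ?_
      simp only [dist_self]
      exact hδ
    have h2 : ∀ᶠ s in 𝓝[Icc (0 : ℝ) 1] s0,
        ∀ x ∈ {x | κ x ≤ 1}, dist (f (a s x)) (f (a s0 x)) < δ :=
      h1.filter_mono nhdsWithin_le_nhds
    filter_upwards [h2, self_mem_nhdsWithin] with s hs hsI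
    constructor
    · refine hstep _ _ ({x | a s0 x ∈ U} ∩ {x | a s x ∈ U}) ((hUo s0).inter (hUo s))
        (subset_inter (hsub s0 hs0) (hsub s hsI)) ((hfh s0).mono inter_subset_left)
        ((hfh s).mono inter_subset_right) ?_
      intro x hx
      exact ⟨by rw [dist_self]; exact hδ, hs x hx⟩
    · refine hstep _ _ ({x | a s0 x ∈ U} ∩ {x | a s x ∈ U}) ((hUo s0).inter (hUo s))
        (subset_inter (hsub s0 hs0) (hsub s hsI)) ((hfh s).mono inter_subset_right)
        ((hfh s0).mono inter_subset_left) ?_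
      intro x hx
      exact ⟨hs x hx, by rw [dist_self]; exact hδ⟩
  have hP := isPreconnected_Icc.induction₂'
    (fun s s' : ℝ => Appr m κ (fun x => f (a s x)) → Appr m κ (fun x => f (a s' x))) hkey
    (fun x y z _ _ _ h1 h2 h3 => h2 (h1 h3)) (left_mem_Icc.2 zero_le_one)
    (right_mem_Icc.2 zero_le_one)
  have h0 : Appr m κ (fun x => f (a 0 x)) := by
    intro R' s _ ε' hε'
    refine ⟨univ, fun _ => f x0, isOpen_univ, subset_univ _, holOn_const _ _, ?_⟩
    intro x _
    simp only [ha, Complex.ofReal_zero, zero_smul, add_zero, dist_self]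
    exact hε'
  obtain ⟨V, F, hV, hRV, hF, hd⟩ := hP h0 R 0 (by norm_num) ε hε
  refine ⟨V, F, hV, hRV, hF, fun x hx => ?_⟩
  have h1 := hd x (hκK x hx).le
  simp only [ha, Complex.ofReal_one, one_smul, add_sub_cancel] at h1
  rw [dist_comm]
  exact h1

end OkaP
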