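import Pool.Agent.H.MP_ceb9a9.FGeom

/-!
# MP_ceb9a9: the family over the global map `F`, its coordinates over the convex set and
near the tube
-/

set_option autoImplicit false

open scoped Manifold

namespace OkaP

open Set Metric Topology

/-- chart family over `F` near the ball, with its coordinate `v` in `D.Φ` over `{κ < s5}` -/
structure PsiData {m : ℕ} {X : Type} [MetricSpace X] [ChartedSpace (Fin m → ℂ) X] {p : X}
    {S : SigmaData m p} {E : Type} [NormedAddCommGroup E] [NormedSpace ℂ E] {κ : E → ℝ}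
    {fs f1 f2 : E → X} {D : LocData S {x | κ x ≤ 1} fs} {k : ℕ} {ηK : ℝ}
    {KS : KSideData D f1 f2 k ηK} {s4 R' η ε1 : ℝ} (A : FData KS s4 R' η ε1) (s5 ρ3 : ℝ) where
  Ψ : E × (Fin m → ℂ) → X
  UΨ : Set E
  r : ℝ
  v : E × (Fin m → ℂ) → (Fin m → ℂ)
  UΨ_open : IsOpen UΨ
  UΨ_sub : closedBall (0 : E) R' ⊆ UΨ
  UΨ_UF : UΨ ⊆ A.UF
  r_pos : 0 < r
  hol : EtHol Ψ UΨ r
  base : ∀ x ∈ UΨ, Ψ (x, 0) = A.F x
  v_hol : EtHol v {x | κ x < s5} r
  v_zero : ∀ x, κ x < s5 → v (x, 0) = A.cF x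
  v_lt : ∀ x, κ x < s5 → ∀ t ∈ ball (0 : Fin m → ℂ) r, ‖v (x, t)‖ < ρ3
  v_spec : ∀ x, κ x < s5 → ∀ t ∈ ball (0 : Fin m → ℂ) r, D.Φ (x, v (x, t)) = Ψ (x, t)

theorem exists_psi {m : ℕ} {X : Type} [MetricSpace X] [ChartedSpace (Fin m → ℂ) X]
    [IsManifold 𝓘(ℂ, Fin m → ℂ) ⊤ X] {p : X} {S : SigmaData m p} {E : Type}
    [NormedAddCommGroup E] [NormedSpace ℂ E] [FiniteDimensional ℂ E] {κ : E → ℝ}
    (hκ : Continuous κ) (hκc : ∀ a : ℝ, IsCompact {x | κ x ≤ a})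
    {fs f1 f2 : E → X} {D : LocData S {x | κ x ≤ 1} fs} {k : ℕ} {ηK : ℝ}
    {KS : KSideData D f1 f2 k ηK} {s4 R' η ε1 : ℝ} (A : FData KS s4 R' η ε1)
    (hR' : {x | κ x ≤ 1} ⊆ ball (0 : E) R') {s5 ρ3 : ℝ}
    (hs5 : s5 < s4) (hs4 : s4 ≤ 1 / 2) (hρ3 : η < ρ3) (hρr : 2 * ρ3 ≤ D.r0) :
    Nonempty (PsiData A s5 ρ3) := by
  have hprop : ProperSpace E := FiniteDimensional.proper ℂ E
  obtain ⟨W, r, Ψ, hW, hKW, hr, hΨ, hΨ0⟩ := es_hol (isCompact_closedBall (0 : E) R')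
    (convex_closedBall (0 : E) R') A.UF_open A.UF_sub A.F_hol
  have hΨe : EtHol Ψ (W ∩ A.UF) r := hΨ.etHol.mono inter_subset_left le_rfl
  have hη : η < D.r0 := by
    have := D.r0_pos
    linarith
  have hs4U : {x | κ x < s4} ⊆ W ∩ A.UF := by
    intro x hx
    have h1 : x ∈ ball (0 : E) R' := hR' (by
      have h2 : κ x < s4 := hx
      show κ x ≤ 1
      linarith)
    exact ⟨hKW (ball_subset_closedBall h1), A.UF_sub (ball_subset_closedBall h1)⟩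
  have hs4D : {x | κ x < s4} ⊆ D.U := by
    intro x hx
    apply D.K_U
    have h2 : κ x < s4 := hx
    show κ x ≤ 1
    linarith
  have hopen4 : IsOpen {x | κ x < s4} := isOpen_lt hκ continuous_const
  have htr : EtHol (fun q : E × (Fin m → ℂ) => A.cF q.1 + q.2) {x | κ x < s4} (D.r0 - η) :=
    etHol_translate (D.r0 - η) hopen4 A.cF_hol
  have htrm : ∀ x ∈ {x | κ x < s4}, ∀ u ∈ ball (0 : Fin m → ℂ) (D.r0 - η),
      A.cF x + u ∈ ball (0 : Fin m → ℂ) D.r0 := by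
    intro x hx u hu
    rw [mem_ball_zero_iff] at hu ⊢
    have h1 := (A.cF_spec x hx).1
    have h2 := norm_add_le (A.cF x) u
    linarith
  have hΦF : EtHol (fun q : E × (Fin m → ℂ) => D.Φ (q.1, A.cF q.1 + q.2)) {x | κ x < s4}
      (D.r0 - η) := (D.hol.mono hs4D le_rfl).comp htr htrm
  have hs5c : IsCompact {x | κ x ≤ s5} := hκc s5
  have hs54 : {x | κ x ≤ s5} ⊆ {x | κ x < s4} := fun x hx => lt_of_le_of_lt hx hs5
  obtain ⟨r', hr', hr'r, V', hV', hKV', hV'4, δ, hδ, hδ0, hδs⟩ := EtHol.transition hopen4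
    (hΨe.mono hs4U le_rfl) hΦF hr (by linarith) hs5c hs54 (by
      intro x hx
      rw [hΨ0 x (hs4U hx).1, add_zero, (A.cF_spec x hx).2.2])
  have hv : EtHol (fun q : E × (Fin m → ℂ) => A.cF q.1 + δ q) V' r' :=
    EtHol.comp (htr.mono hV'4 le_rfl) hδ (fun x hx u hu => (hδs x hx u hu).1)
  obtain ⟨r'', hr'', hr''r, hsm⟩ := etD_uniform_radius (hv.toEtCont.mono hKV' le_rfl) hr' hs5c
    (sub_pos.2 hρ3)
  have hs5V : {x | κ x < s5} ⊆ V' := fun x (hx : κ x < s5) => hKV' (show κ x ≤ s5 from hx.le)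
  refine ⟨{ Ψ := Ψ, UΨ := W ∩ A.UF, r := r'', v := fun q => A.cF q.1 + δ q,
            UΨ_open := hW.inter A.UF_open, UΨ_sub := subset_inter hKW A.UF_sub,
            UΨ_UF := inter_subset_right, r_pos := hr'',
            hol := hΨe.mono Subset.rfl (hr''r.trans hr'r), base := fun x hx => hΨ0 x hx.1,
            v_hol := hv.mono hs5V hr''r, v_zero := ?_, v_lt := ?_, v_spec := ?_ }⟩
  · intro x hx
    show A.cF x + δ (x, 0) = A.cF x
    rw [hδ0 x (hs5V hx), add_zero]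
  · intro x hx t ht
    have h1 := hsm x (le_of_lt hx) t ht
    have h2 := (A.cF_spec x (hs54 (le_of_lt hx))).1
    simp only [hδ0 x (hs5V hx), add_zero] at h1
    rw [dist_comm, dist_eq_norm] at h1
    have h3 := norm_le_norm_add_norm_sub' (A.cF x + δ (x, t)) (A.cF x)
    show ‖A.cF x + δ (x, t)‖ < ρ3
    linarith
  · intro x hx t ht
    exact (hδs x (hs5V hx) t (ball_subset_ball hr''r ht)).2

/-- a positive continuous function on a compact set has a positive lower bound -/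
theorem psiFam_lower {T : Type} [TopologicalSpace T] {K : Set T} (hK : IsCompact K) {f : T → ℝ}
    (hf : ContinuousOn f K) (hpos : ∀ x ∈ K, 0 < f x) : ∃ a > 0, ∀ x ∈ K, a ≤ f x := by
  rcases K.eq_empty_or_nonempty with hKe | hKn
  · exact ⟨1, one_pos, fun x hx => by rw [hKe] at hx; exact absurd hx (notMem_empty x)⟩
  · obtain ⟨x0, hx0, h0⟩ := hK.exists_isMinOn hKn hf
    exact ⟨f x0, hpos x0 hx0, fun x hx => h0 hx⟩

/-- the family `T.Er` as a chart family -/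
theorem psiFam_er {m : ℕ} {X : Type} [MetricSpace X] [ChartedSpace (Fin m → ℂ) X] {p : X}
    {S : SigmaData m p} {R ε : ℝ} (T : ThetaData S R ε) :
    Fam m T.Er {q : (Fin m → ℂ) × (Fin m → ℂ) | q.1 ∈ ball (0 : Fin m → ℂ) R ∧ ‖q.2‖ < T.r q.1} where
  isOpen := by
    have h1 : IsOpen ((ball (0 : Fin m → ℂ) R) ×ˢ (univ : Set (Fin m → ℂ))) :=
      isOpen_ball.prod isOpen_univ
    have h2 : ContinuousOn (fun q : (Fin m → ℂ) × (Fin m → ℂ) => T.r q.1 - ‖q.2‖)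
        ((ball (0 : Fin m → ℂ) R) ×ˢ (univ : Set (Fin m → ℂ))) :=
      (T.r_cont.comp continuousOn_fst fun q hq => hq.1).sub continuousOn_snd.norm
    have h3 := h2.isOpen_inter_preimage h1 (isOpen_Ioi (a := (0 : ℝ)))
    convert h3 using 1
    ext q
    simp [sub_pos]
  hol := T.hol
  inj := fun z u v hu hv h => T.inj z hu.1 (mem_ball_zero_iff.2 hu.2) (mem_ball_zero_iff.2 hv.2) h
  der := fun z u hu => T.der z hu.1 u (mem_ball_zero_iff.2 hu.2)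

/-- coordinate of `Ψ` in `T.Er (tt x, ·)` near the tube of radius `c3` -/
structure TubeU {m : ℕ} {X : Type} [MetricSpace X] [ChartedSpace (Fin m → ℂ) X] {p : X}
    {S : SigmaData m p} {E : Type} [NormedAddCommGroup E] [NormedSpace ℂ E] {κ : E → ℝ}
    {fs f1 f2 : E → X} {D : LocData S {x | κ x ≤ 1} fs} {k : ℕ} {ηK : ℝ}
    {KS : KSideData D f1 f2 k ηK} {s4 R' η ε1 : ℝ} {A : FData KS s4 R' η ε1} {s5 ρ3 : ℝ}
    (P : PsiData A s5 ρ3) (cT : ℝ) where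
  UT : Set E
  U2 : E × (Fin m → ℂ) → (Fin m → ℂ)
  r : ℝ
  CU : ℝ
  UT_open : IsOpen UT
  UT_N : UT ⊆ A.N
  UT_Ψ : UT ⊆ P.UΨ
  UT_sub : ∀ x ∈ closedBall (0 : E) R', x ∈ A.N → ‖A.û x‖ ≤ cT → x ∈ UT
  r_pos : 0 < r
  r_le : r ≤ P.r
  CU_pos : 0 < CU
  U2_hol : EtHol U2 UT r
  U2_zero : ∀ x ∈ UT, U2 (x, 0) = A.û x
  U2_lt : ∀ x ∈ UT, ∀ t ∈ ball (0 : Fin m → ℂ) r, ‖U2 (x, t)‖ < A.T.r (A.tt x) / 4 ∧
    ‖U2 (x, t)‖ < S.c / 4
  U2_spec : ∀ x ∈ UT, ∀ t ∈ ball (0 : Fin m → ℂ) r, A.T.Er (A.tt x, U2 (x, t)) = P.Ψ (x, t)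
  U2_lip : ∀ x ∈ UT, ∀ t ∈ ball (0 : Fin m → ℂ) r, ∀ t' ∈ ball (0 : Fin m → ℂ) r,
    ‖U2 (x, t) - U2 (x, t')‖ ≤ CU * ‖t - t'‖

theorem exists_tubeU {m : ℕ} {X : Type} [MetricSpace X] [ChartedSpace (Fin m → ℂ) X]
    [IsManifold 𝓘(ℂ, Fin m → ℂ) ⊤ X] {p : X} {S : SigmaData m p} {E : Type}
    [NormedAddCommGroup E] [NormedSpace ℂ E] [FiniteDimensional ℂ E] {κ : E → ℝ}
    {fs f1 f2 : E → X} {D : LocData S {x | κ x ≤ 1} fs} {k : ℕ} {ηK : ℝ}
    {KS : KSideData D f1 f2 k ηK} {s4 R' η ε1 : ℝ} {A : FData KS s4 R' η ε1} {s5 ρ3 : ℝ}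
    (P : PsiData A s5 ρ3) : ∃ cT > 0, cT ≤ D.c1 / 16 ∧
      IsCompact {x | x ∈ closedBall (0 : E) R' ∧ x ∈ A.N ∧ ‖A.û x‖ ≤ cT} ∧
      Nonempty (TubeU P cT) := by
  have hprop : ProperSpace E := FiniteDimensional.proper ℂ E
  obtain ⟨c, hc, hcS, hcomp⟩ := A.tube
  have hSc := S.c_pos
  have hD1 := D.c1_pos
  have hD2 := D.c1_le
  set cT := min c (D.c1 / 16) with hcT
  have hcT0 : 0 < cT := lt_min hc (by positivity)
  have hcTc : cT ≤ c := min_le_left _ _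
  have hT0 := hcomp cT hcTc
  refine ⟨cT, hcT0, min_le_right _ _, hT0, ?_⟩
  set T0 := {x | x ∈ closedBall (0 : E) R' ∧ x ∈ A.N ∧ ‖A.û x‖ ≤ cT} with hT0def
  -- an open neighbourhood of the tube
  have hûc : ContinuousOn A.û A.N := A.û_hol.continuousOn
  have hO1 : IsOpen (A.N ∩ (fun x => ‖A.û x‖) ⁻¹' (Iio (S.c / 8))) :=
    hûc.norm.isOpen_inter_preimage A.N_open isOpen_Iio
  have hO : IsOpen ((A.N ∩ (fun x => ‖A.û x‖) ⁻¹' (Iio (S.c / 8))) ∩ P.UΨ) :=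
    hO1.inter P.UΨ_open
  have hT0O : T0 ⊆ (A.N ∩ (fun x => ‖A.û x‖) ⁻¹' (Iio (S.c / 8))) ∩ P.UΨ := by
    rintro x ⟨hx1, hx2, hx3⟩
    refine ⟨⟨hx2, ?_⟩, P.UΨ_sub hx1⟩
    show ‖A.û x‖ < S.c / 8
    linarith
  obtain ⟨L, hL, hT0L, hLO⟩ := exists_compact_between hT0 hO hT0O
  have hLN : L ⊆ A.N := fun x hx => (hLO hx).1.1
  have hLΨ : L ⊆ P.UΨ := fun x hx => (hLO hx).2
  have hLc : ∀ x ∈ L, ‖A.û x‖ < S.c / 8 := fun x hx => (hLO hx).1.2
  have htt : ContinuousOn A.tt L := A.tt_hol.continuous.continuousOn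
  have httR : ∀ x ∈ L, A.tt x ∈ ball (0 : Fin m → ℂ) A.R := fun x hx =>
    mem_ball_zero_iff.2 (A.tt_le x (A.N_UF (hLN hx)))
  have hrc : ContinuousOn (fun x => A.T.r (A.tt x)) L := A.T.r_cont.comp htt httR
  obtain ⟨η1, hη1, hη1b⟩ := psiFam_lower hL
    (f := fun x => A.T.r (A.tt x) / 4 - ‖A.û x‖)
    ((hrc.div_const 4).sub (hûc.mono hLN).norm)
    (fun x hx => sub_pos.2 (A.û_spec x (hLN hx)).1)
  -- solve
  have hfam := psiFam_er A.T
  have hC0 : IsCompact ((fun x => (A.tt x, A.û x)) '' L) :=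
    hL.image_of_continuousOn (htt.prodMk (hûc.mono hLN))
  have hC0D : ((fun x => (A.tt x, A.û x)) '' L) ⊆ {q : (Fin m → ℂ) × (Fin m → ℂ) |
      q.1 ∈ ball (0 : Fin m → ℂ) A.R ∧ ‖q.2‖ < A.T.r q.1} := by
    rintro _ ⟨x, hx, rfl⟩
    refine ⟨httR x hx, ?_⟩
    have h1 := (A.û_spec x (hLN hx)).1
    have h2 := A.T.r_pos _ (httR x hx)
    show ‖A.û x‖ < A.T.r (A.tt x)
    linarith
  have hη3 : 0 < min η1 (S.c / 8) := lt_min hη1 (by positivity)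
  obtain ⟨ε, hε, hsolve⟩ := hfam.solve hC0 hC0D hη3
  obtain ⟨r4, hr4, hr4P, hsm⟩ := etD_uniform_radius (P.hol.toEtCont.mono hLΨ le_rfl) P.r_pos hL hε
  have hiL : interior L ⊆ L := interior_subset
  obtain ⟨U2, hU2d, hU2⟩ := hsolve (E × (Fin m → ℂ)) (interior L ×ˢ ball (0 : Fin m → ℂ) r4)
    (fun w => A.tt w.1) P.Ψ (fun w => A.û w.1) (isOpen_interior.prod isOpen_ball)
    (A.tt_hol.comp differentiable_fst).differentiableOn
    (P.hol.hol.mono (prod_mono (hiL.trans hLΨ) (ball_subset_ball hr4P))) (by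
      rintro ⟨x, t⟩ ⟨hx, ht⟩
      refine ⟨⟨x, hiL hx, rfl⟩, ?_⟩
      have h1 := hsm x (hiL hx) t ht
      show dist (A.T.Er (A.tt x, A.û x)) (P.Ψ (x, t)) < ε
      rw [(A.û_spec x (hLN (hiL hx))).2, ← P.base x (hLΨ (hiL hx))]
      exact h1)
  have hU2' : ∀ x ∈ interior L, ∀ t ∈ ball (0 : Fin m → ℂ) r4,
      ‖U2 (x, t)‖ < A.T.r (A.tt x) / 4 ∧ ‖U2 (x, t)‖ < S.c / 4 ∧
      A.T.Er (A.tt x, U2 (x, t)) = P.Ψ (x, t) := by
    intro x hx t ht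
    obtain ⟨h1, h2, h3⟩ := hU2 (x, t) ⟨hx, ht⟩
    have h4 := hη1b x (hiL hx)
    have h5 := hLc x (hiL hx)
    have h6 := lt_min_iff.1 h1
    have h7 := norm_le_norm_add_norm_sub' (U2 (x, t)) (A.û x)
    have h8 : ‖U2 (x, t) - A.û x‖ < η1 := h6.1
    have h9 : ‖U2 (x, t) - A.û x‖ < S.c / 8 := h6.2
    refine ⟨?_, ?_, h3⟩
    · linarith
    · linarith
  have hxet : ∀ x ∈ interior L, EtCont U2 {x} r4 := by
    intro x hx
    have h1 : EtCont P.Ψ {x} r4 :=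
      P.hol.toEtCont.mono (singleton_subset_iff.2 (hLΨ (hiL hx))) hr4P
    have h2 : EtCont (fun q : E × (Fin m → ℂ) => A.T.Er (A.tt x, q.2)) {x} (A.T.r (A.tt x)) := by
      have h3 : HolOn m (fun u => A.T.Er (A.tt x, u)) (ball (0 : Fin m → ℂ) (A.T.r (A.tt x))) :=
        (Fam_slice hfam (A.tt x)).mono fun u hu => ⟨httR x (hiL hx), mem_ball_zero_iff.1 hu⟩
      refine ⟨h3.continuousOn.comp continuousOn_snd fun q hq => hq.2, fun _ _ => h3,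
        fun _ _ => A.T.inj _ (httR x (hiL hx)), fun _ _ => A.T.der _ (httR x (hiL hx))⟩
    refine etD_coord_etCont h1 h2 ?_
    intro y hy u hu
    rw [mem_singleton_iff] at hy
    subst hy
    obtain ⟨h3, h4, h5⟩ := hU2' y hx u hu
    have h6 := A.T.r_pos _ (httR y (hiL hx))
    exact ⟨mem_ball_zero_iff.2 (by linarith), h5⟩
  have hU2et : EtHol U2 (interior L) r4 :=
    EtHol.of_etCont_fib isOpen_interior (mdifferentiableOn_iff_differentiableOn.2 hU2d)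
      (fun x hx => (hxet x hx).inj x rfl) (fun x hx => (hxet x hx).der x rfl)
  refine ⟨{ UT := interior L, U2 := U2, r := r4 / 2, CU := 2 * (S.c / 4) / r4,
            UT_open := isOpen_interior, UT_N := hiL.trans hLN, UT_Ψ := hiL.trans hLΨ,
            UT_sub := fun x hx1 hx2 hx3 => hT0L ⟨hx1, hx2, hx3⟩, r_pos := by positivity,
            r_le := by linarith, CU_pos := by positivity,
            U2_hol := hU2et.mono Subset.rfl (by linarith), U2_zero := ?_, U2_lt := ?_,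
            U2_spec := ?_, U2_lip := ?_ }⟩
  · intro x hx
    obtain ⟨h3, h4, h5⟩ := hU2' x hx 0 (mem_ball_self hr4)
    have h6 := A.T.r_pos _ (httR x (hiL hx))
    have h7 := A.û_spec x (hLN (hiL hx))
    refine A.T.inj _ (httR x (hiL hx)) (mem_ball_zero_iff.2 (by linarith))
      (mem_ball_zero_iff.2 (by linarith [h7.1])) ?_
    show A.T.Er (A.tt x, U2 (x, 0)) = A.T.Er (A.tt x, A.û x)
    rw [h5, h7.2, P.base x (hLΨ (hiL hx))]
  · intro x hx t ht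
    obtain ⟨h3, h4, h5⟩ := hU2' x hx t (ball_subset_ball (by linarith) ht)
    exact ⟨h3, h4⟩
  · intro x hx t ht
    exact (hU2' x hx t (ball_subset_ball (by linarith) ht)).2.2
  · intro x hx t ht t' ht'
    have h1 : DifferentiableOn ℂ (fun t => U2 (x, t)) (ball (0 : Fin m → ℂ) r4) :=
      hU2d.comp ((differentiableOn_const x).prodMk differentiableOn_id) fun u hu => ⟨hx, hu⟩
    exact norm_sub_le_of_bound (f := fun t => U2 (x, t)) hr4 h1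
      (fun y hy => (hU2' x hx y hy).2.1.le) ht ht'

end OkaP
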