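import Pool.Agent.H.MP_ceb9a9.EsHol

set_option autoImplicit false
open Set Metric Filter
open scoped Topology Manifold

noncomputable section
namespace OkaP

variable {m : ℕ} {X : Type} [MetricSpace X] [ChartedSpace (Fin m → ℂ) X]
  [IsManifold 𝓘(ℂ, Fin m → ℂ) ⊤ X]
variable {E : Type} [NormedAddCommGroup E] [NormedSpace ℂ E] [FiniteDimensional ℂ E]

/-- Extension of a holomorphic map across a slab on which it avoids `p`, without creating new
`p`-points beyond the slab. -/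
theorem push {p : X} (hY : CAPY m p) {K : Set E} (hK : IsCompact K) (hc : Convex ℝ K)
    (l : E →L[ℂ] ℂ) {a b : ℝ} (hab : a < b) {U : Set E} (hU : IsOpen U)
    (hKU : K ∩ {z | (l z).re ≤ b} ⊆ U) {h : E → X} (hh : HolOn m h U)
    (hp : ∀ z ∈ K, a ≤ (l z).re → (l z).re ≤ b → h z ≠ p) {ε : ℝ} (hε : 0 < ε) :
    ∃ (W : Set E) (g : E → X), IsOpen W ∧ K ⊆ W ∧ HolOn m g W ∧
      (∀ z ∈ K, (l z).re ≤ b → dist (h z) (g z) < ε) ∧ ∀ z ∈ K, a ≤ (l z).re → g z ≠ p := by
  have hprop : ProperSpace E := FiniteDimensional.proper ℂ E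
  have hlc : Continuous fun z : E => (l z).re := Complex.continuous_re.comp l.continuous
  have hlin : IsLinearMap ℝ (fun z : E => (l z).re) :=
    ⟨fun x y => by simp, fun c x => by simp⟩
  set KA : Set E := K ∩ {z | (l z).re ≤ b} with hKAdef
  set C : Set E := K ∩ {z | a ≤ (l z).re ∧ (l z).re ≤ b} with hCdef
  have hKAc : IsCompact KA := hK.inter_right (isClosed_le hlc continuous_const)
  have hKAconv : Convex ℝ KA := hc.inter (convex_halfSpace_le hlin b)
  have hCc : IsCompact C :=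
    hK.inter_right ((isClosed_le continuous_const hlc).inter (isClosed_le hlc continuous_const))
  have hCconv : Convex ℝ C :=
    hc.inter ((convex_halfSpace_ge hlin a).inter (convex_halfSpace_le hlin b))
  obtain ⟨W0, rA, S, hW0, hKW0, hrA, hS, hS0⟩ := es_hol hKAc hKAconv hU hKU hh
  -- the part of the domain where `S` avoids `p`
  set O : Set (E × (Fin m → ℂ)) := (W0 ×ˢ ball (0 : Fin m → ℂ) rA) ∩ S ⁻¹' {p}ᶜ with hOdef
  have hO : IsOpen O := isOpen_preimage_of_holOn hS.isOpen hS.hol isOpen_compl_singleton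
  have hCO : C ×ˢ ({0} : Set (Fin m → ℂ)) ⊆ O := by
    rintro ⟨z, u⟩ ⟨hz, hu⟩
    have hu0 : u = 0 := hu
    subst hu0
    have hzW : z ∈ W0 := hKW0 ⟨hz.1, hz.2.2⟩
    refine ⟨⟨hzW, mem_ball_self hrA⟩, ?_⟩
    show S (z, 0) ≠ p
    rw [hS0 z hzW]
    exact hp z hz.1 hz.2.1 hz.2.2
  obtain ⟨u, v, hu, hv, hCu, h0v, huv⟩ :=
    generalized_tube_lemma hCc isCompact_singleton hO hCO
  obtain ⟨δ, hδ, hδu⟩ := hCc.exists_cthickening_subset_open hu hCu
  obtain ⟨r', hr', hr'v⟩ := Metric.nhds_basis_closedBall.mem_iff.1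
    (hv.mem_nhds (h0v (mem_singleton (0 : Fin m → ℂ))))
  set C1 : Set E := cthickening δ C with hC1def
  have hC1c : IsCompact C1 := hCc.cthickening
  have hC1conv : Convex ℝ C1 := hCconv.cthickening δ
  set W : Set E := thickening δ C with hWdef
  have hWopen : IsOpen W := isOpen_thickening
  have hCW : C ⊆ W := self_subset_thickening hδ C
  have hWC1 : W ⊆ C1 := thickening_subset_cthickening δ C
  have hKK : C1 ×ˢ closedBall (0 : Fin m → ℂ) r' ⊆ O :=
    (prod_mono hδu hr'v).trans huv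
  have hKKc : IsCompact (C1 ×ˢ closedBall (0 : Fin m → ℂ) r') :=
    hC1c.prod (isCompact_closedBall _ _)
  -- closeness on `KA`
  obtain ⟨ε', hε', hnear⟩ := map_near hS.isOpen hS.hol.continuousOn
    (hKAc.prod (isCompact_singleton (x := (0 : Fin m → ℂ))))
    (fun x hx => ⟨hKW0 hx.1, by rw [show x.2 = 0 from hx.2]; exact mem_ball_self hrA⟩) hε
  set η : ℝ := min (ε' / 2) (min (rA / 2) (r' / 4)) with hηdef
  have hη : 0 < η := by positivity
  have hη1 : η < ε' := (min_le_left _ _).trans_lt (by linarith)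
  have hη2 : η < rA := ((min_le_right _ _).trans (min_le_left _ _)).trans_lt (by linarith)
  have hη3 : η < r' := ((min_le_right _ _).trans (min_le_right _ _)).trans_lt (by linarith)
  -- splitting
  have hWK : K ∩ {z | -b ≤ ((-l) z).re ∧ ((-l) z).re ≤ -a} ⊆ W := by
    rintro z ⟨hz, hz1, hz2⟩
    refine hCW ⟨hz, ?_, ?_⟩
    · have : ((-l) z).re = -(l z).re := by simp
      rw [this] at hz2
      show a ≤ (l z).re
      linarith
    · have : ((-l) z).re = -(l z).re := by simp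
      rw [this] at hz1
      show (l z).re ≤ b
      linarith
  obtain ⟨WA, WB, ε0, hWA, hWB, hKWA, hKWB, hAB, hε0, hcart⟩ :=
    cartan_convex (m := m) hK hc (-l) (a := -b) (b := -a) (by linarith) hWopen hWK hr' hη
  obtain ⟨ε1, hε1, hsolve⟩ := hS.solve hKKc (hKK.trans inter_subset_left) hε0
  obtain ⟨H, hH, hHp, hHS⟩ := hY (E × (Fin m → ℂ)) (C1 ×ˢ closedBall (0 : Fin m → ℂ) r') O hKKc
    (hC1conv.prod (convex_closedBall _ _)) hO hKK S (hS.hol.mono inter_subset_left)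
    (fun x hx => hx.2) ε1 hε1
  obtain ⟨N, hN, hN'⟩ := hsolve (E × (Fin m → ℂ)) (W ×ˢ ball (0 : Fin m → ℂ) r') Prod.fst H Prod.snd
    (hWopen.prod isOpen_ball) differentiableOn_fst (hH.mono (subset_univ _))
    (fun w hw => ⟨⟨hWC1 hw.1, ball_subset_closedBall hw.2⟩,
      hHS w ⟨hWC1 hw.1, ball_subset_closedBall hw.2⟩⟩)
  obtain ⟨α, β, hα, hβ, hαn, hβn, hγ, -⟩ := hcart N hN
    (fun z hz t ht => (hN' (z, t) ⟨hz, ht⟩).1.le)
  have h0r : (0 : Fin m → ℂ) ∈ ball (0 : Fin m → ℂ) (r' / 2) := mem_ball_self (by positivity)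
  have hα0 : ∀ z ∈ WA, ‖α (z, 0)‖ ≤ η := fun z hz => by simpa using hαn z hz 0 h0r
  have hβ0 : ∀ z ∈ WB, ‖β (z, 0)‖ ≤ η := fun z hz => by simpa using hβn z hz 0 h0r
  have hpair : Differentiable ℂ (fun z : E => (z, (0 : Fin m → ℂ))) := by fun_prop
  have hdA : DifferentiableOn ℂ (fun z : E => (z, α (z, 0))) WA :=
    differentiableOn_id.prodMk (hα.comp hpair.differentiableOn (fun z hz => ⟨hz, h0r⟩))
  have hdB : DifferentiableOn ℂ (fun z : E => (z, β (z, 0))) (WB ∩ W0) :=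
    differentiableOn_id.prodMk (hβ.comp hpair.differentiableOn (fun z hz => ⟨hz.1, h0r⟩))
  obtain ⟨g, hg, hgA, hgB⟩ := HolOn.glue (m := m) (f := fun z => H (z, α (z, 0)))
    (g := fun z => S (z, β (z, 0))) hWA (hWB.inter hW0)
    (hH.comp hdA (mapsTo_univ _ _))
    (hS.hol.comp hdB (fun z hz => ⟨hz.2, by
      rw [mem_ball_zero_iff]; exact (hβ0 z hz.1).trans_lt hη2⟩))
    (by
      rintro z ⟨hzA, hzB, hz0⟩
      have h1 := hγ z ⟨hzA, hzB⟩ 0 h0r
      have h2 := (hN' (z, α (z, 0)) ⟨hAB ⟨hzA, hzB⟩, by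
        rw [mem_ball_zero_iff]; exact (hα0 z hzA).trans_lt hη3⟩).2.2
      show H (z, α (z, 0)) = S (z, β (z, 0))
      rw [← h1]
      exact h2.symm)
  have hKsub : K ⊆ WA ∪ (WB ∩ W0) := by
    intro z hz
    rcases le_total a (l z).re with h1 | h1
    · refine Or.inl (hKWA ⟨hz, ?_⟩)
      show ((-l) z).re ≤ -a
      simp only [neg_apply, Complex.neg_re]
      linarith
    · refine Or.inr ⟨hKWB ⟨hz, ?_⟩, hKW0 ⟨hz, ?_⟩⟩
      · show -b ≤ ((-l) z).re
        simp only [neg_apply, Complex.neg_re]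
        linarith
      · show (l z).re ≤ b
        linarith
  refine ⟨WA ∪ (WB ∩ W0), g, hWA.union (hWB.inter hW0), hKsub, hg, fun z hz hzb => ?_,
    fun z hz hza => ?_⟩
  · have hzB : z ∈ WB := hKWB ⟨hz, by
      show -b ≤ ((-l) z).re
      simp only [neg_apply, Complex.neg_re]
      linarith⟩
    have hz0 : z ∈ W0 := hKW0 ⟨hz, hzb⟩
    rw [hgB z ⟨hzB, hz0⟩, ← hS0 z hz0]
    refine (hnear (z, 0) ⟨⟨hz, hzb⟩, rfl⟩ (z, β (z, 0)) ?_).2
    rw [Prod.dist_eq]
    simp only [dist_self]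
    rw [max_lt_iff]
    refine ⟨hε', ?_⟩
    rw [dist_zero_left]
    exact (hβ0 z hzB).trans_lt hη1
  · have hzA : z ∈ WA := hKWA ⟨hz, by
      show ((-l) z).re ≤ -a
      simp only [neg_apply, Complex.neg_re]
      linarith⟩
    rw [hgA z hzA]
    exact hHp _

end OkaP
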