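import Pool.Agent.H.MP_ceb9a9.Psh0

/-!
# MP_ceb9a9: smooth maximum of two psh functions
-/

set_option autoImplicit false

open Set Metric Topology
open scoped ContDiff

noncomputable section
namespace OkaP

/-- the derivative of the smooth absolute value -/
private def RegMax_s (δ : ℝ) (t : ℝ) : ℝ := 2 * Real.smoothTransition ((t / δ + 1) / 2) - 1

private theorem RegMax_symm (x : ℝ) :
    Real.smoothTransition x + Real.smoothTransition (1 - x) = 1 := by
  unfold Real.smoothTransition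
  have h1 := Real.smoothTransition.pos_denom x
  have h2 : 1 - (1 - x) = x := by ring
  rw [h2, add_comm (expNegInvGlue (1 - x)) (expNegInvGlue x), ← add_div]
  exact div_self h1.ne'

private theorem RegMax_s_neg (δ t : ℝ) : RegMax_s δ (-t) = - RegMax_s δ t := by
  unfold RegMax_s
  have h1 := RegMax_symm ((t / δ + 1) / 2)
  have h2 : (-t / δ + 1) / 2 = 1 - (t / δ + 1) / 2 := by ring
  rw [h2]
  linarith

private theorem RegMax_s_smooth (δ : ℝ) : ContDiff ℝ ∞ (RegMax_s δ) := by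
  unfold RegMax_s
  have h1 : ContDiff ℝ ∞ (fun t : ℝ => (t / δ + 1) / 2) := by fun_prop
  exact (contDiff_const.mul (Real.smoothTransition.contDiff.comp h1)).sub contDiff_const

private theorem RegMax_s_mono {δ : ℝ} (hδ : 0 < δ) : Monotone (RegMax_s δ) := by
  intro a b hab
  unfold RegMax_s
  have h1 : (a / δ + 1) / 2 ≤ (b / δ + 1) / 2 := by
    have := div_le_div_of_nonneg_right hab hδ.le
    linarith
  have h2 := Real.smoothTransition.monotone h1
  linarith

private theorem RegMax_s_le (δ t : ℝ) : RegMax_s δ t ≤ 1 := by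
  unfold RegMax_s
  have := Real.smoothTransition.le_one ((t / δ + 1) / 2)
  linarith

private theorem RegMax_s_ge (δ t : ℝ) : -1 ≤ RegMax_s δ t := by
  unfold RegMax_s
  have := Real.smoothTransition.nonneg ((t / δ + 1) / 2)
  linarith

private theorem RegMax_s_one {δ : ℝ} (hδ : 0 < δ) {t : ℝ} (ht : δ ≤ t) : RegMax_s δ t = 1 := by
  unfold RegMax_s
  have h1 : 1 ≤ t / δ := (one_le_div hδ).2 ht
  rw [Real.smoothTransition.one_of_one_le (by linarith)]
  norm_num

/-- a smooth convex function equal to `|t|` for `|t| ≥ δ` -/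
theorem exists_smooth_abs {δ : ℝ} (hδ : 0 < δ) :
    ∃ μ : ℝ → ℝ, ContDiff ℝ ∞ μ ∧ (∀ t, |t| ≤ μ t) ∧ (∀ t, μ t ≤ |t| + δ) ∧
      (∀ t, δ ≤ |t| → μ t = |t|) ∧ (∀ t, |deriv μ t| ≤ 1) ∧ (∀ t, 0 ≤ deriv (deriv μ) t) := by
  set s : ℝ → ℝ := RegMax_s δ with hs
  have hsc : Continuous s := (RegMax_s_smooth δ).continuous
  have hint : ∀ a b : ℝ, IntervalIntegrable s MeasureTheory.volume a b :=
    fun a b => hsc.intervalIntegrable a b
  set F : ℝ → ℝ := fun t => ∫ u in (0 : ℝ)..t, s u with hF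
  have hFd : ∀ t, HasDerivAt F (s t) t := fun t =>
    intervalIntegral.integral_hasDerivAt_right (hint 0 t)
      hsc.stronglyMeasurable.stronglyMeasurableAtFilter hsc.continuousAt
  have hFsub : ∀ a b : ℝ, F b - F a = ∫ u in a..b, s u := fun a b =>
    intervalIntegral.integral_interval_sub_left (hint 0 b) (hint 0 a)
  have hFneg : ∀ t, F (-t) = F t := by
    intro t
    have h1 : (∫ u in (0 : ℝ)..t, s (-u)) = ∫ u in (-t)..(-0 : ℝ), s u :=
      intervalIntegral.integral_comp_neg (f := s)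
    have h2 : (∫ u in (0 : ℝ)..t, s (-u)) = ∫ u in (0 : ℝ)..t, - s u :=
      intervalIntegral.integral_congr fun u _ => RegMax_s_neg δ u
    rw [h2, intervalIntegral.integral_neg, neg_zero] at h1
    have h3 : (∫ u in (-t)..(0 : ℝ), s u) = - F (-t) := intervalIntegral.integral_symm _ _
    rw [h3] at h1
    exact (neg_inj.1 h1).symm
  have hF0 : F 0 = 0 := intervalIntegral.integral_same
  have hs0 : ∀ t, 0 ≤ t → 0 ≤ s t := by
    intro t ht
    have h1 : s 0 = 0 := by
      have h2 := RegMax_s_neg δ 0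
      rw [neg_zero] at h2
      have h3 : s 0 = - s 0 := h2
      linarith
    rw [← h1]
    exact RegMax_s_mono hδ ht
  have hFle : ∀ a b : ℝ, a ≤ b → F b - F a ≤ b - a := by
    intro a b hab
    rw [hFsub]
    have h1 := intervalIntegral.integral_mono_on hab (hint a b)
      (continuous_const.intervalIntegrable a b : IntervalIntegrable (fun _ => (1 : ℝ)) _ a b)
      (fun u _ => RegMax_s_le δ u)
    simpa using h1
  have hFge : ∀ a b : ℝ, 0 ≤ a → a ≤ b → 0 ≤ F b - F a := by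
    intro a b ha hab
    rw [hFsub]
    exact intervalIntegral.integral_nonneg hab fun u hu => hs0 u (ha.trans hu.1)
  have hFeq : ∀ t, δ ≤ t → F t - F δ = t - δ := by
    intro t ht
    rw [hFsub]
    have h1 : (∫ u in δ..t, s u) = ∫ _ in δ..t, (1 : ℝ) := by
      refine intervalIntegral.integral_congr fun u hu => ?_
      rw [uIcc_of_le ht] at hu
      exact RegMax_s_one hδ hu.1
    rw [h1]
    simp
  set μ : ℝ → ℝ := fun t => F t + (δ - F δ) with hμ
  have hμd : ∀ t, HasDerivAt μ (s t) t := fun t => (hFd t).add_const _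
  have hμ' : deriv μ = s := funext fun t => (hμd t).deriv
  have hμneg : ∀ t, μ (-t) = μ t := by
    intro t
    simp only [hμ]
    rw [hFneg]
  have hμabs : ∀ t, μ t = μ |t| := by
    intro t
    rcases abs_choice t with h | h
    · rw [h]
    · rw [h, hμneg]
  refine ⟨μ, ?_, ?_, ?_, ?_, ?_, ?_⟩
  · rw [contDiff_infty_iff_deriv, hμ']
    exact ⟨fun t => (hμd t).differentiableAt, RegMax_s_smooth δ⟩
  · intro t
    rw [hμabs]
    rcases le_total δ |t| with h | h
    · have h1 := hFeq _ h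
      simp only [hμ]
      linarith
    · have h1 := hFle _ _ h
      simp only [hμ]
      linarith
  · intro t
    rw [hμabs]
    have h1 := hFle 0 |t| (abs_nonneg t)
    have h2 := hFge 0 δ le_rfl hδ.le
    simp only [hμ]
    linarith
  · intro t ht
    rw [hμabs]
    have h1 := hFeq _ ht
    simp only [hμ]
    linarith
  · intro t
    rw [hμ', abs_le]
    exact ⟨RegMax_s_ge δ t, RegMax_s_le δ t⟩
  · intro t
    rw [hμ']
    exact (RegMax_s_mono hδ).deriv_nonneg

/-- a regularised maximum: `regmax μ a b = (a+b)/2 + μ((a-b)/2)` -/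
def regmax (μ : ℝ → ℝ) (a b : ℝ) : ℝ := (a + b) / 2 + μ ((a - b) / 2)

theorem levi_regmax {E : Type} [NormedAddCommGroup E] [NormedSpace ℂ E] {μ : ℝ → ℝ}
    (hμ : ContDiff ℝ ∞ μ) (h1 : ∀ t, |deriv μ t| ≤ 1) (h2 : ∀ t, 0 ≤ deriv (deriv μ) t)
    {f g : E → ℝ} {x : E} (hf : ContDiffAt ℝ ∞ f x) (hg : ContDiffAt ℝ ∞ g x) (v : E) :
    ∃ t ∈ Icc (0 : ℝ) 1, t * levi f x v + (1 - t) * levi g x v ≤
      levi (fun y => regmax μ (f y) (g y)) x v := by
  have hs1 : ContDiffAt ℝ ∞ (fun y => f y + g y) x := hf.add hg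
  have hs2 : ContDiffAt ℝ ∞ (fun y => f y + (-1) * g y) x := hf.add (contDiffAt_const.mul hg)
  have hs3 : ContDiffAt ℝ ∞ (fun y => (1 / 2 : ℝ) * (f y + (-1) * g y)) x :=
    contDiffAt_const.mul hs2
  have hs4 : ContDiffAt ℝ ∞ (fun y => (1 / 2 : ℝ) * (f y + g y)) x := contDiffAt_const.mul hs1
  have hs5 : ContDiffAt ℝ ∞ (fun y => μ ((1 / 2 : ℝ) * (f y + (-1) * g y))) x :=
    hμ.contDiffAt.comp x hs3
  have e1 : (fun y => regmax μ (f y) (g y)) =
      fun y => (1 / 2 : ℝ) * (f y + g y) + μ ((1 / 2 : ℝ) * (f y + (-1) * g y)) := by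
    funext y
    unfold regmax
    congr 1
    · ring
    · congr 1
      ring
  have e2 : levi (fun y => (1 / 2 : ℝ) * (f y + (-1) * g y)) x v =
      (1 / 2) * (levi f x v - levi g x v) := by
    rw [levi_const_mul (1 / 2 : ℝ) (fun y => f y + (-1) * g y),
      levi_add hf (contDiffAt_const.mul hg), levi_const_mul (-1 : ℝ) g]
    ring
  have e3 : levi (fun y => (1 / 2 : ℝ) * (f y + g y)) x v =
      (1 / 2) * (levi f x v + levi g x v) := by
    rw [levi_const_mul (1 / 2 : ℝ) (fun y => f y + g y), levi_add hf hg]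
  rw [e1, levi_add hs4 hs5, e3, levi_comp hμ hs3, e2]
  set d := deriv μ ((1 / 2 : ℝ) * (f x + (-1) * g x)) with hd
  have hd1 := abs_le.1 (h1 ((1 / 2 : ℝ) * (f x + (-1) * g x)))
  rw [← hd] at hd1
  have hd2 := h2 ((1 / 2 : ℝ) * (f x + (-1) * g x))
  refine ⟨(1 + d) / 2, ⟨by linarith [hd1.1], by linarith [hd1.2]⟩, ?_⟩
  have h3 : 0 ≤ deriv (deriv μ) ((1 / 2 : ℝ) * (f x + (-1) * g x)) *
        ((fderiv ℝ (fun y => (1 / 2 : ℝ) * (f y + (-1) * g y)) x v) ^ 2 +
          (fderiv ℝ (fun y => (1 / 2 : ℝ) * (f y + (-1) * g y)) x (Complex.I • v)) ^ 2) / 4 := by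
    positivity
  nlinarith [h3]

theorem exists_regmax {δ : ℝ} (hδ : 0 < δ) :
    ∃ M : ℝ → ℝ → ℝ, (∀ a b, max a b ≤ M a b) ∧ (∀ a b, M a b ≤ max a b + δ) ∧
      (∀ a b, b + δ ≤ a → M a b = a) ∧ (∀ a b, a + δ ≤ b → M a b = b) ∧
      (∀ (E : Type) [NormedAddCommGroup E] [NormedSpace ℂ E] (f g : E → ℝ) (U : Set E),
        IsOpen U → ContDiffOn ℝ ∞ f U → ContDiffOn ℝ ∞ g U →
        ContDiffOn ℝ ∞ (fun x => M (f x) (g x)) U) ∧
      (∀ (E : Type) [NormedAddCommGroup E] [NormedSpace ℂ E] (f g : E → ℝ) (x v : E),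
        ContDiffAt ℝ ∞ f x → ContDiffAt ℝ ∞ g x →
        min (levi f x v) (levi g x v) ≤ levi (fun y => M (f y) (g y)) x v) := by
  obtain ⟨μ, hμ, hμ1, hμ2, hμ3, hμ4, hμ5⟩ := exists_smooth_abs (half_pos hδ)
  refine ⟨regmax μ, ?_, ?_, ?_, ?_, ?_, ?_⟩
  · intro a b
    have h1 := abs_le.1 (hμ1 ((a - b) / 2))
    unfold regmax
    have h2 := hμ1 ((a - b) / 2)
    have h3 := le_abs_self ((a - b) / 2)
    have h4 := neg_abs_le ((a - b) / 2)
    refine max_le ?_ ?_ <;> linarith
  · intro a b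
    unfold regmax
    have h2 := hμ2 ((a - b) / 2)
    rcases abs_cases ((a - b) / 2) with h | h
    · have h3 := le_max_left a b
      rw [h.1] at h2
      linarith
    · have h3 := le_max_right a b
      rw [h.1] at h2
      linarith
  · intro a b hab
    unfold regmax
    have h3 := le_abs_self ((a - b) / 2)
    rw [hμ3 _ (by linarith), abs_of_nonneg (by linarith)]
    ring
  · intro a b hab
    unfold regmax
    have h3 := neg_abs_le ((a - b) / 2)
    have h4 := neg_le_abs ((a - b) / 2)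
    rw [hμ3 _ (by linarith), abs_of_nonpos (by linarith)]
    ring
  · intro E _ _ f g U _ hf hg
    unfold regmax
    have h1 : ContDiffOn ℝ ∞ (fun x => (f x - g x) / 2) U := (hf.sub hg).div_const 2
    exact ((hf.add hg).div_const 2).add (hμ.comp_contDiffOn h1)
  · intro E _ _ f g x v hf hg
    obtain ⟨t, ht, h⟩ := levi_regmax hμ hμ4 hμ5 hf hg v
    refine le_trans ?_ h
    have h1 := min_le_left (levi f x v) (levi g x v)
    have h2 := min_le_right (levi f x v) (levi g x v)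
    nlinarith [mul_le_mul_of_nonneg_left h1 ht.1, mul_le_mul_of_nonneg_left h2 (sub_nonneg.2 ht.2)]

end OkaP
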