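import Pool.Agent.H.MP_ceb9a9.Base
import Pool.Agent.H.MP_ceb9a9.Runge

set_option autoImplicit false
open Set Metric Filter
open scoped Topology

noncomputable section
namespace OkaP

variable {E F : Type} [NormedAddCommGroup E] [NormedSpace ℂ E] [FiniteDimensional ℂ E]
  [NormedAddCommGroup F] [NormedSpace ℂ F] [FiniteDimensional ℂ F]

/-- Runge approximation on compact convex sets (from chapter 1: OW). -/
theorem runge_convex {K U : Set E} (hK : IsCompact K) (hc : Convex ℝ K) (hU : IsOpen U)
    (hKU : K ⊆ U) {f : E → F} (hf : DifferentiableOn ℂ f U) {ε : ℝ} (hε : 0 < ε) :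
    ∃ g : E → F, Differentiable ℂ g ∧ ∀ x ∈ K, ‖f x - g x‖ < ε :=
  oka_weil (pshConvex_of_convex hK hc) hU hKU hf hε

end OkaP
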