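import Pool.Agent.H.MP_ceb9a9.Scv1

set_option autoImplicit false
open Set Metric Filter
open scoped Topology

noncomputable section
namespace OkaP

variable {E F : Type} [NormedAddCommGroup E] [NormedSpace ℂ E]
  [NormedAddCommGroup F] [NormedSpace ℂ F]

variable [FiniteDimensional ℂ E]

variable {E' : Type} [NormedAddCommGroup E'] [NormedSpace ℂ E'] [FiniteDimensional ℂ E']

/-- the partial derivative in the first variable is continuous. -/
private theorem Scv3_cont {f : E × E' → F} {U : Set (E × E')} (hU : IsOpen U)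
    (hc : ContinuousOn f U)
    (h1 : ∀ x ∈ U, DifferentiableAt ℂ (fun z => f (z, x.2)) x.1) {u : E × E'} (hu : u ∈ U) :
    ContinuousAt (fun q : E × E' => fderiv ℂ (fun z => f (z, q.2)) q.1) u := by
  have : ProperSpace (E × E') := FiniteDimensional.proper ℂ (E × E')
  obtain ⟨r, hr, hrU⟩ : ∃ r > 0, closedBall u (2 * r) ⊆ U := by
    obtain ⟨R, hR, hRU⟩ := Metric.isOpen_iff.1 hU u hu
    refine ⟨R / 4, by positivity, (closedBall_subset_ball ?_).trans hRU⟩
    linarith
  have huc : UniformContinuousOn f (closedBall u (2 * r)) :=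
    (isCompact_closedBall u (2 * r)).uniformContinuousOn_of_continuous (hc.mono hrU)
  rw [Metric.uniformContinuousOn_iff] at huc
  rw [Metric.continuousAt_iff]
  intro ε hε
  obtain ⟨δ, hδ, hf⟩ := huc (ε * r / 2) (by positivity)
  refine ⟨min δ r, lt_min hδ hr, fun q hq => ?_⟩
  have hq1 : dist q u < δ := lt_of_lt_of_le hq (min_le_left _ _)
  have hq2 : dist q u < r := lt_of_lt_of_le hq (min_le_right _ _)
  have hqa : dist q.1 u.1 < r := lt_of_le_of_lt (le_max_left _ _) hq2
  have hqb : dist q.2 u.2 < r := lt_of_le_of_lt (le_max_right _ _) hq2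
  have m1 : ∀ ζ ∈ ball (0 : E) r, (q.1 + ζ, q.2) ∈ closedBall u (2 * r) := by
    intro ζ hζ
    rw [mem_closedBall, Prod.dist_eq, max_le_iff]
    rw [mem_ball_zero_iff] at hζ
    constructor
    · have : dist (q.1 + ζ) u.1 ≤ dist q.1 u.1 + ‖ζ‖ := by
        rw [dist_eq_norm, dist_eq_norm]
        have e : q.1 + ζ - u.1 = (q.1 - u.1) + ζ := by abel
        rw [e]; exact norm_add_le _ _
      linarith
    · show dist q.2 u.2 ≤ 2 * r
      linarith
  have m2 : ∀ ζ ∈ ball (0 : E) r, (u.1 + ζ, u.2) ∈ closedBall u (2 * r) := by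
    intro ζ hζ
    rw [mem_closedBall, Prod.dist_eq, max_le_iff]
    rw [mem_ball_zero_iff] at hζ
    constructor
    · show dist (u.1 + ζ) u.1 ≤ 2 * r
      rw [dist_eq_norm, add_sub_cancel_left]
      linarith
    · show dist u.2 u.2 ≤ 2 * r
      rw [dist_self]; linarith
  have d1 : ∀ ζ ∈ ball (0 : E) r, DifferentiableAt ℂ (fun ζ => f (q.1 + ζ, q.2)) ζ := by
    intro ζ hζ
    have := h1 _ (hrU (m1 ζ hζ))
    exact this.comp ζ ((differentiableAt_const _).add differentiableAt_id)
  have d2 : ∀ ζ ∈ ball (0 : E) r, DifferentiableAt ℂ (fun ζ => f (u.1 + ζ, u.2)) ζ := by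
    intro ζ hζ
    have := h1 _ (hrU (m2 ζ hζ))
    exact this.comp ζ ((differentiableAt_const _).add differentiableAt_id)
  have h0 : (0 : E) ∈ ball (0 : E) r := mem_ball_self hr
  have key : fderiv ℂ (fun ζ => f (q.1 + ζ, q.2) - f (u.1 + ζ, u.2)) 0 =
      fderiv ℂ (fun z => f (z, q.2)) q.1 - fderiv ℂ (fun z => f (z, u.2)) u.1 := by
    have e := fderiv_sub (d1 0 h0) (d2 0 h0)
    have e1 := fderiv_comp_add_left (𝕜 := ℂ) (f := fun z => f (z, q.2)) (x := (0 : E)) q.1
    have e2 := fderiv_comp_add_left (𝕜 := ℂ) (f := fun z => f (z, u.2)) (x := (0 : E)) u.1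
    rw [add_zero] at e1 e2
    rw [← e1, ← e2]
    exact e
  rw [dist_eq_norm, ← key]
  have hle := norm_fderiv_le (x := (0 : E)) (M := ε * r / 2) hr
    (f := fun ζ => f (q.1 + ζ, q.2) - f (u.1 + ζ, u.2))
    (fun ζ hζ => ((d1 ζ hζ).sub (d2 ζ hζ)).differentiableWithinAt)
    (fun ζ hζ => by
      rw [← dist_eq_norm]
      refine (hf _ (m1 ζ hζ) _ (m2 ζ hζ) ?_).le
      rw [Prod.dist_eq, max_lt_iff]
      constructor
      · show dist (q.1 + ζ) (u.1 + ζ) < δ
        rw [dist_add_right]
        exact lt_of_le_of_lt (le_max_left _ _) hq1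
      · exact lt_of_le_of_lt (le_max_right _ _) hq1)
  refine hle.trans_lt ?_
  have e : ε * r / 2 / r = ε / 2 := by field_simp
  rw [e]; linarith

/-- Osgood: continuous and separately holomorphic functions are holomorphic. -/
theorem osgood [CompleteSpace F] {f : E × E' → F} {U : Set (E × E')} (hU : IsOpen U)
    (hc : ContinuousOn f U)
    (h1 : ∀ x ∈ U, DifferentiableAt ℂ (fun z => f (z, x.2)) x.1)
    (h2 : ∀ x ∈ U, DifferentiableAt ℂ (fun w => f (x.1, w)) x.2) :
    DifferentiableOn ℂ f U := by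
  intro u hu
  have c1 := Scv3_cont hU hc h1 hu
  have c2 : ContinuousAt (fun q : E × E' => fderiv ℂ (fun w => f (q.1, w)) q.2) u := by
    have := Scv3_cont (f := fun q : E' × E => f q.swap) (U := Prod.swap ⁻¹' U)
      (hU.preimage continuous_swap) (hc.comp continuous_swap.continuousOn (fun x hx => hx))
      (fun x hx => h2 x.swap hx) (u := u.swap) (by simpa using hu)
    exact this.comp (f := Prod.swap) continuous_swap.continuousAt
  have h := hasStrictFDerivAt_uncurry_coprod (𝕜 := ℂ) (u := u) (f := fun z w => f (z, w))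
    (f₁ := fun z w => fderiv ℂ (fun z' => f (z', w)) z)
    (f₂ := fun z w => fderiv ℂ (fun w' => f (z, w')) w)
    (by filter_upwards [hU.mem_nhds hu] with v hv using (h1 v hv).hasFDerivAt)
    (by filter_upwards [hU.mem_nhds hu] with v hv using (h2 v hv).hasFDerivAt)
    c1 c2
  exact h.hasFDerivAt.differentiableAt.differentiableWithinAt

end OkaP
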