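import Pool.Agent.H.MP_ceb9a9.Good
import Pool.Agent.H.MP_ceb9a9.LimitSeq

set_option autoImplicit false
open Set Metric Filter
open scoped Topology Manifold

noncomputable section
namespace OkaP

variable {m : ℕ} {X : Type} [MetricSpace X] [ChartedSpace (Fin m → ℂ) X]

/-- the map `σ : ℂ^m → X` through `p` and the chart `e` at `p` inverse to `σ` near `0`. -/
structure SigD (m : ℕ) (X : Type) [MetricSpace X] [ChartedSpace (Fin m → ℂ) X] (p : X) where
  σ : (Fin m → ℂ) → X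
  e : OpenPartialHomeomorph X (Fin m → ℂ)
  c : ℝ
  σ_hol : HolOn m σ univ
  σ_eq : ∀ t, σ t = p ↔ t = 0
  e_chart : HChart m e
  c_pos : 0 < c
  ball_target : closedBall (0 : Fin m → ℂ) (16 * c) ⊆ e.target
  σ_symm : ∀ t ∈ closedBall (0 : Fin m → ℂ) (16 * c), σ t = e.symm t

theorem SigD.zero_mem {p : X} (S : SigD m X p) :
    (0 : Fin m → ℂ) ∈ closedBall (0 : Fin m → ℂ) (16 * S.c) :=
  mem_closedBall_self (by have := S.c_pos; positivity)

theorem SigD.p_eq {p : X} (S : SigD m X p) : p = S.e.symm 0 :=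
  ((S.σ_eq 0).2 rfl).symm.trans (S.σ_symm 0 S.zero_mem)

theorem SigD.p_mem {p : X} (S : SigD m X p) : p ∈ S.e.source :=
  (congrArg (fun x => x ∈ S.e.source) S.p_eq).mpr (S.e.map_target (S.ball_target S.zero_mem))

theorem SigD.e_p {p : X} (S : SigD m X p) : S.e p = 0 :=
  (congrArg S.e S.p_eq).trans (S.e.right_inv (S.ball_target S.zero_mem))

/-- dependent choice. -/
theorem Sigma_dep {α : Type} {P : ℕ → α → Prop} {R : ℕ → α → α → Prop} (a : α) (h0 : P 0 a)
    (hs : ∀ n x, P n x → ∃ y, P (n + 1) y ∧ R n x y) :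
    ∃ f : ℕ → α, f 0 = a ∧ (∀ n, P n (f n)) ∧ ∀ n, R n (f n) (f (n + 1)) := by
  choose F hF using hs
  let f : ∀ n, {x // P n x} := fun n =>
    Nat.rec (motive := fun n => {x // P n x}) ⟨a, h0⟩
      (fun n x => ⟨F n x.1 x.2, (hF n x.1 x.2).1⟩) n
  exact ⟨fun n => (f n).1, rfl, fun n => (f n).2, fun n => (hF n (f n).1 (f n).2).2⟩

/-- choice of the constants at one step. -/
theorem Sigma_step [IsManifold 𝓘(ℂ, Fin m → ℂ) ⊤ X] {p : X}
    {e : OpenPartialHomeomorph X (Fin m → ℂ)} {r₀ R : ℝ} {h : (Fin m → ℂ) → X}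
    (hg : Good m p e r₀ (closedBall 0 R) h) {c : ℝ} (hc : 0 < c) {η : ℝ} (hη : 0 < η) :
    ∃ δ > 0, δ ≤ η ∧ IsCompact (cthickening (2 * δ) (h '' closedBall 0 R)) ∧
      ∀ z ∈ closedBall (0 : Fin m → ℂ) R, c ≤ ‖z‖ → 2 * δ < dist (h z) p := by
  haveI : LocallyCompactSpace X := locallyCompact (m := m)
  obtain ⟨U, hU, hKU, hh⟩ := hg.nhd
  have hcomp : IsCompact (closedBall (0 : Fin m → ℂ) R) := isCompact_closedBall _ _
  have hcont : ContinuousOn h (closedBall (0 : Fin m → ℂ) R) := hh.continuousOn.mono hKU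
  obtain ⟨δ₁, hδ₁, h1⟩ := exists_compact_thickening (hcomp.image_of_continuousOn hcont)
  have hC : IsCompact (closedBall (0 : Fin m → ℂ) R ∩ {z | c ≤ ‖z‖}) :=
    hcomp.inter_right (isClosed_le continuous_const continuous_norm)
  obtain ⟨δ₂, hδ₂, h2⟩ := dist_lower hC (hcont.mono inter_subset_left) (p := p) (by
    rintro z ⟨hz1, hz2⟩
    refine hg.avoid z hz1 ?_
    rintro rfl
    simp only [mem_setOf_eq, norm_zero] at hz2
    linarith)
  refine ⟨min η (min (δ₁ / 2) (δ₂ / 4)), by positivity, min_le_left _ _, ?_, ?_⟩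
  · refine h1.of_isClosed_subset isClosed_cthickening (cthickening_mono ?_ _)
    have : min η (min (δ₁ / 2) (δ₂ / 4)) ≤ δ₁ / 2 := (min_le_right _ _).trans (min_le_left _ _)
    linarith
  · intro z hz hcz
    have h3 := h2 z ⟨hz, hcz⟩
    have : min η (min (δ₁ / 2) (δ₂ / 4)) ≤ δ₂ / 4 := (min_le_right _ _).trans (min_le_right _ _)
    linarith

/-- the entire map with a single nondegenerate `p`-point, before choosing the chart. -/
theorem sigma_pre [IsManifold 𝓘(ℂ, Fin m → ℂ) ⊤ X] {p : X} (hY : CAPY m p)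
    {e : OpenPartialHomeomorph X (Fin m → ℂ)} (he : HChart m e) (hpe : p ∈ e.source)
    (hep : e p = 0) : ∃ (σ : (Fin m → ℂ) → X) (r₀ : ℝ), 0 < r₀ ∧ HolOn m σ univ ∧
      (∀ t, σ t = p ↔ t = 0) ∧
      ∀ z ∈ closedBall (0 : Fin m → ℂ) r₀, σ z ∈ e.source ∧ ‖e (σ z) - z‖ ≤ r₀ / 8 := by
  obtain ⟨R, hR, hRt⟩ := Metric.isOpen_iff.1 e.open_target 0 (by
    rw [← hep]; exact e.map_source hpe)
  obtain ⟨r₀, hr₀, hr₀R⟩ : ∃ r₀ : ℝ, 0 < r₀ ∧ r₀ < R := ⟨R / 2, by positivity, by linarith⟩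
  have hsub : closedBall (0 : Fin m → ℂ) r₀ ⊆ e.target := (closedBall_subset_ball hr₀R).trans hRt
  have hG0 : Good m p e r₀ (closedBall 0 r₀) e.symm := by
    refine ⟨⟨e.target, e.open_target, hsub, holOn_symm he differentiableOn_id fun x hx => hx⟩,
      subset_rfl, ?_, ?_, ?_⟩
    · rw [← hep]; exact e.left_inv hpe
    · intro z hz hz0 hzp
      apply hz0
      rw [← e.right_inv (hsub hz), hzp, hep]
    · intro z hz
      refine ⟨e.map_target (hsub hz), ?_⟩
      rw [e.right_inv (hsub hz)]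
      simpa using hr₀
  have hcont0 : ContinuousOn e.symm (closedBall (0 : Fin m → ℂ) r₀) :=
    e.continuousOn_symm.mono hsub
  obtain ⟨ε₀, hε₀, hnear₀⟩ := chart_near e
    ((isCompact_closedBall (0 : Fin m → ℂ) r₀).image_of_continuousOn hcont0)
    (by rintro _ ⟨z, hz, rfl⟩; exact e.map_target (hsub hz)) (η := r₀ / 8) (by positivity)
  have hG0' : Good m p e r₀ (closedBall 0 (r₀ + (0 : ℕ))) e.symm := by simpa using hG0
  obtain ⟨δ₀, hδ₀, hδ₀η, hδ₀c, hδ₀d⟩ := Sigma_step hG0' (c := 1 / ((0 : ℕ) + 1)) (by positivity)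
    (η := ε₀ / 4) (by positivity)
  obtain ⟨f, hf0, hfP, hfR⟩ := Sigma_dep
    (P := fun (j : ℕ) (s : ((Fin m → ℂ) → X) × ℝ) => Good m p e r₀ (closedBall 0 (r₀ + j)) s.1 ∧
      0 < s.2 ∧ IsCompact (cthickening (2 * s.2) (s.1 '' closedBall 0 (r₀ + j))) ∧
      ∀ z ∈ closedBall (0 : Fin m → ℂ) (r₀ + j), 1 / ((j : ℝ) + 1) ≤ ‖z‖ →
        2 * s.2 < dist (s.1 z) p)
    (R := fun (j : ℕ) (s s' : ((Fin m → ℂ) → X) × ℝ) => s'.2 ≤ s.2 / 2 ∧
      ∀ z ∈ closedBall (0 : Fin m → ℂ) (r₀ + j), dist (s.1 z) (s'.1 z) ≤ s.2)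
    (⇑e.symm, δ₀) ⟨hG0', hδ₀, hδ₀c, hδ₀d⟩ (by
      rintro j ⟨g, δ⟩ ⟨hg, hδ, -, -⟩
      obtain ⟨g', hg', hd⟩ := good_extend hY he hpe hep hr₀
        (isCompact_closedBall (0 : Fin m → ℂ) (r₀ + j)) (convex_closedBall _ _)
        (isCompact_closedBall (0 : Fin m → ℂ) (r₀ + (j + 1 : ℕ))) (convex_closedBall _ _)
        (closedBall_subset_closedBall (by push_cast; linarith)) hg hδ
      obtain ⟨δ', hδ', h1, h2, h3⟩ := Sigma_step hg' (c := 1 / (((j + 1 : ℕ) : ℝ) + 1))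
        (by positivity) (η := δ / 2) (by simp only at hδ ⊢; linarith)
      exact ⟨(g', δ'), ⟨hg', hδ', h2, h3⟩, h1, fun z hz => (hd z hz).le⟩)
  obtain ⟨σ, hσ, hσd⟩ := limit_of_seq (m := m) (f := fun j => (f j).1)
    (K := fun j : ℕ => closedBall (0 : Fin m → ℂ) (r₀ + j)) (δ := fun j => (f j).2)
    (fun j => isCompact_closedBall _ _)
    (fun j => by
      refine subset_trans ?_ ball_subset_interior_closedBall
      exact closedBall_subset_ball (by push_cast; linarith))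
    (fun j => by
      obtain ⟨U, hU, hKU, hh⟩ := (hfP j).1.nhd
      exact hh.mono (interior_subset.trans hKU))
    (fun j => by
      obtain ⟨U, hU, hKU, hh⟩ := (hfP j).1.nhd
      exact hh.continuousOn.mono hKU)
    (fun j => (hfP j).2.1) (fun j => (hfR j).1) (fun j => (hfP j).2.2.1) (fun j => (hfR j).2)
  have huniv : (⋃ j : ℕ, closedBall (0 : Fin m → ℂ) (r₀ + j)) = univ := by
    rw [eq_univ_iff_forall]
    intro z
    obtain ⟨n, hn⟩ := exists_nat_ge ‖z‖
    exact mem_iUnion.2 ⟨n, mem_closedBall_zero_iff.2 (by linarith)⟩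
  rw [huniv] at hσ
  have hδlim : Tendsto (fun j => 2 * (f j).2) atTop (𝓝 0) := by
    have h1 : Tendsto (fun n : ℕ => (2 * (f 0).2) * (1 / 2 : ℝ) ^ n) atTop
        (𝓝 ((2 * (f 0).2) * 0)) :=
      (tendsto_pow_atTop_nhds_zero_of_lt_one (by norm_num) (by norm_num)).const_mul _
    rw [mul_zero] at h1
    refine squeeze_zero (fun j => by have := (hfP j).2.1; positivity) (fun j => ?_) h1
    have h2 := limitSeq_delta (δ := fun j => (f j).2) (fun j => (hfR j).1) 0 j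
    simp only [zero_add] at h2
    calc 2 * (f j).2 ≤ 2 * ((f 0).2 / 2 ^ j) := by linarith
      _ = (2 * (f 0).2) * (1 / 2 : ℝ) ^ j := by rw [one_div, inv_pow]; ring
  have hσ0 : σ 0 = p := by
    have h1 : ∀ j, dist p (σ 0) ≤ 2 * (f j).2 := by
      intro j
      have h2 := hσd j 0 (mem_closedBall_self (by positivity))
      rwa [(hfP j).1.zero] at h2
    have h2 : dist p (σ 0) ≤ 0 := ge_of_tendsto' hδlim h1
    exact (dist_le_zero.1 h2).symm
  refine ⟨σ, r₀, hr₀, hσ, fun t => ⟨fun ht => ?_, fun ht => by rw [ht, hσ0]⟩, fun z hz => ?_⟩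
  · by_contra ht0
    have ht1 : 0 < ‖t‖ := norm_pos_iff.2 ht0
    obtain ⟨n₁, hn₁⟩ := exists_nat_ge ‖t‖
    obtain ⟨n₂, hn₂⟩ := exists_nat_one_div_lt ht1
    have h1 : t ∈ closedBall (0 : Fin m → ℂ) (r₀ + (max n₁ n₂ : ℕ)) := by
      rw [mem_closedBall_zero_iff]
      have : (n₁ : ℝ) ≤ (max n₁ n₂ : ℕ) := by exact_mod_cast le_max_left _ _
      linarith
    have h2 : 1 / (((max n₁ n₂ : ℕ) : ℝ) + 1) ≤ ‖t‖ := by
      have : (n₂ : ℝ) ≤ (max n₁ n₂ : ℕ) := by exact_mod_cast le_max_right _ _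
      exact (one_div_le_one_div_of_le (by positivity) (by linarith)).trans hn₂.le
    have h3 := (hfP (max n₁ n₂)).2.2.2 t h1 h2
    have h4 := hσd (max n₁ n₂) t h1
    rw [ht] at h4
    exact absurd h4 (not_le.2 h3)
  · have h1 := hσd 0 z (by simpa using hz)
    rw [hf0] at h1
    simp only at h1
    obtain ⟨h2, h3⟩ := hnear₀ (e.symm z) (mem_image_of_mem _ hz) (σ z) (by linarith)
    rw [e.right_inv (hsub hz), norm_sub_rev] at h3
    exact ⟨h2, h3.le⟩

theorem sigma_exists [IsManifold 𝓘(ℂ, Fin m → ℂ) ⊤ X] {p : X} (hY : CAPY m p) :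
    Nonempty (SigD m X p) := by
  obtain ⟨e, he, hpe, hep⟩ := exists_chart_zero (m := m) p
  obtain ⟨σ, r₀, hr₀, hσ, hσ0, hnear⟩ := sigma_pre hY he hpe hep
  have hd : DifferentiableOn ℂ (fun z => e (σ z)) (ball 0 r₀) :=
    (hσ.hchart he).mono fun z hz => ⟨mem_univ _, (hnear z (ball_subset_closedBall hz)).1⟩
  obtain ⟨hinj, hA, -, -⟩ := near_id (a := (0 : Fin m → ℂ)) hr₀ (by positivity) le_rfl hd
    (fun z hz => (hnear z (ball_subset_closedBall hz)).2)
  have hhalf : ball (0 : Fin m → ℂ) (r₀ / 2) ⊆ ball 0 r₀ := ball_subset_ball (by linarith)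
  obtain ⟨hopen, g, hg, hgl⟩ := inverse_hol isOpen_ball (hd.mono hhalf) hinj hA
  have hsrc : ∀ z ∈ ball (0 : Fin m → ℂ) (r₀ / 2), σ z ∈ e.source := fun z hz =>
    (hnear z (ball_subset_closedBall (hhalf hz))).1
  let e' : OpenPartialHomeomorph X (Fin m → ℂ) :=
    { toFun := fun x => g (e x)
      invFun := σ
      source := e.source ∩ e ⁻¹' ((fun z => e (σ z)) '' ball 0 (r₀ / 2))
      target := ball 0 (r₀ / 2)
      map_source' := by
        rintro x ⟨-, z, hz, hzx⟩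
        have : g (e x) = z := by rw [← hzx]; exact hgl z hz
        rw [this]; exact hz
      map_target' := fun z hz => ⟨hsrc z hz, z, hz, rfl⟩
      left_inv' := by
        rintro x ⟨hx, z, hz, hzx⟩
        have h1 : g (e x) = z := by rw [← hzx]; exact hgl z hz
        rw [h1]
        exact e.injOn (hsrc z hz) hx hzx
      right_inv' := fun z hz => hgl z hz
      open_source := e.isOpen_inter_preimage hopen
      open_target := isOpen_ball
      continuousOn_toFun := hg.continuousOn.comp (e.continuousOn.mono inter_subset_left)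
        fun x hx => hx.2
      continuousOn_invFun := hσ.continuousOn.mono (subset_univ _) }
  have he1 : MDifferentiableOn 𝓘(ℂ, Fin m → ℂ) 𝓘(ℂ, Fin m → ℂ) (fun x => g (e x))
      (e.source ∩ e ⁻¹' ((fun z => e (σ z)) '' ball 0 (r₀ / 2))) :=
    MDifferentiableOn.comp (mdifferentiableOn_iff_differentiableOn.2 hg)
      (he.1.mono inter_subset_left) fun x hx => hx.2
  have he' : HChart m e' := ⟨he1, hσ.mono (subset_univ _)⟩
  refine ⟨{ σ := σ, e := e', c := r₀ / 64, σ_hol := hσ, σ_eq := hσ0, e_chart := he',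
            c_pos := by positivity, ball_target := ?_, σ_symm := fun t _ => rfl }⟩
  exact closedBall_subset_ball (by linarith)

end OkaP
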