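import Pool.Agent.H.MP_ceb9a9.TTGlue
import Pool.Agent.H.MP_ceb9a9.OPThm
import Pool.Agent.H.MP_ceb9a9.EtM
import Pool.Agent.H.MP_ceb9a9.EtB
import Pool.Agent.H.MP_ceb9a9.EtE

/-!
# MP_ceb9a9: the thin tube theorem
-/

set_option autoImplicit false

open scoped Manifold

namespace OkaP

open Set Metric Topology

/-- shrinking the fibre coordinate linearly is a homotopy of families -/
theorem thinTube_shrink {m : ℕ} {X : Type} [MetricSpace X] [ChartedSpace (Fin m → ℂ) X]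
    {T : Type} [TopologicalSpace T] {p : X} {Z N : Set T} {Φ : T × (Fin m → ℂ) → X} {r : ℝ}
    (hr : 0 < r) (h : EtCont Φ N r) (hp : ∀ x ∈ N, x ∉ Z → Φ (x, 0) ≠ p) {τ0 : ℝ}
    (h0 : 0 < τ0) (h1 : τ0 ≤ 1) :
    EtHtpy p Z N Φ (fun q => Φ (q.1, (τ0 : ℂ) • q.2)) := by
  have hpos : ∀ s ∈ Icc (0 : ℝ) 1, 0 < (1 - s) + s * τ0 := by
    intro s hs
    rcases hs.1.lt_or_eq with h | h
    · have : 0 < s * τ0 := mul_pos h h0
      linarith [hs.2]
    · rw [← h]; simp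
  have hle : ∀ s ∈ Icc (0 : ℝ) 1, (1 - s) + s * τ0 ≤ 1 := by
    intro s hs
    nlinarith [hs.1, hs.2]
  have hδ : EtCont (fun q : (T × ℝ) × (Fin m → ℂ) =>
      (((1 - q.1.2) + q.1.2 * τ0 : ℝ) : ℂ) • q.2) (N ×ˢ Icc (0 : ℝ) 1) r := by
    refine etCont_smul (τ := fun y : T × ℝ => (((1 - y.2) + y.2 * τ0 : ℝ) : ℂ)) r ?_ ?_
    · apply Continuous.continuousOn
      fun_prop
    · rintro ⟨x, s⟩ ⟨_, hs⟩
      have := (hpos s hs).ne'
      exact_mod_cast this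
  have hpb : EtCont (fun q : (T × ℝ) × (Fin m → ℂ) => Φ (q.1.1, q.2)) (N ×ˢ Icc (0 : ℝ) 1) r :=
    h.pullback (a := fun y : T × ℝ => y.1) continuous_fst.continuousOn (fun y hy => hy.1)
  have hΘ := hpb.comp hδ (by
    rintro ⟨x, s⟩ ⟨_, hs⟩ u hu
    rw [mem_ball_zero_iff] at hu ⊢
    rw [norm_smul, Complex.norm_real, Real.norm_eq_abs, abs_of_pos (hpos s hs)]
    calc ((1 - s) + s * τ0) * ‖u‖ ≤ 1 * ‖u‖ :=
          mul_le_mul_of_nonneg_right (hle s hs) (norm_nonneg u)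
      _ = ‖u‖ := one_mul _
      _ < r := hu)
  have key := EtHtpy.of_family (p := p) (Z := Z) (N := N) hr hΘ (by
    intro x hx hxZ s _
    simpa using hp x hx hxZ)
  refine key.congr hr ?_ ?_
  · intro x _ u _
    simp
  · intro x _ u _
    simp

theorem thin_tube {m : ℕ} {X : Type} [MetricSpace X] [ChartedSpace (Fin m → ℂ) X]
    [IsManifold 𝓘(ℂ, Fin m → ℂ) ⊤ X] {p : X} (hp : CAPY m p) {E : Type}
    [NormedAddCommGroup E] [InnerProductSpace ℂ E] [FiniteDimensional ℂ E]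
    {κ : E → ℝ} (hκ : Psh κ) {s d : ℝ} (hd : 0 < d) {R2 R' : ℝ} (hR2 : 0 < R2) (hRR' : R2 < R')
    (hκR : {x | κ x ≤ s + 5 * d} ⊆ ball (0 : E) R2)
    (D : TubeData m p κ s d R' (ngN E m + 2)) {η : ℝ} (hη : 0 < η) :
    ∃ (V : Set E) (g : E → X), IsOpen V ∧ closedBall (0 : E) R2 ⊆ V ∧ HolOn m g V ∧
      ∀ x, κ x ≤ s → dist (g x) (D.𝒢 (x, 0)) < η := by
  obtain ⟨R1, hR21, hR1'⟩ := exists_between hRR'
  have hR1 : 0 < R1 := hR2.trans hR21
  have hη2 : 0 < η / 2 := by positivity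
  obtain ⟨ρ, O, r'', τ, Φ', dd, hρ, hO, hOR', hr'', hτ, hκρ, hzero, hρO, hΦ', hddc, hddd, hdd,
    havoid, hdist⟩ := tt_glue hκ hd hR1 hR1' (hκR.trans (ball_subset_ball hR21.le)) D hη2
  have hDr : 0 < D.r := D.r'_pos.trans_le D.r'_le
  have hOcl : O ⊆ closedBall (0 : E) R' := hOR'.trans ball_subset_closedBall
  have hGO : EtCont D.𝒢 O D.r := D.cont.mono hOcl le_rfl
  set Z : Set E := {x | ρ x < -1} ∪ (closedBall (0 : E) R1)ᶜ with hZ
  have hnZ : ∀ x, x ∉ Z → -1 ≤ ρ x ∧ x ∈ closedBall (0 : E) R1 := by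
    intro x hx
    rw [hZ, mem_union, not_or] at hx
    exact ⟨not_lt.1 hx.1, not_not.1 hx.2⟩
  have hbase : ∀ x ∈ O, x ∉ Z → D.𝒢 (x, 0) ≠ p := by
    intro x hx hxZ
    obtain ⟨h1, h2⟩ := hnZ x hxZ
    simpa using havoid x hx h2 h1 0 ⟨le_rfl, zero_le_one⟩
  -- the linear family
  set τ0 : ℝ := min 1 (D.r / (2 * r'')) with hτ0
  have hτ0pos : 0 < τ0 := lt_min one_pos (by positivity)
  have hτ0le : τ0 ≤ 1 := min_le_left _ _
  have hτ0r : τ0 * r'' ≤ D.r / 2 := by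
    calc τ0 * r'' ≤ D.r / (2 * r'') * r'' := mul_le_mul_of_nonneg_right (min_le_right _ _) hr''.le
      _ = D.r / 2 := by field_simp
  have hline : EtHtpy p Z O (fun q => D.𝒢 (q.1, (τ0 : ℂ) • q.2)) (fun q => D.𝒢 (q.1, dd q)) := by
    refine EtHtpy.of_line (δ0 := fun q : E × (Fin m → ℂ) => (τ0 : ℂ) • q.2) (δ1 := dd)
      (τ0 := fun _ => τ0) (τ1 := fun _ => τ) hGO hr'' continuousOn_const continuousOn_const
      (fun _ _ => hτ0pos) (fun _ _ => hτ) ?_ hddc ?_ hddd ?_ ?_ ?_ ?_ ?_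
    · apply Continuous.continuousOn
      fun_prop
    · intro x _
      exact (differentiable_id.const_smul (τ0 : ℂ)).differentiableOn
    · intro x _ u _
      simp only [sub_self, norm_zero]
      positivity
    · intro x hx u hu
      exact (hdd x hx u hu).2.2
    · intro x _ u hu
      rw [mem_ball_zero_iff] at hu ⊢
      rw [norm_smul, Complex.norm_real, Real.norm_eq_abs, abs_of_pos hτ0pos]
      calc τ0 * ‖u‖ ≤ τ0 * r'' := mul_le_mul_of_nonneg_left hu.le hτ0pos.le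
        _ ≤ D.r / 2 := hτ0r
        _ < D.r := by linarith
    · intro x hx u hu
      exact (hdd x hx u hu).1
    · intro x hx hxZ σ hσ
      obtain ⟨h1, h2⟩ := hnZ x hxZ
      simpa using havoid x hx h2 h1 σ hσ
  have hhtpy : EtHtpy p Z O D.𝒢 Φ' := by
    refine ((thinTube_shrink hDr hGO hbase hτ0pos hτ0le).trans hline).congr hr''
      (fun _ _ _ _ => rfl) ?_
    intro x hx u hu
    exact (hdd x hx u hu).2.1.symm
  have hρc : Continuous ρ := by
    rw [← continuousOn_univ]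
    exact hρ.smooth.continuousOn
  have hDcl : IsClosed {x : E | x ∈ closedBall (0 : E) R1 ∧ ρ x ≤ 0} :=
    isClosed_closedBall.inter (isClosed_le hρc continuous_const)
  obtain ⟨G', r0, hr0, hr0D, hG', ⟨N', hN'o, hDN', hN'O, hN'eq⟩, -, hG'p⟩ :=
    merge (p := p) (Z := Z) (U := ball (0 : E) R') (N := O)
      (D := {x : E | x ∈ closedBall (0 : E) R1 ∧ ρ x ≤ 0}) hDr
      (D.cont.mono ball_subset_closedBall le_rfl) hO hOR' hDcl (fun x hx => hρO x hx.1 hx.2) hhtpy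
      (by
        intro x hx hxZ
        obtain ⟨h1, h2⟩ := hnZ x hxZ
        refine D.avoid x (ball_subset_closedBall hx) ?_
        rintro ⟨hxN, hxu⟩
        exact absurd (hzero x h2 hxN hxu) (not_lt.2 h1))
  have hcl : closedBall (0 : E) R1 ⊆ ball (0 : E) R' := closedBall_subset_ball hR1'
  obtain ⟨V, g, hV, hRV, hg, hgd⟩ := oka_principle hp hR21 (U := ball (0 : E) R') isOpen_ball hcl
    (ρ := ρ) ⟨hρ.smooth.mono (subset_univ _), fun x _ => hρ.pos x (mem_univ _)⟩ one_pos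
    (G := G') (r := min r0 r'') (lt_min hr0 hr'') (hG'.mono Subset.rfl (min_le_left _ _))
    (U0 := N') hN'o (fun x hx hx' => hDN' ⟨hx, hx'⟩)
    ((hΦ'.mono hN'O (min_le_right _ _)).congr fun x hx u hu =>
      hN'eq x hx u (ball_subset_ball (min_le_left _ _) hu))
    (by
      intro x hx hx'
      refine hG'p x (hcl hx) ?_
      rw [hZ, mem_union, not_or]
      exact ⟨not_lt.2 hx', not_not.2 hx⟩) hη2
  refine ⟨V, g, hV, hRV, hg, fun x hx => ?_⟩
  have hxR2 : x ∈ ball (0 : E) R2 := hκR (by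
    show κ x ≤ s + 5 * d
    linarith)
  have hρx := hκρ x hx
  have hx1 : x ∈ closedBall (0 : E) R1 := ball_subset_closedBall (ball_subset_ball hR21.le hxR2)
  have hρ0 : ρ x ≤ 0 := by linarith
  have hxN' : x ∈ N' := hDN' ⟨hx1, hρ0⟩
  have e1 : G' (x, 0) = Φ' (x, 0) := hN'eq x hxN' 0 (mem_ball_self hr0)
  have e2 := hgd x (ball_subset_closedBall hxR2) hρx.le
  rw [e1] at e2
  have e3 := hdist x (hρO x hx1 hρ0) hx
  calc dist (g x) (D.𝒢 (x, 0)) ≤ dist (g x) (Φ' (x, 0)) + dist (Φ' (x, 0)) (D.𝒢 (x, 0)) :=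
        dist_triangle _ _ _
    _ < η / 2 + η / 2 := add_lt_add e2 e3
    _ = η := by ring

end OkaP
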