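import Pool.Agent.H.MP_ceb9a9.Defs
import Pool.Agent.H.MP_ceb9a9.NgW

/-!
# MP_ceb9a9: data of the thin tube gluing
-/

set_option autoImplicit false

open scoped Manifold

namespace OkaP

open Set Metric Topology

/-- the exponent of the weighted splitting theorem -/
noncomputable def ngN (E : Type) [NormedAddCommGroup E] [NormedSpace ℂ E]
    [FiniteDimensional ℂ E] (m : ℕ) : ℕ := (ngW E m).choose

/-- data of the thin tube gluing -/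
structure TubeData (m : ℕ) {X : Type} [MetricSpace X] [ChartedSpace (Fin m → ℂ) X] (p : X)
    {E : Type} [NormedAddCommGroup E] [NormedSpace ℂ E] (κ : E → ℝ) (s d R' : ℝ)
    (k2 : ℕ) where
  N : Set E
  û : E → (Fin m → ℂ)
  c3 : ℝ
  𝒢 : E × (Fin m → ℂ) → X
  ΦB : E × (Fin m → ℂ) → X
  g : E × (Fin m → ℂ) → (Fin m → ℂ)
  r : ℝ
  r' : ℝ
  C : ℝ
  c4 : ℝ
  UK : Set E
  N_open : IsOpen N
  û_hol : DifferentiableOn ℂ û N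
  c3_pos : 0 < c3
  tube_compact : IsCompact {x | x ∈ closedBall (0 : E) R' ∧ x ∈ N ∧ ‖û x‖ ≤ c3}
  r'_pos : 0 < r'
  r'_le : r' ≤ r
  c4_pos : 0 < c4
  cont : EtCont 𝒢 (closedBall (0 : E) R') r
  UK_open : IsOpen UK
  UK_sub : {x | κ x ≤ s + 5 * d} ⊆ UK
  holK : EtHol 𝒢 UK r
  holB : EtHol ΦB N r
  rel : ∀ x ∈ closedBall (0 : E) R', x ∈ N → ‖û x‖ ≤ c3 → ∀ t ∈ ball (0 : Fin m → ℂ) r',
    g (x, t) ∈ ball (0 : Fin m → ℂ) r ∧ ΦB (x, g (x, t)) = 𝒢 (x, t) ∧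
      ‖g (x, t) - t‖ ≤ C * ‖û x‖ ^ k2
  avoid : ∀ x ∈ closedBall (0 : E) R', ¬ (x ∈ N ∧ û x = 0) → 𝒢 (x, 0) ≠ p
  avoid2 : ∀ x ∈ closedBall (0 : E) R', x ∈ N → û x ≠ 0 → ‖û x‖ ≤ c3 →
    ∀ t ∈ ball (0 : Fin m → ℂ) r, ‖t‖ ≤ c4 * ‖û x‖ → ΦB (x, t) ≠ p

end OkaP
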