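import Pool.Agent.H.MP_ceb9a9.HomFam
import Pool.Agent.H.MP_ceb9a9.LipInv
import Pool.Agent.H.MP_ceb9a9.TubeDefs

/-!
# MP_ceb9a9: assembling the thin tube data
-/

set_option autoImplicit false

open scoped Manifold

namespace OkaP

open Set Metric Topology

/-- the family over the centre. -/
theorem TubeAsm_center {m : ℕ} {X : Type} [MetricSpace X] [ChartedSpace (Fin m → ℂ) X]
    {p : X} {S : SigmaData m p} {R ε : ℝ} (T : ThetaData S R ε) (hR : S.c < R) {E : Type}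
    [NormedAddCommGroup E] [NormedSpace ℂ E] (U : Set E) (hU : IsOpen U) :
    EtHol (fun q : E × (Fin m → ℂ) => T.Er (0, q.2)) U S.c := by
  have hc := S.c_pos
  have h0R : (0 : Fin m → ℂ) ∈ ball (0 : Fin m → ℂ) R := mem_ball_self (by linarith)
  have h0r : T.r 0 = S.c := T.r_c 0 (mem_ball_self hc)
  refine EtHol.of_etCont_fib hU ?_ ?_ ?_
  · refine HolOn.comp (g := fun q : E × (Fin m → ℂ) => ((0 : Fin m → ℂ), q.2)) T.hol
      ((differentiable_const _).prodMk differentiable_snd).differentiableOn ?_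
    rintro ⟨x, u⟩ ⟨_, hu⟩
    refine ⟨h0R, ?_⟩
    show ‖u‖ < T.r 0
    rw [h0r]
    exact mem_ball_zero_iff.1 hu
  · intro x _
    have h := T.inj 0 h0R
    rw [h0r] at h
    exact h
  · intro x _ u hu
    refine T.der 0 h0R u ?_
    rw [h0r]
    exact hu

theorem TubeAsm_cutK_zero {E : Type} {κ : E → ℝ} {a b : ℝ} (hab : a < b) {x : E} (hx : κ x ≤ a) :
    cutK κ a b x = 0 := by
  have h1 : (κ x - a) / (b - a) ≤ 0 := div_nonpos_of_nonpos_of_nonneg (by linarith) (by linarith)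
  unfold cutK
  rw [max_eq_left h1, min_eq_right zero_le_one]

theorem TubeAsm_cutK_mem {E : Type} (κ : E → ℝ) (a b : ℝ) (x : E) :
    0 ≤ cutK κ a b x ∧ cutK κ a b x ≤ 1 :=
  ⟨le_min zero_le_one (le_max_left _ _), min_le_left _ _⟩

theorem TubeAsm_convex {m : ℕ} {a b : Fin m → ℂ} {ν r : ℝ} (h0 : 0 ≤ ν) (h1 : ν ≤ 1)
    (ha : ‖a‖ < r) (hb : ‖b‖ < r) :
    ‖((1 - ν : ℝ) : ℂ) • a + ((ν : ℝ) : ℂ) • b‖ < r := by
  have h2 : ‖((1 - ν : ℝ) : ℂ)‖ = 1 - ν := by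
    rw [Complex.norm_real, Real.norm_eq_abs, abs_of_nonneg (by linarith)]
  have h3 : ‖((ν : ℝ) : ℂ)‖ = ν := by
    rw [Complex.norm_real, Real.norm_eq_abs, abs_of_nonneg h0]
  have h4 : ‖((1 - ν : ℝ) : ℂ) • a + ((ν : ℝ) : ℂ) • b‖ ≤ (1 - ν) * ‖a‖ + ν * ‖b‖ := by
    refine (norm_add_le _ _).trans ?_
    rw [norm_smul, norm_smul, h2, h3]
  set M := max ‖a‖ ‖b‖ with hM
  have h5 : M < r := max_lt ha hb
  have h6 : (1 - ν) * ‖a‖ + ν * ‖b‖ ≤ (1 - ν) * M + ν * M :=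
    add_le_add (mul_le_mul_of_nonneg_left (le_max_left _ _) (by linarith))
      (mul_le_mul_of_nonneg_left (le_max_right _ _) h0)
  have h7 : (1 - ν) * M + ν * M = M := by ring
  linarith

theorem TubeAsm_diff {m : ℕ} {a b : Fin m → ℂ} {ν : ℝ} (h0 : 0 ≤ ν) (h1 : ν ≤ 1) :
    ‖((1 - ν : ℝ) : ℂ) • a + ((ν : ℝ) : ℂ) • b - b‖ ≤ ‖a - b‖ := by
  have h2 : ‖((1 - ν : ℝ) : ℂ)‖ = 1 - ν := by
    rw [Complex.norm_real, Real.norm_eq_abs, abs_of_nonneg (by linarith)]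
  have h3 : ((1 - ν : ℝ) : ℂ) • a + ((ν : ℝ) : ℂ) • b - b = ((1 - ν : ℝ) : ℂ) • (a - b) := by
    have h4 : ((1 - ν : ℝ) : ℂ) = 1 - (ν : ℂ) := by push_cast; ring
    rw [h4, smul_sub, sub_smul (1 : ℂ) (ν : ℂ) b, one_smul]
    abel
  rw [h3, norm_smul, h2]
  have := norm_nonneg (a - b)
  nlinarith

theorem exists_tubeData {m : ℕ} {X : Type} [MetricSpace X] [ChartedSpace (Fin m → ℂ) X]
    [IsManifold 𝓘(ℂ, Fin m → ℂ) ⊤ X] {p : X} {S : SigmaData m p} {E : Type}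
    [NormedAddCommGroup E] [InnerProductSpace ℂ E] [FiniteDimensional ℂ E] {κ : E → ℝ}
    (hκ : Continuous κ) (hκc : ∀ a : ℝ, IsCompact {x | κ x ≤ a})
    {fs f1 f2 : E → X} {D : LocData S {x | κ x ≤ 1} fs} {k : ℕ} {ηK : ℝ}
    {KS : KSideData D f1 f2 k ηK} {s4 R' η ε1 : ℝ} (A : FData KS s4 R' η ε1) (hR'0 : 0 < R')
    {U1 : E × (Fin m → ℂ) → (Fin m → ℂ)} (hU : U1Spec A U1)
    (hηK : ηK ≤ D.c1 / 8) (hη : η ≤ D.c1 / 8) (hε : ε1 ≤ D.c1 / 8) (hε0 : 0 < ε1)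
    (hk : 1 ≤ k) {s5 ρ3 : ℝ} {s d : ℝ} (hd : 0 < d) (hs5 : s + 9 * d ≤ s5) (hs5' : s5 < s4)
    (hs4 : s4 ≤ 1 / 2) (hR' : {x | κ x ≤ 1} ⊆ ball (0 : E) R')
    -- sizes
    (hρ3 : 0 < ρ3) (hρ31 : 2 * ρ3 ≤ D.r1) (hηρ : η < ρ3)
    (hsm : D.L * (η + 2 * ε1) + 2 * η ≤ ρ3 / 8)
    {Wt : E × (Fin m → ℂ) → (Fin m → ℂ)}
    (hWt : DifferentiableOn ℂ Wt ({x | κ x < s5} ×ˢ ball (0 : Fin m → ℂ) (2 * ρ3)))
    (hWtle : ∀ x, κ x < s5 → ∀ v ∈ ball (0 : Fin m → ℂ) (2 * ρ3), ‖Wt (x, v)‖ ≤ ρ3 / 8)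
    {κ0 C : ℝ} (hκ0 : 0 < κ0) (hκL : D.L * κ0 ≤ 1 / 2) {k2 : ℕ}
    (hcon : ∀ x, κ x < s5 → x ∈ D.V (D.c1 / 2) → ∀ v ∈ ball (0 : Fin m → ℂ) (2 * ρ3),
      ‖v + Wt (x, v) - D.G (x, U1 (x, v))‖ ≤ κ0 * ‖A.û x‖ ∧
      ‖v + Wt (x, v) - D.G (x, U1 (x, v))‖ ≤ C * ‖A.û x‖ ^ k2) :
    ∃ TD : TubeData m p κ s d R' k2, ∀ x, κ x ≤ s →
      TD.𝒢 (x, 0) = D.Φ (x, A.cF x + Wt (x, A.cF x)) := by
  classical
  -- constants
  have hc := S.c_pos
  have hc1 := D.c1_pos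
  have hc1S := D.c1_le
  have hL1 := D.L_ge
  have hL0 : 0 < D.L := by linarith
  have hr0 := D.r0_pos
  have hr1 := D.r1_le
  have hr1p := D.r1_pos
  have hηr : η < D.r1 := by linarith
  -- the data
  obtain ⟨P⟩ := exists_psi (s5 := s5) (ρ3 := ρ3) hκ hκc A hR' hs5' hs4 hηρ (by linarith)
  obtain ⟨cT, hcT, hcT1, hcTc, ⟨Q⟩⟩ := exists_tubeU P
  obtain ⟨r, 𝒢, hr, hrQ, hcont, hG1, hG2, hG3⟩ := exists_homFam hκ A hR'0 hU hηK hη hε hε0 hk P
    hcT hcT1 hcTc Q hd hs5 hs5' hs4 hR' hρ3 hρ31 hsm hWt hWtle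
  have hrP : r ≤ P.r := hrQ.trans Q.r_le
  obtain ⟨_, _, hq3, hq4, hq5, _⟩ := qmap_props A hU hκ hη hηr hε hε0 hs4
  obtain ⟨huK1, huK2⟩ := A.û_K hκ hηK hη hηr hε hε0 hs4 hk
  set ν : E → ℝ := cutK κ (s + 5.5 * d) (s + 6 * d) with hν
  set μ : E → ℝ := cutU A cT with hμ
  have hν01 : ∀ x, 0 ≤ ν x ∧ ν x ≤ 1 := fun x => TubeAsm_cutK_mem _ _ _ x
  have hν0 : ∀ x, κ x ≤ s + 5.5 * d → ν x = 0 := fun x hx =>
    TubeAsm_cutK_zero (by linarith) hx
  have hμ0 : ∀ x ∈ A.N, ‖A.û x‖ ≤ cT / 2 → μ x = 0 := by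
    intro x hx hxu
    have h1 : (‖A.û x‖ - cT / 2) / (cT / 4) ≤ 0 :=
      div_nonpos_of_nonpos_of_nonneg (by linarith) (by positivity)
    simp only [hμ, cutU, if_pos hx]
    rw [max_eq_left h1, min_eq_right zero_le_one]
  have hμ1 : ∀ x, (x ∈ A.N → 3 * cT / 4 ≤ ‖A.û x‖) → μ x = 1 := by
    intro x hx
    by_cases hxN : x ∈ A.N
    · have h1 : 1 ≤ (‖A.û x‖ - cT / 2) / (cT / 4) := by
        rw [le_div_iff₀ (by positivity)]
        linarith [hx hxN]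
      simp only [hμ, cutU, if_pos hxN]
      rw [max_eq_right (by linarith), min_eq_left h1]
    · simp only [hμ, cutU, if_neg hxN]
  have hEtr : ∀ x, κ x < s4 → A.tt x ∈ ball (0 : Fin m → ℂ) S.c := by
    intro x hx
    rw [mem_ball_zero_iff]
    have := A.tt_small x hx
    linarith
  -- values of Φ at points of G
  have hΦG : ∀ x, x ∈ D.V D.c1 → ∀ z : Fin m → ℂ, ‖z‖ < 3 * D.c1 →
      S.e (D.Φ (x, D.G (x, z))) = z := by
    intro x hx z hz
    have h1 := D.G_spec x hx.1 hx.2.1 hx.2.2 z (mem_ball_zero_iff.2 (by linarith))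
    have h2 : z ∈ ball (0 : Fin m → ℂ) (8 * S.c) := mem_ball_zero_iff.2 (by linarith)
    rw [h1.2, ← S.symm_eq z h2]
    exact S.e.right_inv (S.target h2)
  have hV : ∀ x, x ∈ D.V (D.c1 / 2) → x ∈ D.V D.c1 := by
    intro x hx
    exact ⟨hx.1, hx.2.1, lt_trans hx.2.2 (by linarith)⟩
  have hrad : ∀ x, κ x < s5 → ∀ v : Fin m → ℂ, ‖v‖ < ρ3 → ‖v + Wt (x, v)‖ < 2 * ρ3 := by
    intro x hx v hv
    have h1 := hWtle x hx v (mem_ball_zero_iff.2 (by linarith))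
    linarith [norm_add_le v (Wt (x, v))]
  -- the main estimate over the convex set
  have hmain : ∀ x, κ x < s5 → x ∈ D.V (D.c1 / 2) → ∀ v : Fin m → ℂ, ‖v‖ < ρ3 →
      ∀ b : Fin m → ℂ, b = ((1 - ν x : ℝ) : ℂ) • (v + Wt (x, v)) +
        ((ν x : ℝ) : ℂ) • D.G (x, U1 (x, v)) →
      D.Φ (x, b) ∈ S.e.source ∧
      ‖S.e (D.Φ (x, b)) - U1 (x, v)‖ ≤ D.L * (κ0 * ‖A.û x‖) ∧
      ‖S.e (D.Φ (x, b)) - U1 (x, v)‖ ≤ D.L * (C * ‖A.û x‖ ^ k2) := by
    intro x hx hxV v hv b hb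
    have hxV1 := hV x hxV
    have hv1 : v ∈ ball (0 : Fin m → ℂ) D.r1 := mem_ball_zero_iff.2 (by linarith)
    have h1 := hq3 x (by linarith) hxV1 1 (by simp) v hv1
    rw [(hq4 x (by linarith) hxV1 v hv1).2] at h1
    have hη0 : 0 ≤ η := (norm_nonneg _).trans (A.tt_small x (by linarith))
    have h2 : ‖D.G (x, U1 (x, v))‖ < 2 * ρ3 := by
      have h3 : ‖D.G (x, U1 (x, v))‖ ≤ ‖D.G (x, U1 (x, v)) - v‖ + ‖v‖ := by
        have := norm_add_le (D.G (x, U1 (x, v)) - v) v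
        simpa using this
      linarith [h1.1]
    have h4 : ‖b‖ < 2 * ρ3 := by
      rw [hb]
      exact TubeAsm_convex (hν01 x).1 (hν01 x).2 (hrad x hx v hv) h2
    have hbr : b ∈ ball (0 : Fin m → ℂ) D.r1 := mem_ball_zero_iff.2 (by linarith)
    have hGr : D.G (x, U1 (x, v)) ∈ ball (0 : Fin m → ℂ) D.r1 := mem_ball_zero_iff.2 (by linarith)
    have h5 := D.Z_lip x hxV1.1 hxV1.2.1 hxV1.2.2 b hbr _ hGr
    have h6 : ‖U1 (x, v)‖ < 3 * D.c1 := (hU.spec x (by linarith) hxV1 v hv1).2.2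
    rw [hΦG x hxV1 _ h6] at h5
    have h7 : ‖b - D.G (x, U1 (x, v))‖ ≤ ‖v + Wt (x, v) - D.G (x, U1 (x, v))‖ := by
      rw [hb]
      exact TubeAsm_diff (hν01 x).1 (hν01 x).2
    have h8 := hcon x hx hxV v (mem_ball_zero_iff.2 (by linarith))
    exact ⟨(D.Z_spec x hxV1.1 hxV1.2.1 hxV1.2.2 b hbr).1,
      h5.trans (mul_le_mul_of_nonneg_left (h7.trans h8.1) hL0.le),
      h5.trans (mul_le_mul_of_nonneg_left (h7.trans h8.2) hL0.le)⟩
  -- the tube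
  have hQr : EtHol Q.U2 Q.UT r := Q.U2_hol.mono (subset_refl _) hrQ
  obtain ⟨Λ, hΛ, δ0, hδ0, hlip⟩ := EtHol.lip_inv Q.UT_open hQr hcTc
    (fun x hx => Q.UT_sub x hx.1 hx.2.1 hx.2.2) (r' := r / 2) (by linarith)
  obtain ⟨c3, hc3, hc3T, hc3δ⟩ : ∃ c3 > 0, c3 ≤ cT / 4 ∧ D.L * (κ0 * c3) ≤ δ0 := by
    refine ⟨min (cT / 4) (δ0 / (D.L * κ0)), lt_min (by positivity) (by positivity),
      min_le_left _ _, ?_⟩
    have h1 : min (cT / 4) (δ0 / (D.L * κ0)) ≤ δ0 / (D.L * κ0) := min_le_right _ _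
    rw [le_div_iff₀ (by positivity)] at h1
    linarith
  have hNopen : IsOpen {x | x ∈ Q.UT ∧ ‖A.û x‖ < cT} := by
    have h1 : ContinuousOn (fun x => ‖A.û x‖) Q.UT :=
      (A.û_hol.continuousOn.mono Q.UT_N).norm
    exact h1.isOpen_inter_preimage Q.UT_open isOpen_Iio
  have htubec : IsCompact {x | x ∈ closedBall (0 : E) R' ∧ x ∈ {x | x ∈ Q.UT ∧ ‖A.û x‖ < cT} ∧
      ‖A.û x‖ ≤ c3} := by
    have h1 : ContinuousOn (fun x => ‖A.û x‖)
        {x | x ∈ closedBall (0 : E) R' ∧ x ∈ A.N ∧ ‖A.û x‖ ≤ cT} :=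
      (A.û_hol.continuousOn.mono (fun x hx => hx.2.1)).norm
    have h2 := h1.preimage_isClosed_of_isClosed hcTc.isClosed (isClosed_Iic (a := c3))
    refine hcTc.of_isClosed_subset (?_ : IsClosed _) ?_
    · convert h2 using 1
      ext x
      constructor
      · rintro ⟨h3, h4, h5⟩
        exact ⟨⟨h3, Q.UT_N h4.1, h4.2.le⟩, h5⟩
      · rintro ⟨⟨h3, h4, h5⟩, h6⟩
        have h7 : ‖A.û x‖ ≤ c3 := h6
        exact ⟨h3, ⟨Q.UT_sub x h3 h4 h5, by linarith⟩, h7⟩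
    · rintro x ⟨h3, h4, h5⟩
      exact ⟨h3, Q.UT_N h4.1, h4.2.le⟩
  -- uniqueness of coordinates
  have hU12 : ∀ x, κ x < s5 → x ∈ Q.UT → x ∈ D.V (D.c1 / 2) → ∀ t ∈ ball (0 : Fin m → ℂ) r,
      U1 (x, P.v (x, t)) = Q.U2 (x, t) := by
    intro x hx hxT hxV t ht
    have htP : t ∈ ball (0 : Fin m → ℂ) P.r := ball_subset_ball hrP ht
    have htQ : t ∈ ball (0 : Fin m → ℂ) Q.r := ball_subset_ball hrQ ht
    have hv := P.v_lt x hx t htP
    have hv1 : P.v (x, t) ∈ ball (0 : Fin m → ℂ) D.r1 := mem_ball_zero_iff.2 (by linarith)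
    have hx4 : κ x < s4 := by linarith
    have h1 := hU.spec x hx4 (hV x hxV) _ hv1
    have h2 := Q.U2_spec x hxT t htQ
    have h3 := P.v_spec x hx t htP
    have h4 := Q.U2_lt x hxT t htQ
    have htc := hEtr x hx4
    have hrc := A.T.r_c (A.tt x) htc
    have hRR := A.R_gt
    refine A.T.inj (A.tt x) (ball_subset_ball hRR.le htc) ?_ ?_ ?_
    · rw [hrc]; exact mem_ball_zero_iff.2 (by linarith [h1.2.2])
    · rw [hrc]; exact mem_ball_zero_iff.2 (by linarith [h4.2])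
    · show A.T.Er (A.tt x, U1 (x, P.v (x, t))) = A.T.Er (A.tt x, Q.U2 (x, t))
      rw [h1.1, h2, h3]
  -- bmap over the convex set near the tube
  have hbmap : ∀ x, κ x < s5 → x ∈ D.V (D.c1 / 2) → x ∈ A.N → ‖A.û x‖ ≤ cT / 2 →
      ∀ v : Fin m → ℂ, ‖v‖ < ρ3 → bmap A U1 Wt ν μ ((x, 1), v) =
        ((1 - ν x : ℝ) : ℂ) • (v + Wt (x, v)) + ((ν x : ℝ) : ℂ) • D.G (x, U1 (x, v)) := by
    intro x hx hxV hxN hxu v hv
    have hv1 : v ∈ ball (0 : Fin m → ℂ) D.r1 := mem_ball_zero_iff.2 (by linarith)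
    have h1 := (hq4 x (by linarith) (hV x hxV) v hv1).2
    simp only [bmap, hμ0 x hxN hxu, h1]
    simp
  have hθp : ∀ x ∈ A.UF, A.T.θ (A.F x, A.tt x, 1) = p ↔ x ∈ A.N ∧ A.û x = 0 :=
    fun x hx => A.θ_eq_p hx
  -- choice of g
  have hg : ∀ q : E × (Fin m → ℂ), ∃ t' : Fin m → ℂ,
      (q.1 ∈ closedBall (0 : E) R' → q.1 ∈ {x | x ∈ Q.UT ∧ ‖A.û x‖ < cT} → ‖A.û q.1‖ ≤ c3 →
        q.2 ∈ ball (0 : Fin m → ℂ) (r / 2) → t' ∈ ball (0 : Fin m → ℂ) r ∧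
          A.T.Er (0, Q.U2 (q.1, t')) = 𝒢 (q.1, q.2) ∧
          ‖t' - q.2‖ ≤ Λ * D.L * |C| * ‖A.û q.1‖ ^ k2) := by
    rintro ⟨x, t⟩
    by_cases hcase : x ∈ closedBall (0 : E) R' ∧ x ∈ {x | x ∈ Q.UT ∧ ‖A.û x‖ < cT} ∧
      ‖A.û x‖ ≤ c3 ∧ t ∈ ball (0 : Fin m → ℂ) (r / 2)
    swap
    · exact ⟨0, fun h1 h2 h3 h4 => absurd ⟨h1, h2, h3, h4⟩ hcase⟩
    obtain ⟨hxK, hxN, hxu, ht⟩ := hcase
    have htr : t ∈ ball (0 : Fin m → ℂ) r := ball_subset_ball (by linarith) ht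
    have hxA : x ∈ A.N := Q.UT_N hxN.1
    rcases le_or_gt (s + 7 * d) (κ x) with h7 | h7
    · refine ⟨t, fun _ _ _ _ => ⟨htr, (hG2 x hxK h7 hxA (by linarith) t htr).symm, ?_⟩⟩
      rw [sub_self, norm_zero]
      positivity
    · have hx5 : κ x < s5 := by linarith
      have hxV : x ∈ D.V (D.c1 / 2) := huK2 x (by linarith) hxA (by linarith)
      have htP : t ∈ ball (0 : Fin m → ℂ) P.r := ball_subset_ball hrP htr
      have hv := P.v_lt x hx5 t htP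
      have hb := hbmap x hx5 hxV hxA (by linarith) _ hv
      have h𝒢 := hG1 x h7.le t htr
      obtain ⟨g1, g2, g3⟩ := hmain x hx5 hxV _ hv _ hb
      rw [hU12 x hx5 hxN.1 hxV t htr] at g2 g3
      set ub := S.e (D.Φ (x, bmap A U1 Wt ν μ ((x, 1), P.v (x, t)))) with hub
      have h8 : ‖ub - Q.U2 (x, t)‖ ≤ δ0 := by
        refine g2.trans (le_trans ?_ hc3δ)
        exact mul_le_mul_of_nonneg_left (mul_le_mul_of_nonneg_left hxu hκ0.le) hL0.le
      obtain ⟨t', ht', hUt', htt'⟩ := hlip x ⟨hxK, hxA, hxN.2.le⟩ t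
        (ball_subset_closedBall ht) ub h8
      refine ⟨t', fun _ _ _ _ => ⟨ht', ?_, ?_⟩⟩
      · show A.T.Er (0, Q.U2 (x, t')) = 𝒢 (x, t)
        have h9 : ‖ub‖ < S.c / 4 := by
          rw [← hUt']
          exact (Q.U2_lt x hxN.1 t' (ball_subset_ball hrQ ht')).2
        rw [hUt', A.T.zero ub (mem_ball_zero_iff.2 (by linarith)),
          ← S.symm_eq ub (mem_ball_zero_iff.2 (by linarith)), hub, S.e.left_inv g1, ← h𝒢]
      · show ‖t' - t‖ ≤ Λ * D.L * |C| * ‖A.û x‖ ^ k2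
        have h9 : C * ‖A.û x‖ ^ k2 ≤ |C| * ‖A.û x‖ ^ k2 :=
          mul_le_mul_of_nonneg_right (le_abs_self C) (by positivity)
        calc ‖t' - t‖ ≤ Λ * ‖ub - Q.U2 (x, t)‖ := htt'
          _ ≤ Λ * (D.L * (|C| * ‖A.û x‖ ^ k2)) :=
              mul_le_mul_of_nonneg_left
                (g3.trans (mul_le_mul_of_nonneg_left h9 hL0.le)) hΛ.le
          _ = Λ * D.L * |C| * ‖A.û x‖ ^ k2 := by ring
  choose gg hgg using hg
  -- p as a value of the central family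
  have hp0 : A.T.Er (0, 0) = p := by
    rw [A.T.zero 0 (mem_ball_self hc), ← S.symm_eq 0 (mem_ball_self (by positivity)), ← S.e_p]
    exact S.e.left_inv S.mem
  have hUKopen : IsOpen {x | κ x < s + 5.5 * d} := isOpen_lt hκ continuous_const
  have hholB : EtHol (fun q : E × (Fin m → ℂ) => A.T.Er (0, Q.U2 q))
      {x | x ∈ Q.UT ∧ ‖A.û x‖ < cT} r := by
    have h1 := TubeAsm_center A.T A.R_gt {x | x ∈ Q.UT ∧ ‖A.û x‖ < cT} hNopen
    have h2 : EtHol Q.U2 {x | x ∈ Q.UT ∧ ‖A.û x‖ < cT} r :=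
      Q.U2_hol.mono (fun x hx => hx.1) hrQ
    refine h1.comp h2 ?_
    intro x hx u hu
    have h3 := (Q.U2_lt x hx.1 u (ball_subset_ball hrQ hu)).2
    exact mem_ball_zero_iff.2 (by linarith)
  have hholK : EtHol 𝒢 {x | κ x < s + 5.5 * d} r := by
    have hsub5 : {x | κ x < s + 5.5 * d} ⊆ {x | κ x < s5} := by
      intro x hx
      have h1 : κ x < s + 5.5 * d := hx
      show κ x < s5
      linarith
    have hsubU : {x | κ x < s + 5.5 * d} ⊆ D.U := by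
      intro x hx
      have h1 : κ x < s5 := hsub5 hx
      refine D.K_U ?_
      show κ x ≤ 1
      linarith
    have h1 : EtHol (fun q : E × (Fin m → ℂ) => q.2 + Wt q) {x | κ x < s + 5.5 * d} ρ3 := by
      have h2 := etHol_of_near_id (δ := fun q : E × (Fin m → ℂ) => q.2 + Wt q)
        (U := {x | κ x < s + 5.5 * d}) (r := 2 * ρ3) (by positivity) hUKopen
        (differentiableOn_snd.add (hWt.mono (prod_mono_left hsub5))) (by
          intro x hx u hu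
          show ‖u + Wt (x, u) - u‖ ≤ 2 * ρ3 / 8
          rw [add_sub_cancel_left]
          have := hWtle x (hsub5 hx) u hu
          linarith)
      have h3 : 2 * ρ3 / 2 = ρ3 := by ring
      rw [h3] at h2
      exact h2
    have h2 : EtHol P.v {x | κ x < s + 5.5 * d} r := P.v_hol.mono hsub5 hrP
    have h3 : EtHol (fun q : E × (Fin m → ℂ) => P.v q + Wt (q.1, P.v q))
        {x | κ x < s + 5.5 * d} r :=
      h1.comp h2 (fun x hx u hu =>
        mem_ball_zero_iff.2 (P.v_lt x (hsub5 hx) u (ball_subset_ball hrP hu)))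
    have h4 : EtHol D.Φ {x | κ x < s + 5.5 * d} D.r0 := D.hol.mono hsubU le_rfl
    refine (h4.comp h3 ?_).congr ?_
    · intro x hx u hu
      have h5 := hrad x (hsub5 hx) _ (P.v_lt x (hsub5 hx) u (ball_subset_ball hrP hu))
      exact mem_ball_zero_iff.2 (by
        show ‖P.v (x, u) + Wt (x, P.v (x, u))‖ < D.r0
        linarith)
    · intro x hx u hu
      have hx' : κ x < s + 5.5 * d := hx
      rw [hG1 x (by linarith) u hu]
      show D.Φ (x, bmap A U1 Wt ν μ ((x, 1), P.v (x, u))) =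
        D.Φ (x, P.v (x, u) + Wt (x, P.v (x, u)))
      congr 2
      simp [bmap, hν0 x hx'.le]
  have havoid : ∀ x ∈ closedBall (0 : E) R',
      ¬ (x ∈ {x | x ∈ Q.UT ∧ ‖A.û x‖ < cT} ∧ A.û x = 0) → 𝒢 (x, 0) ≠ p := by
    intro x hxK hx0
    have hxN0 : ¬ (x ∈ A.N ∧ A.û x = 0) := by
      rintro ⟨h1, h2⟩
      refine hx0 ⟨⟨Q.UT_sub x hxK h1 ?_, ?_⟩, h2⟩
      · rw [h2, norm_zero]; exact hcT.le
      · rw [h2, norm_zero]; exact hcT
    rcases le_or_gt (s + 7 * d) (κ x) with h7 | h7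
    · rw [hG3 x hxK h7]
      intro h8
      exact hxN0 ((hθp x (A.UF_sub hxK)).1 h8)
    · have hx5 : κ x < s5 := by linarith
      have hx4 : κ x < s4 := by linarith
      have h0P : (0 : Fin m → ℂ) ∈ ball (0 : Fin m → ℂ) P.r := mem_ball_self P.r_pos
      have hcF : ‖A.cF x‖ < ρ3 := lt_of_le_of_lt (A.cF_spec x hx4).1 hηρ
      rw [hG1 x h7.le 0 (mem_ball_self hr), P.v_zero x hx5]
      show D.Φ (x, bmap A U1 Wt ν μ ((x, 1), A.cF x)) ≠ p
      have hcH := (A.cH_spec x hx4 1 (by simp)).1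
      by_cases hxV : x ∈ D.V (D.c1 / 2)
      · have hxN : x ∈ A.N := (huK1 x hx4 hxV).1
        have hu0 : A.û x ≠ 0 := fun h => hxN0 ⟨hxN, h⟩
        have hv1 : A.cF x ∈ ball (0 : Fin m → ℂ) D.r1 := mem_ball_zero_iff.2 (by linarith)
        have h8 := hq5 x hx4 hxV 1 (by simp)
        have h9 := (hq4 x hx4 (hV x hxV) _ hv1).2
        have hb : bmap A U1 Wt ν μ ((x, 1), A.cF x) =
            ((1 - ν x : ℝ) : ℂ) • (A.cF x + Wt (x, A.cF x)) +
              ((ν x : ℝ) : ℂ) • D.G (x, U1 (x, A.cF x)) := by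
          have h10 : A.cH (x, 1) = D.G (x, U1 (x, A.cF x)) := by rw [← h8.2, h9]
          have h11 : A.cF x + A.cH (x, 1) - A.cF x = D.G (x, U1 (x, A.cF x)) := by
            rw [h10]; abel
          have h12 : ((1 - μ x : ℝ) : ℂ) • D.G (x, U1 (x, A.cF x)) +
              ((μ x : ℝ) : ℂ) • D.G (x, U1 (x, A.cF x)) = D.G (x, U1 (x, A.cF x)) := by
            rw [← add_smul]
            have : ((1 - μ x : ℝ) : ℂ) + ((μ x : ℝ) : ℂ) = 1 := by push_cast; ring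
            rw [this, one_smul]
          simp only [bmap, h9, h11, h12]
          simp
        obtain ⟨_, g2, _⟩ := hmain x hx5 hxV _ hcF _ hb
        rw [h8.1] at g2
        intro hpp
        rw [hpp, S.e_p, zero_sub, norm_neg] at g2
        have h13 : 0 < ‖A.û x‖ := norm_pos_iff.2 hu0
        have h14 : D.L * (κ0 * ‖A.û x‖) ≤ 1 / 2 * ‖A.û x‖ := by
          rw [← mul_assoc]
          exact mul_le_mul_of_nonneg_right hκL h13.le
        linarith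
      · have hμx : μ x = 1 := by
          refine hμ1 x fun hxN => ?_
          by_contra hlt
          push Not at hlt
          exact hxV (huK2 x hx4 hxN (by linarith))
        have hb : bmap A U1 Wt ν μ ((x, 1), A.cF x) =
            ((1 - ν x : ℝ) : ℂ) • (A.cF x + Wt (x, A.cF x)) +
              ((ν x : ℝ) : ℂ) • A.cH (x, 1) := by
          simp [bmap, hμx]
        have hxU : x ∈ D.U := by
          refine D.K_U ?_
          show κ x ≤ 1
          linarith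
        refine D.far x hxU ?_ _ ?_
        · rintro ⟨h8, h9⟩
          exact hxV ⟨hxU, h8, by linarith⟩
        · rw [hb]
          refine mem_ball_zero_iff.2 (lt_of_lt_of_le (TubeAsm_convex (r := 2 * ρ3) (hν01 x).1
            (hν01 x).2 (hrad x hx5 _ hcF) (by linarith)) hρ31)
  have havoid2 : ∀ x ∈ closedBall (0 : E) R', x ∈ {x | x ∈ Q.UT ∧ ‖A.û x‖ < cT} → A.û x ≠ 0 →
      ‖A.û x‖ ≤ c3 → ∀ t ∈ ball (0 : Fin m → ℂ) r, ‖t‖ ≤ 1 / (2 * Q.CU) * ‖A.û x‖ →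
        A.T.Er (0, Q.U2 (x, t)) ≠ p := by
    intro x _ hxN hu0 _ t ht htu hpp
    have hCU := Q.CU_pos
    have htQ : t ∈ ball (0 : Fin m → ℂ) Q.r := ball_subset_ball hrQ ht
    have h1 := Q.U2_lip x hxN.1 t htQ 0 (mem_ball_self Q.r_pos)
    rw [Q.U2_zero x hxN.1, sub_zero] at h1
    have h2 : Q.CU * ‖t‖ ≤ ‖A.û x‖ / 2 := by
      calc Q.CU * ‖t‖ ≤ Q.CU * (1 / (2 * Q.CU) * ‖A.û x‖) :=
            mul_le_mul_of_nonneg_left htu hCU.le
        _ = ‖A.û x‖ / 2 := by field_simp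
    have h0R : (0 : Fin m → ℂ) ∈ ball (0 : Fin m → ℂ) A.R :=
      mem_ball_self (by have := A.R_gt; linarith)
    have h0r : A.T.r 0 = S.c := A.T.r_c 0 (mem_ball_self hc)
    have h3 := (Q.U2_lt x hxN.1 t htQ).2
    have h4 : Q.U2 (x, t) = 0 := by
      refine A.T.inj 0 h0R ?_ ?_ ?_
      · rw [h0r]; exact mem_ball_zero_iff.2 (by linarith)
      · rw [h0r]; exact mem_ball_self hc
      · show A.T.Er (0, Q.U2 (x, t)) = A.T.Er (0, 0)
        rw [hpp, hp0]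
    rw [h4, zero_sub, norm_neg] at h1
    have h5 : 0 < ‖A.û x‖ := norm_pos_iff.2 hu0
    linarith
  refine ⟨{ N := {x | x ∈ Q.UT ∧ ‖A.û x‖ < cT}
            û := A.û
            c3 := c3
            𝒢 := 𝒢
            ΦB := fun q => A.T.Er (0, Q.U2 q)
            g := gg
            r := r
            r' := r / 2
            C := Λ * D.L * |C|
            c4 := 1 / (2 * Q.CU)
            UK := {x | κ x < s + 5.5 * d}
            N_open := hNopen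
            û_hol := A.û_hol.mono (fun x hx => Q.UT_N hx.1)
            c3_pos := hc3
            tube_compact := htubec
            r'_pos := by positivity
            r'_le := by linarith
            c4_pos := by have := Q.CU_pos; positivity
            cont := hcont
            UK_open := hUKopen
            UK_sub := ?_
            holK := hholK
            holB := hholB
            rel := ?_
            avoid := havoid
            avoid2 := havoid2 }, ?_⟩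
  · intro x hx
    have h1 : κ x ≤ s + 5 * d := hx
    show κ x < s + 5.5 * d
    linarith
  · intro x hxK hxN hxu t ht
    exact hgg (x, t) hxK hxN hxu ht
  · intro x hx
    have hx5 : κ x < s5 := by linarith
    show 𝒢 (x, 0) = D.Φ (x, A.cF x + Wt (x, A.cF x))
    rw [hG1 x (by linarith) 0 (mem_ball_self hr), P.v_zero x hx5]
    show D.Φ (x, bmap A U1 Wt ν μ ((x, 1), A.cF x)) = D.Φ (x, A.cF x + Wt (x, A.cF x))
    congr 2
    simp [bmap, hν0 x (by linarith)]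

end OkaP
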