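import Pool.Agent.H.MP_ceb9a9.FGeom
import Pool.Agent.H.MP_ceb9a9.Psh0
import Pool.Agent.H.MP_ceb9a9.CutR

/-!
# MP_ceb9a9: the corrected transport over the convex set
-/

set_option autoImplicit false

open scoped Manifold

namespace OkaP

open Set Metric Topology

private theorem WTot_shr_pos (m : ℕ) {r : ℝ} (hr : 0 < r) : 0 < shr m r := by
  unfold shr
  positivity

private theorem WTot_shr_le (m : ℕ) {r : ℝ} (hr : 0 < r) : shr m r ≤ r / 8 := by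
  unfold shr
  have h1 : (8 : ℝ) ≤ 8 * (m + 1) := by
    have : (0 : ℝ) ≤ m := Nat.cast_nonneg m
    linarith
  exact div_le_div_of_nonneg_left hr.le (by norm_num) h1

/-- the psh function of the corrected transport -/
theorem WTot_rho {m : ℕ} {E : Type} [NormedAddCommGroup E] [NormedSpace ℂ E]
    [FiniteDimensional ℂ E] {κ : E → ℝ} (hκ : Psh κ)
    (hκc : ∀ a : ℝ, IsCompact {x | κ x ≤ a}) {s3 s4 r2 : ℝ} (h34 : s3 < s4) (hr2 : 0 < r2) :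
    ∃ ρ : E × (Fin m → ℂ) → ℝ, Psh ρ ∧ IsCompact {q | ρ q ≤ 1} ∧
      (∀ q, ρ q < 1 → κ q.1 < s4 ∧ q.2 ∈ ball (0 : Fin m → ℂ) r2) ∧
      (∀ q, ρ q ≤ 1 → κ q.1 ≤ s4) ∧
      (∀ q, κ q.1 < s3 → q.2 ∈ ball (0 : Fin m → ℂ) (shr m r2) → ρ q < 1 / 8) := by
  set lam : ℝ := Real.log 32 / (s4 - s3) with hlam
  have hd : 0 < s4 - s3 := sub_pos.2 h34
  have hlog : 0 < Real.log 32 := Real.log_pos (by norm_num)
  have hlam0 : 0 < lam := div_pos hlog hd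
  set A : E → ℝ := fun x => Real.exp (lam * (κ x - s4)) with hA
  set B : (Fin m → ℂ) → ℝ := fun v => ∑ j, ‖v j‖ ^ 2 with hB
  have hAp : Psh A := by
    have h1 : Psh (fun x => lam * (κ x + (-s4))) := (hκ.add_const (-s4)).const_mul hlam0.le
    have h2 : A = fun x => Real.exp (lam * (κ x + (-s4))) := by
      funext x
      simp only [hA, sub_eq_add_neg]
    rw [h2]
    refine ⟨Real.contDiff_exp.comp h1.smooth, fun x v => ?_⟩
    rw [levi_comp Real.contDiff_exp h1.smooth.contDiffAt, Real.deriv_exp, Real.deriv_exp]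
    have h3 := h1.nonneg x v
    have h4 := Real.exp_pos (lam * (κ x + (-s4)))
    positivity
  have hBp : Psh B := by
    have h1 : B = fun v : Fin m → ℂ => ∑ j, (fun z : ℂ => ‖z‖ ^ 2)
        ((ContinuousLinearMap.proj (R := ℂ) (φ := fun _ : Fin m => ℂ) j) v) := rfl
    rw [h1]
    exact Psh.sum Finset.univ fun j _ => psh_normSq.comp_linear _
  have hB0 : ∀ v, 0 ≤ B v := fun v => Finset.sum_nonneg fun _ _ => sq_nonneg _
  have hA0 : ∀ x, 0 < A x := fun x => Real.exp_pos _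
  have hAlt : ∀ x, A x < 1 → κ x < s4 := by
    intro x hx
    have h1 : lam * (κ x - s4) < 0 := by
      rwa [hA, Real.exp_lt_one_iff] at hx
    have h2 : κ x - s4 < 0 := by
      by_contra hcon
      push Not at hcon
      have := mul_nonneg hlam0.le hcon
      linarith
    linarith
  have hAle : ∀ x, A x ≤ 1 → κ x ≤ s4 := by
    intro x hx
    have h1 : lam * (κ x - s4) ≤ 0 := by
      rwa [hA, Real.exp_le_one_iff] at hx
    have h2 : κ x - s4 ≤ 0 := by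
      by_contra hcon
      push Not at hcon
      have := mul_pos hlam0 hcon
      linarith
    linarith
  have hBle : ∀ (v : Fin m → ℂ) (j : Fin m), ‖v j‖ ^ 2 ≤ B v := fun v j =>
    Finset.single_le_sum (f := fun j => ‖v j‖ ^ 2) (fun i _ => sq_nonneg _) (Finset.mem_univ j)
  refine ⟨fun q => A q.1 + (1 / r2 ^ 2) * B q.2, ?_, ?_, ?_, ?_, ?_⟩
  · exact (hAp.comp_linear (ContinuousLinearMap.fst ℂ E (Fin m → ℂ))).add
      ((hBp.comp_linear (ContinuousLinearMap.snd ℂ E (Fin m → ℂ))).const_mul (by positivity))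
  · have hcont : Continuous (fun q : E × (Fin m → ℂ) => A q.1 + (1 / r2 ^ 2) * B q.2) :=
      (hAp.smooth.continuous.comp continuous_fst).add
        (continuous_const.mul (hBp.smooth.continuous.comp continuous_snd))
    refine ((hκc s4).prod (isCompact_closedBall (0 : Fin m → ℂ) r2)).of_isClosed_subset
      (isClosed_le hcont continuous_const) ?_
    intro q hq
    have hq' : A q.1 + (1 / r2 ^ 2) * B q.2 ≤ 1 := hq
    have h1 : 0 ≤ (1 / r2 ^ 2) * B q.2 := mul_nonneg (by positivity) (hB0 _)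
    refine ⟨hAle _ (by linarith), ?_⟩
    rw [mem_closedBall_zero_iff, pi_norm_le_iff_of_nonneg hr2.le]
    intro j
    have h2 : (1 / r2 ^ 2) * B q.2 ≤ 1 := by linarith [hA0 q.1]
    have h3 : B q.2 ≤ r2 ^ 2 := by
      rw [div_mul_eq_mul_div, one_mul, div_le_one (by positivity)] at h2
      exact h2
    exact abs_le_of_sq_le_sq' ((hBle _ j).trans h3) hr2.le |>.2
  · intro q hq
    have hq' : A q.1 + (1 / r2 ^ 2) * B q.2 < 1 := hq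
    have h1 : 0 ≤ (1 / r2 ^ 2) * B q.2 := mul_nonneg (by positivity) (hB0 _)
    refine ⟨hAlt _ (by linarith), ?_⟩
    rw [mem_ball_zero_iff, pi_norm_lt_iff hr2]
    intro j
    have h2 : (1 / r2 ^ 2) * B q.2 < 1 := by linarith [hA0 q.1]
    have h3 : B q.2 < r2 ^ 2 := by
      rw [div_mul_eq_mul_div, one_mul, div_lt_one (by positivity)] at h2
      exact h2
    exact lt_of_pow_lt_pow_left₀ 2 hr2.le ((hBle _ j).trans_lt h3)
  · intro q hq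
    have hq' : A q.1 + (1 / r2 ^ 2) * B q.2 ≤ 1 := hq
    have h1 : 0 ≤ (1 / r2 ^ 2) * B q.2 := mul_nonneg (by positivity) (hB0 _)
    exact hAle _ (by linarith)
  · intro q hq1 hq2
    have h1 : A q.1 < 1 / 32 := by
      have h2 : lam * (κ q.1 - s4) < - Real.log 32 := by
        have h3 : lam * (κ q.1 - s4) < lam * (s3 - s4) :=
          mul_lt_mul_of_pos_left (by linarith) hlam0
        have h4 : lam * (s3 - s4) = - Real.log 32 := by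
          rw [hlam]
          field_simp
          ring
        linarith
      have h5 := Real.exp_lt_exp.2 h2
      rw [Real.exp_neg, Real.exp_log (by norm_num)] at h5
      simpa using h5
    have hs := WTot_shr_pos m hr2
    rw [mem_ball_zero_iff, pi_norm_lt_iff hs] at hq2
    have h6 : B q.2 ≤ m * (shr m r2) ^ 2 := by
      have h7 : B q.2 ≤ ∑ _j : Fin m, (shr m r2) ^ 2 :=
        Finset.sum_le_sum fun j _ => pow_le_pow_left₀ (norm_nonneg _) (hq2 j).le 2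
      simpa using h7
    have h8 : (m : ℝ) * (shr m r2) ^ 2 ≤ r2 ^ 2 / 64 := by
      have hm : (0 : ℝ) ≤ m := Nat.cast_nonneg m
      have h9 : (m : ℝ) * (shr m r2) ^ 2 = (m / (m + 1) ^ 2) * (r2 ^ 2 / 64) := by
        unfold shr
        field_simp
        ring
      rw [h9]
      have h10 : (m : ℝ) / (m + 1) ^ 2 ≤ 1 := by
        rw [div_le_one (by positivity)]
        nlinarith
      calc (m : ℝ) / (m + 1) ^ 2 * (r2 ^ 2 / 64) ≤ 1 * (r2 ^ 2 / 64) :=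
            mul_le_mul_of_nonneg_right h10 (by positivity)
        _ = r2 ^ 2 / 64 := one_mul _
    have h11 : (1 / r2 ^ 2) * B q.2 ≤ 1 / 64 := by
      calc (1 / r2 ^ 2) * B q.2 ≤ (1 / r2 ^ 2) * (r2 ^ 2 / 64) :=
            mul_le_mul_of_nonneg_left (h6.trans h8) (by positivity)
        _ = 1 / 64 := by field_simp
    show A q.1 + (1 / r2 ^ 2) * B q.2 < 1 / 8
    linarith

/-- the cutoff function -/
theorem WTot_cut {m : ℕ} {X : Type} [MetricSpace X] [ChartedSpace (Fin m → ℂ) X]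
    {p : X} {S : SigmaData m p} {E : Type}
    [NormedAddCommGroup E] [NormedSpace ℂ E] [FiniteDimensional ℂ E] {κ : E → ℝ}
    (hκ : Continuous κ) (hκc : ∀ a : ℝ, IsCompact {x | κ x ≤ a}) {fs : E → X}
    (D : LocData S {x | κ x ≤ 1} fs) :
    ∃ χ : E → ℝ, ContDiff ℝ ((⊤ : ℕ∞) : WithTop ℕ∞) χ ∧ (∀ x, χ x ∈ Icc (0 : ℝ) 1) ∧
      tsupport χ ⊆ D.V (D.c1 / 2) ∧
      (∀ x, κ x ≤ 1 / 2 → x ∈ D.V (D.c1 / 4) → χ x = 1) := by
  have hc1 := D.c1_pos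
  set T : Set X := S.e.symm '' closedBall (0 : Fin m → ℂ) (D.c1 / 4) with hT
  have hsub : closedBall (0 : Fin m → ℂ) (D.c1 / 4) ⊆ S.e.target := by
    refine Subset.trans ?_ S.target
    refine closedBall_subset_ball ?_
    have h1 := D.c1_le
    have h2 := S.c_pos
    linarith
  have hTc : IsCompact T :=
    (isCompact_closedBall _ _).image_of_continuousOn (S.e.continuousOn_symm.mono hsub)
  have hfc : ContinuousOn fs {x | κ x ≤ 1 / 2} := by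
    refine (HolOn.continuousOn D.fs_hol).mono fun x hx => D.K_U ?_
    have h1 : κ x ≤ 1 / 2 := hx
    show κ x ≤ 1
    linarith
  set K1 : Set E := {x | κ x ≤ 1 / 2} ∩ fs ⁻¹' T with hK1
  have hK1c : IsCompact K1 :=
    (hκc (1 / 2)).of_isClosed_subset
      (hfc.preimage_isClosed_of_isClosed (isClosed_le hκ continuous_const) hTc.isClosed)
      inter_subset_left
  have hK1V : K1 ⊆ D.V (D.c1 / 2) := by
    rintro x ⟨hx1, z, hz, hzx⟩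
    have hxU : x ∈ D.U := D.K_U (show κ x ≤ 1 by
      have h1 : κ x ≤ 1 / 2 := hx1
      linarith)
    refine ⟨hxU, ?_, ?_⟩
    · rw [← hzx]
      exact S.e.map_target (hsub hz)
    · rw [← hzx, S.e.right_inv (hsub hz)]
      rw [mem_closedBall_zero_iff] at hz
      linarith
  obtain ⟨χ, hχ1, -, hχ2, hχ3, hχ4⟩ := exists_cut hK1c (D.V_open (D.c1 / 2)) hK1V
  refine ⟨χ, hχ1, hχ2, hχ3, fun x hx1 hx2 => ?_⟩
  have h1 : x ∈ K1 := by
    refine ⟨hx1, S.e (fs x), ?_, S.e.left_inv hx2.2.1⟩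
    rw [mem_closedBall_zero_iff]
    exact hx2.2.2.le
  have h2 : x ∈ {x | χ x = 1} := interior_subset (hχ4 h1)
  exact h2

section main

variable {m : ℕ} {X : Type} [MetricSpace X] [ChartedSpace (Fin m → ℂ) X]
  [IsManifold 𝓘(ℂ, Fin m → ℂ) ⊤ X] {p : X} {S : SigmaData m p} {E : Type}
  [NormedAddCommGroup E] [NormedSpace ℂ E] [FiniteDimensional ℂ E] {κ : E → ℝ}
  {fs f1 f2 : E → X} {D : LocData S {x | κ x ≤ 1} fs} {k : ℕ} {ηK : ℝ}
  {KS : KSideData D f1 f2 k ηK} {s4 R' η ε1 : ℝ}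

/-- the error of the transport -/
theorem WTot_h_le (A : FData KS s4 R' η ε1) (hs4 : s4 ≤ 1 / 2) (hηK : ηK ≤ D.c1)
    {U1 : E × (Fin m → ℂ) → (Fin m → ℂ)}
    (hU1 : ∀ x, κ x < s4 → x ∈ D.V D.c1 → ∀ v ∈ ball (0 : Fin m → ℂ) D.r1,
        A.T.Er (A.tt x, U1 (x, v)) = D.Φ (x, v) ∧
        ‖U1 (x, v) - (S.e (D.Φ (x, v)) - A.tt x)‖ ≤ ε1 ∧ ‖U1 (x, v)‖ < 3 * D.c1)
    {x : E} (hx : κ x < s4) (hxV : x ∈ D.V (D.c1 / 2)) {v : Fin m → ℂ}
    (hv : v ∈ ball (0 : Fin m → ℂ) (shr m D.r1)) :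
    ‖D.G (x, U1 (x, v)) - v - KS.W (x, v)‖ ≤ ηK * ‖S.e (f2 x)‖ ^ k + 2 * D.L * ε1 := by
  have hc1 := D.c1_pos
  have hr1 := D.r1_pos
  have hv1 : v ∈ ball (0 : Fin m → ℂ) D.r1 :=
    ball_subset_ball ((WTot_shr_le m hr1).trans (by linarith)) hv
  have hxV1 : x ∈ D.V D.c1 := ⟨hxV.1, hxV.2.1, hxV.2.2.trans (by linarith)⟩
  have hx5 : κ x < 5 / 8 := by linarith
  obtain ⟨-, h1, h2⟩ := hU1 x hx hxV1 v hv1
  have h3 := A.tt_close x hx
  have h4 := KS.tK_le x hx5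
  have h5 := KS.W_contact x hx5 hxV v hv
  obtain ⟨-, h6⟩ := D.Z_spec x hxV1.1 hxV1.2.1 hxV1.2.2 v hv1
  have h7 : ‖U1 (x, v) - (S.e (D.Φ (x, v)) - KS.tK x)‖ ≤ 2 * ε1 := by
    have e1 : U1 (x, v) - (S.e (D.Φ (x, v)) - KS.tK x) =
        (U1 (x, v) - (S.e (D.Φ (x, v)) - A.tt x)) - (A.tt x - KS.tK x) := by abel
    rw [e1]
    exact (norm_sub_le _ _).trans (by linarith)
  have h8 : S.e (D.Φ (x, v)) - KS.tK x ∈ ball (0 : Fin m → ℂ) (3 * D.c1) := by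
    rw [mem_ball_zero_iff]
    exact (norm_sub_le _ _).trans_lt (by linarith)
  have h9 : U1 (x, v) ∈ ball (0 : Fin m → ℂ) (3 * D.c1) := mem_ball_zero_iff.2 h2
  have h10 := D.G_lip x hxV1.1 hxV1.2.1 hxV1.2.2 _ h9 _ h8
  have e2 : D.G (x, U1 (x, v)) - v - KS.W (x, v) =
      (D.G (x, U1 (x, v)) - D.G (x, S.e (D.Φ (x, v)) - KS.tK x)) +
        (D.G (x, S.e (D.Φ (x, v)) - KS.tK x) - v - KS.W (x, v)) := by abel
  rw [e2]
  refine (norm_add_le _ _).trans ?_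
  have h11 : D.L * ‖U1 (x, v) - (S.e (D.Φ (x, v)) - KS.tK x)‖ ≤ D.L * (2 * ε1) :=
    mul_le_mul_of_nonneg_left h7 (by linarith [D.L_ge])
  linarith

/-- bounds for the coordinates -/
theorem WTot_y2 (A : FData KS s4 R' η ε1) (hκ : Continuous κ) (hs4 : s4 ≤ 1 / 2)
    (hηK0 : 0 < ηK) (hηK : ηK ≤ D.c1 / 64) (hη : η ≤ D.c1 / 64) (hηr : η < D.r1) (hε0 : 0 < ε1)
    (hε : ε1 ≤ D.c1 / 256) (hk : 1 ≤ k) {x : E} (hx : κ x < s4) (hxV : x ∈ D.V (D.c1 / 2)) :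
    x ∈ A.N ∧ ‖S.e (f2 x)‖ ≤ 2 * (‖A.û x‖ + 4 * ε1) ∧ ‖S.e (f2 x)‖ ≤ 1 ∧ ‖A.û x‖ ≤ 1 ∧
      (x ∉ D.V (D.c1 / 4) → D.c1 / 8 ≤ ‖A.û x‖) := by
  have hc1 := D.c1_pos
  have hc1' := D.c1_one
  have hxV1 : x ∈ D.V D.c1 := ⟨hxV.1, hxV.2.1, hxV.2.2.trans (by linarith)⟩
  have hx5 : κ x < 5 / 8 := by linarith
  obtain ⟨h1, -⟩ := A.û_K hκ (by linarith) (by linarith) hηr (by linarith) hε0 hs4 hk
  obtain ⟨hN, h2⟩ := h1 x hx hxV
  obtain ⟨-, -, -, h3⟩ := KS.f_near x hx5 hxV1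
  have h4 : ‖S.e (fs x)‖ < D.c1 / 2 := hxV.2.2
  have h5 : ‖S.e (f2 x)‖ ≤ ‖S.e (fs x)‖ + ηK := by
    have e1 : S.e (f2 x) = S.e (fs x) + (S.e (f2 x) - S.e (fs x)) := by abel
    calc ‖S.e (f2 x)‖ = ‖S.e (fs x) + (S.e (f2 x) - S.e (fs x))‖ := by rw [← e1]
      _ ≤ ‖S.e (fs x)‖ + ‖S.e (f2 x) - S.e (fs x)‖ := norm_add_le _ _
      _ ≤ _ := by linarith
  have h5' : ‖S.e (fs x)‖ ≤ ‖S.e (f2 x)‖ + ηK := by
    have e1 : S.e (fs x) = S.e (f2 x) - (S.e (f2 x) - S.e (fs x)) := by abel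
    calc ‖S.e (fs x)‖ = ‖S.e (f2 x) - (S.e (f2 x) - S.e (fs x))‖ := by rw [← e1]
      _ ≤ ‖S.e (f2 x)‖ + ‖S.e (f2 x) - S.e (fs x)‖ := norm_sub_le _ _
      _ ≤ _ := by linarith
  have h6 : ‖S.e (f2 x)‖ ≤ 1 := by linarith
  have h7 : ‖S.e (f2 x)‖ ^ k ≤ ‖S.e (f2 x)‖ := by
    calc ‖S.e (f2 x)‖ ^ k ≤ ‖S.e (f2 x)‖ ^ 1 :=
          pow_le_pow_of_le_one (norm_nonneg _) h6 hk
      _ = _ := pow_one _
  have h8 : ηK * ‖S.e (f2 x)‖ ^ k ≤ 1 / 2 * ‖S.e (f2 x)‖ := by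
    calc ηK * ‖S.e (f2 x)‖ ^ k ≤ ηK * ‖S.e (f2 x)‖ := mul_le_mul_of_nonneg_left h7 hηK0.le
      _ ≤ 1 / 2 * ‖S.e (f2 x)‖ := mul_le_mul_of_nonneg_right (by linarith) (norm_nonneg _)
  have h8' : ηK * ‖S.e (f2 x)‖ ^ k ≤ ηK := by
    calc ηK * ‖S.e (f2 x)‖ ^ k ≤ ηK * ‖S.e (f2 x)‖ := mul_le_mul_of_nonneg_left h7 hηK0.le
      _ ≤ ηK * 1 := mul_le_mul_of_nonneg_left h6 hηK0.le
      _ = ηK := mul_one _
  have h9 : ‖S.e (f2 x)‖ ≤ ‖A.û x‖ + ‖A.û x - S.e (f2 x)‖ := by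
    have e1 : S.e (f2 x) = A.û x - (A.û x - S.e (f2 x)) := by abel
    calc ‖S.e (f2 x)‖ = ‖A.û x - (A.û x - S.e (f2 x))‖ := by rw [← e1]
      _ ≤ _ := norm_sub_le _ _
  have h10 : ‖A.û x‖ ≤ ‖S.e (f2 x)‖ + ‖A.û x - S.e (f2 x)‖ := by
    have e1 : A.û x = S.e (f2 x) + (A.û x - S.e (f2 x)) := by abel
    calc ‖A.û x‖ = ‖S.e (f2 x) + (A.û x - S.e (f2 x))‖ := by rw [← e1]
      _ ≤ _ := norm_add_le _ _
  refine ⟨hN, by linarith, h6, by linarith, fun hxn => ?_⟩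
  have h11 : D.c1 / 4 ≤ ‖S.e (fs x)‖ := by
    by_contra hcon
    push Not at hcon
    exact hxn ⟨hxV.1, hxV.2.1, hcon⟩
  linarith

/-- Lipschitz bound of `W` in the fibre -/
theorem WTot_lip {r : ℝ} (hr : r = shr m D.r1) (hηK : ηK ≤ r / 4) {x : E}
    (hx : κ x < 5 / 8) {v : Fin m → ℂ} (hv : ‖v - KS.c1f x‖ < r / 2) :
    ‖KS.W (x, v) - KS.W (x, KS.c1f x)‖ ≤ 2 * ηK / (r / 2) * ‖v - KS.c1f x‖ := by
  have hc := (KS.c1f_spec x hx).1
  have hsub : ∀ w ∈ ball (KS.c1f x) (r / 2), w ∈ ball (0 : Fin m → ℂ) (shr m D.r1) := by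
    intro w hw
    rw [← hr, mem_ball_zero_iff]
    rw [mem_ball, dist_eq_norm] at hw
    have e1 : w = (w - KS.c1f x) + KS.c1f x := by abel
    calc ‖w‖ = ‖(w - KS.c1f x) + KS.c1f x‖ := by rw [← e1]
      _ ≤ ‖w - KS.c1f x‖ + ‖KS.c1f x‖ := norm_add_le _ _
      _ < r := by linarith [norm_nonneg (w - KS.c1f x)]
  have hW : ∀ w ∈ ball (KS.c1f x) (r / 2), ‖KS.W (x, w)‖ ≤ ηK := fun w hw =>
    KS.W_le x hx w (hsub w hw)
  have h0 : KS.c1f x ∈ ball (KS.c1f x) (r / 2) := by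
    rw [mem_ball, dist_self]
    exact (norm_nonneg _).trans_lt hv
  have hd : DifferentiableOn ℂ (fun w => KS.W (x, w)) (ball (KS.c1f x) (r / 2)) := by
    refine KS.W_hol.comp ((differentiable_const x).prodMk differentiable_id).differentiableOn ?_
    intro w hw
    exact ⟨hx, hsub w hw⟩
  have hm : MapsTo (fun w => KS.W (x, w)) (ball (KS.c1f x) (r / 2))
      (closedBall (KS.W (x, KS.c1f x)) (2 * ηK)) := by
    intro w hw
    rw [mem_closedBall, dist_eq_norm]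
    have h1 := hW w hw
    have h2 := hW _ h0
    exact (norm_sub_le _ _).trans (by linarith)
  have hz : v ∈ ball (KS.c1f x) (r / 2) := by
    rw [mem_ball, dist_eq_norm]
    exact hv
  have h3 := Complex.dist_le_div_mul_dist_of_mapsTo_ball hd hm hz
  rwa [dist_eq_norm, dist_eq_norm] at h3

end main

/-- For small errors the transport `W` can be corrected to have contact of order `k2` with the
exact transport `v ↦ G (x, U1 (x, v))` along `{û = 0}`; `k` is large compared with `k2`. -/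
theorem exists_wtot {m : ℕ} {X : Type} [MetricSpace X] [ChartedSpace (Fin m → ℂ) X]
    [IsManifold 𝓘(ℂ, Fin m → ℂ) ⊤ X] {p : X} {S : SigmaData m p} {E : Type}
    [NormedAddCommGroup E] [NormedSpace ℂ E] [FiniteDimensional ℂ E] {κ : E → ℝ} (hκ : Psh κ)
    (hκc : ∀ a : ℝ, IsCompact {x | κ x ≤ a}) {fs : E → X} (D : LocData S {x | κ x ≤ 1} fs)
    (k2 : ℕ) (hk2 : 1 ≤ k2) {κ0 : ℝ} (hκ0 : 0 < κ0) :
    ∃ η1 > 0, ∀ (f1 f2 : E → X) (ηK : ℝ), 0 < ηK → ηK ≤ η1 →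
      ∀ KS : KSideData D f1 f2 (intExp (Module.finrank ℂ E + m) k2 + 3) ηK,
      ∀ s3 s4 : ℝ, s3 < s4 → s4 ≤ 1 / 2 → ∀ εf > 0, ∃ ε0 > 0, ∀ (R' η ε1 : ℝ), η ≤ η1 → 0 < ε1 →
      ε1 ≤ ε0 → ∀ A : FData KS s4 R' η ε1,
      ∀ U1 : E × (Fin m → ℂ) → (Fin m → ℂ),
      DifferentiableOn ℂ U1 (({x | κ x < s4} ∩ D.V D.c1) ×ˢ ball (0 : Fin m → ℂ) D.r1) →
      (∀ x, κ x < s4 → x ∈ D.V D.c1 → ∀ v ∈ ball (0 : Fin m → ℂ) D.r1,
        A.T.Er (A.tt x, U1 (x, v)) = D.Φ (x, v) ∧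
        ‖U1 (x, v) - (S.e (D.Φ (x, v)) - A.tt x)‖ ≤ ε1 ∧ ‖U1 (x, v)‖ < 3 * D.c1) →
      ∃ (Wt : E × (Fin m → ℂ) → (Fin m → ℂ)) (C : ℝ),
        DifferentiableOn ℂ Wt ({x | κ x < s3} ×ˢ ball (0 : Fin m → ℂ) (shr m (shr m D.r1))) ∧
        (∀ x, κ x < s3 → ∀ v ∈ ball (0 : Fin m → ℂ) (shr m (shr m D.r1)),
          ‖Wt (x, v)‖ ≤ κ0) ∧
        (∀ x, κ x < s3 → ‖A.cF x + Wt (x, A.cF x) - KS.c2f x‖ ≤ εf) ∧
        (∀ x, κ x < s3 → x ∈ D.V (D.c1 / 2) → ∀ v ∈ ball (0 : Fin m → ℂ) (shr m (shr m D.r1)),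
          ‖v + Wt (x, v) - D.G (x, U1 (x, v))‖ ≤ κ0 * ‖A.û x‖ ∧
          ‖v + Wt (x, v) - D.G (x, U1 (x, v))‖ ≤ C * ‖A.û x‖ ^ k2) := by
  have hKc : Continuous κ := hκ.smooth.continuous
  have hc1 := D.c1_pos
  have hc1' := D.c1_one
  have hr1 := D.r1_pos
  have hL := D.L_ge
  set r2 : ℝ := shr m D.r1 with hr2
  set r3 : ℝ := shr m r2 with hr3
  have hr2p : 0 < r2 := WTot_shr_pos m hr1
  have hr3p : 0 < r3 := WTot_shr_pos m hr2p
  have hr21 : r2 ≤ D.r1 / 8 := WTot_shr_le m hr1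
  have hr32 : r3 ≤ r2 / 8 := WTot_shr_le m hr2p
  set M : ℕ := intExp (Module.finrank ℂ E + m) k2 with hM
  set k : ℕ := M + 3 with hk
  have h4k : (0 : ℝ) < 4 ^ k := by positivity
  have h4k1 : (1 : ℝ) ≤ 4 ^ k := one_le_pow₀ (by norm_num)
  set η1 : ℝ := min (min (r3 / 8) (D.c1 / 64)) (κ0 / (8 * 4 ^ k)) with hη1
  have hη1p : 0 < η1 := lt_min (lt_min (by positivity) (by positivity)) (by positivity)
  have hη1r : η1 ≤ r3 / 8 := (min_le_left _ _).trans (min_le_left _ _)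
  have hη1c : η1 ≤ D.c1 / 64 := (min_le_left _ _).trans (min_le_right _ _)
  have hη1k : η1 ≤ κ0 / (8 * 4 ^ k) := min_le_right _ _
  refine ⟨η1, hη1p, ?_⟩
  intro f1 f2 ηK hηK0 hηK KS s3 s4 h34 hs4 εf hεf
  have hηK4 : ηK * 4 ^ k ≤ κ0 / 8 := by
    calc ηK * 4 ^ k ≤ κ0 / (8 * 4 ^ k) * 4 ^ k :=
          mul_le_mul_of_nonneg_right (hηK.trans hη1k) h4k.le
      _ = κ0 / 8 := by field_simp
  have hηKκ : ηK ≤ κ0 / 8 := by
    calc ηK = ηK * 1 := (mul_one _).symm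
      _ ≤ ηK * 4 ^ k := mul_le_mul_of_nonneg_left h4k1 hηK0.le
      _ ≤ κ0 / 8 := hηK4
  obtain ⟨ρ, hρ, hρc, hρ1, hρ1', hρ8⟩ := WTot_rho (m := m) hκ hκc h34 hr2p
  obtain ⟨χ, hχ, hχI, hχV, hχ1⟩ := WTot_cut hKc hκc D
  have hts : tsupport (fun q : E × (Fin m → ℂ) => χ q.1) ⊆ Prod.fst ⁻¹' tsupport χ :=
    closure_minimal (fun q hq => subset_tsupport χ hq)
      ((isClosed_tsupport χ).preimage continuous_fst)
  obtain ⟨C1, hC1, HI⟩ := intExact (E := E × (Fin m → ℂ)) m k2 m hρ hρc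
    (V0 := D.V (D.c1 / 2) ×ˢ (univ : Set (Fin m → ℂ))) ((D.V_open _).prod isOpen_univ)
    (χ1 := fun q => χ q.1) (hχ.comp contDiff_fst) (fun q => hχI q.1)
    (fun q hq _ => ⟨hχV (hts hq), mem_univ _⟩) (c0 := D.c1 / 8) (by positivity)
  have hfr : Module.finrank ℂ (E × (Fin m → ℂ)) = Module.finrank ℂ E + m := by
    rw [Module.finrank_prod, Module.finrank_fin_fun]
  rw [hfr, ← hM] at HI
  have hC1p : 0 < C1 := by linarith
  -- constants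
  set C2 : ℝ := ηK * 4 ^ k + 2 * D.L with hC2
  have hC2p : 0 < C2 := by positivity
  set C3 : ℝ := C1 * C2 with hC3
  have hC3p : 0 < C3 := by positivity
  set C5 : ℝ := C3 + C2 with hC5
  have hC5p : 0 < C5 := by positivity
  have hC35 : C3 ≤ C5 := by linarith
  set c2 : ℝ := min (min 1 (D.c1 / 8 / (2 * C1))) (min (κ0 / (4 * C5 * C1)) (εf / (2 * C5)))
    with hc2
  have hc2p : 0 < c2 := lt_min (lt_min one_pos (by positivity))
    (lt_min (by positivity) (by positivity))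
  have hc21 : c2 ≤ 1 := (min_le_left _ _).trans (min_le_left _ _)
  have hc2a : c2 < D.c1 / 8 / C1 := by
    have h1 : c2 ≤ D.c1 / 8 / (2 * C1) := (min_le_left _ _).trans (min_le_right _ _)
    have h2 : D.c1 / 8 / (2 * C1) = (D.c1 / 8 / C1) / 2 := by field_simp
    have h3 : 0 < D.c1 / 8 / C1 := by positivity
    linarith
  have hc2b : C5 * C1 * c2 ≤ κ0 / 4 := by
    have h1 : c2 ≤ κ0 / (4 * C5 * C1) := (min_le_right _ _).trans (min_le_left _ _)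
    calc C5 * C1 * c2 ≤ C5 * C1 * (κ0 / (4 * C5 * C1)) :=
          mul_le_mul_of_nonneg_left h1 (by positivity)
      _ = κ0 / 4 := by field_simp
  have hc2c : C5 * c2 ≤ εf / 2 := by
    have h1 : c2 ≤ εf / (2 * C5) := (min_le_right _ _).trans (min_le_right _ _)
    calc C5 * c2 ≤ C5 * (εf / (2 * C5)) := mul_le_mul_of_nonneg_left h1 hC5p.le
      _ = εf / 2 := by field_simp
  have hc23 : c2 ^ 3 ≤ c2 := by
    calc c2 ^ 3 ≤ c2 ^ 1 := pow_le_pow_of_le_one hc2p.le hc21 (by norm_num)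
      _ = c2 := pow_one _
  have hc22 : c2 ^ 2 ≤ c2 := by
    calc c2 ^ 2 ≤ c2 ^ 1 := pow_le_pow_of_le_one hc2p.le hc21 (by norm_num)
      _ = c2 := pow_one _
  have hck : c2 ^ k ≤ c2 := by
    calc c2 ^ k ≤ c2 ^ 1 := pow_le_pow_of_le_one hc2p.le hc21 (by omega)
      _ = c2 := pow_one _
  have hck3 : c2 ^ k ≤ c2 ^ 3 := pow_le_pow_of_le_one hc2p.le hc21 (by omega)
  have hckp : 0 < c2 ^ k := by positivity
  have hC5f : C5 * c2 ^ 3 ≤ εf / 2 :=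
    (mul_le_mul_of_nonneg_left hc23 hC5p.le).trans hc2c
  have hC5κ' : C5 * c2 ≤ κ0 / 4 := by
    calc C5 * c2 = C5 * 1 * c2 := by ring
      _ ≤ C5 * C1 * c2 := by gcongr
      _ ≤ κ0 / 4 := hc2b
  have hC5κ : C5 * c2 ^ 3 ≤ κ0 / 4 :=
    (mul_le_mul_of_nonneg_left hc23 hC5p.le).trans hC5κ'
  set C6 : ℝ := 2 * ηK / (r2 / 2) with hC6
  have hC6p : 0 < C6 := by positivity
  set ε0 : ℝ := min (min (D.c1 / 256) (c2 ^ k / 8)) (min (c2 / (4 * C1))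
    (min (κ0 * c2 / (8 * D.L * C1)) (min (εf / (2 * (1 + C6))) (r2 / 8)))) with hε0
  have hLp : 0 < D.L := by linarith
  have hε0p : 0 < ε0 := lt_min (lt_min (by positivity) (by positivity))
    (lt_min (by positivity) (lt_min (by positivity) (lt_min (by positivity) (by positivity))))
  refine ⟨ε0, hε0p, ?_⟩
  intro R' η ε1 hη hε1 hε10 A U1 hU1 hU1s
  have e1 : ε1 ≤ D.c1 / 256 := hε10.trans ((min_le_left _ _).trans (min_le_left _ _))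
  have e2 : ε1 ≤ c2 ^ k / 8 := hε10.trans ((min_le_left _ _).trans (min_le_right _ _))
  have e3 : ε1 ≤ c2 / (4 * C1) := hε10.trans ((min_le_right _ _).trans (min_le_left _ _))
  have e4 : ε1 ≤ κ0 * c2 / (8 * D.L * C1) :=
    hε10.trans ((min_le_right _ _).trans ((min_le_right _ _).trans (min_le_left _ _)))
  have e5 : ε1 ≤ εf / (2 * (1 + C6)) :=
    hε10.trans ((min_le_right _ _).trans ((min_le_right _ _).trans
      ((min_le_right _ _).trans (min_le_left _ _))))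
  have e6 : ε1 ≤ r2 / 8 :=
    hε10.trans ((min_le_right _ _).trans ((min_le_right _ _).trans
      ((min_le_right _ _).trans (min_le_right _ _))))
  have hηr : η < D.r1 := by linarith
  -- basic facts
  have F1 : ∀ x, κ x < s4 → x ∈ D.V (D.c1 / 2) → x ∈ A.N ∧
      ‖S.e (f2 x)‖ ≤ 2 * (‖A.û x‖ + 4 * ε1) ∧ ‖S.e (f2 x)‖ ≤ 1 ∧ ‖A.û x‖ ≤ 1 ∧
      (x ∉ D.V (D.c1 / 4) → D.c1 / 8 ≤ ‖A.û x‖) := fun x hx hxV =>
    WTot_y2 A hKc hs4 hηK0 (hηK.trans hη1c) (hη.trans hη1c) hηr hε1 e1 (by omega) hx hxV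
  have F2 : ∀ x, κ x < s4 → x ∈ D.V (D.c1 / 2) → ∀ v ∈ ball (0 : Fin m → ℂ) r2,
      ‖D.G (x, U1 (x, v)) - v - KS.W (x, v)‖ ≤ ηK * ‖S.e (f2 x)‖ ^ k + 2 * D.L * ε1 :=
    fun x hx hxV v hv => WTot_h_le A hs4 (by linarith) hU1s hx hxV hv
  -- the shell bound
  have F3 : ∀ x, κ x < s4 → x ∈ D.V (D.c1 / 2) → ∀ v ∈ ball (0 : Fin m → ℂ) r2,
      ‖A.û x‖ ≤ c2 → ‖D.G (x, U1 (x, v)) - v - KS.W (x, v)‖ ≤ C2 * c2 ^ k := by
    intro x hx hxV v hv hu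
    obtain ⟨-, h1, -, -, -⟩ := F1 x hx hxV
    have h2 : ‖S.e (f2 x)‖ ≤ 4 * c2 := by linarith
    have h3 : ‖S.e (f2 x)‖ ^ k ≤ 4 ^ k * c2 ^ k := by
      rw [← mul_pow]
      exact pow_le_pow_left₀ (norm_nonneg _) h2 k
    have h4 := F2 x hx hxV v hv
    have h5 : ηK * ‖S.e (f2 x)‖ ^ k ≤ ηK * (4 ^ k * c2 ^ k) :=
      mul_le_mul_of_nonneg_left h3 hηK0.le
    have h6 : 2 * D.L * ε1 ≤ 2 * D.L * c2 ^ k :=
      mul_le_mul_of_nonneg_left (by linarith) (by positivity)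
    calc ‖D.G (x, U1 (x, v)) - v - KS.W (x, v)‖ ≤ ηK * ‖S.e (f2 x)‖ ^ k + 2 * D.L * ε1 := h4
      _ ≤ ηK * (4 ^ k * c2 ^ k) + 2 * D.L * c2 ^ k := add_le_add h5 h6
      _ = C2 * c2 ^ k := by rw [hC2]; ring
  -- the outer bound
  have F4 : ∀ x, κ x < s4 → x ∈ D.V (D.c1 / 2) → ∀ v ∈ ball (0 : Fin m → ℂ) r2,
      c2 / C1 < ‖A.û x‖ → ‖D.G (x, U1 (x, v)) - v - KS.W (x, v)‖ ≤ 3 * κ0 / 8 * ‖A.û x‖ := by
    intro x hx hxV v hv hu
    obtain ⟨-, h1, -, h1', -⟩ := F1 x hx hxV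
    have h2 : 4 * ε1 ≤ ‖A.û x‖ := by
      have h3 : 4 * (c2 / (4 * C1)) = c2 / C1 := by field_simp
      linarith
    have h3 : ‖S.e (f2 x)‖ ≤ 4 * ‖A.û x‖ := by linarith
    have h4 : ‖S.e (f2 x)‖ ^ k ≤ 4 ^ k * ‖A.û x‖ := by
      calc ‖S.e (f2 x)‖ ^ k ≤ (4 * ‖A.û x‖) ^ k := pow_le_pow_left₀ (norm_nonneg _) h3 k
        _ = 4 ^ k * ‖A.û x‖ ^ k := mul_pow _ _ _
        _ ≤ 4 ^ k * ‖A.û x‖ ^ 1 := by
            refine mul_le_mul_of_nonneg_left ?_ h4k.le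
            exact pow_le_pow_of_le_one (norm_nonneg _) h1' (by omega)
        _ = 4 ^ k * ‖A.û x‖ := by rw [pow_one]
    have h5 : ηK * ‖S.e (f2 x)‖ ^ k ≤ κ0 / 8 * ‖A.û x‖ := by
      calc ηK * ‖S.e (f2 x)‖ ^ k ≤ ηK * (4 ^ k * ‖A.û x‖) :=
            mul_le_mul_of_nonneg_left h4 hηK0.le
        _ = (ηK * 4 ^ k) * ‖A.û x‖ := by ring
        _ ≤ κ0 / 8 * ‖A.û x‖ := mul_le_mul_of_nonneg_right hηK4 (norm_nonneg _)
    have h6 : 2 * D.L * ε1 ≤ κ0 / 4 * ‖A.û x‖ := by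
      calc 2 * D.L * ε1 ≤ 2 * D.L * (κ0 * c2 / (8 * D.L * C1)) :=
            mul_le_mul_of_nonneg_left e4 (by positivity)
        _ = κ0 / 4 * (c2 / C1) := by field_simp; ring
        _ ≤ κ0 / 4 * ‖A.û x‖ := mul_le_mul_of_nonneg_left hu.le (by positivity)
    have h7 := F2 x hx hxV v hv
    calc ‖D.G (x, U1 (x, v)) - v - KS.W (x, v)‖ ≤ ηK * ‖S.e (f2 x)‖ ^ k + 2 * D.L * ε1 := h7
      _ ≤ κ0 / 8 * ‖A.û x‖ + κ0 / 4 * ‖A.û x‖ := add_le_add h5 h6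
      _ = 3 * κ0 / 8 * ‖A.û x‖ := by ring
  -- the function `h`
  set h : E × (Fin m → ℂ) → (Fin m → ℂ) := fun q => D.G (q.1, U1 q) - q.2 - KS.W q with hh
  have hU1' : DifferentiableOn ℂ U1 ((D.V (D.c1 / 2) ×ˢ (univ : Set (Fin m → ℂ))) ∩
      {q | ρ q < 1}) := by
    refine hU1.mono ?_
    rintro q ⟨⟨hq1, -⟩, hq2⟩
    obtain ⟨h1, h2⟩ := hρ1 q hq2
    exact ⟨⟨h1, ⟨hq1.1, hq1.2.1, hq1.2.2.trans (by linarith)⟩⟩,
      ball_subset_ball (by linarith) h2⟩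
  have hhd : DifferentiableOn ℂ h ((D.V (D.c1 / 2) ×ˢ (univ : Set (Fin m → ℂ))) ∩
      {q | ρ q < 1}) := by
    have h1 : DifferentiableOn ℂ (fun q : E × (Fin m → ℂ) => D.G (q.1, U1 q))
        ((D.V (D.c1 / 2) ×ˢ (univ : Set (Fin m → ℂ))) ∩ {q | ρ q < 1}) := by
      refine D.G_hol.comp (differentiable_fst.differentiableOn.prodMk hU1') ?_
      rintro q ⟨⟨hq1, -⟩, hq2⟩
      obtain ⟨h1, h2⟩ := hρ1 q hq2
      have h3 : q.1 ∈ D.V D.c1 := ⟨hq1.1, hq1.2.1, hq1.2.2.trans (by linarith)⟩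
      obtain ⟨-, -, h4⟩ := hU1s q.1 h1 h3 q.2 (ball_subset_ball (by linarith) h2)
      refine ⟨h3, ?_⟩
      rw [mem_ball_zero_iff]
      exact h4.trans (by linarith)
    refine (h1.sub differentiable_snd.differentiableOn).sub (KS.W_hol.mono ?_)
    rintro q ⟨⟨hq1, -⟩, hq2⟩
    obtain ⟨h1, h2⟩ := hρ1 q hq2
    exact ⟨show κ q.1 < 5 / 8 by linarith, h2⟩
  obtain ⟨H, hH, hHi, hHii, hHiii⟩ := HI (fun q => A.û q.1)
    (A.û_hol.comp differentiable_fst.differentiableOn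
      (fun q hq => (F1 q.1 (hρ1 q hq.2).1 hq.1.1).1))
    (fun q hq1 hq2 => (F1 q.1 (hρ1 q hq2).1 hq1.1).2.2.2.1)
    (fun q hq1 hq2 hq3 => by
      refine (F1 q.1 (hρ1 q hq2).1 hq1.1).2.2.2.2 fun hcon => ?_
      have h1 := hχ1 q.1 ((hρ1 q hq2).1.le.trans hs4) hcon
      rw [h1] at hq3
      exact lt_irrefl _ hq3)
    c2 ⟨hc2p, hc2a⟩ h hhd (C2 * c2 ^ k) (by positivity)
    (fun q hq1 hq2 _ hq4 => F3 q.1 (hρ1 q hq2).1 hq1.1 q.2 (hρ1 q hq2).2 hq4)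
  have hNrm : C1 * (C2 * c2 ^ k) * (1 / c2) ^ M = C3 * c2 ^ 3 := by
    rw [hk, pow_add, hC3, one_div, inv_pow]
    field_simp
  have hρlt : ∀ q, ρ q < 1 / 8 → ρ q < 1 := fun q hq => by linarith
  have hHall : ∀ q, ρ q < 1 / 8 → ‖H q‖ ≤ C5 * c2 ^ 3 := by
    intro q hq
    have h1 : C3 * c2 ^ 3 ≤ C5 * c2 ^ 3 := mul_le_mul_of_nonneg_right hC35 (by positivity)
    by_cases hqV : q ∈ D.V (D.c1 / 2) ×ˢ (univ : Set (Fin m → ℂ))
    · by_cases hqc : c2 < ‖A.û q.1‖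
      · have h2 := hHii q hq (Or.inr hqc)
        rw [hNrm] at h2
        exact h2.trans h1
      · have h2 := hHiii q hqV hq (not_lt.1 hqc)
        rw [hNrm] at h2
        have h3 := F3 q.1 (hρ1 q (hρlt q hq)).1 hqV.1 q.2 (hρ1 q (hρlt q hq)).2 (not_lt.1 hqc)
        have h4 : ‖h q‖ ≤ C2 * c2 ^ k := h3
        have h5 : C2 * c2 ^ k ≤ C2 * c2 ^ 3 := mul_le_mul_of_nonneg_left hck3 hC2p.le
        calc ‖H q‖ ≤ C3 * c2 ^ 3 + ‖h q‖ := h2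
          _ ≤ C3 * c2 ^ 3 + C2 * c2 ^ 3 := add_le_add le_rfl (h4.trans h5)
          _ = C5 * c2 ^ 3 := by rw [hC5]; ring
    · have h2 := hHii q hq (Or.inl hqV)
      rw [hNrm] at h2
      exact h2.trans h1
  have hdom : ∀ q : E × (Fin m → ℂ), κ q.1 < s3 → q.2 ∈ ball (0 : Fin m → ℂ) r3 →
      ρ q < 1 / 8 := hρ8
  refine ⟨fun q => KS.W q + H q, C3 * c2 ^ 3 + κ0 * (C1 / c2) ^ k2, ?_, ?_, ?_, ?_⟩
  · refine (KS.W_hol.mono ?_).add (hH.mono ?_)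
    · rintro q ⟨hq1, hq2⟩
      have h1 : κ q.1 < s3 := hq1
      exact ⟨show κ q.1 < 5 / 8 by linarith, ball_subset_ball (by linarith) hq2⟩
    · rintro q ⟨hq1, hq2⟩
      exact hdom q hq1 hq2
  · intro x hx v hv
    have h1 := KS.W_le x (by linarith) v (ball_subset_ball (by linarith) hv)
    have h2 := hHall (x, v) (hdom (x, v) hx hv)
    exact (norm_add_le _ _).trans (by linarith)
  · intro x hx
    have hx4 : κ x < s4 := hx.trans h34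
    have hx5 : κ x < 5 / 8 := by linarith
    obtain ⟨h1, h2, -⟩ := A.cF_spec x hx4
    have h3 : A.cF x ∈ ball (0 : Fin m → ℂ) r3 := by
      rw [mem_ball_zero_iff]
      linarith
    have h4 := hHall (x, A.cF x) (hdom (x, A.cF x) hx h3)
    have h5 := WTot_lip (KS := KS) (r := r2) rfl (by linarith) hx5 (v := A.cF x)
      (h2.trans_lt (by linarith))
    have h6 := KS.W_c x hx5
    have h7 : A.cF x + (KS.W (x, A.cF x) + H (x, A.cF x)) - KS.c2f x =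
        (A.cF x - KS.c1f x) + (KS.W (x, A.cF x) - KS.W (x, KS.c1f x)) + H (x, A.cF x) := by
      rw [h6]
      abel
    show ‖A.cF x + (KS.W (x, A.cF x) + H (x, A.cF x)) - KS.c2f x‖ ≤ εf
    rw [h7]
    have h8 : C6 * ‖A.cF x - KS.c1f x‖ ≤ C6 * ε1 := mul_le_mul_of_nonneg_left h2 hC6p.le
    have h9 : (1 + C6) * ε1 ≤ εf / 2 := by
      calc (1 + C6) * ε1 ≤ (1 + C6) * (εf / (2 * (1 + C6))) :=
            mul_le_mul_of_nonneg_left e5 (by positivity)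
        _ = εf / 2 := by field_simp
    calc ‖(A.cF x - KS.c1f x) + (KS.W (x, A.cF x) - KS.W (x, KS.c1f x)) + H (x, A.cF x)‖
        ≤ ‖A.cF x - KS.c1f x‖ + ‖KS.W (x, A.cF x) - KS.W (x, KS.c1f x)‖ +
            ‖H (x, A.cF x)‖ := norm_add₃_le
      _ ≤ ε1 + C6 * ε1 + εf / 2 :=
          add_le_add (add_le_add h2 (h5.trans h8)) (h4.trans hC5f)
      _ ≤ εf := by linarith
  · intro x hx hxV v hv
    have hx4 : κ x < s4 := hx.trans h34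
    have hq := hdom (x, v) hx hv
    have hv2 : v ∈ ball (0 : Fin m → ℂ) r2 := ball_subset_ball (by linarith) hv
    obtain ⟨-, -, -, hu1, -⟩ := F1 x hx4 hxV
    have h1 : v + (KS.W (x, v) + H (x, v)) - D.G (x, U1 (x, v)) = H (x, v) - h (x, v) := by
      simp only [hh]
      abel
    show ‖v + (KS.W (x, v) + H (x, v)) - D.G (x, U1 (x, v))‖ ≤ κ0 * ‖A.û x‖ ∧
      ‖v + (KS.W (x, v) + H (x, v)) - D.G (x, U1 (x, v))‖ ≤
        (C3 * c2 ^ 3 + κ0 * (C1 / c2) ^ k2) * ‖A.û x‖ ^ k2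
    rw [h1]
    have hupow : ‖A.û x‖ ^ k2 ≤ ‖A.û x‖ := by
      calc ‖A.û x‖ ^ k2 ≤ ‖A.û x‖ ^ 1 := pow_le_pow_of_le_one (norm_nonneg _) hu1 hk2
        _ = ‖A.û x‖ := pow_one _
    have hu0 : 0 ≤ ‖A.û x‖ := norm_nonneg _
    have hup0 : 0 ≤ ‖A.û x‖ ^ k2 := pow_nonneg hu0 _
    by_cases hc : c2 / C1 < ‖A.û x‖
    · have h2 := hHall (x, v) hq
      have h3 : ‖h (x, v)‖ ≤ 3 * κ0 / 8 * ‖A.û x‖ := F4 x hx4 hxV v hv2 hc
      have h4 : C5 * c2 ^ 3 ≤ κ0 / 4 * ‖A.û x‖ := by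
        calc C5 * c2 ^ 3 = (C5 * c2 ^ 2 * C1) * (c2 / C1) := by field_simp
          _ ≤ (C5 * c2 ^ 2 * C1) * ‖A.û x‖ := mul_le_mul_of_nonneg_left hc.le (by positivity)
          _ ≤ κ0 / 4 * ‖A.û x‖ := by
              refine mul_le_mul_of_nonneg_right ?_ hu0
              calc C5 * c2 ^ 2 * C1 = C5 * C1 * c2 ^ 2 := by ring
                _ ≤ C5 * C1 * c2 := mul_le_mul_of_nonneg_left hc22 (by positivity)
                _ ≤ κ0 / 4 := hc2b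
      have h5 : ‖H (x, v) - h (x, v)‖ ≤ κ0 * ‖A.û x‖ := by
        refine (norm_sub_le _ _).trans ?_
        have h6 : 0 ≤ κ0 * ‖A.û x‖ := by positivity
        linarith
      refine ⟨h5, ?_⟩
      have h7 : 1 ≤ (C1 / c2) ^ k2 * ‖A.û x‖ ^ k2 := by
        rw [← mul_pow]
        refine one_le_pow₀ ?_
        have h8 : C1 / c2 * (c2 / C1) = 1 := by field_simp
        rw [← h8]
        exact mul_le_mul_of_nonneg_left hc.le (by positivity)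
      calc ‖H (x, v) - h (x, v)‖ ≤ κ0 * ‖A.û x‖ := h5
        _ ≤ κ0 * 1 := mul_le_mul_of_nonneg_left hu1 hκ0.le
        _ ≤ κ0 * ((C1 / c2) ^ k2 * ‖A.û x‖ ^ k2) := mul_le_mul_of_nonneg_left h7 hκ0.le
        _ ≤ (C3 * c2 ^ 3 + κ0 * (C1 / c2) ^ k2) * ‖A.û x‖ ^ k2 := by
            have h9 : 0 ≤ C3 * c2 ^ 3 * ‖A.û x‖ ^ k2 := by positivity
            linarith
    · have h2 := hHi (x, v) ⟨hxV, mem_univ _⟩ hq (not_lt.1 hc)
      rw [hNrm] at h2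
      have h3 : ‖H (x, v) - h (x, v)‖ ≤ C3 * c2 ^ 3 * ‖A.û x‖ ^ k2 := h2
      have h4 : C3 * c2 ^ 3 ≤ κ0 := by
        have h5 : C3 * c2 ^ 3 ≤ C5 * c2 ^ 3 := mul_le_mul_of_nonneg_right hC35 (by positivity)
        linarith
      refine ⟨?_, ?_⟩
      · calc ‖H (x, v) - h (x, v)‖ ≤ C3 * c2 ^ 3 * ‖A.û x‖ ^ k2 := h3
          _ ≤ κ0 * ‖A.û x‖ ^ k2 := mul_le_mul_of_nonneg_right h4 hup0
          _ ≤ κ0 * ‖A.û x‖ := mul_le_mul_of_nonneg_left hupow hκ0.le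
      · have h9 : 0 ≤ κ0 * (C1 / c2) ^ k2 * ‖A.û x‖ ^ k2 := by positivity
        linarith

end OkaP
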