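import Pool.Agent.H.MP_ceb9a9.FExist
import Pool.Agent.H.MP_ceb9a9.WTot
import Pool.Agent.H.MP_ceb9a9.TubeAsm
import Pool.Agent.H.MP_ceb9a9.ThinTube

/-!
# MP_ceb9a9: the step theorem
-/

set_option autoImplicit false

open scoped Manifold

namespace OkaP

open Set Metric Topology

theorem stepThm_shr_pos (m : ℕ) {r : ℝ} (hr : 0 < r) : 0 < shr m r := by
  unfold shr
  positivity

theorem stepThm_shr_le (m : ℕ) {r : ℝ} (hr : 0 < r) : shr m r ≤ r / 8 := by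
  unfold shr
  have hm : (0 : ℝ) ≤ m := Nat.cast_nonneg m
  apply div_le_div_of_nonneg_left hr.le (by norm_num)
  linarith

/-- uniform continuity of `D.Φ` along the coordinates of a map -/
theorem stepThm_unif {m : ℕ} {X : Type} [MetricSpace X] [ChartedSpace (Fin m → ℂ) X] {p : X}
    {S : SigmaData m p} {E : Type} [NormedAddCommGroup E] [NormedSpace ℂ E] {K : Set E}
    {fs : E → X} (D : LocData S K fs) {c : E → (Fin m → ℂ)} {K' : Set E} (hK' : IsCompact K')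
    (hKU : K' ⊆ D.U) (hc : ContinuousOn c K') (hcr : ∀ x ∈ K', ‖c x‖ < D.r0) {ε : ℝ}
    (hε : 0 < ε) :
    ∃ δ > 0, ∀ x ∈ K', ∀ v : Fin m → ℂ, ‖v - c x‖ ≤ δ → dist (D.Φ (x, v)) (D.Φ (x, c x)) < ε := by
  have hC : IsCompact ((fun x => (x, c x)) '' K') :=
    hK'.image_of_continuousOn (continuousOn_id.prodMk hc)
  have hcont : ∀ q ∈ (fun x => (x, c x)) '' K', ContinuousAt D.Φ q := by
    rintro _ ⟨x, hx, rfl⟩
    exact D.hol.cont.continuousAt ((D.U_open.prod isOpen_ball).mem_nhds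
      ⟨hKU hx, mem_ball_zero_iff.2 (hcr x hx)⟩)
  have h1 := hC.uniformContinuousAt_of_continuousAt D.Φ hcont (Metric.dist_mem_uniformity hε)
  obtain ⟨δ, hδ, h2⟩ := Metric.mem_uniformity_dist.1 h1
  refine ⟨δ / 2, by positivity, fun x hx v hv => ?_⟩
  have h3 : dist (x, c x) (x, v) < δ := by
    rw [Prod.dist_eq]
    refine max_lt ?_ ?_
    · show dist x x < δ
      rw [dist_self]
      exact hδ
    · show dist (c x) v < δ
      rw [dist_comm, dist_eq_norm]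
      linarith
  have h4 := h2 h3 ⟨x, hx, rfl⟩
  rw [dist_comm]
  exact h4

theorem step_thm {m : ℕ} {X : Type} [MetricSpace X] [ChartedSpace (Fin m → ℂ) X]
    [IsManifold 𝓘(ℂ, Fin m → ℂ) ⊤ X] {p : X} (hp : CAPY m p) {S : SigmaData m p} {μ : ℝ → ℝ}
    (hμ : ∀ ε > 0, 0 < μ ε)
    (hT : ∀ R > S.c, ∀ ε > 0, ∃ T : ThetaData S R ε, ∀ ε' > 0, ∀ x,
      ∀ t ∈ ball (0 : Fin m → ℂ) R, ‖t‖ < μ ε' → ∀ s ∈ Icc (0 : ℝ) 1,
        dist (T.θ (x, t, s)) x ≤ ε')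
    {E : Type} [NormedAddCommGroup E] [InnerProductSpace ℂ E] [FiniteDimensional ℂ E]
    {κ : E → ℝ} (hκ : Psh κ) (hκv : ConvexOn ℝ univ κ) (hκc : ∀ a : ℝ, IsCompact {x | κ x ≤ a})
    {fs : E → X} {Us : Set E} (hUs : IsOpen Us) (hsub : {x | κ x ≤ 1} ⊆ Us)
    (hfs : HolOn m fs Us) :
    ∃ δ > 0, ∀ (f1 f2 : E → X) (Uf : Set E), IsOpen Uf → {x | κ x ≤ 1} ⊆ Uf → HolOn m f1 Uf →
      HolOn m f2 Uf → (∀ x, κ x ≤ 1 → dist (f1 x) (fs x) < δ ∧ dist (f2 x) (fs x) < δ) →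
      Appr m κ f1 → Appr m κ f2 := by
  have hκcont : Continuous κ := hκ.smooth.continuous
  obtain ⟨D⟩ := exists_locData S (hκc 1) (by
    have h1 := hκv.convex_le 1
    simpa using h1) hUs hsub hfs
  have hL := D.L_ge
  have hr1 := D.r1_pos
  have hr10 := D.r1_le
  have hr0 := D.r0_pos
  have hc1 := D.c1_pos
  obtain ⟨ρ3, hρ3def⟩ : ∃ ρ3 : ℝ, 2 * ρ3 = shr m (shr m D.r1) :=
    ⟨shr m (shr m D.r1) / 2, by ring⟩
  have hsh1 := stepThm_shr_pos m hr1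
  have hsh2 := stepThm_shr_pos m hsh1
  have hsh3 := stepThm_shr_le m hr1
  have hsh4 := stepThm_shr_le m hsh1
  have hρ3 : 0 < ρ3 := by linarith
  have hρ31 : 2 * ρ3 ≤ D.r1 := by linarith
  have hκ0 : 0 < min (ρ3 / 8) (1 / (2 * D.L)) := lt_min (by positivity) (by positivity)
  obtain ⟨κ0, hκ0def⟩ : ∃ κ0 : ℝ, κ0 = min (ρ3 / 8) (1 / (2 * D.L)) := ⟨_, rfl⟩
  rw [← hκ0def] at hκ0
  have hκ0a : κ0 ≤ ρ3 / 8 := hκ0def ▸ min_le_left _ _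
  have hκ0b : κ0 ≤ 1 / (2 * D.L) := hκ0def ▸ min_le_right _ _
  have hκL : D.L * κ0 ≤ 1 / 2 := by
    have h1 : D.L * κ0 ≤ D.L * (1 / (2 * D.L)) := mul_le_mul_of_nonneg_left hκ0b (by linarith)
    have h2 : D.L * (1 / (2 * D.L)) = 1 / 2 := by
      field_simp
    linarith
  obtain ⟨η1, hη1, hwt⟩ := exists_wtot hκ hκc D (ngN E m + 2) (by omega) hκ0
  obtain ⟨η, hη, hηη1, hηc, hηρ, hηL⟩ : ∃ η > 0, η ≤ η1 ∧ η ≤ D.c1 / 8 ∧ η ≤ ρ3 / 2 ∧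
      η ≤ ρ3 / (64 * (D.L + 1)) := by
    refine ⟨min (min η1 (D.c1 / 8)) (min (ρ3 / 2) (ρ3 / (64 * (D.L + 1)))),
      lt_min (lt_min hη1 (by positivity)) (lt_min (by positivity) (by positivity)),
      (min_le_left _ _).trans (min_le_left _ _), (min_le_left _ _).trans (min_le_right _ _),
      (min_le_right _ _).trans (min_le_left _ _), (min_le_right _ _).trans (min_le_right _ _)⟩
  obtain ⟨η0, hη0, hfd⟩ := exists_fdata hμ hT hκ hκc D hη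
  obtain ⟨ηK, hηK, hηK0, hηK1, hηKc, hηKρ⟩ : ∃ ηK > 0, ηK ≤ η0 ∧ ηK ≤ η1 ∧ ηK ≤ D.c1 / 8 ∧
      ηK ≤ ρ3 := by
    refine ⟨min (min η0 η1) (min (D.c1 / 8) ρ3),
      lt_min (lt_min hη0 hη1) (lt_min (by positivity) hρ3),
      (min_le_left _ _).trans (min_le_left _ _), (min_le_left _ _).trans (min_le_right _ _),
      (min_le_right _ _).trans (min_le_left _ _), (min_le_right _ _).trans (min_le_right _ _)⟩
  obtain ⟨δ, hδ, hks⟩ := exists_kside hκ (hκc 1) D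
    (intExp (Module.finrank ℂ E + m) (ngN E m + 2) + 3) hηK
  refine ⟨δ, hδ, fun f1 f2 Uf hUf hKUf hf1 hf2 hclose happ => ?_⟩
  obtain ⟨KS⟩ := hks f1 f2 Uf hUf hKUf hf1 hf2 hclose
  intro R s hs ε hε
  obtain ⟨d, hd, hd20⟩ : ∃ d : ℝ, 0 < d ∧ s + 20 * d = 1 / 2 :=
    ⟨(1 / 2 - s) / 20, by linarith, by ring⟩
  have hs58 : ∀ x, κ x ≤ s → κ x < 5 / 8 := fun x hx => by linarith
  have hs1 : ∀ x, κ x ≤ s → κ x ≤ 1 := fun x hx => by linarith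
  obtain ⟨εf, hεf, hunif⟩ := stepThm_unif D (c := KS.c2f) (hκc s)
    (fun x hx => D.K_U (hs1 x hx))
    (KS.c2f_hol.continuousOn.mono fun x hx => hs58 x hx)
    (fun x hx => by
      have h1 := (KS.c2f_spec x (hs58 x hx)).1
      linarith) (half_pos hε)
  obtain ⟨ε0, hε0, hwt2⟩ := hwt f1 f2 ηK hηK hηK1 KS (s + 9 * d) (s + 10 * d) (by linarith)
    (by linarith) εf hεf
  obtain ⟨ε1, hε1, hε1a, hε1b, hε1c⟩ : ∃ ε1 > 0, ε1 ≤ ε0 ∧ ε1 ≤ D.c1 / 8 ∧ ε1 ≤ η / 2 :=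
    ⟨min ε0 (min (D.c1 / 8) (η / 2)), lt_min hε0 (lt_min (by positivity) (by positivity)),
      min_le_left _ _, (min_le_right _ _).trans (min_le_left _ _),
      (min_le_right _ _).trans (min_le_right _ _)⟩
  obtain ⟨Rκ, hRκ⟩ := (hκc 1).isBounded.subset_closedBall (0 : E)
  obtain ⟨R2, hR20, hR2R, hR2κ⟩ : ∃ R2 : ℝ, 0 < R2 ∧ R ≤ R2 ∧ Rκ < R2 :=
    ⟨max R (max 1 (Rκ + 1)), lt_max_of_lt_right (lt_max_of_lt_left one_pos), le_max_left _ _,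
      lt_max_of_lt_right (lt_max_of_lt_right (by linarith))⟩
  have hκR2 : {x | κ x ≤ 1} ⊆ ball (0 : E) R2 := hRκ.trans (closedBall_subset_ball hR2κ)
  have hκR' : {x | κ x ≤ 1} ⊆ ball (0 : E) (R2 + 1) :=
    hκR2.trans (ball_subset_ball (by linarith))
  obtain ⟨ε2, hε2, ⟨A⟩⟩ := hfd _ f1 f2 ηK hηK hηK0 KS happ (s + 10 * d) (by linarith) (R2 + 1)
    hκR' ε1 hε1
  have hε2c : ε2 ≤ D.c1 / 8 := hε2.2.trans hε1b
  obtain ⟨U1, hU1h, hU1s⟩ := A.exists_U hκcont hηKc hηc hε2c hε2.1 (by linarith)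
  obtain ⟨Wt, C, hWt1, hWt2, hWt3, hWt4⟩ := hwt2 (R2 + 1) η ε2 hηη1 hε2.1 (hε2.2.trans hε1a) A
    U1 hU1h hU1s
  rw [← hρ3def] at hWt1 hWt2 hWt4
  have hsm : D.L * (η + 2 * ε2) + 2 * η ≤ ρ3 / 8 := by
    have h1 : ε2 ≤ η / 2 := hε2.2.trans hε1c
    have h2 : D.L * (η + 2 * ε2) ≤ D.L * (2 * η) :=
      mul_le_mul_of_nonneg_left (by linarith) (by linarith)
    have h3 : (64 * (D.L + 1)) * η ≤ ρ3 := by
      rw [le_div_iff₀ (by positivity)] at hηL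
      linarith
    nlinarith
  obtain ⟨TD, hTD⟩ := exists_tubeData hκcont hκc A (by linarith) (U1 := U1) ⟨hU1h, hU1s⟩ hηKc
    hηc hε2c hε2.1 (by omega) (s5 := s + 9 * d) (ρ3 := ρ3) (s := s) (d := d) hd le_rfl
    (by linarith) (by linarith) hκR' hρ3 hρ31 (by linarith) hsm hWt1
    (fun x hx v hv => (hWt2 x hx v hv).trans hκ0a) hκ0 hκL (k2 := ngN E m + 2) hWt4
  obtain ⟨V, g, hV, hVR, hg, hgd⟩ := thin_tube hp hκ hd hR20 (by linarith : R2 < R2 + 1)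
    (fun x hx => hκR2 (by
      have h1 : κ x ≤ s + 5 * d := hx
      show κ x ≤ 1
      linarith)) TD (half_pos hε)
  refine ⟨V, g, hV, (closedBall_subset_closedBall hR2R).trans hVR, hg, fun x hx => ?_⟩
  have h1 := hgd x hx
  have h2 : dist (TD.𝒢 (x, 0)) (f2 x) < ε / 2 := by
    rw [hTD x hx, ← (KS.c2f_spec x (hs58 x hx)).2]
    exact hunif x hx _ (hWt3 x (by linarith))
  calc dist (g x) (f2 x) ≤ dist (g x) (TD.𝒢 (x, 0)) + dist (TD.𝒢 (x, 0)) (f2 x) :=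
        dist_triangle _ _ _
    _ < ε / 2 + ε / 2 := add_lt_add h1 h2
    _ = ε := by ring

end OkaP
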