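import Pool.Agent.H.MP_ceb9a9.TTPsh4

/-!
# MP_ceb9a9: plurisubharmonic functions of the thin tube
-/

set_option autoImplicit false

namespace OkaP

open Set Metric Topology

/-- the weights of the thin tube `{‖û‖ small}` attached to `{κ ≤ s}`, with `d` = width of the
five layers `s, s + d, ..., s + 5 d`. -/
theorem tt_psh {E : Type} [NormedAddCommGroup E] [InnerProductSpace ℂ E] [FiniteDimensional ℂ E]
    {m : ℕ} {κ : E → ℝ} (hκ : Psh κ) {s d : ℝ} (hd : 0 < d)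
    {R1 R R' : ℝ} (hR1 : 0 < R1) (hRR : R1 < R) (hRR' : R < R')
    (hκR : {x | κ x ≤ s + 5 * d} ⊆ ball (0 : E) R1)
    {N : Set E} (hN : IsOpen N) {û : E → (Fin m → ℂ)} (hû : DifferentiableOn ℂ û N)
    {c3 : ℝ} (hc3 : 0 < c3) (hT : IsCompact {x | x ∈ closedBall (0 : E) R' ∧ x ∈ N ∧ ‖û x‖ ≤ c3}) :
    ∃ C : ℝ, 1 ≤ C ∧ ∃ c' : ℝ, 0 < c' ∧ ∃ ω0 ∈ Ioo (0 : ℝ) 1, ∀ ω ∈ Ioo (0 : ℝ) ω0,
      ∃ ρ ρC W : E → ℝ, Psh ρ ∧ SPshOn ρ univ ∧ {x | ρ x ≤ 1} ⊆ closedBall (0 : E) R ∧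
      PshOn ρC (ball (0 : E) R') ∧ PshOn W (ball (0 : E) R') ∧
      (∀ x ∈ ball (0 : E) R', W x ≤ 0) ∧
      (∀ x ∈ ball (0 : E) R', ‖fderiv ℝ ρ x‖ ≤ C * Real.log (1 / ω) * Real.exp (-(W x) / 2)) ∧
      (∀ x ∈ ball (0 : E) R', ‖fderiv ℝ ρC x‖ ≤ C * Real.log (1 / ω) * Real.exp (-(W x) / 2)) ∧
      (∀ x ∈ ball (0 : E) R', ‖fderiv ℝ (fun y => Real.exp (W y / 2)) x‖ ≤ C) ∧
      -- position of the sublevel sets
      (∀ x, κ x ≤ s → ρ x < -1) ∧
      (∀ x ∈ closedBall (0 : E) R1, x ∈ N → ‖û x‖ ≤ ω → ρ x < -1) ∧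
      (∀ x, ρ x ≤ 1 → s + 2 * d ≤ κ x → x ∈ N ∧ ‖û x‖ ≤ C * ω ^ c') ∧
      (∀ x, ρ x ≤ 1 → s + 2 * d ≤ κ x → κ x ≤ s + 3 * d → ρC x ≤ 0) ∧
      (∀ x, ρ x ≤ 1 → ρC x ≤ 1 → κ x ≤ s + 4 * d ∧ x ∈ N ∧ ‖û x‖ ≤ C * ω ^ c') ∧
      (∀ x ∈ ball (0 : E) R', x ∈ N → ‖û x‖ ≤ c3 / 2 →
        ‖û x‖ ≤ C * Real.exp (W x / 2) ∧ Real.exp (W x / 2) ≤ C * (‖û x‖ + ω)) := by
  classical
  have hprop : ProperSpace E := FiniteDimensional.proper ℂ E
  obtain ⟨M0, C2, hM0, hC2, hlam⟩ := TTPsh3_lam hN hû hc3 hT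
  obtain ⟨ζ, hζs, hζ1, hζ2, hζr, hζl, hζa, hζb⟩ := TTPsh2_zeta
  obtain ⟨h, hhs, hh1, hh1', hh2, hh0, hhn, hhl⟩ := TTPsh2_h
  have hR : 0 < R := hR1.trans hRR
  have hR' : 0 < R' := hR.trans hRR'
  have hκs := hκ.smooth
  -- bounds for `κ`
  obtain ⟨K0, hK0⟩ : ∃ K0 : ℝ, ∀ x ∈ closedBall (0 : E) R', κ x ≤ K0 := by
    obtain ⟨K0, hK0⟩ := (isCompact_closedBall (0 : E) R').exists_bound_of_continuousOn
      hκs.continuous.continuousOn
    exact ⟨K0, fun x hx => (le_abs_self _).trans (hK0 x hx)⟩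
  obtain ⟨Bκ, hBκ0, hBκ⟩ : ∃ Bκ : ℝ, 0 ≤ Bκ ∧ ∀ x ∈ closedBall (0 : E) R', ‖fderiv ℝ κ x‖ ≤ Bκ := by
    obtain ⟨B, hB⟩ := (isCompact_closedBall (0 : E) R').exists_bound_of_continuousOn
      (hκs.continuous_fderiv (by simp)).continuousOn
    exact ⟨max B 0, le_max_right _ _, fun x hx => (hB x hx).trans (le_max_left _ _)⟩
  obtain ⟨Ka, hKa, hKa0, hKκ⟩ : ∃ Ka : ℝ, 0 < Ka ∧ 1 ≤ Ka ∧
      ∀ x ∈ closedBall (0 : E) R', κ x - (s + d) ≤ Ka := by
    refine ⟨max (K0 - (s + d)) 1, lt_of_lt_of_le one_pos (le_max_right _ _), le_max_right _ _,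
      fun x hx => ?_⟩
    have := hK0 x hx
    exact (by linarith : κ x - (s + d) ≤ K0 - (s + d)).trans (le_max_left _ _)
  obtain ⟨M, hM, hM1⟩ : ∃ M : ℝ, M = M0 + 1 ∧ 1 ≤ M := ⟨M0 + 1, rfl, by linarith⟩
  obtain ⟨MR, hMR⟩ : ∃ MR : ℝ, MR = M * R' ^ 2 := ⟨_, rfl⟩
  have hMR0 : 0 ≤ MR := by rw [hMR]; positivity
  obtain ⟨y1, hy1⟩ : ∃ y1 : ℝ, y1 = Real.log (c3 ^ 2) := ⟨_, rfl⟩
  obtain ⟨R3, hR3, hR13, hR3R⟩ : ∃ R3 : ℝ, 0 < R3 ∧ R1 < R3 ∧ R3 < R :=
    ⟨(R1 + R) / 2, by linarith, by linarith, by linarith⟩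
  have hsq1 : 0 < R3 ^ 2 - R1 ^ 2 := by nlinarith only [hR1, hR13, hR3]
  have hsq2 : 0 < R ^ 2 - R3 ^ 2 := by nlinarith only [hR3, hR3R, hR]
  obtain ⟨A0, hA01, hA02, hA03⟩ : ∃ A0 : ℝ, 1 ≤ A0 ∧ 4 + MR ≤ A0 * (R ^ 2 - R3 ^ 2) ∧
      3 ≤ A0 * (R3 ^ 2 - R1 ^ 2) := by
    refine ⟨1 + (4 + MR) / (R ^ 2 - R3 ^ 2) + 3 / (R3 ^ 2 - R1 ^ 2), ?_, ?_, ?_⟩
    · have h1 : 0 ≤ (4 + MR) / (R ^ 2 - R3 ^ 2) := by positivity
      have h2 : 0 ≤ 3 / (R3 ^ 2 - R1 ^ 2) := by positivity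
      linarith
    · have h1 : (4 + MR) / (R ^ 2 - R3 ^ 2) * (R ^ 2 - R3 ^ 2) = 4 + MR := by field_simp
      have h2 : 0 ≤ 3 / (R3 ^ 2 - R1 ^ 2) * (R ^ 2 - R3 ^ 2) := by positivity
      nlinarith only [h1, h2, hsq2]
    · have h1 : 3 / (R3 ^ 2 - R1 ^ 2) * (R3 ^ 2 - R1 ^ 2) = 3 := by field_simp
      have h2 : 0 ≤ (4 + MR) / (R ^ 2 - R3 ^ 2) * (R3 ^ 2 - R1 ^ 2) := by positivity
      nlinarith only [h1, h2, hsq1]
  -- the size of the logarithm
  obtain ⟨L0, hL01, hL02, hL03, hL04⟩ : ∃ L0 : ℝ, 1 ≤ L0 ∧ MR + 3 ≤ L0 / Ka * d ∧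
      3 ≤ L0 / Ka * d ∧ Real.log (m + 1) - y1 + 1 + MR + 3 ≤ L0 := by
    refine ⟨max 1 (max ((MR + 3) * Ka / d) (Real.log (m + 1) - y1 + 1 + MR + 3)),
      le_max_left _ _, ?_, ?_, (le_max_right _ _).trans (le_max_right _ _)⟩
    all_goals
      have h1 : (MR + 3) * Ka / d ≤ max 1 (max ((MR + 3) * Ka / d)
        (Real.log (m + 1) - y1 + 1 + MR + 3)) := (le_max_left _ _).trans (le_max_right _ _)
      have h2 : (MR + 3) * Ka / d / Ka * d = MR + 3 := by field_simp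
      have h3 : (MR + 3) * Ka / d / Ka * d ≤ max 1 (max ((MR + 3) * Ka / d)
        (Real.log (m + 1) - y1 + 1 + MR + 3)) / Ka * d := by gcongr
      linarith
  obtain ⟨C1, hC1⟩ : ∃ C1 : ℝ, C1 = 3 + |y1| := ⟨_, rfl⟩
  have hC10 : 3 ≤ C1 := by rw [hC1]; have := abs_nonneg y1; linarith
  obtain ⟨C4, hC4⟩ : ∃ C4 : ℝ, C4 = C2 + M * (2 * R') := ⟨_, rfl⟩
  have hC40 : 0 ≤ C4 := by rw [hC4]; positivity
  -- the final constant
  obtain ⟨C, hCa, hCb, hCc, hCd, hCe, hCf, hCg⟩ : ∃ C : ℝ, 1 ≤ C ∧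
      Bκ / Ka + C4 + A0 * (2 * R') ≤ C ∧ C4 + (4 + C1) * (2 / d * Bκ) ≤ C ∧ C4 / 2 ≤ C ∧
      c3 * Real.exp 1 ≤ C ∧ c3 * Real.exp (MR / 2) ≤ C ∧
      (m + 1) * (Real.exp (1 / 2) / c3) ≤ C := by
    obtain ⟨C, hC⟩ := (show ∃ C : ℝ, ∀ t ∈ ({1, Bκ / Ka + C4 + A0 * (2 * R'),
      C4 + (4 + C1) * (2 / d * Bκ), C4 / 2, c3 * Real.exp 1, c3 * Real.exp (MR / 2),
      (m + 1) * (Real.exp (1 / 2) / c3)} : Set ℝ), t ≤ C from by
        have hfin : ({1, Bκ / Ka + C4 + A0 * (2 * R'),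
          C4 + (4 + C1) * (2 / d * Bκ), C4 / 2, c3 * Real.exp 1, c3 * Real.exp (MR / 2),
          (m + 1) * (Real.exp (1 / 2) / c3)} : Set ℝ).Finite := by
          simp
        obtain ⟨C, hC⟩ := hfin.bddAbove
        exact ⟨C, fun t ht => hC ht⟩)
    exact ⟨C, hC _ (by simp), hC _ (by simp), hC _ (by simp), hC _ (by simp), hC _ (by simp),
      hC _ (by simp), hC _ (by simp)⟩
  have hω0 : Real.exp (-L0) ∈ Ioo (0 : ℝ) 1 :=
    ⟨Real.exp_pos _, by rw [Real.exp_lt_one_iff]; linarith⟩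
  refine ⟨C, hCa, d / (2 * Ka), by positivity, Real.exp (-L0), hω0, fun ω hω => ?_⟩
  have hωpos : 0 < ω := hω.1
  obtain ⟨lam, hls, hllevi, hlder, hln, hlN, hlN', hlN2⟩ := hlam ω hωpos
  rw [← hy1] at hlN hlN2
  obtain ⟨L, hL⟩ : ∃ L : ℝ, L = Real.log (1 / ω) := ⟨_, rfl⟩
  have hLlog : L = -Real.log ω := by rw [hL, one_div, Real.log_inv]
  have hLL0 : L0 ≤ L := by
    have h1 : Real.log ω ≤ Real.log (Real.exp (-L0)) := Real.log_le_log hωpos hω.2.le
    rw [Real.log_exp] at h1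
    rw [hLlog]; linarith
  have hL1 : 1 ≤ L := hL01.trans hLL0
  have hL0' : 0 ≤ L := zero_le_one.trans hL1
  obtain ⟨Λ, hΛ⟩ : ∃ Λ : ℝ, Λ = L / Ka := ⟨_, rfl⟩
  have hΛ0 : 0 ≤ Λ := by rw [hΛ]; positivity
  have hΛd : L0 / Ka * d ≤ Λ * d := by rw [hΛ]; gcongr
  have hΛK : Λ * Ka = L := by rw [hΛ]; field_simp
  rw [← hL]
  have hmem_cl : ∀ {x : E}, x ∈ ball (0 : E) R' → x ∈ closedBall (0 : E) R' := fun hx =>
    ball_subset_closedBall hx
  have hnorm_lt : ∀ {x : E}, x ∈ ball (0 : E) R' → ‖x‖ < R' := fun hx => by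
    rwa [mem_ball_zero_iff] at hx
  -- mu
  obtain ⟨mu, hmu⟩ : ∃ mu : E → ℝ, mu = fun x => lam x + M * ‖x‖ ^ 2 := ⟨_, rfl⟩
  have hls2 : ∀ x ∈ ball (0 : E) R', ContDiffAt ℝ ((⊤ : ℕ∞) : WithTop ℕ∞) lam x := fun x hx =>
    hls.contDiffAt (isOpen_ball.mem_nhds hx)
  have hnsq : ∀ x : E, ContDiffAt ℝ ((⊤ : ℕ∞) : WithTop ℕ∞) (fun y : E => ‖y‖ ^ 2) x := fun x =>
    tt_norm_sq_smooth.contDiffAt
  have hmus : ∀ x ∈ ball (0 : E) R', ContDiffAt ℝ ((⊤ : ℕ∞) : WithTop ℕ∞) mu x := fun x hx => by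
    rw [hmu]; exact (hls2 x hx).add (contDiffAt_const.mul (hnsq x))
  have hmulevi : ∀ x ∈ ball (0 : E) R', ∀ v, ‖v‖ ^ 2 ≤ levi mu x v := by
    intro x hx v
    rw [hmu, tt_levi_add ((hls2 x hx).of_le tt_two_le)
      ((contDiffAt_const.mul (hnsq x)).of_le tt_two_le),
      tt_levi_const_mul ((hnsq x).of_le tt_two_le), tt_levi_norm_sq]
    have h1 := hllevi x hx v
    rw [hM]
    linarith
  have hmule : ∀ x ∈ ball (0 : E) R', mu x ≤ lam x + MR := by
    intro x hx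
    have h1 := hnorm_lt hx
    have h2 : ‖x‖ ^ 2 ≤ R' ^ 2 := pow_le_pow_left₀ (norm_nonneg x) h1.le 2
    have h3 : M * ‖x‖ ^ 2 ≤ M * R' ^ 2 := mul_le_mul_of_nonneg_left h2 (by linarith)
    rw [hmu, hMR]
    simp only
    linarith
  have hmuge : ∀ x, lam x ≤ mu x := by
    intro x
    have : 0 ≤ M * ‖x‖ ^ 2 := by positivity
    rw [hmu]; simp only; linarith
  have hexpW : ∀ x ∈ ball (0 : E) R', 1 ≤ Real.exp (-lam x / 2) ∧
      Real.exp (-lam x / 2) ≤ Real.exp (-(mu x - MR) / 2) := by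
    intro x hx
    refine ⟨Real.one_le_exp (by have := hln x; linarith), Real.exp_le_exp.2 ?_⟩
    have := hmule x hx
    linarith
  have hmuder : ∀ x ∈ ball (0 : E) R', ‖fderiv ℝ mu x‖ ≤ C4 * Real.exp (-(mu x - MR) / 2) := by
    intro x hx
    have h1 : DifferentiableAt ℝ lam x := (hls2 x hx).differentiableAt (by simp)
    have h2 : DifferentiableAt ℝ (fun y : E => ‖y‖ ^ 2) x := (hnsq x).differentiableAt (by simp)
    have h3 : fderiv ℝ mu x = fderiv ℝ lam x + M • fderiv ℝ (fun y : E => ‖y‖ ^ 2) x := by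
      rw [hmu]
      exact (h1.hasFDerivAt.add (h2.hasFDerivAt.const_mul M)).fderiv
    rw [h3]
    obtain ⟨h4, h5⟩ := hexpW x hx
    have h6 : ‖M • fderiv ℝ (fun y : E => ‖y‖ ^ 2) x‖ ≤ M * (2 * R') := by
      rw [norm_smul, Real.norm_of_nonneg (by linarith)]
      refine mul_le_mul_of_nonneg_left ((tt_norm_sq_fderiv x).trans ?_) (by linarith)
      have := hnorm_lt hx
      linarith
    have h7 := hlder x hx
    have h8 : C2 * Real.exp (-lam x / 2) ≤ C2 * Real.exp (-(mu x - MR) / 2) :=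
      mul_le_mul_of_nonneg_left h5 hC2
    have h9 : M * (2 * R') * 1 ≤ M * (2 * R') * Real.exp (-(mu x - MR) / 2) :=
      mul_le_mul_of_nonneg_left (h4.trans h5) (by positivity)
    refine (norm_add_le _ _).trans ?_
    rw [hC4, add_mul]
    linarith
  -- the functions
  obtain ⟨ρ0, hρ0⟩ : ∃ ρ0 : E → ℝ, ρ0 = fun x => Λ * (κ x - (s + d)) + mu x := ⟨_, rfl⟩
  obtain ⟨b, hb⟩ : ∃ b : E → ℝ, b = fun x => A0 * L * (‖x‖ ^ 2 - R3 ^ 2) := ⟨_, rfl⟩
  have hA0L : 1 ≤ A0 * L := by nlinarith only [hA01, hL1]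
  have hκAt : ∀ x, ContDiffAt ℝ ((⊤ : ℕ∞) : WithTop ℕ∞) (fun y => κ y - (s + d)) x := fun x =>
    (hκs.sub contDiff_const).contDiffAt
  have hρ0s : ∀ x ∈ ball (0 : E) R', ContDiffAt ℝ ((⊤ : ℕ∞) : WithTop ℕ∞) ρ0 x := fun x hx => by
    rw [hρ0]; exact (contDiffAt_const.mul (hκAt x)).add (hmus x hx)
  have hbs : ContDiff ℝ ((⊤ : ℕ∞) : WithTop ℕ∞) b := by
    rw [hb]; exact contDiff_const.mul (tt_norm_sq_smooth.sub contDiff_const)
  have hκlevi : ∀ x v, levi (fun y => κ y - (s + d)) x v = levi κ x v := by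
    intro x v
    have h1 : (fun y => κ y - (s + d)) = fun y => κ y + (-(s + d)) := by funext y; ring
    rw [h1, tt_levi_add_const (hκs.contDiffAt.of_le tt_two_le)]
  have hρ0levi : ∀ x ∈ ball (0 : E) R', ∀ v, ‖v‖ ^ 2 ≤ levi ρ0 x v := by
    intro x hx v
    rw [hρ0, tt_levi_add ((contDiffAt_const.mul (hκAt x)).of_le tt_two_le)
      ((hmus x hx).of_le tt_two_le), tt_levi_const_mul ((hκAt x).of_le tt_two_le), hκlevi]
    have h1 := mul_nonneg hΛ0 (hκ.nonneg x v)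
    have h2 := hmulevi x hx v
    linarith
  have hblevi : ∀ x v, levi b x v = A0 * L * ‖v‖ ^ 2 := by
    intro x v
    have h1 : (fun x : E => ‖x‖ ^ 2 - R3 ^ 2) = fun y => ‖y‖ ^ 2 + (-(R3 ^ 2)) := by funext y; ring
    have h2 : ContDiffAt ℝ 2 (fun x : E => ‖x‖ ^ 2 - R3 ^ 2) x :=
      (tt_norm_sq_smooth.sub contDiff_const).contDiffAt.of_le tt_two_le
    rw [hb, tt_levi_const_mul h2, h1, tt_levi_add_const ((hnsq x).of_le tt_two_le),
      tt_levi_norm_sq]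
  have hρ0le : ∀ x ∈ ball (0 : E) R', ρ0 x ≤ L + lam x + MR := by
    intro x hx
    have h1 := mul_le_mul_of_nonneg_left (hKκ x (hmem_cl hx)) hΛ0
    rw [hΛK] at h1
    have h2 := hmule x hx
    rw [hρ0]; simp only
    linarith
  have hbge : ∀ x : E, R ≤ ‖x‖ → L + MR + 3 ≤ b x := by
    intro x hx
    have h1 : R ^ 2 - R3 ^ 2 ≤ ‖x‖ ^ 2 - R3 ^ 2 := by nlinarith only [hx, hR]
    have h2 : A0 * L * (R ^ 2 - R3 ^ 2) ≤ A0 * L * (‖x‖ ^ 2 - R3 ^ 2) :=
      mul_le_mul_of_nonneg_left h1 (by linarith)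
    have h3 : L * (4 + MR) ≤ L * (A0 * (R ^ 2 - R3 ^ 2)) := mul_le_mul_of_nonneg_left hA02 hL0'
    rw [hb]; simp only
    nlinarith only [h2, h3, hL1, hMR0]
  have hble : ∀ x : E, ‖x‖ ≤ R1 → b x ≤ -3 := by
    intro x hx
    have h1 : ‖x‖ ^ 2 - R3 ^ 2 ≤ -(R3 ^ 2 - R1 ^ 2) := by
      have := norm_nonneg x
      nlinarith only [hx, this]
    have h2 : A0 * L * (‖x‖ ^ 2 - R3 ^ 2) ≤ A0 * L * (-(R3 ^ 2 - R1 ^ 2)) :=
      mul_le_mul_of_nonneg_left h1 (by linarith)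
    have h3 : L * 3 ≤ L * (A0 * (R3 ^ 2 - R1 ^ 2)) := mul_le_mul_of_nonneg_left hA03 hL0'
    rw [hb]; simp only
    nlinarith only [h2, h3, hL1]
  obtain ⟨ρ, hρ⟩ : ∃ ρ : E → ℝ, ρ = fun x => if ‖x‖ < R' then (ρ0 x + b x + ζ (ρ0 x - b x)) / 2
      else b x := ⟨_, rfl⟩
  have hρin : ∀ x : E, ‖x‖ < R' → ρ x = (ρ0 x + b x + ζ (ρ0 x - b x)) / 2 := fun x hx => by
    rw [hρ]; simp only [hx, if_true]
  have hρout : ∀ x : E, R ≤ ‖x‖ → ρ x = b x := by
    intro x hx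
    by_cases h1 : ‖x‖ < R'
    · have h2 := hbge x hx
      have h3 := hρ0le x (by rwa [mem_ball_zero_iff])
      have h4 := hln x
      rw [hρin x h1, hζl _ (by linarith)]
      ring
    · rw [hρ]; simp only [h1, if_false]
  have hρnin : ∀ x : E, ‖x‖ < R' → ρ =ᶠ[𝓝 x] fun x => (ρ0 x + b x + ζ (ρ0 x - b x)) / 2 := by
    intro x hx
    filter_upwards [isOpen_ball.mem_nhds (show x ∈ ball (0 : E) R' by rwa [mem_ball_zero_iff])]
      with y hy
    exact hρin y (hnorm_lt hy)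
  have hρnout : ∀ x : E, R < ‖x‖ → ρ =ᶠ[𝓝 x] b := by
    intro x hx
    filter_upwards [continuous_norm.continuousAt.eventually (lt_mem_nhds hx)] with y hy
    exact hρout y hy.le
  have hζd : Differentiable ℝ ζ := hζs.differentiable (by simp)
  have hρs : ContDiff ℝ ((⊤ : ℕ∞) : WithTop ℕ∞) ρ := by
    rw [contDiff_iff_contDiffAt]
    intro x
    rcases lt_or_ge ‖x‖ R' with h1 | h1
    · have hx : x ∈ ball (0 : E) R' := by rwa [mem_ball_zero_iff]
      refine ContDiffAt.congr_of_eventuallyEq ?_ (hρnin x h1)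
      have h2 : ContDiffAt ℝ ((⊤ : ℕ∞) : WithTop ℕ∞) (fun x => ζ (ρ0 x - b x)) x :=
        ContDiffAt.comp (g := ζ) (f := fun x => ρ0 x - b x) x hζs.contDiffAt
          ((hρ0s x hx).sub hbs.contDiffAt)
      exact (((hρ0s x hx).add hbs.contDiffAt).add h2).div_const 2
    · exact hbs.contDiffAt.congr_of_eventuallyEq (hρnout x (hRR'.trans_le h1))
  have hρlevi : ∀ x v, ‖v‖ ^ 2 ≤ levi ρ x v := by
    intro x v
    rcases lt_or_ge ‖x‖ R' with h1 | h1
    · have hx : x ∈ ball (0 : E) R' := by rwa [mem_ball_zero_iff]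
      rw [tt_levi_congr (hρnin x h1)]
      refine le_trans ?_ (tt_regmax_levi ((hρ0s x hx).of_le tt_two_le)
        (hbs.contDiffAt.of_le tt_two_le) hζs hζ2 v)
      have h2 := hρ0levi x hx v
      rw [hblevi x v]
      obtain ⟨h3, h4⟩ := abs_le.1 (hζ1 (ρ0 x - b x))
      have h5 : ‖v‖ ^ 2 ≤ A0 * L * ‖v‖ ^ 2 := by
        have := sq_nonneg ‖v‖
        nlinarith only [this, hA0L]
      have h6 : (1 + deriv ζ (ρ0 x - b x)) / 2 * ‖v‖ ^ 2 ≤
          (1 + deriv ζ (ρ0 x - b x)) / 2 * levi ρ0 x v :=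
        mul_le_mul_of_nonneg_left h2 (by linarith)
      have h7 : (1 - deriv ζ (ρ0 x - b x)) / 2 * ‖v‖ ^ 2 ≤
          (1 - deriv ζ (ρ0 x - b x)) / 2 * (A0 * L * ‖v‖ ^ 2) :=
        mul_le_mul_of_nonneg_left h5 (by linarith)
      linarith
    · rw [tt_levi_congr (hρnout x (hRR'.trans_le h1)), hblevi]
      have := sq_nonneg ‖v‖
      nlinarith only [this, hA0L]
  have hρge : ∀ x : E, ‖x‖ < R' → ρ0 x ≤ ρ x := by
    intro x hx
    rw [hρin x hx]
    have h1 := hζa (ρ0 x - b x)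
    have h2 := le_abs_self (ρ0 x - b x)
    linarith
  have hρle : ∀ x : E, ‖x‖ < R' → ∀ c : ℝ, ρ0 x ≤ c → b x ≤ c → ρ x ≤ c + 1 / 2 := by
    intro x hx c h1 h2
    rw [hρin x hx]
    have h3 := hζb (ρ0 x - b x)
    rcases abs_cases (ρ0 x - b x) with ⟨h4, _⟩ | ⟨h4, _⟩ <;> rw [h4] at h3 <;> linarith
  have hsub : ∀ x : E, ρ x ≤ 1 → ‖x‖ < R := by
    intro x hx
    by_contra hcon
    push Not at hcon
    have h1 := hbge x hcon
    rw [hρout x hcon] at hx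
    linarith
  -- the tube estimate
  have htube : ∀ x, lam x ≤ 2 - Λ * d → x ∈ N ∧ ‖û x‖ ≤ C * ω ^ (d / (2 * Ka)) := by
    intro x hx
    have h0 : lam x < 0 := by linarith
    have hxN : x ∈ N := by
      by_contra hcon
      rw [hlN' x hcon] at h0
      exact lt_irrefl _ h0
    refine ⟨hxN, ?_⟩
    rcases hlN2 x hxN with h1 | ⟨h1, -⟩
    · rw [h1] at h0; exact absurd h0 (lt_irrefl _)
    · have hp : 0 < ttP û x + ω ^ 2 := by
        have := ttP_nonneg û x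
        positivity
      have h2 : Real.log (ttP û x + ω ^ 2) ≤ y1 + (2 - Λ * d) := by linarith
      have h3 : ttP û x + ω ^ 2 ≤ c3 ^ 2 * Real.exp (2 - Λ * d) := by
        have h4 := Real.exp_le_exp.2 h2
        rwa [Real.exp_log hp, Real.exp_add, hy1, Real.exp_log (by positivity)] at h4
      have h4 : ω ^ (d / (2 * Ka)) = Real.exp (-(Λ * d) / 2) := by
        rw [Real.rpow_def_of_pos hωpos]
        congr 1
        have : Real.log ω = -L := by rw [hLlog]; ring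
        rw [this, hΛ]
        field_simp
      have h5 : (c3 * Real.exp 1 * Real.exp (-(Λ * d) / 2)) ^ 2 = c3 ^ 2 * Real.exp (2 - Λ * d) := by
        rw [mul_pow, mul_pow, ← Real.exp_nat_mul, ← Real.exp_nat_mul, mul_assoc, ← Real.exp_add]
        congr 2
        push_cast
        ring
      have h6 : ‖û x‖ ≤ c3 * Real.exp 1 * Real.exp (-(Λ * d) / 2) := by
        have h7 := ttP_ge û x
        have h8 : ‖û x‖ ^ 2 ≤ (c3 * Real.exp 1 * Real.exp (-(Λ * d) / 2)) ^ 2 := by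
          rw [h5]
          have : 0 < ω ^ 2 := by positivity
          linarith
        exact (abs_le_of_sq_le_sq' h8 (by positivity)).2
      rw [h4]
      exact h6.trans (mul_le_mul_of_nonneg_right hCe (Real.exp_pos _).le)
  -- ρC and W
  obtain ⟨ρC, hρC⟩ : ∃ ρC : E → ℝ, ρC = fun x => mu x + (Λ * d - 1) +
      (4 * L + C1) * h ((1 / d) * (κ x + (-(s + 3 * d)))) := ⟨_, rfl⟩
  have hk2 : ContDiff ℝ ((⊤ : ℕ∞) : WithTop ℕ∞) (fun x => (1 / d) * (κ x + (-(s + 3 * d)))) :=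
    contDiff_const.mul (hκs.add contDiff_const)
  have hhk : ContDiff ℝ ((⊤ : ℕ∞) : WithTop ℕ∞) (fun x => h ((1 / d) * (κ x + (-(s + 3 * d))))) :=
    hhs.comp hk2
  have hhklevi : ∀ x v, 0 ≤ levi (fun x => h ((1 / d) * (κ x + (-(s + 3 * d))))) x v := by
    intro x v
    have h1 := tt_levi_comp (φ := fun x => (1 / d) * (κ x + (-(s + 3 * d)))) (h := h)
      (hk2.contDiffAt.of_le tt_two_le) (hhs.contDiffAt.of_le tt_two_le) v (x := x)
    rw [h1, tt_levi_const_mul ((hκs.add contDiff_const).contDiffAt.of_le tt_two_le),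
      tt_levi_add_const (hκs.contDiffAt.of_le tt_two_le)]
    have h2 := hκ.nonneg x v
    have h3 := tt_lgr_nonneg (fun x => (1 / d) * (κ x + (-(s + 3 * d)))) x v
    have h4 := hh1 ((1 / d) * (κ x + (-(s + 3 * d))))
    have h5 := hh2 ((1 / d) * (κ x + (-(s + 3 * d))))
    have h6 : 0 ≤ 1 / d := by positivity
    exact add_nonneg (mul_nonneg h4 (mul_nonneg h6 h2)) (mul_nonneg h5 h3)
  have hB0 : 0 ≤ 4 * L + C1 := by linarith
  refine ⟨ρ, ρC, fun x => mu x + (-MR), ⟨hρs, fun x v => (sq_nonneg ‖v‖).trans (hρlevi x v)⟩,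
    ⟨hρs.contDiffOn, fun x _ v hv => lt_of_lt_of_le (by positivity) (hρlevi x v)⟩, ?_, ⟨?_, ?_⟩,
    ⟨?_, ?_⟩, ?_, ?_, ?_, ?_, ?_, ?_, ?_, ?_, ?_, ?_⟩
  · intro x hx
    rw [mem_closedBall_zero_iff]
    exact (hsub x hx).le
  · intro x hx
    rw [hρC]
    exact (((hmus x hx).add contDiffAt_const).add
      (contDiffAt_const.mul hhk.contDiffAt)).contDiffWithinAt
  · intro x hx v
    rw [hρC, tt_levi_add (((hmus x hx).add contDiffAt_const).of_le tt_two_le)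
      ((contDiffAt_const.mul hhk.contDiffAt).of_le tt_two_le),
      tt_levi_add_const ((hmus x hx).of_le tt_two_le),
      tt_levi_const_mul (hhk.contDiffAt.of_le tt_two_le)]
    have h1 := hmulevi x hx v
    have h2 := mul_nonneg hB0 (hhklevi x v)
    have h3 := sq_nonneg ‖v‖
    linarith
  · intro x hx
    exact ((hmus x hx).add contDiffAt_const).contDiffWithinAt
  · intro x hx v
    rw [tt_levi_add_const ((hmus x hx).of_le tt_two_le)]
    exact (sq_nonneg ‖v‖).trans (hmulevi x hx v)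
  · intro x hx
    have h1 := hmule x hx
    have h2 := hln x
    linarith
  · -- gradient of ρ
    intro x hx
    have hx' := hnorm_lt hx
    rw [(hρnin x hx').fderiv_eq]
    have h1 : DifferentiableAt ℝ ρ0 x := (hρ0s x hx).differentiableAt (by simp)
    have h2 : DifferentiableAt ℝ b x := hbs.contDiffAt.differentiableAt (by simp)
    refine (tt_regmax_fderiv h1 h2 hζd hζ1).trans ?_
    have h3 : fderiv ℝ ρ0 x = Λ • fderiv ℝ κ x + fderiv ℝ mu x := by
      rw [hρ0]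
      have h4 : HasFDerivAt (fun y => κ y - (s + d)) (fderiv ℝ κ x) x :=
        ((hκs.differentiable (by simp)) x).hasFDerivAt.sub_const _
      exact ((h4.const_mul Λ).add ((hmus x hx).differentiableAt (by simp)).hasFDerivAt).fderiv
    have h4 : fderiv ℝ b x = (A0 * L) • fderiv ℝ (fun y : E => ‖y‖ ^ 2) x := by
      rw [hb]
      exact (((hnsq x).differentiableAt (by simp)).hasFDerivAt.sub_const _ |>.const_mul
        (A0 * L)).fderiv
    have h5 : ‖fderiv ℝ ρ0 x‖ ≤ Λ * Bκ + C4 * Real.exp (-(mu x - MR) / 2) := by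
      rw [h3]
      refine (norm_add_le _ _).trans (add_le_add ?_ (hmuder x hx))
      rw [norm_smul, Real.norm_of_nonneg hΛ0]
      exact mul_le_mul_of_nonneg_left (hBκ x (hmem_cl hx)) hΛ0
    have h6 : ‖fderiv ℝ b x‖ ≤ A0 * L * (2 * R') := by
      rw [h4, norm_smul, Real.norm_of_nonneg (by linarith)]
      refine mul_le_mul_of_nonneg_left ((tt_norm_sq_fderiv x).trans ?_) (by linarith)
      linarith
    obtain ⟨h7, h8⟩ := hexpW x hx
    obtain ⟨e, he⟩ : ∃ e : ℝ, e = Real.exp (-(mu x - MR) / 2) := ⟨_, rfl⟩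
    rw [← he] at h5 h8
    have h9 : 1 ≤ e := h7.trans h8
    have h10 : Real.exp (-(mu x + -MR) / 2) = e := by rw [he]; congr 1
    simp only
    rw [h10]
    have h11 : Λ * Bκ = Bκ / Ka * L := by rw [hΛ]; ring
    have h12 : Bκ / Ka * L * 1 ≤ Bκ / Ka * L * e := mul_le_mul_of_nonneg_left h9 (by positivity)
    have h13 : C4 * e * 1 ≤ C4 * e * L := mul_le_mul_of_nonneg_left hL1 (by positivity)
    have h14 : A0 * L * (2 * R') * 1 ≤ A0 * L * (2 * R') * e :=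
      mul_le_mul_of_nonneg_left h9 (by positivity)
    have h15 : (Bκ / Ka + C4 + A0 * (2 * R')) * (L * e) ≤ C * (L * e) :=
      mul_le_mul_of_nonneg_right hCb (by positivity)
    nlinarith only [h5, h6, h11, h12, h13, h14, h15]
  · -- gradient of ρC
    intro x hx
    have h1 : HasFDerivAt (fun x => (1 / d) * (κ x + (-(s + 3 * d)))) ((1 / d) • fderiv ℝ κ x) x :=
      (((hκs.differentiable (by simp)) x).hasFDerivAt.add_const _).const_mul (1 / d)
    have h2 : HasFDerivAt (fun x => h ((1 / d) * (κ x + (-(s + 3 * d)))))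
        (deriv h ((1 / d) * (κ x + (-(s + 3 * d)))) • ((1 / d) • fderiv ℝ κ x)) x :=
      ((hhs.differentiable (by simp)) _).hasDerivAt.comp_hasFDerivAt x h1
    have h3 : fderiv ℝ ρC x = fderiv ℝ mu x + (4 * L + C1) •
        (deriv h ((1 / d) * (κ x + (-(s + 3 * d)))) • ((1 / d) • fderiv ℝ κ x)) := by
      rw [hρC]
      exact ((((hmus x hx).differentiableAt (by simp)).hasFDerivAt.add_const _).add
        (h2.const_mul _)).fderiv
    have h4 : ‖(4 * L + C1) • (deriv h ((1 / d) * (κ x + (-(s + 3 * d)))) •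
        ((1 / d) • fderiv ℝ κ x))‖ ≤ (4 * L + C1) * (2 / d * Bκ) := by
      rw [norm_smul, norm_smul, norm_smul, Real.norm_of_nonneg hB0,
        Real.norm_of_nonneg (hh1 _), Real.norm_of_nonneg (by positivity : (0 : ℝ) ≤ 1 / d)]
      have h5 := hh1' ((1 / d) * (κ x + (-(s + 3 * d))))
      have h6 := hBκ x (hmem_cl hx)
      calc (4 * L + C1) * (deriv h ((1 / d) * (κ x + (-(s + 3 * d)))) * (1 / d * ‖fderiv ℝ κ x‖))
          ≤ (4 * L + C1) * (2 * (1 / d * Bκ)) := by gcongr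
        _ = _ := by ring
    obtain ⟨h7, h8⟩ := hexpW x hx
    have h5 := hmuder x hx
    obtain ⟨e, he⟩ : ∃ e : ℝ, e = Real.exp (-(mu x - MR) / 2) := ⟨_, rfl⟩
    rw [← he] at h5 h8
    have h9 : 1 ≤ e := h7.trans h8
    have h10 : Real.exp (-(mu x + -MR) / 2) = e := by rw [he]; congr 1
    simp only
    rw [h10, h3]
    refine (norm_add_le _ _).trans ?_
    have hq : 0 ≤ 2 / d * Bκ := by positivity
    have h12 : (4 * L + C1) * (2 / d * Bκ) ≤ (4 + C1) * L * (2 / d * Bκ) :=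
      mul_le_mul_of_nonneg_right (by nlinarith only [hL1, hC10]) hq
    have h13 : C4 * e * 1 ≤ C4 * e * L := mul_le_mul_of_nonneg_left hL1 (by positivity)
    have h14 : (4 + C1) * L * (2 / d * Bκ) * 1 ≤ (4 + C1) * L * (2 / d * Bκ) * e :=
      mul_le_mul_of_nonneg_left h9 (by positivity)
    have h15 : (C4 + (4 + C1) * (2 / d * Bκ)) * (L * e) ≤ C * (L * e) :=
      mul_le_mul_of_nonneg_right hCc (by positivity)
    nlinarith only [h4, h5, h12, h13, h14, h15]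
  · -- gradient of exp (W/2)
    intro x hx
    have h1 : HasFDerivAt (fun y => (mu y + -MR) / 2) ((1 / 2 : ℝ) • fderiv ℝ mu x) x := by
      have h2 := (((hmus x hx).differentiableAt (by simp)).hasFDerivAt.add_const (-MR)).const_mul
        (1 / 2)
      refine h2.congr_of_eventuallyEq ?_
      filter_upwards with y
      ring
    rw [h1.exp.fderiv, norm_smul, norm_smul, Real.norm_of_nonneg (Real.exp_pos _).le,
      Real.norm_of_nonneg (by norm_num : (0 : ℝ) ≤ 1 / 2)]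
    have h2 := hmuder x hx
    have h3 : Real.exp ((mu x + -MR) / 2) * Real.exp (-(mu x - MR) / 2) = 1 := by
      rw [← Real.exp_add]
      rw [show (mu x + -MR) / 2 + -(mu x - MR) / 2 = 0 by ring, Real.exp_zero]
    calc Real.exp ((mu x + -MR) / 2) * (1 / 2 * ‖fderiv ℝ mu x‖)
        ≤ Real.exp ((mu x + -MR) / 2) * (1 / 2 * (C4 * Real.exp (-(mu x - MR) / 2))) := by gcongr
      _ = C4 / 2 * (Real.exp ((mu x + -MR) / 2) * Real.exp (-(mu x - MR) / 2)) := by ring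
      _ = C4 / 2 := by rw [h3, mul_one]
      _ ≤ C := hCd
  · -- κ ≤ s
    intro x hx
    have h1 : x ∈ ball (0 : E) R1 := hκR (by
      have : κ x ≤ s + 5 * d := by linarith
      exact this)
    rw [mem_ball_zero_iff] at h1
    have h2 : ‖x‖ < R' := by linarith
    have h3 := hble x h1.le
    have h4 : Λ * (κ x - (s + d)) ≤ Λ * (-d) := mul_le_mul_of_nonneg_left (by linarith) hΛ0
    have h5 := hmule x (by rwa [mem_ball_zero_iff])
    have h6 := hln x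
    have h7 : ρ0 x ≤ -3 := by
      rw [hρ0]; simp only
      linarith
    have h8 := hρle x h2 (-3) h7 h3
    linarith
  · intro x hx hxN hux
    rw [mem_closedBall_zero_iff] at hx
    have h2 : ‖x‖ < R' := by linarith
    have h3 := hble x hx
    have h4 := hρ0le x (by rwa [mem_ball_zero_iff])
    have h5 := hlN x hxN
    have h6 : ttP û x + ω ^ 2 ≤ (m + 1) * ω ^ 2 := by
      have h7 := ttP_le û x
      have h8 : (m : ℝ) * ‖û x‖ ^ 2 ≤ m * ω ^ 2 := by gcongr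
      linarith
    have hp : 0 < ttP û x + ω ^ 2 := by
      have := ttP_nonneg û x
      positivity
    have h7 : Real.log (ttP û x + ω ^ 2) ≤ Real.log (m + 1) - 2 * L := by
      have h8 := Real.log_le_log hp h6
      rw [Real.log_mul (by positivity) (by positivity), Real.log_pow] at h8
      rw [hLlog]
      push_cast at h8
      linarith
    have h8 := hρle x h2 (-3) (by linarith) h3
    linarith
  · intro x hx hκx
    have h1 := hsub x hx
    have h2 : ‖x‖ < R' := by linarith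
    have h3 := hρge x h2
    have h4 : Λ * d ≤ Λ * (κ x - (s + d)) := mul_le_mul_of_nonneg_left (by linarith) hΛ0
    have h5 := hmuge x
    refine htube x ?_
    rw [hρ0] at h3
    simp only at h3
    linarith
  · intro x hx hκx hκx'
    have h1 := hsub x hx
    have h2 : ‖x‖ < R' := by linarith
    have h3 := hρge x h2
    have h4 : Λ * d ≤ Λ * (κ x - (s + d)) := mul_le_mul_of_nonneg_left (by linarith) hΛ0
    have h6 : h ((1 / d) * (κ x + (-(s + 3 * d)))) = 0 := by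
      refine hh0 _ ?_
      have h7 : 0 ≤ 1 / d := by positivity
      have h8 : κ x + (-(s + 3 * d)) ≤ 0 := by linarith
      exact mul_nonpos_of_nonneg_of_nonpos h7 h8
    rw [hρC]
    rw [hρ0] at h3
    simp only at h3 ⊢
    rw [h6, mul_zero]
    linarith
  · intro x hx hCx
    have h1 := hsub x hx
    have h2 : ‖x‖ < R' := by linarith
    rw [hρC] at hCx
    simp only at hCx
    have h5 := hmuge x
    have h6 : -(2 * L) - |y1| ≤ lam x := by
      have h7 := neg_abs_le y1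
      have h7' := le_abs_self y1
      have h7'' := abs_nonneg y1
      by_cases hxN : x ∈ N
      · rcases hlN2 x hxN with h8 | ⟨h8, -⟩
        · rw [h8]; linarith
        · have h9 : Real.log (ω ^ 2) ≤ Real.log (ttP û x + ω ^ 2) := by
            refine Real.log_le_log (by positivity) ?_
            have := ttP_nonneg û x
            linarith
          rw [Real.log_pow] at h9
          push_cast at h9
          rw [hLlog]
          linarith
      · rw [hlN' x hxN]; linarith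
    have h7 := hhn ((1 / d) * (κ x + (-(s + 3 * d))))
    have h8 : 0 ≤ (4 * L + C1) * h ((1 / d) * (κ x + (-(s + 3 * d)))) := mul_nonneg hB0 h7
    refine ⟨?_, htube x (by linarith)⟩
    by_contra hcon
    push Not at hcon
    have h9 : 1 ≤ (1 / d) * (κ x + (-(s + 3 * d))) := by
      rw [one_div, inv_mul_eq_div, le_div_iff₀ hd]
      linarith
    have h10 := hhl _ h9
    have h11 : (4 * L + C1) * 1 ≤ (4 * L + C1) * h ((1 / d) * (κ x + (-(s + 3 * d)))) :=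
      mul_le_mul_of_nonneg_left h10 hB0
    have h12 : 0 ≤ Λ * d := by positivity
    rw [hC1] at h11 hCx
    linarith
  · intro x hx hxN hux
    have h1 := hmule x hx
    have h2 := hmuge x
    have hp : 0 < ttP û x + ω ^ 2 := by
      have := ttP_nonneg û x
      positivity
    have hlogc : y1 / 2 = Real.log c3 := by rw [hy1, Real.log_pow]; push_cast; ring
    refine ⟨?_, ?_⟩
    · have h3 : ‖û x‖ ≤ c3 * Real.exp (lam x / 2) := by
        rcases hlN2 x hxN with h4 | ⟨h4, -⟩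
        · rw [h4, zero_div, Real.exp_zero, mul_one]; linarith
        · have h5 : Real.sqrt (ttP û x + ω ^ 2) ≤ c3 * Real.exp (lam x / 2) := by
            have h6 : Real.log (Real.sqrt (ttP û x + ω ^ 2)) ≤ Real.log c3 + lam x / 2 := by
              rw [Real.log_sqrt hp.le]
              linarith
            have h7 := Real.exp_le_exp.2 h6
            rwa [Real.exp_log (Real.sqrt_pos.2 hp), Real.exp_add, Real.exp_log hc3] at h7
          refine le_trans ?_ h5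
          refine Real.le_sqrt_of_sq_le ?_
          have := ttP_ge û x
          have : 0 < ω ^ 2 := by positivity
          linarith
      have h4 : Real.exp (lam x / 2) ≤ Real.exp (MR / 2) * Real.exp ((mu x + -MR) / 2) := by
        rw [← Real.exp_add]
        refine Real.exp_le_exp.2 ?_
        linarith
      calc ‖û x‖ ≤ c3 * Real.exp (lam x / 2) := h3
        _ ≤ c3 * (Real.exp (MR / 2) * Real.exp ((mu x + -MR) / 2)) :=
          mul_le_mul_of_nonneg_left h4 hc3.le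
        _ = c3 * Real.exp (MR / 2) * Real.exp ((mu x + -MR) / 2) := by ring
        _ ≤ C * Real.exp ((mu x + -MR) / 2) :=
          mul_le_mul_of_nonneg_right hCf (Real.exp_pos _).le
    · have h3 : Real.exp ((mu x + -MR) / 2) ≤ Real.exp (1 / 2) / c3 * Real.sqrt (ttP û x + ω ^ 2) := by
        have h4 : (mu x + -MR) / 2 ≤ 1 / 2 + (Real.log (Real.sqrt (ttP û x + ω ^ 2)) - Real.log c3) := by
          have h5 := hlN x hxN
          rw [Real.log_sqrt hp.le]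
          linarith
        have h5 := Real.exp_le_exp.2 h4
        rw [Real.exp_add, Real.exp_sub, Real.exp_log (Real.sqrt_pos.2 hp), Real.exp_log hc3] at h5
        refine h5.trans (le_of_eq ?_)
        ring
      have h4 : Real.sqrt (ttP û x + ω ^ 2) ≤ (m + 1) * (‖û x‖ + ω) := by
        rw [Real.sqrt_le_left (by positivity)]
        have h5 := ttP_le û x
        have h6 : (0 : ℝ) ≤ m := Nat.cast_nonneg m
        have h7 := norm_nonneg (û x)
        have h8 : 0 ≤ (m : ℝ) * ‖û x‖ := by positivity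
        have h9 : (m : ℝ) * ‖û x‖ ^ 2 + ω ^ 2 ≤ (m + 1) ^ 2 * (‖û x‖ ^ 2 + ω ^ 2) := by
          have h10 : 0 ≤ ((m : ℝ) + 1) ^ 2 - m := by nlinarith only [h6]
          have h11 : 0 ≤ ((m : ℝ) + 1) ^ 2 - 1 := by nlinarith only [h6]
          nlinarith only [mul_nonneg h10 (sq_nonneg ‖û x‖), mul_nonneg h11 (sq_nonneg ω)]
        have h10 : ‖û x‖ ^ 2 + ω ^ 2 ≤ (‖û x‖ + ω) ^ 2 := by
          nlinarith only [mul_nonneg h7 hωpos.le]
        calc ttP û x + ω ^ 2 ≤ (m : ℝ) * ‖û x‖ ^ 2 + ω ^ 2 := by linarith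
          _ ≤ (m + 1) ^ 2 * (‖û x‖ ^ 2 + ω ^ 2) := h9
          _ ≤ (m + 1) ^ 2 * (‖û x‖ + ω) ^ 2 := mul_le_mul_of_nonneg_left h10 (by positivity)
          _ = _ := by ring
      calc Real.exp ((mu x + -MR) / 2) ≤ Real.exp (1 / 2) / c3 * Real.sqrt (ttP û x + ω ^ 2) := h3
        _ ≤ Real.exp (1 / 2) / c3 * ((m + 1) * (‖û x‖ + ω)) :=
          mul_le_mul_of_nonneg_left h4 (by positivity)
        _ = (m + 1) * (Real.exp (1 / 2) / c3) * (‖û x‖ + ω) := by ring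
        _ ≤ C * (‖û x‖ + ω) := mul_le_mul_of_nonneg_right hCg (by positivity)

end OkaP
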