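import Pool.Agent.H.MP_ceb9a9.TubeDefs
import Pool.Agent.H.MP_ceb9a9.TTPsh
import Pool.Agent.H.MP_ceb9a9.EtD

/-!
# MP_ceb9a9: thin tube gluing
-/

set_option autoImplicit false

open scoped Manifold

namespace OkaP

open Set Metric Topology

/-- the error tends to zero with the width of the tube. -/
theorem ttGlue_tendsto (K : ℝ) {c' : ℝ} (hc' : 0 < c') (q : ℕ) :
    Filter.Tendsto (fun ω : ℝ => K * (ω ^ c') ^ 2 * (Real.log (1 / ω)) ^ q) (𝓝[>] (0 : ℝ))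
      (𝓝 0) := by
  have h1 : Filter.Tendsto (fun y : ℝ => y ^ q / Real.exp (2 * c' * y)) Filter.atTop (𝓝 0) :=
    (isLittleO_pow_exp_pos_mul_atTop q (by positivity : 0 < 2 * c')).tendsto_div_nhds_zero
  have h2 : Filter.Tendsto (fun ω : ℝ => -Real.log ω) (𝓝[>] (0 : ℝ)) Filter.atTop :=
    Filter.tendsto_neg_atBot_atTop.comp Real.tendsto_log_nhdsGT_zero
  have h3 := (h1.comp h2).const_mul K
  rw [mul_zero] at h3
  refine h3.congr' ?_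
  filter_upwards [self_mem_nhdsWithin] with ω hω
  have hω0 : 0 < ω := hω
  have h4 : Real.log (1 / ω) = -Real.log ω := by rw [one_div, Real.log_inv]
  have h5 : (ω ^ c') ^ 2 = (Real.exp (2 * c' * (-Real.log ω)))⁻¹ := by
    rw [Real.rpow_def_of_pos hω0, ← Real.exp_nat_mul, ← Real.exp_neg]
    congr 1
    push_cast
    ring
  show K * ((-Real.log ω) ^ q / Real.exp (2 * c' * (-Real.log ω))) = _
  rw [h4, h5, div_eq_mul_inv]
  ring

theorem ttGlue_tendsto' (K : ℝ) {c' : ℝ} (hc' : 0 < c') :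
    Filter.Tendsto (fun ω : ℝ => K * ω ^ c') (𝓝[>] (0 : ℝ)) (𝓝 0) := by
  have h1 : Filter.Tendsto (fun ω : ℝ => ω ^ c') (𝓝[>] (0 : ℝ)) (𝓝 0) := by
    have h2 : ContinuousAt (fun ω : ℝ => ω ^ c') 0 :=
      Real.continuousAt_rpow_const _ _ (Or.inr hc'.le)
    have h3 : Filter.Tendsto (fun ω : ℝ => ω ^ c') (𝓝 (0 : ℝ)) (𝓝 0) := by
      have h4 := h2.tendsto
      rwa [Real.zero_rpow hc'.ne'] at h4
    exact h3.mono_left nhdsWithin_le_nhds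
  have h2 := h1.const_mul K
  rwa [mul_zero] at h2

/-- choice of the width of the tube. -/
theorem ttGlue_omega {ω0 : ℝ} (hω0 : 0 < ω0) (K C1 : ℝ) {c' : ℝ} (hc' : 0 < c') (q : ℕ)
    {b1 b2 : ℝ} (hb1 : 0 < b1) (hb2 : 0 < b2) :
    ∃ ω : ℝ, ω ∈ Ioo (0 : ℝ) ω0 ∧ 1 ≤ Real.log (1 / ω) ∧ C1 * ω ^ c' ≤ b1 ∧
      K * (ω ^ c') ^ 2 * (Real.log (1 / ω)) ^ q ≤ b2 := by
  have h1 : ∀ᶠ ω in 𝓝[>] (0 : ℝ), ω ∈ Ioo (0 : ℝ) ω0 := Ioo_mem_nhdsGT hω0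
  have h2 : ∀ᶠ ω in 𝓝[>] (0 : ℝ), 1 ≤ Real.log (1 / ω) := by
    have h3 : Filter.Tendsto (fun ω : ℝ => -Real.log ω) (𝓝[>] (0 : ℝ)) Filter.atTop :=
      Filter.tendsto_neg_atBot_atTop.comp Real.tendsto_log_nhdsGT_zero
    filter_upwards [h3.eventually_ge_atTop 1] with ω hω
    rw [one_div, Real.log_inv]
    exact hω
  have h3 : ∀ᶠ ω in 𝓝[>] (0 : ℝ), C1 * ω ^ c' < b1 :=
    (ttGlue_tendsto' C1 hc').eventually_lt_const hb1
  have h4 : ∀ᶠ ω in 𝓝[>] (0 : ℝ), K * (ω ^ c') ^ 2 * (Real.log (1 / ω)) ^ q < b2 :=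
    (ttGlue_tendsto K hc' q).eventually_lt_const hb2
  obtain ⟨ω, h5, h6, h7, h8⟩ := (h1.and (h2.and (h3.and h4))).exists
  exact ⟨ω, h5, h6, h7.le, h8.le⟩

/-- the cut-off function between `{κ ≤ s + 2 d}` and `{s + 3 d ≤ κ}`. -/
theorem ttGlue_chi {E : Type} [NormedAddCommGroup E] [NormedSpace ℂ E] {κ : E → ℝ}
    (hκ : Psh κ) {s d : ℝ} (hd : 0 < d) :
    ∃ χ : E → ℝ, ContDiff ℝ ((⊤ : ℕ∞) : WithTop ℕ∞) χ ∧ (∀ x, χ x ∈ Icc (0 : ℝ) 1) ∧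
      (∀ x, κ x < s + 2 * d → x ∈ interior {x | χ x = 0}) ∧
      (∀ x, s + 3 * d < κ x → x ∈ interior {x | χ x = 1}) ∧
      (∀ x, χ x = 0 → κ x ≤ s + 2 * d) ∧ (∀ x, χ x = 1 → s + 3 * d ≤ κ x) := by
  have hκc : Continuous κ := hκ.smooth.continuous
  refine ⟨fun x => Real.smoothTransition ((κ x - (s + 2 * d)) / d), ?_, ?_, ?_, ?_, ?_, ?_⟩
  · exact Real.smoothTransition.contDiff.comp ((hκ.smooth.sub contDiff_const).div_const d)
  · intro x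
    exact ⟨Real.smoothTransition.nonneg _, Real.smoothTransition.le_one _⟩
  · intro x hx
    refine interior_maximal ?_ (isOpen_lt hκc continuous_const) hx
    intro y hy
    have hy' : κ y < s + 2 * d := hy
    show Real.smoothTransition ((κ y - (s + 2 * d)) / d) = 0
    rw [Real.smoothTransition.zero_iff_nonpos]
    exact div_nonpos_of_nonpos_of_nonneg (by linarith) hd.le
  · intro x hx
    refine interior_maximal ?_ (isOpen_lt continuous_const hκc) hx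
    intro y hy
    have hy' : s + 3 * d < κ y := hy
    show Real.smoothTransition ((κ y - (s + 2 * d)) / d) = 1
    refine Real.smoothTransition.one_of_one_le ?_
    rw [le_div_iff₀ hd]
    linarith
  · intro x hx
    have h1 : (κ x - (s + 2 * d)) / d ≤ 0 := Real.smoothTransition.zero_iff_nonpos.1 hx
    have h2 : κ x - (s + 2 * d) ≤ 0 := by
      by_contra h3
      rw [not_le] at h3
      have := div_pos h3 hd
      linarith
    linarith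
  · intro x hx
    by_contra h1
    rw [not_le] at h1
    have h2 : (κ x - (s + 2 * d)) / d < 1 := by
      rw [div_lt_one hd]
      linarith
    have h3 := Real.smoothTransition.lt_one_of_lt_one h2
    have h4 : Real.smoothTransition ((κ x - (s + 2 * d)) / d) = 1 := hx
    linarith

/-- solving `g (x, w) = y` in a fibre. -/
theorem ttGlue_solve {m : ℕ} {X : Type} [MetricSpace X] [ChartedSpace (Fin m → ℂ) X]
    [IsManifold 𝓘(ℂ, Fin m → ℂ) ⊤ X] {T : Type} [TopologicalSpace T]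
    {Φ1 Φ2 : T × (Fin m → ℂ) → X} {S : Set T} {r' r : ℝ} (hr' : 0 < r') (h1 : EtCont Φ1 S r')
    (h2 : EtCont Φ2 S r) {g : T × (Fin m → ℂ) → (Fin m → ℂ)}
    (hg : ∀ x ∈ S, ∀ u ∈ ball (0 : Fin m → ℂ) r', g (x, u) ∈ ball (0 : Fin m → ℂ) r ∧
        Φ2 (x, g (x, u)) = Φ1 (x, u)) {x : T} (hx : x ∈ S) {δ : ℝ} (hδ : 0 ≤ δ)
    (hδr : δ ≤ r' / 8) (hn : ∀ u ∈ ball (0 : Fin m → ℂ) r', ‖g (x, u) - u‖ ≤ δ)
    {y : Fin m → ℂ} (hy : y ∈ ball (0 : Fin m → ℂ) (r' / 2 - δ)) :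
    ∃ w ∈ ball (0 : Fin m → ℂ) (r' / 2), g (x, w) = y ∧ ‖w - y‖ ≤ δ ∧ Φ1 (x, w) = Φ2 (x, y) := by
  have h3 : EtCont g S r' := etD_coord_etCont h1 h2 hg
  have h4 : DifferentiableOn ℂ (fun u => g (x, u)) (ball (0 : Fin m → ℂ) r') :=
    mdifferentiableOn_iff_differentiableOn.1 (h3.fib x hx)
  obtain ⟨w, hw, h5, h6⟩ := (near_id (f := fun u => g (x, u)) hr' hδ hδr h4 hn).2.2.2 y hy
  refine ⟨w, hw, h5, h6, ?_⟩
  have h7 := (hg x hx w (ball_subset_ball (by linarith) hw)).2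
  have h8 : g (x, w) = y := h5
  rw [← h7, h8]

/-- avoiding a point near the zero section over a compact set. -/
theorem ttGlue_avoid {m : ℕ} {X : Type} [MetricSpace X] [ChartedSpace (Fin m → ℂ) X]
    {T : Type} [TopologicalSpace T] {Φ : T × (Fin m → ℂ) → X} {Q : Set T} {r : ℝ}
    (h : EtCont Φ Q r) (hr : 0 < r) (hQ : IsCompact Q) {p : X} (hp : ∀ x ∈ Q, Φ (x, 0) ≠ p) :
    ∃ c > 0, ∀ x ∈ Q, ∀ v ∈ ball (0 : Fin m → ℂ) c, Φ (x, v) ≠ p := by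
  rcases Q.eq_empty_or_nonempty with he | hne
  · refine ⟨r, hr, fun x hx => ?_⟩
    rw [he] at hx
    exact absurd hx (notMem_empty x)
  · have hcont : ContinuousOn (fun x => Φ (x, 0)) Q := by
      refine h.cont.comp (continuous_id.prodMk continuous_const).continuousOn ?_
      intro x hx
      exact ⟨hx, mem_ball_self hr⟩
    have hcont2 : ContinuousOn (fun x => dist (Φ (x, 0)) p) Q :=
      (continuous_id.dist continuous_const).comp_continuousOn hcont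
    obtain ⟨x0, hx0, hmin⟩ := hQ.exists_isMinOn hne hcont2
    have hpos : 0 < dist (Φ (x0, 0)) p := dist_pos.2 (hp x0 hx0)
    obtain ⟨r5, hr5, -, hr5d⟩ := etD_uniform_radius h hr hQ hpos
    refine ⟨r5, hr5, fun x hx v hv hv' => ?_⟩
    have h1 := hr5d x hx v hv
    rw [hv'] at h1
    have h2 : dist (Φ (x0, 0)) p ≤ dist (Φ (x, 0)) p := hmin hx
    linarith

/-- the weighted splitting over the thin tube. -/
theorem ttGlue_split {m : ℕ} {X : Type} [MetricSpace X] [ChartedSpace (Fin m → ℂ) X]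
    [IsManifold 𝓘(ℂ, Fin m → ℂ) ⊤ X] {p : X} {E : Type}
    [NormedAddCommGroup E] [InnerProductSpace ℂ E] [FiniteDimensional ℂ E]
    {κ : E → ℝ} (hκ : Psh κ) {s d : ℝ} (hd : 0 < d) {R1 R' : ℝ} (hR1 : 0 < R1) (hRR' : R1 < R')
    (hκR : {x | κ x ≤ s + 5 * d} ⊆ ball (0 : E) R1)
    (D : TubeData m p κ s d R' (ngN E m + 2)) {Cp a c3' : ℝ} (hCp : 0 < Cp)
    (hapos : 0 < a) (ha : a = D.r' / 4) (hc3' : 0 < c3') (hc3a : c3' ≤ D.c3)
    (hT' : IsCompact {x | x ∈ closedBall (0 : E) R' ∧ x ∈ D.N ∧ ‖D.û x‖ ≤ c3'})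
    (hrel : ∀ x ∈ closedBall (0 : E) R', x ∈ D.N → ‖D.û x‖ ≤ c3' →
      ∀ t ∈ ball (0 : Fin m → ℂ) D.r', ‖D.g (x, t) - t‖ ≤ Cp * ‖D.û x‖ ^ (ngN E m + 2)) :
    ∃ C1 : ℝ, 1 ≤ C1 ∧ ∀ b1 b2 : ℝ, 0 < b1 → b1 ≤ c3' / 2 → 0 < b2 → b2 ≤ 1 →
      ∃ (ω e : ℝ) (ρ W : E → ℝ) (OA OB : Set E) (α β : E × (Fin m → ℂ) → (Fin m → ℂ)),
        0 < ω ∧ 0 ≤ e ∧ e ≤ b2 ∧ SPshOn ρ univ ∧ Continuous ρ ∧
        (∀ x, ρ x ≤ 1 → x ∈ ball (0 : E) R') ∧ (∀ x, κ x ≤ s → ρ x < -1) ∧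
        (∀ x ∈ closedBall (0 : E) R1, x ∈ D.N → ‖D.û x‖ ≤ ω → ρ x < -1) ∧
        IsOpen OA ∧ IsOpen OB ∧ {x | ρ x < 1 / 2} = OA ∪ OB ∧
        (∀ x ∈ OA, κ x ≤ s + 4 * d) ∧ (∀ x ∈ OB, x ∈ D.N ∧ ‖D.û x‖ ≤ b1) ∧
        (∀ x, ρ x < 1 / 2 → κ x ≤ s → x ∈ OA) ∧
        DifferentiableOn ℂ α (OA ×ˢ ball (0 : Fin m → ℂ) (1 / 2)) ∧
        DifferentiableOn ℂ β (OB ×ˢ ball (0 : Fin m → ℂ) (1 / 2)) ∧
        (∀ x ∈ OA, ∀ t ∈ ball (0 : Fin m → ℂ) (1 / 2), ‖α (x, t) - t‖ ≤ e * Real.exp (W x)) ∧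
        (∀ x ∈ OB, ∀ t ∈ ball (0 : Fin m → ℂ) (1 / 2), ‖β (x, t) - t‖ ≤ e * Real.exp (W x)) ∧
        (∀ x ∈ ball (0 : E) R', W x ≤ 0) ∧
        (∀ x, x ∈ OA → x ∈ OB → ∀ t ∈ ball (0 : Fin m → ℂ) (1 / 2),
          (a : ℂ) • β (x, t) = D.g (x, (a : ℂ) • α (x, t))) ∧
        (∀ x ∈ ball (0 : E) R', x ∈ D.N → ‖D.û x‖ ≤ c3' / 2 →
          Real.exp (W x / 2) ≤ C1 * (‖D.û x‖ + ω)) := by
  have hprop : ProperSpace E := FiniteDimensional.proper ℂ E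
  obtain ⟨R, hR1R, hRR⟩ : ∃ R : ℝ, R1 < R ∧ R < R' :=
    ⟨(R1 + R') / 2, by linarith, by linarith⟩
  obtain ⟨q, c, hc, hng⟩ := (ngW E m).choose_spec R R' hRR
  have hNgeq : (ngW E m).choose = ngN E m := rfl
  rw [hNgeq] at hng
  have hr'pos := D.r'_pos
  have hac : (a : ℂ) ≠ 0 := by exact_mod_cast hapos.ne'
  have han : ‖(a : ℂ)‖ = a := by rw [Complex.norm_real, Real.norm_eq_abs, abs_of_pos hapos]
  obtain ⟨C1, hC1, c', hc', ω0, hω0, htt⟩ := tt_psh hκ hd hR1 hR1R hRR hκR D.N_open D.û_hol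
    hc3' hT'
  have hC1pos : 0 < C1 := one_pos.trans_le hC1
  obtain ⟨χ, hχs, hχI, hχ0, hχ1, hχ0', hχ1'⟩ := ttGlue_chi hκ (s := s) hd
  obtain ⟨Bχ, hBχ⟩ := (isCompact_closedBall (0 : E) R').exists_bound_of_continuousOn
    (f := fderiv ℝ χ) ((hχs.continuous_fderiv (by simp)).continuousOn)
  obtain ⟨K1, hK1, hK1C, hK1B⟩ : ∃ K1 : ℝ, 1 ≤ K1 ∧ C1 ≤ K1 ∧ Bχ ≤ K1 :=
    ⟨max C1 Bχ, hC1.trans (le_max_left _ _), le_max_left _ _, le_max_right _ _⟩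
  refine ⟨C1, hC1, ?_⟩
  intro b1 b2 hb1 hb1a hb2 hb2a
  obtain ⟨ω, hω, hL1, hωb1, hωb2⟩ := ttGlue_omega hω0.1
    (Cp / a * C1 ^ 2 * C1 ^ ngN E m * K1 ^ q / c) C1 hc' q hb1 hb2
  have hωpos : 0 < ω := hω.1
  obtain ⟨L, hLdef⟩ : ∃ L : ℝ, L = Real.log (1 / ω) := ⟨_, rfl⟩
  rw [← hLdef] at hL1 hωb2
  obtain ⟨δ, hδdef⟩ : ∃ δ : ℝ, δ = Cp / a * (C1 * ω ^ c') ^ 2 * C1 ^ ngN E m := ⟨_, rfl⟩
  have hδ0 : 0 ≤ δ := by rw [hδdef]; positivity
  obtain ⟨e, hedef⟩ : ∃ e : ℝ, e = δ * (K1 * L) ^ q / c := ⟨_, rfl⟩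
  have hK1L1 : 1 ≤ K1 * L := one_le_mul_of_one_le_of_one_le hK1 hL1
  have he0 : 0 ≤ e := by
    rw [hedef]
    have := zero_le_one.trans hK1L1
    positivity
  have heb : e ≤ b2 := by
    refine le_trans (le_of_eq ?_) hωb2
    rw [hedef, hδdef]
    rw [mul_pow, mul_pow]
    ring
  obtain ⟨ρ, ρC, W, hρ, hρs, hρR, hρC, hW, hW0, hdρ, hdρC, hdW, hp1, hp2, hp3, hp4, hp5, hp6⟩ :=
    htt ω hω
  clear htt hωb2
  rw [← hLdef] at hdρ hdρC
  have hρc : Continuous ρ := hρ.smooth.continuous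
  have hL0 : 0 ≤ L := zero_le_one.trans hL1
  have hC1Λ : C1 ≤ K1 * L := hK1C.trans (le_mul_of_one_le_right (zero_le_one.trans hK1) hL1)
  have hC1LΛ : C1 * L ≤ K1 * L := mul_le_mul_of_nonneg_right hK1C hL0
  have hball : ∀ x, ρ x ≤ 1 → x ∈ ball (0 : E) R' := fun x hx =>
    closedBall_subset_ball hRR (hρR hx)
  have hinter : ∀ x, ρ x ≤ 1 → x ∉ interior {x | χ x = 0} → x ∉ interior {x | χ x = 1} →
      ρC x ≤ 0 := by
    intro x hx h0 h1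
    refine hp4 x hx ?_ ?_
    · by_contra h2
      exact h0 (hχ0 x (not_le.1 h2))
    · by_contra h2
      exact h1 (hχ1 x (not_le.1 h2))
  have h12 : (1 / 2 : ℝ) ≤ 1 := by norm_num
  -- openness
  have hoC : ∀ b : ℝ, IsOpen {x | ρ x < b ∧ ρC x < b ∧ x ∈ ball (0 : E) R'} := by
    intro b
    have h1 : IsOpen (ball (0 : E) R' ∩ ρC ⁻¹' Iio b) :=
      hρC.smooth.continuousOn.isOpen_inter_preimage isOpen_ball isOpen_Iio
    have h2 : {x | ρ x < b ∧ ρC x < b ∧ x ∈ ball (0 : E) R'} =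
        {x | ρ x < b} ∩ (ball (0 : E) R' ∩ ρC ⁻¹' Iio b) := by
      ext x
      constructor
      · rintro ⟨h3, h4, h5⟩
        exact ⟨h3, h5, h4⟩
      · rintro ⟨h3, h5, h4⟩
        exact ⟨h3, h4, h5⟩
    rw [h2]
    exact (isOpen_lt hρc continuous_const).inter h1
  have hV1 : IsOpen {x | ρ x < 1 ∧ ρC x < 1} := by
    have h1 := hoC 1
    convert h1 using 1
    ext x
    constructor
    · rintro ⟨h3, h4⟩
      exact ⟨h3, h4, hball x h3.le⟩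
    · rintro ⟨h3, h4, -⟩
      exact ⟨h3, h4⟩
  have hVN : ∀ x, ρ x < 1 → ρC x < 1 → x ∈ closedBall (0 : E) R' ∧ x ∈ D.N ∧ ‖D.û x‖ ≤ b1 ∧
      ‖D.û x‖ ≤ C1 * ω ^ c' ∧ x ∈ D.UK := by
    intro x h1 h2
    obtain ⟨h3, h4, h5⟩ := hp5 x h1.le h2.le
    refine ⟨ball_subset_closedBall (hball x h1.le), h4, h5.trans hωb1, h5, D.UK_sub ?_⟩
    show κ x ≤ s + 5 * d
    linarith only [h3, hd]
  have hb1c : b1 ≤ c3' := by linarith only [hb1a, hc3']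
  -- the transition map
  set γ : E × (Fin m → ℂ) → (Fin m → ℂ) := fun x => (a : ℂ)⁻¹ • D.g (x.1, (a : ℂ) • x.2) with hγ
  have hat : ∀ t : Fin m → ℂ, ‖t‖ < 1 → (a : ℂ) • t ∈ ball (0 : Fin m → ℂ) D.r' := by
    intro t ht
    rw [mem_ball_zero_iff, norm_smul, han]
    calc a * ‖t‖ ≤ a * 1 := mul_le_mul_of_nonneg_left ht.le hapos.le
      _ < D.r' := by linarith only [ha, hapos]
  have hγd : DifferentiableOn ℂ γ ({x | ρ x < 1 ∧ ρC x < 1} ×ˢ ball (0 : Fin m → ℂ) 1) := by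
    have hmul : Differentiable ℂ (fun x : E × (Fin m → ℂ) => (x.1, (a : ℂ) • x.2)) :=
      differentiable_fst.prodMk (differentiable_snd.const_smul (a : ℂ))
    have hmaps : MapsTo (fun x : E × (Fin m → ℂ) => (x.1, (a : ℂ) • x.2))
        ({x | ρ x < 1 ∧ ρC x < 1} ×ˢ ball (0 : Fin m → ℂ) 1)
        (D.UK ×ˢ ball (0 : Fin m → ℂ) D.r) := by
      rintro ⟨x, t⟩ ⟨⟨h1, h2⟩, ht⟩
      exact ⟨(hVN x h1 h2).2.2.2.2, ball_subset_ball D.r'_le (hat t (mem_ball_zero_iff.1 ht))⟩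
    have h1 : DifferentiableOn ℂ (fun x : E × (Fin m → ℂ) => D.g (x.1, (a : ℂ) • x.2))
        ({x | ρ x < 1 ∧ ρC x < 1} ×ˢ ball (0 : Fin m → ℂ) 1) := by
      refine EtHol.coord_hol (a := Prod.fst)
        (g := fun x : E × (Fin m → ℂ) => D.𝒢 (x.1, (a : ℂ) • x.2)) D.N_open D.holB
        (hV1.prod isOpen_ball) differentiable_fst.differentiableOn
        (D.holK.hol.comp hmul.differentiableOn hmaps) ?_ ?_ ?_
      · rintro ⟨x, t⟩ ⟨⟨h1, h2⟩, ht⟩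
        exact (hVN x h1 h2).2.1
      · rintro ⟨x, t⟩ ⟨⟨h1, h2⟩, ht⟩
        obtain ⟨h3, h4, h5, -, -⟩ := hVN x h1 h2
        exact (D.rel x h3 h4 ((h5.trans hb1c).trans hc3a) _ (hat t (mem_ball_zero_iff.1 ht))).1
      · rintro ⟨x, t⟩ ⟨⟨h1, h2⟩, ht⟩
        obtain ⟨h3, h4, h5, -, -⟩ := hVN x h1 h2
        exact (D.rel x h3 h4 ((h5.trans hb1c).trans hc3a) _ (hat t (mem_ball_zero_iff.1 ht))).2.1
    exact h1.const_smul ((a : ℂ)⁻¹)
  have hγn : ∀ x, ρ x < 1 → ρC x < 1 → ∀ t ∈ ball (0 : Fin m → ℂ) 1,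
      ‖γ (x, t) - t‖ ≤ δ * Real.exp (W x / 2) ^ ngN E m := by
    intro x h1 h2 t ht
    obtain ⟨h3, h4, h5, h6, -⟩ := hVN x h1 h2
    have ht1 : ‖t‖ < 1 := mem_ball_zero_iff.1 ht
    have h7 : γ (x, t) - t = (a : ℂ)⁻¹ • (D.g (x, (a : ℂ) • t) - (a : ℂ) • t) := by
      rw [smul_sub, smul_smul, inv_mul_cancel₀ hac, one_smul]
    have h8 := hrel x h3 h4 (h5.trans hb1c) ((a : ℂ) • t) (hat t ht1)
    have h9 : ‖D.û x‖ ≤ C1 * Real.exp (W x / 2) :=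
      (hp6 x (hball x h1.le) h4 (h5.trans hb1a)).1
    rw [h7, norm_smul, norm_inv, han]
    have h10 : ‖D.û x‖ ^ (ngN E m + 2) ≤
        (C1 * ω ^ c') ^ 2 * (C1 * Real.exp (W x / 2)) ^ ngN E m := by
      have h11 : ‖D.û x‖ ^ (ngN E m + 2) = ‖D.û x‖ ^ 2 * ‖D.û x‖ ^ ngN E m := by
        rw [pow_add, mul_comm]
      rw [h11]
      exact mul_le_mul (pow_le_pow_left₀ (norm_nonneg _) h6 2)
        (pow_le_pow_left₀ (norm_nonneg _) h9 _) (by positivity) (by positivity)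
    calc a⁻¹ * ‖D.g (x, (a : ℂ) • t) - (a : ℂ) • t‖
        ≤ a⁻¹ * (Cp * ‖D.û x‖ ^ (ngN E m + 2)) :=
          mul_le_mul_of_nonneg_left h8 (inv_nonneg.2 hapos.le)
      _ ≤ a⁻¹ * (Cp * ((C1 * ω ^ c') ^ 2 * (C1 * Real.exp (W x / 2)) ^ ngN E m)) :=
          mul_le_mul_of_nonneg_left (mul_le_mul_of_nonneg_left h10 hCp.le)
            (inv_nonneg.2 hapos.le)
      _ = δ * Real.exp (W x / 2) ^ ngN E m := by
          rw [hδdef, mul_pow C1 (Real.exp (W x / 2))]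
          ring
  obtain ⟨α, β, hαd, hβd, hαn, hβn, hαβ⟩ := hng (K1 * L) ρ ρC W χ hK1L1 hρ hρR hρC hW hW0 hχs hχI
    (fun x hx => (hdρ x hx).trans (mul_le_mul_of_nonneg_right hC1LΛ (Real.exp_pos _).le))
    (fun x hx => (hdρC x hx).trans (mul_le_mul_of_nonneg_right hC1LΛ (Real.exp_pos _).le))
    (fun x hx => (hdW x hx).trans hC1Λ)
    (fun x hx => (hBχ x (ball_subset_closedBall hx)).trans
      (hK1B.trans (le_mul_of_one_le_right (zero_le_one.trans hK1) hL1))) hinter γ δ hδ0 (by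
        have h1 : e ≤ 1 := heb.trans hb2a
        rw [hedef, div_le_one hc] at h1
        exact h1) hγd hγn
  rw [← hedef] at hαn hβn
  clear hng
  have hopiece : ∀ A : Set E, IsOpen A → IsOpen {x | ρ x < 1 / 2 ∧ (x ∈ A ∨ ρC x < 1 / 2)} := by
    intro A hA
    have h1 : {x | ρ x < 1 / 2 ∧ (x ∈ A ∨ ρC x < 1 / 2)} =
        ({x | ρ x < 1 / 2} ∩ A) ∪ {x | ρ x < 1 / 2 ∧ ρC x < 1 / 2 ∧ x ∈ ball (0 : E) R'} := by
      ext x
      constructor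
      · rintro ⟨h3, h4 | h4⟩
        · exact Or.inl ⟨h3, h4⟩
        · exact Or.inr ⟨h3, h4, hball x (h3.le.trans h12)⟩
      · rintro (⟨h3, h4⟩ | ⟨h3, h4, -⟩)
        · exact ⟨h3, Or.inl h4⟩
        · exact ⟨h3, Or.inr h4⟩
    rw [h1]
    exact ((isOpen_lt hρc continuous_const).inter hA).union (hoC (1 / 2))
  refine ⟨ω, e, ρ, W, {x | ρ x < 1 / 2 ∧ (x ∈ interior {x | χ x = 0} ∨ ρC x < 1 / 2)},
    {x | ρ x < 1 / 2 ∧ (x ∈ interior {x | χ x = 1} ∨ ρC x < 1 / 2)}, α, β, hωpos, he0, heb, hρs,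
    hρc, hball, hp1, hp2, hopiece _ isOpen_interior, hopiece _ isOpen_interior, ?_, ?_, ?_, ?_,
    hαd, hβd, fun x hx t ht => hαn x hx.1 hx.2 t ht, fun x hx t ht => hβn x hx.1 hx.2 t ht, hW0,
    ?_, fun x hx hxN hxu => (hp6 x hx hxN hxu).2⟩
  · ext x
    constructor
    · intro hx
      have hx' : ρ x < 1 / 2 := hx
      by_cases h0 : x ∈ interior {x | χ x = 0}
      · exact Or.inl ⟨hx', Or.inl h0⟩
      · by_cases h1 : x ∈ interior {x | χ x = 1}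
        · exact Or.inr ⟨hx', Or.inl h1⟩
        · have := hinter x (hx'.le.trans h12) h0 h1
          exact Or.inl ⟨hx', Or.inr (by linarith only [this])⟩
    · rintro (hx | hx)
      · exact hx.1
      · exact hx.1
  · rintro x ⟨h1, h2 | h2⟩
    · have h3 : x ∈ {x | χ x = 0} := interior_subset h2
      have := hχ0' x h3
      linarith only [this, hd]
    · exact (hp5 x (h1.le.trans h12) (h2.le.trans h12)).1
  · rintro x ⟨h1, h2 | h2⟩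
    · have h3 : x ∈ {x | χ x = 1} := interior_subset h2
      have h4 := hχ1' x h3
      obtain ⟨h5, h6⟩ := hp3 x (h1.le.trans h12) (by linarith only [h4, hd])
      exact ⟨h5, h6.trans hωb1⟩
    · obtain ⟨-, h5, h6⟩ := hp5 x (h1.le.trans h12) (h2.le.trans h12)
      exact ⟨h5, h6.trans hωb1⟩
  · intro x hx hxs
    exact ⟨hx, Or.inl (hχ0 x (by linarith only [hxs, hd]))⟩
  · intro x hxA hxB t ht
    have h1 : ρC x < 1 / 2 := by
      rcases hxA.2 with h2 | h2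
      · rcases hxB.2 with h3 | h3
        · have h4 : x ∈ {x | χ x = 0} := interior_subset h2
          have h5 : x ∈ {x | χ x = 1} := interior_subset h3
          have h6 : χ x = 0 := h4
          have h7 : χ x = 1 := h5
          rw [h6] at h7
          exact absurd h7 (by norm_num)
        · exact h3
      · exact h2
    rw [← hαβ x hxA.1 h1 t ht]
    show (a : ℂ) • ((a : ℂ)⁻¹ • D.g (x, (a : ℂ) • α (x, t))) = _
    rw [smul_smul, mul_inv_cancel₀ hac, one_smul]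

/-- gluing of the two families. -/
theorem ttGlue_fam {m : ℕ} {X : Type} [MetricSpace X] [ChartedSpace (Fin m → ℂ) X]
    [IsManifold 𝓘(ℂ, Fin m → ℂ) ⊤ X] {p : X} {E : Type}
    [NormedAddCommGroup E] [NormedSpace ℂ E] [FiniteDimensional ℂ E]
    {κ : E → ℝ} {s d R' : ℝ} {k2 : ℕ} (D : TubeData m p κ s d R' k2)
    {Cp a c3' b1 e : ℝ} (hCp : 0 < Cp)
    (hapos : 0 < a) (ha : a = D.r' / 4) (hc3a : c3' ≤ D.c3)
    (hrel : ∀ x ∈ closedBall (0 : E) R', x ∈ D.N → ‖D.û x‖ ≤ c3' →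
      ∀ t ∈ ball (0 : Fin m → ℂ) D.r', ‖D.g (x, t) - t‖ ≤ Cp * ‖D.û x‖ ^ k2)
    (he : 0 ≤ e) (he64 : e ≤ 1 / 64) {w : E → ℝ} {OA OB : Set E}
    {α β : E × (Fin m → ℂ) → (Fin m → ℂ)} (hOAo : IsOpen OA) (hOBo : IsOpen OB)
    (hOR : ∀ x ∈ OA ∪ OB, x ∈ closedBall (0 : E) R') (hw : ∀ x ∈ OA ∪ OB, w x ≤ 1)
    (hOAUK : OA ⊆ D.UK) (hb1c : b1 ≤ c3')
    (hOBN : ∀ x ∈ OB, x ∈ D.N ∧ ‖D.û x‖ ≤ b1)
    (hOBu : ∀ x ∈ OB, Cp * ‖D.û x‖ ^ k2 ≤ a / 64)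
    (hαd : DifferentiableOn ℂ α (OA ×ˢ ball (0 : Fin m → ℂ) (1 / 2)))
    (hβd : DifferentiableOn ℂ β (OB ×ˢ ball (0 : Fin m → ℂ) (1 / 2)))
    (hαn : ∀ x ∈ OA, ∀ t ∈ ball (0 : Fin m → ℂ) (1 / 2), ‖α (x, t) - t‖ ≤ e * w x)
    (hβn : ∀ x ∈ OB, ∀ t ∈ ball (0 : Fin m → ℂ) (1 / 2), ‖β (x, t) - t‖ ≤ e * w x)
    (hαβ : ∀ x, x ∈ OA → x ∈ OB → ∀ t ∈ ball (0 : Fin m → ℂ) (1 / 2),
      (a : ℂ) • β (x, t) = D.g (x, (a : ℂ) • α (x, t))) :
    ∃ Φ' : E × (Fin m → ℂ) → X, ∃ dd : E × (Fin m → ℂ) → (Fin m → ℂ),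
      EtHol Φ' (OA ∪ OB) (1 / 4) ∧ EtCont dd (OA ∪ OB) (1 / 4) ∧
      (∀ x ∈ OA ∪ OB, ∀ t ∈ ball (0 : Fin m → ℂ) (1 / 4), dd (x, t) ∈ ball (0 : Fin m → ℂ) D.r ∧
        D.𝒢 (x, dd (x, t)) = Φ' (x, t)) ∧
      (∀ x ∈ OA, ∀ t ∈ ball (0 : Fin m → ℂ) (1 / 4),
        ‖dd (x, t) - (a : ℂ) • t‖ ≤ a * (e * w x)) ∧
      (∀ x ∈ OB, ∀ t ∈ ball (0 : Fin m → ℂ) (1 / 4),
        ‖dd (x, t) - (a : ℂ) • t‖ ≤ a * (e * w x) + Cp * ‖D.û x‖ ^ k2) := by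
  classical
  have hr'pos := D.r'_pos
  have han : ‖(a : ℂ)‖ = a := by rw [Complex.norm_real, Real.norm_eq_abs, abs_of_pos hapos]
  have hat : ∀ t : Fin m → ℂ, ‖t‖ < 1 → (a : ℂ) • t ∈ ball (0 : Fin m → ℂ) D.r' := by
    intro t ht
    rw [mem_ball_zero_iff, norm_smul, han]
    calc a * ‖t‖ ≤ a * 1 := mul_le_mul_of_nonneg_left ht.le hapos.le
      _ < D.r' := by linarith only [ha, hapos]
  have hαe : ∀ x ∈ OA, ∀ t ∈ ball (0 : Fin m → ℂ) (1 / 2), ‖α (x, t) - t‖ ≤ 1 / 64 := by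
    intro x hx t ht
    have h1 : e * w x ≤ e * 1 := mul_le_mul_of_nonneg_left (hw x (Or.inl hx)) he
    rw [mul_one] at h1
    exact ((hαn x hx t ht).trans h1).trans he64
  have hβe : ∀ x ∈ OB, ∀ t ∈ ball (0 : Fin m → ℂ) (1 / 2), ‖β (x, t) - t‖ ≤ 1 / 64 := by
    intro x hx t ht
    have h1 : e * w x ≤ e * 1 := mul_le_mul_of_nonneg_left (hw x (Or.inr hx)) he
    rw [mul_one] at h1
    exact ((hβn x hx t ht).trans h1).trans he64
  have hnorm : ∀ (v t : Fin m → ℂ), t ∈ ball (0 : Fin m → ℂ) (1 / 2) → ‖v - t‖ ≤ 1 / 64 →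
      ‖v‖ < 9 / 16 := by
    intro v t ht hv
    rw [mem_ball_zero_iff] at ht
    have h1 : v = (v - t) + t := by abel
    have h2 : ‖v‖ ≤ ‖v - t‖ + ‖t‖ := by
      conv_lhs => rw [h1]
      exact norm_add_le _ _
    linarith only [h2, ht, hv]
  have h916 : (9 / 16 : ℝ) < 1 := by norm_num
  have hhalf : (1 / 2 / 2 : ℝ) = 1 / 4 := by norm_num
  have h64 : (1 / 64 : ℝ) ≤ 1 / 2 / 8 := by norm_num
  have hhalfpos : (0 : ℝ) < 1 / 2 := by norm_num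
  have hαE : EtHol (fun x => (a : ℂ) • α x) OA (1 / 4) := by
    rw [← hhalf]
    refine etHol_of_near_smul (τ := a) hhalfpos hapos hOAo (hαd.const_smul (a : ℂ)) ?_
    intro x hx t ht
    rw [← smul_sub, norm_smul, han]
    exact mul_le_mul_of_nonneg_left ((hαe x hx t ht).trans h64) hapos.le
  have hβE : EtHol (fun x => (a : ℂ) • β x) OB (1 / 4) := by
    rw [← hhalf]
    refine etHol_of_near_smul (τ := a) hhalfpos hapos hOBo (hβd.const_smul (a : ℂ)) ?_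
    intro x hx t ht
    rw [← smul_sub, norm_smul, han]
    exact mul_le_mul_of_nonneg_left ((hβe x hx t ht).trans h64) hapos.le
  have h42 : ball (0 : Fin m → ℂ) (1 / 4) ⊆ ball (0 : Fin m → ℂ) (1 / 2) :=
    ball_subset_ball (by norm_num)
  have hαr : ∀ x ∈ OA, ∀ t ∈ ball (0 : Fin m → ℂ) (1 / 4),
      (a : ℂ) • α (x, t) ∈ ball (0 : Fin m → ℂ) D.r' := fun x hx t ht =>
    hat _ ((hnorm _ t (h42 ht) (hαe x hx t (h42 ht))).trans h916)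
  have hβr : ∀ x ∈ OB, ∀ t ∈ ball (0 : Fin m → ℂ) (1 / 4),
      (a : ℂ) • β (x, t) ∈ ball (0 : Fin m → ℂ) D.r' := fun x hx t ht =>
    hat _ ((hnorm _ t (h42 ht) (hβe x hx t (h42 ht))).trans h916)
  have hA1 : EtHol (fun x => D.𝒢 (x.1, (a : ℂ) • α x)) OA (1 / 4) :=
    EtHol.comp (D.holK.mono hOAUK le_rfl) hαE (fun x hx t ht =>
      ball_subset_ball D.r'_le (hαr x hx t ht))
  have hB1 : EtHol (fun x => D.ΦB (x.1, (a : ℂ) • β x)) OB (1 / 4) :=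
    EtHol.comp (D.holB.mono (fun x hx => (hOBN x hx).1) le_rfl) hβE (fun x hx t ht =>
      ball_subset_ball D.r'_le (hβr x hx t ht))
  -- agreement
  have hagree : ∀ x, x ∈ OA → x ∈ OB → ∀ t ∈ ball (0 : Fin m → ℂ) (1 / 4),
      D.𝒢 (x, (a : ℂ) • α (x, t)) = D.ΦB (x, (a : ℂ) • β (x, t)) := by
    intro x hxA hxB t ht
    rw [hαβ x hxA hxB t (h42 ht)]
    exact ((D.rel x (hOR x (Or.inl hxA)) (hOBN x hxB).1 (((hOBN x hxB).2.trans hb1c).trans hc3a) _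
      (hαr x hxA t ht)).2.1).symm
  set Φ' : E × (Fin m → ℂ) → X := fun x =>
    if x.1 ∈ OA then D.𝒢 (x.1, (a : ℂ) • α x) else D.ΦB (x.1, (a : ℂ) • β x) with hΦ'
  have hΦA : ∀ x ∈ OA, ∀ t : Fin m → ℂ, Φ' (x, t) = D.𝒢 (x, (a : ℂ) • α (x, t)) := by
    intro x hx t
    simp only [hΦ', if_pos hx]
  have hΦB : ∀ x ∈ OB, ∀ t ∈ ball (0 : Fin m → ℂ) (1 / 4),
      Φ' (x, t) = D.ΦB (x, (a : ℂ) • β (x, t)) := by
    intro x hx t ht
    by_cases hxA : x ∈ OA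
    · rw [hΦA x hxA t]
      exact hagree x hxA hx t ht
    · simp only [hΦ', if_neg hxA]
  have hE : EtHol Φ' (OA ∪ OB) (1 / 4) := by
    refine EtHol.union_open (hA1.congr ?_) (hB1.congr ?_) hOAo hOBo
    · intro x hx t _
      exact hΦA x hx t
    · intro x hx t ht
      exact hΦB x hx t ht
  -- solving in the fibre
  have hsolve : ∀ x ∈ OB, ∀ t ∈ ball (0 : Fin m → ℂ) (1 / 4),
      ∃ v ∈ ball (0 : Fin m → ℂ) D.r, D.𝒢 (x, v) = D.ΦB (x, (a : ℂ) • β (x, t)) ∧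
        ‖v - (a : ℂ) • β (x, t)‖ ≤ Cp * ‖D.û x‖ ^ k2 := by
    intro x hx t ht
    obtain ⟨hxN, hxb⟩ := hOBN x hx
    have hxR := hOR x (Or.inr hx)
    have hsmall := hOBu x hx
    have h8 : a / 64 ≤ D.r' / 8 := by linarith only [ha, hapos]
    obtain ⟨v, hv, -, hv2, hv3⟩ := ttGlue_solve (Φ1 := D.𝒢) (Φ2 := D.ΦB) (S := {x}) (g := D.g)
      (δ := Cp * ‖D.û x‖ ^ k2) hr'pos
      (D.cont.mono (singleton_subset_iff.2 hxR) D.r'_le)
      (D.holB.toEtCont.mono (singleton_subset_iff.2 hxN) le_rfl)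
      (by
        intro y hy u hu
        rw [mem_singleton_iff] at hy
        subst hy
        have h1 := D.rel y hxR hxN ((hxb.trans hb1c).trans hc3a) u hu
        exact ⟨h1.1, h1.2.1⟩) (mem_singleton x) (by positivity)
      (hsmall.trans h8) (hrel x hxR hxN (hxb.trans hb1c)) (y := (a : ℂ) • β (x, t)) (by
        rw [mem_ball_zero_iff, norm_smul, han]
        have h1 := hnorm _ t (h42 ht) (hβe x hx t (h42 ht))
        have h2 : a * ‖β (x, t)‖ < a * (9 / 16) := mul_lt_mul_of_pos_left h1 hapos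
        linarith only [h2, ha, hapos, hsmall])
    refine ⟨v, ball_subset_ball ?_ hv, hv3, hv2⟩
    have := D.r'_le
    linarith only [this, hr'pos]
  have hddex : ∀ q : E × (Fin m → ℂ), ∃ v : Fin m → ℂ,
      q ∈ (OA ∪ OB) ×ˢ ball (0 : Fin m → ℂ) (1 / 4) →
      v ∈ ball (0 : Fin m → ℂ) D.r ∧ D.𝒢 (q.1, v) = Φ' q ∧
      (q.1 ∈ OA → v = (a : ℂ) • α q) ∧
      (q.1 ∉ OA → q.1 ∈ OB ∧ ‖v - (a : ℂ) • β q‖ ≤ Cp * ‖D.û q.1‖ ^ k2) := by
    rintro ⟨x, t⟩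
    by_cases hxA : x ∈ OA
    · refine ⟨(a : ℂ) • α (x, t), fun hq => ⟨ball_subset_ball D.r'_le (hαr x hxA t hq.2),
        (hΦA x hxA t).symm, fun _ => rfl, fun h' => absurd hxA h'⟩⟩
    · by_cases hq : (x, t) ∈ (OA ∪ OB) ×ˢ ball (0 : Fin m → ℂ) (1 / 4)
      · have hxB : x ∈ OB := hq.1.resolve_left hxA
        obtain ⟨v, hv1, hv2, hv3⟩ := hsolve x hxB t hq.2
        exact ⟨v, fun _ => ⟨hv1, hv2.trans (hΦB x hxB t hq.2).symm, fun h' => absurd h' hxA,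
          fun _ => ⟨hxB, hv3⟩⟩⟩
      · exact ⟨0, fun h' => absurd h' hq⟩
  choose dd hdd using hddex
  have hddE : EtCont dd (OA ∪ OB) (1 / 4) :=
    etD_coord_etCont hE.toEtCont (D.cont.mono (fun x hx => hOR x hx) le_rfl)
      (fun x hx u hu => ⟨(hdd (x, u) ⟨hx, hu⟩).1, (hdd (x, u) ⟨hx, hu⟩).2.1⟩)
  have hddA : ∀ x ∈ OA, ∀ t ∈ ball (0 : Fin m → ℂ) (1 / 4),
      ‖dd (x, t) - (a : ℂ) • t‖ ≤ a * (e * w x) := by
    intro x hx t ht
    rw [(hdd (x, t) ⟨Or.inl hx, ht⟩).2.2.1 hx, ← smul_sub, norm_smul, han]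
    exact mul_le_mul_of_nonneg_left (hαn x hx t (h42 ht)) hapos.le
  refine ⟨Φ', dd, hE, hddE, fun x hx u hu => ⟨(hdd (x, u) ⟨hx, hu⟩).1, (hdd (x, u) ⟨hx, hu⟩).2.1⟩,
    hddA, ?_⟩
  intro x hx t ht
  by_cases hxA : x ∈ OA
  · exact (hddA x hxA t ht).trans (le_add_of_nonneg_right (by positivity))
  · obtain ⟨-, h5⟩ := (hdd (x, t) ⟨Or.inr hx, ht⟩).2.2.2 hxA
    have h6 : dd (x, t) - (a : ℂ) • t =
        (a : ℂ) • (β (x, t) - t) + (dd (x, t) - (a : ℂ) • β (x, t)) := by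
      rw [smul_sub]
      abel
    rw [h6]
    refine (norm_add_le _ _).trans (add_le_add ?_ h5)
    rw [norm_smul, han]
    exact mul_le_mul_of_nonneg_left (hβn x hx t (h42 ht)) hapos.le

/-- avoidance of `p` near the tube. -/
theorem ttGlue_avoid2 {m : ℕ} {X : Type} [MetricSpace X] [ChartedSpace (Fin m → ℂ) X] {p : X}
    {E : Type} [NormedAddCommGroup E] [NormedSpace ℂ E]
    {κ : E → ℝ} {s d R' : ℝ} {k2 : ℕ} (D : TubeData m p κ s d R' k2) {Cp c3' : ℝ}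
    (hc3a : c3' ≤ D.c3)
    (hrel : ∀ x ∈ closedBall (0 : E) R', x ∈ D.N → ‖D.û x‖ ≤ c3' →
      ∀ t ∈ ball (0 : Fin m → ℂ) D.r', ‖D.g (x, t) - t‖ ≤ Cp * ‖D.û x‖ ^ k2)
    {x : E} (hxR : x ∈ closedBall (0 : E) R') (hxN : x ∈ D.N) (hxc : ‖D.û x‖ ≤ c3')
    (hx0 : 0 < ‖D.û x‖) (hCu : Cp * ‖D.û x‖ ^ k2 ≤ D.c4 / 4 * ‖D.û x‖)
    {v : Fin m → ℂ} (hvr' : v ∈ ball (0 : Fin m → ℂ) D.r')
    (hv : ‖v‖ ≤ D.c4 / 4 * ‖D.û x‖ + D.c4 / 4 * ‖D.û x‖) : D.𝒢 (x, v) ≠ p := by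
  have hrx := D.rel x hxR hxN (hxc.trans hc3a) _ hvr'
  rw [← hrx.2.1]
  refine D.avoid2 x hxR hxN (norm_pos_iff.1 hx0) (hxc.trans hc3a) _ hrx.1 ?_
  have h1 := hrel x hxR hxN hxc _ hvr'
  have h2 : D.g (x, v) = (D.g (x, v) - v) + v := by abel
  have h3 : ‖D.g (x, v)‖ ≤ ‖D.g (x, v) - v‖ + ‖v‖ := by
    conv_lhs => rw [h2]
    exact norm_add_le _ _
  have h4 : 0 < D.c4 / 4 * ‖D.û x‖ := mul_pos (by have := D.c4_pos; linarith only [this]) hx0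
  have h5 : D.c4 * ‖D.û x‖ = 4 * (D.c4 / 4 * ‖D.û x‖) := by ring
  rw [h5]
  linarith only [h1, h3, h4, hCu, hv]

/-- the weight is at most linear in `‖û‖`. -/
theorem ttGlue_exp {w u ω c3' C1 : ℝ} (hc3' : 0 < c3') (hC1 : 0 < C1) (hω : 0 < ω) (hωu : ω < u)
    (hu1 : u ≤ 1) (hw : w ≤ 0) (h : u ≤ c3' / 2 → Real.exp (w / 2) ≤ C1 * (u + ω)) :
    Real.exp w ≤ (4 * C1 ^ 2 + 2 / c3') * u := by
  have hu0 : 0 < u := hω.trans hωu
  rcases le_total u (c3' / 2) with h1 | h1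
  · have h2 := h h1
    have h3 : Real.exp w = Real.exp (w / 2) ^ 2 := by
      rw [← Real.exp_nat_mul]
      congr 1
      push_cast
      ring
    calc Real.exp w = Real.exp (w / 2) ^ 2 := h3
      _ ≤ (C1 * (u + ω)) ^ 2 := by gcongr
      _ ≤ (C1 * (2 * u)) ^ 2 := by
          gcongr
          linarith
      _ = 4 * C1 ^ 2 * (u * u) := by ring
      _ ≤ 4 * C1 ^ 2 * (1 * u) := by gcongr
      _ ≤ (4 * C1 ^ 2 + 2 / c3') * u := by
          rw [one_mul]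
          gcongr
          have : 0 < 2 / c3' := by positivity
          linarith
  · calc Real.exp w ≤ 1 := Real.exp_le_one_iff.2 hw
      _ ≤ 2 / c3' * u := by
          rw [div_mul_eq_mul_div, le_div_iff₀ hc3']
          linarith
      _ ≤ (4 * C1 ^ 2 + 2 / c3') * u := by
          gcongr
          have : 0 < 4 * C1 ^ 2 := by positivity
          linarith

theorem ttGlue_pow {Cp u b y : ℝ} {k : ℕ} (hCp : 0 ≤ Cp) (hu : 0 ≤ u) (hub : u ≤ b) (hb : b ≤ 1)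
    (hy : Cp * b ≤ y) (hk : 1 ≤ k) : Cp * u ^ k ≤ y := by
  have h1 : u ^ k ≤ u := by
    have := pow_le_pow_of_le_one hu (hub.trans hb) hk
    rwa [pow_one] at this
  exact (mul_le_mul_of_nonneg_left (h1.trans hub) hCp).trans hy

theorem ttGlue_pow' {Cp u b y : ℝ} {k : ℕ} (hCp : 0 ≤ Cp) (hu : 0 ≤ u) (hub : u ≤ b) (hb : b ≤ 1)
    (hy : Cp * b ≤ y) (hk : 2 ≤ k) : Cp * u ^ k ≤ y * u := by
  have h1 : u ^ k ≤ u ^ 2 := pow_le_pow_of_le_one hu (hub.trans hb) hk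
  calc Cp * u ^ k ≤ Cp * u ^ 2 := mul_le_mul_of_nonneg_left h1 hCp
    _ = Cp * u * u := by ring
    _ ≤ Cp * b * u := by gcongr
    _ ≤ y * u := by gcongr

/-- gluing over the thin tube: a holomorphic family near `{ρ ≤ 0}` close to `𝒢`. -/
theorem tt_glue {m : ℕ} {X : Type} [MetricSpace X] [ChartedSpace (Fin m → ℂ) X]
    [IsManifold 𝓘(ℂ, Fin m → ℂ) ⊤ X] {p : X} {E : Type}
    [NormedAddCommGroup E] [InnerProductSpace ℂ E] [FiniteDimensional ℂ E]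
    {κ : E → ℝ} (hκ : Psh κ) {s d : ℝ} (hd : 0 < d) {R1 R' : ℝ} (hR1 : 0 < R1) (hRR' : R1 < R')
    (hκR : {x | κ x ≤ s + 5 * d} ⊆ ball (0 : E) R1)
    (D : TubeData m p κ s d R' (ngN E m + 2)) {η : ℝ} (hη : 0 < η) :
    ∃ (ρ : E → ℝ) (O : Set E) (r'' τ : ℝ) (Φ' : E × (Fin m → ℂ) → X)
      (dd : E × (Fin m → ℂ) → (Fin m → ℂ)),
      SPshOn ρ univ ∧ IsOpen O ∧ O ⊆ ball (0 : E) R' ∧ 0 < r'' ∧ 0 < τ ∧
      (∀ x, κ x ≤ s → ρ x < -1) ∧
      (∀ x ∈ closedBall (0 : E) R1, x ∈ D.N → D.û x = 0 → ρ x < -1) ∧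
      (∀ x ∈ closedBall (0 : E) R1, ρ x ≤ 0 → x ∈ O) ∧ EtHol Φ' O r'' ∧
      ContinuousOn dd (O ×ˢ ball (0 : Fin m → ℂ) r'') ∧
      (∀ x ∈ O, DifferentiableOn ℂ (fun u => dd (x, u)) (ball (0 : Fin m → ℂ) r'')) ∧
      (∀ x ∈ O, ∀ t ∈ ball (0 : Fin m → ℂ) r'', dd (x, t) ∈ ball (0 : Fin m → ℂ) D.r ∧
        D.𝒢 (x, dd (x, t)) = Φ' (x, t) ∧ ‖dd (x, t) - (τ : ℂ) • t‖ ≤ τ * (r'' / 8)) ∧
      (∀ x ∈ O, x ∈ closedBall (0 : E) R1 → -1 ≤ ρ x → ∀ σ ∈ Icc (0 : ℝ) 1,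
        D.𝒢 (x, (σ : ℂ) • dd (x, 0)) ≠ p) ∧
      (∀ x ∈ O, κ x ≤ s → dist (Φ' (x, 0)) (D.𝒢 (x, 0)) < η) := by
  have hprop : ProperSpace E := FiniteDimensional.proper ℂ E
  -- constants
  obtain ⟨Cp, hCppos, hCle⟩ : ∃ Cp : ℝ, 0 < Cp ∧ D.C ≤ Cp :=
    ⟨|D.C| + 1, by positivity, (le_abs_self _).trans (by linarith)⟩
  have hr'pos := D.r'_pos
  obtain ⟨a, ha⟩ : ∃ a : ℝ, a = D.r' / 4 := ⟨_, rfl⟩
  have hapos : 0 < a := by rw [ha]; positivity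
  have hrpos : 0 < D.r := hr'pos.trans_le D.r'_le
  have hc4 := D.c4_pos
  obtain ⟨c3', hc3', hc3a, hc3b, hc3c⟩ : ∃ c3' : ℝ, 0 < c3' ∧ c3' ≤ D.c3 ∧ c3' ≤ 1 ∧
      Cp * c3' ≤ D.c4 / 4 := by
    have h0 := D.c3_pos
    refine ⟨min (min D.c3 1) (D.c4 / (4 * Cp)), by positivity,
      (min_le_left _ _).trans (min_le_left _ _), (min_le_left _ _).trans (min_le_right _ _), ?_⟩
    calc Cp * min (min D.c3 1) (D.c4 / (4 * Cp)) ≤ Cp * (D.c4 / (4 * Cp)) := by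
          gcongr
          exact min_le_right _ _
      _ = D.c4 / 4 := by field_simp
  -- the smaller tube
  have hTclosed : IsClosed {x | x ∈ closedBall (0 : E) R' ∧ x ∈ D.N ∧ ‖D.û x‖ ≤ D.c3} :=
    D.tube_compact.isClosed
  have hT' : IsCompact {x | x ∈ closedBall (0 : E) R' ∧ x ∈ D.N ∧ ‖D.û x‖ ≤ c3'} := by
    have h1 : ContinuousOn (fun x => ‖D.û x‖)
        {x | x ∈ closedBall (0 : E) R' ∧ x ∈ D.N ∧ ‖D.û x‖ ≤ D.c3} :=
      (D.û_hol.continuousOn.mono fun x hx => hx.2.1).norm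
    have h2 := h1.preimage_isClosed_of_isClosed hTclosed (isClosed_Iic (a := c3'))
    refine D.tube_compact.of_isClosed_subset ?_ (fun x hx => ⟨hx.1, hx.2.1, hx.2.2.trans hc3a⟩)
    convert h2 using 1
    ext x
    constructor
    · rintro ⟨h3, h4, h5⟩
      exact ⟨⟨h3, h4, h5.trans hc3a⟩, h5⟩
    · rintro ⟨⟨h3, h4, -⟩, h5⟩
      exact ⟨h3, h4, h5⟩
  have hrel : ∀ x ∈ closedBall (0 : E) R', x ∈ D.N → ‖D.û x‖ ≤ c3' →
      ∀ t ∈ ball (0 : Fin m → ℂ) D.r', ‖D.g (x, t) - t‖ ≤ Cp * ‖D.û x‖ ^ (ngN E m + 2) :=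
    fun x hx hxN hxu t ht => (D.rel x hx hxN (hxu.trans hc3a) t ht).2.2.trans
      (mul_le_mul_of_nonneg_right hCle (by positivity))
  -- the compact set away from the tube
  have hκc : Continuous κ := hκ.smooth.continuous
  have hR1R'b : closedBall (0 : E) R1 ⊆ closedBall (0 : E) R' := closedBall_subset_closedBall hRR'.le
  set Q : Set E := {x | x ∈ closedBall (0 : E) R1 ∧ κ x ≤ s + 4 * d ∧ ¬ (x ∈ D.N ∧ ‖D.û x‖ < c3')}
    with hQ
  have hQc : IsCompact Q := by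
    have h1 : IsOpen (D.N ∩ {x | ‖D.û x‖ < c3'}) := by
      have h2 := D.û_hol.continuousOn.norm.isOpen_inter_preimage D.N_open (isOpen_Iio (a := c3'))
      exact h2
    have h2 : IsClosed {x | κ x ≤ s + 4 * d} := isClosed_le hκc continuous_const
    have h3 : Q = closedBall (0 : E) R1 ∩ ({x | κ x ≤ s + 4 * d} ∩ (D.N ∩ {x | ‖D.û x‖ < c3'})ᶜ) :=
      rfl
    rw [h3]
    exact (isCompact_closedBall (0 : E) R1).inter_right (h2.inter h1.isClosed_compl)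
  obtain ⟨c5, hc5, hc5p⟩ := ttGlue_avoid (p := p)
    (D.cont.mono (fun x hx => hR1R'b hx.1) le_rfl : EtCont D.𝒢 Q D.r) hrpos hQc (by
      intro x hx
      refine D.avoid x (hR1R'b hx.1) ?_
      rintro ⟨h1, h2⟩
      refine hx.2.2 ⟨h1, ?_⟩
      rw [h2, norm_zero]
      exact hc3')
  -- the set where the family is close
  have hs5 : ∀ x, κ x ≤ s → x ∈ closedBall (0 : E) R1 := by
    intro x hx
    refine ball_subset_closedBall (hκR ?_)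
    show κ x ≤ s + 5 * d
    linarith only [hx, hd]
  have hK7 : IsCompact {x | κ x ≤ s} :=
    (isCompact_closedBall (0 : E) R1).of_isClosed_subset
      (isClosed_le hκc continuous_const) (fun x hx => hs5 x hx)
  obtain ⟨r7, hr7, -, hr7d⟩ := etD_uniform_radius
    (D.cont.mono (fun x hx => hR1R'b (hs5 x hx)) le_rfl : EtCont D.𝒢 {x | κ x ≤ s} D.r)
    hrpos hK7 hη
  -- the splitting
  obtain ⟨C1, hC1, hsplit⟩ := ttGlue_split hκ hd hR1 hRR' hκR D hCppos hapos ha hc3' hc3a hT' hrel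
  have hC1pos : 0 < C1 := one_pos.trans_le hC1
  obtain ⟨K2, hK2⟩ : ∃ K2 : ℝ, K2 = 4 * C1 ^ 2 + 2 / c3' := ⟨_, rfl⟩
  have hK2pos : 0 < K2 := by rw [hK2]; positivity
  obtain ⟨b1, hb1, hb1a, hb1b⟩ : ∃ b1 : ℝ, 0 < b1 ∧ b1 ≤ c3' / 2 ∧ Cp * b1 ≤ a / 64 := by
    refine ⟨min (c3' / 2) (a / (64 * Cp)), by positivity, min_le_left _ _, ?_⟩
    calc Cp * min (c3' / 2) (a / (64 * Cp)) ≤ Cp * (a / (64 * Cp)) :=
          mul_le_mul_of_nonneg_left (min_le_right _ _) hCppos.le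
      _ = a / 64 := by field_simp
  obtain ⟨b2, hb2, hb2a, hb2b, hb2c, hb2d⟩ : ∃ b2 : ℝ, 0 < b2 ∧ b2 ≤ 1 / 64 ∧
      a * b2 * K2 ≤ D.c4 / 4 ∧ a * b2 < c5 ∧ a * b2 < r7 := by
    refine ⟨min (1 / 64) (min (D.c4 / (4 * a * K2)) (min (c5 / (2 * a)) (r7 / (2 * a)))),
      by positivity, min_le_left _ _, ?_, ?_, ?_⟩
    · calc a * min (1 / 64) (min (D.c4 / (4 * a * K2)) (min (c5 / (2 * a)) (r7 / (2 * a)))) * K2
          ≤ a * (D.c4 / (4 * a * K2)) * K2 := by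
            refine mul_le_mul_of_nonneg_right (mul_le_mul_of_nonneg_left ?_ hapos.le) hK2pos.le
            exact (min_le_right _ _).trans (min_le_left _ _)
        _ = D.c4 / 4 := by field_simp
    · calc a * min (1 / 64) (min (D.c4 / (4 * a * K2)) (min (c5 / (2 * a)) (r7 / (2 * a))))
          ≤ a * (c5 / (2 * a)) := by
            refine mul_le_mul_of_nonneg_left ?_ hapos.le
            exact (min_le_right _ _).trans ((min_le_right _ _).trans (min_le_left _ _))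
        _ = c5 / 2 := by field_simp
        _ < c5 := by linarith only [hc5]
    · calc a * min (1 / 64) (min (D.c4 / (4 * a * K2)) (min (c5 / (2 * a)) (r7 / (2 * a))))
          ≤ a * (r7 / (2 * a)) := by
            refine mul_le_mul_of_nonneg_left ?_ hapos.le
            exact (min_le_right _ _).trans ((min_le_right _ _).trans (min_le_right _ _))
        _ = r7 / 2 := by field_simp
        _ < r7 := by linarith only [hr7]
  obtain ⟨ω, e, ρ, W, OA, OB, α, β, hωpos, he0, heb, hρs, hρc, hball, hp1, hp2, hOAo, hOBo, hOu,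
    hOAκ, hOBN, hOAs, hαd, hβd, hαn, hβn, hW0, hαβ, hp6⟩ := hsplit b1 b2 hb1 hb1a hb2
      (hb2a.trans (by norm_num))
  clear hsplit
  have hb1c : b1 ≤ c3' := by linarith only [hb1a, hc3']
  have hOb : ∀ x ∈ OA ∪ OB, x ∈ ball (0 : E) R' := by
    intro x hx
    rw [← hOu] at hx
    have hx' : ρ x < 1 / 2 := hx
    exact hball x (by linarith only [hx'])
  have hOR : ∀ x ∈ OA ∪ OB, x ∈ closedBall (0 : E) R' := fun x hx =>
    ball_subset_closedBall (hOb x hx)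
  have hexpW : ∀ x ∈ OA ∪ OB, Real.exp (W x) ≤ 1 := fun x hx =>
    Real.exp_le_one_iff.2 (hW0 x (hOb x hx))
  have hOBu : ∀ x ∈ OB, Cp * ‖D.û x‖ ^ (ngN E m + 2) ≤ a / 64 := fun x hx =>
    ttGlue_pow hCppos.le (norm_nonneg _) (hOBN x hx).2 (hb1c.trans hc3b) hb1b (by omega)
  obtain ⟨Φ', dd, hE, hddE, hdd, hddA, hddB⟩ := ttGlue_fam D hCppos hapos ha hc3a hrel he0
    (heb.trans hb2a) (w := fun x => Real.exp (W x)) hOAo hOBo hOR hexpW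
    (fun x hx => D.UK_sub (by
      have := hOAκ x hx
      show κ x ≤ s + 5 * d
      linarith only [this, hd])) hb1c hOBN hOBu hαd hβd hαn hβn hαβ
  have hae : a * e ≤ a * b2 := mul_le_mul_of_nonneg_left heb hapos.le
  have haeW : ∀ x ∈ OA ∪ OB, a * (e * Real.exp (W x)) ≤ a * e := by
    intro x hx
    refine mul_le_mul_of_nonneg_left ?_ hapos.le
    have := mul_le_mul_of_nonneg_left (hexpW x hx) he0
    rwa [mul_one] at this
  have hae64 : a * e ≤ a / 64 := by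
    have := mul_le_mul_of_nonneg_left (heb.trans hb2a) hapos.le
    linarith only [this]
  have h0b : (0 : Fin m → ℂ) ∈ ball (0 : Fin m → ℂ) (1 / 4) := mem_ball_self (by norm_num)
  have hfinal : ∀ x ∈ OA ∪ OB, ∀ t ∈ ball (0 : Fin m → ℂ) (1 / 4),
      ‖dd (x, t) - (a : ℂ) • t‖ ≤ a / 32 := by
    intro x hx t ht
    have h1 := haeW x hx
    rcases hx with hxA | hxB
    · have h2 := hddA x hxA t ht
      linarith only [h1, h2, hae64, hapos]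
    · have h2 := hddB x hxB t ht
      have h3 := hOBu x hxB
      linarith only [h1, h2, hae64, h3]
  refine ⟨ρ, OA ∪ OB, 1 / 4, a, Φ', dd, hρs, hOAo.union hOBo, hOb, by norm_num, hapos, hp1,
    ?_, ?_, hE, hddE.cont, ?_, ?_, ?_, ?_⟩
  · intro x hx hxN hx0
    refine hp2 x hx hxN ?_
    rw [hx0, norm_zero]
    exact hωpos.le
  · intro x _ hx
    rw [← hOu]
    show ρ x < 1 / 2
    linarith only [hx]
  · intro x hx
    exact mdifferentiableOn_iff_differentiableOn.1 (hddE.fib x hx)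
  · intro x hx t ht
    obtain ⟨h1, h2⟩ := hdd x hx t ht
    refine ⟨h1, h2, ?_⟩
    have h3 := hfinal x hx t ht
    calc ‖dd (x, t) - (a : ℂ) • t‖ ≤ a / 32 := h3
      _ = a * (1 / 4 / 8) := by ring
  · intro x hx hxR1 hρ1 σ hσ
    have hxR := hR1R'b hxR1
    have hxb : x ∈ ball (0 : E) R' := hOb x hx
    have hσn : ‖(σ : ℂ)‖ ≤ 1 := by
      rw [Complex.norm_real, Real.norm_eq_abs, abs_of_nonneg hσ.1]
      exact hσ.2
    have hv : ‖(σ : ℂ) • dd (x, 0)‖ ≤ ‖dd (x, 0)‖ := by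
      rw [norm_smul]
      exact mul_le_of_le_one_left (norm_nonneg _) hσn
    by_cases hcase : x ∈ D.N ∧ ‖D.û x‖ ≤ c3'
    · obtain ⟨hxN, hxc⟩ := hcase
      have hωu : ω < ‖D.û x‖ := by
        by_contra h1
        have := hp2 x hxR1 hxN (not_lt.1 h1)
        linarith only [this, hρ1]
      have hupos : 0 < ‖D.û x‖ := hωpos.trans hωu
      have hexp : Real.exp (W x) ≤ K2 * ‖D.û x‖ := by
        rw [hK2]
        exact ttGlue_exp hc3' hC1pos hωpos hωu (hxc.trans hc3b) (hW0 x hxb) (hp6 x hxb hxN)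
      have hCu : Cp * ‖D.û x‖ ^ (ngN E m + 2) ≤ D.c4 / 4 * ‖D.û x‖ :=
        ttGlue_pow' hCppos.le (norm_nonneg _) hxc hc3b hc3c (by omega)
      have haeK : a * (e * Real.exp (W x)) ≤ D.c4 / 4 * ‖D.û x‖ := by
        calc a * (e * Real.exp (W x)) = a * e * Real.exp (W x) := by ring
          _ ≤ a * b2 * (K2 * ‖D.û x‖) :=
              mul_le_mul hae hexp (Real.exp_pos _).le (by positivity)
          _ = a * b2 * K2 * ‖D.û x‖ := by ring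
          _ ≤ D.c4 / 4 * ‖D.û x‖ := mul_le_mul_of_nonneg_right hb2b hupos.le
      have hdn : ‖dd (x, 0)‖ ≤ D.c4 / 4 * ‖D.û x‖ + D.c4 / 4 * ‖D.û x‖ := by
        rcases hx with hxA | hxB
        · have h1 := hddA x hxA 0 h0b
          rw [smul_zero, sub_zero] at h1
          have h3 : 0 ≤ D.c4 / 4 * ‖D.û x‖ := by positivity
          exact (h1.trans haeK).trans (le_add_of_nonneg_right h3)
        · have h1 := hddB x hxB 0 h0b
          rw [smul_zero, sub_zero] at h1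
          exact h1.trans (add_le_add haeK hCu)
      have hvr' : (σ : ℂ) • dd (x, 0) ∈ ball (0 : Fin m → ℂ) D.r' := by
        rw [mem_ball_zero_iff]
        have h1 := hfinal x hx 0 h0b
        rw [smul_zero, sub_zero] at h1
        linarith only [h1, hv, ha, hapos]
      exact ttGlue_avoid2 D hc3a hrel hxR hxN hxc hupos hCu hvr' (hv.trans hdn)
    · have hxA : x ∈ OA := by
        rcases hx with h1 | h1
        · exact h1
        · obtain ⟨h2, h3⟩ := hOBN x h1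
          exact absurd ⟨h2, h3.trans hb1c⟩ hcase
      have hxQ : x ∈ Q := by
        refine ⟨hxR1, hOAκ x hxA, ?_⟩
        rintro ⟨h1, h2⟩
        exact hcase ⟨h1, h2.le⟩
      refine hc5p x hxQ _ ?_
      rw [mem_ball_zero_iff]
      have h1 := haeW x hx
      have h2 := hddA x hxA 0 h0b
      rw [smul_zero, sub_zero] at h2
      linarith only [h1, h2, hv, hae, hb2c]
  · intro x hx hxs
    have hxA : x ∈ OA := by
      refine hOAs x ?_ hxs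
      have : x ∈ {x | ρ x < 1 / 2} := by
        rw [hOu]
        exact hx
      exact this
    rw [← (hdd x hx 0 h0b).2, dist_comm]
    refine hr7d x hxs _ ?_
    rw [mem_ball_zero_iff]
    have h1 := haeW x hx
    have h2 := hddA x hxA 0 h0b
    rw [smul_zero, sub_zero] at h2
    linarith only [h1, h2, hae, hb2d]

end OkaP
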