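import Pool.Agent.H.MP_ceb9a9.Geom

/-!
# MP_ceb9a9: rules for the Levi form (used for the thin tube)
-/

set_option autoImplicit false
set_option linter.unusedSectionVars false

namespace OkaP

open Set Metric Topology
open scoped ContDiff

section General

variable {E : Type} [NormedAddCommGroup E] [NormedSpace ℂ E]

/-- the gradient term of the Levi form of a composition -/
noncomputable def tt_lgr (φ : E → ℝ) (x v : E) : ℝ :=
  ((fderiv ℝ φ x v) ^ 2 + (fderiv ℝ φ x (Complex.I • v)) ^ 2) / 4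

theorem tt_lgr_nonneg (φ : E → ℝ) (x v : E) : 0 ≤ tt_lgr φ x v := by
  unfold tt_lgr; positivity

theorem TTPsh1_D2_of_eventually {φ : E → ℝ} {x v w : E} {g : E → ℝ} {g' : E →L[ℝ] ℝ}
    (h : ∀ᶠ y in 𝓝 x, fderiv ℝ φ y v = g y) (hg : HasFDerivAt g g' x) :
    D2 φ x v w = g' w := by
  have h1 : HasFDerivAt (fun y => fderiv ℝ φ y v) g' x := hg.congr_of_eventuallyEq h
  rw [D2, h1.fderiv]

theorem tt_D2_congr {φ ψ : E → ℝ} {x : E} (h : φ =ᶠ[𝓝 x] ψ) (v w : E) :
    D2 φ x v w = D2 ψ x v w := by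
  have h1 : (fun y => fderiv ℝ φ y v) =ᶠ[𝓝 x] fun y => fderiv ℝ ψ y v := by
    have h2 : fderiv ℝ φ =ᶠ[𝓝 x] fderiv ℝ ψ := h.fderiv
    filter_upwards [h2] with y hy
    rw [hy]
  rw [D2, D2, h1.fderiv_eq]

theorem tt_levi_congr {φ ψ : E → ℝ} {x : E} (h : φ =ᶠ[𝓝 x] ψ) (v : E) :
    levi φ x v = levi ψ x v := by
  rw [levi, levi, tt_D2_congr h, tt_D2_congr h]

theorem TTPsh1_diff {φ : E → ℝ} {x : E} (h : ContDiffAt ℝ 2 φ x) :
    ∀ᶠ y in 𝓝 x, DifferentiableAt ℝ φ y := by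
  have h1 : ∀ᶠ y in 𝓝 x, ContDiffAt ℝ 2 φ y := h.eventually (by simp)
  exact h1.mono fun y hy => hy.differentiableAt (by norm_num)

theorem TTPsh1_diff2 {φ : E → ℝ} {x : E} (h : ContDiffAt ℝ 2 φ x) (v : E) :
    DifferentiableAt ℝ (fun y => fderiv ℝ φ y v) x := by
  have h1 : ContDiffAt ℝ 1 (fderiv ℝ φ) x := h.fderiv_right (by norm_num)
  have h2 : DifferentiableAt ℝ (fderiv ℝ φ) x := h1.differentiableAt (by norm_num)
  exact h2.clm_apply (differentiableAt_const v)

theorem TTPsh1_hasD2 {φ : E → ℝ} {x : E} (h : ContDiffAt ℝ 2 φ x) (v : E) :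
    HasFDerivAt (fun y => fderiv ℝ φ y v) (fderiv ℝ (fun y => fderiv ℝ φ y v) x) x :=
  (TTPsh1_diff2 h v).hasFDerivAt

theorem tt_D2_add {φ ψ : E → ℝ} {x : E} (hφ : ContDiffAt ℝ 2 φ x) (hψ : ContDiffAt ℝ 2 ψ x)
    (v w : E) : D2 (fun y => φ y + ψ y) x v w = D2 φ x v w + D2 ψ x v w := by
  refine TTPsh1_D2_of_eventually ?_ ((TTPsh1_hasD2 hφ v).add (TTPsh1_hasD2 hψ v))
  filter_upwards [TTPsh1_diff hφ, TTPsh1_diff hψ] with y h1 h2
  have h3 := (h1.hasFDerivAt.add h2.hasFDerivAt).fderiv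
  change fderiv ℝ (fun y => φ y + ψ y) y = _ at h3
  rw [h3]
  rfl

theorem tt_D2_const_mul {φ : E → ℝ} {x : E} (hφ : ContDiffAt ℝ 2 φ x) (c : ℝ)
    (v w : E) : D2 (fun y => c * φ y) x v w = c * D2 φ x v w := by
  refine TTPsh1_D2_of_eventually ?_ ((TTPsh1_hasD2 hφ v).const_mul c)
  filter_upwards [TTPsh1_diff hφ] with y h1
  rw [(h1.hasFDerivAt.const_mul c).fderiv]
  rfl

theorem tt_D2_const (c : ℝ) (x v w : E) : D2 (fun _ => c) x v w = 0 := by
  simp [D2]

theorem tt_D2_comp {φ : E → ℝ} {h : ℝ → ℝ} {x : E} (hφ : ContDiffAt ℝ 2 φ x)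
    (hh : ContDiffAt ℝ 2 h (φ x)) (v w : E) :
    D2 (fun y => h (φ y)) x v w =
      deriv h (φ x) * D2 φ x v w + deriv (deriv h) (φ x) * (fderiv ℝ φ x v * fderiv ℝ φ x w) := by
  have h1 : ∀ᶠ y in 𝓝 x, DifferentiableAt ℝ h (φ y) := by
    have h2 : ∀ᶠ t in 𝓝 (φ x), ContDiffAt ℝ 2 h t := hh.eventually (by simp)
    exact (hφ.continuousAt.eventually h2).mono fun y hy => hy.differentiableAt (by norm_num)
  have h3 : HasDerivAt (deriv h) (deriv (deriv h) (φ x)) (φ x) := by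
    have h4 : ContDiffAt ℝ 1 (deriv h) (φ x) := by
      have h5 : ContDiffAt ℝ 1 (fderiv ℝ h) (φ x) := hh.fderiv_right (by norm_num)
      exact h5.clm_apply contDiffAt_const
    exact (h4.differentiableAt (by norm_num)).hasDerivAt
  have h5 : HasFDerivAt (fun y => deriv h (φ y)) (deriv (deriv h) (φ x) • fderiv ℝ φ x) x :=
    h3.comp_hasFDerivAt x (hφ.differentiableAt (by norm_num)).hasFDerivAt
  refine (TTPsh1_D2_of_eventually ?_ (h5.mul (TTPsh1_hasD2 hφ v))).trans ?_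
  · filter_upwards [TTPsh1_diff hφ, h1] with y h6 h7
    have h8 := (h7.hasDerivAt.comp_hasFDerivAt y h6.hasFDerivAt).fderiv
    change fderiv ℝ (fun y => h (φ y)) y = _ at h8
    rw [h8]
    simp [smul_eq_mul]
  · simp only [_root_.add_apply, _root_.smul_apply, smul_eq_mul]
    rw [D2]
    ring

theorem tt_fderiv_comp_real {φ : E → ℝ} {h : ℝ → ℝ} {x : E} (hφ : DifferentiableAt ℝ φ x)
    (hh : DifferentiableAt ℝ h (φ x)) :
    fderiv ℝ (fun y => h (φ y)) x = deriv h (φ x) • fderiv ℝ φ x :=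
  (hh.hasDerivAt.comp_hasFDerivAt x hφ.hasFDerivAt).fderiv

theorem tt_levi_add {φ ψ : E → ℝ} {x : E} (hφ : ContDiffAt ℝ 2 φ x) (hψ : ContDiffAt ℝ 2 ψ x)
    (v : E) : levi (fun y => φ y + ψ y) x v = levi φ x v + levi ψ x v := by
  rw [levi, levi, levi, tt_D2_add hφ hψ, tt_D2_add hφ hψ]; ring

theorem tt_levi_const_mul {φ : E → ℝ} {x : E} (hφ : ContDiffAt ℝ 2 φ x) (c : ℝ)
    (v : E) : levi (fun y => c * φ y) x v = c * levi φ x v := by
  rw [levi, levi, tt_D2_const_mul hφ, tt_D2_const_mul hφ]; ring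

theorem tt_levi_const (c : ℝ) (x v : E) : levi (fun _ => c) x v = 0 := by
  rw [levi, tt_D2_const, tt_D2_const]; norm_num

theorem tt_levi_comp {φ : E → ℝ} {h : ℝ → ℝ} {x : E} (hφ : ContDiffAt ℝ 2 φ x)
    (hh : ContDiffAt ℝ 2 h (φ x)) (v : E) :
    levi (fun y => h (φ y)) x v =
      deriv h (φ x) * levi φ x v + deriv (deriv h) (φ x) * tt_lgr φ x v := by
  rw [levi, levi, tt_lgr, tt_D2_comp hφ hh, tt_D2_comp hφ hh]; ring

theorem tt_lgr_comp {φ : E → ℝ} {h : ℝ → ℝ} {x : E} (hφ : DifferentiableAt ℝ φ x)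
    (hh : DifferentiableAt ℝ h (φ x)) (v : E) :
    tt_lgr (fun y => h (φ y)) x v = (deriv h (φ x)) ^ 2 * tt_lgr φ x v := by
  rw [tt_lgr, tt_lgr, tt_fderiv_comp_real hφ hh]
  simp only [_root_.smul_apply, smul_eq_mul]
  ring

theorem tt_levi_sum {ι : Type} (s : Finset ι) {φ : ι → E → ℝ} {x : E}
    (hφ : ∀ i ∈ s, ContDiffAt ℝ 2 (φ i) x) (v : E) :
    levi (fun y => ∑ i ∈ s, φ i y) x v = ∑ i ∈ s, levi (φ i) x v := by
  classical
  induction s using Finset.induction_on with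
  | empty => simp only [Finset.sum_empty]; exact tt_levi_const 0 x v
  | insert a s ha ih =>
    have h1 : (fun y => ∑ i ∈ insert a s, φ i y) = fun y => φ a y + ∑ i ∈ s, φ i y := by
      funext y; rw [Finset.sum_insert ha]
    rw [h1, Finset.sum_insert ha, tt_levi_add (hφ a (Finset.mem_insert_self _ _)) _ v,
      ih fun i hi => hφ i (Finset.mem_insert_of_mem hi)]
    exact ContDiffAt.sum fun i hi => hφ i (Finset.mem_insert_of_mem hi)

/-- the square of the modulus of a holomorphic function -/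
theorem TTPsh1_normSq {f : E → ℂ} {U : Set E} (hU : IsOpen U) {x : E} (hx : x ∈ U)
    (hf : DifferentiableOn ℂ f U) (hf2 : ∀ v, DifferentiableOn ℂ (fun y => fderiv ℂ f y v) U)
    (v : E) :
    (∀ w, fderiv ℝ (fun y => Complex.normSq (f y)) x w =
      2 * ((f x).re * (fderiv ℂ f x w).re + (f x).im * (fderiv ℂ f x w).im)) ∧
    levi (fun y => Complex.normSq (f y)) x v = Complex.normSq (fderiv ℂ f x v) := by
  have hre : ∀ y ∈ U, HasFDerivAt (fun y => (f y).re)
      (Complex.reCLM.comp ((fderiv ℂ f y).restrictScalars ℝ)) y := by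
    intro y hy
    have h1 : HasFDerivAt f (fderiv ℂ f y) y := (hf.differentiableAt (hU.mem_nhds hy)).hasFDerivAt
    exact Complex.reCLM.hasFDerivAt.comp y (h1.restrictScalars ℝ)
  have him : ∀ y ∈ U, HasFDerivAt (fun y => (f y).im)
      (Complex.imCLM.comp ((fderiv ℂ f y).restrictScalars ℝ)) y := by
    intro y hy
    have h1 : HasFDerivAt f (fderiv ℂ f y) y := (hf.differentiableAt (hU.mem_nhds hy)).hasFDerivAt
    exact Complex.imCLM.hasFDerivAt.comp y (h1.restrictScalars ℝ)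
  have hd : ∀ y ∈ U, ∀ w, fderiv ℝ (fun y => Complex.normSq (f y)) y w =
      2 * ((f y).re * (fderiv ℂ f y w).re + (f y).im * (fderiv ℂ f y w).im) := by
    intro y hy w
    have h1 : HasFDerivAt (fun y => (f y).re * (f y).re + (f y).im * (f y).im) _ y :=
      ((hre y hy).mul (hre y hy)).add ((him y hy).mul (him y hy))
    have h2 : (fun y => Complex.normSq (f y)) =
        fun y => (f y).re * (f y).re + (f y).im * (f y).im := by
      funext y; rw [Complex.normSq_apply]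
    rw [h2, h1.fderiv]
    simp only [_root_.add_apply, _root_.smul_apply, smul_eq_mul,
      ContinuousLinearMap.comp_apply, ContinuousLinearMap.coe_restrictScalars',
      Complex.reCLM_apply, Complex.imCLM_apply]
    ring
  refine ⟨hd x hx, ?_⟩
  have hD2 : ∀ u w, D2 (fun y => Complex.normSq (f y)) x u w =
      2 * ((fderiv ℂ f x w).re * (fderiv ℂ f x u).re +
        (f x).re * (fderiv ℂ (fun y => fderiv ℂ f y u) x w).re +
        ((fderiv ℂ f x w).im * (fderiv ℂ f x u).im +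
        (f x).im * (fderiv ℂ (fun y => fderiv ℂ f y u) x w).im)) := by
    intro u w
    have h1 : HasFDerivAt (fun y => fderiv ℂ f y u) (fderiv ℂ (fun y => fderiv ℂ f y u) x) x :=
      ((hf2 u).differentiableAt (hU.mem_nhds hx)).hasFDerivAt
    have h2 : HasFDerivAt (fun y => (fderiv ℂ f y u).re) (Complex.reCLM.comp
        ((fderiv ℂ (fun y => fderiv ℂ f y u) x).restrictScalars ℝ)) x :=
      Complex.reCLM.hasFDerivAt.comp x (h1.restrictScalars ℝ)
    have h3 : HasFDerivAt (fun y => (fderiv ℂ f y u).im) (Complex.imCLM.comp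
        ((fderiv ℂ (fun y => fderiv ℂ f y u) x).restrictScalars ℝ)) x :=
      Complex.imCLM.hasFDerivAt.comp x (h1.restrictScalars ℝ)
    have h4 := ((((hre x hx).mul h2).add ((him x hx).mul h3)).const_mul 2)
    refine (TTPsh1_D2_of_eventually ?_ h4).trans ?_
    · filter_upwards [hU.mem_nhds hx] with y hy
      rw [hd y hy u]
      simp only [Pi.add_apply, Pi.mul_apply]
    · simp only [_root_.add_apply, _root_.smul_apply, smul_eq_mul,
        ContinuousLinearMap.comp_apply, ContinuousLinearMap.coe_restrictScalars',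
        Complex.reCLM_apply, Complex.imCLM_apply]
      ring
  have hI : fderiv ℂ (fun y => fderiv ℂ f y (Complex.I • v)) x (Complex.I • v) =
      - fderiv ℂ (fun y => fderiv ℂ f y v) x v := by
    have h1 : HasFDerivAt (fun y => fderiv ℂ f y v) (fderiv ℂ (fun y => fderiv ℂ f y v) x) x :=
      ((hf2 v).differentiableAt (hU.mem_nhds hx)).hasFDerivAt
    have h2 : HasFDerivAt (fun y => fderiv ℂ f y (Complex.I • v))
        (Complex.I • fderiv ℂ (fun y => fderiv ℂ f y v) x) x := by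
      refine (h1.const_smul Complex.I).congr_of_eventuallyEq ?_
      filter_upwards with y
      rw [map_smul]
      rfl
    rw [h2.fderiv]
    simp only [_root_.smul_apply, map_smul, smul_eq_mul]
    rw [← mul_assoc, Complex.I_mul_I]
    ring
  rw [levi, hD2 v v, hD2 (Complex.I • v) (Complex.I • v), hI, map_smul, Complex.normSq_apply]
  simp only [smul_eq_mul, Complex.mul_re, Complex.mul_im, Complex.I_re, Complex.I_im,
    Complex.neg_re, Complex.neg_im]
  ring

end General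

/-- the Levi form of the square of the norm -/
theorem tt_levi_norm_sq {E : Type} [NormedAddCommGroup E] [InnerProductSpace ℂ E] (x v : E) :
    levi (fun y : E => ‖y‖ ^ 2) x v = ‖v‖ ^ 2 := by
  let _ : InnerProductSpace ℝ E := InnerProductSpace.complexToReal
  have h0 : ∀ y w : E, fderiv ℝ (fun y : E => ‖y‖ ^ 2) y w = 2 * (inner ℝ y w : ℝ) := by
    intro y w
    have h1 : HasFDerivAt (fun y : E => ‖y‖ ^ 2) (2 • innerSL ℝ y) y :=
      (hasStrictFDerivAt_norm_sq y).hasFDerivAt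
    rw [h1.fderiv]
    simp
  have h2 : ∀ w : E, D2 (fun y : E => ‖y‖ ^ 2) x w w = 2 * ‖w‖ ^ 2 := by
    intro w
    have h3 : HasFDerivAt (fun y : E => 2 * (inner ℝ y w : ℝ))
        ((2 : ℝ) • (innerSL ℝ w : E →L[ℝ] ℝ)) x := by
      have h4 : HasFDerivAt (fun y : E => (inner ℝ w y : ℝ)) (innerSL ℝ w : E →L[ℝ] ℝ) x :=
        (innerSL ℝ w : E →L[ℝ] ℝ).hasFDerivAt
      have h5 := h4.const_mul 2
      refine h5.congr_of_eventuallyEq ?_
      filter_upwards with y
      rw [real_inner_comm]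
    rw [TTPsh1_D2_of_eventually (Filter.Eventually.of_forall fun y => h0 y w) h3]
    simp [real_inner_self_eq_norm_sq]
  rw [levi, h2, h2, norm_smul, Complex.norm_I, one_mul]
  ring

end OkaP
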