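import Pool.Agent.H.MP_ceb9a9.TTPsh1

/-!
# MP_ceb9a9: real functions for the thin tube
-/

set_option autoImplicit false
set_option linter.unusedSectionVars false

namespace OkaP

open Set Metric Topology
open scoped ContDiff

theorem TTPsh2_prim {f : ℝ → ℝ} (hf : ContDiff ℝ ∞ f) (a : ℝ) :
    ∃ F : ℝ → ℝ, ContDiff ℝ ∞ F ∧ (∀ t, HasDerivAt F (f t) t) ∧ F a = 0 ∧
      deriv F = f ∧ ∀ s t, F t - F s = ∫ u in s..t, f u := by
  have hc : Continuous f := hf.continuous
  have hd : ∀ t, HasDerivAt (fun t => ∫ u in a..t, f u) (f t) t := fun t =>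
    intervalIntegral.integral_hasDerivAt_right (hc.intervalIntegrable _ _)
      (hc.stronglyMeasurableAtFilter _ _) hc.continuousAt
  have hde : deriv (fun t => ∫ u in a..t, f u) = f := funext fun t => (hd t).deriv
  refine ⟨fun t => ∫ u in a..t, f u, ?_, hd, by simp, hde, ?_⟩
  · rw [contDiff_infty_iff_deriv]
    exact ⟨fun t => (hd t).differentiableAt, by rw [hde]; exact hf⟩
  · intro s t
    exact intervalIntegral.integral_interval_sub_left (hc.intervalIntegrable _ _)
      (hc.intervalIntegrable _ _)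

theorem TTPsh2_S_smooth : ContDiff ℝ ∞ Real.smoothTransition := Real.smoothTransition.contDiff

theorem TTPsh2_S_symm (x : ℝ) :
    Real.smoothTransition (1 / 2 + x) + Real.smoothTransition (1 / 2 - x) = 1 := by
  unfold Real.smoothTransition
  have h1 : (1 : ℝ) - (1 / 2 + x) = 1 / 2 - x := by ring
  have h2 : (1 : ℝ) - (1 / 2 - x) = 1 / 2 + x := by ring
  rw [h1, h2]
  have h3 := Real.smoothTransition.pos_denom (1 / 2 + x)
  rw [h1] at h3
  rw [add_comm (expNegInvGlue (1 / 2 - x)) (expNegInvGlue (1 / 2 + x)), ← add_div]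
  exact div_self h3.ne'

theorem TTPsh2_S_deriv_nonneg (x : ℝ) : 0 ≤ deriv Real.smoothTransition x :=
  Real.smoothTransition.monotone.deriv_nonneg

theorem TTPsh2_S_deriv_left {x : ℝ} (hx : x < 0) : deriv Real.smoothTransition x = 0 := by
  have h1 : Real.smoothTransition =ᶠ[𝓝 x] fun _ => (0 : ℝ) := by
    filter_upwards [Iio_mem_nhds hx] with y hy
    exact Real.smoothTransition.zero_of_nonpos (le_of_lt hy)
  rw [h1.deriv_eq]; simp

theorem TTPsh2_S_deriv_right {x : ℝ} (hx : 1 < x) : deriv Real.smoothTransition x = 0 := by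
  have h1 : Real.smoothTransition =ᶠ[𝓝 x] fun _ => (1 : ℝ) := by
    filter_upwards [Ioi_mem_nhds hx] with y hy
    exact Real.smoothTransition.one_of_one_le (le_of_lt hy)
  rw [h1.deriv_eq]; simp

theorem TTPsh2_S_deriv_le : ∃ C : ℝ, 0 ≤ C ∧ ∀ x, deriv Real.smoothTransition x ≤ C := by
  have hc : Continuous (deriv Real.smoothTransition) :=
    (TTPsh2_S_smooth.continuous_deriv (by simp))
  obtain ⟨C, hC⟩ := (isCompact_Icc (a := (0 : ℝ)) (b := 1)).exists_bound_of_continuousOn
    hc.continuousOn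
  refine ⟨max C 0, le_max_right _ _, fun x => ?_⟩
  rcases lt_or_ge x 0 with h1 | h1
  · rw [TTPsh2_S_deriv_left h1]; exact le_max_right _ _
  rcases lt_or_ge 1 x with h2 | h2
  · rw [TTPsh2_S_deriv_right h2]; exact le_max_right _ _
  · exact ((le_abs_self _).trans (hC x ⟨h1, h2⟩)).trans (le_max_left _ _)

/-- regularised absolute value -/
theorem TTPsh2_zeta : ∃ ζ : ℝ → ℝ, ContDiff ℝ ∞ ζ ∧ (∀ t, |deriv ζ t| ≤ 1) ∧
    (∀ t, 0 ≤ deriv (deriv ζ) t) ∧ (∀ t, 1 / 2 ≤ t → ζ t = t) ∧ (∀ t, t ≤ -(1 / 2) → ζ t = -t) ∧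
    (∀ t, |t| ≤ ζ t) ∧ ∀ t, ζ t ≤ |t| + 1 := by
  have hf : ContDiff ℝ ∞ (fun t : ℝ => 2 * Real.smoothTransition (1 / 2 + t) - 1) :=
    (contDiff_const.mul (TTPsh2_S_smooth.comp (contDiff_const.add contDiff_id))).sub contDiff_const
  obtain ⟨F, hF, hFd, hF0, hFe, hFi⟩ := TTPsh2_prim hf 0
  have hf1 : ∀ t : ℝ, |2 * Real.smoothTransition (1 / 2 + t) - 1| ≤ 1 := by
    intro t
    have h1 := Real.smoothTransition.nonneg (1 / 2 + t)
    have h2 := Real.smoothTransition.le_one (1 / 2 + t)
    rw [abs_le]; constructor <;> linarith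
  have hfr : ∀ t : ℝ, 1 / 2 ≤ t → 2 * Real.smoothTransition (1 / 2 + t) - 1 = 1 := by
    intro t ht
    rw [Real.smoothTransition.one_of_one_le (by linarith)]; norm_num
  have hfl : ∀ t : ℝ, t ≤ -(1 / 2) → 2 * Real.smoothTransition (1 / 2 + t) - 1 = -1 := by
    intro t ht
    rw [Real.smoothTransition.zero_of_nonpos (by linarith)]; norm_num
  have heven : F (-(1 / 2)) = F (1 / 2) := by
    have h1 : ∀ t, HasDerivAt (fun t => F (-t) - F t) 0 t := by
      intro t
      have h2 : HasDerivAt (fun t => F (-t)) ((2 * Real.smoothTransition (1 / 2 + -t) - 1) * (-1)) t :=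
        (hFd (-t)).comp t (hasDerivAt_neg t)
      have h3 := h2.sub (hFd t)
      have h4 : (2 * Real.smoothTransition (1 / 2 + -t) - 1) * (-1) -
          (2 * Real.smoothTransition (1 / 2 + t) - 1) = 0 := by
        have := TTPsh2_S_symm t
        rw [← sub_eq_add_neg]
        linarith
      rwa [h4] at h3
    have h2 := is_const_of_deriv_eq_zero (f := fun t => F (-t) - F t)
      (fun t => (h1 t).differentiableAt) (fun t => (h1 t).deriv) (1 / 2) 0
    simp only [neg_zero, sub_self] at h2
    linarith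
  have hright : ∀ t, 1 / 2 ≤ t → F t - F (1 / 2) = t - 1 / 2 := by
    intro t ht
    rw [hFi]
    have h1 : ∫ u in (1 / 2 : ℝ)..t, (2 * Real.smoothTransition (1 / 2 + u) - 1) =
        ∫ _u in (1 / 2 : ℝ)..t, (1 : ℝ) := by
      refine intervalIntegral.integral_congr fun u hu => ?_
      rw [uIcc_of_le ht] at hu
      exact hfr u hu.1
    rw [h1]; simp
  have hleft : ∀ t, t ≤ -(1 / 2) → F t - F (-(1 / 2)) = -t - 1 / 2 := by
    intro t ht
    rw [hFi]
    have h1 : ∫ u in (-(1 / 2) : ℝ)..t, (2 * Real.smoothTransition (1 / 2 + u) - 1) =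
        ∫ _u in (-(1 / 2) : ℝ)..t, (-1 : ℝ) := by
      refine intervalIntegral.integral_congr fun u hu => ?_
      rw [uIcc_of_ge ht] at hu
      exact hfl u hu.2
    rw [h1]
    simp only [intervalIntegral.integral_const, smul_eq_mul]
    ring
  have hzd : deriv (fun t => F t + (1 / 2 - F (1 / 2))) =
      fun t : ℝ => 2 * Real.smoothTransition (1 / 2 + t) - 1 := by
    funext t
    exact ((hFd t).add_const _).deriv
  have hanti : Antitone (fun t => F t + (1 / 2 - F (1 / 2)) - t) := by
    refine antitone_of_deriv_nonpos (fun t => (((hFd t).add_const _).sub (hasDerivAt_id t)).differentiableAt) ?_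
    intro t
    have h1 := (((hFd t).add_const (1 / 2 - F (1 / 2))).sub (hasDerivAt_id t)).deriv
    have h2 : deriv (fun t => F t + (1 / 2 - F (1 / 2)) - t) t =
      2 * Real.smoothTransition (1 / 2 + t) - 1 - 1 := h1
    rw [h2]
    have := (abs_le.1 (hf1 t)).2
    linarith
  have hmono : Monotone (fun t => F t + (1 / 2 - F (1 / 2)) + t) := by
    refine monotone_of_deriv_nonneg (fun t => (((hFd t).add_const _).add (hasDerivAt_id t)).differentiableAt) ?_
    intro t
    have h1 := (((hFd t).add_const (1 / 2 - F (1 / 2))).add (hasDerivAt_id t)).deriv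
    have h2 : deriv (fun t => F t + (1 / 2 - F (1 / 2)) + t) t =
      2 * Real.smoothTransition (1 / 2 + t) - 1 + 1 := h1
    rw [h2]
    have := (abs_le.1 (hf1 t)).1
    linarith
  refine ⟨fun t => F t + (1 / 2 - F (1 / 2)), hF.add contDiff_const, ?_, ?_, ?_, ?_, ?_, ?_⟩
  · intro t; rw [hzd]; exact hf1 t
  · intro t
    rw [hzd]
    have h1 : HasDerivAt (fun t : ℝ => 2 * Real.smoothTransition (1 / 2 + t) - 1)
        (2 * (deriv Real.smoothTransition (1 / 2 + t) * 1)) t := by
      have h2 : HasDerivAt Real.smoothTransition (deriv Real.smoothTransition (1 / 2 + t))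
          (1 / 2 + t) := (TTPsh2_S_smooth.differentiable (by simp)).differentiableAt.hasDerivAt
      exact ((h2.comp t ((hasDerivAt_id t).const_add (1 / 2))).const_mul 2).sub_const 1
    rw [h1.deriv]
    have := TTPsh2_S_deriv_nonneg (1 / 2 + t)
    linarith
  · intro t ht
    have := hright t ht
    simp only; linarith
  · intro t ht
    have := hleft t ht
    simp only; linarith
  · intro t
    have h1 := hanti (le_max_left t (1 / 2))
    have h2 := hright (max t (1 / 2)) (le_max_right _ _)
    have h3 := hmono (min_le_left t (-(1 / 2)))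
    have h4 := hleft (min t (-(1 / 2))) (min_le_right _ _)
    simp only at h1 h3 ⊢
    rw [abs_le']; constructor <;> linarith
  · intro t
    simp only
    rcases le_total (1 / 2) t with h1 | h1
    · have h2 := hright t h1
      have := le_abs_self t
      linarith
    · rcases le_total t (-(1 / 2)) with h2 | h2
      · have h3 := hleft t h2
        have := neg_le_abs t
        linarith
      · rcases le_total 0 t with h3 | h3
        · have h4 := hmono h1
          have h5 := hright (1 / 2) le_rfl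
          simp only at h4
          have := le_abs_self t
          linarith
        · have h4 := hanti h2
          simp only at h4
          have := neg_le_abs t
          linarith

/-- truncated logarithm variable: `ψ y = y + const` for `y ≤ -1`, `ψ = 0` for `y ≥ 0`. -/
theorem TTPsh2_psi : ∃ (ψ : ℝ → ℝ) (Cψ : ℝ), ContDiff ℝ ∞ ψ ∧ 0 ≤ Cψ ∧
    (∀ t, 0 ≤ deriv ψ t) ∧ (∀ t, deriv ψ t ≤ 1) ∧
    (∀ t, -Cψ ≤ deriv (deriv ψ) t) ∧ (∀ t, t < -1 → deriv (deriv ψ) t = 0) ∧
    (∀ t, 0 ≤ t → ψ t = 0) ∧ (∀ t, ψ t ≤ 0) ∧ (∀ t, ψ t ≤ t + 1) ∧ (∀ t, t ≤ 0 → t ≤ ψ t) := by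
  have hf : ContDiff ℝ ∞ (fun t : ℝ => 1 - Real.smoothTransition (1 + t)) :=
    contDiff_const.sub (TTPsh2_S_smooth.comp (contDiff_const.add contDiff_id))
  obtain ⟨F, hF, hFd, hF0, hFe, hFi⟩ := TTPsh2_prim hf 0
  obtain ⟨C, hC0, hC⟩ := TTPsh2_S_deriv_le
  have h0 : ∀ t : ℝ, 0 ≤ 1 - Real.smoothTransition (1 + t) := fun t => by
    have := Real.smoothTransition.le_one (1 + t); linarith
  have h1 : ∀ t : ℝ, 1 - Real.smoothTransition (1 + t) ≤ 1 := fun t => by
    have := Real.smoothTransition.nonneg (1 + t); linarith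
  have hdd : ∀ t : ℝ, deriv (fun t : ℝ => 1 - Real.smoothTransition (1 + t)) t =
      - deriv Real.smoothTransition (1 + t) := by
    intro t
    have h2 : HasDerivAt Real.smoothTransition (deriv Real.smoothTransition (1 + t))
        (1 + t) := (TTPsh2_S_smooth.differentiable (by simp)).differentiableAt.hasDerivAt
    have h3 := (h2.comp t ((hasDerivAt_id t).const_add 1)).const_sub 1
    have h4 := h3.deriv
    rw [mul_one] at h4
    exact h4
  have hmono : Monotone F := monotone_of_deriv_nonneg (fun t => (hFd t).differentiableAt) fun t => by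
    rw [hFe]; exact h0 t
  have hanti : Antitone (fun t => F t - t) := by
    refine antitone_of_deriv_nonpos (fun t => ((hFd t).sub (hasDerivAt_id t)).differentiableAt) ?_
    intro t
    have h2 : deriv (fun t => F t - t) t = 1 - Real.smoothTransition (1 + t) - 1 :=
      ((hFd t).sub (hasDerivAt_id t)).deriv
    rw [h2]
    have := h1 t
    linarith
  have hz : ∀ t, 0 ≤ t → F t = 0 := by
    intro t ht
    have h2 := hFi 0 t
    rw [hF0, sub_zero] at h2
    rw [h2]
    have h3 : ∫ u in (0 : ℝ)..t, (1 - Real.smoothTransition (1 + u)) = ∫ _u in (0 : ℝ)..t, (0 : ℝ) := by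
      refine intervalIntegral.integral_congr fun u hu => ?_
      rw [uIcc_of_le ht] at hu
      rw [Real.smoothTransition.one_of_one_le (by linarith [hu.1]), sub_self]
    rw [h3]; simp
  have hle : ∀ t, F t ≤ 0 := by
    intro t
    have h2 := hmono (le_max_left t 0)
    rwa [hz _ (le_max_right _ _)] at h2
  refine ⟨F, C, hF, hC0, fun t => by rw [hFe]; exact h0 t, fun t => by rw [hFe]; exact h1 t,
    fun t => ?_, fun t ht => ?_, hz, hle, fun t => ?_, fun t ht => ?_⟩
  · rw [hFe, hdd]
    have := hC (1 + t)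
    linarith
  · rw [hFe, hdd, TTPsh2_S_deriv_left (by linarith), neg_zero]
  · rcases le_total (-1) t with h2 | h2
    · have := hle t
      linarith
    · -- for `t ≤ -1` the derivative is one
      have h3 := hFi t (-1)
      have h4 : ∫ u in t..(-1 : ℝ), (1 - Real.smoothTransition (1 + u)) = ∫ _u in t..(-1 : ℝ), (1 : ℝ) := by
        refine intervalIntegral.integral_congr fun u hu => ?_
        rw [uIcc_of_le h2] at hu
        rw [Real.smoothTransition.zero_of_nonpos (by linarith [hu.2]), sub_zero]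
      rw [h4] at h3
      simp only [intervalIntegral.integral_const, smul_eq_mul, mul_one] at h3
      have := hle (-1)
      linarith
  · have h2 := hanti ht
    simp only [hF0, sub_zero] at h2
    linarith

/-- smooth convex increasing function -/
theorem TTPsh2_h : ∃ h : ℝ → ℝ, ContDiff ℝ ∞ h ∧ (∀ t, 0 ≤ deriv h t) ∧ (∀ t, deriv h t ≤ 2) ∧
    (∀ t, 0 ≤ deriv (deriv h) t) ∧ (∀ t, t ≤ 0 → h t = 0) ∧ (∀ t, 0 ≤ h t) ∧
    (∀ t, 1 ≤ t → 1 ≤ h t) := by
  have hf : ContDiff ℝ ∞ (fun t : ℝ => 2 * Real.smoothTransition (2 * t)) :=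
    contDiff_const.mul (TTPsh2_S_smooth.comp (contDiff_const.mul contDiff_id))
  obtain ⟨F, hF, hFd, hF0, hFe, hFi⟩ := TTPsh2_prim hf 0
  have h0 : ∀ t : ℝ, 0 ≤ 2 * Real.smoothTransition (2 * t) := fun t => by
    have := Real.smoothTransition.nonneg (2 * t); linarith
  have hmono : Monotone F := monotone_of_deriv_nonneg (fun t => (hFd t).differentiableAt) fun t => by
    rw [hFe]; exact h0 t
  have hz : ∀ t, t ≤ 0 → F t = 0 := by
    intro t ht
    have h2 := hFi 0 t
    rw [hF0, sub_zero] at h2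
    rw [h2]
    have h3 : ∫ u in (0 : ℝ)..t, (2 * Real.smoothTransition (2 * u)) = ∫ _u in (0 : ℝ)..t, (0 : ℝ) := by
      refine intervalIntegral.integral_congr fun u hu => ?_
      rw [uIcc_of_ge ht] at hu
      rw [Real.smoothTransition.zero_of_nonpos (by linarith [hu.2]), mul_zero]
    rw [h3]; simp
  refine ⟨F, hF, fun t => by rw [hFe]; exact h0 t, fun t => ?_, fun t => ?_, hz, fun t => ?_,
    fun t ht => ?_⟩
  · rw [hFe]
    have := Real.smoothTransition.le_one (2 * t)
    simp only; linarith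
  · rw [hFe]
    have h2 : HasDerivAt Real.smoothTransition (deriv Real.smoothTransition (2 * t))
        (2 * t) := (TTPsh2_S_smooth.differentiable (by simp)).differentiableAt.hasDerivAt
    have h3 := (h2.comp t ((hasDerivAt_id t).const_mul 2)).const_mul 2
    have h4 : deriv (fun t : ℝ => 2 * Real.smoothTransition (2 * t)) t =
        2 * (deriv Real.smoothTransition (2 * t) * (2 * 1)) := h3.deriv
    rw [h4]
    have := TTPsh2_S_deriv_nonneg (2 * t)
    linarith
  · have h2 := hmono (min_le_left t 0)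
    rwa [hz _ (min_le_right _ _)] at h2
  · have h2 := hmono ht
    have h3 := hFi (1 / 2) 1
    have h4 : ∫ u in (1 / 2 : ℝ)..1, (2 * Real.smoothTransition (2 * u)) =
        ∫ _u in (1 / 2 : ℝ)..1, (2 : ℝ) := by
      refine intervalIntegral.integral_congr fun u hu => ?_
      rw [uIcc_of_le (by norm_num)] at hu
      rw [Real.smoothTransition.one_of_one_le (by linarith [hu.1]), mul_one]
    rw [h4] at h3
    simp only [intervalIntegral.integral_const, smul_eq_mul] at h3
    have h5 : 0 ≤ F (1 / 2) := by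
      have h6 := hmono (show (0 : ℝ) ≤ 1 / 2 by norm_num)
      rwa [hF0] at h6
    linarith

end OkaP
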