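import Pool.Agent.H.MP_ceb9a9.TTPsh2
import Pool.Agent.H.MP_ceb9a9.Scv1

/-!
# MP_ceb9a9: the truncated logarithm of the thin tube
-/

set_option autoImplicit false
set_option linter.unusedSectionVars false

namespace OkaP

open Set Metric Topology
open scoped ContDiff

theorem tt_two_le : (2 : WithTop ℕ∞) ≤ ((⊤ : ℕ∞) : WithTop ℕ∞) := by
  have h : ((2 : ℕ∞) : WithTop ℕ∞) ≤ ((⊤ : ℕ∞) : WithTop ℕ∞) := WithTop.coe_le_coe.2 le_top
  exact h

/-- the square of the Euclidean norm of `û`. -/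
noncomputable def ttP {E : Type} {m : ℕ} (û : E → (Fin m → ℂ)) (x : E) : ℝ :=
  ∑ i, Complex.normSq (û x i)

theorem ttP_nonneg {E : Type} {m : ℕ} (û : E → (Fin m → ℂ)) (x : E) : 0 ≤ ttP û x :=
  Finset.sum_nonneg fun _ _ => Complex.normSq_nonneg _

theorem ttP_ge {E : Type} {m : ℕ} (û : E → (Fin m → ℂ)) (x : E) : ‖û x‖ ^ 2 ≤ ttP û x := by
  have h1 : ‖û x‖ ≤ Real.sqrt (ttP û x) := by
    refine (pi_norm_le_iff_of_nonneg (Real.sqrt_nonneg _)).2 fun i => ?_
    refine Real.le_sqrt_of_sq_le ?_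
    rw [← Complex.normSq_eq_norm_sq]
    exact Finset.single_le_sum (f := fun i => Complex.normSq (û x i))
      (fun i _ => Complex.normSq_nonneg _) (Finset.mem_univ i)
  calc ‖û x‖ ^ 2 ≤ (Real.sqrt (ttP û x)) ^ 2 := by gcongr
    _ = _ := Real.sq_sqrt (ttP_nonneg û x)

theorem ttP_le {E : Type} {m : ℕ} (û : E → (Fin m → ℂ)) (x : E) :
    ttP û x ≤ m * ‖û x‖ ^ 2 := by
  calc ttP û x ≤ ∑ _i : Fin m, ‖û x‖ ^ 2 := by
        refine Finset.sum_le_sum fun i _ => ?_
        rw [Complex.normSq_eq_norm_sq]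
        have := norm_le_pi_norm (û x) i
        gcongr
    _ = _ := by simp

section General

variable {E : Type} [NormedAddCommGroup E] [NormedSpace ℂ E] [FiniteDimensional ℂ E]
  {m : ℕ} {N : Set E} {û : E → (Fin m → ℂ)}

theorem ttP_smooth (hN : IsOpen N) (hû : DifferentiableOn ℂ û N) : ContDiffOn ℝ ∞ (ttP û) N := by
  have h1 : ContDiffOn ℂ ∞ û N := contDiffOn_infty.2 fun n => contDiffOn_of_diff hN hû n
  have h2 : ContDiffOn ℝ ∞ û N := h1.restrict_scalars ℝ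
  unfold ttP
  refine ContDiffOn.sum fun i _ => ?_
  have h3 : ContDiffOn ℝ ∞ (fun x => û x i) N := (contDiffOn_pi.1 h2) i
  have h4 : ContDiffOn ℝ ∞ (fun x => (û x i).re) N := Complex.reCLM.contDiff.comp_contDiffOn h3
  have h5 : ContDiffOn ℝ ∞ (fun x => (û x i).im) N := Complex.imCLM.contDiff.comp_contDiffOn h3
  have h6 : (fun x => Complex.normSq (û x i)) =
      fun x => (û x i).re * (û x i).re + (û x i).im * (û x i).im := by
    funext x; rw [Complex.normSq_apply]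
  rw [h6]
  exact (h4.mul h4).add (h5.mul h5)

theorem ttP_facts (hN : IsOpen N) (hû : DifferentiableOn ℂ û N) {x : E} (hx : x ∈ N) (v : E) :
    levi (ttP û) x v = ∑ i, Complex.normSq (fderiv ℂ û x v i) ∧
    tt_lgr (ttP û) x v ≤ ttP û x * ∑ i, Complex.normSq (fderiv ℂ û x v i) ∧
    ‖fderiv ℝ (ttP û) x v‖ ^ 2 ≤ 4 * (ttP û x * ∑ i, Complex.normSq (fderiv ℂ û x v i)) := by
  have hfi : ∀ i, DifferentiableOn ℂ (fun y => û y i) N := fun i =>
    (differentiableOn_pi.1 hû) i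
  have hfi2 : ∀ i v, DifferentiableOn ℂ (fun y => fderiv ℂ (fun y => û y i) y v) N := fun i v =>
    (differentiableOn_fderiv hN (hfi i)).clm_apply (differentiableOn_const v)
  have hcomp : ∀ i w, fderiv ℂ (fun y => û y i) x w = fderiv ℂ û x w i := by
    intro i w
    have h1 : HasFDerivAt û (fderiv ℂ û x) x := (hû.differentiableAt (hN.mem_nhds hx)).hasFDerivAt
    rw [((hasFDerivAt_pi'.1 h1) i).fderiv]
    rfl
  have hns : ∀ i, ContDiffOn ℝ ∞ (fun x => Complex.normSq (û x i)) N := by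
    intro i
    have h1 : ContDiffOn ℂ ∞ û N := contDiffOn_infty.2 fun n => contDiffOn_of_diff hN hû n
    have h3 : ContDiffOn ℝ ∞ (fun x => û x i) N := (contDiffOn_pi.1 (h1.restrict_scalars ℝ)) i
    have h4 : ContDiffOn ℝ ∞ (fun x => (û x i).re) N := Complex.reCLM.contDiff.comp_contDiffOn h3
    have h5 : ContDiffOn ℝ ∞ (fun x => (û x i).im) N := Complex.imCLM.contDiff.comp_contDiffOn h3
    have h6 : (fun x => Complex.normSq (û x i)) =
        fun x => (û x i).re * (û x i).re + (û x i).im * (û x i).im := by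
      funext x; rw [Complex.normSq_apply]
    rw [h6]
    exact (h4.mul h4).add (h5.mul h5)
  have hns2 : ∀ i, ContDiffAt ℝ 2 (fun x => Complex.normSq (û x i)) x := fun i =>
    ((hns i).contDiffAt (hN.mem_nhds hx)).of_le tt_two_le
  have hlevi : levi (ttP û) x v = ∑ i, Complex.normSq (fderiv ℂ û x v i) := by
    unfold ttP
    rw [tt_levi_sum Finset.univ (fun i _ => hns2 i)]
    refine Finset.sum_congr rfl fun i _ => ?_
    rw [(TTPsh1_normSq hN hx (hfi i) (hfi2 i) v).2, hcomp]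
  have hder : ∀ w, fderiv ℝ (ttP û) x w =
      2 * (∑ i, (starRingEnd ℂ) (û x i) * fderiv ℂ û x w i).re := by
    intro w
    have h1 : HasFDerivAt (ttP û) (∑ i, fderiv ℝ (fun y => Complex.normSq (û y i)) x) x := by
      unfold ttP
      exact HasFDerivAt.fun_sum fun i _ => ((hns2 i).differentiableAt (by norm_num)).hasFDerivAt
    rw [h1.fderiv, _root_.sum_apply, Complex.re_sum, Finset.mul_sum]
    refine Finset.sum_congr rfl fun i _ => ?_
    rw [(TTPsh1_normSq hN hx (hfi i) (hfi2 i) v).1 w, hcomp]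
    simp only [Complex.mul_re, Complex.conj_re, Complex.conj_im]
    ring
  have hCS : ∀ w, ‖∑ i, (starRingEnd ℂ) (û x i) * fderiv ℂ û x w i‖ ^ 2 ≤
      ttP û x * ∑ i, Complex.normSq (fderiv ℂ û x w i) := by
    intro w
    have h1 : ‖∑ i, (starRingEnd ℂ) (û x i) * fderiv ℂ û x w i‖ ≤
        ∑ i, ‖û x i‖ * ‖fderiv ℂ û x w i‖ := by
      refine (norm_sum_le _ _).trans (le_of_eq ?_)
      refine Finset.sum_congr rfl fun i _ => ?_
      rw [norm_mul, RCLike.norm_conj]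
    have h2 := Finset.sum_mul_sq_le_sq_mul_sq Finset.univ (fun i => ‖û x i‖)
      (fun i => ‖fderiv ℂ û x w i‖)
    calc ‖∑ i, (starRingEnd ℂ) (û x i) * fderiv ℂ û x w i‖ ^ 2
        ≤ (∑ i, ‖û x i‖ * ‖fderiv ℂ û x w i‖) ^ 2 := by gcongr
      _ ≤ _ := h2
      _ = _ := by
        unfold ttP
        simp only [Complex.normSq_eq_norm_sq]
  have hI : ∑ i, (starRingEnd ℂ) (û x i) * fderiv ℂ û x (Complex.I • v) i =
      Complex.I * ∑ i, (starRingEnd ℂ) (û x i) * fderiv ℂ û x v i := by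
    rw [Finset.mul_sum]
    refine Finset.sum_congr rfl fun i _ => ?_
    rw [map_smul, Pi.smul_apply, smul_eq_mul]
    ring
  refine ⟨hlevi, ?_, ?_⟩
  · refine le_trans (le_of_eq ?_) (hCS v)
    rw [tt_lgr, hder, hder, hI, ← Complex.normSq_eq_norm_sq, Complex.normSq_apply]
    simp only [Complex.mul_re, Complex.I_re, Complex.I_im]
    ring
  · rw [hder, norm_mul, mul_pow]
    have h1 : ‖(∑ i, (starRingEnd ℂ) (û x i) * fderiv ℂ û x v i).re‖ ≤
        ‖∑ i, (starRingEnd ℂ) (û x i) * fderiv ℂ û x v i‖ := Complex.abs_re_le_norm _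
    have h2 := hCS v
    have h3 : ‖(∑ i, (starRingEnd ℂ) (û x i) * fderiv ℂ û x v i).re‖ ^ 2 ≤
        ‖∑ i, (starRingEnd ℂ) (û x i) * fderiv ℂ û x v i‖ ^ 2 := by gcongr
    have h4 : ‖(2 : ℝ)‖ ^ 2 = 4 := by norm_num
    rw [h4]
    linarith

/-- the truncated logarithm -/
theorem TTPsh3_lam {R' : ℝ} (hN : IsOpen N) (hû : DifferentiableOn ℂ û N)
    {c3 : ℝ} (hc3 : 0 < c3)
    (hT : IsCompact {x | x ∈ closedBall (0 : E) R' ∧ x ∈ N ∧ ‖û x‖ ≤ c3}) :
    ∃ M0 C2 : ℝ, 0 ≤ M0 ∧ 0 ≤ C2 ∧ ∀ om : ℝ, 0 < om → ∃ lam : E → ℝ,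
      ContDiffOn ℝ ∞ lam (ball 0 R') ∧
      (∀ x ∈ ball (0 : E) R', ∀ v, -M0 * ‖v‖ ^ 2 ≤ levi lam x v) ∧
      (∀ x ∈ ball (0 : E) R', ‖fderiv ℝ lam x‖ ≤ C2 * Real.exp (-lam x / 2)) ∧
      (∀ x, lam x ≤ 0) ∧
      (∀ x ∈ N, lam x ≤ Real.log (ttP û x + om ^ 2) - Real.log (c3 ^ 2) + 1) ∧
      (∀ x, x ∉ N → lam x = 0) ∧
      (∀ x ∈ N, lam x = 0 ∨ (Real.log (ttP û x + om ^ 2) - Real.log (c3 ^ 2) ≤ lam x ∧
        Real.log (ttP û x + om ^ 2) - Real.log (c3 ^ 2) ≤ 0)) := by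
  classical
  obtain ⟨ψ, Cψ, hψs, hCψ, hψ0, hψ1, hψ2, hψ3, hψz, hψn, hψu, hψl⟩ := TTPsh2_psi
  -- bound of the derivative on the tube
  obtain ⟨B, hB0, hB⟩ : ∃ B : ℝ, 0 ≤ B ∧ ∀ x, x ∈ closedBall (0 : E) R' → x ∈ N → ‖û x‖ ≤ c3 →
      ‖fderiv ℂ û x‖ ≤ B := by
    have hc : ContinuousOn (fderiv ℂ û) {x | x ∈ closedBall (0 : E) R' ∧ x ∈ N ∧ ‖û x‖ ≤ c3} :=
      (differentiableOn_fderiv hN hû).continuousOn.mono fun x hx => hx.2.1
    obtain ⟨B, hB⟩ := hT.exists_bound_of_continuousOn hc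
    exact ⟨max B 0, le_max_right _ _, fun x h1 h2 h3 => (hB x ⟨h1, h2, h3⟩).trans (le_max_left _ _)⟩
  have hA : ∀ x, x ∈ closedBall (0 : E) R' → x ∈ N → ‖û x‖ ≤ c3 → ∀ v,
      ∑ i, Complex.normSq (fderiv ℂ û x v i) ≤ m * B ^ 2 * ‖v‖ ^ 2 := by
    intro x h1 h2 h3 v
    have h4 : ‖fderiv ℂ û x v‖ ≤ B * ‖v‖ :=
      ((fderiv ℂ û x).le_opNorm v).trans (mul_le_mul_of_nonneg_right (hB x h1 h2 h3) (norm_nonneg v))
    calc ∑ i, Complex.normSq (fderiv ℂ û x v i) = ttP (fun _ : E => fderiv ℂ û x v) x := rfl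
      _ ≤ m * ‖fderiv ℂ û x v‖ ^ 2 := ttP_le _ _
      _ ≤ m * (B * ‖v‖) ^ 2 := by gcongr
      _ = _ := by ring
  refine ⟨Cψ * (m * B ^ 2) * (Real.exp 1 / c3 ^ 2),
    2 * Real.sqrt (m * B ^ 2) * (Real.exp (1 / 2) / c3), by positivity, by positivity, ?_⟩
  intro om hom
  have hpos : ∀ x, 0 < ttP û x + om ^ 2 := fun x => by
    have := ttP_nonneg û x
    positivity
  obtain ⟨Y, hY⟩ : ∃ Y : E → ℝ, Y = fun x => Real.log (ttP û x + om ^ 2) - Real.log (c3 ^ 2) :=
    ⟨_, rfl⟩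
  have hYs : ContDiffOn ℝ ∞ Y N := by
    rw [hY]
    exact (((ttP_smooth hN hû).add contDiffOn_const).log fun x _ => (hpos x).ne').sub
      contDiffOn_const
  have hPs2 : ∀ x ∈ N, ContDiffAt ℝ 2 (ttP û) x := fun x hx =>
    ((ttP_smooth hN hû).contDiffAt (hN.mem_nhds hx)).of_le tt_two_le
  have hYs2 : ∀ x ∈ N, ContDiffAt ℝ 2 Y x := fun x hx =>
    (hYs.contDiffAt (hN.mem_nhds hx)).of_le tt_two_le
  -- derivatives of the logarithm
  have hlog1 : ∀ t : ℝ, 0 ≤ t → HasDerivAt (fun t => Real.log (t + om ^ 2) - Real.log (c3 ^ 2))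
      (1 / (t + om ^ 2)) t := by
    intro t ht
    have h1 : HasDerivAt (fun t : ℝ => t + om ^ 2) 1 t := (hasDerivAt_id t).add_const _
    exact (h1.log (by positivity)).sub_const _
  have hlogd : ∀ t : ℝ, 0 ≤ t → deriv (fun t => Real.log (t + om ^ 2) - Real.log (c3 ^ 2)) =ᶠ[𝓝 t]
      fun t => 1 / (t + om ^ 2) := by
    intro t ht
    have h00 : 0 < om ^ 2 := by positivity
    have h0 : -om ^ 2 < t := by linarith
    filter_upwards [Ioi_mem_nhds h0] with u hu
    have h1 : HasDerivAt (fun t : ℝ => t + om ^ 2) 1 u := (hasDerivAt_id u).add_const _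
    have h2 : u + om ^ 2 ≠ 0 := by
      have : -om ^ 2 < u := hu
      linarith
    exact ((h1.log h2).sub_const _).deriv
  have hlog2 : ∀ t : ℝ, 0 ≤ t →
      deriv (deriv (fun t => Real.log (t + om ^ 2) - Real.log (c3 ^ 2))) t =
        -(1 / (t + om ^ 2) ^ 2) := by
    intro t ht
    rw [(hlogd t ht).deriv_eq]
    have h1 : HasDerivAt (fun t : ℝ => t + om ^ 2) 1 t := (hasDerivAt_id t).add_const _
    have h2 : t + om ^ 2 ≠ 0 := by positivity
    have h3 := (h1.inv h2).deriv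
    have h4 : (fun t : ℝ => 1 / (t + om ^ 2)) = (fun t : ℝ => t + om ^ 2)⁻¹ := by
      funext u; simp
    rw [h4, h3]
    ring
  have hlogs : ∀ t : ℝ, 0 ≤ t → ContDiffAt ℝ 2 (fun t => Real.log (t + om ^ 2) - Real.log (c3 ^ 2)) t := by
    intro t ht
    exact ((contDiffAt_id.add contDiffAt_const).log (by simp only [id]; positivity)).sub
      contDiffAt_const
  have hYlevi : ∀ x ∈ N, ∀ v, 0 ≤ levi Y x v ∧ tt_lgr Y x v ≤
      (∑ i, Complex.normSq (fderiv ℂ û x v i)) / (ttP û x + om ^ 2) ∧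
      ‖fderiv ℝ Y x v‖ ^ 2 ≤
        4 * (∑ i, Complex.normSq (fderiv ℂ û x v i)) / (ttP û x + om ^ 2) := by
    intro x hx v
    obtain ⟨h1, h2, h3⟩ := ttP_facts hN hû hx v
    obtain ⟨A, hAd⟩ : ∃ A : ℝ, A = ∑ i, Complex.normSq (fderiv ℂ û x v i) := ⟨_, rfl⟩
    rw [← hAd] at h1 h2 h3 ⊢
    have hA0 : 0 ≤ A := by
      rw [hAd]; exact Finset.sum_nonneg fun _ _ => Complex.normSq_nonneg _
    have hP0 := ttP_nonneg û x
    have hp := hpos x
    have h4 := tt_levi_comp (hPs2 x hx) (hlogs _ hP0) v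
    have h5 := tt_lgr_comp ((hPs2 x hx).differentiableAt (by norm_num))
      (hlog1 _ hP0).differentiableAt v
    have h6 := tt_fderiv_comp_real ((hPs2 x hx).differentiableAt (by norm_num))
      (hlog1 _ hP0).differentiableAt
    rw [hlog2 _ hP0, (hlog1 _ hP0).deriv, h1] at h4
    rw [(hlog1 _ hP0).deriv] at h5 h6
    rw [hY]
    have h7 : ttP û x * A ≤ (ttP û x + om ^ 2) * A := by
      have : 0 ≤ om ^ 2 * A := by positivity
      nlinarith
    have h8 : tt_lgr (ttP û) x v ≤ (ttP û x + om ^ 2) * A := h2.trans h7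
    refine ⟨?_, ?_, ?_⟩
    · rw [h4]
      have h9 : 1 / (ttP û x + om ^ 2) * A + -(1 / (ttP û x + om ^ 2) ^ 2) * tt_lgr (ttP û) x v =
          ((ttP û x + om ^ 2) * A - tt_lgr (ttP û) x v) / (ttP û x + om ^ 2) ^ 2 := by
        field_simp
        ring
      rw [h9]
      exact div_nonneg (by linarith) (by positivity)
    · rw [h5, le_div_iff₀ hp]
      calc (1 / (ttP û x + om ^ 2)) ^ 2 * tt_lgr (ttP û) x v * (ttP û x + om ^ 2)
          ≤ (1 / (ttP û x + om ^ 2)) ^ 2 * ((ttP û x + om ^ 2) * A) * (ttP û x + om ^ 2) := by gcongr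
        _ = A := by field_simp
    · rw [h6]
      simp only [_root_.smul_apply, smul_eq_mul]
      rw [norm_mul, mul_pow, Real.norm_of_nonneg (by positivity), le_div_iff₀ hp]
      calc (1 / (ttP û x + om ^ 2)) ^ 2 * ‖fderiv ℝ (ttP û) x v‖ ^ 2 * (ttP û x + om ^ 2)
          ≤ (1 / (ttP û x + om ^ 2)) ^ 2 * (4 * ((ttP û x + om ^ 2) * A)) * (ttP û x + om ^ 2) := by
            gcongr
            linarith
        _ = 4 * A := by field_simp
  -- the function
  obtain ⟨lam, hlam⟩ : ∃ lam : E → ℝ, lam = fun x => if x ∈ N then ψ (Y x) else 0 := ⟨_, rfl⟩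
  have hlamN : ∀ x ∈ N, lam x = ψ (Y x) := fun x hx => by rw [hlam]; simp only [hx, if_true]
  have hlamN' : ∀ x, x ∉ N → lam x = 0 := fun x hx => by rw [hlam]; simp only [hx, if_false]
  have hlamE : ∀ x ∈ N, lam =ᶠ[𝓝 x] fun y => ψ (Y y) := fun x hx => by
    filter_upwards [hN.mem_nhds hx] with y hy using hlamN y hy
  have hYle : ∀ x ∈ N, Y x ≤ 0 → ‖û x‖ ≤ c3 ∧ ttP û x + om ^ 2 ≤ c3 ^ 2 := by
    intro x hx hYx
    rw [hY] at hYx
    have h1 : Real.log (ttP û x + om ^ 2) ≤ Real.log (c3 ^ 2) := by linarith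
    have h2 := (Real.log_le_log_iff (hpos x) (by positivity)).1 h1
    refine ⟨?_, h2⟩
    have h3 := ttP_ge û x
    have h4 : 0 < om ^ 2 := by positivity
    exact (abs_le_of_sq_le_sq' (by linarith) hc3.le).2
  have hlamE' : ∀ x ∈ ball (0 : E) R', x ∉ N → lam =ᶠ[𝓝 x] fun _ => 0 := by
    intro x hx hxN
    have h1 : x ∉ {x | x ∈ closedBall (0 : E) R' ∧ x ∈ N ∧ ‖û x‖ ≤ c3} := fun h => hxN h.2.1
    filter_upwards [hT.isClosed.isOpen_compl.mem_nhds h1, isOpen_ball.mem_nhds hx] with y hy hy'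
    by_cases hyN : y ∈ N
    · rw [hlamN y hyN]
      rcases le_total (Y y) 0 with h2 | h2
      · exact absurd ⟨ball_subset_closedBall hy', hyN, (hYle y hyN h2).1⟩ hy
      · exact hψz _ h2
    · exact hlamN' y hyN
  have hψ2s : ∀ t, ContDiffAt ℝ 2 ψ t := fun t => hψs.contDiffAt.of_le tt_two_le
  have hψd : ∀ t, DifferentiableAt ℝ ψ t := fun t => (hψ2s t).differentiableAt (by norm_num)
  have hlamE0 : ∀ x ∈ N, 0 < Y x → lam =ᶠ[𝓝 x] fun _ => 0 := by
    intro x hx hYx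
    have h1 : ∀ᶠ y in 𝓝 x, 0 < Y y := (hYs2 x hx).continuousAt.eventually (lt_mem_nhds hYx)
    filter_upwards [h1, hN.mem_nhds hx] with y hy1 hy2
    rw [hlamN y hy2]
    exact hψz _ hy1.le
  refine ⟨lam, ?_, ?_, ?_, ?_, ?_, hlamN', ?_⟩
  · intro x hx
    refine ContDiffAt.contDiffWithinAt ?_
    by_cases hxN : x ∈ N
    · exact (hψs.contDiffAt.comp x (hYs.contDiffAt (hN.mem_nhds hxN))).congr_of_eventuallyEq
        (hlamE x hxN)
    · exact contDiffAt_const.congr_of_eventuallyEq (hlamE' x hx hxN)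
  · intro x hx v
    have hM : 0 ≤ Cψ * (m * B ^ 2) * (Real.exp 1 / c3 ^ 2) := by positivity
    have hneg : -(Cψ * (m * B ^ 2) * (Real.exp 1 / c3 ^ 2)) * ‖v‖ ^ 2 ≤ 0 := by
      have : 0 ≤ (Cψ * (m * B ^ 2) * (Real.exp 1 / c3 ^ 2)) * ‖v‖ ^ 2 := by positivity
      linarith
    by_cases hxN : x ∈ N
    · rcases lt_or_ge 0 (Y x) with h1 | h1
      · rw [tt_levi_congr (hlamE0 x hxN h1), tt_levi_const]
        exact hneg
      · obtain ⟨h2, h3, -⟩ := hYlevi x hxN v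
        rw [tt_levi_congr (hlamE x hxN), tt_levi_comp (hYs2 x hxN) (hψ2s _)]
        have h4 : 0 ≤ deriv ψ (Y x) * levi Y x v := mul_nonneg (hψ0 _) h2
        rcases lt_or_ge (Y x) (-1) with h5 | h5
        · rw [hψ3 _ h5, zero_mul, add_zero]
          linarith
        · obtain ⟨h6, h7⟩ := hYle x hxN h1
          have h8 := hA x (ball_subset_closedBall hx) hxN h6 v
          have h9 : c3 ^ 2 * Real.exp (-1) ≤ ttP û x + om ^ 2 := by
            rw [hY] at h5
            have h10 : Real.log (c3 ^ 2) + (-1) ≤ Real.log (ttP û x + om ^ 2) := by linarith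
            have h11 := Real.exp_le_exp.2 h10
            rwa [Real.exp_add, Real.exp_log (by positivity), Real.exp_log (hpos x)] at h11
          have h10 : tt_lgr Y x v ≤ (m * B ^ 2) * (Real.exp 1 / c3 ^ 2) * ‖v‖ ^ 2 := by
            refine h3.trans ?_
            rw [div_le_iff₀ (hpos x)]
            calc ∑ i, Complex.normSq (fderiv ℂ û x v i) ≤ m * B ^ 2 * ‖v‖ ^ 2 := h8
              _ = (m * B ^ 2) * (Real.exp 1 / c3 ^ 2) * ‖v‖ ^ 2 * (c3 ^ 2 * Real.exp (-1)) := by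
                have h12 : Real.exp 1 * Real.exp (-1) = 1 := by rw [← Real.exp_add]; simp
                have h13 : c3 ≠ 0 := hc3.ne'
                have h14 : (m * B ^ 2) * (Real.exp 1 / c3 ^ 2) * ‖v‖ ^ 2 * (c3 ^ 2 * Real.exp (-1)) =
                    (m * B ^ 2) * ‖v‖ ^ 2 * (Real.exp 1 * Real.exp (-1)) := by
                  field_simp
                rw [h14, h12, mul_one]
              _ ≤ _ := mul_le_mul_of_nonneg_left h9 (by positivity)
          have h11 : -Cψ * tt_lgr Y x v ≤ deriv (deriv ψ) (Y x) * tt_lgr Y x v :=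
            mul_le_mul_of_nonneg_right (hψ2 _) (tt_lgr_nonneg _ _ _)
          have h12 : Cψ * tt_lgr Y x v ≤ Cψ * ((m * B ^ 2) * (Real.exp 1 / c3 ^ 2) * ‖v‖ ^ 2) :=
            mul_le_mul_of_nonneg_left h10 hCψ
          have h13 : Cψ * ((m * B ^ 2) * (Real.exp 1 / c3 ^ 2) * ‖v‖ ^ 2) =
            (Cψ * (m * B ^ 2) * (Real.exp 1 / c3 ^ 2)) * ‖v‖ ^ 2 := by ring
          linarith
    · rw [tt_levi_congr (hlamE' x hx hxN), tt_levi_const]
      exact hneg
  · intro x hx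
    have hC : 0 ≤ 2 * Real.sqrt (m * B ^ 2) * (Real.exp (1 / 2) / c3) * Real.exp (-lam x / 2) := by
      positivity
    by_cases hxN : x ∈ N
    · rcases lt_or_ge 0 (Y x) with h1 | h1
      · rw [(hlamE0 x hxN h1).fderiv_eq]
        simpa using hC
      · obtain ⟨h6, h7⟩ := hYle x hxN h1
        have hYd : DifferentiableAt ℝ Y x := (hYs2 x hxN).differentiableAt (by norm_num)
        rw [(hlamE x hxN).fderiv_eq, tt_fderiv_comp_real hYd (hψd _)]
        refine ContinuousLinearMap.opNorm_le_bound _ hC fun v => ?_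
        simp only [_root_.smul_apply, smul_eq_mul]
        obtain ⟨-, -, h3⟩ := hYlevi x hxN v
        have h8 := hA x (ball_subset_closedBall hx) hxN h6 v
        have hp := hpos x
        have h9 : ‖fderiv ℝ Y x v‖ ≤ 2 * Real.sqrt (m * B ^ 2) / Real.sqrt (ttP û x + om ^ 2) * ‖v‖ := by
          refine abs_le_of_sq_le_sq ?_ (by positivity)
          rw [mul_pow, div_pow, mul_pow, Real.sq_sqrt (by positivity), Real.sq_sqrt hp.le]
          rw [Real.norm_eq_abs, sq_abs] at h3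
          refine h3.trans ?_
          calc 4 * (∑ i, Complex.normSq (fderiv ℂ û x v i)) / (ttP û x + om ^ 2)
              ≤ 4 * (m * B ^ 2 * ‖v‖ ^ 2) / (ttP û x + om ^ 2) := by gcongr
            _ = _ := by ring
        have h10 : ‖deriv ψ (Y x) * fderiv ℝ Y x v‖ ≤ ‖fderiv ℝ Y x v‖ := by
          rw [norm_mul]
          have h11 : ‖deriv ψ (Y x)‖ ≤ 1 := by
            rw [Real.norm_of_nonneg (hψ0 _)]; exact hψ1 _
          calc ‖deriv ψ (Y x)‖ * ‖fderiv ℝ Y x v‖ ≤ 1 * ‖fderiv ℝ Y x v‖ :=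
                mul_le_mul_of_nonneg_right h11 (norm_nonneg _)
            _ = _ := one_mul _
        refine h10.trans (h9.trans ?_)
        refine mul_le_mul_of_nonneg_right ?_ (norm_nonneg v)
        -- `exp (-lam/2) ≥ exp (-(Y+1)/2)`
        have h11 : Real.exp (-(Y x + 1) / 2) ≤ Real.exp (-lam x / 2) := by
          refine Real.exp_le_exp.2 ?_
          rw [hlamN x hxN]
          have := hψu (Y x)
          linarith
        have h12 : Real.exp (-(Y x + 1) / 2) =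
            Real.exp (-(1 / 2)) * (c3 / Real.sqrt (ttP û x + om ^ 2)) := by
          have h13 : -(Y x + 1) / 2 = -(1 / 2) + (Real.log c3 - Real.log (Real.sqrt (ttP û x + om ^ 2))) := by
            rw [hY, Real.log_sqrt hp.le, Real.log_pow]
            push_cast
            ring
          rw [h13, Real.exp_add, Real.exp_sub, Real.exp_log hc3, Real.exp_log (Real.sqrt_pos.2 hp)]
        rw [h12] at h11
        have h14 : Real.exp (1 / 2) * Real.exp (-(1 / 2)) = 1 := by rw [← Real.exp_add]; simp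
        have h15 : 0 < Real.sqrt (ttP û x + om ^ 2) := Real.sqrt_pos.2 hp
        calc 2 * Real.sqrt (m * B ^ 2) / Real.sqrt (ttP û x + om ^ 2)
            = 2 * Real.sqrt (m * B ^ 2) * (Real.exp (1 / 2) / c3) *
              (Real.exp (-(1 / 2)) * (c3 / Real.sqrt (ttP û x + om ^ 2))) := by
              have h16 : 2 * Real.sqrt (m * B ^ 2) * (Real.exp (1 / 2) / c3) *
                (Real.exp (-(1 / 2)) * (c3 / Real.sqrt (ttP û x + om ^ 2))) =
                2 * Real.sqrt (m * B ^ 2) * (Real.exp (1 / 2) * Real.exp (-(1 / 2))) /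
                  Real.sqrt (ttP û x + om ^ 2) := by
                field_simp
              rw [h16, h14, mul_one]
          _ ≤ _ := mul_le_mul_of_nonneg_left h11 (by positivity)
    · rw [(hlamE' x hx hxN).fderiv_eq]
      simpa using hC
  · intro x
    by_cases hxN : x ∈ N
    · rw [hlamN x hxN]; exact hψn _
    · rw [hlamN' x hxN]
  · intro x hx
    rw [hlamN x hx]
    have := hψu (Y x)
    rw [hY] at this ⊢
    exact this
  · intro x hx
    rcases le_total 0 (Y x) with h1 | h1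
    · left
      rw [hlamN x hx]; exact hψz _ h1
    · right
      have h2 := hψl _ h1
      rw [hlamN x hx]
      rw [hY] at h1 h2 ⊢
      exact ⟨h2, h1⟩

end General

end OkaP
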