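import Pool.Agent.H.MP_ceb9a9.TTPsh3

/-!
# MP_ceb9a9: regularised maxima and the square of the norm
-/

set_option autoImplicit false
set_option linter.unusedSectionVars false

namespace OkaP

open Set Metric Topology
open scoped ContDiff

section General

variable {E : Type} [NormedAddCommGroup E] [NormedSpace ℂ E]

theorem tt_levi_sub {φ ψ : E → ℝ} {x : E} (hφ : ContDiffAt ℝ 2 φ x) (hψ : ContDiffAt ℝ 2 ψ x)
    (v : E) : levi (fun y => φ y - ψ y) x v = levi φ x v - levi ψ x v := by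
  have h1 : (fun y => φ y - ψ y) = fun y => φ y + (-1) * ψ y := by funext y; ring
  rw [h1, tt_levi_add hφ (contDiffAt_const.mul hψ), tt_levi_const_mul hψ]
  ring

theorem tt_levi_add_const {φ : E → ℝ} {x : E} (hφ : ContDiffAt ℝ 2 φ x) (c : ℝ)
    (v : E) : levi (fun y => φ y + c) x v = levi φ x v := by
  rw [tt_levi_add hφ contDiffAt_const, tt_levi_const, add_zero]

theorem tt_regmax_levi {φ ψ : E → ℝ} {ζ : ℝ → ℝ} {x : E} (hφ : ContDiffAt ℝ 2 φ x)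
    (hψ : ContDiffAt ℝ 2 ψ x) (hζ : ContDiff ℝ ∞ ζ) (hζ2 : ∀ t, 0 ≤ deriv (deriv ζ) t) (v : E) :
    (1 + deriv ζ (φ x - ψ x)) / 2 * levi φ x v + (1 - deriv ζ (φ x - ψ x)) / 2 * levi ψ x v ≤
      levi (fun y => (φ y + ψ y + ζ (φ y - ψ y)) / 2) x v := by
  have hz : ContDiffAt ℝ 2 ζ (φ x - ψ x) := hζ.contDiffAt.of_le tt_two_le
  have hs : ContDiffAt ℝ 2 (fun y => φ y - ψ y) x := hφ.sub hψ
  have h1 : (fun y => (φ y + ψ y + ζ (φ y - ψ y)) / 2) =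
      fun y => (1 / 2) * (φ y + ψ y + ζ (φ y - ψ y)) := by funext y; ring
  have hc : ContDiffAt ℝ 2 (fun y => ζ (φ y - ψ y)) x :=
    ContDiffAt.comp (g := ζ) (f := fun y => φ y - ψ y) x hz hs
  have hcomp := tt_levi_comp (h := ζ) hs hz v
  rw [h1, tt_levi_const_mul ((hφ.add hψ).add hc), tt_levi_add (hφ.add hψ) hc,
    tt_levi_add hφ hψ, hcomp, tt_levi_sub hφ hψ]
  have h2 := tt_lgr_nonneg (fun y => φ y - ψ y) x v
  have h3 := mul_nonneg (hζ2 (φ x - ψ x)) h2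
  nlinarith

theorem tt_regmax_fderiv {φ ψ : E → ℝ} {ζ : ℝ → ℝ} {x : E} (hφ : DifferentiableAt ℝ φ x)
    (hψ : DifferentiableAt ℝ ψ x) (hζ : Differentiable ℝ ζ) (hζ1 : ∀ t, |deriv ζ t| ≤ 1) :
    ‖fderiv ℝ (fun y => (φ y + ψ y + ζ (φ y - ψ y)) / 2) x‖ ≤
      ‖fderiv ℝ φ x‖ + ‖fderiv ℝ ψ x‖ := by
  have h1 : HasFDerivAt (fun y => ζ (φ y - ψ y))
      (deriv ζ (φ x - ψ x) • (fderiv ℝ φ x - fderiv ℝ ψ x)) x :=
    (hζ (φ x - ψ x)).hasDerivAt.comp_hasFDerivAt x (hφ.hasFDerivAt.sub hψ.hasFDerivAt)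
  have h2 : HasFDerivAt (fun y => (φ y + ψ y + ζ (φ y - ψ y)) / 2)
      ((1 / 2 : ℝ) • (fderiv ℝ φ x + fderiv ℝ ψ x +
        deriv ζ (φ x - ψ x) • (fderiv ℝ φ x - fderiv ℝ ψ x))) x := by
    have h3 := ((hφ.hasFDerivAt.add hψ.hasFDerivAt).add h1).const_mul (1 / 2)
    refine h3.congr_of_eventuallyEq ?_
    filter_upwards with y
    simp only [Pi.add_apply]
    ring
  rw [h2.fderiv, norm_smul, Real.norm_of_nonneg (by norm_num : (0 : ℝ) ≤ 1 / 2)]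
  have h3 : ‖deriv ζ (φ x - ψ x) • (fderiv ℝ φ x - fderiv ℝ ψ x)‖ ≤
      ‖fderiv ℝ φ x‖ + ‖fderiv ℝ ψ x‖ := by
    rw [norm_smul, Real.norm_eq_abs]
    calc |deriv ζ (φ x - ψ x)| * ‖fderiv ℝ φ x - fderiv ℝ ψ x‖
        ≤ 1 * ‖fderiv ℝ φ x - fderiv ℝ ψ x‖ :=
          mul_le_mul_of_nonneg_right (hζ1 _) (norm_nonneg _)
      _ ≤ _ := by rw [one_mul]; exact norm_sub_le _ _
  have h4 := norm_add_le (fderiv ℝ φ x + fderiv ℝ ψ x)
    (deriv ζ (φ x - ψ x) • (fderiv ℝ φ x - fderiv ℝ ψ x))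
  have h5 := norm_add_le (fderiv ℝ φ x) (fderiv ℝ ψ x)
  linarith

end General

section Inner

variable {E : Type} [NormedAddCommGroup E] [InnerProductSpace ℂ E]

theorem tt_norm_sq_smooth : ContDiff ℝ ∞ (fun y : E => ‖y‖ ^ 2) := by
  let _ : InnerProductSpace ℝ E := InnerProductSpace.complexToReal
  exact contDiff_norm_sq ℝ

theorem tt_norm_sq_fderiv (x : E) : ‖fderiv ℝ (fun y : E => ‖y‖ ^ 2) x‖ ≤ 2 * ‖x‖ := by
  let _ : InnerProductSpace ℝ E := InnerProductSpace.complexToReal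
  have h1 : HasFDerivAt (fun y : E => ‖y‖ ^ 2) (2 • innerSL ℝ x) x :=
    (hasStrictFDerivAt_norm_sq x).hasFDerivAt
  rw [h1.fderiv]
  refine (norm_nsmul_le).trans ?_
  rw [innerSL_apply_norm]
  norm_num

end Inner

end OkaP
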