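import Pool.Agent.H.MP_ceb9a9.Defs

/-!
# MP_ceb9a9: the data sigma, E_R, theta near the removed point (definitions)
-/

set_option autoImplicit false

open scoped Manifold

namespace OkaP

open Set Metric Topology

/-- the entire map `σ` with `σ 0 = p`, inverse of a chart `e` near `0` -/
structure SigmaData (m : ℕ) {X : Type} [MetricSpace X] [ChartedSpace (Fin m → ℂ) X] (p : X) where
  σ : (Fin m → ℂ) → X
  e : OpenPartialHomeomorph X (Fin m → ℂ)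
  c : ℝ
  c_pos : 0 < c
  hol : HolOn m σ univ
  chart : HChart m e
  mem : p ∈ e.source
  e_p : e p = 0
  target : ball (0 : Fin m → ℂ) (8 * c) ⊆ e.target
  symm_eq : ∀ t ∈ ball (0 : Fin m → ℂ) (8 * c), e.symm t = σ t

/-- families over `σ` on the ball of radius `R`, and the transport `θ` -/
structure ThetaData {m : ℕ} {X : Type} [MetricSpace X] [ChartedSpace (Fin m → ℂ) X] {p : X}
    (S : SigmaData m p) (R ε : ℝ) where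
  r : (Fin m → ℂ) → ℝ
  Er : (Fin m → ℂ) × (Fin m → ℂ) → X
  θ : X × (Fin m → ℂ) × ℝ → X
  r_cont : ContinuousOn r (ball (0 : Fin m → ℂ) R)
  r_pos : ∀ t ∈ ball (0 : Fin m → ℂ) R, 0 < r t
  r_c : ∀ t ∈ ball (0 : Fin m → ℂ) S.c, r t = S.c
  hol : HolOn m Er {q | q.1 ∈ ball (0 : Fin m → ℂ) R ∧ ‖q.2‖ < r q.1}
  inj : ∀ t ∈ ball (0 : Fin m → ℂ) R, InjOn (fun u => Er (t, u)) (ball (0 : Fin m → ℂ) (r t))
  der : ∀ t ∈ ball (0 : Fin m → ℂ) R, ∀ u ∈ ball (0 : Fin m → ℂ) (r t),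
    Function.Bijective (mfderiv 𝓘(ℂ, Fin m → ℂ) 𝓘(ℂ, Fin m → ℂ) (fun u => Er (t, u)) u)
  base : ∀ t ∈ ball (0 : Fin m → ℂ) R, Er (t, 0) = S.σ t
  zero : ∀ u ∈ ball (0 : Fin m → ℂ) S.c, Er (0, u) = S.σ u
  close : ∀ t ∈ ball (0 : Fin m → ℂ) S.c, ∀ u ∈ ball (0 : Fin m → ℂ) S.c,
    Er (t, u) ∈ S.e.source ∧ ‖S.e (Er (t, u)) - (t + u)‖ ≤ ε
  θ_cont : ContinuousOn θ (univ ×ˢ (ball (0 : Fin m → ℂ) R ×ˢ Icc (0 : ℝ) 1))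
  θ_zero : ∀ x, ∀ t ∈ ball (0 : Fin m → ℂ) R, θ (x, t, 0) = x
  θ_one : ∀ x, ∀ t ∈ ball (0 : Fin m → ℂ) R, θ (x, t, 1) = p ↔ x = S.σ t
  θ_germ : ∀ t ∈ ball (0 : Fin m → ℂ) R, ∀ s ∈ Icc (0 : ℝ) 1, ∀ u : Fin m → ℂ,
    ‖u‖ < r t / 4 → ‖u‖ < r (((1 - s : ℝ) : ℂ) • t) ∧
      θ (Er (t, u), t, s) = Er (((1 - s : ℝ) : ℂ) • t, u)

end OkaP
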