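import Pool.Agent.H.MP_ceb9a9.ERFam
import Pool.Agent.H.MP_ceb9a9.FamCont

set_option autoImplicit false
open Set Metric Filter
open scoped Topology Manifold

noncomputable section
namespace OkaP

variable {m : ℕ} {X : Type} [MetricSpace X] [ChartedSpace (Fin m → ℂ) X]

/-- the cutoff function. -/
def ThetaStep_chi (s : ℝ) : ℝ := max 0 (min 1 (2 - 4 * s))

theorem ThetaStep_chi_cont : Continuous ThetaStep_chi := by
  unfold ThetaStep_chi
  fun_prop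

theorem ThetaStep_chi_one {s : ℝ} (h : s ≤ 1 / 4) : ThetaStep_chi s = 1 := by
  unfold ThetaStep_chi
  rw [min_eq_left (by linarith), max_eq_right zero_le_one]

theorem ThetaStep_chi_zero {s : ℝ} (h : 1 / 2 ≤ s) : ThetaStep_chi s = 0 := by
  unfold ThetaStep_chi
  exact max_eq_left ((min_le_right _ _).trans (by linarith))

theorem ThetaStep_chi_nonneg (s : ℝ) : 0 ≤ ThetaStep_chi s := le_max_left _ _

theorem ThetaStep_chi_le_one (s : ℝ) : ThetaStep_chi s ≤ 1 :=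
  max_le zero_le_one (min_le_left _ _)

theorem ThetaStep_compact {ρ : ℝ → ℝ} (hρ : Continuous ρ) (ha : Antitone ρ) (R' : ℝ) :
    IsCompact {x : (Fin m → ℂ) × (Fin m → ℂ) | ‖x.1‖ ≤ R' ∧ ‖x.2‖ ≤ ρ ‖x.1‖ / 2} := by
  refine IsCompact.of_isClosed_subset
    ((isCompact_closedBall (0 : Fin m → ℂ) R').prod (isCompact_closedBall (0 : Fin m → ℂ) (ρ 0 / 2)))
    ?_ ?_
  · exact (isClosed_le continuous_fst.norm continuous_const).inter
      (isClosed_le continuous_snd.norm ((hρ.comp continuous_fst.norm).div_const 2))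
  · rintro ⟨t, u⟩ ⟨h1, h2⟩
    refine ⟨by simpa using h1, ?_⟩
    have h3 : ρ ‖t‖ ≤ ρ 0 := ha (norm_nonneg t)
    have h4 : ‖u‖ ≤ ρ ‖t‖ / 2 := h2
    simp only [mem_closedBall, dist_zero_right]
    linarith

/-- one transport step, from `Ef (t, ·)` to `Ef (t', ·)`, `t' = τ t` close to `t`. -/
theorem theta_step [IsManifold 𝓘(ℂ, Fin m → ℂ) ⊤ X] {p : X} {S : SigD m X p} {R ε : ℝ}
    (D : ERData S R ε) (hε : ε ≤ 1 / 64) {R' : ℝ} (hR' : R' < R) (hc : 2 * S.c < R') :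
    ∃ δ > 0, ∃ h : X × ((Fin m → ℂ) × (Fin m → ℂ)) → X,
      ContinuousOn h {q | ‖q.2.1‖ ≤ R' ∧ ‖q.2.1 - q.2.2‖ ≤ δ ∧
        ∃ τ ∈ Icc (0 : ℝ) 1, q.2.2 = (τ : ℂ) • q.2.1} ∧
      (∀ x t, h (x, (t, t)) = x) ∧
      (∀ t, ‖t‖ ≤ R' → ∀ τ ∈ Icc (0 : ℝ) 1, ‖t - (τ : ℂ) • t‖ ≤ δ → ∀ u, ‖u‖ ≤ D.ρ ‖t‖ / 4 →
        h (D.Ef (t, u), (t, (τ : ℂ) • t)) = D.Ef ((τ : ℂ) • t, u)) ∧
      (∀ t, ‖t‖ ≤ R' → ∀ τ ∈ Icc (0 : ℝ) 1, ‖t - (τ : ℂ) • t‖ ≤ δ → ∀ x,
        h (x, (t, (τ : ℂ) • t)) = S.σ ((τ : ℂ) • t) ↔ x = S.σ t) ∧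
      (∀ t, ‖t‖ ≤ S.c → ∀ τ ∈ Icc (0 : ℝ) 1, ‖t - (τ : ℂ) • t‖ ≤ δ → ∀ x,
        h (x, (t, (τ : ℂ) • t)) = x ∨
          (x ∈ S.e.source ∧ ‖S.e x‖ ≤ 2 * S.c ∧ h (x, (t, (τ : ℂ) • t)) ∈ S.e.source ∧
            ‖S.e (h (x, (t, (τ : ℂ) • t))) - S.e x‖ ≤ 4 * ‖t - (τ : ℂ) • t‖)) := by
  classical
  have hcp := S.c_pos
  set dom : Set ((Fin m → ℂ) × (Fin m → ℂ)) := {x | ‖x.1‖ < R ∧ ‖x.2‖ < D.ρ ‖x.1‖} with hdom
  set Cc : Set ((Fin m → ℂ) × (Fin m → ℂ)) := {x | ‖x.1‖ ≤ R' ∧ ‖x.2‖ ≤ D.ρ ‖x.1‖ / 2} with hCc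
  have hCcc : IsCompact Cc := ThetaStep_compact D.ρ_cont D.ρ_anti R'
  have hρp : ∀ s, 0 < D.ρ s := D.ρ_pos
  have hCd : Cc ⊆ dom := by
    rintro ⟨t, u⟩ ⟨h1, h2⟩
    refine ⟨lt_of_le_of_lt h1 hR', lt_of_le_of_lt h2 ?_⟩
    have := hρp ‖t‖
    show D.ρ ‖t‖ / 2 < D.ρ ‖t‖
    linarith
  have hEc : ContinuousOn D.Ef dom := D.fam.hol.continuousOn
  set η : ℝ := min (D.ρ R' / 16) (S.c / 16) with hη
  have hηp : 0 < η := lt_min (by have := hρp R'; positivity) (by positivity)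
  have hηρ : ∀ t : Fin m → ℂ, ‖t‖ ≤ R' → η ≤ D.ρ ‖t‖ / 16 := by
    intro t ht
    have h1 : D.ρ R' ≤ D.ρ ‖t‖ := D.ρ_anti ht
    have h2 : η ≤ D.ρ R' / 16 := min_le_left _ _
    linarith
  have hηc : η ≤ S.c / 16 := min_le_right _ _
  obtain ⟨ε₁, hε₁, hnear⟩ := D.fam.near hCcc hCd hηp
  obtain ⟨δ₁, hδ₁, hmap⟩ := map_near D.fam.isOpen hEc hCcc hCd hε₁
  set δ : ℝ := min (δ₁ / 2) (S.c / 16) with hδ
  have hδp : 0 < δ := lt_min (by positivity) (by positivity)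
  have hδ1 : δ < δ₁ := lt_of_le_of_lt (min_le_left _ _) (by linarith)
  have hδc : δ ≤ S.c / 16 := min_le_right _ _
  -- moving the base point
  have hmove : ∀ t t' u : Fin m → ℂ, (t, u) ∈ Cc → ‖t - t'‖ ≤ δ → (t', u) ∈ dom ∧
      ∃ w, ‖w - u‖ < η ∧ (t, w) ∈ dom ∧ D.Ef (t, w) = D.Ef (t', u) := by
    intro t t' u htu htt
    have h1 : dist (t, u) (t', u) < δ₁ := by
      rw [Prod.dist_eq, dist_self, dist_eq_norm]
      exact max_lt (lt_of_le_of_lt htt hδ1) hδ₁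
    have h2 := hmap _ htu _ h1
    exact ⟨h2.1, hnear t u htu _ h2.2⟩
  -- the closed pieces
  set T₁ : Set (X × ((Fin m → ℂ) × (Fin m → ℂ))) := {q | ‖q.2.1 - q.2.2‖ ≤ δ ∧
    ∃ u, (q.2.1, u) ∈ Cc ∧ D.Ef (q.2.1, u) = q.1} with hT₁
  set T₂ : Set (X × ((Fin m → ℂ) × (Fin m → ℂ))) := {q | (‖q.2.1‖ ≤ R' ∧ ‖q.2.1 - q.2.2‖ ≤ δ) ∧
    ¬ ∃ u, ‖u‖ < D.ρ ‖q.2.1‖ / 2 ∧ D.Ef (q.2.1, u) = q.1} with hT₂
  have hT₁c : IsClosed T₁ := by
    have h1 : IsCompact ((fun x : (Fin m → ℂ) × (Fin m → ℂ) => (x.1, D.Ef x)) '' Cc) :=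
      hCcc.image_of_continuousOn (continuousOn_fst.prodMk (hEc.mono hCd))
    have h2 : IsClosed {q : X × ((Fin m → ℂ) × (Fin m → ℂ)) | ‖q.2.1 - q.2.2‖ ≤ δ} :=
      isClosed_le (by fun_prop) continuous_const
    have h3 : IsClosed ((fun q : X × ((Fin m → ℂ) × (Fin m → ℂ)) => (q.2.1, q.1)) ⁻¹'
        ((fun x : (Fin m → ℂ) × (Fin m → ℂ) => (x.1, D.Ef x)) '' Cc)) :=
      h1.isClosed.preimage (by fun_prop)
    have h4 : T₁ = {q : X × ((Fin m → ℂ) × (Fin m → ℂ)) | ‖q.2.1 - q.2.2‖ ≤ δ} ∩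
        ((fun q : X × ((Fin m → ℂ) × (Fin m → ℂ)) => (q.2.1, q.1)) ⁻¹'
        ((fun x : (Fin m → ℂ) × (Fin m → ℂ) => (x.1, D.Ef x)) '' Cc)) := by
      ext q
      constructor
      · rintro ⟨h5, u, h6, h7⟩
        exact ⟨h5, (q.2.1, u), h6, Prod.ext rfl h7⟩
      · rintro ⟨h5, ⟨t, u⟩, h6, h7⟩
        have h8 : t = q.2.1 := congrArg Prod.fst h7
        have h9 : D.Ef (t, u) = q.1 := congrArg Prod.snd h7
        subst h8
        exact ⟨h5, u, h6, h9⟩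
    rw [h4]
    exact h2.inter h3
  have hT₂c : IsClosed T₂ := by
    have hopen : IsOpen {x : (Fin m → ℂ) × (Fin m → ℂ) | ‖x.1‖ < R ∧ ‖x.2‖ < D.ρ ‖x.1‖ / 2} :=
      (isOpen_lt continuous_fst.norm continuous_const).inter
        (isOpen_lt continuous_snd.norm ((D.ρ_cont.comp continuous_fst.norm).div_const 2))
    have hsub : {x : (Fin m → ℂ) × (Fin m → ℂ) | ‖x.1‖ < R ∧ ‖x.2‖ < D.ρ ‖x.1‖ / 2} ⊆ dom := by
      rintro ⟨t, u⟩ ⟨h1, h2⟩
      refine ⟨h1, lt_trans h2 ?_⟩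
      have := hρp ‖t‖
      show D.ρ ‖t‖ / 2 < D.ρ ‖t‖
      linarith
    have h1 := (D.fam.mono hopen hsub).isOpen_image
    have h2a : IsClosed {q : X × ((Fin m → ℂ) × (Fin m → ℂ)) | ‖q.2.1‖ ≤ R'} :=
      isClosed_le (by fun_prop) continuous_const
    have h2b : IsClosed {q : X × ((Fin m → ℂ) × (Fin m → ℂ)) | ‖q.2.1 - q.2.2‖ ≤ δ} :=
      isClosed_le (by fun_prop) continuous_const
    have h2 : IsClosed {q : X × ((Fin m → ℂ) × (Fin m → ℂ)) | ‖q.2.1‖ ≤ R' ∧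
        ‖q.2.1 - q.2.2‖ ≤ δ} := h2a.inter h2b
    have h3 := (h1.preimage (f := fun q : X × ((Fin m → ℂ) × (Fin m → ℂ)) => (q.2.1, q.1))
      (by fun_prop)).isClosed_compl
    have h4 := h2.inter h3
    convert h4 using 1
    ext q
    constructor
    · rintro ⟨h5, h6⟩
      refine ⟨h5, ?_⟩
      rintro ⟨⟨t, u⟩, ⟨_, h7⟩, h8⟩
      have h9 : t = q.2.1 := congrArg Prod.fst h8
      have h10 : D.Ef (t, u) = q.1 := congrArg Prod.snd h8
      subst h9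
      exact h6 ⟨u, h7, h10⟩
    · rintro ⟨h5, h6⟩
      refine ⟨h5, ?_⟩
      rintro ⟨u, h7, h8⟩
      exact h6 ⟨(q.2.1, u), ⟨lt_of_le_of_lt h5.1 hR', h7⟩, Prod.ext rfl h8⟩
  -- coordinates on the first piece
  choose! U hU using fun (q : X × ((Fin m → ℂ) × (Fin m → ℂ))) (hq : q ∈ T₁) => hq.2
  choose! W hW using fun (q : X × ((Fin m → ℂ) × (Fin m → ℂ))) (hq : q ∈ T₁) =>
    (hmove q.2.1 q.2.2 (U q) (hU q hq).1 hq.1).2
  have hUd : ∀ q ∈ T₁, (q.2.1, U q) ∈ dom := fun q hq => hCd (hU q hq).1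
  have hUd' : ∀ q ∈ T₁, (q.2.2, U q) ∈ dom := fun q hq =>
    (hmove q.2.1 q.2.2 (U q) (hU q hq).1 hq.1).1
  have hUc : ContinuousOn U T₁ :=
    D.fam.solve_cont (ζ := fun q : X × ((Fin m → ℂ) × (Fin m → ℂ)) => q.2.1)
      (by fun_prop) (h := fun q : X × ((Fin m → ℂ) × (Fin m → ℂ)) => q.1) (by fun_prop)
      fun q hq => ⟨hUd q hq, (hU q hq).2⟩
  have hWc : ContinuousOn W T₁ := by
    refine D.fam.solve_cont (ζ := fun q : X × ((Fin m → ℂ) × (Fin m → ℂ)) => q.2.1)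
      (by fun_prop) (h := fun q : X × ((Fin m → ℂ) × (Fin m → ℂ)) => D.Ef (q.2.2, U q)) ?_
      fun q hq => (hW q hq).2
    refine hEc.comp (ContinuousOn.prodMk (by fun_prop) hUc) fun q hq => hUd' q hq
  set V : X × ((Fin m → ℂ) × (Fin m → ℂ)) → (Fin m → ℂ) := fun q =>
    U q + ((ThetaStep_chi (‖U q‖ / D.ρ ‖q.2.1‖) : ℝ) : ℂ) • (W q - U q) with hV
  have hVU : ∀ q, ‖V q - U q‖ ≤ ‖W q - U q‖ := by
    intro q
    have h1 : V q - U q = ((ThetaStep_chi (‖U q‖ / D.ρ ‖q.2.1‖) : ℝ) : ℂ) • (W q - U q) := by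
      simp only [hV]; abel
    rw [h1, norm_smul, Complex.norm_real, Real.norm_of_nonneg (ThetaStep_chi_nonneg _)]
    exact mul_le_of_le_one_left (norm_nonneg _) (ThetaStep_chi_le_one _)
  have hVd : ∀ q ∈ T₁, (q.2.1, V q) ∈ dom := by
    intro q hq
    have h1 := (hU q hq).1
    have h2 : ‖U q‖ ≤ D.ρ ‖q.2.1‖ / 2 := h1.2
    have h3 := (hW q hq).1
    have h4 := hVU q
    have h5 := hηρ q.2.1 h1.1
    have h6 := hρp ‖q.2.1‖
    refine ⟨lt_of_le_of_lt h1.1 hR', ?_⟩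
    have h7 : ‖V q‖ ≤ ‖V q - U q‖ + ‖U q‖ := by
      calc ‖V q‖ = ‖(V q - U q) + U q‖ := by rw [sub_add_cancel]
        _ ≤ _ := norm_add_le _ _
    show ‖V q‖ < D.ρ ‖q.2.1‖
    linarith
  have hVc : ContinuousOn V T₁ := by
    have h1 : ContinuousOn (fun q : X × ((Fin m → ℂ) × (Fin m → ℂ)) => D.ρ ‖q.2.1‖) T₁ :=
      (D.ρ_cont.comp (by fun_prop)).continuousOn
    have h2 : ContinuousOn (fun q : X × ((Fin m → ℂ) × (Fin m → ℂ)) =>
        ((ThetaStep_chi (‖U q‖ / D.ρ ‖q.2.1‖) : ℝ) : ℂ)) T₁ :=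
      Complex.continuous_ofReal.comp_continuousOn
        (ThetaStep_chi_cont.comp_continuousOn (hUc.norm.div h1 fun q _ => (hρp _).ne'))
    have h3 : ContinuousOn (fun q => W q - U q) T₁ := hWc.sub hUc
    exact hUc.add (h2.smul h3)
  set h : X × ((Fin m → ℂ) × (Fin m → ℂ)) → X := fun q =>
    if q ∈ T₁ then D.Ef (q.2.1, V q) else q.1 with hh
  have hh₁ : ∀ q ∈ T₁, h q = D.Ef (q.2.1, V q) := fun q hq => if_pos hq
  have hh₂ : ∀ q, q ∉ T₁ → h q = q.1 := fun q hq => if_neg hq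
  have hinj : ∀ t u v : Fin m → ℂ, (t, u) ∈ dom → (t, v) ∈ dom → D.Ef (t, u) = D.Ef (t, v) →
      u = v := fun t u v => D.fam.inj t u v
  -- a convenient description of the points of the first piece
  have hpt : ∀ t t' u : Fin m → ℂ, (t, u) ∈ Cc → ‖t - t'‖ ≤ δ →
      (D.Ef (t, u), (t, t')) ∈ T₁ ∧ U (D.Ef (t, u), (t, t')) = u := by
    intro t t' u htu htt
    have h1 : (D.Ef (t, u), (t, t')) ∈ T₁ := ⟨htt, u, htu, rfl⟩
    exact ⟨h1, hinj t _ _ (hUd _ h1) (hCd htu) (hU _ h1).2⟩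
  have hone : ∀ q, ‖U q‖ ≤ D.ρ ‖q.2.1‖ / 4 → V q = W q := by
    intro q hq
    have h1 : ThetaStep_chi (‖U q‖ / D.ρ ‖q.2.1‖) = 1 := by
      apply ThetaStep_chi_one
      rw [div_le_iff₀ (hρp _)]
      linarith
    simp only [hV, h1]
    rw [Complex.ofReal_one, one_smul]
    abel
  refine ⟨δ, hδp, h, ?_, ?_, ?_, ?_, ?_⟩
  · -- continuity
    have hcont : ContinuousOn h (T₁ ∪ T₂) := by
      refine ContinuousOn.union_of_isClosed ?_ ?_ hT₁c hT₂c
      · refine ContinuousOn.congr ?_ hh₁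
        exact hEc.comp (ContinuousOn.prodMk (by fun_prop) hVc) fun q hq => hVd q hq
      · refine ContinuousOn.congr (f := fun q => q.1) (by fun_prop) ?_
        intro q hq
        by_cases hq1 : q ∈ T₁
        · rw [hh₁ q hq1]
          have h1 := (hU q hq1).1
          have h2 : ¬ ‖U q‖ < D.ρ ‖q.2.1‖ / 2 := fun h3 => hq.2 ⟨U q, h3, (hU q hq1).2⟩
          have h3 : ThetaStep_chi (‖U q‖ / D.ρ ‖q.2.1‖) = 0 := by
            apply ThetaStep_chi_zero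
            rw [le_div_iff₀ (hρp _)]
            linarith [not_lt.1 h2]
          have h4 : V q = U q := by
            simp only [hV, h3]
            rw [Complex.ofReal_zero, zero_smul, add_zero]
          rw [h4]
          exact (hU q hq1).2
        · exact hh₂ q hq1
    refine hcont.mono ?_
    rintro q ⟨h1, h2, -⟩
    by_cases h3 : ∃ u, ‖u‖ < D.ρ ‖q.2.1‖ / 2 ∧ D.Ef (q.2.1, u) = q.1
    · obtain ⟨u, h4, h5⟩ := h3
      exact Or.inl ⟨h2, u, ⟨h1, h4.le⟩, h5⟩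
    · exact Or.inr ⟨⟨h1, h2⟩, h3⟩
  · -- the diagonal
    intro x t
    by_cases hq : (x, (t, t)) ∈ T₁
    · rw [hh₁ _ hq]
      have h1 : W (x, (t, t)) = U (x, (t, t)) :=
        hinj t _ _ (hW _ hq).2.1 (hUd _ hq) (hW _ hq).2.2
      have h2 : V (x, (t, t)) = U (x, (t, t)) := by
        simp only [hV, h1, sub_self, smul_zero, add_zero]
      rw [h2]
      exact (hU _ hq).2
    · exact hh₂ _ hq
  · -- the germ
    intro t ht τ _ htt u hu
    have h1 : (t, u) ∈ Cc := by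
      refine ⟨ht, hu.trans ?_⟩
      have := hρp ‖t‖
      show D.ρ ‖t‖ / 4 ≤ D.ρ ‖t‖ / 2
      linarith
    obtain ⟨h2, h3⟩ := hpt t ((τ : ℂ) • t) u h1 htt
    rw [hh₁ _ h2, hone _ (by rw [h3]; exact hu)]
    have h4 := (hW _ h2).2.2
    rw [h3] at h4
    exact h4
  · -- the locus
    intro t ht τ _ htt x
    have h0 : (t, (0 : Fin m → ℂ)) ∈ Cc := by
      refine ⟨ht, ?_⟩
      have := hρp ‖t‖
      show ‖(0 : Fin m → ℂ)‖ ≤ D.ρ ‖t‖ / 2
      rw [norm_zero]; linarith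
    obtain ⟨h0', w₀, hw₀, hw₀d, hw₀e⟩ := hmove t ((τ : ℂ) • t) 0 h0 htt
    rw [sub_zero] at hw₀
    have hσ' : S.σ ((τ : ℂ) • t) = D.Ef ((τ : ℂ) • t, 0) := (D.core _ h0'.1).symm
    have hσ : S.σ t = D.Ef (t, 0) := (D.core _ (lt_of_le_of_lt ht hR')).symm
    have hη' := hηρ t ht
    have hρt := hρp ‖t‖
    by_cases hq : (x, (t, (τ : ℂ) • t)) ∈ T₁
    · rw [hh₁ _ hq]
      have hUx := (hU _ hq).2
      have hWx := hW _ hq
      have hVd' := hVd _ hq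
      have hUd1 := hUd _ hq
      have hUd2 := hUd' _ hq
      have hVU' := hVU (x, (t, (τ : ℂ) • t))
      have hone' := hone (x, (t, (τ : ℂ) • t))
      generalize hu : U (x, (t, (τ : ℂ) • t)) = u at *
      generalize hw : W (x, (t, (τ : ℂ) • t)) = w at *
      generalize hv : V (x, (t, (τ : ℂ) • t)) = v at *
      simp only at hUx hWx hVd' hUd1 hUd2 hone' ⊢
      have hx : x = S.σ t ↔ u = 0 := by
        rw [hσ, ← hUx]
        constructor
        · intro h1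
          exact hinj t _ _ hUd1 (hCd h0) h1
        · rintro rfl; rfl
      rw [hx]
      by_cases hu4 : ‖u‖ ≤ D.ρ ‖t‖ / 4
      · rw [hone' hu4, hWx.2.2, hσ']
        constructor
        · intro h1
          exact hinj _ _ _ hUd2 h0' h1
        · rintro rfl; rfl
      · constructor
        · intro h1
          exfalso
          rw [hσ', ← hw₀e] at h1
          have h2 := hinj t _ _ hVd' hw₀d h1
          have h3 : ‖u‖ ≤ ‖v - u‖ + ‖v‖ := by
            calc ‖u‖ = ‖v - (v - u)‖ := by rw [sub_sub_cancel]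
              _ ≤ ‖v‖ + ‖v - u‖ := norm_sub_le _ _
              _ = _ := add_comm _ _
          rw [h2] at h3
          have h4 := hWx.1
          rw [h2] at hVU'
          linarith
        · rintro rfl
          exfalso
          apply hu4
          rw [norm_zero]
          linarith
    · rw [hh₂ _ hq]
      constructor
      · intro h1
        exfalso
        apply hq
        refine ⟨htt, w₀, ⟨ht, ?_⟩, ?_⟩
        · show ‖w₀‖ ≤ D.ρ ‖t‖ / 2
          linarith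
        · show D.Ef (t, w₀) = x
          rw [hw₀e, ← hσ']
          exact h1.symm
      · intro h1
        exfalso
        apply hq
        refine ⟨htt, 0, h0, ?_⟩
        show D.Ef (t, 0) = x
        rw [← hσ]
        exact h1.symm
  · -- the modulus
    intro t ht τ hτ htt x
    by_cases hq : (x, (t, (τ : ℂ) • t)) ∈ T₁
    · right
      have hρc : D.ρ ‖t‖ = S.c := D.ρ_c _ (by linarith)
      have hU1 := (hU _ hq).1.2
      have hUx := (hU _ hq).2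
      have hWx := hW _ hq
      have hVU' := hVU (x, (t, (τ : ℂ) • t))
      rw [hh₁ _ hq]
      generalize hu : U (x, (t, (τ : ℂ) • t)) = u at *
      generalize hw : W (x, (t, (τ : ℂ) • t)) = w at *
      generalize hv : V (x, (t, (τ : ℂ) • t)) = v at *
      simp only at hU1 hUx hWx ⊢
      rw [hρc] at hU1
      set t' : Fin m → ℂ := (τ : ℂ) • t with ht'
      -- the error function
      set φ : (Fin m → ℂ) × (Fin m → ℂ) → (Fin m → ℂ) := fun y => S.e (D.Ef y) - (y.1 + y.2) with hφ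
      have hball : ∀ y ∈ ball ((t, u) : (Fin m → ℂ) × (Fin m → ℂ)) (S.c / 2),
          ‖y.1‖ ≤ 2 * S.c ∧ ‖y.2‖ < S.c := by
        intro y hy
        rw [mem_ball, Prod.dist_eq, max_lt_iff, dist_eq_norm, dist_eq_norm] at hy
        have h1 : ‖y.1‖ ≤ ‖y.1 - t‖ + ‖t‖ := by
          calc ‖y.1‖ = ‖(y.1 - t) + t‖ := by rw [sub_add_cancel]
            _ ≤ _ := norm_add_le _ _
        have h2 : ‖y.2‖ ≤ ‖y.2 - u‖ + ‖u‖ := by
          calc ‖y.2‖ = ‖(y.2 - u) + u‖ := by rw [sub_add_cancel]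
            _ ≤ _ := norm_add_le _ _
        have h3 : ‖y.1 - t‖ < S.c / 2 := hy.1
        have h4 : ‖y.2 - u‖ < S.c / 2 := hy.2
        constructor <;> linarith
      have hsrc : ∀ y ∈ ball ((t, u) : (Fin m → ℂ) × (Fin m → ℂ)) (S.c / 2),
          y ∈ dom ∩ D.Ef ⁻¹' S.e.source := by
        intro y hy
        obtain ⟨h1, h2⟩ := hball y hy
        refine ⟨⟨by linarith, ?_⟩, (D.near y.1 y.2 h1 h2).1⟩
        rw [D.ρ_c _ h1]
        exact h2
      have hφd : DifferentiableOn ℂ φ (ball ((t, u) : (Fin m → ℂ) × (Fin m → ℂ)) (S.c / 2)) :=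
        ((D.fam.hol.hchart S.e_chart).mono hsrc).sub
          (differentiableOn_fst.add differentiableOn_snd)
      have hφb : ∀ y ∈ ball ((t, u) : (Fin m → ℂ) × (Fin m → ℂ)) (S.c / 2), ‖φ y‖ ≤ S.c / 64 := by
        intro y hy
        obtain ⟨h1, h2⟩ := hball y hy
        have h3 := (D.near y.1 y.2 h1 h2).2
        have h4 : ε * ‖y.2‖ ≤ 1 / 64 * ‖y.2‖ := mul_le_mul_of_nonneg_right hε (norm_nonneg _)
        have h5 : φ y = S.e (D.Ef (y.1, y.2)) - (y.1 + y.2) := rfl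
        rw [h5]
        linarith
      have hlip : ∀ y ∈ ball ((t, u) : (Fin m → ℂ) × (Fin m → ℂ)) (S.c / 2 / 2),
          ∀ z ∈ ball ((t, u) : (Fin m → ℂ) × (Fin m → ℂ)) (S.c / 2 / 2),
          ‖φ y - φ z‖ ≤ 1 / 16 * ‖y - z‖ := by
        intro y hy z hz
        have h1 := norm_sub_le_of_bound (by positivity) hφd hφb hy hz
        refine h1.trans (le_of_eq ?_)
        congr 1
        field_simp
        norm_num
      have hηc' : ‖w - u‖ < S.c / 16 := lt_of_lt_of_le hWx.1 hηc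
      have m0 : ((t, u) : (Fin m → ℂ) × (Fin m → ℂ)) ∈
          ball ((t, u) : (Fin m → ℂ) × (Fin m → ℂ)) (S.c / 2 / 2) :=
        mem_ball_self (by positivity)
      have m1 : ((t', u) : (Fin m → ℂ) × (Fin m → ℂ)) ∈
          ball ((t, u) : (Fin m → ℂ) × (Fin m → ℂ)) (S.c / 2 / 2) := by
        rw [mem_ball, Prod.dist_eq, max_lt_iff, dist_eq_norm, dist_self, norm_sub_rev]
        exact ⟨by linarith, by positivity⟩
      have m2 : ((t, w) : (Fin m → ℂ) × (Fin m → ℂ)) ∈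
          ball ((t, u) : (Fin m → ℂ) × (Fin m → ℂ)) (S.c / 2 / 2) := by
        rw [mem_ball, Prod.dist_eq, max_lt_iff, dist_self, dist_eq_norm]
        exact ⟨by positivity, by linarith⟩
      have m3 : ((t, v) : (Fin m → ℂ) × (Fin m → ℂ)) ∈
          ball ((t, u) : (Fin m → ℂ) × (Fin m → ℂ)) (S.c / 2 / 2) := by
        rw [mem_ball, Prod.dist_eq, max_lt_iff, dist_self, dist_eq_norm]
        exact ⟨by positivity, by linarith⟩
      have hsmall : S.c / 2 / 2 ≤ S.c / 2 := by linarith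
      have hwu : ‖w - u‖ ≤ 2 * ‖t - t'‖ := by
        have h1 := hlip _ m1 _ m2
        have h2 : w - u = (t' - t) + (φ (t', u) - φ (t, w)) := by
          have h3 : S.e (D.Ef (t, w)) = S.e (D.Ef (t', u)) := by rw [hWx.2.2]
          simp only [hφ, h3]
          abel
        have h3 : ‖((t', u) : (Fin m → ℂ) × (Fin m → ℂ)) - (t, w)‖ ≤ ‖t - t'‖ + ‖w - u‖ := by
          rw [Prod.mk_sub_mk, Prod.norm_mk, norm_sub_rev t' t, norm_sub_rev u w]
          exact max_le (le_add_of_nonneg_right (norm_nonneg _))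
            (le_add_of_nonneg_left (norm_nonneg _))
        have h4 : ‖w - u‖ ≤ ‖t - t'‖ + ‖φ (t', u) - φ (t, w)‖ := by
          calc ‖w - u‖ = ‖(t' - t) + (φ (t', u) - φ (t, w))‖ := by rw [← h2]
            _ ≤ ‖t' - t‖ + ‖φ (t', u) - φ (t, w)‖ := norm_add_le _ _
            _ = _ := by rw [norm_sub_rev t' t]
        have h5 := norm_nonneg (t - t')
        linarith
      have hx1 : x ∈ S.e.source := by
        rw [← hUx]
        exact (hsrc _ (ball_subset_ball hsmall m0)).2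
      have hv1 : D.Ef (t, v) ∈ S.e.source := (hsrc _ (ball_subset_ball hsmall m3)).2
      refine ⟨hx1, ?_, hv1, ?_⟩
      · have h1 := hφb _ (ball_subset_ball hsmall m0)
        have h2 : S.e x = φ (t, u) + (t + u) := by
          simp only [hφ, hUx]
          abel
        rw [h2]
        have h3 := norm_add_le (φ (t, u)) (t + u)
        have h4 := norm_add_le t u
        linarith
      · have h1 := hlip _ m3 _ m0
        have h2 : S.e (D.Ef (t, v)) - S.e x = (v - u) + (φ (t, v) - φ (t, u)) := by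
          simp only [hφ, hUx]
          abel
        have h3 : ‖((t, v) : (Fin m → ℂ) × (Fin m → ℂ)) - (t, u)‖ ≤ ‖v - u‖ := by
          rw [Prod.mk_sub_mk, Prod.norm_mk, sub_self, norm_zero]
          exact max_le (norm_nonneg _) le_rfl
        have h4 : ‖S.e (D.Ef (t, v)) - S.e x‖ ≤ ‖v - u‖ + ‖φ (t, v) - φ (t, u)‖ := by
          rw [h2]
          exact norm_add_le _ _
        have h5 := norm_nonneg (t - t')
        linarith
    · left
      exact hh₂ _ hq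

end OkaP
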