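import Pool.Agent.H.MP_ceb9a9.Defs
import Pool.Agent.H.MP_ceb9a9.Cplx

/-!
# MP_ceb9a9: the approximation property used in the proof of W_0
-/

set_option autoImplicit false
open Set Metric Filter
open scoped Topology Manifold

noncomputable section
namespace OkaP

/-- `G` can be approximated, over a slightly enlarged real box, by holomorphic families of a fixed
fibre radius. -/
def W0P (m : ℕ) {X : Type} [MetricSpace X] [ChartedSpace (Fin m → ℂ) X] {k : ℕ}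
    (G : (Fin k → ℝ) × (Fin m → ℂ) → X) (a b : Fin k → ℝ) : Prop :=
  ∃ δ > 0, ∃ s > 0, ∀ κ > 0, ∃ (V : Set (Fin k → ℂ)) (Ψ : (Fin k → ℂ) × (Fin m → ℂ) → X),
    IsOpen V ∧ (∀ x ∈ Icc (fun i => a i - δ) (fun i => b i + δ), cplx x ∈ V) ∧
    HolOn m Ψ (V ×ˢ ball (0 : Fin m → ℂ) s) ∧
    ∀ x ∈ Icc (fun i => a i - δ) (fun i => b i + δ), ∀ t ∈ ball (0 : Fin m → ℂ) s,
      dist (Ψ (cplx x, t)) (G (x, t)) < κ

/-- the parameters `δ`, `s` may be decreased -/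
theorem W0P.small {m : ℕ} {X : Type} [MetricSpace X] [ChartedSpace (Fin m → ℂ) X] {k : ℕ}
    {G : (Fin k → ℝ) × (Fin m → ℂ) → X} {a b : Fin k → ℝ} (h : W0P m G a b) :
    ∃ δ0 > 0, ∃ s0 > 0, ∀ δ s κ : ℝ, 0 < δ → δ ≤ δ0 → 0 < s → s ≤ s0 → 0 < κ →
      ∃ (V : Set (Fin k → ℂ)) (Ψ : (Fin k → ℂ) × (Fin m → ℂ) → X),
        IsOpen V ∧ (∀ x ∈ Icc (fun i => a i - δ) (fun i => b i + δ), cplx x ∈ V) ∧
        HolOn m Ψ (V ×ˢ ball (0 : Fin m → ℂ) s) ∧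
        ∀ x ∈ Icc (fun i => a i - δ) (fun i => b i + δ), ∀ t ∈ ball (0 : Fin m → ℂ) s,
          dist (Ψ (cplx x, t)) (G (x, t)) < κ := by
  obtain ⟨δ0, hδ0, s0, hs0, H⟩ := h
  refine ⟨δ0, hδ0, s0, hs0, fun δ s κ hδ hδδ hs hss hκ => ?_⟩
  obtain ⟨V, Ψ, hV, hxV, hΨ, hd⟩ := H κ hκ
  have hsub : Icc (fun i => a i - δ) (fun i => b i + δ) ⊆
      Icc (fun i => a i - δ0) (fun i => b i + δ0) :=
    Icc_subset_Icc (fun i => by dsimp only; linarith) (fun i => by dsimp only; linarith)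
  exact ⟨V, Ψ, hV, fun x hx => hxV x (hsub hx),
    hΨ.mono (prod_mono Subset.rfl (ball_subset_ball hss)),
    fun x hx t ht => hd x (hsub hx) t (ball_subset_ball hss ht)⟩

end OkaP
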