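import Pool.Agent.H.MP_ceb9a9.W0Defs
import Pool.Agent.H.MP_ceb9a9.W0Compare
import Pool.Agent.H.MP_ceb9a9.BoxApprox

/-!
# MP_ceb9a9: W_0, the local statement

Proof.  Let `r' = r / 2`.  `EtCont.exists_coord` for `G` with `K = {z0}`, radius `r' < r`, `η = r / 8` gives `ε' > 0`:
for `u ∈ closedBall 0 r'` and `y` with `dist (G (z0, u)) y < ε'` there is `v ∈ ball 0 r`, `‖v - u‖ < r / 8`,
`G (z0, v) = y`.  `G` is continuous on `univ ×ˢ ball 0 r`; by compactness of `closedBall 0 r'` there is `ε > 0` with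
`dist (G (z0, u)) (G (x, u)) < ε'` for all `x ∈ ball z0 (2 ε)`, `u ∈ closedBall 0 r'`.  So for
`x ∈ ball z0 (2 ε)`, `u ∈ ball 0 r'` choose `C (x, u) ∈ ball 0 r` with `‖C (x, u) - u‖ < r / 8`, `G (z0, C (x, u)) = G (x, u)`.
`C` is continuous on `ball z0 (2 ε) ×ˢ ball 0 r'` by `EtCont.coord_continuous` (for the family `G` restricted to `S = univ`,
`a = fun _ => z0`, `g = G`) and holomorphic in `u` for fixed `x` (`EtHol.coord_hol` for the constant family
`etHol_const`, or `fibre_coord`).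

We show that `ε` works.  Let `a ≤ b`, `Icc a b ⊆ ball z0 ε`.  Take `δ = ε / 2`, `s = r / 4`; the enlarged box
`Q = Icc (a - δ) (b + δ)` is contained in `ball z0 (2 ε)` (sup norm: every point of `Q` is within `δ` of a point of
`Icc a b`).  Let `κ > 0`.  `G (z0, ·)` is continuous on `ball 0 r`, so uniformly continuous near the compact set
`closedBall 0 (5 r / 8)`: there is `κ' ∈ (0, r / 16)` such that `dist (G (z0, v)) (G (z0, w)) < κ` whenever
`v ∈ closedBall 0 (5 r / 8)`, `‖v - w‖ < κ'` (use `map_near`, module Near).  `box_approx` for `C`, the box `Q`, radii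
`s' = s = r / 4 < r'` and `κ'` gives `F` holomorphic on `univ ×ˢ ball 0 r'` with `‖F (cplx x, u) - C (x, u)‖ < κ'` for
`x ∈ Q`, `u ∈ closedBall 0 (r / 4)`.  Put `V = {z | ∀ u ∈ closedBall 0 (r / 4), F (z, u) ∈ ball 0 r}`; it is open
(`IsCompact` of the closed ball and continuity of `F`: tube lemma / `IsOpen` of
`{z | ∀ u ∈ K, (z,u) ∈ O}`), it contains `cplx x`, `x ∈ Q`, since there
`‖F‖ ≤ ‖u‖ + r / 8 + κ' < r`.  `Ψ (z, u) = G (z0, F (z, u))` is holomorphic on `V ×ˢ ball 0 (r / 4)` (composition of the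
holomorphic map `G (z0, ·)` on `ball 0 r`, `hG.fib`, with `F`; `HolOn.comp`), and
`dist (Ψ (cplx x, u)) (G (x, u)) = dist (G (z0, F (cplx x, u))) (G (z0, C (x, u))) < κ` since
`‖C (x, u)‖ ≤ r / 4 + r / 8`.
-/

set_option autoImplicit false
open Set Metric Filter
open scoped Topology Manifold

noncomputable section
namespace OkaP

variable {m : ℕ} {X : Type} [MetricSpace X] [ChartedSpace (Fin m → ℂ) X]
  [IsManifold 𝓘(ℂ, Fin m → ℂ) ⊤ X]

/-- enlarged small boxes stay in a ball. -/
theorem W0Local_box {k : ℕ} {z0 a b : Fin k → ℝ} {ε δ : ℝ} (hδ : 0 ≤ δ) (hab : a ≤ b)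
    (h : Icc a b ⊆ ball z0 ε) :
    Icc (fun i => a i - δ) (fun i => b i + δ) ⊆ ball z0 (ε + δ) := by
  intro x hx
  set y : Fin k → ℝ := fun i => max (a i) (min (x i) (b i)) with hy
  have hyI : y ∈ Icc a b := by
    refine ⟨fun i => le_max_left _ _, fun i => ?_⟩
    exact max_le (hab i) (min_le_right _ _)
  have hxy : dist x y ≤ δ := by
    rw [dist_pi_le_iff hδ]
    intro i
    have h1 : a i - δ ≤ x i := hx.1 i
    have h2 : x i ≤ b i + δ := hx.2 i
    have h3 := hab i
    rw [Real.dist_eq, abs_le]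
    simp only [hy]
    rcases le_total (x i) (b i) with h4 | h4
    · rw [min_eq_left h4]
      rcases le_total (a i) (x i) with h5 | h5
      · rw [max_eq_right h5]
        constructor <;> linarith
      · rw [max_eq_left h5]
        constructor <;> linarith
    · rw [min_eq_right h4, max_eq_right h3]
      constructor <;> linarith
  have h1 := h hyI
  rw [mem_ball] at h1 ⊢
  calc dist x z0 ≤ dist x y + dist y z0 := dist_triangle _ _ _
    _ < ε + δ := by linarith

/-- small boxes have the approximation property. -/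
theorem w0_local {k : ℕ} {G : (Fin k → ℝ) × (Fin m → ℂ) → X} {r : ℝ} (hr : 0 < r)
    (hG : EtCont G univ r) (z0 : Fin k → ℝ) :
    ∃ ε > 0, ∀ a b : Fin k → ℝ, a ≤ b → Icc a b ⊆ ball z0 ε → W0P m G a b := by
  obtain ⟨ε', hε', hfc⟩ := fibre_coord hG (isCompact_singleton (x := z0)) (subset_univ _)
    (s1 := r / 2) (by linarith) (η := r / 8) (by positivity)
  have hopen : IsOpen ((univ : Set (Fin k → ℝ)) ×ˢ ball (0 : Fin m → ℂ) r) :=
    isOpen_univ.prod isOpen_ball
  obtain ⟨ρ, hρ, hnear⟩ := map_near hopen hG.cont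
    ((isCompact_singleton (x := z0)).prod (isCompact_closedBall (0 : Fin m → ℂ) (r / 2)))
    (prod_mono (subset_univ _) (closedBall_subset_ball (by linarith))) hε'
  have hex : ∀ x : Fin k → ℝ, ∃ v : (Fin m → ℂ) → (Fin m → ℂ), x ∈ ball z0 ρ →
      DifferentiableOn ℂ v (ball (0 : Fin m → ℂ) (r / 2)) ∧
        ∀ u ∈ ball (0 : Fin m → ℂ) (r / 2), v u ∈ ball (0 : Fin m → ℂ) r ∧ ‖v u - u‖ < r / 8 ∧
          G (z0, v u) = G (x, u) := by
    intro x
    by_cases hx : x ∈ ball z0 ρ
    · obtain ⟨v, hv⟩ := hfc z0 (mem_singleton z0) (fun u => G (x, u))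
        (HolOn.mono (hG.fib x (mem_univ _)) (ball_subset_ball (by linarith)))
        (fun u hu => by
          have h1 := (hnear (z0, u) ⟨mem_singleton z0, ball_subset_closedBall hu⟩ (x, u) (by
            rw [Prod.dist_eq]
            simp only [dist_self]
            rw [mem_ball, dist_comm] at hx
            exact max_lt hx hρ)).2
          rw [dist_comm]
          exact h1)
      exact ⟨v, fun _ => hv⟩
    · exact ⟨fun u => u, fun h => absurd h hx⟩
  choose v hv using hex
  set C : (Fin k → ℝ) × (Fin m → ℂ) → (Fin m → ℂ) := fun q => v q.1 q.2 with hC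
  have hCc : ContinuousOn C (ball z0 ρ ×ˢ ball (0 : Fin m → ℂ) (r / 2)) :=
    hG.coord_continuous (a := fun _ => z0) (c := C) (g := G) continuousOn_const
      (hG.cont.mono (prod_mono (subset_univ _) (ball_subset_ball (by linarith))))
      (fun _ _ => mem_univ _) (fun q hq => ((hv q.1 hq.1).2 q.2 hq.2).1)
      (fun q hq => ((hv q.1 hq.1).2 q.2 hq.2).2.2)
  refine ⟨ρ / 2, by positivity, fun a b hab hsub => ?_⟩
  refine ⟨ρ / 4, by positivity, r / 4, by positivity, fun κ hκ => ?_⟩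
  have hQ : Icc (fun i => a i - ρ / 4) (fun i => b i + ρ / 4) ⊆ ball z0 ρ :=
    (W0Local_box (by positivity) hab hsub).trans (ball_subset_ball (by linarith))
  obtain ⟨κ1, hκ1, hG1⟩ := map_near (f := fun w => G (z0, w)) isOpen_ball
    (HolOn.continuousOn (hG.fib z0 (mem_univ _))) (isCompact_closedBall (0 : Fin m → ℂ) (5 * r / 8))
    (closedBall_subset_ball (by linarith)) hκ
  obtain ⟨F, hFd, hFn⟩ := box_approx (k := k) (a := fun i => a i - ρ / 4)
    (b := fun i => b i + ρ / 4) (fun i => by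
      have := hab i
      show a i - ρ / 4 ≤ b i + ρ / 4
      linarith) (s := r / 2) (s' := r / 4) (by linarith) (C := C)
    (hCc.mono (prod_mono hQ Subset.rfl))
    (fun x hx => (hv x (hQ hx)).1) hκ1
  have hsub4 : closedBall (0 : Fin m → ℂ) (r / 4) ⊆ ball 0 (r / 2) :=
    closedBall_subset_ball (by linarith)
  have hkey : ∀ x ∈ Icc (fun i => a i - ρ / 4) (fun i => b i + ρ / 4),
      ∀ u ∈ closedBall (0 : Fin m → ℂ) (r / 4), F (cplx x, u) ∈ ball (0 : Fin m → ℂ) r ∧
        dist (G (z0, F (cplx x, u))) (G (x, u)) < κ := by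
    intro x hx u hu
    have h1 := (hv x (hQ hx)).2 u (hsub4 hu)
    have h2 := hFn x hx u hu
    have h3 : C (x, u) ∈ closedBall (0 : Fin m → ℂ) (5 * r / 8) := by
      rw [mem_closedBall_zero_iff] at hu ⊢
      have h4 : ‖C (x, u)‖ ≤ ‖C (x, u) - u‖ + ‖u‖ := by
        have : C (x, u) = (C (x, u) - u) + u := by abel
        conv_lhs => rw [this]
        exact norm_add_le _ _
      have h5 : ‖C (x, u) - u‖ < r / 8 := h1.2.1
      linarith
    have h6 := hG1 (C (x, u)) h3 (F (cplx x, u)) (by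
      rw [dist_comm, dist_eq_norm]
      exact h2)
    refine ⟨h6.1, ?_⟩
    have h7 : G (z0, C (x, u)) = G (x, u) := h1.2.2
    rw [← h7, dist_comm]
    exact h6.2
  set O : Set ((Fin k → ℂ) × (Fin m → ℂ)) :=
    (univ ×ˢ ball (0 : Fin m → ℂ) (r / 2)) ∩ F ⁻¹' ball (0 : Fin m → ℂ) r with hO
  have hOo : IsOpen O :=
    hFd.continuousOn.isOpen_inter_preimage (isOpen_univ.prod isOpen_ball) isOpen_ball
  refine ⟨{z | ∀ u ∈ closedBall (0 : Fin m → ℂ) (r / 4), (z, u) ∈ O},
    fun q => G (z0, F q), ?_, ?_, ?_, ?_⟩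
  · rw [isOpen_iff_mem_nhds]
    intro z hz
    exact (isCompact_closedBall (0 : Fin m → ℂ) (r / 4)).eventually_forall_of_forall_eventually
      fun u hu => hOo.mem_nhds (hz u hu)
  · intro x hx u hu
    exact ⟨⟨mem_univ _, hsub4 hu⟩, (hkey x hx u hu).1⟩
  · refine HolOn.comp (f := fun w => G (z0, w)) (V := ball (0 : Fin m → ℂ) r) (g := F)
      (hG.fib z0 (mem_univ _)) (hFd.mono ?_) ?_
    · intro q hq
      exact ⟨mem_univ _, ball_subset_ball (by linarith) hq.2⟩
    · intro q hq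
      exact (hq.1 q.2 (ball_subset_closedBall hq.2)).2
  · intro x hx t ht
    exact (hkey x hx t (ball_subset_closedBall ht)).2

end OkaP
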